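import Pool.Agent.H44.ARWDefs

open MeasureTheory Real Set
open scoped ENNReal

namespace Pool.Agent.H44.ARW

variable {d : ℕ}

noncomputable def E (x : ℝ) : ℝ≥0∞ := ENNReal.ofReal (exp x)

lemma E_add (x y : ℝ) : E x * E y = E (x + y) := by
  rw [E, E, E, exp_add, ENNReal.ofReal_mul (exp_pos _).le]
lemma E_le {x y : ℝ} (h : x ≤ y) : E x ≤ E y := ENNReal.ofReal_le_ofReal (exp_le_exp.2 h)
lemma E_top (x : ℝ) : E x ≠ ∞ := ENNReal.ofReal_ne_top
lemma E_ne (x : ℝ) : E x ≠ 0 := by simp [E, exp_pos]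
lemma E_zero : E 0 = 1 := by simp [E]
lemma E_pow (x : ℝ) (n : ℕ) : E x ^ n = E (n * x) := by
  rw [E, E, exp_nat_mul, ENNReal.ofReal_pow (exp_pos _).le]
lemma E_log {x : ℝ} (h : 0 < x) : E (log x) = ENNReal.ofReal x := by rw [E, exp_log h]
lemma le_E {C : ℝ≥0∞} (h : C ≠ ∞) : ∃ c, C ≤ E c :=
  ⟨C.toReal, by
    conv_lhs => rw [← ENNReal.ofReal_toReal h]
    exact ENNReal.ofReal_le_ofReal (by linarith [add_one_le_exp C.toReal])⟩

noncomputable def sz (x : G d) : ℝ := ‖x‖ + 1
noncomputable def lg (x : G d) : ℝ := log (sz x)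
noncomputable def K (a : ℝ) (x : G d) : ℝ≥0∞ := E (-a * lg x)

lemma sz_one (x : G d) : 1 ≤ sz x := by simp [sz]
lemma sz_pos (x : G d) : 0 < sz x := one_pos.trans_le (sz_one x)
lemma lg_nonneg (x : G d) : 0 ≤ lg x := log_nonneg (sz_one x)
lemma sz_neg (x : G d) : sz (-x) = sz x := by simp [sz]
lemma sz_rev (x y : G d) : sz (x - y) = sz (y - x) := by rw [← sz_neg, neg_sub]
lemma K_neg (a : ℝ) (x : G d) : K a (-x) = K a x := by simp [K, lg, sz_neg]
lemma K_rev (a : ℝ) (x y : G d) : K a (x - y) = K a (y - x) := by rw [← K_neg, neg_sub]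
lemma sz_tri {x y z : G d} (h : x = y + z) : sz x ≤ sz y + sz z := by
  have := norm_add_le y z
  simp only [sz, h]; linarith
lemma l2 : 0 < log 2 := log_pos one_lt_two
lemma log_le2 {r s : ℝ} (hr : 0 < r) (h : r ≤ 2 * s) : log r ≤ log 2 + log s := by
  rw [← log_mul two_ne_zero (by linarith : 0 < s).ne']; exact log_le_log hr h

lemma geo {t : ℝ} (ht : 0 < t) : ∃ C, ∀ (p : Set ℕ) (φ : ℕ → ℕ) (F : ℕ → ℝ≥0∞) (c : ℝ),
    InjOn φ p → (∀ n ∈ p, F n ≤ E (c - t * φ n)) → ∑' n, p.indicator F n ≤ E (C + c) := by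
  have h1 : E (-t) < 1 := by rw [E, ENNReal.ofReal_lt_one]; exact exp_lt_one_iff.2 (by linarith)
  obtain ⟨C, hC⟩ := le_E (C := (1 - E (-t))⁻¹) (ENNReal.inv_ne_top.2 (tsub_pos_of_lt h1).ne')
  refine ⟨C, fun p φ F c hφ hF => ?_⟩
  rw [← tsum_subtype, ← E_add, mul_comm]
  calc _ ≤ ∑' n : p, E c * E (-t) ^ φ n := ENNReal.tsum_le_tsum fun n => by
        rw [E_pow, E_add]; exact (hF n n.2).trans (E_le (by linarith))
    _ ≤ E c * ∑' n, E (-t) ^ n := by
        rw [ENNReal.tsum_mul_left]
        exact mul_le_mul_right (ENNReal.tsum_comp_le_tsum_of_injective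
          (f := fun n : p => φ n) hφ.injective (fun n => E (-t) ^ n)) _
    _ ≤ _ := by rw [ENNReal.tsum_geometric]; exact mul_le_mul_right hC _

lemma dyad (m : G d → ℝ≥0∞) {a : ℝ} (ha : 0 ≤ a) (p : Set ℕ) (q : Set (G d))
    (h : ∀ v ∈ q, ∀ n : ℕ, 2 ^ n ≤ sz v → sz v < 2 ^ (n + 1) → n ∈ p) :
    ∑' v, q.indicator (fun v => m v * K a v) v ≤ ∑' n, p.indicator (fun n : ℕ =>
      E (-a * (n * log 2)) * ∑' v, {v | sz v < 2 ^ (n + 1)}.indicator m v) n := by
  calc _ ≤ ∑' v, ∑' n, p.indicator (fun n : ℕ =>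
        E (-a * (n * log 2)) * {v | sz v < 2 ^ (n + 1)}.indicator m v) n := by
        refine ENNReal.tsum_le_tsum fun v => ?_
        by_cases hv : v ∈ q
        swap
        · simp [hv]
        obtain ⟨n, h1, h2⟩ := exists_nat_pow_near (sz_one v) one_lt_two
        refine le_trans ?_ (ENNReal.le_tsum n)
        rw [indicator_of_mem hv, indicator_of_mem (h v hv n h1 h2),
          indicator_of_mem (show v ∈ {v | sz v < 2 ^ (n + 1)} from h2), mul_comm]
        refine mul_le_mul_left (E_le ?_) _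
        have := log_le_log (by positivity) h1
        rw [log_pow] at this
        unfold lg; nlinarith
    _ = _ := by
        rw [ENNReal.tsum_comm]
        refine tsum_congr fun n => ?_
        by_cases hn : n ∈ p <;> simp [hn, ENNReal.tsum_mul_left]

lemma ballG {a s : ℝ} (ha : 0 ≤ a) (has : a < s) : ∃ C, ∀ (m : G d → ℝ≥0∞) (L : ℕ) (c : ℝ),
    (∀ n ≤ L, ∑' v, {v | sz v < 2 ^ (n + 1)}.indicator m v ≤ E (c + s * (n * log 2))) →
    ∑' v, {v | sz v < 2 ^ (L + 1)}.indicator (fun v => m v * K a v) v ≤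
      E (C + (c + (s - a) * (L * log 2))) := by
  obtain ⟨C, hC⟩ := geo (t := (s - a) * log 2) (mul_pos (by linarith) l2)
  refine ⟨C, fun m L c h => (dyad m ha (Iic L) _ fun v hv n h1 _ => ?_).trans
    (hC _ (fun n => L - n) _ _ (fun x hx y hy e => ?_) fun n hn => ?_)⟩
  · have := (pow_lt_pow_iff_right₀ one_lt_two).1 (h1.trans_lt hv)
    exact Nat.lt_succ_iff.1 this
  · simp only [mem_Iic] at hx hy e; omega
  · refine (mul_le_mul_right (h n hn) _).trans ?_
    rw [E_add, Nat.cast_sub hn]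
    exact E_le (le_of_eq (by ring))

lemma cnt (n : ℕ) : ∑' v : G d, {v | sz v < 2 ^ (n + 1)}.indicator (fun _ => (1 : ℝ≥0∞)) v ≤
    E (2 * d * log 2 + d * (n * log 2)) := by
  classical
  set T : Finset (G d) := Fintype.piFinset fun _ => Finset.Ico (-2 ^ (n + 1)) (2 ^ (n + 1))
  have hT : T.card = (2 ^ (n + 2)) ^ d := by
    simp only [T, Fintype.card_piFinset, Int.card_Ico, Finset.prod_const, Finset.card_univ,
      Fintype.card_fin]
    congr 1
    rw [show (2 : ℤ) ^ (n + 1) - -2 ^ (n + 1) = ((2 ^ (n + 2) : ℕ) : ℤ) by push_cast; ring,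
      Int.toNat_natCast]
  calc _ ≤ ∑' v : G d, (T : Set (G d)).indicator (fun _ => (1 : ℝ≥0∞)) v := by
        refine ENNReal.tsum_le_tsum fun v => indicator_le_indicator_of_subset (fun v hv => ?_)
          (fun _ => zero_le) v
        simp only [T, Fintype.coe_piFinset, mem_pi, mem_univ, Finset.coe_Ico, mem_Ico, true_imp_iff]
        intro j
        have h1 := norm_le_pi_norm v j
        have h2 : (|(v j : ℝ)|) < 2 ^ (n + 1) := by
          rw [Int.norm_eq_abs] at h1
          simp only [mem_ofPred_eq, sz] at hv; linarith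
        have h3 : |v j| < 2 ^ (n + 1) := by exact_mod_cast h2
        exact ⟨(abs_lt.1 h3).1.le, (abs_lt.1 h3).2⟩
    _ = T.card := by rw [← tsum_subtype]; simp
    _ = _ := by
        rw [hT, show 2 * d * log 2 + d * (n * log 2) = log ((2 ^ (n + 2)) ^ d) by
          rw [log_pow, log_pow]; push_cast; ring, E_log (by positivity)]
        rw [ENNReal.ofReal_pow (by positivity), ENNReal.ofReal_pow (by positivity)]; simp

lemma ball {a : ℝ} (ha : 0 ≤ a) (had : a < d) : ∃ C, ∀ R : ℝ, 1 ≤ R →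
    ∑' v : G d, {v | sz v ≤ R}.indicator (K a) v ≤ E (C + (d - a) * log R) := by
  obtain ⟨C, hC⟩ := ballG (d := d) ha had
  refine ⟨C + 2 * d * log 2, fun R hR => ?_⟩
  obtain ⟨L, h1, h2⟩ := exists_nat_pow_near hR one_lt_two
  have h := hC (fun _ => 1) L _ fun n _ => cnt n
  simp only [one_mul] at h
  refine le_trans (ENNReal.tsum_le_tsum fun v => indicator_le_indicator_of_subset
    (fun v hv => lt_of_le_of_lt hv h2) (fun _ => zero_le) v) (h.trans (E_le ?_))
  have := log_le_log (by positivity) h1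
  rw [log_pow] at this
  nlinarith

lemma tail {a : ℝ} (had : d < a) : ∃ C, ∀ R : ℝ, 1 ≤ R →
    ∑' v : G d, {v | R ≤ sz v}.indicator (K a) v ≤ E (C + (d - a) * log R) := by
  obtain ⟨C, hC⟩ := geo (t := (a - d) * log 2) (mul_pos (by linarith) l2)
  refine ⟨C + 2 * d * log 2 + (a - d) * log 2, fun R hR => ?_⟩
  obtain ⟨L, h1, h2⟩ := exists_nat_pow_near hR one_lt_two
  have h := dyad (d := d) (fun _ => 1) (a := a) (by linarith [(Nat.cast_nonneg d : (0 : ℝ) ≤ d)])
    (Ici L) {v | R ≤ sz v} fun v hv n _ h4 => Nat.lt_succ_iff.1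
      ((pow_lt_pow_iff_right₀ one_lt_two).1 (h1.trans_lt (lt_of_le_of_lt hv h4)))
  simp only [one_mul] at h
  refine h.trans ((hC _ (fun n => n - L) _ (2 * d * log 2 + (d - a) * (L * log 2))
    (fun x hx y hy e => ?_) fun n hn => ?_).trans (E_le ?_))
  · simp only [mem_Ici] at hx hy e; omega
  · refine (mul_le_mul_right (cnt n) _).trans ?_
    rw [E_add, Nat.cast_sub hn]
    exact E_le (le_of_eq (by ring))
  · have := log_le_log (by positivity) h2.le
    rw [log_pow] at this
    push_cast at this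
    nlinarith

lemma tsl (f : G d → ℝ≥0∞) (x : G d) : ∑' u, f (x - u) = ∑' u, f u := (Equiv.subLeft x).tsum_eq f
lemma tsr (f : G d → ℝ≥0∞) (x : G d) : ∑' u, f (u - x) = ∑' u, f u := (Equiv.subRight x).tsum_eq f
lemma tal (f : G d → ℝ≥0∞) (x : G d) : ∑' u, f (x + u) = ∑' u, f u := (Equiv.addLeft x).tsum_eq f

lemma E3 (a b c : ℝ) : ∃ C, E a + E b + E c ≤ E C :=
  le_E (by finiteness [E_top a, E_top b, E_top c])

lemma conv {a b : ℝ} (ha : 0 ≤ a) (hb : 0 ≤ b) (had : a < d) (hbd : b < d) (hab : d < a + b) :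
    ∃ C, ∀ x : G d, ∑' u, K a u * K b (x - u) ≤ E C * K (a + b - d) x := by
  obtain ⟨C1, h1⟩ := tail (d := d) hab
  obtain ⟨C2, h2⟩ := ball ha had
  obtain ⟨C3, h3⟩ := ball hb hbd
  obtain ⟨C, hC⟩ := E3 (b * log 2 + C1) (b * log 2 + C2 + (d - a) * log 3)
    (a * log 2 + C3 + (d - b) * log 3)
  refine ⟨C, fun x => ?_⟩
  have hx := sz_one x
  have pt : ∀ u, K a u * K b (x - u) ≤ E (b * log 2) * {v | 2 * sz x ≤ sz v}.indicator (K (a + b)) u
      + E (b * log 2 - b * lg x) * {v | sz v ≤ 3 * sz x}.indicator (K a) u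
      + E (a * log 2 - a * lg x) * {v | sz v ≤ 3 * sz x}.indicator (K b) (x - u) := by
    intro u
    have t1 := sz_tri (x := x) (y := u) (z := x - u) (by abel)
    have t2 := sz_tri (x := u) (y := x) (z := -(x - u)) (by abel)
    have t3 := sz_tri (x := x - u) (y := x) (z := -u) (by abel)
    rw [sz_neg] at t2 t3
    rcases le_total (2 * sz x) (sz u) with c1 | c1
    · refine le_add_right (le_add_right ?_)
      rw [indicator_of_mem (show u ∈ {v | 2 * sz x ≤ sz v} from c1)]
      have := log_le2 (sz_pos u) (show sz u ≤ 2 * sz (x - u) by linarith)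
      simp only [K, E_add, lg]
      exact E_le (by nlinarith)
    rcases le_total (sz u) (sz (x - u)) with c2 | c2
    · refine le_add_right (le_add_left ?_)
      rw [indicator_of_mem (show u ∈ {v | sz v ≤ 3 * sz x} from by simp only [mem_ofPred_eq]; linarith)]
      have := log_le2 (sz_pos x) (show sz x ≤ 2 * sz (x - u) by linarith)
      simp only [K, E_add, lg]
      exact E_le (by nlinarith)
    · refine le_add_left ?_
      rw [indicator_of_mem (show x - u ∈ {v | sz v ≤ 3 * sz x} from by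
        simp only [mem_ofPred_eq]; linarith)]
      have := log_le2 (sz_pos x) (show sz x ≤ 2 * sz u by linarith)
      simp only [K, E_add, lg]
      exact E_le (by nlinarith)
  refine (ENNReal.tsum_le_tsum pt).trans ?_
  rw [ENNReal.tsum_add, ENNReal.tsum_add, ENNReal.tsum_mul_left, ENNReal.tsum_mul_left,
    ENNReal.tsum_mul_left, tsl]
  refine le_trans ?_ (mul_le_mul_left hC _)
  rw [add_mul, add_mul]
  have e3 : log (3 * sz x) = log 3 + lg x := log_mul three_ne_zero (sz_pos x).ne'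
  have e2 : log (2 * sz x) = log 2 + lg x := log_mul two_ne_zero (sz_pos x).ne'
  refine add_le_add (add_le_add ((mul_le_mul_right (h1 _ (by linarith)) _).trans ?_)
    ((mul_le_mul_right (h2 _ (by linarith)) _).trans ?_))
    ((mul_le_mul_right (h3 _ (by linarith)) _).trans ?_)
  · simp only [K, E_add, e2]; exact E_le (by nlinarith [l2])
  · simp only [K, E_add, e3]; exact E_le (le_of_eq (by ring))
  · simp only [K, E_add, e3]; exact E_le (le_of_eq (by ring))

lemma convlow {a b : ℝ} (ha : 0 ≤ a) (hb : 0 ≤ b) (x : G d) :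
    E (-(b + d) * log 2) * K (a + b - d) x ≤ ∑' u, K a u * K b (x - u) := by
  classical
  set n := ⌊‖x‖⌋₊
  set T : Finset (G d) := Fintype.piFinset fun _ => Finset.Icc 0 (n : ℤ)
  have hT : T.card = (n + 1) ^ d := by simp [T, Fintype.card_piFinset]
  have h1 : ∀ u ∈ T, E (-b * log 2 - (a + b) * lg x) ≤ K a u * K b (x - u) := by
    intro u hu
    have h2 : ‖u‖ ≤ ‖x‖ := by
      refine (pi_norm_le_iff_of_nonneg (norm_nonneg _)).2 fun j => ?_
      have := Finset.mem_Icc.1 (Fintype.mem_piFinset.1 hu j)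
      have h3 : (u j : ℝ) ≤ n := by exact_mod_cast this.2
      rw [Int.norm_eq_abs, abs_of_nonneg (by exact_mod_cast this.1)]
      exact h3.trans (Nat.floor_le (norm_nonneg _))
    have h3 : lg u ≤ lg x := log_le_log (sz_pos u) (by simp only [sz]; linarith)
    have h4 := log_le2 (sz_pos (x - u)) (show sz (x - u) ≤ 2 * sz x by
      simp only [sz]; linarith [norm_sub_le x u])
    simp only [K, E_add]
    exact E_le (by unfold lg at *; nlinarith)
  refine le_trans ?_ ((Finset.card_nsmul_le_sum T _ _ h1).trans (ENNReal.sum_le_tsum T))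
  have h5 := log_le2 (sz_pos x) (show sz x ≤ 2 * (n + 1 : ℝ) by
    simp only [sz]; linarith [Nat.lt_floor_add_one ‖x‖, (Nat.cast_nonneg n : (0 : ℝ) ≤ n)])
  have h6 : (T.card : ℝ≥0∞) = E (d * log (n + 1)) := by
    rw [← E_pow, E_log (by positivity), hT]
    push_cast
    rw [ENNReal.ofReal_add (by positivity) zero_le_one]; simp
  rw [nsmul_eq_mul, h6]
  simp only [K, E_add]
  exact E_le (by unfold lg; nlinarith [(Nat.cast_nonneg d : (0 : ℝ) ≤ d)])

lemma three {a c : ℝ} (ha : 0 ≤ a) (hc : 0 ≤ c) (had : a < d) (hcd : c < d) (hac : d < a + c) :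
    ∃ C, ∀ z p : G d, ∑' w, K a w * K c (z - w) * K (a + c - d) (w - p) ≤
      E C * (K (a + c - d) z * (K (a + c - d) p + K (a + c - d) (p - z))) := by
  obtain ⟨C1, h1⟩ := conv ha hc had hcd hac
  set b := a + c - d with hb
  obtain ⟨C2, h2⟩ := ball (d := d) (a := b) (by linarith) (by linarith)
  obtain ⟨C, hC⟩ := E3 (b * log 2 + C1) ((a + c + b) * log 2 + C2) 0
  refine ⟨C, fun z p => ?_⟩
  set r := min (sz p) (sz (p - z)) with hr
  have r1 : 1 ≤ r := le_min (sz_one _) (sz_one _)
  have rp : r ≤ sz p := min_le_left _ _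
  have rz : r ≤ sz (p - z) := min_le_right _ _
  have hK : E (-b * log r) ≤ K b p + K b (p - z) := by
    rcases min_choice (sz p) (sz (p - z)) with h | h <;> rw [hr, h]
    · exact le_self_add
    · exact le_add_self
  have pt : ∀ w, K a w * K c (z - w) * K b (w - p) ≤
      E (b * log 2 - b * log r) * (K a w * K c (z - w)) +
      E ((a + c) * log 2 - a * lg p - c * lg (p - z)) * {v | sz v ≤ r}.indicator (K b) (w - p) := by
    intro w
    rcases le_total r (2 * sz (w - p)) with c1 | c1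
    · refine le_add_right ?_
      have := log_le2 (by linarith) c1
      simp only [K, E_add, lg]
      exact E_le (by nlinarith)
    · refine le_add_left ?_
      have t1 := sz_tri (x := p) (y := w) (z := -(w - p)) (by abel)
      have t2 := sz_tri (x := p - z) (y := -(z - w)) (z := -(w - p)) (by abel)
      rw [sz_neg] at t1
      rw [sz_neg, sz_neg] at t2
      rw [indicator_of_mem (show w - p ∈ {v | sz v ≤ r} from by
        simp only [mem_ofPred_eq]; linarith [sz_pos (w - p)])]
      have a1 := log_le2 (sz_pos p) (show sz p ≤ 2 * sz w by linarith)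
      have a2 := log_le2 (sz_pos (p - z)) (show sz (p - z) ≤ 2 * sz (z - w) by linarith)
      simp only [K, E_add, lg]
      exact E_le (by nlinarith)
  refine (ENNReal.tsum_le_tsum pt).trans ?_
  rw [ENNReal.tsum_add, ENNReal.tsum_mul_left, ENNReal.tsum_mul_left, tsr]
  refine le_trans ?_ (mul_le_mul' (le_self_add.trans hC) (mul_le_mul_right hK _))
  rw [add_mul (E _)]
  refine add_le_add ((mul_le_mul_right (h1 z) _).trans ?_) ((mul_le_mul_right (h2 r r1) _).trans ?_)
  · simp only [K, E_add]; exact E_le (le_of_eq (by ring))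
  · simp only [K, E_add]
    refine E_le ?_
    have t := sz_tri (x := z) (y := p) (z := -(p - z)) (by abel)
    rw [sz_neg] at t
    rcases le_total (sz p) (sz (p - z)) with h | h
    · have a1 := log_le2 (sz_pos z) (show sz z ≤ 2 * sz (p - z) by linarith)
      have a2 := log_le_log (sz_pos p) h
      rw [hr, min_eq_left h]
      unfold lg
      nlinarith [mul_le_mul_of_nonneg_left a1 (show 0 ≤ b by linarith),
        mul_le_mul_of_nonneg_left a2 (show 0 ≤ d - a by linarith)]
    · have a1 := log_le2 (sz_pos z) (show sz z ≤ 2 * sz p by linarith)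
      have a2 := log_le_log (sz_pos _) h
      rw [hr, min_eq_right h]
      unfold lg
      nlinarith [mul_le_mul_of_nonneg_left a1 (show 0 ≤ b by linarith),
        mul_le_mul_of_nonneg_left a2 (show 0 ≤ d - c by linarith)]

end Pool.Agent.H44.ARW
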