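import Mathlib

/-! Harris inequality and independence for infinite product measures. -/

open Set Filter MeasureTheory ProbabilityTheory Measure
open scoped symmDiff

namespace Pool.Agent.H44.Har

variable {ι X : Type} [MeasurableSpace X] (P : ι → Measure X) [∀ i, IsProbabilityMeasure (P i)]

open Classical in
noncomputable def mix (S : Set ι) (ω ω' : ι → X) : ι → X := fun i => if i ∈ S then ω i else ω' i

omit [MeasurableSpace X] in
lemma mix_mem {S : Set ι} (ω ω' : ι → X) {i : ι} (h : i ∈ S) : mix S ω ω' i = ω i := if_pos h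

omit [MeasurableSpace X] in
lemma mix_not {S : Set ι} (ω ω' : ι → X) {i : ι} (h : i ∉ S) : mix S ω ω' i = ω' i := if_neg h

lemma measurable_mix (S : Set ι) : Measurable fun z : (ι → X) × (ι → X) => mix S z.1 z.2 := by
  refine measurable_pi_lambda _ fun i => ?_
  unfold mix
  split_ifs <;> fun_prop

lemma mp_mix (S : Set ι) : MeasurePreserving (fun z : (ι → X) × (ι → X) => mix S z.1 z.2)
    ((infinitePi P).prod (infinitePi P)) (infinitePi P) := by
  classical
  refine ⟨measurable_mix S, eq_infinitePi _ fun s t ht => ?_⟩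
  rw [map_apply (measurable_mix S) (.pi s.countable_toSet fun i _ => ht i)]
  have : (fun z : (ι → X) × (ι → X) => mix S z.1 z.2) ⁻¹' Set.pi s t =
      Set.pi (s.filter (· ∈ S)) t ×ˢ Set.pi (s.filter (· ∉ S)) t := by
    ext z
    simp only [mem_preimage, Set.mem_pi, Finset.mem_coe, Set.mem_prod, Finset.mem_filter]
    refine ⟨fun h => ⟨fun i hi => ?_, fun i hi => ?_⟩, fun h i hi => ?_⟩
    · have := h i hi.1; rwa [mix_mem _ _ hi.2] at this
    · have := h i hi.1; rwa [mix_not _ _ hi.2] at this
    · by_cases hS : i ∈ S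
      · rw [mix_mem _ _ hS]; exact h.1 i ⟨hi, hS⟩
      · rw [mix_not _ _ hS]; exact h.2 i ⟨hi, hS⟩
  rw [this, prod_prod, infinitePi_pi _ fun i _ => ht i, infinitePi_pi _ fun i _ => ht i,
    Finset.prod_filter_mul_prod_filter_not]

theorem indep_of {S T : Set ι} (hST : Disjoint S T) {A B : Set (ι → X)} (hA : MeasurableSet A)
    (hB : MeasurableSet B) (dA : DependsOn (· ∈ A) S) (dB : DependsOn (· ∈ B) T) :
    infinitePi P (A ∩ B) = infinitePi P A * infinitePi P B := by
  rw [← (mp_mix P S).measure_preimage (hA.inter hB).nullMeasurableSet, ← prod_prod]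
  congr 1
  ext z
  simp only [mem_preimage, mem_inter_iff, Set.mem_prod]
  exact and_congr (iff_of_eq (dA (x := mix S z.1 z.2) (y := z.1) fun i hi => mix_mem _ _ hi))
    (iff_of_eq (dB (x := mix S z.1 z.2) (y := z.2) fun i hi =>
      mix_not _ _ (disjoint_right.1 hST hi)))

structure B01 {α : Type} [MeasurableSpace α] (f : α → ℝ) : Prop where
  m : Measurable f
  b : ∀ x, f x ∈ Icc (0 : ℝ) 1

section
variable {α β : Type} [MeasurableSpace α] [MeasurableSpace β]

lemma B01.int {f : α → ℝ} (h : B01 f) (μ : Measure α) [IsFiniteMeasure μ] : Integrable f μ :=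
  .of_mem_Icc 0 1 h.m.aemeasurable (Eventually.of_forall h.b)

lemma B01.mul {f g : α → ℝ} (hf : B01 f) (hg : B01 g) : B01 fun x => f x * g x :=
  ⟨hf.m.mul hg.m, fun x => ⟨mul_nonneg (hf.b x).1 (hg.b x).1,
    mul_le_one₀ (hf.b x).2 (hg.b x).1 (hg.b x).2⟩⟩

lemma B01.comp {f : α → ℝ} (hf : B01 f) {g : β → α} (hg : Measurable g) : B01 fun x => f (g x) :=
  ⟨hf.m.comp hg, fun _ => hf.b _⟩

lemma cheb (μ : Measure α) [IsProbabilityMeasure μ] {F G : α → ℝ} (hF : B01 F) (hG : B01 G)
    (h : ∀ a b, 0 ≤ (F a - F b) * (G a - G b)) :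
    (∫ a, F a ∂μ) * ∫ a, G a ∂μ ≤ ∫ a, F a * G a ∂μ := by
  have i1 := ((hF.mul hG).comp (measurable_fst (β := α))).int (μ.prod μ)
  have i2 := ((hF.mul hG).comp (measurable_snd (α := α))).int (μ.prod μ)
  have i3 := ((hF.comp (measurable_fst (β := α))).mul (hG.comp measurable_snd)).int (μ.prod μ)
  have i4 := ((hG.comp (measurable_fst (β := α))).mul (hF.comp measurable_snd)).int (μ.prod μ)
  have := integral_mono (i3.add i4) (i1.add i2) fun z => by
    have := h z.1 z.2
    simp only [Pi.add_apply]
    linarith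
  rw [integral_add' i3 i4, integral_add' i1 i2, integral_prod_mul, integral_prod_mul,
    integral_fun_fst fun a => F a * G a, integral_fun_snd fun a => F a * G a] at this
  simp only [probReal_univ, one_smul] at this
  linarith

end

noncomputable def TT (S : Set ι) (f : (ι → X) → ℝ) (ω : ι → X) : ℝ :=
  ∫ ω', f (mix S ω ω') ∂infinitePi P

lemma mix_right (S : Set ι) (ω : ι → X) : Measurable (mix S ω) :=
  (measurable_mix S).comp measurable_prodMk_left

lemma TT_b {S : Set ι} {f : (ι → X) → ℝ} (hf : B01 f) : B01 (TT P S f) := by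
  refine ⟨((hf.comp (measurable_mix S)).m.stronglyMeasurable.integral_prod_right').measurable,
    fun ω => ⟨integral_nonneg fun _ => (hf.b _).1, ?_⟩⟩
  have := integral_mono ((hf.comp (mix_right S ω)).int (infinitePi P)) (integrable_const 1)
    fun _ => (hf.b _).2
  simpa [TT] using this

lemma TT_int {S : Set ι} {f : (ι → X) → ℝ} (hf : B01 f) :
    ∫ ω, TT P S f ω ∂infinitePi P = ∫ ω, f ω ∂infinitePi P := by
  unfold TT
  rw [← integral_prod (fun z : (ι → X) × (ι → X) => f (mix S z.1 z.2))
    ((hf.comp (measurable_mix S)).int _), ← integral_map (measurable_mix S).aemeasurable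
    hf.m.aestronglyMeasurable, (mp_mix P S).map_eq]

omit [∀ i, IsProbabilityMeasure (P i)] in
lemma TT_dep {S T : Set ι} {f : (ι → X) → ℝ} (hf : DependsOn f T) :
    DependsOn (TT P S f) (S ∩ T) := by
  intro ω ω' h
  unfold TT
  congr 1
  funext a
  refine hf fun i hi => ?_
  by_cases hS : i ∈ S
  · rw [mix_mem _ _ hS, mix_mem _ _ hS, h i ⟨hS, hi⟩]
  · rw [mix_not _ _ hS, mix_not _ _ hS]

variable [LinearOrder X]

lemma TT_mono {S : Set ι} {f : (ι → X) → ℝ} (hf : B01 f) (hm : Monotone f) :
    Monotone (TT P S f) := by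
  intro ω ω' h
  refine integral_mono ((hf.comp (mix_right S ω)).int _) ((hf.comp (mix_right S ω')).int _)
    fun a => hm fun i => ?_
  by_cases hS : i ∈ S
  · rw [mix_mem _ _ hS, mix_mem _ _ hS]; exact h i
  · rw [mix_not _ _ hS, mix_not _ _ hS]

lemma harris_fin (S : Finset ι) {f g : (ι → X) → ℝ} (hf : B01 f) (hg : B01 g) (mf : Monotone f)
    (mg : Monotone g) (df : DependsOn f S) :
    (∫ ω, f ω ∂infinitePi P) * ∫ ω, g ω ∂infinitePi P ≤ ∫ ω, f ω * g ω ∂infinitePi P := by
  classical
  induction S using Finset.induction_on generalizing f g with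
  | empty =>
    refine cheb _ hf hg fun a b => ?_
    rw [df (x := a) (y := b) (by simp), sub_self, zero_mul]
  | insert i S hi ih =>
    have := ih (TT_b P (S := {i}ᶜ) hf) (TT_b P (S := {i}ᶜ) hg) (TT_mono P hf mf) (TT_mono P hg mg)
      ((TT_dep P df).mono fun j hj => by
        rcases Finset.mem_insert.1 (Finset.mem_coe.1 hj.2) with h | h
        · exact absurd h hj.1
        · exact h)
    rw [TT_int P hf, TT_int P hg] at this
    refine this.trans ?_
    rw [← TT_int P (S := {i}ᶜ) (hf.mul hg)]
    refine integral_mono (((TT_b P hf).mul (TT_b P hg)).int _) ((TT_b P (hf.mul hg)).int _)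
      fun ω => cheb _ (hf.comp (mix_right _ ω)) (hg.comp (mix_right _ ω)) fun a b => ?_
    have le : ∀ a b : ι → X, a i ≤ b i → mix {i}ᶜ ω a ≤ mix {i}ᶜ ω b := by
      intro a b h j
      by_cases hj : j ∈ ({i}ᶜ : Set ι)
      · rw [mix_mem _ _ hj, mix_mem _ _ hj]
      · rw [mix_not _ _ hj, mix_not _ _ hj]
        obtain rfl : j = i := not_not.1 hj
        exact h
    rcases le_total (a i) (b i) with h | h
    · exact mul_nonneg_of_nonpos_of_nonpos (sub_nonpos.2 (mf (le a b h)))
        (sub_nonpos.2 (mg (le a b h)))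
    · exact mul_nonneg (sub_nonneg.2 (mf (le b a h))) (sub_nonneg.2 (mg (le b a h)))

omit [LinearOrder X] in
lemma b01_ind {A : Set (ι → X)} (hA : MeasurableSet A) : B01 (A.indicator (1 : (ι → X) → ℝ)) :=
  ⟨measurable_one.indicator hA, fun x => by by_cases h : x ∈ A <;> simp [h]⟩

theorem harris {A B : Set (ι → X)} (hA : MeasurableSet A) (hB : MeasurableSet B)
    (uA : IsUpperSet A) (uB : IsUpperSet B) :
    infinitePi P A * infinitePi P B ≤ infinitePi P (A ∩ B) := by
  have mono : ∀ {A : Set (ι → X)}, IsUpperSet A → Monotone (A.indicator (1 : (ι → X) → ℝ)) := by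
    intro A u a b h
    by_cases ha : a ∈ A
    · simp [ha, u h ha]
    · by_cases hb : b ∈ A <;> simp [ha, hb]
  rw [← ENNReal.toReal_le_toReal (ENNReal.mul_ne_top (measure_ne_top _ _) (measure_ne_top _ _))
    (measure_ne_top _ _), ENNReal.toReal_mul]
  refine le_of_forall_pos_le_add fun ε hε => ?_
  obtain ⟨C, hC, h1⟩ := exists_measure_symmDiff_lt_of_generateFrom_isSetRing (μ := infinitePi P)
    isSetRing_measurableCylinders ⟨{univ}, countable_singleton _,
      singleton_subset_iff.2 (univ_mem_measurableCylinders _), by simp⟩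
    generateFrom_measurableCylinders.symm hA (ε := ENNReal.ofReal (ε / 2)) (by simpa)
  have mC := MeasurableSet.of_mem_measurableCylinders hC
  obtain ⟨S, C', -, rfl⟩ := (mem_measurableCylinders C).1 hC
  set C : Set (ι → X) := cylinder (α := fun _ => X) S C' with hCd
  have bA := b01_ind hA
  have bB := b01_ind hB
  have bD := b01_ind (mC.symmDiff hA)
  have h2 := harris_fin P S (TT_b P (S := S) bA) bB (TT_mono P bA (mono uA)) (mono uB)
    ((TT_dep P (dependsOn_univ _)).mono inter_subset_left)
  rw [TT_int P bA, integral_indicator_one hA, integral_indicator_one hB] at h2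
  refine h2.trans ?_
  have h3 : ∀ ω, TT P S (A.indicator 1) ω * B.indicator 1 ω ≤ (A ∩ B).indicator 1 ω +
      ((C ∆ A).indicator 1 ω + TT P S ((C ∆ A).indicator 1) ω) := by
    intro ω
    have a : TT P S (A.indicator 1) ω ≤ C.indicator 1 ω + TT P S ((C ∆ A).indicator 1) ω := by
      have := integral_mono ((bA.comp (mix_right S ω)).int (infinitePi P))
        ((integrable_const (C.indicator 1 ω)).add ((bD.comp (mix_right S ω)).int _)) fun a => by
          have e : ω ∈ C ↔ mix S ω a ∈ C := by
            rw [hCd, mem_cylinder, mem_cylinder, show S.restrict (mix S ω a) = S.restrict ω from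
              funext fun i => mix_mem _ _ i.2]
          simp only [Pi.add_apply]
          by_cases c1 : mix S ω a ∈ C <;> by_cases c2 : mix S ω a ∈ A <;>
            simp [Set.indicator, e, c1, c2, mem_symmDiff]
      rw [integral_add' (integrable_const _) ((bD.comp (mix_right S ω)).int _)] at this
      simpa [TT] using this
    have b := ((TT_b P (S := S) bD).b ω).1
    by_cases c1 : ω ∈ C <;> by_cases c2 : ω ∈ A <;> by_cases c3 : ω ∈ B <;>
      simp [c1, c2, c3, mem_symmDiff] at a ⊢ <;> linarith
  have i1 := (b01_ind (hA.inter hB)).int (infinitePi P)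
  have i2 := bD.int (infinitePi P)
  have i3 := (TT_b P (S := S) bD).int (infinitePi P)
  refine (integral_mono (((TT_b P bA).mul bB).int _) (i1.add (i2.add i3)) h3).trans ?_
  rw [integral_add' i1 (i2.add i3), integral_add' i2 i3, TT_int P bD,
    integral_indicator_one (hA.inter hB), integral_indicator_one (mC.symmDiff hA)]
  have := ENNReal.toReal_lt_of_lt_ofReal h1
  simp only [measureReal_def]
  linarith

end Pool.Agent.H44.Har
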