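import Pool.Agent.H44.ARW1
import Pool.Agent.H44.Har

open MeasureTheory ProbabilityTheory Real Set Measure Pool.Agent.H44.Har
open scoped ENNReal

namespace Pool.Agent.H44.ARW

variable {d : ℕ} (ν : Measure (G d)) [IsProbabilityMeasure ν]

noncomputable abbrev PP (ι : Type) : Measure (ι → G d) := infinitePi fun _ : ι => ν

lemma mp_comp {ι ι' : Type} {σ : ι' → ι} (hσ : σ.Injective) :
    MeasurePreserving (fun ω : ι → G d => ω ∘ σ) (PP ν ι) (PP ν ι') :=
  ⟨measurable_pi_lambda _ fun _ => measurable_pi_apply _,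
    map_infinitePi_infinitePi_of_inj (P := fun _ : ι => ν) hσ⟩

lemma mp_pair {ι ι1 ι2 : Type} {τ : ι1 → ι} {σ : ι2 → ι} (hτ : τ.Injective) (hσ : σ.Injective)
    (h : ∀ i j, τ i ≠ σ j) :
    MeasurePreserving (fun ω : ι → G d => (ω ∘ τ, ω ∘ σ)) (PP ν ι) ((PP ν ι1).prod (PP ν ι2)) := by
  have h1 := (mp_comp ν hτ).prod (mp_comp ν hσ)
  have h2 := mp_mix (fun _ : ι => ν) (range τ)
  have hm : Measurable (fun ω : ι → G d => (ω ∘ τ, ω ∘ σ)) :=
    (mp_comp ν hτ).measurable.prodMk (mp_comp ν hσ).measurable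
  refine ⟨hm, ?_⟩
  rw [← h1.map_eq]
  conv_lhs => rw [PP, ← h2.map_eq]
  rw [map_map hm h2.measurable]
  congr 1
  funext z
  refine Prod.ext (funext fun i => mix_mem _ _ ⟨i, rfl⟩) (funext fun j => mix_not _ _ ?_)
  rintro ⟨i, hi⟩
  exact h i j hi

lemma split {ι ι' : Type} (T : Set ι) {σ : ι' → ι} (hσ : σ.Injective) (hT : ∀ j, σ j ∉ T)
    {F : (ι → G d) × (ι' → G d) → ℝ≥0∞} (hF : Measurable F)
    (dep : ∀ w w' y, (∀ i ∈ T, w i = w' i) → F (w, y) = F (w', y)) :
    ∫⁻ w, F (w, w ∘ σ) ∂PP ν ι = ∫⁻ w, ∫⁻ y, F (w, y) ∂PP ν ι' ∂PP ν ι := by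
  have h2 := mp_mix (fun _ : ι => ν) T
  have hm : Measurable fun w : ι → G d => F (w, w ∘ σ) :=
    hF.comp (measurable_id.prodMk (mp_comp ν hσ).measurable)
  rw [← h2.lintegral_comp hm, lintegral_prod (fun z => F (mix T z.1 z.2, mix T z.1 z.2 ∘ σ))
    (hm.comp h2.measurable).aemeasurable]
  refine lintegral_congr fun w => ?_
  rw [← (mp_comp ν hσ).lintegral_comp (f := fun y => F (w, y)) (hF.comp measurable_prodMk_left)]
  refine lintegral_congr fun w' => ?_
  rw [dep _ w _ fun i hi => mix_mem _ _ hi]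
  congr 2
  exact funext fun j => mix_not _ _ (hT j)

lemma m_walk (n : ℕ) : Measurable fun w : ℕ → G d => walk w n :=
  Finset.measurable_sum _ fun _ _ => measurable_pi_apply _

lemma m_fw (f : G d → ℝ≥0∞) (n : ℕ) : Measurable fun w : ℕ → G d => f (walk w n) :=
  (Measurable.of_discrete (f := f)).comp (m_walk n)

lemma walk_add (w : ℕ → G d) (t m : ℕ) : walk w (t + m) = walk w t + walk (w ∘ (t + ·)) m :=
  Finset.sum_range_add _ _ _

lemma walk_dep {w w' : ℕ → G d} {s t : ℕ} (hs : s ≤ t) (h : ∀ i ∈ Iio t, w i = w' i) :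
    walk w s = walk w' s :=
  Finset.sum_congr rfl fun i hi => h i ((Finset.mem_range.1 hi).trans_le hs)

lemma ms_walk (n : ℕ) (C : Set (G d)) : MeasurableSet {w : ℕ → G d | walk w n ∈ C} :=
  m_walk n (MeasurableSet.of_discrete)

lemma int_f (f : G d → ℝ≥0∞) (x : G d) :
    ∫⁻ w, ∑' m, f (x + walk w m) ∂PP ν ℕ = ∑' y, f y * green ν (y - x) := by
  have h : ∀ (w : ℕ → G d) m, f (x + walk w m) =
      ∑' y, f y * {w | walk w m = y - x}.indicator 1 w := by
    intro w m
    rw [tsum_eq_single (x + walk w m)]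
    · simp
    · intro y hy
      rw [indicator_of_notMem, mul_zero]
      intro h
      exact hy (by rw [show walk w m = y - x from h]; abel)
  have hm : ∀ m y, Measurable ({w : ℕ → G d | walk w m = y - x}.indicator (1 : (ℕ → G d) → ℝ≥0∞)) :=
    fun m y => measurable_one.indicator (ms_walk m {y - x})
  simp_rw [h]
  rw [lintegral_tsum fun m => (Measurable.tsum fun y =>
    (hm m y).const_mul _).aemeasurable]
  simp_rw [lintegral_tsum fun y => ((hm _ y).const_mul _).aemeasurable,
    lintegral_const_mul _ (hm _ _), green, ← ENNReal.tsum_mul_left]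
  rw [ENNReal.tsum_comm]
  refine tsum_congr fun y => tsum_congr fun m => ?_
  exact congrArg _ (lintegral_indicator_one (ms_walk m {y - x}))

lemma markov {D : Set (ℕ → G d)} (hD : MeasurableSet D) {t : ℕ}
    (dep : ∀ w w', (∀ i ∈ Iio t, w i = w' i) → (w ∈ D ↔ w' ∈ D)) (f : G d → ℝ≥0∞) :
    ∫⁻ w, D.indicator 1 w * ∑' m, f (walk w (t + m)) ∂PP ν ℕ =
      ∫⁻ w, D.indicator 1 w * ∑' y, f y * green ν (y - walk w t) ∂PP ν ℕ := by
  have hf : Measurable f := Measurable.of_discrete
  have := split ν (Iio t) (σ := (t + ·)) (add_right_injective t) (fun j => by simp)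
    (F := fun z => D.indicator 1 z.1 * ∑' m, f (walk z.1 t + walk z.2 m))
    (((measurable_one.indicator hD).comp measurable_fst).mul (Measurable.tsum fun m =>
      hf.comp (((m_walk t).comp measurable_fst).add ((m_walk m).comp measurable_snd))))
    fun w w' y h => by
      simp only [walk_dep le_rfl h]
      congr 1
      by_cases hw : w ∈ D
      · simp [hw, (dep w w' h).1 hw]
      · simp [hw, mt (dep w w' h).2 hw]
  simp only [walk_add, this]
  refine lintegral_congr fun w => ?_
  rw [lintegral_const_mul _ (Measurable.tsum fun m =>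
    m_fw (fun v => f (walk w t + v)) m), int_f]

noncomputable def occ (w : ℕ → G d) (x : G d) : ℝ≥0∞ :=
  ∑' n, ({x} : Set (G d)).indicator 1 (walk w n)

lemma m_occ (x : G d) : Measurable fun w : ℕ → G d => occ w x :=
  Measurable.tsum fun n => m_fw _ n

lemma ind_sum (y x : G d) :
    ∑' v, ({y} : Set (G d)).indicator 1 v * green ν (v - x) = green ν (y - x) := by
  rw [tsum_eq_single y fun v hv => by simp [hv]]; simp

lemma int_occ (x : G d) : ∫⁻ w, occ w x ∂PP ν ℕ = green ν x := by
  have := int_f ν (({x} : Set (G d)).indicator 1) 0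
  rw [ind_sum] at this
  simpa [occ] using this

lemma tail_le (b : ℕ → ℝ≥0∞) (n : ℕ) : ∑' m, (Ici n).indicator b m ≤ ∑' j, b (n + j) := by
  rw [← tsum_subtype]
  refine le_trans (le_of_eq (tsum_congr fun m => ?_)) (ENNReal.tsum_comp_le_tsum_of_injective
    (f := fun m : Ici n => (m : ℕ) - n) (fun x y e => Subtype.ext ?_) fun j => b (n + j))
  · rw [Nat.add_sub_cancel' m.2]
  · have := x.2; have := y.2
    simp only [mem_Ici] at *; omega

lemma dbl (a b : ℕ → ℝ≥0∞) : (∑' n, a n) * ∑' n, b n ≤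
    ∑' n, a n * ∑' j, b (n + j) + ∑' n, b n * ∑' j, a (n + j) := by
  calc _ = ∑' n, ∑' m, a n * b m := by simp_rw [ENNReal.tsum_mul_left, ENNReal.tsum_mul_right]
    _ ≤ ∑' n, ∑' m, (a n * (Ici n).indicator b m + b m * (Ici m).indicator a n) := by
      refine ENNReal.tsum_le_tsum fun n => ENNReal.tsum_le_tsum fun m => ?_
      rcases le_total n m with h | h
      · rw [indicator_of_mem (show m ∈ Ici n from h)]; exact le_self_add
      · rw [indicator_of_mem (show n ∈ Ici m from h), mul_comm]; exact le_add_self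
    _ ≤ _ := by
      simp_rw [ENNReal.tsum_add]
      rw [ENNReal.tsum_comm (f := fun n m => b m * (Ici m).indicator a n)]
      simp_rw [ENNReal.tsum_mul_left]
      exact add_le_add (ENNReal.tsum_le_tsum fun n => mul_le_mul_right (tail_le _ _) _)
        (ENNReal.tsum_le_tsum fun n => mul_le_mul_right (tail_le _ _) _)

lemma occ2 (x y : G d) : ∫⁻ w, occ w x * occ w y ∂PP ν ℕ ≤
    green ν x * green ν (y - x) + green ν y * green ν (x - y) := by
  have mi : ∀ (x : G d) n, Measurable fun w : ℕ → G d =>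
      ({x} : Set (G d)).indicator (1 : G d → ℝ≥0∞) (walk w n) :=
    fun x n => m_fw _ n
  have mm : ∀ (x y : G d) n, Measurable fun w : ℕ → G d =>
      ({x} : Set (G d)).indicator (1 : G d → ℝ≥0∞) (walk w n) *
        ∑' j, ({y} : Set (G d)).indicator 1 (walk w (n + j)) :=
    fun x y n => (mi x n).mul (Measurable.tsum fun j => mi y _)
  have key : ∀ x y : G d, ∫⁻ w, ∑' n, ({x} : Set (G d)).indicator 1 (walk w n) *
      ∑' j, ({y} : Set (G d)).indicator 1 (walk w (n + j)) ∂PP ν ℕ =
      green ν x * green ν (y - x) := by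
    intro x y
    rw [lintegral_tsum fun n => (mm x y n).aemeasurable, green, ← ENNReal.tsum_mul_right]
    refine tsum_congr fun n => ?_
    have := markov ν (ms_walk n {x}) (t := n)
      (fun w w' h => by simp only [mem_ofPred_eq, walk_dep le_rfl h]) (({y} : Set (G d)).indicator 1)
    simp only [ind_sum] at this
    refine Eq.trans this ?_
    change _ = PP ν ℕ {w | walk w n ∈ ({x} : Set (G d))} * _
    rw [← lintegral_indicator_one (ms_walk n {x}),
      ← lintegral_mul_const _ (measurable_one.indicator (ms_walk n {x}))]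
    refine lintegral_congr fun w => ?_
    by_cases h : walk w n = x <;> simp [h]
  rw [← key, ← key, ← lintegral_add_left (Measurable.tsum (mm x y))]
  exact lintegral_mono fun w => dbl _ _

lemma hit (C : Set (G d)) {m : ℝ≥0∞} (hm : ∀ x ∈ C, m ≤ ∑' y, C.indicator 1 y * green ν (y - x)) :
    PP ν ℕ {w | ∃ n, walk w n ∈ C} * m ≤ ∑' y, C.indicator 1 y * green ν y := by
  set F : ℕ → Set (ℕ → G d) := fun t => {w | walk w t ∈ C} ∩ ⋂ s < t, {w | walk w s ∈ Cᶜ}
  have hF : ∀ t, MeasurableSet (F t) := fun t => (ms_walk t C).inter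
    (MeasurableSet.biInter (to_countable _) fun s _ => ms_walk s _)
  have h1 : {w | ∃ n, walk w n ∈ C} ⊆ ⋃ t, F t := by
    classical
    intro w hw
    exact mem_iUnion.2 ⟨Nat.find hw, Nat.find_spec hw, mem_iInter₂.2 fun s hs => Nat.find_min hw hs⟩
  have h0 := int_f ν (C.indicator 1) 0
  simp only [sub_zero, zero_add] at h0
  rw [← h0]
  have mm : ∀ t, Measurable fun w : ℕ → G d => (F t).indicator (1 : (ℕ → G d) → ℝ≥0∞) w *
      ∑' j, C.indicator 1 (walk w (t + j)) := fun t => (measurable_one.indicator (hF t)).mul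
    (Measurable.tsum fun j => m_fw _ _)
  calc _ ≤ (∑' t, PP ν ℕ (F t)) * m :=
        mul_le_mul_left ((measure_mono h1).trans (measure_iUnion_le _)) _
    _ ≤ ∑' t, ∫⁻ w, (F t).indicator 1 w * ∑' j, C.indicator 1 (walk w (t + j)) ∂PP ν ℕ := by
        rw [← ENNReal.tsum_mul_right]
        refine ENNReal.tsum_le_tsum fun t => ?_
        rw [markov ν (hF t) (fun w w' h => ?_), ← lintegral_indicator_one (hF t),
          ← lintegral_mul_const _ (measurable_one.indicator (hF t))]
        · refine lintegral_mono fun w => ?_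
          by_cases h : w ∈ F t
          · exact mul_le_mul_right (hm _ h.1) _
          · simp [h]
        · simp only [F, mem_inter_iff, mem_iInter, mem_ofPred_eq, walk_dep le_rfl h]
          exact and_congr_right fun _ => forall₂_congr fun s hs => by rw [walk_dep hs.le h]
    _ ≤ _ := by
        rw [← lintegral_tsum fun t => (mm t).aemeasurable]
        refine lintegral_mono fun w => ?_
        by_cases h : ∃ t, w ∈ F t
        · obtain ⟨t, ht⟩ := h
          rw [tsum_eq_single t fun s hs => ?_, indicator_of_mem ht, Pi.one_apply, one_mul]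
          · exact ENNReal.tsum_comp_le_tsum_of_injective (add_right_injective t)
              fun n => C.indicator 1 (walk w n)
          · rw [indicator_of_notMem, zero_mul]
            intro hs'
            rcases lt_or_gt_of_ne hs with h | h
            · exact mem_iInter₂.1 ht.2 s h hs'.1
            · exact mem_iInter₂.1 hs'.2 t h ht.1
        · push Not at h
          simp [h]

lemma green_one : 1 ≤ green ν 0 := by
  refine le_trans ?_ (ENNReal.le_tsum 0)
  simp [walk]

lemma green_bd {α : ℝ} (h : BT ν α) (hα : α ≤ d) : ∃ c C, ∀ x,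
    E c * K (d - α) x ≤ green ν x ∧ green ν x ≤ E C * K (d - α) x := by
  obtain ⟨h0, A, B, hA, hAB, h⟩ := h
  obtain ⟨C0, hC0⟩ := le_E h0.ne
  refine ⟨min 0 (log A), max C0 (log B + (d - α) * log 2), fun x => ?_⟩
  by_cases hx : x = 0
  · subst hx
    simp only [K, lg, sz, norm_zero, zero_add, log_one, mul_zero, E_zero, mul_one]
    exact ⟨((E_le (min_le_left _ _)).trans E_zero.le).trans (green_one ν),
      hC0.trans (E_le (le_max_left _ _))⟩
  have h1 : 1 ≤ ‖x‖ := by
    obtain ⟨j, hj⟩ := Function.ne_iff.1 hx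
    refine le_trans ?_ (norm_le_pi_norm x j)
    rw [Int.norm_eq_abs]
    exact_mod_cast Int.one_le_abs hj
  have h2 : ∀ A : ℝ, 0 < A → ENNReal.ofReal (A * ‖x‖ ^ (-(d : ℝ) + α)) =
      E (log A + log ‖x‖ * (-(d : ℝ) + α)) := fun A hA => by
    rw [E, exp_add, exp_log hA, rpow_def_of_pos (by linarith)]
  have h3 : log ‖x‖ ≤ lg x := log_le_log (by linarith) (by simp [sz])
  have h4 := log_le2 (sz_pos x) (show sz x ≤ 2 * ‖x‖ by simp only [sz]; linarith)
  obtain ⟨h5, h6⟩ := h x hx
  rw [h2 _ hA] at h5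
  rw [h2 _ (by linarith)] at h6
  simp only [K, E_add]
  refine ⟨le_trans (E_le ?_) h5, h6.trans (E_le ?_)⟩
  · nlinarith [min_le_right 0 (log A)]
  · unfold lg; nlinarith [le_max_right C0 (log B + (d - α) * log 2)]

end Pool.Agent.H44.ARW
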