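import Pool.Agent.H44.ARW2

open MeasureTheory ProbabilityTheory Real Set Measure Filter
open scoped ENNReal

namespace Pool.Agent.H44.ARW

variable {d : ℕ} (ν : Measure (G d)) [IsProbabilityMeasure ν]

def pr (l : ℕ) (x : G d) : G d := fun j => x j / 2 ^ l

lemma mem_cube {l : ℕ} {a x : G d} : x ∈ cube l a ↔ pr l x = a := by
  have h : (0 : ℤ) < 2 ^ l := by positivity
  simp only [cube, mem_ofPred_eq, pr, funext_iff]
  refine forall_congr' fun j => ?_
  rw [← Int.le_ediv_iff_mul_le h, ← Int.ediv_lt_iff_lt_mul h]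
  omega

lemma pr_bd (l : ℕ) (x : G d) (j : Fin d) :
    pr l x j * 2 ^ l ≤ x j ∧ x j < (pr l x j + 1) * 2 ^ l := (mem_cube.2 rfl) j

noncomputable def T1 (d : ℕ) : Finset (G d) := Fintype.piFinset fun _ => Finset.Icc (-1) 1

lemma T1_card : ((T1 d).card : ℝ≥0∞) ≠ ∞ := ENNReal.natCast_ne_top _

lemma mem_T1 {l : ℕ} {e : G d} (h : ∀ j, -2 * 2 ^ l < e j * 2 ^ l ∧ e j * 2 ^ l < 2 * 2 ^ l) :
    e ∈ T1 d := by
  have h0 : (0 : ℤ) < 2 ^ l := by positivity
  refine Fintype.mem_piFinset.2 fun j => Finset.mem_Icc.2 ?_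
  have h1 := lt_of_mul_lt_mul_right (h j).1 h0.le
  have h2 := lt_of_mul_lt_mul_right (h j).2 h0.le
  omega

lemma pr_add (l : ℕ) (x y : G d) : pr l (x + y) - pr l x - pr l y ∈ T1 d := mem_T1 (l := l) fun j => by
  have h1 := pr_bd l x j
  have h2 := pr_bd l y j
  have h3 := pr_bd l (x + y) j
  have h0 : (0 : ℤ) < 2 ^ l := by positivity
  simp only [Pi.add_apply, Pi.sub_apply] at *
  constructor <;> linarith

lemma abs_le_norm (x : G d) (j : Fin d) : |(x j : ℝ)| ≤ ‖x‖ := by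
  rw [← Int.norm_eq_abs]; exact norm_le_pi_norm x j

lemma pr_near {l : ℕ} {x y : G d} (h : sz (y - x) < 2 ^ l) : pr l y - pr l x ∈ T1 d :=
  mem_T1 (l := l) fun j => by
    have h1 := pr_bd l x j
    have h2 := pr_bd l y j
    have h3 : |((y - x) j : ℝ)| < 2 ^ l := by
      have := abs_le_norm (y - x) j
      simp only [sz] at h; linarith
    have h4 : |(y - x) j| < 2 ^ l := by exact_mod_cast h3
    have h5 := abs_lt.1 h4
    simp only [Pi.sub_apply] at *
    constructor <;> linarith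

lemma K_T1 {s : ℝ} (hs : 0 ≤ s) (a : G d) {e : G d} (he : e ∈ T1 d) :
    K s (a - e) ≤ E (s * log 2) * K s a := by
  have h1 : ‖e‖ ≤ 1 := (pi_norm_le_iff_of_nonneg zero_le_one).2 fun j => by
    have := Finset.mem_Icc.1 (Fintype.mem_piFinset.1 he j)
    rw [Int.norm_eq_abs]
    exact_mod_cast abs_le.2 this
  have h2 := norm_add_le (a - e) e
  rw [sub_add_cancel] at h2
  have := log_le2 (sz_pos a) (show sz a ≤ 2 * sz (a - e) by
    simp only [sz]; linarith [norm_nonneg (a - e)])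
  simp only [K, E_add, lg]
  exact E_le (by nlinarith)

lemma cube_cnt (l : ℕ) (a : G d) :
    ∑' y, (cube l a).indicator (1 : G d → ℝ≥0∞) y = E (d * (l * log 2)) := by
  classical
  set T : Finset (G d) := Fintype.piFinset fun j => Finset.Ico (a j * 2 ^ l) ((a j + 1) * 2 ^ l)
  have hT : T.card = (2 ^ l) ^ d := by
    simp only [T, Fintype.card_piFinset, Int.card_Ico]
    rw [Finset.prod_congr rfl (g := fun _ => 2 ^ l) fun j _ => by
      rw [show (a j + 1) * 2 ^ l - a j * 2 ^ l = ((2 ^ l : ℕ) : ℤ) by push_cast; ring,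
        Int.toNat_natCast]]
    simp
  have h : cube l a = T := by
    ext x; simp [cube, T]
  rw [h, ← tsum_subtype, ← E_pow, ← E_pow, E_log two_pos]
  simp [hT]

lemma cube_real {l : ℕ} {a x : G d} (h : x ∈ cube l a) (j : Fin d) :
    (a j : ℝ) * 2 ^ l ≤ x j ∧ (x j : ℝ) + 1 ≤ (a j + 1) * 2 ^ l :=
  ⟨by exact_mod_cast (h j).1, by exact_mod_cast (h j).2⟩

lemma cube_diam {l : ℕ} {a x y : G d} (hx : x ∈ cube l a) (hy : y ∈ cube l a) :
    sz (y - x) ≤ 2 ^ l := by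
  have h0 : (1 : ℝ) ≤ 2 ^ l := one_le_pow₀ one_le_two
  have : ‖y - x‖ ≤ 2 ^ l - 1 := (pi_norm_le_iff_of_nonneg (by linarith)).2 fun j => by
    have h1 := cube_real hx j
    have h2 := cube_real hy j
    rw [Int.norm_eq_abs, abs_le]
    simp only [Pi.sub_apply, Int.cast_sub]
    constructor <;> linarith
  simp only [sz]; linarith

lemma cube_low {l : ℕ} {a x : G d} (hx : x ∈ cube l a) : ‖a‖ * 2 ^ l ≤ ‖x‖ + 2 ^ l := by
  have h0 : (0 : ℝ) < 2 ^ l := by positivity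
  rw [← le_div_iff₀ h0]
  refine (pi_norm_le_iff_of_nonneg (by positivity)).2 fun j => ?_
  have h1 := cube_real hx j
  have h2 := abs_le.1 (abs_le_norm x j)
  rw [le_div_iff₀ h0, Int.norm_eq_abs, ← abs_of_pos h0, ← abs_mul, abs_of_pos h0, abs_le]
  constructor <;> linarith

lemma cube_up {l : ℕ} {a x : G d} (hx : x ∈ cube l a) : ‖x‖ ≤ sz a * 2 ^ l := by
  have h0 : (0 : ℝ) < 2 ^ l := by positivity
  refine (pi_norm_le_iff_of_nonneg (mul_pos (sz_pos a) h0).le).2 fun j => ?_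
  have h1 := cube_real hx j
  have h2 := abs_le.1 (abs_le_norm a j)
  rw [Int.norm_eq_abs, abs_le, sz]
  constructor <;> nlinarith

lemma sum_cube_le {l : ℕ} {a : G d} {f : G d → ℝ≥0∞} {c : ℝ} (h : ∀ y ∈ cube l a, f y ≤ E c) :
    ∑' y, (cube l a).indicator 1 y * f y ≤ E (d * (l * log 2) + c) := by
  rw [← E_add, ← cube_cnt l a, ← ENNReal.tsum_mul_right]
  refine ENNReal.tsum_le_tsum fun y => ?_
  by_cases hy : y ∈ cube l a
  · exact mul_le_mul_right (h y hy) _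
  · simp [hy]

lemma sum_cube_ge {l : ℕ} {a : G d} {f : G d → ℝ≥0∞} {c : ℝ} (h : ∀ y ∈ cube l a, E c ≤ f y) :
    E (d * (l * log 2) + c) ≤ ∑' y, (cube l a).indicator 1 y * f y := by
  rw [← E_add, ← cube_cnt l a, ← ENNReal.tsum_mul_right]
  refine ENNReal.tsum_le_tsum fun y => ?_
  by_cases hy : y ∈ cube l a
  · exact mul_le_mul_right (h y hy) _
  · simp [hy]

lemma hit1 {α : ℝ} (h : BT ν α) (hα : α ≤ d) : ∃ C, ∀ l a,
    PP ν ℕ {w | ∃ n, walk w n ∈ cube l a} ≤ E C * K (d - α) a := by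
  obtain ⟨c, C, hg⟩ := green_bd ν h hα
  refine ⟨max (C - c + (d - α) * log 2) ((d - α) * log 4), fun l a => ?_⟩
  rcases le_total (sz a) 4 with h4 | h4
  · refine prob_le_one.trans ?_
    have := log_le_log (sz_pos a) h4
    rw [← E_zero, K, E_add]
    exact E_le (by unfold lg; nlinarith [le_max_right (C - c + (d - α) * log 2) ((d - α) * log 4)])
  have h0 : (0 : ℝ) < 2 ^ l := by positivity
  have h1 := hit ν (cube l a) fun x hx => sum_cube_ge (c := c - (d - α) * (l * log 2))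
    fun y hy => le_trans (by
      have := log_le_log (sz_pos _) (cube_diam hx hy)
      rw [log_pow] at this
      rw [K, E_add]
      exact E_le (by unfold lg; nlinarith)) (hg (y - x)).1
  have h2 := h1.trans (sum_cube_le (c := C - (d - α) * (lg a + l * log 2 - log 2))
    fun y hy => (hg y).2.trans (by
      have := log_le2 (mul_pos (sz_pos a) h0) (show sz a * 2 ^ l ≤ 2 * sz y by
        have := cube_low hy
        simp only [sz] at *; nlinarith)
      rw [log_mul (sz_pos a).ne' h0.ne', log_pow] at this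
      rw [K, E_add]
      exact E_le (by unfold lg; nlinarith)))
  refine (ENNReal.mul_le_mul_iff_left (E_ne _) (E_top _)).1 (h2.trans ?_)
  rw [K, E_add, E_add]
  exact E_le (by nlinarith [le_max_left (C - c + (d - α) * log 2) ((d - α) * log 4)])

def hd (N : ℕ) (m : ℕ) : Fin (N + 1) × ℕ := (0, m)
def tl (N : ℕ) (p : Fin N × ℕ) : Fin (N + 1) × ℕ := (p.1.succ, p.2)

lemma mp_ht (N : ℕ) : MeasurePreserving (fun ω : Fin (N + 1) × ℕ → G d => (ω ∘ hd N, ω ∘ tl N))
    (PP ν _) ((PP ν ℕ).prod (PP ν (Fin N × ℕ))) :=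
  mp_pair ν (fun _ _ e => congrArg Prod.snd e)
    (fun _ _ e => Prod.ext (Fin.succ_injective _ (congrArg Prod.fst e)) (Prod.mk.inj e).2)
    fun _ _ e => Fin.succ_ne_zero _ (congrArg Prod.fst e).symm

lemma arw_succ {N : ℕ} (ω : Fin (N + 1) × ℕ → G d) (n : Fin (N + 1) → ℕ) :
    arw ω n = walk (ω ∘ hd N) (n 0) + arw (ω ∘ tl N) fun i => n i.succ := Fin.sum_univ_succ _

lemma m_arw {N : ℕ} (n : Fin N → ℕ) : Measurable fun ω : Fin N × ℕ → G d => arw ω n :=
  Finset.measurable_sum _ fun i _ => (m_walk (n i)).comp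
    (measurable_pi_lambda _ fun _ => measurable_pi_apply _)

lemma ms_hitN {N : ℕ} (C : Set (G d)) : MeasurableSet {ω : Fin N × ℕ → G d | ∃ n, arw ω n ∈ C} := by
  rw [ofPred_exists]
  exact MeasurableSet.iUnion fun n => m_arw n MeasurableSet.of_discrete

lemma ms_hit (C : Set (G d)) : MeasurableSet {w : ℕ → G d | ∃ n, walk w n ∈ C} := by
  rw [ofPred_exists]
  exact MeasurableSet.iUnion fun n => ms_walk n C

lemma hitN {α : ℝ} (h : BT ν α) (hα : 0 < α) (N : ℕ) (hN : (N + 1) * α < d) : ∃ C, ∀ l a,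
    PP ν (Fin (N + 1) × ℕ) {ω | ∃ n, arw ω n ∈ cube l a} ≤ E C * K (d - (N + 1) * α) a := by
  have hN0 : ∀ N : ℕ, 0 ≤ N * α := fun N => by positivity
  obtain ⟨C1, h1⟩ := hit1 ν h (by linarith [hN0 N])
  induction N with
  | zero =>
    refine ⟨C1, fun l a => ?_⟩
    have := h1 l a
    rw [← (mp_comp ν (σ := hd 0) fun _ _ e => congrArg Prod.snd e).measure_preimage
      (ms_hit _).nullMeasurableSet] at this
    simp only [Nat.cast_zero, zero_add, one_mul]
    refine le_trans (measure_mono ?_) this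
    rintro ω ⟨n, hn⟩
    refine ⟨n 0, ?_⟩
    rw [arw_succ] at hn
    simpa [arw] using hn
  | succ N ih =>
    push_cast at hN
    obtain ⟨C2, h2⟩ := ih (by linarith)
    obtain ⟨C3, h3⟩ := conv (d := d) (a := d - α) (b := d - (N + 1) * α) (by linarith [hN0 N])
      (by linarith) (by linarith) (by linarith [hN0 N]) (by linarith)
    set s := d - α + (d - (N + 1) * α) - d with hs
    obtain ⟨C, hC⟩ := le_E (C := (T1 d).card * E (C1 + C2 + C3 + s * log 2))
      (ENNReal.mul_ne_top T1_card (E_top _))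
    refine ⟨C, fun l a => ?_⟩
    have hsub : {ω : Fin (N + 1 + 1) × ℕ → G d | ∃ n, arw ω n ∈ cube l a} ⊆ ⋃ e ∈ T1 d, ⋃ u,
        (fun ω => (ω ∘ hd _, ω ∘ tl _)) ⁻¹' ({w | ∃ n, walk w n ∈ cube l u} ×ˢ
          {ω | ∃ n, arw ω n ∈ cube l (a - e - u)}) := by
      rintro ω ⟨n, hn⟩
      rw [arw_succ, mem_cube] at hn
      refine mem_iUnion₂.2 ⟨_, pr_add l (walk (ω ∘ hd _) (n 0)) (arw (ω ∘ tl _) fun i => n i.succ),
        mem_iUnion.2 ⟨_, ⟨n 0, mem_cube.2 rfl⟩,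
        ⟨fun i => n i.succ, mem_cube.2 ?_⟩⟩⟩
      rw [← hn]; abel
    refine (measure_mono hsub).trans ((measure_biUnion_finset_le _ _).trans ?_)
    refine (Finset.sum_le_card_nsmul _ _ (E (C1 + C2 + C3 + s * log 2) * K s a)
      fun e he => (measure_iUnion_le _).trans ?_).trans ?_
    · calc _ ≤ ∑' u, E (C1 + C2) * (K (d - α) u * K (d - (N + 1) * α) (a - e - u)) := by
            refine ENNReal.tsum_le_tsum fun u => ?_
            rw [(mp_ht ν _).measure_preimage ((ms_hit _).prod (ms_hitN _)).nullMeasurableSet,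
              prod_prod, ← E_add, mul_mul_mul_comm]
            exact mul_le_mul' (h1 l u) (h2 l _)
        _ ≤ E (C1 + C2) * (E C3 * (E (s * log 2) * K s a)) := by
            rw [ENNReal.tsum_mul_left]
            exact mul_le_mul_right ((h3 _).trans
              (mul_le_mul_right (K_T1 (by rw [hs]; linarith) a he) _)) _
        _ = _ := by simp only [← E_add, mul_assoc]
    · rw [nsmul_eq_mul, ← mul_assoc, show (d : ℝ) - ((N + 1 : ℕ) + 1) * α = s by
        rw [hs]; push_cast; ring]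
      exact mul_le_mul_left hC _

lemma S_low {k : ℕ} {x : G d} (h : x ∈ S (k + 1)) : 2 ^ k ≤ ‖x‖ := by
  have h1 := h.2
  simp only [V, mem_ofPred_eq, not_forall] at h1
  obtain ⟨j, hj⟩ := h1
  refine le_trans ?_ (abs_le_norm x j)
  have : 2 ^ k ≤ |x j| := by
    rw [le_abs]; omega
  exact_mod_cast this

lemma V_up {k : ℕ} {x : G d} (h : x ∈ V k) : ‖x‖ ≤ 2 ^ k :=
  (pi_norm_le_iff_of_nonneg (by positivity)).2 fun j => by
    rw [Int.norm_eq_abs]
    exact_mod_cast abs_le.2 ⟨(h j).1, (h j).2.le⟩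

lemma exists_S {x : G d} {k : ℕ} (h : x ∉ V k) : ∃ j, k ≤ j ∧ x ∈ S (j + 1) := by
  have h1 : ∃ j, x ∈ V (k + j + 1) := by
    obtain ⟨n, hn⟩ := pow_unbounded_of_one_lt ‖x‖ (one_lt_two (α := ℝ))
    refine ⟨n, fun j => ?_⟩
    have h2 : |(x j : ℝ)| < 2 ^ (k + n + 1) :=
      ((abs_le_norm x j).trans_lt hn).trans_le (pow_le_pow_right₀ one_le_two (by omega))
    have h3 : |x j| < 2 ^ (k + n + 1) := by exact_mod_cast h2
    exact ⟨(abs_lt.1 h3).1.le, (abs_lt.1 h3).2⟩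
  classical
  refine ⟨k + Nat.find h1, Nat.le_add_right _ _, Nat.find_spec h1, ?_⟩
  rcases hq : Nat.find h1 with _ | q
  · exact h
  · exact Nat.find_min h1 (show q < Nat.find h1 by omega)

lemma w_eq (γ : ℝ) (l k : ℕ) :
    ENNReal.ofReal (2 ^ (γ * ((l : ℝ) - k - 1))) = E (γ * ((l - k - 1) * log 2)) := by
  rw [E, rpow_def_of_pos two_pos]; congr 2; ring

theorem Q2 {α : ℝ} (h : BT ν α) (hα : 0 < α) (N : ℕ) (hN : (N + 1) * α < d) (A : Set (G d))
    (hA : Dim A < ((d - (N + 1) * α : ℝ) : EReal)) :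
    ∀ᵐ ω ∂PP ν (Fin (N + 1) × ℕ), Bornology.IsBounded (range (arw ω) ∩ A) := by
  obtain ⟨γ, h1⟩ := iInf_lt_iff.1 hA
  obtain ⟨⟨hγ, h2⟩, h3⟩ := iInf_lt_iff.1 h1
  rw [EReal.coe_lt_coe_iff] at h3
  obtain ⟨C, hC⟩ := hitN ν h hα N hN
  have key : ∀ k, PP ν (Fin (N + 1) × ℕ) {ω | ∃ n, arw ω n ∈ A ∩ S (k + 1)} ≤
      E (C + 2 * γ * log 2) * NN γ A (k + 1) := by
    intro k
    rw [mul_comm, ← ENNReal.div_le_iff (E_ne _) (E_top _)]
    refine le_iInf₂ fun F hF => ?_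
    rw [ENNReal.div_le_iff (E_ne _) (E_top _), Finset.sum_mul]
    have hsub : {ω : Fin (N + 1) × ℕ → G d | ∃ n, arw ω n ∈ A ∩ S (k + 1)} ⊆
        ⋃ q ∈ F, {ω | ∃ n, arw ω n ∈ cube q.1 q.2 ∩ S (k + 1)} := by
      rintro ω ⟨n, hn⟩
      obtain ⟨q, hq, hq'⟩ := mem_iUnion₂.1 (hF hn)
      exact mem_iUnion₂.2 ⟨q, hq, n, hq', hn.2⟩
    refine (measure_mono hsub).trans ((measure_biUnion_finset_le _ _).trans
      (Finset.sum_le_sum fun q _ => ?_))
    by_cases hq : ∃ x, x ∈ cube q.1 q.2 ∩ S (k + 1)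
    · obtain ⟨x, hx1, hx2⟩ := hq
      refine (measure_mono ?_).trans ((hC q.1 q.2).trans ?_)
      · rintro ω ⟨n, hn⟩
        exact ⟨n, hn.1⟩
      have := log_le_log (by positivity) ((S_low hx2).trans (cube_up hx1))
      rw [log_mul (sz_pos _).ne' (by positivity), log_pow, log_pow] at this
      rw [w_eq, K, E_add, E_add]
      refine E_le ?_
      have h5 := lg_nonneg q.2
      unfold lg at *
      push_cast
      nlinarith
    · push Not at hq
      simp [hq]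
  have h4 : ∑' k, PP ν (Fin (N + 1) × ℕ) {ω | ∃ n, arw ω n ∈ A ∩ S (k + 1)} ≠ ∞ := by
    refine ne_top_of_le_ne_top ?_ (ENNReal.tsum_le_tsum key)
    rw [ENNReal.tsum_mul_left]
    exact ENNReal.mul_ne_top (E_top _) h2.ne
  filter_upwards [ae_eventually_notMem h4] with ω hω
  obtain ⟨k, hk⟩ := eventually_atTop.1 hω
  refine isBounded_iff_forall_norm_le.2 ⟨2 ^ k, ?_⟩
  rintro _ ⟨⟨n, rfl⟩, hn⟩
  by_contra hc
  obtain ⟨j, hj, hj'⟩ := exists_S (mt V_up hc)
  exact hk j hj ⟨n, hn, hj'⟩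

end Pool.Agent.H44.ARW
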