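import Pool.Agent.H44.ARW3

open MeasureTheory ProbabilityTheory Real Set Measure Filter
open scoped ENNReal

namespace Pool.Agent.H44.ARW

variable {d : ℕ}

lemma pr_mono {l l' : ℕ} (h : l ≤ l') {x y : G d} (e : pr l x = pr l y) : pr l' x = pr l' y := by
  obtain ⟨m, rfl⟩ := Nat.exists_eq_add_of_le h
  funext j
  have := congrFun e j
  simp only [pr] at this ⊢
  rw [pow_add, ← Int.ediv_ediv_of_nonneg (by positivity), ← Int.ediv_ediv_of_nonneg (by positivity),
    this]

noncomputable def mass (B : Finset (G d)) (μ : G d → ℝ) (l : ℕ) (x : G d) : ℝ :=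
  ∑ y ∈ B.filter fun y => pr l y = pr l x, μ y

lemma frost (B : Finset (G d)) (w : ℕ → ℝ) (hw : ∀ l, 0 < w l) (L : ℕ) :
    ∃ (μ : G d → ℝ) (lev : G d → ℕ), (∀ x, 0 ≤ μ x) ∧ (∀ l ≤ L, ∀ x, mass B μ l x ≤ w l) ∧
      (∀ x ∈ B, lev x ≤ L ∧ mass B μ (lev x) x = w (lev x)) ∧
      ∀ x y, pr (lev x) y = pr (lev x) x → lev y = lev x := by
  induction L with
  | zero =>
    have h : ∀ x, mass B (fun _ => w 0) 0 x = if x ∈ B then w 0 else 0 := by
      intro x
      have : ∀ y : G d, pr 0 y = y := fun y => funext fun j => by simp [pr]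
      simp only [mass, this, Finset.filter_eq']
      split_ifs <;> simp
    refine ⟨fun _ => w 0, fun _ => 0, fun _ => (hw 0).le, fun l hl x => ?_, fun x hx => ?_,
      fun _ _ _ => rfl⟩
    · obtain rfl := Nat.le_zero.1 hl
      rw [h]; split_ifs
      · exact le_rfl
      · exact (hw 0).le
    · simp [h, hx]
  | succ L ih =>
    obtain ⟨μ, lev, h0, h1, h2, h3⟩ := ih
    set M := mass B μ (L + 1) with hM
    have hMe : ∀ x y, pr (L + 1) y = pr (L + 1) x → M y = M x := fun x y e => by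
      simp only [hM, mass, e]
    set c : G d → ℝ := fun x => if M x ≤ w (L + 1) then 1 else w (L + 1) / M x with hc
    have c0 : ∀ x, 0 ≤ c x ∧ c x ≤ 1 := fun x => by
      simp only [hc]; split_ifs with h
      · simp
      · have := hw (L + 1)
        push Not at h
        exact ⟨div_nonneg this.le (by linarith), (div_le_one (by linarith)).2 h.le⟩
    have hm : ∀ l ≤ L + 1, ∀ x, mass B (fun y => μ y * c y) l x = mass B μ l x * c x := by
      intro l hl x
      rw [mass, mass, Finset.sum_mul]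
      refine Finset.sum_congr rfl fun y hy => ?_
      simp only [hc, hMe x y (pr_mono hl (Finset.mem_filter.1 hy).2)]
    have m0 : ∀ l x, 0 ≤ mass B μ l x := fun l x => Finset.sum_nonneg fun y _ => h0 y
    have hs : ∀ x, ¬ M x ≤ w (L + 1) → M x * c x = w (L + 1) := fun x h => by
      have := hw (L + 1)
      simp only [hc, if_neg h]
      push Not at h
      exact mul_div_cancel₀ _ (by linarith)
    refine ⟨fun y => μ y * c y, fun y => if M y ≤ w (L + 1) then min (lev y) L else L + 1,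
      fun x => mul_nonneg (h0 x) (c0 x).1, fun l hl x => ?_, fun x hx => ?_, fun x y e => ?_⟩
    · rw [hm l hl]
      rcases Nat.lt_or_eq_of_le hl with h | rfl
      · exact (mul_le_of_le_one_right (m0 l x) (c0 x).2).trans (h1 l (by omega) x)
      · by_cases h : M x ≤ w (L + 1)
        · exact (mul_le_of_le_one_right (m0 _ x) (c0 x).2).trans h
        · exact (hs x h).le
    · by_cases h : M x ≤ w (L + 1)
      · simp only [if_pos h, min_eq_left (h2 x hx).1]
        refine ⟨by have := (h2 x hx).1; omega, ?_⟩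
        rw [hm _ (by have := (h2 x hx).1; omega), (h2 x hx).2]
        simp only [hc, if_pos h, mul_one]
      · simp only [if_neg h]
        exact ⟨le_rfl, by rw [hm _ le_rfl, hs x h]⟩
    · by_cases h : M x ≤ w (L + 1)
      · simp only [if_pos h] at e ⊢
        rw [hMe x y (pr_mono (by omega) e), if_pos h]
        rcases le_total (lev x) L with h' | h'
        · rw [min_eq_left h'] at e
          rw [h3 x y e]
        · rw [min_eq_right h'] at e ⊢
          rw [h3 x y (pr_mono h' e), min_eq_right h']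
      · simp only [if_neg h] at e ⊢
        rw [hMe x y e, if_neg h]

lemma V_fin (k : ℕ) : (V k : Set (G d)).Finite :=
  (Set.Finite.pi' fun _ : Fin d => Set.finite_Ico (-2 ^ k : ℤ) (2 ^ k)).subset fun _ h => h

lemma frost2 (γ : ℝ) (A : Set (G d)) (k L : ℕ) : ∃ μ : G d → ℝ≥0∞,
    (∀ x, μ x ≠ 0 → x ∈ A ∩ S (k + 1)) ∧ NN γ A (k + 1) ≤ ∑' x, μ x ∧ ∑' x, μ x ≠ ∞ ∧
    ∀ l ≤ L, ∀ a, ∑' y, (cube l a).indicator μ y ≤ E (γ * ((l - k - 2) * log 2)) := by
  classical
  have hf : (A ∩ S (k + 1)).Finite := (V_fin (k + 1)).subset fun x hx => hx.2.1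
  set B := hf.toFinset
  obtain ⟨μ, lev, h0, h1, h2, h3⟩ := frost B (fun l => exp (γ * ((l - k - 2) * log 2)))
    (fun _ => exp_pos _) L
  have ht : ∑' x, (B : Set (G d)).indicator (fun x => ENNReal.ofReal (μ x)) x =
      ∑ x ∈ B, ENNReal.ofReal (μ x) := by
    rw [tsum_eq_sum (s := B) fun x hx => indicator_of_notMem hx _]
    exact Finset.sum_congr rfl fun x hx => indicator_of_mem hx _
  refine ⟨(B : Set (G d)).indicator fun x => ENNReal.ofReal (μ x), fun x hx => ?_, ?_, ?_,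
    fun l hl a => ?_⟩
  · exact hf.mem_toFinset.1 (mem_of_indicator_ne_zero hx)
  · set key : G d → ℕ × G d := fun x => (lev x, pr (lev x) x)
    refine (iInf₂_le (B.image key) fun x hx => mem_iUnion₂.2 ⟨key x,
      Finset.mem_image_of_mem _ (hf.mem_toFinset.2 hx), mem_cube.2 rfl⟩).trans ?_
    rw [ht, ← Finset.sum_fiberwise_of_maps_to (g := key) (t := B.image key)
      fun x hx => Finset.mem_image_of_mem _ hx]
    refine Finset.sum_le_sum fun q hq => ?_
    obtain ⟨x, hx, rfl⟩ := Finset.mem_image.1 hq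
    rw [w_eq, ← ENNReal.ofReal_sum_of_nonneg fun y _ => h0 y]
    refine ENNReal.ofReal_le_ofReal (le_trans (le_of_eq ?_) ((h2 x hx).2.symm.le.trans
      (Finset.sum_le_sum_of_subset_of_nonneg (fun y hy => ?_) fun y _ _ => h0 y)))
    · congr 2; push_cast; ring
    · rw [Finset.mem_filter] at hy ⊢
      have := h3 x y hy.2
      exact ⟨hy.1, Prod.ext this (by simp only [key, this, hy.2])⟩
  · rw [ht]
    exact ENNReal.sum_ne_top.2 fun _ _ => ENNReal.ofReal_ne_top
  · by_cases h : ∃ x, x ∈ cube l a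
    · obtain ⟨x, hx⟩ := h
      refine le_trans ?_ (ENNReal.ofReal_le_ofReal (h1 l hl x))
      rw [mass, ENNReal.ofReal_sum_of_nonneg fun y _ => h0 y,
        tsum_eq_sum (s := B.filter fun y => pr l y = pr l x) fun y hy => ?_]
      · exact Finset.sum_le_sum fun y _ => (indicator_le_self _ _ y).trans (indicator_le_self _ _ y)
      · by_contra hc
        have h5 : y ∈ cube l a := mem_of_indicator_ne_zero hc
        rw [indicator_of_mem h5] at hc
        exact hy (Finset.mem_filter.2 ⟨mem_of_indicator_ne_zero (s := (B : Set (G d))) hc, by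
          rw [mem_cube.1 hx, mem_cube.1 h5]⟩)
    · push Not at h
      simp [h]

lemma pot {β γ : ℝ} (hβ : 0 ≤ β) (hγ : β < γ) : ∃ C, ∀ (k : ℕ) (μ : G d → ℝ≥0∞),
    (∀ x, μ x ≠ 0 → x ∈ S (k + 3)) →
    (∀ l ≤ k + 1, ∀ a, ∑' y, (cube l a).indicator μ y ≤ E (γ * ((l - (k + 2 : ℕ) - 2) * log 2))) →
    ∀ x, E (β * (k * log 2)) * ∑' y, μ y * K β (y - x) ≤
      ∑' y, μ y + {x | 2 ^ (k + 1) ≤ ‖x‖ ∧ ‖x‖ < 2 ^ (k + 4)}.indicator (fun _ => E C) x := by
  obtain ⟨C1, h1⟩ := ballG (d := d) hβ hγ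
  obtain ⟨C2, h2⟩ := le_E (T1_card (d := d))
  refine ⟨C1 + C2, fun k μ hS hμ x => ?_⟩
  set D := {v : G d | sz v < 2 ^ (k + 1)}
  have pt : ∀ y, μ y * K β (y - x) ≤ E (-β * (k * log 2)) * μ y +
      D.indicator (fun v => μ (x + v) * K β v) (y - x) := by
    intro y
    by_cases h : y - x ∈ D
    · rw [indicator_of_mem h, add_sub_cancel]; exact le_add_self
    · refine le_add_right ?_
      rw [mul_comm]
      refine mul_le_mul_left (E_le ?_) _
      have := log_le_log (by positivity) (not_lt.1 h)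
      rw [log_pow] at this
      push_cast at this
      unfold lg; nlinarith [l2]
  refine (mul_le_mul_right (ENNReal.tsum_le_tsum pt) _).trans ?_
  rw [ENNReal.tsum_add, ENNReal.tsum_mul_left, tsr, mul_add, ← mul_assoc, E_add,
    show β * (k * log 2) + -β * (k * log 2) = 0 by ring, E_zero, one_mul]
  refine add_le_add_right ?_ _
  by_cases hx : x ∈ {x : G d | 2 ^ (k + 1) ≤ ‖x‖ ∧ ‖x‖ < 2 ^ (k + 4)}
  · rw [indicator_of_mem hx]
    refine (mul_le_mul_right (h1 (fun v => μ (x + v)) k (C2 - γ * (k * log 2))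
      fun n hn => ?_) _).trans (by rw [E_add]; exact E_le (le_of_eq (by ring)))
    calc _ ≤ ∑' v, ∑ e ∈ T1 d, (cube (n + 1) (pr (n + 1) x + e)).indicator μ (x + v) := by
          refine ENNReal.tsum_le_tsum fun v => ?_
          by_cases hv : v ∈ {v : G d | sz v < 2 ^ (n + 1)}
          · refine le_trans ?_ (Finset.single_le_sum (fun _ _ => zero_le)
              (pr_near (l := n + 1) (x := x) (y := x + v) (by rwa [add_sub_cancel_left])))
            rw [indicator_of_mem hv, indicator_of_mem (mem_cube.2 (by abel))]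
          · simp [hv]
      _ ≤ (T1 d).card • E (γ * (((n + 1 : ℕ) - (k + 2 : ℕ) - 2) * log 2)) := by
          rw [Summable.tsum_finsetSum fun _ _ => ENNReal.summable]
          refine Finset.sum_le_card_nsmul _ _ _ fun e _ => ?_
          rw [tal]
          exact hμ _ (by omega) _
      _ ≤ _ := by
          rw [nsmul_eq_mul]
          refine (mul_le_mul_left h2 _).trans ?_
          rw [E_add]
          push_cast
          exact E_le (by nlinarith [l2])
  · rw [indicator_of_notMem hx, ENNReal.tsum_eq_zero.2 fun v => ?_, mul_zero]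
    by_contra hc
    have h3' : v ∈ D := mem_of_indicator_ne_zero hc
    rw [indicator_of_mem h3'] at hc
    have h3 : sz v < 2 ^ (k + 1) := h3'
    have h4 := hS _ (left_ne_zero_of_mul hc)
    have h5 := S_low h4
    have h6 := V_up h4.1
    have h7 := norm_add_le x v
    have h8 := norm_sub_le (x + v) v
    rw [add_sub_cancel_right] at h8
    have h0 : (0 : ℝ) < 2 ^ k := by positivity
    simp only [sz, pow_succ] at h3 h5 h6
    exact hx ⟨by simp only [pow_succ]; linarith, by simp only [pow_succ]; linarith⟩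

lemma few (T : Finset ℕ) (c : ℝ≥0∞) (x : G d) :
    ∑ k ∈ T, {x : G d | 2 ^ (k + 1) ≤ ‖x‖ ∧ ‖x‖ < 2 ^ (k + 4)}.indicator (fun _ => c) x ≤ 4 * c := by
  classical
  obtain ⟨n, h1, h2⟩ := exists_nat_pow_near (le_max_left 1 ‖x‖) one_lt_two
  simp only [indicator_apply]
  rw [← Finset.sum_filter, Finset.sum_const, nsmul_eq_mul]
  refine mul_le_mul_left ?_ _
  have : (T.filter fun k => x ∈ {x : G d | 2 ^ (k + 1) ≤ ‖x‖ ∧ ‖x‖ < 2 ^ (k + 4)}).card ≤
      (Finset.Icc (n - 3) n).card := Finset.card_le_card fun k hk => by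
    obtain ⟨h3, h4⟩ := (Finset.mem_filter.1 hk).2
    rw [max_eq_right ((one_le_pow₀ one_le_two).trans h3)] at h1 h2
    have a := (pow_lt_pow_iff_right₀ one_lt_two).1 (h3.trans_lt h2)
    have b := (pow_lt_pow_iff_right₀ one_lt_two).1 (h1.trans_lt h4)
    rw [Finset.mem_Icc]; omega
  rw [Nat.card_Icc] at this
  exact_mod_cast this.trans (by omega)

lemma weights {β γ : ℝ} (hβ : 0 ≤ β) (hγ : β < γ) {A : Set (G d)}
    (hA : ∑' k, NN γ A (k + 1) = ∞) : ∃ C, ∀ (z : G d) (R : ℝ), ∃ (ρ : G d → ℝ≥0∞) (M : ℝ≥0∞),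
      1 ≤ M ∧ M ≠ ∞ ∧ (∀ y, ρ y ≠ 0 → y ∈ A ∧ R ≤ ‖y‖) ∧
      E (-C) * M ≤ ∑' y, ρ y * K β (y - z) ∧ ∑' y, ρ y * K β (y - z) ≤ M ∧
      ∀ x, ∑' y, ρ y * K β (y - x) ≤ E C * M := by
  obtain ⟨C1, h1⟩ := pot (d := d) hβ hγ
  obtain ⟨C2, h2⟩ := le_E (C := 1 + 4 * E C1) (by finiteness [E_top C1])
  choose μ hμ1 hμ2 hμ3 hμ4 using fun k => frost2 γ A (k + 2) (k + 1)
  have hfin : ∀ k, NN γ A (k + 1) ≠ ∞ := fun k => by
    obtain ⟨μ, -, a, b, -⟩ := frost2 γ A k 0
    exact ne_top_of_le_ne_top b a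
  refine ⟨max C2 (β * (4 * log 2)), fun z R => ?_⟩
  obtain ⟨k0, hk0⟩ := pow_unbounded_of_one_lt (max R ‖z‖) (one_lt_two (α := ℝ))
  obtain ⟨k1, hk1⟩ : ∃ k1, 1 ≤ ∑ k ∈ Finset.range k1, NN γ A (k + (k0 + 2) + 1) := by
    by_contra hc
    push Not at hc
    rw [← ENNReal.summable.sum_add_tsum_nat_add' (k := k0 + 2), ENNReal.tsum_eq_iSup_nat] at hA
    exact ENNReal.add_ne_top.2 ⟨ENNReal.sum_ne_top.2 fun k _ => hfin k,
      ne_top_of_le_ne_top ENNReal.one_ne_top (iSup_le fun k => (hc k).le)⟩ hA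
  set T := Finset.Ico k0 (k0 + k1)
  have hsw : ∀ x, ∑' y, (∑ k ∈ T, E (β * (k * log 2)) * μ k y) * K β (y - x) =
      ∑ k ∈ T, E (β * (k * log 2)) * ∑' y, μ k y * K β (y - x) := fun x => by
    simp only [Finset.sum_mul, mul_assoc]
    rw [Summable.tsum_finsetSum fun _ _ => ENNReal.summable]
    simp only [ENNReal.tsum_mul_left]
  have hM : 1 ≤ ∑ k ∈ T, ∑' y, μ k y := by
    refine hk1.trans ?_
    rw [Finset.sum_Ico_eq_sum_range, Nat.add_sub_cancel_left]
    refine Finset.sum_le_sum fun k _ => le_trans (le_of_eq ?_) (hμ2 _)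
    congr 1; omega
  have hz : ∀ k ∈ T, ∀ y, μ k y ≠ 0 →
      R ≤ ‖y‖ ∧ k * log 2 ≤ lg (y - z) ∧ lg (y - z) ≤ (k + 4) * log 2 := by
    intro k hk y hy
    have a := S_low (hμ1 k y hy).2
    have b := V_up (hμ1 k y hy).2.1
    have c : (2 : ℝ) ^ k0 ≤ 2 ^ k := pow_le_pow_right₀ one_le_two (Finset.mem_Ico.1 hk).1
    have e := norm_sub_le y z
    have f := norm_add_le (y - z) z
    rw [sub_add_cancel] at f
    have g : (1 : ℝ) ≤ 2 ^ k := one_le_pow₀ one_le_two
    have i := le_max_left R ‖z‖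
    have j := le_max_right R ‖z‖
    simp only [pow_succ] at a b
    refine ⟨by linarith, ?_, ?_⟩
    · rw [← log_pow]; exact log_le_log (by positivity) (by simp only [sz]; linarith)
    · have := log_le_log (sz_pos _) (show sz (y - z) ≤ 2 ^ (k + 4) by
        simp only [sz, pow_succ]; linarith)
      rw [log_pow] at this
      exact_mod_cast this
  refine ⟨fun y => ∑ k ∈ T, E (β * (k * log 2)) * μ k y, ∑ k ∈ T, ∑' y, μ k y, hM,
    ENNReal.sum_ne_top.2 fun k _ => hμ3 k, fun y hy => ?_, ?_, ?_, fun x => ?_⟩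
  · obtain ⟨k, hk, h⟩ := Finset.exists_ne_zero_of_sum_ne_zero hy
    exact ⟨(hμ1 k y (right_ne_zero_of_mul h)).1, (hz k hk y (right_ne_zero_of_mul h)).1⟩
  · rw [hsw, Finset.mul_sum]
    refine Finset.sum_le_sum fun k hk => ?_
    rw [← ENNReal.tsum_mul_left, ← ENNReal.tsum_mul_left]
    refine ENNReal.tsum_le_tsum fun y => ?_
    by_cases hy : μ k y = 0
    · simp [hy]
    rw [mul_comm (μ k y), ← mul_assoc (E _), K, E_add]
    exact mul_le_mul_left (E_le (by
      nlinarith [(hz k hk y hy).2.2, le_max_right C2 (β * (4 * log 2))])) _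
  · rw [hsw]
    refine Finset.sum_le_sum fun k hk => ?_
    rw [← ENNReal.tsum_mul_left]
    refine ENNReal.tsum_le_tsum fun y => ?_
    by_cases hy : μ k y = 0
    · simp [hy]
    rw [mul_comm (μ k y), ← mul_assoc, K, E_add]
    refine (mul_le_mul_left (E_le (y := 0) (by nlinarith [(hz k hk y hy).2.1])) _).trans ?_
    rw [E_zero, one_mul]
  · rw [hsw]
    refine (Finset.sum_le_sum fun k _ => h1 k (μ k) (fun y hy => (hμ1 k y hy).2) (hμ4 k) x).trans ?_
    rw [Finset.sum_add_distrib]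
    refine le_trans ?_ (mul_le_mul_left (h2.trans (E_le (le_max_left _ _))) _)
    rw [add_mul, one_mul]
    exact add_le_add_right ((few T _ x).trans (le_mul_of_one_le_right' hM)) _

end Pool.Agent.H44.ARW
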