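import Pool.Agent.H44.ARW4

open MeasureTheory ProbabilityTheory Real Set Measure Filter
open scoped ENNReal symmDiff

namespace Pool.Agent.H44.ARW

variable {d : ℕ} (ν : Measure (G d)) [IsProbabilityMeasure ν]

noncomputable def LL : (N : ℕ) → (Fin N × ℕ → G d) → G d → ℝ≥0∞
  | 0, _, x => ({0} : Set (G d)).indicator 1 x
  | N + 1, ω, x => ∑' u, occ (ω ∘ hd N) u * LL N (ω ∘ tl N) (x - u)

lemma LL_ne (N : ℕ) (ω : Fin N × ℕ → G d) (x : G d) (h : LL N ω x ≠ 0) : ∃ n, arw ω n = x := by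
  induction N generalizing x with
  | zero => exact ⟨fun _ => 0, by simpa [arw] using (mem_of_indicator_ne_zero h).symm⟩
  | succ N ih =>
    simp only [LL, ne_eq, ENNReal.tsum_eq_zero, not_forall] at h
    obtain ⟨u, hu⟩ := h
    obtain ⟨n, hn⟩ := ih _ _ (right_ne_zero_of_mul hu)
    have h1 := left_ne_zero_of_mul hu
    simp only [occ, ne_eq, ENNReal.tsum_eq_zero, not_forall] at h1
    obtain ⟨m, hm⟩ := h1
    have h2 : walk (ω ∘ hd N) m = u := mem_of_indicator_ne_zero (s := {u}) hm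
    refine ⟨Fin.cons m n, ?_⟩
    rw [arw_succ]
    simp only [Fin.cons_zero, Fin.cons_succ, h2, hn]
    abel

lemma m_c {ι ι' : Type} (σ : ι' → ι) : Measurable fun ω : ι → G d => ω ∘ σ :=
  measurable_pi_lambda _ fun _ => measurable_pi_apply _

lemma m_LL (N : ℕ) (x : G d) : Measurable fun ω : Fin N × ℕ → G d => LL N ω x := by
  induction N generalizing x with
  | zero => exact measurable_const
  | succ N ih => exact Measurable.tsum fun u => ((m_occ u).comp (m_c _)).mul ((ih _).comp (m_c _))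

lemma prod_int {N : ℕ} {f : (ℕ → G d) → ℝ≥0∞} {g : (Fin N × ℕ → G d) → ℝ≥0∞} (hf : Measurable f)
    (hg : Measurable g) : ∫⁻ ω, f (ω ∘ hd N) * g (ω ∘ tl N) ∂PP ν _ =
      (∫⁻ w, f w ∂PP ν ℕ) * ∫⁻ ω, g ω ∂PP ν _ := by
  rw [← lintegral_prod_mul hf.aemeasurable hg.aemeasurable]
  exact (mp_ht ν N).lintegral_comp (f := fun z => f z.1 * g z.2)
    ((hf.comp measurable_fst).mul (hg.comp measurable_snd))

lemma int1 (N : ℕ) (x : G d) : ∫⁻ ω, LL (N + 1) ω x ∂PP ν _ =
    ∑' u, green ν u * ∫⁻ ω, LL N ω (x - u) ∂PP ν _ := by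
  simp only [LL]
  rw [lintegral_tsum (f := fun u (ω : Fin (N + 1) × ℕ → G d) =>
    occ (ω ∘ hd N) u * LL N (ω ∘ tl N) (x - u)) fun u =>
      (((m_occ u).comp (m_c _)).mul ((m_LL _ _).comp (m_c _))).aemeasurable]
  exact tsum_congr fun u => by rw [prod_int ν (m_occ u) (m_LL N _), int_occ]

lemma tmul (a b : G d → ℝ≥0∞) (c : G d → G d → ℝ≥0∞) (h : ∀ u v, a u * b v = c u v) :
    (∑' u, a u) * ∑' v, b v = ∑' u, ∑' v, c u v := by
  simp only [← h, ENNReal.tsum_mul_left, ENNReal.tsum_mul_right]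

lemma int2 (N : ℕ) (x y : G d) : ∫⁻ ω, LL (N + 1) ω x * LL (N + 1) ω y ∂PP ν _ =
    ∑' u, ∑' v, (∫⁻ w, occ w u * occ w v ∂PP ν ℕ) *
      ∫⁻ ω, LL N ω (x - u) * LL N ω (y - v) ∂PP ν _ := by
  have h : ∀ ω : Fin (N + 1) × ℕ → G d, LL (N + 1) ω x * LL (N + 1) ω y = ∑' u, ∑' v,
      occ (ω ∘ hd N) u * occ (ω ∘ hd N) v * (LL N (ω ∘ tl N) (x - u) * LL N (ω ∘ tl N) (y - v)) := by
    intro ω
    simp only [LL]
    exact tmul _ _ _ fun u v => mul_mul_mul_comm _ _ _ _
  have hm : ∀ u v, Measurable fun ω : Fin (N + 1) × ℕ → G d => occ (ω ∘ hd N) u *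
      occ (ω ∘ hd N) v * (LL N (ω ∘ tl N) (x - u) * LL N (ω ∘ tl N) (y - v)) := fun u v =>
    (((m_occ u).mul (m_occ v)).comp (m_c _)).mul (((m_LL _ _).mul (m_LL _ _)).comp (m_c _))
  simp only [h]
  rw [lintegral_tsum fun u => (Measurable.tsum (hm u)).aemeasurable]
  refine tsum_congr fun u => ?_
  rw [lintegral_tsum fun v => (hm u v).aemeasurable]
  exact tsum_congr fun v => prod_int ν ((m_occ u).mul (m_occ v)) ((m_LL _ _).mul (m_LL _ _))

lemma mom1 {α : ℝ} (h : BT ν α) (hα : 0 < α) (N : ℕ) (hN : (N + 1) * α < d) : ∃ c, ∀ x,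
    E c * K (d - (N + 1) * α) x ≤ ∫⁻ ω, LL (N + 1) ω x ∂PP ν _ := by
  have hN0 : ∀ N : ℕ, 0 ≤ N * α := fun N => by positivity
  obtain ⟨c, C, hg⟩ := green_bd ν h (by linarith [hN0 N])
  induction N with
  | zero =>
    refine ⟨c, fun x => ?_⟩
    rw [int1]
    refine le_trans ?_ (ENNReal.le_tsum x)
    simpa [LL] using (hg x).1
  | succ N ih =>
    push_cast at hN
    obtain ⟨c2, h2⟩ := ih (by linarith)
    refine ⟨c + c2 + -(d - (N + 1) * α + d) * log 2, fun x => ?_⟩
    rw [int1, show (d : ℝ) - ((N + 1 : ℕ) + 1) * α = d - α + (d - (N + 1) * α) - d by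
      push_cast; ring, ← E_add, mul_assoc]
    refine (mul_le_mul_right (convlow (by linarith [hN0 N]) (by linarith) x) _).trans ?_
    rw [← ENNReal.tsum_mul_left]
    refine ENNReal.tsum_le_tsum fun u => ?_
    rw [← E_add, mul_mul_mul_comm]
    exact mul_le_mul' (hg u).1 (h2 _)

noncomputable def TT (s : ℝ) (x y : G d) : ℝ≥0∞ := K s (y - x) * (K s x + K s y)

lemma tconv {a c : ℝ} (ha : 0 ≤ a) (hc : 0 ≤ c) (had : a < d) (hcd : c < d) (hac : d < a + c) :
    ∃ C, ∀ x y : G d, ∑' u, ∑' v, TT a u v * TT c (x - u) (y - v) ≤ E C * TT (a + c - d) x y := by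
  obtain ⟨C1, h1⟩ := conv ha hc had hcd hac
  obtain ⟨C2, h2⟩ := three ha hc had hcd hac
  obtain ⟨C, hC⟩ := E3 (C1 + C1) (C1 + C2) (C1 + C2)
  refine ⟨C, fun x y => ?_⟩
  set b := a + c - d
  have e : ∀ u, ∑' v, TT a u v * TT c (x - u) (y - v) = ∑' w, K a w * K c (y - x - w) *
      (K a u * K c (x - u) + K a (w + u) * K c (y - (w + u)) + K a u * K c (y - w - u) +
        K a (w + u) * K c (x + w - (w + u))) := by
    intro u
    rw [← tsr _ (-u)]
    refine tsum_congr fun w => ?_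
    simp only [TT, sub_neg_eq_add]
    rw [add_sub_cancel_right, show y - (w + u) - (x - u) = y - x - w by abel,
      show x + w - (w + u) = x - u by abel, show y - w - u = y - (w + u) by abel]
    ring
  simp only [e]
  rw [ENNReal.tsum_comm]
  calc _ ≤ ∑' w, (E C1 * (K b x + K b y) * (K a w * K c (y - x - w)) +
        E C1 * (K a w * K c (y - x - w) * K b (w - y)) +
        E C1 * (K a w * K c (y - x - w) * K b (w - -x))) := by
        refine ENNReal.tsum_le_tsum fun w => ?_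
        rw [ENNReal.tsum_mul_left, ENNReal.tsum_add, ENNReal.tsum_add, ENNReal.tsum_add,
          tal (fun u => K a u * K c (y - u)), tal (fun u => K a u * K c (x + w - u))]
        refine (mul_le_mul_right (add_le_add (add_le_add (add_le_add (h1 _) (h1 _)) (h1 _))
          (h1 _)) _).trans (le_of_eq ?_)
        rw [K_rev b y w, show w - -x = x + w by abel]
        ring
    _ ≤ E C1 * (K b x + K b y) * (E C1 * K b (y - x)) +
        E C1 * (E C2 * (K b (y - x) * (K b y + K b (y - (y - x))))) +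
        E C1 * (E C2 * (K b (y - x) * (K b (-x) + K b (-x - (y - x))))) := by
        simp only [ENNReal.tsum_add, ENNReal.tsum_mul_left]
        exact add_le_add (add_le_add (mul_le_mul_right (h1 _) _) (mul_le_mul_right (h2 _ _) _))
          (mul_le_mul_right (h2 _ _) _)
    _ ≤ _ := by
        refine le_trans (le_of_eq ?_) (mul_le_mul_left hC _)
        rw [show -x - (y - x) = -y by abel, sub_sub_cancel, K_neg, K_neg, TT, ← E_add, ← E_add]
        ring

lemma mom2 {α : ℝ} (h : BT ν α) (hα : 0 < α) (N : ℕ) (hN : (N + 1) * α < d) : ∃ C, ∀ x y,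
    ∫⁻ ω, LL (N + 1) ω x * LL (N + 1) ω y ∂PP ν _ ≤ E C * TT (d - (N + 1) * α) x y := by
  have hN0 : ∀ N : ℕ, 0 ≤ N * α := fun N => by positivity
  obtain ⟨c, C, hg⟩ := green_bd ν h (by linarith [hN0 N])
  have h1 : ∀ u v, ∫⁻ w, occ w u * occ w v ∂PP ν ℕ ≤ E (C + C) * TT (d - α) u v := fun u v => by
    refine (occ2 ν u v).trans ((add_le_add (mul_le_mul' (hg _).2 (hg _).2)
      (mul_le_mul' (hg _).2 (hg _).2)).trans (le_of_eq ?_))
    rw [K_rev _ u v, TT, ← E_add]; ring
  induction N with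
  | zero =>
    refine ⟨C + C, fun x y => ?_⟩
    rw [int2, tsum_eq_single x fun u hu => by simp [LL, sub_eq_zero, hu.symm],
      tsum_eq_single y fun u hu => by simp [LL, sub_eq_zero, hu.symm]]
    simpa [LL] using h1 x y
  | succ N ih =>
    push_cast at hN
    obtain ⟨C2, h2⟩ := ih (by linarith)
    obtain ⟨C3, h3⟩ := tconv (d := d) (a := d - α) (c := d - (N + 1) * α) (by linarith [hN0 N])
      (by linarith) (by linarith) (by linarith [hN0 N]) (by linarith)
    refine ⟨C + C + C2 + C3, fun x y => ?_⟩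
    rw [int2, show (d : ℝ) - ((N + 1 : ℕ) + 1) * α = d - α + (d - (N + 1) * α) - d by
      push_cast; ring, ← E_add, mul_assoc]
    refine le_trans ?_ (mul_le_mul_right (h3 x y) _)
    simp only [← ENNReal.tsum_mul_left]
    refine ENNReal.tsum_le_tsum fun u => ENNReal.tsum_le_tsum fun v => ?_
    rw [← E_add, mul_mul_mul_comm]
    exact mul_le_mul' (h1 u v) (h2 _ _)

lemma pz {Ω : Type} [MeasurableSpace Ω] (P : Measure Ω) {Z : Ω → ℝ≥0∞} (hZ : Measurable Z)
    {c C : ℝ} {M : ℝ≥0∞} (h0 : M ≠ 0) (ht : M ≠ ∞) (h1 : E c * M ≤ ∫⁻ ω, Z ω ∂P)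
    (h2 : ∫⁻ ω, Z ω * Z ω ∂P ≤ E C * (M * M)) : E (2 * c - C - 2 * log 2) ≤ P {ω | Z ω ≠ 0} := by
  set t := C - c + log 2
  have hs : MeasurableSet {ω | Z ω ≠ 0} := hZ (measurableSet_singleton 0).compl
  have pt : ∀ ω, E t * M * Z ω ≤
      E t * M * (E t * M) * {ω | Z ω ≠ 0}.indicator 1 ω + Z ω * Z ω := by
    intro ω
    by_cases h : Z ω = 0
    · simp [h]
    rw [indicator_of_mem (show ω ∈ {ω | Z ω ≠ 0} from h), Pi.one_apply, mul_one]
    rcases le_total (Z ω) (E t * M) with h | h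
    · exact le_add_right (mul_le_mul_right h _)
    · exact le_add_left (mul_le_mul_left h _)
  have h3 := lintegral_mono (μ := P) pt
  rw [lintegral_const_mul _ hZ, lintegral_add_right (g := fun ω => Z ω * Z ω) _ (hZ.mul hZ),
    lintegral_const_mul _ (measurable_one.indicator hs), lintegral_indicator_one hs] at h3
  have h4 := ((mul_le_mul_right h1 _).trans h3).trans (add_le_add_right h2 _)
  have h5 : (E C + E C) * (M * M) ≤ (E (t + t) * P {ω | Z ω ≠ 0} + E C) * (M * M) := by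
    refine le_trans (le_of_eq ?_) (h4.trans (le_of_eq ?_))
    · rw [mul_mul_mul_comm, E_add, show t + c = log 2 + C by simp only [t]; ring, ← E_add,
        E_log two_pos, ENNReal.ofReal_ofNat, two_mul]
    · rw [← E_add t t]; ring
  rw [ENNReal.mul_le_mul_iff_left (mul_ne_zero h0 h0) (ENNReal.mul_ne_top ht ht),
    ENNReal.add_le_add_iff_right (E_top _)] at h5
  refine (ENNReal.mul_le_mul_iff_right (E_ne (t + t)) (E_top _)).1 (le_trans ?_ h5)
  rw [E_add]
  exact E_le (le_of_eq (by simp only [t]; ring))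

lemma far {α γ : ℝ} (h : BT ν α) (hα : 0 < α) (N : ℕ) (hN : (N + 1) * α < d) {A : Set (G d)}
    (hγ : d - (N + 1) * α < γ) (hA : ∑' k, NN γ A (k + 1) = ∞) : ∃ c, ∀ (z : G d) (R : ℝ),
      E c ≤ PP ν (Fin (N + 1) × ℕ) {ω | ∃ n, z + arw ω n ∈ A ∧ R ≤ ‖z + arw ω n‖} := by
  obtain ⟨c1, h1⟩ := mom1 ν h hα N hN
  obtain ⟨C2, h2⟩ := mom2 ν h hα N hN
  obtain ⟨C3, h3⟩ := weights (by linarith) hγ hA
  set β := d - (N + 1) * α
  refine ⟨2 * (c1 + -C3) - (C2 + C3 + log 2) - 2 * log 2, fun z R => ?_⟩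
  obtain ⟨ρ, M, a1, a2, a3, a4, a5, a6⟩ := h3 z R
  have hm : ∀ y, Measurable fun ω : Fin (N + 1) × ℕ → G d => ρ y * LL (N + 1) ω (y - z) :=
    fun y => (m_LL _ _).const_mul _
  refine (pz (PP ν _) (Z := fun ω => ∑' y, ρ y * LL (N + 1) ω (y - z)) (Measurable.tsum hm)
    (one_pos.trans_le a1).ne' a2 ?_ ?_).trans
    (measure_mono fun ω hω => ?_)
  · rw [lintegral_tsum fun y => (hm y).aemeasurable, ← E_add, mul_assoc]
    refine (mul_le_mul_right a4 _).trans ?_
    rw [← ENNReal.tsum_mul_left]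
    refine ENNReal.tsum_le_tsum fun y => ?_
    rw [lintegral_const_mul _ (m_LL _ _), mul_left_comm]
    exact mul_le_mul_right (h1 _) _
  · have hm2 : ∀ x y, Measurable fun ω : Fin (N + 1) × ℕ → G d =>
        ρ x * ρ y * (LL (N + 1) ω (x - z) * LL (N + 1) ω (y - z)) :=
      fun x y => ((m_LL _ _).mul (m_LL _ _)).const_mul _
    rw [lintegral_congr fun ω => tmul _ _ _ fun u v => mul_mul_mul_comm _ _ _ _,
      lintegral_tsum fun x => (Measurable.tsum (hm2 x)).aemeasurable]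
    calc _ ≤ ∑' x, ∑' y, (E C2 * (ρ x * K β (x - z) * (ρ y * K β (y - x))) +
          E C2 * (ρ y * K β (y - z) * (ρ x * K β (x - y)))) := by
          refine ENNReal.tsum_le_tsum fun x => ?_
          rw [lintegral_tsum fun y => (hm2 x y).aemeasurable]
          refine ENNReal.tsum_le_tsum fun y => ?_
          rw [lintegral_const_mul (f := fun ω => LL (N + 1) ω (x - z) * LL (N + 1) ω (y - z)) _
            ((m_LL _ _).mul (m_LL _ _))]
          refine (mul_le_mul_right (h2 _ _) _).trans (le_of_eq ?_)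
          rw [TT, sub_sub_sub_cancel_right, K_rev β x y]; ring
      _ ≤ E C2 * (M * (E C3 * M)) + E C2 * (M * (E C3 * M)) := by
          have key : ∑' x, ∑' y, E C2 * (ρ x * K β (x - z) * (ρ y * K β (y - x))) ≤
              E C2 * (M * (E C3 * M)) := by
            simp only [ENNReal.tsum_mul_left]
            refine mul_le_mul_right ((ENNReal.tsum_le_tsum fun x =>
              mul_le_mul_right (a6 x) _).trans ?_) _
            rw [ENNReal.tsum_mul_right]
            exact mul_le_mul_left a5 _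
          simp only [ENNReal.tsum_add]
          exact add_le_add key (ENNReal.tsum_comm.trans_le key)
      _ = _ := by
          rw [← E_add, ← E_add, E_log two_pos, ENNReal.ofReal_ofNat]; ring
  · simp only [mem_ofPred_eq, ne_eq, ENNReal.tsum_eq_zero, not_forall] at hω
    obtain ⟨y, hy⟩ := hω
    obtain ⟨n, hn⟩ := LL_ne _ _ _ (right_ne_zero_of_mul hy)
    refine ⟨n, ?_⟩
    rw [hn, add_sub_cancel]
    exact a3 y (left_ne_zero_of_mul hy)

def EE {N : ℕ} (A : Set (G d)) (z : G d) : Set (Fin N × ℕ → G d) :=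
  ⋂ R : ℕ, {ω | ∃ n, z + arw ω n ∈ A ∧ (R : ℝ) ≤ ‖z + arw ω n‖}

lemma ms_EE {N : ℕ} {β : Type} [MeasurableSpace β] (A : Set (G d)) {z : β → G d}
    {f : β → Fin N × ℕ → G d} (hz : Measurable z) (hf : Measurable f) (R : ℕ) :
    MeasurableSet {b | ∃ n, z b + arw (f b) n ∈ A ∧ (R : ℝ) ≤ ‖z b + arw (f b) n‖} := by
  rw [ofPred_exists]
  exact MeasurableSet.iUnion fun n => (hz.add ((m_arw n).comp hf))
    (MeasurableSet.of_discrete (s := {x | x ∈ A ∧ (R : ℝ) ≤ ‖x‖}))

lemma zero_one {N : ℕ} {A : Set (G d)} {c : ℝ} (h : ∀ z, E c ≤ PP ν (Fin N × ℕ) (EE A z)) :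
    PP ν (Fin N × ℕ) (EE A 0)ᶜ = 0 := by
  have hE : ∀ z, MeasurableSet (EE (N := N) A z) := fun z =>
    MeasurableSet.iInter (ms_EE A measurable_const measurable_id)
  have key : ∀ C ∈ measurableCylinders (fun _ : Fin N × ℕ => G d),
      E c * PP ν _ C ≤ PP ν _ (C ∩ EE A 0) := by
    intro C hC
    have mC := MeasurableSet.of_mem_measurableCylinders hC
    obtain ⟨I, C', -, rfl⟩ := (mem_measurableCylinders C).1 hC
    set C : Set (Fin N × ℕ → G d) := cylinder (α := fun _ => G d) I C' with hCd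
    set t := I.sup (·.2) + 1
    set σ : Fin N × ℕ → Fin N × ℕ := fun p => (p.1, t + p.2)
    have e : ∀ (ω : Fin N × ℕ → G d) n, arw ω (fun i => t + n i) =
        arw ω (fun _ => t) + arw (ω ∘ σ) n := fun ω n => by
      simp only [arw, walk_add, Finset.sum_add_distrib]; rfl
    set D : Set ((Fin N × ℕ → G d) × (Fin N × ℕ → G d)) :=
      {p | p.1 ∈ C ∧ p.2 ∈ EE A (arw p.1 fun _ => t)}
    have mD : MeasurableSet D := by
      have := (measurable_fst mC).inter (MeasurableSet.iInter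
        (ms_EE (N := N) A ((m_arw fun _ => t).comp measurable_fst) measurable_snd))
      refine (congrArg MeasurableSet ?_).mp this
      ext p
      simp only [D, EE, mem_iInter, mem_inter_iff, mem_ofPred_eq, mem_preimage, Function.comp]
    have hs := split ν {p : Fin N × ℕ | p.2 < t} (σ := σ)
      (fun x y e => Prod.ext (Prod.mk.inj e).1 (add_left_cancel (Prod.mk.inj e).2))
      (fun j => by simp [σ]) (F := D.indicator 1) (measurable_one.indicator mD)
      fun w w' y hw => by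
        have e1 : arw w (fun _ => t) = arw w' fun _ => t :=
          Finset.sum_congr rfl fun i _ => walk_dep le_rfl fun m hm => hw (i, m) hm
        have e2 : w ∈ C ↔ w' ∈ C := by
          rw [hCd, mem_cylinder, mem_cylinder, show I.restrict w = I.restrict w' from
            funext fun i => hw i (Nat.lt_succ_of_le (Finset.le_sup (f := (·.2)) i.2))]
        have e3 : (w, y) ∈ D ↔ (w', y) ∈ D := by simp only [D, mem_ofPred_eq, e1, e2]
        by_cases h : (w', y) ∈ D
        · simp [h, e3.2 h]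
        · simp [h, mt e3.1 h]
    rw [← lintegral_indicator_one mC, ← lintegral_indicator_one (mC.inter (hE 0)),
      ← lintegral_const_mul _ (measurable_one.indicator mC)]
    refine (lintegral_mono fun w => ?_).trans (hs.symm.le.trans (lintegral_mono fun w => ?_))
    · by_cases hw : w ∈ C
      · rw [indicator_of_mem hw, Pi.one_apply, mul_one]
        refine (h (arw w fun _ => t)).trans (le_of_eq ?_)
        rw [← lintegral_indicator_one (hE _)]
        refine lintegral_congr fun y => ?_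
        by_cases hy : y ∈ EE A (arw w fun _ => t) <;> simp [D, hw, hy]
      · simp [hw]
    · by_cases hw : (w, w ∘ σ) ∈ D
      · rw [indicator_of_mem hw, indicator_of_mem (show w ∈ C ∩ EE A 0 from ⟨hw.1,
          mem_iInter.2 fun R => ?_⟩)]
        · rfl
        obtain ⟨n, hn⟩ := mem_iInter.1 hw.2 R
        exact ⟨fun i => t + n i, by rwa [zero_add, e]⟩
      · simp [hw]
  refine le_antisymm (ENNReal.le_of_forall_pos_le_add fun ε hε _ => ?_) zero_le
  obtain ⟨δ, hδ, hδ'⟩ : ∃ δ : ℝ≥0∞, 0 < δ ∧ E (-c) * δ + δ ≤ ε := by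
    have hc : E (-c) + 1 ≠ ∞ := by finiteness [E_top (-c)]
    refine ⟨ε / (E (-c) + 1), ENNReal.div_pos (by exact_mod_cast hε.ne') hc, ?_⟩
    rw [← add_one_mul]
    exact ENNReal.mul_div_le
  obtain ⟨C, hC, h1⟩ := exists_measure_symmDiff_lt_of_generateFrom_isSetRing (μ := PP ν (Fin N × ℕ))
    isSetRing_measurableCylinders ⟨{univ}, countable_singleton _,
      singleton_subset_iff.2 (univ_mem_measurableCylinders _), by simp⟩
    generateFrom_measurableCylinders.symm (hE 0).compl hδ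
  have h2 : PP ν _ C ≤ E (-c) * δ := by
    have := mul_le_mul_right (((key C hC).trans (measure_mono (t := C ∆ (EE A 0)ᶜ) fun ω hω =>
      mem_symmDiff.2 (Or.inl ⟨hω.1, fun h => h hω.2⟩))).trans h1.le) (E (-c))
    rwa [← mul_assoc, E_add, neg_add_cancel, E_zero, one_mul] at this
  rw [zero_add]
  refine le_trans ?_ ((add_le_add h2 h1.le).trans hδ')
  refine (measure_mono fun ω hω => ?_).trans (measure_union_le _ _)
  by_cases h : ω ∈ C
  · exact Or.inl h
  · exact Or.inr (mem_symmDiff.2 (Or.inr ⟨hω, h⟩))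

theorem Q1 {α : ℝ} (h : BT ν α) (hα : 0 < α) (N : ℕ) (hN : (N + 1) * α < d) (A : Set (G d))
    (hA : ((d - (N + 1) * α : ℝ) : EReal) < Dim A) :
    ∀ᵐ ω ∂PP ν (Fin (N + 1) × ℕ), ¬ Bornology.IsBounded (range (arw ω) ∩ A) := by
  obtain ⟨γ, h1, h2⟩ := EReal.lt_iff_exists_real_btwn.1 hA
  rw [EReal.coe_lt_coe_iff] at h1
  have h3 : ∑' k, NN γ A (k + 1) = ∞ := by
    by_contra hc
    exact h2.not_ge (iInf₂_le γ ⟨by linarith, lt_top_iff_ne_top.2 hc⟩)
  obtain ⟨c, hc⟩ := far ν h hα N hN h1 h3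
  have h4 := zero_one ν (N := N + 1) (A := A) (c := c) fun z => by
    rw [EE, Antitone.measure_iInter]
    · exact le_iInf fun R => hc z R
    · rintro a b hab ω ⟨n, h5, h6⟩
      exact ⟨n, h5, le_trans (by exact_mod_cast hab) h6⟩
    · exact fun R => (ms_EE A measurable_const measurable_id R).nullMeasurableSet
    · exact ⟨0, measure_ne_top _ _⟩
  filter_upwards [measure_eq_zero_iff_ae_notMem.1 h4] with ω hω hb
  obtain ⟨R, hR⟩ := isBounded_iff_forall_norm_le.1 hb
  obtain ⟨n, h5, h6⟩ := mem_iInter.1 (not_not.1 hω) (⌊R⌋₊ + 1)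
  rw [zero_add] at h5 h6
  have := hR _ ⟨⟨n, rfl⟩, h5⟩
  push_cast at h6
  linarith [Nat.lt_floor_add_one R]

end Pool.Agent.H44.ARW
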