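import Mathlib

open MeasureTheory
open scoped ENNReal

namespace Pool.Agent.H44.ARW

abbrev G (d : ℕ) := Fin d → ℤ

variable {d N : ℕ}

/-- position after `n` steps of the walk with increments `w` -/
def walk (w : ℕ → G d) (n : ℕ) : G d := ∑ m ∈ Finset.range n, w m

/-- Green function `g(0,x)` of the walk with i.i.d. increments of law `ν` -/
noncomputable def green (ν : Measure (G d)) (x : G d) : ℝ≥0∞ :=
  ∑' n, Measure.infinitePi (fun _ : ℕ => ν) {w | walk w n = x}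

/-- additive random walk; `ω (i, m)` is increment number `m` of walk number `i` -/
def arw (ω : Fin N × ℕ → G d) (n : Fin N → ℕ) : G d := ∑ i, walk (fun m => ω (i, m)) (n i)

def V (k : ℕ) : Set (G d) := {x | ∀ j, -2 ^ k ≤ x j ∧ x j < 2 ^ k}

def S : ℕ → Set (G d)
  | 0 => V 0
  | k + 1 => V (k + 1) \ V k

def cube (l : ℕ) (a : G d) : Set (G d) := {x | ∀ j, a j * 2 ^ l ≤ x j ∧ x j < (a j + 1) * 2 ^ l}

noncomputable def NN (γ : ℝ) (A : Set (G d)) (k : ℕ) : ℝ≥0∞ :=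
  ⨅ (F : Finset (ℕ × G d)) (_ : A ∩ S k ⊆ ⋃ q ∈ F, cube q.1 q.2),
    ∑ q ∈ F, ENNReal.ofReal (2 ^ (γ * ((q.1 : ℝ) - k - 1)))

noncomputable def Dim (A : Set (G d)) : EReal :=
  ⨅ (γ : ℝ) (_ : 0 < γ ∧ ∑' k, NN γ A (k + 1) < ∞), (γ : EReal)

/-- transient walk satisfying the Barlow–Taylor condition with index `α` -/
def BT (ν : Measure (G d)) (α : ℝ) : Prop :=
  green ν 0 < ∞ ∧ ∃ A B : ℝ, 0 < A ∧ A ≤ B ∧ ∀ x : G d, x ≠ 0 →
    ENNReal.ofReal (A * ‖x‖ ^ (-(d : ℝ) + α)) ≤ green ν x ∧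
      green ν x ≤ ENNReal.ofReal (B * ‖x‖ ^ (-(d : ℝ) + α))

end Pool.Agent.H44.ARW
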