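import Mathlib

namespace Pool.Agent.H44.BC
open Finset

section gen
variable {α : Type*} {N : ℕ}

/-- The first `t` entries of an ordering. -/
def pre (σ : Fin N ≃ α) (t : ℕ) : List α := (List.ofFn σ).take t

lemma pre_zero (σ : Fin N ≃ α) : pre σ 0 = [] := by simp [pre]

lemma pre_succ (σ : Fin N ≃ α) {t : ℕ} (ht : t < N) :
    pre σ (t + 1) = pre σ t ++ [σ ⟨t, ht⟩] := by
  unfold pre
  rw [List.take_add_one]
  congr 1
  have : t < (List.ofFn σ).length := by simpa using ht
  rw [List.getElem?_eq_getElem this]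
  simp

lemma mem_pre (σ : Fin N ≃ α) (t : ℕ) (a : α) : a ∈ pre σ t ↔ (σ.symm a).val < t := by
  unfold pre
  rw [List.mem_take_iff_getElem]
  constructor
  · rintro ⟨i, hi, rfl⟩
    simp only [List.length_ofFn, lt_min_iff] at hi
    simp [hi.1]
  · intro h
    refine ⟨(σ.symm a).val, ?_, ?_⟩
    · simp [h]
    · simp

lemma pre_nodup (σ : Fin N ≃ α) (t : ℕ) : (pre σ t).Nodup := by
  unfold pre
  exact (List.nodup_ofFn.2 σ.injective).sublist (List.take_sublist _ _)

lemma pre_length (σ : Fin N ≃ α) {t : ℕ} (ht : t ≤ N) : (pre σ t).length = t := by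
  simp [pre, ht]

lemma pre_swap (σ : Fin N ≃ α) {t : ℕ} (i j : Fin N) (hi : t ≤ i.val) (hj : t ≤ j.val) :
    pre ((Equiv.swap i j).trans σ) t = pre σ t := by
  unfold pre
  apply List.ext_getElem
  · simp
  · intro m h1 h2
    simp only [List.length_take, List.length_ofFn, lt_min_iff] at h1
    simp only [List.getElem_take, List.getElem_ofFn, Equiv.trans_apply]
    congr 1
    apply Equiv.swap_apply_of_ne_of_ne
    · intro h; have := congrArg Fin.val h; simp at this; omega
    · intro h; have := congrArg Fin.val h; simp at this; omega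

variable [Fintype α] [DecidableEq α]

/-- Items not yet shown. -/
def uns (l : List α) : Finset α := univ.filter (fun a => a ∉ l)

lemma mem_uns (l : List α) (a : α) : a ∈ uns l ↔ a ∉ l := by simp [uns]

lemma step_sum {t : ℕ} (ht : t < N) (g : List α → α → ℝ) :
    ((N : ℝ) - t) * ∑ σ : Fin N ≃ α, g (pre σ t) (σ ⟨t, ht⟩)
      = ∑ σ : Fin N ≃ α, ∑ a ∈ univ.filter (fun a => a ∉ pre σ t), g (pre σ t) a := by
  have h1 : ∀ σ : Fin N ≃ α, ∑ a ∈ univ.filter (fun a => a ∉ pre σ t), g (pre σ t) a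
      = ∑ j ∈ univ.filter (fun j : Fin N => t ≤ j.val), g (pre σ t) (σ j) := by
    intro σ
    symm
    apply Finset.sum_bij (fun j _ => σ j)
    · intro j hj
      simp only [mem_filter, mem_univ, true_and] at hj ⊢
      rw [mem_pre]; simp [hj]
    · intro a _ b _ h; exact σ.injective h
    · intro a ha
      simp only [mem_filter, mem_univ, true_and, mem_pre, not_lt] at ha
      exact ⟨σ.symm a, by simp [ha], by simp⟩
    · intro _ _; rfl
  simp_rw [h1]
  rw [Finset.sum_comm]
  have h2 : ∀ j ∈ univ.filter (fun j : Fin N => t ≤ j.val),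
      ∑ σ : Fin N ≃ α, g (pre σ t) (σ j) = ∑ σ : Fin N ≃ α, g (pre σ t) (σ ⟨t, ht⟩) := by
    intro j hj
    simp only [mem_filter, mem_univ, true_and] at hj
    let e : (Fin N ≃ α) ≃ (Fin N ≃ α) :=
      { toFun := fun σ => (Equiv.swap ⟨t, ht⟩ j).trans σ
        invFun := fun σ => (Equiv.swap ⟨t, ht⟩ j).trans σ
        left_inv := fun σ => by ext x; simp
        right_inv := fun σ => by ext x; simp }
    rw [← Equiv.sum_comp e (fun σ => g (pre σ t) (σ ⟨t, ht⟩))]
    apply Finset.sum_congr rfl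
    intro σ _
    show _ = g (pre ((Equiv.swap ⟨t, ht⟩ j).trans σ) t) (((Equiv.swap ⟨t, ht⟩ j).trans σ) ⟨t, ht⟩)
    rw [pre_swap σ _ _ le_rfl hj]
    simp
  rw [Finset.sum_congr rfl h2, Finset.sum_const, nsmul_eq_mul]
  congr 1
  have : (univ.filter (fun j : Fin N => t ≤ j.val)) = Finset.Ici (⟨t, ht⟩ : Fin N) := by
    ext j; simp [Fin.le_def]
  rw [this, Fin.card_Ici]
  simp only
  rw [Nat.cast_sub ht.le]

lemma superm (T : ℕ) (hT : T ≤ N) (Φ : ℕ → List α → ℝ)
    (h : ∀ t < T, ∀ l : List α, l.Nodup → l.length = t →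
      ∑ a ∈ uns l, Φ (t + 1) (l ++ [a]) ≤ ((N : ℝ) - t) * Φ t l) :
    ∑ σ : Fin N ≃ α, Φ T (pre σ T) ≤ (Fintype.card (Fin N ≃ α) : ℝ) * Φ 0 [] := by
  have key : ∀ t ≤ T, ∑ σ : Fin N ≃ α, Φ t (pre σ t) ≤ (Fintype.card (Fin N ≃ α) : ℝ) * Φ 0 [] := by
    intro t
    induction t with
    | zero => intro _; simp [pre_zero]
    | succ t ih =>
      intro ht
      have htN : t < N := by omega
      refine le_trans ?_ (ih (by omega))
      have hpos : (0 : ℝ) < (N : ℝ) - t := by
        have : (t : ℝ) < N := by exact_mod_cast htN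
        linarith
      apply le_of_mul_le_mul_left _ hpos
      simp_rw [fun σ : Fin N ≃ α => pre_succ σ htN]
      rw [step_sum htN (fun l a => Φ (t + 1) (l ++ [a])), Finset.mul_sum]
      apply Finset.sum_le_sum
      intro σ _
      exact h t (by omega) _ (pre_nodup σ t) (pre_length σ htN.le)
  exact key T le_rfl

lemma card_unseen (hN : Fintype.card α = N) (l : List α) (hl : l.Nodup) :
    ((uns l).card : ℝ) = (N : ℝ) - l.length := by
  have : uns l = (l.toFinset)ᶜ := by ext a; simp [uns]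
  rw [this, Finset.card_compl, List.toFinset_card_of_nodup hl, hN, Nat.cast_sub]
  rw [← hN]; exact hl.length_le_card

/-- A fixed set of `m` items lies among the first `T` with probability at most
`(T/(N-T))^m`. -/
lemma first_mom (hN : Fintype.card α = N) (T : ℕ) (hT : T < N) (F : Finset α)
    [DecidablePred (fun σ : Fin N ≃ α => ∀ a ∈ F, a ∈ pre σ T)] :
    ((univ.filter (fun σ : Fin N ≃ α => ∀ a ∈ F, a ∈ pre σ T)).card : ℝ)
      ≤ (Fintype.card (Fin N ≃ α) : ℝ) * ((T : ℝ) / ((N : ℝ) - T)) ^ F.card := by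
  have hpos : (0 : ℝ) < (N : ℝ) - T := by
    have : (T : ℝ) < N := by exact_mod_cast hT
    linarith
  obtain ⟨q, hq⟩ : ∃ q : ℝ, q = 1 / ((N : ℝ) - T) := ⟨_, rfl⟩
  have hq0 : 0 < q := by rw [hq]; positivity
  have hq1 : q * ((N : ℝ) - T) = 1 := by rw [hq]; field_simp
  have := superm (α := α) T hT.le
    (fun t l => (((T : ℝ) - t) * q) ^ (F.filter (fun a => a ∉ l)).card) ?_
  · refine le_trans ?_ (le_trans this (le_of_eq ?_))
    · rw [Finset.card_filter]
      push_cast
      apply Finset.sum_le_sum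
      intro σ _
      split_ifs with h
      · have : F.filter (fun a => a ∉ pre σ T) = ∅ := by
          rw [Finset.filter_eq_empty_iff]; intro a ha; simpa using h a ha
        simp [this]
      · simp
    · simp [hq, div_eq_mul_inv]
  · intro t ht l hl hlen
    have htT : (t : ℝ) + 1 ≤ T := by exact_mod_cast ht
    obtain ⟨x, hx⟩ : ∃ x : ℝ, x = ((T : ℝ) - ((t + 1 : ℕ) : ℝ)) * q := ⟨_, rfl⟩
    have hx0 : 0 ≤ x := by rw [hx]; push_cast; exact mul_nonneg (by linarith) hq0.le
    have hxq : ((T : ℝ) - t) * q = x + q := by rw [hx]; push_cast; ring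
    obtain ⟨u, hu⟩ : ∃ u, u = (F.filter (fun a => a ∉ l)).card := ⟨_, rfl⟩
    rw [← hx, hxq, ← hu]
    have h1 : ∀ a ∈ uns l,
        x ^ (F.filter (fun b => b ∉ l ++ [a])).card ≤ x ^ u + if a ∈ F then x ^ (u - 1) else 0 := by
      intro a ha
      rw [mem_uns] at ha
      have e : F.filter (fun b => b ∉ l ++ [a]) = (F.filter (fun b => b ∉ l)).erase a := by
        ext b; simp; tauto
      rw [e]
      split_ifs with h
      · rw [Finset.card_erase_of_mem (by simp [h, ha]), ← hu]
        have := pow_nonneg hx0 u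
        linarith
      · rw [Finset.erase_eq_of_notMem (by simp [h]), ← hu]; simp
    refine le_trans (Finset.sum_le_sum h1) ?_
    rw [Finset.sum_add_distrib, Finset.sum_const, nsmul_eq_mul, card_unseen hN l hl, hlen,
      ← Finset.sum_filter, Finset.sum_const, nsmul_eq_mul]
    have e2 : ((uns l).filter (fun a => a ∈ F)).card = u := by
      rw [hu]; congr 1; ext a; simp [uns]; tauto
    rw [e2]
    have hb := pow_add_mul_le_add_pow hx0 (b := q) (by linarith) u
    have hge : 1 ≤ ((N : ℝ) - t) * q := by nlinarith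
    have hn : 0 ≤ (u : ℝ) * x ^ (u - 1) := mul_nonneg (Nat.cast_nonneg _) (pow_nonneg hx0 _)
    have hNt : (0 : ℝ) ≤ (N : ℝ) - t := by linarith
    calc ((N : ℝ) - t) * x ^ u + u * x ^ (u - 1)
        ≤ ((N : ℝ) - t) * x ^ u + (((N : ℝ) - t) * q) * (u * x ^ (u - 1)) := by nlinarith
      _ = ((N : ℝ) - t) * (x ^ u + u * x ^ (u - 1) * q) := by ring
      _ ≤ _ := mul_le_mul_of_nonneg_left hb hNt

end gen

/-- Success weight of a pure birth chain with rate `lam * j`. -/
noncomputable def w (lam : ℝ) (k : ℕ) : ℕ → ℕ → ℝ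
  | 0, j => if k ≤ j then 1 else 0
  | τ + 1, j => w lam k τ j + lam * j * (w lam k τ (j + 1) - w lam k τ j)

lemma w_top (lam : ℝ) (k τ : ℕ) : ∀ j, k ≤ j → w lam k τ j = 1 := by
  induction τ with
  | zero => intro j h; simp [w, h]
  | succ τ ih => intro j h; simp [w, ih j h, ih (j + 1) (by omega)]

lemma w_mono {lam : ℝ} {k : ℕ} (h0 : 0 ≤ lam) (h1 : lam * k ≤ 1) (τ : ℕ) :
    ∀ j, 0 ≤ w lam k τ j ∧ w lam k τ j ≤ w lam k τ (j + 1) ∧ w lam k τ j ≤ 1 := by
  induction τ with
  | zero =>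
    intro j
    simp only [w]
    split_ifs <;> first | omega | simp
  | succ τ ih =>
    have up : ∀ j, w lam k τ j ≤ w lam k (τ + 1) j := by
      intro j
      simp only [w]
      have := mul_nonneg (mul_nonneg h0 (Nat.cast_nonneg (α := ℝ) j)) (sub_nonneg.2 (ih j).2.1)
      linarith
    have dn : ∀ j, w lam k (τ + 1) j ≤ w lam k τ (j + 1) := by
      intro j
      by_cases hj : k ≤ j
      · rw [w_top _ _ _ j hj, w_top _ _ _ (j + 1) (by omega)]
      · simp only [w]
        have hjk : (j : ℝ) ≤ k := by exact_mod_cast (by omega : j ≤ k)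
        have : lam * j ≤ 1 := le_trans (mul_le_mul_of_nonneg_left hjk h0) h1
        have h2 := sub_nonneg.2 (ih j).2.1
        nlinarith
    intro j
    exact ⟨le_trans (ih j).1 (up j), le_trans (dn j) (up _), le_trans (dn j) (ih _).2.2⟩

lemma w_low {lam : ℝ} {k : ℕ} (h0 : 0 ≤ lam) (h1 : lam * k ≤ 1) (τ : ℕ) :
    ∀ j ≤ k, (∏ i ∈ Ico j k, (lam * i)) * (τ.choose (k - j)) * (1 - lam * k) ^ τ ≤ w lam k τ j := by
  induction τ with
  | zero =>
    intro j hj
    by_cases h : k ≤ j
    · have : j = k := by omega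
      subst this; simp [w]
    · have : k - j ≠ 0 := by omega
      simp [w, h, Nat.choose_eq_zero_of_lt (Nat.pos_of_ne_zero this)]
  | succ τ ih =>
    intro j hj
    have hy0 : 0 ≤ 1 - lam * k := by linarith
    have hy1 : 1 - lam * k ≤ 1 := by
      have := mul_nonneg h0 (Nat.cast_nonneg (α := ℝ) k); linarith
    by_cases h : k ≤ j
    · have : j = k := by omega
      subst this
      rw [w_top _ _ _ _ le_rfl]
      simpa using pow_le_one₀ hy0 hy1
    · have hjk : j < k := by omega
      have e : k - j = (k - (j + 1)) + 1 := by omega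
      have a1 := ih j hj
      have a2 := ih (j + 1) hjk
      rw [Finset.prod_eq_prod_Ico_succ_bot hjk] at a1 ⊢
      rw [e] at a1 ⊢
      rw [Nat.choose_succ_succ']
      simp only [w]
      obtain ⟨P, hP⟩ : ∃ P, P = ∏ i ∈ Ico (j + 1) k, (lam * (i : ℝ)) := ⟨_, rfl⟩
      rw [← hP] at a1 a2 ⊢
      have hj' : (j : ℝ) ≤ k := by exact_mod_cast hj
      have hlj : 0 ≤ lam * j := mul_nonneg h0 (Nat.cast_nonneg _)
      have hlk : lam * j ≤ lam * k := mul_le_mul_of_nonneg_left hj' h0
      have w0 := (w_mono h0 h1 τ j).1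
      have w1 := (w_mono h0 h1 τ (j + 1)).1
      push_cast
      have b1 := mul_le_mul_of_nonneg_left a1 hy0
      have b2 := mul_le_mul_of_nonneg_left a2 (mul_nonneg hy0 hlj)
      have b3 : (1 - lam * k) * w lam k τ j ≤ (1 - lam * j) * w lam k τ j :=
        mul_le_mul_of_nonneg_right (by linarith) w0
      have b4 : (1 - lam * k) * (lam * j) * w lam k τ (j + 1) ≤ lam * j * w lam k τ (j + 1) := by
        have := mul_nonneg hlj w1
        nlinarith
      rw [pow_succ]
      nlinarith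

end Pool.Agent.H44.BC
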