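import Pool.Agent.H44.BC1

namespace Pool.Agent.H44.BC
open Finset

/-- Number of members of `F` through `v`. -/
def dg {V : Type*} [DecidableEq V] (F : Finset (Sym2 V)) (v : V) : ℕ :=
  (F.filter (fun e => v ∈ e)).card

structure St (ι V : Type*) where
  W : ι → Finset V
  F : ι → Finset (Sym2 V)

variable {ι V : Type*} [Fintype ι] [DecidableEq ι] [DecidableEq V]

def St.U (s : St ι V) : Finset V := univ.biUnion s.W

def Good (k : ℕ) (s : St ι V) (a : Sym2 V) (r : ι) (x : V) : Prop :=
  (s.W r).card < k ∧ x ∉ s.U ∧ ∃ v ∈ s.W r, dg (s.F r) v < 3 ∧ a = s(v, x)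

def St.upd (s : St ι V) (a : Sym2 V) (r : ι) (x : V) : St ι V :=
  ⟨Function.update s.W r (insert x (s.W r)), Function.update s.F r (insert a (s.F r))⟩

open Classical in
noncomputable def step (k : ℕ) (s : St ι V) (a : Sym2 V) : St ι V :=
  if h : ∃ p : ι × V, Good k s a p.1 p.2 then s.upd a h.choose.1 h.choose.2 else s

structure Inv (k : ℕ) (s : St ι V) : Prop where
  disj : ∀ r r', r ≠ r' → Disjoint (s.W r) (s.W r')
  card : ∀ r, (s.F r).card + 1 = (s.W r).card
  le : ∀ r, (s.W r).card ≤ k
  supp : ∀ r, ∀ e ∈ s.F r, ∀ v ∈ e, v ∈ s.W r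
  deg : ∀ r v, dg (s.F r) v ≤ 3

lemma mem_U (s : St ι V) (r : ι) {v : V} (h : v ∈ s.W r) : v ∈ s.U :=
  mem_biUnion.2 ⟨r, mem_univ _, h⟩

lemma dg_insert (F : Finset (Sym2 V)) (a : Sym2 V) (y : V) :
    dg (insert a F) y ≤ dg F y + if y ∈ a then 1 else 0 := by
  unfold dg
  rw [Finset.filter_insert]
  split_ifs
  · exact Finset.card_insert_le _ _
  · simp

lemma Inv.upd {k : ℕ} {s : St ι V} (h : Inv k s) {a : Sym2 V} {r : ι} {x : V}
    (g : Good k s a r x) : Inv k (s.upd a r x) := by
  obtain ⟨g1, g2, v, hv, hd, rfl⟩ := g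
  have hx : ∀ r', x ∉ s.W r' := fun r' hh => g2 (mem_U s r' hh)
  have ha : s(v, x) ∉ s.F r := fun hh => hx r (h.supp r _ hh x (by simp))
  refine ⟨?_, ?_, ?_, ?_, ?_⟩
  · intro r1 r2 hne
    simp only [St.upd]
    by_cases e1 : r1 = r
    · subst e1
      rw [Function.update_self, Function.update_of_ne hne.symm, Finset.disjoint_insert_left]
      exact ⟨hx _, h.disj _ _ hne⟩
    · rw [Function.update_of_ne e1]
      by_cases e2 : r2 = r
      · subst e2
        rw [Function.update_self, Finset.disjoint_insert_right]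
        exact ⟨hx _, h.disj _ _ hne⟩
      · rw [Function.update_of_ne e2]; exact h.disj _ _ hne
  · intro r1
    simp only [St.upd]
    by_cases e1 : r1 = r
    · subst e1
      rw [Function.update_self, Function.update_self, card_insert_of_notMem ha,
        card_insert_of_notMem (hx _), h.card]
    · rw [Function.update_of_ne e1, Function.update_of_ne e1, h.card]
  · intro r1
    simp only [St.upd]
    by_cases e1 : r1 = r
    · subst e1
      rw [Function.update_self, card_insert_of_notMem (hx _)]; omega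
    · rw [Function.update_of_ne e1]; exact h.le _
  · intro r1 e he y hy
    simp only [St.upd] at he ⊢
    by_cases e1 : r1 = r
    · subst e1
      rw [Function.update_self] at he ⊢
      rcases mem_insert.1 he with rfl | he
      · rcases Sym2.mem_iff.1 hy with rfl | rfl
        · exact mem_insert_of_mem hv
        · exact mem_insert_self _ _
      · exact mem_insert_of_mem (h.supp _ e he y hy)
    · rw [Function.update_of_ne e1] at he ⊢; exact h.supp _ e he y hy
  · intro r1 y
    simp only [St.upd]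
    by_cases e1 : r1 = r
    · subst e1
      rw [Function.update_self]
      have := dg_insert (s.F r1) s(v, x) y
      split_ifs at this with hy
      · rcases Sym2.mem_iff.1 hy with rfl | rfl
        · omega
        · have : dg (s.F r1) y = 0 := by
            unfold dg
            rw [Finset.card_eq_zero, Finset.filter_eq_empty_iff]
            intro e he hye
            exact hx r1 (h.supp _ e he y hye)
          omega
      · have := h.deg r1 y; omega
    · rw [Function.update_of_ne e1]; exact h.deg _ _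

lemma Inv.step {k : ℕ} {s : St ι V} (h : Inv k s) (a : Sym2 V) : Inv k (step k s a) := by
  unfold BC.step
  split_ifs with g
  · exact h.upd g.choose_spec
  · exact h

lemma good_unique {k : ℕ} {s : St ι V} (h : Inv k s) {a : Sym2 V} {r r' : ι} {x x' : V}
    (g : Good k s a r x) (g' : Good k s a r' x') : r = r' := by
  obtain ⟨_, g2, v, hv, _, e⟩ := g
  obtain ⟨_, g2', v', hv', _, e'⟩ := g'
  rw [e] at e'
  rcases Sym2.eq_iff.1 e' with ⟨rfl, _⟩ | ⟨rfl, _⟩
  · by_contra hne
    exact Finset.disjoint_left.1 (h.disj _ _ hne) hv hv'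
  · exact absurd (mem_U s r hv) g2'

lemma step_card {k : ℕ} {s : St ι V} (h : Inv k s) (a : Sym2 V) (r : ι) [Decidable (∃ x, Good k s a r x)] :
    ((step k s a).W r).card = (s.W r).card + if ∃ x, Good k s a r x then 1 else 0 := by
  unfold BC.step
  split_ifs with g g1 g1
  · obtain ⟨x, hx⟩ := g1
    have e := good_unique h hx g.choose_spec
    have hs := g.choose_spec
    simp only [St.upd]
    rw [← e] at hs ⊢
    rw [Function.update_self, card_insert_of_notMem]
    exact fun hh => hs.2.1 (mem_U s r hh)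
  · have : r ≠ g.choose.1 := by
      intro e
      exact g1 ⟨g.choose.2, e ▸ g.choose_spec⟩
    simp only [St.upd]
    rw [Function.update_of_ne this]; simp
  · obtain ⟨x, hx⟩ := g1
    exact absurd ⟨(r, x), hx⟩ g
  · simp

lemma step_F {k : ℕ} (s : St ι V) (a e : Sym2 V) :
    (∃ r, e ∈ (step k s a).F r) ↔
      (∃ r, e ∈ s.F r) ∨ (e = a ∧ ∃ p : ι × V, Good k s a p.1 p.2) := by
  unfold BC.step
  split_ifs with g
  · simp only [St.upd]
    constructor
    · rintro ⟨r, hr⟩
      by_cases e1 : r = g.choose.1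
      · rw [e1, Function.update_self] at hr
        rcases mem_insert.1 hr with h | h
        · exact Or.inr ⟨h, g⟩
        · exact Or.inl ⟨_, h⟩
      · rw [Function.update_of_ne e1] at hr; exact Or.inl ⟨_, hr⟩
    · rintro (⟨r, hr⟩ | ⟨rfl, _⟩)
      · refine ⟨r, ?_⟩
        by_cases e1 : r = g.choose.1
        · rw [e1, Function.update_self]; exact mem_insert_of_mem (e1 ▸ hr)
        · rw [Function.update_of_ne e1]; exact hr
      · exact ⟨g.choose.1, by rw [Function.update_self]; exact mem_insert_self _ _⟩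
  · constructor
    · intro h; exact Or.inl h
    · rintro (h | ⟨_, h⟩)
      · exact h
      · exact absurd h g

/-- At least a third of the vertices of a tree still have degree below three. -/
lemma active_card {k : ℕ} {s : St ι V} (h : Inv k s) (r : ι) :
    (s.W r).card + 2 ≤ 3 * ((s.W r).filter (fun v => dg (s.F r) v < 3)).card := by
  have h1 : ∑ v ∈ s.W r, dg (s.F r) v ≤ 2 * (s.F r).card := by
    unfold dg
    simp_rw [Finset.card_filter]
    rw [Finset.sum_comm, mul_comm, ← smul_eq_mul]
    apply Finset.sum_le_card_nsmul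
    intro e _
    rw [← Finset.card_filter]
    induction e using Sym2.ind with
    | h a b =>
      refine le_trans (Finset.card_le_card (t := {a, b}) ?_) Finset.card_le_two
      intro y hy
      simpa using (mem_filter.1 hy).2
  have h2 : 3 * ((s.W r).filter (fun v => ¬ dg (s.F r) v < 3)).card ≤ ∑ v ∈ s.W r, dg (s.F r) v := by
    refine le_trans ?_ (Finset.sum_le_sum_of_subset (Finset.filter_subset (fun v => ¬ dg (s.F r) v < 3) _))
    rw [mul_comm, ← smul_eq_mul]
    apply Finset.card_nsmul_le_sum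
    intro v hv
    have := (mem_filter.1 hv).2
    omega
  have h3 := Finset.card_filter_add_card_filter_not (s := s.W r) (fun v => dg (s.F r) v < 3)
  have h4 := h.card r
  omega

lemma U_card {k : ℕ} {s : St ι V} (h : Inv k s) : s.U.card ≤ Fintype.card ι * k := by
  refine le_trans Finset.card_biUnion_le ?_
  rw [← Finset.card_univ, ← smul_eq_mul]
  exact Finset.sum_le_card_nsmul _ _ _ (fun r _ => h.le r)

abbrev Ed (V : Type*) := (⊤ : SimpleGraph V).edgeSet

variable [Fintype V]

open Classical in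
lemma good_card {k : ℕ} {s : St ι V} (h : Inv k s) (r : ι) (hr : (s.W r).card < k) :
    ((s.W r).filter (fun v => dg (s.F r) v < 3)).card * (Fintype.card V - Fintype.card ι * k)
      ≤ (univ.filter (fun a : Ed V => ∃ x, Good k s a.1 r x)).card := by
  have h1 : Fintype.card V - Fintype.card ι * k ≤ (s.Uᶜ).card := by
    rw [Finset.card_compl]; have := U_card h; omega
  refine le_trans (Nat.mul_le_mul_left _ h1) ?_
  rw [← Finset.card_product]
  rw [← Finset.card_image_of_injective (univ.filter (fun a : Ed V => ∃ x, Good k s a.1 r x))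
    Subtype.val_injective]
  apply Finset.card_le_card_of_injOn (fun p => s(p.1, p.2))
  · rintro ⟨v, x⟩ hp
    simp only [coe_product, Set.mem_prod, mem_coe, mem_filter, mem_compl] at hp
    obtain ⟨⟨hv, hd⟩, hx⟩ := hp
    have hne : v ≠ x := fun e => hx (e ▸ mem_U s r hv)
    simp only [coe_image, Set.mem_image, mem_coe, mem_filter, mem_univ, true_and]
    exact ⟨⟨s(v, x), by simpa using hne⟩, ⟨x, hr, hx, v, hv, hd, rfl⟩, rfl⟩
  · rintro ⟨v, x⟩ hp ⟨v', x'⟩ hp' e
    simp only [coe_product, Set.mem_prod, mem_coe, mem_filter, mem_compl] at hp hp'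
    rcases Sym2.eq_iff.1 e with ⟨e1, e2⟩ | ⟨e1, _⟩
    · simp only at e1 e2; rw [e1, e2]
    · simp only at e1
      exact absurd (e1 ▸ mem_U s r hp.1.1) hp'.2

noncomputable def run (k : ℕ) (s0 : St ι V) (l : List (Ed V)) : St ι V :=
  l.foldl (fun s a => step k s a.1) s0

lemma run_concat (k : ℕ) (s0 : St ι V) (l : List (Ed V)) (a : Ed V) :
    run k s0 (l ++ [a]) = step k (run k s0 l) a.1 := by simp [run]

lemma run_inv {k : ℕ} {s0 : St ι V} (h : Inv k s0) (l : List (Ed V)) : Inv k (run k s0 l) := by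
  induction l using List.reverseRecOn with
  | nil => exact h
  | append_singleton l a ih => rw [run_concat]; exact ih.step _

lemma exp_half {x : ℝ} (h0 : 0 ≤ x) (h1 : x ≤ 1) : Real.exp (-x) ≤ 1 - x / 2 := by
  have h := Real.add_one_le_exp x
  rw [Real.exp_neg, inv_le_iff_one_le_mul₀ (Real.exp_pos _)]
  nlinarith

open Classical in
lemma drift {k N : ℕ} {lam : ℝ} (h0 : 0 ≤ lam) (h1 : lam * k ≤ 1)
    (hN : Fintype.card (Ed V) = N) {s : St ι V} (h : Inv k s) (l : List (Ed V)) (hl : l.Nodup)
    (hc : ∀ r, (s.W r).card < k → 2 * lam * (s.W r).card * ((N : ℝ) - l.length) ≤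
      ((uns l).filter (fun a : Ed V => ∃ x, Good k s a.1 r x)).card) (τ : ℕ) :
    ∑ a ∈ uns l,
        Real.exp (-∑ r, w lam k τ ((step k s a.1).W r).card)
      ≤ ((N : ℝ) - l.length) * Real.exp (-∑ r, w lam k (τ + 1) (s.W r).card) := by
  obtain ⟨D, hD⟩ : ∃ D : ι → ℝ, D = fun r => w lam k τ ((s.W r).card + 1) - w lam k τ (s.W r).card :=
    ⟨_, rfl⟩
  have D0 : ∀ r, 0 ≤ D r := fun r => by rw [hD]; exact sub_nonneg.2 (w_mono h0 h1 τ _).2.1
  have D1 : ∀ r, D r ≤ 1 := fun r => by
    rw [hD]
    have := (w_mono h0 h1 τ (s.W r).card).1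
    have := (w_mono h0 h1 τ ((s.W r).card + 1)).2.2
    simp only; linarith
  obtain ⟨E, hE⟩ : ∃ E, E = ∑ r, w lam k τ (s.W r).card := ⟨_, rfl⟩
  obtain ⟨X, hX⟩ : ∃ X : Ed V → ℝ, X = fun a => ∑ r, if ∃ x, Good k s a.1 r x then D r else 0 :=
    ⟨_, rfl⟩
  have e1 : ∀ a : Ed V, ∑ r, w lam k τ ((step k s a.1).W r).card = E + X a := by
    intro a
    rw [hE, hX, ← Finset.sum_add_distrib]
    apply Finset.sum_congr rfl
    intro r _
    rw [step_card h]
    split_ifs
    · rw [hD]; simp
    · simp
  have X0 : ∀ a, 0 ≤ X a := by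
    intro a; rw [hX]; apply Finset.sum_nonneg; intro r _; split_ifs
    · exact D0 r
    · exact le_rfl
  have X1 : ∀ a, X a ≤ 1 := by
    intro a; rw [hX]
    by_cases g : ∃ r x, Good k s a.1 r x
    · obtain ⟨r, x, g⟩ := g
      simp only
      rw [Finset.sum_eq_single r]
      · rw [if_pos ⟨x, g⟩]; exact D1 r
      · intro r' _ hne
        rw [if_neg]
        rintro ⟨x', g'⟩
        exact hne (good_unique h g' g)
      · simp
    · push Not at g
      simp [g]
  have e2 : ∑ r, w lam k (τ + 1) (s.W r).card = E + ∑ r, lam * (s.W r).card * D r := by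
    rw [hE, ← Finset.sum_add_distrib, hD]; rfl
  simp_rw [e1]
  rw [e2]
  have hM : (0 : ℝ) ≤ (N : ℝ) - l.length := by rw [← card_unseen hN l hl]; positivity
  have b1 : ∑ a ∈ uns l, Real.exp (-(E + X a))
      ≤ ∑ a ∈ uns l, Real.exp (-E) * (1 - X a / 2) := by
    apply Finset.sum_le_sum
    intro a _
    rw [neg_add, Real.exp_add]
    exact mul_le_mul_of_nonneg_left (exp_half (X0 a) (X1 a)) (Real.exp_pos _).le
  refine le_trans b1 ?_
  rw [← Finset.mul_sum, Finset.sum_sub_distrib, Finset.sum_const, nsmul_eq_mul, mul_one,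
    card_unseen hN l hl, neg_add, Real.exp_add, mul_left_comm]
  apply mul_le_mul_of_nonneg_left _ (Real.exp_pos _).le
  have b2 : ((N : ℝ) - l.length) * ∑ r, lam * (s.W r).card * D r
      ≤ ∑ a ∈ uns l, X a / 2 := by
    rw [← Finset.sum_div, hX, Finset.sum_comm, Finset.mul_sum, Finset.sum_div]
    apply Finset.sum_le_sum
    intro r _
    rw [← Finset.sum_filter, Finset.sum_const, nsmul_eq_mul]
    by_cases hr : (s.W r).card < k
    · have := mul_le_mul_of_nonneg_right (hc r hr) (D0 r)
      nlinarith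
    · have : D r = 0 := by
        rw [hD]; simp only
        rw [w_top _ _ _ _ (by omega), w_top _ _ _ _ (by omega)]; simp
      simp [this]
  have b3 := Real.add_one_le_exp (-∑ r, lam * (s.W r).card * D r)
  have b4 := mul_le_mul_of_nonneg_left b3 hM
  nlinarith

open Classical in
lemma count_ok {k n N : ℕ} (hn : Fintype.card V = n) (hN : 2 * N ≤ n * n) (hpos : 0 < n)
    (hk : 2 * (Fintype.card ι * k) ≤ n) {s : St ι V} (h : Inv k s) (l : List (Ed V))
    (hl : 8 * l.length ≤ n) (r : ι) (hr : (s.W r).card < k) :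
    2 * (1 / (8 * (n : ℝ))) * (s.W r).card * ((N : ℝ) - l.length) ≤
      ((uns l).filter (fun a : Ed V => ∃ x, Good k s a.1 r x)).card := by
  have a1 := good_card h r hr
  have a2 := active_card h r
  have a3 : (univ.filter (fun a : Ed V => ∃ x, Good k s a.1 r x)).card ≤
      ((uns l).filter (fun a : Ed V => ∃ x, Good k s a.1 r x)).card + l.length := by
    refine le_trans (Finset.card_le_card (t := (uns l).filter
      (fun a : Ed V => ∃ x, Good k s a.1 r x) ∪ l.toFinset) ?_) ?_
    · intro a ha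
      simp only [mem_filter, mem_univ, true_and, mem_union, List.mem_toFinset, mem_uns] at ha ⊢
      tauto
    · exact le_trans (Finset.card_union_le _ _) (Nat.add_le_add_left (List.toFinset_card_le l) _)
  obtain ⟨A, hA⟩ : ∃ A, A = ((s.W r).filter (fun v => dg (s.F r) v < 3)).card := ⟨_, rfl⟩
  obtain ⟨C, hC⟩ : ∃ C, C = ((uns l).filter
    (fun a : Ed V => ∃ x, Good k s a.1 r x)).card := ⟨_, rfl⟩
  obtain ⟨j, hj⟩ : ∃ j, j = (s.W r).card := ⟨_, rfl⟩
  obtain ⟨M, hM⟩ : ∃ M, M = Fintype.card V - Fintype.card ι * k := ⟨_, rfl⟩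
  rw [← hA, ← hM] at a1
  rw [← hA, ← hj] at a2
  rw [← hC] at a3 ⊢
  rw [← hj]
  have m1 : n ≤ 2 * M := by omega
  have a4 : A * M ≤ C + l.length := le_trans a1 a3
  have a5 : j * n ≤ 8 * C := by
    have hA1 : 1 ≤ A := by omega
    have p1 : A * n ≤ 2 * (A * M) := by nlinarith
    have p2 : n ≤ A * n := Nat.le_mul_of_pos_left _ hA1
    have p3 : j * n ≤ 3 * (A * n) := by nlinarith
    omega
  have r5 : (j : ℝ) * n ≤ 8 * C := by exact_mod_cast a5
  have rN : 2 * (N : ℝ) ≤ n * n := by exact_mod_cast hN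
  have rn : (0 : ℝ) < n := by exact_mod_cast hpos
  have rl : (0 : ℝ) ≤ l.length := Nat.cast_nonneg _
  have rj : (0 : ℝ) ≤ j := Nat.cast_nonneg _
  have e : 2 * (1 / (8 * (n : ℝ))) * j * ((N : ℝ) - l.length) = j * ((N : ℝ) - l.length) / (4 * n) := by
    field_simp; ring
  rw [e, div_le_iff₀ (by positivity)]
  have q1 : (j : ℝ) * ((N : ℝ) - l.length) ≤ j * (n * n / 2) :=
    mul_le_mul_of_nonneg_left (by linarith) rj
  nlinarith

open Classical in
/-- Probability that no tree is finished by time `T`. -/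
lemma fail_bound {k n N T : ℕ} (hn : Fintype.card V = n) (hN : 2 * N ≤ n * n) (hpos : 0 < n)
    (hE : Fintype.card (Ed V) = N) (hk : 2 * (Fintype.card ι * k) ≤ n) (hk1 : k ≤ n)
    (hT : 8 * T ≤ n) (hTN : T ≤ N) {s0 : St ι V} (h : Inv k s0) (h1 : ∀ r, (s0.W r).card = 1)
    [DecidablePred (fun σ : Fin N ≃ Ed V => ∀ r, ((run k s0 (pre σ T)).W r).card < k)] :
    ((univ.filter (fun σ : Fin N ≃ Ed V => ∀ r, ((run k s0 (pre σ T)).W r).card < k)).card : ℝ)
      ≤ (Fintype.card (Fin N ≃ Ed V) : ℝ) *
        Real.exp (-(Fintype.card ι * w (1 / (8 * (n : ℝ))) k T 1)) := by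
  have rn : (0 : ℝ) < n := by exact_mod_cast hpos
  have l0 : (0 : ℝ) ≤ 1 / (8 * (n : ℝ)) := by positivity
  have l1 : 1 / (8 * (n : ℝ)) * k ≤ 1 := by
    have : (k : ℝ) ≤ n := by exact_mod_cast hk1
    rw [div_mul_eq_mul_div, div_le_one (by positivity)]; linarith
  have := superm (α := Ed V) T hTN
    (fun t l => Real.exp (-∑ r, w (1 / (8 * (n : ℝ))) k (T - t) ((run k s0 l).W r).card)) ?_
  · refine le_trans ?_ (le_trans this (le_of_eq ?_))
    · rw [Finset.card_filter]
      push_cast
      apply Finset.sum_le_sum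
      intro σ _
      split_ifs with g
      · have : ∀ r, w (1 / (8 * (n : ℝ))) k (T - T) ((run k s0 (pre σ T)).W r).card = 0 := by
          intro r; rw [Nat.sub_self]; simp [w, g r]
        simp only [this]; simp
      · exact (Real.exp_pos _).le
    · simp [run, h1]
  · intro t ht l hl hlen
    simp_rw [run_concat]
    have e : T - t = (T - (t + 1)) + 1 := by omega
    rw [e, ← hlen]
    exact drift l0 l1 hE (run_inv h l) l hl
      (fun r hr => count_ok hn hN hpos hk (run_inv h l) l (by omega) r hr) _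

end Pool.Agent.H44.BC
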