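import Pool.Agent.H44.BC2

namespace Pool.Agent.H44.BC
open Finset Filter Topology

/-- Orderings `e_1, e_2, ...` of the edges of the complete graph on `n` vertices. -/
abbrev Ordr (n : ℕ) := Fin (n.choose 2) ≃ Ed (Fin n)

def graphOf {n : ℕ} (F : Set (Ed (Fin n))) : SimpleGraph (Fin n) :=
  SimpleGraph.fromEdgeSet (Subtype.val '' F)

/-- The graph of the first `t` edges. -/
def Gt {n : ℕ} (σ : Ordr n) (t : ℕ) : SimpleGraph (Fin n) := graphOf {e | e ∈ pre σ t}

noncomputable def hit {n : ℕ} (P : Set (SimpleGraph (Fin n))) (σ : Ordr n) : ℕ :=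
  sInf {t | Gt σ t ∈ P}

/-- Uniform probability on orderings. -/
noncomputable def prob {n : ℕ} (A : Ordr n → Prop) : ℝ :=
  (Nat.card {σ // A σ} : ℝ) / Nat.card (Ordr n)

def Aas (A : ∀ n, Ordr n → Prop) : Prop := Tendsto (fun n => prob (A n)) atTop (𝓝 1)

/-- Builder decides on `e_i` from the list `[e_1, ..., e_i]`. -/
abbrev Strategy (n : ℕ) := List (Ed (Fin n)) → Prop

def bought {n : ℕ} (S : Strategy n) (σ : Ordr n) (t : ℕ) : Set (Ed (Fin n)) :=
  {e | ∃ i : Fin (n.choose 2), i.val < t ∧ σ i = e ∧ S (pre σ (i.val + 1))}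

abbrev Property := ∀ n : ℕ, Set (SimpleGraph (Fin n))

def IsoClosed (P : Property) : Prop :=
  ∀ n (G H : SimpleGraph (Fin n)), Nonempty (G ≃g H) → G ∈ P n → H ∈ P n

def Increasing (P : Property) : Prop :=
  ∀ n (G H : SimpleGraph (Fin n)), G ≤ H → G ∈ P n → H ∈ P n

def BddDeg (P : Property) : Prop :=
  ∃ D : ℕ, ∀ n (G : SimpleGraph (Fin n)), Minimal (· ∈ P n) G →
    ∀ v, (G.neighborSet v).ncard ≤ D

def Successful (P : Property) (t b : ℕ → ℕ) : Prop :=
  ∃ S : ∀ n, Strategy n, (∀ n σ, (bought (S n) σ (t n)).ncard ≤ b n) ∧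
    Aas (fun n σ => graphOf (bought (S n) σ (t n)) ∈ P n)

/-! ### The property -/

def Has {n : ℕ} (m : ℕ) (G : SimpleGraph (Fin n)) : Prop :=
  ∃ (W : Finset (Fin n)) (F : Finset (Sym2 (Fin n))), W.card = m + 1 ∧ F.card = m ∧
    (∀ e ∈ F, e ∈ G.edgeSet) ∧ (∀ e ∈ F, ∀ v ∈ e, v ∈ W) ∧ ∀ v, dg F v ≤ 3

lemma Has.mono {n m : ℕ} {G H : SimpleGraph (Fin n)} (h : G ≤ H) (g : Has m G) : Has m H := by
  obtain ⟨W, F, a, b, c, d⟩ := g
  exact ⟨W, F, a, b, fun e he => SimpleGraph.edgeSet_mono h (c e he), d⟩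

lemma Has.iso {n m : ℕ} {G H : SimpleGraph (Fin n)} (φ : G ≃g H) (g : Has m G) : Has m H := by
  obtain ⟨W, F, a, b, c, d, e⟩ := g
  have hi : Function.Injective (Sym2.map (φ : Fin n → Fin n)) := Sym2.map.injective φ.injective
  refine ⟨W.image φ, F.image (Sym2.map φ), ?_, ?_, ?_, ?_, ?_⟩
  · rw [card_image_of_injective _ φ.injective, a]
  · rw [card_image_of_injective _ hi, b]
  · intro x hx
    obtain ⟨y, hy, rfl⟩ := mem_image.1 hx
    have := c y hy
    induction y using Sym2.ind with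
    | h p q => simpa [φ.map_rel_iff] using this
  · intro x hx v hv
    obtain ⟨y, hy, rfl⟩ := mem_image.1 hx
    obtain ⟨u, hu, rfl⟩ := Sym2.mem_map.1 hv
    exact mem_image_of_mem _ (d y hy u hu)
  · intro v
    refine le_trans ?_ (e (φ.symm v))
    unfold dg
    refine le_trans (card_le_card (t := (F.filter (fun e => φ.symm v ∈ e)).image (Sym2.map φ)) ?_)
      card_image_le
    intro x hx
    obtain ⟨hx, hv⟩ := mem_filter.1 hx
    obtain ⟨y, hy, rfl⟩ := mem_image.1 hx
    obtain ⟨u, hu, rfl⟩ := Sym2.mem_map.1 hv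
    exact mem_image_of_mem _ (mem_filter.2 ⟨hy, by simpa using hu⟩)

lemma Has.deg {n m : ℕ} {G : SimpleGraph (Fin n)} (g : Minimal (Has m) G) (v : Fin n) :
    (G.neighborSet v).ncard ≤ 3 := by
  obtain ⟨W, F, a, b, c, d, e⟩ := g.1
  have h1 : SimpleGraph.fromEdgeSet (F : Set (Sym2 (Fin n))) ≤ G := by
    intro x y h
    exact c _ ((SimpleGraph.fromEdgeSet_adj _).1 h).1
  have h2 : Has m (SimpleGraph.fromEdgeSet (F : Set (Sym2 (Fin n)))) := by
    refine ⟨W, F, a, b, ?_, d, e⟩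
    intro x hx
    rw [SimpleGraph.edgeSet_fromEdgeSet]
    exact ⟨hx, G.not_isDiag_of_mem_edgeSet (c x hx)⟩
  have h3 := g.2 h2 h1
  refine le_trans ?_ (e v)
  unfold dg
  rw [← Set.ncard_coe_finset]
  apply Set.ncard_le_ncard_of_injOn (fun y => s(v, y))
  · intro y hy
    have := ((SimpleGraph.fromEdgeSet_adj _).1 (h3 hy)).1
    simpa using this
  · intro y _ z _ h
    simpa using Sym2.congr_right.1 h

lemma mem_graphOf {n : ℕ} (F : Set (Ed (Fin n))) (e : Sym2 (Fin n)) :
    e ∈ (graphOf F).edgeSet ↔ e ∈ Subtype.val '' F := by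
  unfold graphOf
  rw [SimpleGraph.edgeSet_fromEdgeSet]
  constructor
  · exact fun h => h.1
  · rintro ⟨a, ha, rfl⟩
    exact ⟨⟨a, ha, rfl⟩, (⊤ : SimpleGraph (Fin n)).not_isDiag_of_mem_edgeSet a.2⟩

lemma graphOf_mono {n : ℕ} {F F' : Set (Ed (Fin n))} (h : F ⊆ F') : graphOf F ≤ graphOf F' :=
  SimpleGraph.fromEdgeSet_mono (Set.image_mono h)

lemma Gt_mono {n : ℕ} (σ : Ordr n) {t u : ℕ} (h : t ≤ u) : Gt σ t ≤ Gt σ u := by
  apply graphOf_mono
  intro e he
  simp only [Set.mem_ofPred_eq, mem_pre] at he ⊢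
  omega

lemma bought_le {n : ℕ} (S : Strategy n) (σ : Ordr n) (t : ℕ) : graphOf (bought S σ t) ≤ Gt σ t := by
  apply graphOf_mono
  rintro e ⟨i, hi, rfl, _⟩
  simpa [mem_pre] using hi

lemma card_Ed (n : ℕ) : Fintype.card (Ed (Fin n)) = n.choose 2 := by
  have := SimpleGraph.card_edgeFinset_top_eq_card_choose_two (V := Fin n)
  rw [SimpleGraph.edgeFinset_card, Fintype.card_fin] at this
  rw [← this]

/-! ### The strategy -/

def s0 (s n : ℕ) : St (Fin s) (Fin n) :=
  ⟨fun r => univ.filter (fun v => v.val = r.val), fun _ => ∅⟩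

lemma s0_card {s n : ℕ} (h : s ≤ n) (r : Fin s) : ((s0 s n).W r).card = 1 := by
  rw [card_eq_one]
  refine ⟨⟨r.val, by omega⟩, ?_⟩
  ext v; simp [s0, Fin.ext_iff]

lemma s0_inv {s n k : ℕ} (h : s ≤ n) (hk : 1 ≤ k) : Inv k (s0 s n) := by
  refine ⟨?_, ?_, ?_, ?_, ?_⟩
  · intro r r' hne
    rw [Finset.disjoint_left]
    intro v h1 h2
    simp only [s0, mem_filter, mem_univ, true_and] at h1 h2
    exact hne (Fin.ext (by omega))
  · intro r; rw [s0_card h]; simp [s0]
  · intro r; rw [s0_card h]; exact hk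
  · intro r e he; simp [s0] at he
  · intro r v; simp [s0, dg]

def strat (s n k : ℕ) : Strategy n := fun l =>
  ∃ l' a, l = l' ++ [a] ∧ ∃ p : Fin s × Fin n, Good k (run k (s0 s n) l') a.1 p.1 p.2

lemma bought_iff (s n k : ℕ) (σ : Ordr n) (e : Sym2 (Fin n)) :
    ∀ t ≤ n.choose 2, (e ∈ Subtype.val '' bought (strat s n k) σ t ↔
      ∃ r, e ∈ (run k (s0 s n) (pre σ t)).F r) := by
  intro t
  induction t with
  | zero => intro _; simp [bought, pre_zero, run, s0]
  | succ t ih =>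
    intro ht
    have ht' : t < n.choose 2 := ht
    rw [pre_succ σ ht', run_concat, step_F, ← ih ht'.le]
    have hs : strat s n k (pre σ (t + 1)) ↔
        ∃ p : Fin s × Fin n, Good k (run k (s0 s n) (pre σ t)) (σ ⟨t, ht'⟩).1 p.1 p.2 := by
      rw [pre_succ σ ht']
      constructor
      · rintro ⟨l', a, h, g⟩
        obtain ⟨h1, h2⟩ := List.append_inj' h rfl
        have h3 : σ ⟨t, ht'⟩ = a := by simpa using h2
        rw [h1, h3]; exact g
      · intro g; exact ⟨_, _, rfl, g⟩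
    rw [← hs]
    constructor
    · rintro ⟨a, ⟨i, hi, rfl, g⟩, rfl⟩
      by_cases h : i.val < t
      · exact Or.inl ⟨_, ⟨i, h, rfl, g⟩, rfl⟩
      · have : i = ⟨t, ht'⟩ := Fin.ext (by simp; omega)
        subst this
        exact Or.inr ⟨rfl, g⟩
    · rintro (⟨a, ⟨i, hi, rfl, g⟩, rfl⟩ | ⟨rfl, g⟩)
      · exact ⟨_, ⟨i, by omega, rfl, g⟩, rfl⟩
      · exact ⟨_, ⟨⟨t, ht'⟩, by simp, rfl, g⟩, rfl⟩

lemma budget {s n m t : ℕ} (h : s ≤ n) (ht : t ≤ n.choose 2) (σ : Ordr n) :
    (bought (strat s n (m + 1)) σ t).ncard ≤ s * m := by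
  have hI := run_inv (s0_inv (k := m + 1) h (by omega)) (pre σ t)
  rw [← Set.ncard_image_of_injective _ Subtype.val_injective]
  have : Subtype.val '' bought (strat s n (m + 1)) σ t =
      ((univ.biUnion (run (m + 1) (s0 s n) (pre σ t)).F : Finset _) : Set _) := by
    ext e; rw [bought_iff _ _ _ _ _ t ht]; simp
  rw [this, Set.ncard_coe_finset]
  refine le_trans card_biUnion_le (le_trans (sum_le_card_nsmul _ _ m ?_) (by simp))
  intro r _
  have := hI.card r
  have := hI.le r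
  omega

lemma success {s n m t : ℕ} (h : s ≤ n) (ht : t ≤ n.choose 2) (σ : Ordr n)
    (g : ¬ ∀ r, ((run (m + 1) (s0 s n) (pre σ t)).W r).card < m + 1) :
    Has m (graphOf (bought (strat s n (m + 1)) σ t)) := by
  have hI := run_inv (s0_inv (k := m + 1) h (by omega)) (pre σ t)
  push Not at g
  obtain ⟨r, hr⟩ := g
  have a := hI.card r
  have b := hI.le r
  refine ⟨_, (run (m + 1) (s0 s n) (pre σ t)).F r, le_antisymm b hr, by omega, ?_, hI.supp r,
    hI.deg r⟩
  intro e he
  rw [mem_graphOf, bought_iff _ _ _ _ _ t ht]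
  exact ⟨r, he⟩

open Classical in
lemma early {n m T : ℕ} (hT : T < n.choose 2) :
    ((univ.filter (fun σ : Ordr n => Has m (Gt σ T))).card : ℝ) ≤
      (Fintype.card (Ordr n) : ℝ) * ((n.choose (m + 1) : ℝ) * (((m + 1) ^ 2).choose m : ℝ) *
        ((T : ℝ) / ((n.choose 2 : ℝ) - T)) ^ m) := by
  have hsub : univ.filter (fun σ : Ordr n => Has m (Gt σ T)) ⊆
      (powersetCard (m + 1) (univ : Finset (Fin n))).biUnion (fun W =>
        (powersetCard m (univ.filter (fun a : Ed (Fin n) => a.1 ∈ W.sym2))).biUnion (fun F =>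
          univ.filter (fun σ : Ordr n => ∀ a ∈ F, a ∈ pre σ T))) := by
    intro σ hσ
    obtain ⟨W, F, a, b, c, d, _⟩ := (mem_filter.1 hσ).2
    simp only [mem_biUnion, mem_powersetCard, mem_filter, mem_univ, true_and]
    refine ⟨W, ⟨subset_univ _, a⟩, univ.filter (fun x : Ed (Fin n) => x.1 ∈ F), ⟨?_, ?_⟩, ?_⟩
    · intro x hx
      simp only [mem_filter, mem_univ, true_and] at hx ⊢
      exact mem_sym2_iff.2 (d _ hx)
    · rw [← b, ← card_image_of_injective _ Subtype.val_injective]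
      congr 1
      ext e
      simp only [mem_image, mem_filter, mem_univ, true_and]
      constructor
      · rintro ⟨x, hx, rfl⟩; exact hx
      · intro he
        obtain ⟨x, _, rfl⟩ := (mem_graphOf _ _).1 (c e he)
        exact ⟨x, he, rfl⟩
    · intro x hx
      simp only [mem_filter, mem_univ, true_and] at hx
      obtain ⟨y, hy, e⟩ := (mem_graphOf _ _).1 (c _ hx)
      rw [← Subtype.val_injective e]; exact hy
  obtain ⟨B, hB⟩ : ∃ B : ℝ, B = (Fintype.card (Ordr n) : ℝ) *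
    ((T : ℝ) / ((n.choose 2 : ℝ) - T)) ^ m := ⟨_, rfl⟩
  have hB0 : 0 ≤ B := by
    have : (T : ℝ) < (n.choose 2 : ℝ) := by exact_mod_cast hT
    rw [hB]
    exact mul_nonneg (Nat.cast_nonneg _) (pow_nonneg (div_nonneg (Nat.cast_nonneg _) (by linarith)) _)
  have h1 : ∀ W ∈ powersetCard (m + 1) (univ : Finset (Fin n)),
      (((powersetCard m (univ.filter (fun a : Ed (Fin n) => a.1 ∈ W.sym2))).biUnion (fun F =>
          univ.filter (fun σ : Ordr n => ∀ a ∈ F, a ∈ pre σ T))).card : ℝ)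
        ≤ (((m + 1) ^ 2).choose m : ℝ) * B := by
    intro W hW
    have hc := (mem_powersetCard.1 hW).2
    refine le_trans (Nat.cast_le.2 card_biUnion_le) ?_
    push_cast
    refine le_trans (sum_le_card_nsmul _ _ B ?_) ?_
    · intro F hF
      have := first_mom (card_Ed n) T hT F
      rw [(mem_powersetCard.1 hF).2, ← hB] at this
      exact this
    · rw [nsmul_eq_mul, card_powersetCard]
      apply mul_le_mul_of_nonneg_right _ hB0
      apply Nat.cast_le.2
      apply Nat.choose_le_choose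
      rw [← card_image_of_injective _ Subtype.val_injective]
      refine le_trans (card_le_card (t := W.sym2) ?_) ?_
      · intro e he
        obtain ⟨x, hx, rfl⟩ := mem_image.1 he
        exact (mem_filter.1 hx).2
      · rw [card_sym2, hc, Nat.choose_two_right]
        apply Nat.div_le_of_le_mul
        simp only [Nat.add_sub_cancel]
        nlinarith
  refine le_trans (Nat.cast_le.2 (le_trans (card_le_card hsub) card_biUnion_le)) ?_
  push_cast
  refine le_trans (sum_le_card_nsmul _ _ _ h1) (le_of_eq ?_)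
  rw [nsmul_eq_mul, card_powersetCard, card_univ, Fintype.card_fin, hB]
  ring

open Classical in
lemma aas_of (A : ∀ n, Ordr n → Prop) (ε : ℕ → ℝ) (hε : Tendsto ε atTop (𝓝 0))
    (h : ∀ᶠ n in atTop, ((univ.filter (fun σ : Ordr n => ¬ A n σ)).card : ℝ)
      ≤ (Fintype.card (Ordr n) : ℝ) * ε n) : Aas A := by
  have hpos : ∀ n, (0 : ℝ) < Fintype.card (Ordr n) := by
    intro n
    have : Nonempty (Ordr n) := ⟨(Fintype.equivFinOfCardEq (card_Ed n)).symm⟩
    exact_mod_cast Fintype.card_pos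
  have e : ∀ n, prob (A n) = 1 - ((univ.filter (fun σ : Ordr n => ¬ A n σ)).card : ℝ) /
      Fintype.card (Ordr n) := by
    intro n
    unfold prob
    rw [Nat.card_eq_fintype_card, Nat.card_eq_fintype_card, Fintype.card_subtype]
    have h3 := Finset.card_filter_add_card_filter_not (s := (univ : Finset (Ordr n))) (A n)
    rw [card_univ] at h3
    have h4 : ((univ.filter (A n)).card : ℝ) + (univ.filter (fun σ : Ordr n => ¬ A n σ)).card
      = Fintype.card (Ordr n) := by exact_mod_cast h3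
    have := hpos n
    field_simp
    linarith
  unfold Aas
  simp_rw [e]
  have : Tendsto (fun n => ((univ.filter (fun σ : Ordr n => ¬ A n σ)).card : ℝ) /
      Fintype.card (Ordr n)) atTop (𝓝 0) := by
    apply squeeze_zero' _ _ hε
    · exact Eventually.of_forall fun n => div_nonneg (Nat.cast_nonneg _) (hpos n).le
    · filter_upwards [h] with n hn
      rw [div_le_iff₀ (hpos n)]; linarith
  simpa using this.const_sub 1

end Pool.Agent.H44.BC
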