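import Pool.Agent.H44.BC3

namespace Pool.Agent.H44.BC
open Finset Filter Topology

def mm (n : ℕ) : ℕ := Nat.log 2 n / 32
def ss (n : ℕ) : ℕ := 256 ^ (2 * mm n)

lemma mm_tendsto : Tendsto mm atTop atTop := by
  rw [tendsto_atTop_atTop]
  intro M
  refine ⟨2 ^ (32 * M), fun n hn => ?_⟩
  have : 32 * M ≤ Nat.log 2 n := Nat.le_log_of_pow_le (by norm_num) hn
  unfold mm; omega

lemma ss_sq {n : ℕ} (hn : n ≠ 0) : ss n * ss n ≤ n := by
  unfold ss mm
  have h := Nat.pow_log_le_self 2 hn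
  refine le_trans ?_ h
  rw [← pow_add, show (256 : ℕ) = 2 ^ 8 by norm_num, ← pow_mul]
  apply Nat.pow_le_pow_right (by norm_num)
  omega

lemma n_lt (n : ℕ) : n < 2 ^ (32 * (mm n + 1)) := by
  have h := Nat.lt_pow_succ_log_self (b := 2) (by norm_num) n
  refine lt_of_lt_of_le h ?_
  apply Nat.pow_le_pow_right (by norm_num)
  unfold mm; omega

lemma ss_pos (n : ℕ) : 1 ≤ ss n := Nat.one_le_pow _ _ (by norm_num)

lemma ss_le {n : ℕ} (hn : n ≠ 0) : ss n ≤ n :=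
  le_trans (Nat.le_mul_of_pos_left _ (ss_pos n)) (ss_sq hn)

lemma two_k {m : ℕ} (hm : 1 ≤ m) : 16 * (m + 1) ≤ 256 ^ (2 * m) := by
  have h1 : m < 2 ^ m := Nat.lt_two_pow_self
  have h2 : 2 ^ m ≤ 256 ^ m := Nat.pow_le_pow_left (by norm_num) _
  have h3 : 256 ^ 1 ≤ 256 ^ m := Nat.pow_le_pow_right (by norm_num) hm
  rw [two_mul, pow_add]
  nlinarith

lemma T_le (n : ℕ) : n / 8 ≤ n.choose 2 := by
  rw [Nat.choose_two_right]
  rcases Nat.lt_or_ge n 8 with h | h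
  · rw [Nat.div_eq_of_lt h]; exact Nat.zero_le _
  · rw [Nat.le_div_iff_mul_le (by norm_num)]
    have : n * 1 ≤ n * (n - 1) := Nat.mul_le_mul_left _ (by omega)
    omega

lemma N_le (n : ℕ) : 2 * n.choose 2 ≤ n * n := by
  rw [Nat.choose_two_right]
  have : n * (n - 1) ≤ n * n := Nat.mul_le_mul_left _ (by omega)
  omega

lemma exp_le_one_sub {x : ℝ} (h0 : 0 ≤ x) (h1 : x ≤ 1 / 2) : Real.exp (-(2 * x)) ≤ 1 - x := by
  have := exp_half (x := 2 * x) (by linarith) (by linarith)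
  linarith

lemma w_final {n m : ℕ} (hm : 16 * (m + 1) ≤ n) :
    (1 / 2) * (1 / 256) ^ m ≤ w (1 / (8 * (n : ℝ))) (m + 1) (n / 8) 1 := by
  have rn : (0 : ℝ) < n := by exact_mod_cast (by omega : 0 < n)
  have rm : 16 * ((m : ℝ) + 1) ≤ n := by exact_mod_cast hm
  obtain ⟨lam, hl⟩ : ∃ lam : ℝ, lam = 1 / (8 * (n : ℝ)) := ⟨_, rfl⟩
  have l0 : 0 < lam := by rw [hl]; positivity
  have ln : lam * n = 1 / 8 := by rw [hl]; field_simp
  rw [← hl]
  have l1 : lam * ((m + 1 : ℕ) : ℝ) ≤ 1 / 2 := by push_cast; nlinarith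
  refine le_trans ?_ (w_low l0.le (by linarith) (n / 8) 1 (by omega))
  obtain ⟨T, hT⟩ : ∃ T, T = n / 8 := ⟨_, rfl⟩
  rw [← hT]
  have a1 : ∏ i ∈ Ico 1 (m + 1), (lam * (i : ℝ)) = lam ^ m * (m.factorial : ℝ) := by
    rw [prod_mul_distrib, prod_const, Nat.card_Ico, Nat.add_sub_cancel, ← Nat.cast_prod,
      Finset.prod_Ico_id_eq_factorial]
  have a2 : ((T + 1 - m : ℕ) : ℝ) ^ m ≤ (m.factorial : ℝ) * T.choose m := by
    have := Nat.pow_sub_le_descFactorial T m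
    rw [Nat.descFactorial_eq_factorial_mul_choose] at this
    exact_mod_cast this
  have a3 : 1 / 128 ≤ lam * ((T + 1 - m : ℕ) : ℝ) := by
    have : n ≤ 16 * (T + 1 - m) := by omega
    have h : (n : ℝ) ≤ 16 * ((T + 1 - m : ℕ) : ℝ) := by exact_mod_cast this
    nlinarith
  have a4 : (1 / 2 : ℝ) ^ (m + 1) ≤ (1 - lam * ((m + 1 : ℕ) : ℝ)) ^ T := by
    have b1 := exp_le_one_sub (mul_nonneg l0.le (Nat.cast_nonneg (m + 1))) l1
    refine le_trans ?_ (pow_le_pow_left₀ (Real.exp_pos _).le b1 T)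
    rw [← Real.exp_nat_mul]
    have b2 : (1 / 2 : ℝ) ≤ Real.exp (-(1 / 2)) := by
      have := Real.add_one_le_exp (-(1 / 2) : ℝ); linarith
    refine le_trans (pow_le_pow_left₀ (by norm_num) b2 _) ?_
    rw [← Real.exp_nat_mul]
    apply Real.exp_le_exp.2
    have : 8 * T ≤ n := by omega
    have h : 8 * (T : ℝ) ≤ n := by exact_mod_cast this
    have h2 : lam * T ≤ 1 / 64 := by nlinarith
    have h3 : (0 : ℝ) ≤ ((m + 1 : ℕ) : ℝ) := Nat.cast_nonneg _
    nlinarith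
  rw [a1, Nat.add_sub_cancel]
  have a5 : (1 / 128 : ℝ) ^ m ≤ lam ^ m * (m.factorial : ℝ) * T.choose m := by
    refine le_trans (pow_le_pow_left₀ (by norm_num) a3 m) ?_
    rw [mul_pow, mul_assoc]
    exact mul_le_mul_of_nonneg_left a2 (pow_nonneg l0.le _)
  refine le_trans (le_of_eq ?_) (mul_le_mul a5 a4 (by positivity) (le_trans (by positivity) a5))
  rw [pow_succ, ← mul_assoc, ← mul_pow]
  norm_num [mul_comm]

lemma pow_fact (k : ℕ) : (k : ℝ) ^ k / k.factorial ≤ 3 ^ k := by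
  refine le_trans (Real.pow_div_factorial_le_exp _ (Nat.cast_nonneg k) k) ?_
  have : Real.exp k = Real.exp 1 ^ k := by rw [← Real.exp_nat_mul]; simp
  rw [this]
  apply pow_le_pow_left₀ (Real.exp_pos _).le
  have := Real.exp_one_lt_d9
  linarith

lemma ratio_le {n T : ℕ} (hn : 3 ≤ n) (Q : ℝ) (hQ : 8 ≤ Q) (hT : Q * T ≤ n) :
    T < n.choose 2 ∧ (T : ℝ) / ((n.choose 2 : ℝ) - T) ≤ 4 / (Q * n) := by
  have rn : (3 : ℝ) ≤ n := by exact_mod_cast hn
  have rT : (0 : ℝ) ≤ T := Nat.cast_nonneg _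
  have h8 : 8 * (T : ℝ) ≤ n := by nlinarith
  have h1 : (n : ℝ) * n / 4 ≤ (n.choose 2 : ℝ) - T := by
    rw [Nat.cast_choose_two]; nlinarith
  have h2 : (0 : ℝ) < n * n / 4 := by positivity
  refine ⟨?_, ?_⟩
  · have : (T : ℝ) < n.choose 2 := by linarith
    exact_mod_cast this
  · rw [div_le_div_iff₀ (by linarith) (by positivity)]
    nlinarith

lemma early_num {n m : ℕ} (hn : 0 < n) (p Q : ℝ) (hp0 : 0 ≤ p) (hQ : 0 < Q) (hp : p ≤ 4 / (Q * n)) :
    (n.choose (m + 1) : ℝ) * (((m + 1) ^ 2).choose m : ℝ) * p ^ m ≤ 9 * n * (36 / Q) ^ m := by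
  have rn : (0 : ℝ) < n := by exact_mod_cast hn
  have a1 : (n.choose (m + 1) : ℝ) ≤ (n : ℝ) ^ (m + 1) / (m + 1).factorial :=
    Nat.choose_le_pow_div _ _
  have a2 : (((m + 1) ^ 2).choose m : ℝ) ≤ (((m + 1) ^ 2 : ℕ) : ℝ) ^ m / m.factorial :=
    Nat.choose_le_pow_div _ _
  have a3 : p ^ m ≤ (4 / (Q * n)) ^ m := pow_le_pow_left₀ hp0 hp m
  have a4 := pow_fact (m + 1)
  have f0 : (0 : ℝ) < m.factorial := by exact_mod_cast m.factorial_pos
  have a5 : (((m + 1) ^ 2 : ℕ) : ℝ) ^ m / m.factorial / (m + 1).factorial ≤ 9 ^ (m + 1) := by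
    have b : (((m + 1 : ℕ) : ℝ) ^ (m + 1) / (m + 1).factorial) ^ 2 ≤ (3 ^ (m + 1)) ^ 2 :=
      pow_le_pow_left₀ (by positivity) a4 2
    have e9 : ((3 : ℝ) ^ (m + 1)) ^ 2 = 9 ^ (m + 1) := by
      rw [← pow_mul, mul_comm, pow_mul]; norm_num
    rw [e9] at b
    refine le_trans ?_ b
    rw [Nat.factorial_succ]
    push_cast
    obtain ⟨k, hk⟩ : ∃ k : ℝ, k = (m : ℝ) + 1 := ⟨_, rfl⟩
    have k1 : 1 ≤ k := by rw [hk]; have : (0 : ℝ) ≤ m := Nat.cast_nonneg _; linarith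
    rw [← hk]
    have e1 : (k ^ 2) ^ m / m.factorial / (k * m.factorial) = (k ^ m / m.factorial) ^ 2 / k := by
      rw [← pow_mul, mul_comm 2 m, pow_mul]; field_simp
    have e2 : (k ^ (m + 1) / (k * m.factorial)) ^ 2 = (k ^ m / m.factorial) ^ 2 := by
      rw [pow_succ k m]; field_simp
    rw [e1, e2]
    exact div_le_self (by positivity) k1
  calc (n.choose (m + 1) : ℝ) * (((m + 1) ^ 2).choose m : ℝ) * p ^ m
      ≤ ((n : ℝ) ^ (m + 1) / (m + 1).factorial) * ((((m + 1) ^ 2 : ℕ) : ℝ) ^ m / m.factorial)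
          * (4 / (Q * n)) ^ m := by gcongr
    _ = n * (4 / Q) ^ m * ((((m + 1) ^ 2 : ℕ) : ℝ) ^ m / m.factorial / (m + 1).factorial) := by
      rw [div_pow, div_pow, mul_pow, pow_succ]; field_simp
    _ ≤ n * (4 / Q) ^ m * 9 ^ (m + 1) := by gcongr
    _ = 9 * n * (36 / Q) ^ m := by
      rw [pow_succ, show (36 / Q : ℝ) = 4 / Q * 9 by ring, mul_pow]; ring

def PP : Property := fun n => {G | Has (mm n) G}

noncomputable def e1 (n : ℕ) : ℝ := Real.exp (-((1 / 2) * 256 ^ mm n))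
noncomputable def e2 (n : ℕ) : ℝ := 9 * 2 ^ 32 * (1 / 2) ^ mm n

lemma e1_lim : Tendsto e1 atTop (𝓝 0) := by
  apply Real.tendsto_exp_atBot.comp
  apply tendsto_neg_atTop_atBot.comp
  apply Tendsto.const_mul_atTop (by norm_num)
  exact (tendsto_pow_atTop_atTop_of_one_lt (by norm_num)).comp mm_tendsto

lemma e2_lim : Tendsto e2 atTop (𝓝 0) := by
  have := ((tendsto_pow_atTop_nhds_zero_of_lt_one (r := (1 / 2 : ℝ)) (by norm_num)
    (by norm_num)).comp mm_tendsto).const_mul (9 * 2 ^ 32)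
  rw [mul_zero] at this
  exact this

open Classical in
lemma bad1 {n : ℕ} (hm : 1 ≤ mm n) :
    ((univ.filter (fun σ : Ordr n =>
      ¬ graphOf (bought (strat (ss n) n (mm n + 1)) σ (n / 8)) ∈ PP n)).card : ℝ)
      ≤ (Fintype.card (Ordr n) : ℝ) * e1 n := by
  have hn : n ≠ 0 := by rintro rfl; simp [mm] at hm
  have h2 : 16 * (mm n + 1) ≤ ss n := two_k hm
  have h3 := ss_le hn
  have h4 := ss_sq hn
  have := fail_bound (ι := Fin (ss n)) (V := Fin n) (k := mm n + 1) (T := n / 8)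
    (Fintype.card_fin n) (N_le n) (by omega) (card_Ed n)
    (by rw [Fintype.card_fin]; nlinarith) (by omega) (by omega) (T_le n)
    (s0_inv h3 (by omega)) (s0_card h3)
  refine le_trans (Nat.cast_le.2 (card_le_card ?_)) (le_trans this ?_)
  · intro σ hσ
    simp only [mem_filter, mem_univ, true_and] at hσ ⊢
    by_contra g
    exact hσ (success h3 (T_le n) σ g)
  · apply mul_le_mul_of_nonneg_left _ (Nat.cast_nonneg _)
    apply Real.exp_le_exp.2
    rw [neg_le_neg_iff, Fintype.card_fin]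
    refine le_trans (le_of_eq ?_) (mul_le_mul_of_nonneg_left (w_final (m := mm n) (by omega))
      (Nat.cast_nonneg _))
    unfold ss
    push_cast
    rw [two_mul, pow_add, one_div_pow]
    field_simp

lemma e2_num (n m : ℕ) (h : n < 2 ^ (32 * (m + 1))) :
    9 * (n : ℝ) * (36 / 2 ^ 40) ^ m ≤ 9 * 2 ^ 32 * (1 / 2) ^ m := by
  have h1 : (n : ℝ) ≤ 2 ^ 32 * (2 ^ 32) ^ m := by
    rw [← pow_succ', ← pow_mul]
    exact_mod_cast h.le
  calc 9 * (n : ℝ) * (36 / 2 ^ 40) ^ m ≤ 9 * (2 ^ 32 * (2 ^ 32) ^ m) * (36 / 2 ^ 40) ^ m := by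
        gcongr
    _ = 9 * 2 ^ 32 * (2 ^ 32 * (36 / 2 ^ 40)) ^ m := by rw [mul_pow]; ring
    _ ≤ _ := by
      apply mul_le_mul_of_nonneg_left _ (by norm_num)
      exact pow_le_pow_left₀ (by norm_num) (by norm_num) _

open Classical in
lemma bad2 {n : ℕ} (hn : 3 ≤ n) :
    ((univ.filter (fun σ : Ordr n => Has (mm n) (Gt σ (n / 2 ^ 40)))).card : ℝ)
      ≤ (Fintype.card (Ordr n) : ℝ) * e2 n := by
  have hT : (2 : ℝ) ^ 40 * ((n / 2 ^ 40 : ℕ) : ℝ) ≤ n := by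
    have := Nat.mul_div_le n (2 ^ 40)
    exact_mod_cast this
  obtain ⟨a, b⟩ := ratio_le hn (2 ^ 40) (by norm_num) hT
  refine le_trans (early a) (mul_le_mul_of_nonneg_left ?_ (Nat.cast_nonneg _))
  have a' : (((n / 2 ^ 40 : ℕ) : ℝ)) < n.choose 2 := by exact_mod_cast a
  refine le_trans (early_num (by omega) _ _
    (div_nonneg (Nat.cast_nonneg _) (by linarith)) (by norm_num) b) ?_
  exact e2_num n _ (n_lt n)

lemma hit_between {n : ℕ} (σ : Ordr n) {T0 T : ℕ} (h1 : Gt σ T ∈ PP n) (h2 : ¬ Has (mm n) (Gt σ T0)) :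
    T0 < hit (PP n) σ ∧ hit (PP n) σ ≤ T := by
  refine ⟨?_, Nat.sInf_le h1⟩
  by_contra h
  have := Nat.sInf_mem (s := {t | Gt σ t ∈ PP n}) ⟨T, h1⟩
  exact h2 (Has.mono (Gt_mono σ (not_lt.1 h)) this)

lemma ev_m : ∀ᶠ n in atTop, 1 ≤ mm n := mm_tendsto.eventually_ge_atTop 1

lemma hit_aas : Aas (fun n σ => (1 / 2 ^ 40 : ℝ) * n ≤ hit (PP n) σ ∧
    (hit (PP n) σ : ℝ) ≤ (1 / 8 : ℝ) * n) := by
  classical
  apply aas_of _ (fun n => e1 n + e2 n) (by simpa using e1_lim.add e2_lim)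
  filter_upwards [ev_m, eventually_ge_atTop 3] with n hm hn
  rw [mul_add]
  refine le_trans ?_ (add_le_add (bad1 hm) (bad2 hn))
  rw [← Nat.cast_add]
  refine Nat.cast_le.2 (le_trans (card_le_card ?_) (card_union_le _ _))
  intro σ hσ
  simp only [mem_filter, mem_univ, true_and, mem_union] at hσ ⊢
  by_contra g
  push Not at g
  apply hσ
  obtain ⟨a, b⟩ := hit_between σ (Has.mono (bought_le _ σ _) g.1) g.2
  constructor
  · have : n < 2 ^ 40 * hit (PP n) σ := by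
      have := Nat.lt_mul_div_succ n (show 0 < 2 ^ 40 by norm_num)
      exact lt_of_lt_of_le this (Nat.mul_le_mul_left _ a)
    have h : (n : ℝ) < 2 ^ 40 * hit (PP n) σ := by exact_mod_cast this
    rw [div_mul_eq_mul_div, one_mul, div_le_iff₀ (by norm_num)]
    linarith
  · have : 8 * hit (PP n) σ ≤ n := by omega
    have h : 8 * (hit (PP n) σ : ℝ) ≤ n := by exact_mod_cast this
    linarith

lemma succ_ok : Successful PP (fun n => n / 8) (fun n => ss n * mm n) := by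
  classical
  refine ⟨fun n => strat (ss n) n (mm n + 1), ?_, ?_⟩
  · intro n σ
    rcases eq_or_ne n 0 with rfl | hn
    · simp [bought]
    · exact budget (ss_le hn) (T_le n) σ
  · apply aas_of _ e1 e1_lim
    filter_upwards [ev_m] with n hm
    exact bad1 hm

lemma theta : (fun n : ℕ => ((n / 8 : ℕ) : ℝ)) =Θ[atTop] (fun n : ℕ => (n : ℝ)) := by
  constructor
  · apply Asymptotics.IsBigO.of_bound 1
    filter_upwards with n
    simp only [Real.norm_natCast, one_mul]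
    exact_mod_cast Nat.div_le_self _ _
  · apply Asymptotics.IsBigO.of_bound 16
    filter_upwards [eventually_ge_atTop 8] with n hn
    simp only [Real.norm_natCast]
    exact_mod_cast (by omega : n ≤ 16 * (n / 8))

lemma small_num (m : ℕ) : m * (m + 1) * 2 ^ m ≤ 256 ^ (2 * m) := by
  have h1 : m < 2 ^ m := Nat.lt_two_pow_self
  calc m * (m + 1) * 2 ^ m ≤ 2 ^ m * 2 ^ m * 2 ^ m := by gcongr; omega
    _ = 8 ^ m := by rw [← mul_pow, ← mul_pow]; norm_num
    _ ≤ 256 ^ m := Nat.pow_le_pow_left (by norm_num) _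
    _ ≤ _ := Nat.pow_le_pow_right (by norm_num) (by omega)

lemma small : (fun n : ℕ => ((ss n * mm n : ℕ) : ℝ)) =o[atTop]
    (fun n : ℕ => ((n / 8 : ℕ) : ℝ) / Real.log n) := by
  rw [Asymptotics.isLittleO_iff]
  intro c hc
  have hl := ((tendsto_pow_atTop_nhds_zero_of_lt_one (r := (1 / 2 : ℝ)) (by norm_num)
    (by norm_num)).comp mm_tendsto).const_mul 512
  rw [mul_zero] at hl
  filter_upwards [eventually_ge_atTop 8, hl.eventually (ge_mem_nhds hc)] with n hn hε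
  simp only [Function.comp] at hε
  have rn : (8 : ℝ) ≤ n := by exact_mod_cast hn
  have lp : 0 < Real.log n := Real.log_pos (by linarith)
  have a1 : Real.log n ≤ 32 * ((mm n : ℝ) + 1) := by
    have h : (n : ℝ) ≤ 2 ^ (32 * (mm n + 1)) := by exact_mod_cast (n_lt n).le
    refine le_trans (Real.log_le_log (by linarith) h) ?_
    rw [Real.log_pow]
    have := Real.log_two_lt_d9
    push_cast
    have h0 : (0 : ℝ) ≤ 32 * ((mm n : ℝ) + 1) := by positivity
    nlinarith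
  have a2 : (ss n : ℝ) * ss n ≤ 16 * ((n / 8 : ℕ) : ℝ) := by
    have := ss_sq (n := n) (by omega)
    exact_mod_cast (by omega : ss n * ss n ≤ 16 * (n / 8))
  have a3 : (mm n : ℝ) * (mm n + 1) * 2 ^ mm n ≤ ss n := by exact_mod_cast small_num (mm n)
  rw [Real.norm_natCast, Real.norm_of_nonneg (div_nonneg (Nat.cast_nonneg _) lp.le),
    ← mul_div_assoc, le_div_iff₀ lp]
  push_cast
  obtain ⟨y, hy⟩ : ∃ y : ℝ, y = 2 ^ mm n := ⟨_, rfl⟩
  have y0 : 0 < y := by rw [hy]; positivity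
  rw [one_div_pow, ← hy] at hε
  rw [← hy] at a3
  obtain ⟨s, hs⟩ : ∃ s : ℝ, s = ss n := ⟨_, rfl⟩
  obtain ⟨m, hm⟩ : ∃ m : ℝ, m = mm n := ⟨_, rfl⟩
  have s0' : 0 ≤ s := by rw [hs]; positivity
  have m0 : 0 ≤ m := by rw [hm]; positivity
  rw [← hm] at a1 a3 ⊢
  rw [← hs] at a2 a3 ⊢
  have b1 : 512 ≤ c * y := by
    rw [mul_one_div, div_le_iff₀ y0] at hε; exact hε
  have b2 : s * m * Real.log n ≤ s * m * (32 * (m + 1)) :=
    mul_le_mul_of_nonneg_left a1 (mul_nonneg s0' m0)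
  have b3 : 512 * (m * (m + 1)) ≤ c * s := by
    have : 0 ≤ m * (m + 1) := by positivity
    nlinarith
  have b4 := mul_le_mul_of_nonneg_left b3 s0'
  have b5 := mul_le_mul_of_nonneg_left a2 hc.le
  nlinarith

end Pool.Agent.H44.BC
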