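import Pool.Agent.H44.BKDefs

namespace Pool.Agent.H44.BK

open Finset Classical

section gen
variable {V : Type} [Fintype V]

def F1 (a : V → ℝ) : Prop := (∀ v, 0 ≤ a v) ∧ ∑ v, a v = 1

noncomputable def nx (y : V → ℝ) (I : Finset V) (a : V → ℝ) : V → ℝ :=
  fun v => (if v ∈ I then 0 else y v) + a v

noncomputable def st (τ : (V → ℝ) → Finset V) (a : ℕ → V → ℝ) : ℕ → V → ℝ
  | 0 => a 0
  | t + 1 => nx (st τ a t) (τ (st τ a t)) (a (t + 1))

omit [Fintype V] in
lemma level_st (τ : (V → ℝ) → Finset V) (a : ℕ → V → ℝ) (t : ℕ) :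
    level a (fun s => τ (st τ a s)) t = st τ a t := by
  induction t with
  | zero => rfl
  | succ t ih => funext v; simp only [level, st, nx, ih]

lemma cwins_of (G : SimpleGraph V) (b : ℝ) (P : (V → ℝ) → Prop) (h0 : ∀ a, F1 a → P a)
    (h1 : ∀ y, P y → ∃ I : Finset V, G.IsIndepSet (I : Set V) ∧ ∀ a, F1 a → P (nx y I a))
    (h2 : ∀ y, P y → ∀ v, y v ≤ b) : CWins G b := by
  have h3 : ∀ y, ∃ I : Finset V, G.IsIndepSet (I : Set V) ∧ (P y → ∀ a, F1 a → P (nx y I a)) := by
    intro y
    by_cases h : P y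
    · obtain ⟨I, a, b⟩ := h1 y h
      exact ⟨I, a, fun _ => b⟩
    · exact ⟨∅, by simp, fun k => (h k).elim⟩
  choose τ hτ hτ' using h3
  refine ⟨fun t a => τ (st τ a t), fun t a => hτ _, fun t a a' h => ?_, fun a ha t => ?_⟩
  · have : st τ a t = st τ a' t := by
      induction t with
      | zero => exact h 0 le_rfl
      | succ t ih => simp only [st, ih fun s hs => h s (by omega), h (t + 1) le_rfl]
    simp only [this]
  · rw [level_st]
    refine h2 _ ?_
    induction t with
    | zero => exact h0 _ (ha 0)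
    | succ t ih => exact hτ' _ ih _ (ha (t + 1))

lemma ex_greedy (G : SimpleGraph V) (y : V → ℝ) : ∃ I, Greedy G y I := by
  obtain ⟨I, a, b⟩ := exists_max_image (univ.filter fun I : Finset V => G.IsIndepSet (I : Set V))
    (fun I => ∑ v ∈ I, y v) ⟨∅, by simp⟩
  exact ⟨I, (mem_filter.1 a).2, fun J hJ => b J (by simpa using hJ)⟩

noncomputable def pl (γ : (V → ℝ) → Finset V) (φ : ℕ → (V → ℝ) → V → ℝ) (a0 : V → ℝ) :
    ℕ → V → ℝ
  | 0 => a0
  | t + 1 => nx (pl γ φ a0 t) (γ (pl γ φ a0 t)) (φ t (pl γ φ a0 t))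

lemma not_gwins (G : SimpleGraph V) (b : ℝ) (P : ℕ → (V → ℝ) → Prop) (N : ℕ) (a0 : V → ℝ)
    (ha0 : F1 a0) (h0 : P N a0)
    (h1 : ∀ j y I, P (j + 1) y → Greedy G y I → ∃ a, F1 a ∧ P j (nx y I a))
    (h2 : ∀ y, P 0 y → ∃ v, b < y v) : ¬ GWins G b := by
  choose γ hγ using ex_greedy G
  have h3 : ∀ j y, ∃ a, F1 a ∧ (P (j + 1) y → P j (nx y (γ y) a)) := by
    intro j y
    by_cases h : P (j + 1) y
    · obtain ⟨a, c, d⟩ := h1 j y _ h (hγ y)
      exact ⟨a, c, fun _ => d⟩
    · exact ⟨a0, ha0, fun k => (h k).elim⟩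
  choose φ hφ hφ' using h3
  let x := pl γ (fun t => φ (N - t - 1)) a0
  let a : ℕ → V → ℝ := fun t => match t with
    | 0 => a0
    | t + 1 => φ (N - t - 1) (x t)
  have e : ∀ t, level a (fun t => γ (x t)) t = x t := by
    intro t
    induction t with
    | zero => rfl
    | succ t ih => funext v; simp only [level, ih]; rfl
  have hP : ∀ t ≤ N, P (N - t) (x t) := by
    intro t
    induction t with
    | zero => exact fun _ => h0
    | succ t ih =>
      intro ht
      have := ih (by omega)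
      rw [show N - t = N - t - 1 + 1 by omega] at this
      exact hφ' _ _ this
  intro hG
  obtain ⟨v, hv⟩ := h2 (x N) (by simpa using hP N le_rfl)
  have := hG a (fun t => γ (x t)) (fun t => match t with
    | 0 => ha0
    | _ + 1 => hφ _ _) (fun t => by rw [e]; exact hγ _) N v
  rw [e] at this
  linarith

lemma sum_nx (y a : V → ℝ) (I : Finset V) (ha : F1 a) :
    ∑ v, nx y I a v = ∑ v, y v - ∑ v ∈ I, y v + 1 := by
  have : ∀ v, nx y I a v = y v - (if v ∈ I then y v else 0) + a v := fun v => by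
    unfold nx; split_ifs <;> ring
  simp only [this, sum_add_distrib, sum_sub_distrib, ha.2, sum_ite_mem, univ_inter]

lemma F1_le {a : V → ℝ} (ha : F1 a) (v : V) : a v ≤ 1 :=
  ha.2 ▸ single_le_sum (fun w _ => ha.1 w) (mem_univ v)

lemma greedy_big {G : SimpleGraph V} {ι : Type} [Fintype ι] (c : V → ι)
    (hc : ∀ u w, G.Adj u w → c u ≠ c w) {y : V → ℝ} {I : Finset V} (h : Greedy G y I) :
    ∑ v, y v ≤ Fintype.card ι * ∑ v ∈ I, y v := by
  rw [← sum_fiberwise univ c, ← card_univ, ← nsmul_eq_mul, ← sum_const]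
  refine sum_le_sum fun i _ => h.2 _ fun u hu w hw _ k => hc u w k ?_
  rw [(mem_filter.1 hu).2, (mem_filter.1 hw).2]

lemma greedy_step {G : SimpleGraph V} {ι : Type} [Fintype ι] [Nonempty ι] (c : V → ι)
    (hc : ∀ u w, G.Adj u w → c u ≠ c w) {y : V → ℝ} {I : Finset V} (h : Greedy G y I) {q : ℝ}
    (hq : ∑ v, y v ≤ q * Fintype.card ι) : ∑ v, y v - ∑ v ∈ I, y v ≤ q * Fintype.card ι - q := by
  have a := greedy_big c hc h
  have m : (1 : ℝ) ≤ Fintype.card ι := by exact_mod_cast Fintype.card_pos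
  by_contra k
  push Not at k
  rcases le_total q (∑ v ∈ I, y v) with l | l
  · linarith
  · nlinarith

lemma gwins_of {G : SimpleGraph V} {ι : Type} [Fintype ι] [Nonempty ι] (c : V → ι)
    (hc : ∀ u w, G.Adj u w → c u ≠ c w) : GWins G (Fintype.card ι) := by
  intro a I ha hI t
  have m : (1 : ℝ) ≤ Fintype.card ι := by exact_mod_cast Fintype.card_pos
  have : (∀ v, 0 ≤ level a I t v) ∧ ∑ v, level a I t v ≤ 1 * Fintype.card ι := by
    induction t with
    | zero => exact ⟨(ha 0).1, by rw [level, (ha 0).2]; linarith⟩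
    | succ t ih =>
      refine ⟨fun v => add_nonneg ?_ ((ha _).1 v), ?_⟩
      · split_ifs
        · rfl
        · exact ih.1 v
      · have e : ∑ v, level a I (t + 1) v = _ := sum_nx (level a I t) (a (t + 1)) (I t) (ha _)
        linarith [greedy_step c hc (hI t) ih.2]
  exact fun v => (single_le_sum (fun w _ => this.1 w) (mem_univ v)).trans (by linarith [this.2])

lemma cwins9 {G : SimpleGraph V} {ι : Type} [Fintype ι] [Nonempty ι] (c : V → ι)
    (hc : ∀ u w, G.Adj u w → c u ≠ c w)
    (h3 : ∀ H : Finset V, H.card ≤ 4 * Fintype.card ι → ∃ S : ℕ → Finset V,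
      (∀ i, G.IsIndepSet (S i : Set V)) ∧ ∀ v ∈ H, ∃ i < 3, v ∈ S i) : CWins G 9 := by
  have m : (1 : ℝ) ≤ Fintype.card ι := by exact_mod_cast Fintype.card_pos
  refine cwins_of G 9 (fun y => ∃ (j : ℕ) (S : ℕ → Finset V), j ≤ 3 ∧
    (∀ i, G.IsIndepSet (S i : Set V)) ∧ (∀ v, 0 ≤ y v) ∧ (∀ v, y v ≤ 9 - j) ∧
    (∀ v, (∀ i < j, v ∉ S i) → y v ≤ 5 - j) ∧ ∑ v, y v ≤ 4 * Fintype.card ι - j) ?_ ?_ ?_
  · intro a ha
    refine ⟨0, fun _ => ∅, by omega, by simp, ha.1, fun v => ?_, fun v _ => ?_, ?_⟩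
    · linarith [F1_le ha v, Nat.cast_zero (R := ℝ)]
    · linarith [F1_le ha v, Nat.cast_zero (R := ℝ)]
    · rw [ha.2]; push_cast; linarith
  · rintro y ⟨j, S, hj, hS, y0, y9, y5, yT⟩
    have nn : ∀ I a, F1 a → ∀ v, 0 ≤ nx y I a v := fun I a ha v => add_nonneg (by
      split_ifs
      · rfl
      · exact y0 v) (ha.1 v)
    cases j with
    | zero =>
      obtain ⟨I, hI⟩ := ex_greedy G y
      simp only [Nat.cast_zero, sub_zero, not_lt_zero, IsEmpty.forall_iff, implies_true,
        forall_const] at y5 yT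
      have g := greedy_step c hc hI yT
      have hH : (univ.filter fun v => 1 ≤ y v).card ≤ 4 * Fintype.card ι := by
        have a : ((univ.filter fun v => 1 ≤ y v).card : ℝ) ≤ ∑ v, y v := by
          rw [card_filter, Nat.cast_sum]
          refine sum_le_sum fun v _ => ?_
          split_ifs with k
          · simpa using k
          · simpa using y0 v
        exact_mod_cast a.trans yT
      obtain ⟨S', hS', cov⟩ := h3 _ hH
      refine ⟨I, hI.1, fun a ha => ⟨3, S', le_rfl, hS', nn I a ha, fun v => ?_, fun v hv => ?_, ?_⟩⟩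
      · have := F1_le ha v
        have := y5 v
        unfold nx; push_cast; split_ifs <;> linarith
      · have := F1_le ha v
        have : y v < 1 := by
          by_contra k
          obtain ⟨i, hi, l⟩ := cov v (by simpa using k)
          exact hv i hi l
        unfold nx; push_cast; split_ifs <;> linarith
      · rw [sum_nx _ _ _ ha]; push_cast; linarith
    | succ j =>
      have hj' : (j : ℝ) ≤ 2 := by exact_mod_cast (show j ≤ 2 by omega)
      push_cast at y5 y9 yT
      refine ⟨S j, hS j, fun a ha => ⟨j, S, by omega, hS, nn _ a ha, fun v => ?_, fun v hv => ?_,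
        ?_⟩⟩
      · have := F1_le ha v
        have := y9 v
        unfold nx; split_ifs <;> linarith
      · have := F1_le ha v
        unfold nx
        split_ifs with k
        · linarith
        · have := y5 v fun i hi => by
            rcases Nat.lt_succ_iff_lt_or_eq.1 hi with l | rfl
            · exact hv i l
            · exact k
          linarith
      · rw [sum_nx _ _ _ ha]
        linarith [sum_nonneg fun v (_ : v ∈ S j) => y0 v]
  · rintro y ⟨j, S, -, -, -, y9, -⟩ v
    linarith [y9 v, Nat.cast_nonneg (α := ℝ) j]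

end gen

def D {d : ℕ} (x y : Fin d → Bool) : ℝ := ∑ i, if x i = y i then 0 else 1

def ag {d : ℕ} (x y : Fin d → Bool) : ℝ := ∑ i, if x i = y i then 1 else 0

lemma poinc (d : ℕ) : ∀ f : (Fin d → Bool) → ℝ, (∀ x y, f x - f y ≤ D x y) →
    ∃ μ : ℝ, ∑ x, (f x - μ) ^ 2 ≤ (2 : ℝ) ^ d * d := by
  induction d with
  | zero => exact fun f _ => ⟨f default, le_of_eq ((sum_eq_zero fun x _ => by
      rw [Subsingleton.elim x default, sub_self]; simp).trans (by simp))⟩
  | succ d ih =>
    intro f hf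
    have hD : ∀ (b c : Bool) (x y : Fin d → Bool), D (Fin.cons b x : Fin (d + 1) → Bool)
        (Fin.cons c y) = (if b = c then 0 else 1) + D x y := fun b c x y => by
      simp [D, Fin.sum_univ_succ]
    obtain ⟨μ, hμ⟩ := ih (fun x => (f (Fin.cons true x) + f (Fin.cons false x)) / 2) fun x y => by
      have a := hf (Fin.cons true x) (Fin.cons true y)
      have b := hf (Fin.cons false x) (Fin.cons false y)
      rw [hD, if_pos rfl] at a b
      linarith
    refine ⟨μ, ?_⟩
    rw [← Equiv.sum_comp (Fin.consEquiv fun _ => Bool), Fintype.sum_prod_type, Fintype.sum_bool,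
      ← sum_add_distrib]
    have pt : ∀ x : Fin d → Bool, (f (Fin.cons true x) - μ) ^ 2 + (f (Fin.cons false x) - μ) ^ 2 ≤
        2 * ((f (Fin.cons true x) + f (Fin.cons false x)) / 2 - μ) ^ 2 + 2 := by
      intro x
      have a := hf (Fin.cons true x) (Fin.cons false x)
      have b := hf (Fin.cons false x) (Fin.cons true x)
      have e : D x x = 0 := by simp [D]
      rw [hD, if_neg (by simp), e] at a b
      nlinarith
    refine (sum_le_sum fun x _ => pt x).trans ?_
    rw [sum_add_distrib, ← mul_sum, sum_const, card_univ]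
    simp only [Fintype.card_pi, Fintype.card_bool, prod_const, card_univ, Fintype.card_fin,
      nsmul_eq_mul]
    push_cast
    rw [pow_succ]
    nlinarith

lemma expand {d : ℕ} {t δ : ℝ} (ht : 0 < t) (hδ : 0 < δ) (hd : 4 * t ^ 2 < δ * d)
    (A B : Finset (Fin d → Bool)) (hA : δ * 2 ^ d ≤ A.card) (hB : δ * 2 ^ d ≤ B.card) :
    ∃ x ∈ A, ∃ y ∈ B, t * ag x y < d := by
  by_contra h
  push Not at h
  have d0 : (0 : ℝ) < d := by
    by_contra k
    nlinarith [mul_nonneg hδ.le (neg_nonneg.2 (not_lt.1 k)), sq_nonneg t]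
  have A0 : A.Nonempty := by
    rw [← card_pos, ← Nat.cast_pos (α := ℝ)]
    exact lt_of_lt_of_le (by positivity) hA
  obtain ⟨μ, hμ⟩ := poinc d (fun z => A.inf' A0 fun x => ag x z) fun z w => by
    obtain ⟨x, hx, e⟩ := exists_mem_eq_inf' A0 fun x => ag x w
    have a : A.inf' A0 (fun x => ag x z) ≤ ag x z := inf'_le _ hx
    have b : ag x z ≤ ag x w + D z w := by
      rw [ag, ag, D, ← sum_add_distrib]
      refine sum_le_sum fun i _ => ?_
      cases x i <;> cases z i <;> cases w i <;> simp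
    rw [e]
    linarith
  have key : ∀ S : Finset (Fin d → Bool), δ * 2 ^ d ≤ S.card →
      (∀ z ∈ S, (d / (2 * t)) ^ 2 ≤ ((A.inf' A0 fun x => ag x z) - μ) ^ 2) → False := by
    intro S hS k
    have a := (card_nsmul_le_sum S _ _ k).trans
      ((sum_le_sum_of_subset_of_nonneg (subset_univ S) fun _ _ _ => sq_nonneg _).trans hμ)
    rw [nsmul_eq_mul] at a
    have b := (mul_le_mul_of_nonneg_right hS (sq_nonneg (d / (2 * t)))).trans a
    rw [div_pow, ← mul_div_assoc, div_le_iff₀ (by positivity)] at b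
    have p : (0 : ℝ) < 2 ^ d * d := by positivity
    nlinarith [mul_lt_mul_of_pos_left hd p]
  have q : (0 : ℝ) < d / (2 * t) := by positivity
  rcases le_total μ (d / (2 * t)) with c | c
  · refine key B hB fun z hz => pow_le_pow_left₀ q.le ?_ 2
    have : d / t ≤ A.inf' A0 fun x => ag x z :=
      le_inf' _ _ fun x hx => by rw [div_le_iff₀ ht, mul_comm]; exact h x hx z hz
    have e : d / t = d / (2 * t) + d / (2 * t) := by field_simp; ring
    linarith
  · refine key (A.image fun x i => !x i) ?_ fun z hz => ?_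
    · rw [card_image_of_injective _ fun x y e => funext fun i => by simpa using congrFun e i]
      exact hA
    · obtain ⟨x, hx, rfl⟩ := mem_image.1 hz
      have a : (A.inf' A0 fun w => ag w fun i => !x i) ≤ ag x fun i => !x i := inf'_le _ hx
      have b : (ag x fun i => !x i) = 0 := by simp [ag]
      rw [← neg_sq, ← neg_sq ((A.inf' A0 fun w => ag w fun i => !x i) - μ), neg_sq]
      exact pow_le_pow_left₀ q.le (by linarith) 2

end Pool.Agent.H44.BK
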