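import Pool.Agent.H44.BK1

namespace Pool.Agent.H44.BK

open Finset Classical

abbrev VV (k d : ℕ) := Option (Fin k × (Fin d → Bool))

lemma ag_comm {d : ℕ} (x y : Fin d → Bool) : ag x y = ag y x := by
  simp only [ag, eq_comm]

def adj (k d : ℕ) (t : ℝ) : VV k d → VV k d → Prop
  | none, none => False
  | none, some _ => True
  | some _, none => True
  | some p, some q => p.1 ≠ q.1 ∧ t * ag p.2 q.2 < d

def GG (k d : ℕ) (t : ℝ) : SimpleGraph (VV k d) where
  Adj := adj k d t
  symm := ⟨by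
    rintro (_ | p) (_ | q) h
    · exact h
    · trivial
    · trivial
    · exact ⟨h.1.symm, ag_comm p.2 q.2 ▸ h.2⟩⟩
  loopless := ⟨by
    rintro (_ | p) h
    · exact h
    · exact h.1 rfl⟩

variable {k d : ℕ} {t : ℝ}

lemma col (u w : VV k d) (h : (GG k d t).Adj u w) : u.map Prod.fst ≠ w.map Prod.fst := by
  rcases u with _ | p <;> rcases w with _ | q
  · exact h.elim
  · simp
  · simp
  · simpa using h.1

lemma three (hd : 0 < d) (H : Finset (VV k d)) (ht : (H.card : ℝ) ^ 2 < t) :
    ∃ S : ℕ → Finset (VV k d), (∀ i, (GG k d t).IsIndepSet (S i : Set (VV k d))) ∧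
      ∀ v ∈ H, ∃ i < 3, v ∈ S i := by
  let H' : Finset (Fin k × (Fin d → Bool)) := univ.filter fun p => some p ∈ H
  have hc : H'.card ≤ H.card :=
    card_le_card_of_injOn some (fun p hp => (mem_filter.1 hp).2) (Option.some_injective _).injOn
  let E := (H' ×ˢ H').filter fun e => t * ag e.1.2 e.2.2 < d
  have t0 : 0 < t := lt_of_le_of_lt (by positivity) ht
  have d0 : (0 : ℝ) < d := by exact_mod_cast hd
  have hE : (E.card : ℝ) < t := by
    have a : E.card ≤ H.card ^ 2 := (card_filter_le _ _).trans (by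
      rw [card_product, sq]; exact Nat.mul_le_mul hc hc)
    exact lt_of_le_of_lt (by exact_mod_cast a) ht
  have h1 : ∑ c : Fin d, ∑ e ∈ E, (if e.1.2 c = e.2.2 c then (1 : ℝ) else 0) <
      ∑ c : Fin d, (1 : ℝ) := by
    rw [sum_comm, sum_const, card_univ, Fintype.card_fin, nsmul_eq_mul, mul_one]
    have a := sum_le_card_nsmul E (fun e => ag e.1.2 e.2.2) (d / t) fun e he => by
      rw [le_div_iff₀ t0, mul_comm]; exact (mem_filter.1 he).2.le
    refine lt_of_le_of_lt a ?_
    rw [nsmul_eq_mul, ← mul_div_assoc, div_lt_iff₀ t0, mul_comm]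
    exact mul_lt_mul_of_pos_left hE d0
  obtain ⟨c, -, hc⟩ := exists_lt_of_sum_lt h1
  have h2 : ∀ b : Bool, (GG k d t).IsIndepSet
      (((H'.filter fun p => p.2 c = b).image some : Finset (VV k d)) : Set (VV k d)) := by
    intro b u hu w hw _ h
    obtain ⟨p, hp, rfl⟩ := mem_image.1 hu
    obtain ⟨q, hq, rfl⟩ := mem_image.1 hw
    have he : (p, q) ∈ E :=
      mem_filter.2 ⟨mem_product.2 ⟨(mem_filter.1 hp).1, (mem_filter.1 hq).1⟩, h.2⟩
    have := single_le_sum (f := fun e : (Fin k × (Fin d → Bool)) × (Fin k × (Fin d → Bool)) =>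
      if e.1.2 c = e.2.2 c then (1 : ℝ) else 0) (fun e _ => by split_ifs <;> norm_num) he
    rw [if_pos ((mem_filter.1 hp).2.trans (mem_filter.1 hq).2.symm)] at this
    linarith
  refine ⟨fun i => if i = 0 then {none} else (H'.filter fun p => p.2 c = decide (i = 1)).image some,
    fun i => ?_, ?_⟩
  · beta_reduce
    split_ifs
    · simp
    · exact h2 _
  · rintro (_ | p) hp
    · exact ⟨0, by omega, by simp⟩
    · cases e : p.2 c
      · exact ⟨2, by omega, by simp [H', hp, e]⟩
      · exact ⟨1, by omega, by simp [H', hp, e]⟩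

lemma one_big (ht : 0 < t) {δ : ℝ} (hδ : 0 < δ) (hd : 4 * t ^ 2 < δ * d) {I : Finset (VV k d)}
    (hI : (GG k d t).IsIndepSet (I : Set (VV k d))) {J : Finset (Fin k)} (hJ : J.Nonempty) :
    ∃ i ∈ J, ∀ j ∈ J.erase i, ((univ.filter fun x => some (j, x) ∈ I).card : ℝ) ≤ δ * 2 ^ d := by
  by_cases h : ∃ i ∈ J, δ * 2 ^ d ≤ ((univ.filter fun x => some (i, x) ∈ I).card : ℝ)
  · obtain ⟨i, hi, h⟩ := h
    refine ⟨i, hi, fun j hj => ?_⟩
    by_contra l
    obtain ⟨x, hx, y, hy, e⟩ := expand ht hδ hd _ _ h (not_le.1 l).le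
    have n := (mem_erase.1 hj).1.symm
    exact hI (mem_filter.1 hx).2 (mem_filter.1 hy).2 (by simp [n]) ⟨n, e⟩
  · push Not at h
    obtain ⟨i, hi⟩ := hJ
    exact ⟨i, hi, fun j hj => (h j (mem_of_mem_erase hj)).le⟩

noncomputable def fl (J : Finset (Fin k)) : VV k d → ℝ
  | none => 0
  | some p => if p.1 ∈ J then 1 / (J.card * 2 ^ d) else 0

lemma fl_sum (J : Finset (Fin k)) {i : Fin k} (hi : i ∈ J) :
    ∑ x : Fin d → Bool, fl J (some (i, x)) = 1 / J.card := by
  simp [fl, hi]

lemma fl_F1 {J : Finset (Fin k)} (hJ : J.Nonempty) : F1 (fl (d := d) J) := by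
  constructor
  · rintro (_ | p)
    · rfl
    · simp only [fl]; split_ifs <;> positivity
  · have : (J.card : ℝ) ≠ 0 := by exact_mod_cast hJ.card_pos.ne'
    rw [Fintype.sum_option, Fintype.sum_prod_type]
    simp [fl]
    field_simp

lemma fl_le {J : Finset (Fin k)} (p) : fl (d := d) J (some p) ≤ 1 / 2 ^ d := by
  simp only [fl]
  split_ifs with h
  · have : (1 : ℝ) ≤ J.card := by exact_mod_cast card_pos.2 ⟨_, h⟩
    exact one_div_le_one_div_of_le (by positivity) (le_mul_of_one_le_left (by positivity) this)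
  · positivity

noncomputable def ap : VV k d → ℝ
  | none => 1
  | some _ => 0

lemma lower (ht : 0 < t) (hd : 4 * t ^ 2 < 1 / k ^ 2 * d) (r : ℕ) (hr : 1 ≤ r) (hk : r ≤ k)
    (hH : (r : ℝ) + 1 < ∑ i ∈ Ico r k, (1 : ℝ) / i) {b : ℝ} (hb : b < r) :
    ¬ GWins (GG k d t) b := by
  have k0 : (0 : ℝ) < k := by exact_mod_cast (show 0 < k by omega)
  have hu : (univ : Finset (Fin k)).Nonempty := ⟨⟨0, by omega⟩, mem_univ _⟩
  refine not_gwins _ b (fun j y => j ≤ k ∧ y none = (r - j : ℕ) ∧
    (∀ p, y (some p) ≤ (k - j + 1) / 2 ^ d) ∧ ∃ J : Finset (Fin k), J.card = j ∧ ∀ i ∈ J,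
      ∑ l ∈ Ico (max j r) k, (1 : ℝ) / l - (k - j) / k ≤ ∑ x, y (some (i, x))) k (fl univ)
    (fl_F1 hu) ⟨le_rfl, by simp [fl, hk], fun p => by simpa using fl_le (J := univ) p, univ,
      by simp, fun i hi => by rw [fl_sum _ hi]; simp [hk]⟩ ?_ ?_
  · rintro j y I ⟨jk, yn, yl, J, hJ, yw⟩ hI
    have hJ' : J.Nonempty := card_pos.1 (by omega)
    obtain ⟨i, hi, small⟩ := one_big ht (by positivity) hd hI.1 hJ'
    have cJ : (J.erase i).card = j := by rw [card_erase_of_mem hi]; omega
    have jk' : (j : ℝ) + 1 ≤ k := by exact_mod_cast jk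
    have j0 : (0 : ℝ) ≤ j := Nat.cast_nonneg j
    push_cast at yl yw
    have leak : ∀ l ∈ J.erase i, ∀ a : VV k d → ℝ, ∑ x, y (some (l, x)) - 1 / k +
        ∑ x, a (some (l, x)) ≤ ∑ x, nx y I a (some (l, x)) := by
      intro l hl a
      have e : ∀ x, y (some (l, x)) - (if some (l, x) ∈ I then (k : ℝ) / 2 ^ d else 0) +
          a (some (l, x)) ≤ nx y I a (some (l, x)) := fun x => by
        unfold nx
        split_ifs
        · have : (k - (j + 1) + 1 : ℝ) / 2 ^ d ≤ k / 2 ^ d := by gcongr; linarith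
          linarith [yl (l, x)]
        · simp
      refine le_trans ?_ (sum_le_sum fun x _ => e x)
      rw [sum_add_distrib, sum_sub_distrib, ← sum_filter, sum_const, nsmul_eq_mul]
      have := mul_le_mul_of_nonneg_right (small l hl) (show (0 : ℝ) ≤ k / 2 ^ d by positivity)
      rw [show 1 / (k : ℝ) ^ 2 * 2 ^ d * (k / 2 ^ d) = 1 / k by field_simp] at this
      linarith
    have lev : ∀ a : VV k d → ℝ, (∀ p, a (some p) ≤ 1 / 2 ^ d) →
        ∀ p, nx y I a (some p) ≤ (k - j + 1) / 2 ^ d := fun a ha p => by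
      have e : (k - j + 1 : ℝ) / 2 ^ d = (k - (j + 1) + 1) / 2 ^ d + 1 / 2 ^ d := by ring
      have : (0 : ℝ) ≤ (k - (j + 1) + 1) / 2 ^ d := div_nonneg (by linarith) (by positivity)
      unfold nx
      split_ifs <;> linarith [ha p, yl p]
    have e1 : (k - j : ℝ) / k = (k - (j + 1)) / k + 1 / k := by ring
    rcases le_or_gt r j with c | c
    · refine ⟨fl (J.erase i), fl_F1 (card_pos.1 (by omega)), by omega, ?_, lev _ fl_le,
        J.erase i, cJ, fun l hl => ?_⟩
      · rw [show r - (j + 1) = 0 by omega] at yn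
        simp [nx, fl, yn, c]
      · have a := leak l hl (fl (J.erase i))
        have b := yw l (mem_of_mem_erase hl)
        rw [fl_sum _ hl, cJ] at a
        rw [max_eq_left (by omega)] at b ⊢
        rw [sum_eq_sum_Ico_succ_bot (by omega)]
        linarith
    · have hn : none ∉ I := by
        intro h
        have e : I = {none} := by
          refine eq_singleton_iff_unique_mem.2 ⟨h, ?_⟩
          rintro (_ | p) hp
          · rfl
          · exact (hI.1 h hp (by simp) trivial).elim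
        have a := hI.2 (univ.image fun x => some (i, x)) fun u hu w hw _ h => by
          obtain ⟨x, -, rfl⟩ := mem_image.1 hu
          obtain ⟨z, -, rfl⟩ := mem_image.1 hw
          exact h.1 rfl
        rw [sum_image fun x _ z _ h => by simpa using h, e, sum_singleton, yn] at a
        have b := yw i hi
        rw [max_eq_right (by omega)] at b
        have b1 : ((r - (j + 1) : ℕ) : ℝ) ≤ r := by exact_mod_cast Nat.sub_le _ _
        have b2 : (k - (j + 1) : ℝ) / k ≤ 1 := by rw [div_le_one k0]; linarith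
        linarith
      refine ⟨ap, ⟨by rintro (_ | p) <;> simp [ap], by simp [Fintype.sum_option, ap]⟩, by omega, ?_,
        lev _ fun p => by simp [ap], J.erase i, cJ, fun l hl => ?_⟩
      · simp only [nx, if_neg hn, ap, yn]
        exact_mod_cast (by omega)
      · have a := leak l hl ap
        have b := yw l (mem_of_mem_erase hl)
        rw [max_eq_right (by omega)] at b ⊢
        simp only [ap, sum_const_zero] at a
        linarith
  · rintro y ⟨-, yn, -⟩
    exact ⟨none, by simpa [yn] using hb⟩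

theorem gap (C : ℝ) : ∃ (V : Type) (_ : Fintype V) (G : SimpleGraph V),
    C < gbucket G - bucket G := by
  obtain ⟨r, hr⟩ := exists_nat_gt (|C| + 9)
  have r1 : 1 ≤ r := by
    have : (0 : ℝ) < r := by linarith [abs_nonneg C]
    exact_mod_cast this
  obtain ⟨k, hk1, hk⟩ := ((Real.tendsto_sum_range_one_div_nat_succ_atTop.eventually_gt_atTop
    (r + 1 + ∑ i ∈ range r, (1 : ℝ) / i)).and (Filter.eventually_ge_atTop r)).exists
  have hH : (r : ℝ) + 1 < ∑ i ∈ Ico r (k + 1), (1 : ℝ) / i := by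
    rw [sum_Ico_eq_sub _ (by omega), sum_range_succ']
    push_cast
    simp only [div_zero]
    linarith
  set t : ℝ := (4 * (k + 2)) ^ 2 + 1 with ht
  have t0 : 0 < t := by positivity
  obtain ⟨d, hd⟩ := exists_nat_gt (4 * t ^ 2 * (k + 1) ^ 2)
  have d0 : 0 < d := by
    have : (0 : ℝ) < d := lt_trans (by positivity) hd
    exact_mod_cast this
  refine ⟨VV (k + 1) d, inferInstance, GG (k + 1) d t, ?_⟩
  have u : sInf {b | 0 < b ∧ CWins (GG (k + 1) d t) b} ≤ 9 := by
    refine csInf_le ⟨0, fun b hb => hb.1.le⟩ ⟨by norm_num, cwins9 _ col fun H hH => ?_⟩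
    refine three d0 H ?_
    have : (H.card : ℝ) ≤ 4 * (k + 2) := by
      simp only [Fintype.card_option, Fintype.card_fin] at hH
      exact_mod_cast hH
    rw [ht]
    nlinarith [pow_le_pow_left₀ (Nat.cast_nonneg _) this 2]
  have l : (r : ℝ) ≤ sInf {b | 0 < b ∧ GWins (GG (k + 1) d t) b} := by
    refine le_csInf ⟨_, by exact_mod_cast Fintype.card_pos, gwins_of _ col⟩ fun b hb => ?_
    by_contra c
    refine lower t0 ?_ r r1 (by omega) hH (not_le.1 c) hb.2
    rw [one_div_mul_eq_div, lt_div_iff₀ (by positivity)]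
    exact_mod_cast hd
  unfold gbucket bucket
  linarith [le_abs_self C]

end Pool.Agent.H44.BK
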