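import Mathlib

namespace Pool.Agent.H44.BK

open Finset Classical

variable {V : Type} [Fintype V]

/-- A move sequence of the Stepmother: in each round nonnegative amounts with total `1`. -/
def Fill (a : ℕ → V → ℝ) : Prop := ∀ t, (∀ v, 0 ≤ a t v) ∧ ∑ v, a t v = 1

/-- Contents right after the Stepmother's move in round `t`, when she plays `a` and the set
`I s` is emptied in round `s`. All buckets start empty. -/
noncomputable def level (a : ℕ → V → ℝ) (I : ℕ → Finset V) : ℕ → V → ℝ
  | 0 => a 0
  | t + 1 => fun v => (if v ∈ I t then 0 else level a I t v) + a (t + 1) v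

/-- Cinderella has a strategy (her move in round `t` depends only on the Stepmother's moves up to
round `t`) that keeps every content at most `b` forever. -/
def CWins (G : SimpleGraph V) (b : ℝ) : Prop :=
  ∃ σ : ℕ → (ℕ → V → ℝ) → Finset V, (∀ t a, G.IsIndepSet (σ t a : Set V)) ∧
    (∀ t a a', (∀ s ≤ t, a s = a' s) → σ t a = σ t a') ∧
    ∀ a, Fill a → ∀ t v, level a (fun s => σ s a) t v ≤ b

/-- `I` is an independent set of maximal total content for the contents `y`. -/
def Greedy (G : SimpleGraph V) (y : V → ℝ) (I : Finset V) : Prop :=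
  G.IsIndepSet (I : Set V) ∧
    ∀ J : Finset V, G.IsIndepSet (J : Set V) → ∑ v ∈ J, y v ≤ ∑ v ∈ I, y v

/-- Every play in which Cinderella follows GREEDY (with any tie-breaking) keeps every content
at most `b` forever. -/
def GWins (G : SimpleGraph V) (b : ℝ) : Prop :=
  ∀ (a : ℕ → V → ℝ) (I : ℕ → Finset V), Fill a → (∀ t, Greedy G (level a I t) (I t)) →
    ∀ t v, level a I t v ≤ b

noncomputable def bucket (G : SimpleGraph V) : ℝ := sInf {b | 0 < b ∧ CWins G b} - 1

noncomputable def gbucket (G : SimpleGraph V) : ℝ := sInf {b | 0 < b ∧ GWins G b} - 1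

end Pool.Agent.H44.BK
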