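import Mathlib

/-! Return probabilities of a difference walk (copied from H61.PercA). -/

namespace Pool.Agent.H44.BN

noncomputable def ch (n : ℕ) (m : ℤ) : ℝ := if 0 ≤ m then (n.choose m.toNat : ℝ) else 0

theorem ch_succ (n : ℕ) (m : ℤ) : ch (n + 1) m = ch n m + ch n (m - 1) := by
  unfold ch
  rcases lt_trichotomy m 0 with h | h | h
  · rw [if_neg (by omega), if_neg (by omega), if_neg (by omega)]; simp
  · subst h; simp
  · obtain ⟨k, rfl⟩ : ∃ k : ℕ, m = (k : ℤ) + 1 := ⟨(m - 1).toNat, by omega⟩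
    rw [if_pos (by omega), if_pos (by omega), if_pos (by omega)]
    have e1 : ((k : ℤ) + 1).toNat = k + 1 := by omega
    have e2 : ((k : ℤ) + 1 - 1).toNat = k := by omega
    rw [e1, e2, Nat.choose_succ_succ']
    push_cast; ring

noncomputable def b (j : ℕ) (k : ℤ) : ℝ := ch (2 * j) (j + k) / 4 ^ j

theorem b_nonneg (j : ℕ) (k : ℤ) : 0 ≤ b j k := by
  unfold b ch; split_ifs <;> positivity

def bit (e : Bool) : ℤ := if e then 1 else 0

theorem b_succ (j : ℕ) (k : ℤ) : ∑ e : Bool, ∑ e' : Bool, b j (k + bit e - bit e') =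
    4 * b (j + 1) k := by
  simp only [Fintype.sum_bool, bit, if_true, Bool.false_eq_true, if_false, b]
  rw [show 2 * (j + 1) = 2 * j + 1 + 1 by ring, ch_succ, ch_succ, ch_succ]
  push_cast
  rw [show (j : ℤ) + (k + 1 - 1) = j + k by ring, show (j : ℤ) + (k + 1 - 0) = j + 1 + k by ring,
    show (j : ℤ) + (k + 0 - 1) = j + 1 + k - 1 - 1 by ring,
    show (j : ℤ) + (k + 0 - 0) = j + k by ring, show (j : ℤ) + 1 + k - 1 = j + k by ring]
  field_simp
  ring

theorem b_zero_zero : b 0 0 = 1 := by simp [b, ch]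

theorem b_sq (j : ℕ) : b j 0 ^ 2 * (2 * j + 1) ≤ 1 := by
  have e : ∀ j : ℕ, b j 0 = (j.centralBinom : ℝ) / 4 ^ j := by
    intro j; simp [b, ch, Nat.centralBinom]
  induction j with
  | zero => simp [b_zero_zero]
  | succ j ih =>
    have h1 : ((j + 1 : ℕ) : ℝ) * (j + 1).centralBinom = 2 * (2 * j + 1) * j.centralBinom := by
      exact_mod_cast Nat.succ_mul_centralBinom_succ j
    have h2 : b (j + 1) 0 = b j 0 * ((2 * j + 1) / (2 * j + 2)) := by
      rw [e, e, pow_succ]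
      push_cast at h1
      field_simp
      linarith
    rw [h2, mul_pow]
    push_cast
    have h3 : ((2 * (j : ℝ) + 1) / (2 * j + 2)) ^ 2 * (2 * (j + 1) + 1) ≤ 2 * j + 1 := by
      rw [div_pow, div_mul_eq_mul_div, div_le_iff₀ (by positivity)]
      have : (0 : ℝ) ≤ j := by positivity
      nlinarith
    calc b j 0 ^ 2 * ((2 * (j : ℝ) + 1) / (2 * j + 2)) ^ 2 * (2 * (j + 1) + 1)
        = b j 0 ^ 2 * (((2 * (j : ℝ) + 1) / (2 * j + 2)) ^ 2 * (2 * (j + 1) + 1)) := by ring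
      _ ≤ b j 0 ^ 2 * (2 * j + 1) := by gcongr
      _ ≤ 1 := ih

variable {r : ℕ}

noncomputable def a (j : ℕ) (z : Fin r → ℤ) : ℝ := ∏ i, b j (z i)

theorem a_nonneg (j : ℕ) (z : Fin r → ℤ) : 0 ≤ a j z := Finset.prod_nonneg fun _ _ => b_nonneg _ _

theorem a_succ (j : ℕ) (z : Fin r → ℤ) :
    ∑ ε : Fin r → Bool, ∑ ε' : Fin r → Bool, a j (fun i => z i + bit (ε i) - bit (ε' i)) =
      ((2 : ℝ) ^ r) ^ 2 * a (j + 1) z := by
  unfold a
  have h1 : ∀ ε : Fin r → Bool, ∑ ε' : Fin r → Bool, ∏ i, b j (z i + bit (ε i) - bit (ε' i)) =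
      ∏ i, ∑ e' : Bool, b j (z i + bit (ε i) - bit e') := fun ε =>
    (Fintype.prod_sum (fun i (e' : Bool) => b j (z i + bit (ε i) - bit e'))).symm
  simp only [h1]
  rw [← Fintype.prod_sum (fun i (e : Bool) => ∑ e' : Bool, b j (z i + bit e - bit e'))]
  simp only [b_succ, Finset.prod_mul_distrib, Finset.prod_const, Finset.card_univ,
    Fintype.card_fin]
  congr 1
  rw [← pow_mul, mul_comm, pow_mul]; norm_num

noncomputable def g (n : ℕ) (z : Fin r → ℤ) : ℝ := ∑ j ∈ Finset.range n, a j z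

theorem g_nonneg (n : ℕ) (z : Fin r → ℤ) : 0 ≤ g n z := Finset.sum_nonneg fun _ _ => a_nonneg _ _

theorem g_succ (n : ℕ) (z : Fin r → ℤ) :
    ∑ ε : Fin r → Bool, ∑ ε' : Fin r → Bool, g n (fun i => z i + bit (ε i) - bit (ε' i)) =
      ((2 : ℝ) ^ r) ^ 2 * (g (n + 1) z - a 0 z) := by
  unfold g
  rw [Finset.sum_range_succ', add_sub_cancel_right, Finset.mul_sum]
  simp only [← a_succ]
  rw [Finset.sum_comm (s := Finset.range n)]
  refine Finset.sum_congr rfl fun ε _ => ?_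
  rw [Finset.sum_comm (s := Finset.range n)]

theorem a_zero_zero : a 0 (0 : Fin r → ℤ) = 1 := by simp [a, b_zero_zero]

theorem g_le (hr : 4 ≤ r) (n : ℕ) : g n (0 : Fin r → ℤ) ≤ 2 := by
  have key : ∀ n : ℕ, g (n + 1) (0 : Fin r → ℤ) ≤ 2 - 1 / ((n : ℝ) + 1) := by
    intro n
    induction n with
    | zero => simp [g, a_zero_zero]; norm_num
    | succ n ih =>
      rw [g, Finset.sum_range_succ, ← g]
      have h1 := b_sq (n + 1)
      have h0 := b_nonneg (n + 1) 0
      have hn : (0 : ℝ) ≤ n := by positivity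
      push_cast at h1 ⊢
      have h2 : b (n + 1) 0 ^ 2 ≤ 1 / (2 * (n + 1) + 1) := by
        rw [le_div_iff₀ (by positivity)]; exact h1
      have h3 : b (n + 1) 0 ≤ 1 := by
        have : b (n + 1) 0 ^ 2 ≤ 1 := h2.trans (by
          rw [div_le_one (by positivity)]; linarith)
        nlinarith
      have h4 : a (n + 1) (0 : Fin r → ℤ) ≤ (1 / (2 * ((n : ℝ) + 1) + 1)) ^ 2 := by
        calc a (n + 1) (0 : Fin r → ℤ) = b (n + 1) 0 ^ r := by simp [a]
          _ ≤ b (n + 1) 0 ^ 4 := pow_le_pow_of_le_one h0 h3 hr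
          _ = (b (n + 1) 0 ^ 2) ^ 2 := by ring
          _ ≤ _ := by gcongr
      have h5 : (1 / (2 * ((n : ℝ) + 1) + 1)) ^ 2 ≤ 1 / (n + 1) - 1 / (n + 1 + 1) := by
        rw [div_sub_div _ _ (by positivity) (by positivity), div_pow,
          div_le_div_iff₀ (by positivity) (by positivity)]
        nlinarith
      linarith
  rcases n with _ | n
  · simp [g]
  · have := key n
    have : (0 : ℝ) ≤ 1 / ((n : ℝ) + 1) := by positivity
    linarith

end Pool.Agent.H44.BN
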