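import Pool.Agent.H44.BNDefs
import Pool.Agent.H44.Har

open MeasureTheory ProbabilityTheory Set Filter Topology
open scoped ENNReal

namespace Pool.Agent.H44.BN

variable {k d : ℕ}

abbrev Dir (d : ℕ) := Fin d × Bool
abbrev V (d : ℕ) := Fin d → ℤ
abbrev Om (d : ℕ) := V d → Dir d → Bool

def has (T : Finset (Dir d)) : Set (Dir d → Bool) := {f | ∀ u ∈ T, f u = true}

lemma card_has (T : Finset (Dir d)) (h : T.card ≤ k) :
    (Finset.univ.filter fun f : Dir d → Bool =>
      (Finset.univ.filter fun u => f u = true).card = k ∧ ∀ u ∈ T, f u = true).card =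
      (2 * d - T.card).choose (k - T.card) := by
  have := Finset.card_filter_powersetCard_subset T Finset.univ k (Finset.subset_univ _) h
  rw [Finset.card_univ, Fintype.card_prod, Fintype.card_fin, Fintype.card_bool, mul_comm d 2] at this
  rw [← this]
  refine Finset.card_nbij' (fun f => Finset.univ.filter fun u => f u = true)
    (fun A u => decide (u ∈ A)) (fun f hf => ?_) (fun A hA => ?_) (fun f _ => ?_) (fun A _ => ?_)
  · simp only [Finset.coe_filter, Finset.mem_univ, true_and, mem_ofPred_eq] at hf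
    simp only [Finset.coe_filter, Finset.mem_powersetCard, Finset.subset_univ, true_and,
      mem_ofPred_eq]
    exact ⟨hf.1, fun u hu => by simpa using hf.2 u hu⟩
  · simp only [Finset.coe_filter, Finset.mem_powersetCard, Finset.subset_univ, true_and,
      mem_ofPred_eq] at hA
    simp only [Finset.coe_filter, Finset.mem_univ, true_and, mem_ofPred_eq, decide_eq_true_eq]
    exact ⟨by simpa using hA.1, fun u hu => hA.2 hu⟩
  · funext u; simp
  · ext u; simp

lemma site_prob (hk : k ≤ 2 * d) : IsProbabilityMeasure (site k d) := by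
  refine isProbabilityMeasure_uniformOn (toFinite _) ?_
  have h := card_has (k := k) (∅ : Finset (Dir d)) (Nat.zero_le _)
  have h2 : 0 < (2 * d - (∅ : Finset (Dir d)).card).choose (k - (∅ : Finset (Dir d)).card) :=
    Nat.choose_pos (by simpa using hk)
  rw [← h] at h2
  obtain ⟨f, hf⟩ := Finset.card_pos.1 h2
  exact ⟨f, (Finset.mem_filter.1 hf).2.1⟩

noncomputable def qq (k d j : ℕ) : ℝ := ((2 * d - j).choose (k - j) : ℝ) / (2 * d).choose k

lemma site_has (T : Finset (Dir d)) (h : T.card ≤ k) : (site k d).real (has T) = qq k d T.card := by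
  classical
  have h0 := card_has (k := k) (∅ : Finset (Dir d)) (Nat.zero_le _)
  have h1 := card_has T h
  have e1 : {f : Dir d → Bool | (Finset.univ.filter fun u => f u = true).card = k} =
      ↑(Finset.univ.filter fun f : Dir d → Bool =>
        (Finset.univ.filter fun u => f u = true).card = k) := by ext; simp
  have e2 : has T = ↑(Finset.univ.filter fun f : Dir d → Bool => ∀ u ∈ T, f u = true) := by
    ext; simp [has]
  rw [measureReal_def, site, e1, e2, uniformOn_apply_finset, ← Finset.filter_and, h1]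
  simp only [Finset.notMem_empty, false_imp_iff, implies_true, and_true, Finset.card_empty,
    Nat.sub_zero] at h0
  rw [h0, ENNReal.toReal_div, qq]; simp

lemma qq_nonneg (j : ℕ) : 0 ≤ qq k d j := by unfold qq; positivity

lemma qq_zero (hk : k ≤ 2 * d) : qq k d 0 = 1 := by
  have : (0 : ℝ) < (2 * d).choose k := by exact_mod_cast Nat.choose_pos hk
  simp [qq, this.ne']

lemma qq_succ (hk : k ≤ 2 * d) {j : ℕ} (hj : j < k) :
    qq k d (j + 1) = qq k d j * (((k : ℝ) - j) / (2 * d - j)) := by
  have h := Nat.add_one_mul_choose_eq (2 * d - (j + 1)) (k - (j + 1))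
  rw [show 2 * d - (j + 1) + 1 = 2 * d - j by omega, show k - (j + 1) + 1 = k - j by omega] at h
  have h2 : ((2 * d - j : ℕ) : ℝ) * ((2 * d - (j + 1)).choose (k - (j + 1)) : ℝ) =
      ((2 * d - j).choose (k - j) : ℝ) * ((k - j : ℕ) : ℝ) := by exact_mod_cast h
  rw [Nat.cast_sub (by omega), Nat.cast_sub hj.le] at h2
  push_cast at h2
  have h3 : (0 : ℝ) < 2 * d - j := by
    have : (j : ℝ) < 2 * d := by exact_mod_cast (show j < 2 * d by omega)
    linarith
  unfold qq
  rw [div_mul_div_comm, ← h2]; field_simp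

lemma qq_two (hk : k ≤ 2 * d) (h2 : 2 ≤ k) :
    qq k d 2 = (k / (2 * d)) * (((k : ℝ) - 1) / (2 * d - 1)) := by
  rw [qq_succ hk (j := 1) h2, qq_succ hk (j := 0) (by omega), qq_zero hk]; simp

def rev (u : Dir d) : Dir d := (u.1, !u.2)

lemma step_rev (x : V d) (u : Dir d) : step (step x u) (rev u) = x := by
  obtain ⟨i, b⟩ := u
  cases b <;> simp [step, rev, add_assoc, ← Pi.single_add]

lemma step_ne (x : V d) (u : Dir d) : step x u ≠ x := by
  intro h
  have := congrFun h u.1
  simp only [step, Pi.add_apply, Pi.single_eq_same] at this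
  split_ifs at this <;> omega

lemma eq_rev {x : V d} {u v : Dir d} (h : x = step (step x u) v) : v = rev u := by
  obtain ⟨i, b⟩ := u
  obtain ⟨j, c⟩ := v
  have := congrFun h i
  simp only [step, Pi.add_apply, Pi.single_eq_same] at this
  by_cases hij : i = j
  · subst hij
    rw [Pi.single_eq_same] at this
    cases b <;> cases c <;> simp [rev] at this ⊢ <;> omega
  · rw [Pi.single_eq_of_ne hij] at this
    split_ifs at this <;> omega

def loc (x : V d) (T : Finset (Dir d)) : Set (Om d) := {ω | ω x ∈ has T}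

lemma loc_meas (x : V d) (T : Finset (Dir d)) : MeasurableSet (loc x T) :=
  measurable_pi_apply x (MeasurableSet.of_discrete (s := has T))

lemma dep_of {A : Set (Om d)} {S : Set (V d)}
    (h : ∀ ω ω' : Om d, (∀ e ∈ S, ω e = ω' e) → ω ∈ A → ω' ∈ A) : DependsOn (· ∈ A) S :=
  fun ω ω' e => propext ⟨h ω ω' e, h ω' ω fun i hi => (e i hi).symm⟩

lemma loc_dep (x : V d) (T : Finset (Dir d)) {S : Set (V d)} (hx : x ∈ S) :
    DependsOn (· ∈ loc x T) S :=
  dep_of fun ω ω' h h1 => by
    show ω' x ∈ has T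
    rw [← h x hx]; exact h1

lemma law_prob (hk : k ≤ 2 * d) : IsProbabilityMeasure (law k d) := by
  have := site_prob hk
  unfold law; infer_instance

lemma law_loc (hk : k ≤ 2 * d) (x : V d) (T : Finset (Dir d)) (h : T.card ≤ k) :
    (law k d).real (loc x T) = qq k d T.card := by
  have := site_prob hk
  rw [← site_has T h, measureReal_def, measureReal_def]
  congr 1
  exact (measurePreserving_eval_infinitePi (fun _ : V d => site k d) x).measure_preimage
    (MeasurableSet.of_discrete (s := has T)).nullMeasurableSet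

lemma law_indep (hk : k ≤ 2 * d) {S T : Set (V d)} (h : Disjoint S T) {A B : Set (Om d)}
    (hA : MeasurableSet A) (hB : MeasurableSet B) (dA : DependsOn (· ∈ A) S)
    (dB : DependsOn (· ∈ B) T) : (law k d).real (A ∩ B) = (law k d).real A * (law k d).real B := by
  have := site_prob hk
  rw [measureReal_def, law, Har.indep_of _ h hA hB dA dB, ENNReal.toReal_mul]; rfl

noncomputable def rr (k d : ℕ) : ℝ := (k / (2 * d)) * (((k : ℝ) - 1) / (2 * d - 1))

lemma rr_nonneg (hk : k ≤ 2 * d) (h1 : 1 ≤ k) : 0 ≤ rr k d := by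
  have a1 : (1 : ℝ) ≤ k := by exact_mod_cast h1
  have a2 : (k : ℝ) ≤ 2 * d := by exact_mod_cast hk
  exact mul_nonneg (by positivity) (div_nonneg (by linarith) (by linarith))

lemma loc_two (hk : k ≤ 2 * d) (h1 : 1 ≤ k) (x : V d) {u v : Dir d} (huv : u ≠ v) :
    (law k d).real (loc x {u, v}) = rr k d := by
  classical
  rcases h1.eq_or_lt with rfl | h2
  · have := site_prob hk
    have e : law 1 d (loc x {u, v}) = site 1 d (has {u, v}) :=
      (measurePreserving_eval_infinitePi (fun _ : V d => site 1 d) x).measure_preimage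
        (MeasurableSet.of_discrete (s := has {u, v})).nullMeasurableSet
    have e2 : site 1 d (has {u, v}) = 0 := by
      rw [site, uniformOn_eq_zero_iff (toFinite _), eq_empty_iff_forall_notMem]
      rintro f ⟨h1, h2⟩
      have h3 : ({u, v} : Finset (Dir d)) ⊆ Finset.univ.filter fun u => f u = true :=
        fun t ht => by simpa using h2 t ht
      have := Finset.card_le_card h3
      rw [Finset.card_pair huv, h1] at this
      omega
    rw [measureReal_def, e, e2]; simp [rr]
  · rw [law_loc hk _ _ (by rw [Finset.card_pair huv]; exact h2), Finset.card_pair huv,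
      qq_two hk h2, rr]

def saw (ω : Om d) : ℕ → Set (V d) → V d → Dir d → Prop
  | 0, _, _, _ => True
  | D + 1, S, x, u => ∃ v, step x v ∈ S \ {x} ∧ ω ∈ loc x {u, v} ∧
      saw ω D (S \ {x}) (step x v) (rev v)

lemma saw_eq (D : ℕ) (S : Set (V d)) (x : V d) (u : Dir d) : {ω | saw ω (D + 1) S x u} =
    ⋃ v, ⋃ (_ : step x v ∈ S \ {x}), loc x {u, v} ∩ {ω | saw ω D (S \ {x}) (step x v) (rev v)} := by
  ext ω; simp only [saw, mem_ofPred_eq, mem_iUnion, mem_inter_iff, exists_prop]

lemma saw_meas (D : ℕ) : ∀ (S : Set (V d)) (x : V d) (u : Dir d),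
    MeasurableSet {ω | saw ω D S x u} := by
  induction D with
  | zero => intro S x u; exact MeasurableSet.univ
  | succ D ih =>
    intro S x u
    rw [saw_eq]
    exact .iUnion fun y => .iUnion fun _ => (loc_meas _ _).inter (ih _ _ _)

lemma saw_dep {ω ω' : Om d} (D : ℕ) : ∀ (S : Set (V d)) (x : V d) (u : Dir d), x ∈ S →
    (∀ e ∈ S, ω e = ω' e) → saw ω D S x u → saw ω' D S x u := by
  induction D with
  | zero => intro S x u _ _ _; trivial
  | succ D ih =>
    rintro S x u hx h ⟨v, h1, h2, h3⟩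
    refine ⟨v, h1, ?_, ih _ _ _ h1 (fun e he => h e he.1) h3⟩
    show ω' x ∈ has _
    rw [← h x hx]; exact h2

lemma saw_prob (hk : k ≤ 2 * d) (h2 : 1 ≤ k) (D : ℕ) : ∀ (S : Set (V d)) (x : V d) (u : Dir d),
    x ∈ S → step x u ∉ S → (law k d).real {ω | saw ω D S x u} ≤ (2 * d * rr k d) ^ D := by
  classical
  have := law_prob hk
  induction D with
  | zero => intro S x u _ _; rw [pow_zero]; exact measureReal_le_one
  | succ D ih =>
    intro S x u hx hu
    rw [saw_eq]
    refine (measureReal_iUnion_fintype_le _).trans ?_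
    refine (Finset.sum_le_card_nsmul _ _ (rr k d * (2 * d * rr k d) ^ D) fun v _ => ?_).trans
      (le_of_eq ?_)
    · by_cases hv : step x v ∈ S \ {x}
      · have huv : u ≠ v := fun e => hu (e ▸ hv.1)
        simp only [hv, iUnion_true]
        rw [law_indep hk (S := {x}) (T := S \ {x}) disjoint_sdiff_right (loc_meas _ _)
            (saw_meas _ _ _ _) (loc_dep _ _ rfl) (dep_of fun ω ω' h h1 => saw_dep D _ _ _ hv h h1),
          loc_two hk h2 _ huv]
        refine mul_le_mul_of_nonneg_left (ih _ _ _ hv ?_) (rr_nonneg hk h2)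
        rw [step_rev]; exact fun h => h.2 rfl
      · simp only [hv, iUnion_of_empty, measureReal_empty]
        have := rr_nonneg hk h2
        positivity
    · simp [pow_succ]; ring

def GG (ω : Om d) : SimpleGraph (V d) where
  Adj := edge ω
  symm := ⟨fun _ _ h => ⟨h.2, h.1⟩⟩
  loopless := ⟨fun a h => by obtain ⟨u, _, h⟩ := h.1; exact step_ne a u h.symm⟩

lemma adj_rev {ω : Om d} {x y : V d} (h : (GG ω).Adj x y) :
    ∃ v, y = step x v ∧ ω x v = true ∧ ω y (rev v) = true := by
  obtain ⟨⟨u, h1, h2⟩, v, h3, h4⟩ := h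
  refine ⟨u, h2, h1, ?_⟩
  rw [h2] at h4
  rw [← eq_rev h4]; exact h3

lemma path_saw {ω : Om d} {x y : V d} (w : (GG ω).Walk x y) : w.IsPath →
    ∀ (S : Set (V d)) (D : ℕ) (u : Dir d), (∀ v ∈ w.support, v ∈ S) → ω x u = true →
      D ≤ w.length → saw ω D S x u := by
  induction w with
  | nil => intro _ S D u _ _ h; obtain rfl : D = 0 := by simpa using h
           trivial
  | @cons a b c h w ih =>
    intro hp S D u hS hu hD
    cases D with
    | zero => trivial
    | succ D =>
      rw [SimpleGraph.Walk.cons_isPath_iff] at hp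
      have h2 : ∀ v ∈ w.support, v ∈ S \ {a} := fun v hv =>
        ⟨hS v (by simp [hv]), fun e => hp.2 (by rw [← show v = a from e]; exact hv)⟩
      obtain ⟨v, rfl, h3, h4⟩ := adj_rev h
      refine ⟨v, h2 _ w.start_mem_support, fun t ht => ?_,
        ih hp.1 _ _ _ h2 h4 (by simpa using hD)⟩
      rcases Finset.mem_insert.1 ht with rfl | ht
      · exact hu
      · rw [Finset.mem_singleton.1 ht]; exact h3

lemma walk_len {ω : Om d} {x y : V d} (w : (GG ω).Walk x y) (i : Fin d) :
    |x i - y i| ≤ w.length := by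
  induction w with
  | nil => simp
  | @cons a b c h w ih =>
    obtain ⟨v, rfl, -⟩ := adj_rev h
    have h1 : |a i - step a v i| ≤ 1 := by
      simp only [step, Pi.add_apply, sub_add_cancel_left, abs_neg]
      by_cases hi : i = v.1
      · subst hi; rw [Pi.single_eq_same]; split_ifs <;> simp
      · rw [Pi.single_eq_of_ne hi]; simp
    have h2 := abs_sub_le (a i) (step a v i) (c i)
    rw [SimpleGraph.Walk.length_cons]; push_cast; linarith

lemma inf_saw {ω : Om d} (h : {y | Relation.ReflTransGen (edge ω) 0 y}.Infinite) (D : ℕ) :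
    ∃ v, saw ω D (univ \ {0}) (step 0 v) (rev v) := by
  classical
  obtain ⟨y, hy, hy2⟩ := h.exists_notMem_finite
    (Set.finite_Icc (fun _ => -(D : ℤ)) (fun _ : Fin d => (D : ℤ)))
  obtain ⟨w⟩ := ((GG ω).reachable_iff_reflTransGen 0 y).2 hy
  obtain ⟨p, hp⟩ := w.toPath
  have hl : D + 1 ≤ p.length := by
    by_contra hc
    refine hy2 ⟨fun i => ?_, fun i => ?_⟩ <;>
    · have := abs_le.1 (walk_len p i)
      simp only [Pi.zero_apply] at this
      beta_reduce
      omega
  cases p with
  | nil => simp at hl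
  | cons h p =>
    rw [SimpleGraph.Walk.cons_isPath_iff] at hp
    obtain ⟨v, rfl, h3, h4⟩ := adj_rev h
    exact ⟨v, path_saw p hp.1 _ _ _ (fun t ht => ⟨trivial, fun e => hp.2 (by
      obtain rfl : t = 0 := e
      exact ht)⟩) h4 (by simpa using hl)⟩

theorem theta_zero (h2 : 1 ≤ k) (hk : k ^ 2 ≤ d) : theta k d = 0 := by
  have hk2 : k ≤ 2 * d := by nlinarith
  have := law_prob hk2
  have hr : 2 * d * rr k d ≤ 2⁻¹ := by
    have h1 : (k : ℝ) ^ 2 ≤ d := by exact_mod_cast hk
    have h3 : (1 : ℝ) ≤ k := by exact_mod_cast h2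
    have hd : (0 : ℝ) < d := by nlinarith
    rw [rr, ← mul_assoc, mul_div_cancel₀ _ (by positivity), ← mul_div_assoc,
      div_le_iff₀ (by nlinarith)]
    nlinarith
  rw [theta, ← measureReal_eq_zero_iff]
  refine le_antisymm ?_ measureReal_nonneg
  have h1 : Tendsto (fun D : ℕ => (2 * d : ℝ) * (2⁻¹ : ℝ) ^ D) atTop (𝓝 (2 * d * 0)) :=
    (tendsto_pow_atTop_nhds_zero_of_lt_one (by norm_num) (by norm_num)).const_mul _
  rw [mul_zero] at h1
  refine ge_of_tendsto' h1 fun D => ?_
  refine (measureReal_mono (s₂ := ⋃ v, {ω | saw ω D (univ \ {0}) (step 0 v) (rev v)})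
    fun ω hω => mem_iUnion.2 (inf_saw hω D)).trans ((measureReal_iUnion_fintype_le _).trans ?_)
  refine (Finset.sum_le_card_nsmul _ _ ((2⁻¹ : ℝ) ^ D) fun v _ => ?_).trans (le_of_eq ?_)
  · refine (saw_prob hk2 h2 D (univ \ {0}) _ _ ⟨trivial, step_ne 0 v⟩ ?_).trans (pow_le_pow_left₀ ?_ hr D)
    · rw [step_rev]; exact fun h => h.2 rfl
    · have := rr_nonneg hk2 h2
      positivity
  · simp; ring

end Pool.Agent.H44.BN
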