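import Pool.Agent.H44.BN1
import Pool.Agent.H44.BN2

open MeasureTheory ProbabilityTheory Set Filter Topology
open scoped ENNReal

namespace Pool.Agent.H44.BN

theorem paley {Ω ι : Type} [MeasurableSpace Ω] (μ : Measure Ω) [IsProbabilityMeasure μ] [Fintype ι]
    (E : ι → Set Ω) (hE : ∀ i, MeasurableSet (E i)) {m W : ℝ} (hm : 0 < m) (hW : 0 < W)
    (h1 : ∑ i, μ.real (E i) = m) (h2 : ∑ i, ∑ j, μ.real (E i ∩ E j) ≤ m ^ 2 * W) :
    1 / W ≤ μ.real (⋃ i, E i) := by
  have hU : MeasurableSet (⋃ i, E i) := MeasurableSet.iUnion hE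
  have ii : ∀ s : Set Ω, MeasurableSet s → Integrable (s.indicator (1 : Ω → ℝ)) μ := fun s hs =>
    (integrable_const (1 : ℝ)).indicator hs
  have i1 : Integrable (fun ω => ∑ i, (E i).indicator (1 : Ω → ℝ) ω) μ :=
    integrable_finsetSum _ fun i _ => ii _ (hE i)
  have i2 : ∀ i, Integrable (fun ω => ∑ j, (E i ∩ E j).indicator (1 : Ω → ℝ) ω) μ := fun i =>
    integrable_finsetSum _ fun j _ => ii _ ((hE i).inter (hE j))
  have i3 : Integrable (fun ω => ∑ i, ∑ j, (E i ∩ E j).indicator (1 : Ω → ℝ) ω) μ :=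
    integrable_finsetSum _ fun i _ => i2 i
  have i4 : Integrable (fun ω => 2 / (m * W) * ∑ i, (E i).indicator (1 : Ω → ℝ) ω -
      1 / (m * W) ^ 2 * ∑ i, ∑ j, (E i ∩ E j).indicator (1 : Ω → ℝ) ω) μ :=
    (i1.const_mul _).sub (i3.const_mul _)
  have h3 := integral_mono i4 (ii _ hU) fun ω => by
    have e1 : ∑ i, ∑ j, (E i ∩ E j).indicator (1 : Ω → ℝ) ω =
        (∑ i, (E i).indicator (1 : Ω → ℝ) ω) ^ 2 := by
      rw [sq, Finset.sum_mul_sum]
      exact Finset.sum_congr rfl fun i _ => Finset.sum_congr rfl fun j _ => by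
        rw [Set.inter_indicator_one]; rfl
    simp only [e1]
    by_cases hω : ω ∈ ⋃ i, E i
    · rw [Set.indicator_of_mem hω]
      set Z := ∑ i, (E i).indicator (1 : Ω → ℝ) ω
      have : 2 / (m * W) * Z - 1 / (m * W) ^ 2 * Z ^ 2 = 1 - (1 - Z / (m * W)) ^ 2 := by
        field_simp; ring
      rw [this, Pi.one_apply]
      nlinarith [sq_nonneg (1 - Z / (m * W))]
    · rw [Set.indicator_of_notMem hω]
      have : ∑ i, (E i).indicator (1 : Ω → ℝ) ω = 0 :=
        Finset.sum_eq_zero fun i _ => Set.indicator_of_notMem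
          (fun h => hω (Set.mem_iUnion.2 ⟨i, h⟩)) _
      rw [this]; simp
  rw [integral_sub (i1.const_mul _) (i3.const_mul _), integral_const_mul, integral_const_mul,
    integral_finsetSum _ fun i _ => ii _ (hE i), integral_finsetSum _ fun i _ => i2 i,
    integral_indicator_one hU] at h3
  have e2 : ∑ i, ∫ ω, ∑ j, (E i ∩ E j).indicator (1 : Ω → ℝ) ω ∂μ =
      ∑ i, ∑ j, μ.real (E i ∩ E j) := Finset.sum_congr rfl fun i _ => by
    rw [integral_finsetSum _ fun j _ => ii _ ((hE i).inter (hE j))]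
    exact Finset.sum_congr rfl fun j _ => integral_indicator_one ((hE i).inter (hE j))
  simp only [integral_indicator_one (hE _)] at h3
  rw [e2, h1] at h3
  have h4 := mul_le_mul_of_nonneg_left h2 (show 0 ≤ 1 / (m * W) ^ 2 by positivity)
  have e3 : 1 / (m * W) ^ 2 * (m ^ 2 * W) = 1 / W := by field_simp
  have e4 : 2 / (m * W) * m = 2 * (1 / W) := by field_simp
  linarith

variable {k d m : ℕ}

abbrev J (m : ℕ) := (Fin 4 → Bool) × Fin m

def lev (x : V d) : ℤ := ∑ i, x i

lemma lev_step (x : V d) (i : Fin d) : lev (step x (i, true)) = lev x + 1 := by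
  simp [lev, step, Finset.sum_add_distrib]

def TT (ι : J m ↪ Fin d) (a b : J m) : Finset (Dir d) := {(ι a, false), (ι b, true)}

def AA (ι : J m ↪ Fin d) : (n : ℕ) → (Fin n → J m) → V d → J m → Set (Om d)
  | 0, _, _, _ => univ
  | n + 1, s, x, a => loc x (TT ι a (s 0)) ∩ AA ι n (Fin.tail s) (step x (ι (s 0), true)) (s 0)

variable (ι : J m ↪ Fin d)

lemma AA_meas (n : ℕ) : ∀ s x a, MeasurableSet (AA ι n s x a) := by
  induction n with
  | zero => intro s x a; exact MeasurableSet.univ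
  | succ n ih => intro s x a; exact (loc_meas _ _).inter (ih _ _ _)

lemma AA_dep {ω ω' : Om d} (n : ℕ) : ∀ s x a, (∀ y ∈ {y | lev x ≤ lev y}, ω y = ω' y) →
    ω ∈ AA ι n s x a → ω' ∈ AA ι n s x a := by
  induction n with
  | zero => intro s x a _ _; trivial
  | succ n ih =>
    rintro s x a h ⟨h1, h2⟩
    refine ⟨?_, ih _ _ _ (fun y hy => h y ?_) h2⟩
    · show ω' x ∈ has _
      rw [← h x (le_refl (lev x))]; exact h1
    · have : lev (step x (ι (s 0), true)) ≤ lev y := hy
      rw [lev_step] at this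
      show lev x ≤ lev y
      omega

lemma sum_succ {n : ℕ} (F : J m → (Fin n → J m) → ℝ) :
    ∑ s : Fin (n + 1) → J m, F (s 0) (Fin.tail s) = ∑ b, ∑ s, F b s := by
  rw [← (Fin.consEquiv fun _ : Fin (n + 1) => J m).sum_comp, Fintype.sum_prod_type]
  simp [Fin.consEquiv]

lemma disj (c : ℤ) : Disjoint {y : V d | lev y = c} {y | c + 1 ≤ lev y} := by
  rw [Set.disjoint_left]
  intro y h1 h2
  simp only [mem_ofPred_eq] at h1 h2
  omega

lemma AA_prob (hk : k ≤ 2 * d) (h1 : 1 ≤ k) (n : ℕ) :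
    ∀ s x a, (law k d).real (AA ι n s x a) = rr k d ^ n := by
  have := law_prob hk
  induction n with
  | zero => intro s x a; simp [AA]
  | succ n ih =>
    intro s x a
    rw [AA, law_indep hk (disj (lev x)) (loc_meas _ _) (AA_meas ι _ _ _ _) (loc_dep _ _ rfl)
      (dep_of fun ω ω' h h2 => AA_dep ι n _ _ _ (by rwa [lev_step]) h2), ih, TT,
      loc_two hk h1 _ (by simp), pow_succ']

noncomputable def lam (k d : ℕ) : ℝ := (2 * d - 1) / (k - 1)

lemma lam_ge (hk : k ≤ 2 * d) (h4 : 4 ≤ k) : 1 ≤ lam k d := by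
  have a1 : (4 : ℝ) ≤ k := by exact_mod_cast h4
  have a2 : (k : ℝ) ≤ 2 * d := by exact_mod_cast hk
  rw [lam, le_div_iff₀ (by linarith)]; linarith

lemma qq_bounds (hk : k ≤ 2 * d) (h4 : 4 ≤ k) : qq k d 2 ≤ rr k d ^ 2 * lam k d * lam k d ∧
    qq k d 3 ≤ rr k d ^ 2 * lam k d ∧ qq k d 4 ≤ rr k d ^ 2 := by
  have a1 : (4 : ℝ) ≤ k := by exact_mod_cast h4
  have a2 : (k : ℝ) ≤ 2 * d := by exact_mod_cast hk
  have e2 : qq k d 2 = rr k d := qq_two hk (by omega)
  have e3 := qq_succ hk (j := 2) (by omega)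
  have e4 := qq_succ hk (j := 3) (by omega)
  have r0 := rr_nonneg hk (by omega : 1 ≤ k)
  push_cast at e3 e4
  rw [e2] at e3
  rw [e3] at e4
  set K : ℝ := (k : ℝ) with hK
  set N : ℝ := 2 * d with hN
  have mono : ∀ s t : ℝ, 0 ≤ s → s ≤ t → t ≤ 3 → (K - t) / (N - t) ≤ (K - s) / (N - s) := by
    intro s t h0 h1 h2
    rw [div_le_div_iff₀ (by linarith) (by linarith)]; nlinarith
  have e5 : rr k d * lam k d = K / N := by
    rw [rr, lam, ← hN, ← hK]
    have : K - 1 ≠ 0 := by linarith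
    have : N - 1 ≠ 0 := by linarith
    field_simp
  have m1 := mono 0 1 le_rfl (by norm_num) (by norm_num)
  have m2 := mono 0 2 le_rfl (by norm_num) (by norm_num)
  have m3 := mono 1 3 (by norm_num) (by norm_num) le_rfl
  rw [sub_zero, sub_zero] at m1 m2
  refine ⟨?_, ?_, ?_⟩
  · have h5 : 1 ≤ K / N * lam k d := by
      have h6 : (K - 1) / (N - 1) * lam k d = 1 := by
        rw [lam, ← hN, ← hK]
        have : K - 1 ≠ 0 := by linarith
        have : N - 1 ≠ 0 := by linarith
        field_simp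
      rw [← h6]
      exact mul_le_mul_of_nonneg_right m1 (by linarith [lam_ge hk h4])
    calc qq k d 2 = rr k d * 1 := by rw [e2, mul_one]
      _ ≤ rr k d * (K / N * lam k d) := mul_le_mul_of_nonneg_left h5 r0
      _ = _ := by rw [← e5]; ring
  · calc qq k d 3 ≤ rr k d * (K / N) := by rw [e3]; exact mul_le_mul_of_nonneg_left m2 r0
      _ = _ := by rw [← e5]; ring
  · rw [e4, mul_assoc, sq]
    refine mul_le_mul_of_nonneg_left ?_ r0
    rw [rr, ← hN]
    exact mul_le_mul m2 m3 (div_nonneg (by linarith) (by linarith)) (div_nonneg (by linarith) (by linarith))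

open Classical in
noncomputable def wt (k d : ℕ) (P : Prop) : ℝ := if P then lam k d else 1

lemma pair_prob (hk : k ≤ 2 * d) (h4 : 4 ≤ k) (x x' : V d) (a a' b b' : J m) :
    (law k d).real (loc x (TT ι a b) ∩ loc x' (TT ι a' b')) ≤
      rr k d ^ 2 * wt k d (x = x' ∧ a = a') * wt k d (x = x' ∧ b = b') := by
  classical
  by_cases hx : x = x'
  · subst hx
    have e : loc x (TT ι a b) ∩ loc x (TT ι a' b') = loc x (TT ι a b ∪ TT ι a' b') := by
      ext ω
      simp only [loc, has, mem_inter_iff, mem_ofPred_eq, Finset.mem_union]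
      exact ⟨fun h e he => he.elim (h.1 e) (h.2 e), fun h => ⟨fun e he => h e (Or.inl he),
        fun e he => h e (Or.inr he)⟩⟩
    obtain ⟨q2, q3, q4⟩ := qq_bounds hk h4
    have hc : (TT ι a b ∪ TT ι a' b').card = 2 + (if a = a' then 0 else 1) +
        (if b = b' then 0 else 1) := by
      have : TT ι a b ∪ TT ι a' b' = ({a, a'} : Finset (J m)).image (fun t => (ι t, false)) ∪
          ({b, b'} : Finset (J m)).image (fun t => (ι t, true)) := by
        ext t; simp only [TT, Finset.mem_union, Finset.mem_insert, Finset.mem_singleton,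
          Finset.image_insert, Finset.image_singleton]; tauto
      rw [this, Finset.card_union_of_disjoint (by simp [Finset.disjoint_left]),
        Finset.card_image_of_injective _ fun s t h => ι.injective (Prod.ext_iff.1 h).1,
        Finset.card_image_of_injective _ fun s t h => ι.injective (Prod.ext_iff.1 h).1]
      by_cases ha : a = a' <;> by_cases hb : b = b' <;> simp [ha, hb, Finset.card_pair]
    rw [e, law_loc hk _ _ (by rw [hc]; split_ifs <;> omega), hc]
    by_cases ha : a = a' <;> by_cases hb : b = b' <;> simp [ha, hb, wt] <;> assumption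
  · rw [law_indep hk (S := {x}) (T := {x'}) (by simpa using hx) (loc_meas _ _) (loc_meas _ _)
      (loc_dep _ _ rfl) (loc_dep _ _ rfl), TT, TT, loc_two hk (by omega) _ (by simp),
      loc_two hk (by omega) _ (by simp)]
    simp [wt, hx, sq]

def pr (x : V d) : Fin 4 → ℤ := fun r => ∑ b : J m, bit (b.1 r) * x (ι b)

lemma pr_step (x : V d) (b : J m) (r : Fin 4) :
    pr ι (step x (ι b, true)) r = pr ι x r + bit (b.1 r) := by
  classical
  simp only [pr, step, Pi.add_apply, mul_add, Finset.sum_add_distrib, if_true]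
  congr 1
  rw [Finset.sum_eq_single b]
  · simp
  · intro c _ hc
    rw [Pi.single_eq_of_ne fun h => hc (ι.injective h), mul_zero]
  · simp

lemma sumJ (n : ℕ) (z : Fin 4 → ℤ) :
    ∑ b : J m, ∑ b' : J m, g n (fun r => z r + bit (b.1 r) - bit (b'.1 r)) =
      (16 * (m : ℝ)) ^ 2 * (g (n + 1) z - a 0 z) := by
  simp only [Fintype.sum_prod_type, Finset.sum_const, Finset.card_univ, Fintype.card_fin,
    nsmul_eq_mul, ← Finset.mul_sum, g_succ]
  ring

lemma second (hk : k ≤ 2 * d) (h4 : 4 ≤ k) (hl : 3 * lam k d ^ 2 ≤ 16 * m) (n : ℕ) :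
    ∀ (x x' : V d) (a a' : J m), lev x = lev x' →
      ∑ s, ∑ s', (law k d).real (AA ι n s x a ∩ AA ι n s' x' a') ≤
        ((16 * m * rr k d) ^ n) ^ 2 * (wt k d (x = x' ∧ a = a') * (1 + g n (pr ι x - pr ι x'))) := by
  classical
  have := law_prob hk
  have l1 := lam_ge hk h4
  have w1 : ∀ P, 1 ≤ wt k d P := fun P => by unfold wt; split_ifs <;> linarith
  induction n with
  | zero =>
    intro x x' a a' _
    simpa [AA, g] using w1 _
  | succ n ih =>
    intro x x' a a' hx
    set c := ((16 * m * rr k d) ^ n) ^ 2 with hc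
    set z := pr ι x - pr ι x' with hz
    set P : J m → (Fin n → J m) → J m → (Fin n → J m) → ℝ := fun b s b' s' =>
      (law k d).real (loc x (TT ι a b) ∩ loc x' (TT ι a' b')) *
        (law k d).real (AA ι n s (step x (ι b, true)) b ∩ AA ι n s' (step x' (ι b', true)) b')
      with hP
    have e1 : ∀ s s' : Fin (n + 1) → J m,
        (law k d).real (AA ι (n + 1) s x a ∩ AA ι (n + 1) s' x' a') =
          P (s 0) (Fin.tail s) (s' 0) (Fin.tail s') := by
      intro s s'
      rw [AA, AA, inter_inter_inter_comm]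
      refine law_indep hk (disj (lev x)) ((loc_meas _ _).inter (loc_meas _ _))
        ((AA_meas ι _ _ _ _).inter (AA_meas ι _ _ _ _)) (dep_of fun ω ω' h h2 => ⟨?_, ?_⟩)
        (dep_of fun ω ω' h h2 => ⟨AA_dep ι n _ _ _ (by rwa [lev_step]) h2.1,
          AA_dep ι n _ _ _ (by rwa [lev_step, ← hx]) h2.2⟩)
      · show ω' x ∈ has _
        rw [← h x rfl]; exact h2.1
      · show ω' x' ∈ has _
        rw [← h x' hx.symm]; exact h2.2
    have e2 : ∑ s, ∑ s', (law k d).real (AA ι (n + 1) s x a ∩ AA ι (n + 1) s' x' a') =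
        ∑ b, ∑ b', ∑ s, ∑ s', P b s b' s' := by
      simp only [e1]
      rw [sum_succ (fun b s => ∑ s' : Fin (n + 1) → J m, P b s (s' 0) (Fin.tail s'))]
      refine Finset.sum_congr rfl fun b _ => ?_
      exact (Finset.sum_congr rfl fun s _ => sum_succ (P b s)).trans Finset.sum_comm
    have h1 : ∀ b b', ∑ s, ∑ s', P b s b' s' ≤ rr k d ^ 2 * wt k d (x = x' ∧ a = a') * c *
        (1 + g n (fun r => z r + bit (b.1 r) - bit (b'.1 r)) +
          if b = b' then (if x = x' then 3 * lam k d ^ 2 else 0) else 0) := by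
      intro b b'
      simp only [hP, ← Finset.mul_sum]
      have h2 := ih (step x (ι b, true)) (step x' (ι b', true)) b b'
        (by rw [lev_step, lev_step, hx])
      have e3 : pr ι (step x (ι b, true)) - pr ι (step x' (ι b', true)) =
          fun r => z r + bit (b.1 r) - bit (b'.1 r) := by
        funext r; simp only [hz, Pi.sub_apply, pr_step]; ring
      have e4 : (step x (ι b, true) = step x' (ι b', true) ∧ b = b') = (x = x' ∧ b = b') := by
        refine propext ⟨fun h => ⟨?_, h.2⟩, fun h => ⟨by rw [h.1, h.2], h.2⟩⟩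
        have h3 := h.1
        rw [h.2] at h3
        exact add_right_cancel h3
      rw [e3, e4] at h2
      set G := g n (fun r => z r + bit (b.1 r) - bit (b'.1 r)) with hG
      have hG0 : 0 ≤ G := g_nonneg _ _
      have h3 := mul_le_mul (pair_prob ι hk h4 x x' a a' b b') h2
        (Finset.sum_nonneg fun _ _ => Finset.sum_nonneg fun _ _ => measureReal_nonneg)
        (mul_nonneg (mul_nonneg (sq_nonneg _) (by linarith [w1 (x = x' ∧ a = a')]))
          (by linarith [w1 (x = x' ∧ b = b')]))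
      have h5 : wt k d (x = x' ∧ b = b') * (wt k d (x = x' ∧ b = b') * (1 + G)) ≤
          1 + G + if b = b' then (if x = x' then 3 * lam k d ^ 2 else 0) else 0 := by
        by_cases hb : b = b'
        · by_cases hxx : x = x'
          · have h6 : G ≤ 2 := by
              rw [hG, hz, hxx, hb]
              simp only [sub_self, Pi.zero_apply, zero_add]
              exact g_le (r := 4) le_rfl n
            simp only [wt, hb, hxx, and_self, if_true]
            nlinarith [sq_nonneg (lam k d)]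
          · simp [wt, hxx]
        · simp [wt, hb]
      have h6 := mul_le_mul_of_nonneg_left h5 (show 0 ≤ rr k d ^ 2 * wt k d (x = x' ∧ a = a') * c
        from mul_nonneg (mul_nonneg (sq_nonneg _) (by linarith [w1 (x = x' ∧ a = a')])) (sq_nonneg _))
      linarith
    rw [e2]
    refine (Finset.sum_le_sum fun b _ => Finset.sum_le_sum fun b' _ => h1 b b').trans ?_
    simp only [← Finset.mul_sum, Finset.sum_add_distrib, sumJ, Finset.sum_ite_eq, Finset.mem_univ,
      if_true, Finset.sum_const, Finset.card_univ, Fintype.card_prod, Fintype.card_fun,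
      Fintype.card_bool, Fintype.card_fin, nsmul_eq_mul]
    have h7 : (16 * (m : ℝ)) * (if x = x' then 3 * lam k d ^ 2 else 0) ≤
        (16 * (m : ℝ)) ^ 2 * BN.a 0 z := by
      split_ifs with hxx
      · rw [hz, hxx, sub_self, a_zero_zero, mul_one, sq (16 * (m : ℝ))]
        exact mul_le_mul_of_nonneg_left hl (by positivity)
      · rw [mul_zero]; exact mul_nonneg (sq_nonneg _) (a_nonneg _ _)
    have h8 : 0 ≤ rr k d ^ 2 * wt k d (x = x' ∧ a = a') * c :=
      mul_nonneg (mul_nonneg (sq_nonneg _) (by linarith [w1 (x = x' ∧ a = a')])) (sq_nonneg _)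
    calc _ ≤ rr k d ^ 2 * wt k d (x = x' ∧ a = a') * c *
        ((16 * (m : ℝ)) ^ 2 * (1 + g (n + 1) z)) := by
          refine mul_le_mul_of_nonneg_left ?_ h8
          push_cast
          nlinarith
      _ = _ := by rw [hc]; ring

lemma AA_conn {ω : Om d} (n : ℕ) : ∀ s x a, ω ∈ AA ι (n + 1) s x a →
    ∃ y, Relation.ReflTransGen (edge ω) x y ∧ lev y = lev x + n := by
  induction n with
  | zero => intro s x a _; exact ⟨x, .refl, by simp⟩
  | succ n ih =>
    rintro s x a ⟨h1, h2⟩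
    obtain ⟨y, h3, h4⟩ := ih _ _ _ h2
    refine ⟨y, .head ⟨⟨_, h1 _ (by simp [TT]), rfl⟩, (ι (s 0), false), h2.1 _ (by simp [TT]),
      (step_rev x (ι (s 0), true)).symm⟩ h3, ?_⟩
    rw [h4, lev_step]; push_cast; ring

include ι in
theorem pos_of (hk : k ≤ 2 * d) (h4 : 4 ≤ k) (hl : 3 * lam k d ^ 2 ≤ 16 * m) : 0 < theta k d := by
  classical
  have := law_prob hk
  have l1 := lam_ge hk h4
  have hm : (0 : ℝ) < m := by nlinarith
  have a0 : J m := (fun _ => true, ⟨0, by exact_mod_cast hm⟩)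
  have r0 : 0 < rr k d := by
    have a1 : (4 : ℝ) ≤ k := by exact_mod_cast h4
    have a2 : (k : ℝ) ≤ 2 * d := by exact_mod_cast hk
    exact mul_pos (div_pos (by linarith) (by linarith)) (div_pos (by linarith) (by linarith))
  set U : ℕ → Set (Om d) := fun n => ⋃ s, AA ι n s 0 a0 with hU
  have hUm : ∀ n, MeasurableSet (U n) := fun n => .iUnion fun s => AA_meas ι _ _ _ _
  have h1 : ∀ n, 1 / (lam k d * 3) ≤ (law k d).real (U n) := by
    intro n
    refine paley _ _ (fun s => AA_meas ι n s 0 a0) (m := (16 * m * rr k d) ^ n) (by positivity)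
      (by positivity) ?_ ((second ι hk h4 hl n 0 0 a0 a0 rfl).trans ?_)
    · simp [AA_prob ι hk (by omega : 1 ≤ k), mul_pow]
    · refine mul_le_mul_of_nonneg_left ?_ (sq_nonneg _)
      rw [sub_self]
      simp only [wt, and_self, if_true]
      nlinarith [g_le (r := 4) le_rfl n]
  set B : ℕ → Set (Om d) := fun n => ⋃ j, U (n + j) with hB
  have hanti : Antitone B := antitone_nat_of_succ_le fun n ω hω => by
    obtain ⟨j, hj⟩ := mem_iUnion.1 hω
    exact mem_iUnion.2 ⟨j + 1, by rwa [show n + (j + 1) = n + 1 + j by ring]⟩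
  have h2 : ENNReal.ofReal (1 / (lam k d * 3)) ≤ law k d (⋂ n, B n) := by
    rw [hanti.measure_iInter (fun n => (MeasurableSet.iUnion fun j => hUm _).nullMeasurableSet)
      ⟨0, measure_ne_top _ _⟩]
    refine le_iInf fun n => le_trans ?_ (measure_mono (subset_iUnion (fun j => U (n + j)) 0))
    exact (ENNReal.ofReal_le_iff_le_toReal (measure_ne_top _ _)).2 (h1 _)
  refine lt_of_lt_of_le (ENNReal.ofReal_pos.2 (by positivity)) (h2.trans (measure_mono ?_))
  intro ω hω hfin
  obtain ⟨c, hc⟩ := (hfin.image lev).bddAbove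
  obtain ⟨j, hj⟩ := mem_iUnion.1 (mem_iInter.1 hω (c.toNat + 2))
  rw [show c.toNat + 2 + j = c.toNat + 1 + j + 1 by ring] at hj
  obtain ⟨s, hs⟩ := mem_iUnion.1 hj
  obtain ⟨y, h3, h5⟩ := AA_conn ι _ _ _ _ hs
  have h6 : lev y ≤ c := hc ⟨y, h3, rfl⟩
  have h7 : lev (0 : V d) = 0 := by simp [lev]
  rw [h7] at h5
  push_cast at h5
  omega

theorem theta_pos (hd : 16 ≤ d) (hk : k ≤ 2 * d) (h : 24 * d ≤ (k - 1) ^ 2) : 0 < theta k d := by
  have h4 : 4 ≤ k := by
    by_contra hc
    have : (k - 1) ^ 2 ≤ 2 ^ 2 := Nat.pow_le_pow_left (by omega) 2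
    omega
  obtain ⟨ι⟩ : Nonempty (J (d / 16) ↪ Fin d) := Function.Embedding.nonempty_of_card_le (by
    simp only [Fintype.card_prod, Fintype.card_fun, Fintype.card_bool, Fintype.card_fin]; omega)
  refine pos_of ι hk h4 ?_
  have a1 : (4 : ℝ) ≤ k := by exact_mod_cast h4
  have a2 : (24 : ℝ) * d ≤ (k - 1) ^ 2 := by
    have : ((24 * d : ℕ) : ℝ) ≤ ((k - 1) ^ 2 : ℕ) := by exact_mod_cast h
    rwa [Nat.cast_pow, Nat.cast_sub (by omega), Nat.cast_mul, Nat.cast_one, Nat.cast_ofNat] at this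
  have a3 : (d : ℝ) ≤ 32 * ((d / 16 : ℕ) : ℝ) := by exact_mod_cast (show d ≤ 32 * (d / 16) by omega)
  have a4 : (16 : ℝ) ≤ d := by exact_mod_cast hd
  rw [lam, div_pow, ← mul_div_assoc, div_le_iff₀ (by nlinarith)]
  nlinarith

theorem kc_bounds (hd : 16 ≤ d) : √(d : ℝ) < kc d ∧ (kc d : ℝ) ≤ 6 * √(d : ℝ) := by
  have a4 : (16 : ℝ) ≤ d := by exact_mod_cast hd
  have s4 : (4 : ℝ) ≤ √(d : ℝ) := Real.le_sqrt_of_sq_le (by linarith)
  have hs := Real.sq_sqrt (show (0 : ℝ) ≤ d by linarith)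
  have h1 : ((Nat.sqrt (25 * d) + 2 : ℕ) : ℝ) ≤ 6 * √(d : ℝ) := by
    have h2 : ((Nat.sqrt (25 * d) : ℝ)) ^ 2 ≤ 25 * d := by exact_mod_cast Nat.sqrt_le' (25 * d)
    have h3 : (Nat.sqrt (25 * d) : ℝ) ≤ 5 * √(d : ℝ) := abs_le_of_sq_le_sq' (by nlinarith)
      (by positivity) |>.2
    push_cast; linarith
  have h2 : Nat.sqrt (25 * d) + 2 ≤ 2 * d := by
    have : ((Nat.sqrt (25 * d) + 2 : ℕ) : ℝ) ≤ ((2 * d : ℕ) : ℝ) := by
      refine h1.trans ?_
      push_cast; nlinarith
    exact_mod_cast this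
  have hmem : Nat.sqrt (25 * d) + 2 ∈ {k | 1 ≤ k ∧ k ≤ 2 * d ∧ 0 < theta k d} := by
    refine ⟨by omega, h2, theta_pos hd h2 ?_⟩
    have := Nat.lt_succ_sqrt' (25 * d)
    rw [show Nat.sqrt (25 * d) + 2 - 1 = (Nat.sqrt (25 * d)).succ by omega]
    omega
  refine ⟨?_, le_trans (by exact_mod_cast Nat.sInf_le hmem) h1⟩
  obtain ⟨b1, -, b3⟩ := Nat.sInf_mem ⟨_, hmem⟩
  have h3 : d < kc d ^ 2 := by
    by_contra hc
    exact b3.ne' (theta_zero b1 (not_lt.1 hc))
  exact (Real.sqrt_lt' (by exact_mod_cast b1)).2 (by exact_mod_cast h3)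

end Pool.Agent.H44.BN
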