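import Mathlib

open MeasureTheory ProbabilityTheory
open scoped ENNReal

namespace Pool.Agent.H44.BN

/-- the neighbour of `x` in direction `u`: `x + e_i` for `u = (i, true)`, `x - e_i` for
`u = (i, false)` -/
def step {d : ℕ} (x : Fin d → ℤ) (u : Fin d × Bool) : Fin d → ℤ :=
  x + Pi.single u.1 (if u.2 then 1 else -1)

/-- a uniformly random set of exactly `k` of the `2 d` directions -/
noncomputable def site (k d : ℕ) : Measure (Fin d × Bool → Bool) :=
  uniformOn {f | (Finset.univ.filter fun u => f u = true).card = k}

/-- independent choices at all vertices -/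
noncomputable def law (k d : ℕ) : Measure ((Fin d → ℤ) → Fin d × Bool → Bool) :=
  Measure.infinitePi fun _ => site k d

/-- `x` chose its neighbour `y` and `y` chose `x` -/
def edge {d : ℕ} (ω : (Fin d → ℤ) → Fin d × Bool → Bool) (x y : Fin d → ℤ) : Prop :=
  (∃ u, ω x u = true ∧ y = step x u) ∧ ∃ v, ω y v = true ∧ x = step y v

/-- probability that the origin lies in an infinite component of the bidirectional graph -/
noncomputable def theta (k d : ℕ) : ℝ≥0∞ :=
  law k d {ω | {y | Relation.ReflTransGen (edge ω) 0 y}.Infinite}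

/-- the least `k ∈ {1, ..., 2d}` with percolation -/
noncomputable def kc (d : ℕ) : ℕ := sInf {k | 1 ≤ k ∧ k ≤ 2 * d ∧ 0 < theta k d}

end Pool.Agent.H44.BN
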