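import Mathlib

open Finset Matrix

namespace Pool.Agent.H44.BP

variable {X Y Z : Type} [Fintype X] [Fintype Y] [Fintype Z]

def St (M : Matrix X Y ℝ) : Prop := (∀ i j, 0 ≤ M i j) ∧ ∀ i, ∑ j, M i j = 1

omit [Fintype X] in
lemma St.mul {M : Matrix X Y ℝ} {N : Matrix Y Z ℝ} (hM : St M) (hN : St N) : St (M * N) :=
  ⟨fun i j => sum_nonneg fun _ _ => mul_nonneg (hM.1 _ _) (hN.1 _ _), fun i => by
    simp only [mul_apply]; rw [sum_comm]; simp only [← mul_sum, hN.2, mul_one, hM.2]⟩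

lemma St.pow [DecidableEq X] {M : Matrix X X ℝ} (hM : St M) (t : ℕ) : St (M ^ t) := by
  induction t with
  | zero => exact ⟨fun i j => by rw [pow_zero, one_apply]; split_ifs <;> norm_num,
      fun i => by simp [one_apply]⟩
  | succ t ih => rw [pow_succ]; exact ih.mul hM

lemma doeb {M : Matrix X X ℝ} (hM : St M) {m : X → ℝ} {δ : ℝ} (hm : δ * ∑ x, m x = δ)
    (h : ∀ x y, δ * m y ≤ M x y) {ν : X → ℝ} (hν : ∑ x, ν x = 0) :
    ∑ y, |(ν ᵥ* M) y| ≤ (1 - δ) * ∑ x, |ν x| ∧ ∑ y, (ν ᵥ* M) y = 0 := by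
  constructor
  · have : ∀ y, (ν ᵥ* M) y = ∑ x, ν x * (M x y - δ * m y) := fun y => by
      simp only [mul_sub, sum_sub_distrib, ← sum_mul, hν, zero_mul, sub_zero, vecMul, dotProduct]
    simp only [this]
    refine (sum_le_sum fun y _ => abs_sum_le_sum_abs _ _).trans ?_
    rw [sum_comm, mul_sum]
    refine sum_le_sum fun x _ => le_of_eq ?_
    simp only [abs_mul, abs_of_nonneg (sub_nonneg.2 (h x _)), ← mul_sum, sum_sub_distrib, hM.2, hm]
    ring
  · simp only [vecMul, dotProduct]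
    rw [sum_comm]; simp only [← mul_sum, hM.2, mul_one, hν]

lemma mix [DecidableEq X] {P : Matrix X X ℝ} (hP : St P) {m : X → ℝ} {δ : ℝ} (h1 : δ ≤ 1)
    (hm : ∑ x, m x = 1) {T : ℕ} (h : ∀ x y, δ * m y ≤ (P ^ T) x y) (N : ℕ) :
    ∀ (t : ℕ) (ν : X → ℝ), ∑ x, ν x = 0 → T * N ≤ t →
      ∑ y, |(ν ᵥ* P ^ t) y| ≤ (1 - δ) ^ N * ∑ x, |ν x| := by
  induction N with
  | zero =>
    intro t ν hν _
    simpa using (doeb (hP.pow t) (m := 0) (δ := 0) (by simp) (fun x y => by
      simpa using (hP.pow t).1 x y) hν).1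
  | succ N ih =>
    intro t ν hν ht
    obtain ⟨s, rfl⟩ : ∃ s, t = T + s := ⟨t - T, by rw [mul_add] at ht; omega⟩
    obtain ⟨a, b⟩ := doeb (hP.pow T) (by rw [hm, mul_one]) h hν
    rw [pow_add, ← vecMul_vecMul, pow_succ, mul_assoc]
    exact (ih s _ b (by rw [mul_add] at ht; omega)).trans
      (mul_le_mul_of_nonneg_left a (pow_nonneg (sub_nonneg.2 h1) _))

lemma geom {δ : ℝ} (h0 : 0 ≤ δ) (h1 : δ ≤ 1) (N : ℕ) : (1 - δ) ^ N * (1 + N * δ) ≤ 1 := by
  have a := one_add_mul_le_pow (a := δ) (by linarith) N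
  refine (mul_le_mul_of_nonneg_left a (pow_nonneg (sub_nonneg.2 h1) _)).trans ?_
  rw [← mul_pow]
  exact pow_le_one₀ (by nlinarith) (by nlinarith)

lemma lyap [DecidableEq X] {Q : Matrix X X ℝ} (hQ : St Q) (good : X → Prop) [DecidablePred good]
    (W : X → ℝ) {c r ε : ℝ} (r0 : 0 ≤ r) (r1 : r ≤ 1) (e0 : 0 ≤ ε) (W0 : ∀ x, 0 ≤ W x)
    (W1 : ∀ x, W x ≤ c) (h1 : ∀ x, good x → (Q *ᵥ W) x ≤ r * W x + ε)
    (h2 : ∀ x, good x → (Q *ᵥ fun y => if good y then 0 else c) x ≤ ε) (t : ℕ) :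
    ∀ x, good x → ((Q ^ t) *ᵥ W) x ≤ r ^ t * W x + t * (2 * ε) := by
  induction t with
  | zero => intro x _; simp
  | succ t ih =>
    intro x hx
    have a : ∀ y, ((Q ^ t) *ᵥ W) y ≤ r ^ t * W y + t * (2 * ε) + if good y then 0 else c := by
      intro y
      split_ifs with b
      · simpa using ih y b
      · have : ((Q ^ t) *ᵥ W) y ≤ c := by
          refine (sum_le_sum fun z _ => mul_le_mul_of_nonneg_left (W1 z)
            ((hQ.pow t).1 y z)).trans ?_
          rw [← sum_mul, (hQ.pow t).2, one_mul]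
        have := W0 y
        have : 0 ≤ r ^ t * W y + t * (2 * ε) := by positivity
        linarith
    rw [pow_succ', ← mulVec_mulVec]
    refine (sum_le_sum fun y _ => mul_le_mul_of_nonneg_left (a y) (hQ.1 x y)).trans ?_
    have b1 := h1 x hx
    have b2 := h2 x hx
    simp only [mulVec, dotProduct] at b1 b2
    simp only [mul_add, sum_add_distrib, ← sum_mul, hQ.2, mul_left_comm _ (r ^ t), ← mul_sum]
    have b3 : r ^ t ≤ 1 := pow_le_one₀ r0 r1
    have b4 := mul_le_mul_of_nonneg_left b1 (pow_nonneg r0 t)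
    push_cast
    rw [pow_succ]
    nlinarith

open Classical

variable (R : Y → X → Prop)

noncomputable def stab (x : X) : Finset Y := univ.filter fun y => R y x
noncomputable def fix (y : Y) : Finset X := univ.filter fun x => R y x
noncomputable def AA : Matrix X Y ℝ := fun x y => if R y x then 1 / (stab R x).card else 0
noncomputable def BB : Matrix Y X ℝ := fun y x => if R y x then 1 / (fix R y).card else 0

omit [Fintype X] in
lemma AA_st (h : ∀ x, ∃ y, R y x) : St (AA R) :=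
  ⟨fun x y => by unfold AA; positivity, fun x => by
    have : (stab R x).card ≠ 0 := card_ne_zero.2 ((h x).imp fun y c => mem_filter.2 ⟨mem_univ _, c⟩)
    simp only [AA, ← sum_filter, sum_const, nsmul_eq_mul]
    exact mul_one_div_cancel (Nat.cast_ne_zero.2 this)⟩

omit [Fintype Y] in
lemma BB_st (h : ∀ y, ∃ x, R y x) : St (BB R) :=
  ⟨fun x y => by unfold BB; positivity, fun y => by
    have : (fix R y).card ≠ 0 := card_ne_zero.2 ((h y).imp fun y c => mem_filter.2 ⟨mem_univ _, c⟩)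
    simp only [BB, ← sum_filter, sum_const, nsmul_eq_mul]
    exact mul_one_div_cancel (Nat.cast_ne_zero.2 this)⟩

lemma Qv (f : Y → ℝ) (y : Y) : ((BB R * AA R) *ᵥ f) y =
    (∑ x ∈ fix R y, (∑ z ∈ stab R x, f z) / (stab R x).card) / (fix R y).card := by
  rw [← mulVec_mulVec]
  simp only [mulVec, dotProduct, AA, BB, ite_mul, zero_mul, ← sum_filter, one_div,
    inv_mul_eq_div, ← sum_div]
  rfl

lemma stat (h : ∀ x, ∃ y, R y x) (h' : ∀ y, ∃ x, R y x) :
    (fun x => ((stab R x).card : ℝ)) ᵥ* (AA R * BB R) = fun x => ((stab R x).card : ℝ) := by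
  have a : (fun x => ((stab R x).card : ℝ)) ᵥ* AA R = fun y => ((fix R y).card : ℝ) := by
    ext y
    simp only [vecMul, dotProduct, AA, mul_ite, mul_zero, ← sum_filter]
    rw [sum_congr rfl (g := fun _ => 1) fun x _ => mul_one_div_cancel (Nat.cast_ne_zero.2
      (card_ne_zero.2 ((h x).imp fun y c => mem_filter.2 ⟨mem_univ _, c⟩)))]
    simp [fix]
  rw [← vecMul_vecMul, a]
  ext x
  simp only [vecMul, dotProduct, BB, mul_ite, mul_zero, ← sum_filter]
  rw [sum_congr rfl (g := fun _ => 1) fun y _ => mul_one_div_cancel (Nat.cast_ne_zero.2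
    (card_ne_zero.2 ((h' y).imp fun y c => mem_filter.2 ⟨mem_univ _, c⟩)))]
  simp [stab]

lemma pow_swap [DecidableEq X] [DecidableEq Y] (A : Matrix X Y ℝ) (B : Matrix Y X ℝ) (t : ℕ) :
    (A * B) ^ (t + 1) = A * (B * A) ^ t * B := by
  induction t with
  | zero => simp
  | succ t ih => rw [pow_succ, ih, pow_succ]; simp only [Matrix.mul_assoc]

/-- abstract conclusion -/
lemma final [DecidableEq Y] (h : ∀ x, ∃ y, R y x) (h' : ∀ y, ∃ x, R y x) (o : Y) (T N : ℕ) (N0 : 1 ≤ N)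
    (H : ∀ x, 1 / (N : ℝ) ≤ (AA R * (BB R * AA R) ^ T) x o) (a : X) (μ : ℕ → X → ℝ)
    (m1 : μ 0 a = 1) (m2 : ∀ b, b ≠ a → μ 0 b = 0)
    (m3 : ∀ t, μ (t + 1) = μ t ᵥ* (AA R * BB R)) (t : ℕ) (ht : (T + 1) * (3 * N) ≤ t) :
    (1 / 2 : ℝ) * ∑ b, |μ t b - (stab R b).card / ∑ c, ((stab R c).card : ℝ)| ≤ 1 / 4 := by
  have sA := AA_st R h
  have sB := BB_st R h'
  set Z : ℝ := ∑ c, ((stab R c).card : ℝ)
  have Z0 : 0 < Z := sum_pos (fun x _ => Nat.cast_pos.2 (card_pos.2 ((h x).imp fun y c =>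
    mem_filter.2 ⟨mem_univ _, c⟩))) ⟨a, mem_univ _⟩
  have N1 : (1 : ℝ) ≤ N := by exact_mod_cast N0
  have e : ∀ t, (fun b => μ t b - (stab R b).card / Z) =
      (fun b => μ 0 b - (stab R b).card / Z) ᵥ* (AA R * BB R) ^ t := fun t => by
    induction t with
    | zero => simp
    | succ t ih =>
      rw [pow_succ, ← vecMul_vecMul, ← ih, m3]
      have := sub_vecMul (AA R * BB R) (μ t) (Z⁻¹ • fun x => ((stab R x).card : ℝ))
      rw [smul_vecMul, stat R h h'] at this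
      have e' : (fun b => μ t b - (stab R b).card / Z) =
          μ t - Z⁻¹ • fun x => ((stab R x).card : ℝ) := by ext; simp [inv_mul_eq_div]
      rw [e', this]; ext; simp [inv_mul_eq_div]
  have s1 : ∑ b, μ 0 b = 1 := by rw [sum_eq_single a (fun b _ c => m2 b c) (by simp), m1]
  have s2 : ∑ b, ((stab R b).card / Z : ℝ) = 1 := by rw [← sum_div, div_self Z0.ne']
  have s3 : ∑ b, |μ 0 b - (stab R b).card / Z| ≤ 2 := by
    refine (sum_le_sum (g := fun b => μ 0 b + (stab R b).card / Z) fun b _ => ?_).trans ?_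
    · have : 0 ≤ μ 0 b := by
        by_cases c : b = a
        · rw [c, m1]; norm_num
        · rw [m2 b c]
      have : 0 ≤ ((stab R b).card / Z : ℝ) := div_nonneg (Nat.cast_nonneg _) Z0.le
      rw [abs_le]; constructor <;> linarith
    · rw [sum_add_distrib, s1, s2]; norm_num
  have d1 : 1 / (N : ℝ) ≤ 1 := (div_le_one (by linarith)).2 N1
  have k := mix (sA.mul sB) (m := BB R o) d1 (sB.2 o) (T := T + 1) (fun x y => by
    rw [pow_swap, mul_apply]
    refine le_trans (mul_le_mul_of_nonneg_right (H x) (sB.1 _ _)) (single_le_sum (f := fun z =>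
      (AA R * (BB R * AA R) ^ T) x z * BB R z y) (fun z _ => mul_nonneg
        ((sA.mul ((sB.mul sA).pow T)).1 _ _) (sB.1 _ _)) (mem_univ o))) (3 * N) t
    (fun b => μ 0 b - (stab R b).card / Z) (by rw [sum_sub_distrib, s1, s2, sub_self]) ht
  rw [← e t] at k
  have g := geom (δ := 1 / N) (by positivity) d1 (3 * N)
  rw [show (1 : ℝ) + (3 * N : ℕ) * (1 / N) = 4 by push_cast; field_simp; norm_num] at g
  have := mul_le_mul_of_nonneg_left s3 (pow_nonneg (sub_nonneg.2 d1) (3 * N))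
  linarith

end Pool.Agent.H44.BP
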