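import Pool.Agent.H44.BP1

open Finset Equiv Classical

namespace Pool.Agent.H44.BP

variable {V : Type} [Fintype V]

def Inc (σ : Perm V) (γ : SimpleGraph V) : Prop := SimpleGraph.comap σ γ = γ

omit [Fintype V] in
lemma inc_iff {σ : Perm V} {γ : SimpleGraph V} :
    Inc σ γ ↔ ∀ u v, γ.Adj (σ u) (σ v) ↔ γ.Adj u v := by
  simp [Inc, SimpleGraph.ext_iff, funext_iff]

omit [Fintype V] in
lemma Inc.div {σ τ : Perm V} {γ : SimpleGraph V} (h : Inc σ γ) (h' : Inc τ γ) :
    Inc (σ⁻¹ * τ) γ := by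
  rw [inc_iff] at *
  intro u v
  rw [← h, ← h' u v]; simp

def tog (col : V → V → ℤ) (hs : ∀ u v, col u v = col v u) (c : ℤ) (α : SimpleGraph V) :
    SimpleGraph V where
  Adj u v := u ≠ v ∧ (α.Adj u v ↔ col u v ≠ c)
  symm := ⟨fun u v h => ⟨h.1.symm, by rw [hs, α.adj_comm]; exact h.2⟩⟩
  loopless := ⟨fun u h => h.1 rfl⟩

lemma rank (g : Perm V) (col : V → V → ℤ) (hs : ∀ u v, col u v = col v u)
    (hg : ∀ u v, col (g u) (g v) = col u v) {ε : Type} (x x' y y' : ε → V) (E : Finset ε)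
    (hx : ∀ e ∈ E, x e ≠ x' e)
    (inj : ∀ e ∈ E, ∀ e' ∈ E, col (x e) (x' e) = col (x e') (x' e') → e = e')
    (lt : ∀ e ∈ E, col (y e) (y' e) < col (x e) (x' e)) :
    ((fix Inc g).filter fun α => ∀ e ∈ E, α.Adj (x e) (x' e) ↔ α.Adj (y e) (y' e)).card *
      2 ^ E.card ≤ (fix Inc g).card := by
  induction E using induction_on_max_value fun e => col (x e) (x' e) with
  | empty => simp
  | insert a s ha hm ih =>
    refine le_trans ?_ (ih (fun e he => hx e (mem_insert_of_mem he)) (fun e he e' he' =>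
      inj e (mem_insert_of_mem he) e' (mem_insert_of_mem he')) fun e he =>
        lt e (mem_insert_of_mem he))
    rw [card_insert_of_notMem ha, pow_succ', ← mul_assoc]
    refine Nat.mul_le_mul_right _ ?_
    set S := (fix Inc g).filter fun α => ∀ e ∈ s, α.Adj (x e) (x' e) ↔ α.Adj (y e) (y' e)
    set S' := (fix Inc g).filter fun α => ∀ e ∈ insert a s, α.Adj (x e) (x' e) ↔ α.Adj (y e) (y' e)
    have h1 : S' ⊆ S := monotone_filter_right _ fun α _ h e he => h e (mem_insert_of_mem he)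
    have t1 : ∀ (α : SimpleGraph V) u v, col u v ≠ col (x a) (x' a) →
        ((tog col hs (col (x a) (x' a)) α).Adj u v ↔ α.Adj u v) := fun α u v h =>
      ⟨fun c => c.2.2 h, fun c => ⟨c.ne, fun _ => h, fun _ => c⟩⟩
    have h2 : S'.card ≤ (S \ S').card := by
      refine card_le_card_of_injOn (tog col hs (col (x a) (x' a))) (fun α hα => ?_)
        fun α _ β _ e => ?_
      · obtain ⟨a1, a2⟩ := mem_filter.1 hα
        have a3 := inc_iff.1 (mem_filter.1 a1).2
        refine mem_coe.2 (mem_sdiff.2 ⟨mem_filter.2 ⟨mem_filter.2 ⟨mem_univ _, inc_iff.2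
          fun u v => by simp [tog, a3, hg]⟩, fun e he => ?_⟩, fun c => ?_⟩)
        · rw [t1 _ _ _ fun c => ha (inj e (mem_insert_of_mem he) a (mem_insert_self _ _) c ▸ he),
            t1 _ _ _ ((lt e (mem_insert_of_mem he)).trans_le (hm e he)).ne]
          exact a2 e (mem_insert_of_mem he)
        · have b := (mem_filter.1 c).2 a (mem_insert_self _ _)
          rw [t1 _ _ _ (lt a (mem_insert_self _ _)).ne, ← a2 a (mem_insert_self _ _)] at b
          simp [tog, hx a (mem_insert_self _ _)] at b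
      · ext u v
        have := congrArg (fun γ : SimpleGraph V => γ.Adj u v) e
        by_cases c : u = v
        · simp [c]
        · simp only [tog, ne_eq, c, not_false_eq_true, true_and, eq_iff_iff] at this; tauto
    have := card_sdiff_add_card_eq_card h1
    omega

variable {ι : Type} [Fintype ι]

noncomputable def NN (g : Perm V) (X Y : ι → V) : ℕ :=
  ((fix Inc g).filter fun α => ∀ i j, α.Adj (X i) (X j) ↔ α.Adj (Y i) (Y j)).card

def Ag (col : V → V → ℤ) (X Y : ι → V) (i : ι) (T : Finset ι) : Prop :=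
  ∀ j, j ≠ i → j ∉ T → col (Y i) (Y j) = col (X i) (X j)

lemma tuple (g : Perm V) (col : V → V → ℤ) (hs : ∀ u v, col u v = col v u)
    (hg : ∀ u v, col (g u) (g v) = col u v) {q : ℕ} (hq : 4 * q ≤ Fintype.card ι) [Nonempty ι]
    (X : ι → V) (hX : Function.Injective X) (sid : ∀ i j i' j', i ≠ j →
      col (X i) (X j) = col (X i') (X j') → i = i' ∧ j = j' ∨ i = j' ∧ j = i') (Y : ι → V) :
    ∃ i T, Ag col X Y i T ∧ NN g X Y * 2 ^ (q * T.card) ≤ (fix Inc g).card := by
  obtain ⟨o, ho⟩ := exists_injective_nat ι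
  set T := fun i => univ.filter fun j => j ≠ i ∧ col (Y i) (Y j) ≠ col (X i) (X j)
  obtain ⟨i, -, hi⟩ := exists_min_image univ (fun i => (T i).card) univ_nonempty
  refine ⟨i, T i, fun j a b => by_contra fun c => b (mem_filter.2 ⟨mem_univ _, a, c⟩), ?_⟩
  obtain ⟨b, -, hb⟩ := exists_le_card_fiber_of_mul_le_card_of_maps_to (s := univ.sigma T)
    (t := univ) (f := fun p => (decide (o p.1 < o p.2),
      decide (col (Y p.1) (Y p.2) < col (X p.1) (X p.2)))) (n := q * (T i).card)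
    (fun _ _ => mem_univ _) univ_nonempty (by
      rw [card_sigma]
      refine le_trans ?_ (card_nsmul_le_sum _ _ _ hi)
      simp only [card_univ, Fintype.card_prod, Fintype.card_bool, smul_eq_mul]
      rw [← mul_assoc]; exact Nat.mul_le_mul_right _ hq)
  set E := (univ.sigma T).filter fun p => (decide (o p.1 < o p.2),
    decide (col (Y p.1) (Y p.2) < col (X p.1) (X p.2))) = b
  have e1 : ∀ e ∈ E, e.2 ≠ e.1 ∧ col (Y e.1) (Y e.2) ≠ col (X e.1) (X e.2) := fun e he =>
    (mem_filter.1 (mem_sigma.1 (mem_filter.1 he).1).2).2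
  have e2 : ∀ e ∈ E, X e.1 ≠ X e.2 := fun e he c => (e1 e he).1 (hX c).symm
  have e3 : ∀ e ∈ E, ∀ e' ∈ E, col (X e.1) (X e.2) = col (X e'.1) (X e'.2) → e = e' := by
    rintro ⟨a, b⟩ he ⟨a', b'⟩ he' c
    rcases sid _ _ _ _ (e1 _ he).1.symm c with ⟨rfl, rfl⟩ | ⟨rfl, rfl⟩
    · rfl
    · have := congrArg Prod.fst ((mem_filter.1 he).2.trans (mem_filter.1 he').2.symm)
      simp only [decide_eq_decide] at this
      have := ho.ne (e1 _ he).1
      simp only at this
      omega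
  refine le_trans (Nat.mul_le_mul_left _ (Nat.pow_le_pow_right two_pos hb)) ?_
  have e4 : ∀ e ∈ E, decide (col (Y e.1) (Y e.2) < col (X e.1) (X e.2)) = b.2 := fun e he =>
    congrArg Prod.snd (mem_filter.1 he).2
  clear_value E
  cases hb : b.2
  · exact le_trans (Nat.mul_le_mul_right _ (card_le_card fun α h => by
      simp only [mem_filter] at h ⊢; exact ⟨h.1, fun e _ => h.2 _ _⟩)) <| rank g (fun u v => -col u v) (fun u v => by rw [hs]) (fun u v => by rw [hg])
      (fun e : Σ _ : ι, ι => X e.1) (fun e => X e.2) (fun e => Y e.1) (fun e => Y e.2) E e2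
      (fun e he e' he' c => e3 e he e' he' (neg_inj.1 c)) fun e he => neg_lt_neg (lt_of_le_of_ne
        (not_lt.1 (of_decide_eq_false ((e4 e he).trans hb))) (e1 e he).2.symm)
  · exact le_trans (Nat.mul_le_mul_right _ (card_le_card fun α h => by
      simp only [mem_filter] at h ⊢; exact ⟨h.1, fun e _ => h.2 _ _⟩)) <| rank g col hs hg (fun e : Σ _ : ι, ι => X e.1) (fun e => X e.2) (fun e => Y e.1)
      (fun e => Y e.2) E e2 e3 fun e he => of_decide_eq_true ((e4 e he).trans hb)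

lemma cnt (col : V → V → ℤ) (X : ι → V) {ν : ℕ} (h1 : 1 ≤ ν) (hν : ∀ y i j, j ≠ i →
    (univ.filter fun z => col y z = col (X i) (X j)).card ≤ ν) (i : ι) (T : Finset ι) :
    (univ.filter fun Y => Ag col X Y i T).card ≤
      Fintype.card V * (ν ^ Fintype.card ι * Fintype.card V ^ T.card) := by
  refine (card_le_card (t := univ.biUnion fun y => Fintype.piFinset fun j => if j ∈ T then univ
    else if j = i then {y} else univ.filter fun z => col y z = col (X i) (X j)) fun Y hY =>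
      mem_biUnion.2 ⟨Y i, mem_univ _, Fintype.mem_piFinset.2 fun j => ?_⟩).trans
    (card_biUnion_le_card_mul _ _ _ fun y _ => ?_)
  · split_ifs with a b
    exacts [mem_univ _, by simp [b], mem_filter.2 ⟨mem_univ _, (mem_filter.1 hY).2 j b a⟩]
  · rw [Fintype.card_piFinset]
    refine (prod_le_prod' (g := fun j => ν * if j ∈ T then Fintype.card V else 1)
      fun j _ => ?_).trans (le_of_eq ?_)
    · split_ifs with a b
      exacts [Nat.le_mul_of_pos_left _ h1, by simpa using h1, by simpa using hν y i j b]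
    · rw [prod_mul_distrib]; simp

lemma sumN (g : Perm V) (col : V → V → ℤ) (hs : ∀ u v, col u v = col v u)
    (hg : ∀ u v, col (g u) (g v) = col u v) {q : ℕ} (hq : 4 * q ≤ Fintype.card ι) [Nonempty ι]
    (X : ι → V) (hX : Function.Injective X) (sid : ∀ i j i' j', i ≠ j →
      col (X i) (X j) = col (X i') (X j') → i = i' ∧ j = j' ∨ i = j' ∧ j = i')
    {ν : ℕ} (h1 : 1 ≤ ν) (hν : ∀ y i j, j ≠ i →
      (univ.filter fun z => col y z = col (X i) (X j)).card ≤ ν) (𝒴 : Finset (ι → V))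
    (𝒯 : Finset (Finset ι)) (h : ∀ Y ∈ 𝒴, ∀ i T, Ag col X Y i T → T ∈ 𝒯) :
    ∑ Y ∈ 𝒴, (NN g X Y : ℝ) ≤ Fintype.card ι * (Fintype.card V * ν ^ Fintype.card ι *
      (∑ T ∈ 𝒯, (Fintype.card V / 2 ^ q : ℝ) ^ T.card)) * (fix Inc g).card := by
  refine (sum_le_sum (g := fun Y => ∑ p ∈ univ ×ˢ 𝒯, if Ag col X Y p.1 p.2 then
    ((fix Inc g).card / 2 ^ (q * p.2.card) : ℝ) else 0) fun Y hY => ?_).trans
      ((sum_le_sum_of_subset_of_nonneg (subset_univ _) fun _ _ _ => by positivity).trans ?_)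
  · obtain ⟨i, T, a, b⟩ := tuple g col hs hg hq X hX sid Y
    refine le_trans ?_ (single_le_sum (a := (i, T)) (fun _ _ => by positivity)
      (mem_product.2 ⟨mem_univ _, h Y hY i T a⟩))
    rw [if_pos a, le_div_iff₀ (by positivity)]
    exact_mod_cast b
  · rw [sum_comm, sum_product, mul_assoc, ← nsmul_eq_mul, ← card_univ]
    refine sum_le_card_nsmul _ _ _ fun i _ => ?_
    rw [mul_sum, sum_mul]
    refine sum_le_sum fun T _ => ?_
    rw [← sum_filter, sum_const, nsmul_eq_mul]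
    refine (mul_le_mul_of_nonneg_right (Nat.cast_le.2 (cnt col X h1 hν i T))
      (by positivity)).trans (le_of_eq ?_)
    push_cast
    rw [div_pow, pow_mul, card_univ]; ring

lemma orb (α : SimpleGraph V) (X : ι → V) : (stab Inc α).card ≤
    ((stab Inc α).filter fun h : Perm V => h ∘ X = X).card * ((stab Inc α).image fun h : Perm V => h ∘ X).card := by
  refine card_le_mul_card_image _ _ fun Y hY => ?_
  obtain ⟨h, a, rfl⟩ := mem_image.1 hY
  refine card_le_card_of_injOn (h⁻¹ * ·) (fun σ b => ?_) (mul_right_injective _).injOn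
  obtain ⟨b, c⟩ := mem_filter.1 b
  refine mem_coe.2 (mem_filter.2 ⟨mem_filter.2 ⟨mem_univ _, (mem_filter.1 a).2.div
    (mem_filter.1 b).2⟩, funext fun i => ?_⟩)
  have : σ (X i) = h (X i) := congrFun c i
  simp [this]

lemma sum_img (g : Perm V) (X : ι → V) (𝒴 : Finset (ι → V)) :
    ∑ α ∈ fix Inc g, (((stab Inc α).image fun h : Perm V => h ∘ X) ∩ 𝒴).card ≤ ∑ Y ∈ 𝒴, NN g X Y := by
  simp only [NN, card_filter]
  rw [sum_comm]
  refine sum_le_sum fun α _ => ?_
  rw [← card_filter]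
  refine card_le_card fun Y hY => mem_filter.2 ⟨(mem_inter.1 hY).2, ?_⟩
  obtain ⟨h, a, rfl⟩ := mem_image.1 (mem_inter.1 hY).1
  exact fun i j => (inc_iff.1 (mem_filter.1 a).2 _ _).symm

lemma ex_col (g : Perm V) : ∃ col : V → V → ℤ, ∀ u v u' v', col u v = col u' v' ↔
    ∃ a : ℤ, (g ^ a) u = u' ∧ (g ^ a) v = v' ∨ (g ^ a) u = v' ∧ (g ^ a) v = u' := by
  let r : Setoid (V × V) := ⟨fun p q => ∃ a : ℤ, (g ^ a) p.1 = q.1 ∧ (g ^ a) p.2 = q.2 ∨
    (g ^ a) p.1 = q.2 ∧ (g ^ a) p.2 = q.1, fun p => ⟨0, by simp⟩, by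
      rintro p q ⟨a, ⟨h, h'⟩ | ⟨h, h'⟩⟩ <;> exact ⟨-a, by simp [← h, ← h']⟩, by
      rintro p q s ⟨a, ⟨h, h'⟩ | ⟨h, h'⟩⟩ ⟨b, ⟨k, k'⟩ | ⟨k, k'⟩⟩ <;>
        exact ⟨b + a, by simp [zpow_add, h, h', k, k']⟩⟩
  obtain ⟨f, hf⟩ := exists_injective_nat (Quotient r)
  exact ⟨fun u v => f ⟦(u, v)⟧, fun u v u' v' => by
    rw [Nat.cast_inj, hf.eq_iff, Quotient.eq]; rfl⟩

end Pool.Agent.H44.BP
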