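import Pool.Agent.H44.BP2

open Finset Equiv Classical

namespace Pool.Agent.H44.BP

variable {V : Type} [Fintype V]

lemma pool (g : Perm V) (b : ℕ) (h : b * b < Fintype.card V) : ∃ S : Finset V, b < S.card ∧
    ∃ l : ℕ, ∀ x ∈ S, ∀ a : ℤ, (g ^ a) x = x ↔ (l : ℤ) ∣ a := by
  have p : ∀ x (a : ℤ), (g ^ a) x = x ↔ (MulAction.period g x : ℤ) ∣ a := fun x a =>
    MulAction.zpow_smul_eq_iff_period_dvd (g := g) (a := x)
  by_contra c
  have c : ∀ l, (univ.filter fun x => MulAction.period g x = l).card ≤ b := fun l =>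
    not_lt.1 fun a => c ⟨_, a, l, fun x hx a => (mem_filter.1 hx).2 ▸ p x a⟩
  refine h.not_ge ((card_le_mul_card_image_of_maps_to (s := univ) (t := Icc 1 b)
    (f := MulAction.period g) (fun x _ => mem_Icc.2 ⟨MulAction.period_pos_of_orderOf_pos
      (orderOf_pos g) x, le_trans ?_ (c (MulAction.period g x))⟩) b fun l _ => c l).trans (by simp))
  refine (card_range _).ge.trans <| card_le_card_of_injOn (fun i : ℕ => (g ^ (i : ℤ)) x) (fun i _ => mem_coe.2 (mem_filter.2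
    ⟨mem_univ _, ?_⟩)) fun i hi j hj e => ?_
  · have : ∀ a : ℤ, (g ^ a) ((g ^ (i : ℤ)) x) = (g ^ (i : ℤ)) x ↔ (g ^ a) x = x := fun a => by
      rw [← Perm.mul_apply, zpow_mul_comm, Perm.mul_apply, (g ^ (i : ℤ)).injective.eq_iff]
    exact Nat.dvd_antisymm (Int.natCast_dvd_natCast.1 ((p _ _).1 ((this _).2 ((p _ _).2 dvd_rfl))))
      (Int.natCast_dvd_natCast.1 ((p _ _).1 ((this _).1 ((p _ _).2 dvd_rfl))))
  · have e : (g ^ (i : ℤ)) x = (g ^ (j : ℤ)) x := e
    have : (g ^ (-j + i : ℤ)) x = x := by simp [zpow_add, -zpow_natCast, e]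
    have := Int.eq_zero_of_abs_lt_dvd ((p _ _).1 this) (by
      have := mem_range.1 hi; have := mem_range.1 hj; rw [abs_lt]; omega)
    omega

section
variable {g : Perm V} {col : V → V → ℤ} (hc : ∀ u v u' v', col u v = col u' v' ↔
    ∃ a : ℤ, (g ^ a) u = u' ∧ (g ^ a) v = v' ∨ (g ^ a) u = v' ∧ (g ^ a) v = u')
include hc

omit [Fintype V] in
lemma col_symm (u v : V) : col u v = col v u := (hc _ _ _ _).2 ⟨0, by simp⟩

omit [Fintype V] in
lemma col_inv (u v : V) : col (g u) (g v) = col u v := ((hc _ _ _ _).2 ⟨1, by simp⟩).symm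

variable {S : Finset V} {l : ℕ} (hS : ∀ x ∈ S, ∀ a : ℤ, (g ^ a) x = x ↔ (l : ℤ) ∣ a)
include hS

lemma val2 {u v : V} (hu : u ∈ S) (hv : v ∈ S) (y : V) :
    (univ.filter fun z => col y z = col u v).card ≤ 2 := by
  have one : ∀ u ∈ S, ∀ v ∈ S, (univ.filter fun z => ∃ a : ℤ, (g ^ a) y = u ∧
      (g ^ a) z = v).card ≤ 1 := fun u hu v hv => card_le_one.2 fun z hz z' hz' => by
    obtain ⟨a, a1, a2⟩ := (mem_filter.1 hz).2
    obtain ⟨b, b1, b2⟩ := (mem_filter.1 hz').2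
    have c1 : (g ^ (b - a)) u = u := by
      conv_lhs => rw [← a1, ← Perm.mul_apply, ← zpow_add, sub_add_cancel, b1]
    have c2 := (hS v hv _).2 ((hS u hu _).1 c1)
    conv_lhs at c2 => rw [← a2, ← Perm.mul_apply, ← zpow_add, sub_add_cancel]
    exact (g ^ b).injective (c2.trans b2.symm)
  refine (card_le_card fun z hz => ?_).trans ((card_union_le _ _).trans
    (add_le_add (one u hu v hv) (one v hv u hu)))
  obtain ⟨a, h | h⟩ := (hc _ _ _ _).1 (mem_filter.1 hz).2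
  exacts [mem_union_left _ (mem_filter.2 ⟨mem_univ _, a, h⟩),
    mem_union_right _ (mem_filter.2 ⟨mem_univ _, a, h⟩)]

omit [Fintype V] in
lemma mid {u v : V} (hu : u ∈ S) (huv : u ≠ v) :
    (S.filter fun z => col z u = col z v).card ≤ 2 := by
  have P : ∀ z ∈ S.filter fun z => col z u = col z v, ∃ a : ℤ, (g ^ a) z = v ∧ (g ^ a) u = z := by
    intro z hz
    obtain ⟨a, ⟨h, h'⟩ | h⟩ := (hc _ _ _ _).1 (mem_filter.1 hz).2
    · exact absurd (((hS u hu a).2 ((hS z (mem_filter.1 hz).1 a).1 h)).symm.trans h') huv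
    · exact ⟨a, h⟩
  rcases (S.filter fun z => col z u = col z v).eq_empty_or_nonempty with e | ⟨w, hw⟩
  · simp [e]
  obtain ⟨b, b1, b2⟩ := P w hw
  refine (card_le_card (t := {w, (g ^ (l / 2 : ℤ)) w}) fun z hz => ?_).trans card_le_two
  obtain ⟨a, a1, a2⟩ := P z hz
  have c1 : (g ^ (-b + -b + (a + a))) u = u := by
    rw [zpow_add, zpow_add g a, Perm.mul_apply, Perm.mul_apply, a2, a1, ← b1, ← b2]
    simp [zpow_add]
  have c2 : z = (g ^ (a - b)) w := by
    rw [← b2, ← Perm.mul_apply, ← zpow_add, sub_add_cancel, a2]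
  obtain ⟨r, hr⟩ := (hS u hu _).1 c1
  have hw := hS w (mem_filter.1 hw).1
  rw [mem_insert, mem_singleton, c2]
  obtain ⟨t, rfl | rfl⟩ := Int.even_or_odd' r
  · exact Or.inl ((hw _).2 ⟨t, by linarith⟩)
  · right
    have : a - b = l / 2 + l * t := by
      rw [mul_add, mul_left_comm] at hr
      generalize (l : ℤ) * t = p at *
      omega
    rw [this, zpow_add, Perm.mul_apply, (hw _).2 (dvd_mul_right _ _)]

lemma sidon {k : ℕ} (hk : k + 2 * k ^ 2 + 2 * k ^ 3 < S.card) (m : ℕ) (hm : m ≤ k) :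
    ∃ s ⊆ S, s.card = m ∧ ∀ u ∈ s, ∀ v ∈ s, ∀ u' ∈ s, ∀ v' ∈ s, u ≠ v → col u v = col u' v' →
      u = u' ∧ v = v' ∨ u = v' ∧ v = u' := by
  induction m with
  | zero => exact ⟨∅, by simp, rfl, by simp⟩
  | succ m ih =>
    obtain ⟨s, h1, h2, h3⟩ := ih (by omega)
    have a1 : ((s ×ˢ s ×ˢ s).biUnion fun p => univ.filter fun z =>
        col p.1 z = col p.2.1 p.2.2).card ≤ m * (m * m) * 2 := (card_biUnion_le_card_mul _ _ 2
      fun p hp => val2 hc hS (h1 (mem_product.1 (mem_product.1 hp).2).1)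
        (h1 (mem_product.1 (mem_product.1 hp).2).2) _).trans (by simp [h2])
    have a2 : (s.offDiag.biUnion fun p => S.filter fun z => col z p.1 = col z p.2).card ≤
        m * m * 2 := (card_biUnion_le_card_mul _ _ 2 fun p hp => mid hc hS
          (h1 (mem_offDiag.1 hp).1) (mem_offDiag.1 hp).2.2).trans (by simp [offDiag_card, h2])
    obtain ⟨z, z1, z2⟩ := exists_mem_notMem_of_card_lt_card (t := S) (((card_union_le _ _).trans
      (add_le_add h2.le ((card_union_le _ _).trans (add_le_add a1 a2)))).trans_lt (by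
        have : m ≤ k := by omega
        have b1 := Nat.pow_le_pow_left this 2
        have b2 := Nat.pow_le_pow_left this 3
        nlinarith))
    simp only [mem_union, not_or, mem_biUnion, mem_filter, mem_product, mem_offDiag, mem_univ,
      true_and, not_exists, not_and, Prod.forall, and_imp] at z2
    obtain ⟨z2, F1, F2⟩ := z2
    refine ⟨insert z s, insert_subset z1 h1, by rw [card_insert_of_notMem z2, h2],
      fun u hu v hv u' hu' v' hv' e c => ?_⟩
    have D : u' ≠ v' := fun e' => by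
      obtain ⟨a, ⟨h, h'⟩ | ⟨h, h'⟩⟩ := (hc _ _ _ _).1 c <;>
        exact e ((g ^ a).injective (by rw [h, h', e']))
    have K : ∀ u ∈ insert z s, ∀ v ∈ insert z s, u ≠ v → u ∈ s ∧ v ∈ s ∨
        ∃ y ∈ s, (u = z ∧ v = y ∨ u = y ∧ v = z) ∧ col u v = col y z := fun u hu v hv e => by
      rcases mem_insert.1 hu with a | a <;> rcases mem_insert.1 hv with b | b
      exacts [absurd (a.trans b.symm) e, Or.inr ⟨v, b, Or.inl ⟨a, rfl⟩, a ▸ col_symm hc _ _⟩,
        Or.inr ⟨u, a, Or.inr ⟨rfl, b⟩, b ▸ rfl⟩, Or.inl ⟨a, b⟩]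
    rcases K u hu v hv e with ⟨b1, b2⟩ | ⟨y, b1, b2, b3⟩ <;>
      rcases K u' hu' v' hv' D with ⟨c1, c2⟩ | ⟨y', c1, c2, c3⟩
    · exact h3 u b1 v b2 u' c1 v' c2 e c
    · exact absurd (c3.symm.trans c.symm) (F1 y' u v c1 b1 b2)
    · exact absurd (b3.symm.trans c) (F1 y u' v' b1 c1 c2)
    · have : y = y' := by_contra fun e => F2 y y' b1 c1 e z1 (by
        rw [col_symm hc z, col_symm hc z, ← b3, ← c3, c])
      subst this
      rcases b2 with ⟨rfl, rfl⟩ | ⟨rfl, rfl⟩ <;> rcases c2 with ⟨rfl, rfl⟩ | ⟨rfl, rfl⟩ <;> simp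

end

lemma sum_pow {ι : Type} [Fintype ι] (ρ : ℝ) :
    ∑ T : Finset ι, ρ ^ T.card = (ρ + 1) ^ Fintype.card ι := by
  rw [← Fintype.sum_pow_mul_eq_add_pow]; simp

lemma pow_bd {ρ : ℝ} (h0 : 0 ≤ ρ) (m : ℕ) (h : 2 * m * ρ ≤ 1) : (ρ + 1) ^ m ≤ 1 + 2 * m * ρ := by
  induction m with
  | zero => simp
  | succ m ih =>
    push_cast at h ⊢
    have := mul_le_mul_of_nonneg_right (ih (by nlinarith)) (by linarith : 0 ≤ ρ + 1)
    rw [pow_succ]; nlinarith

lemma stab_pos (α : SimpleGraph V) : 0 < (stab Inc α).card :=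
  card_pos.2 ⟨1, mem_filter.2 ⟨mem_univ _, rfl⟩⟩

lemma fix_pos (g : Perm V) : 0 < (fix Inc g).card :=
  card_pos.2 ⟨⊥, mem_filter.2 ⟨mem_univ _, inc_iff.2 (by simp)⟩⟩

def Mv (α : SimpleGraph V) (x : V) : Prop := ∃ h ∈ stab Inc α, h x ≠ x

def Bad (g : Perm V) (α : SimpleGraph V) : Prop := ∃ x, g x = x ∧ Mv α x

noncomputable def QQ : Matrix (Perm V) (Perm V) ℝ :=
  BB (Inc (V := V)) * AA (Inc (V := V))

noncomputable def fp (g : Perm V) : Finset V := univ.filter fun x => g x = x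

lemma phase1 (g : Perm V) {q : ℕ} (q1 : 1 ≤ q) {b : ℕ}
    (hb : 4 * q + 2 * (4 * q) ^ 2 + 2 * (4 * q) ^ 3 ≤ b) (hn : b * b < Fintype.card V)
    (hρ : 2 * (4 * q : ℕ) * (Fintype.card V / 2 ^ q : ℝ) ≤ 1) :
    1 / (2 * (4 * q * Fintype.card V * 2 ^ (4 * q) : ℕ) : ℝ) ≤
      (QQ.mulVec fun h => if 4 * q ≤ (fp h).card then 1 else 0) g := by
  obtain ⟨col, hc⟩ := ex_col g
  obtain ⟨S, h1, l, hS⟩ := pool g b hn
  obtain ⟨s, s1, s2, s3⟩ := sidon hc hS (hb.trans_lt h1) _ le_rfl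
  have s4 : Fintype.card s = 4 * q := by simpa using s2
  have : Nonempty s := Fintype.card_pos_iff.1 (by omega)
  have h2 := sumN g col (col_symm hc) (col_inv hc) s4.ge (Subtype.val : s → V) Subtype.val_injective
    (fun i j i' j' e c => by
      simpa only [Subtype.ext_iff] using s3 i i.2 j j.2 i' i'.2 j' j'.2 (Subtype.coe_ne_coe.2 e) c)
    one_le_two (fun y i j _ => val2 hc hS (s1 i.2) (s1 j.2) y) univ univ fun _ _ _ _ _ => mem_univ _
  have h3 := (Nat.cast_le (α := ℝ)).2 (sum_img g (Subtype.val : s → V) univ)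
  rw [sum_pow, s4] at h2
  have h4 := pow_bd (ρ := Fintype.card V / 2 ^ q) (by positivity) _ hρ
  set M : ℝ := 2 * (4 * q * Fintype.card V * 2 ^ (4 * q) : ℕ) with hM
  have n0 : 0 < Fintype.card V := by omega
  have M0 : 0 < M := by positivity
  have J0 : (0 : ℝ) < (fix Inc g).card := Nat.cast_pos.2 (fix_pos g)
  simp only [inter_univ, Nat.cast_sum] at h3
  have h5 := h3.trans (h2.trans (mul_le_mul_of_nonneg_right (c := M) (by
    rw [hM]; push_cast
    have : (0 : ℝ) ≤ 4 * q * Fintype.card V * 2 ^ (4 * q) := by positivity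
    nlinarith [mul_le_mul_of_nonneg_left (h4.trans (by linarith : _ ≤ (2 : ℝ))) this]) J0.le))
  rw [QQ, Qv, le_div_iff₀ J0]
  refine le_trans ?_ (sum_le_sum (f := fun α => 2 / M - (((stab Inc α).image fun h : Perm V =>
    h ∘ (Subtype.val : s → V)).card : ℝ) / M ^ 2) fun α _ => ?_)
  · rw [sum_sub_distrib, sum_const, ← sum_div, nsmul_eq_mul]
    have := div_le_div_of_nonneg_right h5 (pow_pos M0 2).le
    rw [show M * (fix Inc g).card / M ^ 2 = 1 / M * (fix Inc g).card by field_simp] at this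
    rw [show (fix Inc g).card * (2 / M) = 2 * (1 / M * (fix Inc g).card) by ring]
    linarith
  · have a1 := (Nat.cast_le (α := ℝ)).2 (orb α (Subtype.val : s → V))
    have a2 : (0 : ℝ) < (stab Inc α).card := Nat.cast_pos.2 (stab_pos α)
    have a3 : (((stab Inc α).filter fun h : Perm V => h ∘ (Subtype.val : s → V) =
        Subtype.val).card : ℝ) ≤ ∑ h ∈ stab Inc α,
          if 4 * q ≤ (fp h).card then (1 : ℝ) else 0 := by
      rw [sum_boole]
      exact Nat.cast_le.2 (card_le_card (monotone_filter_right _ fun h _ e => s2.ge.trans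
        (card_le_card fun x hx => mem_filter.2 ⟨mem_univ _, congrFun e ⟨x, hx⟩⟩)))
    push_cast at a1
    refine le_trans ?_ (div_le_div_of_nonneg_right a3 a2.le)
    generalize (((stab Inc α).image fun h : Perm V => h ∘ (Subtype.val : s → V)).card : ℕ) = o at *
    generalize (((stab Inc α).filter fun h : Perm V => h ∘ (Subtype.val : s → V) =
        Subtype.val).card : ℕ) = f at *
    have o0 : (0 : ℝ) < o := by
      by_contra c
      have : (o : ℝ) = 0 := le_antisymm (not_lt.1 c) (Nat.cast_nonneg _)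
      rw [this, mul_zero] at a1; linarith
    have b1 : 2 / M - o / M ^ 2 ≤ 1 / o := by
      rw [← sub_nonneg, show 1 / o - (2 / M - o / M ^ 2) = (M - o) ^ 2 / (o * M ^ 2) by
        field_simp; ring]
      positivity
    exact b1.trans (by rw [div_le_div_iff₀ o0 a2]; linarith)

lemma phase2 (g : Perm V) {q : ℕ} (q1 : 1 ≤ q) (hg : 4 * q ≤ (fp g).card)
    (hρ : 2 * (4 * q : ℕ) * (Fintype.card V / 2 ^ q : ℝ) ≤ 1) :
    (((fix Inc g).filter (Bad g)).card : ℝ) ≤
      Fintype.card V * ((4 * q : ℕ) * (Fintype.card V * (2 * (4 * q : ℕ) *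
        (Fintype.card V / 2 ^ q))) * (fix Inc g).card) := by
  obtain ⟨col, hc⟩ := ex_col g
  have f : ∀ u v, g u = u → g v = v → ∀ u' v', col u v = col u' v' →
      u = u' ∧ v = v' ∨ u = v' ∧ v = u' := fun u v hu hv u' v' c => by
    obtain ⟨a, h⟩ := (hc _ _ _ _).1 c
    rwa [Perm.zpow_apply_eq_self_of_apply_eq_self hu,
      Perm.zpow_apply_eq_self_of_apply_eq_self hv] at h
  refine (Nat.cast_le.2 ((card_le_card (t := (fp g).biUnion fun x =>
    (fix Inc g).filter fun α => Mv α x) fun α hα => ?_).trans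
      card_biUnion_le)).trans ?_
  · obtain ⟨a, x, c, d⟩ := mem_filter.1 hα
    exact mem_biUnion.2 ⟨x, mem_filter.2 ⟨mem_univ _, c⟩, mem_filter.2 ⟨a, d⟩⟩
  rw [Nat.cast_sum]
  refine (sum_le_card_nsmul _ _ _ fun x hx => ?_).trans (by
    rw [nsmul_eq_mul]
    exact mul_le_mul_of_nonneg_right (Nat.cast_le.2 (card_le_univ _)) (by positivity))
  obtain ⟨s, s1, s2, s3⟩ := exists_subsuperset_card_eq (singleton_subset_iff.2 hx)
    (by simp; omega) hg
  have s4 : Fintype.card s = 4 * q := by simpa using s3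
  have s5 : ∀ i : s, g i = i := fun i => (mem_filter.1 (s2 i.2)).2
  have : Nonempty s := Fintype.card_pos_iff.1 (by omega)
  have h2 := sumN g col (col_symm hc) (col_inv hc) s4.ge (Subtype.val : s → V) Subtype.val_injective
    (fun i j i' j' _ c => by simpa only [Subtype.ext_iff] using f _ _ (s5 i) (s5 j) _ _ c)
    le_rfl (fun y i j e => card_le_one.2 fun z hz z' hz' => by
      have e := Subtype.coe_ne_coe.2 e
      rcases f _ _ (s5 i) (s5 j) _ _ (mem_filter.1 hz).2.symm with ⟨a, b⟩ | ⟨a, b⟩ <;>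
        rcases f _ _ (s5 i) (s5 j) _ _ (mem_filter.1 hz').2.symm with ⟨c, d⟩ | ⟨c, d⟩
      exacts [b.symm.trans d, absurd (d.trans a.symm) e, absurd (b.trans c.symm) e, a.symm.trans c])
    (univ.erase Subtype.val) (univ.erase ∅) fun Y hY i T c => mem_erase.2 ⟨fun e => by
      subst e
      have a := fun j b => f _ _ (s5 i) (s5 j) _ _ (c j b (notMem_empty _)).symm
      have b : (i : V) = Y i := by
        obtain ⟨j, a1, j', a2, a3⟩ := one_lt_card.1 (show 1 < (univ.erase i).card by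
          rw [card_erase_of_mem (mem_univ _), card_univ]; omega)
        rcases a j (mem_erase.1 a1).1 with h | h
        · exact h.1
        rcases a j' (mem_erase.1 a2).1 with h' | h'
        · exact h'.1
        · exact absurd (Subtype.ext (h.2.trans h'.2.symm)) a3
      refine (mem_erase.1 hY).1 (funext fun j => ?_)
      by_cases e : j = i
      · rw [e, ← b]
      · rcases a j e with h | h
        exacts [h.2.symm, absurd (Subtype.ext (h.2.trans b.symm)) e], mem_univ _⟩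
  have h3 := (Nat.cast_le (α := ℝ)).2 (sum_img g (Subtype.val : s → V) (univ.erase Subtype.val))
  rw [sum_erase_eq_sub (mem_univ ∅), sum_pow, s4] at h2
  have h4 := pow_bd (ρ := Fintype.card V / 2 ^ q) (by positivity) _ hρ
  rw [Nat.cast_sum (f := NN g _)] at h3
  refine le_trans (Nat.cast_le.2 ?_) (h3.trans (h2.trans ?_))
  · rw [card_filter]
    refine sum_le_sum fun α _ => ?_
    split_ifs with c
    · obtain ⟨h, a, b⟩ := c
      exact card_pos.2 ⟨_, mem_inter.2 ⟨mem_image_of_mem _ a, mem_erase.2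
        ⟨fun e => b (congrFun e ⟨x, s1 (mem_singleton_self x)⟩), mem_univ _⟩⟩⟩
    · exact Nat.zero_le _
  · simp only [Nat.cast_one, one_pow, mul_one, card_empty, pow_zero]
    gcongr
    linarith

lemma avg_bd (g : Perm V) (f : Perm V → ℝ) {a c η : ℝ} (c0 : 0 ≤ c)
    (h1 : ∀ α, ¬ Bad g α → (∑ h ∈ stab Inc α, f h) / (stab Inc α).card ≤ a)
    (h2 : ∀ h, f h ≤ a + c) (h3 : (((fix Inc g).filter (Bad g)).card : ℝ) ≤ η * (fix Inc g).card) :
    QQ.mulVec f g ≤ a + η * c := by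
  rw [QQ, Qv, div_le_iff₀ (Nat.cast_pos.2 (fix_pos g))]
  refine (sum_le_sum (g := fun α => a + (if Bad g α then 1 else 0) * c) fun α _ => ?_).trans ?_
  · split_ifs with b
    · rw [div_le_iff₀ (Nat.cast_pos.2 (stab_pos α)), one_mul, mul_comm, ← nsmul_eq_mul]
      exact sum_le_card_nsmul _ _ _ fun h _ => h2 h
    · simpa using h1 α b
  · rw [sum_add_distrib, ← sum_mul, sum_boole, sum_const, nsmul_eq_mul]
    nlinarith [mul_le_mul_of_nonneg_right h3 c0]

lemma QQ_st : St (QQ (V := V)) :=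
  (BB_st _ fun g => ⟨⊥, inc_iff.2 (by simp)⟩).mul (AA_st _ fun _ => ⟨1, rfl⟩)

lemma core {q : ℕ} (q1 : 1 ≤ q) {b : ℕ}
    (hb : 4 * q + 2 * (4 * q) ^ 2 + 2 * (4 * q) ^ 3 ≤ b) (hn : b * b < Fintype.card V)
    (hρ : 64 * Fintype.card V ^ 9 ≤ 2 ^ q) (α : SimpleGraph V) :
    1 / ((4 * (4 * q * Fintype.card V * 2 ^ (4 * q)) : ℕ) : ℝ) ≤
      (AA (Inc (V := V)) * QQ (V := V) ^ (4 * Fintype.card V ^ 3 + 1) : Matrix _ _ ℝ) α 1 := by
  set n := Fintype.card V with hn'
  have k1 : 4 * q ≤ n := by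
    have : 4 * q ≤ b := by omega
    nlinarith
  have n1 : (1 : ℝ) ≤ n := by exact_mod_cast (by omega : 1 ≤ n)
  have k2 : ((4 * q : ℕ) : ℝ) ≤ n := by exact_mod_cast k1
  have r1 : (n / 2 ^ q : ℝ) ≤ 1 / (64 * n ^ 8) := by
    rw [div_le_div_iff₀ (by positivity) (by positivity), one_mul, mul_left_comm, ← pow_succ']
    exact_mod_cast hρ
  have r2 : 2 * (4 * q : ℕ) * (n / 2 ^ q : ℝ) ≤ 1 := by
    refine le_trans (by gcongr : _ ≤ 2 * (n : ℝ) * (1 / (64 * n ^ 8))) ?_
    rw [mul_one_div, div_le_one (by positivity)]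
    have := le_self_pow₀ n1 (by norm_num : 8 ≠ 0)
    linarith
  have bad : ∀ g : Perm V, 4 * q ≤ (fp g).card → (((fix Inc g).filter (Bad g)).card : ℝ) ≤
      1 / (32 * n ^ 4) * (fix Inc g).card := fun g hg => (phase2 g q1 hg r2).trans (by
    refine le_trans (by gcongr : _ ≤ (n : ℝ) * (n * (n * (2 * n * (1 / (64 * n ^ 8)))) *
      (fix Inc g).card)) (le_of_eq ?_)
    field_simp; ring)
  have rig : ∀ g : Perm V, ∀ α, ¬ Bad g α → ∀ h ∈ stab Inc α, fp g ⊆ fp h := fun g α c h a x b =>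
    mem_filter.2 ⟨mem_univ _, by_contra fun d => c ⟨x, (mem_filter.1 b).2, h, a, d⟩⟩
  have W1 : ∀ g : Perm V, ((fp g)ᶜ.card : ℝ) ≤ n := fun g => Nat.cast_le.2 (card_le_univ _)
  have d1 : 1 / (n : ℝ) ^ 2 ≤ 1 := (div_le_one (by positivity)).2 (one_le_pow₀ n1)
  have L := lyap QQ_st (fun g : Perm V => 4 * q ≤ (fp g).card) (fun g => ((fp g)ᶜ.card : ℝ))
    (c := n) (r := 1 - 1 / n ^ 2) (ε := 1 / (32 * n ^ 4) * n) (sub_nonneg.2 d1)
    (sub_le_self _ (by positivity)) (by positivity) (fun _ => Nat.cast_nonneg _) W1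
    (fun g hg => avg_bd g _ (by positivity) (fun α c => by
      have a2 : (0 : ℝ) < (stab Inc α).card := Nat.cast_pos.2 (stab_pos α)
      rw [div_le_iff₀ a2]
      rcases (fp g)ᶜ.eq_empty_or_nonempty with e | ⟨x, hx⟩
      · rw [e, sum_eq_zero fun h a => by
          rw [show (fp h)ᶜ = ∅ from subset_empty.1 (e ▸ compl_subset_compl.2 (rig g α c h a))]
          simp]
        simp
      have a1 := (orb α fun _ : Unit => x).trans (Nat.mul_le_mul_left _ (card_le_univ _))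
      rw [Fintype.card_fun, Fintype.card_unit, pow_one] at a1
      have a1 := (Nat.cast_le (α := ℝ)).2 a1
      rw [Nat.cast_mul, ← sum_boole] at a1
      refine (sum_le_sum (g := fun h : Perm V => ((fp g)ᶜ.card : ℝ) -
        if h ∘ (fun _ : Unit => x) = fun _ => x then 1 else 0) fun h a => ?_).trans ?_
      · have b := compl_subset_compl.2 (rig g α c h a)
        split_ifs with d
        · have := card_lt_card ((Finset.ssubset_iff_of_subset b).2 ⟨x, hx, fun e =>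
            mem_compl.1 e (mem_filter.2 ⟨mem_univ _, congrFun d ()⟩ : x ∈ fp h)⟩)
          rw [le_sub_iff_add_le]; exact_mod_cast this
        · rw [sub_zero]; exact Nat.cast_le.2 (card_le_card b)
      · rw [sum_sub_distrib, sum_const, nsmul_eq_mul, sub_mul, sub_mul, one_mul, mul_comm]
        refine sub_le_sub_left ?_ _
        rw [one_div, inv_mul_eq_div, div_mul_eq_mul_div, div_le_iff₀ (by positivity), sq,
          mul_comm, ← mul_assoc]
        exact mul_le_mul a1 (W1 g) (by positivity) (a2.le.trans a1)) (fun h => by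
      have := W1 h
      have : 0 ≤ (1 - 1 / (n : ℝ) ^ 2) * (fp g)ᶜ.card := mul_nonneg (sub_nonneg.2 d1) (by positivity)
      linarith) (bad g hg))
    (fun g hg => (avg_bd g _ (a := 0) (c := n) (by positivity) (fun α c => by
      rw [sum_eq_zero fun h a => if_pos (hg.trans (card_le_card (rig g α c h a))), zero_div])
      (fun h => by split_ifs <;> simp) (bad g hg)).trans (by simp)) (4 * n ^ 3)
  have sT := QQ_st.pow (X := Perm V) (4 * n ^ 3)
  have G : ∀ g : Perm V, 4 * q ≤ (fp g).card → 1 / 2 ≤ (QQ ^ (4 * n ^ 3)) g 1 := fun g hg => by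
    have a1 := L g hg
    have a2 := geom (δ := 1 / n ^ 2) (by positivity) d1 (4 * n ^ 3)
    rw [show (1 : ℝ) + (4 * n ^ 3 : ℕ) * (1 / n ^ 2) = 1 + 4 * n by push_cast; field_simp] at a2
    rw [show ((4 * n ^ 3 : ℕ) : ℝ) * (2 * (1 / (32 * n ^ 4) * n)) = 1 / 4 by
      push_cast; field_simp; norm_num] at a1
    have a3 := pow_nonneg (sub_nonneg.2 d1) (4 * n ^ 3)
    have a4 := mul_le_mul_of_nonneg_left (W1 g) a3
    have a5 : ∑ h, (QQ ^ (4 * n ^ 3)) g h * (1 - if h = 1 then 1 else 0) ≤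
        ((QQ ^ (4 * n ^ 3)).mulVec fun g => ((fp g)ᶜ.card : ℝ)) g := by
      refine sum_le_sum fun h _ => mul_le_mul_of_nonneg_left ?_ (sT.1 _ _)
      split_ifs with c
      · simp
      · obtain ⟨x, hx⟩ := not_forall.1 fun e => c (Perm.ext e)
        rw [sub_zero]
        exact Nat.one_le_cast.2 (card_pos.2 ⟨x, mem_compl.2 fun e => hx (mem_filter.1 e).2⟩)
    simp only [mul_sub, sum_sub_distrib, mul_one, sT.2, mul_ite, mul_zero, sum_ite_eq',
      mem_univ, if_true] at a5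
    nlinarith
  have sA := AA_st (Inc (V := V)) fun _ => ⟨1, rfl⟩
  rw [Matrix.mul_apply]
  refine le_trans ?_ (sum_le_sum (f := fun g => AA Inc α g * (1 / ((4 * (4 * q * n *
    2 ^ (4 * q)) : ℕ) : ℝ))) fun g _ => mul_le_mul_of_nonneg_left ?_ (sA.1 _ _))
  · rw [← sum_mul, sA.2, one_mul]
  · rw [pow_succ', Matrix.mul_apply]
    refine le_trans (le_of_eq ?_) ((mul_le_mul_of_nonneg_right (phase1 g q1 hb hn r2)
      one_half_pos.le).trans ?_)
    · push_cast; ring
    · simp only [Matrix.mulVec, dotProduct, sum_mul, mul_assoc]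
      refine sum_le_sum fun h _ => mul_le_mul_of_nonneg_left ?_ (QQ_st.1 _ _)
      split_ifs with c
      · rw [one_mul]; exact G h c
      · rw [zero_mul]; exact sT.1 _ _

lemma big (L : ℕ) (h : 81 ≤ L) : 25 * (40 * L) ^ 6 ≤ 2 ^ (L - 1) := by
  induction L, h using Nat.le_induction with
  | base => norm_num
  | succ L h ih =>
    rw [show L + 1 - 1 = L - 1 + 1 by omega, pow_succ 2]
    have := Nat.pow_le_pow_left (by omega : 10 * (40 * (L + 1)) ≤ 11 * (40 * L)) 6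
    rw [mul_pow, mul_pow 11] at this
    omega

lemma num : ∃ m : ℕ, ∀ n, m ≤ n → ∃ q b : ℕ, 1 ≤ q ∧
    4 * q + 2 * (4 * q) ^ 2 + 2 * (4 * q) ^ 3 ≤ b ∧ b * b < n ∧ 64 * n ^ 9 ≤ 2 ^ q ∧
    (4 * n ^ 3 + 1 + 1) * (3 * (4 * (4 * q * n * 2 ^ (4 * q)))) ≤ 72 * 2 ^ 40 * (n + 1) ^ 45 := by
  refine ⟨2 ^ 80, fun n h => ?_⟩
  have h1 : 81 ≤ Nat.log 2 n + 1 := Nat.succ_le_succ (Nat.le_log_of_pow_le one_lt_two h)
  have h2 : 64 ≤ n := le_trans (by norm_num) h
  clear h
  have a1 : n < 2 ^ (Nat.log 2 n + 1) := Nat.lt_pow_succ_log_self one_lt_two n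
  have a2 : 2 ^ Nat.log 2 n ≤ n := Nat.pow_log_le_self 2 (by omega)
  have a3 := big _ h1
  generalize Nat.log 2 n = l at *
  rw [Nat.add_sub_cancel] at a3
  obtain ⟨k, hk⟩ : ∃ k, k = 4 * (10 * (l + 1)) := ⟨_, rfl⟩
  rw [show 40 * (l + 1) = k by omega] at a3
  have k2 : 2 ≤ k := by omega
  have b1 : k + 2 * k ^ 2 + 2 * k ^ 3 ≤ 4 * k ^ 3 := by
    have := Nat.le_self_pow (by norm_num : 2 ≠ 0) k
    have : k ^ 2 * 2 ≤ k ^ 3 := Nat.mul_le_mul_left (k ^ 2) k2
    omega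
  have b2 : 4 * k ^ 3 * (4 * k ^ 3) < n := by
    have : 0 < k ^ 6 := Nat.pow_pos (by omega)
    rw [show 4 * k ^ 3 * (4 * k ^ 3) = 16 * k ^ 6 by ring]; omega
  have b3 : k ≤ n := by
    have := Nat.le_self_pow (by norm_num : 3 ≠ 0) k
    have := Nat.le_mul_self (4 * k ^ 3)
    omega
  refine ⟨10 * (l + 1), 4 * k ^ 3, by omega, hk ▸ b1, b2, ?_, ?_⟩
  · rw [mul_comm 10, pow_mul]
    exact le_trans (by rw [pow_succ' n 9]; exact Nat.mul_le_mul_right _ h2)
      (Nat.pow_le_pow_left a1.le 10)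
  · have c1 : 2 ^ k ≤ 2 ^ 40 * (n + 1) ^ 40 := by
      rw [show k = (l + 1) * 40 by omega, pow_mul, ← mul_pow]
      exact Nat.pow_le_pow_left (by rw [pow_succ]; omega) _
    have c2 : 4 * n ^ 3 + 1 + 1 ≤ 6 * (n + 1) ^ 3 := by
      have : n ^ 3 ≤ (n + 1) ^ 3 := Nat.pow_le_pow_left n.le_succ 3
      have : 1 ≤ (n + 1) ^ 3 := Nat.one_le_pow 3 _ n.succ_pos
      omega
    rw [← hk]
    exact (Nat.mul_le_mul c2 (Nat.mul_le_mul_left _ (Nat.mul_le_mul_left _ (Nat.mul_le_mul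
      (Nat.mul_le_mul (b3.trans n.le_succ) n.le_succ) c1)))).trans (le_of_eq (by
        simp only [Nat.succ_eq_add_one]; ring))

lemma main : ∃ C K : ℕ, ∀ (V : Type) [Fintype V], ∃ T N : ℕ, 1 ≤ N ∧
    (T + 1) * (3 * N) ≤ C * (Fintype.card V + 1) ^ K ∧
    ∀ α, 1 / (N : ℝ) ≤ (AA (Inc (V := V)) * QQ (V := V) ^ T : Matrix _ _ ℝ) α 1 := by
  obtain ⟨m, hm⟩ := num
  refine ⟨3 * m.factorial + 72 * 2 ^ 40, 45, fun V _ => ?_⟩
  by_cases h : m ≤ Fintype.card V
  · obtain ⟨q, b, h1, h2, h3, h4, h5⟩ := hm _ h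
    exact ⟨_, _, Nat.mul_pos four_pos (Nat.mul_pos (Nat.mul_pos (by omega) (by omega))
      (Nat.two_pow_pos _)), h5.trans (Nat.mul_le_mul_right _ (Nat.le_add_left _ _)),
      core h1 h2 h3 h4⟩
  · refine ⟨0, (Fintype.card V).factorial, Nat.factorial_pos _, ?_, fun α => ?_⟩
    · have := Nat.factorial_le (not_le.1 h).le
      exact le_trans (by omega) (Nat.le_mul_of_pos_right _ (Nat.pow_pos (Nat.succ_pos _)))
    · rw [pow_zero, Matrix.mul_one, AA, if_pos (show Inc 1 α from rfl)]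
      refine one_div_le_one_div_of_le (Nat.cast_pos.2 (stab_pos α)) (Nat.cast_le.2 ?_)
      exact (card_le_univ _).trans Fintype.card_perm.le

end Pool.Agent.H44.BP
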