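import Pool.Agent.H44.BP3

open Finset Equiv Classical

namespace Pool.Agent.H44.BP

theorem thm : ∃ C k : ℕ, ∀ (V : Type) [Fintype V], ∀ α : SimpleGraph V,
    ∀ μ : ℕ → SimpleGraph V → ℝ, μ 0 α = 1 → (∀ β, β ≠ α → μ 0 β = 0) →
    (∀ t β, μ (t + 1) β = ∑ᶠ γ : SimpleGraph V, μ t γ * ∑ᶠ σ ∈ {σ | Inc σ γ ∧ Inc σ β},
      1 / ((({τ | Inc τ γ}).ncard : ℝ) * (({δ | Inc σ δ}).ncard : ℝ))) →
    ∀ t : ℕ, C * (Fintype.card V + 1) ^ k ≤ t → (1 / 2 : ℝ) * ∑ᶠ β : SimpleGraph V,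
      |μ t β - (({τ | Inc τ β}).ncard : ℝ) / ∑ᶠ γ : SimpleGraph V, (({τ | Inc τ γ}).ncard : ℝ)| ≤
        1 / 4 := by
  obtain ⟨C, K, h⟩ := main
  refine ⟨C, K, fun V _ α μ m1 m2 m3 t ht => ?_⟩
  obtain ⟨T, N, h1, h2, h3⟩ := h V
  have e1 : ∀ γ : SimpleGraph V, {τ | Inc τ γ}.ncard = (stab Inc γ).card := fun γ => by
    rw [← Set.ncard_coe_finset]; simp [stab]
  have e2 : ∀ σ : Perm V, {δ | Inc σ δ}.ncard = (fix Inc σ).card := fun γ => by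
    rw [← Set.ncard_coe_finset]; simp [fix]
  simp only [finsum_eq_sum_of_fintype, e1, e2] at m3 ⊢
  refine final Inc (fun _ => ⟨1, rfl⟩) (fun g => ⟨⊥, inc_iff.2 (by simp)⟩) 1 T N h1 h3 α μ m1 m2
    (fun t => funext fun β => ?_) t (h2.trans ht)
  rw [m3]
  refine sum_congr rfl fun γ _ => congrArg _ (sum_congr rfl fun σ _ => ?_)
  by_cases a : Inc σ γ <;> by_cases b : Inc σ β <;> simp [AA, BB, a, b, mul_comm]

end Pool.Agent.H44.BP
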