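import Pool.Agent.H44.CLDefs
import Pool.Agent.H44.Har

/-! Conditioning lemmas and the column-by-column estimate modulo `p`. -/

open Set Filter MeasureTheory Measure Submodule
open scoped ENNReal

namespace Pool.Agent.H44.CL
open Har

section cond
variable {ι X : Type} [Fintype ι] [MeasurableSpace X] (ν : Measure X) [IsProbabilityMeasure ν]

lemma cond_le {S : Set ι} {A E : Set (ι → X)} (hA : MeasurableSet A) (hE : MeasurableSet E)
    (dA : ∀ ω ω', mix S ω ω' ∈ A ↔ ω ∈ A) {c : ℝ} (hc : 0 ≤ c)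
    (h : ∀ ω ∈ A, (Measure.pi fun _ : ι => ν).real {ω' | mix S ω ω' ∈ E} ≤ c) :
    (Measure.pi fun _ : ι => ν).real (A ∩ E) ≤ c * (Measure.pi fun _ : ι => ν).real A := by
  have mp := mp_mix (fun _ : ι => ν) S
  rw [infinitePi_eq_pi] at mp
  set P := Measure.pi fun _ : ι => ν
  have : P (A ∩ E) ≤ ENNReal.ofReal c * P A := by
    rw [← mp.measure_preimage (hA.inter hE).nullMeasurableSet,
      Measure.prod_apply (measurable_mix S (hA.inter hE)), ← lintegral_indicator_const hA]
    refine lintegral_mono fun ω => ?_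
    by_cases hω : ω ∈ A
    · rw [indicator_of_mem hω]
      refine le_trans (measure_mono fun ω' h' => ?_)
        ((ENNReal.le_ofReal_iff_toReal_le (measure_ne_top _ _) hc).2 (h ω hω))
      exact h'.2
    · rw [indicator_of_notMem hω]
      refine le_of_eq (measure_mono_null (t := ∅) (fun ω' h' => ?_) measure_empty)
      exact hω ((dA ω ω').1 h'.1)
  have h2 := ENNReal.toReal_mono (ENNReal.mul_ne_top ENNReal.ofReal_ne_top (measure_ne_top _ _)) this
  rwa [ENNReal.toReal_mul, ENNReal.toReal_ofReal hc] at h2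

lemma cond_ge {S : Set ι} {A E : Set (ι → X)} (hA : MeasurableSet A) (hE : MeasurableSet E)
    (dA : ∀ ω ω', mix S ω ω' ∈ A ↔ ω ∈ A) {c : ℝ} (hc : c ≤ 1)
    (h : ∀ ω ∈ A, c ≤ (Measure.pi fun _ : ι => ν).real {ω' | mix S ω ω' ∈ E}) :
    c * (Measure.pi fun _ : ι => ν).real A ≤ (Measure.pi fun _ : ι => ν).real (A ∩ E) := by
  have := cond_le ν hA hE.compl dA (c := 1 - c) (by linarith) fun ω hω => by
    have h1 := h ω hω
    have : {ω' | mix S ω ω' ∈ Eᶜ} = {ω' | mix S ω ω' ∈ E}ᶜ := rfl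
    rw [this, probReal_compl_eq_one_sub (s := {ω' | mix S ω ω' ∈ E}) (mix_right S ω hE)]
    linarith
  have h2 := measureReal_inter_add_sdiff (μ := Measure.pi fun _ : ι => ν) (s := A) hE
  rw [Set.sdiff_eq] at h2
  linarith

end cond

variable {p : ℕ} [Fact p.Prime]

lemma cont_toZMod : Continuous (PadicInt.toZMod : ℤ_[p] → ZMod p) := by
  refine continuous_of_continuousAt_zero (PadicInt.toZMod : ℤ_[p] →+* ZMod p) ?_
  rw [ContinuousAt, nhds_discrete (ZMod p), map_zero, tendsto_pure]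
  filter_upwards [(IsLocalRing.isOpen_maximalIdeal ℤ_[p]).mem_nhds
    (IsLocalRing.maximalIdeal ℤ_[p]).zero_mem] with x hx
  rw [← PadicInt.ker_toZMod] at hx
  exact hx

variable {ι : Type} [Fintype ι] [DecidableEq ι]

/-- reduction modulo `p` -/
noncomputable def red : (ι → ℤ_[p]) →+ (ι → ZMod p) where
  toFun x i := PadicInt.toZMod (x i)
  map_zero' := by ext; simp
  map_add' x y := by ext; simp

/-- coordinate projection -/
noncomputable def mask (s : Finset ι) : (ι → ℤ_[p]) →ₗ[ℤ_[p]] (ι → ℤ_[p]) where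
  toFun x i := if i ∈ s then x i else 0
  map_add' x y := by ext i; by_cases h : i ∈ s <;> simp [h]
  map_smul' c x := by ext i; by_cases h : i ∈ s <;> simp [h]

omit [Fintype ι] [DecidableEq ι] in
lemma cont_red : Continuous (red : (ι → ℤ_[p]) → ι → ZMod p) :=
  continuous_pi fun i => cont_toZMod.comp (continuous_apply i)

lemma cont_mask (s : Finset ι) : Continuous (mask s : (ι → ℤ_[p]) → ι → ℤ_[p]) :=
  (mask s).continuous_on_pi

noncomputable def col (σ : ι → Finset ι) (ω : ι → ι → ℤ_[p]) (j : ι) : ι → ZMod p :=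
  red (mask (σ j) (ω j))

lemma cont_col (σ : ι → Finset ι) : Continuous (col σ : (ι → ι → ℤ_[p]) → ι → ι → ZMod p) :=
  continuous_pi fun j => cont_red.comp ((cont_mask _).comp (continuous_apply j))

def Ind (σ : ι → Finset ι) (S : Finset ι) : Set (ι → ι → ℤ_[p]) :=
  {ω | LinearIndepOn (ZMod p) (col σ ω) S}

def Good (σ : ι → Finset ι) (S : Finset ι) (j : ι) : Set (ι → ι → ℤ_[p]) :=
  {ω | ∀ y : ι → ZMod p, ∃ x : ι → ℤ_[p], y - red (mask (σ j) x) ∈ span (ZMod p) (col σ ω '' S)}

def InSp (σ : ι → Finset ι) (S : Finset ι) (j : ι) : Set (ι → ι → ℤ_[p]) :=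
  {ω | col σ ω j ∈ span (ZMod p) (col σ ω '' S)}

omit [Fintype ι] in
lemma col_mix {σ : ι → Finset ι} {S : Finset ι} (ω ω' : ι → ι → ℤ_[p]) :
    EqOn (col σ (mix S ω ω')) (col σ ω) S := fun j hj => by
  unfold col; rw [mix_mem _ _ hj]

omit [Fintype ι] in
lemma dep_Ind (σ : ι → Finset ι) (S : Finset ι) (ω ω' : ι → ι → ℤ_[p]) :
    mix S ω ω' ∈ Ind σ S ↔ ω ∈ Ind σ S :=
  linearIndepOn_congr (col_mix ω ω')

omit [Fintype ι] in
lemma dep_Good (σ : ι → Finset ι) (S : Finset ι) (j : ι) (ω ω' : ι → ι → ℤ_[p]) :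
    mix S ω ω' ∈ Good σ S j ↔ ω ∈ Good σ S j := by
  unfold Good
  simp only [mem_ofPred_eq, (col_mix ω ω').image_eq]

variable [MeasurableSpace ℤ_[p]] [BorelSpace ℤ_[p]]

lemma meas_col (σ : ι → Finset ι) (Φ : (ι → ι → ZMod p) → Prop) :
    MeasurableSet {ω : ι → ι → ℤ_[p] | Φ (col σ ω)} :=
  ((isOpen_discrete {z | Φ z}).preimage (cont_col σ)).measurableSet

lemma meas_Ind (σ : ι → Finset ι) (S : Finset ι) : MeasurableSet (Ind (p := p) σ S) :=
  meas_col σ fun z => LinearIndepOn (ZMod p) z S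

lemma meas_Good (σ : ι → Finset ι) (S : Finset ι) (j : ι) : MeasurableSet (Good (p := p) σ S j) :=
  meas_col σ fun z => ∀ y : ι → ZMod p, ∃ x : ι → ℤ_[p],
    y - red (mask (σ j) x) ∈ span (ZMod p) (z '' S)

lemma meas_InSp (σ : ι → Finset ι) (S : Finset ι) (j : ι) : MeasurableSet (InSp (p := p) σ S j) :=
  meas_col σ fun z => z j ∈ span (ZMod p) (z '' S)

variable (μ : Measure ℤ_[p]) [μ.IsAddHaarMeasure] [IsProbabilityMeasure μ]

omit [DecidableEq ι] in
lemma real_ker {Q : Type} [AddCommGroup Q] [Finite Q] (f : (ι → ℤ_[p]) →+ Q)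
    (hf : MeasurableSet (f.ker : Set (ι → ℤ_[p]))) :
    (Measure.pi fun _ : ι => μ).real f.ker = 1 / Nat.card f.range := by
  have : f.ker.FiniteIndex := AddSubgroup.finiteIndex_ker f
  have h := f.ker.index_mul_measure hf (Measure.pi fun _ : ι => μ)
  rw [AddSubgroup.index_ker, measure_univ] at h
  have h2 := congrArg ENNReal.toReal h
  rw [ENNReal.toReal_mul, ENNReal.toReal_natCast, ENNReal.toReal_one] at h2
  have : (0 : ℝ) < Nat.card f.range := by exact_mod_cast Nat.card_pos
  rw [eq_div_iff this.ne', mul_comm]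
  exact h2

lemma step {σ : ι → Finset ι} {S : Finset ι} {j : ι} (hj : j ∉ S) {ω : ι → ι → ℤ_[p]}
    (hω : ω ∈ Ind σ S) :
    ∃ r : ℕ, 0 < r ∧ (Measure.pi fun _ : ι => Measure.pi fun _ : ι => μ).real
      {ω' | mix S ω ω' ∈ InSp σ S j} = 1 / r ∧ r ≤ p ^ (Fintype.card ι - S.card) ∧
      (ω ∈ Good σ S j → r = p ^ (Fintype.card ι - S.card)) ∧
      (ω ∉ Good σ S j → 2 * r ≤ p ^ (Fintype.card ι - S.card)) := by
  set W := span (ZMod p) (col σ ω '' S) with hW
  let f : (ι → ℤ_[p]) →+ (ι → ZMod p) ⧸ W :=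
    W.mkQ.toAddMonoidHom.comp (red.comp (mask (σ j)).toAddMonoidHom)
  have hk : (f.ker : Set (ι → ℤ_[p])) = {x | red (mask (σ j) x) ∈ W} := by
    ext x; simp [f]
  have hm : MeasurableSet (f.ker : Set (ι → ℤ_[p])) := by
    rw [hk]
    exact ((isOpen_discrete (W : Set (ι → ZMod p))).preimage
      (cont_red.comp (cont_mask _))).measurableSet
  have hQ : Nat.card ((ι → ZMod p) ⧸ W) = p ^ (Fintype.card ι - S.card) := by
    rw [Module.natCard_eq_pow_finrank (K := ZMod p), Nat.card_zmod]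
    congr 1
    have h1 := W.finrank_quotient_add_finrank
    have h2 : Module.finrank (ZMod p) W = S.card := by
      rw [hW, image_eq_range, finrank_span_eq_card hω]
      simp
    rw [h2, Module.finrank_fintype_fun_eq_card] at h1
    omega
  have hG : ω ∈ Good σ S j ↔ f.range = ⊤ := by
    rw [AddMonoidHom.range_eq_top]
    refine ⟨fun h y => ?_, fun h y => ?_⟩
    · obtain ⟨y, rfl⟩ := W.mkQ_surjective y
      obtain ⟨x, hx⟩ := h y
      exact ⟨x, ((Submodule.Quotient.eq W).2 hx).symm⟩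
    · obtain ⟨x, hx⟩ := h (W.mkQ y)
      exact ⟨x, (Submodule.Quotient.eq W).1 hx.symm⟩
  have hdvd := f.range.card_addSubgroup_dvd_card
  refine ⟨Nat.card f.range, Nat.card_pos, ?_, ?_, fun h => ?_, fun h => ?_⟩
  · rw [← real_ker μ f hm, ← (measurePreserving_eval (fun _ : ι => Measure.pi fun _ : ι => μ)
      j).measureReal_preimage hm.nullMeasurableSet, hk]
    congr 1
    ext ω'
    simp only [InSp, mem_ofPred_eq, (col_mix ω ω').image_eq, mem_preimage, Function.eval]
    unfold col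
    rw [mix_not _ _ hj]
    rfl
  · rw [← hQ]; exact Nat.le_of_dvd Nat.card_pos hdvd
  · rw [hG.1 h, AddSubgroup.card_top, hQ]
  · rw [← hQ]
    obtain ⟨c, hc⟩ := hdvd
    have h1 : c ≠ 1 := fun h1 => h (hG.2 (AddSubgroup.eq_top_of_card_eq _ (by rw [hc, h1, mul_one])))
    have h0 : c ≠ 0 := fun h0 => by
      rw [h0, mul_zero] at hc
      exact Nat.card_pos.ne' hc
    rw [hc, mul_comm]
    exact Nat.mul_le_mul_left _ (by omega)

/-- `U p a = ∏_{i=1}^a (1 - p^{-i})` -/
noncomputable def U (p a : ℕ) : ℝ := ∏ i ∈ Finset.range a, (1 - ((p : ℝ)⁻¹) ^ (i + 1))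

omit [Fintype ι] [MeasurableSpace ℤ_[p]] [BorelSpace ℤ_[p]] in
lemma Ind_insert {σ : ι → Finset ι} {S : Finset ι} {j : ι} (hj : j ∉ S) :
    Ind (p := p) σ (insert j S) = Ind σ S \ InSp σ S j := by
  ext ω
  simp only [Ind, InSp, mem_ofPred_eq, Finset.coe_insert, Set.mem_sdiff]
  exact linearIndepOn_insert (by simpa using hj)

omit [MeasurableSpace ℤ_[p]] [BorelSpace ℤ_[p]] in
lemma two_le_p : (2 : ℝ) ≤ p := by exact_mod_cast (Fact.out : p.Prime).two_le

omit [MeasurableSpace ℤ_[p]] [BorelSpace ℤ_[p]] in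
lemma fac_pos (i : ℕ) : 0 < 1 - ((p : ℝ)⁻¹) ^ (i + 1) := by
  have := two_le_p (p := p)
  exact sub_pos.2 (pow_lt_one₀ (by positivity) (inv_lt_one_of_one_lt₀ (by linarith)) (by omega))

omit [MeasurableSpace ℤ_[p]] [BorelSpace ℤ_[p]] in
lemma U_pos (a : ℕ) : 0 < U p a := Finset.prod_pos fun i _ => fac_pos i

omit [MeasurableSpace ℤ_[p]] [BorelSpace ℤ_[p]] in
lemma U_le_one (a : ℕ) : U p a ≤ 1 :=
  Finset.prod_le_one (fun i _ => (fac_pos i).le) fun i _ => sub_le_self _ (by positivity)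

lemma step_le {σ : ι → Finset ι} {S : Finset ι} {j : ι} (hj : j ∉ S) :
    (Measure.pi fun _ : ι => Measure.pi fun _ : ι => μ).real (Ind σ (insert j S)) ≤
      (1 - ((p : ℝ)⁻¹) ^ (Fintype.card ι - S.card)) *
        (Measure.pi fun _ : ι => Measure.pi fun _ : ι => μ).real (Ind σ S) -
      ((p : ℝ)⁻¹) ^ (Fintype.card ι - S.card) *
        (Measure.pi fun _ : ι => Measure.pi fun _ : ι => μ).real (Ind σ S \ Good σ S j) := by
  set a := Fintype.card ι - S.card
  have hp := two_le_p (p := p)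
  have hq : (1 : ℝ) ≤ (p : ℝ) ^ a := one_le_pow₀ (by linarith)
  have h1 := cond_ge (Measure.pi fun _ : ι => μ) (S := (S : Set ι))
    ((meas_Ind σ S).inter (meas_Good σ S j)) (meas_InSp σ S j)
    (fun ω ω' => and_congr (dep_Ind σ S ω ω') (dep_Good σ S j ω ω')) (c := ((p : ℝ)⁻¹) ^ a)
    (pow_le_one₀ (by positivity) (inv_le_one_of_one_le₀ (by linarith))) fun ω hω => by
      obtain ⟨r, -, h, -, h', -⟩ := step μ hj hω.1
      rw [h, h' hω.2, inv_pow, one_div, Nat.cast_pow]
  by_cases hne : (Ind (p := p) σ S \ Good σ S j).Nonempty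
  · have h2 := cond_ge (Measure.pi fun _ : ι => μ) (S := (S : Set ι))
      ((meas_Ind σ S).diff (meas_Good σ S j)) (meas_InSp σ S j)
      (fun ω ω' => and_congr (dep_Ind σ S ω ω') (not_congr (dep_Good σ S j ω ω')))
      (c := 2 * ((p : ℝ)⁻¹) ^ a) (by
        obtain ⟨ω, hω⟩ := hne
        obtain ⟨r, hr, -, -, -, h'⟩ := step μ hj hω.1
        have : (2 : ℝ) ≤ (p : ℝ) ^ a := by exact_mod_cast le_trans (by omega) (h' hω.2)
        rw [inv_pow, ← div_eq_mul_inv, div_le_one (by linarith)]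
        exact this) fun ω hω => by
        obtain ⟨r, hr, h, -, -, h'⟩ := step μ hj hω.1
        have : (2 : ℝ) * r ≤ (p : ℝ) ^ a := by exact_mod_cast h' hω.2
        rw [h, inv_pow, ← div_eq_mul_inv, div_le_div_iff₀ (by linarith) (by exact_mod_cast hr)]
        linarith
    have e1 := measureReal_inter_add_sdiff (μ := Measure.pi fun _ : ι => Measure.pi fun _ : ι => μ)
      (s := Ind σ S) (meas_InSp σ S j)
    have e2 := measureReal_inter_add_sdiff (μ := Measure.pi fun _ : ι => Measure.pi fun _ : ι => μ)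
      (s := Ind σ S) (meas_Good σ S j)
    have e3 := measureReal_inter_add_sdiff (μ := Measure.pi fun _ : ι => Measure.pi fun _ : ι => μ)
      (s := Ind σ S ∩ InSp σ S j) (meas_Good σ S j)
    rw [inter_right_comm, inter_sdiff_right_comm] at e3
    rw [Ind_insert hj]
    have e4 := congrArg (fun t => ((p : ℝ)⁻¹) ^ a * t) e2
    simp only [mul_add] at e4
    linarith
  · rw [not_nonempty_iff_eq_empty] at hne
    have e1 := measureReal_inter_add_sdiff (μ := Measure.pi fun _ : ι => Measure.pi fun _ : ι => μ)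
      (s := Ind σ S) (meas_InSp σ S j)
    rw [inter_eq_left.2 (sdiff_eq_empty.1 hne)] at h1
    rw [Ind_insert hj, hne, measureReal_empty]
    linarith

lemma step_eq {S : Finset ι} {j : ι} (hj : j ∉ S) :
    (1 - ((p : ℝ)⁻¹) ^ (Fintype.card ι - S.card)) *
        (Measure.pi fun _ : ι => Measure.pi fun _ : ι => μ).real (Ind (fun _ => Finset.univ) S) ≤
    (Measure.pi fun _ : ι => Measure.pi fun _ : ι => μ).real
      (Ind (fun _ => Finset.univ) (insert j S)) := by
  have h1 := cond_le (Measure.pi fun _ : ι => μ) (S := (S : Set ι))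
    (meas_Ind (p := p) (fun _ => Finset.univ) S) (meas_InSp (p := p) (fun _ => Finset.univ) S j)
    (fun ω ω' => dep_Ind (p := p) (fun _ => Finset.univ) S ω ω') (c := ((p : ℝ)⁻¹) ^ (Fintype.card ι - S.card)) (by positivity) fun ω hω => by
      obtain ⟨r, -, h, -, h', -⟩ := step μ hj hω
      rw [h, h' fun y => ⟨fun i => (ZMod.cast (y i) : ℤ_[p]), ?_⟩, inv_pow, one_div, Nat.cast_pow]
      have : red (mask Finset.univ fun i => (ZMod.cast (y i) : ℤ_[p])) = y := by
        ext i
        simp [red, mask]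
      rw [this, sub_self]
      exact zero_mem _
  have e1 := measureReal_inter_add_sdiff (μ := Measure.pi fun _ : ι => Measure.pi fun _ : ι => μ)
    (s := Ind (fun _ => Finset.univ) S) (meas_InSp (fun _ => Finset.univ) S j)
  rw [Ind_insert hj]
  linarith

omit [Fact p.Prime] [MeasurableSpace ℤ_[p]] [BorelSpace ℤ_[p]] in
lemma U_succ (a : ℕ) : U p (a + 1) = U p a * (1 - ((p : ℝ)⁻¹) ^ (a + 1)) :=
  Finset.prod_range_succ _ _

lemma card_ins {S : Finset ι} {j : ι} (hj : j ∉ S) :
    Fintype.card ι - S.card = Fintype.card ι - (insert j S).card + 1 := by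
  have := Finset.card_le_univ (insert j S)
  rw [Finset.card_insert_of_notMem hj] at this ⊢
  omega

lemma step_U {σ : ι → Finset ι} {S : Finset ι} {j : ι} (hj : j ∉ S) :
    (Measure.pi fun _ : ι => Measure.pi fun _ : ι => μ).real (Ind σ (insert j S)) *
      U p (Fintype.card ι - (insert j S).card) ≤
    (Measure.pi fun _ : ι => Measure.pi fun _ : ι => μ).real (Ind σ S) *
      U p (Fintype.card ι - S.card) - U p (Fintype.card ι - S.card) *
      ((p : ℝ)⁻¹) ^ (Fintype.card ι - S.card) *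
        (Measure.pi fun _ : ι => Measure.pi fun _ : ι => μ).real (Ind σ S \ Good σ S j) := by
  have h := mul_le_mul_of_nonneg_right (step_le μ (σ := σ) hj)
    (U_pos (p := p) (Fintype.card ι - (insert j S).card)).le
  rw [card_ins hj] at h ⊢
  rw [U_succ]
  set a := Fintype.card ι - (insert j S).card
  have h1 : 0 ≤ ((p : ℝ)⁻¹) ^ (a + 1) := by positivity
  have h2 := (U_pos (p := p) a).le
  have h3 : 0 ≤ (Measure.pi fun _ : ι => Measure.pi fun _ : ι => μ).real
    (Ind σ S \ Good σ S j) := measureReal_nonneg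
  have := mul_nonneg (mul_nonneg (mul_nonneg h1 h1) h2) h3
  nlinarith

lemma step_U' {σ : ι → Finset ι} {S : Finset ι} {j : ι} (hj : j ∉ S) :
    (Measure.pi fun _ : ι => Measure.pi fun _ : ι => μ).real (Ind σ (insert j S)) *
      U p (Fintype.card ι - (insert j S).card) ≤
    (Measure.pi fun _ : ι => Measure.pi fun _ : ι => μ).real (Ind σ S) *
      U p (Fintype.card ι - S.card) :=
  (step_U μ hj).trans (sub_le_self _ (mul_nonneg (mul_nonneg (U_pos _).le (by positivity))
    measureReal_nonneg))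

lemma mono_U (σ : ι → Finset ι) {S T : Finset ι} (h : S ⊆ T) :
    (Measure.pi fun _ : ι => Measure.pi fun _ : ι => μ).real (Ind σ T) *
      U p (Fintype.card ι - T.card) ≤
    (Measure.pi fun _ : ι => Measure.pi fun _ : ι => μ).real (Ind σ S) *
      U p (Fintype.card ι - S.card) := by
  rw [← Finset.union_sdiff_of_subset h]
  generalize T \ S = D
  induction D using Finset.induction_on with
  | empty => rw [Finset.union_empty]
  | insert j D _ ih =>
    rw [Finset.union_insert]
    by_cases hj : j ∈ S ∪ D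
    · rwa [Finset.insert_eq_of_mem hj]
    · exact (step_U' μ hj).trans ih

omit [BorelSpace ℤ_[p]] [μ.IsAddHaarMeasure] in
lemma Ind_empty (σ : ι → Finset ι) :
    (Measure.pi fun _ : ι => Measure.pi fun _ : ι => μ).real (Ind σ ∅) = 1 := by
  have : Ind (p := p) σ ∅ = univ := by
    ext ω; simp [Ind]
  rw [this, probReal_univ]

lemma le_U (σ : ι → Finset ι) (S : Finset ι) :
    (Measure.pi fun _ : ι => Measure.pi fun _ : ι => μ).real (Ind σ S) *
      U p (Fintype.card ι - S.card) ≤ U p (Fintype.card ι) := by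
  simpa [Ind_empty] using mono_U μ σ (Finset.empty_subset S)

lemma univ_le (σ : ι → Finset ι) (S : Finset ι) :
    (Measure.pi fun _ : ι => Measure.pi fun _ : ι => μ).real (Ind σ Finset.univ) ≤
    (Measure.pi fun _ : ι => Measure.pi fun _ : ι => μ).real (Ind σ S) *
      U p (Fintype.card ι - S.card) := by
  simpa [U] using mono_U μ σ (Finset.subset_univ S)

lemma bad_le (σ : ι → Finset ι) {S : Finset ι} {j : ι} (hj : j ∉ S) :
    U p (Fintype.card ι - S.card) * ((p : ℝ)⁻¹) ^ (Fintype.card ι - S.card) *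
      (Measure.pi fun _ : ι => Measure.pi fun _ : ι => μ).real (Ind σ S \ Good σ S j) ≤
    U p (Fintype.card ι) -
      (Measure.pi fun _ : ι => Measure.pi fun _ : ι => μ).real (Ind σ Finset.univ) := by
  have h1 := step_U μ (σ := σ) hj
  have h2 := le_U μ σ S
  have h3 := univ_le μ σ (insert j S)
  linarith

lemma full_eq : (Measure.pi fun _ : ι => Measure.pi fun _ : ι => μ).real
    (Ind (fun _ => Finset.univ) Finset.univ) = U p (Fintype.card ι) := by
  have key (S : Finset ι) : U p (Fintype.card ι) ≤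
      (Measure.pi fun _ : ι => Measure.pi fun _ : ι => μ).real (Ind (fun _ => Finset.univ) S) *
      U p (Fintype.card ι - S.card) := by
    induction S using Finset.induction_on with
    | empty => simp [Ind_empty]
    | insert j S hj ih =>
      refine ih.trans ?_
      have h := mul_le_mul_of_nonneg_right (step_eq μ hj)
        (U_pos (p := p) (Fintype.card ι - (insert j S).card)).le
      rw [card_ins hj] at h ⊢
      rw [U_succ]
      linarith
  exact le_antisymm (by simpa [U] using le_U μ (fun _ : ι => Finset.univ) Finset.univ)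
    (by simpa [U] using key Finset.univ)

end Pool.Agent.H44.CL
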