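import Pool.Agent.H44.CL1

/-! The cokernel distribution of a full Haar matrix. -/

open Set Filter MeasureTheory Measure Submodule
open scoped ENNReal

namespace Pool.Agent.H44.CL

variable {p : ℕ} [Fact p.Prime] {ι : Type} [Fintype ι] [DecidableEq ι]

lemma isUnit_red (x : ℤ_[p]) : PadicInt.toZMod x ≠ 0 ↔ IsUnit x := by
  rw [Ne, ← RingHom.mem_ker, PadicInt.ker_toZMod, IsLocalRing.notMem_maximalIdeal]

lemma li_iff (N : ι → ι → ZMod p) : LinearIndependent (ZMod p) N ↔ (Matrix.of N).det ≠ 0 := by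
  rw [← isUnit_iff_ne_zero, ← Matrix.isUnit_iff_isUnit_det,
    ← Matrix.linearIndependent_rows_iff_isUnit]
  rfl

lemma gen_iff (N : ι → ι → ℤ_[p]) :
    span ℤ_[p] (range N) = ⊤ ↔ LinearIndependent (ZMod p) fun j => red (N j) := by
  have h1 : span ℤ_[p] (range N) = LinearMap.range (Matrix.of N).vecMulLinear :=
    (range_vecMulLinear (Matrix.of N)).symm
  rw [h1, LinearMap.range_eq_top, Matrix.coe_vecMulLinear, Matrix.vecMul_surjective_iff_isUnit,
    Matrix.isUnit_iff_isUnit_det, ← isUnit_red, RingHom.map_det, li_iff]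
  rfl

omit [Fintype ι] in
lemma mask_univ [Fintype ι] (x : ι → ℤ_[p]) : mask Finset.univ x = x := by
  ext i; simp [mask]

lemma gen_eq : {N : ι → ι → ℤ_[p] | span ℤ_[p] (range N) = ⊤} =
    Ind (fun _ => Finset.univ) Finset.univ := by
  ext N
  simp only [mem_ofPred_eq, gen_iff, Ind, Finset.coe_univ, linearIndepOn_univ_iff]
  unfold col
  simp only [mask_univ]

variable {G : Type} [AddCommGroup G] [Finite G] [Module ℤ_[p] G]

/-- an additive map into a module killed by `p ^ e` is linear -/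
noncomputable def lin {e : ℕ} (he : ∀ g : G, p ^ e • g = 0) {M : Type} [AddCommGroup M]
    [Module ℤ_[p] M] (f : M →+ G) : M →ₗ[ℤ_[p]] G where
  toFun := f
  map_add' := f.map_add
  map_smul' r x := by
    obtain ⟨y, hy⟩ := Ideal.mem_span_singleton'.1 (PadicInt.appr_spec e r)
    have hr : r = (r.appr e : ℤ_[p]) + ((p ^ e : ℕ) : ℤ_[p]) * y := by
      push_cast; linear_combination -hy
    rw [RingHom.id_apply, hr, add_smul, add_smul, mul_smul, mul_smul, map_add]
    simp only [Nat.cast_smul_eq_nsmul, map_nsmul, he]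

def Ck {M : Type} [AddCommGroup M] [Module ℤ_[p] M] (K : Submodule ℤ_[p] M) (G : Type)
    [AddCommGroup G] : Prop := Nonempty ((M ⧸ K) ≃+ G)

def Ev (p : ℕ) [Fact p.Prime] (ι G : Type) [AddCommGroup G] : Set (ι → ι → ℤ_[p]) :=
  {N | Ck (span ℤ_[p] (range N)) G}

open Classical in
noncomputable def Sur (p : ℕ) [Fact p.Prime] (ι G : Type) [Fintype ι] [AddCommGroup G] [Finite G]
    [Module ℤ_[p] G] : Finset (ι → G) :=
  (Set.toFinite {f | span ℤ_[p] (range f) = ⊤}).toFinset

omit [DecidableEq ι] in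
lemma mem_Sur {f : ι → G} :
    f ∈ Sur p ι G ↔ Function.Surjective (Fintype.linearCombination ℤ_[p] f) := by
  rw [← LinearMap.range_eq_top, Fintype.range_linearCombination]
  simp [Sur]

omit [Finite G] in
lemma lc_eq (F : (ι → ℤ_[p]) →ₗ[ℤ_[p]] G) :
    Fintype.linearCombination ℤ_[p] (fun i => F (Pi.single i 1)) = F := by
  ext i; simp

noncomputable def kap (f : ι → G) : Submodule ℤ_[p] (ι → ℤ_[p]) :=
  LinearMap.ker (Fintype.linearCombination ℤ_[p] f)

lemma Ck_iff {e : ℕ} (he : ∀ g : G, p ^ e • g = 0) (K : Submodule ℤ_[p] (ι → ℤ_[p])) :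
    Ck K G ↔ ∃ f ∈ Sur p ι G, kap f = K := by
  refine ⟨fun ⟨φ⟩ => ?_, ?_⟩
  · refine ⟨fun i => (lin he φ.toAddMonoidHom ∘ₗ K.mkQ) (Pi.single i 1), ?_, ?_⟩
    · rw [mem_Sur, lc_eq]
      exact φ.surjective.comp K.mkQ_surjective
    · rw [kap, lc_eq, LinearMap.ker_comp, LinearMap.ker_eq_bot.2 φ.injective, Submodule.comap_bot,
        ker_mkQ]
  · rintro ⟨f, hf, rfl⟩
    exact ⟨(LinearMap.quotKerEquivOfSurjective _ (mem_Sur.1 hf)).toAddEquiv⟩

open Classical in
lemma card_fiber {e : ℕ} (he : ∀ g : G, p ^ e • g = 0) {f₀ : ι → G} (h₀ : f₀ ∈ Sur p ι G) :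
    ((Sur p ι G).filter fun f => kap (p := p) f = kap f₀).card = Nat.card (AddAut G) := by
  have hl (α : AddAut G) : Fintype.linearCombination ℤ_[p] (α ∘ f₀) =
      lin he α.toAddMonoidHom ∘ₗ Fintype.linearCombination ℤ_[p] f₀ := by
    ext i; simp [lin]
  rw [← Nat.card_eq_finsetCard]
  symm
  refine Nat.card_eq_of_bijective (fun α => ⟨α ∘ f₀, ?_⟩) ⟨fun α β h => ?_, fun ⟨f, hf⟩ => ?_⟩
  · rw [Finset.mem_filter, mem_Sur, kap, hl]
    refine ⟨α.surjective.comp (mem_Sur.1 h₀), ?_⟩
    rw [LinearMap.ker_comp, LinearMap.ker_eq_bot.2 α.injective]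
    rfl
  · have h1 : α ∘ f₀ = β ∘ f₀ := congrArg Subtype.val h
    ext g
    obtain ⟨x, rfl⟩ := mem_Sur.1 h₀ g
    have := LinearMap.congr_fun ((hl α).symm.trans (h1 ▸ hl β)) x
    exact this
  · obtain ⟨hf1, hf2⟩ := Finset.mem_filter.1 hf
    refine ⟨((LinearMap.quotKerEquivOfSurjective _ (mem_Sur.1 h₀)).symm.trans
      ((quotEquivOfEq _ _ hf2.symm).trans
        (LinearMap.quotKerEquivOfSurjective _ (mem_Sur.1 hf1)))).toAddEquiv, Subtype.ext ?_⟩
    funext i
    have h1 : (LinearMap.quotKerEquivOfSurjective _ (mem_Sur.1 h₀)).symm (f₀ i) =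
        Submodule.Quotient.mk (Pi.single i 1) := by
      rw [LinearEquiv.symm_apply_eq]; simp
    change LinearMap.quotKerEquivOfSurjective _ (mem_Sur.1 hf1) (quotEquivOfEq _ _ hf2.symm
      ((LinearMap.quotKerEquivOfSurjective _ (mem_Sur.1 h₀)).symm (f₀ i))) = f i
    rw [h1]
    exact (LinearMap.quotKerEquivOfSurjective_apply_mk _ (mem_Sur.1 hf1) _).trans (by simp)

variable [MeasurableSpace ℤ_[p]] [BorelSpace ℤ_[p]]
variable (μ : Measure ℤ_[p]) [μ.IsAddHaarMeasure] [IsProbabilityMeasure μ]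

omit [DecidableEq ι] in
lemma haar2 : (Measure.pi fun _ : ι => Measure.pi fun _ : ι => μ).IsAddHaarMeasure := by
  have : (Measure.pi fun _ : ι => μ).IsAddHaarMeasure := pi.isAddHaarMeasure _
  exact pi.isAddHaarMeasure _

lemma meas_AK {e : ℕ} (he : ∀ g : G, p ^ e • g = 0) {f : ι → G} (hf : f ∈ Sur p ι G) :
    MeasurableSet {N : ι → ι → ℤ_[p] | span ℤ_[p] (range N) = kap f} ∧
    (Measure.pi fun _ : ι => Measure.pi fun _ : ι => μ).real
      {N : ι → ι → ℤ_[p] | span ℤ_[p] (range N) = kap f} =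
      (1 / Nat.card G) ^ Fintype.card ι * U p (Fintype.card ι) := by
  set K := kap (p := p) f with hK
  have hs := mem_Sur.1 hf
  have h0 : Module.finrank ℤ_[p] ((ι → ℤ_[p]) ⧸ K) = 0 := by
    refine (LinearMap.quotKerEquivOfSurjective _ hs).finrank_eq.trans ?_
    rw [Module.finrank_eq_zero_iff]
    refine fun g => ⟨((p ^ e : ℕ) : ℤ_[p]), ?_, by rw [Nat.cast_smul_eq_nsmul, he]⟩
    exact_mod_cast pow_ne_zero _ (Fact.out : p.Prime).ne_zero
  have hr := K.finrank_quotient_add_finrank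
  rw [h0, zero_add] at hr
  let A : (ι → ℤ_[p]) →ₗ[ℤ_[p]] (ι → ℤ_[p]) :=
    K.subtype ∘ₗ (LinearEquiv.ofFinrankEq _ K hr.symm).toLinearMap
  have hAi : Function.Injective A := K.injective_subtype.comp (LinearEquiv.injective _)
  have hAr : LinearMap.range A = K := by
    rw [LinearMap.range_comp_of_range_eq_top _ (LinearEquiv.range _), range_subtype]
  have hAc : Continuous A := A.continuous_on_pi
  let F := (Fintype.linearCombination ℤ_[p] f).toAddMonoidHom
  have hFK : (F.ker : Set (ι → ℤ_[p])) = range A := by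
    rw [← LinearMap.coe_range, hAr]; rfl
  have hfi : F.ker.FiniteIndex := AddSubgroup.finiteIndex_ker F
  have hop : IsOpen (F.ker : Set (ι → ℤ_[p])) :=
    F.ker.isOpen_of_isClosed_of_finiteIndex (hFK ▸ (isCompact_range hAc).isClosed)
  let φ : (ι → ι → ℤ_[p]) →+ (ι → ι → ℤ_[p]) :=
    { toFun := fun N j => A (N j)
      map_zero' := by ext1; simp
      map_add' := fun _ _ => by ext1; simp }
  have hφc : Continuous φ := continuous_pi fun j => hAc.comp (continuous_apply j)
  have hφi : Function.Injective φ := fun N N' h => funext fun j => hAi (congrFun h j)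
  have hφr : range φ = Set.pi univ fun _ => (F.ker : Set (ι → ℤ_[p])) := by
    rw [hFK]
    exact range_piMap (fun _ => A)
  have hφ : Topology.IsOpenEmbedding φ := ⟨(hφc.isClosedEmbedding hφi).isEmbedding, by
    rw [hφr]; exact isOpen_set_pi finite_univ fun _ _ => hop⟩
  have := haar2 (ι := ι) μ
  set P := Measure.pi fun _ : ι => Measure.pi fun _ : ι => μ with hP
  have hH : (P.comap φ).IsAddHaarMeasure := IsAddHaarMeasure.comap (mH := inferInstance) P hφ
  have hsm := isAddInvariant_eq_smul_of_compactSpace (P.comap φ) P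
  have him (E : Set (ι → ι → ℤ_[p])) :
      P.real (φ '' E) = addHaarScalarFactor (P.comap φ) P * P.real E := by
    rw [Measure.real, ← hφ.measurableEmbedding.comap_apply]
    conv_lhs => rw [hsm]
    simp [Measure.real]
  have hset : {N : ι → ι → ℤ_[p] | span ℤ_[p] (range N) = K} =
      φ '' Ind (fun _ => Finset.univ) Finset.univ := by
    have hm (N : ι → ι → ℤ_[p]) : span ℤ_[p] (range (φ N)) = (span ℤ_[p] (range N)).map A := by
      rw [Submodule.map_span, ← range_comp]; rfl
    rw [← gen_eq]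
    ext N
    refine ⟨fun h => ?_, ?_⟩
    · have : N ∈ range φ := by
        rw [hφr, hFK]
        intro j _
        rw [← LinearMap.coe_range, hAr, ← show span ℤ_[p] (range N) = K from h]
        exact subset_span ⟨j, rfl⟩
      obtain ⟨N, rfl⟩ := this
      refine ⟨N, map_injective_of_injective hAi ?_, rfl⟩
      rw [← hm, Submodule.map_top, hAr]
      exact h
    · rintro ⟨N, h, rfl⟩
      rw [mem_ofPred_eq, hm, show span ℤ_[p] (range N) = ⊤ from h, Submodule.map_top, hAr]
  rw [hset]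
  refine ⟨hφ.measurableEmbedding.measurableSet_image.2 (meas_Ind _ _), ?_⟩
  have h1 := him univ
  rw [image_univ, probReal_univ, mul_one, hφr, Measure.real, pi_pi, ENNReal.toReal_prod] at h1
  have h2 := real_ker μ F hop.measurableSet
  rw [AddMonoidHom.range_eq_top.2 hs, AddSubgroup.card_top, Measure.real] at h2
  rw [him, full_eq, ← h1, h2, Finset.prod_const, Finset.card_univ]

lemma FW {e : ℕ} (he : ∀ g : G, p ^ e • g = 0) : MeasurableSet (Ev p ι G) ∧
    Nat.card (AddAut G) * (Measure.pi fun _ : ι => Measure.pi fun _ : ι => μ).real (Ev p ι G) =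
      (Sur p ι G).card * (1 / Nat.card G) ^ Fintype.card ι * U p (Fintype.card ι) := by
  classical
  have hE : Ev p ι G = ⋃ K ∈ (Sur p ι G).image (kap (p := p)),
      {N : ι → ι → ℤ_[p] | span ℤ_[p] (range N) = K} := by
    ext N
    simp only [Ev, mem_ofPred_eq, Ck_iff he, mem_iUnion, Finset.mem_image, exists_prop,
      exists_eq_right']
  have hm : ∀ K ∈ (Sur p ι G).image (kap (p := p)),
      MeasurableSet {N : ι → ι → ℤ_[p] | span ℤ_[p] (range N) = K} := by
    intro K hK
    obtain ⟨f, hf, rfl⟩ := Finset.mem_image.1 hK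
    exact (meas_AK μ he hf).1
  rw [hE]
  refine ⟨Finset.measurableSet_biUnion _ hm, ?_⟩
  rw [measureReal_biUnion_finset (fun K _ K' _ h => disjoint_left.2 fun N h1 h2 =>
    h (h1.symm.trans h2)) hm, Finset.card_eq_sum_card_image (kap (p := p)), Nat.cast_sum,
    Finset.sum_mul, Finset.sum_mul, Finset.mul_sum]
  refine Finset.sum_congr rfl fun K hK => ?_
  obtain ⟨f, hf, rfl⟩ := Finset.mem_image.1 hK
  rw [(meas_AK μ he hf).2, ← card_fiber he hf, mul_assoc]

omit [MeasurableSpace ℤ_[p]] [BorelSpace ℤ_[p]] in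
lemma Sur_bound : 1 - Nat.card (Set G) * (1 / 2) ^ Fintype.card ι ≤
    ((Sur p ι G).card * (1 / Nat.card G) ^ Fintype.card ι : ℝ) ∧
    ((Sur p ι G).card * (1 / Nat.card G) ^ Fintype.card ι : ℝ) ≤ 1 := by
  classical
  have := Fintype.ofFinite G
  have hg : (0 : ℝ) < Nat.card G := by exact_mod_cast Nat.card_pos
  have hc := Finset.card_add_card_compl (Sur p ι G)
  rw [Fintype.card_fun, ← Nat.card_eq_fintype_card (α := G)] at hc
  have hc' : ((Sur p ι G).card : ℝ) + (Sur p ι G)ᶜ.card = (Nat.card G : ℝ) ^ Fintype.card ι := by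
    exact_mod_cast hc
  have hsub : (Sur p ι G)ᶜ ⊆ (Finset.univ.filter fun s : Set G => 2 * Nat.card s ≤ Nat.card G).biUnion
      fun s => Fintype.piFinset fun _ => s.toFinset := by
    intro f hf
    rw [Finset.mem_biUnion]
    refine ⟨span ℤ_[p] (range f), Finset.mem_filter.2 ⟨Finset.mem_univ _, ?_⟩, ?_⟩
    · obtain ⟨c, hc⟩ := (span ℤ_[p] (range f)).toAddSubgroup.card_addSubgroup_dvd_card
      have h1 : c ≠ 1 := fun h1 => Finset.mem_compl.1 hf (by
        have := AddSubgroup.eq_top_of_card_eq _ (by rw [hc, h1, mul_one] :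
          Nat.card (span ℤ_[p] (range f)).toAddSubgroup = Nat.card G)
        simpa [Sur] using this)
      have h0 : c ≠ 0 := fun h0 => by
        rw [h0, mul_zero] at hc
        exact Nat.card_pos.ne' hc
      rw [hc, mul_comm]
      exact Nat.mul_le_mul_left _ (by omega)
    · simp only [Fintype.mem_piFinset, mem_toFinset]
      exact fun i => subset_span ⟨i, rfl⟩
  have h2 : ((Sur p ι G)ᶜ.card : ℝ) ≤ Nat.card (Set G) * (Nat.card G / 2) ^ Fintype.card ι := by
    have h3 := (Finset.card_le_card hsub).trans Finset.card_biUnion_le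
    have h3' := (Nat.cast_le (α := ℝ)).2 h3
    rw [Nat.cast_sum] at h3'
    refine le_trans h3' ((Finset.sum_le_card_nsmul _ _
      ((Nat.card G / 2 : ℝ) ^ Fintype.card ι) fun s hs => ?_).trans ?_)
    · rw [Fintype.card_piFinset, Finset.prod_const, Finset.card_univ, Nat.cast_pow]
      refine pow_le_pow_left₀ (by positivity) ?_ _
      have : (2 : ℝ) * Nat.card s ≤ Nat.card G := by exact_mod_cast (Finset.mem_filter.1 hs).2
      rw [toFinset_card, ← Nat.card_eq_fintype_card]
      linarith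
    · rw [nsmul_eq_mul]
      gcongr
      rw [Nat.card_eq_fintype_card (α := Set G)]
      exact Finset.card_le_univ _
  have h4 : ((Nat.card G : ℝ) / 2) ^ Fintype.card ι * (1 / Nat.card G) ^ Fintype.card ι =
      (1 / 2) ^ Fintype.card ι := by
    rw [← mul_pow]; congr 1; field_simp
  have h5 : (Nat.card G : ℝ) ^ Fintype.card ι * (1 / Nat.card G) ^ Fintype.card ι = 1 := by
    rw [← mul_pow, mul_one_div_cancel hg.ne', one_pow]
  have h6 : (0 : ℝ) ≤ (1 / Nat.card G) ^ Fintype.card ι := by positivity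
  have h7 := mul_le_mul_of_nonneg_right h2 h6
  have h8 := mul_nonneg (Nat.cast_nonneg (α := ℝ) (Sur p ι G)ᶜ.card) h6
  rw [mul_assoc, h4] at h7
  rw [← hc', add_mul] at h5
  constructor <;> linarith

end Pool.Agent.H44.CL
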