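import Pool.Agent.H44.CL2

/-! Reduction of a sparse matrix to a small full Haar matrix. -/

open Set Filter MeasureTheory Measure Submodule Topology
open scoped ENNReal

namespace Pool.Agent.H44.CL
open Har

variable {p : ℕ} [Fact p.Prime] {ι : Type} [Fintype ι] [DecidableEq ι]

lemma ext_basis (m : ℕ) : ∀ (S : Finset ι) (a : ι → ι → ZMod p), Fintype.card ι - S.card = m →
    LinearIndepOn (ZMod p) a S → ∃ b : ι → ι → ZMod p, LinearIndependent (ZMod p) b ∧ EqOn b a S := by
  induction m with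
  | zero =>
    intro S a hm h
    obtain rfl : S = Finset.univ := Finset.eq_univ_of_card _
      (le_antisymm (Finset.card_le_univ _) (by omega))
    exact ⟨a, by simpa using h, fun _ _ => rfl⟩
  | succ m ih =>
    intro S a hm h
    obtain ⟨j, hj⟩ : ∃ j, j ∉ S := by
      by_contra hc
      push Not at hc
      rw [Finset.eq_univ_of_forall hc] at hm
      simp at hm
    obtain ⟨v, hv⟩ : ∃ v, v ∉ span (ZMod p) (a '' S) := by
      by_contra hc
      push Not at hc
      have h2 : Module.finrank (ZMod p) (span (ZMod p) (a '' S)) = S.card := by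
        rw [image_eq_range, finrank_span_eq_card h]
        simp
      rw [eq_top_iff'.2 hc, finrank_top, Module.finrank_fintype_fun_eq_card] at h2
      omega
    have he : EqOn (Function.update a j v) a S := fun i hi =>
      Function.update_of_ne (fun h : i = j => hj (h ▸ hi)) _ _
    obtain ⟨b, hb, hb'⟩ := ih (insert j S) (Function.update a j v)
      (by have := card_ins hj; omega) (by
        rw [Finset.coe_insert, linearIndepOn_insert (by simpa using hj), he.image_eq,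
          Function.update_self]
        exact ⟨(linearIndepOn_congr he).2 h, hv⟩)
    exact ⟨b, hb, fun i hi => (hb' (by simp [show i ∈ S from hi])).trans (he hi)⟩

lemma exists_pi {S : Finset ι} {a : ι → ι → ℤ_[p]}
    (h : LinearIndepOn (ZMod p) (fun j => red (a j)) S) :
    ∃ π : (ι → ℤ_[p]) →ₗ[ℤ_[p]] ({j // j ∉ S} → ℤ_[p]), Function.Surjective π ∧
      LinearMap.ker π = span ℤ_[p] (a '' S) := by
  obtain ⟨b, hb, hb'⟩ := ext_basis _ S _ rfl h
  let c : ι → ι → ℤ_[p] := fun j => if j ∈ S then a j else fun i => (ZMod.cast (b j i) : ℤ_[p])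
  have hc : (fun j => red (c j)) = b := by
    funext j
    by_cases hj : j ∈ S
    · simp only [c, if_pos hj]; exact (hb' hj).symm
    · ext i; simp [c, if_neg hj, red]
  have hs : Function.Surjective (Fintype.linearCombination ℤ_[p] c) := by
    rw [← LinearMap.range_eq_top, Fintype.range_linearCombination, gen_iff, hc]
    exact hb
  let β := LinearEquiv.ofBijective _
    ⟨OrzechProperty.injective_of_surjective_endomorphism _ hs, hs⟩
  refine ⟨LinearMap.funLeft ℤ_[p] ℤ_[p] Subtype.val ∘ₗ β.symm.toLinearMap,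
    (LinearMap.funLeft_surjective_of_injective ℤ_[p] ℤ_[p] _ Subtype.val_injective).comp
      β.symm.surjective,
    le_antisymm (fun x hx => ?_) (span_le.2 ?_)⟩
  · obtain ⟨y, rfl⟩ := β.surjective x
    have hy : ∀ j, j ∉ S → y j = 0 := fun j hj => by
      simpa using congrFun (LinearMap.mem_ker.1 hx) ⟨j, hj⟩
    change Fintype.linearCombination ℤ_[p] c y ∈ _
    rw [Fintype.linearCombination_apply]
    refine sum_mem fun j _ => ?_
    by_cases hj : j ∈ S
    · exact smul_mem _ _ (subset_span ⟨j, hj, by simp [c, hj]⟩)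
    · rw [hy j hj, zero_smul]; exact zero_mem _
  · rintro _ ⟨j, hj, rfl⟩
    have : a j = β (Pi.single j 1) := by
      change _ = Fintype.linearCombination ℤ_[p] c _
      simp [c, show j ∈ S from hj]
    rw [this]
    ext ⟨i, hi⟩
    have : i ≠ j := fun h => hi (h ▸ hj)
    simp [LinearMap.funLeft_apply, this]

omit [Fintype ι] [DecidableEq ι] in
lemma lift_span {A : Set (ι → ℤ_[p])} {y : ι → ZMod p} (h : y ∈ span (ZMod p) (red '' A)) :
    ∃ z ∈ span ℤ_[p] A, red z = y := by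
  induction h using span_induction with
  | mem _ h => obtain ⟨z, hz, rfl⟩ := h; exact ⟨z, subset_span hz, rfl⟩
  | zero => exact ⟨0, zero_mem _, map_zero _⟩
  | add _ _ _ _ h1 h2 =>
    obtain ⟨z, hz, rfl⟩ := h1
    obtain ⟨w, hw, rfl⟩ := h2
    exact ⟨z + w, add_mem hz hw, map_add _ _ _⟩
  | smul c _ _ h =>
    obtain ⟨z, hz, rfl⟩ := h
    exact ⟨(ZMod.cast c : ℤ_[p]) • z, smul_mem _ _ hz, by ext i; simp [red]⟩

omit [Fintype ι] [DecidableEq ι] in
lemma red_zero {x : ι → ℤ_[p]} (h : red x = 0) : ∃ w : ι → ℤ_[p], x = (p : ℤ_[p]) • w := by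
  have (i : ι) : ∃ w, x i = p * w := by
    have := congrFun h i
    change PadicInt.toZMod (x i) = 0 at this
    rw [← RingHom.mem_ker, PadicInt.ker_toZMod, PadicInt.maximalIdeal_eq_span_p,
      Ideal.mem_span_singleton] at this
    exact this
  choose w hw using this
  exact ⟨w, funext hw⟩

lemma surj_mask {σ : ι → Finset ι} {S : Finset ι} {j : ι} {ω : ι → ι → ℤ_[p]}
    (h : ω ∈ Good σ S j) {T : Type} [Fintype T] {π : (ι → ℤ_[p]) →ₗ[ℤ_[p]] (T → ℤ_[p])}
    (hs : Function.Surjective π)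
    (hk : LinearMap.ker π = span ℤ_[p] ((fun j => mask (σ j) (ω j)) '' S)) :
    Function.Surjective (π ∘ₗ mask (σ j)) := by
  rw [← LinearMap.range_eq_top, eq_top_iff]
  refine le_of_le_smul_of_le_jacobson_bot (I := IsLocalRing.maximalIdeal ℤ_[p])
    Module.Finite.fg_top (IsLocalRing.maximalIdeal_le_jacobson _) fun y _ => ?_
  obtain ⟨y, rfl⟩ := hs y
  obtain ⟨x, hx⟩ := h (red y)
  obtain ⟨z, hz, hz'⟩ := lift_span (A := (fun j => mask (σ j) (ω j)) '' S)
    (y := red y - red (mask (σ j) x)) (by rw [image_image]; exact hx)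
  obtain ⟨w, hw⟩ := red_zero (x := y - mask (σ j) x - z) (by rw [map_sub, map_sub, hz', sub_self])
  have : π y = π (mask (σ j) x) + (p : ℤ_[p]) • π w := by
    rw [← hk, LinearMap.mem_ker] at hz
    rw [← map_smul, ← hw, map_sub, map_sub, hz]
    abel
  rw [this]
  refine add_mem_sup ⟨x, rfl⟩ (smul_mem_smul ?_ mem_top)
  rw [PadicInt.maximalIdeal_eq_span_p]
  exact Ideal.mem_span_singleton_self _

lemma Ck_map {M M' G : Type} [AddCommGroup M] [Module ℤ_[p] M] [AddCommGroup M']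
    [Module ℤ_[p] M'] [AddCommGroup G] {π : M →ₗ[ℤ_[p]] M'} (hs : Function.Surjective π)
    {K : Submodule ℤ_[p] M} (hk : LinearMap.ker π ≤ K) : Ck K G ↔ Ck (K.map π) G := by
  have e : (M ⧸ K) ≃ₗ[ℤ_[p]] M' ⧸ K.map π :=
    (quotEquivOfEq _ _ (by
      rw [LinearMap.ker_comp, ker_mkQ, comap_map_eq, sup_eq_left.2 hk])).trans
      (LinearMap.quotKerEquivOfSurjective ((K.map π).mkQ ∘ₗ π) ((mkQ_surjective _).comp hs))
  exact ⟨fun ⟨φ⟩ => ⟨e.symm.toAddEquiv.trans φ⟩, fun ⟨φ⟩ => ⟨e.toAddEquiv.trans φ⟩⟩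

def EvS (σ : ι → Finset ι) (G : Type) [AddCommGroup G] : Set (ι → ι → ℤ_[p]) :=
  {ω | (fun j => mask (σ j) (ω j)) ∈ Ev p ι G}

variable {G : Type} [AddCommGroup G] [Finite G] [Module ℤ_[p] G]
variable [MeasurableSpace ℤ_[p]] [BorelSpace ℤ_[p]]
variable (μ : Measure ℤ_[p]) [μ.IsAddHaarMeasure] [IsProbabilityMeasure μ]

lemma cond_eq {e : ℕ} (he : ∀ g : G, p ^ e • g = 0) {σ : ι → Finset ι} {S : Finset ι}
    {ω : ι → ι → ℤ_[p]} (h1 : ω ∈ Ind σ S) (h2 : ∀ j ∉ S, ω ∈ Good σ S j) :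
    (Measure.pi fun _ : ι => Measure.pi fun _ : ι => μ).real {ω' | mix S ω ω' ∈ EvS σ G} =
    (Measure.pi fun _ : {j // j ∉ S} => Measure.pi fun _ : {j // j ∉ S} => μ).real
      (Ev p {j // j ∉ S} G) := by
  obtain ⟨π, hs, hk⟩ := exists_pi (a := fun j => mask (σ j) (ω j)) h1
  let ψ : (ι → ι → ℤ_[p]) →+ ({j // j ∉ S} → {j // j ∉ S} → ℤ_[p]) :=
    { toFun := fun ω' t => π (mask (σ t) (ω' t))
      map_zero' := by ext1; simp
      map_add' := fun _ _ => by ext1; simp }
  have hc : Continuous ψ := continuous_pi fun t =>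
    π.continuous_on_pi.comp ((cont_mask _).comp (continuous_apply _))
  have hsu : Function.Surjective ψ := fun N => by
    choose x hx using fun t : {j // j ∉ S} => surj_mask (h2 t t.2) hs hk (N t)
    refine ⟨fun j => if hj : j ∈ S then 0 else x ⟨j, hj⟩, funext fun t => ?_⟩
    change π (mask (σ t) (if hj : t.1 ∈ S then 0 else x ⟨t, hj⟩)) = _
    rw [dif_neg t.2]
    exact hx t
  have := haar2 (ι := ι) μ
  have := haar2 (ι := {j // j ∉ S}) μ
  rw [← (AddMonoidHom.measurePreserving hc hsu (μ := Measure.pi fun _ => Measure.pi fun _ => μ)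
    (by simp)).measureReal_preimage (FW μ he).1.nullMeasurableSet]
  congr 1
  ext ω'
  have hsub : span ℤ_[p] ((fun j => mask (σ j) (ω j)) '' S) ≤
      span ℤ_[p] (range fun j => mask (σ j) (mix S ω ω' j)) := by
    refine span_mono ?_
    rintro _ ⟨j, hj, rfl⟩
    exact ⟨j, by simp only [mix_mem _ _ hj]⟩
  simp only [EvS, Ev, mem_ofPred_eq, mem_preimage]
  rw [Ck_map hs (hk ▸ hsub), Submodule.map_span, ← range_comp]
  refine iff_of_eq (congrArg (Ck · G) (le_antisymm (span_le.2 ?_) (span_mono ?_)))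
  · rintro _ ⟨j, rfl⟩
    by_cases hj : j ∈ S
    · have : π (mask (σ j) (ω j)) = 0 := LinearMap.mem_ker.1 (hk ▸ subset_span ⟨j, hj, rfl⟩)
      simp only [Function.comp_apply, mix_mem ω ω' (show j ∈ (S : Set ι) from hj), this]
      exact zero_mem _
    · simp only [Function.comp_apply, mix_not ω ω' (show j ∉ (S : Set ι) from hj)]
      exact subset_span ⟨⟨j, hj⟩, rfl⟩
  · rintro _ ⟨t, rfl⟩
    refine ⟨t, ?_⟩
    simp only [Function.comp_apply, mix_not ω ω' (show t.1 ∉ (S : Set ι) from t.2)]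
    rfl

lemma main_est {e : ℕ} (he : ∀ g : G, p ^ e • g = 0) (σ : ι → Finset ι) (S : Finset ι) {m : ℕ}
    (hm : Fintype.card ι - S.card = m) :
    |Nat.card (AddAut G) * (Measure.pi fun _ : ι => Measure.pi fun _ : ι => μ).real (EvS σ G) -
      U p m| ≤ Nat.card (Set G) * (1 / 2) ^ m + Nat.card (AddAut G) *
      (1 - (Measure.pi fun _ : ι => Measure.pi fun _ : ι => μ).real (Ind σ Finset.univ) / U p m +
        m * ((U p (Fintype.card ι) - (Measure.pi fun _ : ι => Measure.pi fun _ : ι => μ).real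
          (Ind σ Finset.univ)) / (U p m * ((p : ℝ)⁻¹) ^ m))) := by
  have hT : Fintype.card {j // j ∉ S} = m := by
    rw [Fintype.card_subtype_compl, Fintype.card_coe, hm]
  have hE : MeasurableSet (EvS (p := p) σ G) :=
    (continuous_pi fun j => (cont_mask (σ j)).comp (continuous_apply j)).measurable (FW μ he).1
  let Γ : Set (ι → ι → ℤ_[p]) := Ind σ S ∩ ⋂ j ∈ Sᶜ, Good σ S j
  have hΓ : MeasurableSet Γ :=
    (meas_Ind σ S).inter (Finset.measurableSet_biInter _ fun j _ => meas_Good σ S j)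
  have dΓ : ∀ ω ω', mix (S : Set ι) ω ω' ∈ Γ ↔ ω ∈ Γ := fun ω ω' => by
    simp only [Γ, mem_inter_iff, mem_iInter, dep_Ind, dep_Good]
  have hc := fun ω (hω : ω ∈ Γ) => cond_eq μ he hω.1 fun j hj =>
    mem_iInter₂.1 hω.2 j (Finset.mem_compl.2 hj)
  have h1 := cond_le (Measure.pi fun _ : ι => μ) hΓ hE dΓ measureReal_nonneg
    fun ω hω => (hc ω hω).le
  have h2 := cond_ge (Measure.pi fun _ : ι => μ) hΓ hE dΓ measureReal_le_one
    fun ω hω => (hc ω hω).ge
  have h3 := (FW (ι := {j // j ∉ S}) μ he).2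
  have h4 := Sur_bound (p := p) (ι := {j // j ∉ S}) (G := G)
  rw [hT] at h3 h4
  have h5 := univ_le μ σ S
  have hb := fun j (hj : j ∈ Sᶜ) => bad_le μ σ (Finset.mem_compl.1 hj)
  rw [hm] at h5 hb
  set P := Measure.pi fun _ : ι => Measure.pi fun _ : ι => μ
  have hU := U_pos (p := p) m
  have hU1 := U_le_one (p := p) m
  have hp := two_le_p (p := p)
  have h6 : P.real (Ind σ S) ≤ P.real Γ + m * ((U p (Fintype.card ι) -
      P.real (Ind σ Finset.univ)) / (U p m * ((p : ℝ)⁻¹) ^ m)) := by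
    have : Ind σ S ⊆ Γ ∪ ⋃ j ∈ Sᶜ, (Ind σ S \ Good σ S j) := fun ω hω => by
      by_contra hn
      simp only [mem_union, mem_iUnion, not_or, not_exists, Set.mem_sdiff, not_and, not_not] at hn
      exact hn.1 ⟨hω, mem_iInter₂.2 fun j hj => hn.2 j hj hω⟩
    refine (measureReal_mono this).trans ((measureReal_union_le _ _).trans (add_le_add le_rfl
      ((measureReal_biUnion_finset_le _ _).trans ((Finset.sum_le_card_nsmul _ _ _
        fun j hj => (le_div_iff₀' (by positivity)).2 (hb j hj)).trans ?_))))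
    rw [Finset.card_compl, hm, nsmul_eq_mul]
  have h7 := measureReal_inter_add_sdiff (μ := P) (s := EvS σ G) hΓ
  have h8 : P.real (EvS σ G \ Γ) ≤ 1 - P.real Γ := by
    rw [← probReal_compl_eq_one_sub hΓ]
    exact measureReal_mono fun ω hω => hω.2
  rw [inter_comm] at h7
  have h9 : P.real (Ind σ Finset.univ) / U p m ≤ P.real (Ind σ S) := (div_le_iff₀ hU).2 h5
  have h10 : 0 ≤ P.real (EvS σ G \ Γ) := measureReal_nonneg
  have h11 : P.real Γ ≤ 1 := measureReal_le_one
  set F := (Measure.pi fun _ : {j // j ∉ S} => Measure.pi fun _ : {j // j ∉ S} => μ).real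
      (Ev p {j // j ∉ S} G)
  have hF0 : 0 ≤ F := measureReal_nonneg
  have hF1 : F ≤ 1 := measureReal_le_one
  have h12 : |P.real (EvS σ G) - F| ≤ 1 - P.real Γ := by
    rw [abs_le]; constructor <;> nlinarith
  have h13 : |Nat.card (AddAut G) * F - U p m| ≤ Nat.card (Set G) * (1 / 2) ^ m := by
    have : (0 : ℝ) ≤ Nat.card (Set G) * (1 / 2) ^ m := by positivity
    rw [h3, abs_le]; constructor <;> nlinarith [h4.1, h4.2]
  have h14 : |Nat.card (AddAut G) * P.real (EvS σ G) - Nat.card (AddAut G) * F| ≤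
      Nat.card (AddAut G) * (1 - P.real Γ) := by
    rw [← mul_sub, abs_mul, Nat.abs_cast]
    gcongr
  refine (abs_sub_le _ _ _).trans ((add_le_add h14 h13).trans ?_)
  rw [add_comm]
  gcongr
  linarith

omit [MeasurableSpace ℤ_[p]] [BorelSpace ℤ_[p]] in
lemma cp_facts : Tendsto (U p) atTop (𝓝 (cp p)) ∧ cp p ≠ 0 := by
  have hp := two_le_p (p := p)
  have hs : Summable fun i : ℕ => -((p : ℝ)⁻¹) ^ (i + 1) :=
    ((summable_nat_add_iff 1).2 (summable_geometric_of_lt_one (by positivity)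
      (inv_lt_one_of_one_lt₀ (by linarith)))).neg
  unfold cp U
  simp only [sub_eq_add_neg]
  exact ⟨(Real.multipliable_one_add_of_summable hs).tendsto_prod_tprod_nat,
    tprod_one_add_ne_zero_of_summable
      (fun i => by rw [← sub_eq_add_neg]; exact (fac_pos i).ne') hs.norm⟩

omit [MeasurableSpace ℤ_[p]] [BorelSpace ℤ_[p]] in
lemma det_eq {n : ℕ} (σ : Fin n → Finset (Fin n)) :
    {ω : Fin n → Fin n → ℤ_[p] | ((mat σ ω).map PadicInt.toZMod).det ≠ 0} =
      Ind σ Finset.univ := by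
  ext ω
  simp only [mem_ofPred_eq, Ind, Finset.coe_univ, linearIndepOn_univ_iff, li_iff]
  rw [← Matrix.det_transpose]
  rfl

omit [MeasurableSpace ℤ_[p]] [BorelSpace ℤ_[p]] [Finite G] [Module ℤ_[p] G] in
lemma cok_eq {n : ℕ} (σ : Fin n → Finset (Fin n)) :
    {ω : Fin n → Fin n → ℤ_[p] | Nonempty (cok (mat σ ω) ≃+ G)} = EvS σ G := by
  ext ω
  have e := (quotEquivOfEq _ _ (Matrix.range_mulVecLin (mat σ ω))).toAddEquiv
  exact ⟨fun ⟨φ⟩ => ⟨e.symm.trans φ⟩, fun ⟨φ⟩ => ⟨e.trans φ⟩⟩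

omit [MeasurableSpace ℤ_[p]] [BorelSpace ℤ_[p]] in
lemma EvS_unit (σ : ι → Finset ι) : EvS (p := p) σ PUnit = Ind σ Finset.univ := by
  ext ω
  simp only [EvS, Ev, Ck, mem_ofPred_eq, Ind, Finset.coe_univ, linearIndepOn_univ_iff]
  refine Iff.trans ?_ (gen_iff fun j => mask (σ j) (ω j))
  rw [← Submodule.Quotient.subsingleton_iff]
  exact ⟨fun ⟨φ⟩ => φ.injective.subsingleton, fun _ =>
    have := uniqueOfSubsingleton (0 : (ι → ℤ_[p]) ⧸ span ℤ_[p] (range fun j => mask (σ j) (ω j)))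
    ⟨AddEquiv.ofUnique⟩⟩

lemma conv {e : ℕ} (he : ∀ g : G, p ^ e • g = 0) (σ : ∀ n, Fin n → Finset (Fin n))
    (h : Tendsto (fun n => (PP μ n).real (Ind (σ n) Finset.univ)) atTop (𝓝 (cp p))) :
    Tendsto (fun n => (PP μ n).real (EvS (σ n) G)) atTop (𝓝 (cp p / Nat.card (AddAut G))) := by
  obtain ⟨hU, hc⟩ := cp_facts (p := p)
  have : Finite (AddAut G) := Finite.of_injective (fun α : AddAut G => (α : G → G))
    DFunLike.coe_injective
  have hA : (0 : ℝ) < Nat.card (AddAut G) := by exact_mod_cast Nat.card_pos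
  set A : ℝ := (Nat.card (AddAut G) : ℝ)
  set K : ℝ := (Nat.card (Set G) : ℝ)
  suffices Tendsto (fun n => A * (PP μ n).real (EvS (σ n) G)) atTop (𝓝 (cp p)) by
    simpa [hA.ne'] using this.div_const A
  have h1 : Tendsto (fun m : ℕ => |U p m - cp p| + (K * (1 / 2) ^ m +
      A * (1 - cp p / U p m + m * ((cp p - cp p) / (U p m * ((p : ℝ)⁻¹) ^ m))))) atTop (𝓝 0) := by
    have := (hU.sub_const (cp p)).abs.add
      (((tendsto_pow_atTop_nhds_zero_of_lt_one (r := (1 / 2 : ℝ)) (by norm_num)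
      (by norm_num)).const_mul K).add
        (((tendsto_const_nhds (x := cp p)).div hU hc).const_sub 1 |>.const_mul A))
    simpa [hc] using this
  rw [Metric.tendsto_atTop]
  intro ε hε
  obtain ⟨m, hm⟩ := (h1.eventually (gt_mem_nhds hε)).exists
  have h2 : Tendsto (fun n : ℕ => |U p m - cp p| + (K * (1 / 2) ^ m +
      A * (1 - (PP μ n).real (Ind (σ n) Finset.univ) / U p m + m *
        ((U p n - (PP μ n).real (Ind (σ n) Finset.univ)) / (U p m * ((p : ℝ)⁻¹) ^ m))))) atTop _ :=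
    ((((h.div_const _).const_sub 1).add (((hU.sub h).div_const _).const_mul _)).const_mul
      A |>.const_add _).const_add _
  obtain ⟨N, hN⟩ := eventually_atTop.1 ((h2.eventually (gt_mem_nhds hm)).and
    (eventually_ge_atTop m))
  refine ⟨N, fun n hn => ?_⟩
  obtain ⟨h3, h4⟩ := hN n hn
  obtain ⟨S, -, hS⟩ := Finset.exists_subset_card_eq (s := (Finset.univ : Finset (Fin n)))
    (n := n - m) (by simp)
  have h5 := main_est μ he (σ n) S (m := m) (by rw [hS, Fintype.card_fin]; omega)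
  rw [Fintype.card_fin] at h5
  rw [Real.dist_eq]
  refine lt_of_le_of_lt ((abs_sub_le _ (U p m) _).trans ?_) h3
  rw [add_comm]
  exact add_le_add le_rfl h5

theorem main (σ : ∀ n, Fin n → Finset (Fin n)) :
    (∀ (G : Type) [AddCommGroup G] [Finite G], (∃ e : ℕ, Nat.card G = p ^ e) →
      Tendsto (fun n => (PP μ n).real {ω | Nonempty (cok (mat (σ n) ω) ≃+ G)}) atTop
        (𝓝 (cp p / Nat.card (AddAut G)))) ↔
    Tendsto (fun n => (PP μ n).real {ω | ((mat (σ n) ω).map PadicInt.toZMod).det ≠ 0}) atTop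
      (𝓝 (cp p)) := by
  simp only [det_eq, cok_eq]
  refine ⟨fun h => ?_, fun h G _ _ ⟨e, he⟩ => ?_⟩
  · have := h PUnit ⟨0, by simp⟩
    have h1 : Nat.card (AddAut PUnit.{1}) = 1 := Nat.card_eq_one_iff_unique.2
      ⟨⟨fun _ _ => by ext⟩, ⟨AddEquiv.refl _⟩⟩
    simpa only [EvS_unit, h1, Nat.cast_one, div_one] using this
  · have he' : ∀ g : G, p ^ e • g = 0 := fun g => he ▸ card_nsmul_eq_zero'
    let := AddCommGroup.zmodModule he'
    let : Module ℤ_[p] G := Module.compHom G (PadicInt.toZModPow e)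
    exact conv μ he' σ h

end Pool.Agent.H44.CL
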