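import Mathlib

/-! Haar-random `p`-adic matrices with a prescribed support. -/

open MeasureTheory

namespace Pool.Agent.H44.CL

/-- The matrix whose `(i, j)` entry is `ω j i` if `i ∈ σ j` and `0` otherwise. -/
noncomputable def mat {p n : ℕ} [Fact p.Prime] (σ : Fin n → Finset (Fin n)) (ω : Fin n → Fin n → ℤ_[p]) :
    Matrix (Fin n) (Fin n) ℤ_[p] :=
  fun i j => if i ∈ σ j then ω j i else 0

/-- The cokernel `ℤ_p^n / X ℤ_p^n`. -/
abbrev cok {p n : ℕ} [Fact p.Prime] (X : Matrix (Fin n) (Fin n) ℤ_[p]) : Type :=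
  (Fin n → ℤ_[p]) ⧸ LinearMap.range X.mulVecLin

/-- The law of `n * n` independent entries, each of law `μ`. -/
noncomputable def PP {p : ℕ} [Fact p.Prime] [MeasurableSpace ℤ_[p]] (μ : Measure ℤ_[p]) (n : ℕ) :
    Measure (Fin n → Fin n → ℤ_[p]) :=
  Measure.pi fun _ => Measure.pi fun _ => μ

/-- `c_p = ∏_{i ≥ 1} (1 - p^{-i})`. -/
noncomputable def cp (p : ℕ) : ℝ := ∏' i : ℕ, (1 - ((p : ℝ)⁻¹) ^ (i + 1))

end Pool.Agent.H44.CL
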