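import Mathlib

/-! A measure with the convex Poincare inequality and a heavy lower tail. -/

open Finset Filter MeasureTheory ProbabilityTheory
open scoped ENNReal Topology

namespace Pool.Agent.H44.Cvx

def fl {n : ℕ} (i : Fin n) (s : Fin n → Bool) : Fin n → Bool := Function.update s i (!s i)

lemma fl_fl {n : ℕ} (i : Fin n) (s : Fin n → Bool) : fl i (fl i s) = s := by simp [fl]

lemma sum_cons {n : ℕ} (h : (Fin (n + 1) → Bool) → ℝ) :
    ∑ s, h s = ∑ s, h (Fin.cons true s) + ∑ s, h (Fin.cons false s) := by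
  rw [← (Fin.consEquiv fun _ => Bool).sum_comp, Fintype.sum_prod_type, Fintype.sum_bool]
  rfl

lemma es (n : ℕ) (h : (Fin n → Bool) → ℝ) :
    2 ^ n * ∑ s, h s ^ 2 - (∑ s, h s) ^ 2 ≤ 2 ^ n / 4 * ∑ s, ∑ i, (h s - h (fl i s)) ^ 2 := by
  induction n with
  | zero => simp
  | succ n ih =>
    have e0 : ∀ (b : Bool) (s : Fin n → Bool),
        fl 0 (Fin.cons b s : Fin (n + 1) → Bool) = Fin.cons (!b) s := fun b s => by
      simp [fl, Fin.update_cons_zero]
    have e1 : ∀ (b : Bool) (s : Fin n → Bool) (i : Fin n),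
        fl i.succ (Fin.cons b s : Fin (n + 1) → Bool) = Fin.cons b (fl i s) := fun b s i => by
      simp [fl, Fin.cons_update]
    have a := ih fun s => h (Fin.cons true s)
    have b := ih fun s => h (Fin.cons false s)
    have c := sq_sum_le_card_mul_sum_sq (s := univ)
      (f := fun s : Fin n → Bool => h (Fin.cons true s) - h (Fin.cons false s))
    have d : ∑ s : Fin n → Bool, (h (Fin.cons false s) - h (Fin.cons true s)) ^ 2 =
      ∑ s : Fin n → Bool, (h (Fin.cons true s) - h (Fin.cons false s)) ^ 2 :=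
      sum_congr rfl fun s _ => by ring
    rw [sum_sub_distrib] at c
    simp only [card_univ, Fintype.card_fun, Fintype.card_bool, Fintype.card_fin, Nat.cast_pow,
      Nat.cast_ofNat] at c
    simp only [sum_cons, Fin.sum_univ_succ, e0, e1, sum_add_distrib, Bool.not_true, Bool.not_false,
      d, pow_succ (2 : ℝ) n]
    nlinarith

lemma es' (n : ℕ) (h : (Fin n → Bool) → ℝ) :
    ∑ s, (h s - (∑ s, h s) / 2 ^ n) ^ 2 ≤ 1 / 2 * ∑ s, ∑ i, max (h s - h (fl i s)) 0 ^ 2 := by
  have e : ∑ s, ∑ i, (h s - h (fl i s)) ^ 2 = 2 * ∑ s, ∑ i, max (h s - h (fl i s)) 0 ^ 2 := by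
    rw [sum_comm, sum_comm (s := univ) (t := univ) (f := fun s i => max (h s - h (fl i s)) 0 ^ 2),
      mul_sum]
    refine sum_congr rfl fun i _ => ?_
    have := Equiv.sum_comp (Function.Involutive.toPerm (fl i) (fl_fl i))
      fun s => max (h s - h (fl i s)) 0 ^ 2
    simp only [Function.Involutive.coe_toPerm, fl_fl] at this
    rw [two_mul]
    nth_rewrite 2 [← this]
    rw [← sum_add_distrib]
    refine sum_congr rfl fun s _ => ?_
    rcases le_total (h s) (h (fl i s)) with k | k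
    · rw [max_eq_right (by linarith), max_eq_left (by linarith)]; ring
    · rw [max_eq_left (by linarith), max_eq_right (by linarith)]; ring
  have a := es n h
  have N : (0 : ℝ) < 2 ^ n := by positivity
  have b : ∑ s, (h s - (∑ s, h s) / 2 ^ n) ^ 2 = ∑ s, h s ^ 2 - (∑ s, h s) ^ 2 / 2 ^ n := by
    simp only [sub_sq, sum_add_distrib, sum_sub_distrib, ← sum_mul, ← mul_sum, sum_const, card_univ,
      Fintype.card_fun, Fintype.card_bool, Fintype.card_fin, nsmul_eq_mul, Nat.cast_pow,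
      Nat.cast_ofNat]
    field_simp
    ring
  rw [b, sub_le_iff_le_add, ← sub_le_iff_le_add', le_div_iff₀ N]
  rw [e] at a
  nlinarith

abbrev EE (n : ℕ) : Type := EuclideanSpace ℝ (Fin n)

noncomputable def GG {n : ℕ} (g : EE n → ℝ) (x : EE n) : ℝ≥0∞ :=
  limsup (fun y => ENNReal.ofReal (|g y - g x| / dist y x)) (𝓝[≠] x)

lemma GG_ne {n : ℕ} {g : EE n → ℝ} {L : NNReal} (h : LipschitzWith L g) (x : EE n) :
    GG g x ≠ ⊤ := by
  refine ne_top_of_le_ne_top (ENNReal.ofReal_ne_top (r := L)) (limsup_le_of_le (h := .of_forall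
    fun y => ENNReal.ofReal_le_ofReal (div_le_of_le_mul₀ dist_nonneg L.2 ?_)))
  exact h.dist_le_mul y x

lemma slope {n : ℕ} {g : EE n → ℝ} {L : NNReal} (h : LipschitzWith L g) (x v : EE n) (hv : v ≠ 0)
    {b δ : ℝ} (hδ : 0 < δ) (k : ∀ s, 0 < s → s < δ → g (x + s • v) ≤ g x - s * b) :
    b ≤ (GG g x).toReal * ‖v‖ := by
  have nv := norm_pos_iff.2 hv
  rw [← div_le_iff₀ nv, ← ENNReal.ofReal_le_iff_le_toReal (GG_ne h x)]
  have t : Tendsto (fun s : ℝ => x + s • v) (𝓝[>] 0) (𝓝[≠] x) := by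
    refine tendsto_nhdsWithin_iff.2 ⟨?_, ?_⟩
    · have : Continuous fun s : ℝ => x + s • v := by fun_prop
      simpa using (this.tendsto 0).mono_left nhdsWithin_le_nhds
    · filter_upwards [self_mem_nhdsWithin] with s hs
      simp [hv, (show 0 < s from hs).ne']
  refine le_limsup_of_frequently_le (t.frequently (Eventually.frequently ?_))
  filter_upwards [Ioo_mem_nhdsGT hδ] with s hs
  refine ENNReal.ofReal_le_ofReal ?_
  rw [dist_self_add_left, norm_smul, Real.norm_of_nonneg hs.1.le,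
    div_le_div_iff₀ nv (mul_pos hs.1 nv)]
  have := neg_le_abs (g (x + s • v) - g x)
  nlinarith [k s hs.1 hs.2]

noncomputable def cu {n : ℕ} (s : Fin n → Bool) : EE n := WithLp.toLp 2 fun i => if s i then 1 else -1

lemma cu_norm {n : ℕ} (s : Fin n → Bool) : ‖cu s‖ = √n := by
  rw [EuclideanSpace.norm_eq]
  congr 1
  rw [sum_congr rfl (g := fun _ => 1) fun i _ => by cases h : s i <;> simp [cu, h]]
  simp

lemma cu_not {n : ℕ} (s : Fin n → Bool) : cu (fun i => !s i) = -cu s := by
  ext i; cases h : s i <;> simp [cu, h]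

variable {n : ℕ} {g : EE n → ℝ} {L : NNReal}

lemma grad1 (hc : ConvexOn ℝ Set.univ g) (h : LipschitzWith L g) (s : Fin n → Bool) :
    ∑ i, max (g (cu s) - g (cu (fl i s))) 0 ^ 2 ≤ 4 * (GG g (cu s)).toReal ^ 2 := by
  set a := fun i => max (g (cu s) - g (cu (fl i s))) 0 with ha
  have a0 : ∀ i, 0 ≤ a i := fun i => le_max_right _ _
  let v : EE n := WithLp.toLp 2 fun i => -(a i * cu s i)
  have nv : ‖v‖ ^ 2 = ∑ i, a i ^ 2 := by
    rw [EuclideanSpace.norm_sq_eq]
    exact sum_congr rfl fun i _ => by cases h : s i <;> simp [v, cu, h]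
  by_cases hv : v = 0
  · rw [← nv, hv, norm_zero, zero_pow two_ne_zero]; positivity
  have S : 0 ≤ ∑ i, a i := sum_nonneg fun i _ => a0 i
  have := slope h (cu s) v hv (b := ‖v‖ ^ 2 / 2) (δ := 1 / (∑ i, a i + 1)) (by positivity)
    fun t t0 t1 => by
    have w : t * ∑ i, a i / 2 ≤ 1 := by
      rw [lt_div_iff₀ (by positivity)] at t1
      rw [← sum_div]; nlinarith
    have := hc.map_sum_le (t := univ) (w := fun o : Option (Fin n) =>
        o.elim (1 - t * ∑ i, a i / 2) fun i => t * (a i / 2))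
      (p := fun o => o.elim (cu s) fun i => cu (fl i s))
      (fun o _ => by
        cases o with
        | none => simpa using w
        | some i => exact mul_nonneg t0.le (by linarith [a0 i]))
      (by simp [Fintype.sum_option, mul_sum]) fun _ _ => trivial
    simp only [Fintype.sum_option, Option.elim, smul_eq_mul] at this
    have e : (1 - t * ∑ i, a i / 2) • cu s + ∑ i, (t * (a i / 2)) • cu (fl i s) = cu s + t • v := by
      ext j
      have : ∀ i, cu (fl i s) j = cu s j - if i = j then 2 * cu s j else 0 := fun i => by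
        by_cases e : i = j
        · subst e; cases h : s i <;> simp [cu, fl, h] <;> norm_num
        · simp [cu, fl, e, Function.update_of_ne (Ne.symm e)]
      simp only [v, PiLp.add_apply, PiLp.smul_apply, smul_eq_mul, WithLp.ofLp_sum, Finset.sum_apply,
        WithLp.ofLp_smul, Pi.smul_apply, this, mul_sub, sum_sub_distrib, mul_ite, mul_zero,
        sum_ite_eq', mem_univ, if_true, ← sum_mul, ← mul_sum]
      ring
    rw [e] at this
    refine this.trans (le_of_eq ?_)
    have k : ∀ i, t * (a i / 2) * g (cu (fl i s)) = t * (a i / 2) * g (cu s) - t * (a i ^ 2 / 2) :=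
      fun i => by
      rcases le_total (g (cu s) - g (cu (fl i s))) 0 with k | k
      · simp [ha, max_eq_right k]
      · simp only [ha, max_eq_left k]; ring
    simp only [k, sum_sub_distrib, ← sum_mul, ← mul_sum, nv, sum_div]
    ring
  have p := norm_pos_iff.2 hv
  rw [← nv]
  have q : ‖v‖ ≤ 2 * (GG g (cu s)).toReal := by nlinarith
  nlinarith

lemma grad2 (hn : 1 ≤ n) (hc : ConvexOn ℝ Set.univ g) (h : LipschitzWith L g) (s : Fin n → Bool) :
    g (cu s) - g 0 ≤ (GG g (cu s)).toReal * √n := by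
  have := slope h (cu s) (-cu s) (b := g (cu s) - g 0) (δ := 1)
    (by rw [← norm_pos_iff, norm_neg, cu_norm]; positivity) one_pos fun t t0 t1 => by
    have := hc.2 (Set.mem_univ (cu s)) (Set.mem_univ 0) (by linarith : 0 ≤ 1 - t) t0.le
      (by ring)
    rw [show (1 - t) • cu s + t • (0 : EE n) = cu s + t • -cu s by module] at this
    simp only [smul_eq_mul] at this
    linarith
  rwa [norm_neg, cu_norm] at this

lemma jensen (hc : ConvexOn ℝ Set.univ g) : 0 ≤ ∑ s : Fin n → Bool, (g (cu s) - g 0) := by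
  have := Equiv.sum_comp (Function.Involutive.toPerm (fun (s : Fin n → Bool) i => !s i)
    fun s => by simp) fun s => g (cu s) - g 0
  simp only [Function.Involutive.coe_toPerm, cu_not] at this
  have k : 0 ≤ ∑ s : Fin n → Bool, ((g (cu s) - g 0) + (g (-cu s) - g 0)) :=
    sum_nonneg fun s _ => by
      have := hc.2 (Set.mem_univ (cu s)) (Set.mem_univ (-cu s))
        (by norm_num : (0 : ℝ) ≤ 1 / 2) (by norm_num : (0 : ℝ) ≤ 1 / 2) (by norm_num)
      rw [show (1 / 2 : ℝ) • cu s + (1 / 2 : ℝ) • -cu s = 0 by module] at this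
      simp only [smul_eq_mul] at this
      linarith
  rw [sum_add_distrib, this] at k
  linarith

lemma realineq (hn : 2 ≤ n) (hc : ConvexOn ℝ Set.univ g) (h : LipschitzWith L g) {p q M : ℝ}
    (hp : p = 1 / n) (hq : q = (1 - p) / 2 ^ n) (hM : M = p * g 0 + ∑ s, q * g (cu s)) :
    p * (g 0 - M) ^ 2 + ∑ s, q * (g (cu s) - M) ^ 2 ≤
      4 * ∑ s : Fin n → Bool, q * (GG g (cu s)).toReal ^ 2 := by
  have N : (0 : ℝ) < 2 ^ n := by positivity
  have n2 : (2 : ℝ) ≤ n := by exact_mod_cast hn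
  have p0 : 0 < p := by rw [hp]; positivity
  have pn : p * n = 1 := by rw [hp]; field_simp
  have p2 : p ≤ 1 / 2 := by nlinarith
  have qN : q * 2 ^ n = 1 - p := by rw [hq]; field_simp
  have q0 : 0 < q := by rw [hq]; exact div_pos (by linarith) N
  set a := (∑ s, g (cu s)) / 2 ^ n with ha
  set Γ := ∑ s : Fin n → Bool, (GG g (cu s)).toReal ^ 2
  have aN : ∑ s, g (cu s) = a * 2 ^ n := by rw [ha]; field_simp
  have e1 := (es' n fun s => g (cu s)).trans (mul_le_mul_of_nonneg_left
    (sum_le_sum fun s _ => grad1 hc h s) (by norm_num))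
  rw [← mul_sum, ← ha] at e1
  have cd : ((univ : Finset (Fin n → Bool)).card : ℝ) = 2 ^ n := by simp
  have D : ∑ s : Fin n → Bool, (g (cu s) - g 0) = (a - g 0) * 2 ^ n := by
    rw [sum_sub_distrib, aN, sum_const, nsmul_eq_mul, cd]; ring
  have e2 : ((a - g 0) * 2 ^ n) ^ 2 ≤ 2 ^ n * Γ * n := by
    have := pow_le_pow_left₀ (jensen hc) (sum_le_sum fun s _ => grad2 (by omega) hc h s) 2
    rw [D, ← sum_mul, mul_pow _ √n, Real.sq_sqrt (by positivity)] at this
    refine this.trans (mul_le_mul_of_nonneg_right ?_ (by positivity))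
    rw [← cd]; exact sq_sum_le_card_mul_sum_sq
  have e3 : p * (a - g 0) ^ 2 ≤ 2 * q * Γ := by
    have G0 : 0 ≤ Γ := sum_nonneg fun _ _ => sq_nonneg _
    have : (a - g 0) ^ 2 * 2 ^ n ≤ Γ * n := by
      refine le_of_mul_le_mul_right ?_ N
      nlinarith
    refine le_of_mul_le_mul_right ?_ N
    calc p * (a - g 0) ^ 2 * 2 ^ n = p * ((a - g 0) ^ 2 * 2 ^ n) := by ring
      _ ≤ p * (Γ * n) := by gcongr
      _ = Γ := by rw [mul_comm Γ, ← mul_assoc, pn, one_mul]
      _ ≤ 2 * (q * 2 ^ n) * Γ := by rw [qN]; nlinarith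
      _ = _ := by ring
  have e4 : ∑ s, (g (cu s) - M) ^ 2 = ∑ s, (g (cu s) - a) ^ 2 + 2 ^ n * (a - M) ^ 2 := by
    have : ∀ s, (g (cu s) - M) ^ 2 = (g (cu s) - a) ^ 2 + (2 * (a - M) * g (cu s) +
      (M ^ 2 - a ^ 2)) := fun s => by ring
    simp only [this, sum_add_distrib, ← mul_sum, aN, sum_const, nsmul_eq_mul, cd]
    ring
  rw [← mul_sum, aN, ← mul_assoc, mul_right_comm, qN] at hM
  rw [← mul_sum, ← mul_sum, e4, mul_add, ← mul_assoc q, qN]
  have : p * (g 0 - M) ^ 2 + (1 - p) * (a - M) ^ 2 ≤ p * (a - g 0) ^ 2 := by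
    rw [hM]; nlinarith [sq_nonneg (p * (a - g 0))]
  nlinarith

noncomputable def mu (n : ℕ) : Measure (EE n) :=
  ENNReal.ofReal (1 / n) • Measure.dirac 0 +
    ∑ s : Fin n → Bool, ENNReal.ofReal ((1 - 1 / n) / 2 ^ n) • Measure.dirac (cu s)

lemma lint (F : EE n → ℝ≥0∞) : ∫⁻ x, F x ∂mu n = ENNReal.ofReal (1 / n) * F 0 +
    ∑ s : Fin n → Bool, ENNReal.ofReal ((1 - 1 / n) / 2 ^ n) * F (cu s) := by
  simp only [mu, lintegral_add_measure, lintegral_finsetSum_measure, lintegral_smul_measure,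
    lintegral_dirac, smul_eq_mul]

lemma tot (hn : 2 ≤ n) : ∑ _s : Fin n → Bool, ENNReal.ofReal ((1 - 1 / n) / 2 ^ n) =
    ENNReal.ofReal (1 - 1 / n) := by
  rw [sum_const, nsmul_eq_mul, ← ENNReal.ofReal_natCast, ← ENNReal.ofReal_mul (by positivity)]
  congr 1
  simp only [card_univ, Fintype.card_fun, Fintype.card_bool, Fintype.card_fin, Nat.cast_pow,
    Nat.cast_ofNat]
  field_simp

lemma half (hn : 2 ≤ n) : (1 / n : ℝ) ≤ 1 / 2 :=
  one_div_le_one_div_of_le two_pos (by exact_mod_cast hn)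

lemma prob (hn : 2 ≤ n) : IsProbabilityMeasure (mu n) := ⟨by
  rw [← lintegral_one, lint]
  simp only [mul_one]
  rw [tot hn, ← ENNReal.ofReal_add (by positivity) (by linarith [half hn])]
  simp⟩

theorem poincare (hn : 2 ≤ n) (hc : ConvexOn ℝ Set.univ g) (h : LipschitzWith L g) :
    evariance g (mu n) ≤ ENNReal.ofReal 4 * ∫⁻ x, GG g x ^ 2 ∂mu n := by
  have p0 : (0 : ℝ) ≤ 1 / n := by positivity
  have q0 : (0 : ℝ) ≤ (1 - 1 / n) / 2 ^ n := div_nonneg (by linarith [half hn]) (by positivity)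
  have hM : ∫ x, g x ∂mu n = 1 / n * g 0 + ∑ s, (1 - 1 / n) / 2 ^ n * g (cu s) := by
    have i : ∀ (c : ℝ) (x : EE n), Integrable g (ENNReal.ofReal c • Measure.dirac x) :=
      fun c x => (integrable_dirac (by simp)).smul_measure ENNReal.ofReal_ne_top
    rw [mu, integral_add_measure (i _ _) (integrable_finsetSum_measure.2 fun s _ => i _ _),
      integral_finsetSum_measure fun s _ => i _ _]
    simp only [integral_smul_measure, integral_dirac, smul_eq_mul, ENNReal.toReal_ofReal p0,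
      ENNReal.toReal_ofReal q0]
  have k := ENNReal.ofReal_le_ofReal (realineq hn hc h rfl rfl hM)
  rw [evariance_eq_lintegral_ofReal, lint, lint]
  rw [ENNReal.ofReal_add (by positivity) (sum_nonneg fun _ _ => by positivity),
    ENNReal.ofReal_mul p0, ENNReal.ofReal_mul (by norm_num),
    ENNReal.ofReal_sum_of_nonneg fun _ _ => by positivity,
    ENNReal.ofReal_sum_of_nonneg fun _ _ => by positivity] at k
  simp only [ENNReal.ofReal_mul q0, ENNReal.ofReal_pow ENNReal.toReal_nonneg,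
    ENNReal.ofReal_toReal (GG_ne h _)] at k
  exact k.trans (by gcongr; exact le_add_self)

end Pool.Agent.H44.Cvx
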