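import Pool.Agent.H44.DCDefs

open MeasureTheory ProbabilityTheory Real Finset

namespace Pool.Agent.H44.DC

variable {N : ℕ}

def xx (j : Fin (N / 4)) : Fin 4 ↪ Fin N :=
  ⟨fun r => ⟨4 * j + r, by have := j.2; have := r.2; omega⟩, fun r s h => by
    have := congrArg Fin.val h; simp only at this; exact Fin.ext (by omega)⟩

lemma xx_val (j : Fin (N / 4)) (r : Fin 4) : (xx j r).val = 4 * j + r := rfl

lemma xx_eq {j j' : Fin (N / 4)} {r r' : Fin 4} : xx j r = xx j' r' ↔ j = j' ∧ r = r' := by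
  refine ⟨fun h => ?_, fun h => by rw [h.1, h.2]⟩
  have := congrArg Fin.val h
  rw [xx_val, xx_val] at this
  have := r.2; have := r'.2
  exact ⟨Fin.ext (by omega), Fin.ext (by omega)⟩

def ed (j : Fin (N / 4)) (m : Fin 4) : Finset (Fin N) := (univ.erase m).map (xx j)

lemma mem_ed {j j' : Fin (N / 4)} {m r : Fin 4} : xx j' r ∈ ed j m ↔ j = j' ∧ r ≠ m := by
  simp only [ed, mem_map, mem_erase, mem_univ, and_true, xx_eq]
  exact ⟨fun ⟨a, h1, h2, h3⟩ => ⟨h2, h3 ▸ h1⟩, fun h => ⟨r, h.2, h.1, rfl⟩⟩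

def EE (N : ℕ) : Finset (Finset (Fin N)) :=
  (univ ×ˢ (univ.erase 0)).image fun p : Fin (N / 4) × Fin 4 => ed p.1 p.2

lemma mem_EE {e : Finset (Fin N)} : e ∈ EE N ↔ ∃ j m, m ≠ 0 ∧ ed j m = e := by
  simp [EE]

lemma card_EE {e : Finset (Fin N)} (h : e ∈ EE N) : e.card = 3 := by
  obtain ⟨j, m, -, rfl⟩ := mem_EE.1 h
  simp [ed]

lemma ed_div {j : Fin (N / 4)} {m : Fin 4} {v : Fin N} (h : v ∈ ed j m) : v.val / 4 = j := by
  obtain ⟨r, -, rfl⟩ := mem_map.1 h
  have := r.2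
  rw [xx_val]; omega

lemma ball_card (r : ℕ) (v : Fin N) : (ball (EE N) r v).ncard ≤ 4 := by
  have h1 : ∀ w ∈ ball (EE N) r v, w.val / 4 = v.val / 4 := by
    rintro w (rfl | ⟨k, -, e, h1, h2, h3, h4⟩)
    · rfl
    have : ∀ j ≤ k, ∀ u ∈ e j, u.val / 4 = v.val / 4 := by
      intro j
      induction j with
      | zero =>
        intro hj u hu
        obtain ⟨a, m, -, he⟩ := mem_EE.1 (h1 0 hj)
        rw [← he] at hu h2
        rw [ed_div hu, ed_div h2]
      | succ j ih =>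
        intro hj u hu
        obtain ⟨a, m, -, he⟩ := mem_EE.1 (h1 _ hj)
        obtain ⟨z, hz⟩ := h4 j hj
        rw [mem_inter] at hz
        rw [← ih (by omega) z hz.1]
        rw [← he] at hu hz
        rw [ed_div hu, ed_div hz.2]
    exact this k le_rfl w h3
  have h2 := Set.ncard_le_ncard_of_injOn (s := ball (EE N) r v) (t := (range 4 : Finset ℕ))
    (fun w => w.val % 4) (fun w _ => by simpa using Nat.mod_lt _ (by norm_num))
    (fun a ha b hb h => Fin.ext (by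
      have := h1 a ha; have := h1 b hb; simp only at h; omega)) (Finset.finite_toSet _)
  simpa using h2

def fl (x : Fin N) : (Fin N → Bool) ≃ (Fin N → Bool) where
  toFun σ i := if i = x then !σ i else σ i
  invFun σ i := if i = x then !σ i else σ i
  left_inv σ := by funext i; by_cases h : i = x <;> simp [h]
  right_inv σ := by funext i; by_cases h : i = x <;> simp [h]

lemma spin_fl (x : Fin N) (σ : Fin N → Bool) (i : Fin N) :
    spin (fl x σ i) = (if i = x then -1 else 1) * spin (σ i) := by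
  by_cases h : i = x
  · simp only [fl, Equiv.coe_fn_mk, h, if_true]; cases σ x <;> simp [spin]
  · simp [fl, h]

def sp (e : Finset (Fin N)) (σ : Fin N → Bool) : ℝ := ∏ i ∈ e, spin (σ i)

lemma sp_fl (x : Fin N) (σ : Fin N → Bool) (e : Finset (Fin N)) :
    sp e (fl x σ) = (if x ∈ e then -1 else 1) * sp e σ := by
  simp only [sp, spin_fl, prod_mul_distrib, prod_ite_eq']

lemma spin_sq (b : Bool) : spin b * spin b = 1 := by cases b <;> simp [spin]

lemma sp_cases (e : Finset (Fin N)) (σ : Fin N → Bool) : sp e σ = 1 ∨ sp e σ = -1 := by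
  rw [← mul_self_eq_one_iff, sp, ← prod_mul_distrib]; simp [spin_sq]

lemma anti {φ : (Fin N → Bool) ≃ (Fin N → Bool)} {F : (Fin N → Bool) → ℝ}
    (h : ∀ σ, F (φ σ) = -F σ) : ∑ σ, F σ = 0 := by
  have := φ.sum_comp F
  simp only [h, sum_neg_distrib] at this
  linarith

variable {E : Finset (Finset (Fin N))}

noncomputable def W (K : E → ℝ) (σ : Fin N → Bool) : ℝ := exp (∑ e : E, K e * sp e.1 σ)

lemma tanh_step (K : E → ℝ) (a : E) (φ : (Fin N → Bool) ≃ (Fin N → Bool))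
    (h1 : ∀ σ, sp a.1 (φ σ) = -sp a.1 σ) (h2 : ∀ e : E, e ≠ a → ∀ σ, sp e.1 (φ σ) = sp e.1 σ)
    (F : (Fin N → Bool) → ℝ) (hF : ∀ σ, F (φ σ) = F σ) :
    ∑ σ, F σ * sp a.1 σ * W K σ = tanh (K a) * ∑ σ, F σ * W K σ := by
  set R : (Fin N → Bool) → ℝ := fun σ => exp (∑ e ∈ univ.erase a, K e * sp e.1 σ) with hR
  have hW : ∀ σ, W K σ = (cosh (K a) + sp a.1 σ * sinh (K a)) * R σ := fun σ => by
    rw [W, ← add_sum_erase _ _ (mem_univ a), exp_add]
    congr 1
    rcases sp_cases a.1 σ with h | h <;> rw [h]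
    · simp
    · rw [mul_neg, mul_one, neg_one_mul, ← sub_eq_add_neg, cosh_sub_sinh]
  have hz : ∑ σ, F σ * sp a.1 σ * R σ = 0 := anti (φ := φ) fun σ => by
    have : R (φ σ) = R σ := by
      simp only [hR]; congr 1
      exact sum_congr rfl fun e he => by rw [h2 e (ne_of_mem_erase he)]
    rw [hF, h1, this]; ring
  have e1 : ∑ σ, F σ * sp a.1 σ * W K σ =
      cosh (K a) * ∑ σ, F σ * sp a.1 σ * R σ + sinh (K a) * ∑ σ, F σ * R σ := by
    rw [mul_sum, mul_sum, ← sum_add_distrib]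
    refine sum_congr rfl fun σ _ => ?_
    rw [hW]
    rcases sp_cases a.1 σ with h | h <;> rw [h] <;> ring
  have e2 : ∑ σ, F σ * W K σ =
      cosh (K a) * ∑ σ, F σ * R σ + sinh (K a) * ∑ σ, F σ * sp a.1 σ * R σ := by
    rw [mul_sum, mul_sum, ← sum_add_distrib]
    exact sum_congr rfl fun σ _ => by rw [hW]; ring
  rw [e1, e2, hz, tanh_eq_sinh_div_cosh]
  have := (cosh_pos (K a)).ne'
  field_simp; ring

def eg (j : Fin (N / 4)) (m : Fin 4) (h : m ≠ 0) : EE N := ⟨ed j m, mem_EE.2 ⟨j, m, h, rfl⟩⟩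

def ph (j : Fin (N / 4)) (m : Fin 4) : (Fin N → Bool) ≃ (Fin N → Bool) :=
  (fl (xx j 0)).trans (fl (xx j m))

lemma sp_ph (j j' : Fin (N / 4)) {m m' : Fin 4} (h' : m' ≠ 0) (σ : Fin N → Bool) :
    sp (ed j' m') (ph j m σ) = (if j' = j ∧ m' = m then -1 else 1) * sp (ed j' m') σ := by
  rw [ph, Equiv.trans_apply, sp_fl, sp_fl]
  simp only [mem_ed]
  by_cases h1 : j' = j
  · by_cases h2 : m' = m
    · subst h2; simp [h1, h'.symm]
    · simp [h1, h2, h'.symm, Ne.symm h2]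
  · simp [h1]

lemma ph_self (j : Fin (N / 4)) {m : Fin 4} (h : m ≠ 0) (σ : Fin N → Bool) :
    sp (eg j m h).1 (ph j m σ) = -sp (eg j m h).1 σ := by
  rw [eg, sp_ph j j h]; simp

lemma ph_other (j : Fin (N / 4)) {m : Fin 4} (h : m ≠ 0) (e : EE N) (he : e ≠ eg j m h)
    (σ : Fin N → Bool) : sp e.1 (ph j m σ) = sp e.1 σ := by
  obtain ⟨j', m', h', he'⟩ := mem_EE.1 e.2
  rw [← he', sp_ph j j' h', if_neg, one_mul]
  rintro ⟨rfl, rfl⟩
  exact he (Subtype.ext he'.symm)

lemma eg_ne (j : Fin (N / 4)) {m m' : Fin 4} (h : m ≠ 0) (h' : m' ≠ 0) (hm : m ≠ m') :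
    eg j m h ≠ eg j m' h' := fun e => by
  have h1 : ed j m = ed j m' := congrArg Subtype.val e
  have : xx j m ∈ ed j m' := mem_ed.2 ⟨rfl, hm⟩
  rw [← h1] at this
  exact (mem_ed.1 this).2 rfl

lemma mag0 (K : EE N → ℝ) (j : Fin (N / 4)) : ∑ σ, spin (σ (xx j 0)) * W K σ =
    tanh (K (eg j 1 (by decide))) * tanh (K (eg j 2 (by decide))) * tanh (K (eg j 3 (by decide))) *
      ∑ σ, W K σ := by
  have n1 : (1 : Fin 4) ≠ 0 := by decide
  have n2 : (2 : Fin 4) ≠ 0 := by decide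
  have n3 : (3 : Fin 4) ≠ 0 := by decide
  set a := eg j 1 n1
  set b := eg j 2 n2
  set c := eg j 3 n3
  have e : ∀ σ : Fin N → Bool, spin (σ (xx j 0)) = sp c.1 σ * sp b.1 σ * sp a.1 σ := fun σ => by
    simp only [a, b, c, eg, ed, sp, prod_map]
    rw [show (univ.erase 1 : Finset (Fin 4)) = {0, 2, 3} by decide,
      show (univ.erase 2 : Finset (Fin 4)) = {0, 1, 3} by decide,
      show (univ.erase 3 : Finset (Fin 4)) = {0, 1, 2} by decide]
    have p3 : ∀ (u v w : Fin 4), u ∉ ({v, w} : Finset (Fin 4)) → v ≠ w →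
        ∏ r ∈ ({u, v, w} : Finset (Fin 4)), spin (σ (xx j r)) =
          spin (σ (xx j u)) * (spin (σ (xx j v)) * spin (σ (xx j w))) := fun u v w h1 h2 => by
      rw [prod_insert h1, prod_pair h2]
    rw [p3 _ _ _ (by decide) (by decide), p3 _ _ _ (by decide) (by decide),
      p3 _ _ _ (by decide) (by decide)]
    cases σ (xx j 0) <;> cases σ (xx j 1) <;> cases σ (xx j 2) <;> cases σ (xx j 3) <;> simp [spin]
  simp only [e]
  rw [tanh_step K a (ph j 1) (ph_self j n1) (ph_other j n1) (fun σ => sp c.1 σ * sp b.1 σ)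
      fun σ => by rw [ph_other j n1 c (eg_ne j _ _ (by decide)),
        ph_other j n1 b (eg_ne j _ _ (by decide))],
    tanh_step K b (ph j 2) (ph_self j n2) (ph_other j n2) (fun σ => sp c.1 σ)
      fun σ => ph_other j n2 c (eg_ne j _ _ (by decide)) σ]
  have := tanh_step K c (ph j 3) (ph_self j n3) (ph_other j n3) (fun _ => 1) fun _ => rfl
  simp only [one_mul] at this
  rw [this]; ring

lemma mag_other (K : EE N → ℝ) (i : Fin N) (hi : ∀ j, i ≠ xx j 0) :
    ∑ σ, spin (σ i) * W K σ = 0 := by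
  by_cases h : i.val / 4 < N / 4
  · obtain ⟨j, r, rfl⟩ : ∃ j r, i = xx j r :=
      ⟨⟨_, h⟩, ⟨i.val % 4, Nat.mod_lt _ (by norm_num)⟩, Fin.ext (by simp only [xx_val]; omega)⟩
    have hr : r ≠ 0 := fun e => hi j (by rw [e])
    refine anti (φ := (fl (xx j 1)).trans ((fl (xx j 2)).trans (fl (xx j 3)))) fun σ => ?_
    have h1 : W K (((fl (xx j 1)).trans ((fl (xx j 2)).trans (fl (xx j 3)))) σ) = W K σ := by
      unfold W; congr 1
      refine sum_congr rfl fun e _ => ?_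
      obtain ⟨j', m', h', he'⟩ := mem_EE.1 e.2
      rw [← he', Equiv.trans_apply, Equiv.trans_apply, sp_fl, sp_fl, sp_fl]
      simp only [mem_ed]
      by_cases h1 : j' = j
      · fin_cases m' <;> simp [h1] at h' ⊢
      · simp [h1]
    rw [h1, Equiv.trans_apply, Equiv.trans_apply, spin_fl, spin_fl, spin_fl]
    simp only [xx_eq]
    fin_cases r <;> simp at hr ⊢
  · refine anti (φ := fl i) fun σ => ?_
    have h1 : W K (fl i σ) = W K σ := by
      unfold W; congr 1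
      refine sum_congr rfl fun e _ => ?_
      obtain ⟨j', m', h', he'⟩ := mem_EE.1 e.2
      rw [← he', sp_fl, if_neg, one_mul]
      intro hm
      exact h (ed_div hm ▸ j'.2)
    rw [h1, spin_fl]; simp

end Pool.Agent.H44.DC
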