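import Pool.Agent.H44.DC1

open MeasureTheory ProbabilityTheory Real Finset

namespace Pool.Agent.H44.DC

variable {N : ℕ}

lemma gibbs_eq (E : Finset (Finset (Fin N))) (β : ℝ) (J : E → ℝ) (σ : Fin N → Bool) :
    gibbs E id β J σ = W (fun e => β * J e) σ / ∑ τ, W (fun e => β * J e) τ := by
  simp only [gibbs, ham, W, sp, mul_sum, id, mul_assoc]

lemma Z_pos {E : Finset (Finset (Fin N))} (K : E → ℝ) : 0 < ∑ τ, W K τ :=
  sum_pos (fun _ _ => exp_pos _) univ_nonempty

lemma gibbs_nonneg (E : Finset (Finset (Fin N))) (β : ℝ) (J : E → ℝ) (σ : Fin N → Bool) :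
    0 ≤ gibbs E id β J σ := by
  rw [gibbs_eq]; exact div_nonneg (exp_pos _).le (Z_pos _).le

lemma gibbs_sum (E : Finset (Finset (Fin N))) (β : ℝ) (J : E → ℝ) :
    ∑ σ, gibbs E id β J σ = 1 := by
  simp only [gibbs_eq]; rw [← sum_div, div_self (Z_pos _).ne']

lemma gibbs_le (E : Finset (Finset (Fin N))) (β : ℝ) (J : E → ℝ) (σ : Fin N → Bool) :
    gibbs E id β J σ ≤ 1 :=
  gibbs_sum E β J ▸ single_le_sum (fun τ _ => gibbs_nonneg E β J τ) (mem_univ σ)

noncomputable def t3 (β : ℝ) (J : EE N → ℝ) (j : Fin (N / 4)) : ℝ :=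
  tanh (β * J (eg j 1 (by decide))) * tanh (β * J (eg j 2 (by decide))) *
    tanh (β * J (eg j 3 (by decide)))

lemma mean_overlap (β : ℝ) (J J' : EE N → ℝ) :
    ∑ σ, ∑ τ, gibbs (EE N) id β J σ * gibbs (EE N) id β J' τ * overlap σ τ =
      (∑ j, t3 β J j * t3 β J' j) / N := by
  have e1 : ∑ σ, ∑ τ, gibbs (EE N) id β J σ * gibbs (EE N) id β J' τ * overlap σ τ =
      (∑ i, (∑ σ, spin (σ i) * gibbs (EE N) id β J σ) *
        (∑ τ, spin (τ i) * gibbs (EE N) id β J' τ)) / N := by
    simp only [sum_mul_sum]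
    rw [sum_comm (s := (univ : Finset (Fin N))), sum_div]
    refine sum_congr rfl fun σ _ => ?_
    rw [sum_comm (s := (univ : Finset (Fin N))), sum_div]
    refine sum_congr rfl fun τ _ => ?_
    rw [overlap, ← mul_div_assoc, mul_sum]
    congr 1
    exact sum_congr rfl fun i _ => by ring
  have e2 : ∀ (J : EE N → ℝ) i, ∑ σ, spin (σ i) * gibbs (EE N) id β J σ =
      (∑ σ, spin (σ i) * W (fun e => β * J e) σ) / ∑ τ, W (fun e => β * J e) τ := fun J i => by
    simp only [gibbs_eq, sum_div, mul_div_assoc]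
  rw [e1]
  congr 1
  rw [← sum_subset (subset_univ (univ.image fun j : Fin (N / 4) => xx j 0)),
    sum_image fun a _ b _ h => (xx_eq.1 h).1]
  · refine sum_congr rfl fun j _ => ?_
    rw [e2, e2, mag0, mag0, mul_div_cancel_right₀ _ (Z_pos _).ne',
      mul_div_cancel_right₀ _ (Z_pos _).ne']
    rfl
  · intro i _ hi
    rw [e2, mag_other _ i fun j h => hi (mem_image.2 ⟨j, mem_univ _, h.symm⟩), zero_div, zero_mul]

lemma pointwise (β a : ℝ) (J J' : EE N → ℝ) :
    2 * a * ((∑ j, t3 β J j * t3 β J' j) / N) - a ^ 2 ≤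
      ∑ σ, ∑ τ, gibbs (EE N) id β J σ * gibbs (EE N) id β J' τ * overlap σ τ ^ 2 := by
  have e : a ^ 2 = ∑ σ, ∑ τ, gibbs (EE N) id β J σ * gibbs (EE N) id β J' τ * a ^ 2 := by
    simp only [← sum_mul, ← mul_sum, gibbs_sum, mul_one, one_mul]
  rw [← mean_overlap, e, mul_sum, ← sum_sub_distrib]
  refine sum_le_sum fun σ _ => ?_
  rw [mul_sum, ← sum_sub_distrib]
  refine sum_le_sum fun τ _ => ?_
  nlinarith [mul_nonneg (mul_nonneg (gibbs_nonneg _ β J σ) (gibbs_nonneg _ β J' τ))
    (sq_nonneg (overlap σ τ - a))]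

lemma meas_tanh : Measurable tanh := by
  have : tanh = fun x => sinh x / cosh x := funext tanh_eq_sinh_div_cosh
  rw [this]; fun_prop

lemma abs_tanh (x : ℝ) : |tanh x| ≤ 1 := abs_le.2 ⟨(neg_one_lt_tanh x).le, (tanh_lt_one x).le⟩

theorem lower {Ξ : Type} [MeasurableSpace Ξ] (ν : Measure Ξ) [IsProbabilityMeasure ν]
    {J1 J2 : Ξ → ℝ} (h1 : Measurable J1) (h2 : Measurable J2) (β : ℝ)
    (hc : 0 ≤ ∫ z, tanh (β * J1 z) * tanh (β * J2 z) ∂ν) (hN : 4 ≤ N) :
    ((∫ z, tanh (β * J1 z) * tanh (β * J2 z) ∂ν) ^ 3 / 8) ^ 2 ≤ avg ν J1 J2 (EE N) id β := by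
  classical
  set c := ∫ z, tanh (β * J1 z) * tanh (β * J2 z) ∂ν with hcdef
  set g : Ξ → ℝ := fun z => tanh (β * J1 z) * tanh (β * J2 z) with hg
  have gm : Measurable g := (meas_tanh.comp (h1.const_mul β)).mul (meas_tanh.comp (h2.const_mul β))
  have gb : ∀ z, |g z| ≤ 1 := fun z => by
    rw [hg, abs_mul]; exact mul_le_one₀ (abs_tanh _) (abs_nonneg _) (abs_tanh _)
  set P := Measure.pi fun _ : EE N => ν
  set T : Fin (N / 4) → (EE N → Ξ) → ℝ := fun j ω =>
    t3 β (fun e => J1 (ω e)) j * t3 β (fun e => J2 (ω e)) j with hT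
  have eT : ∀ j, T j = fun ω => ∏ e : EE N, (if e ∈ ({eg j 1 (by decide), eg j 2 (by decide),
      eg j 3 (by decide)} : Finset (EE N)) then g else fun _ => 1) (ω e) := fun j => by
    funext ω
    simp only [ite_apply]
    rw [prod_ite_mem, univ_inter, prod_insert (by
      simp only [mem_insert, mem_singleton, not_or]
      exact ⟨eg_ne j _ _ (by decide), eg_ne j _ _ (by decide)⟩), prod_pair (eg_ne j _ _ (by decide))]
    simp only [hT, t3, hg]; ring
  have iT : ∀ j, Integrable (T j) P := fun j => by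
    rw [eT]
    refine Integrable.fintype_prod fun e => ?_
    split_ifs
    · exact Integrable.of_bound gm.aestronglyMeasurable 1 (Filter.Eventually.of_forall gb)
    · exact integrable_const _
  have vT : ∀ j, ∫ ω, T j ω ∂P = c ^ 3 := fun j => by
    rw [eT, integral_fintype_prod_eq_prod]
    simp only [apply_ite (fun f : Ξ → ℝ => ∫ z, f z ∂ν), integral_const, probReal_univ, smul_eq_mul,
      mul_one]
    rw [prod_ite_mem, univ_inter, prod_insert (by
      simp only [mem_insert, mem_singleton, not_or]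
      exact ⟨eg_ne j _ _ (by decide), eg_ne j _ _ (by decide)⟩), prod_pair (eg_ne j _ _ (by decide))]
    ring
  have gmeas : ∀ (J : Ξ → ℝ), Measurable J → ∀ σ,
      Measurable fun ω : EE N → Ξ => gibbs (EE N) id β (fun e => J (ω e)) σ := fun J hJ σ => by
    simp only [gibbs, ham, id]; fun_prop
  have iR : Integrable (fun ω : EE N → Ξ => ∑ σ, ∑ τ, gibbs (EE N) id β (fun e => J1 (ω e)) σ *
      gibbs (EE N) id β (fun e => J2 (ω e)) τ * overlap σ τ ^ 2) P := by
    refine integrable_finsetSum _ fun σ _ => integrable_finsetSum _ fun τ _ =>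
      Integrable.mul_const (Integrable.of_bound ((gmeas _ h1 σ).mul (gmeas _ h2 τ)).aestronglyMeasurable
        1 (Filter.Eventually.of_forall fun ω => ?_)) _
    rw [Pi.mul_apply, Real.norm_of_nonneg (mul_nonneg (gibbs_nonneg _ _ _ _) (gibbs_nonneg _ _ _ _))]
    exact mul_le_one₀ (gibbs_le _ _ _ _) (gibbs_nonneg _ _ _ _) (gibbs_le _ _ _ _)
  have iS : Integrable (fun ω => 2 * (c ^ 3 / 8) * ((∑ j, T j ω) / N)) P :=
    ((integrable_finsetSum _ fun j _ => iT j).div_const _).const_mul _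
  have iL : Integrable (fun ω => 2 * (c ^ 3 / 8) * ((∑ j, T j ω) / N) - (c ^ 3 / 8) ^ 2) P :=
    iS.sub (integrable_const _)
  have h3 := integral_mono iL iR fun ω => pointwise β (c ^ 3 / 8) _ _
  rw [integral_sub iS (integrable_const _), integral_const_mul, integral_div,
    integral_finsetSum _ fun j _ => iT j] at h3
  simp only [vT, integral_const, probReal_univ, smul_eq_mul, one_mul, sum_const, card_univ,
    Fintype.card_fin, nsmul_eq_mul] at h3
  have h4 : c ^ 3 / 8 ≤ ((N / 4 : ℕ) : ℝ) * c ^ 3 / N := by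
    have h5 : (N : ℝ) ≤ 8 * ((N / 4 : ℕ) : ℝ) := by exact_mod_cast (show N ≤ 8 * (N / 4) by omega)
    have h6 : (0 : ℝ) < N := by exact_mod_cast (show 0 < N by omega)
    rw [div_le_div_iff₀ (by norm_num) h6]
    nlinarith [pow_nonneg hc 3]
  have h7 := mul_le_mul_of_nonneg_left h4 (show 0 ≤ 2 * (c ^ 3 / 8) by positivity)
  unfold avg
  nlinarith

lemma tanh_add_pos {y : ℝ} (hy : 0 < y) (z : ℝ) : 0 < tanh (y + z) + tanh (y - z) := by
  rw [tanh_eq_sinh_div_cosh, tanh_eq_sinh_div_cosh,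
    div_add_div _ _ (cosh_pos _).ne' (cosh_pos _).ne', ← sinh_add]
  exact div_pos (sinh_pos_iff.2 (by linarith)) (mul_pos (cosh_pos _) (cosh_pos _))

lemma tanh_pos {y : ℝ} (hy : 0 < y) : 0 < tanh y := by
  rw [tanh_eq_sinh_div_cosh]; exact div_pos (sinh_pos_iff.2 hy) (cosh_pos _)

/-- positivity by the symmetry `z.2 ↦ -z.2` -/
lemma pos_sym {a b β : ℝ} (ha : 0 < a) (hβ : 0 < β) :
    0 < ∫ z : ℝ × ℝ, tanh (β * z.1) * tanh (β * (a * z.1 + b * z.2))
      ∂(gaussianReal 0 1).prod (gaussianReal 0 1) := by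
  set P := (gaussianReal 0 1).prod (gaussianReal 0 1)
  have mp : MeasurePreserving (Prod.map id fun y : ℝ => -y) P P :=
    (MeasurePreserving.id _).prod ⟨measurable_neg, by simpa using gaussianReal_map_neg (μ := 0) (v := 1)⟩
  have im : ∀ b : ℝ, Measurable fun z : ℝ × ℝ => tanh (β * z.1) * tanh (β * (a * z.1 + b * z.2)) :=
    fun b => (meas_tanh.comp (by fun_prop)).mul (meas_tanh.comp (by fun_prop))
  have ii : ∀ b : ℝ, Integrable (fun z : ℝ × ℝ => tanh (β * z.1) * tanh (β * (a * z.1 + b * z.2))) P :=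
    fun b => Integrable.of_bound (im b).aestronglyMeasurable 1 (Filter.Eventually.of_forall fun z => by
      rw [Real.norm_eq_abs, abs_mul]; exact mul_le_one₀ (abs_tanh _) (abs_nonneg _) (abs_tanh _))
  have e : ∫ z : ℝ × ℝ, tanh (β * z.1) * tanh (β * (a * z.1 + -b * z.2)) ∂P =
      ∫ z : ℝ × ℝ, tanh (β * z.1) * tanh (β * (a * z.1 + b * z.2)) ∂P := by
    conv_rhs => rw [← mp.map_eq]
    rw [integral_map mp.measurable.aemeasurable (im b).aestronglyMeasurable]
    simp
  have key : ∀ z : ℝ × ℝ, z.1 ≠ 0 → 0 < tanh (β * z.1) * tanh (β * (a * z.1 + b * z.2)) +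
      tanh (β * z.1) * tanh (β * (a * z.1 + -b * z.2)) := fun z hz => by
    rw [← mul_add]
    rcases lt_or_gt_of_ne hz with h | h
    · have h1 := tanh_add_pos (y := β * a * -z.1) (by have := neg_pos.2 h; positivity) (β * b * z.2)
      have h2 := tanh_pos (y := β * -z.1) (by have := neg_pos.2 h; positivity)
      rw [show β * -z.1 = -(β * z.1) by ring, tanh_neg] at h2
      rw [show β * a * -z.1 + β * b * z.2 = -(β * (a * z.1 + -b * z.2)) by ring,
        show β * a * -z.1 - β * b * z.2 = -(β * (a * z.1 + b * z.2)) by ring, tanh_neg, tanh_neg] at h1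
      exact mul_pos_of_neg_of_neg (by linarith) (by linarith)
    · have h1 := tanh_add_pos (y := β * a * z.1) (by positivity) (β * b * z.2)
      rw [show β * a * z.1 + β * b * z.2 = β * (a * z.1 + b * z.2) by ring,
        show β * a * z.1 - β * b * z.2 = β * (a * z.1 + -b * z.2) by ring] at h1
      exact mul_pos (tanh_pos (by positivity)) h1
  have iS : Integrable (fun z : ℝ × ℝ => tanh (β * z.1) * tanh (β * (a * z.1 + b * z.2)) +
      tanh (β * z.1) * tanh (β * (a * z.1 + -b * z.2))) P := (ii b).add (ii (-b))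
  have hae : ∀ᵐ z ∂P, z.1 ≠ 0 :=
    Measure.quasiMeasurePreserving_fst.ae (p := fun x : ℝ => x ≠ 0) (by
      have := nullSingletonClass_gaussianReal (μ := 0) (v := 1) one_ne_zero
      exact compl_mem_ae_iff.2 (measure_singleton 0))
  have h3 : 0 < ∫ z : ℝ × ℝ, (tanh (β * z.1) * tanh (β * (a * z.1 + b * z.2)) +
      tanh (β * z.1) * tanh (β * (a * z.1 + -b * z.2))) ∂P := by
    rw [integral_pos_iff_support_of_nonneg_ae (hae.mono fun z hz => (key z hz).le) iS]
    rw [pos_iff_ne_zero]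
    intro h0
    have h4 : ∀ᵐ z ∂P, False := by
      filter_upwards [hae, compl_mem_ae_iff.2 h0] with z h5 h6 using h6 (key z h5).ne'
    exact h4.exists.elim fun _ h => h
  rw [integral_add (ii b) (ii (-b)), e] at h3
  linarith

theorem mainC {β t : ℝ} (hβ : 0 < β) : ∃ c > 0, ∀ N, 4 ≤ N → c ≤ chaosC (EE N) id β t := by
  have h := pos_sym (a := exp (-t)) (b := √(1 - exp (-2 * t))) (exp_pos _) hβ
  exact ⟨_, by positivity, fun N hN => lower _ measurable_fst (by fun_prop) β h.le hN⟩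

theorem mainD {β t : ℝ} (hβ : 0 < β) : ∃ c > 0, ∀ N, 4 ≤ N → c ≤ chaosD (EE N) id β t := by
  set p := Set.projIcc (0 : ℝ) 1 zero_le_one (exp (-t)) with hp
  set P := (gaussianReal 0 1).prod (gaussianReal 0 1)
  have m2 : Measurable fun z : (ℝ × ℝ) × Bool => if z.2 then z.1.1 else z.1.2 :=
    Measurable.ite (measurable_snd (measurableSet_singleton true)) (by fun_prop) (by fun_prop)
  have h : 0 < ∫ z : (ℝ × ℝ) × Bool, tanh (β * z.1.1) * tanh (β * if z.2 then z.1.1 else z.1.2)
      ∂P.prod (bernoulliMeasure true false p) := by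
    have m3 : Measurable fun z : (ℝ × ℝ) × Bool =>
        tanh (β * z.1.1) * tanh (β * if z.2 then z.1.1 else z.1.2) :=
      (meas_tanh.comp (measurable_fst.fst.const_mul β)).mul (meas_tanh.comp (m2.const_mul β))
    rw [integral_prod_symm _ (Integrable.of_bound m3.aestronglyMeasurable 1
      (Filter.Eventually.of_forall fun z => by
        rw [Real.norm_eq_abs, abs_mul]
        exact mul_le_one₀ (abs_tanh _) (abs_nonneg _) (abs_tanh _))), integral_bernoulliMeasure]
    have h1 := pos_sym (a := 1) (b := 0) one_pos hβ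
    have h2 : ∫ z : ℝ × ℝ, tanh (β * z.1) * tanh (β * z.2) ∂P = 0 := by
      rw [integral_prod_mul (fun x => tanh (β * x)) (fun x => tanh (β * x))]
      have h3 : ∫ x, tanh (β * x) ∂gaussianReal 0 1 = ∫ x, -tanh (β * x) ∂gaussianReal 0 1 := by
        conv_lhs => rw [← show (gaussianReal 0 1).map (fun y : ℝ => -y) = gaussianReal 0 1 by
          simpa using gaussianReal_map_neg (μ := 0) (v := 1)]
        have m4 : Measurable fun x : ℝ => tanh (β * x) := meas_tanh.comp (measurable_id.const_mul β)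
        rw [integral_map (φ := fun y : ℝ => -y) measurable_neg.aemeasurable
          m4.aestronglyMeasurable]
        simp [tanh_neg]
      rw [integral_neg] at h3
      rw [show ∫ x, tanh (β * x) ∂gaussianReal 0 1 = 0 by linarith, zero_mul]
    have h4 : (0 : ℝ) < p := by
      rw [hp, Set.coe_projIcc]
      exact lt_max_of_lt_right (lt_min one_pos (exp_pos _))
    simp only [one_mul, zero_mul, add_zero] at h1
    simp only [if_true, Bool.false_eq_true, if_false, h2, smul_eq_mul, mul_zero, add_zero]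
    exact mul_pos h4 h1
  exact ⟨_, by positivity, fun N hN => lower _ (by fun_prop) m2 β h.le hN⟩

end Pool.Agent.H44.DC
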