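import Mathlib

open MeasureTheory ProbabilityTheory Real Finset

namespace Pool.Agent.H44.DC

variable {N : ℕ}

/-- the spin value of a Boolean -/
def spin (b : Bool) : ℝ := if b then 1 else -1

/-- the ball `B_r(v)`: `v` and the vertices joined to `v` by a chain of at most `r` hyperedges -/
def ball (E : Finset (Finset (Fin N))) (r : ℕ) (v : Fin N) : Set (Fin N) :=
  {w | w = v ∨ ∃ k, k + 1 ≤ r ∧ ∃ e : ℕ → Finset (Fin N), (∀ j ≤ k, e j ∈ E) ∧ v ∈ e 0 ∧
    w ∈ e k ∧ ∀ j < k, (e j ∩ e (j + 1)).Nonempty}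

/-- the Hamiltonian -/
noncomputable def ham (E : Finset (Finset (Fin N))) (ρ : ℝ → ℝ) (J : E → ℝ) (σ : Fin N → Bool) :
    ℝ := ∑ e : E, ρ (J e) * ∏ i ∈ e.1, spin (σ i)

/-- the Gibbs weight at inverse temperature `β` -/
noncomputable def gibbs (E : Finset (Finset (Fin N))) (ρ : ℝ → ℝ) (β : ℝ) (J : E → ℝ)
    (σ : Fin N → Bool) : ℝ := exp (β * ham E ρ J σ) / ∑ τ, exp (β * ham E ρ J τ)

/-- the site overlap -/
noncomputable def overlap (σ τ : Fin N → Bool) : ℝ := (∑ i, spin (σ i) * spin (τ i)) / N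

/-- `E <R^2>` when the data of the hyperedges are i.i.d. with law `ν`, the first replica uses the
couplings `J1` and the second replica the couplings `J2` -/
noncomputable def avg {Ξ : Type} [MeasurableSpace Ξ] (ν : Measure Ξ) (J1 J2 : Ξ → ℝ)
    (E : Finset (Finset (Fin N))) (ρ : ℝ → ℝ) (β : ℝ) : ℝ :=
  ∫ ω, ∑ σ, ∑ τ, gibbs E ρ β (fun e => J1 (ω e)) σ * gibbs E ρ β (fun e => J2 (ω e)) τ *
    overlap σ τ ^ 2 ∂(Measure.pi fun _ : E => ν)

/-- continuous perturbation -/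
noncomputable def chaosC (E : Finset (Finset (Fin N))) (ρ : ℝ → ℝ) (β t : ℝ) : ℝ :=
  avg ((gaussianReal 0 1).prod (gaussianReal 0 1)) (fun z => z.1)
    (fun z => exp (-t) * z.1 + √(1 - exp (-2 * t)) * z.2) E ρ β

/-- discrete perturbation -/
noncomputable def chaosD (E : Finset (Finset (Fin N))) (ρ : ℝ → ℝ) (β t : ℝ) : ℝ :=
  avg (((gaussianReal 0 1).prod (gaussianReal 0 1)).prod
      (bernoulliMeasure true false (Set.projIcc 0 1 zero_le_one (exp (-t)))))
    (fun z => z.1.1) (fun z => if z.2 then z.1.1 else z.1.2) E ρ β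

end Pool.Agent.H44.DC
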