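import Mathlib

/-! A heavy-tailed law of mean one and deterministic estimates. -/

open Set Filter MeasureTheory ProbabilityTheory Real
open scoped ENNReal

namespace Pool.Agent.H44.DS

def kk (i : ℕ) : ℕ := 256 ^ i
noncomputable def MM (i : ℕ) : ℝ := 8 * 2 ^ kk i
noncomputable def ee (i : ℕ) : ℝ := (1 / 2) ^ (i + 1)
noncomputable def pp (i : ℕ) : ℝ := ee i / MM i

lemma MM_ge (i : ℕ) : 8 ≤ MM i := by
  have : (1 : ℝ) ≤ 2 ^ kk i := one_le_pow₀ (by norm_num)
  unfold MM; linarith

lemma MM_pos (i : ℕ) : 0 < MM i := by linarith [MM_ge i]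
lemma ee_pos (i : ℕ) : 0 < ee i := by unfold ee; positivity
lemma pp_pos (i : ℕ) : 0 < pp i := div_pos (ee_pos i) (MM_pos i)
lemma pp_MM (i : ℕ) : pp i * MM i = ee i := div_mul_cancel₀ _ (MM_pos i).ne'
lemma pp_le (i : ℕ) : pp i ≤ ee i := div_le_self (ee_pos i).le (by linarith [MM_ge i])
lemma lt_kk (i : ℕ) : i < kk i := Nat.lt_pow_self (by norm_num)

lemma ee_sum : HasSum ee 1 := by
  have := hasSum_geometric_two.mul_left (1 / 2)
  rw [show (1 / 2 * 2 : ℝ) = 1 by norm_num] at this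
  exact (funext fun i => pow_succ' (1 / 2 : ℝ) i : ee = _) ▸ this

lemma ee_fin (I : ℕ) : ∑ i ∈ Finset.range I, ee i ≤ 1 :=
  sum_le_hasSum _ (fun i _ => (ee_pos i).le) ee_sum

lemma pp_sum : Summable pp := .of_nonneg_of_le (fun i => (pp_pos i).le) pp_le ee_sum.summable

noncomputable def nu : Measure ℝ := ENNReal.ofReal (1 - ∑' i, pp i) • Measure.dirac 0 +
  Measure.sum fun i => ENNReal.ofReal (pp i) • Measure.dirac (MM i)

lemma int_iff (f : ℝ → ℝ) : Integrable f nu ↔ Summable fun i => pp i * |f (MM i)| := by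
  rw [nu, integrable_add_measure, integrable_sum_dirac_iff (by simp)]
  simp only [ENNReal.toReal_ofReal (pp_pos _).le, Real.norm_eq_abs]
  exact and_iff_right ((integrable_dirac (by simp)).smul_measure (by simp))

lemma int_nu {f : ℝ → ℝ} (hf : Summable fun i => pp i * |f (MM i)|) :
    HasSum (fun i => pp i * (f (MM i) - f 0)) (∫ y, f y ∂nu - f 0) := by
  have h0 : 0 ≤ 1 - ∑' i, pp i := by
    have := hasSum_le pp_le pp_sum.hasSum ee_sum
    linarith
  have hi := (int_iff f).2 hf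
  rw [nu, integrable_add_measure] at hi
  have h1 := hasSum_integral_sum_dirac (f := f) (c := fun i => ENNReal.ofReal (pp i)) (x := MM)
    (by simp) (by simpa only [ENNReal.toReal_ofReal (pp_pos _).le, Real.norm_eq_abs] using hf)
  simp only [ENNReal.toReal_ofReal (pp_pos _).le, smul_eq_mul] at h1
  rw [nu, integral_add_measure hi.1 hi.2, integral_smul_measure, integral_dirac,
    ENNReal.toReal_ofReal h0, smul_eq_mul]
  have h2 := h1.sub (pp_sum.hasSum.mul_right (f 0))
  simp only [← mul_sub] at h2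
  rwa [show ∀ a b c : ℝ, (1 - a) * b + c - b = c - a * b from fun a b c => by ring]

instance : IsProbabilityMeasure nu := by
  have hs : Summable fun i => pp i * |(fun _ : ℝ => (1 : ℝ)) (MM i)| := by simpa using pp_sum
  have h1 := int_nu (f := fun _ => (1 : ℝ)) hs
  have h2 := (int_iff fun _ => (1 : ℝ)).2 hs
  have : IsFiniteMeasure nu := (integrable_const_iff.1 h2).resolve_left one_ne_zero
  simp only [sub_self, mul_zero, integral_const, smul_eq_mul, mul_one] at h1
  have := h1.unique hasSum_zero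
  exact isProbabilityMeasure_iff_real.2 (by linarith)

lemma sum_id : Summable fun i => pp i * |MM i| := by
  simpa only [abs_of_pos (MM_pos _), pp_MM] using ee_sum.summable

lemma int_id : Integrable (fun t : ℝ => t) nu := (int_iff _).2 sum_id

lemma mean_one : ∫ t, t ∂nu = 1 := by
  have := int_nu (f := fun t => t) sum_id
  simp only [sub_zero, pp_MM] at this
  exact this.unique ee_sum

lemma mean_abs : ∫ t, |t| ∂nu = 1 := by
  have := int_nu (f := fun t => |t|) (by simpa only [abs_abs] using sum_id)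
  simp only [abs_zero, sub_zero, abs_of_pos (MM_pos _), pp_MM] at this
  exact this.unique ee_sum

lemma not_int_sq : ¬ Integrable (fun t : ℝ => t ^ 2) nu := by
  rw [int_iff]
  intro h
  obtain ⟨i, hi⟩ := (h.tendsto_atTop_zero.eventually (gt_mem_nhds one_pos)).exists
  have h1 : (2 : ℝ) ^ (i + 1) ≤ 2 ^ kk i := pow_le_pow_right₀ (by norm_num) (lt_kk i)
  have h2 : ee i * 2 ^ (i + 1) = 1 := by unfold ee; rw [← mul_pow]; norm_num
  rw [abs_of_nonneg (sq_nonneg _), sq, ← mul_assoc, pp_MM, MM] at hi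
  nlinarith [ee_pos i]

noncomputable def tr (k : ℕ) (y : ℝ) : ℝ := if y ≤ 8 * 2 ^ k then max y 0 else 0

lemma tr_meas (k : ℕ) : Measurable (tr k) :=
  Measurable.ite measurableSet_Iic (by fun_prop) measurable_const

lemma tr_mem (k : ℕ) (y : ℝ) : tr k y ∈ Icc (0 : ℝ) (8 * 2 ^ k) := by
  unfold tr
  split_ifs with h
  · exact ⟨le_max_right _ _, max_le h (by positivity)⟩
  · exact ⟨le_rfl, by positivity⟩

lemma tr_MM (k i : ℕ) : tr k (MM i) = if kk i ≤ k then MM i else 0 := by
  unfold tr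
  rw [max_eq_left (MM_pos i).le]
  refine if_congr ?_ rfl rfl
  rw [MM, mul_le_mul_iff_right₀ (by norm_num), pow_le_pow_iff_right₀ (by norm_num)]

noncomputable def GG (I k : ℕ) (θ : ℝ) : ℝ :=
  ∑ i ∈ Finset.range I, if kk i ≤ k then pp i * (exp (θ * MM i) - 1) else 0

lemma mgf_tr {I k : ℕ} (h : k ≤ I) (θ : ℝ) : ∫ y, exp (θ * tr k y) ∂nu ≤ exp (GG I k θ) := by
  have h1 := int_nu (f := fun y => exp (θ * tr k y)) (by
    refine .of_nonneg_of_le (fun i => mul_nonneg (pp_pos i).le (abs_nonneg _)) (fun i => ?_)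
      (pp_sum.mul_right (exp (|θ| * (8 * 2 ^ k))))
    rw [abs_of_pos (exp_pos _)]
    exact mul_le_mul_of_nonneg_left (exp_le_exp.2
      ((mul_le_mul_of_nonneg_right (le_abs_self θ) (tr_mem _ _).1).trans
        (mul_le_mul_of_nonneg_left (tr_mem _ _).2 (abs_nonneg _)))) (pp_pos i).le)
  have h0 : tr k 0 = 0 := by simp [tr]
  have h2 : HasSum (fun i => pp i * (exp (θ * tr k (MM i)) - exp (θ * tr k 0))) (GG I k θ) := by
    have : ∀ i, pp i * (exp (θ * tr k (MM i)) - exp (θ * tr k 0)) =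
        if kk i ≤ k then pp i * (exp (θ * MM i) - 1) else 0 := fun i => by
      rw [tr_MM, h0]; split_ifs <;> simp
    simp only [this]
    exact hasSum_sum_of_ne_finset_zero fun i hi => if_neg fun h' => hi (by
      have := lt_kk i
      simp; omega)
  have := h1.unique h2
  rw [h0, mul_zero, exp_zero] at this
  linarith [add_one_le_exp (GG I k θ)]

lemma tail_pt (y : ℝ) (K : ℕ) :
    ∑ t ∈ Finset.range K, (2 * 2 ^ t : ℝ) * (Ioi (8 * 2 ^ t : ℝ)).indicator 1 y ≤
      min (|y| / 2) (2 * 2 ^ K) := by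
  induction K with
  | zero => simp; positivity
  | succ K ih =>
    rw [Finset.sum_range_succ, le_min_iff, pow_succ]
    rw [le_min_iff] at ih
    have : (0 : ℝ) < 2 ^ K := by positivity
    by_cases h : y ∈ Ioi (8 * 2 ^ K : ℝ)
    · rw [indicator_of_mem h, Pi.one_apply]
      have := le_abs_self y
      have : 8 * 2 ^ K < y := h
      constructor <;> linarith [ih.2]
    · rw [indicator_of_notMem h]
      constructor <;> linarith [ih.1, ih.2]

lemma tail_sum (K : ℕ) :
    ∑ t ∈ Finset.range K, (2 * 2 ^ t : ℝ) * nu.real (Ioi (8 * 2 ^ t : ℝ)) ≤ 1 / 2 := by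
  have hi (t : ℕ) : Integrable (fun y => (2 * 2 ^ t : ℝ) *
      (Ioi (8 * 2 ^ t : ℝ)).indicator (1 : ℝ → ℝ) y) nu :=
    ((integrable_const (1 : ℝ)).indicator measurableSet_Ioi).const_mul _
  have := integral_mono (integrable_finsetSum (Finset.range K) fun t _ => hi t)
    (int_id.abs.div_const 2) fun y => (tail_pt y K).trans (min_le_left _ _)
  rw [integral_finsetSum _ fun t _ => hi t, integral_div, mean_abs] at this
  simpa only [integral_const_mul, integral_indicator_one measurableSet_Ioi] using this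

/-! ### deterministic estimates -/

def lf (k : ℕ) : Prop := Nat.sqrt k < Nat.sqrt (k + 1)
instance : DecidablePred lf := fun _ => Nat.decLt _ _
noncomputable def ss (k : ℕ) : ℝ := 1 + if lf k then 1 else 0
noncomputable def RR (k : ℕ) : ℝ := k + Nat.sqrt k

lemma RR_succ (k : ℕ) : RR (k + 1) = RR k + ss k := by
  have h1 := Nat.sqrt_succ_le_succ_sqrt k
  have h2 := Nat.sqrt_le_sqrt (Nat.le_succ k)
  unfold RR ss lf
  split_ifs with h
  · rw [show Nat.sqrt (k + 1) = Nat.sqrt k + 1 from le_antisymm h1 h]; push_cast; ring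
  · rw [show Nat.sqrt (k + 1) = Nat.sqrt k from le_antisymm (not_lt.1 h) h2]; push_cast; ring

lemma ss_mem (k : ℕ) : 1 ≤ ss k ∧ ss k ≤ 2 := by
  unfold ss; split_ifs <;> norm_num

lemma RR_mono : Monotone RR := monotone_nat_of_le_succ fun k => by
  rw [RR_succ]; linarith [(ss_mem k).1]

lemma loss (j κ T n : ℕ) :
    ∑ t ∈ Finset.range n, (if κ ≤ j + t then ss (j + t) * min 1 (2 ^ T / 2 ^ t) else 0) ≤
      RR (max (j + min n T) κ) - RR (max j κ) + if n ≤ T then 0 else 4 - 4 * (2 ^ T / 2 ^ n) := by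
  induction n with
  | zero => simp
  | succ n ih =>
    rw [Finset.sum_range_succ]
    have hs := ss_mem (j + n)
    have hq : (0 : ℝ) < 2 ^ T / 2 ^ n := by positivity
    rcases lt_or_ge n T with h | h
    · rw [if_pos h.le, min_eq_left h.le] at ih
      rw [if_pos (show n + 1 ≤ T from h), min_eq_left (show n + 1 ≤ T from h)]
      split_ifs with h'
      · rw [max_eq_left h'] at ih
        rw [max_eq_left (by omega), ← add_assoc, RR_succ]
        have := mul_le_mul_of_nonneg_left (min_le_left (1 : ℝ) (2 ^ T / 2 ^ n))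
          (by linarith : 0 ≤ ss (j + n))
        linarith
      · have := RR_mono (show max (j + n) κ ≤ max (j + (n + 1)) κ by omega)
        linarith
    · rw [min_eq_right h] at ih
      rw [if_neg (show ¬ n + 1 ≤ T by omega), min_eq_right (show T ≤ n + 1 by omega)]
      have h1 : (if n ≤ T then 0 else 4 - 4 * (2 ^ T / 2 ^ n) : ℝ) = 4 - 4 * (2 ^ T / 2 ^ n) := by
        split_ifs with h2
        · rw [le_antisymm h2 h, div_self (by positivity)]; norm_num
        · rfl
      have h2 : (2 : ℝ) ^ T / 2 ^ (n + 1) = 2 ^ T / 2 ^ n / 2 := by rw [pow_succ, div_div]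
      rw [h1] at ih
      rw [h2]
      have h3 := min_le_right (1 : ℝ) (2 ^ T / 2 ^ n)
      have h4 : 0 ≤ min (1 : ℝ) (2 ^ T / 2 ^ n) := le_min zero_le_one hq.le
      split_ifs <;> nlinarith

lemma loss' (j κ ρ n : ℕ) :
    ∑ t ∈ Finset.range n, (if κ ≤ j + t then ss (j + t) * min 1 (2 ^ (ρ + κ) / 2 ^ t) else 0) ≤
      RR (max j κ + min j κ + ρ) - RR (max j κ) + 4 := by
  refine (loss j κ (ρ + κ) n).trans (add_le_add (sub_le_sub_right (RR_mono (by omega)) _) ?_)
  split_ifs
  · norm_num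
  · exact sub_le_self _ (by positivity)

lemma gain (j κ : ℕ) : ∑ k ∈ Finset.range j, (if k < κ then ss k else 0) = RR (min j κ) := by
  induction j with
  | zero => simp [RR]
  | succ j ih =>
    rw [Finset.sum_range_succ, ih]
    split_ifs with h
    · rw [min_eq_left h.le, min_eq_left (show j + 1 ≤ κ from h), RR_succ]
    · rw [min_eq_right (by omega), min_eq_right (by omega), add_zero]

lemma sqrt_add (a ρ : ℕ) : Nat.sqrt (a + ρ) ≤ Nat.sqrt a + ρ := by
  induction ρ with
  | zero => simp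
  | succ ρ ih =>
    have : Nat.sqrt (a + ρ + 1) ≤ Nat.sqrt (a + ρ) + 1 := Nat.sqrt_succ_le_succ_sqrt (a + ρ)
    rw [← add_assoc]; omega

lemma sqrt_sub (a b : ℕ) : Nat.sqrt (a + b) ≤ Nat.sqrt a + Nat.sqrt b + 1 := by
  rw [← Nat.lt_succ_iff, Nat.sqrt_lt]
  have h1 := Nat.lt_succ_sqrt a
  have h2 := Nat.lt_succ_sqrt b
  simp only [Nat.succ_eq_add_one] at *
  nlinarith

lemma sqrt_sub' {a b : ℕ} (h : b * b ≤ a) : Nat.sqrt (a + b) ≤ Nat.sqrt a + 1 := by
  rw [← Nat.lt_succ_iff, Nat.sqrt_lt]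
  have h1 := Nat.lt_succ_sqrt a
  have h2 := Nat.le_sqrt.2 h
  simp only [Nat.succ_eq_add_one] at *
  nlinarith

lemma exists_a (j : ℕ) : ∃ a ≤ j, j ≤ 16 ^ a ∧ 4 ^ a ≤ 4 * Nat.sqrt j + 4 := by
  refine ⟨Nat.clog 16 j, ?_, Nat.le_pow_clog (by norm_num) j, ?_⟩
  · exact Nat.clog_le_of_le_pow (Nat.lt_pow_self (by norm_num)).le
  · rcases h : Nat.clog 16 j with _ | a
    · simp
    · have h1 : 16 ^ a < j := (Nat.lt_clog_iff_pow_lt (by norm_num)).1 (by omega)
      have : 4 ^ a ≤ Nat.sqrt j := Nat.le_sqrt.2 (by rw [← mul_pow]; exact h1.le)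
      rw [pow_succ]; omega

lemma two_pow (a : ℕ) : 64 * a ≤ 2 ^ a + 448 := by
  induction a with
  | zero => simp
  | succ a ih =>
    rcases lt_or_ge a 7 with h | h
    · exact le_add_left (by omega)
    · have : 2 ^ 7 ≤ 2 ^ a := Nat.pow_le_pow_right (by norm_num) h
      rw [pow_succ]; omega

lemma det {I j a : ℕ} (n : ℕ) (ha : a < I) (h1 : j ≤ 16 ^ a) (h2 : 4 ^ a ≤ 4 * Nat.sqrt j + 4) :
    ∑ t ∈ Finset.range n, ss (j + t) * ∑ i ∈ Finset.range I,
      (if kk i ≤ j + t then ee i * min 1 (8 * 16 ^ a * MM i / 2 ^ t) else 0) ≤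
    ∑ k ∈ Finset.range j, ss k * (∑ i ∈ Finset.range I, if k < kk i then ee i else 0) + 79 := by
  simp only [Finset.mul_sum]
  rw [Finset.sum_comm, Finset.sum_comm (s := Finset.range j)]
  have key (i : ℕ) : ∑ t ∈ Finset.range n, ss (j + t) *
      (if kk i ≤ j + t then ee i * min 1 (8 * 16 ^ a * MM i / 2 ^ t) else 0) ≤
      ∑ k ∈ Finset.range j, ss k * (if k < kk i then ee i else 0) + (ee i * (8 * a + 17) -
        if i = a then ee a * Nat.sqrt j else 0) := by
    have e1 : (8 * 16 ^ a * MM i : ℝ) = 2 ^ (4 * a + 6 + kk i) := by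
      rw [MM, pow_add, pow_add, pow_mul]; norm_num; ring
    have h3 := mul_le_mul_of_nonneg_left (loss' j (kk i) (4 * a + 6) n) (ee_pos i).le
    have h4 := congrArg (ee i * ·) (gain j (kk i))
    simp only [Finset.mul_sum] at h3 h4
    rw [e1, Finset.sum_congr rfl (g := fun t => ee i * if kk i ≤ j + t then
        ss (j + t) * min 1 (2 ^ (4 * a + 6 + kk i) / 2 ^ t) else 0)
        fun t _ => by split_ifs <;> ring,
      Finset.sum_congr (s₁ := Finset.range j) rfl (g := fun k => ee i * if k < kk i then ss k else 0)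
        fun t _ => by split_ifs <;> ring, h4]
    refine h3.trans ?_
    have h5 : (Nat.sqrt (max j (kk i) + min j (kk i) + (4 * a + 6)) : ℝ) ≤
        Nat.sqrt (max j (kk i) + min j (kk i)) + (4 * a + 6 : ℕ) := by
      exact_mod_cast sqrt_add _ _
    have he := ee_pos i
    unfold RR
    split_ifs with h
    · subst h
      have h6 : j * j ≤ kk i := by
        rw [kk, show 256 = 16 * 16 by norm_num, mul_pow]; exact Nat.mul_le_mul h1 h1
      have h7 : j ≤ kk i := h1.trans (Nat.pow_le_pow_left (by norm_num) _)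
      rw [max_eq_right h7, min_eq_left h7] at *
      have h8 : (Nat.sqrt (kk i + j) : ℝ) ≤ Nat.sqrt (kk i) + 1 := by exact_mod_cast sqrt_sub' h6
      push_cast at *
      nlinarith
    · have h8 : (Nat.sqrt (max j (kk i) + min j (kk i)) : ℝ) ≤
          Nat.sqrt (max j (kk i)) + Nat.sqrt (min j (kk i)) + 1 := by exact_mod_cast sqrt_sub _ _
      simp only [Nat.cast_add, Nat.cast_mul, Nat.cast_ofNat] at *
      nlinarith
  refine (Finset.sum_le_sum fun i _ => key i).trans ?_
  rw [Finset.sum_add_distrib, Finset.sum_sub_distrib, Finset.sum_ite_eq', if_pos (by simpa),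
    ← Finset.sum_mul]
  have h3 := mul_le_mul_of_nonneg_right (ee_fin I) (show (0 : ℝ) ≤ 8 * a + 17 by positivity)
  have h4 : (4 : ℝ) ^ a ≤ 4 * Nat.sqrt j + 4 := by exact_mod_cast h2
  have h5 : (64 * a : ℝ) ≤ 2 ^ a + 448 := by exact_mod_cast two_pow a
  have h6 : ee a * 4 ^ a = 2 ^ a / 2 := by
    rw [ee, pow_succ, mul_right_comm, ← mul_pow]; norm_num; ring
  have h7 : ee a ≤ 1 := pow_le_one₀ (by norm_num) (by norm_num)
  nlinarith [ee_pos a]

end Pool.Agent.H44.DS
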