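import Pool.Agent.H44.DS1

/-! Chernoff bounds for weighted sums over a binary tree with pendant leaves. -/

open Set Filter MeasureTheory ProbabilityTheory Real Measure
open scoped ENNReal

namespace Pool.Agent.H44.DS

def DD (n x : ℕ) : Finset (ℕ × Bool) :=
  (Finset.range n).biUnion fun t => Finset.Ico (2 ^ t * x) (2 ^ t * (x + 1)) ×ˢ Finset.univ

lemma log_eq {x t y : ℕ} (hx : 1 ≤ x) (h : y ∈ Finset.Ico (2 ^ t * x) (2 ^ t * (x + 1))) :
    Nat.log 2 y = Nat.log 2 x + t := by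
  obtain ⟨h1, h2⟩ := Finset.mem_Ico.1 h
  have h3 := Nat.pow_log_le_self 2 (show x ≠ 0 by omega)
  have h4 := Nat.lt_pow_succ_log_self (show 1 < 2 by norm_num) x
  refine Nat.log_eq_of_pow_le_of_lt_pow ?_ ?_
  · rw [pow_add, mul_comm]; exact (Nat.mul_le_mul_left _ h3).trans h1
  · rw [add_right_comm, pow_add, mul_comm]; exact h2.trans_le (Nat.mul_le_mul_left _ h4)

lemma sum_DD {x : ℕ} (hx : 1 ≤ x) (n : ℕ) (f : ℕ × Bool → ℝ) :
    ∑ v ∈ DD n x, f v = ∑ t ∈ Finset.range n, ∑ y ∈ Finset.Ico (2 ^ t * x) (2 ^ t * (x + 1)),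
      (f (y, false) + f (y, true)) := by
  rw [DD, Finset.sum_biUnion]
  · refine Finset.sum_congr rfl fun t _ => ?_
    rw [Finset.sum_product]
    simp [add_comm]
  · intro t _ t' _ h
    refine Finset.disjoint_left.2 fun v h1 h2 => h ?_
    have e1 := log_eq hx (Finset.mem_product.1 h1).1
    have e2 := log_eq hx (Finset.mem_product.1 h2).1
    omega

lemma sum_DD' {x : ℕ} (hx : 1 ≤ x) (n : ℕ) (g : ℕ → Bool → ℝ) :
    ∑ v ∈ DD n x, g (Nat.log 2 v.1) v.2 = ∑ t ∈ Finset.range n,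
      2 ^ t * (g (Nat.log 2 x + t) false + g (Nat.log 2 x + t) true) := by
  rw [sum_DD hx]
  refine Finset.sum_congr rfl fun t _ => ?_
  rw [Finset.sum_congr (g := fun _ => g (Nat.log 2 x + t) false + g (Nat.log 2 x + t) true) rfl
    fun y hy => by rw [← log_eq hx hy], Finset.sum_const, Nat.card_Ico,
    mul_add, mul_one, Nat.add_sub_cancel_left, nsmul_eq_mul, Nat.cast_pow, Nat.cast_ofNat]

lemma mem_DD {y K : ℕ} (b : Bool) (hy : 1 ≤ y) (h : Nat.log 2 y < K) : (y, b) ∈ DD K 1 := by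
  simp only [DD, Finset.mem_biUnion, Finset.mem_range, Finset.mem_product, Finset.mem_Ico]
  refine ⟨_, h, ⟨?_, ?_⟩, Finset.mem_univ _⟩
  · rw [mul_one]; exact Nat.pow_log_le_self 2 (by omega)
  · exact Nat.lt_pow_succ_log_self (show 1 < 2 by norm_num) y

noncomputable def aa (k : ℕ) (b : Bool) : ℝ := if b then (if lf k then 1 else 0) else 1

noncomputable def ZZ (v : ℕ × Bool) (ω : ℕ × Bool → ℝ) : ℝ :=
  aa (Nat.log 2 v.1) v.2 * tr (Nat.log 2 v.1) (ω v) / 2 ^ Nat.log 2 v.1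

noncomputable def WW (n x : ℕ) (ω : ℕ × Bool → ℝ) : ℝ := ∑ v ∈ DD n x, ZZ v ω

lemma WW_succ {x : ℕ} (hx : 1 ≤ x) (n : ℕ) (ω : ℕ × Bool → ℝ) :
    WW (n + 1) x ω = ZZ (x, false) ω + ZZ (x, true) ω + WW n (2 * x) ω + WW n (2 * x + 1) ω := by
  unfold WW
  rw [sum_DD hx, sum_DD (by omega), sum_DD (by omega), Finset.sum_range_succ', add_comm,
    add_assoc, ← Finset.sum_add_distrib]
  congr 1
  · simp
  · refine Finset.sum_congr rfl fun t _ => ?_
    rw [Finset.sum_Ico_consecutive _ (Nat.mul_le_mul_left _ (by omega))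
      (Nat.mul_le_mul_left _ (by omega))]
    congr 2 <;> ring

noncomputable def PP : Measure (ℕ × Bool → ℝ) := infinitePi fun _ => nu

instance : IsProbabilityMeasure PP := by unfold PP; infer_instance

lemma aa_cases (k : ℕ) (b : Bool) : aa k b = 0 ∨ aa k b = 1 := by
  unfold aa; split_ifs <;> simp

lemma aa_add (k : ℕ) : aa k false + aa k true = ss k := by simp [aa, ss]

lemma ZZ_meas (v : ℕ × Bool) : Measurable (ZZ v) :=
  (((tr_meas _).comp (measurable_pi_apply v)).const_mul _).div_const _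

lemma ZZ_mem (v : ℕ × Bool) (ω : ℕ × Bool → ℝ) : ZZ v ω ∈ Icc (0 : ℝ) 8 := by
  have h := tr_mem (Nat.log 2 v.1) (ω v)
  unfold ZZ
  rcases aa_cases (Nat.log 2 v.1) v.2 with h' | h' <;> rw [h']
  · simp
  · rw [one_mul]
    exact ⟨div_nonneg h.1 (by positivity), (div_le_iff₀ (by positivity)).2 h.2⟩

lemma WW_int (n x : ℕ) (θ : ℝ) : Integrable (fun ω => exp (θ * WW n x ω)) PP := by
  have hm : Measurable (WW n x) := Finset.measurable_sum _ fun v _ => ZZ_meas v
  refine .of_bound (hm.const_mul θ).exp.aestronglyMeasurable (exp (|θ| * ∑ _v ∈ DD n x, 8))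
    (Eventually.of_forall fun ω => ?_)
  rw [Real.norm_eq_abs, abs_of_pos (exp_pos _), exp_le_exp]
  exact (mul_le_mul_of_nonneg_right (le_abs_self θ)
    (Finset.sum_nonneg fun v _ => (ZZ_mem v ω).1)).trans
    (mul_le_mul_of_nonneg_left (Finset.sum_le_sum fun v _ => (ZZ_mem v ω).2) (abs_nonneg _))

lemma mgf_ZZ {I : ℕ} (v : ℕ × Bool) (h : Nat.log 2 v.1 ≤ I) (θ : ℝ) : mgf (ZZ v) PP θ ≤
    exp (aa (Nat.log 2 v.1) v.2 * GG I (Nat.log 2 v.1) (θ / 2 ^ Nat.log 2 v.1)) := by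
  unfold mgf ZZ
  rcases aa_cases (Nat.log 2 v.1) v.2 with h' | h' <;> rw [h']
  · simp
  · rw [one_mul]
    refine le_trans (le_of_eq ?_) (mgf_tr h _)
    rw [← (measurePreserving_eval_infinitePi (fun _ : ℕ × Bool => nu) v).map_eq,
      integral_map (measurable_pi_apply v).aemeasurable
        ((tr_meas _).const_mul _).exp.aestronglyMeasurable]
    refine integral_congr_ae (Eventually.of_forall fun ω => ?_)
    simp only
    congr 1; ring

lemma mgf_WW {I x n : ℕ} (hx : 1 ≤ x) (h : Nat.log 2 x + n ≤ I) (θ : ℝ) : mgf (WW n x) PP θ ≤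
    exp (∑ t ∈ Finset.range n, ss (Nat.log 2 x + t) *
      (2 ^ t * GG I (Nat.log 2 x + t) (θ / 2 ^ (Nat.log 2 x + t)))) := by
  have hi : iIndepFun ZZ PP := iIndepFun_infinitePi (P := fun _ : ℕ × Bool => nu)
    (X := fun v y => aa (Nat.log 2 v.1) v.2 * tr (Nat.log 2 v.1) y / 2 ^ Nat.log 2 v.1)
    fun v => ((tr_meas _).const_mul _).div_const _
  have : WW n x = ∑ v ∈ DD n x, ZZ v := by funext ω; simp [WW]
  rw [this, hi.mgf_sum ZZ_meas]
  refine (Finset.prod_le_prod (fun _ _ => mgf_nonneg) fun v hv => mgf_ZZ (I := I) v ?_ θ).trans ?_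
  · simp only [DD, Finset.mem_biUnion, Finset.mem_range, Finset.mem_product] at hv
    obtain ⟨t, ht, h1, -⟩ := hv
    rw [log_eq hx h1]; omega
  · rw [← exp_sum, sum_DD' hx n fun k b => aa k b * GG I k (θ / 2 ^ k)]
    refine le_of_eq (congrArg _ (Finset.sum_congr rfl fun t _ => ?_))
    rw [← add_mul, aa_add]; ring

noncomputable def mu (I k : ℕ) : ℝ := ∑ i ∈ Finset.range I, if kk i ≤ k then ee i else 0

noncomputable def BB (K : ℕ) : ℝ := ∑ k ∈ Finset.range K, ss k * mu (K + 1) k - 80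

lemma exp_neg_le {z : ℝ} (hz : 0 ≤ z) : exp (-z) - 1 ≤ -z + z * min 1 z := by
  rcases le_total 1 z with h | h
  · rw [min_eq_left h]
    have := exp_le_one_iff.2 (neg_nonpos.2 hz)
    linarith
  · rw [min_eq_right h]
    have := (abs_le.1 (abs_exp_sub_one_sub_id_le (x := -z) (by rw [abs_neg, abs_of_nonneg hz]; exact h))).2
    nlinarith

lemma RR_eq (j : ℕ) : RR j = ∑ k ∈ Finset.range j, ss k := by
  induction j with
  | zero => simp [RR]
  | succ j ih => rw [Finset.sum_range_succ, RR_succ, ih]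

lemma low {x K : ℕ} (hx : 1 ≤ x) (h : Nat.log 2 x ≤ K) :
    PP.real {ω | WW (K - Nat.log 2 x) x ω ≤ (BB K - RR (Nat.log 2 x)) / 2 ^ Nat.log 2 x} ≤
      (1 / 2) ^ (4 * Nat.log 2 x + 4) := by
  obtain ⟨n, rfl⟩ := Nat.exists_eq_add_of_le h
  rw [Nat.add_sub_cancel_left]
  obtain ⟨a, ha, h1, h2⟩ := exists_a (Nat.log 2 x)
  have h3 := det (I := Nat.log 2 x + n + 1) n (by omega) h1 h2
  have h4 := mgf_WW (I := Nat.log 2 x + n + 1) (n := n) hx (by omega) (-(8 * 16 ^ a * 2 ^ Nat.log 2 x))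
  set j := Nat.log 2 x
  set l : ℝ := 8 * 16 ^ a with hl
  have hl0 : 0 < l := by positivity
  refine (measure_le_le_exp_mul_mgf _ (t := -(l * 2 ^ j)) (neg_nonpos.2 (by positivity))
    (WW_int _ _ _)).trans ((mul_le_mul_of_nonneg_left h4 (exp_pos _).le).trans ?_)
  have h5 (t : ℕ) : 2 ^ t * GG (j + n + 1) (j + t) (-(l * 2 ^ j) / 2 ^ (j + t)) ≤
      -l * mu (j + n + 1) (j + t) + l * ∑ i ∈ Finset.range (j + n + 1),
        (if kk i ≤ j + t then ee i * min 1 (l * MM i / 2 ^ t) else 0) := by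
    simp only [GG, mu, Finset.mul_sum, ← Finset.sum_add_distrib]
    refine Finset.sum_le_sum fun i _ => ?_
    split_ifs
    · have e1 : -(l * 2 ^ j) / 2 ^ (j + t) * MM i = -(l * MM i / 2 ^ t) := by
        rw [pow_add]; field_simp
      have hM := MM_pos i
      have := mul_le_mul_of_nonneg_left (exp_neg_le (z := l * MM i / 2 ^ t) (by positivity))
        (show 0 ≤ 2 ^ t * pp i from mul_nonneg (by positivity) (pp_pos i).le)
      have e2 : 2 ^ t * pp i * (l * MM i / 2 ^ t) = l * ee i := by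
        rw [← pp_MM]; field_simp
      rw [e1, ← mul_assoc]
      rw [mul_add, mul_neg, ← mul_assoc, e2] at this
      linarith
    · simp
  have h6 := Finset.sum_le_sum fun t (_ : t ∈ Finset.range n) =>
    mul_le_mul_of_nonneg_left (h5 t) (show 0 ≤ ss (j + t) by linarith [(ss_mem (j + t)).1])
  have h7 : ∑ k ∈ Finset.range j, ss k * (∑ i ∈ Finset.range (j + n + 1),
      if k < kk i then ee i else 0) + ∑ k ∈ Finset.range j, ss k * mu (j + n + 1) k ≤ RR j := by
    rw [RR_eq, ← Finset.sum_add_distrib]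
    refine Finset.sum_le_sum fun k _ => ?_
    rw [← mul_add, mu, ← Finset.sum_add_distrib]
    refine mul_le_of_le_one_right (by linarith [(ss_mem k).1])
      (le_trans (le_of_eq (Finset.sum_congr rfl fun i _ => ?_)) (ee_fin _))
    split_ifs <;> first | omega | simp
  have h8 : (4 * j + 4 : ℕ) ≤ l := by
    have : (j : ℝ) ≤ 16 ^ a := by exact_mod_cast h1
    have : (1 : ℝ) ≤ 16 ^ a := one_le_pow₀ (by norm_num)
    push_cast; linarith
  have h9 : exp (-1) ≤ 1 / 2 := by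
    rw [exp_neg, one_div]
    exact inv_anti₀ (by norm_num) (by linarith [add_one_le_exp 1])
  refine le_trans ?_ (pow_le_pow_left₀ (exp_pos _).le h9 _)
  rw [← exp_add, ← exp_nat_mul, exp_le_exp, neg_neg, mul_assoc, mul_div_cancel₀ _ (by positivity),
    BB, Finset.sum_range_add]
  simp only [mul_add, Finset.sum_add_distrib, mul_left_comm (ss _) l, mul_left_comm (ss _) (-l),
    ← Finset.mul_sum] at h6
  nlinarith

lemma up (K : ℕ) : PP.real {ω | BB K + 140 ≤ WW K 1 ω} ≤ 1 / 8 := by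
  have h4 := mgf_WW (I := K + 1) (n := K) (x := 1) le_rfl (by simp) (1 / 8)
  simp only [Nat.log_one_right, zero_add] at h4
  refine (measure_ge_le_exp_mul_mgf _ (t := 1 / 8) (by norm_num)
    (WW_int _ _ _)).trans ((mul_le_mul_of_nonneg_left h4 (exp_pos _).le).trans ?_)
  have h5 (t : ℕ) : ss t * (2 ^ t * GG (K + 1) t (1 / 8 / 2 ^ t)) ≤
      1 / 8 * (ss t * mu (K + 1) t) + 1 / 8 * ∑ i ∈ Finset.range (K + 1), ee i *
        (if kk i ≤ 0 + t then ss (0 + t) * min 1 (2 ^ (0 + kk i) / 2 ^ t) else 0) := by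
    simp only [GG, mu, Finset.mul_sum, ← Finset.sum_add_distrib, zero_add]
    refine Finset.sum_le_sum fun i _ => ?_
    split_ifs with h
    · have e1 : 1 / 8 / 2 ^ t * MM i = 2 ^ kk i / 2 ^ t := by rw [MM]; field_simp
      have h1 : (2 : ℝ) ^ kk i / 2 ^ t ≤ 1 :=
        div_le_one_of_le₀ (pow_le_pow_right₀ (by norm_num) h) (by positivity)
      have e2 : 2 ^ t * pp i * (2 ^ kk i / 2 ^ t) = 1 / 8 * ee i := by
        rw [← pp_MM, MM]; field_simp
      rw [e1, min_eq_right h1]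
      set z : ℝ := 2 ^ kk i / 2 ^ t
      have hz : 0 < z := by positivity
      have h2 := (abs_le.1 (abs_exp_sub_one_sub_id_le (x := z) (by rwa [abs_of_pos hz]))).2
      have h3 := mul_le_mul_of_nonneg_left (show exp z - 1 ≤ z + z * z by nlinarith)
        (show 0 ≤ 2 ^ t * pp i from mul_nonneg (by positivity) (pp_pos i).le)
      rw [mul_add, ← mul_assoc, e2] at h3
      nlinarith [(ss_mem t).1]
    · simp
  have h6 := Finset.sum_le_sum fun t (_ : t ∈ Finset.range K) => h5 t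
  rw [Finset.sum_add_distrib, ← Finset.mul_sum, ← Finset.mul_sum, Finset.sum_comm] at h6
  have h7 : ∑ i ∈ Finset.range (K + 1), ∑ t ∈ Finset.range K, ee i *
      (if kk i ≤ 0 + t then ss (0 + t) * min 1 (2 ^ (0 + kk i) / 2 ^ t) else 0) ≤ 4 := by
    refine (Finset.sum_le_sum fun i _ => ?_).trans (show ∑ i ∈ Finset.range (K + 1), ee i * 4 ≤ 4 by
      rw [← Finset.sum_mul]; linarith [ee_fin (K + 1)])
    rw [← Finset.mul_sum]
    exact mul_le_mul_of_nonneg_left ((loss' 0 (kk i) 0 K).trans (by simp)) (ee_pos i).le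
  have h9 : exp (-7) ≤ 1 / 8 := by
    rw [exp_neg, one_div]
    exact inv_anti₀ (by norm_num) (by linarith [add_one_le_exp 7])
  refine le_trans ?_ h9
  rw [← exp_add, exp_le_exp, BB]
  linarith

def FF (K : ℕ) : Set (ℕ × Bool → ℝ) :=
  {ω | (∀ v ∈ DD K 1, ω v ≤ 8 * 2 ^ Nat.log 2 v.1) ∧
    (∀ v ∈ DD (K + 1) 1, (BB K - RR (Nat.log 2 v.1)) / 2 ^ Nat.log 2 v.1 <
      WW (K - Nat.log 2 v.1) v.1 ω) ∧ WW K 1 ω < BB K + 140}

lemma FF_compl (K : ℕ) : PP.real (FF K)ᶜ ≤ 7 / 8 := by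
  have : (FF K)ᶜ ⊆ (⋃ v ∈ DD K 1, Function.eval v ⁻¹' Ioi (8 * 2 ^ Nat.log 2 v.1 : ℝ)) ∪
      ((⋃ v ∈ DD (K + 1) 1, {ω | WW (K - Nat.log 2 v.1) v.1 ω ≤
        (BB K - RR (Nat.log 2 v.1)) / 2 ^ Nat.log 2 v.1}) ∪ {ω | BB K + 140 ≤ WW K 1 ω}) := by
    intro ω h
    by_contra hc
    simp only [mem_union, mem_iUnion, not_or, not_exists, mem_preimage, mem_Ioi, not_lt,
      mem_ofPred_eq, not_le] at hc
    exact h hc
  refine (measureReal_mono this).trans ((measureReal_union_le _ _).trans ?_)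
  have h1 : PP.real (⋃ v ∈ DD K 1, Function.eval v ⁻¹' Ioi (8 * 2 ^ Nat.log 2 v.1 : ℝ)) ≤ 1 / 2 := by
    refine (measureReal_biUnion_finset_le _ _).trans (le_trans (le_of_eq ?_) (tail_sum K))
    rw [PP, Finset.sum_congr rfl fun v _ => (measurePreserving_eval_infinitePi
      (fun _ : ℕ × Bool => nu) v).measureReal_preimage measurableSet_Ioi.nullMeasurableSet,
      sum_DD' le_rfl K fun k _ => nu.real (Ioi (8 * 2 ^ k : ℝ))]
    simp only [Nat.log_one_right, zero_add]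
    exact Finset.sum_congr rfl fun t _ => by ring
  have h2 : PP.real (⋃ v ∈ DD (K + 1) 1, {ω | WW (K - Nat.log 2 v.1) v.1 ω ≤
        (BB K - RR (Nat.log 2 v.1)) / 2 ^ Nat.log 2 v.1}) ≤ 1 / 4 := by
    refine (measureReal_biUnion_finset_le _ _).trans ((Finset.sum_le_sum fun v hv => low ?_ ?_).trans ?_)
    · simp only [DD, Finset.mem_biUnion, Finset.mem_range, Finset.mem_product, Finset.mem_Ico] at hv
      obtain ⟨t, -, h1, -⟩ := hv
      exact le_trans (by simpa using Nat.one_le_two_pow) h1.1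
    · simp only [DD, Finset.mem_biUnion, Finset.mem_range, Finset.mem_product] at hv
      obtain ⟨t, ht, h1, -⟩ := hv
      rw [log_eq le_rfl h1, Nat.log_one_right]; omega
    · rw [sum_DD' le_rfl (K + 1) fun k _ => (1 / 2 : ℝ) ^ (4 * k + 4)]
      simp only [Nat.log_one_right, zero_add]
      refine (Finset.sum_le_sum (g := fun t => 1 / 8 * (1 / 2) ^ t) fun t _ => ?_).trans ?_
      · have e : (2 : ℝ) ^ t * (1 / 2) ^ t = 1 := by rw [← mul_pow]; norm_num
        have h3 : (1 / 2 : ℝ) ^ (4 * t + 4) ≤ (1 / 2) ^ (t + t + 4) :=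
          pow_le_pow_of_le_one (by norm_num) (by norm_num) (by omega)
        rw [pow_add _ (t + t), pow_add _ t t] at h3
        have h4 := mul_le_mul_of_nonneg_left h3 (show (0 : ℝ) ≤ 2 ^ t by positivity)
        rw [← mul_assoc, ← mul_assoc, e] at h4
        linarith
      · rw [← Finset.mul_sum]
        linarith [sum_geometric_two_le (K + 1)]
  linarith [measureReal_union_le (μ := PP) (⋃ v ∈ DD (K + 1) 1, {ω | WW (K - Nat.log 2 v.1) v.1 ω ≤
        (BB K - RR (Nat.log 2 v.1)) / 2 ^ Nat.log 2 v.1}) {ω | BB K + 140 ≤ WW K 1 ω}, up K]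

end Pool.Agent.H44.DS
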