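import Pool.Agent.H44.DS2

/-! The tree with pendant leaves and the stabilizing odometer. -/

open Set Filter MeasureTheory ProbabilityTheory Real Measure Topology
open scoped ENNReal

namespace Pool.Agent.H44.DS

lemma compact_super {V : Type} (G : SimpleGraph V) [G.LocallyFinite] (hc : G.Connected) (o : V)
    (σ : V → ℝ) (l : Filter ℕ) [l.NeBot] (v : ℕ → V → ℝ) (h0 : ∀ x, ∀ᶠ K in l, 0 ≤ v K x)
    (h1 : ∀ x, ∀ᶠ K in l, σ x - 1 ≤ ∑ y ∈ G.neighborFinset x, (v K x - v K y)) {B : ℝ}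
    (hB : ∀ᶠ K in l, v K o ≤ B) :
    ∃ u : V → ℝ, (∀ x, 0 ≤ u x) ∧
      ∀ x, σ x + (∑ y ∈ G.neighborFinset x, u y / (G.degree y : ℝ)) - u x ≤ 1 := by
  have hb : ∀ x, ∃ b : ℝ, ∀ᶠ K in l, v K x ≤ b := by
    intro x
    obtain ⟨w⟩ := hc x o
    induction w with
    | nil => exact ⟨B, hB⟩
    | @cons x y _ hxy _ ih =>
      obtain ⟨b, hb⟩ := ih hB
      refine ⟨G.degree y * b + 1 - σ y, ?_⟩
      filter_upwards [hb, h1 y, (eventually_all_finset (G.neighborFinset y)).2 fun z _ => h0 z]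
        with K a1 a2 a3
      rw [Finset.sum_sub_distrib, Finset.sum_const, nsmul_eq_mul,
        SimpleGraph.card_neighborFinset_eq_degree] at a2
      have := Finset.single_le_sum a3 ((G.mem_neighborFinset y x).2 hxy.symm)
      have := mul_le_mul_of_nonneg_left a1 (Nat.cast_nonneg (α := ℝ) (G.degree y))
      linarith
  have hU := Ultrafilter.of_le l
  have (x : V) : ∃ w, Tendsto (fun K => v K x) (Ultrafilter.of l) (𝓝 w) := by
    obtain ⟨b, hb⟩ := hb x
    obtain ⟨w, -, hw⟩ := (isCompact_Icc (a := (0 : ℝ)) (b := b)).ultrafilter_le_nhds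
      ((Ultrafilter.of l).map fun K => v K x) (le_principal_iff.2 (hU ((h0 x).and hb)))
    exact ⟨w, hw⟩
  choose w hw using this
  have hw0 (x : V) : 0 ≤ w x := ge_of_tendsto (hw x) (hU (h0 x))
  refine ⟨fun x => G.degree x * w x, fun x => mul_nonneg (Nat.cast_nonneg _) (hw0 x), fun x => ?_⟩
  have h2 := ge_of_tendsto (tendsto_finsetSum _ fun y _ => (hw x).sub (hw y)) (hU (h1 x))
  rw [Finset.sum_sub_distrib, Finset.sum_const, nsmul_eq_mul,
    SimpleGraph.card_neighborFinset_eq_degree] at h2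
  rw [Finset.sum_congr rfl (g := w) fun y hy => mul_div_cancel_left₀ _ (by
    have := ((G.mem_neighborFinset x y).1 hy).symm
    exact_mod_cast (G.degree_pos_iff_exists_adj y).2 ⟨x, this⟩ |>.ne')]
  linarith

def VS : Set (ℕ × Bool) := {v | 1 ≤ v.1 ∧ (v.2 = true → lf (Nat.log 2 v.1))}

instance : DecidablePred (· ∈ VS) := fun v =>
  inferInstanceAs (Decidable (1 ≤ v.1 ∧ (v.2 = true → lf (Nat.log 2 v.1))))

def nb : ℕ × Bool → Finset (ℕ × Bool)
  | (n, true) => {(n, false)}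
  | (n, false) => {(2 * n, false), (2 * n + 1, false)} ∪ (if 2 ≤ n then {(n / 2, false)} else ∅) ∪
      if lf (Nat.log 2 n) then {(n, true)} else ∅

lemma mem_nb {n m : ℕ} {b c : Bool} : (m, c) ∈ nb (n, b) ↔
    (b = true ∧ c = false ∧ m = n) ∨ (b = false ∧ c = false ∧ (m = 2 * n ∨ m = 2 * n + 1 ∨
      (2 ≤ n ∧ m = n / 2))) ∨ (b = false ∧ c = true ∧ m = n ∧ lf (Nat.log 2 n)) := by
  cases b <;> cases c <;> by_cases h : 2 ≤ n <;> by_cases h' : lf (Nat.log 2 n) <;>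
    simp [nb, h, h']

lemma nb_ok {u v : ℕ × Bool} (hu : u ∈ VS) (h : v ∈ nb u) : v ∈ VS := by
  obtain ⟨n, b⟩ := u
  obtain ⟨m, c⟩ := v
  obtain ⟨h1, -⟩ := hu
  rcases mem_nb.1 h with ⟨-, rfl, rfl⟩ | ⟨-, rfl, h⟩ | ⟨-, rfl, rfl, h⟩
  · exact ⟨h1, by simp⟩
  · exact ⟨by simp only at h1 ⊢; omega, by simp⟩
  · exact ⟨h1, fun _ => h⟩

def GT : SimpleGraph VS where
  Adj u v := v.1 ∈ nb u.1
  symm := ⟨by
    rintro ⟨⟨n, b⟩, h1, h2⟩ ⟨⟨m, c⟩, h3, h4⟩ h
    simp only at h1 h2 h3 h4 h ⊢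
    rw [mem_nb] at h ⊢
    rcases h with ⟨rfl, rfl, rfl⟩ | ⟨rfl, rfl, h⟩ | ⟨rfl, rfl, rfl, h⟩
    · simp [h2 rfl]
    · simp only [true_and, Bool.false_eq_true, false_and, false_or, or_false]; omega
    · simp⟩
  loopless := ⟨by
    rintro ⟨⟨n, b⟩, h1, h2⟩ h
    simp only at h1 h
    rcases mem_nb.1 h with ⟨rfl, h, -⟩ | ⟨-, -, h⟩ | ⟨rfl, h, -⟩
    · simp at h
    · omega
    · simp at h⟩

instance : GT.LocallyFinite := fun u =>
  Fintype.ofFinset ((nb u.1).subtype (· ∈ VS)) fun _ => Finset.mem_subtype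

lemma sum_GT (u : VS) (f : ℕ × Bool → ℝ) :
    ∑ y ∈ GT.neighborFinset u, f y = ∑ y ∈ nb u.1, f y := by
  have : GT.neighborFinset u = (nb u.1).subtype (· ∈ VS) := by
    ext y; rw [SimpleGraph.mem_neighborFinset, Finset.mem_subtype]; rfl
  rw [this, Finset.sum_subtype_of_mem f fun y hy => nb_ok u.2 hy]

lemma sum_nb {n : ℕ} (_hn : 1 ≤ n) (f : ℕ × Bool → ℝ) : ∑ y ∈ nb (n, false), f y =
    f (2 * n, false) + f (2 * n + 1, false) + (if 2 ≤ n then f (n / 2, false) else 0) +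
      if lf (Nat.log 2 n) then f (n, true) else 0 := by
  rw [nb, Finset.sum_union, Finset.sum_union, Finset.sum_pair (by simp)]
  · split_ifs <;> simp
  · split_ifs <;> simp <;> omega
  · split_ifs <;> simp

lemma deg_le (u : VS) : GT.degree u ≤ 4 := by
  have h := sum_GT u fun _ => 1
  rw [Finset.sum_const, nsmul_eq_mul, mul_one, SimpleGraph.card_neighborFinset_eq_degree] at h
  obtain ⟨⟨n, b⟩, h1, h2⟩ := u
  have : (GT.degree ⟨(n, b), h1, h2⟩ : ℝ) ≤ 4 := by
    rw [h]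
    cases b
    · rw [sum_nb h1]; split_ifs <;> norm_num
    · simp [nb]
  exact_mod_cast this

def root : VS := ⟨(1, false), le_rfl, by simp⟩

lemma conn : GT.Connected := by
  have h1 (n : ℕ) : ∀ h, GT.Reachable root ⟨(n, false), h⟩ := by
    induction n using Nat.strong_induction_on with
    | _ n ih =>
      intro h
      have h1 : 1 ≤ n := h.1
      rcases h1.eq_or_lt with rfl | h2
      · rfl
      · refine (ih (n / 2) (by omega) ⟨by simp only; omega, by simp⟩).trans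
          (SimpleGraph.Adj.reachable (mem_nb.2 ?_))
        simp only [true_and, Bool.false_eq_true, false_and, false_or, or_false]; omega
  refine (SimpleGraph.connected_iff_exists_forall_reachable _).2 ⟨root, ?_⟩
  rintro ⟨⟨n, b⟩, h⟩
  cases b
  · exact h1 n h
  · exact (h1 n ⟨h.1, by simp⟩).trans (SimpleGraph.Adj.reachable (mem_nb.2 (by simpa using h.2)))

instance : Infinite VS := .of_injective (fun n : ℕ => (⟨(n + 1, false), by simp [VS]⟩ : VS))
  fun a b h => by simpa using h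

noncomputable def cc (K : ℕ) (ω : ℕ × Bool → ℝ) (x : ℕ) : ℝ :=
  (2 ^ Nat.log 2 x * WW (K - Nat.log 2 x) x ω + RR (Nat.log 2 x) - BB K) / 2 + 1

noncomputable def vv (K : ℕ) (ω : ℕ × Bool → ℝ) (x : ℕ) : ℝ :=
  if x ≤ 1 then 2 * cc K ω 1 else vv K ω (x / 2) / 2 + cc K ω x
termination_by x
decreasing_by omega

noncomputable def ww (K : ℕ) (ω : ℕ × Bool → ℝ) (v : ℕ × Bool) : ℝ :=
  if v.2 then vv K ω v.1 + tr (Nat.log 2 v.1) (ω v) - 1 else vv K ω v.1

lemma log_two {x : ℕ} (hx : 1 ≤ x) :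
    Nat.log 2 (2 * x) = Nat.log 2 x + 1 ∧ Nat.log 2 (2 * x + 1) = Nat.log 2 x + 1 :=
  ⟨log_eq (t := 1) hx (by simp), log_eq (t := 1) hx (by simp; omega)⟩

lemma cc_eq {K x : ℕ} (ω : ℕ × Bool → ℝ) (hx : 1 ≤ x) (h : Nat.log 2 x < K) :
    2 * cc K ω x - cc K ω (2 * x) - cc K ω (2 * x + 1) = tr (Nat.log 2 x) (ω (x, false)) - 1 +
      if lf (Nat.log 2 x) then tr (Nat.log 2 x) (ω (x, true)) - 1 else 0 := by
  unfold cc
  rw [(log_two hx).1, (log_two hx).2, show K - Nat.log 2 x = K - (Nat.log 2 x + 1) + 1 by omega,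
    WW_succ hx, RR_succ, pow_succ]
  simp only [ZZ, aa, ss]
  split_ifs <;> first | contradiction | (field_simp; ring)

lemma vv_ge {K : ℕ} {ω : ℕ × Bool → ℝ} (hω : ω ∈ FF K) (x : ℕ) :
    1 ≤ x → Nat.log 2 x ≤ K → 1 ≤ vv K ω x := by
  have hc (x : ℕ) (hx : 1 ≤ x) (h : Nat.log 2 x ≤ K) : 1 ≤ cc K ω x := by
    have := hω.2.1 _ (mem_DD false hx (Nat.lt_succ_of_le h))
    rw [div_lt_iff₀' (by positivity)] at this
    unfold cc
    linarith
  induction x using Nat.strong_induction_on with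
  | _ x ih =>
    intro hx h
    rw [vv]
    split_ifs with h1
    · linarith [hc 1 le_rfl (by simp)]
    · have := ih (x / 2) (by omega) (by omega) ((Nat.log_mono_right (by omega)).trans h)
      linarith [hc x hx h]

lemma super {K : ℕ} {ω : ℕ × Bool → ℝ} (hω : ω ∈ FF K) (u : VS) (h : Nat.log 2 u.1.1 < K) :
    0 ≤ ww K ω u ∧ ω u - 1 ≤ ∑ y ∈ GT.neighborFinset u, (ww K ω u - ww K ω y) := by
  rw [sum_GT u fun y => ww K ω u - ww K ω y]
  obtain ⟨⟨n, b⟩, h1, h2⟩ := u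
  simp only at h h1 h2 ⊢
  have ht : ω (n, b) ≤ tr (Nat.log 2 n) (ω (n, b)) := by
    rw [tr, if_pos (hω.1 _ (mem_DD b h1 h))]
    exact le_max_left _ _
  have hv := vv_ge hω n h1 h.le
  cases b
  · have e1 : vv K ω (2 * n) = vv K ω n / 2 + cc K ω (2 * n) := by
      rw [vv, if_neg (by omega), show 2 * n / 2 = n by omega]
    have e2 : vv K ω (2 * n + 1) = vv K ω n / 2 + cc K ω (2 * n + 1) := by
      rw [vv, if_neg (by omega), show (2 * n + 1) / 2 = n by omega]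
    have e3 : vv K ω n + (if 2 ≤ n then vv K ω n - vv K ω (n / 2) else 0) = 2 * cc K ω n := by
      split_ifs with h3
      · have : vv K ω n = vv K ω (n / 2) / 2 + cc K ω n := by rw [vv, if_neg (by omega)]
        linarith
      · obtain rfl : n = 1 := by omega
        rw [vv]; simp
    have e4 := cc_eq ω h1 h
    rw [sum_nb h1]
    simp only [ww, Bool.false_eq_true, if_false, if_true, e1, e2]
    refine ⟨by linarith, ?_⟩
    by_cases h3 : lf (Nat.log 2 n) <;> simp only [h3, if_true, if_false] at e4 ⊢ <;> linarith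
  · simp only [nb, Finset.sum_singleton, ww, Bool.false_eq_true, if_false, if_true]
    exact ⟨by linarith [(tr_mem (Nat.log 2 n) (ω (n, true))).1], by linarith⟩

theorem main : ¬ ∀ᵐ σ ∂(Measure.infinitePi (fun _ : VS => nu)),
    ¬ ∃ u : VS → ℝ, (∀ x, 0 ≤ u x) ∧
      ∀ x, σ x + (∑ y ∈ GT.neighborFinset x, u y / (GT.degree y : ℝ)) - u x ≤ 1 := by
  intro h
  rw [← infinitePi_map_restrict' (fun _ : ℕ × Bool => nu)] at h
  have h2 : ∀ᵐ ω ∂PP, ω ∈ ⋃ N, ⋂ K ≥ N, (FF K)ᶜ := by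
    filter_upwards [ae_of_ae_map (by fun_prop) h] with ω hω
    by_contra hc
    simp only [mem_iUnion, mem_iInter, mem_compl_iff, ← eventually_atTop, not_eventually,
      not_not] at hc
    have := frequently_iff_neBot.1 hc
    have hF : ∀ᶠ K in atTop ⊓ 𝓟 {K | ω ∈ FF K}, ω ∈ FF K := mem_inf_of_right (mem_principal_self _)
    have hs (x : VS) := (hF.and (mem_inf_of_left (eventually_gt_atTop (Nat.log 2 x.1.1)))).mono
      fun K hK => super hK.1 x hK.2
    refine hω (compact_super GT conn root _ (atTop ⊓ 𝓟 {K | ω ∈ FF K}) (fun K x => ww K ω x)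
      (fun x => (hs x).mono fun K hK => hK.1) (fun x => (hs x).mono fun K hK => hK.2) (B := 142)
      (hF.mono fun K hK => ?_))
    have := hK.2.2
    simp only [root, ww, Bool.false_eq_true, if_false]
    rw [vv, if_pos le_rfl, cc]
    simp only [Nat.log_one_right, pow_zero, Nat.sub_zero, RR, Nat.cast_zero, Nat.sqrt_zero]
    linarith
  have h3 : PP (⋃ N, ⋂ K ≥ N, (FF K)ᶜ) ≤ ENNReal.ofReal (7 / 8) := by
    rw [Monotone.measure_iUnion fun N M h => biInter_subset_biInter_left fun K hK => le_trans h hK]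
    exact iSup_le fun N => (measure_mono (biInter_subset_of_mem (le_refl N))).trans
      ((ENNReal.le_ofReal_iff_toReal_le (measure_ne_top _ _) (by norm_num)).2 (FF_compl N))
  rw [measure_congr ((ae_eq_univ (s := ⋃ N, ⋂ K ≥ N, (FF K)ᶜ)).2 h2), measure_univ,
    ENNReal.one_le_ofReal] at h3
  norm_num at h3

end Pool.Agent.H44.DS
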