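import Mathlib

/-! Markov chains driven by an i.i.d. sequence. -/

open MeasureTheory ProbabilityTheory
open scoped ENNReal

namespace Pool.Agent.H44.Drive

variable {α β : Type*}

/-- iterate the random map -/
def chain (f : β → α → β) (x : β) : ℕ → (ℕ → α) → β
  | 0, _ => x
  | n + 1, u => f (chain f x n u) (u n)

theorem chain_congr (f : β → α → β) (x : β) (n : ℕ) {u v : ℕ → α}
    (h : ∀ i < n, u i = v i) : chain f x n u = chain f x n v := by
  induction n with
  | zero => rfl
  | succ n ih =>
    simp only [chain]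
    rw [ih fun i hi => h i (by omega), h n (by omega)]

variable [MeasurableSpace α] [MeasurableSpace β]

theorem measurable_chain {f : β → α → β} (hf : Measurable fun p : β × α => f p.1 p.2) (x : β)
    (n : ℕ) : Measurable (chain f x n) := by
  induction n with
  | zero => exact measurable_const
  | succ n ih => exact hf.comp (ih.prodMk (measurable_pi_apply n))

variable {Ω : Type*} [MeasurableSpace Ω] {μ : Measure Ω} {ξ : ℕ → Ω → α}

theorem indep_past (hξ : iIndepFun ξ μ) (hm : ∀ n, Measurable (ξ n)) (a : α) (n : ℕ)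
    {F : (ℕ → α) → β} (hF : Measurable F)
    (hd : ∀ u v : ℕ → α, (∀ i < n, u i = v i) → F u = F v) :
    IndepFun (fun ω => F fun i => ξ i ω) (ξ n) μ := by
  classical
  have h := hξ.indepFun_finset (Finset.range n) {n} (by simp) hm
  let G : (Finset.range n → α) → β := fun r =>
    F fun i => if h : i ∈ Finset.range n then r ⟨i, h⟩ else a
  have hG : Measurable G := by
    refine hF.comp (measurable_pi_lambda _ fun i => ?_)
    by_cases h : i ∈ Finset.range n
    · simp only [h, dif_pos]
      exact measurable_pi_apply _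
    · simp only [h, dif_neg, not_false_eq_true]
      exact measurable_const
  have h2 := h.comp hG (measurable_pi_apply (⟨n, by simp⟩ : ({n} : Finset ℕ)))
  convert h2 using 1
  · funext ω
    apply hd
    intro i hi
    simp [hi]
  · rfl

theorem lintegral_past [IsProbabilityMeasure μ] (hξ : iIndepFun ξ μ) (hm : ∀ n, Measurable (ξ n))
    (n : ℕ) {F : (ℕ → α) → β} (hF : Measurable F)
    (hd : ∀ u v : ℕ → α, (∀ i < n, u i = v i) → F u = F v)
    {H : β → α → ℝ≥0∞} (hH : Measurable fun p : β × α => H p.1 p.2) :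
    ∫⁻ ω, H (F fun i => ξ i ω) (ξ n ω) ∂μ =
      ∫⁻ ω, ∫⁻ a, H (F fun i => ξ i ω) a ∂(μ.map (ξ n)) ∂μ := by
  have hne : Nonempty Ω := nonempty_of_isProbabilityMeasure μ
  have hX : Measurable fun ω => F fun i => ξ i ω := hF.comp (measurable_pi_lambda _ hm)
  have hi := indep_past hξ hm (ξ 0 hne.some) n hF hd
  have hP : IsProbabilityMeasure (μ.map (ξ n)) := Measure.isProbabilityMeasure_map (hm n).aemeasurable
  have e := hi.map_prod_eq_prod_map_map hX.aemeasurable (hm n).aemeasurable
  calc ∫⁻ ω, H (F fun i => ξ i ω) (ξ n ω) ∂μ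
      = ∫⁻ p, H p.1 p.2 ∂(μ.map fun ω => (F fun i => ξ i ω, ξ n ω)) := by
        rw [lintegral_map hH (hX.prodMk (hm n))]
    _ = _ := by
        rw [e, lintegral_prod _ hH.aemeasurable, lintegral_map hH.lintegral_prod_right' hX]

theorem lintegral_chain_succ [IsProbabilityMeasure μ] (hξ : iIndepFun ξ μ)
    (hm : ∀ n, Measurable (ξ n)) {f : β → α → β} (hf : Measurable fun p : β × α => f p.1 p.2)
    (x : β) (n : ℕ) {H : β → ℝ≥0∞} (hH : Measurable H) :
    ∫⁻ ω, H (chain f x (n + 1) fun i => ξ i ω) ∂μ =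
      ∫⁻ ω, ∫⁻ a, H (f (chain f x n fun i => ξ i ω) a) ∂(μ.map (ξ n)) ∂μ :=
  lintegral_past hξ hm n (measurable_chain hf x n) (fun _ _ h => chain_congr f x n h)
    (H := fun b a => H (f b a)) (hH.comp hf)

/-- biased coin: `true` with probability `p` -/
noncomputable def bern (p : ℝ) : Measure Bool :=
  ENNReal.ofReal p • Measure.dirac true + ENNReal.ofReal (1 - p) • Measure.dirac false

theorem bern_prob {p : ℝ} (h0 : 0 ≤ p) (h1 : p ≤ 1) : IsProbabilityMeasure (bern p) :=
  ⟨by
    simp only [bern, Measure.coe_add, Measure.coe_smul, Pi.add_apply, Pi.smul_apply, measure_univ,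
      smul_eq_mul, mul_one]
    rw [← ENNReal.ofReal_add h0 (by linarith)]
    simp⟩

theorem lintegral_bern (p : ℝ) (f : Bool → ℝ≥0∞) :
    ∫⁻ b, f b ∂bern p = ENNReal.ofReal p * f true + ENNReal.ofReal (1 - p) * f false := by
  simp [bern, lintegral_add_measure, lintegral_smul_measure]

theorem integral_bern {p : ℝ} (h0 : 0 ≤ p) (h1 : p ≤ 1) (f : Bool → ℝ) :
    ∫ b, f b ∂bern p = p * f true + (1 - p) * f false := by
  unfold bern
  rw [integral_add_measure]
  · simp [integral_smul_measure, h0, sub_nonneg.2 h1]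
  · exact (integrable_dirac (by simp)).smul_measure (by simp)
  · exact (integrable_dirac (by simp)).smul_measure (by simp)

end Pool.Agent.H44.Drive
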