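import Mathlib

open Finset

namespace Pool.Agent.H44.EA

variable {n : ℕ}

/-- Load of machine 1 (`b = false`, bit `0`) or machine 2 (`b = true`, bit `1`). -/
def load (p : Fin n → ℝ) (x : Fin n → Bool) (b : Bool) : ℝ := ∑ i, if x i = b then p i else 0

/-- Makespan of the solution `x` under processing times `p`. -/
def makespan (p : Fin n → ℝ) (x : Fin n → Bool) : ℝ := max (load p x false) (load p x true)

/-- Discrepancy `d(x)`. -/
def disc (p : Fin n → ℝ) (x : Fin n → Bool) : ℝ := |load p x false - load p x true|

/-- Flip the bits marked in `S`. -/
def flip (x S : Fin n → Bool) : Fin n → Bool := fun i => xor (x i) (S i)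

/-- Probability that exactly the bits marked in `S` are flipped (each with probability `1/n`). -/
noncomputable def wt (S : Fin n → Bool) : ℝ :=
  ∏ i, if S i = true then 1 / (n : ℝ) else 1 - 1 / (n : ℝ)

/-- Offspring `flip x S` replaces `x` iff its makespan is at most that of `x`. -/
noncomputable def select (p : Fin n → ℝ) (x S : Fin n → Bool) : Fin n → Bool :=
  if makespan p (flip x S) ≤ makespan p x then flip x S else x

/-- An adversary that looks at the current processing times and solution and either passes
(`none`) or names one job and its new processing time. -/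
def Adv (n : ℕ) : Type := (Fin n → ℝ) → (Fin n → Bool) → Option (Fin n × ℝ)

/-- The adversary only uses values in `[L, U]`. -/
def Legal (A : Adv n) (L U : ℝ) : Prop :=
  ∀ p x i v, A p x = some (i, v) → L ≤ v ∧ v ≤ U

/-- Processing times after the adversary's move. -/
def reset (A : Adv n) (p : Fin n → ℝ) (x : Fin n → Bool) : Fin n → ℝ :=
  match A p x with
  | none => p
  | some iv => Function.update p iv.1 iv.2

/-- `surv A U t p x` is the probability that `T > t` from the state `(p, x)`. One iteration is an
adversary move followed by mutation and selection; the target `d ≤ U` is tested at the start,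
after each adversary move and after each selection. -/
noncomputable def surv (A : Adv n) (U : ℝ) : ℕ → (Fin n → ℝ) → (Fin n → Bool) → ℝ
  | 0, p, x => if disc p x ≤ U then 0 else 1
  | t + 1, p, x =>
    if disc p x ≤ U ∨ disc (reset A p x) x ≤ U then 0
    else ∑ S, wt S * surv A U t (reset A p x) (select (reset A p x) x S)

/-- `E[T] = ∑_{t ≥ 0} P(T > t)`. -/
noncomputable def expT (A : Adv n) (U : ℝ) (p : Fin n → ℝ) (x : Fin n → Bool) : ENNReal :=
  ∑' t, ENNReal.ofReal (surv A U t p x)

end Pool.Agent.H44.EA
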