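import Mathlib
import Pool.Agent.H44.EADefs

open Finset

namespace Pool.Agent.H44.EA

variable {n : ℕ}

noncomputable def Ex (g : (Fin n → Bool) → ℝ) : ℝ := ∑ S, wt S * g S

def ind (S : Fin n → Bool) (i : Fin n) : ℝ := if S i = true then 1 else 0

def cnt (A : Finset (Fin n)) (S : Fin n → Bool) : ℝ := ∑ i ∈ A, ind S i

lemma q_le (hn : 1 ≤ n) : 1 / (n : ℝ) ≤ 1 := by
  have : (1 : ℝ) ≤ n := by exact_mod_cast hn
  exact (div_le_one (by linarith)).2 this

lemma wt_nonneg (hn : 1 ≤ n) (S : Fin n → Bool) : 0 ≤ wt S := by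
  refine prod_nonneg fun i _ => ?_
  have := q_le hn
  split_ifs
  · positivity
  · linarith

lemma wt_sum : ∑ S : Fin n → Bool, wt S = 1 := by
  have h1 := Finset.prod_univ_sum (fun _ : Fin n => (univ : Finset Bool))
    (fun _ b => if b = true then 1 / (n : ℝ) else 1 - 1 / (n : ℝ))
  rw [Fintype.piFinset_univ] at h1
  unfold wt
  rw [← h1]
  simp

lemma Ex_mono (hn : 1 ≤ n) {f g : (Fin n → Bool) → ℝ} (h : ∀ S, f S ≤ g S) : Ex f ≤ Ex g :=
  sum_le_sum fun S _ => mul_le_mul_of_nonneg_left (h S) (wt_nonneg hn S)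

lemma Ex_const (c : ℝ) : Ex (fun _ : Fin n → Bool => c) = c := by
  unfold Ex; rw [← sum_mul, wt_sum, one_mul]

lemma Ex_add (f g : (Fin n → Bool) → ℝ) : Ex (fun S => f S + g S) = Ex f + Ex g := by
  simp only [Ex, mul_add, sum_add_distrib]

lemma Ex_sub (f g : (Fin n → Bool) → ℝ) : Ex (fun S => f S - g S) = Ex f - Ex g := by
  simp only [Ex, mul_sub, sum_sub_distrib]

lemma Ex_mul (c : ℝ) (f : (Fin n → Bool) → ℝ) : Ex (fun S => c * f S) = c * Ex f := by
  simp only [Ex, mul_sum]
  exact sum_congr rfl fun S _ => by ring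

lemma Ex_sum {ι : Type} (A : Finset ι) (f : ι → (Fin n → Bool) → ℝ) :
    Ex (fun S => ∑ i ∈ A, f i S) = ∑ i ∈ A, Ex (f i) := by
  simp only [Ex, mul_sum]
  exact sum_comm

lemma size_bias (i : Fin n) (g : (Fin n → Bool) → ℝ) :
    Ex (fun S => ind S i * g S) = 1 / (n : ℝ) * Ex (fun S => g (Function.update S i true)) := by
  let σ : (Fin n → Bool) → (Fin n → Bool) := fun S => Function.update S i (!S i)
  have hσ : Function.Involutive σ := fun S => by
    simp only [σ, Function.update_self, Bool.not_not, Function.update_idem,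
      Function.update_eq_self]
  have h1 : ∀ φ : (Fin n → Bool) → ℝ, ∑ S, φ (σ S) = ∑ S, φ S := fun φ =>
    Equiv.sum_comp hσ.toPerm φ
  let r : (Fin n → Bool) → ℝ := fun S =>
    ∏ j ∈ univ.erase i, if S j = true then 1 / (n : ℝ) else 1 - 1 / (n : ℝ)
  have hw : ∀ S, wt S = (if S i = true then 1 / (n : ℝ) else 1 - 1 / (n : ℝ)) * r S := fun S =>
    (mul_prod_erase univ (fun j => if S j = true then 1 / (n : ℝ) else 1 - 1 / (n : ℝ))
      (mem_univ i)).symm
  have hr : ∀ S, r (σ S) = r S := fun S => prod_congr rfl fun j hj => by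
    simp only [σ, Function.update_of_ne (ne_of_mem_erase hj)]
  have key : ∀ S, wt S * (ind S i * g S) + wt (σ S) * (ind (σ S) i * g (σ S)) =
      1 / (n : ℝ) * (wt S * g (Function.update S i true) +
        wt (σ S) * g (Function.update (σ S) i true)) := by
    intro S
    rw [hw S, hw (σ S), hr]
    have e1 : Function.update (σ S) i true = Function.update S i true := by
      simp only [σ, Function.update_idem]
    have e2 : σ S i = !S i := by simp only [σ, Function.update_self]
    rw [e1]
    unfold ind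
    rw [e2]
    cases h : S i
    · have e3 : σ S = Function.update S i true := by simp only [σ, h, Bool.not_false]
      rw [e3]
      simp
      ring
    · have e3 : Function.update S i true = S := by rw [← h, Function.update_eq_self]
      rw [e3]
      simp
      ring
  have h2 := sum_congr rfl fun S (_ : S ∈ (univ : Finset (Fin n → Bool))) => key S
  rw [sum_add_distrib, ← mul_sum, sum_add_distrib, h1 (fun S => wt S * (ind S i * g S)),
    h1 (fun S => wt S * g (Function.update S i true))] at h2
  unfold Ex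
  linarith

lemma Ex_cnt_mul (A : Finset (Fin n)) (g : (Fin n → Bool) → ℝ) :
    Ex (fun S => cnt A S * g S) =
      ∑ i ∈ A, 1 / (n : ℝ) * Ex (fun S => g (Function.update S i true)) := by
  simp only [cnt, sum_mul]
  rw [Ex_sum A (fun i S => ind S i * g S)]
  exact sum_congr rfl fun i _ => size_bias i g

lemma ind_nonneg (S : Fin n → Bool) (i : Fin n) : 0 ≤ ind S i := by
  unfold ind; split_ifs <;> norm_num

lemma ind_le (S : Fin n → Bool) (i : Fin n) : ind S i ≤ 1 := by
  unfold ind; split_ifs <;> norm_num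

lemma cnt_nonneg (A : Finset (Fin n)) (S : Fin n → Bool) : 0 ≤ cnt A S :=
  sum_nonneg fun i _ => ind_nonneg S i

lemma cnt_nat (A : Finset (Fin n)) (S : Fin n → Bool) : ∃ k : ℕ, cnt A S = k :=
  ⟨(A.filter fun i => S i = true).card, by simp [cnt, ind]⟩

lemma cnt_update_not {A : Finset (Fin n)} {i : Fin n} (hi : i ∉ A) (S : Fin n → Bool) :
    cnt A (Function.update S i true) = cnt A S :=
  sum_congr rfl fun j hj => by
    have : j ≠ i := fun e => hi (e ▸ hj)
    simp only [ind, Function.update_of_ne this]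

lemma cnt_update_le (A : Finset (Fin n)) (i : Fin n) (S : Fin n → Bool) :
    cnt A (Function.update S i true) ≤ cnt A S + 1 := by
  by_cases hi : i ∈ A
  · have h1 := cnt_update_not (notMem_erase i A) S
    unfold cnt at h1 ⊢
    rw [← add_sum_erase A _ hi, ← add_sum_erase A (fun j => ind S j) hi, h1]
    linarith [ind_le (Function.update S i true) i, ind_nonneg S i]
  · rw [cnt_update_not hi]; linarith

lemma E_cnt (A : Finset (Fin n)) : Ex (cnt A) = A.card * (1 / (n : ℝ)) := by
  have := Ex_cnt_mul A (fun _ => 1)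
  simp only [mul_one, Ex_const, sum_const, nsmul_eq_mul] at this
  exact this

lemma E_N (hn : 1 ≤ n) : Ex (cnt (univ : Finset (Fin n))) = 1 := by
  have : (0 : ℝ) < n := by exact_mod_cast hn
  rw [E_cnt, card_univ, Fintype.card_fin]; field_simp

lemma E_cntN (hn : 1 ≤ n) (A : Finset (Fin n)) :
    Ex (fun S => cnt A S * cnt univ S) ≤ 2 * (A.card * (1 / (n : ℝ))) := by
  rw [Ex_cnt_mul]
  have h : ∀ i ∈ A, 1 / (n : ℝ) * Ex (fun S => cnt univ (Function.update S i true)) ≤
      1 / (n : ℝ) * 2 := by
    intro i _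
    refine mul_le_mul_of_nonneg_left ?_ (by positivity)
    have := Ex_mono hn (cnt_update_le univ i)
    rw [Ex_add, Ex_const, E_N hn] at this
    linarith
  have := sum_le_sum h
  rw [sum_const, nsmul_eq_mul] at this
  linarith

lemma E_NN (hn : 1 ≤ n) : Ex (fun S : Fin n → Bool => cnt univ S * cnt univ S) ≤ 2 := by
  have h : (0 : ℝ) < n := by exact_mod_cast hn
  have := E_cntN hn (univ : Finset (Fin n))
  rw [card_univ, Fintype.card_fin, mul_one_div_cancel h.ne'] at this
  linarith

lemma E_cntN2 (hn : 1 ≤ n) (A : Finset (Fin n)) :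
    Ex (fun S => cnt A S * (cnt univ S * cnt univ S)) ≤ 5 * (A.card * (1 / (n : ℝ))) := by
  rw [Ex_cnt_mul]
  have h : ∀ i ∈ A, 1 / (n : ℝ) * Ex (fun S => cnt univ (Function.update S i true) *
      cnt univ (Function.update S i true)) ≤ 1 / (n : ℝ) * 5 := by
    intro i _
    refine mul_le_mul_of_nonneg_left ?_ (by positivity)
    have h1 : ∀ S : Fin n → Bool, cnt univ (Function.update S i true) *
        cnt univ (Function.update S i true) ≤ cnt univ S * cnt univ S + 2 * cnt univ S + 1 := by
      intro S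
      have := cnt_update_le univ i S
      have := cnt_nonneg univ (Function.update S i true)
      nlinarith
    have := Ex_mono hn h1
    rw [Ex_add, Ex_add, Ex_mul, Ex_const, E_N hn] at this
    linarith [E_NN hn]
  have := sum_le_sum h
  rw [sum_const, nsmul_eq_mul] at this
  linarith

lemma E_JJN (hn : 1 ≤ n) (A : Finset (Fin n)) :
    Ex (fun S => cnt A S * ((cnt A S - 1) * cnt univ S)) ≤
      3 * (A.card * (1 / (n : ℝ))) ^ 2 := by
  rw [Ex_cnt_mul]
  have h : ∀ i ∈ A, 1 / (n : ℝ) * Ex (fun S => (cnt A (Function.update S i true) - 1) *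
      cnt univ (Function.update S i true)) ≤ 1 / (n : ℝ) * (3 * (A.card * (1 / (n : ℝ)))) := by
    intro i _
    refine mul_le_mul_of_nonneg_left ?_ (by positivity)
    have h1 : ∀ S : Fin n → Bool, (cnt A (Function.update S i true) - 1) *
        cnt univ (Function.update S i true) ≤ cnt A S * cnt univ S + cnt A S := by
      intro S
      have := cnt_update_le univ i S
      have := cnt_update_le A i S
      have := cnt_nonneg univ (Function.update S i true)
      have := cnt_nonneg A S
      nlinarith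
    have := Ex_mono hn h1
    rw [Ex_add, E_cnt] at this
    linarith [E_cntN hn A]
  have := sum_le_sum h
  rw [sum_const, nsmul_eq_mul] at this
  linarith

lemma E_IJ (hn : 1 ≤ n) (A : Finset (Fin n)) :
    Ex (fun S => cnt A S * cnt Aᶜ S) =
      A.card * (1 / (n : ℝ)) - (A.card * (1 / (n : ℝ))) ^ 2 := by
  have h0 : (0 : ℝ) < n := by exact_mod_cast hn
  rw [Ex_cnt_mul]
  have h : ∀ i ∈ A, 1 / (n : ℝ) * Ex (fun S => cnt Aᶜ (Function.update S i true)) =
      1 / (n : ℝ) * (((n : ℝ) - A.card) * (1 / (n : ℝ))) := by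
    intro i hi
    have : i ∉ Aᶜ := by simpa using hi
    simp only [cnt_update_not this]
    have h2 : (A.card : ℝ) + (Aᶜ.card : ℝ) = n := by
      have := card_add_card_compl A
      rw [Fintype.card_fin] at this
      exact_mod_cast this
    have h3 := E_cnt Aᶜ
    change 1 / (n : ℝ) * Ex (cnt Aᶜ) = _
    rw [h3, ← h2]
    ring
  rw [sum_congr rfl h, sum_const, nsmul_eq_mul]
  field_simp

end Pool.Agent.H44.EA
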