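import Mathlib
import Pool.Agent.H44.EA1

open Finset

namespace Pool.Agent.H44.EA

variable {n : ℕ}

def M1 (x : Fin n → Bool) : Finset (Fin n) := univ.filter fun i => x i = false

def ideal (L : ℝ) (x : Fin n → Bool) (i : Fin n) : ℝ := if x i = true then L else 1

noncomputable def Wr (L : ℝ) (p : Fin n → ℝ) (x : Fin n → Bool) : Finset (Fin n) :=
  univ.filter fun i => p i ≠ ideal L x i

noncomputable def adv (L : ℝ) : Adv n := fun p x =>
  if h : (Wr L p x).Nonempty then some (h.choose, ideal L x h.choose) else none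

def Valid (L : ℝ) (p : Fin n → ℝ) : Prop := ∀ i, L ≤ p i ∧ p i ≤ 1

def D (p : Fin n → ℝ) (x : Fin n → Bool) : ℝ := load p x false - load p x true

lemma ideal_mem {L : ℝ} (hL : L ≤ 1) (x : Fin n → Bool) (i : Fin n) :
    L ≤ ideal L x i ∧ ideal L x i ≤ 1 := by
  unfold ideal; split_ifs <;> constructor <;> linarith

lemma adv_legal {L : ℝ} (hL : L ≤ 1) : Legal (adv L : Adv n) L 1 := by
  intro p x i v h
  unfold adv at h
  split_ifs at h with h1
  simp only [Option.some.injEq, Prod.mk.injEq] at h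
  rw [← h.2]
  exact ideal_mem hL _ _

lemma D_eq (p : Fin n → ℝ) (x : Fin n → Bool) :
    D p x = ∑ i, if x i = true then -p i else p i := by
  unfold D load
  rw [← sum_sub_distrib]
  refine sum_congr rfl fun i _ => ?_
  cases x i <;> simp

lemma reset_spec {L : ℝ} (hL : L ≤ 1) {p : Fin n → ℝ} (hp : Valid L p) (x : Fin n → Bool) :
    Valid L (reset (adv L) p x) ∧ D p x ≤ D (reset (adv L) p x) x ∧
      ((Wr L (reset (adv L) p x) x).card : ℝ) ^ 2 + 2 * (Wr L (reset (adv L) p x) x).card ≤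
        ((Wr L p x).card : ℝ) ^ 2 := by
  by_cases h : (Wr L p x).Nonempty
  · have e : reset (adv L) p x = Function.update p h.choose (ideal L x h.choose) := by
      simp only [reset, adv, dif_pos h]
    rw [e]
    have hj := h.choose_spec
    generalize h.choose = j at hj
    refine ⟨fun i => ?_, ?_, ?_⟩
    · by_cases hi : i = j
      · subst hi
        rw [Function.update_self]
        exact ideal_mem hL _ _
      · rw [Function.update_of_ne hi]
        exact hp i
    · rw [D_eq, D_eq]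
      refine sum_le_sum fun i _ => ?_
      by_cases hi : i = j
      · subst hi
        rw [Function.update_self]
        have := hp i
        unfold ideal
        split_ifs <;> linarith [this.1, this.2]
      · rw [Function.update_of_ne hi]
    · have e2 : Wr L (Function.update p j (ideal L x j)) x = (Wr L p x).erase j := by
        ext i
        by_cases hi : i = j
        · subst hi
          simp [Wr]
        · simp [Wr, hi]
      rw [e2]
      have h3 : (((Wr L p x).erase j).card : ℝ) + 1 = (Wr L p x).card := by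
        exact_mod_cast card_erase_add_one hj
      rw [← h3]
      nlinarith
  · have e : reset (adv L) p x = p := by simp only [reset, adv, dif_neg h]
    rw [e, not_nonempty_iff_eq_empty.1 h]
    exact ⟨hp, le_rfl, by simp⟩

lemma stop_bound {L : ℝ} (hL0 : 0 < L) (hLn : n * L ≤ 1) {p : Fin n → ℝ} (hp : Valid L p)
    {x : Fin n → Bool} (h : D p x ≤ 1) : ((M1 x).card : ℝ) ≤ (Wr L p x).card + 2 := by
  have h1 : ∑ i, ((if x i = false then (1 : ℝ) else 0) - L -
      (if p i ≠ ideal L x i then 1 else 0)) ≤ D p x := by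
    rw [D_eq]
    refine sum_le_sum fun i _ => ?_
    have := hp i
    unfold ideal
    cases x i
    · by_cases h2 : p i = 1
      · simp [h2]; linarith
      · simp [h2]; linarith [this.1]
    · by_cases h2 : p i = L
      · simp [h2]
      · simp [h2]; linarith [this.2]
  simp only [sum_sub_distrib, sum_boole, sum_const, card_univ, Fintype.card_fin,
    nsmul_eq_mul] at h1
  unfold M1 Wr
  linarith

lemma load_flip (p : Fin n → ℝ) (x S : Fin n → Bool) :
    load p (flip x S) false = load p x false - ∑ i ∈ M1 x, ind S i * p i +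
      ∑ i ∈ (M1 x)ᶜ, ind S i * p i ∧
    load p (flip x S) true = load p x true + ∑ i ∈ M1 x, ind S i * p i -
      ∑ i ∈ (M1 x)ᶜ, ind S i * p i := by
  have e : (M1 x)ᶜ = univ.filter fun i => ¬ x i = false := by
    unfold M1; rw [compl_filter]
  rw [e]
  unfold load M1
  simp only [sum_filter, ← sum_sub_distrib, ← sum_add_distrib]
  constructor
  · refine sum_congr rfl fun i _ => ?_
    unfold flip ind
    cases x i <;> cases S i <;> simp
  · refine sum_congr rfl fun i _ => ?_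
    unfold flip ind
    cases x i <;> cases S i <;> simp

lemma card_flip (x S : Fin n → Bool) :
    ((M1 (flip x S)).card : ℝ) = (M1 x).card - cnt (M1 x) S + cnt (M1 x)ᶜ S := by
  have h := (load_flip (fun _ => (1 : ℝ)) x S).1
  simp only [load, sum_boole, mul_one] at h
  exact h

lemma wr_flip (L : ℝ) (p : Fin n → ℝ) (x S : Fin n → Bool) :
    ((Wr L p (flip x S)).card : ℝ) ≤ (Wr L p x).card + cnt univ S := by
  have h1 : ∑ i, (if p i ≠ ideal L (flip x S) i then (1 : ℝ) else 0) ≤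
      ∑ i, ((if p i ≠ ideal L x i then (1 : ℝ) else 0) + ind S i) := by
    refine sum_le_sum fun i _ => ?_
    cases h : S i
    · have : ideal L (flip x S) i = ideal L x i := by simp [ideal, flip, h]
      rw [this]
      linarith [ind_nonneg S i]
    · have : ind S i = 1 := by simp [ind, h]
      rw [this]
      split_ifs <;> norm_num
  simp only [sum_add_distrib, sum_boole] at h1
  exact h1

lemma N_split (A : Finset (Fin n)) (S : Fin n → Bool) : cnt univ S = cnt A S + cnt Aᶜ S :=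
  (sum_add_sum_compl A _).symm

lemma acc1 {L : ℝ} (hL0 : 0 < L) {p : Fin n → ℝ} (hp : Valid L p) {x S : Fin n → Bool}
    (hD : 1 < D p x) (hJ : cnt (M1 x) S = 0) (h : makespan p (flip x S) ≤ makespan p x) :
    cnt (M1 x)ᶜ S = 0 := by
  have h1 : ∑ i ∈ M1 x, ind S i * p i ≤ cnt (M1 x) S :=
    sum_le_sum fun i _ => mul_le_of_le_one_right (ind_nonneg S i) (hp i).2
  have h2 : L * cnt (M1 x)ᶜ S ≤ ∑ i ∈ (M1 x)ᶜ, ind S i * p i := by
    unfold cnt
    rw [mul_sum]
    exact sum_le_sum fun i _ => by nlinarith [ind_nonneg S i, (hp i).1]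
  have h3 := (load_flip p x S).1
  unfold D at hD
  unfold makespan at h
  rw [max_eq_left (by linarith : load p x true ≤ load p x false)] at h
  have h4 := (le_max_left _ _).trans h
  have h5 : L * cnt (M1 x)ᶜ S ≤ 0 := by linarith
  have h6 := cnt_nonneg (M1 x)ᶜ S
  nlinarith

lemma acc2 {L : ℝ} (hL0 : 0 < L) (hLn : n * L ≤ 1) {p : Fin n → ℝ} {x S : Fin n → Bool}
    (hD : 1 < D p x) (hJ : cnt (M1 x) S = 1) (hW : cnt (Wr L p x) S = 0) :
    makespan p (flip x S) ≤ makespan p x := by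
  have h0 : ∀ i, ind S i * p i = ind S i * ideal L x i := by
    intro i
    by_cases hi : p i = ideal L x i
    · rw [hi]
    · have h1 : i ∈ Wr L p x := by simp [Wr, hi]
      have h2 := (sum_eq_zero_iff_of_nonneg (fun i _ => ind_nonneg S i)).1 hW i h1
      rw [h2, zero_mul, zero_mul]
  have h1 : ∑ i ∈ M1 x, ind S i * p i = 1 := by
    rw [← hJ]
    refine sum_congr rfl fun i hi => ?_
    have : x i = false := by simpa [M1] using hi
    rw [h0]; simp [ideal, this]
  have h2 : ∑ i ∈ (M1 x)ᶜ, ind S i * p i = L * cnt (M1 x)ᶜ S := by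
    unfold cnt
    rw [mul_sum]
    refine sum_congr rfl fun i hi => ?_
    have : x i = true := by simpa [M1] using hi
    rw [h0]; simp [ideal, this, mul_comm]
  have h3 : cnt (M1 x)ᶜ S ≤ n := by
    calc cnt (M1 x)ᶜ S ≤ ∑ _i ∈ (M1 x)ᶜ, (1 : ℝ) := sum_le_sum fun i _ => ind_le S i
      _ = ((M1 x)ᶜ.card : ℝ) := by simp
      _ ≤ n := by
        have := card_le_univ (M1 x)ᶜ
        rw [Fintype.card_fin] at this
        exact_mod_cast this
  have h4 := cnt_nonneg (M1 x)ᶜ S
  obtain ⟨h5, h6⟩ := load_flip p x S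
  rw [h1, h2] at h5 h6
  unfold D at hD
  unfold makespan
  rw [max_eq_left (by linarith : load p x true ≤ load p x false)]
  have h7 : L * cnt (M1 x)ᶜ S ≤ 1 := by nlinarith
  have h8 : 0 ≤ L * cnt (M1 x)ᶜ S := by positivity
  exact max_le (by linarith) (by linarith)

/-- potential -/
noncomputable def G (L m : ℝ) (p : Fin n → ℝ) (x : Fin n → Bool) : ℝ :=
  (M1 x).card * (2 * m - (M1 x).card) - 32 * ((Wr L p x).card : ℝ) ^ 2 - m ^ 2 / 2

lemma facts {L : ℝ} (hL0 : 0 < L) (hLn : n * L ≤ 1) {p : Fin n → ℝ} (hp : Valid L p)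
    {x : Fin n → Bool} (hD : 1 < D p x) (S : Fin n → Bool) :
    ∃ Δ : ℝ, ((M1 (select p x S)).card : ℝ) = (M1 x).card + Δ ∧
      |Δ - (cnt (M1 x) S * cnt (M1 x)ᶜ S - cnt (M1 x) S)| ≤
        2 * (cnt (M1 x) S * ((cnt (M1 x) S - 1) * cnt univ S)) + cnt (Wr L p x) S * cnt univ S ∧
      Δ ^ 2 ≤ cnt (M1 x) S * (cnt univ S * cnt univ S) ∧
      ((Wr L p (select p x S)).card : ℝ) ^ 2 ≤ ((Wr L p x).card : ℝ) ^ 2 +
        2 * (Wr L p x).card * (cnt (M1 x) S * cnt univ S) +
        cnt (M1 x) S * (cnt univ S * cnt univ S) := by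
  have a1 := fun hJ h => acc1 (S := S) hL0 hp hD hJ h
  have a2 := fun hJ hW => acc2 (S := S) hL0 hLn hD hJ hW
  have c1 := card_flip x S
  have c2 := wr_flip L p x S
  have c3 := N_split (M1 x) S
  obtain ⟨j, hj⟩ := cnt_nat (M1 x) S
  obtain ⟨k, hk⟩ := cnt_nat (Wr L p x) S
  have hI := cnt_nonneg (M1 x)ᶜ S
  have hw : (0 : ℝ) ≤ (Wr L p x).card := Nat.cast_nonneg _
  have hw' : (0 : ℝ) ≤ (Wr L p (flip x S)).card := Nat.cast_nonneg _
  generalize cnt (M1 x)ᶜ S = I at *
  generalize cnt univ S = N at *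
  generalize cnt (M1 x) S = J at *
  generalize cnt (Wr L p x) S = W at *
  have hW0 : 0 ≤ W := by rw [hk]; positivity
  have hJ0 : 0 ≤ J := by rw [hj]; positivity
  have hN0 : 0 ≤ N := by linarith
  have hJ : J = 0 ∨ J = 1 ∨ 2 ≤ J := by
    rw [hj]
    rcases j with _ | _ | j
    · left; simp
    · right; left; simp
    · right; right; push_cast; linarith [(Nat.cast_nonneg j : (0 : ℝ) ≤ j)]
  have hW : W = 0 ∨ 1 ≤ W := by
    rw [hk]
    rcases k with _ | k
    · left; simp
    · right; push_cast; linarith [(Nat.cast_nonneg k : (0 : ℝ) ≤ k)]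
  have hWN : 0 ≤ W * N := mul_nonneg hW0 hN0
  have big : 2 ≤ J → ∀ Δ : ℝ, |Δ| ≤ N →
      |Δ - (J * I - J)| ≤ 2 * (J * ((J - 1) * N)) + W * N := by
    intro h2 Δ hΔ
    have h3 := abs_le.1 hΔ
    have h4 : J * I ≤ J * N := mul_le_mul_of_nonneg_left (by linarith) hJ0
    have h5 : J * 1 ≤ J * N := mul_le_mul_of_nonneg_left (by linarith) hJ0
    have h6 : 0 ≤ J * I := mul_nonneg hJ0 hI
    have h7 : J * N * 1 ≤ J * N * (J - 1) :=
      mul_le_mul_of_nonneg_left (by linarith) (mul_nonneg hJ0 hN0)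
    have h8 : 1 * N ≤ J * N := mul_le_mul_of_nonneg_right (by linarith) hN0
    rw [abs_le]
    constructor <;> nlinarith
  unfold select
  split_ifs with h
  · refine ⟨I - J, by linarith, ?_, ?_, ?_⟩
    · rcases hJ with hJ | hJ | hJ
      · rw [a1 hJ h, hJ]; simpa using hWN
      · rw [hJ]; simpa using hWN
      · exact big hJ _ (abs_le.2 ⟨by linarith, by linarith⟩)
    · rcases hJ with hJ | hJ | hJ
      · rw [a1 hJ h, hJ]; simp
      · rw [hJ, c3, hJ]; nlinarith
      · have : (I - J) ^ 2 ≤ N * N := by rw [c3]; nlinarith [mul_nonneg hI hJ0]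
        nlinarith [mul_nonneg hN0 hN0]
    · have h1 : ((Wr L p (flip x S)).card : ℝ) ^ 2 ≤ ((Wr L p x).card + N) ^ 2 :=
        pow_le_pow_left₀ hw' c2 2
      by_cases hJ' : J = 0
      · have : N = 0 := by rw [c3, a1 hJ' h, hJ']; simp
        rw [this] at h1 ⊢
        simpa using h1
      · have hJ1 : 1 ≤ J := by
          rcases hJ with hJ | hJ | hJ
          · exact absurd hJ hJ'
          · linarith
          · linarith
        have h2 : 1 * N ≤ J * N := mul_le_mul_of_nonneg_right hJ1 hN0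
        have h3 : 1 * (N * N) ≤ J * (N * N) :=
          mul_le_mul_of_nonneg_right hJ1 (mul_nonneg hN0 hN0)
        have h4 : 2 * ((Wr L p x).card : ℝ) * (1 * N) ≤ 2 * (Wr L p x).card * (J * N) :=
          mul_le_mul_of_nonneg_left h2 (by positivity)
        nlinarith
  · refine ⟨0, by simp, ?_, ?_, ?_⟩
    · rcases hJ with hJ | hJ | hJ
      · rw [hJ]; simpa using hWN
      · rcases hW with hW | hW
        · exact absurd (a2 hJ hW) h
        · have h2 : 1 * N ≤ W * N := mul_le_mul_of_nonneg_right hW hN0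
          rw [hJ] at c3 ⊢
          rw [abs_le]
          constructor <;> nlinarith
      · exact big hJ 0 (by simpa using hN0)
    · have := mul_nonneg hJ0 (mul_nonneg hN0 hN0)
      simpa using this
    · have := mul_nonneg hJ0 (mul_nonneg hN0 hN0)
      have := mul_nonneg hw (mul_nonneg hJ0 hN0)
      nlinarith

lemma drift (hn : 1 ≤ n) {L m : ℝ} (hL0 : 0 < L) (hLn : n * L ≤ 1) (hm : 16 ≤ m)
    (hmn : m ^ 2 ≤ n) {p : Fin n → ℝ} (hp : Valid L p) {x : Fin n → Bool} (hD : 1 < D p x)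
    (ha : ((M1 x).card : ℝ) ≤ 2 * m) (w : ℝ)
    (hw : ((Wr L p x).card : ℝ) ^ 2 + 2 * (Wr L p x).card ≤ w ^ 2) :
    (M1 x).card * (2 * m - (M1 x).card) - 32 * w ^ 2 - m ^ 2 / 2 - 400 * (m * (1 / (n : ℝ))) ≤
      Ex (fun S => G L m p (select p x S)) := by
  have hn0 : (0 : ℝ) < n := by exact_mod_cast hn
  have ha0 : (0 : ℝ) ≤ (M1 x).card := Nat.cast_nonneg _
  have hw0 : (0 : ℝ) ≤ (Wr L p x).card := Nat.cast_nonneg _
  have pt : ∀ S, ((M1 x).card * (2 * m - (M1 x).card) - 32 * ((Wr L p x).card : ℝ) ^ 2 -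
      m ^ 2 / 2) + (2 * m - 2 * (M1 x).card) * (cnt (M1 x) S * cnt (M1 x)ᶜ S) -
      (2 * m - 2 * (M1 x).card) * cnt (M1 x) S -
      4 * m * (cnt (M1 x) S * ((cnt (M1 x) S - 1) * cnt univ S)) -
      2 * m * (cnt (Wr L p x) S * cnt univ S) -
      33 * (cnt (M1 x) S * (cnt univ S * cnt univ S)) -
      64 * (Wr L p x).card * (cnt (M1 x) S * cnt univ S) ≤ G L m p (select p x S) := by
    intro S
    obtain ⟨Δ, h1, h2, h3, h4⟩ := facts hL0 hLn hp hD S
    unfold G
    rw [h1]
    have h5 : |2 * m - 2 * ((M1 x).card : ℝ)| ≤ 2 * m := abs_le.2 ⟨by linarith, by linarith⟩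
    have h6 := neg_abs_le ((2 * m - 2 * ((M1 x).card : ℝ)) *
      (Δ - (cnt (M1 x) S * cnt (M1 x)ᶜ S - cnt (M1 x) S)))
    rw [abs_mul] at h6
    have h7 := mul_le_mul h5 h2 (abs_nonneg _) (by linarith)
    nlinarith
  have h := Ex_mono hn pt
  simp only [Ex_sub, Ex_add, Ex_mul, Ex_const] at h
  refine le_trans ?_ h
  have e1 := E_IJ hn (M1 x)
  have e2 := E_cnt (M1 x)
  have e3 := E_JJN hn (M1 x)
  have e4 := E_cntN hn (Wr L p x)
  have e5 := E_cntN2 hn (M1 x)
  have e6 := E_cntN hn (M1 x)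
  change Ex (fun S => cnt (M1 x) S) = _ at e2
  rw [e1, e2]
  set q : ℝ := 1 / (n : ℝ) with hq
  have hq0 : 0 < q := by positivity
  have hq1 : m ^ 2 * q ≤ 1 := by rw [hq, mul_one_div, div_le_one hn0]; exact hmn
  clear pt h e1 e2
  generalize ((M1 x).card : ℝ) = a at *
  generalize ((Wr L p x).card : ℝ) = v at *
  have hmq : m * q ≤ 1 / 16 := by nlinarith
  have hmq0 : 0 ≤ m * q := by positivity
  have haq : a * q ≤ 2 * (m * q) := by nlinarith
  have haq0 : 0 ≤ a * q := by positivity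
  have s1 : m * (a * q) ^ 2 ≤ 4 * (m * q) := by
    have t1 : (a * q) ^ 2 ≤ (2 * (m * q)) ^ 2 := pow_le_pow_left₀ haq0 haq 2
    have t2 : m * (a * q) ^ 2 ≤ m * (2 * (m * q)) ^ 2 := mul_le_mul_of_nonneg_left t1 (by linarith)
    have t3 : m * (2 * (m * q)) ^ 2 = 4 * (m * q) * (m ^ 2 * q) := by ring
    have t4 : 4 * (m * q) * (m ^ 2 * q) ≤ 4 * (m * q) * 1 :=
      mul_le_mul_of_nonneg_left hq1 (by positivity)
    linarith
  have s2 : 0 ≤ a * (a * q) ^ 2 := by positivity
  have s3 := mul_le_mul_of_nonneg_left e3 (show 0 ≤ 4 * m by linarith)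
  have s4 := mul_le_mul_of_nonneg_left e4 (show 0 ≤ 2 * m by linarith)
  have s6 := mul_le_mul_of_nonneg_left e6 (show 0 ≤ 64 * v by positivity)
  have s7 : v * (m * q) ≤ v * (1 / 16) := mul_le_mul_of_nonneg_left hmq hw0
  have s8 : v * (a * q) ≤ v * (2 * (m * q)) := mul_le_mul_of_nonneg_left haq hw0
  nlinarith

lemma G_le (L m : ℝ) (p : Fin n → ℝ) (x : Fin n → Bool) : G L m p x ≤ m ^ 2 / 2 := by
  unfold G
  nlinarith [sq_nonneg (m - (M1 x).card), sq_nonneg ((Wr L p x).card : ℝ)]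

lemma G_stop {L m : ℝ} (hL0 : 0 < L) (hLn : n * L ≤ 1) (hm : 16 ≤ m) {p : Fin n → ℝ}
    (hp : Valid L p) {x : Fin n → Bool} (h : D p x ≤ 1 ∨ 2 * m < (M1 x).card) :
    G L m p x ≤ 0 := by
  have ha0 : (0 : ℝ) ≤ (M1 x).card := Nat.cast_nonneg _
  have hw0 : (0 : ℝ) ≤ (Wr L p x).card := Nat.cast_nonneg _
  unfold G
  rcases h with h | h
  · have h1 := stop_bound hL0 hLn hp h
    by_cases h2 : ((M1 x).card : ℝ) ≤ m / 4
    · nlinarith
    · have h3 : m / 8 ≤ (Wr L p x).card := by linarith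
      have h4 : (m / 8) ^ 2 ≤ ((Wr L p x).card : ℝ) ^ 2 := pow_le_pow_left₀ (by linarith) h3 2
      nlinarith [sq_nonneg (m - (M1 x).card)]
  · nlinarith

lemma surv_nonneg (hn : 1 ≤ n) (A : Adv n) (U : ℝ) (t : ℕ) (p : Fin n → ℝ) (x : Fin n → Bool) :
    0 ≤ surv A U t p x := by
  induction t generalizing p x with
  | zero => unfold surv; split_ifs <;> norm_num
  | succ t ih =>
    unfold surv
    split_ifs
    · exact le_rfl
    · exact sum_nonneg fun S _ => mul_nonneg (wt_nonneg hn S) (ih _ _)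

lemma H_ge (hn : 1 ≤ n) {L m : ℝ} (hL0 : 0 < L) (hLn : n * L ≤ 1) (hm : 16 ≤ m)
    (hmn : m ^ 2 ≤ n) (t : ℕ) : ∀ (p : Fin n → ℝ) (x : Fin n → Bool), Valid L p →
    G L m p x ≤ 400 * (m * (1 / (n : ℝ))) * ∑ j ∈ range t, surv (adv L) 1 j p x +
      m ^ 2 / 2 * surv (adv L) 1 t p x := by
  have hn1 : (1 : ℝ) ≤ n := by exact_mod_cast hn
  have hL1 : L ≤ 1 := by nlinarith
  have hδ : 0 ≤ 400 * (m * (1 / (n : ℝ))) := by positivity
  have stop : ∀ (t : ℕ) (p : Fin n → ℝ) (x : Fin n → Bool), Valid L p →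
      (D p x ≤ 1 ∨ 2 * m < (M1 x).card) →
      G L m p x ≤ 400 * (m * (1 / (n : ℝ))) * ∑ j ∈ range t, surv (adv L) 1 j p x +
        m ^ 2 / 2 * surv (adv L) 1 t p x := by
    intro t p x hp h
    have h1 := G_stop hL0 hLn hm hp h
    have h2 : 0 ≤ ∑ j ∈ range t, surv (adv L) 1 j p x :=
      sum_nonneg fun j _ => surv_nonneg hn _ _ _ _ _
    have h3 := surv_nonneg hn (adv L) 1 t p x
    have h4 := mul_nonneg hδ h2
    have h5 : 0 ≤ m ^ 2 / 2 * surv (adv L) 1 t p x := by positivity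
    linarith
  have nd : ∀ (p : Fin n → ℝ) (x : Fin n → Bool), 1 < D p x → ¬ disc p x ≤ 1 := by
    intro p x h h2
    have : D p x ≤ disc p x := le_abs_self _
    linarith
  induction t with
  | zero =>
    intro p x hp
    by_cases h : D p x ≤ 1 ∨ 2 * m < (M1 x).card
    · exact stop 0 p x hp h
    · rw [not_or, not_le, not_lt] at h
      have : surv (adv L) 1 0 p x = 1 := by unfold surv; rw [if_neg (nd p x h.1)]
      rw [this]
      simpa using G_le L m p x
  | succ t ih =>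
    intro p x hp
    by_cases h : D p x ≤ 1 ∨ 2 * m < (M1 x).card
    · exact stop _ p x hp h
    · rw [not_or, not_le, not_lt] at h
      obtain ⟨r1, r2, r3⟩ := reset_spec hL1 hp x
      have hD' : 1 < D (reset (adv L) p x) x := h.1.trans_le r2
      have s0 : surv (adv L) 1 0 p x = 1 := by unfold surv; rw [if_neg (nd p x h.1)]
      have s1 : ∀ j, surv (adv L) 1 (j + 1) p x =
          Ex (fun S => surv (adv L) 1 j (reset (adv L) p x) (select (reset (adv L) p x) x S)) := by
        intro j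
        rw [surv, if_neg (not_or.2 ⟨nd p x h.1, nd _ x hD'⟩)]
        rfl
      have d := drift hn hL0 hLn hm hmn r1 hD' h.2 _ r3
      have i2 := Ex_mono hn fun S => ih (reset (adv L) p x) (select (reset (adv L) p x) x S) r1
      rw [Ex_add, Ex_mul, Ex_mul, Ex_sum (range t) (fun j S =>
        surv (adv L) 1 j (reset (adv L) p x) (select (reset (adv L) p x) x S))] at i2
      rw [sum_range_succ', s0]
      simp only [s1]
      unfold G
      unfold G at d i2
      nlinarith

lemma main (hn : 1 ≤ n) {L m : ℝ} (hL0 : 0 < L) (hLn : n * L ≤ 1) (hm : 16 ≤ m)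
    (hmn : m ^ 2 ≤ n) (p : Fin n → ℝ) (x : Fin n → Bool) (hp : Valid L p)
    (hG : G L m p x = m ^ 2 / 2) :
    ENNReal.ofReal (m * n / 1600) ≤ expT (adv L) 1 p x := by
  have hn0 : (0 : ℝ) < n := by exact_mod_cast hn
  obtain ⟨K, hK⟩ := exists_nat_ge (m * n)
  have hK0 : (0 : ℝ) < K := lt_of_lt_of_le (by positivity) hK
  set E := ∑ j ∈ range K, surv (adv L) 1 j p x with hE
  have hE0 : 0 ≤ E := sum_nonneg fun j _ => surv_nonneg hn _ _ _ _ _
  have hδ : 0 ≤ 400 * (m * (1 / (n : ℝ))) := by positivity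
  have h1 : ∀ t ∈ range K, m ^ 2 / 2 ≤ 400 * (m * (1 / (n : ℝ))) * E +
      m ^ 2 / 2 * surv (adv L) 1 t p x := by
    intro t ht
    have h2 := H_ge hn hL0 hLn hm hmn t p x hp
    have h3 : ∑ j ∈ range t, surv (adv L) 1 j p x ≤ E :=
      sum_le_sum_of_subset_of_nonneg (range_subset_range.2 (mem_range.1 ht).le)
        fun j _ _ => surv_nonneg hn _ _ _ _ _
    have := mul_le_mul_of_nonneg_left h3 hδ
    linarith
  have h2 := sum_le_sum h1
  rw [sum_add_distrib, sum_const, sum_const, ← mul_sum, card_range, nsmul_eq_mul, nsmul_eq_mul,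
    ← hE] at h2
  have h3 : m ^ 2 / 2 * E ≤ K * (400 * (m * (1 / (n : ℝ))) * E) := by
    rw [← mul_assoc]
    refine mul_le_mul_of_nonneg_right ?_ hE0
    have t1 : m * n * (400 * (m * (1 / (n : ℝ)))) ≤ K * (400 * (m * (1 / (n : ℝ)))) :=
      mul_le_mul_of_nonneg_right hK hδ
    have t2 : m * n * (400 * (m * (1 / (n : ℝ)))) = 400 * m ^ 2 := by field_simp
    nlinarith
  have h4 : m ^ 2 / 2 ≤ 800 * (m * (1 / (n : ℝ))) * E :=
    le_of_mul_le_mul_left (by linarith) hK0
  have h5 : m * n / 1600 ≤ E := by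
    have t1 : 800 * (m * (1 / (n : ℝ))) * (m * n / 1600) = m ^ 2 / 2 := by field_simp; ring
    have t2 : 0 < 800 * (m * (1 / (n : ℝ))) := by positivity
    exact le_of_mul_le_mul_left (by linarith) t2
  refine (ENNReal.ofReal_le_ofReal h5).trans ?_
  rw [hE, ENNReal.ofReal_sum_of_nonneg fun j _ => surv_nonneg hn _ _ _ _ _]
  exact ENNReal.sum_le_tsum _

end Pool.Agent.H44.EA
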