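import Mathlib

namespace Pool.Agent.H44.ET
open Finset

variable {ι : Type} [Fintype ι] [DecidableEq ι]

/-- Bernoulli weight. -/
noncomputable def wt (v : ℝ) (b : Bool) : ℝ := if b then v else 1 - v
/-- Product weight. -/
noncomputable def W (v : ℝ) (y : ι → Bool) : ℝ := ∏ e, wt v (y e)
/-- Expectation under the product Bernoulli law. -/
noncomputable def Ex (v : ℝ) (F : (ι → Bool) → ℝ) : ℝ := ∑ y, W v y * F y
/-- `F` does not depend on coordinate `e`. -/
def Ind (F : (ι → Bool) → ℝ) (e : ι) : Prop := ∀ y b, F (Function.update y e b) = F y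
/-- Indicator of `true`. -/
noncomputable def ind (b : Bool) : ℝ := if b then 1 else 0
/-- Centred indicator. -/
noncomputable def xi (v : ℝ) (b : Bool) : ℝ := ind b - v
/-- Moment generating function of the centred indicator. -/
noncomputable def mgf (v s : ℝ) : ℝ := v * Real.exp (s * (1 - v)) + (1 - v) * Real.exp (s * (0 - v))

theorem wt_nonneg {v : ℝ} (h0 : 0 ≤ v) (h1 : v ≤ 1) (b : Bool) : 0 ≤ wt v b := by
  unfold wt; split_ifs <;> linarith

theorem W_nonneg {v : ℝ} (h0 : 0 ≤ v) (h1 : v ≤ 1) (y : ι → Bool) : 0 ≤ W v y :=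
  prod_nonneg fun _ _ => wt_nonneg h0 h1 _

theorem Ex_mono {v : ℝ} (h0 : 0 ≤ v) (h1 : v ≤ 1) {F G : (ι → Bool) → ℝ} (h : ∀ y, F y ≤ G y) :
    Ex v F ≤ Ex v G :=
  sum_le_sum fun y _ => mul_le_mul_of_nonneg_left (h y) (W_nonneg h0 h1 y)

theorem Ex_nonneg {v : ℝ} (h0 : 0 ≤ v) (h1 : v ≤ 1) {F : (ι → Bool) → ℝ} (h : ∀ y, 0 ≤ F y) :
    0 ≤ Ex v F :=
  sum_nonneg fun y _ => mul_nonneg (W_nonneg h0 h1 y) (h y)

theorem Ex_add (v : ℝ) (F G : (ι → Bool) → ℝ) :
    Ex v (fun y => F y + G y) = Ex v F + Ex v G := by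
  unfold Ex; rw [← sum_add_distrib]; exact sum_congr rfl fun y _ => by ring

theorem Ex_const_mul (v c : ℝ) (F : (ι → Bool) → ℝ) :
    Ex v (fun y => c * F y) = c * Ex v F := by
  unfold Ex; rw [mul_sum]; exact sum_congr rfl fun y _ => by ring

theorem Ex_sum {κ : Type} (v : ℝ) (T : Finset κ) (F : κ → (ι → Bool) → ℝ) :
    Ex v (fun y => ∑ k ∈ T, F k y) = ∑ k ∈ T, Ex v (F k) := by
  unfold Ex; rw [sum_comm]; exact sum_congr rfl fun y _ => by rw [mul_sum]

theorem Ex_prod (v : ℝ) (f : ι → Bool → ℝ) :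
    Ex v (fun y => ∏ e, f e (y e)) = ∏ e, (v * f e true + (1 - v) * f e false) := by
  have h : ∀ e, v * f e true + (1 - v) * f e false = ∑ b : Bool, wt v b * f e b := by
    intro e; simp [wt]
  simp_rw [h]
  rw [Finset.prod_univ_sum]
  unfold Ex W
  rw [Fintype.piFinset_univ]
  exact sum_congr rfl fun y _ => by rw [← prod_mul_distrib]

theorem Ex_one (v : ℝ) : Ex v (fun _ : ι → Bool => (1:ℝ)) = 1 := by
  have := Ex_prod (ι := ι) v (fun _ _ => 1)
  simpa using this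

theorem Ex_const (v c : ℝ) : Ex v (fun _ : ι → Bool => c) = c := by
  have := Ex_const_mul (ι := ι) v c (fun _ => 1)
  rw [Ex_one] at this
  simpa using this

theorem Ex_coord (v : ℝ) (e : ι) (Φ : (ι → Bool) → Bool → ℝ)
    (h : ∀ b, Ind (fun y => Φ y b) e) :
    Ex v (fun y => Φ y (y e)) = Ex v (fun y => v * Φ y true + (1 - v) * Φ y false) := by
  have hinv : Function.Involutive (fun y : ι → Bool => Function.update y e (!y e)) := by
    intro y; simp
  have hflip : ∀ A : (ι → Bool) → ℝ, ∑ y, A y = ∑ y, A (Function.update y e (!y e)) := by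
    intro A
    exact (Equiv.sum_comp hinv.toPerm A).symm
  have hW : ∀ y : ι → Bool, W v y = wt v (y e) * ∏ e' ∈ univ.erase e, wt v (y e') := by
    intro y; unfold W; rw [mul_prod_erase _ (fun e' => wt v (y e')) (mem_univ e)]
  have hW' : ∀ y : ι → Bool, W v (Function.update y e (!y e))
      = wt v (!y e) * ∏ e' ∈ univ.erase e, wt v (y e') := by
    intro y; rw [hW]; simp only [Function.update_self]
    congr 1
    exact prod_congr rfl fun e' he' => by rw [Function.update_of_ne (ne_of_mem_erase he')]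
  have key : ∀ A B : (ι → Bool) → ℝ,
      (∀ y, A y + A (Function.update y e (!y e)) = B y + B (Function.update y e (!y e))) →
      ∑ y, A y = ∑ y, B y := by
    intro A B hAB
    have h1 := hflip A
    have h2 := hflip B
    have h3 : ∑ y, (A y + A (Function.update y e (!y e)))
        = ∑ y, (B y + B (Function.update y e (!y e))) := sum_congr rfl fun y _ => hAB y
    rw [sum_add_distrib, sum_add_distrib] at h3
    linarith
  unfold Ex
  apply key
  intro y
  have a1 := h true y (!y e)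
  have a2 := h false y (!y e)
  simp only at a1 a2
  beta_reduce
  rw [hW', hW y, Function.update_self, a1, a2]
  cases hy : y e
  · rw [hy] at a1; simp only [Bool.not_false] at a1 ⊢; rw [a1]; simp only [wt]; simp; ring
  · rw [hy] at a2; simp only [Bool.not_true] at a2 ⊢; rw [a2]; simp only [wt]; simp; ring

theorem Ind.mul {F G : (ι → Bool) → ℝ} {e : ι} (hF : Ind F e) (hG : Ind G e) :
    Ind (fun y => F y * G y) e := fun y b => by simp only [hF y b, hG y b]

theorem Ind.comp {F : (ι → Bool) → ℝ} {e : ι} (hF : Ind F e) (g : ℝ → ℝ) :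
    Ind (fun y => g (F y)) e := fun y b => by simp only [hF y b]

theorem Ind.comp₂ {F G : (ι → Bool) → ℝ} {e : ι} (hF : Ind F e) (hG : Ind G e) (g : ℝ → ℝ → ℝ) :
    Ind (fun y => g (F y) (G y)) e := fun y b => by simp only [hF y b, hG y b]

theorem Ind.const (c : ℝ) (e : ι) : Ind (fun _ => c) e := fun _ _ => rfl

theorem Ind.coord {e e' : ι} (h : e' ≠ e) (g : Bool → ℝ) : Ind (fun y => g (y e')) e :=
  fun y b => by simp only [Function.update_of_ne h]

theorem Ind.sum {κ : Type} {T : Finset κ} {F : κ → (ι → Bool) → ℝ} {e : ι}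
    (h : ∀ k ∈ T, Ind (F k) e) : Ind (fun y => ∑ k ∈ T, F k y) e :=
  fun y b => sum_congr rfl fun k hk => h k hk y b

theorem Ind.prod {κ : Type} {T : Finset κ} {F : κ → (ι → Bool) → ℝ} {e : ι}
    (h : ∀ k ∈ T, Ind (F k) e) : Ind (fun y => ∏ k ∈ T, F k y) e :=
  fun y b => prod_congr rfl fun k hk => h k hk y b

theorem step {v : ℝ} (h0 : 0 ≤ v) (h1 : v ≤ 1) (e : ι) (G L P : (ι → Bool) → ℝ)
    (hG0 : ∀ y, 0 ≤ G y) (hG : Ind G e) (hL : Ind L e) (hP : Ind P e)
    (hm : ∀ y, mgf v (L y) ≤ Real.exp (P y)) :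
    Ex v (fun y => G y * Real.exp (L y * xi v (y e) - P y)) ≤ Ex v G := by
  rw [Ex_coord v e (fun y b => G y * Real.exp (L y * xi v b - P y))
    (fun b => hG.mul (hL.comp₂ hP (fun l p => Real.exp (l * xi v b - p))))]
  apply Ex_mono h0 h1
  intro y
  have h2 := hm y
  have h3 : v * (G y * Real.exp (L y * xi v true - P y))
      + (1 - v) * (G y * Real.exp (L y * xi v false - P y))
      = G y * (mgf v (L y) * Real.exp (- P y)) := by
    simp only [xi, ind, mgf, sub_eq_add_neg, Real.exp_add]; simp; ring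
  rw [h3]
  have h4 : mgf v (L y) * Real.exp (- P y) ≤ 1 := by
    calc _ ≤ Real.exp (P y) * Real.exp (- P y) :=
          mul_le_mul_of_nonneg_right h2 (Real.exp_pos _).le
      _ = 1 := by rw [← Real.exp_add]; simp
  nlinarith [hG0 y]

theorem supermart {v : ℝ} (h0 : 0 ≤ v) (h1 : v ≤ 1) (r : ι → ℕ) (G : (ι → Bool) → ℝ)
    (L P : ι → (ι → Bool) → ℝ) (hG0 : ∀ y, 0 ≤ G y) (S : Finset ι) :
    (∀ e ∈ S, Ind G e) → (∀ e ∈ S, ∀ e' ∈ S, r e ≤ r e' → Ind (L e) e' ∧ Ind (P e) e') →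
    (∀ e ∈ S, ∀ y, mgf v (L e y) ≤ Real.exp (P e y)) →
    Ex v (fun y => G y * Real.exp (∑ e ∈ S, (L e y * xi v (y e) - P e y))) ≤ Ex v G := by
  induction S using Finset.induction_on_max_value r with
  | empty => intro _ _ _; simp
  | insert a s ha hmax ih =>
    intro hG hLP hm
    have ih' := ih (fun e he => hG e (mem_insert_of_mem he))
      (fun e he e' he' => hLP e (mem_insert_of_mem he) e' (mem_insert_of_mem he'))
      (fun e he => hm e (mem_insert_of_mem he))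
    refine le_trans ?_ ih'
    have ha' := hLP a (mem_insert_self _ _) a (mem_insert_self _ _) le_rfl
    have hs : Ind (fun y => ∑ e ∈ s, (L e y * xi v (y e) - P e y)) a := by
      apply Ind.sum
      intro e he
      have hne : e ≠ a := fun h => ha (h ▸ he)
      have := hLP e (mem_insert_of_mem he) a (mem_insert_self _ _) (hmax e he)
      exact (this.1.mul (Ind.coord hne (xi v))).comp₂ this.2 (fun x z => x - z)
    have := step h0 h1 a (fun y => G y * Real.exp (∑ e ∈ s, (L e y * xi v (y e) - P e y)))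
      (L a) (P a) (fun y => mul_nonneg (hG0 y) (Real.exp_pos _).le)
      ((hG a (mem_insert_self _ _)).mul (hs.comp Real.exp)) ha'.1 ha'.2
      (hm a (mem_insert_self _ _))
    refine le_trans (le_of_eq ?_) this
    congr 1
    funext y
    rw [sum_insert ha, Real.exp_add]; ring

theorem lin_mgf {v : ℝ} (h0 : 0 ≤ v) (h1 : v ≤ 1) (G : (ι → Bool) → ℝ)
    (L P : ι → (ι → Bool) → ℝ) (hG0 : ∀ y, 0 ≤ G y) (S : Finset ι) (B : ℝ)
    (hG : ∀ e ∈ S, Ind G e) (hLP : ∀ e ∈ S, ∀ e' ∈ S, Ind (L e) e' ∧ Ind (P e) e')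
    (hm : ∀ e ∈ S, ∀ y, mgf v (L e y) ≤ Real.exp (P e y)) (hB : ∀ y, ∑ e ∈ S, P e y ≤ B) :
    Ex v (fun y => G y * Real.exp (∑ e ∈ S, L e y * xi v (y e))) ≤ Real.exp B * Ex v G := by
  have h := supermart h0 h1 (fun _ => 0) G L P hG0 S hG (fun e he e' he' _ => hLP e he e' he') hm
  refine le_trans ?_ (mul_le_mul_of_nonneg_left h (Real.exp_pos _).le)
  rw [← Ex_const_mul]
  apply Ex_mono h0 h1
  intro y
  rw [sum_sub_distrib, mul_left_comm, ← Real.exp_add]
  apply mul_le_mul_of_nonneg_left _ (hG0 y)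
  apply Real.exp_le_exp.2
  linarith [hB y]

theorem prod_bound {κ : Type} [DecidableEq κ] {v : ℝ} (r : κ → ℕ)
    (φ : κ → (ι → Bool) → ℝ) (S : κ → Finset ι) (K : ℝ) (hK : 0 ≤ K) (hφ : ∀ w y, 0 ≤ φ w y)
    (hc : ∀ w, ∀ G : (ι → Bool) → ℝ, (∀ y, 0 ≤ G y) → (∀ e ∈ S w, Ind G e) →
      Ex v (fun y => G y * φ w y) ≤ K * Ex v G)
    (hi : ∀ w w', w' ≠ w → r w' ≤ r w → ∀ e ∈ S w, Ind (φ w') e) (T : Finset κ) :
    Ex v (fun y => ∏ w ∈ T, φ w y) ≤ K ^ T.card := by
  induction T using Finset.induction_on_max_value r with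
  | empty => simp [Ex_one]
  | insert a s ha hmax ih =>
    have h := hc a (fun y => ∏ w ∈ s, φ w y) (fun y => prod_nonneg fun w _ => hφ w y)
      (fun e he => Ind.prod fun w hw => hi a w (fun h => ha (h ▸ hw)) (hmax w hw) e he)
    rw [card_insert_of_notMem ha, pow_succ]
    calc _ = Ex v (fun y => (∏ w ∈ s, φ w y) * φ a y) := by
          congr 1; funext y; rw [prod_insert ha]; ring
      _ ≤ K * Ex v (fun y => ∏ w ∈ s, φ w y) := h
      _ ≤ K * K ^ s.card := mul_le_mul_of_nonneg_left ih hK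
      _ = _ := by ring

theorem geom_bound (N : ℕ) : ∑ j ∈ range N, 2 * Real.exp (2 - j) ≤ Real.exp 4 := by
  have he : (2:ℝ) ≤ Real.exp 1 := by linarith [Real.add_one_le_exp (1:ℝ)]
  have h1 : ∀ j : ℕ, Real.exp (2 - j) ≤ Real.exp 2 * (1 / 2) ^ j := by
    intro j
    rw [sub_eq_add_neg, Real.exp_add]
    apply mul_le_mul_of_nonneg_left _ (Real.exp_pos _).le
    rw [Real.exp_neg, ← mul_one (j:ℝ), Real.exp_nat_mul, ← inv_pow]
    apply pow_le_pow_left₀ (by positivity)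
    rw [one_div]; exact inv_anti₀ (by norm_num) he
  have h2 : ∑ j ∈ range N, (1 / 2 : ℝ) ^ j ≤ 2 := sum_geometric_two_le N
  have h3 : (4:ℝ) ≤ Real.exp 2 := by
    have : Real.exp 2 = Real.exp 1 * Real.exp 1 := by rw [← Real.exp_add]; norm_num
    nlinarith
  have h4 : Real.exp 4 = Real.exp 2 * Real.exp 2 := by rw [← Real.exp_add]; norm_num
  calc _ ≤ ∑ j ∈ range N, 2 * (Real.exp 2 * (1 / 2) ^ j) :=
        sum_le_sum fun j _ => by linarith [h1 j]
    _ = 2 * Real.exp 2 * ∑ j ∈ range N, (1 / 2 : ℝ) ^ j := by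
        rw [mul_sum]; exact sum_congr rfl fun j _ => by ring
    _ ≤ 2 * Real.exp 2 * 2 := mul_le_mul_of_nonneg_left h2 (by positivity)
    _ ≤ _ := by rw [h4]; nlinarith [Real.exp_pos 2]

theorem quad_exp {v : ℝ} (h0 : 0 ≤ v) (h1 : v ≤ 1) (G Z : (ι → Bool) → ℝ) (M : ℝ)
    (hG0 : ∀ y, 0 ≤ G y)
    (h : ∀ s : ℝ, |s| ≤ M → Ex v (fun y => G y * Real.exp (s * Z y)) ≤ Real.exp (s ^ 2 / 2) * Ex v G) :
    Ex v (fun y => G y * (if |Z y| ≤ M then Real.exp (Z y ^ 2 / 8) else 0))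
      ≤ Real.exp 4 * Ex v G := by
  have hEG := Ex_nonneg h0 h1 hG0
  by_cases hM : M < 0
  · have : ∀ y, ¬ |Z y| ≤ M := fun y hy => by linarith [abs_nonneg (Z y)]
    simp only [this, if_false, mul_zero, Ex_const]
    positivity
  push Not at hM
  set N := ⌊M⌋₊ + 1
  have hpt : ∀ y, G y * (if |Z y| ≤ M then Real.exp (Z y ^ 2 / 8) else 0)
      ≤ ∑ j ∈ range N, Real.exp (((j:ℝ) + 1) ^ 2 / 8 - (j:ℝ) ^ 2) *
        (G y * Real.exp ((j:ℝ) * Z y) + G y * Real.exp ((-(j:ℝ)) * Z y)) := by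
    intro y
    have hnn : ∀ j ∈ range N, 0 ≤ Real.exp (((j:ℝ) + 1) ^ 2 / 8 - (j:ℝ) ^ 2) *
        (G y * Real.exp ((j:ℝ) * Z y) + G y * Real.exp ((-(j:ℝ)) * Z y)) := by
      intro j _
      have := hG0 y
      positivity
    split_ifs with hz
    · have hj : ⌊|Z y|⌋₊ ∈ range N := by
        rw [mem_range]; exact Nat.lt_succ_of_le (Nat.floor_le_floor hz)
      refine le_trans ?_ (single_le_sum hnn hj)
      set j : ℝ := (⌊|Z y|⌋₊ : ℝ)
      have a1 : j ≤ |Z y| := Nat.floor_le (abs_nonneg _)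
      have a2 : |Z y| < j + 1 := Nat.lt_floor_add_one _
      have a0 : 0 ≤ j := Nat.cast_nonneg _
      have a3 : Real.exp (j * |Z y|) ≤ Real.exp (j * Z y) + Real.exp ((-j) * Z y) := by
        rcases abs_cases (Z y) with ⟨h, _⟩ | ⟨h, _⟩
        · rw [h]; linarith [Real.exp_pos ((-j) * Z y)]
        · rw [h, show j * -Z y = (-j) * Z y by ring]; linarith [Real.exp_pos (j * Z y)]
      have a4 : Real.exp (Z y ^ 2 / 8) ≤ Real.exp ((j + 1) ^ 2 / 8 - j ^ 2) * Real.exp (j * |Z y|) := by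
        rw [← Real.exp_add]; apply Real.exp_le_exp.2
        have b1 : Z y ^ 2 ≤ (j + 1) ^ 2 := by
          rw [← sq_abs]; exact pow_le_pow_left₀ (abs_nonneg _) a2.le 2
        nlinarith
      rw [← mul_add, mul_left_comm]
      apply mul_le_mul_of_nonneg_left _ (hG0 y)
      exact a4.trans (mul_le_mul_of_nonneg_left a3 (Real.exp_pos _).le)
    · rw [mul_zero]; exact sum_nonneg hnn
  refine (Ex_mono h0 h1 hpt).trans ?_
  rw [Ex_sum]
  refine le_trans ?_ (mul_le_mul_of_nonneg_right (geom_bound N) hEG)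
  rw [sum_mul]
  apply sum_le_sum
  intro j hj
  have hjM : (j:ℝ) ≤ M := by
    have : j ≤ ⌊M⌋₊ := Nat.lt_succ_iff.1 (mem_range.1 hj)
    exact le_trans (Nat.cast_le.2 this) (Nat.floor_le hM)
  have b1 := h j (by rw [abs_of_nonneg (Nat.cast_nonneg _)]; exact hjM)
  have b2 := h (-(j:ℝ)) (by rw [abs_neg, abs_of_nonneg (Nat.cast_nonneg _)]; exact hjM)
  rw [Ex_const_mul, Ex_add]
  rw [neg_sq] at b2
  have b3 : Real.exp (((j:ℝ) + 1) ^ 2 / 8 - (j:ℝ) ^ 2) * Real.exp ((j:ℝ) ^ 2 / 2)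
      ≤ Real.exp (2 - j) := by
    rw [← Real.exp_add]; apply Real.exp_le_exp.2
    nlinarith [sq_nonneg ((j:ℝ) - 2)]
  calc _ ≤ Real.exp (((j:ℝ) + 1) ^ 2 / 8 - (j:ℝ) ^ 2) * (2 * (Real.exp ((j:ℝ) ^ 2 / 2) * Ex v G)) :=
        mul_le_mul_of_nonneg_left (by linarith) (Real.exp_pos _).le
    _ = 2 * (Real.exp (((j:ℝ) + 1) ^ 2 / 8 - (j:ℝ) ^ 2) * Real.exp ((j:ℝ) ^ 2 / 2)) * Ex v G := by ring
    _ ≤ _ := mul_le_mul_of_nonneg_right (by linarith) hEG

theorem mgf_hoeff {v : ℝ} (h0 : 0 ≤ v) (h1 : v ≤ 1) (s : ℝ) : mgf v s ≤ Real.exp (s ^ 2 / 2) := by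
  have hc : ∀ x : ℝ, -1 ≤ x → x ≤ 1 →
      Real.exp (s * x) ≤ (1 + x) / 2 * Real.exp s + (1 - x) / 2 * Real.exp (-s) := by
    intro x a b
    have := convexOn_exp.2 (Set.mem_univ s) (Set.mem_univ (-s)) (show 0 ≤ (1 + x) / 2 by linarith)
      (show 0 ≤ (1 - x) / 2 by linarith) (by ring)
    simp only [smul_eq_mul] at this
    rwa [show (1 + x) / 2 * s + (1 - x) / 2 * -s = s * x by ring] at this
  have a1 := hc (1 - v) (by linarith) (by linarith)
  have a2 := hc (0 - v) (by linarith) (by linarith)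
  have a3 := Real.cosh_le_exp_half_sq s
  rw [Real.cosh_eq] at a3
  unfold mgf
  have b1 := mul_le_mul_of_nonneg_left a1 h0
  have b2 := mul_le_mul_of_nonneg_left a2 (show 0 ≤ 1 - v by linarith)
  nlinarith

theorem mgf_small {v : ℝ} (h0 : 0 ≤ v) (s M : ℝ) (hs : |s| ≤ M) :
    mgf v s ≤ Real.exp (v * Real.exp M * s ^ 2) := by
  have a1 : mgf v s = Real.exp (-(s * v)) * (1 + v * (Real.exp s - 1)) := by
    unfold mgf
    rw [show s * (1 - v) = -(s * v) + s by ring, show s * (0 - v) = -(s * v) by ring, Real.exp_add]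
    ring
  have a2 : 1 + v * (Real.exp s - 1) ≤ Real.exp (v * (Real.exp s - 1)) := by
    linarith [Real.add_one_le_exp (v * (Real.exp s - 1))]
  have hM1 : 1 ≤ Real.exp M := Real.one_le_exp (le_trans (abs_nonneg _) hs)
  have a3 : Real.exp s - 1 - s ≤ Real.exp M * s ^ 2 := by
    have b1 : Real.exp s - 1 ≤ s * Real.exp s := by
      have := Real.add_one_le_exp (-s)
      have h2 : Real.exp (-s) * Real.exp s = 1 := by rw [← Real.exp_add]; simp
      nlinarith [Real.exp_pos s]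
    rcases le_total 0 s with hs0 | hs0
    · have b2 : Real.exp s ≤ Real.exp M := Real.exp_le_exp.2 (le_trans (le_abs_self _) hs)
      have b3 : s * (Real.exp s - 1) ≤ s * (s * Real.exp s) := mul_le_mul_of_nonneg_left b1 hs0
      nlinarith [sq_nonneg s]
    · have b2 := Real.add_one_le_exp s
      have b3 : s * (Real.exp s - 1) ≤ s * s := by nlinarith
      nlinarith [sq_nonneg s]
  rw [a1]
  calc _ ≤ Real.exp (-(s * v)) * Real.exp (v * (Real.exp s - 1)) :=
        mul_le_mul_of_nonneg_left a2 (Real.exp_pos _).le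
    _ ≤ _ := by
        rw [← Real.exp_add]; apply Real.exp_le_exp.2
        nlinarith [mul_le_mul_of_nonneg_left a3 h0]

end Pool.Agent.H44.ET
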