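import Pool.Agent.H44.ET1

namespace Pool.Agent.H44.ET
open Finset

theorem ind_nonneg (b : Bool) : 0 ≤ ind b := by unfold ind; split_ifs <;> norm_num
theorem ind_le_one (b : Bool) : ind b ≤ 1 := by unfold ind; split_ifs <;> norm_num

theorem boundA {ι : Type} [Fintype ι] [DecidableEq ι] (n : ℕ) (hn : 0 < n) (v γ lam M : ℝ)
    (S : Fin n → Finset ι) (hdisj : ∀ w w', w' ≠ w → ∀ e ∈ S w, e ∉ S w')
    (hcard : ∀ w, (S w).card ≤ n) (h0 : 0 ≤ v) (hvγ : v ≤ γ) (hγ : γ ≤ 1) (hlam : 0 < lam)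
    (hM : 8 * lam * γ ≤ M) (hs : 16 * lam * (v * Real.exp M) ≤ 1) :
    Ex v (fun y => Real.exp (∑ w, if ∑ e ∈ S w, ind (y e) ≤ γ * n then
      lam / n * (∑ e ∈ S w, xi v (y e)) ^ 2 else 0)) ≤ Real.exp (5 * n) := by
  have h1 : v ≤ 1 := hvγ.trans hγ
  have hnR : (0:ℝ) < n := Nat.cast_pos.2 hn
  set ρ := Real.sqrt (8 * lam / n) with hρ
  have hρ0 : 0 ≤ ρ := Real.sqrt_nonneg _
  have hρ2 : ρ ^ 2 = 8 * lam / n := Real.sq_sqrt (by positivity)
  have hK : Real.exp 4 + 1 ≤ Real.exp 5 := by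
    have a : Real.exp 5 = Real.exp 4 * Real.exp 1 := by rw [← Real.exp_add]; norm_num
    have b : (2:ℝ) ≤ Real.exp 1 := by linarith [Real.add_one_le_exp (1:ℝ)]
    have c : (1:ℝ) ≤ Real.exp 4 := Real.one_le_exp (by norm_num)
    nlinarith
  have := prod_bound (v := v) (fun _ : Fin n => 0)
    (fun w y => Real.exp (if ∑ e ∈ S w, ind (y e) ≤ γ * n then
      lam / n * (∑ e ∈ S w, xi v (y e)) ^ 2 else 0)) S (Real.exp 5) (Real.exp_pos _).le
    (fun w y => (Real.exp_pos _).le) ?_ ?_ univ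
  · rw [card_univ, Fintype.card_fin, ← Real.exp_nat_mul, mul_comm (n:ℝ) 5] at this
    simpa only [Real.exp_sum] using this
  · intro w G hG0 hG
    have hEG := Ex_nonneg h0 h1 hG0
    have hq := quad_exp h0 h1 G (fun y => ρ * ∑ e ∈ S w, xi v (y e)) (ρ * (γ * n)) hG0 ?_
    · refine le_trans ?_ (mul_le_mul_of_nonneg_right hK hEG)
      rw [add_mul, one_mul]
      refine le_trans ?_ (add_le_add_left hq _)
      rw [← Ex_add]
      apply Ex_mono h0 h1
      intro y
      rw [← mul_add_one]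
      apply mul_le_mul_of_nonneg_left _ (hG0 y)
      by_cases hd : ∑ e ∈ S w, ind (y e) ≤ γ * n
      · have hD : |∑ e ∈ S w, xi v (y e)| ≤ γ * n := by
          have e1 : ∑ e ∈ S w, xi v (y e) = ∑ e ∈ S w, ind (y e) - (S w).card * v := by
            simp only [xi, sum_sub_distrib, sum_const, nsmul_eq_mul]
          have e2 : 0 ≤ ∑ e ∈ S w, ind (y e) := sum_nonneg fun e _ => ind_nonneg _
          have e3 : ((S w).card : ℝ) ≤ n := Nat.cast_le.2 (hcard w)
          have e4 : ((S w).card : ℝ) * v ≤ n * γ := mul_le_mul e3 hvγ h0 hnR.le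
          have e5 : 0 ≤ ((S w).card : ℝ) * v := by positivity
          rw [e1, abs_le]; constructor <;> linarith
        have hZ : |ρ * ∑ e ∈ S w, xi v (y e)| ≤ ρ * (γ * n) := by
          rw [abs_mul, abs_of_nonneg hρ0]; exact mul_le_mul_of_nonneg_left hD hρ0
        rw [if_pos hd, if_pos hZ, mul_pow, hρ2]
        have : lam / n * (∑ e ∈ S w, xi v (y e)) ^ 2
            = 8 * lam / n * (∑ e ∈ S w, xi v (y e)) ^ 2 / 8 := by ring
        rw [this]; linarith
      · rw [if_neg hd, Real.exp_zero]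
        split_ifs
        · linarith [Real.exp_pos ((ρ * ∑ e ∈ S w, xi v (y e)) ^ 2 / 8)]
        · linarith
    · intro s hs'
      have hsρ : |s * ρ| ≤ M := by
        rw [abs_mul, abs_of_nonneg hρ0]
        calc |s| * ρ ≤ ρ * (γ * n) * ρ := mul_le_mul_of_nonneg_right hs' hρ0
          _ = ρ ^ 2 * (γ * n) := by ring
          _ = 8 * lam * γ := by rw [hρ2]; field_simp
          _ ≤ M := hM
      have := lin_mgf h0 h1 G (fun _ _ => s * ρ) (fun _ _ => v * Real.exp M * (s * ρ) ^ 2) hG0 (S w)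
        (s ^ 2 / 2) hG (fun _ _ e' _ => ⟨Ind.const _ _, Ind.const _ _⟩)
        (fun _ _ _ => mgf_small h0 _ _ hsρ) ?_
      · refine le_trans (le_of_eq ?_) this
        congr 1; funext y
        rw [← mul_sum, mul_assoc]
      · intro y
        rw [sum_const, nsmul_eq_mul, mul_pow, hρ2]
        have e3 : ((S w).card : ℝ) ≤ n := Nat.cast_le.2 (hcard w)
        have e4 : 0 ≤ v * Real.exp M * (s ^ 2 * (8 * lam / n)) := by positivity
        calc _ ≤ n * (v * Real.exp M * (s ^ 2 * (8 * lam / n))) := mul_le_mul_of_nonneg_right e3 e4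
          _ = (16 * lam * (v * Real.exp M)) * (s ^ 2 / 2) := by field_simp; ring
          _ ≤ 1 * (s ^ 2 / 2) := mul_le_mul_of_nonneg_right hs (by positivity)
          _ = _ := one_mul _
  · intro w w' hne _ e he
    have hi : ∀ g : Bool → ℝ, Ind (fun y => ∑ e ∈ S w', g (y e)) e := fun g =>
      Ind.sum fun e' he' => Ind.coord (fun (h : e' = e) => hdisj w w' hne e he (h ▸ he')) g
    exact (hi ind).comp₂ (hi (xi v)) (fun a b => Real.exp (if a ≤ γ * n then lam / n * b ^ 2 else 0))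

variable {n : ℕ}

/-- Symmetric matrix built from the coordinates above the diagonal. -/
noncomputable def Sy (g : Bool → ℝ) (y : Fin n × Fin n → Bool) (a b : Fin n) : ℝ :=
  if a < b then g (y (a, b)) else if b < a then g (y (b, a)) else 0

theorem Sy_symm (g : Bool → ℝ) (y : Fin n × Fin n → Bool) (a b : Fin n) : Sy g y a b = Sy g y b a := by
  unfold Sy
  rcases lt_trichotomy a b with h | h | h
  · simp [h, h.not_gt]
  · subst h; rfl
  · simp [h, h.not_gt]

theorem Sy_self (g : Bool → ℝ) (y : Fin n × Fin n → Bool) (a : Fin n) : Sy g y a a = 0 := by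
  simp [Sy]

theorem Sy_nonneg (y : Fin n × Fin n → Bool) (a b : Fin n) : 0 ≤ Sy ind y a b := by
  unfold Sy; split_ifs <;> simp [ind_nonneg]

theorem Sy_le_one (y : Fin n × Fin n → Bool) (a b : Fin n) : Sy ind y a b ≤ 1 := by
  unfold Sy; split_ifs <;> simp [ind_le_one]

/-- Degree in the graph of `true` pairs. -/
noncomputable def dg (y : Fin n × Fin n → Bool) (a : Fin n) : ℝ := ∑ b, Sy ind y a b

theorem boundB (hn : 0 < n) (v γ β s : ℝ) (h0 : 0 ≤ v) (h1 : v ≤ 1) (hγ : 0 < γ) (hs : 0 ≤ s)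
    (hvs : v * Real.exp s ≤ 1) (h3 : 3 ≤ (s - β) * γ) (h4 : s * (4 * v) ≤ γ) :
    Ex v (fun y : Fin n × Fin n → Bool => if ∑ a, dg y a ≤ 4 * v * n ^ 2 then
      Real.exp (β * ∑ w, if dg y w ≤ γ * n then 0 else dg y w) else 0) ≤ Real.exp n := by
  have hnR : (0:ℝ) < n := Nat.cast_pos.2 hn
  let c : Finset (Fin n) → Fin n × Fin n → ℝ := fun K e =>
    (if e.1 ∈ K ∧ e.2 ∉ K then 1 else 0) + (if e.2 ∈ K ∧ e.1 ∉ K then 1 else 0)
  have hpt : ∀ y : Fin n × Fin n → Bool, (if ∑ a, dg y a ≤ 4 * v * n ^ 2 then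
      Real.exp (β * ∑ w, if dg y w ≤ γ * n then 0 else dg y w) else 0)
      ≤ ∑ K : Finset (Fin n), Real.exp (-(2 * n * K.card)) * ∏ e, Real.exp (s * c K e * ind (y e)) := by
    intro y
    have hnn : ∀ K ∈ (univ : Finset (Finset (Fin n))),
        0 ≤ Real.exp (-(2 * n * K.card)) * ∏ e, Real.exp (s * c K e * ind (y e)) :=
      fun K _ => mul_nonneg (Real.exp_pos _).le (prod_nonneg fun e _ => (Real.exp_pos _).le)
    split_ifs with hA
    swap
    · exact sum_nonneg hnn
    set K := univ.filter (fun w => ¬ dg y w ≤ γ * n) with hKdef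
    refine le_trans ?_ (single_le_sum hnn (mem_univ K))
    rw [← Real.exp_sum, ← Real.exp_add]
    apply Real.exp_le_exp.2
    have e1 : (∑ w, if dg y w ≤ γ * n then 0 else dg y w) = ∑ w ∈ K, dg y w := by
      rw [hKdef, sum_filter]
      exact sum_congr rfl fun w _ => by split_ifs <;> rfl
    have hdg0 : ∀ w, 0 ≤ dg y w := fun w => sum_nonneg fun b _ => Sy_nonneg y w b
    have e2 : (K.card : ℝ) * (γ * n) ≤ ∑ w ∈ K, dg y w := by
      rw [← nsmul_eq_mul, ← sum_const]
      exact sum_le_sum fun w hw => (not_le.1 (mem_filter.1 hw).2).le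
    have e3 : ∑ w ∈ K, dg y w ≤ ∑ a, dg y a :=
      sum_le_sum_of_subset_of_nonneg (subset_univ _) fun w _ _ => hdg0 w
    have e4 : ∑ w ∈ K, dg y w ≤ (K.card : ℝ) ^ 2 + ∑ e, c K e * ind (y e) := by
      have f1 : ∑ e, c K e * ind (y e) = ∑ a, ∑ b, (if a ∈ K ∧ b ∉ K then 1 else 0) *
          (ind (y (a, b)) + ind (y (b, a))) := by
        simp only [c, add_mul, mul_add, sum_add_distrib, Fintype.sum_prod_type]
        congr 1
        exact sum_comm
      have f2 : (K.card : ℝ) ^ 2 = ∑ a, ∑ b, (if a ∈ K ∧ b ∈ K then (1:ℝ) else 0) := by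
        have : ∀ a b : Fin n, (if a ∈ K ∧ b ∈ K then (1:ℝ) else 0)
            = (if a ∈ K then (1:ℝ) else 0) * (if b ∈ K then (1:ℝ) else 0) := by
          intro a b; by_cases ha : a ∈ K <;> by_cases hb : b ∈ K <;> simp [ha, hb]
        simp_rw [this, ← mul_sum, ← sum_mul]
        simp [sq]
      have f3 : ∑ w ∈ K, dg y w = ∑ a, ∑ b, (if a ∈ K then Sy ind y a b else 0) := by
        rw [← sum_filter_add_sum_filter_not univ (fun a => a ∈ K)]
        rw [sum_eq_zero (s := univ.filter (fun a => ¬ a ∈ K))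
          (fun a ha => by simp [(mem_filter.1 ha).2]), add_zero, filter_mem_eq_inter, univ_inter]
        exact sum_congr rfl fun a ha => by simp [ha, dg]
      rw [f1, f2, f3, ← sum_add_distrib]
      apply sum_le_sum; intro a _
      rw [← sum_add_distrib]
      apply sum_le_sum; intro b _
      have g1 := Sy_le_one y a b
      have g2 : Sy ind y a b ≤ ind (y (a, b)) + ind (y (b, a)) := by
        have := ind_nonneg (y (a, b)); have := ind_nonneg (y (b, a))
        unfold Sy; split_ifs <;> linarith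
      by_cases ha : a ∈ K <;> by_cases hb : b ∈ K <;> simp [ha, hb, g1, g2]
    have e5 : ∑ e, s * c K e * ind (y e) = s * ∑ e, c K e * ind (y e) := by
      rw [mul_sum]; exact sum_congr rfl fun e _ => by ring
    rw [e1, e5]
    set k : ℝ := (K.card : ℝ)
    set D := ∑ w ∈ K, dg y w
    set τ := ∑ e, c K e * ind (y e)
    have hk : 0 ≤ k := Nat.cast_nonneg _
    have e6 : s * k ≤ n := by
      have a1 : k * γ ≤ 4 * v * n := by
        have : (k * γ) * n ≤ (4 * v * n) * n := by nlinarith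
        exact le_of_mul_le_mul_right this hnR
      have a2 : (s * k) * γ ≤ n * γ := by nlinarith [mul_le_mul_of_nonneg_left a1 hs]
      exact le_of_mul_le_mul_right a2 hγ
    have e7 : 0 ≤ s - β := by
      by_contra hh; push Not at hh; nlinarith
    have e8 : (s - β) * (k * (γ * n)) ≤ (s - β) * D := mul_le_mul_of_nonneg_left e2 e7
    have e9 : s * D ≤ s * (k ^ 2 + τ) := mul_le_mul_of_nonneg_left e4 hs
    have e10 : 3 * (k * n) ≤ (s - β) * γ * (k * n) := mul_le_mul_of_nonneg_right h3 (by positivity)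
    have e11 : s * k * k ≤ n * k := mul_le_mul_of_nonneg_right e6 hk
    nlinarith
  refine (Ex_mono h0 h1 hpt).trans ?_
  rw [Ex_sum]
  have hK : ∀ K : Finset (Fin n), Ex v (fun y : Fin n × Fin n → Bool =>
      Real.exp (-(2 * n * K.card)) * ∏ e, Real.exp (s * c K e * ind (y e))) ≤ 1 := by
    intro K
    rw [Ex_const_mul, Ex_prod v (fun e b => Real.exp (s * c K e * ind b))]
    have f1 : ∏ e, (v * Real.exp (s * c K e * ind true) + (1 - v) * Real.exp (s * c K e * ind false))
        ≤ ∏ e : Fin n × Fin n,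
          Real.exp ((if e.1 ∈ K then 1 else 0) + (if e.2 ∈ K then 1 else 0)) := by
      apply prod_le_prod
      · intro e _
        have : 0 ≤ 1 - v := by linarith
        positivity
      · intro e _
        have b : (2:ℝ) ≤ Real.exp 1 := by linarith [Real.add_one_le_exp (1:ℝ)]
        have b2 : (1:ℝ) ≤ Real.exp (1 + 1) := Real.one_le_exp (by norm_num)
        by_cases ha : e.1 ∈ K <;> by_cases hb : e.2 ∈ K <;> simp [c, ha, hb, ind] <;> linarith
    rw [← Real.exp_sum] at f1
    have f2 : ∑ e : Fin n × Fin n, ((if e.1 ∈ K then (1:ℝ) else 0) + (if e.2 ∈ K then 1 else 0))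
        = 2 * n * K.card := by
      rw [sum_add_distrib, Fintype.sum_prod_type, Fintype.sum_prod_type_right]
      have : ∑ x : Fin n, ∑ _y : Fin n, (if x ∈ K then (1:ℝ) else 0) = n * K.card := by
        simp only [sum_const, card_univ, Fintype.card_fin, nsmul_eq_mul]
        rw [← mul_sum]; simp
      simp only []
      rw [this]; ring
    rw [f2] at f1
    calc _ ≤ Real.exp (-(2 * n * K.card)) * Real.exp (2 * n * K.card) :=
          mul_le_mul_of_nonneg_left f1 (Real.exp_pos _).le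
      _ = 1 := by rw [← Real.exp_add]; simp
  calc _ ≤ ∑ _K : Finset (Fin n), (1:ℝ) := sum_le_sum fun K _ => hK K
    _ = 2 ^ n := by simp
    _ ≤ Real.exp 1 ^ n := pow_le_pow_left₀ (by norm_num) (by linarith [Real.add_one_le_exp (1:ℝ)]) n
    _ = _ := by rw [← Real.exp_nat_mul, mul_one]

end Pool.Agent.H44.ET
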