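import Pool.Agent.H44.ET2

namespace Pool.Agent.H44.ET
open Finset

theorem jensen_sub {κ : Type} (T : Finset κ) (t a : κ → ℝ) (ht : ∀ k ∈ T, 0 ≤ t k)
    (h1 : ∑ k ∈ T, t k ≤ 1) :
    Real.exp (∑ k ∈ T, t k * a k) ≤ ∑ k ∈ T, t k * Real.exp (a k) + (1 - ∑ k ∈ T, t k) := by
  set x := ∑ k ∈ T, t k * a k with hx
  have h : ∀ z, Real.exp x * (1 + z - x) ≤ Real.exp z := by
    intro z
    have := Real.add_one_le_exp (z - x)
    calc _ = Real.exp x * (z - x + 1) := by ring
      _ ≤ Real.exp x * Real.exp (z - x) := mul_le_mul_of_nonneg_left this (Real.exp_pos _).le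
      _ = _ := by rw [← Real.exp_add]; congr 1; ring
  have h2 : ∑ k ∈ T, t k * (Real.exp x * (1 + a k - x)) ≤ ∑ k ∈ T, t k * Real.exp (a k) :=
    sum_le_sum fun k hk => mul_le_mul_of_nonneg_left (h _) (ht k hk)
  have h3 : ∑ k ∈ T, t k * (Real.exp x * (1 + a k - x))
      = Real.exp x * ((1 - x) * ∑ k ∈ T, t k + x) := by
    rw [hx, mul_sum, ← sum_add_distrib, mul_sum]
    exact sum_congr rfl fun k _ => by ring
  have h4 := h 0
  rw [Real.exp_zero] at h4
  have h5 := mul_le_mul_of_nonneg_left h4 (show 0 ≤ 1 - ∑ k ∈ T, t k by linarith)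
  nlinarith

variable {n : ℕ}

/-- The column embedding. -/
def colE (w : Fin n) : Fin n ↪ Fin n × Fin n := ⟨fun a => (a, w), fun _ _ h => (Prod.ext_iff.1 h).1⟩
/-- The row embedding. -/
def rowE (w : Fin n) : Fin n ↪ Fin n × Fin n := ⟨fun b => (w, b), fun _ _ h => (Prod.ext_iff.1 h).2⟩

/-- The inner sum of the cubic term. -/
noncomputable def Lam (v : ℝ) (y : Fin n × Fin n → Bool) (b w : Fin n) : ℝ :=
  ∑ a ∈ Iio b, xi v (y (a, b)) * xi v (y (a, w))

/-- The cubic term. -/
noncomputable def Cub (v : ℝ) (y : Fin n × Fin n → Bool) : ℝ :=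
  ∑ w, ∑ b ∈ Iio w, Lam v y b w * xi v (y (b, w))

theorem sum_upper (f : Fin n × Fin n → ℝ) :
    ∑ e ∈ univ.filter (fun e : Fin n × Fin n => e.1 < e.2), f e = ∑ w, ∑ b ∈ Iio w, f (b, w) := by
  rw [sum_filter, Fintype.sum_prod_type_right]
  refine sum_congr rfl fun w _ => ?_
  rw [← sum_filter]
  congr 1
  ext b; simp

theorem xi_sq_le {v : ℝ} (h0 : 0 ≤ v) (h1 : v ≤ 1) (b : Bool) : xi v b ^ 2 ≤ ind b + v := by
  cases b <;> simp [xi, ind] <;> nlinarith

theorem boundC1 (v μ : ℝ) (h0 : 0 ≤ v) (h1 : v ≤ 1) :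
    Ex v (fun y : Fin n × Fin n → Bool => Real.exp (2 * (μ * Cub v y)
      - 2 * μ ^ 2 * ∑ w, ∑ b ∈ Iio w, Lam v y b w ^ 2)) ≤ 1 := by
  have hI : ∀ e e' : Fin n × Fin n, e.1 < e.2 → e.2.val * n + e.1.val ≤ e'.2.val * n + e'.1.val →
      Ind (fun y => Lam v y e.1 e.2) e' := by
    intro e e' he hr
    apply Ind.sum
    intro a ha
    rw [mem_Iio] at ha
    have ha' : a.val < e.1.val := ha
    have he' : e.1.val < e.2.val := he
    have hn := a.isLt
    apply Ind.mul
    · apply Ind.coord _ (xi v)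
      intro h
      rw [← h] at hr
      simp only at hr
      have : (e.1.val + 1) * n ≤ e.2.val * n := Nat.mul_le_mul_right _ he'
      nlinarith
    · apply Ind.coord _ (xi v)
      intro h
      rw [← h] at hr
      simp only at hr
      omega
  have h := supermart h0 h1 (fun e : Fin n × Fin n => e.2.val * n + e.1.val) (fun _ => 1)
    (fun e y => 2 * μ * Lam v y e.1 e.2) (fun e y => (2 * μ * Lam v y e.1 e.2) ^ 2 / 2)
    (fun _ => zero_le_one) (univ.filter (fun e : Fin n × Fin n => e.1 < e.2))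
    (fun e _ => Ind.const _ _)
    (fun e he e' _ hr => ⟨(hI e e' (mem_filter.1 he).2 hr).comp (fun x => 2 * μ * x),
      (hI e e' (mem_filter.1 he).2 hr).comp (fun x => (2 * μ * x) ^ 2 / 2)⟩)
    (fun e _ y => mgf_hoeff h0 h1 _)
  rw [Ex_one] at h
  refine le_trans (le_of_eq ?_) h
  congr 1; funext y
  rw [one_mul, sum_upper (fun e => 2 * μ * Lam v y e.1 e.2 * xi v (y e)
    - (2 * μ * Lam v y e.1 e.2) ^ 2 / 2)]
  congr 1
  unfold Cub
  simp only [mul_sum, ← sum_sub_distrib]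
  exact sum_congr rfl fun w _ => sum_congr rfl fun b _ => by ring

/-- Squared row norm, padded. -/
noncomputable def rr (v : ℝ) (y : Fin n × Fin n → Bool) (b : Fin n) : ℝ :=
  ∑ a ∈ Iio b, xi v (y (a, b)) ^ 2 + v * n

theorem rr_pos (hn : 0 < n) {v : ℝ} (h0 : 0 < v) (y : Fin n × Fin n → Bool) (b : Fin n) :
    0 < rr v y b := by
  have : (0:ℝ) < n := Nat.cast_pos.2 hn
  unfold rr
  have : 0 ≤ ∑ a ∈ Iio b, xi v (y (a, b)) ^ 2 := sum_nonneg fun a _ => sq_nonneg _
  positivity

theorem boundC2 (hn : 0 < n) (v μ : ℝ) (h0 : 0 < v) (h1 : v ≤ 1) :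
    Ex v (fun y : Fin n × Fin n → Bool => ∏ w, (if 16 * μ ^ 2 * ∑ b ∈ Iio w, rr v y b ≤ 1 then
      Real.exp (2 * μ ^ 2 * ∑ b ∈ Iio w, Lam v y b w ^ 2) else 0)) ≤ Real.exp (4 * n) := by
  have hrI : ∀ (b : Fin n) (e : Fin n × Fin n), b ≠ e.2 → Ind (fun y => rr v y b) e := by
    intro b e hb
    have : Ind (fun y : Fin n × Fin n → Bool => ∑ a ∈ Iio b, xi v (y (a, b)) ^ 2) e :=
      Ind.sum fun a _ => Ind.coord (fun h => hb (by rw [← h])) (fun x => xi v x ^ 2)
    exact this.comp (fun x => x + v * n)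
  have := prod_bound (v := v) (fun w : Fin n => w.val)
    (fun w y => (if 16 * μ ^ 2 * ∑ b ∈ Iio w, rr v y b ≤ 1 then
      Real.exp (2 * μ ^ 2 * ∑ b ∈ Iio w, Lam v y b w ^ 2) else 0))
    (fun w => univ.filter (fun e : Fin n × Fin n => e.2 = w)) (Real.exp 4) (Real.exp_pos _).le
    (fun w y => by split_ifs; exact (Real.exp_pos _).le; exact le_rfl) ?_ ?_ univ
  · rw [card_univ, Fintype.card_fin, ← Real.exp_nat_mul, mul_comm (n:ℝ) 4] at this
    exact this
  · intro w G hG0 hG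
    let I : (Fin n × Fin n → Bool) → ℝ := fun y =>
      if 16 * μ ^ 2 * ∑ b ∈ Iio w, rr v y b ≤ 1 then 1 else 0
    have hI0 : ∀ y, 0 ≤ I y := fun y => by simp only [I]; split_ifs <;> norm_num
    have hI1 : ∀ y, I y ≤ 1 := fun y => by simp only [I]; split_ifs <;> norm_num
    have hII : ∀ e : Fin n × Fin n, e.2 = w → Ind I e := by
      intro e he
      have : Ind (fun y : Fin n × Fin n → Bool => ∑ b ∈ Iio w, rr v y b) e :=
        Ind.sum fun b hb => hrI b e (by rw [he]; exact (mem_Iio.1 hb).ne)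
      exact this.comp (fun x => if 16 * μ ^ 2 * x ≤ 1 then 1 else 0)
    let Z : Fin n → (Fin n × Fin n → Bool) → ℝ := fun b y => Lam v y b w / Real.sqrt (rr v y b)
    let t : Fin n → (Fin n × Fin n → Bool) → ℝ := fun b y => 16 * μ ^ 2 * rr v y b
    have ht0 : ∀ b y, 0 ≤ t b y := fun b y => by
      have := rr_pos hn h0 y b
      simp only [t]; positivity
    have hq : ∀ b ∈ Iio w, Ex v (fun y => (G y * (I y * t b y)) * Real.exp (Z b y ^ 2 / 8))
        ≤ Real.exp 4 * Ex v (fun y => G y * (I y * t b y)) := by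
      intro b hb
      have hbw : b < w := mem_Iio.1 hb
      have hG'0 : ∀ y, 0 ≤ G y * (I y * t b y) := fun y =>
        mul_nonneg (hG0 y) (mul_nonneg (hI0 y) (ht0 b y))
      have := quad_exp h0.le h1 (fun y => G y * (I y * t b y)) (Z b) (∑ y, |Z b y|) hG'0 ?_
      · refine le_trans (le_of_eq ?_) this
        congr 1; funext y
        rw [if_pos (single_le_sum (f := fun y => |Z b y|) (fun y _ => abs_nonneg _) (mem_univ y))]
      · intro s _
        have hmem : ∀ e ∈ (Iio b).map (colE w), e.2 = w := by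
          intro e he
          obtain ⟨a, _, rfl⟩ := mem_map.1 he
          rfl
        have hL : ∀ (e e' : Fin n × Fin n), e'.2 = w →
            Ind (fun y : Fin n × Fin n → Bool => s * xi v (y (e.1, b)) / Real.sqrt (rr v y b)) e' := by
          intro e e' he'
          have hne : b ≠ e'.2 := by rw [he']; exact hbw.ne
          exact (Ind.coord (e' := (e.1, b)) (fun h => hne (by rw [← h])) (xi v)).comp₂ (hrI b e' hne)
            (fun x z => s * x / Real.sqrt z)
        have := lin_mgf h0.le h1 (fun y => G y * (I y * t b y))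
          (fun e y => s * xi v (y (e.1, b)) / Real.sqrt (rr v y b))
          (fun e y => (s * xi v (y (e.1, b)) / Real.sqrt (rr v y b)) ^ 2 / 2) hG'0
          ((Iio b).map (colE w)) (s ^ 2 / 2)
          (fun e he => (hG e (mem_filter.2 ⟨mem_univ _, hmem e he⟩)).mul ((hII e (hmem e he)).mul
            ((hrI b e (by rw [hmem e he]; exact hbw.ne)).comp (fun x => 16 * μ ^ 2 * x))))
          (fun e _ e' he' => ⟨hL e e' (hmem e' he'), (hL e e' (hmem e' he')).comp (fun x => x ^ 2 / 2)⟩)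
          (fun e _ y => mgf_hoeff h0.le h1 _) ?_
        · refine le_trans (le_of_eq ?_) this
          congr 1; funext y
          congr 2
          rw [sum_map]
          simp only [Z, Lam, colE, Function.Embedding.coeFn_mk, sum_div, mul_sum]
          exact sum_congr rfl fun a _ => by ring
        · intro y
          rw [sum_map]
          simp only [colE, Function.Embedding.coeFn_mk]
          have hr := rr_pos hn h0 y b
          have e1 : ∀ a, (s * xi v (y (a, b)) / Real.sqrt (rr v y b)) ^ 2 / 2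
              = s ^ 2 / 2 / rr v y b * xi v (y (a, b)) ^ 2 := by
            intro a; rw [div_pow, Real.sq_sqrt hr.le]; ring
          simp only [e1]
          rw [← mul_sum]
          have e2 : ∑ a ∈ Iio b, xi v (y (a, b)) ^ 2 ≤ rr v y b := by
            unfold rr
            have : 0 ≤ v * n := by positivity
            linarith
          calc _ ≤ s ^ 2 / 2 / rr v y b * rr v y b := mul_le_mul_of_nonneg_left e2 (by positivity)
            _ = _ := by field_simp
    have hpt : ∀ y, G y * (if 16 * μ ^ 2 * ∑ b ∈ Iio w, rr v y b ≤ 1 then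
        Real.exp (2 * μ ^ 2 * ∑ b ∈ Iio w, Lam v y b w ^ 2) else 0)
        ≤ ∑ b ∈ Iio w, (G y * (I y * t b y)) * Real.exp (Z b y ^ 2 / 8)
          + Real.exp 4 * (G y * (I y * (1 - ∑ b ∈ Iio w, t b y))) := by
      intro y
      simp only [I]
      split_ifs with hc
      · have hsum : ∑ b ∈ Iio w, t b y ≤ 1 := by simp only [t]; rw [← mul_sum]; exact hc
        have hj := jensen_sub (Iio w) (fun b => t b y) (fun b => Z b y ^ 2 / 8)
          (fun b _ => ht0 b y) hsum
        have e1 : ∑ b ∈ Iio w, t b y * (Z b y ^ 2 / 8) = 2 * μ ^ 2 * ∑ b ∈ Iio w, Lam v y b w ^ 2 := by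
          rw [mul_sum]
          refine sum_congr rfl fun b _ => ?_
          have hr := rr_pos hn h0 y b
          simp only [t, Z]
          rw [div_pow, Real.sq_sqrt hr.le]; field_simp; ring
        rw [e1] at hj
        have e2 : ∑ b ∈ Iio w, (G y * (1 * t b y)) * Real.exp (Z b y ^ 2 / 8)
            = G y * ∑ b ∈ Iio w, t b y * Real.exp (Z b y ^ 2 / 8) := by
          rw [mul_sum]; exact sum_congr rfl fun b _ => by ring
        rw [e2]
        have e3 : (1:ℝ) ≤ Real.exp 4 := Real.one_le_exp (by norm_num)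
        have e4 : 0 ≤ G y * (1 - ∑ b ∈ Iio w, t b y) := mul_nonneg (hG0 y) (by linarith)
        nlinarith [mul_le_mul_of_nonneg_left hj (hG0 y)]
      · simp
    refine (Ex_mono h0.le h1 hpt).trans ?_
    rw [Ex_add, Ex_sum, Ex_const_mul]
    refine le_trans (add_le_add_left (sum_le_sum hq) _) ?_
    rw [← mul_sum, ← mul_add, ← Ex_sum, ← Ex_add]
    apply mul_le_mul_of_nonneg_left _ (Real.exp_pos _).le
    apply Ex_mono h0.le h1
    intro y
    rw [← mul_sum, ← mul_sum, ← mul_add, ← mul_add]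
    have : ∑ b ∈ Iio w, t b y + (1 - ∑ b ∈ Iio w, t b y) = 1 := by ring
    rw [this, mul_one]
    nlinarith [hG0 y, hI1 y]
  · intro w w' hne hle e he
    have he2 : e.2 = w := (mem_filter.1 he).2
    have hlt : w' < w := lt_of_le_of_ne hle hne
    have a1 : Ind (fun y : Fin n × Fin n → Bool => ∑ b ∈ Iio w', rr v y b) e :=
      Ind.sum fun b hb => hrI b e (by rw [he2]; exact ((mem_Iio.1 hb).trans hlt).ne)
    have a2 : Ind (fun y : Fin n × Fin n → Bool => ∑ b ∈ Iio w', Lam v y b w' ^ 2) e := by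
      refine Ind.sum fun b hb => Ind.comp (F := fun y => Lam v y b w') ?_ (fun x => x ^ 2)
      refine Ind.sum fun a _ => Ind.mul (Ind.coord ?_ (xi v)) (Ind.coord ?_ (xi v))
      · intro h; rw [← h] at he2; exact ((mem_Iio.1 hb).trans hlt).ne he2
      · intro h; rw [← h] at he2; exact hlt.ne he2
    exact a1.comp₂ a2 (fun x z => if 16 * μ ^ 2 * x ≤ 1 then Real.exp (2 * μ ^ 2 * z) else 0)

theorem sum_dg (y : Fin n × Fin n → Bool) (g : Bool → ℝ) :
    ∑ a, ∑ b, Sy g y a b = 2 * ∑ w, ∑ b ∈ Iio w, g (y (b, w)) := by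
  have h : ∀ a b, Sy g y a b = (if a < b then g (y (a, b)) else 0) + (if b < a then g (y (b, a)) else 0) := by
    intro a b; unfold Sy
    by_cases h : a < b
    · simp [h, h.not_gt]
    · simp [h]
  have h2 : ∀ w : Fin n, ∑ b ∈ Iio w, g (y (b, w)) = ∑ b, if b < w then g (y (b, w)) else 0 := by
    intro w; rw [← sum_filter]; congr 1; ext b; simp
  simp only [h, h2, sum_add_distrib]
  rw [sum_comm]; ring

theorem boundC (hn : 0 < n) (v μ : ℝ) (h0 : 0 < v) (h1 : v ≤ 1) (hμ : 96 * μ ^ 2 * v * n ^ 2 ≤ 1) :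
    Ex v (fun y : Fin n × Fin n → Bool => if ∑ a, dg y a ≤ 4 * v * n ^ 2 then
      Real.exp (μ * Cub v y) else 0) ≤ Real.exp (4 * n) := by
  have c1 := boundC1 (n := n) v μ h0.le h1
  have c2 := boundC2 hn v μ h0 h1
  have hnR : (0:ℝ) < n := Nat.cast_pos.2 hn
  have e3 : (1:ℝ) ≤ Real.exp (4 * n) := Real.one_le_exp (by positivity)
  refine le_trans (Ex_mono h0.le h1 (G := fun y => (1 / 2) * Real.exp (2 * (μ * Cub v y)
      - 2 * μ ^ 2 * ∑ w, ∑ b ∈ Iio w, Lam v y b w ^ 2) + (1 / 2) *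
      ∏ w, (if 16 * μ ^ 2 * ∑ b ∈ Iio w, rr v y b ≤ 1 then
      Real.exp (2 * μ ^ 2 * ∑ b ∈ Iio w, Lam v y b w ^ 2) else 0)) ?_) ?_
  · intro y
    have hp : 0 ≤ ∏ w, (if 16 * μ ^ 2 * ∑ b ∈ Iio w, rr v y b ≤ 1 then
        Real.exp (2 * μ ^ 2 * ∑ b ∈ Iio w, Lam v y b w ^ 2) else 0) :=
      prod_nonneg fun w _ => by split_ifs; exact (Real.exp_pos _).le; exact le_rfl
    split_ifs with hA
    swap
    · have := Real.exp_pos (2 * (μ * Cub v y) - 2 * μ ^ 2 * ∑ w, ∑ b ∈ Iio w, Lam v y b w ^ 2)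
      linarith
    have hR : ∑ b, rr v y b ≤ 6 * v * n ^ 2 := by
      have f1 := sum_dg y ind
      have f2 : ∀ b, rr v y b ≤ ∑ a ∈ Iio b, ind (y (a, b)) + 2 * v * n := by
        intro b
        unfold rr
        have g1 : ∑ a ∈ Iio b, xi v (y (a, b)) ^ 2 ≤ ∑ a ∈ Iio b, (ind (y (a, b)) + v) :=
          sum_le_sum fun a _ => xi_sq_le h0.le h1 _
        rw [sum_add_distrib, sum_const, nsmul_eq_mul] at g1
        have g2 : ((Iio b).card : ℝ) ≤ n := by
          have := card_le_univ (Iio b)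
          rw [Fintype.card_fin] at this
          exact_mod_cast this
        nlinarith
      have f3 : ∑ b, rr v y b ≤ ∑ b, (∑ a ∈ Iio b, ind (y (a, b)) + 2 * v * n) :=
        sum_le_sum fun b _ => f2 b
      rw [sum_add_distrib, sum_const, card_univ, Fintype.card_fin, nsmul_eq_mul] at f3
      simp only [dg] at hA
      have : 0 ≤ v * n ^ 2 := by positivity
      nlinarith
    have hc : ∀ w : Fin n, 16 * μ ^ 2 * ∑ b ∈ Iio w, rr v y b ≤ 1 := by
      intro w
      have : ∑ b ∈ Iio w, rr v y b ≤ ∑ b, rr v y b :=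
        sum_le_sum_of_subset_of_nonneg (subset_univ _) fun b _ _ => (rr_pos hn h0 y b).le
      nlinarith [mul_le_mul_of_nonneg_left (this.trans hR) (show 0 ≤ 16 * μ ^ 2 by positivity)]
    simp only [hc, if_true]
    rw [← Real.exp_sum, ← mul_sum]
    set A := μ * Cub v y
    set B := 2 * μ ^ 2 * ∑ w, ∑ b ∈ Iio w, Lam v y b w ^ 2
    have := convexOn_exp.2 (Set.mem_univ (2 * A - B)) (Set.mem_univ B) (show (0:ℝ) ≤ 1 / 2 by norm_num)
      (show (0:ℝ) ≤ 1 / 2 by norm_num) (by norm_num)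
    simp only [smul_eq_mul] at this
    rwa [show 1 / 2 * (2 * A - B) + 1 / 2 * B = A by ring] at this
  · rw [Ex_add, Ex_const_mul, Ex_const_mul]
    linarith

end Pool.Agent.H44.ET
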