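import Pool.Agent.H44.ET3

namespace Pool.Agent.H44.ET
open Finset

variable {n : ℕ}

theorem sym6 (F : Fin n → Fin n → Fin n → ℝ) (h1 : ∀ a b c, F a b c = F b a c)
    (h2 : ∀ a b c, F a b c = F a c b) (h0 : ∀ a c, F a a c = 0) :
    ∑ a, ∑ b, ∑ c, F a b c = 6 * ∑ a, ∑ b, ∑ c, if a < b ∧ b < c then F a b c else 0 := by
  set G : Fin n → Fin n → Fin n → ℝ := fun a b c => if a < b ∧ b < c then F a b c else 0 with hG
  have hp : ∀ a b c, F a b c = G a b c + G a c b + G b a c + G b c a + G c a b + G c b a := by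
    intro a b c
    have e1 : F a c b = F a b c := (h2 _ _ _).symm
    have e2 : F b a c = F a b c := (h1 _ _ _).symm
    have e3 : F b c a = F a b c := by rw [h2, h1]
    have e4 : F c a b = F a b c := by rw [h1, h2]
    have e5 : F c b a = F a b c := by rw [h2, h1, h2]
    simp only [hG, e1, e2, e3, e4, e5]
    by_cases hab : a = b
    · subst hab; simp [h0]
    by_cases hac : a = c
    · subst hac; rw [h2, h0]; simp
    by_cases hbc : b = c
    · subst hbc; rw [← e3, h0]; simp
    simp only [Fin.lt_def, Fin.ext_iff] at *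
    split_ifs <;> first | (exfalso; omega) | ring
  have s1 : ∑ a, ∑ b, ∑ c, G a c b = ∑ a, ∑ b, ∑ c, G a b c := sum_congr rfl fun a _ => sum_comm
  have s2 : ∑ a, ∑ b, ∑ c, G b a c = ∑ a, ∑ b, ∑ c, G a b c := sum_comm
  have s3 : ∑ a, ∑ b, ∑ c, G b c a = ∑ a, ∑ b, ∑ c, G a b c := by
    rw [sum_comm]; exact sum_congr rfl fun a _ => sum_comm
  have s4 : ∑ a, ∑ b, ∑ c, G c a b = ∑ a, ∑ b, ∑ c, G a b c := by
    rw [sum_congr rfl fun a _ => sum_comm]; exact sum_comm
  have s5 : ∑ a, ∑ b, ∑ c, G c b a = ∑ a, ∑ b, ∑ c, G a b c := by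
    rw [sum_comm, sum_congr rfl fun a _ => sum_comm]; exact sum_comm
  rw [sum_congr rfl fun a _ => sum_congr rfl fun b _ => sum_congr rfl fun c _ => hp a b c]
  simp only [sum_add_distrib, s1, s2, s3, s4, s5]
  ring

theorem sorted_sum (F : Fin n → Fin n → Fin n → ℝ) :
    (∑ a, ∑ b, ∑ c, if a < b ∧ b < c then F a b c else 0)
      = ∑ w, ∑ b ∈ Iio w, ∑ a ∈ Iio b, F a b w := by
  have h2 : ∀ (w : Fin n) (g : Fin n → ℝ), ∑ b ∈ Iio w, g b = ∑ b, if b < w then g b else 0 := by
    intro w g; rw [← sum_filter]; congr 1; ext b; simp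
  simp only [h2]
  rw [sum_comm, sum_congr rfl fun a _ => sum_comm, sum_comm]
  refine sum_congr rfl fun w _ => sum_congr rfl fun b _ => ?_
  by_cases hb : b < w <;> simp [hb]

open Classical in
/-- Adjacency indicator. -/
noncomputable def AG (G : SimpleGraph (Fin n)) (a b : Fin n) : ℝ := if G.Adj a b then 1 else 0

/-- Edge count. -/
noncomputable def eG (G : SimpleGraph (Fin n)) : ℝ := (∑ a, ∑ b, AG G a b) / 2
/-- Triangle count. -/
noncomputable def tG (G : SimpleGraph (Fin n)) : ℝ := (∑ a, ∑ b, ∑ c, AG G a b * AG G a c * AG G b c) / 6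

theorem AG_symm (G : SimpleGraph (Fin n)) (a b : Fin n) : AG G a b = AG G b a := by
  unfold AG; rw [G.adj_comm]

theorem edge_card (G : SimpleGraph (Fin n)) [i : Fintype G.edgeSet] :
    (G.edgeFinset.card : ℝ) = eG G := by
  classical
  have h := G.two_mul_card_edgeFinset
  have hi : i = G.fintypeEdgeSet := Subsingleton.elim _ _
  subst hi
  have h' : (2:ℝ) * (G.edgeFinset.card : ℝ) = ∑ a, ∑ b, AG G a b := by
    have := congrArg (Nat.cast : ℕ → ℝ) h
    push_cast at this
    rw [this, card_filter, Fintype.sum_prod_type]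
    push_cast
    exact sum_congr rfl fun a _ => sum_congr rfl fun b _ => by simp [AG]
  unfold eG; linarith

theorem tri_card (G : SimpleGraph (Fin n)) [DecidableRel G.Adj] :
    ((G.cliqueFinset 3).card : ℝ) = tG G := by
  have h6 := sym6 (fun a b c => AG G a b * AG G a c * AG G b c)
    (fun a b c => by rw [AG_symm G b a]; ring) (fun a b c => by rw [AG_symm G c b]; ring)
    (fun a c => by simp [AG])
  have hc : (univ.filter fun p : Fin n × Fin n × Fin n => (p.1 < p.2.1 ∧ p.2.1 < p.2.2) ∧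
      G.Adj p.1 p.2.1 ∧ G.Adj p.1 p.2.2 ∧ G.Adj p.2.1 p.2.2).card = (G.cliqueFinset 3).card := by
    apply card_bij (fun p _ => ({p.1, p.2.1, p.2.2} : Finset (Fin n)))
    · intro p hp
      rw [SimpleGraph.mem_cliqueFinset_iff, SimpleGraph.is3Clique_triple_iff]
      exact (mem_filter.1 hp).2.2
    · rintro ⟨a, b, c⟩ hp ⟨a', b', c'⟩ hp' h
      have k1 := (mem_filter.1 hp).2.1
      have k2 := (mem_filter.1 hp').2.1
      have m1 := (Finset.ext_iff.1 h a).1 (by simp)
      have m2 := (Finset.ext_iff.1 h b).1 (by simp)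
      have m3 := (Finset.ext_iff.1 h c).1 (by simp)
      simp only [mem_insert, mem_singleton, Fin.ext_iff, Fin.lt_def, Prod.mk.injEq] at k1 k2 m1 m2 m3 ⊢
      omega
    · intro s hs
      rw [SimpleGraph.mem_cliqueFinset_iff, SimpleGraph.is3Clique_iff] at hs
      obtain ⟨a, b, c, hab, hac, hbc, rfl⟩ := hs
      have key : ∀ x y z : Fin n, x < y → y < z → G.Adj x y → G.Adj x z → G.Adj y z →
          ({x, y, z} : Finset (Fin n)) = {a, b, c} →
          ∃ (p : Fin n × Fin n × Fin n) (_ : p ∈ univ.filter fun p : Fin n × Fin n × Fin n =>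
            (p.1 < p.2.1 ∧ p.2.1 < p.2.2) ∧ G.Adj p.1 p.2.1 ∧ G.Adj p.1 p.2.2 ∧ G.Adj p.2.1 p.2.2),
            ({p.1, p.2.1, p.2.2} : Finset (Fin n)) = {a, b, c} :=
        fun x y z h1 h2 h3 h4 h5 h6 => ⟨(x, y, z), mem_filter.2 ⟨mem_univ _, ⟨h1, h2⟩, h3, h4, h5⟩, h6⟩
      rcases lt_or_gt_of_ne hab.ne with h1 | h1 <;> rcases lt_or_gt_of_ne hac.ne with h2 | h2 <;>
        rcases lt_or_gt_of_ne hbc.ne with h3 | h3
      · exact key a b c h1 h3 hab hac hbc rfl
      · exact key a c b h2 h3 hac hab hbc.symm (by ext; simp; tauto)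
      · exact absurd (h1.trans h3) h2.not_gt
      · exact key c a b h2 h1 hac.symm hbc.symm hab (by ext; simp; tauto)
      · exact key b a c h1 h2 hab.symm hbc hac (by ext; simp; tauto)
      · exact absurd (h2.trans h3) h1.not_gt
      · exact key b c a h3 h2 hbc hab.symm hac.symm (by ext; simp; tauto)
      · exact key c b a h3 h1 hbc.symm hac.symm hab.symm (by ext; simp; tauto)
  unfold tG
  rw [h6, ← hc, card_filter, Fintype.sum_prod_type]
  push_cast
  rw [mul_div_cancel_left₀ _ (by norm_num)]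
  refine sum_congr rfl fun a _ => ?_
  rw [Fintype.sum_prod_type]
  refine sum_congr rfl fun b _ => sum_congr rfl fun c _ => ?_
  simp only [AG]
  by_cases h1 : a < b ∧ b < c <;> by_cases h2 : G.Adj a b <;> by_cases h3 : G.Adj a c <;>
    by_cases h4 : G.Adj b c <;> simp [h1, h2, h3, h4]

/-- The graph whose non-edges are the `true` pairs. -/
def Gam (y : Fin n × Fin n → Bool) : SimpleGraph (Fin n) where
  Adj a b := (a < b ∧ y (a, b) = false) ∨ (b < a ∧ y (b, a) = false)
  symm := ⟨fun _ _ h => h.symm⟩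
  loopless := ⟨fun a h => by simp at h⟩

theorem AG_Gam (y : Fin n × Fin n → Bool) (a b : Fin n) :
    AG (Gam y) a b = Sy (fun b => 1 - ind b) y a b := by
  unfold AG Sy Gam
  rcases lt_trichotomy a b with h | h | h
  · cases hy : y (a, b) <;> simp [h, h.not_gt, ind, hy]
  · subst h; simp
  · cases hy : y (b, a) <;> simp [h, h.not_gt, ind, hy]

open Classical in
/-- The law of the graph. -/
noncomputable def nu (v : ℝ) (G : SimpleGraph (Fin n)) : ℝ :=
  ∏ e : Fin n × Fin n, if e.1 < e.2 then (if G.Adj e.1 e.2 then 1 - v else v) else 1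

theorem push (v : ℝ) (F : SimpleGraph (Fin n) → ℝ) [Fintype (SimpleGraph (Fin n))] :
    Ex v (fun y => F (Gam y)) = ∑ G, nu v G * F G := by
  classical
  have h1 : ∀ y : Fin n × Fin n → Bool, F (Gam y) = ∑ G, F G * ∏ e : Fin n × Fin n,
      (if e.1 < e.2 then (if (y e = false ↔ G.Adj e.1 e.2) then (1:ℝ) else 0) else 1) := by
    intro y
    rw [sum_eq_single (Gam y)]
    · rw [prod_eq_one, mul_one]
      intro e _
      by_cases he : e.1 < e.2
      · simp [he, Gam, he.not_gt]
      · simp [he]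
    · intro G _ hG
      by_contra hne
      apply hG
      have hp := right_ne_zero_of_mul hne
      rw [prod_ne_zero_iff] at hp
      have hq : ∀ a b : Fin n, a < b → (y (a, b) = false ↔ G.Adj a b) := by
        intro a b hab
        have := hp (a, b) (mem_univ _)
        by_contra hh
        simp only [hab, if_true, hh, if_false] at this
        exact this rfl
      ext a b
      rcases lt_trichotomy a b with h | h | h
      · simp [Gam, h, h.not_gt, hq a b h]
      · subst h; simp
      · simp [Gam, h, h.not_gt, hq b a h, G.adj_comm]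
    · intro h; exact absurd (mem_univ _) h
  simp only [h1]
  rw [Ex_sum]
  refine sum_congr rfl fun G _ => ?_
  rw [Ex_const_mul, Ex_prod v (fun (e : Fin n × Fin n) (b : Bool) =>
    (if e.1 < e.2 then (if (b = false ↔ G.Adj e.1 e.2) then (1:ℝ) else 0) else 1)), mul_comm]
  congr 1
  unfold nu
  refine prod_congr rfl fun e _ => ?_
  by_cases he : e.1 < e.2 <;> by_cases ha : G.Adj e.1 e.2 <;> simp [he, ha]

/-- Number of `true` pairs. -/
noncomputable def mm (y : Fin n × Fin n → Bool) : ℝ := ∑ w, ∑ b ∈ Iio w, ind (y (b, w))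

/-- Off-diagonal indicator. -/
noncomputable def Of (a b : Fin n) : ℝ := if a = b then 0 else 1

theorem sum_Of (a : Fin n) : ∑ b, Of a b = n - 1 := by
  have : ∀ b, Of a b = 1 - if a = b then 1 else 0 := by
    intro b; unfold Of; split_ifs <;> simp
  simp [this, sum_sub_distrib]

theorem Sy_one (y : Fin n × Fin n → Bool) (c : ℝ) (a b : Fin n) : Sy (fun _ => c) y a b = c * Of a b := by
  unfold Sy Of
  rcases lt_trichotomy a b with h | h | h
  · simp [h, h.ne]
  · simp [h]
  · simp [h, h.not_gt, h.ne']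

theorem pairs (c : ℝ) : ∑ w : Fin n, ∑ _b ∈ Iio w, c = c * (n * (n - 1) / 2) := by
  have := sum_dg (n := n) (fun _ => true) (fun _ => c)
  simp only [Sy_one, ← mul_sum, sum_Of] at this
  simp only [sum_const, card_univ, Fintype.card_fin, nsmul_eq_mul] at this ⊢
  linarith

theorem eG_Gam (y : Fin n × Fin n → Bool) : eG (Gam y) = n * (n - 1) / 2 - mm y := by
  unfold eG mm
  simp only [AG_Gam]
  rw [sum_dg]
  simp only [sum_sub_distrib]
  rw [pairs]; ring

theorem nu_Gam {v : ℝ} (h0 : 0 < v) (h1 : v < 1) (y : Fin n × Fin n → Bool) :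
    nu v (Gam y) = Real.exp (mm y * Real.log v + (n * (n - 1) / 2 - mm y) * Real.log (1 - v)) := by
  have h : ∀ e : Fin n × Fin n, (if e.1 < e.2 then (open Classical in if (Gam y).Adj e.1 e.2 then 1 - v else v) else 1)
      = Real.exp (if e.1 < e.2 then ind (y e) * Real.log v + (1 - ind (y e)) * Real.log (1 - v) else 0) := by
    intro e
    by_cases he : e.1 < e.2
    · cases hy : y e
      · simp [he, Gam, hy, ind, Real.exp_log (show 0 < 1 - v by linarith)]
      · simp [he, he.not_gt, Gam, hy, ind, Real.exp_log h0]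
    · simp [he]
  unfold nu
  simp only [h]
  rw [← Real.exp_sum, ← sum_filter, sum_upper (fun e => ind (y e) * Real.log v + (1 - ind (y e)) * Real.log (1 - v))]
  congr 1
  unfold mm
  simp only [sum_add_distrib, ← sum_mul, sum_sub_distrib]
  rw [pairs]; ring

theorem change {v : ℝ} (h0 : 0 < v) (h1 : v < 1) (H Φ : SimpleGraph (Fin n) → ℝ)
    [Fintype (SimpleGraph (Fin n))] :
    ∑ G, Real.exp (H G) * Φ G = Ex v (fun y => Real.exp (H (Gam y)
      - (mm y * Real.log v + (n * (n - 1) / 2 - mm y) * Real.log (1 - v))) * Φ (Gam y)) := by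
  have hpos : ∀ G : SimpleGraph (Fin n), 0 < nu v G := by
    intro G
    unfold nu
    apply prod_pos
    intro e _
    split_ifs <;> linarith
  have := push v (fun G => Real.exp (H G) * Φ G / nu v G)
  rw [sum_congr rfl (fun G _ => mul_div_cancel₀ _ (hpos G).ne')] at this
  rw [← this]
  congr 1; funext y
  rw [nu_Gam h0 h1, Real.exp_sub]; ring

theorem expand (u : ℝ) (X : Fin n → Fin n → ℝ) (hs : ∀ a b, X a b = X b a) (h0 : ∀ a, X a a = 0) :
    ∑ a, ∑ b, ∑ c, (u * Of a b - X a b) * (u * Of a c - X a c) * (u * Of b c - X b c)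
      = u ^ 3 * (n * (n - 1) * (n - 2)) - 3 * u ^ 2 * ((n - 2) * ∑ a, ∑ b, X a b)
        + 3 * u * ∑ a, ((∑ b, X a b) ^ 2 - ∑ b, X a b ^ 2) - ∑ a, ∑ b, ∑ c, X a b * X a c * X b c := by
  have hO : ∀ a b : Fin n, Of a b = Of b a := fun a b => by simp [Of, eq_comm]
  have p1 : ∀ F : Fin n → Fin n → Fin n → ℝ, ∑ a, ∑ b, ∑ c, F a c b = ∑ a, ∑ b, ∑ c, F a b c :=
    fun F => sum_congr rfl fun a _ => sum_comm
  have p2 : ∀ F : Fin n → Fin n → Fin n → ℝ, ∑ a, ∑ b, ∑ c, F b a c = ∑ a, ∑ b, ∑ c, F a b c :=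
    fun F => sum_comm
  have t1 : ∀ Y : Fin n → Fin n → ℝ, (∀ a, Y a a = 0) →
      ∑ a, ∑ b, ∑ c, Y a b * Of a c * Of b c = (n - 2) * ∑ a, ∑ b, Y a b := by
    intro Y hY
    rw [mul_sum]; refine sum_congr rfl fun a _ => ?_
    rw [mul_sum]; refine sum_congr rfl fun b _ => ?_
    by_cases hab : a = b
    · subst hab; simp [hY]
    · have : ∀ c, Y a b * Of a c * Of b c = Y a b * (Of a c - if b = c then 1 else 0) := by
        intro c; unfold Of
        by_cases h1 : a = c <;> by_cases h2 : b = c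
        · exact absurd (h1.trans h2.symm) hab
        all_goals simp [h1, h2]
      simp only [this, ← mul_sum, sum_sub_distrib, sum_Of]
      simp; ring
  have t0 : ∑ a : Fin n, ∑ b, ∑ c, Of a b * Of a c * Of b c = n * (n - 1) * (n - 2) := by
    rw [t1 Of (fun a => by simp [Of])]
    simp only [sum_Of, sum_const, card_univ, Fintype.card_fin, nsmul_eq_mul]; ring
  have t1a := t1 X h0
  have t1b : ∑ a, ∑ b, ∑ c, Of a b * X a c * Of b c = (n - 2) * ∑ a, ∑ b, X a b := by
    rw [← t1a, ← p1]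
    exact sum_congr rfl fun a _ => sum_congr rfl fun b _ => sum_congr rfl fun c _ => by
      rw [hO c b]; ring
  have t1c : ∑ a, ∑ b, ∑ c, Of a b * Of a c * X b c = (n - 2) * ∑ a, ∑ b, X a b := by
    rw [← t1b, ← p2]
    exact sum_congr rfl fun a _ => sum_congr rfl fun b _ => sum_congr rfl fun c _ => by
      rw [hO b a]; ring
  have t2a : ∑ a, ∑ b, ∑ c, X a b * X a c * Of b c = ∑ a, ((∑ b, X a b) ^ 2 - ∑ b, X a b ^ 2) := by
    refine sum_congr rfl fun a _ => ?_
    rw [sq, sum_mul_sum, ← sum_sub_distrib]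
    refine sum_congr rfl fun b _ => ?_
    have : ∀ c, X a b * X a c * Of b c = X a b * X a c - if b = c then X a b * X a c else 0 := by
      intro c; unfold Of; split_ifs <;> simp
    simp only [this, sum_sub_distrib]
    simp [sq]
  have t2b : ∑ a, ∑ b, ∑ c, X a b * Of a c * X b c = ∑ a, ((∑ b, X a b) ^ 2 - ∑ b, X a b ^ 2) := by
    rw [← t2a, ← p2]
    exact sum_congr rfl fun a _ => sum_congr rfl fun b _ => sum_congr rfl fun c _ => by
      rw [hs b a]; ring
  have t2c : ∑ a, ∑ b, ∑ c, Of a b * X a c * X b c = ∑ a, ((∑ b, X a b) ^ 2 - ∑ b, X a b ^ 2) := by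
    rw [← t2b, ← p1]
    exact sum_congr rfl fun a _ => sum_congr rfl fun b _ => sum_congr rfl fun c _ => by
      rw [hs c b]; ring
  have hp : ∀ a b c, (u * Of a b - X a b) * (u * Of a c - X a c) * (u * Of b c - X b c)
      = u ^ 3 * (Of a b * Of a c * Of b c) - u ^ 2 * (X a b * Of a c * Of b c)
        - u ^ 2 * (Of a b * X a c * Of b c) - u ^ 2 * (Of a b * Of a c * X b c)
        + u * (X a b * X a c * Of b c) + u * (X a b * Of a c * X b c)
        + u * (Of a b * X a c * X b c) - X a b * X a c * X b c := fun a b c => by ring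
  simp only [hp, sum_add_distrib, sum_sub_distrib, ← mul_sum]
  rw [t0, t1a, t1b, t1c, t2a, t2b, t2c]
  simp only [sum_sub_distrib]
  ring

end Pool.Agent.H44.ET
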