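import Pool.Agent.H44.ET4

namespace Pool.Agent.H44.ET
open Finset

variable {n : ℕ}

theorem Ex_mul_coord {ι : Type} [Fintype ι] [DecidableEq ι] (v : ℝ) (e : ι) (G : (ι → Bool) → ℝ)
    (g : Bool → ℝ) (hG : Ind G e) :
    Ex v (fun y => G y * g (y e)) = (v * g true + (1 - v) * g false) * Ex v G := by
  rw [Ex_coord v e (fun y b => G y * g b) (fun b => hG.mul (Ind.const _ _)), ← Ex_const_mul]
  congr 1; funext y; ring

theorem Ex_jensen {ι : Type} [Fintype ι] [DecidableEq ι] {v : ℝ} (h0 : 0 ≤ v) (h1 : v ≤ 1)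
    (F : (ι → Bool) → ℝ) : Real.exp (Ex v F) ≤ Ex v (fun y => Real.exp (F y)) := by
  set c := Ex v F with hc
  have h : ∀ y, Real.exp c * (1 - c) + Real.exp c * F y ≤ Real.exp (F y) := by
    intro y
    have := Real.add_one_le_exp (F y - c)
    calc _ = Real.exp c * (F y - c + 1) := by ring
      _ ≤ Real.exp c * Real.exp (F y - c) := mul_le_mul_of_nonneg_left this (Real.exp_pos _).le
      _ = _ := by rw [← Real.exp_add]; congr 1; ring
  refine le_trans (le_of_eq ?_) (Ex_mono h0 h1 h)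
  rw [Ex_add, Ex_const, Ex_const_mul, ← hc]; ring

/-- The mean-field value at non-edge density `v`. -/
noncomputable def cc (n : ℕ) (α h v : ℝ) : ℝ :=
  n * (n - 1) / 2 * (h * (1 - v) - (v * Real.log v + (1 - v) * Real.log (1 - v)))
    + α / n * ((1 - v) ^ 3 * (n * (n - 1) * (n - 2)) / 6)

theorem tG_sorted (y : Fin n × Fin n → Bool) : tG (Gam y) = ∑ w, ∑ b ∈ Iio w, ∑ a ∈ Iio b,
    (1 - ind (y (a, b))) * (1 - ind (y (a, w))) * (1 - ind (y (b, w))) := by
  unfold tG
  rw [sym6 (fun a b c => AG (Gam y) a b * AG (Gam y) a c * AG (Gam y) b c)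
    (fun a b c => by rw [AG_symm _ b a]; ring) (fun a b c => by rw [AG_symm _ c b]; ring)
    (fun a c => by simp [AG]), sorted_sum, mul_div_cancel_left₀ _ (by norm_num)]
  refine sum_congr rfl fun w _ => sum_congr rfl fun b hb => sum_congr rfl fun a ha => ?_
  have h1 := mem_Iio.1 hb
  have h2 := mem_Iio.1 ha
  simp only [AG_Gam, Sy, h1, h2, h2.trans h1, if_true]

theorem triples (c : ℝ) : ∑ w : Fin n, ∑ b ∈ Iio w, ∑ _a ∈ Iio b, c
    = c * (n * (n - 1) * (n - 2)) / 6 := by
  have h := expand (n := n) 1 (fun _ _ => 0) (fun _ _ => rfl) (fun _ => rfl)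
  have hO : ∀ a b : Fin n, Of a b = Of b a := fun a b => by simp [Of, eq_comm]
  simp only [one_mul, sub_zero] at h
  rw [sym6 (fun a b c => Of a b * Of a c * Of b c)
    (fun a b c => by rw [hO b a]; ring) (fun a b c => by rw [hO c b]; ring)
    (fun a c => by simp [Of]), sorted_sum] at h
  have h2 : ∑ w : Fin n, ∑ b ∈ Iio w, ∑ _a ∈ Iio b, c
      = c * ∑ w : Fin n, ∑ b ∈ Iio w, ∑ a ∈ Iio b, Of a b * Of a w * Of b w := by
    simp only [mul_sum]
    refine sum_congr rfl fun w _ => sum_congr rfl fun b hb => sum_congr rfl fun a ha => ?_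
    have h1 := mem_Iio.1 hb
    have h2 := mem_Iio.1 ha
    simp [Of, h1.ne, h2.ne, (h2.trans h1).ne]
  rw [h2]
  simp at h
  have : ∑ w : Fin n, ∑ b ∈ Iio w, ∑ a ∈ Iio b, Of a b * Of a w * Of b w
    = (n * (n - 1) * (n - 2)) / 6 := by linarith
  rw [this]; ring

theorem lower (α h : ℝ) {v : ℝ} (h0 : 0 < v) (h1 : v < 1) [Fintype (SimpleGraph (Fin n))] :
    Real.exp (cc n α h v) ≤ ∑ G : SimpleGraph (Fin n), Real.exp (h * eG G + α / n * tG G) := by
  have hc := change h0 h1 (fun G : SimpleGraph (Fin n) => h * eG G + α / n * tG G) (fun _ => 1)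
  simp only [mul_one] at hc
  rw [hc]
  refine le_trans (le_of_eq ?_) (Ex_jensen h0.le h1.le _)
  congr 1
  have e1 : Ex v (fun y : Fin n × Fin n → Bool => mm y) = v * (n * (n - 1) / 2) := by
    unfold mm
    rw [Ex_sum, ← pairs]
    refine sum_congr rfl fun w _ => ?_
    rw [Ex_sum]
    refine sum_congr rfl fun b _ => ?_
    have := Ex_mul_coord v ((b, w) : Fin n × Fin n) (fun _ => 1) ind (Ind.const _ _)
    simpa [Ex_one, ind] using this
  have e2 : Ex v (fun y : Fin n × Fin n → Bool => tG (Gam y))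
      = (1 - v) ^ 3 * (n * (n - 1) * (n - 2)) / 6 := by
    simp only [tG_sorted]
    rw [Ex_sum, ← triples]
    refine sum_congr rfl fun w _ => ?_
    rw [Ex_sum]
    refine sum_congr rfl fun b hb => ?_
    rw [Ex_sum]
    refine sum_congr rfl fun a ha => ?_
    have k1 := mem_Iio.1 hb
    have k2 := mem_Iio.1 ha
    have n1 : ((a, b) : Fin n × Fin n) ≠ (b, w) := fun h => k2.ne (Prod.ext_iff.1 h).1
    have n2 : ((a, w) : Fin n × Fin n) ≠ (b, w) := fun h => k2.ne (Prod.ext_iff.1 h).1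
    have n3 : ((a, b) : Fin n × Fin n) ≠ (a, w) := fun h => k1.ne (Prod.ext_iff.1 h).2
    rw [Ex_mul_coord v ((b, w) : Fin n × Fin n) _ (fun x => 1 - ind x)
      ((Ind.coord n1 (fun x => 1 - ind x)).mul (Ind.coord n2 (fun x => 1 - ind x))),
      Ex_mul_coord v ((a, w) : Fin n × Fin n) _ (fun x => 1 - ind x) (Ind.coord n3 (fun x => 1 - ind x))]
    have := Ex_mul_coord v ((a, b) : Fin n × Fin n) (fun _ => 1) (fun x => 1 - ind x) (Ind.const _ _)
    simp only [one_mul, Ex_one] at this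
    rw [this]; simp [ind]; ring
  have e3 : ∀ y : Fin n × Fin n → Bool, h * eG (Gam y) + α / n * tG (Gam y)
      - (mm y * Real.log v + (n * (n - 1) / 2 - mm y) * Real.log (1 - v))
      = (n * (n - 1) / 2 * (h - Real.log (1 - v)) + (Real.log (1 - v) - Real.log v - h) * mm y)
        + α / n * tG (Gam y) := by
    intro y; rw [eG_Gam]; ring
  simp only [e3]
  rw [Ex_add, Ex_add, Ex_const, Ex_const_mul, Ex_const_mul, e1, e2]
  unfold cc; ring

theorem jensen4 (a b c d : ℝ) : Real.exp (a + b + c + d) ≤ 1 / 15 * Real.exp (15 * a)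
    + 1 / 15 * Real.exp (15 * b) + 4 / 5 * Real.exp (5 / 4 * c) + 1 / 15 * Real.exp (15 * d) := by
  set x := a + b + c + d with hx
  have h : ∀ z, Real.exp x * (1 + z - x) ≤ Real.exp z := by
    intro z
    have := Real.add_one_le_exp (z - x)
    calc _ = Real.exp x * (z - x + 1) := by ring
      _ ≤ Real.exp x * Real.exp (z - x) := mul_le_mul_of_nonneg_left this (Real.exp_pos _).le
      _ = _ := by rw [← Real.exp_add]; congr 1; ring
  have e : Real.exp x = 1 / 15 * (Real.exp x * (1 + 15 * a - x)) + 1 / 15 * (Real.exp x * (1 + 15 * b - x))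
      + 4 / 5 * (Real.exp x * (1 + 5 / 4 * c - x)) + 1 / 15 * (Real.exp x * (1 + 15 * d - x)) := by
    rw [hx]; ring
  linarith [h (15 * a), h (15 * b), h (5 / 4 * c), h (15 * d)]

theorem row_split (g : Bool → ℝ) (y : Fin n × Fin n → Bool) (w : Fin n) :
    ∑ b, Sy g y w b = ∑ e ∈ (Iio w).map (colE w), g (y e) + ∑ e ∈ (Ioi w).map (rowE w), g (y e) := by
  rw [sum_map, sum_map]
  simp only [colE, rowE, Function.Embedding.coeFn_mk]
  have h1 : ∑ b ∈ Iio w, g (y (b, w)) = ∑ b, if b < w then g (y (b, w)) else 0 := by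
    rw [← sum_filter]; congr 1; ext b; simp
  have h2 : ∑ b ∈ Ioi w, g (y (w, b)) = ∑ b, if w < b then g (y (w, b)) else 0 := by
    rw [← sum_filter]; congr 1; ext b; simp
  rw [h1, h2, ← sum_add_distrib]
  refine sum_congr rfl fun b _ => ?_
  unfold Sy
  by_cases h : w < b
  · simp [h, h.not_gt]
  · simp [h]

theorem Sy_xi (v : ℝ) (y : Fin n × Fin n → Bool) (a b : Fin n) :
    Sy (xi v) y a b = Sy ind y a b - v * Of a b := by
  rw [← Sy_one y]; unfold Sy xi; split_ifs <;> simp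

theorem Sy_compl (v : ℝ) (y : Fin n × Fin n → Bool) (a b : Fin n) :
    Sy (fun b => 1 - ind b) y a b = (1 - v) * Of a b - Sy (xi v) y a b := by
  rw [← Sy_one y]; unfold Sy xi; split_ifs <;> ring

theorem cub_eq (v : ℝ) (y : Fin n × Fin n → Bool) :
    ∑ a, ∑ b, ∑ c, Sy (xi v) y a b * Sy (xi v) y a c * Sy (xi v) y b c = 6 * Cub v y := by
  rw [sym6 (fun a b c => Sy (xi v) y a b * Sy (xi v) y a c * Sy (xi v) y b c)
    (fun a b c => by rw [Sy_symm _ _ b a]; ring) (fun a b c => by rw [Sy_symm _ _ c b]; ring)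
    (fun a c => by simp [Sy_self]), sorted_sum]
  unfold Cub Lam
  congr 1
  refine sum_congr rfl fun w _ => sum_congr rfl fun b hb => ?_
  rw [sum_mul]
  refine sum_congr rfl fun a ha => ?_
  have h1 := mem_Iio.1 hb
  have h2 := mem_Iio.1 ha
  simp only [Sy, h1, h2, h2.trans h1, if_true]

theorem vertex_bound (hn : 0 < n) {v : ℝ} (h0 : 0 < v) (hv : v ≤ 1 / 240) (y : Fin n × Fin n → Bool)
    (w : Fin n) : (∑ b, Sy (xi v) y w b) ^ 2 ≤
      2 * (if ∑ e ∈ (Iio w).map (colE w), ind (y e) ≤ 1 / 240 * n then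
        (∑ e ∈ (Iio w).map (colE w), xi v (y e)) ^ 2 else 0)
      + 2 * (if ∑ e ∈ (Ioi w).map (rowE w), ind (y e) ≤ 1 / 240 * n then
        (∑ e ∈ (Ioi w).map (rowE w), xi v (y e)) ^ 2 else 0)
      + n * (if dg y w ≤ 1 / 240 * n then 0 else dg y w) := by
  have hnR : (1:ℝ) ≤ n := by exact_mod_cast hn
  have s1 := row_split ind y w
  have s2 := row_split (xi v) y w
  have p1 : 0 ≤ ∑ e ∈ (Iio w).map (colE w), ind (y e) := sum_nonneg fun e _ => ind_nonneg _
  have p2 : 0 ≤ ∑ e ∈ (Ioi w).map (rowE w), ind (y e) := sum_nonneg fun e _ => ind_nonneg _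
  by_cases hd : dg y w ≤ 1 / 240 * n
  · have hd' := hd
    unfold dg at hd'
    rw [if_pos hd, if_pos (by linarith), if_pos (by linarith), s2]
    nlinarith [sq_nonneg (∑ e ∈ (Iio w).map (colE w), xi v (y e) - ∑ e ∈ (Ioi w).map (rowE w), xi v (y e))]
  · rw [if_neg hd]
    have q1 : 0 ≤ (if ∑ e ∈ (Iio w).map (colE w), ind (y e) ≤ 1 / 240 * n then
        (∑ e ∈ (Iio w).map (colE w), xi v (y e)) ^ 2 else 0) := by split_ifs <;> positivity
    have q2 : 0 ≤ (if ∑ e ∈ (Ioi w).map (rowE w), ind (y e) ≤ 1 / 240 * n then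
        (∑ e ∈ (Ioi w).map (rowE w), xi v (y e)) ^ 2 else 0) := by split_ifs <;> positivity
    have e1 : ∑ b, Sy (xi v) y w b = dg y w - v * (n - 1) := by
      simp only [Sy_xi, sum_sub_distrib, ← mul_sum, sum_Of, dg]
    have e2 : dg y w ≤ n := by
      unfold dg
      calc _ ≤ ∑ _b : Fin n, (1:ℝ) := sum_le_sum fun b _ => Sy_le_one y w b
        _ = n := by simp
    push Not at hd
    have e3 : 0 ≤ dg y w - v * (n - 1) := by nlinarith
    have e4 : dg y w - v * (n - 1) ≤ dg y w := by nlinarith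
    rw [e1]
    nlinarith

theorem upper (hn : 0 < n) (h : ℝ) {v : ℝ} (h0 : 0 < v) (hv : v * Real.exp 15996 ≤ 1)
    (hst : h + 24000 * (1 - v) ^ 2 = Real.log (1 - v) - Real.log v)
    (f : ℝ → ℝ) (hf1 : ∀ x, f x ≤ 1) (hf0 : ∀ x, x < (1 - v) ^ 3 - v → f x ≤ 0)
    [Fintype (SimpleGraph (Fin n))] :
    ∑ G : SimpleGraph (Fin n), Real.exp (h * eG G + 24000 / n * tG G) * f (6 * tG G / n ^ 3)
      ≤ Real.exp (cc n 24000 h v + 6 * n) := by
  have hnR : (0:ℝ) < n := Nat.cast_pos.2 hn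
  have hn1 : (1:ℝ) ≤ n := by exact_mod_cast hn
  have hbig : (21600 * 24000 ^ 2 : ℝ) ≤ Real.exp 3996 := by
    have := Real.pow_div_factorial_le_exp (x := 3996) (by norm_num) 5
    refine le_trans ?_ this
    norm_num [Nat.factorial]
  have hv2 : v * Real.exp 12000 * (21600 * 24000 ^ 2) ≤ 1 := by
    have : Real.exp 15996 = Real.exp 12000 * Real.exp 3996 := by rw [← Real.exp_add]; norm_num
    rw [this] at hv
    have : v * Real.exp 12000 * (21600 * 24000 ^ 2) ≤ v * Real.exp 12000 * Real.exp 3996 :=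
      mul_le_mul_of_nonneg_left hbig (by positivity)
    linarith
  have hv3 : v * (21600 * 24000 ^ 2) ≤ 1 := by
    have : (1:ℝ) ≤ Real.exp 12000 := Real.one_le_exp (by norm_num)
    nlinarith
  have hv4 : v ≤ 1 / 240 := by nlinarith
  have h1 : v < 1 := by linarith
  rw [change h0 h1]
  have bA1 := boundA n hn v (1 / 240) (15 * 24000) 12000 (fun w => (Iio w).map (colE w))
    (by
      intro w w' hne e he he'
      obtain ⟨a, _, rfl⟩ := mem_map.1 he
      obtain ⟨a', _, h'⟩ := mem_map.1 he'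
      exact hne (Prod.ext_iff.1 h').2)
    (fun w => by rw [card_map]; simpa using card_le_univ (Iio w))
    h0.le hv4 (by norm_num) (by norm_num) (by norm_num)
    (by nlinarith [mul_pos h0 (Real.exp_pos 12000)])
  have bA2 := boundA n hn v (1 / 240) (15 * 24000) 12000 (fun w => (Ioi w).map (rowE w))
    (by
      intro w w' hne e he he'
      obtain ⟨a, _, rfl⟩ := mem_map.1 he
      obtain ⟨a', _, h'⟩ := mem_map.1 he'
      exact hne (Prod.ext_iff.1 h').1)
    (fun w => by rw [card_map]; simpa using card_le_univ (Ioi w))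
    h0.le hv4 (by norm_num) (by norm_num) (by norm_num)
    (by nlinarith [mul_pos h0 (Real.exp_pos 12000)])
  have bB := boundB hn v (1 / 240) 15000 15996 h0.le h1.le (by norm_num) (by norm_num) hv
    (by norm_num) (by nlinarith)
  have bC := boundC hn v (-(15 * 24000 / n)) h0 h1.le (by
    have : 96 * (-(15 * 24000 / n : ℝ)) ^ 2 * v * n ^ 2 = v * (21600 * 24000 ^ 2) := by
      field_simp; ring
    rw [this]; exact hv3)
  set A1 : (Fin n × Fin n → Bool) → ℝ := fun y => Real.exp (∑ w, if ∑ e ∈ (Iio w).map (colE w),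
    ind (y e) ≤ 1 / 240 * n then 15 * 24000 / n * (∑ e ∈ (Iio w).map (colE w), xi v (y e)) ^ 2 else 0)
  set A2 : (Fin n × Fin n → Bool) → ℝ := fun y => Real.exp (∑ w, if ∑ e ∈ (Ioi w).map (rowE w),
    ind (y e) ≤ 1 / 240 * n then 15 * 24000 / n * (∑ e ∈ (Ioi w).map (rowE w), xi v (y e)) ^ 2 else 0)
  set B : (Fin n × Fin n → Bool) → ℝ := fun y => if ∑ a, dg y a ≤ 4 * v * n ^ 2 then
      Real.exp (15000 * ∑ w, if dg y w ≤ 1 / 240 * n then 0 else dg y w) else 0
  set C : (Fin n × Fin n → Bool) → ℝ := fun y => if ∑ a, dg y a ≤ 4 * v * n ^ 2 then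
      Real.exp (-(15 * 24000 / n) * Cub v y) else 0
  refine le_trans (Ex_mono h0.le h1.le (G := fun y => Real.exp (cc n 24000 h v + n) *
    (1 / 15 * A1 y + 1 / 15 * A2 y + 4 / 5 * B y + 1 / 15 * C y)) ?_) ?_
  · intro y
    have hdg : ∑ a, dg y a = 2 * mm y := sum_dg y ind
    by_cases hA : ∑ a, dg y a ≤ 4 * v * n ^ 2
    · refine le_trans (mul_le_of_le_one_right (Real.exp_pos _).le (hf1 _)) ?_
      simp only [A1, A2, B, C, hA, if_true]
      set a1 := ∑ w, if ∑ e ∈ (Iio w).map (colE w), ind (y e) ≤ 1 / 240 * n then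
        (∑ e ∈ (Iio w).map (colE w), xi v (y e)) ^ 2 else 0 with ha1
      set a2 := ∑ w, if ∑ e ∈ (Ioi w).map (rowE w), ind (y e) ≤ 1 / 240 * n then
        (∑ e ∈ (Ioi w).map (rowE w), xi v (y e)) ^ 2 else 0 with ha2
      set a3 := ∑ w, if dg y w ≤ 1 / 240 * n then 0 else dg y w with ha3
      have r1 : (∑ w, if ∑ e ∈ (Iio w).map (colE w), ind (y e) ≤ 1 / 240 * n then
          15 * 24000 / n * (∑ e ∈ (Iio w).map (colE w), xi v (y e)) ^ 2 else 0)
          = 15 * (24000 / n * a1) := by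
        rw [ha1, mul_sum, mul_sum]
        exact sum_congr rfl fun w _ => by split_ifs <;> ring
      have r2 : (∑ w, if ∑ e ∈ (Ioi w).map (rowE w), ind (y e) ≤ 1 / 240 * n then
          15 * 24000 / n * (∑ e ∈ (Ioi w).map (rowE w), xi v (y e)) ^ 2 else 0)
          = 15 * (24000 / n * a2) := by
        rw [ha2, mul_sum, mul_sum]
        exact sum_congr rfl fun w _ => by split_ifs <;> ring
      rw [r1, r2, show 15000 * a3 = 5 / 4 * (12000 * a3) by ring,
        show -(15 * 24000 / n) * Cub v y = 15 * (-(24000 / n) * Cub v y) by ring]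
      refine le_trans ?_ (mul_le_mul_of_nonneg_left (jensen4 _ _ _ _) (Real.exp_pos _).le)
      rw [← Real.exp_add]
      apply Real.exp_le_exp.2
      have hq : ∑ w, (∑ b, Sy (xi v) y w b) ^ 2 ≤ 2 * a1 + 2 * a2 + n * a3 := by
        rw [ha1, ha2, ha3, mul_sum, mul_sum, mul_sum, ← sum_add_distrib, ← sum_add_distrib]
        exact sum_le_sum fun w _ => vertex_bound hn h0 hv4 y w
      have hx := expand (1 - v) (Sy (xi v) y) (Sy_symm _ y) (Sy_self _ y)
      have ht : 6 * tG (Gam y) = ∑ a, ∑ b, ∑ c, ((1 - v) * Of a b - Sy (xi v) y a b)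
          * ((1 - v) * Of a c - Sy (xi v) y a c) * ((1 - v) * Of b c - Sy (xi v) y b c) := by
        unfold tG
        simp only [AG_Gam, Sy_compl v]
        ring
      have hs : ∑ a, ∑ b, Sy (xi v) y a b = 2 * (mm y - v * (n * (n - 1) / 2)) := by
        rw [sum_dg]; unfold mm xi
        simp only [sum_sub_distrib]
        rw [pairs]
      rw [cub_eq, hs, ← ht, sum_sub_distrib] at hx
      have hsq : 0 ≤ ∑ a, ∑ b, Sy (xi v) y a b ^ 2 :=
        sum_nonneg fun a _ => sum_nonneg fun b _ => sq_nonneg _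
      have hQ0 : 0 ≤ ∑ w, (∑ b, Sy (xi v) y w b) ^ 2 := sum_nonneg fun a _ => sq_nonneg _
      set Q := ∑ w, (∑ b, Sy (xi v) y w b) ^ 2
      set R := ∑ a, ∑ b, Sy (xi v) y a b ^ 2
      have hQ : (1 - v) * (Q - R) ≤ 2 * a1 + 2 * a2 + n * a3 := by
        nlinarith only [hq, mul_nonneg h0.le hQ0, mul_nonneg (show 0 ≤ 1 - v by linarith only [h1]) hsq]
      have htG : tG (Gam y) = ((1 - v) ^ 3 * (n * (n - 1) * (n - 2))
          - 3 * (1 - v) ^ 2 * ((n - 2) * (2 * (mm y - v * (n * (n - 1) / 2))))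
          + 3 * (1 - v) * (Q - R) - 6 * Cub v y) / 6 := by linarith only [hx]
      have hlog : Real.log (1 - v) = h + 24000 * (1 - v) ^ 2 + Real.log v := by linarith only [hst]
      have key : h * eG (Gam y) + 24000 / n * tG (Gam y)
          - (mm y * Real.log v + (n * (n - 1) / 2 - mm y) * Real.log (1 - v))
          = cc n 24000 h v + 48000 / n * ((1 - v) ^ 2 * (mm y - v * (n * (n - 1) / 2)))
            + 12000 / n * ((1 - v) * (Q - R)) - 24000 / n * Cub v y := by
        rw [eG_Gam, htG]; unfold cc; rw [hlog]; field_simp; ring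
      rw [key]
      have l1 : (1 - v) ^ 2 * (mm y - v * (n * (n - 1) / 2)) ≤ 2 * v * n ^ 2 := by
        have z1 : 0 ≤ v * (n * (n - 1) / 2) := by
          have : (0:ℝ) ≤ n - 1 := by linarith
          positivity
        have z2 : (1 - v) ^ 2 ≤ 1 := pow_le_one₀ (by linarith only [h1]) (by linarith only [h0])
        have z3 : 0 ≤ 2 * v * n ^ 2 := by positivity
        have z4 : mm y - v * (n * (n - 1) / 2) ≤ 2 * v * n ^ 2 := by linarith only [z1, hA, hdg]
        exact (mul_le_mul_of_nonneg_left z4 (sq_nonneg (1 - v))).trans (mul_le_of_le_one_left z3 z2)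
      have l2 : 48000 / n * ((1 - v) ^ 2 * (mm y - v * (n * (n - 1) / 2))) ≤ n := by
        calc _ ≤ 48000 / n * (2 * v * n ^ 2) := mul_le_mul_of_nonneg_left l1 (by positivity)
          _ = (96000 * v) * n := by field_simp; ring
          _ ≤ 1 * n := mul_le_mul_of_nonneg_right (by linarith only [hv3, h0]) hnR.le
          _ = n := one_mul _
      have l3 : 12000 / n * ((1 - v) * (Q - R)) ≤ 24000 / n * a1 + 24000 / n * a2 + 12000 * a3 := by
        calc _ ≤ 12000 / n * (2 * a1 + 2 * a2 + n * a3) := mul_le_mul_of_nonneg_left hQ (by positivity)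
          _ = _ := by field_simp; ring
      linarith only [l2, l3]
    · have hle : 6 * tG (Gam y) ≤ n * (n ^ 2 - 2 * mm y) := by
        have z1 : 6 * tG (Gam y) ≤ ∑ a, ∑ b, ∑ _c : Fin n, AG (Gam y) a b := by
          unfold tG
          rw [mul_div_cancel₀ _ (by norm_num)]
          refine sum_le_sum fun a _ => sum_le_sum fun b _ => sum_le_sum fun c _ => ?_
          unfold AG; split_ifs <;> norm_num
        simp only [sum_const, card_univ, Fintype.card_fin, nsmul_eq_mul, ← mul_sum] at z1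
        have z2 := eG_Gam y
        unfold eG at z2
        have z3 : ∑ a, ∑ b, AG (Gam y) a b ≤ n ^ 2 - 2 * mm y := by nlinarith only [z2, hnR]
        exact z1.trans (mul_le_mul_of_nonneg_left z3 hnR.le)
      have hlt : 6 * tG (Gam y) / n ^ 3 < (1 - v) ^ 3 - v := by
        rw [div_lt_iff₀ (by positivity)]
        push Not at hA
        have z1 : n * (n ^ 2 - 2 * mm y) < n * (n ^ 2 - 4 * v * n ^ 2) :=
          mul_lt_mul_of_pos_left (by linarith) hnR
        have z2 : 1 - 4 * v ≤ (1 - v) ^ 3 - v := by nlinarith only [sq_nonneg v, h0, h1]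
        have z3 : (1 - 4 * v) * n ^ 3 ≤ ((1 - v) ^ 3 - v) * n ^ 3 :=
          mul_le_mul_of_nonneg_right z2 (by positivity)
        nlinarith only [z1, z3, hle]
      refine le_trans (mul_nonpos_of_nonneg_of_nonpos (Real.exp_pos _).le (hf0 _ hlt)) ?_
      simp only [A1, A2, B, C, hA, if_false]
      positivity
  · rw [Ex_const_mul, Ex_add, Ex_add, Ex_add, Ex_const_mul, Ex_const_mul, Ex_const_mul, Ex_const_mul,
      show cc n 24000 h v + 6 * n = (cc n 24000 h v + n) + 5 * n by ring, Real.exp_add _ (5 * n)]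
    apply mul_le_mul_of_nonneg_left _ (Real.exp_pos _).le
    have z1 : Real.exp n ≤ Real.exp (5 * n) := Real.exp_le_exp.2 (by linarith)
    have z2 : Real.exp (4 * n) ≤ Real.exp (5 * n) := Real.exp_le_exp.2 (by linarith)
    linarith

end Pool.Agent.H44.ET
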