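import Mathlib

namespace Pool.Agent.H44.ET

/-- The scalar functional at `α = 24000`. -/
noncomputable def LL (h u : ℝ) : ℝ :=
  24000 * u ^ 3 / 3 + h * u - (u * Real.log u + (1 - u) * Real.log (1 - u))

theorem LL_cont : Continuous (fun p : ℝ × ℝ => LL p.1 p.2) := by
  unfold LL
  have h1 : Continuous (fun p : ℝ × ℝ => p.2 * Real.log p.2) :=
    Real.continuous_mul_log.comp continuous_snd
  have h2 : Continuous (fun p : ℝ × ℝ => (1 - p.2) * Real.log (1 - p.2)) :=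
    Real.continuous_mul_log.comp (continuous_const.sub continuous_snd)
  exact Continuous.sub (by fun_prop) (h1.add h2)

theorem ent_le_log_two (u : ℝ) : -(u * Real.log u + (1 - u) * Real.log (1 - u)) ≤ Real.log 2 := by
  have := Real.binEntropy_le_log_two (p := u)
  rw [Real.binEntropy_eq_negMulLog_add_negMulLog_one_sub] at this
  simp only [Real.negMulLog] at this
  linarith

theorem neg_mul_log_le {x : ℝ} (h0 : 0 ≤ x) : -(x * Real.log x) ≤ 1 - x := by
  rcases h0.eq_or_lt with h | h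
  · subst h; simp
  · have := Real.one_sub_inv_le_log_of_pos h
    have h2 := mul_le_mul_of_nonneg_left this h0
    rw [mul_sub, mul_inv_cancel₀ h.ne'] at h2
    linarith

theorem log_gap {x y : ℝ} (hx : 0 < x) (hy : 0 < y) : (y - x) / y ≤ Real.log y - Real.log x := by
  rw [← Real.log_div hy.ne' hx.ne']
  have := Real.one_sub_inv_le_log_of_pos (div_pos hy hx)
  rw [inv_div] at this
  rw [sub_div, div_self hy.ne']
  exact this

theorem exists_coex : ∃ h u₁ u₂ : ℝ, -8002 ≤ h ∧ h ≤ -7999 ∧ u₁ ∈ Set.Icc (0:ℝ) (1 / 2) ∧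
    u₂ ∈ Set.Icc (1 / 2 : ℝ) 1 ∧ LL h u₂ = LL h u₁ ∧ ∀ v ∈ Set.Icc (0:ℝ) 1, LL h v ≤ LL h u₁ := by
  have c1 : Continuous fun h : ℝ => sSup (LL h '' Set.Icc (0:ℝ) (1 / 2)) :=
    isCompact_Icc.continuous_sSup LL_cont
  have c2 : Continuous fun h : ℝ => sSup (LL h '' Set.Icc (1 / 2 : ℝ) 1) :=
    isCompact_Icc.continuous_sSup LL_cont
  have cu : ∀ h, Continuous (LL h) := fun h => LL_cont.comp (Continuous.prodMk_right h)
  have m1 := fun h : ℝ => (isCompact_Icc (a := (0:ℝ)) (b := 1 / 2)).exists_sSup_image_eq_and_ge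
    ⟨0, by constructor <;> norm_num⟩ (cu h).continuousOn
  have m2 := fun h : ℝ => (isCompact_Icc (a := (1 / 2:ℝ)) (b := 1)).exists_sSup_image_eq_and_ge
    ⟨1, by constructor <;> norm_num⟩ (cu h).continuousOn
  have hl2 : Real.log 2 < 1 := by linarith [Real.log_two_lt_d9]
  have hivt := intermediate_value_Icc (show (-8002:ℝ) ≤ -7999 by norm_num) (c2.sub c1).continuousOn
  have hmem : (0:ℝ) ∈ Set.Icc
      (sSup (LL (-8002) '' Set.Icc (1 / 2 : ℝ) 1) - sSup (LL (-8002) '' Set.Icc (0:ℝ) (1 / 2)))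
      (sSup (LL (-7999) '' Set.Icc (1 / 2 : ℝ) 1) - sSup (LL (-7999) '' Set.Icc (0:ℝ) (1 / 2))) := by
    constructor
    · obtain ⟨x, _, e1, g1⟩ := m1 (-8002)
      obtain ⟨z, hz, e2, _⟩ := m2 (-8002)
      rw [e1, e2]
      have a1 := g1 0 ⟨le_rfl, by norm_num⟩
      have a2 : LL (-8002) 0 = 0 := by simp [LL]
      have a3 := ent_le_log_two z
      have a4 : z ^ 3 ≤ z := by
        have := hz.1; have := hz.2
        have : z ^ 2 ≤ 1 := by nlinarith
        nlinarith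
      have a5 : LL (-8002) z ≤ 0 := by unfold LL; linarith [hz.1]
      linarith
    · obtain ⟨x, hx, e1, _⟩ := m1 (-7999)
      obtain ⟨z, _, e2, g2⟩ := m2 (-7999)
      rw [e1, e2]
      have a1 := g2 1 ⟨by norm_num, le_rfl⟩
      have a2 : LL (-7999) 1 = 1 := by simp [LL]; norm_num
      have a3 := ent_le_log_two x
      have a4 : x ^ 3 ≤ x / 4 := by
        have := hx.1; have := hx.2
        have : x ^ 2 ≤ 1 / 4 := by nlinarith
        nlinarith
      have a5 : LL (-7999) x ≤ 1 := by unfold LL; linarith [hx.1]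
      linarith
  obtain ⟨h, hh, he⟩ := hivt hmem
  obtain ⟨x, hx, e1, g1⟩ := m1 h
  obtain ⟨z, hz, e2, g2⟩ := m2 h
  simp only [Pi.sub_apply] at he
  rw [e1, e2] at he
  refine ⟨h, x, z, hh.1, hh.2, hx, hz, by linarith, fun v hv => ?_⟩
  rcases le_total v (1 / 2) with h1 | h1
  · exact g1 v ⟨hv.1, h1⟩
  · linarith [g2 v ⟨h1, hv.2⟩]

theorem max_pos {h x : ℝ} (hh : -8002 ≤ h) (hx : x ∈ Set.Icc (0:ℝ) 1)
    (hm : ∀ v ∈ Set.Icc (0:ℝ) 1, LL h v ≤ LL h x) : 0 < x := by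
  rcases hx.1.eq_or_lt with h0 | h0
  swap
  · exact h0
  exfalso
  set d := Real.exp (-8003) with hd
  have d0 : 0 < d := Real.exp_pos _
  have d1 : d ≤ 1 := Real.exp_le_one_iff.2 (by norm_num)
  have a1 := hm d ⟨d0.le, d1⟩
  rw [← h0] at a1
  have a2 : LL h 0 = 0 := by simp [LL]
  have a3 : Real.log d = -8003 := Real.log_exp _
  have a4 : (1 - d) * Real.log (1 - d) ≤ 0 :=
    mul_nonpos_of_nonneg_of_nonpos (by linarith) (Real.log_nonpos (by linarith) (by linarith))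
  rw [a2] at a1
  unfold LL at a1
  rw [a3] at a1
  have : 0 < d ^ 3 := by positivity
  nlinarith

theorem max_lt_one {h x : ℝ} (hh : h ≤ -7999) (hx : x ∈ Set.Icc (0:ℝ) 1)
    (hm : ∀ v ∈ Set.Icc (0:ℝ) 1, LL h v ≤ LL h x) : x < 1 := by
  rcases hx.2.eq_or_lt with h0 | h0
  swap
  · exact h0
  exfalso
  set d := Real.exp (-16002) with hd
  have d0 : 0 < d := Real.exp_pos _
  have d1 : d ≤ 1 := Real.exp_le_one_iff.2 (by norm_num)
  have a1 := hm (1 - d) ⟨by linarith, by linarith⟩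
  rw [h0] at a1
  have a2 : LL h 1 = 8000 + h := by simp [LL]; norm_num
  have a3 : Real.log d = -16002 := Real.log_exp _
  have a4 : (1 - d) * Real.log (1 - d) ≤ 0 :=
    mul_nonpos_of_nonneg_of_nonpos (by linarith) (Real.log_nonpos (by linarith) (by linarith))
  rw [a2] at a1
  unfold LL at a1
  rw [sub_sub_cancel, a3] at a1
  have : 1 - 3 * d ≤ (1 - d) ^ 3 := by nlinarith [sq_nonneg d]
  nlinarith

theorem max_stat {h x : ℝ} (h0 : 0 < x) (h1 : x < 1)
    (hm : ∀ v ∈ Set.Icc (0:ℝ) 1, LL h v ≤ LL h x) :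
    h + 24000 * x ^ 2 = Real.log x - Real.log (1 - x) := by
  have hl : IsLocalMax (LL h) x :=
    IsMaxOn.isLocalMax (s := Set.Icc (0:ℝ) 1) (fun v hv => hm v hv) (Icc_mem_nhds h0 h1)
  have d1 : HasDerivAt (fun u : ℝ => u * Real.log u) (Real.log x + 1) x := Real.hasDerivAt_mul_log h0.ne'
  have d2 : HasDerivAt (fun u : ℝ => (1 - u) * Real.log (1 - u)) ((Real.log (1 - x) + 1) * (-1)) x := by
    have e1 : HasDerivAt (fun u : ℝ => 1 - u) (-1) x := by
      simpa using (hasDerivAt_id x).const_sub 1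
    exact (Real.hasDerivAt_mul_log (show 1 - x ≠ 0 by linarith)).comp x e1
  have d3 : HasDerivAt (fun u : ℝ => 24000 * u ^ 3 / 3 + h * u) (24000 * (3 * x ^ 2) / 3 + h * 1) x := by
    have e1 : HasDerivAt (fun u : ℝ => u ^ 3) (3 * x ^ 2) x := by simpa using hasDerivAt_pow 3 x
    exact ((e1.const_mul 24000).div_const 3).add ((hasDerivAt_id x).const_mul h)
  have d4 : HasDerivAt (LL h) (24000 * (3 * x ^ 2) / 3 + h * 1
      - (Real.log x + 1 + (Real.log (1 - x) + 1) * (-1))) x := d3.sub (d1.add d2)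
  have := hl.hasDerivAt_eq_zero d4
  linarith

theorem small_of_log {x : ℝ} (h0 : 0 < x) (h : Real.log x ≤ -5000) : x ≤ 1 / 100000 := by
  have a1 : x ≤ Real.exp (-5000) := by
    rw [← Real.exp_log h0]; exact Real.exp_le_exp.2 h
  have a2 : (100000:ℝ) ≤ Real.exp 5000 := by
    have := Real.pow_div_factorial_le_exp (x := 5000) (by norm_num) 2
    refine le_trans ?_ this
    norm_num [Nat.factorial]
  rw [Real.exp_neg] at a1
  refine a1.trans ?_
  rw [one_div]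
  exact inv_anti₀ (by norm_num) a2

theorem max_low {h x : ℝ} (hh : h ≤ -7999) (h0 : 0 < x) (h1 : x ≤ 1 / 2)
    (hm : ∀ v ∈ Set.Icc (0:ℝ) 1, LL h v ≤ LL h x) : x ≤ 1 / 100000 := by
  apply small_of_log h0
  have a1 := hm 0 ⟨le_rfl, by norm_num⟩
  have a2 : LL h 0 = 0 := by simp [LL]
  have a3 := neg_mul_log_le (show 0 ≤ 1 - x by linarith)
  rw [a2] at a1
  unfold LL at a1
  have a4 : x ^ 3 ≤ x / 4 := by
    have : x ^ 2 ≤ 1 / 4 := by nlinarith
    nlinarith
  by_contra hc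
  push Not at hc
  nlinarith

theorem max_high {h x : ℝ} (hh : -8002 ≤ h) (h0 : 1 / 2 ≤ x) (h1 : x < 1)
    (hm : ∀ v ∈ Set.Icc (0:ℝ) 1, LL h v ≤ LL h x) :
    1 - x ≤ 1 / 100000 ∧ (1 - x) * Real.exp 15996 ≤ 1 := by
  have w0 : 0 < 1 - x := by linarith
  have a1 := hm 1 ⟨by norm_num, le_rfl⟩
  have a2 : LL h 1 = 8000 + h := by simp [LL]; norm_num
  have a3 := neg_mul_log_le (show 0 ≤ x by linarith)
  rw [a2] at a1
  unfold LL at a1
  have a4 : (1 - x) * (8000 * (1 + x + x ^ 2) + h) ≤ (1 - x) * (1 - Real.log (1 - x)) := by nlinarith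
  have a5 := le_of_mul_le_mul_left a4 w0
  have a6 : 1 - x ≤ 1 / 100000 := small_of_log w0 (by nlinarith)
  refine ⟨a6, ?_⟩
  have a7 : Real.log (1 - x) + 15996 ≤ 0 := by nlinarith
  calc _ = Real.exp (Real.log (1 - x) + 15996) := by rw [Real.exp_add, Real.exp_log w0]
    _ ≤ 1 := Real.exp_le_one_iff.2 a7

theorem uniq_low {h x y : ℝ} (hx : 0 < x) (hxy : x < y) (hy : y ≤ 1 / 100000)
    (e1 : h + 24000 * x ^ 2 = Real.log x - Real.log (1 - x))
    (e2 : h + 24000 * y ^ 2 = Real.log y - Real.log (1 - y)) : False := by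
  have a1 := log_gap hx (hx.trans hxy)
  have a2 : Real.log (1 - y) ≤ Real.log (1 - x) := Real.log_le_log (by linarith) (by linarith)
  have a3 : 100000 * (y - x) ≤ (y - x) / y := by
    rw [le_div_iff₀ (hx.trans hxy)]; nlinarith
  nlinarith

theorem uniq_high {h x y : ℝ} (hx : 1 - x ≤ 1 / 100000) (hxy : x < y) (hy : y < 1)
    (e1 : h + 24000 * x ^ 2 = Real.log x - Real.log (1 - x))
    (e2 : h + 24000 * y ^ 2 = Real.log y - Real.log (1 - y)) : False := by
  have a1 := log_gap (show 0 < 1 - y by linarith) (show 0 < 1 - x by linarith)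
  have a2 : Real.log x ≤ Real.log y := Real.log_le_log (by linarith) hxy.le
  have a3 : 100000 * (y - x) ≤ (1 - x - (1 - y)) / (1 - x) := by
    rw [le_div_iff₀ (by linarith)]; nlinarith
  nlinarith

theorem coex : ∃ h u₁ u₂ : ℝ, 0 < u₁ ∧ u₁ ≤ 1 / 100000 ∧ u₂ < 1 ∧ 1 - u₂ ≤ 1 / 100000 ∧
    (1 - u₂) * Real.exp 15996 ≤ 1 ∧ h + 24000 * u₂ ^ 2 = Real.log u₂ - Real.log (1 - u₂) ∧
    (∀ v ∈ Set.Icc (0:ℝ) 1, LL h v ≤ LL h u₁) ∧ LL h u₂ = LL h u₁ ∧
    ∀ v ∈ Set.Icc (0:ℝ) 1, LL h v = LL h u₁ → v = u₁ ∨ v = u₂ := by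
  obtain ⟨h, x, z, h1, h2, hx, hz, e, hm⟩ := exists_coex
  have hmz : ∀ v ∈ Set.Icc (0:ℝ) 1, LL h v ≤ LL h z := fun v hv => e ▸ hm v hv
  have x0 := max_pos h1 ⟨hx.1, by linarith [hx.2]⟩ hm
  have z1 := max_lt_one h2 ⟨by linarith [hz.1], hz.2⟩ hmz
  have xs := max_low h2 x0 hx.2 hm
  have zs := max_high h1 hz.1 z1 hmz
  have sx := max_stat x0 (by linarith) hm
  have sz := max_stat (by linarith [hz.1]) z1 hmz
  refine ⟨h, x, z, x0, xs, z1, zs.1, zs.2, sz, hm, e, fun v hv ev => ?_⟩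
  have hmv : ∀ w ∈ Set.Icc (0:ℝ) 1, LL h w ≤ LL h v := fun w hw => ev ▸ hm w hw
  have v0 := max_pos h1 hv hmv
  have v1 := max_lt_one h2 hv hmv
  have sv := max_stat v0 v1 hmv
  rcases le_total v (1 / 2) with hv2 | hv2
  · left
    have vs := max_low h2 v0 hv2 hmv
    rcases lt_trichotomy v x with c | c | c
    · exact (uniq_low v0 c xs sv sx).elim
    · exact c
    · exact (uniq_low x0 c vs sx sv).elim
  · right
    have vs := max_high h1 hv2 v1 hmv
    rcases lt_trichotomy v z with c | c | c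
    · exact (uniq_high vs.1 c z1 sv sz).elim
    · exact c
    · exact (uniq_high zs.1 c v1 sz sv).elim

end Pool.Agent.H44.ET
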