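import Pool.Agent.H44.PakDefs2

/-! Relative entropy mixing of continuous-time reversible chains. -/

open Finset

namespace Pool.Agent.H44.Pak

variable {V : Type} [Fintype V] [DecidableEq V]

/-- `K` is an irreducible Markov kernel, reversible for the positive probability vector `π` -/
def IsRevChain (K : Matrix V V ℝ) (π : V → ℝ) : Prop :=
  (∀ x y, 0 ≤ K x y) ∧ (∀ x, ∑ y, K x y = 1) ∧ (∀ x, 0 < π x) ∧ ∑ x, π x = 1 ∧
    (∀ x y, π x * K x y = π y * K y x) ∧ ∀ x y, ∃ k : ℕ, 0 < (K ^ k) x y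

/-- worst-start relative entropy of the heat kernel `H_t = exp (-t (I - K))` -/
noncomputable def entDist (K : Matrix V V ℝ) (π : V → ℝ) (t : ℝ) : ℝ :=
  ⨆ x, ∑ y, heat K t x y * Real.log (heat K t x y / π y)

/-- relative entropy mixing time -/
noncomputable def tEnt (K : Matrix V V ℝ) (π : V → ℝ) (ε : ℝ) : ℝ :=
  sInf {t | 0 ≤ t ∧ entDist K π t ≤ ε}

/-- spectral gap of `I - K`: one minus the largest eigenvalue of `K` having an eigenvector
orthogonal to the constants in `L²(π)` -/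
noncomputable def specGap (K : Matrix V V ℝ) (π : V → ℝ) : ℝ :=
  1 - sSup {l | ∃ f : V → ℝ, f ≠ 0 ∧ ∑ x, π x * f x = 0 ∧ K.mulVec f = l • f}

end Pool.Agent.H44.Pak
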