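import Pool.Agent.H44.Pak5
import Pool.Agent.H44.EntCDefs

open Finset Matrix

namespace Pool.Agent.H44.Pak

variable {V : Type} [Fintype V] [DecidableEq V]

omit [DecidableEq V] in
lemma ent_upper {μ π : V → ℝ} (h0 : ∀ y, 0 ≤ μ y) (h1 : ∑ y, μ y = 1) (hπ : ∀ y, 0 < π y) (z : V)
    {A B : ℝ} (hA : 0 ≤ A) (hz : Real.log (1 / π z) ≤ A) (hB : ∀ y, Real.log (1 / π y) ≤ B) :
    ∑ y, μ y * Real.log (μ y / π y) ≤ A + (1 - μ z) * B := by
  classical
  have hle : ∀ y, μ y ≤ 1 := fun y => h1 ▸ single_le_sum (fun y _ => h0 y) (mem_univ y)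
  have a : ∀ y, μ y * Real.log (μ y / π y) ≤ μ y * Real.log (1 / π y) := by
    intro y
    rcases (h0 y).eq_or_lt with e | e
    · rw [← e]; simp
    · exact mul_le_mul_of_nonneg_left (Real.log_le_log (div_pos e (hπ y))
        (div_le_div_of_nonneg_right (hle y) (hπ y).le)) e.le
  refine (sum_le_sum fun y _ => a y).trans ?_
  rw [← add_sum_erase _ _ (mem_univ z)]
  have b : ∑ y ∈ univ.erase z, μ y * Real.log (1 / π y) ≤ ∑ y ∈ univ.erase z, μ y * B :=
    sum_le_sum fun y _ => mul_le_mul_of_nonneg_left (hB y) (h0 y)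
  rw [← sum_mul] at b
  have c : ∑ y ∈ univ.erase z, μ y = 1 - μ z := by
    rw [← h1, ← add_sum_erase _ _ (mem_univ z)]; ring
  rw [c] at b
  have d : μ z * Real.log (1 / π z) ≤ A := by
    have := mul_le_mul_of_nonneg_left hz (h0 z)
    nlinarith [hle z, h0 z]
  linarith

omit [DecidableEq V] in
lemma ent_lower {μ π : V → ℝ} (h0 : ∀ y, 0 ≤ μ y) (h1 : ∑ y, μ y = 1) (hπ : ∀ y, 0 < π y)
    (hπ1 : ∑ y, π y = 1) (z : V) {Λ : ℝ} (hΛ : (1 - π z) * Real.exp Λ ≤ 1) :
    (1 - μ z) * Λ - Real.log 2 ≤ ∑ y, μ y * Real.log (μ y / π y) := by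
  classical
  set g : V → ℝ := fun y => if y = z then 0 else Λ with hg
  have a : ∀ y, μ y - π y * Real.exp (g y) / 2 + μ y * (g y - Real.log 2) ≤
      μ y * Real.log (μ y / π y) := by
    intro y
    have hν : 0 < π y * Real.exp (g y) / 2 := by have := hπ y; positivity
    rcases (h0 y).eq_or_lt with e | e
    · rw [← e]; simp only [zero_mul]; linarith
    · have b := Real.one_sub_inv_le_log_of_pos (div_pos e hν)
      have c : Real.log (μ y / (π y * Real.exp (g y) / 2)) =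
          Real.log (μ y / π y) - (g y - Real.log 2) := by
        have := hπ y
        rw [Real.log_div e.ne' hν.ne', Real.log_div e.ne' (hπ y).ne',
          Real.log_div (by positivity) (by norm_num), Real.log_mul (hπ y).ne' (by positivity),
          Real.log_exp]
        ring
      rw [c, inv_div] at b
      have d := mul_le_mul_of_nonneg_left b e.le
      have e2 : μ y * (1 - π y * Real.exp (g y) / 2 / μ y) = μ y - π y * Real.exp (g y) / 2 := by
        field_simp
      rw [e2] at d; linarith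
  refine le_trans ?_ (sum_le_sum fun y _ => a y)
  simp only [sum_add_distrib, sum_sub_distrib, mul_sub, ← sum_mul, h1, ← sum_div]
  have b : ∑ y, π y * Real.exp (g y) = π z + (1 - π z) * Real.exp Λ := by
    rw [← add_sum_erase _ _ (mem_univ z), ← hπ1, ← add_sum_erase _ _ (mem_univ z),
      add_sub_cancel_left, sum_mul]
    congr 1
    · simp [hg]
    · exact sum_congr rfl fun y hy => by simp [hg, ne_of_mem_erase hy]
  have c : ∑ y, μ y * g y = (1 - μ z) * Λ := by
    rw [← add_sum_erase _ _ (mem_univ z), ← h1, ← add_sum_erase _ _ (mem_univ z),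
      add_sub_cancel_left, sum_mul]
    have : μ z * g z = 0 := by simp [hg]
    rw [this, zero_add]
    exact sum_congr rfl fun y hy => by simp [hg, ne_of_mem_erase hy]
  have d : π z ≤ 1 := hπ1 ▸ single_le_sum (fun y _ => (hπ y).le) (mem_univ z)
  rw [b, c]; linarith

omit [DecidableEq V] in
/-- Lyapunov bound on the eigenvalues -/
lemma eig_le_of_lyap {K : Matrix V V ℝ} {π W : V → ℝ} (hK : ∀ x y, 0 ≤ K x y) (hπ : ∀ x, 0 < π x)
    (z : V) (hW : ∀ x, 0 < W x) {ρ : ℝ} (hL : ∀ x, x ≠ z → ∑ y, K x y * W y ≤ ρ * W x)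
    {l : ℝ} {f : V → ℝ} (hf : f ≠ 0) (hs : ∑ x, π x * f x = 0) (he : K.mulVec f = l • f) :
    l ≤ ρ := by
  have key : ∀ f : V → ℝ, f ≠ 0 → ∑ x, π x * f x = 0 → K.mulVec f = l • f → f z ≤ 0 → l ≤ ρ := by
    intro f hf hs he hz
    have hpos : ∃ x, 0 < f x := by
      by_contra hc
      push Not at hc
      apply hf
      funext x
      have := (sum_eq_zero_iff_of_nonpos fun x _ =>
        mul_nonpos_of_nonneg_of_nonpos (hπ x).le (hc x)).1 hs x (mem_univ x)
      exact (mul_eq_zero.1 this).resolve_left (hπ x).ne'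
    obtain ⟨x1, hx1⟩ := hpos
    obtain ⟨x0, -, hx0⟩ := exists_max_image univ (fun x => f x / W x) ⟨z, mem_univ z⟩
    have hm : 0 < f x0 / W x0 := lt_of_lt_of_le (div_pos hx1 (hW x1)) (hx0 x1 (mem_univ _))
    have hf0 : 0 < f x0 := by
      by_contra hc
      have := div_nonpos_of_nonpos_of_nonneg (not_lt.1 hc) (hW x0).le
      linarith
    have hne : x0 ≠ z := by rintro rfl; linarith
    have h1 : l * f x0 = ∑ y, K x0 y * f y := (congrFun he x0).symm
    have h2 : ∑ y, K x0 y * f y ≤ ∑ y, f x0 / W x0 * (K x0 y * W y) := by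
      refine sum_le_sum fun y _ => ?_
      have := hx0 y (mem_univ _)
      rw [div_le_iff₀ (hW y)] at this
      nlinarith [hK x0 y]
    rw [← mul_sum] at h2
    have h3 := mul_le_mul_of_nonneg_left (hL x0 hne) hm.le
    have h4 : f x0 / W x0 * (ρ * W x0) = ρ * f x0 := by have := (hW x0).ne'; field_simp
    have : l * f x0 ≤ ρ * f x0 := by linarith
    exact le_of_mul_le_mul_right this hf0
  rcases le_total (f z) 0 with h | h
  · exact key f hf hs he h
  · refine key (-f) (neg_ne_zero.2 hf) ?_ ?_ (by simpa using h)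
    · simp [hs]
    · rw [mulVec_neg, he, smul_neg]

lemma pow_le_seq {K : Matrix V V ℝ} (hK : ∀ x y, 0 ≤ K x y) (F : ℕ → V → ℝ)
    (hF : ∀ k x, ∑ y, K x y * F k y ≤ F (k + 1) x) (k : ℕ) (x : V) :
    ∑ y, (K ^ k) x y * F 0 y ≤ F k x := by
  induction k generalizing x with
  | zero => simp [Matrix.one_apply]
  | succ t ih =>
    simp only [pow_succ', mul_apply, sum_mul]
    rw [sum_comm]
    simp only [mul_assoc, ← mul_sum]
    exact (sum_le_sum fun z _ => mul_le_mul_of_nonneg_left (ih z) (hK _ _)).trans (hF t x)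

lemma pow_rev {K : Matrix V V ℝ} {π : V → ℝ} (h : ∀ x y, π x * K x y = π y * K y x) (k : ℕ)
    (x y : V) : π x * (K ^ k) x y = π y * (K ^ k) y x := by
  induction k generalizing y with
  | zero => by_cases e : x = y <;> simp [e, eq_comm]
  | succ k ih =>
    conv_lhs => rw [pow_succ]
    conv_rhs => rw [pow_succ']
    rw [mul_apply, mul_apply, mul_sum, mul_sum]
    refine sum_congr rfl fun z _ => ?_
    rw [← mul_assoc, ih, ← mul_assoc, ← h]; ring

lemma pow_ge_of_ge {K : Matrix V V ℝ} (hK : ∀ x y, 0 ≤ K x y) (h1 : ∀ x, ∑ y, K x y = 1) (z : V)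
    {c : ℝ} {k0 : ℕ} (h : ∀ x, c ≤ (K ^ k0) x z) {k : ℕ} (hk : k0 ≤ k) (x : V) :
    c ≤ (K ^ k) x z := by
  obtain ⟨j, rfl⟩ := Nat.exists_eq_add_of_le' hk
  rw [pow_add, mul_apply]
  have := sum_le_sum fun y (_ : y ∈ univ) =>
    mul_le_mul_of_nonneg_left (h y) (pow_nonneg' hK j x y)
  rwa [← sum_mul, pow_row h1, one_mul] at this

/-- Chernoff step: lower bound for the heat kernel -/
lemma heat_ge {K : Matrix V V ℝ} (hK : ∀ x y, 0 ≤ K x y) (h1 : ∀ x, ∑ y, K x y = 1) (z : V)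
    {c : ℝ} (hc : c ≤ 1) {k0 : ℕ} (h : ∀ x, c ≤ (K ^ (k0 + 1)) x z) {t : ℝ} (ht : 0 ≤ t) (x : V) :
    c - 2 ^ k0 * Real.exp (-(t / 2)) ≤ heat K t x z := by
  have a1 := ((hasSum_poi t).mul_right c).sub ((hasSum_poi_pow t (1 / 2)).mul_left (2 ^ k0))
  have e : t * (1 - 1 / 2) = t / 2 := by ring
  rw [one_mul, e] at a1
  refine hasSum_le (fun k => ?_) a1 (hasSum_heat hK h1 ht x z)
  have b : c - 2 ^ k0 * (1 / 2) ^ k ≤ (K ^ k) x z := by
    by_cases hk : k0 + 1 ≤ k
    · have := pow_ge_of_ge hK h1 z h hk x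
      have : (0 : ℝ) ≤ 2 ^ k0 * (1 / 2) ^ k := by positivity
      linarith
    · have h2 : (1 / 2 : ℝ) ^ k0 ≤ (1 / 2) ^ k :=
        pow_le_pow_of_le_one (by norm_num) (by norm_num) (by omega)
      have h3 : (2 : ℝ) ^ k0 * (1 / 2) ^ k0 = 1 := by rw [← mul_pow]; norm_num
      have h4 := mul_le_mul_of_nonneg_left h2 (show (0 : ℝ) ≤ 2 ^ k0 by positivity)
      have := pow_nonneg' hK k x z
      linarith
  have := mul_le_mul_of_nonneg_left b (poi_nonneg ht k)
  linarith

/-- Markov step: upper bound for the heat kernel -/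
lemma heat_le {K : Matrix V V ℝ} (hK : ∀ x y, 0 ≤ K x y) (h1 : ∀ x, ∑ y, K x y = 1) (x z : V)
    {u η : ℝ} (hu : 0 ≤ u) (hη : 0 ≤ η) {k0 : ℕ} (hk0 : 0 < k0)
    (h : ∀ k ≤ k0, (K ^ k) x z ≤ 1 - u + k * η) {t : ℝ} (ht : 0 ≤ t) :
    heat K t x z ≤ 1 - u + t * (η + u / k0) := by
  have hk0' : (0 : ℝ) < k0 := by exact_mod_cast hk0
  have a1 := ((hasSum_poi t).mul_right (1 - u)).add ((hasSum_poi_mean t).mul_right (η + u / k0))
  rw [one_mul] at a1
  refine hasSum_le (fun k => ?_) (hasSum_heat hK h1 ht x z) a1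
  have b : (K ^ k) x z ≤ 1 - u + k * (η + u / k0) := by
    have c0 : (0 : ℝ) ≤ k * (u / k0) := by positivity
    have c1 : (0 : ℝ) ≤ k * η := by positivity
    by_cases hk : k ≤ k0
    · have := h k hk; linarith
    · have c2 : (k0 : ℝ) ≤ k := by exact_mod_cast (not_le.1 hk).le
      have c3 : u ≤ k * (u / k0) := by
        rw [← mul_div_assoc, le_div_iff₀ hk0']; nlinarith
      have := pow_le_one' hK h1 k x z
      linarith
  have := mul_le_mul_of_nonneg_left b (poi_nonneg ht k)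
  linarith

lemma heat_nonneg {K : Matrix V V ℝ} (hK : ∀ x y, 0 ≤ K x y) {t : ℝ} (ht : 0 ≤ t) (x y : V) :
    0 ≤ heat K t x y :=
  tsum_nonneg fun k => mul_nonneg (poi_nonneg ht k) (pow_nonneg' hK k x y)

end Pool.Agent.H44.Pak
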