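import Pool.Agent.H44.EntC1

open Finset Matrix

namespace Pool.Agent.H44.Pak

noncomputable def ee (L : ℕ) (p R : ℝ) (i : ℕ) : ℝ := (if i < L then 1 else p) * R ^ i

noncomputable def cc (L : ℕ) (p R W : ℝ) (i j : ℕ) : ℝ :=
  (if j = i + 1 then ee L p R i else 0) + (if i = j + 1 then ee L p R j else 0) +
  (if i = L ∧ j = 2 * L + 1 then R ^ L else 0) + (if j = L ∧ i = 2 * L + 1 then R ^ L else 0) +
  (if i = 2 * L + 1 ∧ j = 2 * L + 1 then W else 0)

lemma cc_symm (L : ℕ) (p R W : ℝ) (i j : ℕ) : cc L p R W i j = cc L p R W j i := by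
  unfold cc
  simp only [and_comm (a := j = 2 * L + 1) (b := i = 2 * L + 1)]
  ring

noncomputable def aa (L : ℕ) (p R W : ℝ) (i : ℕ) : ℝ :=
  if i = 2 * L + 1 then W else if i = L then (1 + p) * R ^ L else ee L p R i

noncomputable def back (L : ℕ) (p R : ℝ) (f : ℕ → ℝ) (i : ℕ) : ℝ :=
  (if 0 < i then ee L p R (i - 1) * f (i - 1) else 0) + if i = 2 * L + 1 then R ^ L * f L else 0

noncomputable def fwd (L : ℕ) (p : ℝ) (f : ℕ → ℝ) (i : ℕ) : ℝ :=
  if i = 2 * L + 1 then f i else if i = L then (f (2 * L + 1) + p * f (L + 1)) / (1 + p)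
  else f (i + 1)

lemma sum_cc (L : ℕ) {p : ℝ} (hp : 0 < p) (R W : ℝ) (f : ℕ → ℝ) {i : ℕ} (hi : i < 2 * L + 2) :
    ∑ j ∈ range (2 * L + 2), cc L p R W i j * f j =
      aa L p R W i * fwd L p f i + back L p R f i := by
  simp only [cc, add_mul, sum_add_distrib, ite_mul, zero_mul]
  have s1 : ∑ j ∈ range (2 * L + 2), (if j = i + 1 then ee L p R i * f j else 0) =
      if i = 2 * L + 1 then 0 else ee L p R i * f (i + 1) := by
    rw [sum_ite_eq']; simp only [mem_range]; split_ifs <;> first | rfl | omega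
  have s2 : ∑ j ∈ range (2 * L + 2), (if i = j + 1 then ee L p R j * f j else 0) =
      if 0 < i then ee L p R (i - 1) * f (i - 1) else 0 := by
    rcases i with _ | i
    · simp
    · simp only [Nat.add_right_cancel_iff, sum_ite_eq, mem_range, Nat.add_sub_cancel]
      rw [if_pos (by omega), if_pos (by omega)]
  have s3 : ∑ j ∈ range (2 * L + 2), (if i = L ∧ j = 2 * L + 1 then R ^ L * f j else 0) =
      if i = L then R ^ L * f (2 * L + 1) else 0 := by
    by_cases h : i = L <;> simp [h]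
  have s4 : ∑ j ∈ range (2 * L + 2), (if j = L ∧ i = 2 * L + 1 then R ^ L * f j else 0) =
      if i = 2 * L + 1 then R ^ L * f L else 0 := by
    by_cases h : i = 2 * L + 1
    · simp only [h, and_true, sum_ite_eq', mem_range, if_true]; rw [if_pos (by omega)]
    · simp [h]
  have s5 : ∑ j ∈ range (2 * L + 2), (if i = 2 * L + 1 ∧ j = 2 * L + 1 then W * f j else 0) =
      if i = 2 * L + 1 then W * f i else 0 := by
    by_cases h : i = 2 * L + 1 <;> simp [h]
  rw [s1, s2, s3, s4, s5]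
  unfold aa fwd back
  by_cases h1 : i = 2 * L + 1
  · have h2 : i ≠ L := by omega
    simp only [if_pos h1, if_neg h2]; ring
  · by_cases h2 : i = L
    · simp only [if_neg h1, if_pos h2]
      have : ee L p R i = p * R ^ L := by simp [ee, h2]
      rw [this, h2]
      have : 1 + p ≠ 0 := by linarith
      field_simp; ring
    · simp only [if_neg h1, if_neg h2]; ring

noncomputable def ww (L : ℕ) (p R W : ℝ) (i : ℕ) : ℝ := aa L p R W i + back L p R (fun _ => 1) i

noncomputable def KK (L : ℕ) (p R W : ℝ) : Matrix (Fin (2 * L + 2)) (Fin (2 * L + 2)) ℝ :=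
  fun x y => cc L p R W x y / ww L p R W x

noncomputable def pp (L : ℕ) (p R W : ℝ) (x : Fin (2 * L + 2)) : ℝ :=
  ww L p R W x / ∑ j ∈ range (2 * L + 2), ww L p R W j

structure Par (L : ℕ) (p R W : ℝ) : Prop where
  p0 : 0 < p
  p1 : p ≤ 1
  hR : 8 ≤ R
  hW : 2 * R ^ (2 * L + 1) ≤ W

variable {L : ℕ} {p R W : ℝ}

lemma Par.R0 (h : Par L p R W) : 0 < R := by linarith [h.hR]

lemma Par.ee_pos (h : Par L p R W) (i : ℕ) : 0 < ee L p R i := by
  have := h.R0; have := h.p0
  unfold ee; split_ifs <;> positivity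

lemma Par.ee_le (h : Par L p R W) (i : ℕ) : ee L p R i ≤ R ^ i := by
  have := h.R0; have := h.p1
  unfold ee; split_ifs
  · simp
  · exact mul_le_of_le_one_left (by positivity) h.p1

lemma Par.W0 (h : Par L p R W) : 0 < W := by
  have := h.R0; exact lt_of_lt_of_le (by positivity) h.hW

lemma Par.aa_pos (h : Par L p R W) (i : ℕ) : 0 < aa L p R W i := by
  have := h.R0; have := h.p0; have := h.W0; have := h.ee_pos i
  unfold aa; split_ifs <;> positivity

lemma Par.cc_nonneg (h : Par L p R W) (i j : ℕ) : 0 ≤ cc L p R W i j := by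
  have := h.R0; have := h.W0; have := h.ee_pos i; have := h.ee_pos j
  unfold cc; split_ifs <;> positivity

lemma Par.back_nonneg (h : Par L p R W) {f : ℕ → ℝ} (hf : ∀ j, 0 ≤ f j) (i : ℕ) :
    0 ≤ back L p R f i := by
  have := h.R0; have := h.ee_pos (i - 1); have := hf (i - 1); have := hf L
  unfold back; split_ifs <;> positivity

lemma Par.back_mono (h : Par L p R W) {f : ℕ → ℝ} (hf : ∀ j, f j ≤ 1) (i : ℕ) :
    back L p R f i ≤ back L p R (fun _ => 1) i := by
  have h1 := mul_le_mul_of_nonneg_left (hf (i - 1)) (h.ee_pos (i - 1)).le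
  have h2 := mul_le_mul_of_nonneg_left (hf L) (pow_pos h.R0 L).le
  unfold back; split_ifs <;> linarith

lemma Par.back_le (h : Par L p R W) (i : ℕ) :
    back L p R (fun _ => 1) i * R ≤ aa L p R W i := by
  have R0 := h.R0
  have R1 : 1 ≤ R := by linarith [h.hR]
  unfold back aa
  by_cases h1 : i = 2 * L + 1
  · simp only [if_pos h1, if_pos (show 0 < i by omega), mul_one]
    have a := h.ee_le (i - 1)
    rw [show i - 1 = 2 * L by omega] at a ⊢
    have b : R ^ L ≤ R ^ (2 * L) := pow_le_pow_right₀ R1 (by omega)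
    have := h.hW
    rw [pow_succ] at this
    nlinarith
  · simp only [if_neg h1, add_zero, mul_one]
    rcases i with _ | i
    · simp only [lt_irrefl, if_false, zero_mul]
      have := h.p0; have := h.ee_pos 0
      split_ifs <;> positivity
    · simp only [Nat.succ_pos, if_true, Nat.add_sub_cancel]
      split_ifs with h2
      · have := mul_le_mul_of_nonneg_right (h.ee_le i) R0.le
        rw [← pow_succ, h2] at this
        nlinarith [h.p0, pow_pos R0 L]
      · unfold ee
        rw [pow_succ]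
        by_cases h3 : i < L
        · rw [if_pos h3, if_pos (by omega)]; linarith
        · rw [if_neg h3, if_neg (by omega)]; linarith

lemma Par.ww_pos (h : Par L p R W) (i : ℕ) : 0 < ww L p R W i :=
  add_pos_of_pos_of_nonneg (h.aa_pos i) (h.back_nonneg (fun _ => zero_le_one) i)

lemma Par.KK_nonneg (h : Par L p R W) (x y) : 0 ≤ KK L p R W x y :=
  div_nonneg (h.cc_nonneg _ _) (h.ww_pos _).le

lemma Par.sum_KK (h : Par L p R W) (f : ℕ → ℝ) (x : Fin (2 * L + 2)) :
    ∑ y, KK L p R W x y * f y = (aa L p R W x * fwd L p f x + back L p R f x) / ww L p R W x := by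
  rw [← sum_cc L h.p0 R W f x.2, ← Fin.sum_univ_eq_sum_range (fun j => cc L p R W x j * f j),
    sum_div]
  exact sum_congr rfl fun y _ => by rw [KK]; ring

lemma Par.fwd_one (h : Par L p R W) (i : ℕ) : fwd L p (fun _ => 1) i = 1 := by
  have : 1 + p ≠ 0 := by linarith [h.p0]
  unfold fwd; split_ifs <;> simp [this]

lemma Par.KK_row (h : Par L p R W) (x) : ∑ y, KK L p R W x y = 1 := by
  have := h.sum_KK (fun _ => 1) x
  simp only [mul_one, h.fwd_one] at this
  rw [this]; exact div_self (h.ww_pos _).ne'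

lemma Par.step (h : Par L p R W) {f : ℕ → ℝ} (h0 : ∀ j, 0 ≤ f j) (h1 : ∀ j, f j ≤ 1)
    (x : Fin (2 * L + 2)) (hf0 : 0 ≤ fwd L p f x) (hf1 : fwd L p f x ≤ 1) :
    |∑ y, KK L p R W x y * f y - fwd L p f x| ≤ 1 / R := by
  have w0 := h.ww_pos x
  have a0 := h.aa_pos x
  have b0 := h.back_nonneg h0 x
  have b1 := h.back_mono h1 x
  have b2 := h.back_le x
  have b3 := h.back_nonneg (fun _ => zero_le_one) x
  have R0 := h.R0
  have e : ∑ y, KK L p R W x y * f y - fwd L p f x =
      (back L p R f x - back L p R (fun _ => 1) x * fwd L p f x) / ww L p R W x := by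
    rw [h.sum_KK]; field_simp; unfold ww; ring
  rw [e, abs_div, abs_of_pos w0, div_le_div_iff₀ w0 R0]
  have : |back L p R f x - back L p R (fun _ => 1) x * fwd L p f x| ≤
      back L p R (fun _ => 1) x := by
    rw [abs_le]; constructor <;> nlinarith
  have h3 := mul_le_mul_of_nonneg_right this R0.le
  unfold ww; linarith

/-- the ideal hitting probabilities -/
noncomputable def II (L : ℕ) (p : ℝ) (k i : ℕ) : ℝ :=
  if 2 * L + 1 ≤ i + k then 1 else if i ≤ L ∧ L + 1 ≤ i + k then 1 / (1 + p) else 0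

lemma Par.II_mem (h : Par L p R W) (k i : ℕ) : 0 ≤ II L p k i ∧ II L p k i ≤ 1 := by
  have := h.p0
  have h2 : 1 / (1 + p) ≤ 1 := by rw [div_le_one (by linarith)]; linarith
  unfold II; split_ifs <;> constructor <;> first | positivity | linarith

lemma Par.fwd_II (h : Par L p R W) (k : ℕ) {i : ℕ} (_hi : i < 2 * L + 2) :
    fwd L p (II L p k) i = II L p (k + 1) i := by
  have : 1 + p ≠ 0 := by linarith [h.p0]
  unfold fwd II
  split_ifs <;> first | omega | rfl | (simp [this])

lemma Par.pow_II (h : Par L p R W) (k : ℕ) (x : Fin (2 * L + 2)) :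
    |(KK L p R W ^ k) x (Fin.last _) - II L p k x| ≤ k * (1 / R) := by
  have hs : ∀ k (x : Fin (2 * L + 2)),
      |∑ y, KK L p R W x y * II L p k y - II L p (k + 1) x| ≤ 1 / R := by
    intro k x
    have := h.step (fun j => (h.II_mem k j).1) (fun j => (h.II_mem k j).2) x
      (by rw [h.fwd_II k x.2]; exact (h.II_mem _ _).1)
      (by rw [h.fwd_II k x.2]; exact (h.II_mem _ _).2)
    rwa [h.fwd_II k x.2] at this
  have e0 : ∀ c : ℝ, ∑ y, (KK L p R W ^ k) x y * (c * II L p 0 y) =
      c * (KK L p R W ^ k) x (Fin.last _) := by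
    intro c
    rw [sum_eq_single (Fin.last _)]
    · simp [II, mul_comm]
    · intro y _ hy
      have : (y : ℕ) ≠ 2 * L + 1 := fun e => hy (Fin.ext e)
      have := y.2
      rw [II, if_neg (by omega), if_neg (by omega)]; simp
    · simp
  have key : ∀ c : ℝ, |c| = 1 →
      c * (KK L p R W ^ k) x (Fin.last _) ≤ c * II L p k x + k * (1 / R) := by
    intro c hc
    have := pow_le_seq h.KK_nonneg (fun k y => c * II L p k y + k * (1 / R)) (fun k x => by
      simp only [mul_add, sum_add_distrib, ← sum_mul, h.KK_row, mul_left_comm _ c, ← mul_sum]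
      have a := le_abs_self (c * (∑ y, KK L p R W x y * II L p k y - II L p (k + 1) x))
      rw [abs_mul, hc, one_mul] at a
      have := hs k x
      push_cast; linarith) k x
    simpa only [Nat.cast_zero, zero_mul, add_zero, e0] using this
  have a := key 1 (by simp)
  have b := key (-1) (by simp)
  rw [abs_le]; constructor <;> linarith

lemma Par.lyap (h : Par L p R W) (x : Fin (2 * L + 2)) (hx : x ≠ Fin.last _) :
    ∑ y, KK L p R W x y * (1 / 2 : ℝ) ^ (y : ℕ) ≤ 3 / 4 * (1 / 2 : ℝ) ^ (x : ℕ) := by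
  have hx' : (x : ℕ) ≠ 2 * L + 1 := fun e => hx (Fin.ext e)
  rw [h.sum_KK (fun j => (1 / 2 : ℝ) ^ j), div_le_iff₀ (h.ww_pos _)]
  have a0 := h.aa_pos x
  have b2 := h.back_le x
  have b3 := h.back_nonneg (fun _ => zero_le_one) x
  have v0 : 0 < (1 / 2 : ℝ) ^ (x : ℕ) := by positivity
  have f1 : fwd L p (fun j => (1 / 2 : ℝ) ^ j) x ≤ (1 / 2 : ℝ) ^ (x : ℕ) / 2 := by
    simp only [fwd]
    rw [if_neg hx']
    split_ifs with h2
    · have := h.p0
      rw [div_le_iff₀ (by linarith), h2]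
      have : (1 / 2 : ℝ) ^ (2 * L + 1) ≤ (1 / 2 : ℝ) ^ (L + 1) :=
        pow_le_pow_of_le_one (by norm_num) (by norm_num) (by omega)
      rw [pow_succ _ L] at this ⊢
      linarith
    · rw [pow_succ]; linarith
  have f2 : back L p R (fun j => (1 / 2 : ℝ) ^ j) x ≤
      back L p R (fun _ => 1) x * (2 * (1 / 2 : ℝ) ^ (x : ℕ)) := by
    unfold back
    simp only [if_neg hx', add_zero]
    split_ifs with h2
    · obtain ⟨j, hj⟩ : ∃ j, (x : ℕ) = j + 1 := ⟨x - 1, by omega⟩
      rw [hj, Nat.add_sub_cancel, pow_succ]; apply le_of_eq; ring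
    · simp
  have f3 := mul_le_mul_of_nonneg_left f1 a0.le
  have f4 : back L p R (fun _ => 1) x * 8 ≤ aa L p R W x := by nlinarith [h.hR]
  unfold ww
  nlinarith

lemma Par.Z_pos (h : Par L p R W) : 0 < ∑ j ∈ range (2 * L + 2), ww L p R W j :=
  sum_pos (fun j _ => h.ww_pos j) ⟨0, by simp⟩

lemma Par.pp_pos (h : Par L p R W) (x) : 0 < pp L p R W x := div_pos (h.ww_pos _) h.Z_pos

lemma Par.pp_sum (h : Par L p R W) : ∑ x, pp L p R W x = 1 := by
  unfold pp
  rw [← sum_div, Fin.sum_univ_eq_sum_range (ww L p R W)]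
  exact div_self h.Z_pos.ne'

lemma Par.rev (h : Par L p R W) (x y) :
    pp L p R W x * KK L p R W x y = pp L p R W y * KK L p R W y x := by
  have := (h.ww_pos x).ne'; have := (h.ww_pos y).ne'; have := h.Z_pos.ne'
  unfold pp KK
  rw [cc_symm L p R W y x]; field_simp

lemma Par.gap (h : Par L p R W) : 1 / 4 ≤ specGap (KK L p R W) (pp L p R W) := by
  have : sSup {l : ℝ | ∃ f : Fin (2 * L + 2) → ℝ, f ≠ 0 ∧ ∑ x, pp L p R W x * f x = 0 ∧
      (KK L p R W).mulVec f = l • f} ≤ 3 / 4 := by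
    refine Real.sSup_le ?_ (by norm_num)
    rintro l ⟨f, hf, hs, he⟩
    exact eig_le_of_lyap h.KK_nonneg h.pp_pos (Fin.last _) (fun x => by positivity) h.lyap hf hs he
  rw [specGap]; linarith

lemma Par.isRev (h : Par L p R W) (hR : 2 * L + 1 < R) : IsRevChain (KK L p R W) (pp L p R W) := by
  refine ⟨h.KK_nonneg, h.KK_row, h.pp_pos, h.pp_sum, h.rev, fun x y => ⟨(2 * L + 1) + (2 * L + 1), ?_⟩⟩
  have a : ∀ x, 0 < (KK L p R W ^ (2 * L + 1)) x (Fin.last _) := by
    intro x
    have b := (abs_le.1 (h.pow_II (2 * L + 1) x)).1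
    rw [II, if_pos (by omega)] at b
    have : ((2 * L + 1 : ℕ) : ℝ) * (1 / R) < 1 := by
      rw [mul_one_div, div_lt_one h.R0]; exact_mod_cast hR
    linarith
  have b : 0 < (KK L p R W ^ (2 * L + 1)) (Fin.last _) y := by
    have c := pow_rev h.rev (2 * L + 1) y (Fin.last _)
    have d := mul_pos (h.pp_pos y) (a y)
    rw [c] at d
    by_contra hc
    have := mul_nonpos_of_nonneg_of_nonpos (h.pp_pos (Fin.last _)).le (not_lt.1 hc)
    linarith
  rw [pow_add, mul_apply]
  exact lt_of_lt_of_le (mul_pos (a x) b) (single_le_sum (f := fun z =>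
    (KK L p R W ^ (2 * L + 1)) x z * (KK L p R W ^ (2 * L + 1)) z y)
    (fun z _ => mul_nonneg (pow_nonneg' h.KK_nonneg _ _ _) (pow_nonneg' h.KK_nonneg _ _ _))
    (mem_univ _))

/-- weight bounds -/
lemma Par.ww_le (h : Par L p R W) {i : ℕ} (hi : i < 2 * L + 1) :
    ww L p R W i ≤ 4 * R ^ (2 * L) := by
  have R0 := h.R0
  have R1 : 1 ≤ R := by linarith [h.hR]
  have b2 := h.back_le i
  have b3 := h.back_nonneg (fun _ => zero_le_one) i
  have a : aa L p R W i ≤ 2 * R ^ (2 * L) := by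
    unfold aa
    rw [if_neg (by omega)]
    split_ifs
    · have : R ^ L ≤ R ^ (2 * L) := pow_le_pow_right₀ R1 (by omega)
      nlinarith [h.p1, pow_pos R0 L]
    · have : R ^ i ≤ R ^ (2 * L) := pow_le_pow_right₀ R1 (by omega)
      nlinarith [h.ee_le i, pow_pos R0 i]
  unfold ww; nlinarith

lemma Par.ww_last (h : Par L p R W) :
    W ≤ ww L p R W (2 * L + 1) ∧ ww L p R W (2 * L + 1) ≤ 2 * W := by
  have b2 := h.back_le (2 * L + 1)
  have b3 := h.back_nonneg (fun _ => zero_le_one) (2 * L + 1)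
  have a : aa L p R W (2 * L + 1) = W := by simp [aa]
  unfold ww; rw [a] at b2 ⊢
  constructor <;> nlinarith [h.hR]

lemma Par.ww_ge (h : Par L p R W) (i : ℕ) : p ≤ ww L p R W i := by
  have R1 : 1 ≤ R := by linarith [h.hR]
  have b3 := h.back_nonneg (fun _ => zero_le_one) i
  have a : p ≤ aa L p R W i := by
    have := h.p0; have := h.p1
    unfold aa ee
    split_ifs
    · have := one_le_pow₀ (n := 2 * L + 1) R1; linarith [h.hW]
    · have := one_le_pow₀ (n := L) R1; nlinarith
    · have := one_le_pow₀ (n := i) R1; nlinarith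
    · have := one_le_pow₀ (n := i) R1; nlinarith
  unfold ww; linarith

lemma Par.one_sub_pp (h : Par L p R W) :
    1 - pp L p R W (Fin.last _) ≤ (2 * L + 1) * (4 * R ^ (2 * L)) / W := by
  have Z0 := h.Z_pos
  have a : ∑ j ∈ range (2 * L + 1), ww L p R W j ≤ (2 * L + 1) * (4 * R ^ (2 * L)) := by
    have := sum_le_card_nsmul (range (2 * L + 1)) _ _ fun j hj => h.ww_le (mem_range.1 hj)
    simpa using this
  have b : 0 ≤ ∑ j ∈ range (2 * L + 1), ww L p R W j := sum_nonneg fun j _ => (h.ww_pos j).le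
  have e : 1 - pp L p R W (Fin.last _) = (∑ j ∈ range (2 * L + 1), ww L p R W j) /
      ∑ j ∈ range (2 * L + 2), ww L p R W j := by
    unfold pp
    rw [eq_div_iff Z0.ne', sub_mul, div_mul_cancel₀ _ Z0.ne', sum_range_succ]; simp
  rw [e]
  refine div_le_div₀ (b.trans a) a h.W0 ?_
  rw [sum_range_succ]; linarith [h.ww_last.1]

lemma Par.inv_pp_le (h : Par L p R W) (hW : (2 * L + 1) * (4 * R ^ (2 * L)) ≤ W) (x) :
    1 / pp L p R W x ≤ 3 * W / p := by
  have a : ∑ j ∈ range (2 * L + 1), ww L p R W j ≤ (2 * L + 1) * (4 * R ^ (2 * L)) := by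
    have := sum_le_card_nsmul (range (2 * L + 1)) _ _ fun j hj => h.ww_le (mem_range.1 hj)
    simpa using this
  unfold pp
  rw [one_div_div]
  refine div_le_div₀ (by linarith [h.W0]) ?_ h.p0 (h.ww_ge _)
  rw [sum_range_succ]; linarith [h.ww_last.2]

end Pool.Agent.H44.Pak
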