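import Pool.Agent.H44.EntC2

open Finset Matrix

namespace Pool.Agent.H44.Pak

lemma pow_four_le {L : ℕ} (hL : 20 ≤ L) : L ^ 4 ≤ 2 ^ L := by
  induction L, hL using Nat.le_induction with
  | base => norm_num
  | succ n hn ih =>
    have : (n + 1) ^ 4 ≤ 2 * n ^ 4 := by
      have h1 : 20 * n ≤ n ^ 2 := by nlinarith
      have h2 : 20 * n ^ 2 ≤ n ^ 3 := by nlinarith
      have h3 : 20 * n ^ 3 ≤ n ^ 4 := by nlinarith
      nlinarith
    rw [pow_succ 2]; omega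

noncomputable def KL (L : ℕ) := KK L (100 / (L : ℝ) ^ 2) (2 ^ L) (2 ^ (4 * L ^ 2))
noncomputable def pL (L : ℕ) := pp L (100 / (L : ℝ) ^ 2) (2 ^ L) (2 ^ (4 * L ^ 2))

variable {L : ℕ}

lemma four_le (hL : 20 ≤ L) : (L : ℝ) ^ 4 ≤ 2 ^ L := by exact_mod_cast pow_four_le hL

lemma cube_facts (hL : 20 ≤ L) :
    20 * (L : ℝ) ≤ L ^ 2 ∧ 20 * (L : ℝ) ^ 2 ≤ L ^ 3 ∧ 20 * (L : ℝ) ^ 3 ≤ L ^ 4 := by
  have h : (20 : ℝ) ≤ L := by exact_mod_cast hL
  have h1 : 20 * (L : ℝ) ≤ L ^ 2 := by nlinarith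
  have h2 : 20 * (L : ℝ) ^ 2 ≤ L ^ 3 := by nlinarith
  exact ⟨h1, h2, by nlinarith⟩

lemma par (hL : 20 ≤ L) : Par L (100 / (L : ℝ) ^ 2) (2 ^ L) (2 ^ (4 * L ^ 2)) := by
  have h : (20 : ℝ) ≤ L := by exact_mod_cast hL
  obtain ⟨h1, h2, h3⟩ := cube_facts hL
  refine ⟨by positivity, ?_, ?_, ?_⟩
  · rw [div_le_one (by positivity)]; linarith
  · linarith [four_le hL]
  · rw [← pow_mul, ← pow_succ']
    exact pow_le_pow_right₀ (by norm_num) (by nlinarith)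

lemma two_sq (hL : 20 ≤ L) : (L : ℝ) ^ 4 ≤ 2 ^ (L ^ 2) :=
  (four_le hL).trans (pow_le_pow_right₀ (by norm_num) (by nlinarith))

lemma W_big (hL : 20 ≤ L) :
    (2 * L + 1) * (4 * ((2 : ℝ) ^ L) ^ (2 * L)) * 2 ^ (L ^ 2) ≤ 2 ^ (4 * L ^ 2) := by
  have h : (20 : ℝ) ≤ L := by exact_mod_cast hL
  obtain ⟨h1, h2, h3⟩ := cube_facts hL
  have a := two_sq hL
  have e : (2 : ℝ) ^ (4 * L ^ 2) = 2 ^ (L ^ 2) * ((2 ^ L) ^ (2 * L) * 2 ^ (L ^ 2)) := by
    rw [← pow_mul, ← pow_add, ← pow_add]; congr 1; ring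
  rw [e]
  have b : (2 * L + 1) * 4 ≤ (2 : ℝ) ^ (L ^ 2) := by linarith
  have c : (0 : ℝ) ≤ (2 ^ L) ^ (2 * L) * 2 ^ (L ^ 2) := by positivity
  nlinarith [mul_le_mul_of_nonneg_right b c]

lemma one_sub_pL (hL : 20 ≤ L) : (1 - pL L (Fin.last _)) * 2 ^ (L ^ 2) ≤ 1 := by
  have a := mul_le_mul_of_nonneg_right (par hL).one_sub_pp
    (show (0 : ℝ) ≤ 2 ^ (L ^ 2) by positivity)
  refine a.trans ?_
  rw [div_mul_eq_mul_div, div_le_one (by positivity)]
  exact W_big hL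

lemma log_last (hL : 20 ≤ L) : Real.log (1 / pL L (Fin.last _)) ≤ 1 / L := by
  have h : (20 : ℝ) ≤ L := by exact_mod_cast hL
  obtain ⟨h1, h2, h3⟩ := cube_facts hL
  have a := one_sub_pL hL
  have b := two_sq hL
  have p0 : 0 < pL L (Fin.last _) := (par hL).pp_pos _
  refine (Real.log_le_sub_one_of_pos (by positivity)).trans ?_
  have c : (1 - pL L (Fin.last _)) * (L + 1) ≤ 1 := by
    rcases le_total (1 - pL L (Fin.last _)) 0 with d | d
    · nlinarith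
    · have : (L : ℝ) + 1 ≤ 2 ^ (L ^ 2) := by linarith
      nlinarith
  rw [div_sub_one p0.ne', div_le_div_iff₀ p0 (by linarith)]
  nlinarith

lemma log_all (hL : 20 ≤ L) (y) : Real.log (1 / pL L y) ≤ 5 * (L : ℝ) ^ 2 := by
  have h : (20 : ℝ) ≤ L := by exact_mod_cast hL
  obtain ⟨h1, h2, h3⟩ := cube_facts hL
  have w := W_big hL
  have w1 : (1 : ℝ) ≤ 2 ^ (L ^ 2) := one_le_pow₀ (by norm_num)
  have w0 : (0 : ℝ) ≤ (2 * L + 1) * (4 * ((2 : ℝ) ^ L) ^ (2 * L)) := by positivity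
  have a := (par hL).inv_pp_le (by nlinarith) y
  have b : 3 * (2 : ℝ) ^ (4 * L ^ 2) / (100 / (L : ℝ) ^ 2) ≤ 2 ^ (5 * L ^ 2) := by
    have e : (2 : ℝ) ^ (5 * L ^ 2) = 2 ^ (L ^ 2) * 2 ^ (4 * L ^ 2) := by
      rw [← pow_add]; congr 1; ring
    rw [e, div_div_eq_mul_div, div_le_iff₀ (by norm_num)]
    have c := two_sq hL
    have d : (0 : ℝ) < 2 ^ (4 * L ^ 2) := by positivity
    have : 3 * (L : ℝ) ^ 2 ≤ 2 ^ (L ^ 2) * 100 := by nlinarith
    nlinarith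
  have p0 : 0 < pL L y := (par hL).pp_pos _
  refine (Real.log_le_log (by positivity) (a.trans b)).trans ?_
  rw [Real.log_pow]
  have := Real.log_two_lt_d9
  push_cast
  nlinarith

lemma ent_le (hL : 20 ≤ L) {t c : ℝ} (ht : 0 ≤ t) (hc : ∀ x, 1 - heat (KL L) t x (Fin.last _) ≤ c) :
    entDist (KL L) (pL L) t ≤ 1 / L + c * (5 * (L : ℝ) ^ 2) := by
  refine ciSup_le fun x => ?_
  refine (ent_upper (heat_nonneg (par hL).KK_nonneg ht x)
    (heat_row (par hL).KK_nonneg (par hL).KK_row ht x) (par hL).pp_pos (Fin.last _)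
    (by positivity) (log_last hL) (log_all hL)).trans ?_
  have := mul_le_mul_of_nonneg_right (hc x) (show 0 ≤ 5 * (L : ℝ) ^ 2 by positivity)
  unfold KL at this
  linarith

lemma ent_ge (hL : 20 ≤ L) {t c : ℝ} (ht : 0 ≤ t) (hc0 : 0 ≤ c)
    (hc : c ≤ 1 - heat (KL L) t 0 (Fin.last _)) :
    c * (L : ℝ) ^ 2 * (69 / 100) - 7 / 10 ≤ entDist (KL L) (pL L) t := by
  have a := ent_lower (heat_nonneg (par hL).KK_nonneg ht 0)
    (heat_row (par hL).KK_nonneg (par hL).KK_row ht 0) (par hL).pp_pos (par hL).pp_sum (Fin.last _)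
    (Λ := (L ^ 2 : ℕ) * Real.log 2) (by
      rw [Real.exp_nat_mul, Real.exp_log (by norm_num)]; exact one_sub_pL hL)
  refine le_trans ?_ (a.trans (le_ciSup (f := fun x => ∑ y, heat (KL L) t x y *
    Real.log (heat (KL L) t x y / pL L y)) (Set.finite_range _).bddAbove 0))
  have l1 := Real.log_two_lt_d9
  have l2 := Real.log_two_gt_d9
  have b : c * ((L : ℝ) ^ 2 * (69 / 100)) ≤
      (1 - heat (KL L) t 0 (Fin.last _)) * ((L : ℝ) ^ 2 * Real.log 2) :=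
    mul_le_mul hc (mul_le_mul_of_nonneg_left (by linarith) (by positivity)) (by positivity)
      (hc0.trans hc)
  unfold KL at b
  push_cast
  linarith

lemma inv_R (hL : 20 ≤ L) : 1 / (2 : ℝ) ^ L ≤ 1 / (L : ℝ) ^ 4 := by
  have h : (20 : ℝ) ≤ L := by exact_mod_cast hL
  exact one_div_le_one_div_of_le (by positivity) (four_le hL)

lemma factA (hL : 20 ≤ L) {t : ℝ} (ht : 3 / 2 * L ≤ t) : entDist (KL L) (pL L) t ≤ 5000 := by
  have h : (20 : ℝ) ≤ L := by exact_mod_cast hL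
  obtain ⟨h1, h2, h3⟩ := cube_facts hL
  have P := par hL
  have iR := inv_R hL
  have hp := P.p0
  have a : ∀ x, 1 - 100 / (L : ℝ) ^ 2 - (L + 1) * (1 / (L : ℝ) ^ 4) ≤
      (KL L ^ (L + 1)) x (Fin.last _) := by
    intro x
    have b := (abs_le.1 (P.pow_II (L + 1) x)).1
    have c : 1 - 100 / (L : ℝ) ^ 2 ≤ II L (100 / (L : ℝ) ^ 2) (L + 1) x := by
      unfold II
      split_ifs with h4 h5
      · linarith
      · rw [le_div_iff₀ (by linarith)]; nlinarith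
      · omega
    have d := mul_le_mul_of_nonneg_left iR (show (0 : ℝ) ≤ L + 1 by positivity)
    push_cast at b
    unfold KL; linarith
  have e : (2 : ℝ) ^ L * Real.exp (-(t / 2)) ≤ 800 / (L : ℝ) ^ 2 := by
    have l1 := Real.log_two_lt_d9
    have e1 : (2 : ℝ) ^ L = Real.exp (L * Real.log 2) := by
      rw [Real.exp_nat_mul, Real.exp_log (by norm_num)]
    rw [e1, ← Real.exp_add]
    have e2 : L * Real.log 2 + -(t / 2) ≤ -(L / 20) := by nlinarith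
    refine (Real.exp_le_exp.2 e2).trans ?_
    have e3 := Real.quadratic_le_exp_of_nonneg (show (0 : ℝ) ≤ L / 20 by positivity)
    rw [Real.exp_neg, inv_eq_one_div, div_le_div_iff₀ (Real.exp_pos _) (by positivity)]
    nlinarith
  have q0 : (0 : ℝ) ≤ (L + 1) * (1 / (L : ℝ) ^ 4) := by positivity
  have f := ent_le hL (t := t) (c := 900 / (L : ℝ) ^ 2 + (L + 1) * (1 / (L : ℝ) ^ 4))
    (by linarith) fun x => by
      have := heat_ge P.KK_nonneg P.KK_row (Fin.last _) (by linarith) a (t := t) (by linarith) x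
      have e4 : 900 / (L : ℝ) ^ 2 = 100 / (L : ℝ) ^ 2 + 800 / (L : ℝ) ^ 2 := by ring
      unfold KL; linarith
  refine f.trans ?_
  have g1 : 1 / (L : ℝ) ≤ 1 := by rw [div_le_one (by linarith)]; linarith
  have g2 : (900 / (L : ℝ) ^ 2 + (L + 1) * (1 / (L : ℝ) ^ 4)) * (5 * (L : ℝ) ^ 2) =
      4500 + 5 * (L + 1) / (L : ℝ) ^ 2 := by field_simp; ring
  have g3 : 5 * (L + 1) / (L : ℝ) ^ 2 ≤ 1 := by rw [div_le_one (by positivity)]; linarith
  linarith

lemma factB (hL : 20 ≤ L) : entDist (KL L) (pL L) (10 * L) ≤ 20 / L := by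
  have h : (20 : ℝ) ≤ L := by exact_mod_cast hL
  obtain ⟨h1, h2, h3⟩ := cube_facts hL
  have P := par hL
  have iR := inv_R hL
  have a : ∀ x, 1 - (2 * L + 1) * (1 / (L : ℝ) ^ 4) ≤ (KL L ^ (2 * L + 1)) x (Fin.last _) := by
    intro x
    have b := (abs_le.1 (P.pow_II (2 * L + 1) x)).1
    rw [II, if_pos (by omega)] at b
    have d := mul_le_mul_of_nonneg_left iR (show (0 : ℝ) ≤ 2 * L + 1 by positivity)
    push_cast at b
    unfold KL; linarith
  have e : (2 : ℝ) ^ (2 * L) * Real.exp (-(10 * L / 2)) ≤ 1 / (L : ℝ) ^ 4 := by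
    refine le_trans ?_ iR
    have l1 := Real.log_two_lt_d9
    have e1 : ∀ k : ℕ, (2 : ℝ) ^ k = Real.exp (k * Real.log 2) := fun k => by
      rw [Real.exp_nat_mul, Real.exp_log (by norm_num)]
    rw [le_div_iff₀ (by positivity), e1, e1, ← Real.exp_add, ← Real.exp_add, Real.exp_le_one_iff]
    push_cast
    nlinarith
  have q0 : (0 : ℝ) ≤ (2 * L + 1) * (1 / (L : ℝ) ^ 4) := by positivity
  have f := ent_le hL (t := 10 * L) (c := (2 * L + 2) * (1 / (L : ℝ) ^ 4))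
    (by linarith) fun x => by
      have := heat_ge P.KK_nonneg P.KK_row (Fin.last _) (by linarith) a (t := 10 * L)
        (by linarith) x
      unfold KL; linarith
  refine f.trans ?_
  have g2 : 1 / (L : ℝ) + (2 * L + 2) * (1 / (L : ℝ) ^ 4) * (5 * (L : ℝ) ^ 2) =
      (11 + 10 / L) / L := by field_simp; ring
  have g3 : 10 / (L : ℝ) ≤ 1 := by rw [div_le_one (by positivity)]; linarith
  rw [g2]
  exact div_le_div_of_nonneg_right (by linarith) (by positivity)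

lemma factC (hL : 20 ≤ L) {t : ℝ} (h0 : 0 ≤ t) (ht : t ≤ 9 / 5 * L) :
    1 ≤ entDist (KL L) (pL L) t := by
  have h : (20 : ℝ) ≤ L := by exact_mod_cast hL
  obtain ⟨h1, h2, h3⟩ := cube_facts hL
  have P := par hL
  have iR := inv_R hL
  have hp := P.p0
  have hp1 := P.p1
  have a : ∀ k ≤ 2 * L, (KL L ^ k) 0 (Fin.last _) ≤ 1 - 50 / (L : ℝ) ^ 2 + k * (1 / (L : ℝ) ^ 4) := by
    intro k hk
    have b := (abs_le.1 (P.pow_II k 0)).2
    have c : II L (100 / (L : ℝ) ^ 2) k (0 : Fin (2 * L + 2)) ≤ 1 - 50 / (L : ℝ) ^ 2 := by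
      have e : 50 / (L : ℝ) ^ 2 = 100 / (L : ℝ) ^ 2 / 2 := by ring
      rw [e]
      unfold II
      simp only [Fin.val_zero]
      split_ifs with h4 h5
      · omega
      · rw [div_le_iff₀ (by linarith)]; nlinarith
      · linarith
    have d := mul_le_mul_of_nonneg_left iR (show (0 : ℝ) ≤ k by positivity)
    unfold KL; linarith
  have b := heat_le P.KK_nonneg P.KK_row 0 (Fin.last _) (by positivity) (by positivity)
    (by omega) a h0
  have c := mul_le_mul_of_nonneg_right ht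
    (show 0 ≤ 1 / (L : ℝ) ^ 4 + 50 / (L : ℝ) ^ 2 / (2 * L : ℕ) by positivity)
  have e : 9 / 5 * (L : ℝ) * (1 / (L : ℝ) ^ 4 + 50 / (L : ℝ) ^ 2 / (2 * L : ℕ)) =
      (45 + 9 / 5 / L) / (L : ℝ) ^ 2 := by push_cast; field_simp; ring
  have g : 9 / 5 / (L : ℝ) ≤ 1 := by rw [div_le_one (by positivity)]; linarith
  have g2 : (45 + 9 / 5 / L) / (L : ℝ) ^ 2 ≤ 46 / (L : ℝ) ^ 2 :=
    div_le_div_of_nonneg_right (by linarith) (by positivity)
  have f := ent_ge hL (c := 4 / (L : ℝ) ^ 2) h0 (by positivity) (by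
    have e4 : 50 / (L : ℝ) ^ 2 = 46 / (L : ℝ) ^ 2 + 4 / (L : ℝ) ^ 2 := by ring
    unfold KL; linarith)
  have e5 : 4 / (L : ℝ) ^ 2 * (L : ℝ) ^ 2 = 4 := by field_simp
  rw [e5] at f; linarith

lemma factD (hL : 20 ≤ L) {t : ℝ} (h0 : 0 ≤ t) (ht : t ≤ L / 2) :
    L ≤ entDist (KL L) (pL L) t := by
  have h : (20 : ℝ) ≤ L := by exact_mod_cast hL
  obtain ⟨h1, h2, h3⟩ := cube_facts hL
  have P := par hL
  have iR := inv_R hL
  have a : ∀ k ≤ L, (KL L ^ k) 0 (Fin.last _) ≤ 1 - 1 + k * (1 / (L : ℝ) ^ 4) := by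
    intro k hk
    have b := (abs_le.1 (P.pow_II k 0)).2
    rw [II, Fin.val_zero, if_neg (by omega), if_neg (by omega)] at b
    have d := mul_le_mul_of_nonneg_left iR (show (0 : ℝ) ≤ k by positivity)
    unfold KL; linarith
  have b := heat_le P.KK_nonneg P.KK_row 0 (Fin.last _) zero_le_one (by positivity)
    (by omega) a h0
  have c := mul_le_mul_of_nonneg_right ht (show 0 ≤ 1 / (L : ℝ) ^ 4 + 1 / (L : ℝ) by positivity)
  have e : (L : ℝ) / 2 * (1 / (L : ℝ) ^ 4 + 1 / (L : ℝ)) = 1 / 2 + 1 / (2 * (L : ℝ) ^ 3) := by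
    field_simp; ring
  have g : 1 / (2 * (L : ℝ) ^ 3) ≤ 1 / 10 := one_div_le_one_div_of_le (by norm_num) (by linarith)
  have f := ent_ge hL (c := 2 / 5) h0 (by positivity) (by unfold KL; linarith)
  linarith

lemma isRevL (hL : 20 ≤ L) : IsRevChain (KL L) (pL L) := by
  have h : (20 : ℝ) ≤ L := by exact_mod_cast hL
  obtain ⟨h1, h2, h3⟩ := cube_facts hL
  exact (par hL).isRev (by linarith [four_le hL])

lemma gapL (hL : 20 ≤ L) : 1 / 4 ≤ specGap (KL L) (pL L) := (par hL).gap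

end Pool.Agent.H44.Pak
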