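import Pool.Agent.H44.EntDefs

open MeasureTheory ProbabilityTheory InformationTheory Set
open scoped ENNReal

namespace Pool.Agent.H44.Ent

theorem kl_lower (ν γ : Measure ℝ) [IsProbabilityMeasure ν] [IsProbabilityMeasure γ] {B : Set ℝ}
    (h1 : ν B = 1) {L : ℝ} (hL : 0 ≤ L)
    (hγ : γ B ≤ ENNReal.ofReal (Real.exp (-L))) : ENNReal.ofReal (L - 1) ≤ klDiv ν γ := by
  by_cases hac : ν ≪ γ
  swap
  · rw [klDiv_of_not_ac hac]
    exact le_top
  rw [klDiv_eq_lintegral_klFun_of_ac hac]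
  have key : ∀ r : ℝ, 0 ≤ r → L * r ≤ klFun r + Real.exp L := by
    intro r hr
    rcases hr.eq_or_lt with rfl | hr
    · rw [klFun_zero]
      have := Real.exp_pos L
      linarith
    · have h := Real.add_one_le_exp (L - Real.log r)
      rw [Real.exp_sub, Real.exp_log hr, le_div_iff₀ hr] at h
      rw [klFun_apply]
      nlinarith
  have h2 : ENNReal.ofReal L ≤
      ∫⁻ x, ENNReal.ofReal (klFun (ν.rnDeriv γ x).toReal) ∂γ + 1 := by
    calc ENNReal.ofReal L = ∫⁻ x in B, ENNReal.ofReal L * ν.rnDeriv γ x ∂γ := by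
          rw [lintegral_const_mul _ (Measure.measurable_rnDeriv _ _),
            Measure.setLIntegral_rnDeriv hac, h1, mul_one]
      _ ≤ ∫⁻ x in B, (ENNReal.ofReal (klFun (ν.rnDeriv γ x).toReal) +
            ENNReal.ofReal (Real.exp L)) ∂γ := by
          refine lintegral_mono_ae (ae_restrict_of_ae ?_)
          filter_upwards [Measure.rnDeriv_lt_top ν γ] with x hx
          rw [← ENNReal.ofReal_add (klFun_nonneg ENNReal.toReal_nonneg) (Real.exp_pos _).le]
          conv_lhs => rw [← ENNReal.ofReal_toReal hx.ne, ← ENNReal.ofReal_mul hL]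
          exact ENNReal.ofReal_le_ofReal (key _ ENNReal.toReal_nonneg)
      _ ≤ _ := by
          rw [lintegral_add_right _ measurable_const]
          refine add_le_add (setLIntegral_le_lintegral _ _) ?_
          rw [setLIntegral_const]
          calc _ ≤ ENNReal.ofReal (Real.exp L) * ENNReal.ofReal (Real.exp (-L)) := by gcongr
            _ = 1 := by
              rw [← ENNReal.ofReal_mul (Real.exp_pos _).le, ← Real.exp_add]
              simp
  rw [ENNReal.ofReal_sub _ zero_le_one, ENNReal.ofReal_one]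
  exact tsub_le_iff_right.2 h2

theorem kl_upper (μ γ : Measure ℝ) [IsProbabilityMeasure μ] [IsProbabilityMeasure γ] {L : ℝ}
    (hL : 0 ≤ L) (h : μ ≤ ENNReal.ofReal (Real.exp L) • γ) :
    klDiv μ γ ≤ ENNReal.ofReal (L + 1) := by
  have hac : μ ≪ γ := (Measure.absolutelyContinuous_of_le h).trans
    Measure.smul_absolutelyContinuous
  rw [klDiv_eq_lintegral_klFun_of_ac hac]
  have hr : ∀ᵐ x ∂γ, μ.rnDeriv γ x ≤ ENNReal.ofReal (Real.exp L) := by
    refine ae_le_of_forall_setLIntegral_le_of_sigmaFinite (Measure.measurable_rnDeriv _ _)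
      fun s _ _ => ?_
    rw [Measure.setLIntegral_rnDeriv hac, setLIntegral_const]
    simpa using h s
  calc _ ≤ ∫⁻ x, (ENNReal.ofReal L * μ.rnDeriv γ x + 1) ∂γ := by
        refine lintegral_mono_ae ?_
        filter_upwards [hr] with x hx
        have hx' : μ.rnDeriv γ x ≠ ∞ := ne_top_of_le_ne_top ENNReal.ofReal_ne_top hx
        have h3 : (μ.rnDeriv γ x).toReal ≤ Real.exp L :=
          ENNReal.toReal_le_of_le_ofReal (Real.exp_pos _).le hx
        have h0 : 0 ≤ (μ.rnDeriv γ x).toReal := ENNReal.toReal_nonneg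
        conv_rhs => rw [← ENNReal.ofReal_toReal hx', ← ENNReal.ofReal_mul hL,
          ← ENNReal.ofReal_one, ← ENNReal.ofReal_add (mul_nonneg hL h0) zero_le_one]
        refine ENNReal.ofReal_le_ofReal ?_
        generalize (μ.rnDeriv γ x).toReal = r at h3 h0
        rw [klFun_apply]
        rcases h0.eq_or_lt with rfl | hr
        · simp
        · have : Real.log r ≤ L := (Real.log_le_iff_le_exp hr).2 h3
          nlinarith
    _ = _ := by
        rw [lintegral_add_right _ measurable_const,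
          lintegral_const_mul _ (Measure.measurable_rnDeriv _ _), Measure.lintegral_rnDeriv hac,
          ENNReal.ofReal_add hL zero_le_one]
        simp

/-- two small uniform bumps at `a` and `-a` -/
noncomputable def bump (a δ : ℝ) : Measure ℝ :=
  ENNReal.ofReal (1 / (4 * δ)) • (volume.restrict (Ioc (a - δ) (a + δ)) +
    volume.restrict (Ioc (-a - δ) (-a + δ)))

theorem bump_prob (a : ℝ) {δ : ℝ} (hδ : 0 < δ) : IsProbabilityMeasure (bump a δ) := ⟨by
  simp only [bump, Measure.coe_smul, Measure.coe_add, Pi.smul_apply, Pi.add_apply,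
    Measure.restrict_apply_univ, Real.volume_Ioc, smul_eq_mul]
  rw [← ENNReal.ofReal_add (by linarith) (by linarith), ← ENNReal.ofReal_mul (by positivity),
    ← ENNReal.ofReal_one]
  congr 1
  field_simp
  ring⟩

theorem bump_integrable (a δ : ℝ) {g : ℝ → ℝ} (hg : Continuous g) : Integrable g (bump a δ) :=
  (Integrable.add_measure (hg.integrableOn_Ioc) (hg.integrableOn_Ioc)).smul_measure
    ENNReal.ofReal_ne_top

theorem bump_integral (a : ℝ) {δ : ℝ} (hδ : 0 < δ) {g : ℝ → ℝ} (hg : Continuous g) :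
    ∫ x, g x ∂bump a δ =
      1 / (4 * δ) * ((∫ x in (a - δ)..(a + δ), g x) + ∫ x in (-a - δ)..(-a + δ), g x) := by
  rw [bump, integral_smul_measure, integral_add_measure hg.integrableOn_Ioc hg.integrableOn_Ioc,
    intervalIntegral.integral_of_le (by linarith), intervalIntegral.integral_of_le (by linarith),
    ENNReal.toReal_ofReal (by positivity), smul_eq_mul]

theorem bump_ae (a δ : ℝ) : ∀ᵐ x ∂bump a δ, |x - a| ≤ δ ∨ |x + a| ≤ δ := by
  refine Measure.ae_smul_measure (ae_add_measure_iff.2 ⟨?_, ?_⟩) _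
  · filter_upwards [ae_restrict_mem measurableSet_Ioc] with x hx
    exact Or.inl (abs_le.2 ⟨by linarith [hx.1], by linarith [hx.2]⟩)
  · filter_upwards [ae_restrict_mem measurableSet_Ioc] with x hx
    exact Or.inr (abs_le.2 ⟨by linarith [hx.1], by linarith [hx.2]⟩)

theorem bump_adm {a δ M : ℝ} (hδ : 0 < δ) (ha : 0 ≤ a) (h : a ^ 2 + δ ^ 2 / 3 = 1)
    (hM : (a + δ) ^ 2 ≤ M) : Adm M (bump a δ) := by
  have h2 : ∫ x, x ^ 2 ∂bump a δ = 1 := by
    rw [bump_integral a hδ (by fun_prop), integral_pow, integral_pow]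
    refine Eq.trans ?_ h
    field_simp
    ring
  refine ⟨bump_prob a hδ, bump_integrable _ _ (by fun_prop), ?_, h2, ?_⟩
  · rw [bump_integral a hδ (by fun_prop), integral_id, integral_id]
    ring
  · calc _ ≤ ∫ x, M * x ^ 2 ∂bump a δ := by
          refine integral_mono_ae (bump_integrable _ _ (by fun_prop))
            (bump_integrable _ _ (by fun_prop)) ?_
          filter_upwards [bump_ae a δ] with x hx
          have : x ^ 2 ≤ (a + δ) ^ 2 := by
            refine sq_le_sq' ?_ ?_ <;> rcases hx with hx | hx <;> have := abs_le.1 hx <;>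
              linarith [this.1, this.2]
          nlinarith [sq_nonneg x]
      _ = M := by rw [integral_const_mul, h2, mul_one]

theorem pdf_ge {x : ℝ} (hx : |x| ≤ 2) : 1 / 30 ≤ gaussianPDFReal 0 1 x := by
  simp only [gaussianPDFReal, NNReal.coe_one, mul_one, sub_zero]
  have h1 : √(2 * Real.pi) ≤ 3 := Real.sqrt_le_iff.2 ⟨by norm_num, by linarith [Real.pi_lt_d2]⟩
  have h0 : 0 < √(2 * Real.pi) := Real.sqrt_pos.2 (by linarith [Real.pi_pos])
  have h2 : 1 / 3 ≤ (√(2 * Real.pi))⁻¹ := by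
    rw [one_div]
    exact inv_anti₀ h0 h1
  have h3 : 1 / 10 ≤ Real.exp (-x ^ 2 / 2) := by
    have : x ^ 2 ≤ 4 := by
      have := abs_le.1 hx
      nlinarith [this.1, this.2]
    have h4 : Real.exp (-2) ≤ Real.exp (-x ^ 2 / 2) := Real.exp_le_exp.2 (by linarith)
    have h5 : Real.exp 2 ≤ 10 := by
      have := Real.exp_one_lt_d9
      have h6 : Real.exp 2 = Real.exp 1 * Real.exp 1 := by rw [← Real.exp_add]; norm_num
      nlinarith [Real.exp_pos 1]
    refine le_trans ?_ h4
    rw [Real.exp_neg, one_div]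
    exact inv_anti₀ (Real.exp_pos _) h5
  nlinarith

theorem pdf_le (x : ℝ) : gaussianPDFReal 0 1 x ≤ 1 := by
  simp only [gaussianPDFReal, NNReal.coe_one, mul_one, sub_zero]
  have h1 : 1 ≤ √(2 * Real.pi) := Real.one_le_sqrt.2 (by linarith [Real.pi_gt_three])
  refine mul_le_one₀ (inv_le_one_of_one_le₀ h1) (Real.exp_pos _).le ?_
  exact Real.exp_le_one_iff.2 (by nlinarith [sq_nonneg x])

theorem restrict_le_gauss {s : Set ℝ} (hs : MeasurableSet s) (h : ∀ x ∈ s, |x| ≤ 2) :
    volume.restrict s ≤ (30 : ℝ≥0∞) • gaussianReal 0 1 := by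
  refine Measure.le_iff.2 fun t ht => ?_
  rw [Measure.smul_apply, gaussianReal_apply _ one_ne_zero, Measure.restrict_apply ht, smul_eq_mul,
    ← lintegral_const_mul _ (measurable_gaussianPDF _ _), ← setLIntegral_one]
  refine le_trans (setLIntegral_mono' (ht.inter hs) fun x hx => ?_)
    (lintegral_mono_set inter_subset_left)
  rw [gaussianPDF, ← ENNReal.ofReal_ofNat, ← ENNReal.ofReal_mul (by norm_num),
    ← ENNReal.ofReal_one]
  exact ENNReal.ofReal_le_ofReal (by linarith [pdf_ge (h x hx.2)])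

theorem gauss_le_volume (s : Set ℝ) : gaussianReal 0 1 s ≤ volume s := by
  rw [gaussianReal_apply _ one_ne_zero, ← setLIntegral_one]
  refine lintegral_mono fun x => ?_
  rw [gaussianPDF, ← ENNReal.ofReal_one]
  exact ENNReal.ofReal_le_ofReal (pdf_le x)

theorem bump_le {a δ : ℝ} (hδ : 0 < δ) (ha : 0 ≤ a) (h : a + δ ≤ 2) :
    bump a δ ≤ ENNReal.ofReal (15 / δ) • gaussianReal 0 1 := by
  have h1 := restrict_le_gauss (s := Ioc (a - δ) (a + δ)) measurableSet_Ioc
    fun x hx => abs_le.2 ⟨by linarith [hx.1], by linarith [hx.2]⟩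
  have h2 := restrict_le_gauss (s := Ioc (-a - δ) (-a + δ)) measurableSet_Ioc
    fun x hx => abs_le.2 ⟨by linarith [hx.1], by linarith [hx.2]⟩
  intro t
  have h3 := add_le_add (h1 t) (h2 t)
  simp only [bump, Measure.coe_smul, Measure.coe_add, Pi.smul_apply, Pi.add_apply,
    smul_eq_mul] at h3 ⊢
  refine (mul_le_mul_right h3 _).trans (le_of_eq ?_)
  rw [← add_mul, ← mul_assoc]
  congr 1
  rw [← ENNReal.ofReal_ofNat, ← ENNReal.ofReal_add (by norm_num) (by norm_num),
    ← ENNReal.ofReal_mul (by positivity)]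
  congr 1
  field_simp
  norm_num

theorem sum_near {ι : Type*} [DecidableEq ι] (a δ : ℝ) (x : ι → ℝ)
    (hx : ∀ i, |x i - a| ≤ δ ∨ |x i + a| ≤ δ) (s : Finset ι) :
    ∃ j : ℕ, j ≤ s.card ∧ |∑ i ∈ s, x i - (2 * j - s.card) * a| ≤ s.card * δ := by
  induction s using Finset.induction_on with
  | empty => exact ⟨0, by simp⟩
  | insert i s hi ih =>
    obtain ⟨j, hj, h⟩ := ih
    rw [Finset.sum_insert hi, Finset.card_insert_of_notMem hi]
    have h' := abs_le.1 h
    rcases hx i with h1 | h1 <;> have h2 := abs_le.1 h1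
    · refine ⟨j + 1, by omega, abs_le.2 ⟨?_, ?_⟩⟩ <;> push_cast <;> linarith [h'.1, h'.2, h2.1, h2.2]
    · refine ⟨j, by omega, abs_le.2 ⟨?_, ?_⟩⟩ <;> push_cast <;> linarith [h'.1, h'.2, h2.1, h2.2]

theorem measurable_S (n : ℕ) : Measurable fun x : Fin n → ℝ => (∑ i, x i) / √n := by fun_prop

theorem law_prob (μ : Measure ℝ) [IsProbabilityMeasure μ] (n : ℕ) :
    IsProbabilityMeasure (law μ n) :=
  Measure.isProbabilityMeasure_map (measurable_S n).aemeasurable

theorem D_lower (a : ℝ) {δ : ℝ} (hδ : 0 < δ) {n : ℕ} (hn : 1 ≤ n) {L : ℝ} (hL : 0 ≤ L)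
    (h : (n + 1) * (2 * (n * δ)) ≤ Real.exp (-L)) :
    ENNReal.ofReal (L - 1) ≤ D (law (bump a δ) n) := by
  have := bump_prob a hδ
  have := law_prob (bump a δ) n
  have hs : 1 ≤ √(n : ℝ) := Real.one_le_sqrt.2 (by exact_mod_cast hn)
  let c : ℕ → ℝ := fun j => (2 * j - n) * a / √n
  let B : Set ℝ := ⋃ j ∈ Finset.range (n + 1), Icc (c j - n * δ) (c j + n * δ)
  have hB : MeasurableSet B := Finset.measurableSet_biUnion _ fun _ _ => measurableSet_Icc
  refine kl_lower _ _ (B := B) ?_ hL ?_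
  · rw [← mem_ae_iff_prob_eq_one hB, law]
    refine (ae_map_iff (measurable_S n).aemeasurable hB).2 ?_
    have h1 : ∀ᵐ x ∂(Measure.pi fun _ : Fin n => bump a δ), ∀ i, |x i - a| ≤ δ ∨ |x i + a| ≤ δ :=
      ae_all_iff.2 fun i =>
        (measurePreserving_eval (fun _ : Fin n => bump a δ) i).quasiMeasurePreserving.ae
          (bump_ae a δ)
    filter_upwards [h1] with x hx
    obtain ⟨j, hj, h2⟩ := sum_near a δ x hx Finset.univ
    simp only [Finset.card_univ, Fintype.card_fin] at hj h2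
    refine mem_iUnion₂.2 ⟨j, Finset.mem_range.2 (by omega), ?_⟩
    have h3 : |(∑ i, x i) / √n - c j| ≤ n * δ := by
      simp only [c]
      rw [← sub_div, abs_div, abs_of_pos (by linarith : 0 < √(n : ℝ))]
      exact (div_le_self (abs_nonneg _) hs).trans h2
    have h4 := abs_le.1 h3
    exact ⟨by linarith [h4.1], by linarith [h4.2]⟩
  · refine (gauss_le_volume _).trans ((measure_biUnion_finset_le _ _).trans ?_)
    simp only [Real.volume_Icc]
    rw [← ENNReal.ofReal_sum_of_nonneg fun j _ => by nlinarith [Nat.cast_nonneg (α := ℝ) n]]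
    refine ENNReal.ofReal_le_ofReal (le_trans (le_of_eq ?_) h)
    rw [Finset.sum_congr rfl (g := fun _ => 2 * (n * δ)) fun j _ => by ring]
    simp

theorem D_false {M : ℝ} (hM : 1 < M) (C : ℝ) : ∃ (μ : Measure ℝ) (n : ℕ), Adm M μ ∧ 1 ≤ n ∧
    D μ ≠ ∞ ∧ ENNReal.ofReal (C / n) * D μ < D (law μ n) := by
  obtain ⟨n, hn⟩ := exists_nat_ge (2 * |C| + 1)
  have hn1 : (1 : ℝ) ≤ n := by linarith [abs_nonneg C]
  have hC : C / n ≤ 1 / 2 := by
    rw [div_le_iff₀ (by linarith)]
    linarith [le_abs_self C]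
  -- `δ = exp (-T)`
  obtain ⟨T, hT⟩ := exists_nat_ge (max (3 / (M - 1)) (2 * ((n + 1) * (2 * n)) + 20))
  have hT1 : 3 / (M - 1) ≤ T := (le_max_left _ _).trans hT
  have hT2 : 2 * (((n : ℝ) + 1) * (2 * n)) + 20 ≤ T := (le_max_right _ _).trans hT
  set K : ℝ := (n + 1) * (2 * n) with hK
  have hK0 : 0 < K := by positivity
  set δ := Real.exp (-T) with hδ
  have hδ0 : 0 < δ := Real.exp_pos _
  have hTδ : T * δ ≤ 1 := by
    rw [hδ, Real.exp_neg, ← div_eq_mul_inv, div_le_one (Real.exp_pos _)]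
    linarith [Real.add_one_le_exp (T : ℝ)]
  have hδ1 : δ ≤ 1 / 20 := by nlinarith
  have hδM : 3 * δ ≤ M - 1 := by
    rw [div_le_iff₀ (by linarith)] at hT1
    nlinarith
  set a := √(1 - δ ^ 2 / 3) with ha
  have ha2 : a ^ 2 = 1 - δ ^ 2 / 3 := Real.sq_sqrt (by nlinarith)
  have ha0 : 0 ≤ a := Real.sqrt_nonneg _
  have ha1 : a ≤ 1 := by nlinarith
  have := bump_prob a hδ0
  have hU : D (bump a δ) ≤ ENNReal.ofReal (T + 15 + 1) := by
    refine kl_upper _ _ (by positivity) ((bump_le hδ0 ha0 (by linarith)).trans ?_)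
    intro t
    simp only [Measure.coe_smul, Pi.smul_apply, smul_eq_mul]
    refine mul_le_mul_left (ENNReal.ofReal_le_ofReal ?_) _
    rw [hδ, Real.exp_neg, div_inv_eq_mul, Real.exp_add, mul_comm]
    exact mul_le_mul_of_nonneg_left (by linarith [Real.add_one_le_exp 15]) (Real.exp_pos _).le
  have hL : ENNReal.ofReal (T - K - 1) ≤ D (law (bump a δ) n) := by
    refine D_lower a hδ0 (by exact_mod_cast hn1) (by linarith) ?_
    rw [neg_sub, sub_eq_add_neg, Real.exp_add, ← hδ]
    have := Real.add_one_le_exp K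
    calc ((n : ℝ) + 1) * (2 * (n * δ)) = K * δ := by rw [hK]; ring
      _ ≤ _ := by nlinarith
  refine ⟨bump a δ, n, bump_adm hδ0 ha0 (by linarith) (by nlinarith), by exact_mod_cast hn1,
    ne_top_of_le_ne_top ENNReal.ofReal_ne_top hU, lt_of_lt_of_le ?_ hL⟩
  calc _ ≤ ENNReal.ofReal (1 / 2) * ENNReal.ofReal (T + 15 + 1) :=
        mul_le_mul' (ENNReal.ofReal_le_ofReal hC) hU
    _ < _ := by
        rw [← ENNReal.ofReal_mul (by norm_num), ENNReal.ofReal_lt_ofReal_iff (by linarith)]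
        linarith

end Pool.Agent.H44.Ent
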