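import Mathlib

/-! Normalised sums, relative entropy and relative Fisher information. -/

open MeasureTheory ProbabilityTheory
open scoped ENNReal

namespace Pool.Agent.H44.Ent

/-- the law of `S_n = (X_1 + ... + X_n) / √n` for i.i.d. `X_i` of law `μ` -/
noncomputable def law (μ : Measure ℝ) (n : ℕ) : Measure ℝ :=
  (Measure.pi fun _ : Fin n => μ).map fun x => (∑ i, x i) / √n

/-- `μ` is a probability law with mean `0`, second moment `1` and fourth moment at most `M` -/
def Adm (M : ℝ) (μ : Measure ℝ) : Prop :=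
  IsProbabilityMeasure μ ∧ Integrable (fun x => x ^ 4) μ ∧ ∫ x, x ∂μ = 0 ∧ ∫ x, x ^ 2 ∂μ = 1 ∧
    ∫ x, x ^ 4 ∂μ ≤ M

/-- relative entropy to the standard normal law -/
noncomputable def D (μ : Measure ℝ) : ℝ≥0∞ := InformationTheory.klDiv μ (gaussianReal 0 1)

/-- `f` is a locally absolutely continuous density of `μ` -/
def ACDensity (μ : Measure ℝ) (f : ℝ → ℝ) : Prop :=
  (∀ x, 0 ≤ f x) ∧ μ = volume.withDensity (fun x => ENNReal.ofReal (f x)) ∧
    ∀ a b, AbsolutelyContinuousOnInterval f a b

/-- relative Fisher information `∫ f (f'/f + x)^2`; it is `∞` when `μ` has no locally absolutely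
continuous density (such a density is unique when it exists) -/
noncomputable def J (μ : Measure ℝ) : ℝ≥0∞ :=
  ⨅ (f : ℝ → ℝ) (_ : ACDensity μ f), ∫⁻ x, ENNReal.ofReal (f x * (deriv f x / f x + x) ^ 2)

end Pool.Agent.H44.Ent
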