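import Pool.Agent.H44.EntD

open MeasureTheory ProbabilityTheory Set Filter Topology
open scoped ENNReal NNReal

namespace Pool.Agent.H44.Ent

theorem ofReal_integral_le {μ : Measure ℝ} {h : ℝ → ℝ} (hi : Integrable h μ) :
    ENNReal.ofReal (∫ x, h x ∂μ) ≤ ∫⁻ x, ENNReal.ofReal (h x) ∂μ := by
  calc _ ≤ ENNReal.ofReal (∫ x, max (h x) 0 ∂μ) :=
        ENNReal.ofReal_le_ofReal (integral_mono hi hi.pos_part fun x => le_max_left _ _)
    _ = _ := by
        rw [ofReal_integral_eq_lintegral_ofReal hi.pos_part (ae_of_all _ fun x => le_max_right _ _)]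
        simp [ENNReal.ofReal_max]

theorem score_ge {f f' x s l : ℝ} (hf : 0 ≤ f) (h0 : f = 0 → f' = 0) (hs : s ^ 2 ≤ 1) (hl : 0 ≤ l) :
    -2 * l * (s * f') - (l * (x ^ 2 + 1) + l ^ 2) * f ≤ f * (f' / f + x) ^ 2 := by
  rcases hf.eq_or_lt with rfl | hf
  · simp [h0 rfl]
  · obtain ⟨r, rfl⟩ : ∃ r, f' = r * f := ⟨f' / f, by field_simp⟩
    rw [mul_div_cancel_right₀ _ hf.ne']
    have h1 : -2 * l * (s * r) - (l * (x ^ 2 + 1) + l ^ 2) ≤ (r + x) ^ 2 := by
      nlinarith [sq_nonneg (r + x + l * s), mul_nonneg hl (sq_nonneg (x - s)),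
        mul_nonneg hl (sub_nonneg.2 hs), mul_nonneg (sq_nonneg l) (sub_nonneg.2 hs)]
    nlinarith [mul_le_mul_of_nonneg_left h1 hf.le]

theorem J_lower (ν : Measure ℝ) [IsProbabilityMeasure ν] (hi : Integrable (fun x => x ^ 2) ν)
    {m w : ℝ} (hm : ∫ x, x ^ 2 ∂ν ≤ m) (hw : 0 < w) (hc : 1 / 2 ≤ ∫ x, Real.cos (w * x) ∂ν) :
    ENNReal.ofReal (w ^ 2 / 4 - w * (m + 1) / 2) ≤ J ν := by
  refine le_iInf₂ fun f hf => ?_
  obtain ⟨hf0, hν, hac⟩ := hf
  have hcont : Continuous f := continuous_iff_continuousAt.2 fun x =>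
    (hac (x - 1) (x + 1)).continuousOn.continuousAt (by
      rw [uIcc_of_le (by linarith)]
      exact Icc_mem_nhds (by linarith) (by linarith))
  have hmeas : Measurable fun x => ENNReal.ofReal (f x) := hcont.measurable.ennreal_ofReal
  set l := w / 2 with hl
  have hl0 : 0 ≤ l := by positivity
  let g : ℝ → ℝ := fun x => 2 * l * (w * Real.cos (w * x)) - (l * (x ^ 2 + 1) + l ^ 2)
  have hcos : Integrable (fun x => Real.cos (w * x)) ν :=
    (integrable_const (1 : ℝ)).mono' (by fun_prop) (ae_of_all _ fun x => Real.abs_cos_le_one _)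
  have hg1 : Integrable (fun x => 2 * l * (w * Real.cos (w * x))) ν :=
    (hcos.const_mul w).const_mul _
  have hg3 : Integrable (fun x : ℝ => l * (x ^ 2 + 1)) ν :=
    (hi.add (integrable_const _)).const_mul _
  have hg2 : Integrable (fun x : ℝ => l * (x ^ 2 + 1) + l ^ 2) ν := hg3.add (integrable_const _)
  have hg : Integrable g ν := hg1.sub hg2
  have hgv : w ^ 2 / 4 - w * (m + 1) / 2 ≤ ∫ x, g x ∂ν := by
    simp only [g]
    rw [integral_sub hg1 hg2, integral_add hg3 (integrable_const _), integral_const_mul,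
      integral_const_mul, integral_const_mul, integral_add hi (integrable_const _)]
    simp only [integral_const, probReal_univ, smul_eq_mul, one_mul, hl]
    nlinarith [mul_le_mul_of_nonneg_left hc (sq_nonneg w), mul_le_mul_of_nonneg_left hm hw.le]
  have hgf : Integrable fun x => g x * f x := by
    rw [hν, integrable_withDensity_iff hmeas (by simp)] at hg
    simpa only [ENNReal.toReal_ofReal (hf0 _)] using hg
  have hint : ∫ x, g x ∂ν = ∫ x, g x * f x := by
    rw [hν, integral_withDensity_eq_integral_toReal_smul hmeas (by simp)]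
    simp only [ENNReal.toReal_ofReal (hf0 _), smul_eq_mul, mul_comm]
  let R : ℕ → ℝ := fun k => k * Real.pi / w
  have hR : Tendsto R atTop atTop :=
    (tendsto_natCast_atTop_atTop.atTop_mul_const Real.pi_pos).atTop_div_const hw
  have hlim := intervalIntegral_tendsto_integral hgf (tendsto_neg_atTop_atBot.comp hR) hR
  refine (ENNReal.ofReal_le_ofReal (hgv.trans hint.le)).trans
    (le_of_tendsto' ((ENNReal.continuous_ofReal.tendsto _).comp hlim) fun k => ?_)
  have hk : 0 ≤ R k := by positivity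
  have hs : ∀ x, HasDerivAt (fun x => Real.sin (w * x)) (w * Real.cos (w * x)) x := fun x => by
    have := ((hasDerivAt_id x).const_mul w).sin
    simpa [mul_comm] using this
  have hsac : AbsolutelyContinuousOnInterval (fun x => Real.sin (w * x)) (-R k) (R k) :=
    ContDiffOn.absolutelyContinuousOnInterval (by fun_prop)
  have hibp := hsac.integral_mul_deriv_eq_deriv_mul (hac _ _)
  have hz : Real.sin (w * R k) = 0 := by
    simp only [R]
    rw [mul_div_cancel₀ _ hw.ne', Real.sin_nat_mul_pi]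
  simp only [mul_neg, Real.sin_neg, hz, (hs _).deriv, zero_mul, neg_zero, sub_zero,
    zero_sub] at hibp
  have i1 : IntervalIntegrable (fun x => Real.sin (w * x) * deriv f x) volume (-R k) (R k) :=
    (hac _ _).intervalIntegrable_deriv.continuousOn_mul (by fun_prop)
  have i2 : IntervalIntegrable (fun x => (l * (x ^ 2 + 1) + l ^ 2) * f x) volume (-R k) (R k) :=
    Continuous.intervalIntegrable (by fun_prop) _ _
  have i3 : IntervalIntegrable (fun x => w * Real.cos (w * x) * f x) volume (-R k) (R k) :=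
    Continuous.intervalIntegrable (by fun_prop) _ _
  have i4 := (i1.const_mul (-2 * l)).sub i2
  have e : ∫ x in (-R k)..(R k), g x * f x = ∫ x in (-R k)..(R k),
      (-2 * l * (Real.sin (w * x) * deriv f x) - (l * (x ^ 2 + 1) + l ^ 2) * f x) := by
    rw [intervalIntegral.integral_sub (i1.const_mul _) i2, intervalIntegral.integral_const_mul,
      hibp, mul_neg, ← neg_mul, ← intervalIntegral.integral_const_mul,
      ← intervalIntegral.integral_sub (i3.const_mul _) i2]
    congr 1
    funext x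
    simp only [g]
    ring
  simp only [Function.comp]
  rw [e, intervalIntegral.integral_of_le (by linarith)]
  refine (ofReal_integral_le i4.1).trans ((lintegral_mono fun x => ?_).trans
    (setLIntegral_le_lintegral _ _))
  refine ENNReal.ofReal_le_ofReal (score_ge (hf0 x) (fun h => ?_) (Real.sin_sq_le_one _) hl0)
  exact IsLocalMin.deriv_eq_zero (Eventually.of_forall fun y => h.le.trans (hf0 y))

/-- mixture of two narrow Gaussians -/
noncomputable def mix (a : ℝ) (v : ℝ≥0) : Measure ℝ :=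
  (2 : ℝ≥0∞)⁻¹ • (gaussianReal a v + gaussianReal (-a) v)

theorem mix_prob (a : ℝ) (v : ℝ≥0) : IsProbabilityMeasure (mix a v) := ⟨by
  simp only [mix, Measure.coe_smul, Measure.coe_add, Pi.smul_apply, Pi.add_apply, measure_univ,
    smul_eq_mul]
  rw [one_add_one_eq_two, ENNReal.inv_mul_cancel (by simp) (by simp)]⟩

theorem gauss_integrable (a : ℝ) (v : ℝ≥0) (k : ℕ) :
    Integrable (fun x => x ^ k) (gaussianReal a v) :=
  integrable_pow_of_mem_interior_integrableExpSet (X := fun x => x) (by simp) k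

theorem mix_integrable (a : ℝ) (v : ℝ≥0) (k : ℕ) : Integrable (fun x => x ^ k) (mix a v) :=
  ((gauss_integrable a v k).add_measure (gauss_integrable _ v k)).smul_measure (by simp)

theorem mix_integral {E : Type*} [NormedAddCommGroup E] [NormedSpace ℝ E] (a : ℝ) (v : ℝ≥0)
    {g : ℝ → E} (h1 : Integrable g (gaussianReal a v)) (h2 : Integrable g (gaussianReal (-a) v)) :
    ∫ x, g x ∂mix a v =
      (2 : ℝ)⁻¹ • (∫ x, g x ∂gaussianReal a v + ∫ x, g x ∂gaussianReal (-a) v) := by
  rw [mix, integral_smul_measure, integral_add_measure h1 h2]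
  simp

theorem gauss_moments (a : ℝ) (v : ℝ≥0) : ∫ x, x ^ 2 ∂gaussianReal a v = a ^ 2 + v ∧
    ∫ x, x ^ 4 ∂gaussianReal a v = a ^ 4 + 6 * a ^ 2 * v + 3 * v ^ 2 := by
  have h : ∀ k, ∫ x, x ^ k ∂gaussianReal a v =
      iteratedDeriv k (fun t => Real.exp (a * t + v * t ^ 2 / 2)) 0 := fun k => by
    rw [← mgf_fun_id_gaussianReal, iteratedDeriv_mgf_zero (by simp)]
    rfl
  set e : ℝ → ℝ := fun t => Real.exp (a * t + v * t ^ 2 / 2) with he
  have hu : ∀ t : ℝ, HasDerivAt (fun t : ℝ => a + v * t) v t := fun t => by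
    simpa using ((hasDerivAt_id t).const_mul (v : ℝ)).const_add a
  have h0 : ∀ t, HasDerivAt e ((a + v * t) * e t) t := fun t => by
    have h1 : HasDerivAt (fun t : ℝ => a * t + v * t ^ 2 / 2) (a + v * t) t := by
      have := ((hasDerivAt_id t).const_mul a).add
        ((((hasDerivAt_id t).pow 2).const_mul (v : ℝ)).div_const 2)
      exact this.congr_deriv (by simp; ring)
    simpa [he, mul_comm] using h1.exp
  have d1 : deriv e = fun t => (a + v * t) * e t := funext fun t => (h0 t).deriv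
  have d2 : deriv (fun t => (a + v * t) * e t) = fun t => (v + (a + v * t) ^ 2) * e t :=
    funext fun t => (((hu t).mul (h0 t)).deriv).trans (by ring)
  have d3 : deriv (fun t => (v + (a + v * t) ^ 2) * e t) =
      fun t => (3 * v * (a + v * t) + (a + v * t) ^ 3) * e t :=
    funext fun t => (((((hu t).pow 2).const_add (v : ℝ)).mul (h0 t)).deriv).trans (by simp; ring)
  have d4 : deriv (fun t => (3 * v * (a + v * t) + (a + v * t) ^ 3) * e t) =
      fun t => (3 * v ^ 2 + 6 * v * (a + v * t) ^ 2 + (a + v * t) ^ 4) * e t :=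
    funext fun t => (((((hu t).const_mul (3 * v : ℝ)).add ((hu t).pow 3)).mul (h0 t)).deriv).trans
      (by simp; ring)
  have e0 : e 0 = 1 := by simp [he]
  constructor
  · rw [h, iteratedDeriv_succ, iteratedDeriv_one, d1, d2]
    simp [e0, add_comm]
  · rw [h, iteratedDeriv_succ, iteratedDeriv_succ, iteratedDeriv_succ, iteratedDeriv_one, d1, d2,
      d3, d4]
    simp [e0]
    ring

theorem mix_sq (a : ℝ) (v : ℝ≥0) : ∫ x, x ^ 2 ∂mix a v = a ^ 2 + v := by
  rw [mix_integral a v (gauss_integrable _ _ _) (gauss_integrable _ _ _), (gauss_moments _ _).1,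
    (gauss_moments _ _).1, smul_eq_mul]
  ring

theorem mix_adm {a M : ℝ} {v : ℝ≥0} (h : a ^ 2 + v = 1) (hM : 1 + 4 * v ≤ M) :
    Adm M (mix a v) := by
  refine ⟨mix_prob a v, mix_integrable _ _ _, ?_, by rw [mix_sq, h], ?_⟩
  · rw [mix_integral a v (by simpa using gauss_integrable a v 1)
      (by simpa using gauss_integrable (-a) v 1)]
    simp
  · rw [mix_integral a v (gauss_integrable _ _ _) (gauss_integrable _ _ _), (gauss_moments _ _).2,
      (gauss_moments _ _).2, smul_eq_mul]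
    have h2 : a ^ 4 = (1 - v) ^ 2 := by rw [← h]; ring
    have h3 : (-a) ^ 4 = (1 - v) ^ 2 := by rw [← h]; ring
    have h4 : a ^ 2 = 1 - v := by linarith
    rw [h2, h3, neg_sq, h4]
    nlinarith [sq_nonneg (v : ℝ)]

theorem pdf_deriv (a : ℝ) {v : ℝ≥0} (hv : v ≠ 0) (x : ℝ) :
    HasDerivAt (gaussianPDFReal a v) (-((x - a) / v) * gaussianPDFReal a v x) x := by
  have hv' : (v : ℝ) ≠ 0 := by exact_mod_cast hv
  have h1 := ((((((hasDerivAt_id x).sub_const a).pow 2).neg).div_const (2 * (v : ℝ))).exp).const_mul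
    (√(2 * Real.pi * v))⁻¹
  refine h1.congr_deriv ?_
  simp [gaussianPDFReal]
  field_simp

theorem cs_two {p q b c x : ℝ} (hp : 0 < p) (hq : 0 < q) :
    (p + q) / 2 * ((b * p + c * q) / 2 / ((p + q) / 2) + x) ^ 2 ≤
      ((2 * b ^ 2 + 2 * x ^ 2) * p + (2 * c ^ 2 + 2 * x ^ 2) * q) / 2 := by
  have hs : 0 < p + q := by linarith
  have e : (b * p + c * q) / 2 / ((p + q) / 2) + x = ((b + x) * p + (c + x) * q) / (p + q) := by
    field_simp
    ring
  have h1 : (p + q) / 2 * (((b + x) * p + (c + x) * q) / (p + q)) ^ 2 ≤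
      ((b + x) ^ 2 * p + (c + x) ^ 2 * q) / 2 := by
    generalize b + x = s
    generalize c + x = t
    rw [div_pow, div_mul_div_comm, div_le_div_iff₀ (by positivity) (by positivity)]
    nlinarith [mul_nonneg (mul_nonneg (mul_pos hp hq).le hs.le) (sq_nonneg (s - t))]
  rw [e]
  nlinarith [mul_nonneg hp.le (sq_nonneg (b - x)), mul_nonneg hq.le (sq_nonneg (c - x))]

theorem lint_gauss (a : ℝ) {v : ℝ≥0} (hv : v ≠ 0) :
    ∫⁻ x, ENNReal.ofReal ((2 * (-((x - a) / v)) ^ 2 + 2 * x ^ 2) * gaussianPDFReal a v x) =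
      ENNReal.ofReal (2 / v + 2 * (a ^ 2 + v)) := by
  have hv' : (v : ℝ) ≠ 0 := by exact_mod_cast hv
  have i0 := gauss_integrable a v 2
  have i1 : Integrable (fun x => x) (gaussianReal a v) := by simpa using gauss_integrable a v 1
  have e : ∀ x : ℝ, 2 * (-((x - a) / v)) ^ 2 + 2 * x ^ 2 =
      (2 / v ^ 2 + 2) * x ^ 2 + ((-4 * a / v ^ 2) * x + 2 * a ^ 2 / v ^ 2) := fun x => by
    field_simp
    ring
  have i2 : Integrable (fun x : ℝ => (-4 * a / v ^ 2) * x + 2 * a ^ 2 / v ^ 2) (gaussianReal a v) :=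
    (i1.const_mul (-4 * a / v ^ 2)).add (integrable_const (2 * a ^ 2 / (v : ℝ) ^ 2))
  have i3 : Integrable (fun x : ℝ => 2 * (-((x - a) / v)) ^ 2 + 2 * x ^ 2) (gaussianReal a v) := by
    simp only [e]
    exact (i0.const_mul _).add i2
  have h : ∫ x, (2 * (-((x - a) / v)) ^ 2 + 2 * x ^ 2) ∂gaussianReal a v =
      2 / v + 2 * (a ^ 2 + v) := by
    simp only [e]
    rw [integral_add (i0.const_mul _) i2, integral_add (i1.const_mul _) (integrable_const _),
      integral_const_mul, integral_const_mul, (gauss_moments _ _).1]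
    simp
    field_simp
    ring
  rw [← h, ofReal_integral_eq_lintegral_ofReal i3 (ae_of_all _ fun x => by positivity),
    gaussianReal_of_var_ne_zero _ hv,
    lintegral_withDensity_eq_lintegral_mul _ (measurable_gaussianPDF _ _) (by fun_prop)]
  congr 1
  funext x
  rw [mul_comm, ENNReal.ofReal_mul (gaussianPDFReal_nonneg _ _ _)]
  rfl

theorem J_upper (a : ℝ) {v : ℝ≥0} (hv : v ≠ 0) :
    J (mix a v) ≤ ENNReal.ofReal (2 / v + 2 * (a ^ 2 + v)) := by
  let f : ℝ → ℝ := fun x => (gaussianPDFReal a v x + gaussianPDFReal (-a) v x) / 2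
  have hp := fun b x => gaussianPDFReal_pos b v x hv
  have hf : ACDensity (mix a v) f := by
    refine ⟨fun x => by have := hp a x; have := hp (-a) x; positivity, ?_, fun b c => ?_⟩
    · rw [mix, gaussianReal_of_var_ne_zero _ hv, gaussianReal_of_var_ne_zero _ hv,
        ← withDensity_add_left (measurable_gaussianPDF _ _), ← withDensity_smul _ (by fun_prop)]
      congr 1
      funext x
      simp only [f, Pi.smul_apply, Pi.add_apply, gaussianPDF, smul_eq_mul]
      rw [ENNReal.ofReal_div_of_pos (by norm_num), ENNReal.ofReal_add (hp _ _).le (hp _ _).le,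
        mul_comm, ENNReal.ofReal_ofNat, div_eq_mul_inv]
    · refine ContDiffOn.absolutelyContinuousOnInterval (ContDiff.contDiffOn ?_)
      simp only [f, gaussianPDFReal]
      fun_prop
  refine (iInf₂_le f hf).trans ?_
  have hd : ∀ x, deriv f x = (-((x - a) / v) * gaussianPDFReal a v x +
      -((x - -a) / v) * gaussianPDFReal (-a) v x) / 2 := fun x =>
    (((pdf_deriv a hv x).add (pdf_deriv (-a) hv x)).div_const 2).deriv
  calc _ ≤ ∫⁻ x, (ENNReal.ofReal ((2 * (-((x - a) / v)) ^ 2 + 2 * x ^ 2) * gaussianPDFReal a v x) +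
        ENNReal.ofReal ((2 * (-((x - -a) / v)) ^ 2 + 2 * x ^ 2) * gaussianPDFReal (-a) v x)) / 2 := by
        refine lintegral_mono fun x => ?_
        have h1 := hp a x
        have h2 := hp (-a) x
        rw [← ENNReal.ofReal_add (by positivity) (by positivity), ← ENNReal.ofReal_ofNat,
          ← ENNReal.ofReal_div_of_pos (by norm_num), hd]
        exact ENNReal.ofReal_le_ofReal (cs_two h1 h2)
    _ = _ := by
        simp only [div_eq_mul_inv _ (2 : ℝ≥0∞)]
        rw [lintegral_mul_const' _ _ (by simp), lintegral_add_left (by fun_prop), lint_gauss a hv,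
          lint_gauss (-a) hv, neg_sq, ← two_mul, mul_comm, ← mul_assoc,
          ENNReal.inv_mul_cancel (by simp) (by simp), one_mul]

theorem law_sq (μ : Measure ℝ) [IsProbabilityMeasure μ] (hi : Integrable (fun x => x ^ 2) μ)
    (h : ∫ x, x ^ 2 ∂μ = 1) {n : ℕ} (hn : 1 ≤ n) :
    Integrable (fun x => x ^ 2) (law μ n) ∧ ∫ x, x ^ 2 ∂law μ n ≤ n := by
  have hn' : (0 : ℝ) < n := by exact_mod_cast hn
  have i1 : ∀ i : Fin n, Integrable (fun x : Fin n → ℝ => x i ^ 2) (Measure.pi fun _ => μ) :=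
    fun i => (measurePreserving_eval (fun _ : Fin n => μ) i).integrable_comp_of_integrable hi
  have i2 := integrable_finsetSum Finset.univ fun i _ => i1 i
  have hb : ∀ x : Fin n → ℝ, ((∑ i, x i) / √n) ^ 2 ≤ ∑ i, x i ^ 2 := fun x => by
    rw [div_pow, Real.sq_sqrt hn'.le, div_le_iff₀ hn', mul_comm]
    simpa using sq_sum_le_card_mul_sum_sq (s := Finset.univ) (f := x)
  have i3 : Integrable (fun x : Fin n → ℝ => ((∑ i, x i) / √n) ^ 2) (Measure.pi fun _ => μ) :=
    i2.mono' (by fun_prop) (ae_of_all _ fun x => by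
      rw [Real.norm_eq_abs, abs_of_nonneg (sq_nonneg _)]
      exact hb x)
  refine ⟨(integrable_map_measure (by fun_prop) (measurable_S n).aemeasurable).2 i3, ?_⟩
  rw [law, integral_map (measurable_S n).aemeasurable (by fun_prop)]
  refine (integral_mono i3 i2 hb).trans (le_of_eq ?_)
  rw [integral_finsetSum _ fun i _ => i1 i,
    Finset.sum_congr rfl (g := fun _ => (1 : ℝ)) fun i _ => by
      rw [← h]
      exact integral_comp_eval (μ := fun _ : Fin n => μ) (f := fun x => x ^ 2) (by fun_prop)]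
  simp

theorem law_cos {a w : ℝ} {v : ℝ≥0} {n k : ℕ} (hn : 1 ≤ n) (h1 : w / √n * a = k * (2 * Real.pi))
    (h2 : v * w ^ 2 = 1) : 1 / 2 ≤ ∫ x, Real.cos (w * x) ∂law (mix a v) n := by
  have := mix_prob a v
  have := law_prob (mix a v) n
  have hn' : (0 : ℝ) < n := by exact_mod_cast hn
  have hi : ∀ (ν : Measure ℝ) [IsProbabilityMeasure ν] (t : ℝ),
      Integrable (fun x : ℝ => Complex.exp (t * x * Complex.I)) ν := fun ν _ t =>
    (integrable_const (1 : ℝ)).mono' (by fun_prop) (ae_of_all _ fun x => by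
      rw [← Complex.ofReal_mul, Complex.norm_exp_ofReal_mul_I])
  have e1 : ∫ x, Real.cos (w * x) ∂law (mix a v) n = (charFun (law (mix a v) n) w).re := by
    rw [charFun_apply_real]
    refine Eq.trans ?_ (integral_re (hi _ w))
    congr 1
    funext x
    rw [← Complex.ofReal_mul]
    exact (Complex.exp_ofReal_mul_I_re _).symm
  have e2 : law (mix a v) n =
      ((Measure.pi fun _ : Fin n => mix a v).map fun x => ∑ i, x i).map ((√n)⁻¹ * ·) := by
    rw [law, Measure.map_map (by fun_prop) (by fun_prop)]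
    congr 1
    funext x
    simp [div_eq_inv_mul]
  have e3 : charFun (mix a v) (w / √n) = (Real.exp (-(1 / (2 * n))) : ℝ) := by
    rw [charFun_apply_real, mix_integral a v (hi _ _) (hi _ _), ← charFun_apply_real,
      ← charFun_apply_real, charFun_gaussianReal, charFun_gaussianReal]
    have h3 : ((v : ℝ) : ℂ) * ((w / √n : ℝ) : ℂ) ^ 2 / 2 = ((1 / (2 * n) : ℝ) : ℂ) := by
      norm_cast
      rw [div_pow, Real.sq_sqrt hn'.le, ← mul_div_assoc, h2]
      push_cast
      field_simp
    have h4 : ((w / √n : ℝ) : ℂ) * a * Complex.I = k * (2 * Real.pi * Complex.I) := by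
      rw [← Complex.ofReal_mul, h1]
      push_cast
      ring
    rw [h3, Complex.ofReal_neg, mul_neg, neg_mul, h4, Complex.exp_sub, Complex.exp_sub,
      Complex.exp_neg, Complex.exp_nat_mul_two_pi_mul_I, Real.exp_neg, Complex.ofReal_inv,
      Complex.ofReal_exp]
    simp
    ring
  rw [e1, e2, charFun_map_mul, charFun_map_sum_pi_eq_prod, Finset.prod_apply, ← div_eq_inv_mul,
    Finset.prod_const, e3, ← Complex.ofReal_pow, Complex.ofReal_re, ← Real.exp_nat_mul]
  have h5 := Real.add_one_le_exp (((Finset.univ : Finset (Fin n)).card : ℝ) * -(1 / (2 * n)))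
  refine le_trans (le_of_eq ?_) h5
  simp only [Finset.card_univ, Fintype.card_fin]
  field_simp
  norm_num

theorem J_false {M : ℝ} (hM : 1 < M) (C : ℝ) : ∃ (μ : Measure ℝ) (n : ℕ), Adm M μ ∧ 1 ≤ n ∧
    J μ ≠ ∞ ∧ ENNReal.ofReal (C / n) * J μ < J (law μ n) := by
  obtain ⟨n, hn⟩ := exists_nat_ge (64 * |C| + 1)
  have hn1 : (1 : ℝ) ≤ n := by linarith [abs_nonneg C]
  have hn1' : 1 ≤ n := by exact_mod_cast hn1
  have hC : C / n ≤ 1 / 64 := by
    rw [div_le_iff₀ (by linarith)]
    linarith [le_abs_self C]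
  obtain ⟨k, hk⟩ := exists_nat_ge (max (4 / (M - 1)) (4 * (n + 1)))
  have hk1 : 4 / (M - 1) ≤ k := (le_max_left _ _).trans hk
  have hk2 : 4 * ((n : ℝ) + 1) ≤ k := (le_max_right _ _).trans hk
  have hs : 1 ≤ √(n : ℝ) := Real.one_le_sqrt.2 hn1
  set T : ℝ := k * (2 * Real.pi) * √n with hT
  have hTk : k ≤ T := by
    have h1 : (1 : ℝ) ≤ 2 * Real.pi * √n := by nlinarith [Real.pi_gt_three]
    rw [hT, mul_assoc]
    exact le_mul_of_one_le_right (Nat.cast_nonneg _) h1
  set w := √(1 + T ^ 2) with hw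
  have hw2 : w ^ 2 = 1 + T ^ 2 := Real.sq_sqrt (by positivity)
  have hw0 : 0 < w := Real.sqrt_pos.2 (by positivity)
  have hTw : T ≤ w := by
    by_contra h
    nlinarith
  let v : ℝ≥0 := ⟨1 / w ^ 2, by positivity⟩
  have hv : (v : ℝ) = 1 / w ^ 2 := rfl
  have hv0 : v ≠ 0 := by
    rw [← NNReal.coe_ne_zero, hv]
    positivity
  have hav : (T / w) ^ 2 + v = 1 := by
    rw [hv]
    field_simp
    linarith
  have hvM : 1 + 4 * v ≤ M := by
    rw [div_le_iff₀ (by linarith)] at hk1
    have h1 : 4 * (1 / w ^ 2) ≤ M - 1 := by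
      rw [mul_one_div, div_le_iff₀ (by positivity)]
      have : (k : ℝ) ≤ w ^ 2 := by nlinarith
      nlinarith
    rw [hv]
    linarith
  have := mix_prob (T / w) v
  have := law_prob (mix (T / w) v) n
  have hU := J_upper (T / w) hv0
  rw [hav, hv, div_div_eq_mul_div, div_one] at hU
  obtain ⟨i1, i2⟩ := law_sq (mix (T / w) v) (mix_integrable _ _ _) (by rw [mix_sq, hav]) hn1'
  have hL := J_lower (law (mix (T / w) v) n) i1 i2 hw0 (law_cos (k := k) hn1' (by
    rw [hT]
    field_simp) (by rw [hv]; field_simp))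
  refine ⟨mix (T / w) v, n, mix_adm hav hvM, hn1', ne_top_of_le_ne_top ENNReal.ofReal_ne_top hU,
    lt_of_lt_of_le ?_ hL⟩
  have hwn : 4 * ((n : ℝ) + 1) ≤ w := by linarith
  calc _ ≤ ENNReal.ofReal (1 / 64) * ENNReal.ofReal (2 * w ^ 2 + 2 * 1) :=
        mul_le_mul' (ENNReal.ofReal_le_ofReal hC) hU
    _ < _ := by
        rw [← ENNReal.ofReal_mul (by norm_num), ENNReal.ofReal_lt_ofReal_iff (by nlinarith)]
        nlinarith

end Pool.Agent.H44.Ent
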