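import Mathlib

/-! First-passage percolation in a box with two edge weights. -/

open MeasureTheory

namespace Pool.Agent.H44.FE

/-- vertices of the box `[-2n, 2n]^d` -/
abbrev Vx (d n : ℕ) : Type := Fin d → Set.Icc (-(2 * n : ℤ)) (2 * n)

/-- nearest-neighbour graph on the box -/
def G (d n : ℕ) : SimpleGraph (Vx d n) where
  Adj x y := ∑ i, |(x i : ℤ) - y i| = 1
  symm := ⟨fun x y h => by simpa only [abs_sub_comm] using h⟩
  loopless := ⟨fun x h => by simp at h⟩

variable {d n : ℕ}

/-- passage time of a path -/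
def T (ω : Sym2 (Vx d n) → ℝ) {x y : Vx d n} (γ : (G d n).Path x y) : ℝ := (γ.1.edges.map ω).sum

/-- the first-passage time -/
noncomputable def f (x y : Vx d n) (ω : Sym2 (Vx d n) → ℝ) : ℝ := ⨅ γ : (G d n).Path x y, T ω γ

/-- `j` is essential: every geodesic passes through it -/
def Ess (x y : Vx d n) (j : Sym2 (Vx d n)) : Set (Sym2 (Vx d n) → ℝ) :=
  {ω | ∀ γ : (G d n).Path x y, T ω γ = f x y ω → j ∈ γ.1.edges}

/-- `j` is semi-essential: some geodesic passes through it -/
def Semi (x y : Vx d n) (j : Sym2 (Vx d n)) : Set (Sym2 (Vx d n) → ℝ) :=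
  {ω | ∃ γ : (G d n).Path x y, T ω γ = f x y ω ∧ j ∈ γ.1.edges}

open Classical in
/-- `j` is very influential -/
def Very (a b : ℝ) (x y : Vx d n) (j : Sym2 (Vx d n)) : Set (Sym2 (Vx d n) → ℝ) :=
  {ω | f x y (Function.update ω j b) - f x y (Function.update ω j a) = b - a}

/-- i.i.d. weights, `a` with probability `p` and `b` otherwise (weights of non-edges are unused) -/
noncomputable def P (d n : ℕ) (a b p : ℝ) : Measure (Sym2 (Vx d n) → ℝ) :=
  Measure.pi fun _ => ENNReal.ofReal p • Measure.dirac a + ENNReal.ofReal (1 - p) • Measure.dirac b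

end Pool.Agent.H44.FE
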