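import Mathlib

open Finset

namespace Pool.Agent.H44.FB

/-- forward difference -/
def D (f : ℝ → ℝ) (x : ℝ) : ℝ := f (x + 1) - f x

lemma D_deriv {f g : ℝ → ℝ} (h : ∀ x, 0 < x → HasDerivAt f (g x) x) :
    ∀ x, 0 < x → HasDerivAt (D f) (D g x) x := by
  intro x hx
  have h1 : HasDerivAt (fun y => f (y + 1)) (g (x + 1)) x :=
    (h (x + 1) (by linarith)).comp_add_const x 1
  exact h1.sub (h x hx)

lemma D_cont {f : ℝ → ℝ} (h : Continuous f) : Continuous (D f) := by
  unfold D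
  exact (h.comp (continuous_id.add continuous_const)).sub h

lemma D_mvt {f g : ℝ → ℝ} (h : ∀ x, 0 < x → HasDerivAt f (g x) x) {x : ℝ} (hx : 0 ≤ x)
    (hc : ContinuousOn f (Set.Icc x (x + 1))) : ∃ y, 0 < y ∧ D f x = g y := by
  obtain ⟨y, hy, e⟩ := exists_hasDerivAt_eq_slope f g (show x < x + 1 by linarith) hc
    (fun y hy => h y (by linarith [hy.1]))
  refine ⟨y, by linarith [hy.1], ?_⟩
  rw [e]; simp [D]

lemma D_mvt_pos {f g : ℝ → ℝ} (h : ∀ x, 0 < x → HasDerivAt f (g x) x) {x : ℝ} (hx : 0 < x) :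
    ∃ y, 0 < y ∧ D f x = g y :=
  D_mvt h hx.le (fun y hy => (h y (by linarith [hy.1])).continuousAt.continuousWithinAt)

/-- the power function -/
noncomputable def pw (c p : ℝ) (x : ℝ) : ℝ := c * x ^ p

lemma pw_deriv (c p : ℝ) : ∀ x, 0 < x → HasDerivAt (pw c p) (pw (c * p) (p - 1) x) x := by
  intro x hx
  have := (Real.hasDerivAt_rpow_const (p := p) (Or.inl hx.ne')).const_mul c
  unfold pw
  rw [mul_assoc]
  exact this

lemma iter_deriv {f g : ℝ → ℝ} (h : ∀ x, 0 < x → HasDerivAt f (g x) x) (n : ℕ) :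
    ∀ x, 0 < x → HasDerivAt (D^[n] f) (D^[n] g x) x := by
  induction n with
  | zero => simpa using h
  | succ n ih =>
    rw [Function.iterate_succ_apply', Function.iterate_succ_apply']
    exact D_deriv ih

lemma iter_cont {f : ℝ → ℝ} (h : Continuous f) (n : ℕ) : Continuous (D^[n] f) := by
  induction n with
  | zero => simpa using h
  | succ n ih => rw [Function.iterate_succ_apply']; exact D_cont ih

/-- coefficient after `n` derivatives -/
def co (c p : ℝ) : ℕ → ℝ
  | 0 => c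
  | n + 1 => co c p n * (p - n)

lemma co_shift (n : ℕ) : ∀ c p : ℝ, co (c * p) (p - 1) n = co c p (n + 1) := by
  induction n with
  | zero => intro c p; simp [co]
  | succ n ih =>
    intro c p
    have := ih c p
    simp only [co] at this ⊢
    rw [this]; push_cast; ring

lemma iter_pos (n : ℕ) : ∀ (c p x : ℝ), 0 < x →
    ∃ y q, 0 < y ∧ D^[n] (pw c p) x = co c p n * y ^ (q : ℝ) := by
  induction n with
  | zero => intro c p x hx; exact ⟨x, p, hx, rfl⟩
  | succ n ih =>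
    intro c p x hx
    rw [Function.iterate_succ_apply']
    obtain ⟨y, hy, e⟩ := D_mvt_pos (iter_deriv (pw_deriv c p) n) hx
    obtain ⟨z, q, hz, e'⟩ := ih (c * p) (p - 1) y hy
    exact ⟨z, q, hz, by rw [e, e', co_shift]⟩

lemma iter_nonneg (n : ℕ) (p x : ℝ) (hp : 0 ≤ p) (hx : 0 ≤ x) :
    ∃ y q, 0 < y ∧ D^[n + 1] (pw 1 p) x = co 1 p (n + 1) * y ^ (q : ℝ) := by
  rw [Function.iterate_succ_apply']
  have hc : Continuous (pw 1 p) := continuous_const.mul (Real.continuous_rpow_const hp)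
  obtain ⟨y, hy, e⟩ := D_mvt (iter_deriv (pw_deriv 1 p) n) hx (iter_cont hc n).continuousOn
  obtain ⟨z, q, hz, e'⟩ := iter_pos n (1 * p) (p - 1) y hy
  exact ⟨z, q, hz, by rw [e, e', co_shift]⟩

lemma D2 {p : ℝ} (h1 : 1 < p) (x : ℝ) (hx : 0 ≤ x) :
    0 ≤ (x + 2) ^ p - 2 * (x + 1) ^ p + x ^ p := by
  obtain ⟨y, q, hy, e⟩ := iter_nonneg 1 p x (by linarith) hx
  have h : 0 ≤ co 1 p 2 * y ^ q := by
    refine mul_nonneg ?_ (Real.rpow_nonneg hy.le _)
    simp only [co]; push_cast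
    exact mul_nonneg (by linarith) (by linarith)
  rw [← e] at h
  simp only [Function.iterate_succ, Function.iterate_zero, Function.comp, id, D, pw, one_mul] at h
  rw [show x + 1 + 1 = x + 2 by ring] at h
  linarith

lemma D3 {p : ℝ} (h1 : 1 < p) (h2 : p < 2) (x : ℝ) (hx : 0 ≤ x) :
    (x + 3) ^ p - 3 * (x + 2) ^ p + 3 * (x + 1) ^ p - x ^ p ≤ 0 := by
  obtain ⟨y, q, hy, e⟩ := iter_nonneg 2 p x (by linarith) hx
  have h : co 1 p 3 * y ^ q ≤ 0 := by
    refine mul_nonpos_of_nonpos_of_nonneg ?_ (Real.rpow_nonneg hy.le _)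
    simp only [co]; push_cast
    exact mul_nonpos_of_nonneg_of_nonpos (mul_nonneg (by linarith) (by linarith)) (by linarith)
  rw [← e] at h
  simp only [Function.iterate_succ, Function.iterate_zero, Function.comp, id, D, pw, one_mul] at h
  rw [show x + 1 + 1 + 1 = x + 3 by ring, show x + 1 + 1 = x + 2 by ring] at h
  linarith

lemma D4 {p : ℝ} (h1 : 1 < p) (h2 : p < 2) (x : ℝ) (hx : 0 ≤ x) :
    0 ≤ (x + 4) ^ p - 4 * (x + 3) ^ p + 6 * (x + 2) ^ p - 4 * (x + 1) ^ p + x ^ p := by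
  obtain ⟨y, q, hy, e⟩ := iter_nonneg 3 p x (by linarith) hx
  have h : 0 ≤ co 1 p 4 * y ^ q := by
    refine mul_nonneg ?_ (Real.rpow_nonneg hy.le _)
    simp only [co]; push_cast
    exact mul_nonneg_of_nonpos_of_nonpos
      (mul_nonpos_of_nonneg_of_nonpos (mul_nonneg (by linarith) (by linarith)) (by linarith))
      (by linarith)
  rw [← e] at h
  simp only [Function.iterate_succ, Function.iterate_zero, Function.comp, id, D, pw, one_mul] at h
  rw [show x + 1 + 1 + 1 + 1 = x + 4 by ring, show x + 1 + 1 + 1 = x + 3 by ring,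
    show x + 1 + 1 = x + 2 by ring] at h
  linarith

lemma const_pos {p : ℝ} (h2 : p < 2) : 0 < 7 - 4 * (2 : ℝ) ^ p + (3 : ℝ) ^ p := by
  set d := 2 - p with hd
  have hd0 : 0 < d := by linarith
  have e2 : (2 : ℝ) ^ p = 4 * (2 : ℝ) ^ (-d) := by
    rw [show p = 2 + -d by linarith, Real.rpow_add (by norm_num)]; norm_num
  have e3 : (3 : ℝ) ^ p = 9 * (3 : ℝ) ^ (-d) := by
    rw [show p = 2 + -d by linarith, Real.rpow_add (by norm_num)]; norm_num
  have am := Real.geom_mean_le_arith_mean2_weighted (w₁ := 7 / 16) (w₂ := 9 / 16) (p₁ := 1)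
    (p₂ := (3 : ℝ) ^ (-d)) (by norm_num) (by norm_num) (by norm_num) (by positivity) (by norm_num)
  rw [Real.one_rpow, one_mul, ← Real.rpow_mul (by norm_num), mul_comm (-d),
    Real.rpow_mul (by norm_num)] at am
  have lt : (3 : ℝ) ^ ((9 : ℝ) / 16) < 2 := by
    have : ((3 : ℝ) ^ ((9 : ℝ) / 16)) ^ (16 : ℕ) < 2 ^ (16 : ℕ) := by
      rw [← Real.rpow_natCast, ← Real.rpow_mul (by norm_num)]
      norm_num
    exact lt_of_pow_lt_pow_left₀ 16 (by norm_num) this
  have : (2 : ℝ) ^ (-d) < ((3 : ℝ) ^ ((9 : ℝ) / 16)) ^ (-d) :=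
    Real.rpow_lt_rpow_of_neg (by positivity) lt (by linarith)
  rw [e2, e3]; linarith

/-- the kernels `(M - |s - t|)_+` are positive semidefinite -/
lemma tent_psd (N M : ℕ) (y : ℕ → ℝ) :
    0 ≤ ∑ s ∈ range N, ∑ t ∈ range N, y s * y t * ((M - Nat.dist s t : ℕ) : ℝ) := by
  have key : ∀ s ∈ range N, ∀ t ∈ range N, ((M - Nat.dist s t : ℕ) : ℝ) =
      ∑ u ∈ range (N + M), (if u ∈ Ico s (s + M) then (1 : ℝ) else 0) *
        (if u ∈ Ico t (t + M) then (1 : ℝ) else 0) := by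
    intro s hs t ht
    rw [mem_range] at hs ht
    simp_rw [ite_zero_mul_ite_zero, mul_one]
    rw [sum_boole]
    have : filter (fun u => u ∈ Ico s (s + M) ∧ u ∈ Ico t (t + M)) (range (N + M)) =
        Ico (max s t) (min s t + M) := by
      ext u; simp only [mem_filter, mem_range, mem_Ico]; omega
    rw [this, Nat.card_Ico]
    congr 1; unfold Nat.dist; omega
  rw [sum_congr rfl fun s hs => sum_congr rfl fun t ht => by rw [key s hs t ht]]
  have : ∑ s ∈ range N, ∑ t ∈ range N, y s * y t * ∑ u ∈ range (N + M),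
      (if u ∈ Ico s (s + M) then (1 : ℝ) else 0) * (if u ∈ Ico t (t + M) then (1 : ℝ) else 0) =
      ∑ u ∈ range (N + M),
        (∑ s ∈ range N, y s * (if u ∈ Ico s (s + M) then (1 : ℝ) else 0)) ^ 2 := by
    simp_rw [sq, sum_mul_sum, mul_sum]
    rw [sum_congr rfl fun s _ => sum_comm, sum_comm]
    refine sum_congr rfl fun u _ => sum_congr rfl fun s _ => sum_congr rfl fun t _ => by ring
  rw [this]
  exact sum_nonneg fun u _ => sq_nonneg _

lemma abel_rep (r : ℕ → ℝ) (k : ℕ) : ∀ N, k ≤ N → r k = r N + ((N - k : ℕ) : ℝ) * (r N - r (N + 1))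
    + ∑ m ∈ range N, (r m - 2 * r (m + 1) + r (m + 2)) * ((m + 1 - k : ℕ) : ℝ) := by
  intro N hN
  induction N, hN using Nat.le_induction with
  | base =>
    rw [sum_eq_zero]
    · simp
    · intro m hm
      rw [mem_range] at hm
      rw [show m + 1 - k = 0 by omega]; simp
  | succ N hN ih =>
    rw [sum_range_succ, Nat.cast_sub (by omega : k ≤ N + 1)]
    rw [Nat.cast_sub hN] at ih
    push_cast
    rw [show N + 1 + 1 = N + 2 by ring]
    linarith

/-- discrete Polya criterion -/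
lemma polya (r : ℕ → ℝ) (N : ℕ) (h0 : 0 ≤ r N) (h1 : r (N + 1) ≤ r N)
    (h2 : ∀ m, 0 ≤ r m - 2 * r (m + 1) + r (m + 2)) (y : ℕ → ℝ) :
    0 ≤ ∑ s ∈ range N, ∑ t ∈ range N, y s * y t * r (Nat.dist s t) := by
  have key : ∀ s ∈ range N, ∀ t ∈ range N, y s * y t * r (Nat.dist s t) =
      r N * (y s * y t) + (r N - r (N + 1)) * (y s * y t * ((N - Nat.dist s t : ℕ) : ℝ)) +
      ∑ m ∈ range N, (r m - 2 * r (m + 1) + r (m + 2)) *
        (y s * y t * ((m + 1 - Nat.dist s t : ℕ) : ℝ)) := by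
    intro s hs t ht
    rw [mem_range] at hs ht
    rw [abel_rep r (Nat.dist s t) N (by unfold Nat.dist; omega), mul_add, mul_add, mul_sum]
    congr 1
    · ring
    · exact sum_congr rfl fun m _ => by ring
  rw [sum_congr rfl fun s hs => sum_congr rfl fun t ht => key s hs t ht]
  simp_rw [sum_add_distrib]
  refine add_nonneg (add_nonneg ?_ ?_) ?_
  · simp_rw [← mul_sum]
    rw [← sum_mul]
    exact mul_nonneg h0 (mul_self_nonneg _)
  · simp_rw [← mul_sum]
    exact mul_nonneg (by linarith) (tent_psd N N y)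
  · rw [sum_congr rfl fun s _ => sum_comm, sum_comm]
    refine sum_nonneg fun m _ => ?_
    simp_rw [← mul_sum]
    exact mul_nonneg (h2 m) (tent_psd N (m + 1) y)

end Pool.Agent.H44.FB
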