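import Mathlib
import Pool.Agent.H44.FB1

open Finset

namespace Pool.Agent.H44.FB

/-- covariance `(|s|^p + |t|^p - |s-t|^p)/2` -/
noncomputable def K (p s t : ℝ) : ℝ := (|s| ^ p + |t| ^ p - |s - t| ^ p) / 2

/-- increment covariance -/
noncomputable def rho (p x : ℝ) : ℝ := (|x + 1| ^ p + |x - 1| ^ p - 2 * |x| ^ p) / 2

lemma rho_neg (p x : ℝ) : rho p (-x) = rho p x := by
  unfold rho
  rw [show -x + 1 = -(x - 1) by ring, show -x - 1 = -(x + 1) by ring, abs_neg, abs_neg, abs_neg]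
  ring

lemma rho_dist (p : ℝ) (s t : ℕ) : rho p ((s : ℝ) - t) = rho p (Nat.dist s t : ℕ) := by
  rcases le_total s t with h | h
  · rw [Nat.dist_eq_sub_of_le h, Nat.cast_sub h, ← rho_neg]; congr 1; ring
  · rw [Nat.dist_eq_sub_of_le_right h, Nat.cast_sub h]

lemma K_row {p : ℝ} (hp : 0 < p) (s : ℝ) (b : ℕ) :
    ∑ t ∈ range b, rho p (s - t) = K p (s + 1) b - K p s b := by
  induction b with
  | zero => simp [K, Real.zero_rpow hp.ne']
  | succ b ih =>
    rw [sum_range_succ, ih]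
    unfold K rho
    push_cast
    rw [show s + 1 - ((b : ℝ) + 1) = s - b by ring, show s - ((b : ℝ) + 1) = s - b - 1 by ring,
      show s + 1 - (b : ℝ) = s - b + 1 by ring]
    ring

lemma K_eq {p : ℝ} (hp : 0 < p) (a b : ℕ) :
    K p a b = ∑ s ∈ range a, ∑ t ∈ range b, rho p (Nat.dist s t : ℕ) := by
  simp_rw [← rho_dist]
  induction a with
  | zero => simp [K, Real.zero_rpow hp.ne']
  | succ a ih =>
    rw [sum_range_succ, ← ih, K_row hp]; push_cast; ring

lemma rho_succ (p : ℝ) (k : ℕ) :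
    rho p ((k + 1 : ℕ) : ℝ) = (((k : ℝ) + 2) ^ p - 2 * ((k : ℝ) + 1) ^ p + (k : ℝ) ^ p) / 2 := by
  unfold rho
  push_cast
  have hk : (0 : ℝ) ≤ k := Nat.cast_nonneg k
  rw [show (k : ℝ) + 1 + 1 = k + 2 by ring, show (k : ℝ) + 1 - 1 = k by ring,
    abs_of_nonneg hk, abs_of_nonneg (by linarith : (0 : ℝ) ≤ k + 2),
    abs_of_nonneg (by linarith : (0 : ℝ) ≤ k + 1)]
  ring

/-- the constant -/
noncomputable def cc (p : ℝ) : ℝ := (7 - 4 * (2 : ℝ) ^ p + (3 : ℝ) ^ p) / 2

lemma cc_pos {p : ℝ} (h2 : p < 2) : 0 < cc p := by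
  have := const_pos h2
  unfold cc; linarith

/-- modified sequence -/
noncomputable def rr (p : ℝ) (k : ℕ) : ℝ := rho p k - if k = 0 then cc p else 0

lemma rr_succ (p : ℝ) (k : ℕ) :
    rr p (k + 1) = (((k : ℝ) + 2) ^ p - 2 * ((k : ℝ) + 1) ^ p + (k : ℝ) ^ p) / 2 := by
  rw [← rho_succ]; simp [rr]

lemma rr_conv {p : ℝ} (h1 : 1 < p) (h2 : p < 2) (m : ℕ) :
    0 ≤ rr p m - 2 * rr p (m + 1) + rr p (m + 2) := by
  have hp : p ≠ 0 := by linarith
  cases m with
  | zero =>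
    rw [rr_succ p 0, rr_succ p 1]
    simp [rr, rho, cc, Real.zero_rpow hp]
    norm_num
    linarith
  | succ m =>
    rw [rr_succ p m, rr_succ p (m + 1), rr_succ p (m + 1 + 1)]
    have := D4 h1 h2 m (Nat.cast_nonneg m)
    push_cast
    rw [show (m : ℝ) + 1 + 1 + 2 = m + 4 by ring, show (m : ℝ) + 1 + 1 + 1 = m + 3 by ring,
      show (m : ℝ) + 1 + 2 = m + 3 by ring, show (m : ℝ) + 1 + 1 = m + 2 by ring]
    linarith

lemma noise_bound {p : ℝ} (h1 : 1 < p) (h2 : p < 2) (N : ℕ) (y : ℕ → ℝ) :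
    cc p * ∑ s ∈ range (N + 1), y s ^ 2 ≤
      ∑ s ∈ range (N + 1), ∑ t ∈ range (N + 1), y s * y t * rho p (Nat.dist s t : ℕ) := by
  have h := polya (rr p) (N + 1)
    (by rw [rr_succ]; have := D2 h1 N (Nat.cast_nonneg N); linarith)
    (by
      rw [rr_succ, rr_succ]
      have := D3 h1 h2 N (Nat.cast_nonneg N)
      push_cast
      rw [show (N : ℝ) + 1 + 2 = N + 3 by ring, show (N : ℝ) + 1 + 1 = N + 2 by ring]
      linarith)
    (rr_conv h1 h2) y
  have e : ∀ s ∈ range (N + 1), ∑ t ∈ range (N + 1), y s * y t * rr p (Nat.dist s t) =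
      ∑ t ∈ range (N + 1), y s * y t * rho p (Nat.dist s t : ℕ) - cc p * y s ^ 2 := by
    intro s hs
    unfold rr
    simp_rw [mul_sub, sum_sub_distrib]
    congr 1
    rw [sum_eq_single s]
    · simp; ring
    · intro t _ ht
      rw [if_neg (by unfold Nat.dist; omega)]; simp
    · intro h; exact absurd hs h
  rw [sum_congr rfl e, sum_sub_distrib, ← mul_sum] at h
  linarith

/-- tail sums -/
def tl {N : ℕ} (x : Fin N → ℝ) (s : ℕ) : ℝ := ∑ i : Fin N, if s ≤ i then x i else 0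

lemma form_eq {p : ℝ} (hp : 0 < p) (N : ℕ) (x : Fin N → ℝ) :
    ∑ i : Fin N, ∑ j : Fin N, x i * K p ((i : ℕ) + 1) ((j : ℕ) + 1) * x j =
      ∑ s ∈ range N, ∑ t ∈ range N, tl x s * tl x t * rho p (Nat.dist s t : ℕ) := by
  have e : ∀ i j : Fin N, x i * K p ((i : ℕ) + 1) ((j : ℕ) + 1) * x j =
      ∑ s ∈ range N, ∑ t ∈ range N, (if s ≤ i then x i else 0) * (if t ≤ j then x j else 0) *
        rho p (Nat.dist s t : ℕ) := by
    intro i j
    have := K_eq hp (i + 1) (j + 1)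
    push_cast at this
    rw [this]
    have hi : range (i + 1) = filter (fun s => s ≤ (i : ℕ)) (range N) := by
      ext s; simp only [mem_range, mem_filter]; have := i.2; omega
    have hj : range (j + 1) = filter (fun s => s ≤ (j : ℕ)) (range N) := by
      ext s; simp only [mem_range, mem_filter]; have := j.2; omega
    rw [hi, hj, sum_filter, mul_sum, sum_mul]
    refine sum_congr rfl fun s _ => ?_
    split_ifs with hs
    · rw [sum_filter, mul_sum, sum_mul]
      refine sum_congr rfl fun t _ => ?_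
      split_ifs <;> ring
    · simp
  simp_rw [e, tl, sum_mul_sum, sum_mul]
  rw [sum_congr rfl fun i _ => sum_comm, sum_comm]
  refine sum_congr rfl fun s _ => ?_
  rw [sum_congr rfl fun i _ => sum_comm, sum_comm]

lemma tl_zero {N : ℕ} (x : Fin N → ℝ) : tl x 0 = ∑ i, x i := by simp [tl]

lemma tl_diff {N : ℕ} (x : Fin N → ℝ) (i : Fin N) : tl x i - tl x (i + 1) = x i := by
  unfold tl
  rw [← sum_sub_distrib, sum_eq_single i]
  · simp
  · intro j _ hj
    have : (j : ℕ) ≠ i := fun h => hj (Fin.ext h)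
    by_cases h : (i : ℕ) ≤ j
    · rw [if_pos h, if_pos (by omega)]; ring
    · rw [if_neg h, if_neg (by omega)]; ring
  · simp

lemma tl_big {N : ℕ} (x : Fin N → ℝ) : tl x N = 0 := by
  unfold tl
  exact sum_eq_zero fun i _ => if_neg (by have := i.2; omega)

lemma form_ge {p : ℝ} (h1 : 1 < p) (h2 : p < 2) (N : ℕ) (x : Fin (N + 1) → ℝ) :
    cc p * (∑ i, x i) ^ 2 ≤ ∑ i : Fin (N + 1), ∑ j : Fin (N + 1),
      x i * K p ((i : ℕ) + 1) ((j : ℕ) + 1) * x j := by
  rw [form_eq (by linarith)]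
  refine le_trans ?_ (noise_bound h1 h2 N (tl x))
  refine mul_le_mul_of_nonneg_left ?_ (cc_pos h2).le
  rw [← tl_zero]
  exact single_le_sum (f := fun s => tl x s ^ 2) (fun s _ => sq_nonneg _) (by simp)

lemma form_pos {p : ℝ} (h1 : 1 < p) (h2 : p < 2) (N : ℕ) (x : Fin (N + 1) → ℝ) (hx : x ≠ 0) :
    0 < ∑ i : Fin (N + 1), ∑ j : Fin (N + 1), x i * K p ((i : ℕ) + 1) ((j : ℕ) + 1) * x j := by
  rw [form_eq (by linarith)]
  refine lt_of_lt_of_le ?_ (noise_bound h1 h2 N (tl x))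
  refine mul_pos (cc_pos h2) ?_
  rcases (sum_nonneg (s := range (N + 1)) (f := fun s => tl x s ^ 2)
    (fun s _ => sq_nonneg _)).lt_or_eq with h | h
  · exact h
  · exfalso
    have hz := (sum_eq_zero_iff_of_nonneg (fun s _ => sq_nonneg _)).1 h.symm
    have hz' : ∀ s, s ≤ N + 1 → tl x s = 0 := by
      intro s hs
      rcases hs.lt_or_eq with h | h
      · exact pow_eq_zero_iff (two_ne_zero) |>.1 (hz s (mem_range.2 h))
      · rw [h]; exact tl_big x
    apply hx
    funext i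
    rw [← tl_diff x i, hz' i (by have := i.2; omega), hz' (i + 1) (by have := i.2; omega)]
    simp

lemma K_symm (p s t : ℝ) : K p s t = K p t s := by
  unfold K; rw [abs_sub_comm]; ring

lemma psd_of {n : ℕ} (M : Matrix (Fin n) (Fin n) ℝ) (hs : ∀ i j, M i j = M j i)
    (h : ∀ x : Fin n → ℝ, 0 ≤ ∑ i, ∑ j, x i * M i j * x j) : M.PosSemidef := by
  rw [Matrix.posSemidef_iff_dotProduct_mulVec]
  refine ⟨?_, fun x => ?_⟩
  · ext i j; simp [hs i j]
  · have := h x
    simpa [dotProduct, Matrix.mulVec, mul_sum, mul_assoc] using this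

lemma of_psd {n : ℕ} (M : Matrix (Fin n) (Fin n) ℝ) (h : M.PosSemidef) (x : Fin n → ℝ) :
    0 ≤ ∑ i, ∑ j, x i * M i j * x j := by
  have := h.dotProduct_mulVec_nonneg x
  simpa [dotProduct, Matrix.mulVec, mul_sum, mul_assoc] using this

lemma main {p : ℝ} (h1 : 1 < p) (h2 : p < 2) (N : ℕ) (x : Fin (N + 1) → ℝ) :
    cc p * ∑ i : Fin (N + 1), ∑ j : Fin (N + 1), x i * K p ((i : ℕ) + 1) ((j : ℕ) + 1) * x j ≤
      ∑ i : Fin (N + 1), ∑ j : Fin (N + 1), x i * K p ((i : ℕ) + 1) ((j : ℕ) + 1) ^ 2 * x j := by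
  let A : Matrix (Fin (N + 1)) (Fin (N + 1)) ℝ :=
    Matrix.of fun i j => K p ((i : ℕ) + 1) ((j : ℕ) + 1)
  let B : Matrix (Fin (N + 1)) (Fin (N + 1)) ℝ :=
    Matrix.of fun i j => K p ((i : ℕ) + 1) ((j : ℕ) + 1) - cc p
  have hA : A.PosSemidef := psd_of A (fun i j => K_symm _ _ _) fun y =>
    le_trans (mul_nonneg (cc_pos h2).le (sq_nonneg _)) (form_ge h1 h2 N y)
  have hB : B.PosSemidef := psd_of B (fun i j => by simp only [B, Matrix.of_apply]; rw [K_symm])
    fun y => by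
      have := form_ge h1 h2 N y
      simp only [B, Matrix.of_apply, mul_sub, sub_mul, sum_sub_distrib]
      have e : ∑ i, ∑ j, y i * cc p * y j = cc p * (∑ i, y i) ^ 2 := by
        rw [sq, sum_mul_sum, mul_sum]
        refine sum_congr rfl fun i _ => ?_
        rw [mul_sum]
        exact sum_congr rfl fun j _ => by ring
      rw [e]; linarith
  have := of_psd _ (hA.hadamard hB) x
  simp only [Matrix.hadamard_apply, A, B, Matrix.of_apply] at this
  rw [mul_sum, ← sub_nonneg, ← sum_sub_distrib]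
  refine le_of_le_of_eq this (sum_congr rfl fun i _ => ?_)
  rw [mul_sum, ← sum_sub_distrib]
  exact sum_congr rfl fun j _ => by ring

end Pool.Agent.H44.FB
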