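import Pool.Agent.H44.FEDefs

/-! Automorphisms of the lattice graph. -/

open Finset

namespace Pool.Agent.H44.FE

variable {d : ℕ}

def Un (a : Fin d → ℤ) : Prop := ∃ i s, (s = 1 ∨ s = -1) ∧ a = Pi.single i s

lemma adj_iff {x y : Fin d → ℤ} : (Zd d).Adj x y ↔ Un (y - x) := by
  change ∑ i, (x i - y i) ^ 2 = 1 ↔ _
  constructor
  · intro h
    obtain ⟨i, -, hi⟩ := exists_ne_zero_of_sum_ne_zero (h.trans_ne one_ne_zero)
    rw [← add_sum_erase _ _ (mem_univ i)] at h
    have h1 : 0 ≤ ∑ j ∈ univ.erase i, (x j - y j) ^ 2 := sum_nonneg fun _ _ => sq_nonneg _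
    have h2 : 0 < (x i - y i) ^ 2 := lt_of_le_of_ne (sq_nonneg _) hi.symm
    have h3 : (x i - y i) ^ 2 = 1 := by omega
    have h4 := (sum_eq_zero_iff_of_nonneg fun j _ => sq_nonneg (x j - y j)).1
      (show ∑ j ∈ univ.erase i, (x j - y j) ^ 2 = 0 by omega)
    refine ⟨i, y i - x i, by rcases sq_eq_one_iff.1 h3 with h | h <;> omega, ?_⟩
    funext j
    by_cases hj : j = i
    · subst hj; simp
    · have := pow_eq_zero_iff two_ne_zero |>.1 (h4 j (mem_erase.2 ⟨hj, mem_univ _⟩))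
      simp only [Pi.sub_apply, Pi.single_eq_of_ne hj]; omega
  · rintro ⟨i, s, hs, h⟩
    have : ∀ j, (x j - y j) ^ 2 = if j = i then 1 else 0 := by
      intro j
      have := congrFun h j
      simp only [Pi.sub_apply, Pi.single_apply] at this
      rw [show x j - y j = -(y j - x j) by ring, this]
      split_ifs
      · rcases hs with rfl | rfl <;> norm_num
      · norm_num
    simp [this]

lemma Un.neg {a : Fin d → ℤ} (h : Un a) : Un (-a) := by
  obtain ⟨i, s, hs, rfl⟩ := h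
  exact ⟨i, -s, by omega, by rw [Pi.single_neg]⟩

lemma Un.ne_neg {a : Fin d → ℤ} (h : Un a) : a ≠ -a := by
  obtain ⟨i, s, hs, rfl⟩ := h
  intro e
  have := congrFun e i
  simp only [Pi.neg_apply, Pi.single_eq_same] at this
  omega

lemma un_arith {a b c e : Fin d → ℤ} (ha : Un a) (hb : Un b) (hc : Un c) (he : Un e)
    (h : a + c = b + e) : a = b ∨ c = b ∨ a + c = 0 := by
  obtain ⟨i, s, hs, rfl⟩ := ha
  obtain ⟨k, u, hu, rfl⟩ := hb
  obtain ⟨j, t, ht, rfl⟩ := hc
  obtain ⟨l, w, hw, rfl⟩ := he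
  have : (i = k ∧ s = u) ∨ (j = k ∧ t = u) ∨ (i = j ∧ t = -s) := by
    have hi := congrFun h i
    have hj := congrFun h j
    have hk := congrFun h k
    simp only [Pi.add_apply, Pi.single_apply] at hi hj hk
    grind
  rcases this with ⟨rfl, rfl⟩ | ⟨rfl, rfl⟩ | ⟨rfl, rfl⟩
  · exact Or.inl rfl
  · exact Or.inr (Or.inl rfl)
  · exact Or.inr (Or.inr (by rw [Pi.single_neg, add_neg_cancel]))

def Df (φ : Zd d ≃g Zd d) (x a : Fin d → ℤ) : Fin d → ℤ := φ (x + a) - φ x

lemma Df_un (φ : Zd d ≃g Zd d) (x : Fin d → ℤ) {a : Fin d → ℤ} (ha : Un a) : Un (Df φ x a) :=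
  adj_iff.1 (φ.map_adj_iff.2 (adj_iff.2 (by rwa [add_sub_cancel_left])))

lemma Df_inj (φ : Zd d ≃g Zd d) (x : Fin d → ℤ) {a b : Fin d → ℤ} (h : Df φ x a = Df φ x b) :
    a = b := add_left_cancel (φ.injective (sub_left_injective h))

lemma claimA (φ : Zd d ≃g Zd d) (x : Fin d → ℤ) {a b : Fin d → ℤ} (ha : Un a) (hb : Un b)
    (h1 : a ≠ b) (h2 : a + b ≠ 0) : Df φ (x + a) b = Df φ x b ∧ Df φ x a + Df φ x b ≠ 0 := by
  have e : Df φ x a + Df φ (x + a) b = Df φ x b + Df φ (x + b) a := by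
    unfold Df; rw [add_right_comm x b a]; abel
  have n : Df φ x a + Df φ (x + a) b ≠ 0 := by
    intro h
    have : φ (x + a + b) = φ x := by
      rw [← sub_eq_zero, ← h]; unfold Df; abel
    have := φ.injective this
    exact h2 (by rwa [add_assoc, add_eq_left] at this)
  rcases un_arith (Df_un φ x ha) (Df_un φ x hb) (Df_un φ _ hb) (Df_un φ _ ha) e with h | h | h
  · exact absurd (Df_inj φ x h) h1
  · exact ⟨h, h ▸ n⟩
  · exact absurd h n

lemma claimB (φ : Zd d ≃g Zd d) (x : Fin d → ℤ) {a : Fin d → ℤ} (ha : Un a) :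
    Df φ x a + Df φ x (-a) = 0 := by
  by_contra h
  refine (claimA φ.symm (φ x) (Df_un φ x ha) (Df_un φ x ha.neg)
    (fun e => ha.ne_neg (Df_inj φ x e)) h).2 ?_
  simp [Df]

lemma Df_step (φ : Zd d ≃g Zd d) (x : Fin d → ℤ) {a b : Fin d → ℤ} (ha : Un a) (hb : Un b) :
    Df φ (x + a) b = Df φ x b := by
  by_cases h1 : a = b
  · subst h1
    rw [eq_neg_of_add_eq_zero_left (claimB φ (x + a) ha)]
    simp [Df]
  by_cases h2 : a + b = 0
  · obtain rfl : b = -a := eq_neg_of_add_eq_zero_right h2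
    rw [eq_neg_of_add_eq_zero_right (claimB φ x ha)]
    simp [Df]
  exact (claimA φ x ha hb h1 h2).1

lemma zd_ind {P : (Fin d → ℤ) → Prop} (h0 : P 0) (hs : ∀ x a, Un a → P x → P (x + a)) (x) :
    P x := by
  have : ∀ s : Finset (Fin d), P (∑ i ∈ s, Pi.single i (x i)) := by
    intro s
    induction s using Finset.cons_induction_on with
    | empty => simpa
    | cons i s hi ih =>
      rw [sum_cons, add_comm]
      induction x i using Int.induction_on with
      | zero => simpa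
      | succ n h => rw [Pi.single_add, ← add_assoc]; exact hs _ _ ⟨i, 1, Or.inl rfl, rfl⟩ h
      | pred n h =>
        rw [sub_eq_add_neg, Pi.single_add, ← add_assoc]; exact hs _ _ ⟨i, -1, Or.inr rfl, rfl⟩ h
  simpa [univ_sum_single] using this univ

theorem classify (φ : Zd d ≃g Zd d) : ∃ (ρ : Equiv.Perm (Fin d)) (ε v : Fin d → ℤ),
    (∀ i, ε i = 1 ∨ ε i = -1) ∧ ∀ x i, φ x (ρ i) = v i + ε i * x i := by
  have h1 : ∀ x b, Un b → Df φ x b = Df φ 0 b := fun x =>
    zd_ind (P := fun x => ∀ b, Un b → Df φ x b = Df φ 0 b) (fun _ _ => rfl)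
      (fun x a ha h b hb => (Df_step φ x ha hb).trans (h b hb)) x
  have u : ∀ i : Fin d, Un (Pi.single i (1 : ℤ)) := fun i => ⟨i, 1, Or.inl rfl, rfl⟩
  choose ρ ε hε h2 using fun i => Df_un φ 0 (u i)
  have inj : Function.Injective ρ := by
    intro i j hij
    by_contra hne
    have n1 : (Pi.single i 1 : Fin d → ℤ) ≠ Pi.single j 1 := fun e => by
      simpa [hne] using congrFun e i
    have n2 : (Pi.single i 1 : Fin d → ℤ) + Pi.single j 1 ≠ 0 := fun e => by
      simpa [hne] using congrFun e i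
    have := (claimA φ 0 (u i) (u j) n1 n2).2
    by_cases e : ε i = ε j
    · exact n1 (Df_inj φ 0 (by rw [h2, h2, hij, e]))
    · refine this ?_
      rw [h2, h2, hij, ← Pi.single_add, show ε i + ε j = 0 by have := hε i; have := hε j; omega,
        Pi.single_zero]
  refine ⟨Equiv.ofBijective ρ (Finite.injective_iff_bijective.1 inj), ε, fun i => φ 0 (ρ i), hε,
    zd_ind (fun i => by simp) ?_⟩
  rintro x a ha h j
  have e : φ (x + a) = φ x + Df φ 0 a := by rw [← h1 x a ha]; simp [Df]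
  simp only [Equiv.ofBijective_apply] at h ⊢
  rw [e, Pi.add_apply, h j]
  obtain ⟨i, s, rfl | rfl, rfl⟩ := ha
  · rw [h2]
    by_cases hj : j = i
    · subst hj; simp; ring
    · simp [hj, inj.ne hj]
  · rw [Pi.single_neg, eq_neg_of_add_eq_zero_right (claimB φ 0 (u i)), h2]
    by_cases hj : j = i
    · subst hj; simp; ring
    · simp [hj, inj.ne hj]

end Pool.Agent.H44.FE
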