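import Pool.Agent.H44.FE1

/-! Probabilistic lemmas on product measures. -/

open Set Filter Topology MeasureTheory ProbabilityTheory Measure
open scoped ENNReal unitInterval

namespace Pool.Agent.H44.FE

lemma blocks {ι X : Type} [MeasurableSpace X] (ρ : Measure X) [IsProbabilityMeasure ρ]
    {T : Set X} (hT : MeasurableSet T) (h0 : ρ T ≠ 0) (F : ℕ → Finset ι) (C : ℕ)
    (hC : ∀ k, (F k).card ≤ C) (hF : ∀ i, ∀ᶠ k in atTop, i ∉ F k) :
    ∀ᵐ ξ ∂infinitePi (fun _ : ι => ρ), ∀ K, ∃ k, K ≤ k ∧ ∀ i ∈ F k, ξ i ∈ T := by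
  classical
  refine ae_all_iff.2 fun K => ?_
  obtain ⟨f, f1, f2⟩ := exists_seq_of_forall_finset_exists' (fun k => K ≤ k)
    (fun a b => Disjoint (F a) (F b)) fun s _ => by
      obtain ⟨y, h1, h2⟩ := ((eventually_ge_atTop K).and
        ((eventually_all_finset (s.biUnion F)).2 fun i _ => hF i)).exists
      exact ⟨y, h1, fun x hx => Finset.disjoint_left.2 fun i hi =>
        h2 i (Finset.mem_biUnion.2 ⟨x, hx, hi⟩)⟩
  set s : ℕ → Set (ι → X) := fun n => Set.pi (F (f n)) fun _ => T with hs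
  have hm : ∀ n, MeasurableSet (s n) := fun n => .pi (Finset.countable_toSet _) fun _ _ => hT
  have hv : ∀ n, infinitePi (fun _ : ι => ρ) (s n) = ρ T ^ (F (f n)).card := fun n => by
    rw [hs, infinitePi_pi _ fun _ _ => hT, Finset.prod_const]
  have hi : iIndepSet s (infinitePi fun _ : ι => ρ) := by
    rw [iIndepSet_iff_meas_biInter hm]
    intro S
    have : ⋂ n ∈ S, s n = Set.pi (S.biUnion fun n => F (f n)) fun _ => T := by
      ext ξ; simp only [hs, mem_iInter, Set.mem_pi, Finset.mem_coe, Finset.mem_biUnion]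
      exact ⟨fun h i ⟨n, h1, h2⟩ => h n h1 i h2, fun h n h1 i h2 => h i ⟨n, h1, h2⟩⟩
    rw [this, infinitePi_pi _ fun _ _ => hT, Finset.prod_const,
      Finset.card_biUnion fun a _ b _ hab => f2 hab, ← Finset.prod_pow_eq_pow_sum]
    exact Finset.prod_congr rfl fun n _ => (hv n).symm
  have h1 := measure_limsup_eq_one hm hi (by
    refine top_unique (le_trans (ENNReal.tsum_const_eq_top_of_ne_zero (α := ℕ)
      (pow_ne_zero C h0)).ge (ENNReal.tsum_le_tsum fun n => ?_))
    rw [hv]
    exact pow_le_pow_right_of_le_one' prob_le_one (hC _))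
  have h2 : ∀ᵐ ξ ∂infinitePi (fun _ : ι => ρ), ξ ∈ limsup s atTop :=
    (prob_compl_eq_zero_iff (MeasurableSet.measurableSet_limsup hm)).2 h1
  filter_upwards [h2] with ξ hξ
  obtain ⟨n, hn⟩ := (mem_limsup_iff_frequently_mem.1 hξ).exists
  exact ⟨f n, f1 n, hn⟩

lemma half_mem : (1 / 2 : ℝ) ∈ I := by constructor <;> norm_num

noncomputable def kap : Measure ℕ := geometricMeasure ⟨1 / 2, half_mem⟩

instance : IsProbabilityMeasure kap := by unfold kap; infer_instance

lemma kap_pos (n : ℕ) : kap {n} ≠ 0 := by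
  have := geometricMeasure_real_singleton_pos (p := ⟨1 / 2, half_mem⟩)
    (by simp [Subtype.ext_iff]) (by simp [Subtype.ext_iff]) n
  exact fun h => by simp [measureReal_def, kap] at this h; simp [h] at this

lemma geo_sum : ∑' k : ℕ, (2⁻¹ : ℝ≥0∞) ^ k ≠ ∞ := by
  rw [ENNReal.tsum_geometric_two]; simp

lemma geo_pos (k : ℕ) : 0 < (2⁻¹ : ℝ≥0∞) ^ k := ENNReal.pow_pos (by simp) k

lemma window : ∃ r : ℕ → ℕ, ∀ (ι : Type) (t : ℕ → ι), Function.Injective t →
    ∀ᵐ A ∂infinitePi (fun _ : ι => kap), ∀ᶠ k in atTop, ∃ n < r k, k ≤ A (t n) := by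
  have : ∀ k : ℕ, ∃ r : ℕ, kap (Iio k) ^ r ≤ 2⁻¹ ^ k := by
    intro k
    have h1 : kap (Iio k) < 1 := by
      refine lt_of_le_of_ne prob_le_one fun h => kap_pos k ?_
      exact measure_mono_null (by simp) ((prob_compl_eq_zero_iff measurableSet_Iio).2 h)
    exact ((ENNReal.tendsto_pow_atTop_nhds_zero_of_lt_one h1).eventually
      (ge_mem_nhds (geo_pos k))).exists
  choose r hr using this
  refine ⟨r, fun ι t ht => ?_⟩
  classical
  have := ae_eventually_notMem (μ := infinitePi fun _ : ι => kap)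
    (s := fun k => Set.pi ((Finset.range (r k)).image t) fun _ => Iio k)
    (ne_top_of_le_ne_top geo_sum (ENNReal.tsum_le_tsum fun k => by
      rw [infinitePi_pi _ fun _ _ => measurableSet_Iio, Finset.prod_const,
        Finset.card_image_of_injective _ ht, Finset.card_range]
      exact hr k))
  filter_upwards [this] with A hA
  filter_upwards [hA] with k hk
  by_contra hc
  push Not at hc
  exact hk fun i hi => by
    obtain ⟨n, h1, rfl⟩ := Finset.mem_image.1 (Finset.mem_coe.1 hi)
    exact hc n (Finset.mem_range.1 h1)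

lemma noise {ι : Type} (S : ℕ → Finset ι) : ∃ g : ℕ → ℕ, Monotone g ∧
    ∀ᵐ U ∂infinitePi (fun _ : ι => kap), ∀ᶠ k in atTop, ∀ i ∈ S k, U i ≤ g k := by
  have h0 : Tendsto (fun n => kap (Ioi n)) atTop (𝓝 0) := by
    have := tendsto_measure_iInter_atTop (μ := kap) (s := fun n : ℕ => Ioi n)
      (fun _ => measurableSet_Ioi.nullMeasurableSet) (fun _ _ h => Ioi_subset_Ioi h)
      ⟨0, measure_ne_top _ _⟩
    rwa [show ⋂ n : ℕ, Ioi n = ∅ from eq_empty_of_forall_notMem fun n h =>
      lt_irrefl n (mem_iInter.1 h n), measure_empty] at this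
  have : ∀ k : ℕ, ∃ n : ℕ, (S k).card * kap (Ioi n) ≤ 2⁻¹ ^ k := by
    intro k
    have := ENNReal.Tendsto.const_mul (a := (S k).card) h0 (Or.inr (by simp))
    rw [mul_zero] at this
    exact (this.eventually (ge_mem_nhds (geo_pos k))).exists
  choose g hg using this
  refine ⟨partialSups g, (partialSups g).monotone, ?_⟩
  have := ae_eventually_notMem (μ := infinitePi fun _ : ι => kap)
    (s := fun k => ⋃ i ∈ S k, (fun U => U i) ⁻¹' Ioi (g k))
    (ne_top_of_le_ne_top geo_sum (ENNReal.tsum_le_tsum fun k => by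
      refine (measure_biUnion_finset_le _ _).trans (le_trans (le_of_eq ?_) (hg k))
      rw [Finset.sum_congr rfl fun i _ => (measurePreserving_eval_infinitePi (fun _ : ι => kap)
        i).measure_preimage measurableSet_Ioi.nullMeasurableSet, Finset.sum_const, nsmul_eq_mul]))
  filter_upwards [this] with U hU
  filter_upwards [hU] with k hk i hi
  refine le_trans (not_lt.1 fun h => hk ?_) (le_partialSups g k)
  exact mem_biUnion (Finset.mem_coe.2 hi) h

lemma upd_null {ι : Type} [DecidableEq ι] (v : ι) (n : ℕ) {B : Set (ι → ℕ)} (hB : MeasurableSet B)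
    (h : ∀ U, U ∈ B ↔ Function.update U v 0 ∈ B)
    (h0 : infinitePi (fun _ : ι => kap) (B ∩ {U | U v = n}) = 0) :
    infinitePi (fun _ : ι => kap) B = 0 := by
  have i1 := (iIndepFun_infinitePi (P := fun _ : ι => kap) (X := fun _ ω => ω)
    fun _ => measurable_id).iIndep
  have i2 := indep_iSup_of_disjoint (fun i => (measurable_pi_apply i).comap_le) i1
    (S := {v}ᶜ) (T := {v}) disjoint_compl_left
  have m1 : Measurable[⨆ i ∈ ({v}ᶜ : Set ι), MeasurableSpace.comap (fun U : ι → ℕ => U i)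
      inferInstance] fun U : ι → ℕ => Function.update U v 0 := by
    refine @measurable_pi_lambda _ _ _ (_) _ _ fun w => ?_
    by_cases hw : w = v
    · subst hw; simp only [Function.update_self]; exact measurable_const
    · simp only [Function.update_of_ne hw]
      exact (comap_measurable _).mono (le_iSup₂_of_le (f := fun i (_ : i ∈ ({v}ᶜ : Set ι)) =>
        MeasurableSpace.comap (fun U : ι → ℕ => U i) inferInstance) w hw le_rfl) le_rfl
  have m2 : MeasurableSet[⨆ i ∈ ({v} : Set ι), MeasurableSpace.comap (fun U : ι → ℕ => U i)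
      inferInstance] {U : ι → ℕ | U v = n} :=
    (comap_measurable _).mono (le_iSup₂_of_le (f := fun i (_ : i ∈ ({v} : Set ι)) =>
      MeasurableSpace.comap (fun U : ι → ℕ => U i) inferInstance) v rfl le_rfl) le_rfl
      (measurableSet_singleton n)
  have e : B = (fun U => Function.update U v 0) ⁻¹' B := Set.ext h
  have := (Indep_iff _ _ _).1 i2 _ _ (m1 hB) m2
  rw [← e, h0] at this
  refine (mul_eq_zero.1 this.symm).resolve_right ?_
  have := (measurePreserving_eval_infinitePi (fun _ : ι => kap) v).measure_preimage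
    (measurableSet_singleton n).nullMeasurableSet
  exact this ▸ kap_pos n

lemma cond_pos {Ω : Type} {m m0 : MeasurableSpace Ω} (hm : m ≤ m0) (μ : Measure Ω)
    [IsProbabilityMeasure μ] {S : Set Ω} (hS : MeasurableSet S)
    (h : ∀ B, MeasurableSet[m] B → μ (B ∩ S) = 0 → μ B = 0) :
    ∀ᵐ ω ∂μ, 0 < condExp m μ (indicator S fun _ => (1 : ℝ)) ω := by
  have hB : MeasurableSet[m] {ω | condExp m μ (indicator S fun _ => (1 : ℝ)) ω ≤ 0} :=
    measurableSet_le stronglyMeasurable_condExp.measurable measurable_const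
  rw [ae_iff]
  simp only [not_lt]
  refine h _ hB ?_
  have h1 := setIntegral_condExp hm ((integrable_const (1 : ℝ)).indicator hS) hB (μ := μ)
  have h2 := setIntegral_nonpos (μ := μ) (hm _ hB) fun ω hω => hω
  rw [h1, setIntegral_indicator hS] at h2
  simp only [integral_const, MeasurableSet.univ, measureReal_restrict_apply, univ_inter,
    smul_eq_mul, mul_one] at h2
  exact (measureReal_eq_zero_iff (measure_ne_top _ _)).1 (le_antisymm h2 measureReal_nonneg)

lemma cond_both {Ω : Type} {m m0 : MeasurableSpace Ω} (hm : m ≤ m0) (μ : Measure Ω)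
    [IsProbabilityMeasure μ] {S : Set Ω} (hS : MeasurableSet S)
    (h : ∀ B, MeasurableSet[m] B → μ (B ∩ S) = 0 → μ B = 0)
    (h' : ∀ B, MeasurableSet[m] B → μ (B ∩ Sᶜ) = 0 → μ B = 0) :
    ∀ᵐ ω ∂μ, 0 < condExp m μ (indicator S fun _ => (1 : ℝ)) ω ∧
      condExp m μ (indicator S fun _ => (1 : ℝ)) ω < 1 := by
  have e := condExp_add ((integrable_const (1 : ℝ)).indicator hS)
    ((integrable_const (1 : ℝ)).indicator hS.compl) m (μ := μ)
  rw [indicator_self_add_compl, condExp_const hm] at e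
  filter_upwards [cond_pos hm μ hS h, cond_pos hm μ hS.compl h', e] with ω a b c
  simp only [Pi.add_apply] at c
  exact ⟨a, by linarith⟩

variable {d : ℕ}

lemma measurable_conn (x y : Fin d → ℤ) : MeasurableSet {ω : Cfg d | Conn ω x y} := by
  let R : ℕ → (Fin d → ℤ) → Set (Cfg d) := fun n => Nat.rec (fun y => {_ω | x = y})
    (fun _ ih y => ⋃ a, ⋃ h : (Zd d).Adj a y, ih a ∩ {ω | ω ⟨s(a, y), h⟩ = true}) n
  have hR : ∀ n y, MeasurableSet (R n y) := by
    intro n
    induction n with
    | zero => exact fun y => MeasurableSet.const _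
    | succ n ih =>
      exact fun y => .iUnion fun a => .iUnion fun h =>
        (ih a).inter (measurableSet_eq_fun (measurable_pi_apply _) measurable_const)
  have : {ω : Cfg d | Conn ω x y} = ⋃ n, R n y := by
    ext ω
    simp only [mem_ofPred_eq, mem_iUnion]
    constructor
    · intro h
      induction h with
      | refl => exact ⟨0, rfl⟩
      | tail _ h2 ih =>
        obtain ⟨n, hn⟩ := ih
        obtain ⟨h3, h4⟩ := h2
        exact ⟨n + 1, mem_iUnion.2 ⟨_, mem_iUnion.2 ⟨h3, hn, h4⟩⟩⟩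
    · rintro ⟨n, hn⟩
      induction n generalizing y with
      | zero => exact (show x = y from hn) ▸ Relation.ReflTransGen.refl
      | succ n ih =>
        obtain ⟨a, ha⟩ := mem_iUnion.1 hn
        obtain ⟨h1, h2, h3⟩ := mem_iUnion.1 ha
        exact (ih a h2).tail ⟨h1, h3⟩
  rw [this]
  exact .iUnion fun n => hR n y

lemma measurable_perc : MeasurableSet {ω : Cfg d | Perc ω} := by
  have : {ω : Cfg d | Perc ω} =
      ⋃ x, ⋂ S : Finset (Fin d → ℤ), ⋃ y, ⋃ _ : y ∉ S, {ω | Conn ω x y} := by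
    ext ω
    simp only [Perc, mem_ofPred_eq, mem_iUnion, mem_iInter]
    refine exists_congr fun x => ⟨fun h S => ?_, fun h hf => ?_⟩
    · obtain ⟨y, h1, h2⟩ := h.exists_notMem_finset S
      exact ⟨y, h2, h1⟩
    · obtain ⟨y, h1, h2⟩ := h hf.toFinset
      exact h1 (hf.mem_toFinset.2 h2)
  rw [this]
  exact .iUnion fun x => .iInter fun S => .iUnion fun y => .iUnion fun _ => measurable_conn x y

end Pool.Agent.H44.FE
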