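import Pool.Agent.H44.FE2

/-! The hierarchical construction: deterministic part. -/

open Set Filter

namespace Pool.Agent.H44.FE

variable {d : ℕ}

def sg (e : (Zd d).edgeSet) : Fin d → ℤ := Sym2.lift ⟨fun x y => x + y, add_comm⟩ e.1

abbrev mkE {a b : Fin d → ℤ} (h : (Zd d).Adj a b) : (Zd d).edgeSet := ⟨s(a, b), h⟩

lemma sg_mk {a b : Fin d → ℤ} (h : (Zd d).Adj a b) : sg (mkE h) = a + b := rfl

lemma conn_refl (ω : Cfg d) (x : Fin d → ℤ) : Conn ω x x := Relation.ReflTransGen.refl

lemma edge_form (e : (Zd d).edgeSet) : ∃ x i, e.1 = s(x, x + Pi.single i 1) := by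
  obtain ⟨e, he⟩ := e
  induction e using Sym2.ind with
  | h a b =>
    obtain ⟨i, s, rfl | rfl, h⟩ := adj_iff.1 he
    · exact ⟨a, i, by rw [← h, add_sub_cancel]⟩
    · refine ⟨b, i, ?_⟩
      rw [Pi.single_neg, ← neg_eq_iff_eq_neg, neg_sub] at h
      rw [← h, add_sub_cancel]
      exact Sym2.eq_swap

lemma sg_inj : Function.Injective (sg (d := d)) := by
  intro e f h
  obtain ⟨x, i, hx⟩ := edge_form e
  obtain ⟨y, j, hy⟩ := edge_form f
  simp only [sg, hx, hy, Sym2.lift_mk] at h
  have h1 := fun k => congrFun h k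
  simp only [Pi.add_apply, Pi.single_apply] at h1
  obtain rfl : i = j := by
    by_contra hne
    have := h1 i
    rw [if_pos rfl, if_neg hne] at this
    omega
  obtain rfl : x = y := funext fun k => by have := h1 k; omega
  exact Subtype.ext (hx.trans hy.symm)

def door (A : Fin d × ℤ → ℕ) (σ : Fin d → ℤ) : Prop :=
  ∀ i j, σ i % 2 = 1 → σ j % 2 = 0 → A (i, σ i) ≤ max (A (j, σ j - 1)) (A (j, σ j + 1))

def lev (A : Fin d × ℤ → ℕ) (σ : Fin d → ℤ) : ℕ :=
  ∑ j, (A (j, σ j - 1) + A (j, σ j) + A (j, σ j + 1))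

lemma le_lev (A : Fin d × ℤ → ℕ) (σ : Fin d → ℤ) (j : Fin d) :
    A (j, σ j - 1) + A (j, σ j) + A (j, σ j + 1) ≤ lev A σ :=
  Finset.single_le_sum (f := fun j => A (j, σ j - 1) + A (j, σ j) + A (j, σ j + 1))
    (fun _ _ => Nat.zero_le _) (Finset.mem_univ j)

noncomputable def XX (g : ℕ → ℕ) (z : (Fin d × ℤ → ℕ) × ((Zd d).edgeSet → ℕ)) : Cfg d :=
  fun e => @decide (door z.1 (sg e) ↔ z.2 e ≤ g (lev z.1 (sg e))) (Classical.propDecidable _)

lemma measurable_XX (g : ℕ → ℕ) : Measurable (XX (d := d) g) := by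
  classical
  refine measurable_pi_lambda _ fun e => ?_
  exact (measurable_of_countable fun w : (Fin d → ℕ × ℕ × ℕ) × ℕ =>
    @decide ((∀ i j, sg e i % 2 = 1 → sg e j % 2 = 0 → (w.1 i).2.1 ≤ max (w.1 j).1 (w.1 j).2.2) ↔
      w.2 ≤ g (∑ j, ((w.1 j).1 + (w.1 j).2.1 + (w.1 j).2.2))) (Classical.propDecidable _)).comp
    (f := fun z : (Fin d × ℤ → ℕ) × ((Zd d).edgeSet → ℕ) =>
      (fun j => (z.1 (j, sg e j - 1), z.1 (j, sg e j), z.1 (j, sg e j + 1)), z.2 e)) (by fun_prop)

lemma XX_aut (g : ℕ → ℕ) (φ : Zd d ≃g Zd d) : ∃ τ : Fin d × ℤ → Fin d × ℤ, Function.Injective τ ∧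
    ∀ A U e, XX g (A, U) (φ.mapEdgeSet e) =
      XX g (fun w => A (τ w), fun f => U (φ.mapEdgeSet f)) e := by
  obtain ⟨ρ, ε, v, hε, h⟩ := classify φ
  refine ⟨fun w => (ρ w.1, 2 * v w.1 + ε w.1 * w.2), ?_, fun A U e => ?_⟩
  · rintro ⟨i, a⟩ ⟨j, b⟩ hh
    simp only [Prod.mk.injEq, ρ.injective.eq_iff] at hh
    obtain ⟨rfl, h2⟩ := hh
    rcases hε i with e | e <;> rw [e] at h2 <;> simp only [Prod.mk.injEq, true_and] <;> omega
  have h1 : ∀ i, sg (φ.mapEdgeSet e) (ρ i) = 2 * v i + ε i * sg e i := by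
    obtain ⟨e, he⟩ := e
    induction e using Sym2.ind with
    | h a b =>
      intro i
      change φ a (ρ i) + φ b (ρ i) = 2 * v i + ε i * (a i + b i)
      rw [h, h]; ring
  have h2 : ∀ i, (sg (φ.mapEdgeSet e) (ρ i) - 1 = 2 * v i + ε i * (sg e i - 1) ∧
      sg (φ.mapEdgeSet e) (ρ i) + 1 = 2 * v i + ε i * (sg e i + 1)) ∨
      (sg (φ.mapEdgeSet e) (ρ i) - 1 = 2 * v i + ε i * (sg e i + 1) ∧
      sg (φ.mapEdgeSet e) (ρ i) + 1 = 2 * v i + ε i * (sg e i - 1)) := by
    intro i
    rw [h1]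
    rcases hε i with e | e <;> rw [e] <;> omega
  have h3 : ∀ i, sg (φ.mapEdgeSet e) (ρ i) % 2 = sg e i % 2 := by
    intro i
    rw [h1]
    rcases hε i with e | e <;> rw [e] <;> omega
  have a : door A (sg (φ.mapEdgeSet e)) ↔
      door (fun w => A (ρ w.1, 2 * v w.1 + ε w.1 * w.2)) (sg e) := by
    unfold door
    rw [ρ.surjective.forall₂]
    refine forall₂_congr fun i j => ?_
    rw [h3, h3]
    rcases h2 j with ⟨e1, e2⟩ | ⟨e1, e2⟩
    · rw [e1, e2, h1]
    · rw [e1, e2, h1, max_comm]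
  have b : lev A (sg (φ.mapEdgeSet e)) =
      lev (fun w => A (ρ w.1, 2 * v w.1 + ε w.1 * w.2)) (sg e) := by
    unfold lev
    rw [← Equiv.sum_comp ρ]
    refine Finset.sum_congr rfl fun j _ => ?_
    rcases h2 j with ⟨e1, e2⟩ | ⟨e1, e2⟩
    · rw [e1, e2, h1]
    · rw [e1, e2, h1]; ring
  simp only [XX]
  rw [decide_eq_decide, a, b]

/-- first index with value at least `k` -/
noncomputable def fst (w : ℕ → ℕ) (k : ℕ) : ℕ := sInf {n | k ≤ w n}

def Win (r w : ℕ → ℕ) : Prop := ∀ᶠ k in atTop, ∃ n < r k, k ≤ w n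

lemma fst_min {w : ℕ → ℕ} {k n : ℕ} (h : n < fst w k) : w n < k :=
  not_le.1 (Nat.notMem_of_lt_sInf (s := {n | k ≤ w n}) h)

lemma Win.spec {r w : ℕ → ℕ} (h : Win r w) (k : ℕ) : k ≤ w (fst w k) := by
  obtain ⟨k', h1, n, -, h2⟩ := ((eventually_ge_atTop k).and h).exists
  exact Nat.sInf_mem (s := {n | k ≤ w n}) ⟨n, h1.trans h2⟩

lemma Win.lt {r w : ℕ → ℕ} (h : Win r w) : ∀ᶠ k in atTop, fst w k < r k :=
  h.mono fun k ⟨_, h1, h2⟩ => (Nat.sInf_le (s := {n | k ≤ w n}) h2).trans_lt h1

lemma Win.mono {r w : ℕ → ℕ} (h : Win r w) (k : ℕ) : fst w k ≤ fst w (k + 1) :=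
  Nat.sInf_le ((Nat.le_succ k).trans (h.spec (k + 1)))

lemma Win.big {r w : ℕ → ℕ} (h : Win r w) (m : ℕ) : ∀ᶠ k in atTop, m < fst w k := by
  filter_upwards [eventually_gt_atTop ((Finset.range (m + 1)).sup w)] with k hk
  by_contra hc
  exact absurd ((h.spec k).trans (Finset.le_sup (f := w)
    (Finset.mem_range.2 (Nat.lt_succ_of_le (not_lt.1 hc))))) (not_le.2 hk)

def Rad (r : ℕ → ℕ) (k : ℕ) : ℕ := 2 * (r k + r (k + 1) + k) + 2

/-- unflipped edges -/
def Unf (r : ℕ → ℕ) (A : Fin d × ℤ → ℕ) (ω : Cfg d) : Prop :=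
  ∀ᶠ k in atTop, ∀ e, (∀ j, |sg e j| ≤ Rad r k) → k ≤ lev A (sg e) → (ω e = true ↔ door A (sg e))

def GoodA (r : ℕ → ℕ) (A : Fin d × ℤ → ℕ) : Prop :=
  ∀ j (y : ℤ), Win r (fun n => A (j, 2 * (y - n) - 1)) ∧ Win r fun n => A (j, 2 * (y + n) + 1)

lemma move (hd : 2 ≤ d) {A : Fin d × ℤ → ℕ} {ω : Cfg d} {k : ℕ} {R : ℤ}
    (hU : ∀ e, (∀ j, |sg e j| ≤ 2 * R + 2) → k ≤ lev A (sg e) → (ω e = true ↔ door A (sg e)))
    {z : Fin d → ℤ} {i : Fin d} (hz : ∀ j, |z j| ≤ R) (hl : ∀ j ≠ i, k ≤ A (j, 2 * z j - 1))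
    (T : ℕ) (hT : -R ≤ z i - T) (hw : ∀ t < T, A (i, 2 * (z i - t) - 1) ≤ k) :
    Conn ω z (Function.update z i (z i - T)) := by
  induction T with
  | zero => simpa using conn_refl ω z
  | succ T ih =>
    have adj : (Zd d).Adj (Function.update z i (z i - T))
        (Function.update z i (z i - (T + 1 : ℕ))) := by
      refine adj_iff.2 ⟨i, -1, Or.inr rfl, funext fun j => ?_⟩
      by_cases hj : j = i
      · subst hj; simp
      · simp [hj]
    have s1 : sg (mkE adj) i = 2 * (z i - T) - 1 := by simp [sg_mk]; ring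
    have s2 : ∀ j ≠ i, sg (mkE adj) j = 2 * z j := fun j hj => by simp [sg_mk, hj]; ring
    refine (ih (by push_cast at hT; omega) fun t ht => hw t (by omega)).tail
      ⟨adj, (hU (mkE adj) (fun j => ?_) ?_).2 fun a b ha hb => ?_⟩
    · have := abs_le.1 (hz j)
      by_cases hj : j = i
      · subst hj; rw [s1, abs_le]; push_cast at hT; omega
      · rw [s2 j hj, abs_le]; omega
    · have : Nontrivial (Fin d) := Fin.nontrivial_iff_two_le.2 hd
      obtain ⟨j, hj⟩ := exists_ne i
      have := le_lev A (sg (mkE adj)) j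
      have := hl j hj
      rw [s2 j hj] at *
      omega
    · obtain rfl : a = i := by
        by_contra h
        rw [s2 a h] at ha; omega
      have hb' : b ≠ a := by rintro rfl; omega
      rw [s1, s2 b hb']
      exact (hw T (Nat.lt_succ_self T)).trans ((hl b hb').trans (le_max_left _ _))

theorem perc_of (hd : 2 ≤ d) {r : ℕ → ℕ} {A : Fin d × ℤ → ℕ} {ω : Cfg d} (hA : GoodA r A)
    (hU : Unf r A ω) : Perc ω := by
  classical
  set w : Fin d → ℕ → ℕ := fun j n => A (j, 2 * (0 - n) - 1) with hw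
  have W : ∀ j, Win r (w j) := fun j => (hA j 0).1
  set c : ℕ → Fin d → ℤ := fun k j => -(fst (w j) k : ℤ) with hc
  have st : ∀ᶠ k in atTop, Conn ω (c k) (c (k + 1)) := by
    filter_upwards [hU, (tendsto_add_atTop_nat 1).eventually
      (eventually_all.2 fun j => (W j).lt)] with k h1 h2
    have : ∀ s : Finset (Fin d), Conn ω (c k) fun j => if j ∈ s then c (k + 1) j else c k j := by
      intro s
      induction s using Finset.induction_on with
      | empty => exact conn_refl ω (c k)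
      | insert i s hi ih =>
        refine ih.trans ?_
        have m := fun j => (W j).mono k
        have := move hd (A := A) (ω := ω) (k := k) (R := r k + r (k + 1) + k)
          (fun e he => h1 e (by simpa [Rad] using he)) (i := i)
          (z := fun j => if j ∈ s then c (k + 1) j else c k j)
          (fun j => by have := h2 j; have := m j; simp only [hc]; split_ifs <;> rw [abs_le] <;> omega)
          (fun j _ => by
            have a := (W j).spec k
            have b := (W j).spec (k + 1)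
            simp only [hc]
            split_ifs
            · rw [← zero_sub]; exact (Nat.le_succ k).trans b
            · rw [← zero_sub]; exact a) (fst (w i) (k + 1) - fst (w i) k)
          (by have := h2 i; have := m i; simp only [hc, if_neg hi]; omega)
          (fun t ht => by
            have := fst_min (w := w i) (k := k + 1) (n := fst (w i) k + t) (by omega)
            simp only [hw] at this
            simp only [hc, if_neg hi]
            rw [show -(fst (w i) k : ℤ) - t = 0 - (fst (w i) k + t : ℕ) by push_cast; ring]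
            exact Nat.le_of_lt_succ this)
        refine (congrArg _ (funext fun j => ?_)).mp this
        by_cases hj : j = i
        · subst hj
          have := m j
          simp only [Function.update_self, if_neg hi, hc, Finset.mem_insert_self, if_true]
          omega
        · simp [hj]
    simpa using this Finset.univ
  obtain ⟨K, hK⟩ := eventually_atTop.1 st
  have st2 : ∀ k, K ≤ k → Conn ω (c K) (c k) := fun k hk =>
    Nat.le_induction Relation.ReflTransGen.refl (fun n hn ih => ih.trans (hK n hn)) k hk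
  refine ⟨c K, fun hf => ?_⟩
  let j : Fin d := ⟨0, by omega⟩
  obtain ⟨b, hb⟩ := (hf.image fun y => y j).bddBelow
  obtain ⟨k, h1, h2⟩ := ((eventually_ge_atTop K).and ((W j).big b.natAbs)).exists
  have := hb (mem_image_of_mem _ (st2 k h1))
  simp only [hc] at this
  omega

theorem confine (hd : 2 ≤ d) {r : ℕ → ℕ} {A : Fin d × ℤ → ℕ} (hA : GoodA r A) (x : Fin d → ℤ) :
    ∃ F : ℕ → Finset (Zd d).edgeSet, (∀ k, (F k).card ≤ 4 ^ d) ∧ (∀ e, ∀ᶠ k in atTop, e ∉ F k) ∧
      ∀ ω ξ : Cfg d, Unf r A ω → (∀ K, ∃ k, K ≤ k ∧ ∀ e ∈ F k, ξ e = false) →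
        {y | Conn (fun e => ω e && ξ e) x y}.Finite := by
  classical
  set w : Fin d → ℕ → ℕ := fun j n => A (j, 2 * (x j - n) - 1) with hw
  set w' : Fin d → ℕ → ℕ := fun j n => A (j, 2 * (x j + n) + 1) with hw'
  have W : ∀ j, Win r (w j) := fun j => (hA j _).1
  have W' : ∀ j, Win r (w' j) := fun j => (hA j _).2
  set l : ℕ → Fin d → ℤ := fun k j => x j - fst (w j) k with hl
  set u : ℕ → Fin d → ℤ := fun k j => x j + fst (w' j) k with hu
  refine ⟨fun k => (Fintype.piFinset fun j =>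
    ({2 * l k j - 1, 2 * l k j, 2 * u k j, 2 * u k j + 1} : Finset ℤ)).preimage sg sg_inj.injOn,
    fun k => ?_, fun e => ?_, fun ω ξ hU hξ => ?_⟩
  · refine (Finset.card_le_card_of_injOn sg (fun e he => Finset.mem_preimage.1 he)
      sg_inj.injOn).trans ?_
    rw [Fintype.card_piFinset]
    refine (Finset.prod_le_pow_card _ _ 4 fun _ _ => Finset.card_le_four).trans ?_
    simp
  · let j : Fin d := ⟨0, by omega⟩
    filter_upwards [(W j).big ((sg e j).natAbs + (x j).natAbs),
      (W' j).big ((sg e j).natAbs + (x j).natAbs)] with k h1 h2 h3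
    have := Fintype.mem_piFinset.1 (Finset.mem_preimage.1 h3) j
    simp only [Finset.mem_insert, Finset.mem_singleton, hl, hu] at this
    omega
  obtain ⟨K, hK⟩ := eventually_atTop.1 (hU.and ((eventually_all.2 fun j => (W j).lt).and
    ((eventually_all.2 fun j => (W' j).lt).and
      (eventually_all.2 fun j => eventually_ge_atTop (x j).natAbs))))
  obtain ⟨k, hk, hF⟩ := hξ K
  obtain ⟨h1, h2, h3, h4⟩ := hK k hk
  refine (Fintype.piFinset fun j => Finset.Icc (l k j) (u k j)).finite_toSet.subset fun y hy => ?_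
  simp only [Finset.mem_coe, Fintype.mem_piFinset, Finset.mem_Icc]
  have inner : ∀ j y, l k j < y → y ≤ u k j → A (j, 2 * y - 1) < k := by
    intro j y a b
    simp only [hl, hu] at a b
    by_cases c : y ≤ x j
    · have := fst_min (w := w j) (k := k) (n := (x j - y).toNat) (by omega)
      simp only [hw] at this
      rwa [show x j - ((x j - y).toNat : ℤ) = y by omega] at this
    · have := fst_min (w := w' j) (k := k) (n := (y - x j - 1).toNat) (by omega)
      simp only [hw'] at this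
      rwa [show 2 * (x j + ((y - x j - 1).toNat : ℤ)) + 1 = 2 * y - 1 by omega] at this
  induction hy with
  | refl => intro j; simp only [hl, hu]; omega
  | @tail a b _ hab ih =>
    obtain ⟨adj, ho⟩ := hab
    simp only [Bool.and_eq_true] at ho
    obtain ⟨i, s, hs, e⟩ := adj_iff.1 adj
    have e1 : b i = a i + s := by have := congrFun e i; simp at this; omega
    have e2 : ∀ j ≠ i, b j = a j := fun j hj => by
      have := congrFun e j; simp [hj] at this; omega
    have s1 : sg (mkE adj) i = 2 * a i + s := by rw [sg_mk, Pi.add_apply, e1]; ring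
    have s2 : ∀ j ≠ i, sg (mkE adj) j = 2 * a j := fun j hj => by
      rw [sg_mk, Pi.add_apply, e2 j hj]; ring
    by_contra hc
    have out : sg (mkE adj) i = 2 * l k i - 1 ∨ sg (mkE adj) i = 2 * u k i + 1 := by
      by_contra hn
      refine hc fun j => ?_
      by_cases hj : j = i
      · subst hj; have := ih j; omega
      · rw [e2 j hj]; exact ih j
    have wall : k ≤ A (i, sg (mkE adj) i) := by
      rcases out with h | h <;> rw [h]
      · exact (W i).spec k
      · exact (W' i).spec k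
    have dr := (h1 (mkE adj) (fun j => by
      have := ih j; have := h2 j; have := h3 j; have := h4 j
      simp only [hl, hu] at *
      unfold Rad
      by_cases hj : j = i
      · subst hj; rw [s1, abs_le]; omega
      · rw [s2 j hj, abs_le]; omega) (by have := le_lev A (sg (mkE adj)) i; omega)).1 ho.1
    have := hF (mkE adj) (Finset.mem_preimage.2 (Fintype.mem_piFinset.2 fun j => by
      simp only [Finset.mem_insert, Finset.mem_singleton]
      by_cases hj : j = i
      · subst hj; omega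
      · have a1 := dr i j (by omega) (by rw [s2 j hj]; omega)
        rw [s2 j hj] at a1 ⊢
        have a2 := inner j (a j)
        have a3 := inner j (a j + 1)
        rw [show 2 * (a j + 1) - 1 = 2 * a j + 1 by ring] at a3
        have := ih j
        omega))
    rw [this] at ho
    exact Bool.false_ne_true ho.2

end Pool.Agent.H44.FE
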