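import Pool.Agent.H44.FE3

open Set Filter MeasureTheory ProbabilityTheory Measure
open scoped unitInterval

namespace Pool.Agent.H44.FE

variable {d : ℕ}

noncomputable def PP (d : ℕ) : Measure ((Fin d × ℤ → ℕ) × ((Zd d).edgeSet → ℕ)) :=
  (infinitePi fun _ => kap).prod (infinitePi fun _ => kap)

instance : IsProbabilityMeasure (PP d) := by unfold PP; infer_instance

theorem inv_map (g : ℕ → ℕ) : Invariant ((PP d).map (XX g)) := by
  intro φ
  obtain ⟨τ, hτ, h⟩ := XX_aut g φ
  have m1 : Measurable fun (A : Fin d × ℤ → ℕ) w => A (τ w) := by fun_prop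
  have m2 : Measurable fun (U : (Zd d).edgeSet → ℕ) f => U (φ.mapEdgeSet f) := by fun_prop
  have e : (PP d).map (Prod.map (fun A w => A (τ w)) fun U f => U (φ.mapEdgeSet f)) = PP d := by
    rw [PP, ← map_prod_map _ _ m1 m2, map_infinitePi_infinitePi_of_inj hτ,
      map_infinitePi_infinitePi_of_inj φ.mapEdgeSet.injective]
  rw [map_map (by fun_prop) (measurable_XX g)]
  conv_rhs => rw [← e, map_map (measurable_XX g) (m1.prodMap m2)]
  congr 1
  funext z e
  exact h z.1 z.2 e

theorem tol (g : ℕ → ℕ) (e : (Zd d).edgeSet) (b : Bool) {B : Set (Cfg d)}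
    (hB : MeasurableSet[others e] B) (h : (PP d).map (XX g) (B ∩ {ω | ω e = b}) = 0) :
    (PP d).map (XX g) B = 0 := by
  classical
  have hle : others e ≤ MeasurableSpace.pi := Measurable.comap_le (by fun_prop)
  have hB' := hle _ hB
  have hb : MeasurableSet {ω : Cfg d | ω e = b} :=
    measurableSet_eq_fun (measurable_pi_apply _) measurable_const
  rw [map_apply (measurable_XX g) (hB'.inter hb), PP,
    measure_prod_null (measurable_XX g (hB'.inter hb))] at h
  rw [map_apply (measurable_XX g) hB', PP, measure_prod_null (measurable_XX g hB')]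
  filter_upwards [h] with A hA
  obtain ⟨n, hn⟩ : ∃ n, ∀ U, U e = n → XX g (A, U) e = b := by
    by_cases hd : door A (sg e) <;> cases b
    · exact ⟨g (lev A (sg e)) + 1, fun U hU => by simp [XX, hd, hU]⟩
    · exact ⟨0, fun U hU => by simp [XX, hd, hU]⟩
    · exact ⟨0, fun U hU => by simp [XX, hd, hU]⟩
    · exact ⟨g (lev A (sg e)) + 1, fun U hU => by simp [XX, hd, hU]⟩
  refine upd_null e n (measurable_prodMk_left (measurable_XX g hB')) (fun U => ?_)
    (measure_mono_null (t := Prod.mk A ⁻¹' (XX g ⁻¹' (B ∩ {ω | ω e = b})))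
      (fun U hU => ⟨hU.1, hn U hU.2⟩) hA)
  obtain ⟨C, -, rfl⟩ := hB
  have : (fun f : {f // f ≠ e} => XX g (A, U) f) =
      fun f : {f // f ≠ e} => XX g (A, Function.update U e 0) f := by
    funext f
    simp only [XX]
    rw [decide_eq_decide, Function.update_of_ne f.2]
  simp only [mem_preimage, this]

theorem fe_map (g : ℕ → ℕ) : FiniteEnergy ((PP d).map (XX g)) := by
  intro e
  have := isProbabilityMeasure_map (μ := PP d) (measurable_XX g).aemeasurable
  refine cond_both (Measurable.comap_le (by fun_prop)) _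
    (measurableSet_eq_fun (measurable_pi_apply _) measurable_const)
    (fun B hB h => tol g e true hB h) fun B hB h => tol g e false hB ?_
  rwa [show {ω : Cfg d | ω e = false} = {ω | ω e = true}ᶜ by ext; simp]

theorem good (d : ℕ) : ∃ r g : ℕ → ℕ, ∀ᵐ z ∂PP d, GoodA r z.1 ∧ Unf r z.1 (XX g z) := by
  obtain ⟨r, hr⟩ := window
  obtain ⟨g, hg, h⟩ := noise fun k => (Fintype.piFinset fun _ : Fin d =>
    Finset.Icc (-(Rad r k : ℤ)) (Rad r k)).preimage sg sg_inj.injOn
  refine ⟨r, g, ?_⟩
  have a : ∀ᵐ A ∂infinitePi fun _ : Fin d × ℤ => kap, GoodA r A := by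
    refine ae_all_iff.2 fun j => ae_all_iff.2 fun y => Eventually.and ?_ ?_
    · exact hr _ (fun n : ℕ => (j, 2 * (y - n) - 1)) fun a b h => by
        simp only [Prod.mk.injEq] at h; omega
    · exact hr _ (fun n : ℕ => (j, 2 * (y + n) + 1)) fun a b h => by
        simp only [Prod.mk.injEq] at h; omega
  filter_upwards [quasiMeasurePreserving_fst.ae a, quasiMeasurePreserving_snd.ae h] with z h1 h2
  refine ⟨h1, h2.mono fun k hk e he hl => ?_⟩
  have := (hk e (Finset.mem_preimage.2 (Fintype.mem_piFinset.2 fun j =>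
    Finset.mem_Icc.2 (abs_le.1 (he j))))).trans (hg hl)
  simp [XX, this]

theorem main (hd : 2 ≤ d) : ∃ μ : Measure (Cfg d), IsProbabilityMeasure μ ∧ Invariant μ ∧
    FiniteEnergy μ ∧ (∀ᵐ ω ∂μ, Perc ω) ∧ pc μ = 1 := by
  obtain ⟨r, g, h⟩ := good d
  refine ⟨(PP d).map (XX g), isProbabilityMeasure_map (measurable_XX g).aemeasurable, inv_map g,
    fe_map g, (ae_map_iff (measurable_XX g).aemeasurable measurable_perc).2
      (h.mono fun z hz => perc_of hd hz.1 hz.2), ?_⟩
  refine le_antisymm le_top (le_of_forall_lt_imp_le_of_dense fun p hp => le_sSup ?_)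
  have m : MeasurableSet {z : Cfg d × Cfg d | ¬ Perc fun e => z.1 e && z.2 e} := by
    have : Measurable fun (z : Cfg d × Cfg d) e => z.1 e && z.2 e :=
      measurable_pi_lambda _ fun e => (measurable_of_countable fun w : Bool × Bool =>
        w.1 && w.2).comp (f := fun z : Cfg d × Cfg d => (z.1 e, z.2 e)) (by fun_prop)
    exact (this measurable_perc).compl
  have mm := (measurable_XX (d := d) g).prodMap (measurable_id (α := Cfg d))
  rw [mem_ofPred_eq, ← map_id (μ := infinitePi _), map_prod_map _ _ (measurable_XX g) measurable_id,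
    ae_map_iff mm.aemeasurable m]
  refine (ae_prod_iff_ae_ae (mm m)).2 ?_
  filter_upwards [h] with z hz
  choose F f1 f2 f3 using confine hd hz.1
  have h0 : bernoulliMeasure true false p {false} ≠ 0 := by
    rw [bernoulliMeasure_apply _ (measurableSet_singleton _)]
    simp only [mem_singleton_iff, Bool.true_eq_false, if_false, if_true, ne_eq,
      ENNReal.coe_eq_zero]
    intro h
    have h1 : (σ p : ℝ) = 0 := congrArg NNReal.toReal h
    have h2 : (p : ℝ) < 1 := hp
    rw [unitInterval.coe_symm_eq] at h1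
    linarith
  filter_upwards [ae_all_iff.2 fun x => blocks _ (measurableSet_singleton false) h0 (F x) _ (f1 x)
    (f2 x)] with ξ hξ
  rintro ⟨x, hx⟩
  exact hx (f3 x _ ξ hz.2 (hξ x))

end Pool.Agent.H44.FE
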