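import Mathlib

/-! Invariant bond percolation on the `d`-dimensional integer lattice. -/

open Set MeasureTheory ProbabilityTheory
open scoped unitInterval

namespace Pool.Agent.H44.FE

/-- the lattice graph: vertices at Euclidean distance one are adjacent -/
def Zd (d : ℕ) : SimpleGraph (Fin d → ℤ) where
  Adj x y := ∑ i, (x i - y i) ^ 2 = 1
  symm := ⟨fun x y h => by
    rw [← h]; exact Finset.sum_congr rfl fun i _ => by ring⟩
  loopless := ⟨fun x h => by simp at h⟩

/-- bond configurations (`true` = open) -/
abbrev Cfg (d : ℕ) : Type := (Zd d).edgeSet → Bool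

variable {d : ℕ}

/-- `x` and `y` are joined by an open path -/
def Conn (ω : Cfg d) : (Fin d → ℤ) → (Fin d → ℤ) → Prop :=
  Relation.ReflTransGen fun a b => ∃ h : (Zd d).Adj a b, ω ⟨s(a, b), h⟩ = true

/-- there is an infinite cluster -/
def Perc (ω : Cfg d) : Prop := ∃ x, {y | Conn ω x y}.Infinite

/-- the law is invariant under every graph automorphism -/
def Invariant (μ : Measure (Cfg d)) : Prop :=
  ∀ φ : Zd d ≃g Zd d, μ.map (fun ω e => ω (φ.mapEdgeSet e)) = μ

/-- the σ-algebra generated by the states of the edges other than `e` -/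
@[reducible] def others (e : (Zd d).edgeSet) : MeasurableSpace (Cfg d) :=
  MeasurableSpace.comap (fun ω (f : {f // f ≠ e}) => ω f) inferInstance

/-- `P(X(e) = 1 | X(f), f ≠ e)` -/
noncomputable def condOpen (μ : Measure (Cfg d)) (e : (Zd d).edgeSet) : Cfg d → ℝ :=
  condExp (others e) μ (indicator {ω | ω e = true} fun _ => 1)

def FiniteEnergy (μ : Measure (Cfg d)) : Prop :=
  ∀ e, ∀ᵐ ω ∂μ, 0 < condOpen μ e ω ∧ condOpen μ e ω < 1

/-- the supremum of the `p` for which the `p`-thinning a.s. has no infinite cluster -/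
noncomputable def pc (μ : Measure (Cfg d)) : I :=
  sSup {p : I | ∀ᵐ z ∂μ.prod (Measure.infinitePi fun _ => bernoulliMeasure true false p),
    ¬ Perc fun e => z.1 e && z.2 e}

end Pool.Agent.H44.FE
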