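import Pool.Agent.H44.FKDefs

open MeasureTheory Filter Topology

namespace Pool.Agent.H44.FK

variable {V : Type}

lemma comp_le {W : Type} [Finite W] (Γ Γ' : SimpleGraph W) (T : Finset W)
    (h : ∀ u w, u ∉ T → Γ'.Adj u w → Γ.Adj u w) :
    Nat.card Γ.ConnectedComponent ≤ Nat.card Γ'.ConnectedComponent + T.card := by
  classical
  have key : ∀ {u w : W} (q : Γ'.Walk u w), (∀ t ∈ T, ¬ Γ.Reachable u t) → Γ.Reachable u w := by
    intro u w q
    induction q with
    | nil => intro _; rfl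
    | cons hab q ih =>
      intro hT
      have h1 := (h _ _ (fun ht => hT _ ht (SimpleGraph.Reachable.refl _)) hab).reachable
      exact h1.trans (ih fun t ht hr => hT t ht (h1.trans hr))
  let f : Γ.ConnectedComponent → Γ'.ConnectedComponent ⊕ T := fun C =>
    if hC : ∃ t : T, Γ.connectedComponentMk t = C then Sum.inr hC.choose
    else Sum.inl (Γ'.connectedComponentMk C.out)
  have hf : Function.Injective f := by
    intro C D hCD
    by_cases hC : ∃ t : T, Γ.connectedComponentMk t = C <;>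
      by_cases hD : ∃ t : T, Γ.connectedComponentMk t = D <;>
      simp only [f, hC, hD, dif_pos, dif_neg, not_false_eq_true, Sum.inr.injEq, Sum.inl.injEq,
        reduceCtorEq] at hCD
    · rw [← hC.choose_spec, ← hD.choose_spec, hCD]
    · obtain ⟨q⟩ := SimpleGraph.ConnectedComponent.exact hCD
      have hr := key q fun t ht hr => hC ⟨⟨t, ht⟩, by
        rw [← SimpleGraph.ConnectedComponent.sound hr]; exact C.out_eq⟩
      have := SimpleGraph.ConnectedComponent.sound hr
      rw [← C.out_eq, ← D.out_eq]; exact this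
  have := Nat.card_le_card_of_injective f hf
  rwa [Nat.card_sum, Nat.card_eq_fintype_card (α := T), Fintype.card_coe] at this

variable {G : SimpleGraph V}

lemma ncomp_le (H : FinSub G) (η η' F : Finset (Sym2 V)) (T : Finset V)
    (hT : ∀ e ∈ F, ∀ v ∈ e, v ∈ T) (h : ∀ e, e ∉ F → e ∈ η' → e ∈ η) :
    ncomp H η ≤ ncomp H η' + T.card := by
  classical
  have := comp_le ((SimpleGraph.fromEdgeSet (η : Set (Sym2 V))).induce (H.verts : Set V))
    ((SimpleGraph.fromEdgeSet (η' : Set (Sym2 V))).induce (H.verts : Set V))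
    (T.subtype (· ∈ (H.verts : Set V))) (by
      intro u w hu huw
      simp only [SimpleGraph.comap_adj, Function.Embedding.subtype_apply,
        SimpleGraph.fromEdgeSet_adj, Finset.mem_coe] at huw ⊢
      refine ⟨h _ (fun hF => hu ?_) huw.1, huw.2⟩
      exact Finset.mem_subtype.2 (hT _ hF _ (Sym2.mem_mk_left _ _)))
  refine this.trans (Nat.add_le_add_left ?_ _)
  rw [Finset.card_subtype]
  exact Finset.card_filter_le _ _

lemma weight_pos (H : FinSub G) {p : ℝ} (h0 : 0 < p) (h1 : p < 1) (η : Finset (Sym2 V)) :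
    0 < weight H p η := by
  unfold weight
  have : 0 < 1 - p := by linarith
  positivity

open Classical in
lemma weight_mod (H : FinSub G) {p : ℝ} (h0 : 0 < p) (h1 : p < 1) (η F ξ : Finset (Sym2 V))
    (T : Finset V) (M : ℕ) (hT : ∀ e ∈ F, ∀ v ∈ e, v ∈ T) (hξ : ξ ⊆ F) (hF : F.card ≤ M)
    (hTM : T.card ≤ M) :
    (p * (1 - p) / 2) ^ M * weight H p η ≤ weight H p (η \ F ∪ ξ) := by
  have hq : 0 < 1 - p := by linarith
  have e1 : (η \ F ∪ ξ).card ≤ η.card + M :=
    (Finset.card_union_le _ _).trans (Nat.add_le_add (Finset.card_le_card Finset.sdiff_subset)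
      ((Finset.card_le_card hξ).trans hF))
  have e2 : (H.edges \ (η \ F ∪ ξ)).card ≤ (H.edges \ η).card + M := by
    refine le_trans (Finset.card_le_card (t := (H.edges \ η) ∪ F) ?_)
      ((Finset.card_union_le _ _).trans (Nat.add_le_add_left hF _))
    intro e he
    simp only [Finset.mem_sdiff, Finset.mem_union] at he ⊢
    tauto
  have e3 : ncomp H η ≤ ncomp H (η \ F ∪ ξ) + M := by
    refine (ncomp_le H η _ F T hT ?_).trans (Nat.add_le_add_left hTM _)
    intro e heF he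
    rcases Finset.mem_union.1 he with he | he
    · exact (Finset.mem_sdiff.1 he).1
    · exact absurd (hξ he) heF
  have a1 : p ^ (η.card + M) ≤ p ^ (η \ F ∪ ξ).card := pow_le_pow_of_le_one h0.le h1.le e1
  have a2 : (1 - p) ^ ((H.edges \ η).card + M) ≤ (1 - p) ^ (H.edges \ (η \ F ∪ ξ)).card :=
    pow_le_pow_of_le_one hq.le (by linarith) e2
  have a3 : (2 : ℝ) ^ ncomp H η ≤ 2 ^ (ncomp H (η \ F ∪ ξ) + M) :=
    pow_le_pow_right₀ (by norm_num) e3
  unfold weight
  calc (p * (1 - p) / 2) ^ M * (p ^ η.card * (1 - p) ^ (H.edges \ η).card * 2 ^ ncomp H η)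
      ≤ (p * (1 - p) / 2) ^ M * (p ^ η.card * (1 - p) ^ (H.edges \ η).card *
        2 ^ (ncomp H (η \ F ∪ ξ) + M)) := by gcongr
    _ = p ^ (η.card + M) * (1 - p) ^ ((H.edges \ η).card + M) * 2 ^ ncomp H (η \ F ∪ ξ) := by
        rw [div_pow, mul_pow, pow_add, pow_add, pow_add]; field_simp
    _ ≤ _ := by gcongr

open Classical in
lemma fk_real (H : FinSub G) {p : ℝ} (h0 : 0 < p) (h1 : p < 1) {A : Set (Cfg V)}
    (hA : MeasurableSet A) :
    (fk H p).real A = (∑ η ∈ H.edges.powerset.filter (fun η => ind η ∈ A), weight H p η) /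
      ∑ ξ ∈ H.edges.powerset, weight H p ξ := by
  have hZ : 0 < ∑ ξ ∈ H.edges.powerset, weight H p ξ :=
    Finset.sum_pos (fun _ _ => weight_pos H h0 h1 _) ⟨∅, by simp⟩
  rw [Measure.real, fk, Measure.finsetSum_apply, ENNReal.toReal_sum (by
    intro η _
    simp only [Measure.smul_apply, smul_eq_mul]
    exact ENNReal.mul_ne_top ENNReal.ofReal_ne_top (measure_ne_top _ _)),
    Finset.sum_div, Finset.sum_filter]
  refine Finset.sum_congr rfl fun η _ => ?_
  rw [Measure.smul_apply, Measure.dirac_apply' _ hA, smul_eq_mul]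
  by_cases h : ind η ∈ A
  · simp only [h, Set.indicator_of_mem, Pi.one_apply, mul_one, if_true]
    exact ENNReal.toReal_ofReal (div_pos (weight_pos H h0 h1 _) hZ).le
  · simp [h]

lemma fk_prob (H : FinSub G) {p : ℝ} (h0 : 0 < p) (h1 : p < 1) : IsProbabilityMeasure (fk H p) := by
  classical
  have hZ : 0 < ∑ ξ ∈ H.edges.powerset, weight H p ξ :=
    Finset.sum_pos (fun _ _ => weight_pos H h0 h1 _) ⟨∅, by simp⟩
  constructor
  have := fk_real H h0 h1 MeasurableSet.univ
  simp only [Set.mem_univ, Finset.filter_true, div_self hZ.ne'] at this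
  exact (ENNReal.toReal_eq_one_iff _).1 this

/-- the event prescribing the states on `F` -/
def cyl (F ξ : Finset (Sym2 V)) : Set (Cfg V) := {ω | ∀ e ∈ F, (ω e = true ↔ e ∈ ξ)}

lemma cyl_clopen (F ξ : Finset (Sym2 V)) : IsClopen (cyl F ξ) := by
  have : cyl F ξ = ⋂ e ∈ F, (fun ω : Cfg V => ω e) ⁻¹' {b | b = true ↔ e ∈ ξ} := by
    ext ω; simp [cyl]
  rw [this]
  exact isClopen_biInter_finset fun e _ => (isClopen_discrete _).preimage (continuous_apply e)

lemma cyl_meas (F ξ : Finset (Sym2 V)) : MeasurableSet (cyl F ξ) := by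
  have : cyl F ξ = ⋂ e ∈ F, (fun ω : Cfg V => ω e) ⁻¹' {b | b = true ↔ e ∈ ξ} := by
    ext ω; simp [cyl]
  rw [this]
  exact Finset.measurableSet_biInter _ fun e _ => measurable_pi_apply e (MeasurableSet.of_discrete)

lemma fe (H : FinSub G) {p : ℝ} (h0 : 0 < p) (h1 : p < 1) (F ξ : Finset (Sym2 V))
    (T : Finset V) (M : ℕ) (hT : ∀ e ∈ F, ∀ v ∈ e, v ∈ T) (hξ : ξ ⊆ F) (hF : F.card ≤ M)
    (hTM : T.card ≤ M) (hFH : F ⊆ H.edges) {A : Set (Cfg V)} (hA : MeasurableSet A)
    (hinv : ∀ ω ω' : Cfg V, (∀ e, e ∉ F → ω e = ω' e) → ω ∈ A → ω' ∈ A) :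
    (p * (1 - p) / 4) ^ M * (fk H p).real A ≤ (fk H p).real (A ∩ cyl F ξ) := by
  classical
  have hq : 0 < 1 - p := by linarith
  have hZ : 0 < ∑ ξ ∈ H.edges.powerset, weight H p ξ :=
    Finset.sum_pos (fun _ _ => weight_pos H h0 h1 _) ⟨∅, by simp⟩
  rw [fk_real H h0 h1 hA, fk_real H h0 h1 (hA.inter (cyl_meas _ _)), ← mul_div_assoc]
  refine div_le_div_of_nonneg_right ?_ hZ.le
  set S := H.edges.powerset.filter (fun η => ind η ∈ A) with hS
  set S' := H.edges.powerset.filter (fun η => ind η ∈ A ∩ cyl F ξ) with hS'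
  have hmap : ∀ η ∈ S, η \ F ∪ ξ ∈ S' := by
    intro η hη
    simp only [hS, hS', Finset.mem_filter, Finset.mem_powerset] at hη ⊢
    refine ⟨Finset.union_subset (Finset.sdiff_subset.trans hη.1) (hξ.trans hFH),
      hinv _ _ (fun e he => ?_) hη.2, fun e he => ?_⟩
    · have : e ∉ ξ := fun h => he (hξ h)
      simp [ind, he, this]
    · simp [ind, he]
  have hfib : ∀ η' ∈ S', ((S.filter (fun η => η \ F ∪ ξ = η')).card : ℝ) ≤ 2 ^ M := by
    intro η' _
    have : (S.filter (fun η => η \ F ∪ ξ = η')).card ≤ F.powerset.card := by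
      refine Finset.card_le_card_of_injOn (fun η => η ∩ F) (fun η _ => by
        simp only [Finset.coe_powerset, Set.mem_preimage, Set.mem_powerset_iff, Finset.coe_inter]
        exact Set.inter_subset_right) ?_
      intro a ha b hb hab
      simp only [Finset.coe_filter, Set.mem_ofPred_eq] at ha hb
      have h2 := ha.2.trans hb.2.symm
      ext e
      have h3 := congrArg (e ∈ ·) hab
      have h4 := congrArg (e ∈ ·) h2
      simp only [Finset.mem_inter, Finset.mem_union, Finset.mem_sdiff, eq_iff_iff] at h3 h4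
      have := @hξ e
      tauto
    rw [Finset.card_powerset] at this
    calc _ ≤ ((2 ^ F.card : ℕ) : ℝ) := by exact_mod_cast this
      _ ≤ 2 ^ M := by push_cast; exact pow_le_pow_right₀ (by norm_num) hF
  calc (p * (1 - p) / 4) ^ M * ∑ η ∈ S, weight H p η
      = (2⁻¹ : ℝ) ^ M * ∑ η ∈ S, (p * (1 - p) / 2) ^ M * weight H p η := by
        rw [← Finset.mul_sum, ← mul_assoc, ← mul_pow]; congr 2; ring
    _ ≤ (2⁻¹ : ℝ) ^ M * ∑ η ∈ S, weight H p (η \ F ∪ ξ) := by
        gcongr with η hη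
        exact weight_mod H h0 h1 η F ξ T M hT hξ hF hTM
    _ = (2⁻¹ : ℝ) ^ M * ∑ η' ∈ S', ∑ η ∈ S with η \ F ∪ ξ = η', weight H p (η \ F ∪ ξ) := by
        rw [Finset.sum_fiberwise_of_maps_to hmap]
    _ ≤ (2⁻¹ : ℝ) ^ M * ∑ η' ∈ S', 2 ^ M * weight H p η' := by
        gcongr with η' hη'
        rw [Finset.sum_congr rfl (g := fun _ => weight H p η')
          (fun η hη => by rw [(Finset.mem_filter.1 hη).2]), Finset.sum_const, nsmul_eq_mul]
        exact mul_le_mul_of_nonneg_right (hfib η' hη') (weight_pos H h0 h1 _).le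
    _ = _ := by
        rw [← Finset.mul_sum, ← mul_assoc, ← mul_pow, inv_mul_cancel₀ (by norm_num), one_pow,
          one_mul]
        refine Finset.sum_congr ?_ (fun _ _ => rfl)
        ext η; simp [hS']

lemma bad_le (H : FinSub G) {p : ℝ} (h0 : 0 < p) (h1 : p < 1) (F ξ : ℕ → Finset (Sym2 V))
    (T : ℕ → Finset V) (M N : ℕ) (hT : ∀ j < N, ∀ e ∈ F j, ∀ v ∈ e, v ∈ T j)
    (hξ : ∀ j < N, ξ j ⊆ F j) (hF : ∀ j < N, (F j).card ≤ M)
    (hTM : ∀ j < N, (T j).card ≤ M) (hFH : ∀ j < N, F j ⊆ H.edges)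
    (hd : ∀ j < N, ∀ j' < j, ∀ e ∈ F j', e ∉ F j) :
    (fk H p).real (⋂ j ∈ Finset.range N, (cyl (F j) (ξ j))ᶜ) ≤ (1 - (p * (1 - p) / 4) ^ M) ^ N := by
  have := fk_prob H h0 h1
  have hq : 0 < 1 - p := by linarith
  have ha : (p * (1 - p) / 4) ^ M ≤ 1 := pow_le_one₀ (by positivity) (by nlinarith)
  induction N with
  | zero => simp
  | succ N ih =>
    have ih' := ih (fun j hj => hT j (by omega)) (fun j hj => hξ j (by omega))
      (fun j hj => hF j (by omega)) (fun j hj => hTM j (by omega)) (fun j hj => hFH j (by omega))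
      (fun j hj => hd j (by omega))
    set A := ⋂ j ∈ Finset.range N, (cyl (F j) (ξ j))ᶜ with hA
    have hAm : MeasurableSet A := Finset.measurableSet_biInter _ fun j _ => (cyl_meas _ _).compl
    have h2 := fe H h0 h1 (F N) (ξ N) (T N) M (hT N (by omega)) (hξ N (by omega)) (hF N (by omega))
      (hTM N (by omega)) (hFH N (by omega)) hAm (by
        intro ω ω' h hω
        simp only [hA, Set.mem_iInter, Finset.mem_range, Set.mem_compl_iff, cyl,
          Set.mem_ofPred_eq] at hω ⊢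
        intro j hj hc
        refine hω j hj fun e he => ?_
        rw [h e (hd N (by omega) j hj e he)]
        exact hc e he)
    have h3 := measureReal_inter_add_sdiff (μ := fk H p) (s := A) (cyl_meas (F N) (ξ N))
    have h4 : (⋂ j ∈ Finset.range (N + 1), (cyl (F j) (ξ j))ᶜ) = A \ cyl (F N) (ξ N) := by
      rw [Finset.range_add_one, Finset.set_biInter_insert, Set.inter_comm]; rfl
    rw [h4, pow_succ]
    nlinarith [mul_le_mul_of_nonneg_right ih' (sub_nonneg.2 ha)]

lemma exh_mono {H : ℕ → FinSub G} (hH : Exhaustion H) :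
    Monotone (fun n => (H n).verts) ∧ Monotone (fun n => (H n).edges) :=
  ⟨monotone_nat_of_le_succ fun n => (hH.1 n).1, monotone_nat_of_le_succ fun n => (hH.1 n).2⟩

lemma limit_bad_le [Countable V] {p : ℝ} (h0 : 0 < p) (h1 : p < 1) {φ : Measure (Cfg V)}
    (hφ : IsFreeFK G p φ) (F ξ : ℕ → Finset (Sym2 V))
    (T : ℕ → Finset V) (M N : ℕ) (hT : ∀ j < N, ∀ e ∈ F j, ∀ v ∈ e, v ∈ T j)
    (hξ : ∀ j < N, ξ j ⊆ F j) (hF : ∀ j < N, (F j).card ≤ M)
    (hTM : ∀ j < N, (T j).card ≤ M) (hFG : ∀ j < N, ∀ e ∈ F j, e ∈ G.edgeSet)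
    (hd : ∀ j < N, ∀ j' < j, ∀ e ∈ F j', e ∉ F j) :
    φ.real (⋂ j ∈ Finset.range N, (cyl (F j) (ξ j))ᶜ) ≤ (1 - (p * (1 - p) / 4) ^ M) ^ N := by
  obtain ⟨hp, H, hH, hlim⟩ := hφ
  let μs : ℕ → ProbabilityMeasure (Cfg V) := fun n => ⟨fk (H n) p, fk_prob _ h0 h1⟩
  let μ : ProbabilityMeasure (Cfg V) := ⟨φ, hp⟩
  have ht : Tendsto μs atTop (𝓝 μ) :=
    ProbabilityMeasure.tendsto_iff_forall_integral_tendsto.2 hlim
  have hc : IsClopen (⋂ j ∈ Finset.range N, (cyl (F j) (ξ j))ᶜ) :=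
    isClopen_biInter_finset fun j _ => (cyl_clopen _ _).compl
  have h2 := NNReal.tendsto_coe.2 (ProbabilityMeasure.tendsto_measure_of_isClopen_of_tendsto ht hc)
  have hev : ∀ᶠ n in atTop, ∀ j ∈ Finset.range N, ∀ e ∈ F j, e ∈ (H n).edges := by
    refine (Finset.eventually_all _).2 fun j hj => (Finset.eventually_all _).2 fun e he => ?_
    obtain ⟨n, hn⟩ := hH.2.2 e (hFG j (Finset.mem_range.1 hj) e he)
    filter_upwards [eventually_ge_atTop n] with m hm using (exh_mono hH).2 hm hn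
  refine le_of_tendsto h2 ?_
  filter_upwards [hev] with n hn
  exact bad_le (H n) h0 h1 F ξ T M N hT hξ hF hTM
    (fun j hj e he => hn j (Finset.mem_range.2 hj) e he) hd

lemma exists_free [Countable V] {p : ℝ} (h0 : 0 < p) (h1 : p < 1) {H : ℕ → FinSub G}
    (hH : Exhaustion H) : ∃ φ, IsFreeFK G p φ := by
  let μs : ℕ → ProbabilityMeasure (Cfg V) := fun n => ⟨fk (H n) p, fk_prob _ h0 h1⟩
  obtain ⟨μ, s, hs, ht⟩ := CompactSpace.tendsto_subseq μs
  refine ⟨μ, inferInstance, fun n => H (s n), ⟨fun n => ⟨(exh_mono hH).1 (hs.monotone n.le_succ),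
    (exh_mono hH).2 (hs.monotone n.le_succ)⟩, fun v => ?_, fun e he => ?_⟩,
    ProbabilityMeasure.tendsto_iff_forall_integral_tendsto.1 ht⟩
  · obtain ⟨n, hn⟩ := hH.2.1 v
    exact ⟨n, (exh_mono hH).1 (hs.id_le n) hn⟩
  · obtain ⟨n, hn⟩ := hH.2.2 e he
    exact ⟨n, (exh_mono hH).2 (hs.id_le n) hn⟩

lemma exists_exh [Countable V] [Nonempty V] (G : SimpleGraph V) :
    ∃ H : ℕ → FinSub G, Exhaustion H := by
  classical
  obtain ⟨f, hf⟩ := exists_surjective_nat V
  refine ⟨fun n => ⟨(Finset.range n).image f,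
    ((Finset.range n).image f).sym2.filter (· ∈ G.edgeSet), fun e he => (Finset.mem_filter.1 he).2,
    fun e he v hv => Finset.mem_sym2_iff.1 (Finset.mem_filter.1 he).1 v hv⟩, fun n => ?_,
    fun v => ?_, fun e he => ?_⟩
  · have : (Finset.range n).image f ⊆ (Finset.range (n + 1)).image f :=
      Finset.image_subset_image (Finset.range_subset_range.2 n.le_succ)
    exact ⟨this, Finset.filter_subset_filter _ (Finset.sym2_mono this)⟩
  · obtain ⟨n, rfl⟩ := hf v
    exact ⟨n + 1, Finset.mem_image_of_mem _ (by simp)⟩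
  · induction e using Sym2.ind with
    | _ a b =>
      obtain ⟨n, rfl⟩ := hf a
      obtain ⟨m, rfl⟩ := hf b
      refine ⟨n + m + 1, Finset.mem_filter.2 ⟨Finset.mk_mem_sym2_iff.2 ⟨?_, ?_⟩, he⟩⟩ <;>
        exact Finset.mem_image_of_mem _ (Finset.mem_range.2 (by omega))

end Pool.Agent.H44.FK
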