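import Pool.Agent.H44.FKDefs

open SimpleGraph

namespace Pool.Agent.H44.FK

variable {W : Type} {K : SimpleGraph W}

lemma lip_walk (f : W → ℕ) (hf : ∀ u w, K.Adj u w → f w ≤ f u + 1) {a b : W} (q : K.Walk a b) :
    f b ≤ f a + q.length := by
  induction q with
  | nil => simp
  | cons h q ih => have := hf _ _ h; simp only [Walk.length_cons]; omega

lemma lip_dist (hK : K.Connected) (f : W → ℕ) (hf : ∀ u w, K.Adj u w → f w ≤ f u + 1) (a b : W) :
    f b ≤ f a + K.dist a b := by
  obtain ⟨q, hq⟩ := hK.exists_walk_length_eq_dist a b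
  rw [← hq]; exact lip_walk f hf q

lemma ivt (f : W → ℕ) (hf : ∀ u w, K.Adj u w → f w ≤ f u + 1) {a b : W} (q : K.Walk a b) (t : ℕ)
    (ht : (f a ≤ t ∧ t ≤ f b) ∨ (f b ≤ t ∧ t ≤ f a)) : ∃ u ∈ q.support, f u = t := by
  induction q with
  | @nil a => exact ⟨a, by simp, by omega⟩
  | @cons a c b h q ih =>
    by_cases hat : f a = t
    · exact ⟨a, by simp, hat⟩
    · have h1 := hf _ _ h
      have h2 := hf _ _ h.symm
      obtain ⟨u, hu, hut⟩ := ih (by omega)
      exact ⟨u, by simp [hu], hut⟩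

lemma dist_supp {a b u : W} (q : K.Walk a b) (hu : u ∈ q.support) :
    K.dist a u + K.dist u b ≤ q.length := by
  classical
  have h1 := dist_le (q.takeUntil u hu)
  have h2 := dist_le (q.dropUntil u hu)
  have h3 := congrArg Walk.length (q.take_spec hu)
  rw [Walk.length_append] at h3
  omega

lemma near_level (hK : K.Connected) (f : W → ℕ) (hf : ∀ u w, K.Adj u w → f w ≤ f u + 1)
    (hD : ∀ u w, f u = f w → K.dist u w ≤ 2) {y z : W} (q : K.Walk y z) (hq : Geo q)
    (s : K.Walk z y) : ∀ w ∈ q.support, ∃ u ∈ s.support, K.dist w u ≤ 4 := by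
  classical
  intro w hw
  obtain ⟨t, h1, h2, h3⟩ : ∃ t, ((f y ≤ t ∧ t ≤ f w) ∨ (f w ≤ t ∧ t ≤ f y)) ∧
      ((f w ≤ t ∧ t ≤ f z) ∨ (f z ≤ t ∧ t ≤ f w)) ∧ ((f z ≤ t ∧ t ≤ f y) ∨ (f y ≤ t ∧ t ≤ f z)) :=
    ⟨max (min (f y) (f w)) (min (max (f y) (f w)) (f z)), by omega, by omega, by omega⟩
  obtain ⟨a, ha, hat⟩ := ivt f hf (q.takeUntil w hw) t h1
  obtain ⟨b, hb, hbt⟩ := ivt f hf (q.dropUntil w hw) t h2
  obtain ⟨u, hu, hut⟩ := ivt f hf s t h3
  refine ⟨u, hu, ?_⟩
  have e1 := dist_supp _ ha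
  have e2 := dist_supp _ hb
  have e3 := congrArg Walk.length (q.take_spec hw)
  rw [Walk.length_append, hq] at e3
  have e4 : K.dist y z ≤ K.dist y a + K.dist a z := hK.dist_triangle
  have e5 : K.dist a z ≤ K.dist a b + K.dist b z := hK.dist_triangle
  have e6 := hD a b (by omega)
  have e7 := hD a u (by omega)
  have e8 : K.dist w u ≤ K.dist w a + K.dist a u := hK.dist_triangle
  rw [dist_comm (u := w) (v := a)] at e8
  omega

lemma hyp_level (hK : K.Connected) (f : W → ℕ) (hf : ∀ u w, K.Adj u w → f w ≤ f u + 1)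
    (hD : ∀ u w, f u = f w → K.dist u w ≤ 2) : Hyperbolic K := by
  refine ⟨4, fun x y z p q r hp hq hr => ⟨fun w hw => ?_, fun w hw => ?_, fun w hw => ?_⟩⟩
  · obtain ⟨u, hu, h⟩ := near_level hK f hf hD p hp (q.append r) w hw
    exact ⟨u, (Walk.mem_support_append_iff _ _).1 hu, h⟩
  · obtain ⟨u, hu, h⟩ := near_level hK f hf hD q hq (r.append p) w hw
    exact ⟨u, ((Walk.mem_support_append_iff _ _).1 hu).symm, h⟩
  · obtain ⟨u, hu, h⟩ := near_level hK f hf hD r hr (p.append q) w hw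
    exact ⟨u, (Walk.mem_support_append_iff _ _).1 hu, h⟩

lemma seq_walk (s : ℕ → W) (N : ℕ) (h : ∀ i < N, K.Adj (s i) (s (i + 1))) :
    ∃ q : K.Walk (s 0) (s N), q.length = N ∧ ∀ u, u ∈ q.support ↔ ∃ i ≤ N, u = s i := by
  induction N with
  | zero => exact ⟨Walk.nil, rfl, by simp⟩
  | succ N ih =>
    obtain ⟨q, h1, h2⟩ := ih fun i hi => h i (by omega)
    refine ⟨q.concat (h N (by omega)), by simp [h1], fun u => ?_⟩
    rw [Walk.support_concat]
    simp only [List.mem_append, h2, List.mem_singleton]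
    constructor
    · rintro (⟨i, hi, rfl⟩ | rfl)
      · exact ⟨i, by omega, rfl⟩
      · exact ⟨N + 1, le_rfl, rfl⟩
    · rintro ⟨i, hi, rfl⟩
      rcases Nat.lt_or_ge i (N + 1) with h' | h'
      · exact Or.inl ⟨i, by omega, rfl⟩
      · exact Or.inr (by rw [show i = N + 1 by omega])

lemma pendant (hK : K.Connected) (n : ℕ) (hn : 0 < n) (c : ℕ → W) (pos : W → ℕ)
    (hc : c (4 * n) = c 0) (hpos : ∀ i < 4 * n, pos (c i) = i)
    (hadj : ∀ i < 4 * n, K.Adj (c i) (c (i + 1)))
    (hed : ∀ u w, K.Adj u w → (pos u = 0 ∧ pos w = 0) ∨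
      ∃ i < 4 * n, (u = c i ∧ w = c (i + 1)) ∨ (w = c i ∧ u = c (i + 1)))
    (v : W) (hv : pos v = 0) (δ : ℕ) (hδ : δ < n) :
    ∃ (x y z : W) (p : K.Walk x y) (q : K.Walk y z) (r : K.Walk z x),
      Geo p ∧ Geo q ∧ Geo r ∧ (v ∈ p.support ∨ v ∈ q.support ∨ v ∈ r.support) ∧
        ¬ Thin δ p q r := by
  have hp1 : ∀ i < 4 * n, pos (c (i + 1)) = if i + 1 < 4 * n then i + 1 else 0 := by
    intro i hi
    split_ifs with h
    · exact hpos _ h
    · rw [show i + 1 = 4 * n by omega, hc]; exact hpos 0 (by omega)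
  set D := K.dist v (c 0) with hD
  let F : W → ℕ := fun u => if pos u = 0 then K.dist v u else D + min (pos u) (4 * n - pos u)
  have hFc : ∀ i ≤ 4 * n, F (c i) = D + min i (4 * n - i) := by
    intro i hi
    rcases Nat.eq_zero_or_pos i with rfl | h0
    · simp [F, hpos 0 (by omega), hD]
    · rcases Nat.lt_or_ge i (4 * n) with h | h
      · simp only [F, hpos i h]; rw [if_neg (by omega)]
      · rw [show i = 4 * n by omega, hc]; simp [F, hpos 0 (by omega), hD]
  have hF : ∀ u w, K.Adj u w → F w ≤ F u + 1 := by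
    intro u w h
    rcases hed u w h with ⟨h1, h2⟩ | ⟨i, hi, ⟨rfl, rfl⟩ | ⟨rfl, rfl⟩⟩
    · simp only [F, h1, h2, if_true]
      have e : K.dist v w ≤ K.dist v u + K.dist u w := hK.dist_triangle
      rw [dist_eq_one_iff_adj.2 h] at e
      exact e
    · rw [hFc _ hi.le, hFc _ hi]; omega
    · rw [hFc _ hi.le, hFc _ hi]; omega
  have hFv : F v = 0 := by simp [F, hv]
  have hlow : D + 2 * n ≤ K.dist v (c (2 * n)) := by
    have := lip_dist hK F hF v (c (2 * n))
    rw [hFc _ (by omega), hFv] at this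
    omega
  obtain ⟨g, hg⟩ := hK.exists_walk_length_eq_dist v (c 0)
  obtain ⟨l, hl1, hl2⟩ := seq_walk (K := K) c (2 * n) fun i hi => hadj i (by omega)
  obtain ⟨r, hr1, hr2⟩ := seq_walk (K := K) (fun i => c (2 * n + i)) (2 * n)
    fun i hi => hadj (2 * n + i) (by omega)
  have hce : c (2 * n + 2 * n) = c 0 := by rw [← hc]; congr 1; ring
  let r' : K.Walk (c (2 * n)) (c 0) := r.copy rfl hce
  have hup : K.dist v (c (2 * n)) ≤ D + 2 * n := by
    have := dist_le (g.append l)
    rwa [Walk.length_append, hg, hl1] at this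
  refine ⟨v, c (2 * n), c (2 * n), g.append l, Walk.nil, r'.append g.reverse, ?_, ?_, ?_,
    Or.inl (Walk.start_mem_support _), fun hT => ?_⟩
  · unfold Geo; rw [Walk.length_append, hg, hl1]; omega
  · simp [Geo]
  · unfold Geo
    rw [Walk.length_append, Walk.length_reverse, hg, dist_comm (v := v)]
    simp only [r', Walk.length_copy, hr1]; omega
  · obtain ⟨u, hu, hd⟩ := hT.1 (c n) ((Walk.mem_support_append_iff _ _).2
      (Or.inr ((hl2 _).2 ⟨n, by omega, rfl⟩)))
    let E : W → ℕ := fun u => min (pos u) (2 * n - pos u)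
    have hE : ∀ u w, K.Adj u w → E w ≤ E u + 1 := by
      intro u w h
      rcases hed u w h with ⟨h1, h2⟩ | ⟨i, hi, ⟨rfl, rfl⟩ | ⟨rfl, rfl⟩⟩
      · simp [E, h1, h2]
      · simp only [E, hp1 i hi, hpos i hi]; split_ifs <;> omega
      · simp only [E, hp1 i hi, hpos i hi]; split_ifs <;> omega
    have hEu : E u = 0 := by
      rcases hu with hu | hu
      · simp only [Walk.support_nil, List.mem_singleton] at hu
        simp [E, hu, hpos (2 * n) (by omega)]
      · rcases (Walk.mem_support_append_iff _ _).1 hu with hu | hu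
        · simp only [r', Walk.support_copy] at hu
          obtain ⟨i, hi, rfl⟩ := (hr2 _).1 hu
          rcases Nat.lt_or_ge (2 * n + i) (4 * n) with h | h
          · simp only [E, hpos _ h]; omega
          · rw [show 2 * n + i = 4 * n by omega, hc]; simp [E, hpos 0 (by omega)]
        · rw [Walk.support_reverse, List.mem_reverse] at hu
          have e1 := dist_supp g hu
          have e2 := lip_dist hK F hF v u
          rw [hFv] at e2
          by_cases h0 : pos u = 0
          · simp [E, h0]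
          · simp only [F, h0, if_false] at e2
            simp only [E]; omega
    have := lip_dist hK E hE u (c n)
    rw [hEu, dist_comm] at this
    simp only [E, hpos n (by omega)] at this
    omega

end Pool.Agent.H44.FK
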