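import Pool.Agent.H44.FK1
import Pool.Agent.H44.FK2

open SimpleGraph MeasureTheory Filter Topology

namespace Pool.Agent.H44.FK

def LL (k : ℕ) : ℕ := 4 * (k + 1)
def MM (k : ℕ) : ℕ := (LL k + 2) ^ 2
def NN (k : ℕ) : ℕ := (k + 1) * (k + 1) ^ MM k

def Valid (x : ℕ × ℕ × ℕ) : Prop :=
  (x.2.1 = 0 ∧ x.2.2 = 0) ∨ (x.2.1 < NN x.1 ∧ 1 ≤ x.2.2 ∧ x.2.2 ≤ LL x.1)

abbrev VV : Type := {x : ℕ × ℕ × ℕ // Valid x}

def RR (x y : ℕ × ℕ × ℕ) : Prop :=
  (x.2.2 = 0 ∧ y.1 = x.1 ∧ 1 ≤ y.2.2) ∨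
  (y.1 = x.1 ∧ y.2.1 = x.2.1 ∧ 1 ≤ x.2.2 ∧ y.2.2 = x.2.2 + 1 ∧ y.2.2 < LL x.1) ∨
  (x.2.2 = LL x.1 ∧ y.1 = x.1 + 1 ∧ y.2.2 = 0)

def GG : SimpleGraph VV where
  Adj x y := RR x.1 y.1 ∨ RR y.1 x.1
  symm := ⟨fun _ _ h => h.symm⟩
  loopless := ⟨fun x h => by unfold RR at h; omega⟩

def hub (k : ℕ) : VV := ⟨(k, 0, 0), Or.inl ⟨rfl, rfl⟩⟩

open Classical in
noncomputable def vtx (k j i : ℕ) : VV :=
  if h : j < NN k ∧ 1 ≤ i ∧ i ≤ LL k then ⟨(k, j, i), Or.inr h⟩ else hub k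

lemma vtx_val {k j i : ℕ} (hj : j < NN k) (h1 : 1 ≤ i) (h2 : i ≤ LL k) :
    (vtx k j i).1 = (k, j, i) := by
  unfold vtx; rw [dif_pos ⟨hj, h1, h2⟩]

lemma vtx_zero (k j : ℕ) : vtx k j 0 = hub k := by
  unfold vtx; rw [dif_neg (by omega)]

lemma NN_pos (k : ℕ) : 0 < NN k := by unfold NN; positivity

lemma eq_hub (x : VV) (h : x.1.2.2 = 0) : x = hub x.1.1 := by
  obtain ⟨⟨k, j, i⟩, hx⟩ := x
  unfold Valid at hx
  simp only [hub, Subtype.mk.injEq, Prod.mk.injEq, true_and] at h hx ⊢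
  omega

lemma eq_vtx (x : VV) (h : x.1.2.2 ≠ 0) :
    x.1.2.1 < NN x.1.1 ∧ x.1.2.2 ≤ LL x.1.1 ∧ x = vtx x.1.1 x.1.2.1 x.1.2.2 := by
  have hx := x.2
  unfold Valid at hx
  refine ⟨by omega, by omega, Subtype.ext ?_⟩
  rw [vtx_val (by omega) (by omega) (by omega)]

lemma adj_hub (x : VV) (h : x.1.2.2 ≠ 0) : GG.Adj (hub x.1.1) x :=
  Or.inl (Or.inl ⟨rfl, rfl, by omega⟩)

lemma hub_reach (x : VV) : GG.Reachable (hub x.1.1) x := by
  by_cases h : x.1.2.2 = 0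
  · rw [← eq_hub x h]
  · exact (adj_hub x h).reachable

lemma adj_spoke {k j i : ℕ} (hj : j < NN k) (h1 : 1 ≤ i) (h2 : i ≤ LL k) :
    GG.Adj (hub k) (vtx k j i) := by
  left; left; rw [vtx_val hj h1 h2]; exact ⟨rfl, rfl, h1⟩

lemma adj_conn {k j : ℕ} (hj : j < NN k) : GG.Adj (vtx k j (LL k)) (hub (k + 1)) := by
  left; right; right; rw [vtx_val hj (by unfold LL; omega) le_rfl]; exact ⟨rfl, rfl, rfl⟩

lemma adj_rim {k j i : ℕ} (hj : j < NN k) (h1 : 1 ≤ i) (h2 : i + 1 < LL k) :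
    GG.Adj (vtx k j i) (vtx k j (i + 1)) := by
  left; right; left
  rw [vtx_val hj h1 (by omega), vtx_val hj (by omega) (by omega)]
  exact ⟨rfl, rfl, h1, rfl, h2⟩

lemma GG_conn : GG.Connected := by
  have h0 : ∀ k, GG.Reachable (hub 0) (hub k) := by
    intro k
    induction k with
    | zero => rfl
    | succ k ih =>
      exact ih.trans ((adj_spoke (NN_pos k) (by unfold LL; omega) le_rfl).reachable.trans
        (adj_conn (NN_pos k)).reachable)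
  have : Nonempty VV := ⟨hub 0⟩
  exact ⟨fun x y => ((h0 _).trans (hub_reach x)).symm.trans ((h0 _).trans (hub_reach y))⟩

lemma hub_dist (x : VV) : GG.dist (hub x.1.1) x ≤ 1 := by
  by_cases h : x.1.2.2 = 0
  · rw [← eq_hub x h]; simp
  · exact (dist_eq_one_iff_adj.2 (adj_hub x h)).le

lemma GG_hyp : Hyperbolic GG := by
  refine hyp_level GG_conn (fun x => x.1.1) (fun u w h => ?_) (fun u w h => ?_)
  · rcases h with h | h <;> unfold RR at h <;> omega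
  · have h1 := hub_dist u
    have h2 := hub_dist w
    have h3 : GG.dist u w ≤ GG.dist u (hub u.1.1) + GG.dist (hub u.1.1) w := GG_conn.dist_triangle
    rw [dist_comm] at h1
    rw [← h] at h2
    omega

lemma level_fin (k : ℕ) : {x : VV | x.1.1 ≤ k}.Finite := by
  have hm : ∀ k' ≤ k, NN k' ≤ (Finset.range (k + 1)).sup NN ∧
      LL k' ≤ (Finset.range (k + 1)).sup LL := fun k' hk' =>
    ⟨Finset.le_sup (f := NN) (Finset.mem_range.2 (by omega)),
      Finset.le_sup (f := LL) (Finset.mem_range.2 (by omega))⟩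
  refine Set.Finite.of_finite_image (f := Subtype.val) ?_ Subtype.val_injective.injOn
  refine (((Set.finite_Iic k).prod ((Set.finite_Iic ((Finset.range (k + 1)).sup NN)).prod
    (Set.finite_Iic ((Finset.range (k + 1)).sup LL))))).subset ?_
  rintro _ ⟨x, hx, rfl⟩
  have h1 := x.2
  have h2 := hm _ hx
  unfold Valid at h1
  simp only [Set.mem_prod, Set.mem_Iic]
  exact ⟨hx, by omega, by omega⟩

lemma GG_lf (v : VV) : (GG.neighborSet v).Finite := by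
  refine (level_fin (v.1.1 + 1)).subset fun w h => ?_
  simp only [Set.mem_ofPred_eq]
  rcases h with h | h <;> unfold RR at h <;> omega

lemma hub_inj : Function.Injective hub := fun a b h => by
  have := congrArg (fun x : VV => x.1.1) h
  exact this

instance : Infinite VV := Infinite.of_injective hub hub_inj

open Classical in
noncomputable def SS (k j : ℕ) : Finset VV :=
  insert (hub (k + 1)) ((Finset.range (LL k + 1)).image (vtx k j))

open Classical in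
noncomputable def FF (k j : ℕ) : Finset (Sym2 VV) := (SS k j).sym2.filter (· ∈ GG.edgeSet)

def Cl (k j : ℕ) (e : Sym2 VV) : Prop := ∃ i, 2 ≤ i ∧ i + 2 ≤ LL k ∧ e = s(hub k, vtx k j i)

open Classical in
noncomputable def XX (k j : ℕ) : Finset (Sym2 VV) := (FF k j).filter (fun e => ¬ Cl k j e)

lemma mem_SS {k j : ℕ} (hj : j < NN k) (x : VV) : x ∈ SS k j ↔
    (x.1.2.2 = 0 ∧ (x.1.1 = k ∨ x.1.1 = k + 1)) ∨ (x.1.1 = k ∧ x.1.2.1 = j ∧ 1 ≤ x.1.2.2) := by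
  simp only [SS, Finset.mem_insert, Finset.mem_image, Finset.mem_range]
  constructor
  · rintro (rfl | ⟨i, hi, rfl⟩)
    · simp [hub]
    · rcases Nat.eq_zero_or_pos i with rfl | h
      · simp [vtx_zero, hub]
      · rw [vtx_val hj h (by omega)]; simp; omega
  · rintro (⟨h0, h | h⟩ | ⟨h1, h2, h3⟩)
    · exact Or.inr ⟨0, by omega, by rw [vtx_zero, ← h, ← eq_hub x h0]⟩
    · exact Or.inl (by rw [← h, ← eq_hub x h0])
    · obtain ⟨a, b, c⟩ := eq_vtx x (by omega)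
      exact Or.inr ⟨x.1.2.2, by rw [← h1]; omega, by rw [← h1, ← h2, ← c]⟩

lemma mem_FF {k j : ℕ} {x y : VV} : s(x, y) ∈ FF k j ↔ (x ∈ SS k j ∧ y ∈ SS k j) ∧ GG.Adj x y := by
  simp [FF]

lemma card_SS (k j : ℕ) : (SS k j).card ≤ LL k + 2 := by
  classical
  unfold SS
  refine (Finset.card_insert_le _ _).trans ?_
  have := Finset.card_image_le (s := Finset.range (LL k + 1)) (f := vtx k j)
  rw [Finset.card_range] at this
  omega

lemma card_FF (k j : ℕ) : (FF k j).card ≤ MM k := by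
  classical
  refine (Finset.card_filter_le _ _).trans ?_
  rw [Finset.card_sym2]
  have h1 := card_SS k j
  have h2 : ((SS k j).card + 1).choose 2 ≤ (LL k + 2 + 1).choose 2 :=
    Nat.choose_le_choose _ (by omega)
  refine h2.trans ?_
  rw [Nat.choose_two_right]
  unfold MM
  refine Nat.div_le_of_le_mul ?_
  simp only [Nat.add_sub_cancel]
  nlinarith

lemma FF_disj {k j j' : ℕ} (hj : j < NN k) (hj' : j' < j) : ∀ e ∈ FF k j', e ∉ FF k j := by
  intro e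
  induction e using Sym2.ind with
  | _ x y =>
    rw [mem_FF, mem_FF, mem_SS hj, mem_SS hj, mem_SS (hj'.trans hj), mem_SS (hj'.trans hj)]
    rintro ⟨⟨h1, h2⟩, h⟩ ⟨⟨h3, h4⟩, -⟩
    have e1 : 1 ≤ LL x.1.1 := by unfold LL; omega
    have e2 : 1 ≤ LL y.1.1 := by unfold LL; omega
    rcases h with h | h <;> unfold RR at h <;> omega

def Bad (k : ℕ) : Set (Cfg VV) := ⋂ j ∈ Finset.range (NN k), (cyl (FF k j) (XX k j))ᶜ

lemma bad_small {p : ℝ} (h0 : 0 < p) (h1 : p < 1) {φ : Measure (Cfg VV)} (hφ : IsFreeFK GG p φ) :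
    ∀ᵐ ω ∂φ, ∀ᶠ k in atTop, ω ∉ Bad k := by
  classical
  have := hφ.1
  have hq : 0 < 1 - p := by linarith
  set a := p * (1 - p) / 4 with ha
  have ha0 : 0 < a := by positivity
  have ha1 : a ≤ 1 := by rw [ha]; nlinarith
  have hb : ∀ k, φ.real (Bad k) ≤ (1 - a ^ MM k) ^ NN k := fun k =>
    limit_bad_le h0 h1 hφ (FF k) (XX k) (SS k) (MM k) (NN k)
      (fun j _ e he v hv => Finset.mem_sym2_iff.1 (Finset.mem_filter.1 he).1 v hv)
      (fun j _ => Finset.filter_subset _ _) (fun j _ => card_FF k j)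
      (fun j _ => (card_SS k j).trans (by unfold MM; nlinarith))
      (fun j _ e he => (Finset.mem_filter.1 he).2) (fun j hj j' hj' => FF_disj hj hj')
  have hs : Summable (fun k => φ.real (Bad k)) := by
    refine Summable.of_norm_bounded_eventually (g := fun k : ℕ => Real.exp (-(k : ℝ)))
      Real.summable_exp_neg_nat ?_
    rw [Nat.cofinite_eq_atTop]
    obtain ⟨k0, hk0⟩ := exists_nat_ge a⁻¹
    filter_upwards [eventually_ge_atTop k0] with k hk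
    rw [Real.norm_of_nonneg measureReal_nonneg]
    refine (hb k).trans ?_
    have e1 : a ^ MM k ≤ 1 := pow_le_one₀ ha0.le ha1
    have e2 : (1 - a ^ MM k) ^ NN k ≤ Real.exp (-a ^ MM k) ^ NN k :=
      pow_le_pow_left₀ (by linarith) (by linarith [Real.add_one_le_exp (-a ^ MM k)]) _
    refine e2.trans ?_
    rw [← Real.exp_nat_mul]
    refine Real.exp_le_exp.2 ?_
    have e3 : 1 ≤ ((k : ℝ) + 1) * a := by
      have : a⁻¹ ≤ (k : ℝ) + 1 := by
        have : (k0 : ℝ) ≤ k := by exact_mod_cast hk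
        linarith
      calc (1 : ℝ) = a⁻¹ * a := (inv_mul_cancel₀ ha0.ne').symm
        _ ≤ _ := mul_le_mul_of_nonneg_right this ha0.le
    have e4 : 1 ≤ (((k : ℝ) + 1) * a) ^ MM k := one_le_pow₀ e3
    rw [mul_pow] at e4
    unfold NN
    push_cast
    nlinarith [Nat.cast_nonneg (α := ℝ) k]
  refine ae_eventually_notMem ?_
  have : ∀ k, φ (Bad k) = ENNReal.ofReal (φ.real (Bad k)) := fun k => (ofReal_measureReal).symm
  simp only [this]
  exact hs.tsum_ofReal_ne_top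

lemma good_open {k j : ℕ} {ω : Cfg VV} (hω : ω ∈ cyl (FF k j) (XX k j)) {x y : VV}
    (hx : x ∈ SS k j) (hy : y ∈ SS k j) (h : GG.Adj x y) :
    (openG GG ω).Adj x y ↔ ¬ Cl k j s(x, y) := by
  classical
  have hF : s(x, y) ∈ FF k j := mem_FF.2 ⟨⟨hx, hy⟩, h⟩
  have := hω _ hF
  simp only [XX, Finset.mem_filter, hF, true_and] at this
  simp [openG, h, h.ne, this]

lemma cl_iff {k j : ℕ} (hj : j < NN k) (x y : VV) : Cl k j s(x, y) ↔
    (x.1 = (k, 0, 0) ∧ y.1.1 = k ∧ y.1.2.1 = j ∧ 2 ≤ y.1.2.2 ∧ y.1.2.2 + 2 ≤ LL k) ∨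
    (y.1 = (k, 0, 0) ∧ x.1.1 = k ∧ x.1.2.1 = j ∧ 2 ≤ x.1.2.2 ∧ x.1.2.2 + 2 ≤ LL k) := by
  constructor
  · rintro ⟨i, h1, h2, h⟩
    rcases Sym2.eq_iff.1 h with ⟨rfl, rfl⟩ | ⟨rfl, rfl⟩
    · left; rw [vtx_val hj (by omega) (by omega)]; exact ⟨rfl, rfl, rfl, h1, h2⟩
    · right; rw [vtx_val hj (by omega) (by omega)]; exact ⟨rfl, rfl, rfl, h1, h2⟩
  · rintro (⟨h1, h2, h3, h4, h5⟩ | ⟨h1, h2, h3, h4, h5⟩)
    · refine ⟨y.1.2.2, h4, h5, ?_⟩
      rw [show x = hub k from Subtype.ext h1, ← h2, ← h3, ← (eq_vtx y (by omega)).2.2]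
    · refine ⟨x.1.2.2, h4, h5, ?_⟩
      rw [show y = hub k from Subtype.ext h1, ← h2, ← h3, ← (eq_vtx x (by omega)).2.2, Sym2.eq_swap]

end Pool.Agent.H44.FK
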