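import Pool.Agent.H44.FK3

open SimpleGraph MeasureTheory Filter Topology

namespace Pool.Agent.H44.FK

noncomputable def cc (k j i : ℕ) : VV := if i < LL k then vtx k j i else hub k

def pos (k j : ℕ) (u : VV) : ℕ :=
  if u.1.1 = k ∧ u.1.2.1 = j ∧ u.1.2.2 < LL k then u.1.2.2 else 0

lemma hub_SS {k j : ℕ} (hj : j < NN k) : hub k ∈ SS k j := by rw [mem_SS hj]; simp [hub]
lemma hub_SS' {k j : ℕ} (hj : j < NN k) : hub (k + 1) ∈ SS k j := by rw [mem_SS hj]; simp [hub]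
lemma vtx_SS {k j i : ℕ} (hj : j < NN k) (h1 : 1 ≤ i) (h2 : i ≤ LL k) : vtx k j i ∈ SS k j := by
  rw [mem_SS hj, vtx_val hj h1 h2]; simp; omega

variable {k j : ℕ} {ω : Cfg VV}

lemma step (hj : j < NN k) (hω : ω ∈ cyl (FF k j) (XX k j)) :
    (openG GG ω).Reachable (hub k) (hub (k + 1)) := by
  have hL : 1 ≤ LL k := by unfold LL; omega
  have h1 : (openG GG ω).Adj (hub k) (vtx k j (LL k)) := by
    rw [good_open hω (hub_SS hj) (vtx_SS hj hL le_rfl) (adj_spoke hj hL le_rfl), cl_iff hj,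
      vtx_val hj hL le_rfl]
    simp [hub]
  have h2 : (openG GG ω).Adj (vtx k j (LL k)) (hub (k + 1)) := by
    rw [good_open hω (vtx_SS hj hL le_rfl) (hub_SS' hj) (adj_conn hj), cl_iff hj,
      vtx_val hj hL le_rfl]
    simp [hub]
  exact h1.reachable.trans h2.reachable

lemma cyc_adj (hj : j < NN k) (hω : ω ∈ cyl (FF k j) (XX k j)) (i : ℕ) (hi : i < LL k) :
    (openG GG ω).Adj (cc k j i) (cc k j (i + 1)) := by
  have hL : 4 ≤ LL k := by unfold LL; omega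
  unfold cc
  rw [if_pos hi]
  rcases Nat.eq_zero_or_pos i with rfl | h0
  · rw [if_pos (by omega), vtx_zero, good_open hω (hub_SS hj) (vtx_SS hj (by omega) (by omega))
      (adj_spoke hj (by omega) (by omega)), cl_iff hj, vtx_val hj (by omega) (by omega)]
    simp [hub]
  · split_ifs with h
    · rw [good_open hω (vtx_SS hj h0 hi.le) (vtx_SS hj (by omega) h.le) (adj_rim hj h0 h),
        cl_iff hj, vtx_val hj h0 hi.le, vtx_val hj (by omega) h.le]
      simp; omega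
    · rw [good_open hω (vtx_SS hj h0 hi.le) (hub_SS hj) (adj_spoke hj h0 hi.le).symm,
        cl_iff hj, vtx_val hj h0 hi.le]
      simp [hub]; omega

lemma pos_cc (hj : j < NN k) (i : ℕ) (hi : i < LL k) : pos k j (cc k j i) = i := by
  unfold cc
  rw [if_pos hi]
  rcases Nat.eq_zero_or_pos i with rfl | h0
  · simp [vtx_zero, pos, hub]
  · unfold pos; rw [vtx_val hj h0 hi.le]; simp [hi]

lemma classify1 (hj : j < NN k) (hω : ω ∈ cyl (FF k j) (XX k j)) {u w : VV}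
    (h : (openG GG ω).Adj u w) (hu : pos k j u ≠ 0) :
    ∃ i < LL k, (u = cc k j i ∧ w = cc k j (i + 1)) ∨ (w = cc k j i ∧ u = cc k j (i + 1)) := by
  have hL : 4 ≤ LL k := by unfold LL; omega
  have hG : GG.Adj u w := h.1
  have hu' : u.1.1 = k ∧ u.1.2.1 = j ∧ u.1.2.2 < LL k ∧ 1 ≤ u.1.2.2 := by
    unfold pos at hu; split_ifs at hu <;> omega
  obtain ⟨h1, h2, h3, h4⟩ := hu'
  have hv : ∀ x : VV, x.1.1 = k → x.1.2.1 = j → 1 ≤ x.1.2.2 → x.1.2.2 < LL k →
      x = cc k j x.1.2.2 := by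
    intro x a b c d
    unfold cc; rw [if_pos d, ← a, ← b]; exact (eq_vtx x (by omega)).2.2
  have huc := hv u h1 h2 h4 h3
  have hc : (w.1.2.2 = 0 ∧ w.1.1 = k) ∨ (w.1.1 = k ∧ w.1.2.1 = j ∧ w.1.2.2 = u.1.2.2 + 1 ∧
      w.1.2.2 < LL k) ∨ (w.1.1 = k ∧ w.1.2.1 = j ∧ u.1.2.2 = w.1.2.2 + 1 ∧ 1 ≤ w.1.2.2) := by
    rcases hG with hG | hG <;> unfold RR at hG <;> simp only [h1] at hG <;> omega
  rcases hc with ⟨a, b⟩ | ⟨a, b, c, d⟩ | ⟨a, b, c, d⟩
  · have hw : w = hub k := by rw [← b]; exact eq_hub w a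
    rw [good_open hω ((mem_SS hj u).2 (Or.inr ⟨h1, h2, h4⟩)) (hw ▸ hub_SS hj) hG, cl_iff hj] at h
    have hw' : w.1 = (k, 0, 0) := by rw [hw]; rfl
    have : u.1.2.2 = 1 ∨ u.1.2.2 + 1 = LL k := by
      by_contra hn
      exact h (Or.inr ⟨hw', h1, h2, by omega, by omega⟩)
    rcases this with e | e
    · refine ⟨0, by omega, Or.inr ⟨?_, by rw [huc, e]⟩⟩
      rw [hw]; unfold cc; rw [if_pos (by omega), vtx_zero]
    · refine ⟨u.1.2.2, h3, Or.inl ⟨huc, ?_⟩⟩
      rw [hw]; unfold cc; rw [if_neg (by omega)]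
  · exact ⟨u.1.2.2, h3, Or.inl ⟨huc, by rw [← c]; exact hv w a b (by omega) d⟩⟩
  · exact ⟨w.1.2.2, by omega, Or.inr ⟨hv w a b d (by omega), by rw [← c]; exact huc⟩⟩

lemma main_det (k0 : ℕ) (h : ∀ k ≥ k0, ω ∉ Bad k) :
    ∃ C : (openG GG ω).ConnectedComponent, C.supp.Infinite ∧ ¬ Anchored C.toSimpleGraph := by
  have hg : ∀ k ≥ k0, ∃ j < NN k, ω ∈ cyl (FF k j) (XX k j) := by
    intro k hk
    by_contra hn
    push Not at hn
    exact h k hk (Set.mem_iInter₂.2 fun j hj => hn j (Finset.mem_range.1 hj))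
  have hr : ∀ m, (openG GG ω).Reachable (hub k0) (hub (k0 + m)) := by
    intro m
    induction m with
    | zero => rfl
    | succ m ih =>
      obtain ⟨j, hj, hω⟩ := hg (k0 + m) (by omega)
      exact ih.trans (step hj hω)
  set C := (openG GG ω).connectedComponentMk (hub k0) with hC
  have hmem : ∀ x, (openG GG ω).Reachable (hub k0) x → x ∈ C.supp := fun x hx =>
    (ConnectedComponent.mem_supp_iff _ _).2 (ConnectedComponent.sound hx.symm)
  refine ⟨C, Set.infinite_of_injective_forall_mem (f := fun m => hub (k0 + m))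
    (fun a b hab => by have := hub_inj hab; omega) (fun m => hmem _ (hr m)), fun hA => ?_⟩
  obtain ⟨δ, hδ⟩ := hA ⟨hub k0, hmem _ (Reachable.refl _)⟩
  obtain ⟨j, hj, hω⟩ := hg (k0 + δ) (by omega)
  set k := k0 + δ with hk
  have hc0 : cc k j 0 = hub k := by unfold cc; rw [vtx_zero]; simp
  have hcr : ∀ i, (openG GG ω).Reachable (hub k0) (cc k j i) := by
    intro i
    induction i with
    | zero => rw [hc0]; exact hr δ
    | succ i ih =>
      by_cases hi : i < LL k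
      · exact ih.trans (cyc_adj hj hω i hi).reachable
      · unfold cc; rw [if_neg (by omega)]; exact hr δ
  obtain ⟨x, y, z, p, q, r, hp, hq, hr', hv, hT⟩ := pendant C.connected_toSimpleGraph (k + 1)
    (by omega) (fun i => ⟨cc k j i, hmem _ (hcr i)⟩) (fun u => pos k j u.1)
    (Subtype.ext (by
      show cc k j (4 * (k + 1)) = cc k j 0
      rw [hc0]; unfold cc LL; rw [if_neg (by omega)]))
    (fun i hi => pos_cc hj i hi) (fun i hi => cyc_adj hj hω i hi)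
    (fun u w huw => by
      have huw' : (openG GG ω).Adj u.1 w.1 := huw
      by_cases hu : pos k j u.1 = 0
      · by_cases hw : pos k j w.1 = 0
        · exact Or.inl ⟨hu, hw⟩
        · obtain ⟨i, hi, h | h⟩ := classify1 hj hω huw'.symm hw
          · exact Or.inr ⟨i, hi, Or.inr ⟨Subtype.ext h.1, Subtype.ext h.2⟩⟩
          · exact Or.inr ⟨i, hi, Or.inl ⟨Subtype.ext h.1, Subtype.ext h.2⟩⟩
      · obtain ⟨i, hi, h | h⟩ := classify1 hj hω huw' hu
        · exact Or.inr ⟨i, hi, Or.inl ⟨Subtype.ext h.1, Subtype.ext h.2⟩⟩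
        · exact Or.inr ⟨i, hi, Or.inr ⟨Subtype.ext h.1, Subtype.ext h.2⟩⟩)
    ⟨hub k0, hmem _ (Reachable.refl _)⟩ (by simp [pos, hub]) δ (by omega)
  exact hT (hδ x y z p q r hp hq hr' hv)

lemma main_ae {p : ℝ} (h0 : 0 < p) (h1 : p < 1) {φ : Measure (Cfg VV)} (hφ : IsFreeFK GG p φ) :
    ∀ᵐ ω ∂φ, ∃ C : (openG GG ω).ConnectedComponent,
      C.supp.Infinite ∧ ¬ Anchored C.toSimpleGraph := by
  filter_upwards [bad_small h0 h1 hφ] with ω hω
  obtain ⟨k0, hk0⟩ := eventually_atTop.1 hω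
  exact main_det k0 hk0

lemma free_ex {p : ℝ} (h0 : 0 < p) (h1 : p < 1) : ∃ φ, IsFreeFK GG p φ := by
  obtain ⟨H, hH⟩ := exists_exh GG
  exact exists_free h0 h1 hH

lemma pc_zero : pc GG = 0 := by
  have hmem : ∀ p : ℝ, 0 < p → p < 1 → p ∈ {p : ℝ | 0 ≤ p ∧ p ≤ 1 ∧ ∃ φ, IsFreeFK GG p φ ∧
      0 < φ {ω | ∃ C : (openG GG ω).ConnectedComponent, C.supp.Infinite}} := by
    intro p h0 h1
    obtain ⟨φ, hφ⟩ := free_ex h0 h1
    refine ⟨h0.le, h1.le, φ, hφ, pos_iff_ne_zero.2 fun hz => ?_⟩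
    have := hφ.1
    have h2 : ∀ᵐ ω ∂φ, False := by
      filter_upwards [main_ae h0 h1 hφ, measure_eq_zero_iff_ae_notMem.1 hz] with ω ⟨C, hC, _⟩ h
      exact h ⟨C, hC⟩
    simp at h2
    exact IsProbabilityMeasure.ne_zero φ h2
  refine le_antisymm (le_of_forall_pos_le_add fun ε hε => ?_)
    (le_csInf ⟨_, hmem (1 / 2) (by norm_num) (by norm_num)⟩ fun p hp => hp.1)
  refine (csInf_le ⟨0, fun p hp => hp.1⟩ (hmem (min ε (1 / 2)) (by positivity)
    ((min_le_right _ _).trans_lt (by norm_num)))).trans ?_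
  rw [zero_add]; exact min_le_left _ _

end Pool.Agent.H44.FK
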