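import Mathlib

/-! Free FK-Ising measure on an infinite graph, thin triangles, anchored hyperbolicity. -/

open MeasureTheory Filter Topology

namespace Pool.Agent.H44.FK

variable {V : Type}

/-- a walk is a geodesic when its length is the graph distance of its endpoints -/
def Geo {Γ : SimpleGraph V} {x y : V} (w : Γ.Walk x y) : Prop := w.length = Γ.dist x y

/-- every vertex of `a` is within distance `δ` of a vertex of `b` or of `c` -/
def Near (Γ : SimpleGraph V) (δ : ℕ) (a b c : List V) : Prop :=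
  ∀ u ∈ a, ∃ u', (u' ∈ b ∨ u' ∈ c) ∧ Γ.dist u u' ≤ δ

/-- the triangle with sides `p, q, r` is `δ`-thin -/
def Thin {Γ : SimpleGraph V} (δ : ℕ) {x y z : V} (p : Γ.Walk x y) (q : Γ.Walk y z)
    (r : Γ.Walk z x) : Prop :=
  Near Γ δ p.support q.support r.support ∧ Near Γ δ q.support p.support r.support ∧
    Near Γ δ r.support p.support q.support

/-- Gromov hyperbolic: all geodesic triangles are `δ`-thin for one `δ` -/
def Hyperbolic (Γ : SimpleGraph V) : Prop :=
  ∃ δ : ℕ, ∀ (x y z : V) (p : Γ.Walk x y) (q : Γ.Walk y z) (r : Γ.Walk z x),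
    Geo p → Geo q → Geo r → Thin δ p q r

/-- anchored Gromov hyperbolic -/
def Anchored (Γ : SimpleGraph V) : Prop :=
  ∀ v : V, ∃ δ : ℕ, ∀ (x y z : V) (p : Γ.Walk x y) (q : Γ.Walk y z) (r : Γ.Walk z x),
    Geo p → Geo q → Geo r → (v ∈ p.support ∨ v ∈ q.support ∨ v ∈ r.support) → Thin δ p q r

/-- configurations: `true` = open -/
abbrev Cfg (V : Type) : Type := Sym2 V → Bool

/-- the open subgraph -/
def openG (G : SimpleGraph V) (ω : Cfg V) : SimpleGraph V :=
  G ⊓ SimpleGraph.fromEdgeSet {e | ω e = true}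

/-- a finite subgraph of `G` -/
structure FinSub (G : SimpleGraph V) where
  verts : Finset V
  edges : Finset (Sym2 V)
  sub : ∀ e ∈ edges, e ∈ G.edgeSet
  ends : ∀ e ∈ edges, ∀ v ∈ e, v ∈ verts

open Classical in
/-- the configuration whose open edges are those of `η` -/
noncomputable def ind (η : Finset (Sym2 V)) : Cfg V := fun e => decide (e ∈ η)

/-- number of connected components of the graph with vertex set of `H` and edge set `η` -/
noncomputable def ncomp {G : SimpleGraph V} (H : FinSub G) (η : Finset (Sym2 V)) : ℕ :=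
  Nat.card ((SimpleGraph.fromEdgeSet (η : Set (Sym2 V))).induce
    (H.verts : Set V)).ConnectedComponent

open Classical in
/-- FK-Ising weight -/
noncomputable def weight {G : SimpleGraph V} (H : FinSub G) (p : ℝ) (η : Finset (Sym2 V)) : ℝ :=
  p ^ η.card * (1 - p) ^ (H.edges \ η).card * 2 ^ ncomp H η

/-- free FK-Ising measure of the finite subgraph `H` -/
noncomputable def fk {G : SimpleGraph V} (H : FinSub G) (p : ℝ) : Measure (Cfg V) :=
  ∑ η ∈ H.edges.powerset,
    ENNReal.ofReal (weight H p η / ∑ ξ ∈ H.edges.powerset, weight H p ξ) • Measure.dirac (ind η)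

/-- increasing finite subgraphs with union `G` -/
def Exhaustion {G : SimpleGraph V} (H : ℕ → FinSub G) : Prop :=
  (∀ n, (H n).verts ⊆ (H (n + 1)).verts ∧ (H n).edges ⊆ (H (n + 1)).edges) ∧
    (∀ v, ∃ n, v ∈ (H n).verts) ∧ ∀ e ∈ G.edgeSet, ∃ n, e ∈ (H n).edges

/-- `φ` is the weak limit of the free FK-Ising measures along an exhaustion of `G` -/
def IsFreeFK (G : SimpleGraph V) (p : ℝ) (φ : Measure (Cfg V)) : Prop :=
  IsProbabilityMeasure φ ∧ ∃ H : ℕ → FinSub G, Exhaustion H ∧
    ∀ f : BoundedContinuousFunction (Cfg V) ℝ,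
      Tendsto (fun n => ∫ ω, f ω ∂fk (H n) p) atTop (𝓝 (∫ ω, f ω ∂φ))

/-- critical probability -/
noncomputable def pc (G : SimpleGraph V) : ℝ :=
  sInf {p | 0 ≤ p ∧ p ≤ 1 ∧ ∃ φ, IsFreeFK G p φ ∧
    0 < φ {ω | ∃ C : (openG G ω).ConnectedComponent, C.supp.Infinite}}

end Pool.Agent.H44.FK
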