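import Mathlib

/-! A deterministic counting lemma for Lipschitz potentials on the square lattice. -/

open Finset

namespace Pool.Agent.H44.FPP

open Classical in
noncomputable def cnt (w : ℤ → ℝ) (Q : ℝ) (a b : ℤ) : ℕ := ∑ i ∈ Ico a b, if w i = Q then 1 else 0

lemma cnt_add (w : ℤ → ℝ) (Q : ℝ) {a b c : ℤ} (h1 : a ≤ b) (h2 : b ≤ c) :
    cnt w Q a c = cnt w Q a b + cnt w Q b c := by
  unfold cnt
  rw [← Ico_union_Ico_eq_Ico h1 h2, sum_union (Ico_disjoint_Ico_consecutive a b c)]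

lemma cnt_succ (w : ℤ → ℝ) (Q : ℝ) {a b : ℤ} (h : a ≤ b) :
    (cnt w Q a (b + 1) : ℝ) = cnt w Q a b + if w b = Q then 1 else 0 := by
  rw [cnt_add w Q h (by omega : b ≤ b + 1)]
  have : Ico b (b + 1) = {b} := by ext i; simp only [mem_Ico, mem_singleton]; omega
  unfold cnt
  rw [this, sum_singleton]
  push_cast
  rfl

lemma cnt_le (w : ℤ → ℝ) (Q : ℝ) {a b : ℤ} (h : a ≤ b) : (cnt w Q a b : ℝ) ≤ b - a := by
  induction b, h using Int.leInduction with
  | base => simp [cnt]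
  | succ b h ih => rw [cnt_succ w Q h]; push_cast; split_ifs <;> linarith

/-- hypotheses along a line -/
structure Ln (M X Y : ℝ) (R : ℤ) (f w : ℤ → ℝ) : Prop where
  lip : ∀ i, |f (i + 1) - f i| ≤ w i
  val : ∀ i, -R ≤ i → i ≤ R → w i ≤ M ∨ w i = X ∨ w i = Y

variable {M X Y : ℝ} {R : ℤ} {f w : ℤ → ℝ}

lemma Ln.seg (h : Ln M X Y R f w) (hM : 0 ≤ M) (hX : 0 ≤ X) (hY : 0 ≤ Y) {a b : ℤ} (ha : -R ≤ a)
    (hab : a ≤ b) (hb : b ≤ R) :
    |f b - f a| ≤ Y * cnt w Y a b + X * cnt w X a b + M * (b - a) := by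
  induction b, hab using Int.leInduction with
  | base => simp [cnt]
  | succ b hab ih =>
    have h1 := ih (by omega)
    have h2 := h.lip b
    have h3 := h.val b (by omega) (by omega)
    have h4 := abs_sub_le (f (b + 1)) (f b) (f a)
    rw [cnt_succ _ _ hab, cnt_succ _ _ hab]
    push_cast
    split_ifs with e1 e2 e2
    · linarith
    · linarith
    · linarith
    · rcases h3 with h3 | h3 | h3
      · linarith
      · exact absurd h3 e2
      · exact absurd h3 e1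

lemma Ln.seg' (h : Ln M X Y R f w) (hM : M ≤ X) {a b : ℤ} (ha : -R ≤ a)
    (hab : a ≤ b) (hb : b ≤ R) :
    |f b - f a| ≤ (Y - X) * cnt w Y a b + X * (b - a) := by
  induction b, hab using Int.leInduction with
  | base => simp [cnt]
  | succ b hab ih =>
    have h1 := ih (by omega)
    have h2 := h.lip b
    have h3 := h.val b (by omega) (by omega)
    have h4 := abs_sub_le (f (b + 1)) (f b) (f a)
    rw [cnt_succ _ _ hab]
    push_cast
    split_ifs with e1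
    · linarith
    · rcases h3 with h3 | h3 | h3
      · linarith
      · linarith
      · exact absurd h3 e1

lemma Ln.far (h : Ln M X Y R f w) (hM : M ≤ X) (hY : X ≤ Y) {a b : ℤ} (ha : -R ≤ a) (ha' : a ≤ R)
    (hb' : -R ≤ b) (hb : b ≤ R) : |f b - f a| ≤ Y * ((b - a).natAbs : ℕ) := by
  wlog hab : a ≤ b generalizing a b
  · have := this hb' hb ha ha' (by omega)
    rwa [abs_sub_comm, show (a - b).natAbs = (b - a).natAbs by omega] at this
  have h1 := h.seg' hM ha hab hb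
  have h2 := cnt_le w Y hab
  have h3 : (((b - a).natAbs : ℕ) : ℝ) = b - a := by
    rw [← Int.cast_natCast, Int.natCast_natAbs, abs_of_nonneg (by omega)]; push_cast; rfl
  rw [h3]
  nlinarith

lemma card_ball {ρ c : ℤ} {g : ℕ} (h1 : -ρ ≤ c - g) (h2 : c + g ≤ ρ) (k : ℕ) :
    ∑ x ∈ Icc (-ρ) ρ, (if (x - c).natAbs ≤ g then k else 0) = (2 * g + 1) * k := by
  rw [← sum_filter, sum_const, smul_eq_mul]
  have : (Icc (-ρ) ρ).filter (fun x => (x - c).natAbs ≤ g) = Icc (c - g) (c + g) := by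
    ext x; simp only [mem_filter, mem_Icc]; omega
  rw [this, Int.card_Icc]
  congr 1
  omega

lemma sum_tent {ρ c : ℤ} (g : ℕ) (h1 : -ρ ≤ c - g) (h2 : c + g ≤ ρ) :
    ∑ x ∈ Icc (-ρ) ρ, (g - (x - c).natAbs) = g ^ 2 := by
  induction g with
  | zero => simp
  | succ g ih =>
    have := card_ball (ρ := ρ) (c := c) (g := g) (by omega) (by omega) 1
    rw [show (g + 1) ^ 2 = g ^ 2 + (2 * g + 1) * 1 by ring, ← ih (by omega) (by omega), ← this,
      ← sum_add_distrib]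
    refine sum_congr rfl fun x _ => ?_
    split_ifs <;> omega

lemma lbY {c p η : ℝ} {g j n : ℕ} (hY : 0 < Y) (hg : g = 0 ∨ (g - 1 : ℝ) * Y + η < c)
    (hp : p ≤ Y * j) (h : c - p ≤ Y * n + η) : g - j ≤ n := by
  rcases hg with rfl | hg
  · omega
  have : (g : ℝ) < j + n + 1 := by
    by_contra hc
    push Not at hc
    nlinarith
  have : g < j + n + 1 := by exact_mod_cast this
  omega

lemma tight {s : Finset ℤ} {a a' b b' : ℤ → ℕ} (ha : ∀ i ∈ s, a' i ≤ a i) (hb : ∀ i ∈ s, b' i ≤ b i)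
    (h : ∑ i ∈ s, a i + ∑ i ∈ s, b i ≤ ∑ i ∈ s, a' i + ∑ i ∈ s, b' i) :
    (∀ i ∈ s, a' i = a i) ∧ ∀ i ∈ s, b' i = b i := by
  have h1 := sum_le_sum ha
  have h2 := sum_le_sum hb
  exact ⟨(sum_eq_sum_iff_of_le ha).1 (by omega), (sum_eq_sum_iff_of_le hb).1 (by omega)⟩

lemma lbX {c η s : ℝ} {g n : ℕ} (hX : 0 < X) (hg : g = 0 ∨ s + (g - 1 : ℝ) * X + η < c)
    (h : c ≤ s + X * n + η) : g ≤ n := by
  rcases hg with rfl | hg
  · omega
  have : (g : ℝ) < n + 1 := by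
    by_contra hc
    push Not at hc
    nlinarith
  have : g < n + 1 := by exact_mod_cast this
  omega

lemma mulc (Y : ℝ) {n j m : ℕ} (h : n + j = m) : Y * n + Y * j = m * Y := by
  rw [← h]; push_cast; ring

theorem core {m : ℕ} {ρ z : ℤ} (hm : 1 ≤ m) (hz : z = 2 * m + 2) (hρ : 4 * m + 4 ≤ ρ)
    {LY MY RY UY DY LX MX RX UX DX : ℤ → ℕ} {p0 pz q : ℤ → ℝ} {c t η η' : ℝ}
    (hη : 0 ≤ η) (hX : 3 * η < X) (hY : 2 * η' < Y) (ht : 2 * m * Y + 2 * X < t)
    (hL : ∀ y ∈ Icc (-ρ) ρ, c - p0 y ≤ Y * LY y + X * LX y + η)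
    (hR : ∀ y ∈ Icc (-ρ) ρ, pz y - c ≤ Y * RY y + X * RX y + η)
    (hM : ∀ y ∈ Icc (-ρ) ρ, pz y - p0 y ≤ Y * MY y + X * MX y + η)
    (hU : ∀ x ∈ Icc (-ρ) ρ, |c - q x| ≤ Y * UY x + X * UX x + η)
    (hD : ∀ x ∈ Icc (-ρ) ρ, |c - q x| ≤ Y * DY x + X * DX x + η)
    (hb : ∀ x, X * LX x + η ≤ η' ∧ X * RX x + η ≤ η' ∧ X * MX x + η ≤ η' ∧ X * UX x + η ≤ η' ∧
      X * DX x + η ≤ η')
    (hp0 : ∀ y ∈ Icc (-ρ) ρ, p0 y ≤ Y * ((y - 0).natAbs : ℕ))
    (hpz : ∀ y ∈ Icc (-ρ) ρ, t - Y * ((y - 0).natAbs : ℕ) ≤ pz y)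
    (hq0 : ∀ y ∈ Icc (-ρ) ρ, q y ≤ Y * ((y - 0).natAbs : ℕ))
    (hqz : ∀ y ∈ Icc (-ρ) ρ, t - Y * ((y - z).natAbs : ℕ) ≤ q y)
    (hax : 2 * m + 1 ≤ MY 0)
    (hu0 : UY 0 ≤ m → p0 (m + 1) ≤ m * Y + X) (huz : UY z ≤ m → t - m * Y - X ≤ pz (m + 1))
    (hmid : MY 0 ≤ 2 * m + 1 → MX 0 = 0 → q (m + 1) ≤ m * Y + η ∨ t - m * Y - η ≤ q (m + 1)) :
    8 * m ^ 2 + 2 ≤ ∑ y ∈ Icc (-ρ) ρ, (LY y + MY y + RY y) + ∑ x ∈ Icc (-ρ) ρ, (UY x + DY x) ∨
    (8 * m ^ 2 + 1 ≤ ∑ y ∈ Icc (-ρ) ρ, (LY y + MY y + RY y) + ∑ x ∈ Icc (-ρ) ρ, (UY x + DY x) ∧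
     16 * m + 7 ≤ ∑ y ∈ Icc (-ρ) ρ, (LX y + MX y + RX y) + ∑ x ∈ Icc (-ρ) ρ, (UX x + DX x)) := by
  have hX0 : 0 < X := by linarith
  have hη' : 0 ≤ η' := le_trans (by positivity) (hb 0).1
  have hY0 : 0 < Y := by linarith
  -- choice of `g`, `k`
  obtain ⟨g, k, hgk, hg, hk⟩ : ∃ g k : ℕ, g + k = 2 * m ∧ (g = 0 ∨ (g - 1 : ℝ) * Y + η' < c) ∧
      (k = 0 ∨ (k - 1 : ℝ) * Y + η' < t - c) := by
    classical
    let P : ℕ → Prop := fun g => g = 0 ∨ (g - 1 : ℝ) * Y + η' < c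
    have h1 : P (Nat.findGreatest P (2 * m)) := Nat.findGreatest_spec (Nat.zero_le _) (Or.inl rfl)
    have h2 := Nat.findGreatest_le (P := P) (2 * m)
    refine ⟨_, 2 * m - Nat.findGreatest P (2 * m), by omega, h1, ?_⟩
    rcases h2.eq_or_lt with h | h
    · left; omega
    · right
      have h3 := Nat.findGreatest_is_greatest (P := P) (Nat.lt_succ_self _) h
      simp only [P, not_or, not_lt] at h3
      have h4 := h3.2
      rw [Nat.cast_sub h2]
      push_cast at h4 ⊢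
      nlinarith
  have rowL : ∀ y ∈ Icc (-ρ) ρ, g - (y - 0).natAbs ≤ LY y := fun y hy =>
    lbY hY0 hg (hp0 y hy) (by linarith [hL y hy, (hb y).1])
  have rowR : ∀ y ∈ Icc (-ρ) ρ, k - (y - 0).natAbs ≤ RY y := fun y hy =>
    lbY (p := t - pz y) hY0 hk (by linarith [hpz y hy]) (by linarith [hR y hy, (hb y).2.1])
  have rowM : ∀ y ∈ Icc (-ρ) ρ, 2 * (m - (y - 0).natAbs) + (if (y - 0).natAbs ≤ 0 then 1 else 0)
      ≤ MY y := fun y hy => by
    have := lbY (c := t) (p := t - pz y + p0 y) (g := 2 * m) (j := 2 * (y - 0).natAbs) (n := MY y)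
      (η := η') hY0 (Or.inr (by push_cast; nlinarith))
      (by rw [Nat.cast_mul, Nat.cast_ofNat]; linarith [hpz y hy, hp0 y hy])
      (by linarith [hM y hy, (hb y).2.2.1])
    split_ifs with h0
    · obtain rfl : y = 0 := by omega
      omega
    · omega
  have col : ∀ (AY AX : ℤ → ℕ), (∀ x ∈ Icc (-ρ) ρ, |c - q x| ≤ Y * AY x + X * AX x + η) →
      (∀ x, X * AX x + η ≤ η') → ∀ x ∈ Icc (-ρ) ρ,
      (g - (x - 0).natAbs) + (k - (x - z).natAbs) ≤ AY x := fun AY AX h1 h2 x hx => by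
    have h3 := abs_le.1 (h1 x hx)
    have a1 := lbY (n := AY x) hY0 hg (hq0 x hx) (by linarith [h2 x])
    have a2 := lbY (p := t - q x) (j := (x - z).natAbs) (n := AY x) hY0 hk
      (by linarith [hqz x hx]) (by linarith [h2 x])
    omega
  have colU := col UY UX hU fun x => (hb x).2.2.2.1
  have colD := col DY DX hD fun x => (hb x).2.2.2.2
  have s1 := sum_tent (ρ := ρ) (c := 0) g (by omega) (by omega)
  have s2 := sum_tent (ρ := ρ) (c := 0) k (by omega) (by omega)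
  have s3 := sum_tent (ρ := ρ) (c := z) k (by omega) (by omega)
  have s4 := sum_tent (ρ := ρ) (c := 0) m (by omega) (by omega)
  have s5 := card_ball (ρ := ρ) (c := 0) (g := 0) (by omega) (by omega) 1
  have ra : ∀ y ∈ Icc (-ρ) ρ, (g - (y - 0).natAbs) + (2 * (m - (y - 0).natAbs) +
      (if (y - 0).natAbs ≤ 0 then 1 else 0)) + (k - (y - 0).natAbs) ≤ LY y + MY y + RY y :=
    fun y hy => add_le_add (add_le_add (rowL y hy) (rowM y hy)) (rowR y hy)
  have cb : ∀ x ∈ Icc (-ρ) ρ, 2 * ((g - (x - 0).natAbs) + (k - (x - z).natAbs)) ≤ UY x + DY x :=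
    fun x hx => by have := colU x hx; have := colD x hx; omega
  have t1 := sum_le_sum ra
  have t2 := sum_le_sum cb
  have e1 := t1
  have e2 := t2
  simp only [sum_add_distrib, ← mul_sum, s1, s2, s3, s4, s5] at e1 e2
  by_cases hbig : 8 * m ^ 2 + 2 ≤ ∑ y ∈ Icc (-ρ) ρ, (LY y + MY y + RY y) +
      ∑ x ∈ Icc (-ρ) ρ, (UY x + DY x)
  · exact Or.inl hbig
  right
  have hbig' := hbig
  simp only [sum_add_distrib] at hbig'
  have hgm : g = m ∧ k = m := by
    have : 3 * (g ^ 2 + k ^ 2) ≤ 6 * m ^ 2 := by omega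
    have h2 : ((g : ℤ) - k) ^ 2 ≤ 0 := by
      zify at this hgk
      nlinarith
    have h3 : (g : ℤ) - k = 0 := pow_eq_zero_iff (two_ne_zero) |>.1 (le_antisymm h2 (sq_nonneg _))
    omega
  obtain ⟨rfl, rfl⟩ : m = g ∧ m = k := ⟨hgm.1.symm, hgm.2.symm⟩
  refine ⟨by simp only [sum_add_distrib]; omega, ?_⟩
  obtain ⟨tr, tc⟩ := tight ra cb (by
    simp only [sum_add_distrib, ← mul_sum, s1, s3, s5] at hbig' ⊢; omega)
  have eL : ∀ y ∈ Icc (-ρ) ρ, LY y = m - (y - 0).natAbs := fun y hy => by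
    have := tr y hy; have := rowL y hy; have := rowM y hy; have := rowR y hy; omega
  have eR : ∀ y ∈ Icc (-ρ) ρ, RY y = m - (y - 0).natAbs := fun y hy => by
    have := tr y hy; have := rowL y hy; have := rowM y hy; have := rowR y hy; omega
  have eM : ∀ y ∈ Icc (-ρ) ρ, MY y = 2 * (m - (y - 0).natAbs) +
      (if (y - 0).natAbs ≤ 0 then 1 else 0) := fun y hy => by
    have := tr y hy; have := rowL y hy; have := rowM y hy; have := rowR y hy; omega
  have eU : ∀ x ∈ Icc (-ρ) ρ, UY x = (m - (x - 0).natAbs) + (m - (x - z).natAbs) := fun x hx => by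
    have := tc x hx; have := colU x hx; have := colD x hx; omega
  have eD : ∀ x ∈ Icc (-ρ) ρ, DY x = (m - (x - 0).natAbs) + (m - (x - z).natAbs) := fun x hx => by
    have := tc x hx; have := colU x hx; have := colD x hx; omega
  clear tr tc ra cb t1 t2 e1 e2 hbig hbig' rowL rowR rowM col colU colD s1 s2 s3 s4 hg hk hgm hgk
  obtain ⟨α, β, hαβ, hα, hβ, hγ⟩ : ∃ α β : ℕ, α + β = 2 ∧
      (α = 0 ∨ m * Y + (α - 1 : ℝ) * X + η < c) ∧
      (β = 0 ∨ m * Y + (β - 1 : ℝ) * X + η < t - c) ∧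
      (m * Y + X + η < c ∨ m * Y + X + η < t - c ∨
        (m * Y + 2 * η < c ∧ m * Y + 2 * η < t - c)) := by
    by_cases h1 : m * Y + X + η < c
    · exact ⟨2, 0, rfl, Or.inr (by push_cast; linarith), Or.inl rfl, Or.inl h1⟩
    by_cases h2 : m * Y + X + η < t - c
    · exact ⟨0, 2, rfl, Or.inl rfl, Or.inr (by push_cast; linarith), Or.inr (Or.inl h2)⟩
    exact ⟨1, 1, rfl, Or.inr (by push_cast; linarith), Or.inr (by push_cast; linarith),
      Or.inr (Or.inr ⟨by linarith, by linarith⟩)⟩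
  have ra : ∀ y ∈ Icc (-ρ) ρ, (if (y - 0).natAbs ≤ m then 4 else 0) ≤
      LX y + (MX y + if (y - 0).natAbs ≤ 0 then 2 else 0) + RX y := fun y hy => by
    by_cases h1 : (y - 0).natAbs ≤ m
    swap
    · rw [if_neg h1]; omega
    rw [if_pos h1]
    have a1 : α ≤ LX y := lbX hX0 hα (by
      linarith [hL y hy, hp0 y hy, mulc Y (show LY y + (y - 0).natAbs = m by
        have := eL y hy; omega)])
    have a2 : β ≤ RX y := lbX hX0 hβ (by
      linarith [hR y hy, hpz y hy, mulc Y (show RY y + (y - 0).natAbs = m by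
        have := eR y hy; omega)])
    split_ifs with h2
    · omega
    have a3 : 2 ≤ MX y := lbX (c := t) (s := 2 * m * Y) (η := η) hX0
      (Or.inr (by push_cast; linarith)) (by
      have := mulc Y (show MY y + 2 * (y - 0).natAbs = 2 * m by
        have := eM y hy; rw [if_neg h2] at this; omega)
      rw [Nat.cast_mul, Nat.cast_mul, Nat.cast_ofNat] at this
      linarith [hM y hy, hpz y hy, hp0 y hy])
    omega
  have col : ∀ (AY AX : ℤ → ℕ), (∀ x ∈ Icc (-ρ) ρ, |c - q x| ≤ Y * AY x + X * AX x + η) →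
      (∀ x ∈ Icc (-ρ) ρ, AY x = (m - (x - 0).natAbs) + (m - (x - z).natAbs)) → ∀ x ∈ Icc (-ρ) ρ,
      (if (x - 0).natAbs ≤ m then α else 0) + (if (x - z).natAbs ≤ m then β else 0) ≤ AX x :=
    fun AY AX h1 h2 x hx => by
    have h3 := abs_le.1 (h1 x hx)
    have h4 := h2 x hx
    split_ifs with a1 a2 a2
    · omega
    · have : α ≤ AX x := lbX hX0 hα (by
        linarith [hq0 x hx, mulc Y (show AY x + (x - 0).natAbs = m by omega)])
      omega
    · have : β ≤ AX x := lbX hX0 hβ (by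
        linarith [hqz x hx, mulc Y (show AY x + (x - z).natAbs = m by omega)])
      omega
    · omega
  have colU := col UY UX hU eU
  have colD := col DY DX hD eD
  have cb : ∀ x ∈ Icc (-ρ) ρ, 2 * ((if (x - 0).natAbs ≤ m then α else 0) +
      (if (x - z).natAbs ≤ m then β else 0)) ≤ UX x + DX x :=
    fun x hx => by have := colU x hx; have := colD x hx; omega
  have u1 := card_ball (ρ := ρ) (c := 0) (g := m) (by omega) (by omega) 4
  have u2 := card_ball (ρ := ρ) (c := 0) (g := m) (by omega) (by omega) α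
  have u3 := card_ball (ρ := ρ) (c := z) (g := m) (by omega) (by omega) β
  have u4 := card_ball (ρ := ρ) (c := 0) (g := 0) (by omega) (by omega) 2
  have u5 : (2 * m + 1) * α + (2 * m + 1) * β = (2 * m + 1) * 2 := by rw [← mul_add, hαβ]
  by_contra hc
  obtain ⟨tr, tc⟩ := tight ra cb (by
    simp only [sum_add_distrib, ← mul_sum, u1, u2, u3, u4] at hc ⊢; omega)
  have m0 : (0 : ℤ) ∈ Icc (-ρ) ρ := by simp only [mem_Icc]; omega
  have mz : z ∈ Icc (-ρ) ρ := by simp only [mem_Icc]; omega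
  have m1 : (m + 1 : ℤ) ∈ Icc (-ρ) ρ := by simp only [mem_Icc]; omega
  have r1 := tr _ m1
  have c1 := tc _ m1
  rw [if_neg (by omega), if_neg (by omega)] at r1 c1
  have z1 : LX (m + 1) = 0 := by omega
  have z2 : RX (m + 1) = 0 := by omega
  have z3 : UX (m + 1) = 0 := by omega
  have z4 : LY (m + 1) = 0 := by have := eL _ m1; omega
  have z5 : RY (m + 1) = 0 := by have := eR _ m1; omega
  have z6 : UY (m + 1) = 0 := by have := eU _ m1; omega
  have w1 := hL _ m1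
  have w2 := hR _ m1
  have w3 := abs_le.1 (hU _ m1)
  simp only [z1, z2, z3, z4, z5, z6, Nat.cast_zero, mul_zero, zero_add] at w1 w2 w3
  rcases hγ with h | h | h
  · linarith [hu0 (by have := eU _ m0; omega)]
  · linarith [huz (by have := eU _ mz; omega)]
  · have a1 : α ≤ LX 0 := lbX hX0 hα (by
      linarith [hL 0 m0, hp0 0 m0, mulc Y (show LY 0 + (0 - 0 : ℤ).natAbs = m by
        have := eL 0 m0; omega)])
    have a2 : β ≤ RX 0 := lbX hX0 hβ (by
      linarith [hR 0 m0, hpz 0 m0, mulc Y (show RY 0 + (0 - 0 : ℤ).natAbs = m by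
        have := eR 0 m0; omega)])
    have r0 := tr _ m0
    have e0 := eM _ m0
    rw [if_pos (by omega), if_pos (by omega)] at r0
    rw [if_pos (by omega)] at e0
    rcases hmid (by omega) (by omega) with h' | h' <;> linarith

end Pool.Agent.H44.FPP
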