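import Pool.Agent.H44.FPP1

/-! The counting lemma in a box. -/

open Finset

namespace Pool.Agent.H44.FPP

abbrev Ix : Type := ℤ × ℤ × Bool

noncomputable def EE (R : ℤ) : Finset Ix := Icc (-R) R ×ˢ Icc (-R) R ×ˢ univ

lemma mem_EE {R : ℤ} {i : Ix} : i ∈ EE R ↔ (-R ≤ i.1 ∧ i.1 ≤ R) ∧ -R ≤ i.2.1 ∧ i.2.1 ≤ R := by
  simp [EE]

open Classical in
noncomputable def mk (w : Ix → ℝ) (R : ℤ) (Q : ℝ) : Finset Ix := (EE R).filter fun i => w i = Q

lemma cnt_sum_le (w : Ix → ℝ) {R ρ : ℤ} (h : ρ ≤ R) (Q : ℝ) :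
    ∑ y ∈ Icc (-ρ) ρ, cnt (fun x => w (x, y, false)) Q (-ρ) ρ +
      ∑ x ∈ Icc (-ρ) ρ, cnt (fun y => w (x, y, true)) Q (-ρ) ρ ≤ (mk w R Q).card := by
  classical
  have s1 : Icc (-ρ) ρ ⊆ Icc (-R) R := Icc_subset_Icc (by omega) h
  have s2 : Ico (-ρ) ρ ⊆ Icc (-R) R := Ico_subset_Icc_self.trans s1
  unfold mk EE
  rw [card_filter, sum_product]
  simp only [sum_product, Fintype.sum_bool, sum_add_distrib]
  rw [add_comm]
  refine add_le_add ?_ ?_
  · refine le_trans (sum_le_sum fun x _ => ?_) (sum_le_sum_of_subset s1)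
    unfold cnt
    convert sum_le_sum_of_subset (M := ℕ) s2
  · rw [sum_comm]
    refine le_trans (sum_le_sum fun x _ => ?_) (sum_le_sum_of_subset s1)
    unfold cnt
    convert sum_le_sum_of_subset (M := ℕ) s2

theorem det {m K : ℕ} {R : ℤ} (hm : 1 ≤ m) (hR : R = 4 * m + 4 + K) {M X Y : ℝ} (hM : 0 < M)
    (hX : 40 * R * M ≤ X) (hY : 40 * R * X ≤ Y) {φ : ℤ → ℤ → ℝ} {w : Ix → ℝ}
    (hh : ∀ x y, |φ (x + 1) y - φ x y| ≤ w (x, y, false))
    (hv : ∀ x y, |φ x (y + 1) - φ x y| ≤ w (x, y, true))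
    (hval : ∀ i ∈ EE R, w i ≤ M ∨ w i = X ∨ w i = Y) (h0 : φ 0 0 = 0)
    (ht : 2 * m * Y + 2 * X < φ (2 * m + 2) 0) :
    K ≤ (mk w R X ∪ mk w R Y).card ∨ 8 * m ^ 2 + 2 ≤ (mk w R Y).card ∨
      (8 * m ^ 2 + 1 ≤ (mk w R Y).card ∧ 16 * m + 7 ≤ (mk w R X).card) := by
  classical
  by_cases hK : K ≤ (mk w R X ∪ mk w R Y).card
  · exact Or.inl hK
  right
  have hR1 : (1 : ℝ) ≤ R := by exact_mod_cast (by omega : (1 : ℤ) ≤ R)
  have hMX : M ≤ X := by nlinarith
  have hX0 : 0 < X := by linarith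
  have hXY : X ≤ Y := by nlinarith
  have row : ∀ y, -R ≤ y → y ≤ R → Ln M X Y R (fun x => φ x y) fun x => w (x, y, false) :=
    fun y a b => ⟨fun x => hh x y, fun x c d => hval _ (mem_EE.2 ⟨⟨c, d⟩, a, b⟩)⟩
  have col : ∀ x, -R ≤ x → x ≤ R → Ln M X Y R (φ x) fun y => w (x, y, true) :=
    fun x a b => ⟨fun y => hv x y, fun y c d => hval _ (mem_EE.2 ⟨⟨a, b⟩, c, d⟩)⟩
  obtain ⟨ρ, hρ, hρ'⟩ := exists_mem_notMem_of_card_lt_card
    (s := (mk w R X ∪ mk w R Y).image fun i => if i.2.2 then |i.1| else |i.2.1|)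
    (t := Ico (4 * m + 4 : ℤ) R) (lt_of_le_of_lt card_image_le (by rw [Int.card_Ico]; omega))
  rw [mem_Ico] at hρ
  have free : ∀ i ∈ EE R, (if i.2.2 then |i.1| else |i.2.1|) = ρ → w i ≤ M := fun i hi e => by
    rcases hval i hi with h | h | h
    · exact h
    · exact absurd (mem_image.2 ⟨i, mem_union_left _ (mem_filter.2 ⟨hi, h⟩), e⟩) hρ'
    · exact absurd (mem_image.2 ⟨i, mem_union_right _ (mem_filter.2 ⟨hi, h⟩), e⟩) hρ'
  have nb : ∀ a b : ℤ, -ρ ≤ a → a ≤ ρ → -ρ ≤ b → b ≤ ρ → M * ((b - a).natAbs : ℕ) ≤ 2 * R * M :=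
    fun a b h1 h2 h3 h4 => by
    have : (((b - a).natAbs : ℕ) : ℝ) ≤ 2 * R := by
      have : (((b - a).natAbs : ℕ) : ℤ) ≤ 2 * R := by omega
      rw [← Int.cast_natCast]
      exact_mod_cast this
    nlinarith
  have frow : ∀ y, |y| = ρ → ∀ x, -ρ ≤ x → x ≤ ρ → |φ x y - φ ρ y| ≤ 2 * R * M :=
    fun y hy x a b => by
    have : Ln M M M R (fun x => φ x y) fun x => w (x, y, false) := ⟨fun x => hh x y, fun x c d =>
      Or.inl (free _ (mem_EE.2 ⟨⟨c, d⟩, by have := abs_le.1 hy.le; simp only; omega⟩) (by simpa using hy))⟩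
    exact (this.far le_rfl le_rfl (by omega) (by omega) (by omega) (by omega)).trans
      (nb _ _ (by omega) le_rfl a b)
  have fcol : ∀ x, |x| = ρ → ∀ y, -ρ ≤ y → y ≤ ρ → |φ x y - φ x ρ| ≤ 2 * R * M :=
    fun x hx y a b => by
    have : Ln M M M R (φ x) fun y => w (x, y, true) := ⟨fun y => hv x y, fun y c d =>
      Or.inl (free _ (mem_EE.2 ⟨by have := abs_le.1 hx.le; simp only; omega, c, d⟩) (by simpa using hx))⟩
    exact (this.far le_rfl le_rfl (by omega) (by omega) (by omega) (by omega)).trans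
      (nb _ _ (by omega) le_rfl a b)
  have p1 : |ρ| = ρ := abs_of_nonneg (by omega)
  have p2 : |-ρ| = ρ := by rw [abs_neg, p1]
  have hRM : 0 ≤ R * M := by positivity
  have ln : ∀ a b : ℤ, -ρ ≤ a → b ≤ ρ → M * ((b : ℝ) - a) ≤ 2 * R * M := fun a b h1 h2 => by
    have : (b : ℝ) - a ≤ 2 * R := by exact_mod_cast (by omega : b - a ≤ 2 * R)
    nlinarith
  have cb : ∀ (u : ℤ → ℝ) (a b : ℤ), -ρ ≤ a → a ≤ b → b ≤ ρ →
      X * cnt u X a b + 6 * R * M ≤ 2 * R * X + 6 * R * M := fun u a b h1 h2 h3 => by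
    have h4 := cnt_le u X h2
    have : (b : ℝ) - a ≤ 2 * R := by exact_mod_cast (by omega : b - a ≤ 2 * R)
    nlinarith
  have key := core (X := X) (Y := Y) (ρ := ρ) (z := 2 * m + 2) hm rfl hρ.1
    (LY := fun y => cnt (fun x => w (x, y, false)) Y (-ρ) 0)
    (MY := fun y => cnt (fun x => w (x, y, false)) Y 0 (2 * m + 2))
    (RY := fun y => cnt (fun x => w (x, y, false)) Y (2 * m + 2) ρ)
    (UY := fun x => cnt (fun y => w (x, y, true)) Y 0 ρ)
    (DY := fun x => cnt (fun y => w (x, y, true)) Y (-ρ) 0)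
    (LX := fun y => cnt (fun x => w (x, y, false)) X (-ρ) 0)
    (MX := fun y => cnt (fun x => w (x, y, false)) X 0 (2 * m + 2))
    (RX := fun y => cnt (fun x => w (x, y, false)) X (2 * m + 2) ρ)
    (UX := fun x => cnt (fun y => w (x, y, true)) X 0 ρ)
    (DX := fun x => cnt (fun y => w (x, y, true)) X (-ρ) 0)
    (p0 := φ 0) (pz := φ (2 * m + 2)) (q := fun x => φ x 0) (c := φ ρ ρ) (t := φ (2 * m + 2) 0)
    (η := 6 * R * M) (η' := 2 * R * X + 6 * R * M) (by positivity) (by nlinarith) (by nlinarith) ht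
    (fun y hy => by
      rw [mem_Icc] at hy
      have a := abs_le.1 ((row y (by omega) (by omega)).seg hM.le hX0.le (by linarith)
        (a := -ρ) (b := 0) (by omega) (by omega) (by omega))
      linarith [ln (-ρ) 0 le_rfl (by omega), abs_le.1 (fcol _ p2 y hy.1 hy.2),
        abs_le.1 (frow _ p1 (-ρ) le_rfl (by omega))])
    (fun y hy => by
      rw [mem_Icc] at hy
      have a := abs_le.1 ((row y (by omega) (by omega)).seg hM.le hX0.le (by linarith)
        (a := 2 * m + 2) (b := ρ) (by omega) (by omega) (by omega))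
      linarith [ln (2 * m + 2) ρ (by omega) le_rfl, abs_le.1 (fcol _ p1 y hy.1 hy.2)])
    (fun y hy => by
      rw [mem_Icc] at hy
      have a := abs_le.1 ((row y (by omega) (by omega)).seg hM.le hX0.le (by linarith)
        (a := 0) (b := 2 * m + 2) (by omega) (by omega) (by omega))
      linarith [ln 0 (2 * m + 2) (by omega) (by omega)])
    (fun x hx => by
      rw [mem_Icc] at hx
      have a := abs_le.1 ((col x (by omega) (by omega)).seg hM.le hX0.le (by linarith)
        (a := 0) (b := ρ) (by omega) (by omega) (by omega))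
      have b := ln 0 ρ (by omega) le_rfl
      have c := abs_le.1 (frow _ p1 x hx.1 hx.2)
      rw [abs_le]; constructor <;> linarith)
    (fun x hx => by
      rw [mem_Icc] at hx
      have a := abs_le.1 ((col x (by omega) (by omega)).seg hM.le hX0.le (by linarith)
        (a := -ρ) (b := 0) (by omega) (by omega) (by omega))
      have b := ln (-ρ) 0 le_rfl (by omega)
      have c := abs_le.1 (frow _ p2 x hx.1 hx.2)
      have d := abs_le.1 (fcol _ p1 (-ρ) le_rfl (by omega))
      rw [abs_le]; constructor <;> linarith)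
    (fun x => ⟨cb _ _ _ le_rfl (by omega) (by omega), cb _ _ _ (by omega) (by omega) le_rfl,
      cb _ _ _ (by omega) (by omega) (by omega), cb _ _ _ (by omega) (by omega) le_rfl,
      cb _ _ _ le_rfl (by omega) (by omega)⟩)
    (fun y hy => by
      rw [mem_Icc] at hy
      linarith [abs_le.1 ((col 0 (by omega) (by omega)).far hMX hXY (a := 0) (b := y) (by omega)
        (by omega) (by omega) (by omega))])
    (fun y hy => by
      rw [mem_Icc] at hy
      linarith [abs_le.1 ((col (2 * m + 2) (by omega) (by omega)).far hMX hXY (a := 0) (b := y)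
        (by omega) (by omega) (by omega) (by omega))])
    (fun y hy => by
      rw [mem_Icc] at hy
      linarith [abs_le.1 ((row 0 (by omega) (by omega)).far hMX hXY (a := 0) (b := y) (by omega)
        (by omega) (by omega) (by omega))])
    (fun y hy => by
      rw [mem_Icc] at hy
      linarith [abs_le.1 ((row 0 (by omega) (by omega)).far hMX hXY (a := 2 * m + 2) (b := y)
        (by omega) (by omega) (by omega) (by omega))])
    (by
      by_contra hc
      have a := abs_le.1 ((row 0 (by omega) (by omega)).seg' hMX (a := 0) (b := 2 * m + 2)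
        (by omega) (by omega) (by omega))
      have b : (cnt (fun x => w (x, 0, false)) Y 0 (2 * m + 2) : ℝ) ≤ 2 * m := by
        exact_mod_cast (by omega : cnt (fun x => w (x, 0, false)) Y 0 (2 * m + 2) ≤ 2 * m)
      push_cast at a
      nlinarith)
    (fun hc => by
      have a := abs_le.1 ((col 0 (by omega) (by omega)).seg' hMX (a := 0) (b := m + 1)
        (by omega) (by omega) (by omega))
      have e := cnt_add (fun y => w (0, y, true)) Y (a := 0) (b := m + 1) (c := ρ) (by omega)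
        (by omega)
      have b : (cnt (fun y => w (0, y, true)) Y 0 (m + 1) : ℝ) ≤ m := by
        exact_mod_cast (by omega : cnt (fun y => w (0, y, true)) Y 0 (m + 1) ≤ m)
      push_cast at a
      nlinarith)
    (fun hc => by
      have a := abs_le.1 ((col (2 * m + 2) (by omega) (by omega)).seg' hMX (a := 0) (b := m + 1)
        (by omega) (by omega) (by omega))
      have e := cnt_add (fun y => w (2 * m + 2, y, true)) Y (a := 0) (b := m + 1) (c := ρ)
        (by omega) (by omega)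
      have b : (cnt (fun y => w (2 * m + 2, y, true)) Y 0 (m + 1) : ℝ) ≤ m := by
        exact_mod_cast (by omega : cnt (fun y => w (2 * m + 2, y, true)) Y 0 (m + 1) ≤ m)
      push_cast at a
      nlinarith)
    (fun h1 h2 => by
      have a := abs_le.1 ((row 0 (by omega) (by omega)).seg hM.le hX0.le (by linarith)
        (a := 0) (b := m + 1) (by omega) (by omega) (by omega))
      have a' := abs_le.1 ((row 0 (by omega) (by omega)).seg hM.le hX0.le (by linarith)
        (a := m + 1) (b := 2 * m + 2) (by omega) (by omega) (by omega))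
      have e := cnt_add (fun x => w (x, 0, false)) Y (a := 0) (b := m + 1) (c := 2 * m + 2)
        (by omega) (by omega)
      have e' := cnt_add (fun x => w (x, 0, false)) X (a := 0) (b := m + 1) (c := 2 * m + 2)
        (by omega) (by omega)
      rw [show cnt (fun x => w (x, 0, false)) X 0 (m + 1) = 0 by omega] at a
      rw [show cnt (fun x => w (x, 0, false)) X (m + 1) (2 * m + 2) = 0 by omega] at a'
      have l1 := ln 0 (m + 1) (by omega) (by omega)
      have l2 := ln (m + 1) (2 * m + 2) (by omega) (by omega)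
      by_cases hc : cnt (fun x => w (x, 0, false)) Y 0 (m + 1) ≤ m
      · left
        have b : (cnt (fun x => w (x, 0, false)) Y 0 (m + 1) : ℝ) ≤ m := by exact_mod_cast hc
        have := mul_le_mul_of_nonneg_left b (by linarith : 0 ≤ Y)
        simp only [Nat.cast_zero] at a
        linarith
      · right
        have b : (cnt (fun x => w (x, 0, false)) Y (m + 1) (2 * m + 2) : ℝ) ≤ m := by
          exact_mod_cast (by omega : cnt (fun x => w (x, 0, false)) Y (m + 1) (2 * m + 2) ≤ m)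
        have := mul_le_mul_of_nonneg_left b (by linarith : 0 ≤ Y)
        simp only [Nat.cast_zero] at a'
        linarith)
  have e1 : ∀ (u : ℤ → ℝ) (Q : ℝ), cnt u Q (-ρ) 0 + cnt u Q 0 (2 * m + 2) + cnt u Q (2 * m + 2) ρ =
      cnt u Q (-ρ) ρ := fun u Q => by
    rw [← cnt_add u Q (by omega) (by omega), ← cnt_add u Q (by omega) (by omega)]
  have e2 : ∀ (u : ℤ → ℝ) (Q : ℝ), cnt u Q 0 ρ + cnt u Q (-ρ) 0 = cnt u Q (-ρ) ρ := fun u Q => by
    rw [add_comm, ← cnt_add u Q (by omega) (by omega)]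
  simp only [e1, e2] at key
  have k1 := cnt_sum_le w hρ.2.le X
  have k2 := cnt_sum_le w hρ.2.le Y
  omega

end Pool.Agent.H44.FPP
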