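import Pool.Agent.H44.FEDefs

/-! First-passage percolation on the `d`-dimensional integer lattice. -/

namespace Pool.Agent.H44.FPP

open Pool.Agent.H44.FE

/-- first-passage time; only the weights of lattice edges are used -/
noncomputable def T {d : ℕ} (τ : Sym2 (Fin d → ℤ) → ℝ) (u v : Fin d → ℤ) : ℝ :=
  ⨅ w : (Zd d).Walk u v, (w.edges.map τ).sum

/-- `a_{0,n}` -/
noncomputable def a0 {d : ℕ} [NeZero d] (τ : Sym2 (Fin d → ℤ) → ℝ) (n : ℕ) : ℝ :=
  T τ 0 (Pi.single 0 (n : ℤ))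

end Pool.Agent.H44.FPP
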