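import Pool.Agent.H44.FPP2
import Pool.Agent.H44.FPPDefs
import Pool.Agent.H44.FE1

/-! Passage times on the square lattice: potentials and the favourable configuration. -/

open Finset

namespace Pool.Agent.H44.FPP

open Pool.Agent.H44.FE

lemma walk_ne {d : ℕ} (v : Fin d → ℤ) : Nonempty ((Zd d).Walk 0 v) :=
  zd_ind (P := fun v => (Zd d).Reachable 0 v) (SimpleGraph.Reachable.refl _)
    (fun x a ha h => h.trans (adj_iff.2 (by rwa [add_sub_cancel_left])).reachable) v

lemma bdd {d : ℕ} {τ : Sym2 (Fin d → ℤ) → ℝ} (h : ∀ e, 0 ≤ τ e) (u v : Fin d → ℤ) :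
    BddBelow (Set.range fun w : (Zd d).Walk u v => (w.edges.map τ).sum) :=
  ⟨0, by
    rintro _ ⟨w, rfl⟩
    exact List.sum_nonneg fun x hx => by
      obtain ⟨e, -, rfl⟩ := List.mem_map.1 hx
      exact h e⟩

lemma T_self {d : ℕ} {τ : Sym2 (Fin d → ℤ) → ℝ} (h : ∀ e, 0 ≤ τ e) : T τ 0 0 = 0 := by
  refine le_antisymm ((ciInf_le (bdd h 0 0) .nil).trans (by simp)) (Real.iInf_nonneg fun w => ?_)
  exact List.sum_nonneg fun x hx => by
    obtain ⟨e, -, rfl⟩ := List.mem_map.1 hx
    exact h e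

lemma T_le {d : ℕ} {τ : Sym2 (Fin d → ℤ) → ℝ} (h : ∀ e, 0 ≤ τ e) {v w : Fin d → ℤ}
    (a : (Zd d).Adj v w) : T τ 0 w - τ s(v, w) ≤ T τ 0 v := by
  have := walk_ne v
  refine le_ciInf fun p => ?_
  have := ciInf_le (bdd h 0 w) (p.concat a)
  simp only [SimpleGraph.Walk.edges_concat, List.concat_eq_append, List.map_append, List.sum_append,
    List.map_cons, List.map_nil, List.sum_cons, List.sum_nil, add_zero] at this
  unfold T
  linarith

lemma T_lip {d : ℕ} {τ : Sym2 (Fin d → ℤ) → ℝ} (h : ∀ e, 0 ≤ τ e) {v w : Fin d → ℤ}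
    (a : (Zd d).Adj v w) : |T τ 0 w - T τ 0 v| ≤ τ s(v, w) := by
  have h1 := T_le h a
  have h2 := T_le h a.symm
  rw [Sym2.eq_swap] at h2
  rw [abs_le]; constructor <;> linarith

lemma pot_le {d : ℕ} {τ : Sym2 (Fin d → ℤ) → ℝ} (ψ : (Fin d → ℤ) → ℝ)
    (h : ∀ u v, (Zd d).Adj u v → ψ v - ψ u ≤ τ s(u, v)) (v : Fin d → ℤ) : ψ v - ψ 0 ≤ T τ 0 v := by
  have := walk_ne v
  refine le_ciInf fun p => ?_
  generalize (0 : Fin d → ℤ) = u at p
  induction p with
  | nil => simp
  | cons a p ih =>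
    simp only [SimpleGraph.Walk.edges_cons, List.map_cons, List.sum_cons]
    linarith [h _ _ a, ih this]

def ed (i : Ix) : Sym2 (Fin 2 → ℤ) :=
  s(![i.1, i.2.1], if i.2.2 then ![i.1, i.2.1 + 1] else ![i.1 + 1, i.2.1])

lemma ed_inj : Function.Injective ed := by
  rintro ⟨x, y, b⟩ ⟨x', y', b'⟩ h
  cases b <;> cases b' <;>
    simp only [ed, Sym2.eq_iff, Matrix.vecCons_inj, and_true, if_true, Bool.false_eq_true,
      if_false, Prod.mk.injEq, Bool.true_eq_false, and_false] at h ⊢ <;> omega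

lemma adjH (x y : ℤ) : (Zd 2).Adj ![x, y] ![x + 1, y] := by
  change ∑ i, _ = _
  simp [Fin.sum_univ_two]

lemma adjV (x y : ℤ) : (Zd 2).Adj ![x, y] ![x, y + 1] := by
  change ∑ i, _ = _
  simp [Fin.sum_univ_two]

lemma pot2 {τ : Sym2 (Fin 2 → ℤ) → ℝ} (ψ : ℤ → ℤ → ℝ)
    (hh : ∀ x y, |ψ (x + 1) y - ψ x y| ≤ τ (ed (x, y, false)))
    (hv : ∀ x y, |ψ x (y + 1) - ψ x y| ≤ τ (ed (x, y, true))) (n : ℕ) :
    ψ n 0 - ψ 0 0 ≤ a0 τ n := by
  have := pot_le (τ := τ) (fun v => ψ (v 0) (v 1)) (fun u v huv => ?_) (Pi.single 0 (n : ℤ))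
  · simpa [a0] using this
  obtain ⟨i, s, hs, e⟩ := adj_iff.1 huv
  have e0 := congrFun e 0
  have e1 := congrFun e 1
  have hu : u = ![u 0, u 1] := by ext i; fin_cases i <;> rfl
  have hv' : v = ![v 0, v 1] := by ext i; fin_cases i <;> rfl
  rw [hu, hv']
  generalize u 0 = a at *
  generalize u 1 = b at *
  generalize v 0 = a' at *
  generalize v 1 = b' at *
  subst hu hv'
  fin_cases i <;> rcases hs with rfl | rfl <;> simp at e0 e1
  · obtain rfl : a' = a + 1 := by omega
    obtain rfl : b' = b := by omega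
    exact (abs_le.1 (hh _ _)).2
  · obtain rfl : a = a' + 1 := by omega
    obtain rfl : b' = b := by omega
    have := (abs_le.1 (hh a' b')).1
    rw [Sym2.eq_swap]
    simp only [ed, Bool.false_eq_true, if_false] at this
    simp only [Matrix.cons_val_zero, Matrix.cons_val_one]
    linarith
  · obtain rfl : b' = b + 1 := by omega
    obtain rfl : a' = a := by omega
    exact (abs_le.1 (hv _ _)).2
  · obtain rfl : b = b' + 1 := by omega
    obtain rfl : a' = a := by omega
    have := (abs_le.1 (hv a' b')).1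
    rw [Sym2.eq_swap]
    simp only [ed, if_true] at this
    simp only [Matrix.cons_val_zero, Matrix.cons_val_one]
    linarith

/-- edges between the spheres of radii `j`, `j + 1` around `(c, 0)` -/
noncomputable def lev (c : ℤ) (j : ℕ) : Finset Ix :=
  (Icc (-(j : ℤ)) j ×ˢ (univ : Finset (Bool × Bool))).image fun p =>
    if p.2.2 then (c + p.1, if p.2.1 then j - |p.1| else -(j - |p.1|) - 1, true)
    else (c + if p.2.1 then j - |p.1| else -(j - |p.1|) - 1, p.1, false)

lemma lev_card (c : ℤ) (j : ℕ) : (lev c j).card ≤ 8 * j + 4 := by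
  refine card_image_le.trans ?_
  rw [card_product, Int.card_Icc]
  simp only [card_univ, Fintype.card_prod, Fintype.card_bool]
  omega

lemma levH {c x y : ℤ} {j : ℕ} (h : min ((x - c).natAbs + y.natAbs)
    ((x + 1 - c).natAbs + y.natAbs) = j) : (x, y, false) ∈ lev c j := by
  have := Int.natCast_natAbs y
  by_cases hx : c ≤ x
  · refine mem_image.2 ⟨(y, true, false), by simp; omega, ?_⟩
    simp; omega
  · refine mem_image.2 ⟨(y, false, false), by simp; omega, ?_⟩
    simp; omega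

lemma levV {c x y : ℤ} {j : ℕ} (h : min ((x - c).natAbs + y.natAbs)
    ((x - c).natAbs + (y + 1).natAbs) = j) : (x, y, true) ∈ lev c j := by
  have := Int.natCast_natAbs (x - c)
  by_cases hx : 0 ≤ y
  · refine mem_image.2 ⟨(x - c, true, true), by simp; omega, ?_⟩
    simp; omega
  · refine mem_image.2 ⟨(x - c, false, true), by simp; omega, ?_⟩
    simp; omega

noncomputable def SY (m : ℕ) : Finset Ix :=
  insert ((m : ℤ), 0, false) ((range m).biUnion fun j => lev 0 j ∪ lev (2 * m + 1) j)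

noncomputable def SX (m : ℕ) : Finset Ix :=
  (lev 0 m).erase ((m : ℤ), 0, false) ∪ (lev (2 * m + 1) m).erase ((m : ℤ), 0, false)

lemma SY_card (m : ℕ) : (SY m).card ≤ 8 * m ^ 2 + 1 := by
  refine (card_insert_le _ _).trans (Nat.succ_le_succ (card_biUnion_le.trans ?_))
  refine (sum_le_sum (g := fun j => 16 * j + 8) fun j _ => (card_union_le _ _).trans ?_).trans ?_
  · have := lev_card 0 j; have := lev_card (2 * m + 1) j; omega
  · generalize m = k
    induction k with
    | zero => simp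
    | succ k ih => rw [sum_range_succ]; nlinarith

lemma SX_card (m : ℕ) : (SX m).card ≤ 16 * m + 6 := by
  refine (card_union_le _ _).trans ?_
  rw [card_erase_of_mem (levH (by omega)), card_erase_of_mem (levH (by omega))]
  have := lev_card 0 m; have := lev_card (2 * m + 1) m; omega

noncomputable def ps (m : ℕ) (X Y : ℝ) (a b : ℕ) : ℝ :=
  if a ≤ m then Y * a else if b ≤ m then 2 * m * Y + 2 * X + 1 - Y * b
  else if b = m + 1 then m * Y + X + 1 else m * Y + X

lemma ps_lip {m : ℕ} {X Y τ : ℝ} (hX : 1 ≤ X) (hY : 2 * X + 1 ≤ Y) {a b a' b' : ℕ}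
    (ha : a' = a + 1 ∨ a = a' + 1) (hb : b' = b + 1 ∨ b = b' + 1) (s : 2 * m + 1 ≤ a + b)
    (s' : 2 * m + 1 ≤ a' + b') (p : (a + b) % 2 = 1) (h0 : 1 ≤ τ)
    (h1 : min a a' < m → Y ≤ τ) (h2 : min b b' < m → Y ≤ τ) (h3 : min a a' = m → X ≤ τ)
    (h4 : min b b' = m → X ≤ τ) (h5 : min a a' = m → min b b' = m → Y ≤ τ) :
    |ps m X Y a' b' - ps m X Y a b| ≤ τ := by
  unfold ps
  rw [abs_le]
  by_cases c1 : min a a' < m
  · have := h1 c1
    rw [if_pos (by omega), if_pos (by omega)]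
    rcases ha with rfl | rfl <;> push_cast <;> constructor <;> linarith
  by_cases c2 : min b b' < m
  · have := h2 c2
    rw [if_neg (by omega), if_pos (by omega), if_neg (by omega), if_pos (by omega)]
    rcases hb with rfl | rfl <;> push_cast <;> constructor <;> linarith
  by_cases c3 : min a a' = m
  · by_cases c4 : min b b' = m
    · have := h5 c3 c4
      rcases ha with rfl | rfl
      · obtain rfl : a = m := by omega
        obtain rfl : b' = a := by omega
        rw [if_neg (by omega), if_pos le_rfl, if_pos le_rfl]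
        constructor <;> linarith
      · obtain rfl : a' = m := by omega
        obtain rfl : b = a' := by omega
        rw [if_pos le_rfl, if_neg (by omega), if_pos le_rfl]
        constructor <;> linarith
    · have := h3 c3
      rcases ha with rfl | rfl
      · obtain rfl : a = m := by omega
        rw [if_neg (by omega), if_neg (by omega), if_neg (by omega), if_pos le_rfl]
        constructor <;> linarith
      · obtain rfl : a' = m := by omega
        rw [if_pos le_rfl, if_neg (by omega), if_neg (by omega), if_neg (by omega)]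
        constructor <;> linarith
  by_cases c4 : min b b' = m
  · have := h4 c4
    rcases hb with rfl | rfl
    · obtain rfl : b = m := by omega
      rw [if_neg (by omega), if_neg (by omega), if_pos rfl, if_neg (by omega), if_pos le_rfl]
      constructor <;> linarith
    · obtain rfl : b' = m := by omega
      rw [if_neg (by omega), if_pos le_rfl, if_neg (by omega), if_neg (by omega), if_pos rfl]
      constructor <;> linarith
  rw [if_neg (by omega), if_neg (by omega), if_neg (by omega : ¬ a ≤ m),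
    if_neg (by omega : ¬ b ≤ m)]
  split_ifs <;> constructor <;> linarith

theorem lower {m : ℕ} {X Y : ℝ} (hX : 1 ≤ X) (hY : 2 * X + 1 ≤ Y) {τ : Sym2 (Fin 2 → ℤ) → ℝ}
    (h0 : ∀ e, 1 ≤ τ e) (h1 : ∀ i ∈ SY m, Y ≤ τ (ed i)) (h2 : ∀ i ∈ SX m, X ≤ τ (ed i)) :
    2 * m * Y + 2 * X + 1 ≤ a0 τ (2 * m + 1) := by
  have k1 : ∀ j < m, ∀ i ∈ lev 0 j, Y ≤ τ (ed i) := fun j hj i hi =>
    h1 i (mem_insert_of_mem (mem_biUnion.2 ⟨j, mem_range.2 hj, mem_union_left _ hi⟩))
  have k2 : ∀ j < m, ∀ i ∈ lev (2 * m + 1) j, Y ≤ τ (ed i) := fun j hj i hi =>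
    h1 i (mem_insert_of_mem (mem_biUnion.2 ⟨j, mem_range.2 hj, mem_union_right _ hi⟩))
  have k0 := h1 _ (mem_insert_self _ _)
  have k3 : ∀ i ∈ lev 0 m, X ≤ τ (ed i) := fun i hi => by
    by_cases e : i = ((m : ℤ), 0, false)
    · rw [e]; linarith
    · exact h2 i (mem_union_left _ (mem_erase.2 ⟨e, hi⟩))
  have k4 : ∀ i ∈ lev (2 * m + 1) m, X ≤ τ (ed i) := fun i hi => by
    by_cases e : i = ((m : ℤ), 0, false)
    · rw [e]; linarith
    · exact h2 i (mem_union_right _ (mem_erase.2 ⟨e, hi⟩))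
  have := pot2 (τ := τ) (fun x y => ps m X Y ((x - 0).natAbs + y.natAbs)
    ((x - (2 * m + 1)).natAbs + y.natAbs))
    (fun x y => ps_lip hX hY (by omega) (by omega) (by omega) (by omega) (by omega) (h0 _)
      (fun h => k1 _ h _ (levH rfl)) (fun h => k2 _ h _ (levH rfl)) (fun h => k3 _ (levH h))
      (fun h => k4 _ (levH h)) fun h h' => by
        obtain rfl : x = m := by omega
        obtain rfl : y = 0 := by omega
        exact k0)
    (fun x y => ps_lip hX hY (by omega) (by omega) (by omega) (by omega) (by omega) (h0 _)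
      (fun h => k1 _ h _ (levV rfl)) (fun h => k2 _ h _ (levV rfl)) (fun h => k3 _ (levV h))
      (fun h => k4 _ (levV h)) fun h h' => by omega) (2 * m + 1)
  unfold ps at this
  rw [if_neg (by omega), if_pos (by omega), if_pos (by omega)] at this
  simpa using this

theorem upper {m K : ℕ} {R : ℤ} (hm : 1 ≤ m) (hR : R = 4 * m + 4 + K) {M X Y : ℝ} (hM : 0 < M)
    (hX : 40 * R * M ≤ X) (hY : 40 * R * X ≤ Y) {τ : Sym2 (Fin 2 → ℤ) → ℝ} (h0 : ∀ e, 0 ≤ τ e)
    (hval : ∀ i ∈ EE R, τ (ed i) ≤ M ∨ τ (ed i) = X ∨ τ (ed i) = Y)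
    (ht : 2 * m * Y + 2 * X < a0 τ (2 * m + 1 + 1)) :
    K ≤ (mk (τ ∘ ed) R X ∪ mk (τ ∘ ed) R Y).card ∨ 8 * m ^ 2 + 2 ≤ (mk (τ ∘ ed) R Y).card ∨
      (8 * m ^ 2 + 1 ≤ (mk (τ ∘ ed) R Y).card ∧ 16 * m + 7 ≤ (mk (τ ∘ ed) R X).card) := by
  refine det hm hR hM hX hY (φ := fun x y => T τ 0 ![x, y]) (fun x y => T_lip h0 (adjH x y))
    (fun x y => T_lip h0 (adjV x y)) hval ?_ ?_
  · have : (![0, 0] : Fin 2 → ℤ) = 0 := by ext i; fin_cases i <;> rfl
    simp only [this, T_self h0]
  · have : (![2 * m + 2, 0] : Fin 2 → ℤ) = Pi.single 0 ((2 * m + 1 + 1 : ℕ) : ℤ) := by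
      ext i; fin_cases i <;> simp; ring
    simpa only [this, a0] using ht

end Pool.Agent.H44.FPP
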