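import Pool.Agent.H44.FPP3

/-! Probability estimates at one scale, and the multiscale law. -/

open Set MeasureTheory
open scoped ENNReal

namespace Pool.Agent.H44.FPP

noncomputable abbrev PP (F : Measure ℝ) : Measure (Sym2 (Fin 2 → ℤ) → ℝ) :=
  Measure.infinitePi fun _ => F

def Cyl (X Y : ℝ) (S1 S2 : Finset Ix) : Set (Sym2 (Fin 2 → ℤ) → ℝ) :=
  {τ | (∀ i ∈ S1, Y ≤ τ (ed i)) ∧ ∀ i ∈ S2, X ≤ τ (ed i)}

variable (F : Measure ℝ) [IsProbabilityMeasure F]

lemma cyl_prob (X Y : ℝ) {S1 S2 : Finset Ix} (h : Disjoint S1 S2) :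
    PP F (Cyl X Y S1 S2) = F (Ici Y) ^ S1.card * F (Ici X) ^ S2.card := by
  classical
  have e : Cyl X Y S1 S2 = Set.pi ((S1 ∪ S2).image ed : Finset _)
      fun e => if e ∈ S1.image ed then Ici Y else Ici X := by
    ext τ
    simp only [Cyl, mem_ofPred_eq, mem_pi, Finset.coe_image, forall_mem_image, Finset.mem_coe,
      Finset.mem_union, ed_inj.mem_finset_image]
    constructor
    · rintro ⟨h1, h2⟩ i hi
      split_ifs with h3
      · exact h1 i h3
      · exact h2 i (hi.resolve_left h3)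
    · intro h1
      refine ⟨fun i hi => ?_, fun i hi => ?_⟩
      · simpa [hi] using h1 (Or.inl hi)
      · simpa [Finset.disjoint_right.1 h hi] using h1 (Or.inr hi)
  rw [e, Measure.infinitePi_pi _ fun e _ => by split_ifs <;> exact measurableSet_Ici,
    Finset.prod_image ed_inj.injOn, Finset.prod_union h, ← Finset.prod_const, ← Finset.prod_const]
  congr 1
  · exact Finset.prod_congr rfl fun i hi => by simp [ed_inj.mem_finset_image, hi]
  · exact Finset.prod_congr rfl fun i hi => by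
      simp [ed_inj.mem_finset_image, Finset.disjoint_right.1 h hi]

def Ev (X Y : ℝ) (E : Finset Ix) (a b : ℕ) : Set (Sym2 (Fin 2 → ℤ) → ℝ) :=
  {τ | ∃ S1 ⊆ E, ∃ S2 ⊆ E, Disjoint S1 S2 ∧ S1.card = a ∧ S2.card = b ∧ τ ∈ Cyl X Y S1 S2}

lemma ev_prob (X Y : ℝ) (E : Finset Ix) (a b : ℕ) :
    PP F (Ev X Y E a b) ≤ 4 ^ E.card * (F (Ici Y) ^ a * F (Ici X) ^ b) := by
  classical
  have e : Ev X Y E a b ⊆ ⋃ p ∈ (E.powerset ×ˢ E.powerset).filter
      (fun p => Disjoint p.1 p.2 ∧ p.1.card = a ∧ p.2.card = b), Cyl X Y p.1 p.2 := by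
    rintro τ ⟨S1, h1, S2, h2, h3, h4, h5, h6⟩
    exact mem_biUnion (x := (S1, S2)) (by simp [*]) h6
  refine (measure_mono e).trans ((measure_biUnion_finset_le _ _).trans ?_)
  refine (Finset.sum_le_card_nsmul _ _ (F (Ici Y) ^ a * F (Ici X) ^ b) fun p hp => ?_).trans ?_
  · obtain ⟨-, h1, h2, h3⟩ := Finset.mem_filter.1 hp
    rw [cyl_prob F X Y h1, h2, h3]
  · rw [nsmul_eq_mul]
    gcongr
    have := Finset.card_filter_le (E.powerset ×ˢ E.powerset)
      (fun p => Disjoint p.1 p.2 ∧ p.1.card = a ∧ p.2.card = b)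
    rw [Finset.card_product, Finset.card_powerset, ← mul_pow] at this
    exact_mod_cast this

def BB (m : ℕ) : ℕ := 16 * m + 7
def KK (m : ℕ) : ℕ := BB m * (8 * m ^ 2 + 2)
def RR (m : ℕ) : ℕ := 4 * m + 4 + KK m
noncomputable def CC (m : ℕ) : ℕ := 4 ^ (EE (RR m)).card

theorem step {m : ℕ} (hm : 1 ≤ m) {M X Y Z : ℝ} (hM : 1 ≤ M) (hX : 40 * RR m * M ≤ X)
    (hY : 40 * RR m * X ≤ Y) (hZ : Y ≤ Z) {ε : ℝ≥0∞} (h0 : ε ≠ 0) (h1 : 4 * CC m * ε < 1)
    (fX : F (Ici X) = ε) (fY : F (Ici Y) = ε ^ BB m) (fZ : F (Ici Z) ≤ ε ^ KK m)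
    (hF : ∀ᵐ x ∂F, 1 ≤ x ∧ (x ≤ M ∨ x = X ∨ x = Y ∨ Z ≤ x)) :
    PP F {τ | 2 * m * Y + 2 * X < a0 τ (2 * m + 1 + 1)} <
      PP F {τ | 2 * m * Y + 2 * X < a0 τ (2 * m + 1)} := by
  classical
  have hR : (1 : ℝ) ≤ RR m := by exact_mod_cast (by unfold RR; omega : 1 ≤ RR m)
  have hX1 : 40 ≤ X := by nlinarith
  have hY1 : 40 * X ≤ Y := by nlinarith
  have ae : ∀ᵐ τ ∂PP F, ∀ e, 1 ≤ τ e ∧ (τ e ≤ M ∨ τ e = X ∨ τ e = Y ∨ Z ≤ τ e) :=
    ae_all_iff.2 fun e =>
      (measurePreserving_eval_infinitePi (fun _ => F) e).quasiMeasurePreserving.ae hF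
  have e1 : ε ≤ 1 := fX ▸ prob_le_one
  have low : ε ^ (KK m - 1) ≤ PP F {τ | 2 * m * Y + 2 * X < a0 τ (2 * m + 1)} := by
    refine le_trans ?_ (measure_mono_ae (s := Cyl X Y (SY m) (SX m \ SY m)) ?_)
    · rw [cyl_prob F X Y Finset.disjoint_sdiff, fX, fY, ← pow_mul, ← pow_add]
      refine pow_le_pow_right_of_le_one' e1 ?_
      have a := Nat.mul_le_mul_left (BB m) (SY_card m)
      have b := (Finset.card_le_card (Finset.sdiff_subset (s := SX m) (t := SY m))).trans (SX_card m)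
      have : KK m = BB m * (8 * m ^ 2 + 1) + (16 * m + 7) := by unfold KK BB; ring
      omega
    · filter_upwards [ae] with τ hτ h
      refine lt_of_lt_of_le (lt_add_one _) (lower (by linarith) (by linarith) (fun e => (hτ e).1)
        h.1 fun i hi => ?_)
      by_cases k : i ∈ SY m
      · linarith [h.1 i k]
      · exact h.2 i (Finset.mem_sdiff.2 ⟨hi, k⟩)
  set E := EE (RR m) with hE
  have up : PP F {τ | 2 * m * Y + 2 * X < a0 τ (2 * m + 1 + 1)} ≤ PP F (Ev Z Z E 1 0 ∪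
      (Ev X Y E 0 (KK m) ∪ (Ev X Y E (8 * m ^ 2 + 2) 0 ∪ Ev X Y E (8 * m ^ 2 + 1) (BB m)))) := by
    refine measure_mono_ae ?_
    filter_upwards [ae] with τ hτ h
    by_cases k : ∃ i ∈ E, Z ≤ τ (ed i)
    · obtain ⟨i, hi, k⟩ := k
      exact Or.inl ⟨{i}, by simpa, ∅, by simp, by simp, rfl, rfl, by simpa, by simp⟩
    right
    push Not at k
    have mX : ∀ i ∈ mk (τ ∘ ed) (RR m) X, i ∈ E ∧ τ (ed i) = X := fun i hi => Finset.mem_filter.1 hi
    have mY : ∀ i ∈ mk (τ ∘ ed) (RR m) Y, i ∈ E ∧ τ (ed i) = Y := fun i hi => Finset.mem_filter.1 hi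
    rcases upper (K := KK m) (R := RR m) (M := M) hm (by unfold RR; push_cast; ring) (by linarith)
      (by exact_mod_cast hX) (by exact_mod_cast hY) (fun e => by linarith [(hτ e).1])
      (fun i hi => by
        rcases (hτ (ed i)).2 with a | a | a | a
        · exact Or.inl a
        · exact Or.inr (Or.inl a)
        · exact Or.inr (Or.inr a)
        · exact absurd a (not_le.2 (k i hi))) h with a | a | ⟨a, b⟩
    · obtain ⟨S, s1, s2⟩ := Finset.exists_subset_card_eq a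
      refine Or.inl ⟨∅, by simp, S, fun i hi => ?_, by simp, rfl, s2, by simp, fun i hi => ?_⟩
      · rcases Finset.mem_union.1 (s1 hi) with c | c
        exacts [(mX i c).1, (mY i c).1]
      · rcases Finset.mem_union.1 (s1 hi) with c | c
        · exact (mX i c).2.ge
        · linarith [(mY i c).2]
    · obtain ⟨S, s1, s2⟩ := Finset.exists_subset_card_eq a
      exact Or.inr (Or.inl ⟨S, fun i hi => (mY i (s1 hi)).1, ∅, by simp, by simp, s2, rfl,
        fun i hi => (mY i (s1 hi)).2.ge, by simp⟩)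
    · obtain ⟨S, s1, s2⟩ := Finset.exists_subset_card_eq a
      obtain ⟨S', s1', s2'⟩ := Finset.exists_subset_card_eq b
      exact Or.inr (Or.inr ⟨S, fun i hi => (mY i (s1 hi)).1, S', fun i hi => (mX i (s1' hi)).1,
        Finset.disjoint_left.2 fun i c c' => by linarith [(mY i (s1 c)).2, (mX i (s1' c')).2],
        s2, s2', fun i hi => (mY i (s1 hi)).2.ge, fun i hi => (mX i (s1' hi)).2.ge⟩)
  have hC : (CC m : ℝ≥0∞) = 4 ^ E.card := by simp [CC, hE]
  have b1 : PP F (Ev Z Z E 1 0) ≤ CC m * ε ^ KK m := (ev_prob F ..).trans (by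
    rw [hC, pow_one, pow_zero, mul_one]; gcongr)
  have b2 : PP F (Ev X Y E 0 (KK m)) ≤ CC m * ε ^ KK m := (ev_prob F ..).trans (by
    rw [hC, fX, pow_zero, one_mul])
  have b3 : PP F (Ev X Y E (8 * m ^ 2 + 2) 0) ≤ CC m * ε ^ KK m := (ev_prob F ..).trans (by
    rw [hC, fY, pow_zero, mul_one, ← pow_mul, KK])
  have b4 : PP F (Ev X Y E (8 * m ^ 2 + 1) (BB m)) ≤ CC m * ε ^ KK m := (ev_prob F ..).trans (by
    rw [hC, fY, fX, ← pow_mul, ← pow_add, KK]; rfl)
  refine lt_of_lt_of_le (lt_of_le_of_lt (up.trans ((measure_union_le _ _).trans (add_le_add b1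
    ((measure_union_le _ _).trans (add_le_add b2 ((measure_union_le _ _).trans
      (add_le_add b3 b4))))))) ?_) low
  have hk : KK m = KK m - 1 + 1 := by
    have : 1 ≤ KK m := Nat.mul_pos (by unfold BB; omega) (by omega)
    omega
  calc _ = 4 * CC m * ε * ε ^ (KK m - 1) := by
        conv_lhs => rw [hk, pow_succ]
        ring
    _ < 1 * ε ^ (KK m - 1) := ENNReal.mul_lt_mul_left (pow_ne_zero _ h0)
        (ENNReal.pow_ne_top (ne_top_of_le_ne_top ENNReal.one_ne_top e1)) h1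
    _ = _ := one_mul _

noncomputable def vv : ℕ → ℝ
  | 0 => 1
  | j + 1 => 40 * RR (j / 2 + 1) * vv j

noncomputable def rr : ℕ → ℝ
  | 0 => 1
  | j + 1 => if j % 2 = 1 then rr j ^ BB (j / 2 + 1) else rr j ^ KK (j / 2) / (5 * CC (j / 2 + 1))

lemma RR_ge (m : ℕ) : (1 : ℝ) ≤ RR m := by exact_mod_cast (by unfold RR; omega : 1 ≤ RR m)

lemma CC_ge (m : ℕ) : (1 : ℝ) ≤ CC m := by exact_mod_cast Nat.one_le_pow _ _ (by norm_num)

lemma vv_ge (j : ℕ) : 1 ≤ vv j := by
  induction j with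
  | zero => exact le_rfl
  | succ j ih => rw [vv]; nlinarith [RR_ge (j / 2 + 1)]

lemma vv_mono : StrictMono vv := strictMono_nat_of_lt_succ fun j => by
  rw [vv]; nlinarith [RR_ge (j / 2 + 1), vv_ge j]

lemma rr_spec (j : ℕ) : 0 < rr j ∧ rr j ≤ 1 ∧ (j ≠ 0 → rr j ≤ 1 / 2) ∧ rr (j + 1) ≤ rr j / 2 := by
  have key : ∀ j, 0 < rr j → rr j ≤ 1 → (j ≠ 0 → rr j ≤ 1 / 2) →
      0 < rr (j + 1) ∧ rr (j + 1) ≤ rr j / 2 := fun j h1 h2 h3 => by
    have c := CC_ge (j / 2 + 1)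
    rw [rr]
    split_ifs with h
    · refine ⟨by positivity, ?_⟩
      have := pow_le_pow_of_le_one h1.le h2 (show 2 ≤ BB (j / 2 + 1) by unfold BB; omega)
      nlinarith [h3 (by omega)]
    · refine ⟨by positivity, ?_⟩
      have := pow_le_pow_of_le_one h1.le h2
        (show 1 ≤ KK (j / 2) from Nat.mul_pos (by unfold BB; omega) (by omega))
      rw [div_le_iff₀ (by positivity)]
      nlinarith
  induction j with
  | zero => exact ⟨one_pos, le_rfl, fun h => absurd rfl h,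
      (key 0 one_pos le_rfl fun h => absurd rfl h).2⟩
  | succ j ih =>
    obtain ⟨a, b, c, d⟩ := ih
    have e := (key j a b c).1
    exact ⟨e, by linarith, fun _ => by linarith, (key _ e (by linarith) fun _ => by linarith).2⟩

lemma rr_anti : Antitone rr := antitone_nat_of_succ_le fun j => by
  obtain ⟨a, -, -, b⟩ := rr_spec j; linarith

lemma rr_small {u : ℝ} (hu : 0 < u) : ∃ j, rr (j + 1) < u := by
  obtain ⟨n, hn⟩ := exists_pow_lt_of_lt_one hu (by norm_num : (1 / 2 : ℝ) < 1)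
  have : ∀ j, rr j ≤ (1 / 2) ^ j := fun j => by
    induction j with
    | zero => simp [rr]
    | succ j ih => rw [pow_succ]; linarith [(rr_spec j).2.2.2]
  exact ⟨n, ((rr_anti n.le_succ).trans (this n)).trans_lt hn⟩

noncomputable def NN (u : ℝ) : ℕ := sInf {j | rr (j + 1) < u}

lemma NN_pre (j : ℕ) : NN ⁻¹' Ici (j + 1) = Ioc 0 (rr (j + 1)) := by
  ext u
  simp only [mem_preimage, mem_Ici, mem_Ioc, NN]
  constructor
  · intro h
    have ne : {j | rr (j + 1) < u}.Nonempty := by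
      by_contra hc
      rw [not_nonempty_iff_eq_empty.1 hc, Nat.sInf_empty] at h
      omega
    obtain ⟨k, hk⟩ := ne
    exact ⟨(rr_spec _).1.trans hk, not_lt.1 (Nat.notMem_of_lt_sInf h)⟩
  · rintro ⟨h1, h2⟩
    by_contra hc
    have : rr (sInf {j | rr (j + 1) < u} + 1) < u :=
      Nat.sInf_mem (s := {j | rr (j + 1) < u}) (rr_small h1)
    exact absurd ((rr_anti (by omega)).trans_lt this) (not_lt.2 h2)

lemma NN_meas : Measurable NN := measurable_of_Ici fun j => by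
  cases j with
  | zero => simp
  | succ j => rw [NN_pre]; exact measurableSet_Ioc

lemma vN_meas : Measurable (vv ∘ NN) := (measurable_of_countable vv).comp NN_meas

noncomputable def FF : Measure ℝ := (volume.restrict (Ioc (0 : ℝ) 1)).map (vv ∘ NN)

instance : IsProbabilityMeasure FF := by
  have : IsProbabilityMeasure (volume.restrict (Ioc (0 : ℝ) 1)) := ⟨by simp⟩
  exact Measure.isProbabilityMeasure_map vN_meas.aemeasurable

lemma FF_Ici (j : ℕ) : FF (Ici (vv (j + 1))) = ENNReal.ofReal (rr (j + 1)) := by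
  have : (vv ∘ NN) ⁻¹' Ici (vv (j + 1)) = Ioc 0 (rr (j + 1)) := by
    rw [← NN_pre]; ext u; simp [vv_mono.le_iff_le]
  rw [FF, Measure.map_apply vN_meas measurableSet_Ici, this,
    Measure.restrict_apply measurableSet_Ioc,
    inter_eq_left.2 (Ioc_subset_Ioc_right (rr_spec _).2.1)]
  simp

lemma FF_ae : ∀ᵐ x ∂FF, x ∈ range vv :=
  (ae_map_iff vN_meas.aemeasurable (countable_range vv).measurableSet).2
    (.of_forall fun _ => ⟨_, rfl⟩)

theorem fpp_main : FF (Iio 0) = 0 ∧ ∀ N, ∃ n ≥ N, ∃ t : ℝ,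
    PP FF {τ | t < a0 τ (n + 1)} < PP FF {τ | t < a0 τ n} := by
  refine ⟨measure_eq_zero_iff_ae_notMem.2 ?_, fun k => ⟨2 * (k + 1) + 1, by omega, _, step FF
    (m := k + 1) (by omega) (M := vv (2 * k)) (X := vv (2 * k + 1)) (Y := vv (2 * k + 1 + 1))
    (Z := vv (2 * k + 2 + 1)) (vv_ge _) ?_ ?_ (vv_mono.monotone (by omega))
    (ε := ENNReal.ofReal (rr (2 * k + 1))) (by simpa using (rr_spec _).1) ?_ (FF_Ici _) ?_ ?_ ?_⟩⟩
  · filter_upwards [FF_ae]
    rintro _ ⟨j, rfl⟩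
    simp only [mem_Iio, not_lt]
    linarith [vv_ge j]
  · rw [vv, show 2 * k / 2 = k by omega]
  · rw [vv.eq_2 (2 * k + 1), show (2 * k + 1) / 2 = k by omega]
  · have c := CC_ge (k + 1)
    have : 4 * CC (k + 1) * rr (2 * k + 1) < 1 := by
      rw [rr, if_neg (by omega), show 2 * k / 2 = k by omega, ← mul_div_assoc,
        div_lt_one (by positivity)]
      nlinarith [pow_le_one₀ (n := KK k) (rr_spec (2 * k)).1.le (rr_spec (2 * k)).2.1]
    rw [← ENNReal.ofReal_natCast, ← ENNReal.ofReal_ofNat, ← ENNReal.ofReal_mul (by norm_num),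
      ← ENNReal.ofReal_mul (by positivity)]
    exact ENNReal.ofReal_lt_one.2 this
  · rw [FF_Ici, rr.eq_2 (2 * k + 1), if_pos (by omega), show (2 * k + 1) / 2 = k by omega,
      ENNReal.ofReal_pow (rr_spec _).1.le]
  · rw [FF_Ici, ← ENNReal.ofReal_pow (rr_spec _).1.le, rr.eq_2 (2 * k + 2), if_neg (by omega),
      show (2 * k + 2) / 2 = k + 1 by omega]
    refine ENNReal.ofReal_le_ofReal ((div_le_self (pow_nonneg (rr_spec _).1.le _)
      (by linarith [CC_ge (k + 1 + 1)])).trans ?_)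
    exact pow_le_pow_left₀ (rr_spec _).1.le (rr_anti (by omega)) _
  · filter_upwards [FF_ae]
    rintro _ ⟨j, rfl⟩
    refine ⟨vv_ge j, ?_⟩
    simp only [vv_mono.le_iff_le, vv_mono.injective.eq_iff]
    omega

end Pool.Agent.H44.FPP
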