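import Pool.Agent.H44.Har

/-! Bernoulli bond percolation with parameter `1/128`: connection events, locality,
the Simon-Lieb inequality. -/

open Set Filter MeasureTheory ProbabilityTheory Measure Relation
open scoped ENNReal unitInterval

namespace Pool.Agent.H44.FZ

abbrev Cf (W : Type) : Type := Sym2 W → Bool

lemma p_mem : (1 / 128 : ℝ) ∈ I := by constructor <;> norm_num

noncomputable def rho : Measure Bool := bernoulliMeasure true false ⟨1 / 128, p_mem⟩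

instance : IsProbabilityMeasure rho := by unfold rho; infer_instance

noncomputable def PP (W : Type) : Measure (Cf W) := infinitePi fun _ => rho

instance (W : Type) : IsProbabilityMeasure (PP W) := by unfold PP; infer_instance

noncomputable def pp : ℝ≥0∞ := ENNReal.ofReal (1 / 128)
noncomputable def xx : ℝ≥0∞ := ENNReal.ofReal (127 / 128)

lemma rho_true : rho {true} = pp := by
  rw [rho, bernoulliMeasure_apply_of_mem_of_notMem _ (by simp) (by simp) (by simp), pp,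
    ENNReal.ofReal]
  congr 1
  ext
  simp [unitInterval.toNNReal]
  rfl

lemma rho_false : rho {false} = xx := by
  rw [rho, bernoulliMeasure_apply_of_notMem_of_mem _ (by simp) (by simp) (by simp), xx,
    ENNReal.ofReal]
  congr 1
  ext
  simp [unitInterval.toNNReal, unitInterval.coe_symm_eq]
  norm_num
  rfl

variable {W : Type}

lemma PP_all (E : Finset (Sym2 W)) (b : Bool) :
    PP W {ω | ∀ e ∈ E, ω e = b} = rho {b} ^ E.card := by
  have : {ω : Cf W | ∀ e ∈ E, ω e = b} = Set.pi E fun _ => {b} := by ext; simp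
  rw [this, PP, infinitePi_pi _ fun _ _ => measurableSet_singleton _, Finset.prod_const]

lemma PP_open (e : Sym2 W) : PP W {ω | ω e = true} = pp := by
  simpa [rho_true] using PP_all {e} true

/-- a measurable event depending only on the edges of `D` -/
structure DM (D : Set (Sym2 W)) (A : Set (Cf W)) : Prop where
  m : MeasurableSet A
  d : ∀ ω ω' : Cf W, (∀ e ∈ D, ω e = ω' e) → ω ∈ A → ω' ∈ A

variable {D D' : Set (Sym2 W)} {A B : Set (Cf W)}

lemma DM.mono (h : DM D A) (hD : D ⊆ D') : DM D' A :=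
  ⟨h.m, fun ω ω' e => h.d ω ω' fun i hi => e i (hD hi)⟩

lemma DM.compl (h : DM D A) : DM D Aᶜ :=
  ⟨h.m.compl, fun ω ω' e h1 h2 => h1 (h.d ω' ω (fun i hi => (e i hi).symm) h2)⟩

lemma DM.inter (h : DM D A) (h' : DM D B) : DM D (A ∩ B) :=
  ⟨h.m.inter h'.m, fun ω ω' e h1 => ⟨h.d ω ω' e h1.1, h'.d ω ω' e h1.2⟩⟩

lemma DM.union (h : DM D A) (h' : DM D B) : DM D (A ∪ B) :=
  ⟨h.m.union h'.m, fun ω ω' e h1 => h1.imp (h.d ω ω' e) (h'.d ω ω' e)⟩

lemma DM.diff (h : DM D A) (h' : DM D B) : DM D (A \ B) := h.inter h'.compl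

lemma DM.univ : DM D (univ : Set (Cf W)) := ⟨.univ, fun _ _ _ h => h⟩

lemma DM.biUnion {ι : Type} (s : Finset ι) {F : ι → Set (Cf W)} (h : ∀ i ∈ s, DM D (F i)) :
    DM D (⋃ i ∈ s, F i) :=
  ⟨s.measurableSet_biUnion fun i hi => (h i hi).m, fun ω ω' e h1 => by
    obtain ⟨i, hi, h2⟩ := mem_iUnion₂.1 h1
    exact mem_iUnion₂.2 ⟨i, hi, (h i hi).d ω ω' e h2⟩⟩

lemma DM.all (E : Finset (Sym2 W)) (b : Bool) : DM E {ω | ∀ e ∈ E, ω e = b} := by
  refine ⟨?_, fun ω ω' e h i hi => (e i hi) ▸ h i hi⟩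
  have : {ω : Cf W | ∀ e ∈ E, ω e = b} = Set.pi E fun _ => {b} := by ext; simp
  rw [this]
  exact .pi E.countable_toSet fun _ _ => measurableSet_singleton _

lemma DM.one (e : Sym2 W) (b : Bool) : DM {e} {ω | ω e = b} := by
  simpa using DM.all {e} b

lemma DM.indep (h : DM D A) (h' : DM D' B) (hD : Disjoint D D') :
    PP W (A ∩ B) = PP W A * PP W B :=
  Har.indep_of _ hD h.m h'.m
    (fun ω ω' e => propext ⟨h.d ω ω' e, h.d ω' ω fun i hi => (e i hi).symm⟩)
    (fun ω ω' e => propext ⟨h'.d ω ω' e, h'.d ω' ω fun i hi => (e i hi).symm⟩)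

def Op (H : W → W → Prop) (ω : Cf W) (a b : W) : Prop := H a b ∧ ω s(a, b) = true

/-- `x` is joined to `T` by an open path of `H` -/
def Cn (H : W → W → Prop) (x : W) (T : Set W) : Set (Cf W) :=
  {ω | ∃ y ∈ T, ReflTransGen (Op H ω) x y}

def conn (H : W → W → Prop) (ω : Cf W) (T : Set W) : ℕ → W → Prop
  | 0, x => x ∈ T
  | N + 1, x => x ∈ T ∨ ∃ z, Op H ω x z ∧ conn H ω T N z

def CnN (H : W → W → Prop) (N : ℕ) (x : W) (T : Set W) : Set (Cf W) := {ω | conn H ω T N x}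

def res (H : W → W → Prop) (S : Set W) (a b : W) : Prop := H a b ∧ a ∈ S ∧ b ∈ S

def Ed (H : W → W → Prop) : Set (Sym2 W) := {e | ∃ a b, H a b ∧ e = s(a, b)}

variable {H H' : W → W → Prop} {ω ω' : Cf W} {T T' S : Set W} {x y : W}

lemma conn_imp (h : ∀ a b, Op H ω a b → Op H' ω' a b) (hT : T ⊆ T') {N : ℕ} :
    ∀ {x}, conn H ω T N x → conn H' ω' T' N x := by
  induction N with
  | zero => exact fun h => hT h
  | succ N ih => exact fun h1 => h1.imp (@hT _) fun ⟨z, h2, h3⟩ => ⟨z, h _ _ h2, ih h3⟩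

lemma conn_succ {N : ℕ} : ∀ {x}, conn H ω T N x → conn H ω T (N + 1) x := by
  induction N with
  | zero => exact fun h => Or.inl h
  | succ N ih => exact fun h1 => h1.imp id fun ⟨z, h2, h3⟩ => ⟨z, h2, ih h3⟩

lemma conn_le {N M : ℕ} (h : N ≤ M) (h1 : conn H ω T N x) : conn H ω T M x := by
  induction h with
  | refl => exact h1
  | step _ ih => exact conn_succ ih

lemma conn_of_mem {N : ℕ} (h : x ∈ T) : conn H ω T N x := conn_le (Nat.zero_le N) h

lemma mem_Cn : ω ∈ Cn H x T ↔ ∃ N, conn H ω T N x := by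
  constructor
  · rintro ⟨y, hy, h⟩
    induction h using ReflTransGen.head_induction_on with
    | refl => exact ⟨0, hy⟩
    | head h1 _ ih => obtain ⟨N, hN⟩ := ih; exact ⟨N + 1, Or.inr ⟨_, h1, hN⟩⟩
  · rintro ⟨N, h⟩
    induction N generalizing x with
    | zero => exact ⟨x, h, .refl⟩
    | succ N ih =>
      rcases h with h | ⟨z, h1, h2⟩
      · exact ⟨x, h, .refl⟩
      · obtain ⟨y, hy, h3⟩ := ih h2
        exact ⟨y, hy, .head h1 h3⟩

lemma Cn_eq : Cn H x T = ⋃ N, CnN H N x T := by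
  ext ω; rw [mem_Cn]; simp [CnN]

lemma CnN_sub {N : ℕ} : CnN H N x T ⊆ Cn H x T := fun _ h => mem_Cn.2 ⟨N, h⟩

lemma Cn_mono (h : ∀ a b, H a b → H' a b) (hT : T ⊆ T') : Cn H x T ⊆ Cn H' x T' :=
  fun _ ⟨y, hy, h1⟩ => ⟨y, hT hy, ReflTransGen.mono (fun a b h2 => ⟨h a b h2.1, h2.2⟩) _ _ h1⟩

lemma CnN_mono (h : ∀ a b, H a b → H' a b) (hT : T ⊆ T') {N : ℕ} :
    CnN H N x T ⊆ CnN H' N x T' :=
  fun _ h1 => conn_imp (fun a b h2 => ⟨h a b h2.1, h2.2⟩) hT h1

lemma Op_symm (hs : ∀ a b, H a b → H b a) {a b : W} (h : Op H ω a b) : Op H ω b a :=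
  ⟨hs _ _ h.1, by rw [Sym2.eq_swap]; exact h.2⟩

lemma rtg_symm (hs : ∀ a b, H a b → H b a) (h : ReflTransGen (Op H ω) x y) :
    ReflTransGen (Op H ω) y x := by
  induction h with
  | refl => exact .refl
  | tail _ h2 ih => exact .head (Op_symm hs h2) ih

lemma Cn_symm (hs : ∀ a b, H a b → H b a) : Cn H x {y} = Cn H y {x} := by
  ext ω; simp only [Cn, mem_singleton_iff, exists_eq_left, mem_ofPred_eq]
  exact ⟨rtg_symm hs, rtg_symm hs⟩

lemma res_symm (hs : ∀ a b, H a b → H b a) (a b : W) (h : res H S a b) : res H S b a :=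
  ⟨hs _ _ h.1, h.2.2, h.2.1⟩

variable [Countable W]

lemma DM.cnN (H : W → W → Prop) (N : ℕ) (x : W) (T : Set W) : DM (Ed H) (CnN H N x T) := by
  refine ⟨?_, fun ω ω' e => conn_imp (fun a b h => ⟨h.1, ?_⟩) Subset.rfl⟩
  · induction N generalizing x with
    | zero => exact MeasurableSet.const (x ∈ T)
    | succ N ih =>
      have : CnN H (N + 1) x T = {_ω | x ∈ T} ∪ ⋃ z, ({_ω | H x z} ∩ {ω | ω s(x, z) = true}) ∩
          CnN H N z T := by
        ext ω; simp [CnN, conn, Op]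
      rw [this]
      exact (MeasurableSet.const _).union (.iUnion fun z =>
        ((MeasurableSet.const _).inter (DM.one _ _).m).inter (ih z))
  · rw [← e _ ⟨a, b, h.1, rfl⟩]; exact h.2

lemma DM.cn (H : W → W → Prop) (x : W) (T : Set W) : DM (Ed H) (Cn H x T) :=
  ⟨Cn_eq ▸ .iUnion fun N => (DM.cnN H N x T).m, fun ω ω' e h => by
    obtain ⟨N, hN⟩ := mem_Cn.1 h
    exact mem_Cn.2 ⟨N, (DM.cnN H N x T).d ω ω' e hN⟩⟩

omit [Countable W] in
lemma last_exit (C : Set W) {N : ℕ} : ∀ {z}, conn H ω T N z →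
    (z ∉ C ∧ conn (res H Cᶜ) ω T N z) ∨ (∃ t ∈ T, t ∈ C) ∨
      ∃ u v M, M + 1 ≤ N ∧ u ∈ C ∧ v ∉ C ∧ Op H ω u v ∧ conn (res H Cᶜ) ω T M v := by
  have h0 : ∀ {z N}, z ∈ T → (z ∉ C ∧ conn (res H Cᶜ) ω T N z) ∨ (∃ t ∈ T, t ∈ C) ∨
      ∃ u v M, M + 1 ≤ N ∧ u ∈ C ∧ v ∉ C ∧ Op H ω u v ∧ conn (res H Cᶜ) ω T M v := by
    intro z N h
    by_cases hz : z ∈ C
    · exact Or.inr (Or.inl ⟨z, h, hz⟩)
    · exact Or.inl ⟨hz, conn_of_mem h⟩
  induction N with
  | zero => exact fun h => h0 h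
  | succ N ih =>
    rintro z (h | ⟨z', h1, h2⟩)
    · exact h0 h
    rcases ih h2 with ⟨h3, h4⟩ | h3 | ⟨u, v, M, h3, h4⟩
    · by_cases hz : z ∈ C
      · exact Or.inr (Or.inr ⟨z, z', N, le_rfl, hz, h3, h1, h4⟩)
      · exact Or.inl ⟨hz, Or.inr ⟨z', ⟨⟨h1.1, hz, h3⟩, h1.2⟩, h4⟩⟩
    · exact Or.inr (Or.inl h3)
    · exact Or.inr (Or.inr ⟨u, v, M, by omega, h4⟩)

open Classical in
/-- the cluster of `x` inside the finite set `S` -/
noncomputable def clu (H : W → W → Prop) (S : Finset W) (x : W) (ω : Cf W) : Finset W :=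
  S.filter fun u => ω ∈ Cn (res H S) x {u}

omit [Countable W] in
lemma mem_clu {S : Finset W} {u : W} :
    u ∈ clu H S x ω ↔ u ∈ S ∧ ReflTransGen (Op (res H S) ω) x u := by
  simp [clu, Cn]

lemma clu_DM (H : W → W → Prop) (S : Finset W) (x : W) (C : Finset W) :
    DM {e | ∃ a ∈ C, ∃ b ∈ S, e = s(a, b)} {ω | clu H S x ω = C} := by
  classical
  constructor
  · have : {ω | clu H S x ω = C} = {_ω | C ⊆ S} ∩ ⋂ u ∈ S,
        ((Cn (res H S) x {u} ∩ {_ω | u ∈ C}) ∪ ((Cn (res H S) x {u})ᶜ ∩ {_ω | u ∉ C})) := by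
      ext ω
      simp only [mem_ofPred_eq, mem_inter_iff, mem_iInter, mem_union, mem_compl_iff, clu,
        Finset.ext_iff, Finset.mem_filter, Finset.subset_iff]
      grind
    rw [this]
    exact (MeasurableSet.const _).inter (S.measurableSet_biInter fun u _ =>
      ((DM.cn _ _ _).m.inter (.const _)).union ((DM.cn _ _ _).m.compl.inter (.const _)))
  · rintro ω ω' e rfl
    ext u
    simp only [mem_clu]
    refine and_congr_right fun hu => ⟨fun h => ?_, fun h => ?_⟩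
    · clear hu
      induction h with
      | refl => exact .refl
      | tail _ h2 ih =>
        exact ih.tail ⟨h2.1, (e _ ⟨_, mem_clu.2 ⟨h2.1.2.1, ih⟩, _, h2.1.2.2, rfl⟩).trans h2.2⟩
    · clear hu
      induction h with
      | refl => exact .refl
      | tail h1 h2 ih =>
        exact ih.tail ⟨h2.1, (e _ ⟨_, mem_clu.2 ⟨h2.1.2.1, h1⟩, _, h2.1.2.2, rfl⟩).symm.trans h2.2⟩

open Classical in
/-- the exit kernel -/
noncomputable def ker (H : W → W → Prop) (S : Set W) (x : W) (z : W × W) : ℝ≥0∞ :=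
  if z.1 ∈ S ∧ z.2 ∉ S ∧ H z.1 z.2 then PP W (Cn (res H S) x {z.1}) * pp else 0

lemma SL_fin (H : W → W → Prop) (S : Finset W) {x : W} (hx : x ∈ S) (T : Set W) (N : ℕ) :
    PP W (CnN H (N + 1) x T) ≤
      PP W (Cn (res H S) x T) + ∑' z, ker H S x z * PP W (CnN H N z.2 T) := by
  classical
  obtain ⟨E, hE⟩ : ∃ E : W × W → Finset W → Set (Cf W), E = fun z C =>
    {_ω | z.1 ∈ C ∧ z.2 ∉ S ∧ H z.1 z.2} ∩ (({ω | clu H S x ω = C} ∩ {ω | ω s(z.1, z.2) = true}) ∩
      CnN (res H (C : Set W)ᶜ) N z.2 T) := ⟨_, rfl⟩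
  have h1 : CnN H (N + 1) x T ⊆ Cn (res H S) x T ∪ ⋃ z, ⋃ C ∈ S.powerset, E z C := by
    intro ω h
    rcases last_exit (clu H S x ω : Set W) h with ⟨h1, -⟩ | ⟨t, h1, h2⟩ | ⟨u, v, M, h1, h2, h3, h4, h5⟩
    · exact absurd (mem_clu.2 ⟨hx, .refl⟩) h1
    · exact Or.inl ⟨t, h1, (mem_clu.1 h2).2⟩
    · refine Or.inr (mem_iUnion.2 ⟨(u, v), mem_iUnion₂.2 ⟨clu H S x ω,
        Finset.mem_powerset.2 (Finset.filter_subset _ _), ?_⟩⟩)
      rw [hE]
      refine ⟨⟨h2, fun hv => h3 ?_, h4.1⟩, ⟨rfl, h4.2⟩, conn_le (by omega) h5⟩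
      have := mem_clu.1 h2
      exact mem_clu.2 ⟨hv, this.2.tail ⟨⟨h4.1, this.1, hv⟩, h4.2⟩⟩
  refine (measure_mono h1).trans ((measure_union_le _ _).trans (add_le_add le_rfl
    ((measure_iUnion_le _).trans (ENNReal.tsum_le_tsum fun z =>
      (measure_biUnion_finset_le _ _).trans ?_))))
  have h2 : ∀ C ∈ S.powerset, PP W (E z C) ≤ PP W ({ω | clu H S x ω = C} ∩ {_ω | z.1 ∈ C}) *
      (if z.1 ∈ S ∧ z.2 ∉ S ∧ H z.1 z.2 then pp * PP W (CnN H N z.2 T) else 0) := by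
    intro C hC
    have hC' := Finset.mem_powerset.1 hC
    rw [hE]
    by_cases h : z.1 ∈ C ∧ z.2 ∉ S ∧ H z.1 z.2
    · simp only [h, hC' h.1, and_self, ofPred_true, univ_inter, inter_univ, not_false_eq_true,
        if_true]
      rw [(((clu_DM H S x C).mono subset_union_left).inter
        ((DM.one _ _).mono subset_union_right)).indep (DM.cnN _ _ _ _),
        (clu_DM H S x C).indep (DM.one _ _), PP_open, mul_assoc]
      · gcongr
        exact CnN_mono (fun _ _ h => h.1) Subset.rfl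
      · rw [disjoint_singleton_right]
        rintro ⟨a, ha, b, hb, e⟩
        rcases Sym2.eq_iff.1 e with ⟨-, e⟩ | ⟨-, e⟩
        · exact h.2.1 (e ▸ hb)
        · exact h.2.1 (e ▸ hC' ha)
      · rw [disjoint_left]
        rintro e (⟨a, ha, b, -, rfl⟩ | rfl) ⟨c, d, ⟨-, h3, h4⟩, e⟩
        · rcases Sym2.eq_iff.1 e with ⟨rfl, -⟩ | ⟨rfl, -⟩
          · exact h3 ha
          · exact h4 ha
        · rcases Sym2.eq_iff.1 e with ⟨e, -⟩ | ⟨e, -⟩
          · exact h3 (e ▸ h.1)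
          · exact h4 (e ▸ h.1)
    · simp [h]
  refine (Finset.sum_le_sum h2).trans ?_
  rw [← Finset.sum_mul, ← measure_biUnion_finset]
  · unfold ker
    simp only [Finset.mem_coe]
    split_ifs
    · rw [mul_assoc]
      gcongr
      intro ω h
      obtain ⟨C, -, h1, h2⟩ := mem_iUnion₂.1 h
      obtain rfl : clu H S x ω = C := h1
      exact ⟨_, rfl, (mem_clu.1 h2).2⟩
    · simp
  · intro C _ C' _ h
    exact disjoint_left.2 fun ω h1 h2 => h (h1.1.symm.trans h2.1)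
  · exact fun C _ => (clu_DM H S x C).m.inter (.const _)

omit [Countable W] in
lemma conn_fin {N : ℕ} : ∀ {x}, conn H ω T N x → ∃ L : Finset W, x ∈ L ∧ conn (res H L) ω T N x := by
  classical
  induction N with
  | zero => exact fun {x} h => ⟨{x}, by simp, h⟩
  | succ N ih =>
    rintro x (h | ⟨z, h1, h2⟩)
    · exact ⟨{x}, by simp, Or.inl h⟩
    · obtain ⟨L, h3, h4⟩ := ih h2
      refine ⟨insert x L, by simp, Or.inr ⟨z, ⟨⟨h1.1, by simp, by simp [h3]⟩, h1.2⟩, ?_⟩⟩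
      exact conn_imp (fun a b h => ⟨⟨h.1.1, by simp [Finset.mem_coe.1 h.1.2.1],
        by simp [Finset.mem_coe.1 h.1.2.2]⟩, h.2⟩) Subset.rfl h4

/-- the Simon-Lieb inequality -/
theorem SL (H : W → W → Prop) (S : Set W) {x : W} (hx : x ∈ S) (T : Set W) (N : ℕ) :
    PP W (CnN H (N + 1) x T) ≤
      PP W (Cn (res H S) x T) + ∑' z, ker H S x z * PP W (CnN H N z.2 T) := by
  classical
  have h1 : CnN H (N + 1) x T = ⋃ L : Finset W, CnN (res H (insert x L)) (N + 1) x T := by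
    refine Subset.antisymm (fun ω h => ?_) (iUnion_subset fun L =>
      CnN_mono (fun _ _ h => h.1) Subset.rfl)
    obtain ⟨L, -, h⟩ := conn_fin h
    exact mem_iUnion.2 ⟨L, CnN_mono (fun _ _ h => ⟨h.1, Or.inr h.2.1, Or.inr h.2.2⟩) Subset.rfl h⟩
  rw [h1, Monotone.measure_iUnion fun L L' hL => CnN_mono (fun _ _ h =>
    ⟨h.1, h.2.1.imp id (fun h => Finset.mem_of_subset hL h),
      h.2.2.imp id (fun h => Finset.mem_of_subset hL h)⟩) Subset.rfl]
  refine iSup_le fun L => (SL_fin _ ((insert x L).filter (· ∈ S)) (by simp [hx]) T N).trans ?_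
  have h2 : ∀ T, Cn (res (res H (insert x L)) ((insert x L).filter (· ∈ S) : Finset W)) x T ⊆
      Cn (res H S) x T := fun T => Cn_mono (fun a b h => ⟨h.1.1,
        (Finset.mem_filter.1 (Finset.mem_coe.1 h.2.1)).2,
        (Finset.mem_filter.1 (Finset.mem_coe.1 h.2.2)).2⟩) Subset.rfl
  refine add_le_add (measure_mono (h2 T)) (ENNReal.tsum_le_tsum fun z => mul_le_mul' ?_
    (measure_mono (CnN_mono (fun _ _ h => h.1) Subset.rfl)))
  unfold ker
  split_ifs with h3 h4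
  · gcongr; exact h2 _
  · refine absurd ⟨(Finset.mem_filter.1 (Finset.mem_coe.1 h3.1)).2, fun h => h3.2.1 ?_, h3.2.2.1⟩ h4
    have := h3.2.2.2.2
    exact Finset.mem_coe.2 (Finset.mem_filter.2 ⟨by simpa using this, h⟩)
  · exact zero_le
  · exact le_rfl

omit [Countable W] in
lemma CnN_le : Monotone fun N => CnN H N x T := fun _ _ h _ h1 => conn_le h h1

omit [Countable W] in
lemma PP_Cn : PP W (Cn H x T) = ⨆ N, PP W (CnN H N x T) := by
  rw [Cn_eq, Monotone.measure_iUnion CnN_le]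

theorem SL' (H : W → W → Prop) (S : Set W) {x : W} (hx : x ∈ S) (T : Set W) :
    PP W (Cn H x T) ≤ PP W (Cn (res H S) x T) + ∑' z, ker H S x z * PP W (Cn H z.2 T) := by
  rw [PP_Cn]
  refine iSup_le fun N => (measure_mono fun ω h => conn_succ h).trans ((SL H S hx T N).trans ?_)
  gcongr
  exact CnN_sub

omit [Countable W] in
lemma tsum_Cn {J : Type} (T : J → Set W) {g : ℝ≥0∞} (h : ∀ N, ∑' j, PP W (CnN H N x (T j)) ≤ g) :
    ∑' j, PP W (Cn H x (T j)) ≤ g := by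
  rw [ENNReal.tsum_eq_iSup_sum]
  refine iSup_le fun s => ?_
  simp_rw [PP_Cn]
  rw [ENNReal.finsetSum_iSup_of_monotone (f := fun j N => PP W (CnN H N x (T j)))
    fun j N M h => measure_mono (CnN_le h)]
  exact iSup_le fun N => (ENNReal.sum_le_tsum _).trans (h N)

end Pool.Agent.H44.FZ
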