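import Pool.Agent.H44.FZ1

/-! More percolation tools. -/

open Set Filter MeasureTheory ProbabilityTheory Measure Relation
open scoped ENNReal

namespace Pool.Agent.H44.FZ

lemma cover {ι κ : Type} (g : ι → ℝ≥0∞) (e : κ → ι) (h : ∀ z, g z ≠ 0 → z ∈ range e) :
    ∑' z, g z ≤ ∑' k, g (e k) := by
  rw [← tsum_subtype_support]
  choose f hf using h
  refine le_trans (le_of_eq ?_) (ENNReal.tsum_comp_le_tsum_of_injective
    (f := fun z : Function.support g => f z.1 z.2) (fun a b hab => Subtype.ext ?_) fun k => g (e k))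
  · simp [hf]
  · rw [← hf a.1 a.2, ← hf b.1 b.2]; exact congrArg e hab

lemma sum_nat {r : ℝ≥0∞} {w : ℕ} (hw : 0 < w) : ∑' n : ℕ, r ^ (n / w) ≤ w * (1 - r)⁻¹ := by
  refine (cover _ (fun z : Fin w × ℕ => z.2 * w + z.1) fun n _ =>
    ⟨(⟨n % w, Nat.mod_lt _ hw⟩, n / w), Nat.div_add_mod' n w⟩).trans (le_of_eq ?_)
  rw [ENNReal.tsum_prod']
  have : ∀ (s : Fin w) (j : ℕ), (j * w + s) / w = j := fun s j => by
    rw [add_comm, Nat.add_mul_div_right _ _ hw, Nat.div_eq_of_lt s.2, zero_add]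
  simp [this, ENNReal.tsum_geometric]

lemma sum_int {r : ℝ≥0∞} {w : ℕ} (hw : 0 < w) (c : ℤ) :
    ∑' n : ℤ, r ^ ((n - c).natAbs / w) ≤ 2 * (w * (1 - r)⁻¹) := by
  refine (cover _ (fun z : Bool × ℕ => if z.1 then c + z.2 else c - z.2) fun n _ => ?_).trans ?_
  · rcases le_total c n with h | h
    · exact ⟨(true, (n - c).toNat), by simp; omega⟩
    · exact ⟨(false, (c - n).toNat), by simp; omega⟩
  · rw [ENNReal.tsum_prod', tsum_bool, two_mul]
    simpa using add_le_add (sum_nat hw) (sum_nat hw)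

noncomputable def lam : ℝ≥0∞ := ENNReal.ofReal (1 / 16)

lemma lam_le : lam ≤ 1 := by rw [lam]; exact ENNReal.ofReal_le_one.2 (by norm_num)

lemma eight_pp : 8 * pp = lam := by
  rw [pp, lam, ← ENNReal.ofReal_ofNat, ← ENNReal.ofReal_mul (by norm_num)]; norm_num

lemma geo3 {r : ℝ} (h : r ≤ 1 / 3) (c : ℤ) :
    ∑' n : ℤ, ENNReal.ofReal r ^ (n - c).natAbs ≤ 3 := by
  have := sum_int (r := ENNReal.ofReal r) one_pos c
  simp only [Nat.div_one, Nat.cast_one, one_mul] at this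
  refine this.trans ?_
  have h1 : ENNReal.ofReal (2 / 3) ≤ 1 - ENNReal.ofReal r := by
    refine ENNReal.le_sub_of_add_le_right ENNReal.ofReal_ne_top ?_
    refine (add_le_add le_rfl (ENNReal.ofReal_le_ofReal h)).trans ?_
    rw [← ENNReal.ofReal_add (by norm_num) (by norm_num)]; norm_num
  refine (mul_le_mul' le_rfl (ENNReal.inv_le_inv.2 h1)).trans (le_of_eq ?_)
  rw [← ENNReal.ofReal_inv_of_pos (by norm_num), ← ENNReal.ofReal_ofNat,
    ← ENNReal.ofReal_mul (by norm_num)]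
  norm_num

variable {W W' : Type} {H H' : W → W → Prop} {ω : Cf W} {T S : Set W} {x y : W}

lemma Cn_self (hx : x ∉ T) : Cn (res H {x}) x T = ∅ := by
  refine eq_empty_of_forall_notMem ?_
  rintro ω ⟨y, hy, h⟩
  rcases h.cases_tail with rfl | ⟨c, -, h⟩
  · exact hx hy
  · exact hx (h.1.2.2 ▸ hy)

/-- exponential decay for graphs of degree at most eight -/
theorem decay [Countable W] (hd : ∀ x, ∃ s : List W, s.length ≤ 8 ∧ ∀ z, H x z → z ∈ s)
    (φ : W → ℤ) (hφ : ∀ a b, H a b → φ b ≤ φ a + 1) {K : ℤ} (hT : ∀ t ∈ T, K ≤ φ t) (n : ℕ)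
    (hn : φ x + n ≤ K) : PP W (Cn H x T) ≤ lam ^ n := by
  classical
  rw [PP_Cn]
  refine iSup_le fun N => ?_
  induction N generalizing x n with
  | zero =>
    rcases n with _ | n
    · simpa using prob_le_one
    · have : CnN H 0 x T = ∅ := eq_empty_of_forall_notMem fun ω h => by
        have := hT x h; omega
      simp [this]
  | succ N ih =>
    rcases n with _ | n
    · simpa using prob_le_one
    obtain ⟨s, h1, h2⟩ := hd x
    refine (SL H {x} rfl T N).trans ?_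
    rw [Cn_self fun h => by have := hT x h; omega, measure_empty, zero_add]
    refine (cover _ (fun v : s.toFinset => (x, v.1)) fun z hz => ?_).trans ?_
    · unfold ker at hz
      split_ifs at hz with h
      · obtain ⟨a, b⟩ := z
        obtain rfl : a = x := h.1
        exact ⟨⟨b, List.mem_toFinset.2 (h2 _ h.2.2)⟩, rfl⟩
      · simp at hz
    · rw [tsum_fintype]
      refine (Finset.sum_le_card_nsmul _ _ (pp * lam ^ n) fun v _ => ?_).trans ?_
      · unfold ker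
        split_ifs with h
        · exact mul_le_mul' (mul_le_of_le_one_left' prob_le_one)
            (ih n (by have : φ v ≤ φ x + 1 := hφ _ _ h.2.2; push_cast at hn ⊢; omega))
        · simp
      · rw [pow_succ', ← eight_pp, mul_assoc, nsmul_eq_mul]
        gcongr
        rw [Finset.card_univ, Fintype.card_coe]
        exact_mod_cast (List.toFinset_card_le s).trans h1

lemma first_exit (hx : x ∈ S) : Cn H x T ⊆ Cn (res H S) x T ∪ Cn H x Sᶜ := by
  rintro ω ⟨y, hy, h⟩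
  have : (y ∈ S ∧ ReflTransGen (Op (res H S) ω) x y) ∨ ω ∈ Cn H x Sᶜ := by
    clear hy
    induction h with
    | refl => exact Or.inl ⟨hx, .refl⟩
    | @tail b c h1 h2 ih =>
      by_cases hc : c ∈ S
      · exact ih.imp (fun h => ⟨hc, h.2.tail ⟨⟨h2.1, h.1, hc⟩, h2.2⟩⟩) id
      · exact Or.inr ⟨c, hc, h1.tail h2⟩
  exact this.imp (fun h => ⟨y, hy, h.2⟩) id

lemma crossing (φ : W → ℤ) (hφ : ∀ a b, H a b → φ b ≤ φ a + 1) {lo hi : ℤ} (hl : lo ≤ hi)
    (hx : φ x ≤ lo) (hy : hi ≤ φ y) (h : ReflTransGen (Op H ω) x y) :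
    ∃ z, φ z = lo ∧ ω ∈ Cn (res H {v | lo ≤ φ v ∧ φ v ≤ hi}) z {v | φ v = hi} := by
  have : φ x ≤ hi → (lo ≤ φ x ∧ ω ∈ Cn (res H {v | lo ≤ φ v ∧ φ v ≤ hi}) x {v | φ v = hi}) ∨
      ∃ z, φ z = lo ∧ ω ∈ Cn (res H {v | lo ≤ φ v ∧ φ v ≤ hi}) z {v | φ v = hi} := by
    clear hx
    induction h using ReflTransGen.head_induction_on with
    | refl => exact fun h => Or.inl ⟨by omega, y, le_antisymm h hy, .refl⟩
    | @head a c h1 _ ih =>
      intro ha
      have h2 := hφ _ _ h1.1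
      rcases eq_or_lt_of_le ha with ha' | ha'
      · exact Or.inl ⟨by omega, a, ha', .refl⟩
      rcases ih (by omega) with ⟨h3, t, h4, h5⟩ | h3
      · by_cases h6 : lo ≤ φ a
        · exact Or.inl ⟨h6, t, h4, .head ⟨⟨h1.1, ⟨h6, ha⟩, h3, by omega⟩, h1.2⟩ h5⟩
        · exact Or.inr ⟨c, by omega, t, h4, h5⟩
      · exact Or.inr h3
  rcases this (by omega) with h | h
  · exact ⟨x, by omega, h.2⟩
  · exact h

theorem embed [Countable W] (ι : W → W') (hι : Function.Injective ι) {G : W' → W' → Prop}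
    (h1 : ∀ a b, H a b → G (ι a) (ι b)) (h2 : ∀ a b', G (ι a) b' → ∃ b, b' = ι b ∧ H a b)
    (x : W) (T : Set W') : PP W' (Cn G (ι x) T) = PP W (Cn H x (ι ⁻¹' T)) := by
  have := map_infinitePi_infinitePi_of_inj (P := fun _ : Sym2 W' => rho) (Sym2.map.injective hι)
  rw [PP, PP, ← this, map_apply (by fun_prop) (DM.cn _ _ _).m]
  congr 1
  ext ω
  constructor
  · rintro ⟨y, hy, h⟩
    have : ∃ b, y = ι b ∧ ReflTransGen (Op H fun e => ω (Sym2.map ι e)) x b := by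
      clear hy
      induction h with
      | refl => exact ⟨x, rfl, .refl⟩
      | tail _ h4 ih =>
        obtain ⟨b, rfl, h5⟩ := ih
        obtain ⟨c, rfl, h6⟩ := h2 _ _ h4.1
        exact ⟨c, rfl, h5.tail ⟨h6, h4.2⟩⟩
    obtain ⟨b, rfl, h3⟩ := this
    exact ⟨b, hy, h3⟩
  · rintro ⟨y, hy, h⟩
    exact ⟨ι y, hy, ReflTransGen.lift (p := Op G ω) ι (fun a b h => ⟨h1 a b h.1, h.2⟩) _ _ h⟩

lemma first_hit {ι : Type} (s : Finset ι) {D : Set (Sym2 W)} {D' : ι → Set (Sym2 W)}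
    {X : Set (Cf W)} {A B : ι → Set (Cf W)} (hX : DM D X) (hA : ∀ i ∈ s, DM D (A i))
    (hB : ∀ i ∈ s, DM (D' i) (B i)) (hD : ∀ i ∈ s, Disjoint D (D' i)) {c : ℝ≥0∞}
    (hc : ∀ i ∈ s, PP W (B i)ᶜ ≤ c) :
    PP W ((X ∩ ⋃ i ∈ s, A i) \ ⋃ i ∈ s, A i ∩ B i) ≤ c * PP W (X ∩ ⋃ i ∈ s, A i) := by
  classical
  induction s using Finset.induction_on with
  | empty => simp
  | insert i s hi ih =>
    have m := Finset.mem_insert_self i s
    have hA' : ∀ j ∈ s, DM D (A j) := fun j hj => hA j (Finset.mem_insert_of_mem hj)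
    have d := (hX.inter (hA i m)).diff (DM.biUnion s hA')
    have h1 : (X ∩ ⋃ j ∈ insert i s, A j) \ (⋃ j ∈ insert i s, A j ∩ B j) ⊆
        ((X ∩ ⋃ j ∈ s, A j) \ ⋃ j ∈ s, A j ∩ B j) ∪ (((X ∩ A i) \ ⋃ j ∈ s, A j) ∩ (B i)ᶜ) := by
      rw [Finset.set_biUnion_insert, Finset.set_biUnion_insert]
      intro ω
      simp only [Set.mem_sdiff, mem_inter_iff, mem_union, mem_compl_iff]
      tauto
    have h2 : X ∩ ⋃ j ∈ insert i s, A j = (X ∩ ⋃ j ∈ s, A j) ∪ ((X ∩ A i) \ ⋃ j ∈ s, A j) := by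
      rw [Finset.set_biUnion_insert]
      ext ω
      simp only [Set.mem_sdiff, mem_inter_iff, mem_union]
      tauto
    refine (measure_mono h1).trans ((measure_union_le _ _).trans ?_)
    rw [h2, measure_union (disjoint_left.2 fun ω h h' => h'.2 h.2) d.m, mul_add,
      d.indep (hB i m).compl (hD i m), mul_comm _ (PP W (B i)ᶜ)]
    exact add_le_add (ih hA' (fun j hj => hB j (Finset.mem_insert_of_mem hj))
      (fun j hj => hD j (Finset.mem_insert_of_mem hj))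
      fun j hj => hc j (Finset.mem_insert_of_mem hj)) (mul_le_mul' (hc i m) le_rfl)

lemma blocks {D : ℕ → Set (Sym2 W)} {A : ℕ → Set (Cf W)} (hA : ∀ j, DM (D j) (A j))
    (hD : ∀ i j, i < j → Disjoint (D i) (D j)) {c : ℝ≥0∞} (hc : ∀ j, PP W (A j) ≤ c) (n : ℕ) :
    PP W {ω | ∀ j < n, ω ∈ A j} ≤ c ^ n := by
  have h1 : ∀ n, {ω | ∀ j < n + 1, ω ∈ A j} = {ω | ∀ j < n, ω ∈ A j} ∩ A n := fun n => by
    ext ω; exact Nat.forall_lt_succ_right
  have h2 : ∀ n, DM (⋃ j < n, D j) {ω | ∀ j < n, ω ∈ A j} := by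
    intro n
    induction n with
    | zero => simpa using DM.univ
    | succ n ih =>
      rw [h1]
      exact (ih.mono (biUnion_subset_biUnion_left fun j (hj : j < n) => Nat.lt_succ_of_lt hj)).inter
        ((hA n).mono (subset_biUnion_of_mem (u := D) (Nat.lt_succ_self n)))
  induction n with
  | zero => simp
  | succ n ih =>
    rw [h1, (h2 n).indep (hA n) (by simpa using fun j hj => hD j n hj), pow_succ]
    exact mul_le_mul' ih (hc n)

lemma bonf {Ω ι : Type} [MeasurableSpace Ω] (μ : Measure Ω) (s : Finset ι) {C : ι → Set Ω}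
    (hC : ∀ i, MeasurableSet (C i)) {c : ℝ≥0∞} (hc : ∀ i ∈ s, ∀ j ∈ s, i ≠ j → μ (C i ∩ C j) ≤ c) :
    ∑ i ∈ s, μ (C i) ≤ μ (⋃ i ∈ s, C i) + s.card * (s.card * c) := by
  classical
  have h1 : ∀ i ∈ s, μ (C i) ≤ μ (C i \ ⋃ j ∈ s.erase i, C j) + s.card * c := by
    intro i hi
    have : C i ⊆ (C i \ ⋃ j ∈ s.erase i, C j) ∪ ⋃ j ∈ s.erase i, C i ∩ C j := by
      intro ω h
      by_cases h' : ω ∈ ⋃ j ∈ s.erase i, C j
      · obtain ⟨j, hj, h2⟩ := mem_iUnion₂.1 h'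
        exact Or.inr (mem_iUnion₂.2 ⟨j, hj, h, h2⟩)
      · exact Or.inl ⟨h, h'⟩
    refine (measure_mono this).trans ((measure_union_le _ _).trans (add_le_add le_rfl
      ((measure_biUnion_finset_le _ _).trans ((Finset.sum_le_card_nsmul _ _ c fun j hj =>
        hc i hi j (Finset.mem_of_mem_erase hj) (Finset.ne_of_mem_erase hj).symm).trans ?_))))
    rw [nsmul_eq_mul]
    gcongr
    exact Finset.erase_subset _ _
  refine (Finset.sum_le_sum h1).trans ?_
  rw [Finset.sum_add_distrib, Finset.sum_const, nsmul_eq_mul, ← measure_biUnion_finset]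
  · gcongr
    exact sdiff_subset
  · intro i hi j hj h
    exact disjoint_left.2 fun ω h1 h2 => h1.2 (mem_iUnion₂.2
      ⟨j, Finset.mem_erase.2 ⟨h.symm, hj⟩, h2.1⟩)
  · exact fun i _ => (hC i).diff (Finset.measurableSet_biUnion _ fun j _ => hC j)

/-- the product of a graph with the integers -/
def pr {V : Type} (G : V → V → Prop) (x y : V × ℤ) : Prop :=
  (x.1 = y.1 ∧ (y.2 = x.2 + 1 ∨ x.2 = y.2 + 1)) ∨ (G x.1 y.1 ∧ x.2 = y.2)

lemma pr_symm {V : Type} {G : V → V → Prop} (h : ∀ a b, G a b → G b a) (x y : V × ℤ)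
    (h1 : pr G x y) : pr G y x :=
  h1.imp (fun h2 => ⟨h2.1.symm, h2.2.symm⟩) fun h2 => ⟨h _ _ h2.1, h2.2.symm⟩

lemma ker_le {V : Type} {H : V × ℤ → V × ℤ → Prop} {S : Set (V × ℤ)} (x : V × ℤ)
    (P : Finset (V × V)) (hP : ∀ u v, u ∈ S → v ∉ S → H u v → (u.1, v.1) ∈ P ∧ u.2 = v.2)
    (f : V × ℤ → ℝ≥0∞) : ∑' z, ker H S x z * f z.2 ≤
      ∑ q ∈ P, ∑' h : ℤ, PP _ (Cn (res H S) x {(q.1, h)}) * pp * f (q.2, h) := by
  refine (cover _ (fun z : P × ℤ => ((z.1.1.1, z.2), (z.1.1.2, z.2))) fun z hz => ?_).trans ?_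
  · unfold ker at hz
    split_ifs at hz with h
    · obtain ⟨h1, h2⟩ := hP _ _ h.1 h.2.1 h.2.2
      exact ⟨(⟨_, h1⟩, z.1.2), Prod.ext rfl (Prod.ext rfl h2)⟩
    · simp at hz
  · rw [ENNReal.tsum_prod', tsum_fintype, ← Finset.sum_coe_sort P]
    refine Finset.sum_le_sum fun q _ => ENNReal.tsum_le_tsum fun h => mul_le_mul' ?_ le_rfl
    unfold ker
    split_ifs
    · exact le_rfl
    · exact zero_le

end Pool.Agent.H44.FZ
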