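import Pool.Agent.H44.FZ2

/-! The connector model and the tree of cliques. -/

open Set Filter MeasureTheory ProbabilityTheory Measure Relation Sum
open scoped ENNReal

namespace Pool.Agent.H44.FZ

abbrev U : Type := ℤ × ℕ

def up (u v : U) : Prop := v.1 = u.1 + 1 ∧ u.2 = if u.1 < 0 then v.2 / 2 else v.2

def MA (u v : U) : Prop := up u v ∨ up v u

def Reg (d r : ℕ) (u : U) : Prop := -(d : ℤ) ≤ u.1 ∧ u.1 ≤ r ∧ u.2 < 2 ^ (d - (-u.1).toNat)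

def MH (d r : ℕ) : U × ℤ → U × ℤ → Prop := res (pr MA) {x | Reg d r x.1}

noncomputable def tm (d r : ℕ) (i : ℤ) : ℝ≥0∞ :=
  PP _ (Cn (MH d r) ((-(d : ℤ), 0), 0) {(((r : ℤ), 0), i)})

noncomputable def uu (d r : ℕ) : ℝ≥0∞ := ∑' i, tm d r i

lemma open_inter {W : Type} [Countable W] {H : W → W → Prop} {S : Set W} {a b : W} (h : a ∉ S)
    (x : W) (T : Set W) :
    PP W (Cn (res H S) x T ∩ {ω | ω s(a, b) = true}) = pp * PP W (Cn (res H S) x T) := by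
  rw [(DM.cn _ _ _).indep (DM.one _ _), PP_open, mul_comm]
  rw [disjoint_singleton_right]
  rintro ⟨c, d, h1, e⟩
  rcases Sym2.eq_iff.1 e with ⟨rfl, -⟩ | ⟨rfl, -⟩
  · exact h h1.2.1
  · exact h h1.2.2

lemma Reg.mono {d r d' r' : ℕ} {u : U} (h : Reg d r u) (h1 : d ≤ d') (h2 : r ≤ r') : Reg d' r' u :=
  ⟨by have := h.1; omega, by have := h.2.1; omega,
    h.2.2.trans_le (Nat.pow_le_pow_right two_pos (by omega))⟩

lemma reg0 {d r : ℕ} {t : ℤ} (h1 : -(d : ℤ) ≤ t) (h2 : t ≤ r) : Reg d r (t, 0) :=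
  ⟨h1, h2, by positivity⟩

lemma MH_mono {d r d' r' : ℕ} (h1 : d ≤ d') (h2 : r ≤ r') (a b : U × ℤ) (h : MH d r a b) :
    MH d' r' a b := ⟨h.1, Reg.mono h.2.1 h1 h2, Reg.mono h.2.2 h1 h2⟩

lemma tm_d (d r : ℕ) (i : ℤ) : pp * tm d r i ≤ tm (d + 1) r i := by
  rw [tm, MH, ← open_inter (a := ((-((d + 1 : ℕ) : ℤ), 0), 0)) (b := ((-(d : ℤ), 0), 0))
    fun h => by have := h.1; push_cast at this; omega]
  refine measure_mono fun ω h => ?_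
  obtain ⟨y, hy, h1⟩ := Cn_mono (MH_mono (Nat.le_succ d) le_rfl) Subset.rfl h.1
  exact ⟨y, hy, .head (b := ((-(d : ℤ), 0), 0)) ⟨⟨Or.inr ⟨Or.inl ⟨by push_cast; ring, by simp⟩, rfl⟩,
    reg0 le_rfl (by omega), reg0 (by omega) (by omega)⟩, h.2⟩ h1⟩

lemma tm_r (d r : ℕ) (i : ℤ) : pp * tm d r i ≤ tm d (r + 1) i := by
  rw [tm, MH, ← open_inter (a := ((((r + 1 : ℕ) : ℤ), 0), i)) (b := (((r : ℤ), 0), i))
    fun h => by have := h.2.1; push_cast at this; omega]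
  refine measure_mono fun ω h => ?_
  obtain ⟨y, rfl, h1⟩ := Cn_mono (MH_mono le_rfl (Nat.le_succ r)) Subset.rfl h.1
  exact ⟨_, rfl, h1.tail ⟨⟨Or.inr ⟨Or.inl ⟨by push_cast; ring, by simp⟩, rfl⟩,
    reg0 (by omega) (by omega), reg0 (by omega) le_rfl⟩, by rw [Sym2.eq_swap]; exact h.2⟩⟩

lemma uu_mono (d r a b : ℕ) : pp ^ (a + b) * uu d r ≤ uu (d + a) (r + b) := by
  induction a with
  | zero =>
    induction b with
    | zero => simp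
    | succ b ih =>
      rw [← add_assoc, pow_succ', mul_assoc]
      refine (mul_le_mul' le_rfl ih).trans ?_
      rw [uu, ← ENNReal.tsum_mul_left]
      exact ENNReal.tsum_le_tsum fun i => tm_r _ _ i
  | succ a ih =>
    rw [add_right_comm, pow_succ', mul_assoc]
    refine (mul_le_mul' le_rfl ih).trans ?_
    rw [uu, ← ENNReal.tsum_mul_left]
    exact ENNReal.tsum_le_tsum fun i => tm_d _ _ i

lemma uu_low (d r : ℕ) : pp ^ (d + r) ≤ uu d r := by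
  have h1 : 1 ≤ uu 0 0 := by
    refine le_trans (le_of_eq ?_) (ENNReal.le_tsum 0)
    rw [tm, eq_univ_of_forall (s := Cn _ _ _) fun ω => ?_, measure_univ]
    exact ⟨_, rfl, .refl⟩
  have := uu_mono 0 0 d r
  rw [zero_add, zero_add] at this
  exact (le_mul_of_one_le_right' h1).trans this

def xr (σ : ℕ) (u : U) : U := (u.1, u.2 ^^^ σ / 2 ^ (-u.1).toNat)

lemma xr_xr (σ : ℕ) (u : U) : xr σ (xr σ u) = u := by simp [xr]

lemma up_xr (σ : ℕ) {u v : U} (h : up u v) : up (xr σ u) (xr σ v) := by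
  obtain ⟨h1, h2⟩ := h
  refine ⟨h1, ?_⟩
  simp only [xr]
  split_ifs at h2 ⊢ with h
  · rw [Nat.xor_div_two, h2, Nat.div_div_eq_div_mul, ← pow_succ,
      show (-u.1).toNat = (-v.1).toNat + 1 by omega]
  · rw [h2, show (-u.1).toNat = (-v.1).toNat by omega]

lemma reg_xr {d r σ : ℕ} (hσ : σ < 2 ^ d) {u : U} (h : Reg d r u) : Reg d r (xr σ u) := by
  refine ⟨h.1, h.2.1, Nat.xor_lt_two_pow h.2.2 (Nat.div_lt_of_lt_mul ?_)⟩
  have := h.1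
  rwa [← pow_add, show (-u.1).toNat + (d - (-(xr σ u).1).toNat) = d by simp only [xr]; omega]

/-- level parameters: branching depth, path length, clique size -/
structure Par where
  d : ℕ → ℕ
  r : ℕ → ℕ
  M : ℕ → ℕ

abbrev V0 : Type := List ℕ × (U ⊕ ℕ)

variable (π : Par)

def Rg (a : List ℕ) : U → Prop := Reg (π.d a.length) (π.r a.length)

def E0 : V0 → V0 → Prop
  | (a, inl u), (b, inl v) => b = a ∧ up u v ∧ Rg π a u ∧ Rg π a v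
  | (a, inr j), (b, inl v) => b = a ∧ j = 0 ∧ v = (-(π.d a.length : ℤ), 0)
  | (a, inl u), (b, inr j) => j = 0 ∧ u.1 = π.r a.length ∧ u.2 < 2 ^ π.d a.length ∧ b = u.2 :: a
  | (a, inr j), (b, inr j') => b = a ∧ j < j' ∧ j' < π.M a.length

def GA (u v : V0) : Prop := E0 π u v ∨ E0 π v u

def HH : V0 × ℤ → V0 × ℤ → Prop := pr (GA π)

lemma HH_symm (x y : V0 × ℤ) (h : HH π x y) : HH π y x := pr_symm (fun _ _ h => h.symm) x y h

def RR (a : List ℕ) : Set (V0 × ℤ) := {x | x.1.1 = a ∧ ∃ u, x.1.2 = inl u ∧ Rg π a u}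

def BB (a : List ℕ) : Set (V0 × ℤ) := {x | x.1.1 = a ∧ ∃ j, x.1.2 = inr j ∧ j < π.M a.length}

def root (a : List ℕ) : V0 := (a, inl (-(π.d a.length : ℤ), 0))
def leaf (a : List ℕ) (l : ℕ) : V0 := (a, inl (π.r a.length, l))
def bo (a : List ℕ) : V0 := (a, inr 0)

lemma root_mem (a : List ℕ) (h : ℤ) : (root π a, h) ∈ RR π a :=
  ⟨rfl, _, rfl, reg0 le_rfl (by omega)⟩

lemma leaf_mem (a : List ℕ) {l : ℕ} (hl : l < 2 ^ π.d a.length) (h : ℤ) :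
    (leaf π a l, h) ∈ RR π a :=
  ⟨rfl, _, rfl, by omega, le_rfl, by simpa using hl⟩

def emb (a : List ℕ) (σ : ℕ) (c : ℤ) (x : U × ℤ) : V0 × ℤ := ((a, inl (xr σ x.1)), x.2 + c)

lemma emb_inj (a : List ℕ) (σ : ℕ) (c : ℤ) : Function.Injective (emb a σ c) := by
  rintro ⟨u, i⟩ ⟨v, j⟩ h
  simp only [emb, Prod.mk.injEq, inl.injEq, true_and] at h
  have := congrArg (xr σ) h.1
  rw [xr_xr, xr_xr] at this
  rw [this, add_right_cancel h.2]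

theorem tau_eq (a : List ℕ) {l : ℕ} (hl : l < 2 ^ π.d a.length) (c i : ℤ) :
    PP _ (Cn (res (HH π) (RR π a)) (root π a, c) {(leaf π a l, i)}) =
      tm (π.d a.length) (π.r a.length) (i - c) := by
  have h1 : (root π a, c) = emb a l c ((-π.d a.length, 0), 0) := by
    simp [root, emb, xr, Nat.div_eq_of_lt hl]
  have h2 : (leaf π a l, i) = emb a l c ((π.r a.length, 0), i - c) := by
    simp [leaf, emb, xr]
  rw [h1, h2, embed (H := MH (π.d a.length) (π.r a.length)) _ (emb_inj a l c), tm,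
    ← image_singleton, preimage_image_eq _ (emb_inj a l c)]
  · rintro ⟨u, i⟩ ⟨v, j⟩ ⟨h, hu, hv⟩
    refine ⟨?_, ⟨rfl, _, rfl, reg_xr hl hu⟩, ⟨rfl, _, rfl, reg_xr hl hv⟩⟩
    rcases h with ⟨h, h'⟩ | ⟨h, h'⟩
    · exact Or.inl ⟨by simp only at h; simp [emb, h], by simp only [emb] at h' ⊢; omega⟩
    · exact Or.inr ⟨h.imp (fun h => ⟨rfl, up_xr l h, reg_xr hl hu, reg_xr hl hv⟩)
        fun h => ⟨rfl, up_xr l h, reg_xr hl hv, reg_xr hl hu⟩, by simp only [emb] at h' ⊢; omega⟩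
  · rintro ⟨u, i⟩ ⟨⟨b, v⟩, j⟩ ⟨h, ⟨-, u', e1, hu⟩, ⟨rfl, v, rfl, hv⟩⟩
    obtain rfl : xr l u = u' := inl.inj e1
    have hu' := reg_xr hl hu
    rw [xr_xr] at hu'
    refine ⟨(xr l v, j - c), by simp [emb, xr_xr], ?_, hu', reg_xr hl hv⟩
    rcases h with ⟨h, h'⟩ | ⟨h, h'⟩
    · refine Or.inl ⟨?_, by simp only [emb] at h' ⊢; omega⟩
      simp only [emb, Prod.mk.injEq, inl.injEq, true_and] at h
      simp [← h, xr_xr]
    · refine Or.inr ⟨h.imp (fun h => ?_) fun h => ?_, by simp only [emb] at h' ⊢; omega⟩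
      · simpa [xr_xr] using up_xr l h.2.1
      · simpa [xr_xr] using up_xr l h.2.1

def nbL : V0 × ℤ → List (V0 × ℤ)
  | ((a, inl u), h) => [((a, inl u), h + 1), ((a, inl u), h - 1),
      ((a, inl (u.1 - 1, if u.1 - 1 < 0 then u.2 / 2 else u.2)), h),
      ((a, inl (u.1 + 1, u.2)), h), ((a, inl (u.1 + 1, 2 * u.2)), h),
      ((a, inl (u.1 + 1, 2 * u.2 + 1)), h), ((a, inr 0), h), ((u.2 :: a, inr 0), h)]
  | ((a, inr _), h) => [(root π a, h), (leaf π a.tail (a.headD 0), h)]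

lemma deg {G : V0 × ℤ → V0 × ℤ → Prop}
    (hG : ∀ x z, G x z → HH π x z ∧ (x.1.2.isLeft ∨ z.1.2.isLeft)) (x : V0 × ℤ) :
    ∃ s : List (V0 × ℤ), s.length ≤ 8 ∧ ∀ z, G x z → z ∈ s := by
  refine ⟨nbL π x, by rcases x with ⟨⟨a, u | j⟩, h⟩ <;> simp [nbL], fun z hz => ?_⟩
  obtain ⟨h1, h2⟩ := hG x z hz
  clear hG hz
  rcases x with ⟨⟨a, ⟨t, s⟩ | j⟩, h⟩ <;> rcases z with ⟨⟨b, ⟨t', s'⟩ | j'⟩, h'⟩ <;>
    simp only [HH, pr, GA, E0, up, nbL, root, leaf, List.mem_cons, Prod.mk.injEq, inl.injEq,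
      inr.injEq, reduceCtorEq, isLeft_inl, isLeft_inr, List.not_mem_nil, and_false, false_and,
      or_false, false_or] at h1 h2 ⊢
  · rcases h1 with ⟨⟨rfl, rfl, rfl⟩, h⟩ | ⟨⟨rfl, ⟨rfl, h⟩, -⟩ | ⟨rfl, ⟨rfl, h⟩, -⟩, rfl⟩
    · simp; omega
    · simp; split_ifs at h <;> omega
    · simp [h]
  · rcases h1 with ⟨⟨rfl, -, -, rfl⟩ | ⟨rfl, rfl, -⟩, rfl⟩ <;> simp
  · rcases h1 with ⟨⟨rfl, -, rfl, rfl⟩ | ⟨-, rfl, -, rfl⟩, rfl⟩ <;> simp

/-- decay inside connectors -/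
lemma decayG {G : V0 × ℤ → V0 × ℤ → Prop}
    (hG : ∀ x z, G x z → HH π x z ∧ (x.1.2.isLeft ∨ z.1.2.isLeft)) (f : V0 → ℤ) (g : ℤ → ℤ)
    (hf : ∀ x z, G x z → GA π x.1 z.1 → f z.1 ≤ f x.1 + 1)
    (hg : ∀ i, g (i + 1) ≤ g i + 1 ∧ g i ≤ g (i + 1) + 1)
    {x : V0 × ℤ} {T : Set (V0 × ℤ)} {K : ℤ} (hT : ∀ t ∈ T, K ≤ f t.1 + g t.2) (n : ℕ)
    (hn : f x.1 + g x.2 + n ≤ K) : PP _ (Cn G x T) ≤ lam ^ n := by
  refine decay (deg π hG) (fun x => f x.1 + g x.2) (fun a b h => ?_) hT n hn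
  rcases (hG a b h).1 with ⟨h1, h2 | h2⟩ | ⟨h1, h2⟩
  · have := (hg a.2).1; rw [h1, h2]; omega
  · have := (hg b.2).2; rw [h1, h2]; omega
  · have := hf a b h h1; rw [h2]; omega

lemma RR_left {a : List ℕ} {S : Set (V0 × ℤ)} (hS : S ⊆ RR π a) (x z : V0 × ℤ)
    (h : res (HH π) S x z) : HH π x z ∧ (x.1.2.isLeft ∨ z.1.2.isLeft) := by
  obtain ⟨-, u, h1, -⟩ := hS h.2.1
  exact ⟨h.1, Or.inl (by simp [h1])⟩

lemma abs_lip (c i : ℤ) : |i + 1 - c| ≤ |i - c| + 1 ∧ |i - c| ≤ |i + 1 - c| + 1 := by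
  rcases abs_cases (i + 1 - c) with h | h <;> rcases abs_cases (i - c) with h' | h' <;> omega

lemma tm_le (d r : ℕ) (i : ℤ) : tm d r i ≤ lam ^ (d + r) * lam ^ (i - 0).natAbs := by
  have := tau_eq ⟨fun _ => d, fun _ => r, fun _ => 0⟩ [] (l := 0) (by positivity) 0 i
  rw [sub_zero] at this
  rw [← this, ← pow_add]
  refine decayG _ (RR_left _ Subset.rfl) (fun v => v.2.elim (·.1) fun _ => 0) (fun i => |i - 0|)
    ?_ (abs_lip 0) (K := r + |i|) ?_ _ ?_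
  · rintro ⟨⟨a, x⟩, h⟩ ⟨⟨b, z⟩, h'⟩ ⟨-, ⟨-, u, rfl, -⟩, -, v, rfl, -⟩ h
    simp only [GA, E0, up, elim_inl] at h ⊢
    omega
  · rintro _ rfl; simp [leaf]
  · simp [root, add_assoc]

lemma uu_le (d r : ℕ) : uu d r ≤ lam ^ (d + r) * 3 := by
  refine (ENNReal.tsum_le_tsum (tm_le d r)).trans ?_
  rw [ENNReal.tsum_mul_left]
  exact mul_le_mul' le_rfl (geo3 (by norm_num) 0)

lemma uu_sub (d r : ℕ) (c : ℤ) : ∑' i, tm d r (i - c) = uu d r :=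
  (Equiv.subRight c).tsum_eq (tm d r)

lemma uu_sub' (d r : ℕ) (c : ℤ) : ∑' i, tm d r (c - i) = uu d r :=
  (Equiv.subLeft c).tsum_eq (tm d r)

lemma sib_le (a : List ℕ) {l l' : ℕ} (h : l ≠ l') {S : Set (V0 × ℤ)} (hS : S ⊆ RR π a) (c i : ℤ) :
    PP _ (Cn (res (HH π) S) (leaf π a l, c) {(leaf π a l', i)}) ≤
      lam ^ (2 * π.r a.length) * lam ^ (c - i).natAbs := by
  rw [← pow_add]
  refine decayG _ (RR_left _ hS)
    (fun v => v.2.elim (fun u => if u.2 = l ∧ 0 ≤ u.1 then -u.1 else max u.1 0) fun _ => 0)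
    (fun i => |i - c|) ?_ (abs_lip c) (K := π.r a.length + |i - c|) ?_ _ ?_
  · rintro ⟨⟨a, x⟩, h⟩ ⟨⟨b, z⟩, h'⟩ ⟨-, h1, h2⟩ h
    obtain ⟨-, u, rfl, -⟩ := hS h1
    obtain ⟨-, v, rfl, -⟩ := hS h2
    simp only [GA, E0, up, elim_inl] at h ⊢
    split_ifs at h ⊢ <;> omega
  · rintro _ rfl; simp [leaf, h.symm]
  · simp [leaf, abs_sub_comm c i]; omega

end Pool.Agent.H44.FZ
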