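import Pool.Agent.H44.FZ3

/-! Upper bound: the expected intersection with the root fiber is finite. -/

open Set Filter MeasureTheory ProbabilityTheory Measure Relation Sum
open scoped ENNReal

namespace Pool.Agent.H44.FZ

variable (π : Par)

def RU (a : List ℕ) : Set (V0 × ℤ) := {x | x ∈ RR π a ∨ ∃ l a', a = l :: a' ∧ x ∈ RR π a'}

def SS (a : List ℕ) : Set (V0 × ℤ) := {x | x ∈ BB π a ∨ x ∈ RU π a}

def HS (a : List ℕ) : V0 × ℤ → V0 × ℤ → Prop := res (HH π) (SS π a)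

def HB (a : List ℕ) (x z : V0 × ℤ) : Prop := HS π a x z ∧ (x ∈ RU π a ∨ z ∈ RU π a)

lemma HS_symm (a : List ℕ) (x y : V0 × ℤ) (h : HS π a x y) : HS π a y x :=
  res_symm (HH_symm π) x y h

lemma RU_left {a : List ℕ} {x : V0 × ℤ} (h : x ∈ RU π a) : x.1.2.isLeft := by
  rcases h with ⟨-, u, h, -⟩ | ⟨l, a', -, -, u, h, -⟩ <;> simp [h]

def cR (n : ℕ) : ℕ := (π.d n + π.r n + 1) * 2 ^ π.d n

noncomputable def rf (a : List ℕ) : Finset V0 :=
  (Finset.Icc (-(π.d a.length : ℤ)) (π.r a.length) ×ˢ Finset.range (2 ^ π.d a.length)).image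
    fun u => (a, inl u)

lemma card_rf (a : List ℕ) : (rf π a).card ≤ cR π a.length := by
  refine Finset.card_image_le.trans (le_of_eq ?_)
  rw [Finset.card_product, Int.card_Icc, Finset.card_range, cR]
  congr 1; omega

lemma mem_rf {a : List ℕ} {x : V0 × ℤ} (h : x ∈ RR π a) : x.1 ∈ rf π a := by
  obtain ⟨⟨b, y⟩, i⟩ := x
  obtain ⟨rfl, u, rfl, h1, h2, h3⟩ := h
  exact Finset.mem_image.2 ⟨u, Finset.mem_product.2 ⟨Finset.mem_Icc.2 ⟨h1, h2⟩, Finset.mem_range.2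
    (h3.trans_le (Nat.pow_le_pow_right two_pos (Nat.sub_le _ _)))⟩, rfl⟩

def Cross (a : List ℕ) (lo hi : ℤ) : Set (Cf (V0 × ℤ)) :=
  ⋃ v : V0, Cn (res (HS π a) {v | lo ≤ v.2 ∧ v.2 ≤ hi}) (v, lo) {v | v.2 = hi}

noncomputable def clE (a : List ℕ) (hi : ℤ) : Finset (Sym2 (V0 × ℤ)) :=
  (Finset.range (π.M a.length)).image fun j => s(((a, inr j), hi - 1), ((a, inr j), hi))

lemma card_clE (a : List ℕ) (hi : ℤ) : (clE π a hi).card = π.M a.length := by
  rw [clE, Finset.card_image_of_injective, Finset.card_range]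
  intro j j' h
  simpa using h

def Bad (a : List ℕ) (lo hi : ℤ) : Set (Cf (V0 × ℤ)) :=
  (⋃ h : ℤ, {_ω | h < hi} ∩ Cn (HB π a) (bo a, h) {v | v.2 = hi}) ∪
    ⋃ v ∈ rf π a ∪ rf π a.tail, Cn (HB π a) (v, lo) {v | v.2 = hi}

lemma cross_bad {a : List ℕ} {lo hi : ℤ} (h : lo < hi) :
    Cross π a lo hi ∩ {ω | ∀ e ∈ clE π a hi, ω e = false} ⊆ Bad π a lo hi := by
  rintro ω ⟨h1, h2⟩
  obtain ⟨v, y, hy, h1⟩ := mem_iUnion.1 h1
  have key : ∀ z, ReflTransGen (Op (res (HS π a) {v | lo ≤ v.2 ∧ v.2 ≤ hi}) ω) z y →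
      (∃ h < hi, ω ∈ Cn (HB π a) (bo a, h) {v | v.2 = hi}) ∨
        (ω ∈ Cn (HB π a) z {v | v.2 = hi} ∧ (z ∈ RU π a ∨ z.2 = hi)) := by
    intro z hz
    induction hz using ReflTransGen.head_induction_on with
    | refl => exact Or.inr ⟨⟨y, hy, .refl⟩, Or.inr hy⟩
    | @head z z' h3 _ ih =>
      by_cases hz : z.2 = hi
      · exact Or.inr ⟨⟨z, hz, .refl⟩, Or.inr hz⟩
      have hz' := lt_of_le_of_ne h3.1.2.1.2 hz
      rcases ih with ih | ⟨⟨t, h4, h5⟩, h6⟩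
      · exact Or.inl ih
      by_cases h7 : z' ∈ RU π a
      · have h8 : ω ∈ Cn (HB π a) z {v | v.2 = hi} := ⟨t, h4, .head ⟨⟨h3.1.1, Or.inr h7⟩, h3.2⟩ h5⟩
        rcases h3.1.1.2.1 with h9 | h9
        · refine Or.inl ⟨z.2, hz', ?_⟩
          have h10 := RU_left π h7
          have h11 := h3.1.1.1
          obtain ⟨⟨b, x⟩, i⟩ := z
          obtain ⟨rfl, j, rfl, -⟩ := h9
          obtain ⟨⟨c, u | j'⟩, i'⟩ := z'
          · obtain rfl : j = 0 := by
              simp only [HH, pr, GA, E0, Prod.mk.injEq, reduceCtorEq] at h11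
              tauto
            exact h8
          · simp at h10
        · exact Or.inr ⟨h8, Or.inl h9⟩
      · exfalso
        have h8 := h6.resolve_left h7
        obtain ⟨h9, j, h10, h11⟩ := h3.1.1.2.2.resolve_right h7
        rcases h3.1.1.1 with ⟨h12, h13⟩ | h12
        · have := h2 _ (Finset.mem_image.2 ⟨j, Finset.mem_range.2 h11, rfl⟩)
          have e1 : z = ((a, inr j), hi - 1) := Prod.ext (h12.trans (Prod.ext h9 h10)) (by omega)
          have e2 : z' = ((a, inr j), hi) := Prod.ext (Prod.ext h9 h10) h8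
          rw [← e1, ← e2, h3.2] at this
          simp at this
        · have := h12.2; omega
  rcases key _ h1 with ⟨h, h3, h4⟩ | ⟨h3, h4 | h4⟩
  · exact Or.inl (mem_iUnion.2 ⟨h, h3, h4⟩)
  · refine Or.inr (mem_iUnion₂.2 ⟨v, Finset.mem_union.2 ?_, h3⟩)
    rcases h4 with h4 | ⟨l, a', rfl, h4⟩
    · exact Or.inl (mem_rf π h4)
    · exact Or.inr (mem_rf π h4)
  · exact absurd h4 h.ne

lemma HB_decay (a : List ℕ) (v : V0) (i hi : ℤ) (n : ℕ) (h : i + n ≤ hi) :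
    PP _ (Cn (HB π a) (v, i) {v | v.2 = hi}) ≤ lam ^ n :=
  decayG π (fun _ _ h => ⟨h.1.1, h.2.imp (RU_left π) (RU_left π)⟩) (fun _ => 0) id
    (fun _ _ _ _ => by omega) (fun i => by simp only [id]; omega) (K := hi)
    (fun t ht => by simp [show t.2 = hi from ht]) n (by simpa using h)

lemma bad_le (a : List ℕ) {w : ℕ}
    (hw : (cR π a.length + cR π (a.length - 1) : ℕ) * lam ^ w ≤ ENNReal.ofReal (1 / 4)) (lo : ℤ) :
    PP _ (Bad π a lo (lo + w)) ≤ 2⁻¹ := by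
  have h1 : PP _ (⋃ h : ℤ, {_ω | h < lo + w} ∩ Cn (HB π a) (bo a, h) {v | v.2 = lo + w}) ≤
      lam * 3 := by
    refine (measure_iUnion_le _).trans ((ENNReal.tsum_le_tsum (g := fun h =>
      lam * lam ^ (h - (lo + w - 1)).natAbs) fun h => ?_).trans ?_)
    · by_cases h1 : h < lo + w
      · rw [← pow_succ']
        exact (measure_mono inter_subset_right).trans (HB_decay π a _ _ _ _ (by omega))
      · simp [h1]
    · rw [ENNReal.tsum_mul_left]
      exact mul_le_mul' le_rfl (geo3 (by norm_num) _)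
  have h2 := (measure_biUnion_finset_le (μ := PP _) _ _).trans (Finset.sum_le_card_nsmul
    (rf π a ∪ rf π a.tail) _ _ fun v _ => HB_decay π a v lo (lo + w) w le_rfl)
  refine (measure_union_le _ _).trans ((add_le_add h1 (h2.trans (le_trans ?_ hw))).trans ?_)
  · rw [nsmul_eq_mul]
    gcongr
    exact (Finset.card_union_le _ _).trans (add_le_add (card_rf π a)
      (by simpa using card_rf π a.tail))
  · rw [lam, ← ENNReal.ofReal_ofNat 3, ← ENNReal.ofReal_mul (by norm_num),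
      ← ENNReal.ofReal_add (by norm_num) (by norm_num), ← ENNReal.ofReal_ofNat 2,
      ← ENNReal.ofReal_inv_of_pos (by norm_num)]
    exact ENNReal.ofReal_le_ofReal (by norm_num)

lemma cross_le (a : List ℕ) {w : ℕ} (h0 : 0 < w)
    (hw : (cR π a.length + cR π (a.length - 1) : ℕ) * lam ^ w ≤ ENNReal.ofReal (1 / 4)) (lo : ℤ) :
    PP _ (Cross π a lo (lo + w)) ≤ 1 - xx ^ π.M a.length / 2 := by
  obtain ⟨C, hC⟩ : ∃ C : Set (Cf (V0 × ℤ)), C = {ω | ∀ e ∈ clE π a (lo + w), ω e = false} :=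
    ⟨_, rfl⟩
  have d1 : DM (clE π a (lo + w)) C := hC ▸ DM.all _ _
  have h1 : PP _ C = xx ^ π.M a.length := by rw [hC, PP_all, rho_false, card_clE]
  have d2 : DM (Ed (HB π a)) (Bad π a lo (lo + w)) := by
    refine DM.union ⟨.iUnion fun h => (MeasurableSet.const _).inter (DM.cn _ _ _).m,
      fun ω ω' e h => ?_⟩ (DM.biUnion _ fun _ _ => DM.cn _ _ _)
    obtain ⟨h, h1, h2⟩ := mem_iUnion.1 h
    exact mem_iUnion.2 ⟨h, h1, (DM.cn _ _ _).d ω ω' e h2⟩
  have h2 : PP _ (C ∩ Bad π a lo (lo + w)) ≤ xx ^ π.M a.length / 2 := by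
    rw [d1.indep d2, h1, div_eq_mul_inv]
    · exact mul_le_mul' le_rfl (bad_le π a hw lo)
    · rw [disjoint_left]
      rintro e he ⟨x, z, h, rfl⟩
      obtain ⟨j, -, e⟩ := Finset.mem_image.1 he
      have := h.2.imp (RU_left π) (RU_left π)
      rcases Sym2.eq_iff.1 e with ⟨rfl, rfl⟩ | ⟨rfl, rfl⟩ <;> simp at this
  have h3 : Cross π a lo (lo + w) ⊆ Cᶜ ∪ C ∩ Bad π a lo (lo + w) := fun ω h => by
    by_cases hω : ω ∈ C
    · exact Or.inr ⟨hω, cross_bad π (by omega) ⟨h, hC ▸ hω⟩⟩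
    · exact Or.inl hω
  refine ENNReal.le_sub_of_add_le_right (ENNReal.div_ne_top (h1 ▸ measure_ne_top _ _) two_ne_zero) ?_
  refine (add_le_add ((measure_mono h3).trans ((measure_union_le _ _).trans
    (add_le_add le_rfl h2))) le_rfl).trans ?_
  rw [add_assoc, ENNReal.add_halves, ← h1, add_comm, prob_add_prob_compl d1.m]

lemma HH_ht (x y : V0 × ℤ) (h : HH π x y) : y.2 ≤ x.2 + 1 := by
  rcases h with ⟨-, h⟩ | ⟨-, h⟩ <;> omega

lemma vert_le (a : List ℕ) {w : ℕ} (h0 : 0 < w)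
    (hw : (cR π a.length + cR π (a.length - 1) : ℕ) * lam ^ w ≤ ENNReal.ofReal (1 / 4))
    (c : ℤ) : ∑' n : ℤ, PP _ (Cn (HS π a) (bo a, n) {(bo a, c)}) ≤
      2 * ((w + 1 : ℕ) * (xx ^ π.M a.length / 2)⁻¹) := by
  have key : ∀ c n : ℤ, c ≤ n → PP _ (Cn (HS π a) (bo a, c) {(bo a, n)}) ≤
      (1 - xx ^ π.M a.length / 2) ^ ((n - c).natAbs / (w + 1)) := by
    intro c n hn
    refine le_trans (measure_mono ?_) (blocks (A := fun j => Cross π a (c + j * (w + 1))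
      (c + j * (w + 1) + w)) (D := fun j => Ed (res (HS π a)
        {v | c + j * (w + 1) ≤ v.2 ∧ v.2 ≤ c + j * (w + 1) + w})) (fun j => ?_) (fun i j hij => ?_)
      (fun j => cross_le π a h0 hw _) _)
    · rintro ω ⟨_, rfl, h⟩ j hj
      have h1 : (j + 1) * (w + 1) ≤ (n - c).natAbs := (Nat.le_div_iff_mul_le w.succ_pos).1 hj
      have h2 : ((j : ℤ) + 1) * (w + 1) ≤ n - c := by
        rw [← Int.natAbs_of_nonneg (sub_nonneg.2 hn)]; exact_mod_cast h1
      have h5 : (0 : ℤ) ≤ j * (w + 1) := by positivity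
      obtain ⟨z, h3, h4⟩ := crossing (lo := c + j * (w + 1)) (hi := c + j * (w + 1) + w) Prod.snd
        (fun x y (h : HS π a x y) => HH_ht π x y h.1) (by omega) (by simp only; omega)
        (by simp only; linarith) h
      exact mem_iUnion.2 ⟨z.1, (show z = (z.1, c + j * (w + 1)) from Prod.ext rfl h3) ▸ h4⟩
    · refine ⟨.iUnion fun v => (DM.cn _ _ _).m, fun ω ω' e h => ?_⟩
      obtain ⟨v, h⟩ := mem_iUnion.1 h
      exact mem_iUnion.2 ⟨v, (DM.cn _ _ _).d ω ω' e h⟩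
    · rw [disjoint_left]
      rintro e ⟨x, y, h1, rfl⟩ ⟨x', y', h2, e⟩
      have h3 : ((i : ℤ) + 1) * (w + 1) ≤ j * (w + 1) := by
        gcongr; exact_mod_cast hij
      have h4 := h1.2.1.2
      rcases Sym2.eq_iff.1 e with ⟨rfl, -⟩ | ⟨rfl, -⟩
      · have := h2.2.1.1; linarith
      · have := h2.2.2.1; linarith
  refine (ENNReal.tsum_le_tsum fun n => ?_).trans
    ((sum_int (r := 1 - xx ^ π.M a.length / 2) w.succ_pos c).trans (le_of_eq ?_))
  · rcases le_total c n with h | h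
    · rw [Cn_symm (HS_symm π a)]; exact key c n h
    · rw [← Int.natAbs_neg, neg_sub]; exact key n c h
  · rw [ENNReal.sub_sub_cancel ENNReal.one_ne_top]
    refine ENNReal.half_le_self.trans (pow_le_one' ?_ _)
    exact ENNReal.ofReal_le_one.2 (by norm_num)

lemma Cn_res_empty {W : Type} {H : W → W → Prop} {S T : Set W} {x : W} (hx : x ∈ S)
    (hT : ∀ t ∈ T, t ∉ S) : Cn (res H S) x T = ∅ := by
  refine eq_empty_of_forall_notMem ?_
  rintro ω ⟨y, hy, h⟩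
  rcases h.cases_tail with rfl | ⟨c, -, h⟩
  · exact hT _ hy hx
  · exact hT _ hy h.1.2.2

lemma port {a c : List ℕ} {w u : V0} (hu : ∀ i, (u, i) ∈ RR π c)
    (hP : ∀ x y, x ∈ RR π c → y ∉ RR π c → HS π a x y → (x.1, y.1) = (w, bo a) ∧ x.2 = y.2)
    {X Y : ℝ≥0∞} (hX : ∀ h, ∑' n : ℤ, PP _ (Cn (HS π a) (bo a, n) {(bo a, h)}) ≤ X)
    (hY : ∀ h, ∑' i : ℤ, PP _ (Cn (res (HH π) (RR π c)) (u, i) {(w, h)}) ≤ Y) (h : ℤ) :
    ∑' i : ℤ, PP _ (Cn (HS π a) (bo a, h) {(u, i)}) ≤ Y * X := by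
  have h1 : ∀ i, PP _ (Cn (HS π a) (bo a, h) {(u, i)}) ≤ ∑' k : ℤ,
      PP _ (Cn (res (HH π) (RR π c)) (u, i) {(w, k)}) * PP _ (Cn (HS π a) (bo a, k) {(bo a, h)}) := by
    intro i
    rw [Cn_symm (HS_symm π a)]
    refine (SL' _ _ (hu i) _).trans ?_
    rw [Cn_res_empty (hu i) (by rintro _ rfl ⟨-, _, h, -⟩; simp [bo] at h), measure_empty, zero_add]
    refine (ker_le _ {(w, bo a)} (fun x y h1 h2 h3 => by simpa using hP x y h1 h2 h3)
      fun v => PP _ (Cn (HS π a) v {(bo a, h)})).trans ?_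
    rw [Finset.sum_singleton]
    refine ENNReal.tsum_le_tsum fun k => mul_le_mul' ((mul_le_of_le_one_right' ?_).trans
      (measure_mono (Cn_mono (fun _ _ h => ⟨h.1.1, h.2⟩) Subset.rfl))) le_rfl
    exact ENNReal.ofReal_le_one.2 (by norm_num)
  refine (ENNReal.tsum_le_tsum h1).trans ?_
  rw [ENNReal.tsum_comm]
  simp_rw [ENNReal.tsum_mul_right]
  refine (ENNReal.tsum_le_tsum fun k => mul_le_mul' (hY k) le_rfl).trans ?_
  rw [ENNReal.tsum_mul_left]
  exact mul_le_mul' le_rfl (hX h)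

lemma port_down (a : List ℕ) (x y : V0 × ℤ) (h1 : x ∈ RR π a) (h2 : y ∉ RR π a)
    (h3 : HS π a x y) : (x.1, y.1) = (root π a, bo a) ∧ x.2 = y.2 := by
  obtain ⟨⟨b, x⟩, i⟩ := x
  obtain ⟨rfl, u, rfl, hu⟩ := h1
  obtain ⟨h3, -, h4⟩ := h3
  obtain ⟨⟨c, v | j⟩, i'⟩ := y <;>
    simp only [HH, pr, GA, E0, SS, RU, RR, BB, root, bo, mem_ofPred_eq, Prod.mk.injEq, inl.injEq,
      inr.injEq, reduceCtorEq] at * <;> grind [List.cons_ne_self]

lemma port_up (l : ℕ) (a : List ℕ) (x y : V0 × ℤ) (h1 : x ∈ RR π a) (h2 : y ∉ RR π a)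
    (h3 : HS π (l :: a) x y) : (x.1, y.1) = (leaf π a l, bo (l :: a)) ∧ x.2 = y.2 := by
  obtain ⟨⟨b, x⟩, i⟩ := x
  obtain ⟨rfl, ⟨t, s⟩, rfl, hu⟩ := h1
  obtain ⟨h3, -, h4⟩ := h3
  obtain ⟨⟨c, v | j⟩, i'⟩ := y <;>
    simp only [HH, pr, GA, E0, SS, RU, RR, BB, leaf, bo, mem_ofPred_eq, Prod.mk.injEq, inl.injEq,
      inr.injEq, reduceCtorEq] at * <;> grind [List.cons_ne_self]

noncomputable def kids (a : List ℕ) (s : Finset ℕ) : Finset (V0 × V0) :=
  s.image fun l => (leaf π a l, bo (l :: a))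

lemma exit_nil (hM : ∀ n, 0 < π.M n) (x y : V0 × ℤ) (h1 : x ∈ SS π []) (h2 : y ∉ SS π [])
    (h3 : HH π x y) : (x.1, y.1) ∈ kids π [] (Finset.range (2 ^ π.d 0)) ∧ x.2 = y.2 := by
  have := hM 0
  have h5 : Rg π [] (-(π.d 0 : ℤ), 0) := reg0 le_rfl (by omega)
  obtain ⟨⟨b, ⟨t, s⟩ | j'⟩, i⟩ := x <;> obtain ⟨⟨c, v | j⟩, i'⟩ := y <;>
    simp only [HH, pr, GA, E0, SS, RU, RR, BB, leaf, bo, kids, mem_ofPred_eq, Prod.mk.injEq,
      inl.injEq, inr.injEq, reduceCtorEq, Finset.mem_image, Finset.mem_range, List.length_nil,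
      false_and, and_false, exists_false, or_false, false_or, exists_eq_left'] at * <;>
    grind

lemma exit_cons (hM : ∀ n, 0 < π.M n) {l : ℕ} {a : List ℕ} (x y : V0 × ℤ)
    (h1 : x ∈ SS π (l :: a)) (h2 : y ∉ SS π (l :: a)) (h3 : HH π x y) :
    (x.1, y.1) ∈ (kids π (l :: a) (Finset.range (2 ^ π.d (a.length + 1))) ∪ {(root π a, bo a)}) ∪
      kids π a ((Finset.range (2 ^ π.d a.length)).erase l) ∧ x.2 = y.2 := by
  have := hM (a.length + 1)
  have h5 := root_mem π (l :: a) y.2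
  have h6 := fun h => leaf_mem π a (l := l) h y.2
  obtain ⟨⟨b, ⟨t, s⟩ | j'⟩, i⟩ := x <;> obtain ⟨⟨c, ⟨t', s'⟩ | j⟩, i'⟩ := y <;>
    simp only [HH, pr, GA, E0, SS, RU, RR, BB, leaf, root, bo, kids, mem_ofPred_eq, Prod.mk.injEq,
      inl.injEq, inr.injEq, reduceCtorEq, Finset.mem_image, Finset.mem_range, List.length_cons,
      false_and, and_false, exists_false, or_false, false_or, exists_eq_left', not_or,
      Finset.mem_union, Finset.mem_singleton, Finset.mem_erase, List.cons.injEq] at * <;>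
    grind

def VA : List ℕ → Prop
  | [] => True
  | l :: a => l < 2 ^ π.d a.length ∧ VA a

lemma sum_union_le {ι : Type} [DecidableEq ι] (s t : Finset ι) (f : ι → ℝ≥0∞) :
    ∑ i ∈ s ∪ t, f i ≤ ∑ i ∈ s, f i + ∑ i ∈ t, f i := by
  rw [← Finset.sum_union_inter]; exact le_self_add

lemma term_le {G : V0 × ℤ → V0 × ℤ → Prop} {x : V0 × ℤ} {u : V0} {f : ℤ → ℝ≥0∞}
    {A B : ℝ≥0∞} (hA : ∑' h : ℤ, PP _ (Cn G x {(u, h)}) ≤ A) (hB : ∀ h, f h ≤ B) :
    ∑' h : ℤ, PP _ (Cn G x {(u, h)}) * pp * f h ≤ A * B := by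
  refine (ENNReal.tsum_le_tsum fun h => mul_le_mul' (mul_le_of_le_one_right'
    (ENNReal.ofReal_le_one.2 (by norm_num))) (hB h)).trans ?_
  rw [ENNReal.tsum_mul_right]
  exact mul_le_mul' hA le_rfl

lemma kids_le {a : List ℕ} {s : Finset ℕ} {n : ℕ} (hs : s ⊆ Finset.range n) (f : V0 × V0 → ℝ≥0∞)
    {A : ℝ≥0∞} (h : ∀ l ∈ s, f (leaf π a l, bo (l :: a)) ≤ A) : ∑ q ∈ kids π a s, f q ≤ n * A := by
  refine (Finset.sum_le_card_nsmul _ _ A fun q hq => ?_).trans ?_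
  · obtain ⟨l, hl, rfl⟩ := Finset.mem_image.1 hq
    exact h l hl
  · rw [nsmul_eq_mul]
    gcongr
    exact Finset.card_image_le.trans (by simpa using Finset.card_le_card hs)

theorem upper (hM : ∀ n, 0 < π.M n) {X g : ℕ → ℝ≥0∞}
    (hX : ∀ a h, ∑' n : ℤ, PP _ (Cn (HS π a) (bo a, n) {(bo a, h)}) ≤ X a.length)
    (h0 : X 0 + (2 ^ π.d 0 : ℕ) * (uu (π.d 0) (π.r 0) * X 0 * g 1) ≤ g 0)
    (hn : ∀ n, (2 ^ π.d (n + 1) : ℕ) * (uu (π.d (n + 1)) (π.r (n + 1)) * X (n + 1) * g (n + 2)) +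
      uu (π.d n) (π.r n) * X (n + 1) * g n +
      (2 ^ π.d n : ℕ) * (lam ^ (2 * π.r n) * 3 * X (n + 1) * g (n + 1)) ≤ g (n + 1)) :
    ∑' n : ℤ, PP _ (Cn (HH π) (bo [], 0) {(bo [], n)}) ≤ g 0 := by
  classical
  have hb : ∀ a h, (bo a, h) ∈ SS π a := fun a h => Or.inl ⟨rfl, 0, rfl, hM _⟩
  have f0 : ∀ h, ∑' n : ℤ, PP _ (Cn (HS π []) (bo [], h) {(bo [], n)}) ≤ X 0 := fun h => by
    simp_rw [Cn_symm (HS_symm π []) (x := (bo [], h))]; exact hX [] h
  have f1 : ∀ l a h, ∑' n : ℤ, PP _ (Cn (HS π (l :: a)) (bo (l :: a), h) {(bo [], n)}) = 0 := by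
    intro l a h
    rw [ENNReal.tsum_eq_zero]
    intro n
    rw [HS, Cn_res_empty (hb _ _), measure_empty]
    rintro _ rfl (h | h)
    · simpa [bo] using h.1
    · simpa [bo] using RU_left π h
  have down : ∀ a l, l < 2 ^ π.d a.length → ∀ h, ∑' i : ℤ, PP _ (Cn (HS π a) (bo a, h)
      {(leaf π a l, i)}) ≤ uu (π.d a.length) (π.r a.length) * X a.length := fun a l hl =>
    port π (leaf_mem π a hl) (port_down π a) (hX a) fun h => by
      simp_rw [Cn_symm (res_symm (HH_symm π)) (y := (root π a, h)), tau_eq π a hl, uu_sub]; rfl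
  refine tsum_Cn (fun n : ℤ => {(bo [], n)}) fun N => ?_
  suffices H : ∀ a, VA π a → ∀ h, ∑' n : ℤ, PP _ (CnN (HH π) N (bo a, h) {(bo [], n)}) ≤
      g a.length from H [] trivial 0
  induction N with
  | zero =>
    intro a _ h
    have : ∑' n : ℤ, PP _ (CnN (HH π) 0 (bo a, h) {(bo [], n)}) ≤
        ∑' n : ℤ, PP _ (Cn (HS π a) (bo a, h) {(bo [], n)}) :=
      ENNReal.tsum_le_tsum fun n => measure_mono fun ω h => ⟨_, h, .refl⟩
    refine this.trans ?_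
    rcases a with _ | ⟨l, a⟩
    · exact (f0 h).trans (le_self_add.trans h0)
    · rw [f1]; exact zero_le
  | succ N ih =>
    intro a ha h
    refine (ENNReal.tsum_le_tsum fun n => SL _ _ (hb a h) _ N).trans ?_
    rw [ENNReal.tsum_add, ENNReal.tsum_comm]
    simp_rw [ENNReal.tsum_mul_left]
    rcases a with _ | ⟨l, a⟩
    · refine le_trans (add_le_add (f0 h) ((ker_le _ _ (exit_nil π hM) fun v =>
        ∑' n : ℤ, PP _ (CnN (HH π) N v {(bo [], n)})).trans (kids_le π Finset.Subset.rfl _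
          fun l hl => ?_))) h0
      exact term_le (down [] l (Finset.mem_range.1 hl) h) (ih [l] ⟨Finset.mem_range.1 hl, ha⟩)
    · refine le_trans (add_le_add (f1 l a h).le ((ker_le _ _ (exit_cons π hM) fun v =>
        ∑' n : ℤ, PP _ (CnN (HH π) N v {(bo [], n)})).trans ((sum_union_le _ _ _).trans
        (add_le_add ((sum_union_le _ _ _).trans (add_le_add (kids_le π Finset.Subset.rfl _
          fun l' hl => ?_) ?_)) (kids_le π (Finset.erase_subset _ _) _ fun l' hl => ?_)))))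
        (by rw [zero_add]; exact hn a.length)
      · exact term_le (down (l :: a) l' (Finset.mem_range.1 hl) h)
          (ih (l' :: l :: a) ⟨Finset.mem_range.1 hl, ha⟩)
      · rw [Finset.sum_singleton]
        refine term_le (port π (root_mem π a) (port_up π l a) (hX _) (fun k => ?_) h) (ih a ha.2)
        simp_rw [tau_eq π a ha.1, uu_sub']; rfl
      · obtain ⟨h1, h2⟩ := Finset.mem_erase.1 hl
        rw [Finset.mem_range] at h2
        refine term_le (port π (leaf_mem π a h2) (port_up π l a) (hX _) (fun k => ?_) h)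
          (ih (l' :: a) ⟨h2, ha.2⟩)
        refine (ENNReal.tsum_le_tsum fun i => sib_le π a h1 Subset.rfl i k).trans ?_
        rw [ENNReal.tsum_mul_left]
        exact mul_le_mul' le_rfl (geo3 (by norm_num) _)

end Pool.Agent.H44.FZ
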