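import Pool.Agent.H44.FZ4

/-! Lower bound: survival with probability at least one half. -/

open Set Filter MeasureTheory ProbabilityTheory Measure Relation Sum
open scoped ENNReal

namespace Pool.Agent.H44.FZ

lemma xx_le : xx ≤ 1 := ENNReal.ofReal_le_one.2 (by norm_num)

lemma choose_term {a b : ℕ} (h : a ≤ b) {M : ℕ} (hM : M = a + b + 2)
    (hx : M * xx ^ (M / 2 - 1) ≤ 1) :
    (M.choose (a + 1) : ℕ) * xx ^ ((a + 1) * (b + 1)) ≤ M * xx ^ (M - 1) := by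
  have h1 : ((M.choose (a + 1) : ℕ) : ℝ≥0∞) ≤ M * M ^ a := by
    rw [← pow_succ']; exact_mod_cast Nat.choose_le_pow M (a + 1)
  have h2 : xx ^ ((a + 1) * (b + 1)) ≤ xx ^ (M - 1) * (xx ^ (M / 2 - 1)) ^ a := by
    rw [← pow_mul, ← pow_add]
    refine pow_le_pow_right_of_le_one' xx_le ?_
    have : (M / 2 - 1) * a ≤ b * a := Nat.mul_le_mul_right _ (by omega)
    have h3 : M - 1 = a + b + 1 := by omega
    nlinarith
  refine (mul_le_mul' h1 h2).trans ?_
  rw [mul_mul_mul_comm, ← mul_pow]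
  exact mul_le_of_le_one_right' (pow_le_one' hx _)

lemma choose_term' {M r : ℕ} (h0 : 0 < r) (h1 : r < M) (hx : M * xx ^ (M / 2 - 1) ≤ 1) :
    (M.choose r : ℕ) * xx ^ (r * (M - r)) ≤ M * xx ^ (M - 1) := by
  obtain ⟨a, rfl⟩ : ∃ a, r = a + 1 := ⟨r - 1, by omega⟩
  obtain ⟨b, hb⟩ : ∃ b, M - (a + 1) = b + 1 := ⟨M - (a + 1) - 1, by omega⟩
  rcases le_total a b with h | h
  · rw [hb]; exact choose_term h (by omega) hx
  · rw [← Nat.choose_symm h1.le, hb, mul_comm (a + 1)]; exact choose_term h (by omega) hx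

lemma half_of {a b c P : ℝ≥0∞} (ha : a ≠ ∞) (h : a ≤ P + b + c) (hb : 4 * b ≤ a) (hc : 4 * c ≤ a) :
    a ≤ 2 * P := by
  have h1 : 2 * a + 2 * a ≤ 2 * (2 * P) + 2 * a := by
    calc 2 * a + 2 * a = 4 * a := by ring
      _ ≤ 4 * (P + b + c) := mul_le_mul' le_rfl h
      _ = 2 * (2 * P) + (4 * b + 4 * c) := by ring
      _ ≤ _ := by rw [two_mul a]; gcongr
  exact (ENNReal.mul_le_mul_iff_right two_ne_zero ENNReal.ofNat_ne_top).1
    ((ENNReal.add_le_add_iff_right (ENNReal.mul_ne_top ENNReal.ofNat_ne_top ha)).1 h1)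

lemma one_sub_pow {Q : ℝ≥0∞} (h1 : Q ≤ 1) {J : ℕ} (h : 11 ≤ J * Q) : (1 - Q) ^ J ≤ 12⁻¹ := by
  have h2 : ∀ n : ℕ, (1 - Q) ^ n * (1 + n * Q) ≤ 1 := by
    intro n
    induction n with
    | zero => simp
    | succ n ih =>
      refine le_trans ?_ ih
      rw [pow_succ, mul_assoc]
      refine mul_le_mul' le_rfl ?_
      calc (1 - Q) * (1 + (n + 1 : ℕ) * Q) = (1 - Q) + (1 - Q) * Q + (1 - Q) * (n * Q) := by
            push_cast; ring
        _ ≤ (1 - Q) + 1 * Q + 1 * (n * Q) := by gcongr <;> exact tsub_le_self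
        _ = _ := by rw [one_mul, one_mul, tsub_add_cancel_of_le h1]
  rw [ENNReal.le_inv_iff_mul_le]
  refine le_trans (mul_le_mul' le_rfl ?_) (h2 J)
  calc (12 : ℝ≥0∞) = 1 + 11 := by norm_num
    _ ≤ _ := add_le_add le_rfl h

variable (π : Par)

def Sub (a : List ℕ) : Set (V0 × ℤ) := {x | a <:+ x.1.1}

def YY (a : List ℕ) (i : ℤ) (N : ℕ) : Set (Cf (V0 × ℤ)) :=
  Cn (res (HH π) (Sub a)) (bo a, i) {v | a.length + N ≤ v.1.1.length}

noncomputable def cut (a : List ℕ) (h : ℤ) (s : Finset ℕ) : Finset (Sym2 (V0 × ℤ)) :=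
  (s ×ˢ (Finset.range (π.M a.length) \ s)).image fun q => s(((a, inr q.1), h), ((a, inr q.2), h))

lemma card_cut (a : List ℕ) (h : ℤ) {s : Finset ℕ} (hs : s ⊆ Finset.range (π.M a.length)) :
    (cut π a h s).card = s.card * (π.M a.length - s.card) := by
  rw [cut, Finset.card_image_of_injOn, Finset.card_product, Finset.card_sdiff_of_subset hs,
    Finset.card_range]
  intro q hq q' hq' e
  simp only [Finset.coe_product, mem_prod, Finset.mem_coe, Finset.mem_sdiff] at hq hq'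
  simp only [Sym2.eq_iff, Prod.mk.injEq, inr.injEq, true_and, and_true] at e
  rcases e with e | e
  · exact Prod.ext e.1 e.2
  · exact absurd (e.1 ▸ hq.1) hq'.2.2

def BadG (a : List ℕ) (i : ℤ) (L : ℕ) : Set (Cf (V0 × ℤ)) :=
  ⋃ t ∈ Finset.range L, (⋃ s ∈ (Finset.range (π.M a.length)).powerset,
    {_ω | 0 < s.card ∧ s.card < π.M a.length} ∩ {ω | ∀ e ∈ cut π a (i + t) s, ω e = false}) ∪
      {ω | ∀ e ∈ clE π a (i + t + 1), ω e = false}

lemma badG_le (a : List ℕ) (i : ℤ) (L : ℕ) {M : ℕ} (hM : π.M a.length = M)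
    (hx : M * xx ^ (M / 2 - 1) ≤ 1) :
    PP _ (BadG π a i L) ≤ L * ((M + 1 : ℕ) * (M * xx ^ (M - 1)) + xx ^ M) := by
  refine (measure_biUnion_finset_le _ _).trans ((Finset.sum_le_card_nsmul _ _ _ fun t _ =>
    (measure_union_le _ _).trans (add_le_add ?_ ?_)).trans (by rw [nsmul_eq_mul, Finset.card_range]))
  · refine (measure_biUnion_finset_le _ _).trans ((Finset.sum_le_sum (g := fun s : Finset ℕ =>
      (fun r => if 0 < r ∧ r < M then xx ^ (r * (M - r)) else 0) s.card) fun s hs => ?_).trans ?_)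
    · simp only [hM]
      split_ifs with h
      · refine (measure_mono inter_subset_right).trans ?_
        rw [PP_all, rho_false, card_cut π a _ (Finset.mem_powerset.1 hs), hM]
      · simp only [h, ofPred_false, empty_inter, measure_empty, le_refl]
    · rw [Finset.sum_powerset_apply_card
        (fun r => if 0 < r ∧ r < M then xx ^ (r * (M - r)) else 0), Finset.card_range, hM]
      refine (Finset.sum_le_card_nsmul _ _ (M * xx ^ (M - 1)) fun r _ => ?_).trans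
        (by rw [nsmul_eq_mul, Finset.card_range])
      split_ifs with h
      · rw [nsmul_eq_mul]; exact choose_term' h.1 h.2 hx
      · simp
  · rw [PP_all, rho_false, card_clE, hM]

lemma good_reach {a : List ℕ} {i : ℤ} {L : ℕ} {ω : Cf (V0 × ℤ)} (h : ω ∉ BadG π a i L)
    (hM : 0 < π.M a.length) {t : ℕ} (ht : t < L) {j : ℕ} (hj : j < π.M a.length) :
    ReflTransGen (Op (res (HH π) (Sub a)) ω) (bo a, i) ((a, inr j), i + t) := by
  classical
  have row : ∀ t < L, ∀ j < π.M a.length,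
      ReflTransGen (Op (res (HH π) (Sub a)) ω) (bo a, i) ((a, inr j), i + t) → ∀ j < π.M a.length,
      ReflTransGen (Op (res (HH π) (Sub a)) ω) (bo a, i) ((a, inr j), i + t) := by
    intro t ht j hj h1 j' hj'
    by_contra h2
    obtain ⟨s, hs⟩ : ∃ s, s = (Finset.range (π.M a.length)).filter fun j =>
      ReflTransGen (Op (res (HH π) (Sub a)) ω) (bo a, i) ((a, inr j), i + t) := ⟨_, rfl⟩
    have h3 : s ⊆ Finset.range (π.M a.length) := hs ▸ Finset.filter_subset _ _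
    refine h (mem_iUnion₂.2 ⟨t, Finset.mem_range.2 ht, Or.inl (mem_iUnion₂.2
      ⟨s, Finset.mem_powerset.2 h3, ⟨Finset.card_pos.2 ⟨j, by simp [hs, hj, h1]⟩, ?_⟩, ?_⟩)⟩)
    · simpa using Finset.card_lt_card ((Finset.ssubset_iff_of_subset h3).2
        ⟨j', Finset.mem_range.2 hj', by simp [hs, h2]⟩)
    · intro e he
      obtain ⟨q, hq, rfl⟩ := Finset.mem_image.1 he
      simp only [hs, Finset.mem_product, Finset.mem_sdiff, Finset.mem_filter, Finset.mem_range] at hq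
      by_contra h4
      refine hq.2.2 ⟨hq.2.1, hq.1.2.tail ⟨⟨Or.inr ⟨?_, rfl⟩, List.suffix_refl _,
        List.suffix_refl _⟩, by simpa using h4⟩⟩
      rcases lt_trichotomy q.1 q.2 with h5 | h5 | h5
      · exact Or.inl ⟨rfl, h5, hq.2.1⟩
      · exact absurd ⟨hq.2.1, h5 ▸ hq.1.2⟩ hq.2.2
      · exact Or.inr ⟨rfl, h5, hq.1.1⟩
  induction t generalizing j with
  | zero => exact row 0 ht 0 hM (by simpa [bo] using ReflTransGen.refl) j hj
  | succ t ih =>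
    have h1 : ¬ ∀ e ∈ clE π a (i + t + 1), ω e = false := fun h1 =>
      h (mem_iUnion₂.2 ⟨t, Finset.mem_range.2 (by omega), Or.inr h1⟩)
    push Not at h1
    obtain ⟨e, he, h1⟩ := h1
    obtain ⟨k, hk, rfl⟩ := Finset.mem_image.1 he
    rw [Finset.mem_range] at hk
    refine row _ ht k hk ((ih (by omega) hk).tail ⟨⟨Or.inl ⟨rfl, Or.inl (by push_cast; ring)⟩,
      List.suffix_refl _, List.suffix_refl _⟩, ?_⟩) j hj
    rw [add_sub_cancel_right] at h1
    simpa [add_assoc] using h1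

def Win (a : List ℕ) (W : ℕ) (c : ℤ) : Set (V0 × ℤ) := {x | x ∈ RR π a ∧ |x.2 - c| ≤ W}

def Cw (a : List ℕ) (W : ℕ) (c : ℤ) (l : ℕ) : Set (Cf (V0 × ℤ)) :=
  Cn (res (HH π) (Win π a W c)) (root π a, c) {x | x.1 = leaf π a l}

lemma Cw_end {a : List ℕ} {W : ℕ} {c : ℤ} {ω : Cf (V0 × ℤ)} {y : V0 × ℤ}
    (h : ReflTransGen (Op (res (HH π) (Win π a W c)) ω) (root π a, c) y) : |y.2 - c| ≤ W := by
  rcases h.cases_tail with rfl | ⟨z, -, h⟩
  · simp
  · exact h.1.2.2.2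

lemma qW (a : List ℕ) {l : ℕ} (hl : l < 2 ^ π.d a.length) (W : ℕ) (c : ℤ) :
    uu (π.d a.length) (π.r a.length) ≤ (2 * W + 1 : ℕ) * (PP _ (Cw π a W c l) + lam ^ (W + 1)) +
      ENNReal.ofReal (1 / 4) ^ W * 3 := by
  rw [← uu_sub _ _ c]
  refine (ENNReal.tsum_le_tsum (g := fun i => (if i ∈ Finset.Icc (c - W) (c + W) then
    PP _ (Cw π a W c l) + lam ^ (W + 1) else 0) + ENNReal.ofReal (1 / 4) ^ W *
      ENNReal.ofReal (1 / 4) ^ (i - c).natAbs) fun i => ?_).trans ?_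
  · split_ifs with h
    · refine le_add_right ?_
      rw [← tau_eq π a hl]
      refine (measure_mono (first_exit (S := {x : V0 × ℤ | |x.2 - c| ≤ (W : ℤ)}) (by simp))).trans
        ((measure_union_le _ _).trans (add_le_add (measure_mono (Cn_mono (fun x y h =>
          ⟨h.1.1, ⟨h.1.2.1, h.2.1⟩, h.1.2.2, h.2.2⟩) (by rintro _ rfl; rfl))) ?_))
      exact decayG π (RR_left π Subset.rfl) (fun _ => 0) (fun i => |i - c|)
        (fun _ _ _ _ => by omega) (abs_lip c) (K := W + 1)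
        (fun t ht => by simp only [mem_compl_iff, mem_ofPred_eq] at ht; omega) _ (by simp)
    · rw [zero_add, ← pow_add]
      refine (tm_le _ _ _).trans ((mul_le_of_le_one_left' (pow_le_one' lam_le _)).trans ?_)
      rw [sub_zero, show lam = ENNReal.ofReal (1 / 4) ^ 2 by
        rw [lam, ← ENNReal.ofReal_pow (by norm_num)]; norm_num, ← pow_mul]
      refine pow_le_pow_right_of_le_one' (ENNReal.ofReal_le_one.2 (by norm_num)) ?_
      rw [Finset.mem_Icc] at h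
      omega
  · rw [ENNReal.tsum_add, ENNReal.tsum_mul_left, tsum_eq_sum (s := Finset.Icc (c - W) (c + W))
      fun i hi => if_neg hi, Finset.sum_ite_of_true fun _ h => h, Finset.sum_const, Int.card_Icc,
      nsmul_eq_mul, show (c + W + 1 - (c - W)).toNat = 2 * W + 1 by omega]
    exact add_le_add le_rfl (mul_le_mul' le_rfl (geo3 (by norm_num) c))

lemma Cw_pair (a : List ℕ) {l l' : ℕ} (h : l ≠ l') (W : ℕ) (c : ℤ) :
    PP _ (Cw π a W c l ∩ Cw π a W c l') ≤ (2 * W + 1 : ℕ) * (lam ^ (2 * π.r a.length) * 3) := by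
  have : Cw π a W c l ∩ Cw π a W c l' ⊆ ⋃ i ∈ Finset.Icc (c - W) (c + W), ⋃ k,
      Cn (res (HH π) (Win π a W c)) (leaf π a l, k) {(leaf π a l', i)} := by
    rintro ω ⟨⟨⟨_, k⟩, rfl, h1⟩, ⟨_, i⟩, rfl, h2⟩
    have := abs_le.1 (Cw_end π h2)
    exact mem_iUnion₂.2 ⟨i, Finset.mem_Icc.2 ⟨by omega, by omega⟩, mem_iUnion.2
      ⟨k, _, rfl, (rtg_symm (res_symm (HH_symm π)) h1).trans h2⟩⟩
  refine (measure_mono this).trans ((measure_biUnion_finset_le _ _).trans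
    ((Finset.sum_le_card_nsmul _ _ (lam ^ (2 * π.r a.length) * 3) fun i _ =>
      (measure_iUnion_le _).trans ((ENNReal.tsum_le_tsum fun k => sib_le π a h (fun _ h => h.1) k i).trans ?_)).trans ?_))
  · rw [ENNReal.tsum_mul_left]
    exact mul_le_mul' le_rfl (geo3 (by norm_num) i)
  · rw [nsmul_eq_mul, Int.card_Icc, show (c + W + 1 - (c - W)).toNat = 2 * W + 1 by omega]

def AA (a : List ℕ) (W : ℕ) (c : ℤ) (l : ℕ) (k : ℤ) : Set (Cf (V0 × ℤ)) :=
  Cn (res (HH π) (Win π a W c)) (root π a, c) {(leaf π a l, c + k)} ∩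
    {ω | ∀ e ∈ ({s((bo a, c), (root π a, c)), s((bo (l :: a), c + k), (leaf π a l, c + k))} :
      Finset _), ω e = true}

lemma hit_low (a : List ℕ) (W : ℕ) (c : ℤ) {g : Finset ℕ} (hg : ∀ l ∈ g, l < 2 ^ π.d a.length)
    (hA : 4 * ((2 * W + 1 : ℕ) * lam ^ (W + 1) + ENNReal.ofReal (1 / 4) ^ W * 3) ≤
      uu (π.d a.length) (π.r a.length))
    (hB : 4 * ((2 * W + 1 : ℕ) * (g.card * ((2 * W + 1 : ℕ) * (lam ^ (2 * π.r a.length) * 3)))) ≤
      uu (π.d a.length) (π.r a.length)) :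
    pp ^ 2 * (g.card * uu (π.d a.length) (π.r a.length)) ≤ 2 * ((2 * W + 1 : ℕ) *
      PP _ (⋃ z ∈ g ×ˢ Finset.Icc (-(W : ℤ)) W, AA π a W c z.1 z.2)) := by
  have h1 : g.card * uu (π.d a.length) (π.r a.length) ≤ 2 * ((2 * W + 1 : ℕ) *
      PP _ (⋃ l ∈ g, Cw π a W c l)) := by
    refine half_of (ENNReal.mul_ne_top (ENNReal.natCast_ne_top _) (ne_top_of_le_ne_top
      (ENNReal.mul_ne_top (ENNReal.pow_ne_top ENNReal.ofReal_ne_top) ENNReal.ofNat_ne_top)
      (uu_le _ _))) ?_ ((mul_left_comm _ _ _).le.trans (mul_le_mul' le_rfl hA))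
      ((mul_left_comm _ _ _).le.trans (mul_le_mul' le_rfl hB))
    have h2 := Finset.card_nsmul_le_sum g _ _ fun l hl => qW π a (hg l hl) W c
    have h3 := bonf (PP _) g (C := Cw π a W c) (fun _ => (DM.cn _ _ _).m)
      fun l _ l' _ h => Cw_pair π a h W c
    rw [nsmul_eq_mul, Finset.sum_add_distrib, ← Finset.mul_sum, Finset.sum_add_distrib,
      Finset.sum_const, Finset.sum_const, nsmul_eq_mul, nsmul_eq_mul] at h2
    refine h2.trans ((add_le_add (mul_le_mul' le_rfl (add_le_add h3 le_rfl)) le_rfl).trans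
      (le_of_eq ?_))
    ring
  refine (mul_le_mul' le_rfl h1).trans ?_
  rw [mul_left_comm, mul_left_comm (pp ^ 2)]
  gcongr
  obtain ⟨A, hA⟩ : ∃ A : ℕ × ℤ → Set (Cf (V0 × ℤ)), A = fun z =>
    Cn (res (HH π) (Win π a W c)) (root π a, c) {(leaf π a z.1, c + z.2)} := ⟨_, rfl⟩
  obtain ⟨E, hE⟩ : ∃ E : ℕ × ℤ → Finset (Sym2 (V0 × ℤ)), E = fun z =>
    {s((bo a, c), (root π a, c)), s((bo (z.1 :: a), c + z.2), (leaf π a z.1, c + z.2))} := ⟨_, rfl⟩
  have h2 := first_hit (g ×ˢ Finset.Icc (-(W : ℤ)) W) (D := Ed (res (HH π) (Win π a W c))) (A := A)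
    (D' := fun z => E z) (B := fun z => {ω | ∀ e ∈ E z, ω e = true}) DM.univ
    (fun z _ => hA ▸ DM.cn _ _ _) (fun z _ => DM.all _ _) (fun z _ => ?_) (c := 1 - pp ^ 2)
    fun z _ => ?_
  · rw [univ_inter] at h2
    have h3 : ⋃ l ∈ g, Cw π a W c l ⊆ ⋃ z ∈ g ×ˢ Finset.Icc (-(W : ℤ)) W, A z := by
      intro ω h
      obtain ⟨l, hl, ⟨_, i⟩, rfl, h⟩ := mem_iUnion₂.1 h
      have := abs_le.1 (Cw_end π h)
      exact mem_iUnion₂.2 ⟨(l, i - c), Finset.mem_product.2 ⟨hl, Finset.mem_Icc.2 this⟩,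
        by rw [hA]; exact ⟨_, by simp, h⟩⟩
    refine (mul_le_mul' le_rfl (measure_mono h3)).trans ?_
    have h4 := (measure_mono (subset_sdiff_union _ _)).trans ((measure_union_le (μ := PP _) _ _).trans
      (add_le_add h2 le_rfl))
    have h5 : pp ^ 2 ≤ 1 := pow_le_one' (ENNReal.ofReal_le_one.2 (by norm_num)) _
    refine (ENNReal.add_le_add_iff_left (a := (1 - pp ^ 2) * PP _
      (⋃ z ∈ g ×ˢ Finset.Icc (-(W : ℤ)) W, A z)) (ENNReal.mul_ne_top
        (ENNReal.sub_ne_top ENNReal.one_ne_top) (measure_ne_top _ _))).1 ?_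
    rw [← add_mul, tsub_add_cancel_of_le h5, one_mul]
    simpa only [hA, hE, AA] using h4
  · rw [disjoint_left, hE]
    rintro _ ⟨x, y, h, rfl⟩ e
    have h1 := RU_left π (Or.inl h.2.1.1)
    have h2 := RU_left π (Or.inl h.2.2.1)
    simp only [Finset.coe_insert, Finset.coe_singleton, mem_insert_iff, mem_singleton_iff,
      Sym2.eq_iff] at e
    rcases e with (⟨rfl, -⟩ | ⟨-, rfl⟩) | ⟨rfl, -⟩ | ⟨-, rfl⟩ <;> simp [bo] at h1 h2
  · rw [prob_compl_eq_one_sub (DM.all _ _).m, PP_all, rho_true, hE, Finset.card_pair]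
    simp [bo, root, leaf]

def cj (i : ℤ) (W j : ℕ) : ℤ := i + W + j * (2 * W + 1)

noncomputable def II (J W : ℕ) (g : Finset ℕ) : Finset (ℕ × ℕ × ℤ) :=
  Finset.range J ×ˢ (g ×ˢ Finset.Icc (-(W : ℤ)) W)

lemma AA_DM (a : List ℕ) (W : ℕ) (c : ℤ) {l : ℕ} (hl : l < 2 ^ π.d a.length) {k : ℤ}
    (hk : |k| ≤ W) : DM {e | (∀ x ∈ e, |x.2 - c| ≤ W) ∧ ∃ x ∈ e, x ∈ RR π a} (AA π a W c l k) := by
  refine ((DM.cn _ _ _).mono ?_).inter ((DM.all _ _).mono ?_)
  · rintro _ ⟨x, y, h, rfl⟩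
    exact ⟨by simpa using ⟨h.2.1.2, h.2.2.2⟩, x, by simp, h.2.1.1⟩
  · intro e he
    simp only [Finset.coe_insert, Finset.coe_singleton, mem_insert_iff, mem_singleton_iff] at he
    rcases he with rfl | rfl
    · exact ⟨by simp, _, by simp, root_mem π a c⟩
    · exact ⟨by simpa using hk, _, by simp, leaf_mem π a hl (c + k)⟩

lemma nohit (a : List ℕ) (W J : ℕ) (i : ℤ) {g : Finset ℕ} (hg : ∀ l ∈ g, l < 2 ^ π.d a.length)
    (hA : 4 * ((2 * W + 1 : ℕ) * lam ^ (W + 1) + ENNReal.ofReal (1 / 4) ^ W * 3) ≤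
      uu (π.d a.length) (π.r a.length))
    (hB : 4 * ((2 * W + 1 : ℕ) * (g.card * ((2 * W + 1 : ℕ) * (lam ^ (2 * π.r a.length) * 3)))) ≤
      uu (π.d a.length) (π.r a.length))
    (hJ : 2 * ((2 * W + 1 : ℕ) * 11) ≤ J * (pp ^ 2 * (g.card * uu (π.d a.length) (π.r a.length)))) :
    PP _ (⋃ z ∈ II J W g, AA π a W (cj i W z.1) z.2.1 z.2.2)ᶜ ≤ 12⁻¹ := by
  have hD : ∀ c : ℤ, DM {e : Sym2 (V0 × ℤ) | ∀ x ∈ e, |x.2 - c| ≤ (W : ℤ)}
      (⋃ z ∈ g ×ˢ Finset.Icc (-(W : ℤ)) W, AA π a W c z.1 z.2) := fun c => DM.biUnion _ fun z hz =>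
    (AA_DM π a W c (hg _ (Finset.mem_product.1 hz).1)
      (abs_le.2 (Finset.mem_Icc.1 (Finset.mem_product.1 hz).2))).mono fun _ h => h.1
  have h1 : ∀ c, 11 / J ≤ PP _ (⋃ z ∈ g ×ˢ Finset.Icc (-(W : ℤ)) W, AA π a W c z.1 z.2) := by
    intro c
    have := hJ.trans (mul_le_mul' le_rfl (hit_low π a W c hg hA hB))
    rw [mul_left_comm (J : ℝ≥0∞), mul_left_comm (J : ℝ≥0∞),
      ENNReal.mul_le_mul_iff_right two_ne_zero ENNReal.ofNat_ne_top,
      ENNReal.mul_le_mul_iff_right (by simp) (ENNReal.natCast_ne_top _)] at this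
    exact ENNReal.div_le_of_le_mul' this
  have hJ0 : (J : ℝ≥0∞) ≠ 0 := by
    rintro h
    rw [h, zero_mul] at hJ
    simp at hJ
  refine le_trans (measure_mono ?_) ((blocks (fun j => (hD (cj i W j)).compl) (fun j j' h => ?_)
    (c := 1 - 11 / J) (fun j => ?_) J).trans (one_sub_pow ((h1 0).trans prob_le_one) ?_))
  · intro ω h j hj h2
    obtain ⟨z, hz, h2⟩ := mem_iUnion₂.1 h2
    exact h (mem_iUnion₂.2 ⟨(j, z), Finset.mem_product.2 ⟨Finset.mem_range.2 hj, hz⟩, h2⟩)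
  · rw [disjoint_left]
    intro e h2 h3
    have h4 := abs_le.1 (h2 _ e.out_fst_mem)
    have h5 := abs_le.1 (h3 _ e.out_fst_mem)
    have h6 : ((j : ℤ) + 1) * (2 * W + 1) ≤ j' * (2 * W + 1) := by
      gcongr; exact_mod_cast h
    unfold cj at h4 h5
    linarith [h4.2, h5.1]
  · rw [prob_compl_eq_one_sub (hD _).m]
    exact tsub_le_tsub_left (h1 _) _
  · rw [ENNReal.mul_div_cancel hJ0 (ENNReal.natCast_ne_top _)]

lemma succeed {a : List ℕ} {W J N : ℕ} {i : ℤ} {g : Finset ℕ} (hM : 0 < π.M a.length)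
    (hg : ∀ l ∈ g, l < 2 ^ π.d a.length) {ω : Cf (V0 × ℤ)} (h : ω ∉ BadG π a i (J * (2 * W + 1)))
    (h' : ω ∈ ⋃ z ∈ II J W g, AA π a W (cj i W z.1) z.2.1 z.2.2 ∩
      YY π (z.2.1 :: a) (cj i W z.1 + z.2.2) N) : ω ∈ YY π a i (N + 1) := by
  obtain ⟨⟨j, l, k⟩, hz, ⟨⟨_, rfl, h1⟩, h2⟩, y, hy, h3⟩ := mem_iUnion₂.1 h'
  simp only [II, Finset.mem_product, Finset.mem_range] at hz
  have h4 := good_reach π h hM (t := W + j * (2 * W + 1)) (by nlinarith [hz.1]) hM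
  rw [show i + (W + j * (2 * W + 1) : ℕ) = cj i W j by unfold cj; push_cast; ring] at h4
  have hs := List.suffix_refl a
  simp only at h1 h2 h3 hy
  have h5 : Op (res (HH π) (Sub a)) ω ((a, inr 0), cj i W j) (root π a, cj i W j) :=
    ⟨⟨Or.inr ⟨Or.inl ⟨rfl, rfl, rfl⟩, rfl⟩, hs, hs⟩, h2 _ (by simp [bo])⟩
  have h6 : Op (res (HH π) (Sub a)) ω (leaf π a l, cj i W j + k) (bo (l :: a), cj i W j + k) :=
    ⟨⟨Or.inr ⟨Or.inl ⟨rfl, rfl, hg l hz.2.1, rfl⟩, rfl⟩, hs, List.suffix_cons _ _⟩,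
      by rw [Sym2.eq_swap]; exact h2 _ (by simp)⟩
  have h7 : ∀ x ∈ RR π a, x ∈ Sub a := fun x h => by rw [Sub, mem_ofPred_eq, h.1]
  have h8 := ReflTransGen.mono (p := Op (res (HH π) (Sub a)) ω)
    (fun x y h => ⟨⟨h.1.1, h7 _ h.1.2.1.1, h7 _ h.1.2.2.1⟩, h.2⟩) _ _ h1
  have h9 := ReflTransGen.mono (p := Op (res (HH π) (Sub a)) ω)
    (fun x y h => ⟨⟨h.1.1, (List.suffix_cons l a).trans h.1.2.1,
      (List.suffix_cons l a).trans h.1.2.2⟩, h.2⟩) _ _ h3
  exact ⟨y, by simp only [mem_ofPred_eq, List.length_cons] at hy ⊢; omega,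
    (h4.tail h5).trans ((h8.tail h6).trans h9)⟩

theorem lower (hM : ∀ n, 0 < π.M n) {W J K : ℕ → ℕ} (hK : ∀ n, 2 ^ π.d n = 2 * K n)
    (hx : ∀ n, π.M n * xx ^ (π.M n / 2 - 1) ≤ 1)
    (hG : ∀ n, (J n * (2 * W n + 1) : ℕ) * ((π.M n + 1 : ℕ) * (π.M n * xx ^ (π.M n - 1)) +
      xx ^ π.M n) ≤ 12⁻¹)
    (hA : ∀ n, 4 * ((2 * W n + 1 : ℕ) * lam ^ (W n + 1) + ENNReal.ofReal (1 / 4) ^ W n * 3) ≤
      uu (π.d n) (π.r n))
    (hB : ∀ n, 4 * ((2 * W n + 1 : ℕ) * (K n * ((2 * W n + 1 : ℕ) * (lam ^ (2 * π.r n) * 3)))) ≤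
      uu (π.d n) (π.r n))
    (hJ : ∀ n, 2 * ((2 * W n + 1 : ℕ) * 11) ≤ J n * (pp ^ 2 * (K n * uu (π.d n) (π.r n))))
    (N : ℕ) : ∀ a i, PP _ (YY π a i N)ᶜ ≤ 2⁻¹ := by
  induction N with
  | zero =>
    intro a i
    rw [eq_univ_of_forall (s := YY π a i 0) fun ω => ⟨(bo a, i), le_refl a.length, .refl⟩]
    simp
  | succ N ih =>
    intro a i
    obtain ⟨n, hn⟩ : ∃ n, n = a.length := ⟨_, rfl⟩
    obtain ⟨A, eA⟩ : ∃ A : ℕ × ℕ × ℤ → Set (Cf (V0 × ℤ)), A = fun z =>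
      AA π a (W n) (cj i (W n) z.1) z.2.1 z.2.2 := ⟨_, rfl⟩
    obtain ⟨B, eB⟩ : ∃ B : ℕ × ℕ × ℤ → Set (Cf (V0 × ℤ)), B = fun z =>
      YY π (z.2.1 :: a) (cj i (W n) z.1 + z.2.2) N := ⟨_, rfl⟩
    have g0 : ∀ l ∈ Finset.range (K n), l < 2 ^ π.d a.length := fun l hl => by
      rw [← hn, hK]; have := Finset.mem_range.1 hl; omega
    have g1 : ∀ l ∈ Finset.Ico (K n) (2 * K n), l < 2 ^ π.d a.length := fun l hl => by
      rw [← hn, hK]; exact (Finset.mem_Ico.1 hl).2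
    have c1 : (Finset.Ico (K n) (2 * K n)).card = K n := by simp; omega
    have n0 := nohit π a (W n) (J n) i g0 (hn ▸ hA n) (by rw [Finset.card_range, ← hn]; exact hB n)
      (by rw [Finset.card_range, ← hn]; exact hJ n)
    have n1 := nohit π a (W n) (J n) i g1 (hn ▸ hA n) (by rw [c1, ← hn]; exact hB n)
      (by rw [c1, ← hn]; exact hJ n)
    have dA : ∀ {g}, (∀ l ∈ g, l < 2 ^ π.d a.length) → ∀ z ∈ II (J n) (W n) g,
        DM {e | ∃ x ∈ e, x ∈ RR π a} (A z) := fun hg z hz => by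
      simp only [II, Finset.mem_product, Finset.mem_Icc] at hz
      exact eA ▸ (AA_DM π a _ _ (hg _ hz.2.1) (abs_le.2 hz.2.2)).mono fun _ h => h.2
    have dB : ∀ z, DM {e | ∀ x ∈ e, x ∈ Sub (z.2.1 :: a)} (B z) := fun z =>
      eB ▸ (DM.cn _ _ _).mono (by rintro _ ⟨x, y, h, rfl⟩; exact Sym2.forall_mem_pair.2 h.2)
    have dis : ∀ l, Disjoint {e : Sym2 (V0 × ℤ) | ∃ x ∈ e, x ∈ RR π a}
        {e | ∀ x ∈ e, x ∈ Sub (l :: a)} := fun l => disjoint_left.2 (by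
      rintro e ⟨x, h1, h2, -⟩ h3
      have := (h3 x h1).length_le
      simp [h2] at this)
    have hB' : ∀ z, PP _ (B z)ᶜ ≤ 2⁻¹ := fun z => eB ▸ ih _ _
    have f0 := first_hit (II (J n) (W n) (Finset.range (K n))) DM.univ (dA g0) (fun z _ => dB z)
      (fun z _ => dis _) fun z _ => hB' z
    rw [univ_inter] at f0
    have f1 := first_hit (II (J n) (W n) (Finset.Ico (K n) (2 * K n)))
      (D := {e | ∃ x ∈ e, x ∈ RR π a} ∪ {e | ∃ l < K n, ∀ x ∈ e, x ∈ Sub (l :: a)})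
      ((DM.biUnion _ fun z hz => (dA g0 z hz).mono subset_union_left).diff
        (DM.biUnion _ fun z hz => ((dA g0 z hz).mono subset_union_left).inter ((dB z).mono
          fun e he => Or.inr ⟨_, Finset.mem_range.1 (Finset.mem_product.1
            (Finset.mem_product.1 hz).2).1, he⟩)))
      (fun z hz => (dA g1 z hz).mono subset_union_left) (fun z _ => dB z)
      (fun z hz => disjoint_union_left.2 ⟨dis _, disjoint_left.2 (by
        rintro e ⟨l, h1, h2⟩ h3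
        have := List.suffix_of_suffix_length_le (h2 _ e.out_fst_mem) (h3 _ e.out_fst_mem) le_rfl
        have := this.eq_of_length rfl
        simp only [II, Finset.mem_product, Finset.mem_Ico] at hz
        have := (List.cons.inj this).1
        omega)⟩) fun z _ => hB' z
    have f2 := f1.trans (mul_le_mul' le_rfl ((measure_mono inter_subset_left).trans
      (f0.trans (mul_le_of_le_one_right' prob_le_one))))
    have f3 := (badG_le π a i (J n * (2 * W n + 1)) (congrArg π.M hn.symm) (hx n)).trans (hG n)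
    refine (measure_mono fun ω h => ?_).trans ((measure_union_le _ _).trans ((add_le_add
      ((measure_union_le _ _).trans (add_le_add ((measure_union_le _ _).trans (add_le_add f3 n0))
        n1)) f2).trans (le_of_eq ?_)))
    · by_contra h1
      simp only [mem_union, not_or, mem_compl_iff, not_not, Set.mem_sdiff, mem_inter_iff] at h1
      obtain ⟨⟨⟨h1, h2⟩, h3⟩, h4⟩ := h1
      have h5 := fun g hg h' => h (succeed π (g := g) (hM _) hg h1 h')
      rw [eA, eB] at h4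
      exact h4 ⟨⟨⟨h2, h5 _ g0⟩, h3⟩, h5 _ g1⟩
    · rw [← ENNReal.toReal_eq_toReal_iff' (by finiteness) (by finiteness)]
      rw [ENNReal.toReal_add (by finiteness) (by finiteness), ENNReal.toReal_add (by finiteness)
        (by finiteness), ENNReal.toReal_add (by finiteness) (by finiteness)]
      simp
      norm_num

end Pool.Agent.H44.FZ
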