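import Pool.Agent.H44.FZ5

/-! The base graph: local finiteness, critical probability one, and the transfer. -/

open Set Filter MeasureTheory ProbabilityTheory Measure Relation Sum Topology
open scoped ENNReal

namespace Pool.Agent.H44.FZ

variable (π : Par)

lemma GA_ne (u : V0) : ¬ GA π u u := by
  obtain ⟨a, u | j⟩ := u <;> simp [GA, E0, up]

abbrev VV : Type := {v : V0 // ReflTransGen (GA π) (bo []) v}

def GG : SimpleGraph (VV π) where
  Adj u v := GA π u.1 v.1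
  symm := ⟨fun _ _ h => Or.symm h⟩
  loopless := ⟨fun u => GA_ne π u.1⟩

def oo : VV π := ⟨bo [], .refl⟩

lemma GG_conn : (GG π).Connected := by
  refine (SimpleGraph.connected_iff_exists_forall_reachable _).2 ⟨oo π, fun ⟨v, h⟩ => ?_⟩
  induction h with
  | refl => exact .rfl
  | tail h1 h2 ih => exact ih.trans (SimpleGraph.Adj.reachable (G := GG π) h2)

def Vd (v : V0) : Prop := VA π v.1 ∧ ((v, (0 : ℤ)) ∈ RR π v.1 ∨ (v, (0 : ℤ)) ∈ BB π v.1)

lemma Vd_step (hM : ∀ n, 0 < π.M n) {u v : V0} (h2 : GA π u v) (ih : Vd π u) : Vd π v := by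
  have h5 := root_mem π v.1 0
  have h6 := fun l h => leaf_mem π v.1 (l := l) h 0
  obtain ⟨b, ⟨t, s⟩ | j'⟩ := u <;> obtain ⟨c, ⟨t', s'⟩ | j⟩ := v <;>
    simp only [Vd, GA, E0, RR, BB, leaf, root, mem_ofPred_eq, Prod.mk.injEq, inl.injEq, inr.injEq,
      reduceCtorEq, false_and, exists_false, or_false, false_or, exists_eq_left',
      true_and] at h2 ih h5 h6 ⊢ <;> grind [VA]

lemma valid (hM : ∀ n, 0 < π.M n) (v : VV π) : Vd π v.1 := by
  obtain ⟨v, h⟩ := v
  induction h with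
  | refl => exact ⟨trivial, Or.inr ⟨rfl, 0, rfl, hM _⟩⟩
  | tail _ h2 ih => exact Vd_step π hM h2 ih

def AL : ℕ → Finset (List ℕ)
  | 0 => {[]}
  | n + 1 => (Finset.range (2 ^ π.d n) ×ˢ AL n).image fun q => q.1 :: q.2

lemma mem_AL {a : List ℕ} (h : VA π a) : a ∈ AL π a.length := by
  induction a with
  | nil => simp [AL]
  | cons l a ih =>
    exact Finset.mem_image.2 ⟨(l, a), Finset.mem_product.2 ⟨Finset.mem_range.2 h.1, ih h.2⟩, rfl⟩

lemma AL_len {n : ℕ} : ∀ a ∈ AL π n, a.length = n := by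
  induction n with
  | zero => simp [AL]
  | succ n ih =>
    intro a h
    obtain ⟨q, hq, rfl⟩ := Finset.mem_image.1 h
    simp [ih _ (Finset.mem_product.1 hq).2]

lemma card_AL (n : ℕ) : (AL π n).card ≤ ∏ j ∈ Finset.range n, 2 ^ π.d j := by
  induction n with
  | zero => simp [AL]
  | succ n ih =>
    refine Finset.card_image_le.trans ?_
    rw [Finset.card_product, Finset.card_range, Finset.prod_range_succ, mul_comm]
    exact Nat.mul_le_mul_right _ ih

lemma VA_suffix {a b : List ℕ} (h : a <:+ b) (hb : VA π b) : VA π a := by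
  obtain ⟨c, rfl⟩ := h
  induction c with
  | nil => exact hb
  | cons l c ih => exact ih hb.2

lemma fin_level (hM : ∀ n, 0 < π.M n) (n : ℕ) : {v : VV π | v.1.1.length < n}.Finite := by
  refine Finite.of_finite_image (f := Subtype.val) (Finite.subset (Finset.finite_toSet
    ((Finset.range n).biUnion fun m => (AL π m).biUnion fun a => rf π a ∪
      (Finset.range (π.M m)).image fun j => (a, inr j))) ?_) Subtype.val_injective.injOn
  rintro _ ⟨v, hv, rfl⟩
  obtain ⟨h1, h2⟩ := valid π hM v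
  refine Finset.mem_biUnion.2 ⟨_, Finset.mem_range.2 hv, Finset.mem_biUnion.2 ⟨_, mem_AL π h1,
    Finset.mem_union.2 (h2.imp (mem_rf π) fun ⟨_, j, h3, h4⟩ => Finset.mem_image.2
      ⟨j, Finset.mem_range.2 h4, Prod.ext rfl h3.symm⟩)⟩⟩

lemma loc_fin (hM : ∀ n, 0 < π.M n) (v : VV π) : ((GG π).neighborSet v).Finite := by
  refine (fin_level π hM (v.1.1.length + 2)).subset ?_
  rintro ⟨⟨c, u | j⟩, _⟩ h <;> obtain ⟨⟨b, u' | j'⟩, _⟩ := v <;>
    simp only [SimpleGraph.mem_neighborSet, GG, GA, E0, mem_ofPred_eq] at h ⊢ <;> grind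

def Dn (a : List ℕ) (l t : ℕ) : Set V0 :=
  {v | (l :: a) <:+ v.1 ∨ (v.1 = a ∧ ∃ t' : ℤ, t + 1 ≤ t' ∧ v.2 = inl (t', l))}

lemma bridge {a : List ℕ} {l t : ℕ} (ht : t < π.r a.length) {u v : V0} (h : GA π u v)
    (hu : u ∉ Dn a l t) (hv : v ∈ Dn a l t) : 
    u = (a, inl ((t : ℤ), l)) ∧ v = (a, inl ((t : ℤ) + 1, l)) := by
  obtain ⟨b, ⟨t1, s⟩ | j'⟩ := u <;> obtain ⟨c, ⟨t', s'⟩ | j⟩ := v <;>
    simp only [Dn, GA, E0, up, mem_ofPred_eq, Prod.mk.injEq, inl.injEq, reduceCtorEq, and_false,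
      exists_false, or_false, show ∀ (x : ℤ) (p : Prop), (∃ y, (t : ℤ) + 1 ≤ y ∧ x = y ∧ p) ↔
        (t + 1 ≤ x ∧ p) from fun x p => ⟨by rintro ⟨_, h, rfl, h'⟩; exact ⟨h, h'⟩,
          fun h => ⟨x, h.1, rfl, h.2⟩⟩] at * <;> grind [List.suffix_cons_iff]

def ed (a : List ℕ) (l t : ℕ) : Sym2 V0 := s((a, inl (t, l)), (a, inl (t + 1, l)))

noncomputable def Pa (n0 : ℕ) : List ℕ → Finset (Sym2 V0)
  | [] => ∅
  | l :: a => (Finset.range (if n0 ≤ a.length then π.r a.length else 0)).image (ed a l) ∪ Pa n0 a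

lemma Pa_spec {n0 : ℕ} {b : List ℕ} : ∀ e ∈ Pa π n0 b, ∃ a l t, (l :: a) <:+ b ∧ n0 ≤ a.length ∧
    t < π.r a.length ∧ e = ed a l t := by
  induction b with
  | nil => simp [Pa]
  | cons l a ih =>
    intro e he
    rcases Finset.mem_union.1 he with h | h
    · obtain ⟨t, h1, rfl⟩ := Finset.mem_image.1 h
      rw [Finset.mem_range] at h1
      split_ifs at h1 with h2
      · exact ⟨a, l, t, List.suffix_refl _, h2, h1, rfl⟩
      · omega
    · obtain ⟨a', l', t, h1, h2⟩ := ih e h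
      exact ⟨a', l', t, h1.trans (List.suffix_cons _ _), h2⟩

lemma card_Pa (n0 : ℕ) (b : List ℕ) :
    (Pa π n0 b).card = ∑ j ∈ Finset.range b.length, if n0 ≤ j then π.r j else 0 := by
  induction b with
  | nil => simp [Pa]
  | cons l a ih =>
    rw [Pa, Finset.card_union_of_disjoint, Finset.card_image_of_injective, Finset.card_range, ih,
      List.length_cons, Finset.sum_range_succ, add_comm]
    · intro t t' h
      simp [ed] at h
      omega
    · rw [Finset.disjoint_left]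
      intro e h1 h2
      obtain ⟨t, -, rfl⟩ := Finset.mem_image.1 h1
      obtain ⟨a', l', t', h3, -, -, h4⟩ := Pa_spec π _ h2
      have := h3.length_le
      simp [ed] at h4
      grind

theorem pc_one (hM : ∀ n, 0 < π.M n) {q : ℝ}
    (hq : ∀ᶠ n in atTop, (2 ^ π.d n : ℕ) * ENNReal.ofReal q ^ π.r n ≤ 2⁻¹)
    (Ω : Type) [MeasurableSpace Ω] (P : Measure Ω) (ξ : Ω → Set (Sym2 (VV π)))
    (hi : iIndepSet (fun e => {w | e ∈ ξ w}) P) (hp : ∀ e, P {w | e ∈ ξ w} = ENNReal.ofReal q) :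
    ∀ᵐ w ∂P, ∀ x : VV π, {y | (GG π ⊓ SimpleGraph.fromEdgeSet (ξ w)).Reachable x y}.Finite := by
  classical
  refine ae_all_iff.2 fun x => ?_
  obtain ⟨n0, hn0⟩ : ∃ n, n = x.1.1.length + 1 := ⟨_, rfl⟩
  have hinj := Sym2.map.injective (Subtype.val_injective (p := fun v => ReflTransGen (GA π) (bo []) v))
  have h1 : ∀ E : Finset (Sym2 V0), P {w | ∀ e ∈ E, ∃ e' ∈ ξ w, Sym2.map Subtype.val e' = e} ≤
      ENNReal.ofReal q ^ E.card := by
    intro E
    by_cases h : ∀ e ∈ E, e ∈ range (Sym2.map (Subtype.val : VV π → V0))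
    · have := hi.meas_biInter (E.preimage _ hinj.injOn)
      simp only [hp, Finset.prod_const] at this
      rw [Finset.card_preimage, Finset.filter_true_of_mem h] at this
      refine (measure_mono fun w hw => mem_iInter₂.2 fun e he => ?_).trans this.le
      obtain ⟨e', h1, h2⟩ := hw _ (Finset.mem_preimage.1 he)
      exact hinj h2 ▸ h1
    · rw [eq_empty_of_forall_notMem (s := {w | ∀ e ∈ E, _}) fun w hw => h fun e he => ?_]
      · simp
      · obtain ⟨e', -, h2⟩ := hw e he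
        exact ⟨e', h2⟩
  obtain ⟨T, hT⟩ : ∃ T : ℕ → ℝ≥0∞, T = fun n => (∏ j ∈ Finset.range n, 2 ^ π.d j : ℕ) *
    ENNReal.ofReal q ^ ∑ j ∈ Finset.range n, if n0 ≤ j then π.r j else 0 := ⟨_, rfl⟩
  have h2 : ∀ n, P {w | ¬ {y | (GG π ⊓ SimpleGraph.fromEdgeSet (ξ w)).Reachable x y}.Finite} ≤
      T n := by
    intro n
    refine (measure_mono (t := ⋃ a ∈ AL π n, {w | ∀ e ∈ Pa π n0 a, ∃ e' ∈ ξ w,
      Sym2.map Subtype.val e' = e}) fun w hw => ?_).trans ((measure_biUnion_finset_le _ _).trans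
      ((Finset.sum_le_card_nsmul _ _ _ fun a ha => (h1 _).trans
        (by rw [card_Pa, AL_len π a ha])).trans ?_))
    · obtain ⟨y, hy, h3⟩ := not_subset.1 fun h => hw ((fin_level π hM n).subset h)
      have h4 := List.drop_suffix (y.1.1.length - n) y.1.1
      have h5 := mem_AL π (VA_suffix π h4 (valid π hM y).1)
      rw [List.length_drop, show y.1.1.length - (y.1.1.length - n) = n by
        simp only [mem_ofPred_eq] at h3; omega] at h5
      refine mem_iUnion₂.2 ⟨_, h5, fun e he => ?_⟩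
      obtain ⟨a, l, t, h6, h7, h8, rfl⟩ := Pa_spec π e he
      have h9 : y.1 ∈ Dn a l t := Or.inl (h6.trans h4)
      have h10 : x.1 ∉ Dn a l t := by
        rintro (h | h)
        · have := h.length_le; simp at this; omega
        · rw [← h.1] at h7; omega
      replace hy := (SimpleGraph.reachable_iff_reflTransGen _ _).1 hy
      clear h3 h4 h5 h6 he
      induction hy with
      | refl => exact absurd h9 h10
      | @tail u v _ h3 ih =>
        by_cases hu : u.1 ∈ Dn a l t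
        · exact ih hu
        · obtain ⟨e1, e2⟩ := bridge π h8 h3.1 hu h9
          exact ⟨s(u, v), h3.2.1, by simp [ed, ← e1, ← e2]⟩
    · rw [nsmul_eq_mul, hT]
      exact mul_le_mul' (Nat.cast_le.2 (card_AL π n)) le_rfl
  obtain ⟨N, hN⟩ := eventually_atTop.1 (hq.and (eventually_ge_atTop n0))
  have h3 : ∀ k, T (N + k) ≤ T N * 2⁻¹ ^ k := by
    intro k
    induction k with
    | zero => simp
    | succ k ih =>
      have := hN (N + k) (by omega)
      rw [pow_succ, ← mul_assoc]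
      refine le_trans (le_of_eq ?_) (mul_le_mul' ih this.1)
      simp only [hT, ← add_assoc, Finset.prod_range_succ, Finset.sum_range_succ, if_pos this.2]
      push_cast
      ring
  have h4 : Tendsto (fun k : ℕ => T N * 2⁻¹ ^ k) atTop (𝓝 (T N * 0)) :=
    ENNReal.Tendsto.const_mul (ENNReal.tendsto_pow_atTop_nhds_zero_of_lt_one (by simp))
      (Or.inr (by rw [hT]; finiteness))
  rw [mul_zero] at h4
  exact le_zero_iff.1 (ge_of_tendsto' h4 fun k => (h2 _).trans (h3 k))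

def io (x : VV π × ℤ) : V0 × ℤ := (x.1.1, x.2)

lemma io_inj : Function.Injective (io π) := fun _ _ h =>
  Prod.ext (Subtype.ext (congrArg Prod.fst h)) (congrArg (Prod.snd : V0 × ℤ → ℤ) h)

def xi (ω : Cf (V0 × ℤ)) : Set (Sym2 (VV π × ℤ)) := {e | ω (Sym2.map (io π) e) = true}

lemma adj_iff (ω : Cf (V0 × ℤ)) (x y : VV π × ℤ) : ((GG π).boxProd (SimpleGraph.hasse ℤ) ⊓
    SimpleGraph.fromEdgeSet (xi π ω)).Adj x y ↔ Op (HH π) ω (io π x) (io π y) := by
  have h1 : ((GG π).boxProd (SimpleGraph.hasse ℤ)).Adj x y ↔ HH π (io π x) (io π y) := by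
    simp only [SimpleGraph.boxProd_adj, SimpleGraph.hasse_adj, Order.covBy_iff_add_one_eq, HH, pr,
      io, GG, Subtype.val_inj]
    grind
  simp only [SimpleGraph.inf_adj, SimpleGraph.fromEdgeSet_adj, Op, ← h1]
  exact ⟨fun h => ⟨h.1, h.2.1⟩, fun h => ⟨h.1, h.2, h.1.ne⟩⟩

lemma reach_of {ω : Cf (V0 × ℤ)} {z : V0 × ℤ} (h : ReflTransGen (Op (HH π) ω) (bo [], 0) z) :
    ∃ y, z = io π y ∧ ((GG π).boxProd (SimpleGraph.hasse ℤ) ⊓
      SimpleGraph.fromEdgeSet (xi π ω)).Reachable (oo π, 0) y := by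
  induction h with
  | refl => exact ⟨(oo π, 0), rfl, .rfl⟩
  | @tail u v _ h ih =>
    obtain ⟨y, rfl, h1⟩ := ih
    have : ReflTransGen (GA π) (bo []) v.1 := by
      rcases h.1 with h2 | h2
      · exact h2.1 ▸ y.1.2
      · exact y.1.2.tail h2.1
    exact ⟨(⟨v.1, this⟩, v.2), rfl, h1.trans ((adj_iff π ω _ _).2 h).reachable⟩

lemma xi_indep : iIndepSet (fun e => {ω | e ∈ xi π ω}) (PP (V0 × ℤ)) := by
  have : iIndepSet (fun e => {ω : Cf (V0 × ℤ) | ω e = true}) (PP (V0 × ℤ)) := by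
    rw [iIndepSet_iff_meas_biInter fun e => (DM.one e true).m]
    intro s
    rw [show ⋂ e ∈ s, {ω : Cf (V0 × ℤ) | ω e = true} = {ω | ∀ e ∈ s, ω e = true} by ext; simp,
      PP_all, rho_true]
    simp [PP_open]
  exact this.precomp (Sym2.map.injective (io_inj π))

lemma inf_of {ω : Cf (V0 × ℤ)} (h : ∀ N, ω ∈ YY π [] 0 N) : {y | ((GG π).boxProd
    (SimpleGraph.hasse ℤ) ⊓ SimpleGraph.fromEdgeSet (xi π ω)).Reachable (oo π, 0) y}.Infinite ∧
    Infinite (VV π) := by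
  have : ∀ N, ∃ y, ((GG π).boxProd (SimpleGraph.hasse ℤ) ⊓
      SimpleGraph.fromEdgeSet (xi π ω)).Reachable (oo π, 0) y ∧ N < y.1.1.1.length := by
    intro N
    obtain ⟨z, h1, h2⟩ := Cn_mono (fun _ _ h => h.1) Subset.rfl (h (N + 1))
    obtain ⟨y, rfl, h3⟩ := reach_of π h2
    exact ⟨y, h3, by simpa [io] using h1⟩
  refine ⟨Infinite.of_image (fun y => y.1.1.1.length) (infinite_of_forall_exists_gt fun N => ?_),
    infinite_univ_iff.1 (Infinite.of_image (fun y => y.1.1.length)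
      (infinite_of_forall_exists_gt fun N => ?_))⟩
  · obtain ⟨y, h1, h2⟩ := this N
    exact ⟨_, ⟨y, h1, rfl⟩, h2⟩
  · obtain ⟨y, -, h2⟩ := this N
    exact ⟨_, ⟨y.1, trivial, rfl⟩, h2⟩

lemma surv (h : ∀ N, PP _ (YY π [] 0 N)ᶜ ≤ 2⁻¹) : ¬ ∀ᵐ ω ∂PP (V0 × ℤ), ¬ ∀ N, ω ∈ YY π [] 0 N := by
  intro h1
  have h2 : PP _ (⋃ N, (YY π [] 0 N)ᶜ) ≤ 2⁻¹ := by
    rw [Monotone.measure_iUnion (s := fun N => (YY π [] 0 N)ᶜ) fun N M hN => compl_subset_compl.2
      (Cn_mono (fun _ _ h => h) fun v (hv : _ ≤ _) => le_trans (Nat.add_le_add_left hN _) hv)]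
    exact iSup_le h
  have h3 : PP _ univ ≤ PP _ (⋃ N, (YY π [] 0 N)ᶜ) := measure_mono_ae (by
    filter_upwards [h1] with ω h _
    exact mem_iUnion.2 (not_forall.1 h))
  have := h3.trans h2
  simp at this

lemma fiber_fin (h : ∑' n : ℤ, PP _ (Cn (HH π) (bo [], 0) {(bo [], n)}) ≠ ∞) :
    ∀ᵐ ω ∂PP (V0 × ℤ), {n : ℤ | ((GG π).boxProd (SimpleGraph.hasse ℤ) ⊓
      SimpleGraph.fromEdgeSet (xi π ω)).Reachable (oo π, 0) (oo π, n)}.Finite := by
  filter_upwards [ae_finite_setOfPred_mem h] with ω h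
  refine h.subset fun n hn => ⟨_, rfl, ?_⟩
  exact ReflTransGen.lift (p := Op (HH π) ω) (io π) (fun x y h => (adj_iff π ω x y).1 h) _ _
    ((SimpleGraph.reachable_iff_reflTransGen _ _).1 hn)

end Pool.Agent.H44.FZ
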