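import Mathlib

/-! Numerical choices of the level parameters. -/

namespace Pool.Agent.H44.FZ

lemma lin_pow {z : ℕ} (h : 9 ≤ z) : 32 * z + 32 ≤ 2 ^ z := by
  induction z, h using Nat.le_induction with
  | base => norm_num
  | succ n _ ih => rw [pow_succ]; omega

lemma pow16 {D : ℕ} (h : 1000 ≤ D) : D ^ 16 ≤ 2 ^ D := by
  have h1 := lin_pow (z := D / 16) (by omega)
  calc D ^ 16 ≤ (2 ^ (D / 16)) ^ 16 := Nat.pow_le_pow_left (by omega) _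
    _ = 2 ^ (D / 16 * 16) := by rw [pow_mul]
    _ ≤ _ := Nat.pow_le_pow_right two_pos (by omega)

lemma poly_le {D : ℕ} (h : 1000 ≤ D) {c : ℝ} {j : ℕ} (hc : c ≤ 10 ^ 9) (hj : j ≤ 13) :
    c * (D : ℝ) ^ j ≤ 2 ^ D := by
  have h1 : (1000 : ℝ) ≤ D := by exact_mod_cast h
  have h2 : (D : ℝ) ^ 16 ≤ 2 ^ D := by exact_mod_cast pow16 h
  calc c * (D : ℝ) ^ j ≤ D ^ 3 * D ^ 13 := by
        gcongr
        · exact hc.trans ((by norm_num : (10 : ℝ) ^ 9 ≤ 1000 ^ 3).trans (by gcongr))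
        · linarith
    _ = D ^ 16 := by ring
    _ ≤ _ := h2

lemma two_le {a b : ℕ} (h : a ≤ b) : (2 : ℝ) ^ a ≤ 2 ^ b := pow_le_pow_right₀ one_le_two h

def zz (D : ℕ) : ℕ := 20 * D + D ^ 2
def ww (D : ℕ) : ℕ := 2 * (4 * zz D) + 1
def KK (D : ℕ) : ℕ := 2 ^ (20 * D - 1)

lemma ww_le {D : ℕ} (h : 1000 ≤ D) : (ww D : ℝ) ≤ D ^ 3 := by
  have : ww D ≤ D ^ 3 := by unfold ww zz; nlinarith [Nat.mul_le_mul_right (D ^ 2) h]
  exact_mod_cast this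

lemma x128 : (127 / 128 : ℝ) ^ 128 ≤ 1 / 2 := by norm_num

lemma level {D : ℕ} (hD : 1000 ≤ D) {u : ℝ} (h1 : 1 ≤ u * 2 ^ (7 * zz D))
    (h2 : u * 2 ^ (4 * zz D) ≤ 3) : ∃ J M : ℕ, 0 < M ∧
      M * (127 / 128 : ℝ) ^ (M / 2 - 1) ≤ 1 ∧
      (J * ww D : ℕ) * ((M + 1 : ℕ) * (M * (127 / 128 : ℝ) ^ (M - 1)) + (127 / 128) ^ M) ≤ 12⁻¹ ∧
      2 * (ww D * 11) ≤ J * ((1 / 128 : ℝ) ^ 2 * (KK D * u)) ∧
      2 * (ww D * ((127 / 128 : ℝ) ^ M / 2)⁻¹) ≤ 2 ^ (2 * D) / (KK D * u) := by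
  have hu : 0 < u := (mul_pos_iff_of_pos_right (by positivity)).1 (one_pos.trans_le h1)
  have hz : D + 20 ≤ zz D := by unfold zz; omega
  have hK1 : (1 : ℝ) ≤ KK D := by exact_mod_cast Nat.one_le_two_pow
  have hK : KK D * u ≤ 3 := by
    refine le_trans ?_ h2
    rw [mul_comm, KK]; push_cast
    exact mul_le_mul_of_nonneg_left (two_le (by unfold zz; omega)) hu.le
  have hw1 : (1 : ℝ) ≤ ww D := by exact_mod_cast Nat.le_add_left 1 _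
  have hw := ww_le hD
  have hD' : (1000 : ℝ) ≤ D := by exact_mod_cast hD
  have hKu : 0 < KK D * u := by positivity
  obtain ⟨A, hA⟩ : ∃ A : ℝ, A = 22 * 128 ^ 2 * ww D / (KK D * u) := ⟨_, rfl⟩
  have hA1 : 1 ≤ A := by rw [hA, one_le_div hKu]; nlinarith
  obtain ⟨J, hJ⟩ : ∃ J, J = ⌈A⌉₊ := ⟨_, rfl⟩
  have j1 : A ≤ J := hJ ▸ Nat.le_ceil A
  have j2 : J ≤ 2 * A := by have := Nat.ceil_lt_add_one (zero_le_one.trans hA1); rw [hJ]; linarith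
  have j3 : (1 : ℝ) ≤ J := hA1.trans j1
  have p1 : (1 : ℝ) ≤ 2 ^ D := one_le_pow₀ one_le_two
  obtain ⟨θ, hθ⟩ : ∃ θ : ℝ, θ = ((J : ℝ) * 2 ^ D)⁻¹ := ⟨_, rfl⟩
  have t0 : 0 < θ := by rw [hθ]; positivity
  have t1 : θ * (J * 2 ^ D) = 1 := by rw [hθ]; exact inv_mul_cancel₀ (by positivity)
  obtain ⟨m, m1, m2⟩ := exists_nat_pow_near_of_lt_one t0
    (hθ ▸ inv_le_one_of_one_le₀ (by nlinarith)) (by norm_num : (0 : ℝ) < 127 / 128) (by norm_num)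
  have b2 : (J : ℝ) * 2 ^ D ≤ 2 ^ (9 * zz D) := by
    have e1 : A ≤ 22 * 128 ^ 2 * ww D * 2 ^ (7 * zz D) := by
      rw [hA, div_le_iff₀ hKu, mul_assoc _ _ (KK D * u)]
      refine le_mul_of_one_le_right (by positivity) ?_
      nlinarith
    have e2 : (ww D : ℝ) ≤ 2 ^ zz D := by
      have := lin_pow (z := zz D) (by omega)
      exact_mod_cast (show ww D ≤ 2 ^ zz D by unfold ww; omega)
    have e3 : (2 : ℝ) ^ 20 * 2 ^ D ≤ 2 ^ zz D := by rw [← pow_add]; exact two_le (by omega)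
    calc (J : ℝ) * 2 ^ D ≤ 2 * (22 * 128 ^ 2 * 2 ^ zz D * 2 ^ (7 * zz D)) * 2 ^ D := by
          gcongr
          exact j2.trans (by gcongr; exact e1.trans (by gcongr))
      _ ≤ (2 ^ 20 * 2 ^ D) * 2 ^ zz D * 2 ^ (7 * zz D) := by
          have : (0 : ℝ) ≤ 2 ^ D * 2 ^ zz D * 2 ^ (7 * zz D) := by positivity
          nlinarith
      _ ≤ 2 ^ zz D * 2 ^ zz D * 2 ^ (7 * zz D) := by gcongr
      _ = _ := by ring
  have b3 : m / 128 ≤ 9 * zz D := by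
    by_contra h
    have e1 : (127 / 128 : ℝ) ^ m ≤ (1 / 2) ^ (9 * zz D + 1) :=
      calc (127 / 128 : ℝ) ^ m ≤ (127 / 128) ^ (128 * (9 * zz D + 1)) :=
            pow_le_pow_of_le_one (by norm_num) (by norm_num) (by omega)
        _ ≤ _ := by rw [pow_mul]; gcongr; exact x128
    have e2 : (1 / 2 : ℝ) ^ (9 * zz D + 1) * 2 ^ (9 * zz D) = 1 / 2 := by
      rw [pow_succ, mul_right_comm, ← mul_pow]; norm_num
    have : θ * (J * 2 ^ D) ≤ (1 / 2) ^ (9 * zz D + 1) * 2 ^ (9 * zz D) := by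
      gcongr; exact m2.trans e1
    linarith
  have b4 : ((m + 1 + 1 : ℕ) : ℝ) ≤ D ^ 4 := by
    have e1 : m + 2 ≤ 1280 * zz D := by omega
    have e2 : zz D ≤ 2 * D ^ 2 := by unfold zz; nlinarith
    have e3 : 2560 * D ^ 2 ≤ D ^ 4 := by
      rw [show D ^ 4 = D * D * D ^ 2 by ring]; exact Nat.mul_le_mul_right _ (by nlinarith)
    exact_mod_cast (show m + 1 + 1 ≤ D ^ 4 by omega)
  have b5 : ((m + 1 : ℕ) : ℝ) ≤ D ^ 4 := le_trans (by push_cast; linarith) b4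
  have m3 : (127 / 128 : ℝ) ^ m ≤ 2 * θ := by
    have : (0 : ℝ) ≤ (127 / 128) ^ m := by positivity
    rw [pow_succ] at m1; linarith
  have t2 : θ * 2 ^ D ≤ 1 := by
    have : 0 ≤ θ * 2 ^ D := by positivity
    nlinarith
  refine ⟨J, m + 1, m.succ_pos, ?_, ?_, ?_, ?_⟩
  · refine (sq_le_one_iff₀ (by positivity)).1 ?_
    have e1 : ((127 / 128 : ℝ) ^ ((m + 1) / 2 - 1)) ^ 2 ≤ 2 * θ := by
      have : ((127 / 128 : ℝ) ^ ((m + 1) / 2 - 1)) ^ 2 * (127 / 128) ^ 3 ≤ (127 / 128) ^ (m + 1) := by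
        rw [← pow_mul, ← pow_add]
        exact pow_le_pow_of_le_one (by norm_num) (by norm_num) (by omega)
      have h0 : 0 ≤ ((127 / 128 : ℝ) ^ ((m + 1) / 2 - 1)) ^ 2 := by positivity
      nlinarith
    have e2 := poly_le hD (c := 2) (j := 8) (by norm_num) (by norm_num)
    calc _ ≤ ((D : ℝ) ^ 4) ^ 2 * (2 * θ) := by rw [mul_pow]; gcongr
      _ = θ * (2 * D ^ 8) := by ring
      _ ≤ θ * 2 ^ D := by gcongr
      _ ≤ 1 := t2
  · have e2 := poly_le hD (c := 36) (j := 11) (by norm_num) (by norm_num)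
    have e3 : (1 : ℝ) ≤ D ^ 8 := one_le_pow₀ (by linarith)
    rw [Nat.add_sub_cancel, Nat.cast_mul]
    calc _ ≤ (J * D ^ 3 : ℝ) * (D ^ 4 * (D ^ 4 * (2 * θ)) + D ^ 8 * θ) := by
          gcongr
          exact m1.le.trans (le_mul_of_one_le_left t0.le e3)
      _ = θ * (J * (36 * D ^ 11)) / 12 := by ring
      _ ≤ θ * (J * 2 ^ D) / 12 := by gcongr
      _ = _ := by rw [t1]; norm_num
  · rw [hA, div_le_iff₀ hKu] at j1
    linarith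
  · have e1 : θ / 4 ≤ (127 / 128 : ℝ) ^ (m + 1) / 2 := by rw [pow_succ]; linarith
    have e2 := poly_le hD (c := 352 * 128 ^ 2) (j := 6) (by norm_num) (by norm_num)
    calc _ ≤ 2 * (ww D * (θ / 4)⁻¹) := by gcongr
      _ = 8 * ww D * J * 2 ^ D := by rw [hθ]; field_simp; norm_num
      _ ≤ 8 * ww D * (2 * A) * 2 ^ D := by gcongr
      _ = 352 * 128 ^ 2 * (ww D) ^ 2 * 2 ^ D / (KK D * u) := by rw [hA]; ring
      _ ≤ 352 * 128 ^ 2 * (D ^ 3) ^ 2 * 2 ^ D / (KK D * u) := by gcongr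
      _ ≤ 2 ^ D * 2 ^ D / (KK D * u) := by rw [← pow_mul]; gcongr
      _ = _ := by rw [← pow_add, two_mul]

lemma inv_pow2 (k n : ℕ) : (1 / 2 ^ k : ℝ) ^ n * 2 ^ (k * n) = 1 := by
  rw [pow_mul, ← mul_pow]; simp

lemma numA {D : ℕ} (hD : 1000 ≤ D) {u : ℝ} (h1 : 1 ≤ u * 2 ^ (7 * zz D)) :
    4 * (ww D * (1 / 16 : ℝ) ^ (4 * zz D + 1) + (1 / 4) ^ (4 * zz D) * 3) ≤ u := by
  have e1 : (1 / 16 : ℝ) ^ (4 * zz D + 1) ≤ (1 / 4) ^ (4 * zz D) :=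
    (pow_le_pow_of_le_one (by norm_num) (by norm_num) (Nat.le_succ _)).trans (by gcongr; norm_num)
  have e2 : (4 * (ww D + 3) : ℝ) ≤ 2 ^ zz D := by
    have := lin_pow (z := zz D) (by unfold zz; omega)
    exact_mod_cast (show 4 * (ww D + 3) ≤ 2 ^ zz D by unfold ww; omega)
  have e3 := inv_pow2 2 (4 * zz D)
  refine le_of_mul_le_mul_right (le_trans ?_ h1) (by positivity)
  calc _ ≤ 4 * (ww D * (1 / 4 : ℝ) ^ (4 * zz D) + (1 / 4) ^ (4 * zz D) * 3) * 2 ^ (7 * zz D) := by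
        gcongr
    _ = (1 / 4) ^ (4 * zz D) * (4 * (ww D + 3) * 2 ^ (7 * zz D)) := by ring
    _ ≤ (1 / 4) ^ (4 * zz D) * (2 ^ zz D * 2 ^ (7 * zz D)) := by gcongr
    _ = _ := by
        rw [← pow_add, show zz D + 7 * zz D = 2 * (4 * zz D) by ring,
          show (4 : ℝ) = 2 ^ 2 by norm_num, e3]

lemma numB {D : ℕ} (hD : 1000 ≤ D) {u : ℝ} (h1 : 1 ≤ u * 2 ^ (7 * zz D)) :
    4 * (ww D * (KK D * (ww D * ((1 / 16 : ℝ) ^ (2 * D ^ 2) * 3)))) ≤ u := by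
  have e1 := ww_le hD
  have e2 := poly_le hD (c := 12) (j := 6) (by norm_num) (by norm_num)
  have e3 := inv_pow2 4 (2 * D ^ 2)
  refine le_of_mul_le_mul_right (le_trans ?_ h1) (by positivity)
  calc _ ≤ 4 * (D ^ 3 * (KK D * (D ^ 3 * ((1 / 16 : ℝ) ^ (2 * D ^ 2) * 3)))) * 2 ^ (7 * zz D) := by
        gcongr
    _ = (1 / 16) ^ (2 * D ^ 2) * (12 * D ^ 6 * KK D * 2 ^ (7 * zz D)) := by ring
    _ ≤ (1 / 16) ^ (2 * D ^ 2) * (2 ^ D * KK D * 2 ^ (7 * zz D)) := by gcongr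
    _ ≤ (1 / 16) ^ (2 * D ^ 2) * 2 ^ (4 * (2 * D ^ 2)) := by
        gcongr
        rw [KK]; push_cast
        rw [← pow_add, ← pow_add]
        refine two_le ?_
        have : 1000 * D ≤ D ^ 2 := by nlinarith
        unfold zz; omega
    _ = _ := by rw [show (16 : ℝ) = 2 ^ 4 by norm_num, e3]

lemma numR {D D' : ℕ} (hD : 1000 ≤ D) (h : D' ≤ D) :
    (((zz D + 1) * 2 ^ (20 * D) + (zz D' + 1) * 2 ^ (20 * D') : ℕ) : ℝ) *
      (1 / 16) ^ (2 * (4 * zz D)) ≤ 1 / 4 := by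
  have e0 : 20 * D ≤ zz D := Nat.le_add_right _ _
  have e1 := lin_pow (z := zz D) (by omega)
  have e2 : zz D' ≤ zz D := by unfold zz; gcongr
  have e3 : (zz D + 1) * 2 ^ (20 * D) + (zz D' + 1) * 2 ^ (20 * D') ≤ 2 ^ (2 * zz D + 1) :=
    calc _ ≤ 2 ^ zz D * 2 ^ zz D + 2 ^ zz D * 2 ^ zz D := by gcongr <;> omega
      _ = _ := by ring
  have e4 := inv_pow2 4 (2 * (4 * zz D))
  have e5 : (2 : ℝ) ^ (2 * zz D + 1) * 4 ≤ 2 ^ (4 * (2 * (4 * zz D))) := by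
    rw [show (4 : ℝ) = 2 ^ 2 by norm_num, ← pow_add]; exact two_le (by omega)
  have e6 : (((zz D + 1) * 2 ^ (20 * D) + (zz D' + 1) * 2 ^ (20 * D') : ℕ) : ℝ) ≤
    2 ^ (2 * zz D + 1) := by exact_mod_cast e3
  rw [show (2 : ℝ) ^ 4 = 16 by norm_num] at e4
  calc _ ≤ (2 ^ (2 * zz D + 1) * 4) * (1 / 16 : ℝ) ^ (2 * (4 * zz D)) / 4 := by
        rw [mul_right_comm, mul_div_cancel_right₀ _ four_ne_zero]; gcongr
    _ ≤ 2 ^ (4 * (2 * (4 * zz D))) * (1 / 16 : ℝ) ^ (2 * (4 * zz D)) / 4 := by gcongr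
    _ = _ := by rw [mul_comm, e4]

lemma numC1 {D : ℕ} (hD : 1000 ≤ D) {u u' : ℝ} (hu : 0 < u) (hu' : 0 < u')
    (h : (1 / 128) ^ (20 + (2 * D + 1)) * u ≤ u') : 2 ^ (20 * D) * (u * (2 ^ (2 * D) / (KK D * u)) *
      (4 * (2 ^ (2 * (D + 1)) / (KK (D + 1) * u')) * u)) ≤ 1 / 2 := by
  have e1 := inv_pow2 7 (20 + (2 * D + 1))
  have e2 : u ≤ u' * 2 ^ (7 * (20 + (2 * D + 1))) := by
    calc u = (1 / 128) ^ (20 + (2 * D + 1)) * u * 2 ^ (7 * (20 + (2 * D + 1))) := by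
          rw [mul_right_comm, show (128 : ℝ) = 2 ^ 7 by norm_num, e1, one_mul]
      _ ≤ _ := by gcongr
  have e3 : (2 : ℝ) ^ (20 * D) = 2 * KK D := by
    rw [KK]; push_cast; rw [← pow_succ']; congr 1; omega
  have e4 : (0 : ℝ) < KK D := by unfold KK; positivity
  have e5 : (0 : ℝ) < KK (D + 1) := by unfold KK; positivity
  have e6 : (2 : ℝ) ^ 4 * 2 ^ (2 * D) * 2 ^ (2 * (D + 1)) * 2 ^ (7 * (20 + (2 * D + 1))) ≤
      KK (D + 1) := by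
    rw [KK, ← pow_add, ← pow_add, ← pow_add]
    push_cast
    exact two_le (by omega)
  have p1 : (0 : ℝ) < 2 ^ (2 * D) := by positivity
  have p2 : (0 : ℝ) < 2 ^ (2 * (D + 1)) := by positivity
  rw [e3]
  generalize (2 : ℝ) ^ (2 * D) = a at *
  generalize (2 : ℝ) ^ (2 * (D + 1)) = b at *
  generalize (2 : ℝ) ^ (7 * (20 + (2 * D + 1))) = c at *
  generalize (KK (D + 1) : ℝ) = k' at *
  generalize (KK D : ℝ) = k at *
  clear e1 e3 h hD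
  calc _ = 8 * a * b * u / (k' * u') := by field_simp; norm_num
    _ ≤ 8 * a * b * (u' * c) / (k' * u') := by gcongr
    _ = 2 ^ 4 * a * b * c / k' / 2 := by field_simp; ring
    _ ≤ _ := by gcongr; exact (div_le_one e5).2 e6

lemma numC2 {D : ℕ} (hD : 1000 ≤ D) {u' : ℝ} (h1 : 1 ≤ u' * 2 ^ (7 * zz (D + 1))) :
    2 ^ (20 * D) * ((1 / 16) ^ (2 * D ^ 2) * 3 * (2 ^ (2 * (D + 1)) / (KK (D + 1) * u'))) ≤
      (1 / 4 : ℝ) := by
  have hu : 0 < u' := (mul_pos_iff_of_pos_right (by positivity)).1 (one_pos.trans_le h1)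
  have e3 := inv_pow2 4 (2 * D ^ 2)
  have e4 : (2 : ℝ) ^ (20 * D) ≤ KK (D + 1) := by rw [KK]; push_cast; exact two_le (by omega)
  have e5 : (0 : ℝ) < KK (D + 1) := by unfold KK; positivity
  have e6 : (2 : ℝ) ^ 4 * 2 ^ (2 * (D + 1)) * 2 ^ (7 * zz (D + 1)) ≤ 2 ^ (4 * (2 * D ^ 2)) := by
    rw [← pow_add, ← pow_add]
    refine two_le ?_
    have : 1000 * D ≤ D ^ 2 := by nlinarith
    have : (D + 1) ^ 2 = D ^ 2 + 2 * D + 1 := by ring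
    unfold zz; omega
  rw [show (2 : ℝ) ^ 4 = 16 by norm_num] at e3 e6
  have p1 : (0 : ℝ) < (1 / 16) ^ (2 * D ^ 2) := by positivity
  have p2 : (0 : ℝ) < 2 ^ (2 * (D + 1)) := by positivity
  generalize (1 / 16 : ℝ) ^ (2 * D ^ 2) = a at *
  generalize (2 : ℝ) ^ (2 * (D + 1)) = b at *
  generalize (2 : ℝ) ^ (7 * zz (D + 1)) = c at *
  generalize (KK (D + 1) : ℝ) = k at *
  calc _ ≤ k * (a * 4 * (b * (u' * c) / (k * u'))) := by
        gcongr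
        · norm_num
        · exact le_mul_of_one_le_right p2.le h1
    _ = a * (16 * b * c) / 4 := by field_simp; ring
    _ ≤ a * 2 ^ (4 * (2 * D ^ 2)) / 4 := by gcongr
    _ = _ := by rw [e3]

end Pool.Agent.H44.FZ
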