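import Pool.Agent.H44.FZ6
import Pool.Agent.H44.FZ7

/-! Assembly. -/

open Set Filter MeasureTheory ProbabilityTheory Topology
open scoped ENNReal

namespace Pool.Agent.H44.FZ

noncomputable def ur (D : ℕ) : ℝ := (uu (20 * D) (D ^ 2)).toReal

lemma uu_eq (D : ℕ) : uu (20 * D) (D ^ 2) = ENNReal.ofReal (ur D) :=
  (ENNReal.ofReal_toReal (ne_top_of_le_ne_top (by unfold lam; finiteness) (uu_le _ _))).symm

lemma ur_nn (D : ℕ) : 0 ≤ ur D := ENNReal.toReal_nonneg

lemma ur_low (D : ℕ) : 1 ≤ ur D * 2 ^ (7 * zz D) := by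
  have h := uu_low (20 * D) (D ^ 2)
  rw [uu_eq, pp, ← ENNReal.ofReal_pow (by norm_num), ENNReal.ofReal_le_ofReal_iff (ur_nn D)] at h
  rw [← inv_pow2 7 (zz D), show (2 : ℝ) ^ 7 = 128 by norm_num]
  gcongr
  exact h

lemma ur_pos (D : ℕ) : 0 < ur D :=
  (mul_pos_iff_of_pos_right (by positivity)).1 (one_pos.trans_le (ur_low D))

lemma ur_up (D : ℕ) : ur D * 2 ^ (4 * zz D) ≤ 3 := by
  have h := uu_le (20 * D) (D ^ 2)
  rw [uu_eq, lam, ← ENNReal.ofReal_pow (by norm_num), ← ENNReal.ofReal_ofNat,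
    ← ENNReal.ofReal_mul (by positivity), ENNReal.ofReal_le_ofReal_iff (by positivity)] at h
  have := inv_pow2 4 (zz D)
  rw [show (2 : ℝ) ^ 4 = 16 by norm_num] at this
  calc _ ≤ (1 / 16 : ℝ) ^ zz D * 3 * 2 ^ (4 * zz D) := mul_le_mul_of_nonneg_right h (by positivity)
    _ = _ := by rw [mul_right_comm, this, one_mul]

lemma ur_step (D : ℕ) : (1 / 128) ^ (20 + (2 * D + 1)) * ur D ≤ ur (D + 1) := by
  have h := uu_mono (20 * D) (D ^ 2) 20 (2 * D + 1)
  rwa [show 20 * D + 20 = 20 * (D + 1) by ring, show D ^ 2 + (2 * D + 1) = (D + 1) ^ 2 by ring,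
    uu_eq, uu_eq, pp, ← ENNReal.ofReal_pow (by norm_num), ← ENNReal.ofReal_mul (by positivity),
    ENNReal.ofReal_le_ofReal_iff (ur_nn _)] at h

noncomputable def XX (D : ℕ) : ℝ := 2 ^ (2 * D) / (KK D * ur D)

lemma XX_pos (D : ℕ) : 0 < XX D := by
  have := ur_pos D
  unfold XX KK; positivity

noncomputable def gg : ℕ → ℝ
  | 0 => 2 * XX 1000
  | n + 1 => 4 * XX (n + 1000 + 1) * ur (n + 1000) * gg n

lemma gg_pos (n : ℕ) : 0 < gg n := by
  induction n with
  | zero => have := XX_pos 1000; unfold gg; positivity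
  | succ n ih =>
    have := XX_pos (n + 1000 + 1)
    have := ur_pos (n + 1000)
    unfold gg; positivity

lemma gg_kids (n : ℕ) : ((2 ^ (20 * (n + 1000)) : ℕ) : ℝ) *
    (ur (n + 1000) * XX (n + 1000) * gg (n + 1)) ≤ gg n / 2 := by
  have := mul_le_mul_of_nonneg_right (numC1 (Nat.le_add_left 1000 n) (ur_pos _) (ur_pos _)
    (ur_step _)) (gg_pos n).le
  push_cast
  calc _ = _ := by rw [gg]; unfold XX; ring
    _ ≤ _ := this
    _ = _ := by ring

lemma le_real {a b : ℝ≥0∞} (ha : a ≠ ∞) (hb : b ≠ ∞) (h : a.toReal ≤ b.toReal) : a ≤ b :=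
  (ENNReal.toReal_le_toReal ha hb).1 h

theorem exists_par : ∃ π : Par, (∀ n, 0 < π.M n) ∧
    (∀ q : ℝ, 0 ≤ q → q < 1 → ∀ᶠ n in atTop, (2 ^ π.d n : ℕ) * ENNReal.ofReal q ^ π.r n ≤ 2⁻¹) ∧
    (∀ N, PP _ (YY π [] 0 N)ᶜ ≤ 2⁻¹) ∧
    ∑' n : ℤ, PP _ (Cn (HH π) (bo [], 0) {(bo [], n)}) ≠ ∞ := by
  choose J M hM hx hG hJ hX using fun n : ℕ =>
    level (Nat.le_add_left 1000 n) (ur_low _) (ur_up _)
  refine ⟨⟨fun n => 20 * (n + 1000), fun n => (n + 1000) ^ 2, M⟩, hM, fun q q0 q1 => ?_,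
    fun N => lower _ hM (W := fun n => 4 * zz (n + 1000)) (J := J) (K := fun n => KK (n + 1000))
      (fun n => ?_) (fun n => ?_) (fun n => ?_) (fun n => ?_) (fun n => ?_) (fun n => ?_) N [] 0,
    ne_top_of_le_ne_top ENNReal.ofReal_ne_top (upper _ hM
      (X := fun n => ENNReal.ofReal (XX (n + 1000))) (g := fun n => ENNReal.ofReal (gg n))
      (fun a h => (vert_le _ a (w := 2 * (4 * zz (a.length + 1000))) (by unfold zz; omega) ?_ h).trans
        ?_) ?_ fun n => ?_)⟩
  · have h1 : Tendsto (fun n : ℕ => (2 : ℝ) ^ 20 * q ^ (n + 1000)) atTop (𝓝 (2 ^ 20 * 0)) :=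
      ((tendsto_pow_atTop_nhds_zero_of_lt_one q0 q1).comp (tendsto_add_atTop_nat 1000)).const_mul _
    filter_upwards [h1.eventually (gt_mem_nhds (show (2 : ℝ) ^ 20 * 0 < 1 / 2 by norm_num))] with n hn
    refine le_real (by finiteness) (by finiteness) ?_
    simp only [ENNReal.toReal_mul, ENNReal.toReal_pow, ENNReal.toReal_natCast,
      ENNReal.toReal_ofReal q0, ENNReal.toReal_inv, ENNReal.toReal_ofNat]
    push_cast
    rw [pow_mul, sq, pow_mul q, ← mul_pow]
    refine (pow_le_pow_left₀ (by positivity) hn.le _).trans ?_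
    exact (pow_le_of_le_one (by norm_num) (by norm_num) (by omega)).trans (by norm_num)
  · simp only [KK]; rw [← pow_succ']; congr 1
  · refine le_real (by unfold xx; finiteness) (by finiteness) ?_
    simpa [xx, ENNReal.toReal_ofReal, show (0 : ℝ) ≤ 127 / 128 by norm_num] using hx n
  · refine le_real (by unfold xx; finiteness) (by finiteness) ?_
    rw [ENNReal.toReal_mul, ENNReal.toReal_add (by unfold xx; finiteness) (by unfold xx; finiteness)]
    simp only [xx, ENNReal.toReal_mul, ENNReal.toReal_pow, ENNReal.toReal_natCast,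
      ENNReal.toReal_ofReal (show (0 : ℝ) ≤ 127 / 128 by norm_num), ENNReal.toReal_inv,
      ENNReal.toReal_ofNat]
    exact hG n
  · rw [uu_eq]
    refine le_real (by unfold lam; finiteness) (by finiteness) ?_
    rw [ENNReal.toReal_mul, ENNReal.toReal_add (by unfold lam; finiteness) (by finiteness)]
    simp only [lam, ENNReal.toReal_mul, ENNReal.toReal_pow, ENNReal.toReal_natCast,
      ENNReal.toReal_ofReal (show (0 : ℝ) ≤ 1 / 16 by norm_num), ENNReal.toReal_ofReal (ur_nn _),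
      ENNReal.toReal_ofReal (show (0 : ℝ) ≤ 1 / 4 by norm_num), ENNReal.toReal_ofNat]
    exact numA (Nat.le_add_left 1000 n) (ur_low _)
  · rw [uu_eq]
    refine le_real (by unfold lam; finiteness) (by finiteness) ?_
    simp only [lam, ENNReal.toReal_mul, ENNReal.toReal_pow, ENNReal.toReal_natCast,
      ENNReal.toReal_ofReal (show (0 : ℝ) ≤ 1 / 16 by norm_num), ENNReal.toReal_ofReal (ur_nn _),
      ENNReal.toReal_ofNat]
    exact numB (Nat.le_add_left 1000 n) (ur_low _)
  · rw [uu_eq]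
    refine le_real (by finiteness) (by unfold pp; finiteness) ?_
    simp only [pp, ENNReal.toReal_mul, ENNReal.toReal_pow, ENNReal.toReal_natCast,
      ENNReal.toReal_ofReal (show (0 : ℝ) ≤ 1 / 128 by norm_num), ENNReal.toReal_ofReal (ur_nn _),
      ENNReal.toReal_ofNat]
    exact hJ n
  · refine le_real (by unfold lam; finiteness) (by finiteness) ?_
    simp only [lam, ENNReal.toReal_mul, ENNReal.toReal_pow, ENNReal.toReal_natCast,
      ENNReal.toReal_ofReal (show (0 : ℝ) ≤ 1 / 16 by norm_num),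
      ENNReal.toReal_ofReal (show (0 : ℝ) ≤ 1 / 4 by norm_num)]
    exact numR (Nat.le_add_left 1000 _) (D' := a.length - 1 + 1000) (by omega)
  · have : xx ^ M a.length / 2 ≠ 0 := by simp [xx]
    refine le_real (by finiteness) (by finiteness) ?_
    simp only [xx, ENNReal.toReal_mul, ENNReal.toReal_pow, ENNReal.toReal_natCast,
      ENNReal.toReal_ofReal (show (0 : ℝ) ≤ 127 / 128 by norm_num), ENNReal.toReal_inv,
      ENNReal.toReal_ofNat, ENNReal.toReal_div, ENNReal.toReal_ofReal (XX_pos _).le]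
    exact hX _
  · simp only
    rw [uu_eq]
    refine le_real (by finiteness) (by finiteness) ?_
    rw [ENNReal.toReal_add (by finiteness) (by finiteness)]
    simp only [ENNReal.toReal_mul, ENNReal.toReal_natCast, ENNReal.toReal_ofReal (ur_nn _),
      ENNReal.toReal_ofReal (XX_pos _).le, ENNReal.toReal_ofReal (gg_pos _).le]
    have := gg_kids 0
    have h2 : gg 0 = 2 * XX (0 + 1000) := rfl
    linarith
  · simp only
    rw [uu_eq, uu_eq]
    refine le_real (by unfold lam; finiteness) (by finiteness) ?_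
    rw [ENNReal.toReal_add (by finiteness) (by unfold lam; finiteness),
      ENNReal.toReal_add (by finiteness) (by finiteness)]
    simp only [lam, ENNReal.toReal_mul, ENNReal.toReal_natCast, ENNReal.toReal_ofReal (ur_nn _),
      ENNReal.toReal_ofReal (XX_pos _).le, ENNReal.toReal_ofReal (gg_pos _).le, ENNReal.toReal_pow,
      ENNReal.toReal_ofReal (show (0 : ℝ) ≤ 1 / 16 by norm_num), ENNReal.toReal_ofNat]
    have h1 := gg_kids (n + 1)
    have h2 : gg (n + 1) = 4 * XX (n + 1 + 1000) * ur (n + 1000) * gg n := by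
      rw [gg, add_right_comm]
    have h3 := mul_le_mul_of_nonneg_right (numC2 (Nat.le_add_left 1000 n) (ur_low _))
      (gg_pos (n + 1)).le
    have h4 : XX (n + 1 + 1000) = 2 ^ (2 * (n + 1000 + 1)) /
      (KK (n + 1000 + 1) * ur (n + 1000 + 1)) := by rw [add_right_comm]; rfl
    rw [← h4] at h3
    push_cast at h1 ⊢
    linarith

end Pool.Agent.H44.FZ
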