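import Pool.Agent.H44.FZ8

/-! Every fiber is met finitely often. -/

open Set Filter MeasureTheory ProbabilityTheory Relation
open scoped ENNReal

namespace Pool.Agent.H44.FZ

lemma Cn_upper {W : Type} (H : W → W → Prop) (x : W) (T : Set W) : IsUpperSet (Cn H x T) :=
  fun _ _ h ⟨y, hy, h1⟩ => ⟨y, hy, ReflTransGen.mono (fun a b h2 => ⟨h2.1, by
    have := h s(a, b); rw [h2.2] at this; exact top_unique this⟩) _ _ h1⟩

variable (π : Par)

lemma fiber_all (h : ∑' n : ℤ, PP _ (Cn (HH π) (bo [], 0) {(bo [], n)}) ≠ ∞) (v : VV π) :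
    ∑' n : ℤ, PP _ (Cn (HH π) (bo [], 0) {(v.1, n)}) ≠ ∞ := by
  obtain ⟨v, hv⟩ := v
  induction hv with
  | refl => exact h
  | @tail u v _ h2 ih =>
    have h1 : ∀ n : ℤ, PP _ (Cn (HH π) (bo [], 0) {(v, n)}) * pp ≤
        PP _ (Cn (HH π) (bo [], 0) {(u, n)}) := by
      intro n
      rw [← PP_open s((v, n), (u, n))]
      refine (Har.harris _ (DM.cn _ _ _).m (DM.one _ _).m (Cn_upper _ _ _) fun ω ω' h h' => ?_).trans
        (measure_mono ?_)
      · have := h s((v, n), (u, n)); rw [h'] at this; exact top_unique this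
      · rintro ω ⟨⟨_, rfl, h3⟩, h4⟩
        exact ⟨_, rfl, h3.tail ⟨Or.inr ⟨Or.symm h2, rfl⟩, h4⟩⟩
    have h3 := ENNReal.tsum_le_tsum h1
    rw [ENNReal.tsum_mul_right] at h3
    intro h4
    rw [h4, ENNReal.top_mul (by simp [pp])] at h3
    exact ih (top_unique h3)

lemma fibers_fin (h : ∑' n : ℤ, PP _ (Cn (HH π) (bo [], 0) {(bo [], n)}) ≠ ∞) :
    ∀ᵐ ω ∂PP (V0 × ℤ), ∀ v : VV π, {n : ℤ | ((GG π).boxProd (SimpleGraph.hasse ℤ) ⊓
      SimpleGraph.fromEdgeSet (xi π ω)).Reachable (oo π, 0) (v, n)}.Finite := by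
  refine ae_all_iff.2 fun v => ?_
  filter_upwards [ae_finite_setOfPred_mem (fiber_all π h v)] with ω h
  refine h.subset fun n hn => ⟨_, rfl, ?_⟩
  exact ReflTransGen.lift (p := Op (HH π) ω) (io π) (fun x y h => (adj_iff π ω x y).1 h) _ _
    ((SimpleGraph.reachable_iff_reflTransGen _ _).1 hn)

end Pool.Agent.H44.FZ
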