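import Mathlib

open MeasureTheory Real Set

namespace Pool.Agent.H44.GM

/-- The density of the Gaussian mixture with mixing distribution `μ`. -/
noncomputable def mix (d : ℕ) (μ : Measure (EuclideanSpace ℝ (Fin d)))
    (x : EuclideanSpace ℝ (Fin d)) : ℝ :=
  ∫ z, (2 * π) ^ (-(d : ℝ) / 2) * exp (-‖x - z‖ ^ 2 / 2) ∂μ

noncomputable def ker (d : ℕ) (x : EuclideanSpace ℝ (Fin d)) : ℝ :=
  (2 * π) ^ (-(d : ℝ) / 2) * exp (-‖x‖ ^ 2 / 2)

variable {d : ℕ}

lemma mix_eq (μ : Measure (EuclideanSpace ℝ (Fin d))) (x : EuclideanSpace ℝ (Fin d)) :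
    mix d μ x = ∫ z, ker d (x - z) ∂μ := rfl

lemma c_pos (d : ℕ) : 0 < (2 * π) ^ (-(d : ℝ) / 2) := rpow_pos_of_pos (by positivity) _

lemma ker_pos (x : EuclideanSpace ℝ (Fin d)) : 0 < ker d x := mul_pos (c_pos d) (exp_pos _)

lemma ker_le (x : EuclideanSpace ℝ (Fin d)) : ker d x ≤ (2 * π) ^ (-(d : ℝ) / 2) := by
  unfold ker
  have h : exp (-‖x‖ ^ 2 / 2) ≤ 1 := by
    rw [exp_le_one_iff]; have := sq_nonneg ‖x‖; linarith
  have := c_pos d
  nlinarith

lemma ker_cont : Continuous (ker d) := by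
  unfold ker; fun_prop

lemma ker_integrable : Integrable (ker d) := by
  have h := GaussianFourier.integrable_cexp_neg_mul_sq_norm_add (V := EuclideanSpace ℝ (Fin d))
    (b := (1 / 2 : ℂ)) (by norm_num) 0 0
  have h2 := h.norm
  refine (h2.congr (Filter.Eventually.of_forall fun x => ?_)).const_mul _
  beta_reduce
  rw [Complex.norm_exp]
  congr 1
  simp only [zero_mul, add_zero]
  have : (-(1 / 2 : ℂ) * (‖x‖ : ℂ) ^ 2) = ((-‖x‖ ^ 2 / 2 : ℝ) : ℂ) := by push_cast; ring
  rw [this, Complex.ofReal_re]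

lemma int_ker (μ : Measure (EuclideanSpace ℝ (Fin d))) [IsProbabilityMeasure μ]
    (x : EuclideanSpace ℝ (Fin d)) : Integrable (fun z => ker d (x - z)) μ := by
  refine Integrable.of_bound (C := (2 * π) ^ (-(d : ℝ) / 2))
    (ker_cont.comp (continuous_const.sub continuous_id)).aestronglyMeasurable
    (Filter.Eventually.of_forall fun z => ?_)
  rw [Real.norm_of_nonneg (ker_pos _).le]; exact ker_le _

lemma mix_pos (μ : Measure (EuclideanSpace ℝ (Fin d))) [IsProbabilityMeasure μ]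
    (x : EuclideanSpace ℝ (Fin d)) : 0 < mix d μ x := by
  rw [mix_eq, integral_pos_iff_support_of_nonneg (fun z => (ker_pos _).le) (int_ker μ x)]
  have : Function.support (fun z => ker d (x - z)) = univ := by
    ext z; simp [(ker_pos (x - z)).ne']
  rw [this]; simp

lemma mix_le (μ : Measure (EuclideanSpace ℝ (Fin d))) [IsProbabilityMeasure μ]
    (x : EuclideanSpace ℝ (Fin d)) : mix d μ x ≤ (2 * π) ^ (-(d : ℝ) / 2) := by
  rw [mix_eq]
  calc ∫ z, ker d (x - z) ∂μ ≤ ∫ _z, (2 * π) ^ (-(d : ℝ) / 2) ∂μ :=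
        integral_mono (int_ker μ x) (integrable_const _) fun z => ker_le _
    _ = _ := by simp

lemma mix_cont (μ : Measure (EuclideanSpace ℝ (Fin d))) [IsProbabilityMeasure μ] :
    Continuous (mix d μ) := by
  refine continuous_of_dominated (F := fun x z => ker d (x - z))
    (bound := fun _ => (2 * π) ^ (-(d : ℝ) / 2)) (fun x => (int_ker μ x).aestronglyMeasurable)
    (fun x => Filter.Eventually.of_forall fun z => ?_) (integrable_const _)
    (Filter.Eventually.of_forall fun z => ker_cont.comp (continuous_id.sub continuous_const))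
  rw [Real.norm_of_nonneg (ker_pos _).le]; exact ker_le _

lemma int_prod (μ : Measure (EuclideanSpace ℝ (Fin d))) [IsProbabilityMeasure μ] :
    Integrable (Function.uncurry fun (x z : EuclideanSpace ℝ (Fin d)) => ker d (x - z))
      (volume.prod μ) := by
  have hc : Continuous (Function.uncurry fun (x z : EuclideanSpace ℝ (Fin d)) => ker d (x - z)) :=
    ker_cont.comp (continuous_fst.sub continuous_snd)
  rw [integrable_prod_iff' hc.aestronglyMeasurable]
  refine ⟨Filter.Eventually.of_forall fun z => ker_integrable.comp_sub_right z, ?_⟩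
  have : (fun z : EuclideanSpace ℝ (Fin d) => ∫ x, ‖Function.uncurry
      (fun (x z : EuclideanSpace ℝ (Fin d)) => ker d (x - z)) (x, z)‖) =
      fun _ => ∫ x, ‖ker d x‖ := by
    funext z
    exact integral_sub_right_eq_self (fun x => ‖ker d x‖) z
  rw [this]; exact integrable_const _

lemma mix_integrable (μ : Measure (EuclideanSpace ℝ (Fin d))) [IsProbabilityMeasure μ] :
    Integrable (mix d μ) := (int_prod μ).integral_prod_left

lemma integral_mix (μ : Measure (EuclideanSpace ℝ (Fin d))) [IsProbabilityMeasure μ] :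
    ∫ x, mix d μ x = ∫ x, ker d x := by
  have h := integral_integral_swap (int_prod μ)
  simp only [mix_eq]
  rw [h]
  have : (fun z : EuclideanSpace ℝ (Fin d) => ∫ x, ker d (x - z)) = fun _ => ∫ x, ker d x := by
    funext z
    exact integral_sub_right_eq_self (ker d) z
  rw [this]; simp

/-- the product identity -/
lemma ker_prod {M : ℝ} (x z z' w : EuclideanSpace ℝ (Fin d)) (hz : ‖z‖ ≤ M) (hz' : ‖z'‖ ≤ M)
    (hw : ‖w‖ ≤ M) :
    ker d (x - z) * ker d (x - z') ≤ exp (4 * M ^ 2) * ker d (x - (z' - w) - z) * ker d (x - w) := by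
  set y := x - w with hy
  set a := z - w with ha
  set b := z' - w with hb
  have e1 : x - z = y - a := by rw [hy, ha]; abel
  have e2 : x - z' = y - b := by rw [hy, hb]; abel
  have e3 : x - b - z = y - (a + b) := by rw [hy, ha]; abel
  rw [e1, e2, e3]
  have hM : 0 ≤ M := (norm_nonneg _).trans hz
  have hna : ‖a‖ ≤ 2 * M := (norm_sub_le _ _).trans (by linarith)
  have hnb : ‖b‖ ≤ 2 * M := (norm_sub_le _ _).trans (by linarith)
  have hab : inner ℝ a b ≤ 4 * M ^ 2 := by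
    refine (real_inner_le_norm a b).trans ?_
    calc ‖a‖ * ‖b‖ ≤ (2 * M) * (2 * M) := mul_le_mul hna hnb (norm_nonneg _) (by linarith)
      _ = _ := by ring
  have key : -‖y - a‖ ^ 2 / 2 + -‖y - b‖ ^ 2 / 2 ≤
      4 * M ^ 2 + -‖y - (a + b)‖ ^ 2 / 2 + -‖y‖ ^ 2 / 2 := by
    rw [norm_sub_sq_real y a, norm_sub_sq_real y b, norm_sub_sq_real y (a + b),
      norm_add_sq_real a b, inner_add_right]
    linarith
  have h2 := exp_le_exp.2 key
  rw [exp_add, exp_add, exp_add] at h2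
  unfold ker
  have hc := c_pos d
  set c := (2 * π) ^ (-(d : ℝ) / 2)
  have := mul_le_mul_of_nonneg_left h2 (mul_pos hc hc).le
  linarith

lemma ker_shift (y v z : EuclideanSpace ℝ (Fin d)) :
    ker d (y + v - z) = exp (-inner ℝ y v - ‖v‖ ^ 2 / 2) * exp (inner ℝ z v) * ker d (y - z) := by
  unfold ker
  have e : y + v - z = (y - z) + v := by abel
  rw [e, norm_add_sq_real, inner_sub_left]
  have : -(‖y - z‖ ^ 2 + 2 * (inner ℝ y v - inner ℝ z v) + ‖v‖ ^ 2) / 2 =
      (-inner ℝ y v - ‖v‖ ^ 2 / 2) + inner ℝ z v + (-‖y - z‖ ^ 2 / 2) := by ring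
  rw [this, exp_add, exp_add]; ring

lemma abs_inner_le {M : ℝ} {z v : EuclideanSpace ℝ (Fin d)} (hz : ‖z‖ ≤ M) (hv : ‖v‖ ≤ 2 * M) :
    |inner ℝ z v| ≤ 2 * M ^ 2 := by
  have hM : 0 ≤ M := (norm_nonneg _).trans hz
  refine (abs_real_inner_le_norm z v).trans ?_
  calc ‖z‖ * ‖v‖ ≤ M * (2 * M) := mul_le_mul hz hv (norm_nonneg _) hM
    _ = _ := by ring

lemma mix_shift_le {M : ℝ} (μ : Measure (EuclideanSpace ℝ (Fin d))) [IsProbabilityMeasure μ]
    (hμ : ∀ᵐ z ∂μ, ‖z‖ ≤ M) (y v : EuclideanSpace ℝ (Fin d)) (hv : ‖v‖ ≤ 2 * M) :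
    mix d μ (y + v) ≤ exp (-inner ℝ y v - ‖v‖ ^ 2 / 2) * exp (2 * M ^ 2) * mix d μ y := by
  rw [mix_eq, mix_eq, ← integral_const_mul]
  refine integral_mono_ae (int_ker μ _) ((int_ker μ _).const_mul _) (hμ.mono fun z hz => ?_)
  beta_reduce
  rw [ker_shift]
  refine mul_le_mul_of_nonneg_right (mul_le_mul_of_nonneg_left (exp_le_exp.2 ?_) (exp_pos _).le)
    (ker_pos _).le
  exact (le_abs_self _).trans (abs_inner_le hz hv)

lemma mix_shift_ge {M : ℝ} (μ : Measure (EuclideanSpace ℝ (Fin d))) [IsProbabilityMeasure μ]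
    (hμ : ∀ᵐ z ∂μ, ‖z‖ ≤ M) (y v : EuclideanSpace ℝ (Fin d)) (hv : ‖v‖ ≤ 2 * M) :
    exp (-inner ℝ y v - ‖v‖ ^ 2 / 2) * exp (-(2 * M ^ 2)) * mix d μ y ≤ mix d μ (y + v) := by
  rw [mix_eq, mix_eq, ← integral_const_mul]
  refine integral_mono_ae ((int_ker μ _).const_mul _) (int_ker μ _) (hμ.mono fun z hz => ?_)
  beta_reduce
  rw [ker_shift]
  refine mul_le_mul_of_nonneg_right (mul_le_mul_of_nonneg_left (exp_le_exp.2 ?_) (exp_pos _).le)
    (ker_pos _).le
  exact (abs_le.1 (abs_inner_le hz hv)).1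

/-- log-Lipschitz property of the ratio -/
lemma ratio_shift {M : ℝ} (μ ν : Measure (EuclideanSpace ℝ (Fin d))) [IsProbabilityMeasure μ]
    [IsProbabilityMeasure ν] (hμ : ∀ᵐ z ∂μ, ‖z‖ ≤ M) (hν : ∀ᵐ z ∂ν, ‖z‖ ≤ M)
    (y v : EuclideanSpace ℝ (Fin d)) (hv : ‖v‖ ≤ 2 * M)
    (h : 4 * exp (4 * M ^ 2) * mix d ν (y + v) ≤ mix d μ (y + v)) :
    4 * mix d ν y ≤ mix d μ y := by
  have h1 := mix_shift_le μ hμ y v hv
  have h2 := mix_shift_ge ν hν y v hv
  set θ := exp (-inner ℝ y v - ‖v‖ ^ 2 / 2)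
  have hθ : 0 < θ := exp_pos _
  have e : exp (4 * M ^ 2) * exp (-(2 * M ^ 2)) = exp (2 * M ^ 2) := by
    rw [← exp_add]; congr 1; ring
  have h3 : 4 * exp (4 * M ^ 2) * (θ * exp (-(2 * M ^ 2)) * mix d ν y) ≤
      θ * exp (2 * M ^ 2) * mix d μ y :=
    (mul_le_mul_of_nonneg_left h2 (by positivity)).trans (h.trans h1)
  have h4 : (θ * exp (2 * M ^ 2)) * (4 * mix d ν y) ≤ (θ * exp (2 * M ^ 2)) * mix d μ y := by
    rw [← e] at h3 ⊢
    linarith
  exact le_of_mul_le_mul_left h4 (by positivity)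

lemma int_mix2 (μ ν : Measure (EuclideanSpace ℝ (Fin d))) [IsProbabilityMeasure μ]
    [IsProbabilityMeasure ν] (x : EuclideanSpace ℝ (Fin d)) :
    Integrable (fun p : EuclideanSpace ℝ (Fin d) × EuclideanSpace ℝ (Fin d) =>
      mix d μ (x - (p.1 - p.2))) (μ.prod ν) := by
  refine Integrable.of_bound (C := (2 * π) ^ (-(d : ℝ) / 2))
    ((mix_cont μ).comp (continuous_const.sub (continuous_fst.sub continuous_snd))).aestronglyMeasurable
    (Filter.Eventually.of_forall fun z => ?_)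
  rw [Real.norm_of_nonneg (mix_pos μ _).le]; exact mix_le μ _

/-- Jensen step -/
lemma sq_div_le {M : ℝ} (μ ν : Measure (EuclideanSpace ℝ (Fin d))) [IsProbabilityMeasure μ]
    [IsProbabilityMeasure ν] (hμ : ∀ᵐ z ∂μ, ‖z‖ ≤ M) (hν : ∀ᵐ z ∂ν, ‖z‖ ≤ M)
    (x : EuclideanSpace ℝ (Fin d)) :
    mix d μ x ^ 2 / mix d ν x ≤
      exp (4 * M ^ 2) * ∫ p, mix d μ (x - (p.1 - p.2)) ∂(μ.prod ν) := by
  set f := mix d μ x with hf
  set g := mix d ν x with hg
  have hfp : 0 < f := mix_pos μ x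
  have hgp : 0 < g := mix_pos ν x
  have step : ∀ z' w : EuclideanSpace ℝ (Fin d), ‖z'‖ ≤ M → ‖w‖ ≤ M →
      (f * ker d (x - z')) * (2 / g - ker d (x - w) / g ^ 2) ≤
        exp (4 * M ^ 2) * mix d μ (x - (z' - w)) := by
    intro z' w hz' hw
    have h1 : f * ker d (x - z') ≤ exp (4 * M ^ 2) * mix d μ (x - (z' - w)) * ker d (x - w) := by
      rw [hf, mix_eq, mix_eq, ← integral_mul_const, ← integral_const_mul, ← integral_mul_const]
      exact integral_mono_ae ((int_ker μ _).mul_const _)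
        (((int_ker μ _).const_mul _).mul_const _) (hμ.mono fun z hz => ker_prod x z z' w hz hz' hw)
    have hk := ker_pos (x - w)
    set k := ker d (x - w)
    have h2 : 2 / g - k / g ^ 2 ≤ 1 / k := by
      have : 1 / k - (2 / g - k / g ^ 2) = (g - k) ^ 2 / (k * g ^ 2) := by
        field_simp; ring
      have h3 : 0 ≤ (g - k) ^ 2 / (k * g ^ 2) := by positivity
      linarith
    have hA : 0 ≤ f * ker d (x - z') := (mul_pos hfp (ker_pos _)).le
    calc (f * ker d (x - z')) * (2 / g - k / g ^ 2) ≤ (f * ker d (x - z')) * (1 / k) :=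
          mul_le_mul_of_nonneg_left h2 hA
      _ ≤ (exp (4 * M ^ 2) * mix d μ (x - (z' - w)) * k) * (1 / k) :=
          mul_le_mul_of_nonneg_right h1 (by positivity)
      _ = _ := by field_simp
  have hae : ∀ᵐ p ∂(μ.prod ν), ‖p.1‖ ≤ M ∧ ‖p.2‖ ≤ M :=
    (Measure.quasiMeasurePreserving_fst.ae hμ).and (Measure.quasiMeasurePreserving_snd.ae hν)
  have i1 : Integrable (fun z' => f * ker d (x - z')) μ := (int_ker μ x).const_mul _
  have i2 : Integrable (fun w => 2 / g - ker d (x - w) / g ^ 2) ν :=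
    (integrable_const _).sub ((int_ker ν x).div_const _)
  have hle := integral_mono_ae (i1.mul_prod i2) ((int_mix2 μ ν x).const_mul (exp (4 * M ^ 2)))
    (hae.mono fun p hp => step p.1 p.2 hp.1 hp.2)
  rw [integral_prod_mul (fun z' => f * ker d (x - z')) (fun w => 2 / g - ker d (x - w) / g ^ 2),
    integral_const_mul, integral_const_mul,
    integral_sub (integrable_const _) ((int_ker ν x).div_const _), integral_div, integral_div, ← mix_eq,
    ← mix_eq, ← hf, ← hg] at hle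
  refine le_of_eq_of_le ?_ hle
  simp only [integral_const, probReal_univ, smul_eq_mul, one_mul]
  field_simp
  ring

end Pool.Agent.H44.GM
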