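import Pool.Agent.H44.GM1

open MeasureTheory Real Set

namespace Pool.Agent.H44.GM

variable {d : ℕ}

lemma hel_integrable (μ ν : Measure (EuclideanSpace ℝ (Fin d))) [IsProbabilityMeasure μ]
    [IsProbabilityMeasure ν] :
    Integrable (fun x => (√(mix d μ x) - √(mix d ν x)) ^ 2) := by
  refine Integrable.mono' ((mix_integrable μ).add (mix_integrable ν))
    (((mix_cont μ).sqrt.sub (mix_cont ν).sqrt).pow 2).aestronglyMeasurable
    (Filter.Eventually.of_forall fun x => ?_)
  rw [Real.norm_of_nonneg (sq_nonneg _)]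
  have h1 := Real.sq_sqrt (mix_pos μ x).le
  have h2 := Real.sq_sqrt (mix_pos ν x).le
  have h3 := mul_nonneg (Real.sqrt_nonneg (mix d μ x)) (Real.sqrt_nonneg (mix d ν x))
  simp only [Pi.add_apply]
  nlinarith

lemma low {f g : ℝ} (hf : 0 < f) (hg : 0 < g) (h : 4 * g ≤ f) : f ≤ 4 * (√f - √g) ^ 2 := by
  have h1 := Real.sq_sqrt hf.le
  have h2 := Real.sq_sqrt hg.le
  have ha := Real.sqrt_nonneg f
  have hb := Real.sqrt_nonneg g
  have h3 : 2 * √g ≤ √f := by
    by_contra hc
    push Not at hc
    nlinarith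
  nlinarith

lemma mid {f g K : ℝ} (hf : 0 < f) (hg : 0 < g) (hK : 1 ≤ K) (h : f ≤ 4 * K * g) :
    (f - g) ^ 2 / g ≤ 9 * K * (√f - √g) ^ 2 := by
  have h1 := Real.sq_sqrt hf.le
  have h2 := Real.sq_sqrt hg.le
  have ha := Real.sqrt_nonneg f
  have hb := Real.sqrt_nonneg g
  rw [div_le_iff₀ hg]
  set a := √f
  set b := √g
  have e : (f - g) ^ 2 = (a - b) ^ 2 * (a + b) ^ 2 := by rw [← h1, ← h2]; ring
  have h4 : (a + b) ^ 2 ≤ 9 * K * g := by
    have h5 : g ≤ K * g := by nlinarith
    nlinarith [sq_nonneg (a - 2 * b)]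
  rw [e]
  have := mul_le_mul_of_nonneg_left h4 (sq_nonneg (a - b))
  linarith

theorem chi {M : ℝ} (μ ν : Measure (EuclideanSpace ℝ (Fin d))) [IsProbabilityMeasure μ]
    [IsProbabilityMeasure ν] (hμ : ∀ᵐ z ∂μ, ‖z‖ ≤ M) (hν : ∀ᵐ z ∂ν, ‖z‖ ≤ M) :
    Integrable (fun x => (mix d μ x - mix d ν x) ^ 2 / mix d ν x) ∧
      ∫ x, (mix d μ x - mix d ν x) ^ 2 / mix d ν x ≤
        13 * exp (4 * M ^ 2) * ∫ x, (√(mix d μ x) - √(mix d ν x)) ^ 2 := by
  classical
  set K := exp (4 * M ^ 2) with hK
  have hK1 : 1 ≤ K := one_le_exp (by positivity)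
  set A : Set (EuclideanSpace ℝ (Fin d)) := {x | 4 * K * mix d ν x ≤ mix d μ x} with hA
  have hAm : MeasurableSet A :=
    (isClosed_le (continuous_const.mul (mix_cont ν)) (mix_cont μ)).measurableSet
  set H : EuclideanSpace ℝ (Fin d) → ℝ := fun x => (√(mix d μ x) - √(mix d ν x)) ^ 2 with hH
  have iH : Integrable H := hel_integrable μ ν
  set G : EuclideanSpace ℝ (Fin d) → EuclideanSpace ℝ (Fin d) × EuclideanSpace ℝ (Fin d) → ℝ :=
    fun x p => A.indicator (fun _ => (1 : ℝ)) x * mix d μ (x - (p.1 - p.2)) with hG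
  have hind : ∀ x, ‖A.indicator (fun _ => (1 : ℝ)) x‖ ≤ 1 := fun x => by
    by_cases hx : x ∈ A <;> simp [hx]
  have iG : Integrable (Function.uncurry G) (volume.prod (μ.prod ν)) := by
    have hc : Continuous (fun q : EuclideanSpace ℝ (Fin d) ×
        (EuclideanSpace ℝ (Fin d) × EuclideanSpace ℝ (Fin d)) =>
          mix d μ (q.1 - (q.2.1 - q.2.2))) :=
      (mix_cont μ).comp (continuous_fst.sub (continuous_snd.fst.sub continuous_snd.snd))
    have i0 : Integrable (fun q : EuclideanSpace ℝ (Fin d) ×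
        (EuclideanSpace ℝ (Fin d) × EuclideanSpace ℝ (Fin d)) =>
          mix d μ (q.1 - (q.2.1 - q.2.2))) (volume.prod (μ.prod ν)) := by
      rw [integrable_prod_iff' hc.aestronglyMeasurable]
      refine ⟨Filter.Eventually.of_forall fun p => ?_, ?_⟩
      · exact (mix_integrable μ).comp_sub_right (p.1 - p.2)
      · refine (integrable_const (∫ x, ‖mix d μ x‖)).congr
          (Filter.Eventually.of_forall fun p => ?_)
        exact (integral_sub_right_eq_self (fun x => ‖mix d μ x‖) (p.1 - p.2)).symm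
    exact i0.bdd_mul (c := 1)
      (((measurable_const.indicator hAm).comp measurable_fst).aestronglyMeasurable)
      (Filter.Eventually.of_forall fun q => hind q.1)
  have hae : ∀ᵐ p ∂(μ.prod ν), ‖p.1‖ ≤ M ∧ ‖p.2‖ ≤ M :=
    (Measure.quasiMeasurePreserving_fst.ae hμ).and (Measure.quasiMeasurePreserving_snd.ae hν)
  have iT : Integrable (fun x => ∫ p, G x p ∂(μ.prod ν)) := iG.integral_prod_left
  have hT : ∫ x, ∫ p, G x p ∂(μ.prod ν) ≤ 4 * ∫ x, H x := by
    rw [integral_integral_swap iG]
    calc ∫ p, (∫ x, G x p) ∂(μ.prod ν) ≤ ∫ _p, (4 * ∫ x, H x) ∂(μ.prod ν) := by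
          refine integral_mono_ae iG.integral_prod_right (integrable_const _)
            (hae.mono fun p hp => ?_)
          beta_reduce
          have hv : ‖p.1 - p.2‖ ≤ 2 * M := (norm_sub_le _ _).trans (by linarith [hp.1, hp.2])
          rw [← integral_add_right_eq_self (fun x => G x p) (p.1 - p.2), ← integral_const_mul]
          refine integral_mono_of_nonneg (Filter.Eventually.of_forall fun y => ?_)
            (iH.const_mul _) (Filter.Eventually.of_forall fun y => ?_)
          · exact mul_nonneg (indicator_nonneg (fun _ _ => zero_le_one) _) (mix_pos μ _).le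
          · beta_reduce
            rw [hG]
            beta_reduce
            rw [add_sub_cancel_right]
            by_cases hy : y + (p.1 - p.2) ∈ A
            · rw [indicator_of_mem hy, one_mul]
              exact low (mix_pos μ y) (mix_pos ν y) (ratio_shift μ ν hμ hν y _ hv hy)
            · rw [indicator_of_notMem hy, zero_mul]
              exact mul_nonneg (by norm_num) (sq_nonneg _)
      _ = _ := by simp
  have pt : ∀ x, (mix d μ x - mix d ν x) ^ 2 / mix d ν x ≤
      9 * K * H x + K * ∫ p, G x p ∂(μ.prod ν) := by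
    intro x
    have hf := mix_pos μ x
    have hg := mix_pos ν x
    have hH0 : 0 ≤ 9 * K * H x := mul_nonneg (by linarith) (sq_nonneg _)
    by_cases hx : x ∈ A
    · have e : ∫ p, G x p ∂(μ.prod ν) = ∫ p, mix d μ (x - (p.1 - p.2)) ∂(μ.prod ν) := by
        simp only [hG, indicator_of_mem hx, one_mul]
      rw [e]
      have h1 := sq_div_le μ ν hμ hν x
      have h2 : (mix d μ x - mix d ν x) ^ 2 / mix d ν x ≤ mix d μ x ^ 2 / mix d ν x := by
        refine div_le_div_of_nonneg_right ?_ hg.le
        have h3 : 4 * K * mix d ν x ≤ mix d μ x := hx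
        have h4 : mix d ν x ≤ mix d μ x := by nlinarith
        nlinarith
      linarith
    · have e : ∫ p, G x p ∂(μ.prod ν) = 0 := by
        simp only [hG, indicator_of_notMem hx, zero_mul, integral_zero]
      rw [e, mul_zero, add_zero]
      have h3 : ¬ 4 * K * mix d ν x ≤ mix d μ x := hx
      exact mid hf hg hK1 (not_le.1 h3).le
  have iB : Integrable (fun x => 9 * K * H x + K * ∫ p, G x p ∂(μ.prod ν)) :=
    (iH.const_mul _).add (iT.const_mul _)
  have iC : Integrable (fun x => (mix d μ x - mix d ν x) ^ 2 / mix d ν x) := by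
    refine Integrable.mono' iB
      ((((mix_cont μ).sub (mix_cont ν)).pow 2).div (mix_cont ν)
        fun x => (mix_pos ν x).ne').aestronglyMeasurable
      (Filter.Eventually.of_forall fun x => ?_)
    rw [Real.norm_of_nonneg (div_nonneg (sq_nonneg _) (mix_pos ν x).le)]
    exact pt x
  refine ⟨iC, (integral_mono iC iB pt).trans ?_⟩
  rw [integral_add (iH.const_mul _) (iT.const_mul _), integral_const_mul, integral_const_mul]
  have := mul_le_mul_of_nonneg_left hT (by linarith : 0 ≤ K)
  linarith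

theorem kl {M : ℝ} (μ ν : Measure (EuclideanSpace ℝ (Fin d))) [IsProbabilityMeasure μ]
    [IsProbabilityMeasure ν] (hμ : ∀ᵐ z ∂μ, ‖z‖ ≤ M) (hν : ∀ᵐ z ∂ν, ‖z‖ ≤ M) :
    Integrable (fun x => mix d μ x * log (mix d μ x / mix d ν x)) ∧
      ∫ x, mix d μ x * log (mix d μ x / mix d ν x) ≤
        ∫ x, (mix d μ x - mix d ν x) ^ 2 / mix d ν x := by
  have iC := (chi μ ν hμ hν).1
  have iD : Integrable (fun x => mix d μ x - mix d ν x) := (mix_integrable μ).sub (mix_integrable ν)
  have up : ∀ x, mix d μ x * log (mix d μ x / mix d ν x) ≤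
      (mix d μ x - mix d ν x) ^ 2 / mix d ν x + (mix d μ x - mix d ν x) := by
    intro x
    have hf := mix_pos μ x
    have hg := mix_pos ν x
    have h1 := log_le_sub_one_of_pos (div_pos hf hg)
    have h2 := mul_le_mul_of_nonneg_left h1 hf.le
    refine h2.trans (le_of_eq ?_)
    field_simp
    ring
  have lo : ∀ x, mix d μ x - mix d ν x ≤ mix d μ x * log (mix d μ x / mix d ν x) := by
    intro x
    have hf := mix_pos μ x
    have hg := mix_pos ν x
    have h1 := one_sub_inv_le_log_of_pos (div_pos hf hg)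
    have h2 := mul_le_mul_of_nonneg_left h1 hf.le
    refine (le_of_eq ?_).trans h2
    field_simp
  have iK : Integrable (fun x => mix d μ x * log (mix d μ x / mix d ν x)) := by
    refine Integrable.mono' ((iC.add iD).abs.add iD.abs)
      ((mix_cont μ).mul (((mix_cont μ).div (mix_cont ν) fun x => (mix_pos ν x).ne').log
        fun x => (div_pos (mix_pos μ x) (mix_pos ν x)).ne')).aestronglyMeasurable
      (Filter.Eventually.of_forall fun x => ?_)
    simp only [Pi.add_apply, Real.norm_eq_abs]
    rw [abs_le]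
    have h1 := up x
    have h2 := lo x
    have h3 := le_abs_self ((mix d μ x - mix d ν x) ^ 2 / mix d ν x + (mix d μ x - mix d ν x))
    have h4 := neg_abs_le (mix d μ x - mix d ν x)
    have h5 := abs_nonneg ((mix d μ x - mix d ν x) ^ 2 / mix d ν x + (mix d μ x - mix d ν x))
    have h6 := abs_nonneg (mix d μ x - mix d ν x)
    constructor <;> linarith
  have iE : Integrable (fun x => (mix d μ x - mix d ν x) ^ 2 / mix d ν x +
      (mix d μ x - mix d ν x)) := iC.add iD
  refine ⟨iK, (integral_mono iK iE up).trans (le_of_eq ?_)⟩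
  rw [integral_add iC iD, integral_sub (mix_integrable μ) (mix_integrable ν), integral_mix,
    integral_mix, sub_self, add_zero]

end Pool.Agent.H44.GM
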