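import Mathlib

open Finset

namespace Pool.Agent.H44.GP

/-- Nonempty binary trees with internal nodes `J` and labelled leaves. -/
inductive Tr (α : Type) : Type
  | leaf (a : α) : Tr α
  | node (l r : Tr α) : Tr α

namespace Tr

variable {α : Type}

/-- Leaves in in-order. -/
def leaves : Tr α → List α
  | leaf a => [a]
  | node l r => leaves l ++ leaves r

/-- Results of INS with new leaf `a` (placed left iff `side`), one for each node `v`. -/
def ins (a : α) (side : Bool) : Tr α → List (Tr α)
  | leaf b => [if side then node (leaf a) (leaf b) else node (leaf b) (leaf a)]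
  | node l r => (if side then node (leaf a) (node l r) else node (node l r) (leaf a)) ::
      ((ins a side l).map (fun l' => node l' r) ++ (ins a side r).map (fun r' => node l r'))

/-- Results of DEL, one for each leaf (`none` is the empty tree). -/
def del : Tr α → List (Option (Tr α))
  | leaf _ => [none]
  | node l r => (del l).map (fun o => some (o.elim r fun l' => node l' r)) ++
      (del r).map (fun o => some (o.elim l fun r' => node l r'))

/-- Results of SUB with label `a`, one for each node (internal nodes change nothing). -/
def sub (a : α) : Tr α → List (Tr α)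
  | leaf _ => [leaf a]
  | node l r => node l r ::
      ((sub a l).map (fun l' => node l' r) ++ (sub a r).map (fun r' => node l r'))

end Tr

/-- Literals: `(i, true)` is `x_i` and `(i, false)` is its negation. -/
abbrev Lit (n : ℕ) : Type := Fin n × Bool

/-- Individuals: a tree or the empty tree `none`. -/
abbrev Ind (n : ℕ) : Type := Option (Tr (Lit n))

variable {n : ℕ}

/-- Leaves of an individual. -/
def lv (X : Ind n) : List (Lit n) := X.elim [] Tr.leaves

/-- Size: number of leaves. -/
def size (X : Ind n) : ℕ := (lv X).length

/-- ORDER on a list of literals: variables whose first literal in the list is positive. -/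
def fitL (L : List (Lit n)) : ℕ :=
  (univ.filter fun i : Fin n => L.find? (fun l => l.1 = i) = some (i, true)).card

/-- ORDER fitness. -/
def fit (X : Ind n) : ℕ := fitL (lv X)

/-- Average of `g` over a uniformly chosen entry of a list. -/
noncomputable def avg {β : Type} (L : List β) (g : β → ℝ) : ℝ := (L.map g).sum / L.length

/-- Expectation of `g` at the result of one application of HVL-Prime. -/
noncomputable def hvl (X : Ind n) (g : Ind n → ℝ) : ℝ :=
  match X with
  | none => (∑ l : Lit n, g (some (Tr.leaf l))) / (2 * n)
  | some t =>
    ((∑ l : Lit n, ∑ side : Bool, avg (t.ins l side) fun Y => g (some Y)) / (4 * n) +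
      avg t.del g + (∑ l : Lit n, avg (t.sub l) fun Y => g (some Y)) / (2 * n)) / 3

/-- Weak domination. -/
def WDom (X Y : Ind n) : Prop := fit Y ≤ fit X ∧ size X ≤ size Y

/-- Strict domination. -/
def SDom (X Y : Ind n) : Prop := WDom X Y ∧ (fit Y < fit X ∨ size X < size Y)

open Classical in
/-- Population after the offspring `Y` is offered to `P`. -/
noncomputable def upd (P : Finset (Ind n)) (Y : Ind n) : Finset (Ind n) :=
  if ∃ X ∈ P, SDom X Y then P else insert Y (P.filter fun X => ¬ WDom Y X)

/-- `P` attains every Pareto-optimal objective vector. -/
def Done (P : Finset (Ind n)) : Prop :=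
  ∀ X : Ind n, (∀ Y, ¬ SDom Y X) → ∃ Z ∈ P, fit Z = fit X ∧ size Z = size X

open Classical in
/-- Probability that SMO-GP with `k = 1`, started from population `P`, needs more than `t`
iterations. -/
noncomputable def surv : ℕ → Finset (Ind n) → ℝ
  | 0, P => if Done P then 0 else 1
  | t + 1, P => if Done P then 0 else (∑ X ∈ P, hvl X fun Y => surv t (upd P Y)) / P.card

/-- Expected optimization time. -/
noncomputable def expT (P : Finset (Ind n)) : ENNReal := ∑' t, ENNReal.ofReal (surv t P)

end Pool.Agent.H44.GP
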