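import Mathlib
import Pool.Agent.H44.GPDefs

open Finset

namespace Pool.Agent.H44.GP

section trees
variable {α : Type}

lemma ins_spec (a : α) (side : Bool) (t : Tr α) : ∀ X ∈ t.ins a side,
    ∃ u w, t.leaves = u ++ w ∧ X.leaves = u ++ a :: w := by
  induction t with
  | leaf b =>
    intro X hX
    simp only [Tr.ins, List.mem_singleton] at hX
    subst hX
    cases side
    · exact ⟨[b], [], rfl, rfl⟩
    · exact ⟨[], [b], rfl, rfl⟩
  | node l r ihl ihr =>
    intro X hX
    simp only [Tr.ins, List.mem_cons, List.mem_append, List.mem_map] at hX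
    rcases hX with rfl | ⟨l', h, rfl⟩ | ⟨r', h, rfl⟩
    · cases side
      · exact ⟨l.leaves ++ r.leaves, [], by simp [Tr.leaves], by simp [Tr.leaves]⟩
      · exact ⟨[], l.leaves ++ r.leaves, by simp [Tr.leaves], by simp [Tr.leaves]⟩
    · obtain ⟨u, w, h1, h2⟩ := ihl l' h
      exact ⟨u, w ++ r.leaves, by simp [Tr.leaves, h1], by simp [Tr.leaves, h2]⟩
    · obtain ⟨u, w, h1, h2⟩ := ihr r' h
      exact ⟨l.leaves ++ u, w, by simp [Tr.leaves, h1], by simp [Tr.leaves, h2]⟩

lemma ins_ne (a : α) (side : Bool) (t : Tr α) : t.ins a side ≠ [] := by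
  cases t <;> simp [Tr.ins]

lemma sub_ne (a : α) (t : Tr α) : t.sub a ≠ [] := by
  cases t <;> simp [Tr.sub]

lemma sub_spec (a : α) (t : Tr α) : ∀ X ∈ t.sub a, X.leaves.length = t.leaves.length := by
  induction t with
  | leaf b =>
    intro X hX
    simp only [Tr.sub, List.mem_singleton] at hX
    subst hX
    rfl
  | node l r ihl ihr =>
    intro X hX
    simp only [Tr.sub, List.mem_cons, List.mem_append, List.mem_map] at hX
    rcases hX with rfl | ⟨l', h, rfl⟩ | ⟨r', h, rfl⟩
    · rfl
    · simp [Tr.leaves, ihl l' h]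
    · simp [Tr.leaves, ihr r' h]

def dels : List α → List (List α)
  | [] => []
  | a :: L => L :: (dels L).map (fun L' => a :: L')

lemma dels_append (u w : List α) :
    dels (u ++ w) = (dels u).map (fun L => L ++ w) ++ (dels w).map (fun L => u ++ L) := by
  induction u with
  | nil => simp [dels]
  | cons a u ih => simp [dels, ih, Function.comp_def]

lemma dels_length (L : List α) : (dels L).length = L.length := by
  induction L with
  | nil => rfl
  | cons a L ih => simp [dels, ih]

lemma dels_mem (L : List α) : ∀ L' ∈ dels L, L'.length + 1 = L.length := by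
  induction L with
  | nil => simp [dels]
  | cons a L ih =>
    intro L' h
    simp only [dels, List.mem_cons, List.mem_map] at h
    rcases h with rfl | ⟨M, h, rfl⟩
    · rfl
    · simp [ih M h]

lemma del_spec (t : Tr α) : t.del.map (fun o => o.elim [] Tr.leaves) = dels t.leaves := by
  induction t with
  | leaf b => rfl
  | node l r ihl ihr =>
    simp only [Tr.del, Tr.leaves, dels_append, ← ihl, ← ihr, List.map_append, List.map_map]
    congr 1
    · refine List.map_congr_left fun o _ => ?_
      cases o <;> simp [Tr.leaves]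
    · refine List.map_congr_left fun o _ => ?_
      cases o <;> simp [Tr.leaves]

lemma leaves_pos (t : Tr α) : 1 ≤ t.leaves.length := by
  induction t with
  | leaf b => simp [Tr.leaves]
  | node l r ihl ihr => simp only [Tr.leaves, List.length_append]; omega

end trees

variable {n : ℕ}

def fd (i : Fin n) (L : List (Lit n)) : Option (Lit n) := L.find? (fun l => l.1 = i)

lemma fd_cons (i : Fin n) (a : Lit n) (L : List (Lit n)) :
    fd i (a :: L) = if a.1 = i then some a else fd i L := by
  unfold fd
  rw [List.find?_cons]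
  by_cases h : a.1 = i <;> simp [h]

lemma fitL_eq (L : List (Lit n)) :
    fitL L = (univ.filter fun i : Fin n => fd i L = some (i, true)).card := rfl

lemma fitL_le (L : List (Lit n)) : fitL L ≤ n := by
  have := card_filter_le (univ : Finset (Fin n)) (fun i : Fin n => fd i L = some (i, true))
  rw [card_univ, Fintype.card_fin] at this
  exact this

lemma bad_count (L : List (Lit n)) : ∀ A : Finset (Fin n),
    (dels L).countP (fun L' => decide (∃ i ∈ A, fd i L' ≠ fd i L)) ≤ A.card := by
  induction L with
  | nil => simp [dels]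
  | cons a L ih =>
    intro A
    have h1 : ((dels L).map (fun L' => a :: L')).countP
        (fun L' => decide (∃ i ∈ A, fd i L' ≠ fd i (a :: L))) ≤ (A.erase a.1).card := by
      rw [List.countP_map]
      refine le_trans (List.countP_mono_left fun L' _ h => ?_) (ih (A.erase a.1))
      simp only [Function.comp, decide_eq_true_eq] at h ⊢
      obtain ⟨i, hi, h⟩ := h
      rw [fd_cons, fd_cons] at h
      by_cases e : a.1 = i
      · simp [e] at h
      · rw [if_neg e, if_neg e] at h
        exact ⟨i, mem_erase.2 ⟨Ne.symm e, hi⟩, h⟩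
    rw [dels, List.countP_cons]
    by_cases ha : a.1 ∈ A
    · have := card_erase_add_one ha
      split_ifs <;> omega
    · rw [erase_eq_of_notMem ha] at h1
      rw [if_neg]
      · omega
      · simp only [decide_eq_true_eq, not_exists, not_and, not_not]
        intro i hi
        rw [fd_cons, if_neg (fun e : a.1 = i => ha (e ▸ hi))]

lemma del_bad (t : Tr (Lit n)) :
    t.del.countP (fun Y => decide (fit Y < fit (some t))) ≤ n := by
  have h := bad_count t.leaves univ
  rw [← del_spec, List.countP_map, card_univ, Fintype.card_fin] at h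
  refine le_trans (List.countP_mono_left fun Y _ h => ?_) h
  simp only [Function.comp, decide_eq_true_eq] at h ⊢
  by_contra hc
  simp only [mem_univ, true_and, not_exists, not_not] at hc
  have : fit Y = fit (some t) := by
    unfold fit
    rw [fitL_eq, fitL_eq]
    congr 1
    refine filter_congr fun i _ => ?_
    have := hc i
    change fd i (lv Y) = fd i (lv (some t)) at this
    rw [this]
  omega

lemma del_size (t : Tr (Lit n)) : ∀ Y ∈ t.del, size Y + 1 = size (some t) := by
  intro Y hY
  refine dels_mem t.leaves (lv Y) ?_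
  rw [← del_spec]
  exact List.mem_map.2 ⟨Y, hY, rfl⟩

lemma del_length (t : Tr (Lit n)) : t.del.length = size (some t) := by
  have := congrArg List.length (del_spec t)
  rw [List.length_map, dels_length] at this
  exact this

lemma fitL_le_countP (L : List (Lit n)) : fitL L ≤ L.countP (fun l => l.2) := by
  induction L with
  | nil => simp [fitL]
  | cons a L ih =>
    rw [List.countP_cons, fitL_eq]
    rw [fitL_eq] at ih
    split_ifs with h
    · refine le_trans (card_le_card (t := insert a.1 (univ.filter fun i : Fin n =>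
        fd i L = some (i, true))) fun i hi => ?_) ((card_insert_le _ _).trans (by omega))
      rw [mem_filter, fd_cons] at hi
      by_cases e : a.1 = i
      · exact mem_insert.2 (Or.inl e.symm)
      · rw [if_neg e] at hi
        exact mem_insert_of_mem (mem_filter.2 hi)
    · refine le_trans (card_le_card fun i hi => ?_) ih
      rw [mem_filter, fd_cons] at hi
      by_cases e : a.1 = i
      · rw [if_pos e, Option.some.injEq] at hi
        rw [hi.2] at h
        simp at h
      · rw [if_neg e] at hi
        exact mem_filter.2 hi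

lemma fit_le_size (X : Ind n) : fit X ≤ size X :=
  (fitL_le_countP _).trans List.countP_le_length

lemma fit_le (X : Ind n) : fit X ≤ n := fitL_le _

lemma fd_insert {i : Fin n} {a : Lit n} (h : a.1 ≠ i) (u w : List (Lit n)) :
    fd i (u ++ a :: w) = fd i (u ++ w) := by
  induction u with
  | nil => simp only [List.nil_append]; rw [fd_cons, if_neg h]
  | cons b u ih => simp only [List.cons_append]; rw [fd_cons, fd_cons, ih]

lemma fitL_insert_le (a : Lit n) (u w : List (Lit n)) :
    fitL (u ++ a :: w) ≤ fitL (u ++ w) + 1 := by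
  rw [fitL_eq, fitL_eq]
  refine le_trans (card_le_card (t := insert a.1 (univ.filter fun i : Fin n =>
    fd i (u ++ w) = some (i, true))) fun i hi => ?_) (card_insert_le _ _)
  by_cases e : a.1 = i
  · exact mem_insert.2 (Or.inl e.symm)
  · rw [mem_filter, fd_insert e] at hi
    exact mem_insert_of_mem (mem_filter.2 hi)

lemma fd_self (i : Fin n) (u w : List (Lit n)) (hu : ∀ l ∈ u, l.2 = true) :
    fd i (u ++ (i, true) :: w) = some (i, true) := by
  induction u with
  | nil => simp only [List.nil_append]; rw [fd_cons, if_pos rfl]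
  | cons b u ih =>
    simp only [List.cons_append]
    rw [fd_cons]
    split_ifs with h
    · rw [← h, ← hu b (by simp)]
    · exact ih fun l hl => hu l (by simp [hl])

lemma exists_good (L : List (Lit n)) (h1 : fitL L = L.length) (h2 : fitL L < n) :
    ∃ a : Lit n, ∀ u w, L = u ++ w → fitL L + 1 ≤ fitL (u ++ a :: w) := by
  have h3 : ∀ l ∈ L, l.2 = true := by
    have := fitL_le_countP L
    exact List.countP_eq_length.1 (le_antisymm List.countP_le_length (h1 ▸ this))
  obtain ⟨i, hi⟩ : ∃ i : Fin n, i ∉ univ.filter fun i : Fin n => fd i L = some (i, true) := by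
    by_contra hc
    simp only [not_exists, not_not] at hc
    have := card_le_card (s := univ) fun i _ => hc i
    rw [card_univ, Fintype.card_fin, ← fitL_eq] at this
    omega
  refine ⟨(i, true), fun u w e => ?_⟩
  rw [fitL_eq, fitL_eq, ← card_insert_of_notMem hi]
  refine card_le_card fun j hj => ?_
  rw [mem_filter]
  refine ⟨mem_univ _, ?_⟩
  by_cases hij : i = j
  · subst hij
    exact fd_self i u w fun l hl => h3 l (by simp [e, hl])
  · rcases mem_insert.1 hj with h | h
    · exact absurd h.symm hij
    · rw [fd_insert (a := (i, true)) hij, ← e]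
      exact (mem_filter.1 h).2

/-! averages -/

lemma avg_mono {β : Type} (L : List β) {g h : β → ℝ} (H : ∀ x ∈ L, g x ≤ h x) :
    avg L g ≤ avg L h :=
  div_le_div_of_nonneg_right (List.sum_le_sum H) (Nat.cast_nonneg _)

lemma avg_const {β : Type} {L : List β} (hL : L ≠ []) (c : ℝ) : avg L (fun _ => c) = c := by
  have : (L.length : ℝ) ≠ 0 := by simpa using hL
  simp only [avg, List.map_const', List.sum_replicate, nsmul_eq_mul]
  field_simp

lemma avg_le {β : Type} {L : List β} (hL : L ≠ []) {g : β → ℝ} {c : ℝ} (H : ∀ x ∈ L, g x ≤ c) :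
    avg L g ≤ c := (avg_mono L H).trans (avg_const hL c).le

lemma avg_add {β : Type} (L : List β) (g h : β → ℝ) :
    avg L (fun x => g x + h x) = avg L g + avg L h := by
  simp only [avg, List.sum_map_add, add_div]

lemma avg_bad {β : Type} {L : List β} (hL : L ≠ []) (p : β → Bool) {g : β → ℝ} {c e : ℝ}
    (H : ∀ x ∈ L, g x ≤ c + if p x = true then e else 0) :
    avg L g ≤ c + e * L.countP p / L.length := by
  refine (avg_mono L H).trans ?_
  rw [avg_add, avg_const hL]
  have : ∀ M : List β, (M.map fun x => if p x = true then e else 0).sum = e * M.countP p := by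
    intro M
    induction M with
    | nil => simp
    | cons a M ih =>
      rw [List.map_cons, List.sum_cons, ih, List.countP_cons]
      split_ifs <;> push_cast <;> ring
  unfold avg
  rw [this]

lemma ins_size (t : Tr (Lit n)) (l : Lit n) (side : Bool) :
    ∀ Y ∈ t.ins l side, size (some Y) = size (some t) + 1 := by
  intro Y hY
  obtain ⟨u, w, h1, h2⟩ := ins_spec l side t Y hY
  change Y.leaves.length = t.leaves.length + 1
  rw [h1, h2]
  simp only [List.length_append, List.length_cons]
  omega

lemma ins_fit (t : Tr (Lit n)) (l : Lit n) (side : Bool) :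
    ∀ Y ∈ t.ins l side, fit (some Y) ≤ fit (some t) + 1 := by
  intro Y hY
  obtain ⟨u, w, h1, h2⟩ := ins_spec l side t Y hY
  change fitL Y.leaves ≤ fitL t.leaves + 1
  rw [h1, h2]
  exact fitL_insert_le _ _ _

lemma sub_size (t : Tr (Lit n)) (l : Lit n) : ∀ Y ∈ t.sub l, size (some Y) = size (some t) :=
  sub_spec l t

lemma hvl_mono (X : Ind n) {g h : Ind n → ℝ} (H : ∀ Y, size Y ≤ size X + 1 → g Y ≤ h Y) :
    hvl X g ≤ hvl X h := by
  cases X with
  | none =>
    exact div_le_div_of_nonneg_right (sum_le_sum fun l _ => H _ (by simp [size, lv, Tr.leaves]))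
      (by positivity)
  | some t =>
    unfold hvl
    have h1 : ∀ l side, avg (t.ins l side) (fun Y => g (some Y)) ≤
        avg (t.ins l side) (fun Y => h (some Y)) := fun l side =>
      avg_mono _ fun Y hY => H _ (ins_size t l side Y hY).le
    have h2 : avg t.del g ≤ avg t.del h :=
      avg_mono _ fun Y hY => H _ (by have := del_size t Y hY; omega)
    have h3 : ∀ l, avg (t.sub l) (fun Y => g (some Y)) ≤
        avg (t.sub l) (fun Y => h (some Y)) := fun l =>
      avg_mono _ fun Y hY => H _ (by have := sub_size t l Y hY; omega)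
    dsimp only
    gcongr with l _ side _ l _
    · exact h1 l side
    · exact h3 l

lemma hvl_add (X : Ind n) (g h : Ind n → ℝ) :
    hvl X (fun Y => g Y + h Y) = hvl X g + hvl X h := by
  cases X with
  | none => simp only [hvl, sum_add_distrib, add_div]
  | some t =>
    simp only [hvl, avg_add, sum_add_distrib]
    ring

lemma hvl_zero (X : Ind n) : hvl X (fun _ => 0) = 0 := by
  cases X <;> simp [hvl, avg]

lemma hvl_sum (X : Ind n) (t : ℕ) (g : ℕ → Ind n → ℝ) :
    hvl X (fun Y => ∑ j ∈ range t, g j Y) = ∑ j ∈ range t, hvl X (g j) := by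
  induction t with
  | zero => simpa using hvl_zero X
  | succ t ih => simp only [sum_range_succ, hvl_add, ih]

lemma hvl_some_le (hn : 1 ≤ n) (t : Tr (Lit n)) {g : Ind n → ℝ} {a b c : ℝ}
    (h1 : ∑ l : Lit n, ∑ side : Bool, avg (t.ins l side) (fun Y => g (some Y)) ≤ 4 * n * a)
    (h2 : avg t.del g ≤ b) (h3 : ∀ l, ∀ Y ∈ t.sub l, g (some Y) ≤ c) :
    hvl (some t) g ≤ (a + b + c) / 3 := by
  have hn0 : (0 : ℝ) < n := by exact_mod_cast hn
  have h4 : ∑ l : Lit n, avg (t.sub l) (fun Y => g (some Y)) ≤ 2 * n * c := by
    have := sum_le_sum fun l (_ : l ∈ (univ : Finset (Lit n))) => avg_le (sub_ne l t) (h3 l)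
    rw [sum_const, card_univ, Fintype.card_prod, Fintype.card_fin, Fintype.card_bool,
      nsmul_eq_mul] at this
    push_cast at this
    linarith
  have h5 := (div_le_iff₀' (by positivity : (0 : ℝ) < 4 * n)).2 h1
  have h6 := (div_le_iff₀' (by positivity : (0 : ℝ) < 2 * n)).2 h4
  unfold hvl
  dsimp only
  linarith

lemma sum_lit_le {F : Lit n → ℝ} {c e : ℝ} (a : Lit n) (h1 : ∀ l, F l ≤ c) (h2 : F a ≤ c - e) :
    ∑ l, F l ≤ 2 * n * c - e := by
  have h3 : ∑ l, F l ≤ ∑ l : Lit n, (c - if l = a then e else 0) := by
    refine sum_le_sum fun l _ => ?_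
    split_ifs with h
    · rw [h]; exact h2
    · simpa using h1 l
  rw [sum_sub_distrib, sum_const, card_univ, Fintype.card_prod, Fintype.card_fin,
    Fintype.card_bool, nsmul_eq_mul, sum_ite_eq', if_pos (mem_univ _)] at h3
  push_cast at h3
  linarith

lemma ins_sum_le (t : Tr (Lit n)) {g : Ind n → ℝ} {c e : ℝ} (a : Lit n)
    (h1 : ∀ l side, ∀ Y ∈ t.ins l side, g (some Y) ≤ c)
    (h2 : ∀ side, ∀ Y ∈ t.ins a side, g (some Y) ≤ c - e) :
    ∑ l : Lit n, ∑ side : Bool, avg (t.ins l side) (fun Y => g (some Y)) ≤
      4 * n * c - 2 * e := by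
  have := sum_lit_le (F := fun l => ∑ side : Bool, avg (t.ins l side) (fun Y => g (some Y)))
    (c := 2 * c) (e := 2 * e) a (fun l => by
      have h3 := avg_le (ins_ne l true t) (h1 l true)
      have h4 := avg_le (ins_ne l false t) (h1 l false)
      simp only [Fintype.sum_bool]
      linarith) (by
      have h3 := avg_le (ins_ne a true t) (h2 true)
      have h4 := avg_le (ins_ne a false t) (h2 false)
      simp only [Fintype.sum_bool]
      linarith)
  linarith

end Pool.Agent.H44.GP
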