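import Mathlib

open Finset

namespace Pool.Agent.H44.GP

noncomputable def v (G d s : ℝ) : ℝ := min d G * (2 * G - min d G + 2 / G * s)

lemma v_zero {G : ℝ} (hG : 2 ≤ G) (s : ℝ) : v G 0 s = 0 := by
  unfold v; rw [min_eq_left (by linarith), zero_mul]

lemma v_nonneg {G d s : ℝ} (hG : 2 ≤ G) (hd : 0 ≤ d) (hs : 0 ≤ s) : 0 ≤ v G d s := by
  unfold v
  have h1 : 0 ≤ min d G := le_min hd (by linarith)
  have h2 := min_le_right d G
  have h3 : 0 ≤ 2 / G * s := by positivity
  exact mul_nonneg h1 (by linarith)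

lemma v_lip {G S d s d' s' : ℝ} (hG : 2 ≤ G) (hd : 0 ≤ d) (hd' : 0 ≤ d') (h1 : d' ≤ d + 1)
    (hs' : 0 ≤ s') (hS : s' ≤ S) (h2 : s' ≤ s + 1) :
    v G d' s' ≤ v G d s + (2 * G + 2 / G * S + 2) := by
  unfold v
  have a1 : 0 ≤ min d G := le_min hd (by linarith)
  have a2 := min_le_right d G
  have a3 : 0 ≤ min d' G := le_min hd' (by linarith)
  have a4 := min_le_right d' G
  have a5 : min d' G ≤ min d G + 1 := by
    rw [← min_add_add_right]; exact min_le_min h1 (by linarith)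
  generalize min d G = m at *
  generalize min d' G = m' at *
  have w0 : 0 < 2 / G := by positivity
  have w1 : 2 / G * G = 2 := by field_simp
  generalize 2 / G = w at *
  have b1 : (m' - m) * (2 * G - m - m') ≤ 1 * (2 * G - m - m') :=
    mul_le_mul_of_nonneg_right (by linarith) (by linarith)
  have b2 : (m' - m) * s' ≤ 1 * s' := mul_le_mul_of_nonneg_right (by linarith) hs'
  have b3 : m * (s' - s) ≤ m * 1 := mul_le_mul_of_nonneg_left (by linarith) a1
  have b4 : w * (m' * s' - m * s) ≤ w * (S + G) :=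
    mul_le_mul_of_nonneg_left (by nlinarith) w0.le
  nlinarith

lemma v_mono {G e d s : ℝ} (hG : 2 ≤ G) (h : e ≤ d) (hs : 0 ≤ s) : v G e s ≤ v G d s := by
  unfold v
  have a2 := min_le_right d G
  have a4 := min_le_right e G
  have a5 : min e G ≤ min d G := min_le_min_right G h
  generalize min d G = m at *
  generalize min e G = m' at *
  have w0 : 0 ≤ 2 / G * s := by positivity
  generalize 2 / G * s = w at *
  nlinarith [mul_nonneg (sub_nonneg.2 a5) w0,
    mul_nonneg (sub_nonneg.2 a5) (show 0 ≤ 2 * G - m - m' by linarith)]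

lemma v_sub {G x y t u : ℝ} (hG : 2 ≤ G) (hx : 0 ≤ x) (hy : 0 ≤ y) (ht : 0 ≤ t) (h : t ≤ u) :
    v G (x + y) t ≤ v G x u + v G y t := by
  unfold v
  have a1 : 0 ≤ min x G := le_min hx (by linarith)
  have a2 := min_le_right x G
  have a3 : 0 ≤ min y G := le_min hy (by linarith)
  have a4 := min_le_right y G
  have a5 := min_le_right (x + y) G
  have a6 : min x G ≤ min (x + y) G := min_le_min_right G (by linarith)
  have a7 : min y G ≤ min (x + y) G := min_le_min_right G (by linarith)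
  have a8 : min (x + y) G ≤ min x G + min y G := by
    rcases le_total x G with h1 | h1 <;> rcases le_total y G with h2 | h2
    · rw [min_eq_left h1, min_eq_left h2]; exact min_le_left _ _
    · rw [min_eq_right h2]; linarith
    · rw [min_eq_right h1]; linarith
    · rw [min_eq_right h1]; linarith
  generalize min x G = a at *
  generalize min y G = b at *
  generalize min (x + y) G = c at *
  have w0 : 0 < 2 / G := by positivity
  generalize 2 / G = w at *
  have b1 : (c - a) * (2 * G - c - a) ≤ b * (2 * G - b) :=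
    mul_le_mul (by linarith) (by linarith) (by linarith) a3
  have b2 : c * t ≤ (a + b) * t := mul_le_mul_of_nonneg_right a8 ht
  have b3 : a * t ≤ a * u := mul_le_mul_of_nonneg_left h a1
  have b4 : w * (c * t) ≤ w * (a * u + b * t) := mul_le_mul_of_nonneg_left (by linarith) w0.le
  nlinarith

lemma v_five {G d b : ℝ} (hG : 2 ≤ G) (hd : 2 ≤ d) (hb : 1 ≤ b) :
    v G (d - 1) (b + 1) ≤ 8 * (v G d b - v G 1 b) := by
  unfold v
  rw [min_eq_left (by linarith : (1 : ℝ) ≤ G)]
  have a1 : 2 ≤ min d G := le_min hd hG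
  have a2 := min_le_right d G
  have a3 : 0 ≤ min (d - 1) G := le_min (by linarith) (by linarith)
  have a5 : min (d - 1) G ≤ min d G := min_le_min_right G (by linarith)
  generalize min d G = m at *
  generalize min (d - 1) G = m' at *
  have w0 : 0 < 2 / G := by positivity
  generalize 2 / G = w at *
  have b0 : m' ≤ 2 * (m - 1) := by linarith
  have b1 : m' * (2 * G - m') ≤ 2 * (m - 1) * (2 * G) :=
    mul_le_mul b0 (by linarith) (by linarith) (by linarith)
  have b2 : (m - 1) * (G / 2) ≤ (m - 1) * (2 * G - m - 1) :=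
    mul_le_mul_of_nonneg_left (by linarith) (by linarith)
  have b3 : m' * (b + 1) ≤ 2 * (m - 1) * (2 * b) :=
    mul_le_mul b0 (by linarith) (by linarith) (by linarith)
  have b4 : 0 ≤ (m - 1) * b := mul_nonneg (by linarith) (by linarith)
  have b5 : w * (m' * (b + 1)) ≤ w * (8 * ((m - 1) * b)) :=
    mul_le_mul_of_nonneg_left (by nlinarith) w0.le
  nlinarith

lemma v_six {G d s : ℝ} (hG : 2 ≤ G) (hd : 0 ≤ d) (h : d + 1 ≤ G ∨ G ≤ d) (hs : 0 ≤ s) :
    v G (d + 1) (s - 1) + v G (d - 1) s - 2 * v G d s ≤ -2 := by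
  unfold v
  have w0 : 0 < 2 / G := by positivity
  have w1 : 2 / G * G = 2 := by field_simp
  rcases h with h | h
  · rw [min_eq_left h, min_eq_left (by linarith : d - 1 ≤ G), min_eq_left (by linarith : d ≤ G)]
    generalize 2 / G = w at *
    nlinarith [mul_nonneg w0.le hd]
  · rw [min_eq_right h, min_eq_right (by linarith : G ≤ d + 1)]
    have a2 := min_le_right (d - 1) G
    generalize min (d - 1) G = m at *
    generalize 2 / G = w at *
    nlinarith [mul_nonneg (mul_nonneg w0.le hs) (sub_nonneg.2 a2), sq_nonneg (G - m)]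

/-- parameters -/
structure Par where
  n : ℕ
  S : ℕ
  g : ℕ
  hn : 1 ≤ n
  hg : 2 ≤ g

namespace Par

variable (p : Par)

noncomputable def Lip : ℝ := 2 * p.g + 2 / (p.g : ℝ) * p.S + 2

noncomputable def E : ℝ := 2 + p.n * 8 ^ p.n * p.Lip

noncomputable def tm (σ : ℕ → ℕ) (i : ℕ) : ℝ :=
  8 ^ (p.n - i) * v p.g ((σ (i + 1) : ℝ) - σ i) (σ i)

noncomputable def Psi (τ : ℕ) (σ : ℕ → ℕ) : ℝ :=
  2 * σ τ + p.E * ((p.n : ℝ) - τ) + ∑ i ∈ range τ, p.tm σ i

def Good (τ : ℕ) (σ : ℕ → ℕ) : Prop :=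
  τ ≤ p.n ∧ (∀ i j, i ≤ j → j ≤ τ → σ i ≤ σ j) ∧ ∀ i ≤ τ, σ i ≤ p.S

lemma G2 : (2 : ℝ) ≤ p.g := by exact_mod_cast p.hg

lemma Lip_pos : 0 < p.Lip := by
  have := p.G2
  unfold Lip; positivity

lemma E_pos : 0 < p.E := by
  have := p.Lip_pos
  unfold E; positivity

lemma Psi_congr {τ : ℕ} {σ σ' : ℕ → ℕ} (h : ∀ i ≤ τ, σ i = σ' i) : p.Psi τ σ = p.Psi τ σ' := by
  unfold Psi
  rw [h τ le_rfl]
  congr 1
  refine sum_congr rfl fun i hi => ?_
  have := mem_range.1 hi
  unfold tm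
  rw [h i (by omega), h (i + 1) (by omega)]

lemma Psi_nonneg {τ : ℕ} {σ : ℕ → ℕ} (h : p.Good τ σ) : 0 ≤ p.Psi τ σ := by
  unfold Psi
  have h1 : (τ : ℝ) ≤ p.n := by exact_mod_cast h.1
  have h2 := mul_nonneg p.E_pos.le (sub_nonneg.2 h1)
  have h3 : 0 ≤ ∑ i ∈ range τ, p.tm σ i := sum_nonneg fun i hi => by
    have := mem_range.1 hi
    have h4 : (σ i : ℝ) ≤ σ (i + 1) := by exact_mod_cast h.2.1 i (i + 1) (by omega) (by omega)
    exact mul_nonneg (by positivity) (v_nonneg p.G2 (by linarith) (by positivity))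
  positivity

lemma lip {τ : ℕ} {σ σ' : ℕ → ℕ} (h : p.Good τ σ) (h' : p.Good τ σ')
    (h1 : ∀ i < τ, (σ' (i + 1) : ℝ) - σ' i ≤ (σ (i + 1) : ℝ) - σ i + 1)
    (h2 : ∀ i ≤ τ, σ' i ≤ σ i + 1) : p.Psi τ σ' ≤ p.Psi τ σ + p.E := by
  have a1 : ∀ i ∈ range τ, p.tm σ' i ≤ p.tm σ i + 8 ^ p.n * p.Lip := by
    intro i hi
    have hi := mem_range.1 hi
    have b1 : (σ i : ℝ) ≤ σ (i + 1) := by exact_mod_cast h.2.1 i (i + 1) (by omega) (by omega)
    have b2 : (σ' i : ℝ) ≤ σ' (i + 1) := by exact_mod_cast h'.2.1 i (i + 1) (by omega) (by omega)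
    have b3 := v_lip (S := p.S) (s := σ i) (s' := σ' i) p.G2 (sub_nonneg.2 b1) (sub_nonneg.2 b2)
      (h1 i hi) (by positivity) (by exact_mod_cast h'.2.2 i hi.le)
      (by exact_mod_cast h2 i hi.le)
    have b4 : (8 : ℝ) ^ (p.n - i) ≤ 8 ^ p.n := pow_le_pow_right₀ (by norm_num) (Nat.sub_le _ _)
    have b5 := mul_le_mul_of_nonneg_left b3 (show (0 : ℝ) ≤ 8 ^ (p.n - i) by positivity)
    have b6 := mul_le_mul_of_nonneg_right b4 p.Lip_pos.le
    unfold tm
    unfold Lip at b6 ⊢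
    nlinarith
  have a2 := sum_le_sum a1
  rw [sum_add_distrib, sum_const, card_range, nsmul_eq_mul] at a2
  have a3 : (τ : ℝ) ≤ p.n := by exact_mod_cast h.1
  have a4 : (τ : ℝ) * (8 ^ p.n * p.Lip) ≤ p.n * (8 ^ p.n * p.Lip) :=
    mul_le_mul_of_nonneg_right a3 (by have := p.Lip_pos; positivity)
  have a5 : (σ' τ : ℝ) ≤ σ τ + 1 := by exact_mod_cast h2 τ le_rfl
  have a6 : p.E = 2 + p.n * (8 ^ p.n * p.Lip) := by unfold E; ring
  unfold Psi
  linarith

end Par

def ad (τ : ℕ) (σ : ℕ → ℕ) (a b : ℕ) : ℕ → ℕ :=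
  fun i => if i ≤ a then (if i ≤ τ then min (σ i) b else b) else σ i

lemma ad_ad (τ : ℕ) (σ : ℕ → ℕ) {a a' : ℕ} (b : ℕ) (h : a ≤ a') :
    ad (max τ a) (ad τ σ a b) a' b = ad τ σ a' b := by
  funext i
  unfold ad
  split_ifs <;> omega

namespace Par

variable (p : Par)

lemma ad_good {τ : ℕ} {σ : ℕ → ℕ} (h : p.Good τ σ) {a b : ℕ} (ha : a ≤ p.n) (hb : b ≤ p.S) :
    p.Good (max τ a) (ad τ σ a b) := by
  refine ⟨max_le h.1 ha, fun i j hij hj => ?_, fun i hi => ?_⟩
  · have h1 := h.2.1 i j hij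
    unfold ad
    split_ifs <;> omega
  · have h1 := h.2.2 i
    unfold ad
    split_ifs <;> omega

lemma U {τ : ℕ} {σ : ℕ → ℕ} (h : p.Good τ σ) {j t : ℕ} (hj : j ≤ τ) (hjn : j + 1 ≤ p.n)
    (ht : t = σ j ∨ (t = σ j + 1 ∧ 1 ≤ σ j)) :
    p.Psi (max τ (j + 1)) (ad τ σ (j + 1) t) ≤ p.Psi τ σ := by
  have lo : ∀ i ≤ j, ad τ σ (j + 1) t i = σ i := by
    intro i hi
    have := h.2.1 i j hi hj
    unfold ad
    split_ifs <;> omega
  have hi' : ∀ i, j + 1 < i → ad τ σ (j + 1) t i = σ i := by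
    intro i hi
    unfold ad
    rw [if_neg (by omega)]
  have G2 := p.G2
  have tb : (σ j : ℝ) ≤ t ∧ (t : ℝ) ≤ σ j + 1 := by
    constructor
    · exact_mod_cast (by omega : σ j ≤ t)
    · exact_mod_cast (by omega : t ≤ σ j + 1)
  rcases Nat.lt_or_ge τ (j + 1) with c | c
  · obtain rfl : j = τ := by omega
    rw [max_eq_right (by omega)]
    have e1 : ad j σ (j + 1) t (j + 1) = t := by simp [ad]
    unfold Psi
    rw [sum_range_succ, e1]
    have e2 : ∑ i ∈ range j, p.tm (ad j σ (j + 1) t) i = ∑ i ∈ range j, p.tm σ i := by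
      refine sum_congr rfl fun i hi => ?_
      have := mem_range.1 hi
      unfold tm
      rw [lo i (by omega), lo (i + 1) (by omega)]
    have e3 : p.tm (ad j σ (j + 1) t) j ≤ 8 ^ p.n * p.Lip := by
      unfold tm
      rw [e1, lo j le_rfl]
      have b3 := v_lip (S := p.S) (s := σ j) (s' := σ j) (d := 0) (d' := (t : ℝ) - σ j) p.G2
        le_rfl (by linarith) (by linarith) (by positivity)
        (by exact_mod_cast h.2.2 j le_rfl) (by linarith)
      rw [v_zero G2, zero_add] at b3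
      exact mul_le_mul (pow_le_pow_right₀ (by norm_num) (Nat.sub_le _ _)) b3
        (v_nonneg G2 (by linarith) (by positivity)) (by positivity)
    have a3 : (1 : ℝ) ≤ p.n := by exact_mod_cast p.hn
    have a4 : 1 * (8 ^ p.n * p.Lip) ≤ p.n * (8 ^ p.n * p.Lip) :=
      mul_le_mul_of_nonneg_right a3 (by have := p.Lip_pos; positivity)
    have a6 : p.E = 2 + p.n * (8 ^ p.n * p.Lip) := by unfold E; ring
    rw [e2]
    push_cast
    nlinarith
  · rw [max_eq_left c]
    by_cases c2 : σ (j + 1) ≤ t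
    · refine le_of_eq (p.Psi_congr fun i hi => ?_)
      have := h.2.1 i (j + 1)
      unfold ad
      split_ifs <;> omega
    · have e1 : ad τ σ (j + 1) t (j + 1) = t := by
        unfold ad
        rw [if_pos le_rfl, if_pos c]
        omega
      have tu : (t : ℝ) + 1 ≤ σ (j + 1) := by exact_mod_cast (by omega : t + 1 ≤ σ (j + 1))
      have z : ∀ i, i ≠ j → i ≠ j + 1 → p.tm (ad τ σ (j + 1) t) i - p.tm σ i = 0 := by
        intro i h1 h2
        unfold tm
        rcases Nat.lt_or_ge i j with h3 | h3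
        · rw [lo i (by omega), lo (i + 1) (by omega), sub_self]
        · rw [hi' i (by omega), hi' (i + 1) (by omega), sub_self]
      have d0 : p.tm (ad τ σ (j + 1) t) j - p.tm σ j = 8 ^ (p.n - j) *
          (v p.g ((t : ℝ) - σ j) (σ j) - v p.g ((σ (j + 1) : ℝ) - σ j) (σ j)) := by
        unfold tm
        rw [e1, lo j le_rfl]
        ring
      have key : ∑ i ∈ range τ, (p.tm (ad τ σ (j + 1) t) i - p.tm σ i) ≤ 0 := by
        rcases Nat.lt_or_ge (j + 1) τ with c3 | c3
        · rw [sum_eq_add_of_mem j (j + 1) (mem_range.2 (by omega)) (mem_range.2 c3) (by omega)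
            fun i _ hi => z i hi.1 hi.2, d0]
          have uu : (σ (j + 1) : ℝ) ≤ σ (j + 1 + 1) := by
            exact_mod_cast h.2.1 _ _ (Nat.le_succ _) (by omega)
          have s1 := v_sub (x := (σ (j + 1 + 1) : ℝ) - σ (j + 1)) (y := (σ (j + 1) : ℝ) - t)
            (t := t) (u := σ (j + 1)) G2 (by linarith) (by linarith) (by positivity) (by linarith)
          rw [show (σ (j + 1 + 1) : ℝ) - σ (j + 1) + ((σ (j + 1) : ℝ) - t) =
            (σ (j + 1 + 1) : ℝ) - t by ring] at s1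
          have s2 : v p.g ((σ (j + 1) : ℝ) - t) t ≤ 8 * (v p.g ((σ (j + 1) : ℝ) - σ j) (σ j) -
              v p.g ((t : ℝ) - σ j) (σ j)) := by
            rcases ht with ht | ht
            · rw [ht, sub_self, v_zero G2]
              have := v_nonneg (d := (σ (j + 1) : ℝ) - σ j) (s := σ j) G2 (by linarith)
                (by positivity)
              linarith
            · have e : (t : ℝ) = σ j + 1 := by exact_mod_cast ht.1
              have := v_five (d := (σ (j + 1) : ℝ) - σ j) (b := σ j) G2 (by linarith)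
                (by exact_mod_cast ht.2)
              rw [e, show (σ (j + 1) : ℝ) - (σ j + 1) = (σ (j + 1) : ℝ) - σ j - 1 by ring,
                show (σ j : ℝ) + 1 - σ j = 1 by ring]
              exact this
          have e8 : (8 : ℝ) ^ (p.n - j) = 8 ^ (p.n - (j + 1)) * 8 := by
            rw [← pow_succ]; congr 1; omega
          unfold tm
          rw [e1, hi' (j + 1 + 1) (by omega), e8]
          have w : (0 : ℝ) < 8 ^ (p.n - (j + 1)) := by positivity
          generalize (8 : ℝ) ^ (p.n - (j + 1)) = M at *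
          nlinarith
        · rw [sum_eq_single j (fun i hi hij => z i hij (by have := mem_range.1 hi; omega))
            (fun hj' => absurd (mem_range.2 (by omega)) hj'), d0]
          refine mul_nonpos_of_nonneg_of_nonpos (by positivity) (sub_nonpos.2 ?_)
          exact v_mono G2 (by linarith) (by positivity)
      rw [sum_sub_distrib] at key
      have top : (ad τ σ (j + 1) t τ : ℝ) ≤ σ τ := by
        have : ad τ σ (j + 1) t τ ≤ σ τ := by
          unfold ad
          split_ifs <;> omega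
        exact_mod_cast this
      unfold Psi
      linarith

lemma ad_low {τ : ℕ} {σ : ℕ → ℕ} (h : p.Good τ σ) {j a b : ℕ} (hj : j ≤ τ) (ha : a ≤ j)
    (hb : σ j ≤ b) : p.Psi (max τ a) (ad τ σ a b) = p.Psi τ σ := by
  rw [max_eq_left (by omega)]
  refine p.Psi_congr fun i hi => ?_
  have := h.2.1 i j
  unfold ad
  split_ifs <;> omega

lemma S_iter {τ : ℕ} {σ : ℕ → ℕ} (h : p.Good τ σ) {j : ℕ} (hj : j ≤ τ) (a : ℕ) (ha : a ≤ p.n) :
    p.Psi (max τ a) (ad τ σ a (σ j)) ≤ p.Psi τ σ := by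
  induction a with
  | zero => exact (p.ad_low h hj (Nat.zero_le _) le_rfl).le
  | succ a ih =>
    rcases Nat.lt_or_ge a j with c | c
    · exact (p.ad_low h hj c le_rfl).le
    · have g := p.ad_good h (a := a) (b := σ j) (by omega) (h.2.2 j hj)
      have e : ad τ σ a (σ j) a = σ j := by
        have := h.2.1 j a c
        unfold ad
        split_ifs <;> omega
      have u := p.U g (j := a) (t := σ j) (le_max_right _ _) ha (Or.inl e.symm)
      rw [ad_ad τ σ _ (Nat.le_succ a), max_assoc, max_eq_right (Nat.le_succ a)] at u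
      exact u.trans (ih (by omega))

lemma I_step {τ : ℕ} {σ : ℕ → ℕ} (h : p.Good τ σ) {j : ℕ} (hj : j ≤ τ) (h1 : 1 ≤ σ j) (a : ℕ)
    (ha : a ≤ p.n) (ha' : a ≤ j + 1) :
    p.Psi (max τ a) (ad τ σ a (σ j + 1)) ≤ p.Psi τ σ := by
  rcases Nat.lt_or_ge j a with c | c
  · obtain rfl : a = j + 1 := by omega
    exact p.U h hj ha (Or.inr ⟨rfl, h1⟩)
  · exact (p.ad_low h hj c (Nat.le_succ _)).le

/-- lowering of the levels of size `z` -/
def dn (σ : ℕ → ℕ) (z : ℕ) : ℕ → ℕ := fun i => if σ i = z then z - 1 else σ i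

lemma D_step {τ : ℕ} {σ : ℕ → ℕ} (h : p.Good τ σ) {j : ℕ} (hj : j ≤ τ) (h1 : 1 ≤ σ j)
    (hs : ∀ i, j < i → i ≤ τ → σ j < σ i) (a : ℕ) (ha : a ≤ p.n) :
    p.Psi (max τ a) (ad τ σ a (σ j - 1)) ≤
      p.Psi τ (dn σ (σ j)) + if a < j then 2 * p.E else 0 := by
  have hS := h.2.2 j hj
  have g := p.ad_good h (a := j) (b := σ j - 1) (hj.trans h.1) (by omega)
  rw [max_eq_left hj] at g
  have e0 : p.Psi τ (dn σ (σ j)) = p.Psi τ (ad τ σ j (σ j - 1)) := by
    refine p.Psi_congr fun i hi => ?_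
    have := h.2.1 i j
    have := hs i
    unfold ad dn
    split_ifs <;> omega
  have bd : ∀ c ≤ j, ∀ i ≤ τ, ad τ σ c (σ j - 1) i ≤ σ i ∧ σ i ≤ ad τ σ c (σ j - 1) i + 1 := by
    intro c hc i hi
    have := h.2.1 i j
    unfold ad
    split_ifs <;> omega
  have bd' : ∀ c ≤ j, ∀ i ≤ τ, (ad τ σ c (σ j - 1) i : ℝ) ≤ σ i ∧
      (σ i : ℝ) ≤ ad τ σ c (σ j - 1) i + 1 := fun c hc i hi =>
    ⟨by exact_mod_cast (bd c hc i hi).1, by exact_mod_cast (bd c hc i hi).2⟩
  rw [e0]
  split_ifs with c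
  · have g2 := p.ad_good h (a := a) (b := σ j - 1) ha (by omega)
    rw [max_eq_left (by omega)] at g2 ⊢
    have l1 := p.lip h g2 (fun i hi => by
      linarith [(bd' a c.le (i + 1) hi).1, (bd' a c.le i hi.le).2])
      (fun i hi => by have := (bd a c.le i hi).1; omega)
    have l2 := p.lip g h (fun i hi => by
      linarith [(bd' j le_rfl (i + 1) hi).2, (bd' j le_rfl i hi.le).1])
      (fun i hi => (bd j le_rfl i hi).2)
    linarith
  · have e : ad τ σ j (σ j - 1) j = σ j - 1 := by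
      unfold ad
      split_ifs <;> omega
    have s := p.S_iter g hj a ha
    have e2 := ad_ad τ σ (σ j - 1) (not_lt.1 c)
    rw [max_eq_left hj] at e2
    rw [e, e2] at s
    linarith

lemma good_sum {τ : ℕ} {σ : ℕ → ℕ} (h : p.Good τ σ) (h1 : 1 ≤ σ 0) (Z : Finset ℕ)
    (hZ : ∀ i ≤ τ, σ i ∈ Z) :
    ∑ z ∈ Z, (p.Psi τ (dn σ z) - p.Psi τ σ) ≤
      -2 * (1 + (((range τ).filter fun i => σ i < σ (i + 1)).card : ℝ)) := by
  have G2 := p.G2
  have pos : ∀ i ≤ τ, 1 ≤ σ i := fun i hi => h1.trans (h.2.1 0 i (Nat.zero_le _) hi)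
  have c1 : ∀ i ≤ τ, ((σ i - 1 : ℕ) : ℝ) = (σ i : ℝ) - 1 := fun i hi => by
    rw [Nat.cast_sub (pos i hi)]; simp
  have top : ∑ z ∈ Z, ((dn σ z τ : ℝ) - σ τ) = -1 := by
    rw [sum_eq_single (σ τ)]
    · simp only [dn, if_true]; rw [c1 τ le_rfl]; ring
    · intro z _ hz
      simp only [dn, if_neg (Ne.symm hz), sub_self]
    · intro hz; exact absurd (hZ τ le_rfl) hz
  have lev : ∀ i ∈ range τ, ∑ z ∈ Z, (p.tm (dn σ z) i - p.tm σ i) ≤
      if σ i < σ (i + 1) then -2 else 0 := by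
    intro i hi
    have hi := mem_range.1 hi
    split_ifs with c
    · rw [sum_eq_add_of_mem (σ i) (σ (i + 1)) (hZ i hi.le) (hZ (i + 1) hi) c.ne]
      · have c' : (σ i : ℝ) + 1 ≤ σ (i + 1) := by exact_mod_cast c
        have s := v_six (d := (σ (i + 1) : ℝ) - σ i) (s := σ i) G2 (by linarith) (by
          rcases Nat.lt_or_ge (σ (i + 1)) (σ i + p.g) with k | k
          · left
            have : (σ (i + 1) : ℝ) + 1 ≤ σ i + p.g := by exact_mod_cast k
            linarith
          · right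
            have : (σ i : ℝ) + p.g ≤ σ (i + 1) := by exact_mod_cast k
            linarith) (by positivity)
        simp only [tm, dn, if_true, if_neg c.ne, if_neg c.ne']
        rw [c1 i hi.le, c1 (i + 1) hi,
          show (σ (i + 1) : ℝ) - ((σ i : ℝ) - 1) = (σ (i + 1) : ℝ) - σ i + 1 by ring,
          show (σ (i + 1) : ℝ) - 1 - σ i = (σ (i + 1) : ℝ) - σ i - 1 by ring]
        have w : (1 : ℝ) ≤ 8 ^ (p.n - i) := one_le_pow₀ (by norm_num)
        generalize (8 : ℝ) ^ (p.n - i) = M at *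
        nlinarith
      · intro z _ hz
        simp only [tm, dn, if_neg (Ne.symm hz.1), if_neg (Ne.symm hz.2), sub_self]
    · have e : σ (i + 1) = σ i := le_antisymm (not_lt.1 c) (h.2.1 _ _ (Nat.le_succ _) hi)
      refine le_of_eq (sum_eq_zero fun z _ => ?_)
      simp only [tm, dn, e, sub_self, v_zero G2]
  have e : ∑ z ∈ Z, (p.Psi τ (dn σ z) - p.Psi τ σ) = 2 * ∑ z ∈ Z, ((dn σ z τ : ℝ) - σ τ) +
      ∑ i ∈ range τ, ∑ z ∈ Z, (p.tm (dn σ z) i - p.tm σ i) := by
    rw [sum_comm, mul_sum, ← sum_add_distrib]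
    refine sum_congr rfl fun z _ => ?_
    rw [sum_sub_distrib]
    unfold Psi
    ring
  have l2 := sum_le_sum lev
  rw [← sum_filter, sum_const, nsmul_eq_mul] at l2
  rw [e, top]
  linarith

end Par

end Pool.Agent.H44.GP
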