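import Mathlib
import Pool.Agent.H44.GP1
import Pool.Agent.H44.GP2

open Finset

namespace Pool.Agent.H44.GP

section pop
variable {n : ℕ}

def tau (P : Finset (Ind n)) : ℕ := P.sup fit

noncomputable def sig (P : Finset (Ind n)) (i : ℕ) : ℕ :=
  sInf {s | ∃ X ∈ P, i ≤ fit X ∧ size X = s}

def Inv (T : ℕ) (P : Finset (Ind n)) : Prop :=
  P.Nonempty ∧ (∀ X ∈ P, ∀ Y ∈ P, WDom X Y → X = Y) ∧ ∀ X ∈ P, size X ≤ T + tau P

lemma fit_le_tau {P : Finset (Ind n)} {X : Ind n} (h : X ∈ P) : fit X ≤ tau P := le_sup h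

lemma tau_mem {P : Finset (Ind n)} (h : P.Nonempty) : ∃ X ∈ P, fit X = tau P := by
  obtain ⟨X, hX, e⟩ := exists_mem_eq_sup P h fit
  exact ⟨X, hX, e.symm⟩

lemma sig_le {P : Finset (Ind n)} {X : Ind n} (h : X ∈ P) {i : ℕ} (hi : i ≤ fit X) :
    sig P i ≤ size X := Nat.sInf_le ⟨X, h, hi, rfl⟩

lemma sig_mem {P : Finset (Ind n)} (h : P.Nonempty) {i : ℕ} (hi : i ≤ tau P) :
    ∃ X ∈ P, i ≤ fit X ∧ size X = sig P i := by
  obtain ⟨X, hX, e⟩ := tau_mem h
  exact Nat.sInf_mem (s := {s | ∃ X ∈ P, i ≤ fit X ∧ size X = s})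
    ⟨size X, X, hX, by omega, rfl⟩

lemma upd_sub {P : Finset (Ind n)} {Y Z : Ind n} (h : Z ∈ upd P Y) : Z = Y ∨ Z ∈ P := by
  unfold upd at h
  split_ifs at h
  · exact Or.inr h
  · simp only [mem_insert, mem_filter] at h
    exact h.imp id And.left

lemma upd_Y (P : Finset (Ind n)) (Y : Ind n) : ∃ Z ∈ upd P Y, WDom Z Y := by
  unfold upd
  split_ifs with h
  · obtain ⟨X, hX, h⟩ := h
    exact ⟨X, hX, h.1⟩
  · exact ⟨Y, by simp, le_rfl, le_rfl⟩

lemma upd_P {P : Finset (Ind n)} (Y : Ind n) {X : Ind n} (hX : X ∈ P) :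
    ∃ Z ∈ upd P Y, WDom Z X := by
  unfold upd
  split_ifs with h
  · exact ⟨X, hX, le_rfl, le_rfl⟩
  · by_cases c : WDom Y X
    · exact ⟨Y, by simp, c⟩
    · exact ⟨X, by simp [hX, c], le_rfl, le_rfl⟩

lemma tau_upd {P : Finset (Ind n)} (h : P.Nonempty) (Y : Ind n) :
    tau (upd P Y) = max (tau P) (fit Y) := by
  refine le_antisymm (Finset.sup_le fun Z hZ => ?_) (max_le ?_ ?_)
  · rcases upd_sub hZ with rfl | hZ
    · exact le_max_right _ _
    · exact (fit_le_tau hZ).trans (le_max_left _ _)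
  · obtain ⟨X, hX, e⟩ := tau_mem h
    obtain ⟨Z, hZ, d⟩ := upd_P Y hX
    exact e ▸ d.1.trans (fit_le_tau hZ)
  · obtain ⟨Z, hZ, d⟩ := upd_Y P Y
    exact d.1.trans (fit_le_tau hZ)

lemma sig_upd {P : Finset (Ind n)} (h : P.Nonempty) (Y : Ind n) {i : ℕ}
    (hi : i ≤ max (tau P) (fit Y)) :
    sig (upd P Y) i = ad (tau P) (sig P) (fit Y) (size Y) i := by
  obtain ⟨Z, hZ, d⟩ := upd_Y P Y
  have a1 : i ≤ fit Y → sig (upd P Y) i ≤ size Y := fun c =>
    (sig_le hZ (c.trans d.1)).trans d.2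
  have a2 : i ≤ tau P → sig (upd P Y) i ≤ sig P i := fun c => by
    obtain ⟨X, hX, h1, h2⟩ := sig_mem h c
    obtain ⟨W, hW, d⟩ := upd_P Y hX
    exact h2 ▸ (sig_le hW (h1.trans d.1)).trans d.2
  obtain ⟨W, hW, h1, h2⟩ := sig_mem (P := upd P Y) ⟨Z, hZ⟩ (i := i) (by rwa [tau_upd h])
  have a3 : (i ≤ fit Y ∧ size Y ≤ sig (upd P Y) i) ∨ (i ≤ tau P ∧ sig P i ≤ sig (upd P Y) i) := by
    rcases upd_sub hW with rfl | hW'
    · exact Or.inl ⟨h1, h2.le⟩
    · exact Or.inr ⟨h1.trans (fit_le_tau hW'), h2 ▸ sig_le hW' h1⟩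
  unfold ad
  split_ifs <;> omega

lemma inv_upd {T : ℕ} {P : Finset (Ind n)} (h : Inv T P) {X Y : Ind n} (hX : X ∈ P)
    (hY : size Y ≤ size X + 1) : Inv T (upd P Y) := by
  obtain ⟨Z, hZ, -⟩ := upd_Y P Y
  refine ⟨⟨Z, hZ⟩, ?_, ?_⟩
  · unfold upd
    split_ifs with c
    · exact h.2.1
    · intro A hA B hB d
      simp only [mem_insert, mem_filter] at hA hB
      rcases hA with rfl | hA <;> rcases hB with rfl | hB
      · rfl
      · exact absurd d hB.2
      · exfalso
        refine c ⟨A, hA.1, d, ?_⟩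
        have h2 := hA.2
        unfold WDom at h2 d
        omega
      · exact h.2.1 A hA.1 B hB.1 d
  · rw [tau_upd h.1]
    intro W hW
    by_cases c : ∃ X ∈ P, SDom X Y
    · unfold upd at hW
      rw [if_pos c] at hW
      have := h.2.2 W hW
      omega
    · rcases upd_sub hW with rfl | hW'
      · obtain ⟨V, hV, e⟩ := tau_mem h.1
        have h1 := h.2.2 V hV
        have h2 := h.2.2 X hX
        have h3 : ¬ SDom V W := fun d => c ⟨V, hV, d⟩
        unfold SDom WDom at h3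
        omega
      · have := h.2.2 W hW'
        omega

lemma tau_le (P : Finset (Ind n)) : tau P ≤ n := Finset.sup_le fun X _ => fit_le X

lemma sig_fit {T : ℕ} {P : Finset (Ind n)} (h : Inv T P) {X : Ind n} (hX : X ∈ P) :
    sig P (fit X) = size X ∧ ∀ i, fit X < i → i ≤ tau P → size X < sig P i := by
  constructor
  · obtain ⟨Z, hZ, h1, h2⟩ := sig_mem h.1 (fit_le_tau hX)
    have h3 := sig_le hX (le_refl (fit X))
    rw [← h2, h.2.1 Z hZ X hX ⟨h1, by omega⟩]
  · intro i h1 h2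
    obtain ⟨Z, hZ, h3, h4⟩ := sig_mem h.1 h2
    by_contra c
    have := h.2.1 Z hZ X hX ⟨by omega, by omega⟩
    subst this
    omega

lemma fit_inj {T : ℕ} {P : Finset (Ind n)} (h : Inv T P) : Set.InjOn fit (P : Set (Ind n)) := by
  intro X hX Y hY e
  rcases le_total (size X) (size Y) with c | c
  · exact h.2.1 X hX Y hY ⟨e.ge, c⟩
  · exact (h.2.1 Y hY X hX ⟨e.le, c⟩).symm

lemma size_inj {T : ℕ} {P : Finset (Ind n)} (h : Inv T P) : Set.InjOn size (P : Set (Ind n)) := by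
  intro X hX Y hY e
  rcases le_total (fit X) (fit Y) with c | c
  · exact (h.2.1 Y hY X hX ⟨c, e.ge⟩).symm
  · exact h.2.1 X hX Y hY ⟨c, e.le⟩

lemma card_le1 {T : ℕ} {P : Finset (Ind n)} (h : Inv T P) :
    P.card ≤ 1 + ((range (tau P)).filter fun i => sig P i < sig P (i + 1)).card := by
  refine le_trans (card_le_card_of_injOn (t := insert (tau P)
    ((range (tau P)).filter fun i => sig P i < sig P (i + 1))) fit (fun X hX => ?_) (fit_inj h))
    ((card_insert_le _ _).trans (by omega))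
  have hX : X ∈ P := hX
  have h1 := fit_le_tau hX
  obtain ⟨h2, h3⟩ := sig_fit h hX
  simp only [coe_insert, coe_filter, mem_range, Set.mem_insert_iff, Set.mem_ofPred_eq]
  rcases Nat.lt_or_ge (fit X) (tau P) with c | c
  · exact Or.inr ⟨c, h2 ▸ h3 _ (Nat.lt_succ_self _) c⟩
  · exact Or.inl (by omega)

lemma card_le2 {T : ℕ} {P : Finset (Ind n)} (h : Inv T P) : P.card ≤ n + 1 := by
  have h1 := card_le1 h
  have h2 := card_filter_le (range (tau P)) fun i => sig P i < sig P (i + 1)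
  rw [card_range] at h2
  have := tau_le P
  omega

lemma some_of_size {X : Ind n} (h : 1 ≤ size X) : ∃ t, X = some t := by
  cases X with
  | none => simp [size, lv] at h
  | some t => exact ⟨t, rfl⟩

lemma del_ne (t : Tr (Lit n)) : t.del ≠ [] := by
  intro e
  have h1 := del_length t
  have h2 : 1 ≤ size (some t) := leaves_pos t
  rw [e] at h1
  simp at h1
  omega

lemma hvl_le (hn : 1 ≤ n) (X : Ind n) {g : Ind n → ℝ} {c : ℝ} (h : ∀ Y, g Y ≤ c) :
    hvl X g ≤ c := by
  have hn0 : (0 : ℝ) < n := by exact_mod_cast hn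
  cases X with
  | none =>
    have := sum_lit_le (F := fun l => g (some (Tr.leaf l))) (c := c) (e := 0) (⟨0, hn⟩, true)
      (fun l => h _) (by simpa using h _)
    unfold hvl
    dsimp only
    rw [div_le_iff₀' (by positivity)]
    linarith
  | some t =>
    have h1 := ins_sum_le t (g := g) (c := c) (e := 0) (⟨0, hn⟩, true) (fun _ _ _ _ => h _)
      (fun _ _ _ => by simpa using h _)
    have := hvl_some_le hn t (a := c) (b := c) (c := c) (by linarith)
      (avg_le (del_ne t) fun Y _ => h Y) (fun _ _ _ => h _)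
    linarith

def cov (P : Finset (Ind n)) (i : ℕ) : Prop := ∃ Z ∈ P, i ≤ fit Z ∧ size Z ≤ i

open Classical in
noncomputable def unc (P : Finset (Ind n)) : Finset ℕ := (range (n + 1)).filter fun i => ¬ cov P i

noncomputable def PhiB (P : Finset (Ind n)) : ℝ :=
  3 * (n + 1) * (sig P 0 : ℝ) + 6 * n * (n + 1) * ((unc P).card : ℝ)

lemma cov_upd {P : Finset (Ind n)} (Y : Ind n) {i : ℕ} (h : cov P i) : cov (upd P Y) i := by
  obtain ⟨Z, hZ, h1, h2⟩ := h
  obtain ⟨W, hW, d⟩ := upd_P Y hZ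
  exact ⟨W, hW, h1.trans d.1, d.2.trans h2⟩

lemma unc_sub (P : Finset (Ind n)) (Y : Ind n) : unc (upd P Y) ⊆ unc P := by
  intro i hi
  simp only [unc, mem_filter] at hi ⊢
  exact ⟨hi.1, fun c => hi.2 (cov_upd Y c)⟩

lemma sig0 {P : Finset (Ind n)} (h : P.Nonempty) (Y : Ind n) :
    sig (upd P Y) 0 = min (sig P 0) (size Y) := by
  rw [sig_upd h Y (Nat.zero_le _)]
  simp [ad]

lemma PhiB_a {P : Finset (Ind n)} (h : P.Nonempty) (Y : Ind n) {k : ℕ}
    (hk : min (sig P 0) (size Y) + k ≤ sig P 0) :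
    PhiB (upd P Y) ≤ PhiB P - 3 * (n + 1) * k := by
  have h1 : (sig (upd P Y) 0 : ℝ) + k ≤ sig P 0 := by rw [sig0 h]; exact_mod_cast hk
  have h2 : ((unc (upd P Y)).card : ℝ) ≤ (unc P).card := by
    exact_mod_cast card_le_card (unc_sub P Y)
  have h3 := mul_le_mul_of_nonneg_left h1 (show (0 : ℝ) ≤ 3 * (n + 1) by positivity)
  have h4 := mul_le_mul_of_nonneg_left h2 (show (0 : ℝ) ≤ 6 * n * (n + 1) by positivity)
  unfold PhiB
  linarith

lemma PhiB_mono {P : Finset (Ind n)} (h : P.Nonempty) (Y : Ind n) : PhiB (upd P Y) ≤ PhiB P := by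
  simpa using PhiB_a h Y (k := 0) (by omega)

lemma PhiB_b {P : Finset (Ind n)} (h : P.Nonempty) (Y : Ind n) {j : ℕ} (hj : j ∈ unc P)
    (h1 : j ≤ fit Y) (h2 : size Y ≤ j) : PhiB (upd P Y) ≤ PhiB P - 6 * n * (n + 1) := by
  have a1 : (sig (upd P Y) 0 : ℝ) ≤ sig P 0 := by
    rw [sig0 h]; exact_mod_cast min_le_left _ _
  have a2 : (unc (upd P Y)).card < (unc P).card := by
    refine card_lt_card ⟨unc_sub P Y, fun c => ?_⟩
    have := c hj
    simp only [unc, mem_filter] at this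
    obtain ⟨Z, hZ, d⟩ := upd_Y P Y
    exact this.2 ⟨Z, hZ, h1.trans d.1, d.2.trans h2⟩
  have a3 : ((unc (upd P Y)).card : ℝ) + 1 ≤ (unc P).card := by exact_mod_cast a2
  have h3 := mul_le_mul_of_nonneg_left a1 (show (0 : ℝ) ≤ 3 * (n + 1) by positivity)
  have h4 := mul_le_mul_of_nonneg_left a3 (show (0 : ℝ) ≤ 6 * n * (n + 1) by positivity)
  unfold PhiB
  linarith

lemma done_of (P : Finset (Ind n)) (h : ∀ i ≤ n, cov P i) : Done P := by
  intro X hX
  obtain ⟨Z, hZ, h1, h2⟩ := h (fit X) (fit_le X)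
  have h3 := fit_le_size Z
  have h4 := fit_le_size X
  have h5 := hX Z
  unfold SDom WDom at h5
  exact ⟨Z, hZ, by omega, by omega⟩

lemma special (hn : 1 ≤ n) {P : Finset (Ind n)} (h : P.Nonempty) (hd : ¬ Done P) :
    ∃ X ∈ P, hvl X (fun Y => PhiB (upd P Y)) ≤ PhiB P - (n + 1) := by
  classical
  have hn0 : (0 : ℝ) < n := by exact_mod_cast hn
  obtain ⟨X, hX, -, h0⟩ := sig_mem h (Nat.zero_le (tau P))
  rcases Nat.eq_zero_or_pos (sig P 0) with c | c
  · have ex : ∃ i, i ≤ n ∧ ¬ cov P i := by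
      by_contra hc
      exact hd (done_of P fun i hi => by_contra fun k => hc ⟨i, hi, k⟩)
    have hj := Nat.find_spec ex
    have hj0 : Nat.find ex ≠ 0 := fun e => hj.2 (e ▸ ⟨X, hX, Nat.zero_le _, by omega⟩)
    obtain ⟨j, e⟩ := Nat.exists_eq_succ_of_ne_zero hj0
    have hj1 : cov P j := by
      by_contra k
      exact Nat.find_min ex (m := j) (by omega) ⟨by omega, k⟩
    rw [e] at hj
    have hu : j + 1 ∈ unc P := by
      simp only [unc, mem_filter, mem_range]
      exact ⟨by omega, hj.2⟩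
    obtain ⟨Z, hZ, h1, h2⟩ := hj1
    have h3 := fit_le_size Z
    obtain ⟨a, ha⟩ := exists_good (lv Z) (show fit Z = size Z by omega) (show fit Z < n by omega)
    refine ⟨Z, hZ, ?_⟩
    cases Z with
    | none =>
      have f1 : fit (none : Ind n) + 1 ≤ fit (some (Tr.leaf a)) := ha [] [] rfl
      have := sum_lit_le (F := fun l => PhiB (upd P (some (Tr.leaf l)))) (c := PhiB P)
        (e := 6 * n * (n + 1)) a (fun l => PhiB_mono h _)
        (PhiB_b h _ hu (by omega) (by simp [size, lv, Tr.leaves]))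
      unfold hvl
      dsimp only
      rw [div_le_iff₀' (by positivity)]
      nlinarith
    | some t =>
      have i1 := ins_sum_le t (g := fun Y => PhiB (upd P Y)) (c := PhiB P)
        (e := 6 * n * (n + 1)) a (fun _ _ _ _ => PhiB_mono h _) (fun side Y hY => by
          obtain ⟨u, w, k1, k2⟩ := ins_spec a side t Y hY
          have f1 : fit (some t) + 1 ≤ fit (some Y) := by
            have := ha u w k1
            rw [← k2] at this
            exact this
          have f2 := ins_size t a side Y hY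
          exact PhiB_b h _ hu (by omega) (by omega))
      have := hvl_some_le hn t (g := fun Y => PhiB (upd P Y)) (a := PhiB P - 3 * (n + 1))
        (b := PhiB P) (c := PhiB P) (by linarith)
        (avg_le (del_ne t) fun Y _ => PhiB_mono h Y) (fun _ _ _ => PhiB_mono h _)
      linarith
  · obtain ⟨t, rfl⟩ := some_of_size (X := X) (by omega)
    refine ⟨_, hX, ?_⟩
    have i1 := ins_sum_le t (g := fun Y => PhiB (upd P Y)) (c := PhiB P) (e := 0) (⟨0, hn⟩, true)
      (fun _ _ _ _ => PhiB_mono h _) (fun _ _ _ => by simpa using PhiB_mono h _)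
    have := hvl_some_le hn t (g := fun Y => PhiB (upd P Y)) (a := PhiB P)
      (b := PhiB P - 3 * (n + 1) * (1 : ℕ)) (c := PhiB P) (by linarith)
      (avg_le (del_ne t) fun Y hY => PhiB_a h Y (by have := del_size t Y hY; omega))
      (fun _ _ _ => PhiB_mono h _)
    push_cast at this
    linarith

lemma driftB (hn : 1 ≤ n) {T : ℕ} {P : Finset (Ind n)} (h : Inv T P) (hd : ¬ Done P) :
    ∑ X ∈ P, hvl X (fun Y => PhiB (upd P Y)) ≤ P.card * (PhiB P - 1) := by
  classical
  obtain ⟨X, hX, h1⟩ := special hn h.1 hd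
  have h2 : ∑ Z ∈ P.erase X, hvl Z (fun Y => PhiB (upd P Y)) ≤ ∑ _Z ∈ P.erase X, PhiB P :=
    sum_le_sum fun Z _ => hvl_le hn Z fun Y => PhiB_mono h.1 Y
  rw [sum_const, nsmul_eq_mul] at h2
  have h3 : ((P.erase X).card : ℝ) + 1 = P.card := by exact_mod_cast card_erase_add_one hX
  have h4 : (P.card : ℝ) ≤ n + 1 := by exact_mod_cast card_le2 h
  rw [← add_sum_erase P _ hX, ← h3]
  nlinarith

end pop

namespace Par

variable (p : Par)

noncomputable def PsiP (P : Finset (Ind p.n)) : ℝ := p.Psi (tau P) (sig P)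

lemma good_of {T : ℕ} (hS : T + p.n ≤ p.S) {P : Finset (Ind p.n)} (h : Inv T P) :
    p.Good (tau P) (sig P) := by
  refine ⟨tau_le P, fun i j hij hj => ?_, fun i hi => ?_⟩
  · obtain ⟨X, hX, h1, h2⟩ := sig_mem h.1 hj
    exact h2 ▸ sig_le hX (hij.trans h1)
  · obtain ⟨X, hX, -, h2⟩ := sig_mem h.1 hi
    have := h.2.2 X hX
    have := tau_le P
    omega

lemma PsiP_upd {P : Finset (Ind p.n)} (h : P.Nonempty) (Y : Ind p.n) :
    p.PsiP (upd P Y) = p.Psi (max (tau P) (fit Y)) (ad (tau P) (sig P) (fit Y) (size Y)) := by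
  unfold PsiP
  rw [tau_upd h]
  exact p.Psi_congr fun i hi => sig_upd h Y hi

lemma driftA {T : ℕ} (hS : T + p.n ≤ p.S) {P : Finset (Ind p.n)} (h : Inv T P)
    (h0 : 2 * p.E * p.n ≤ sig P 0) :
    ∑ X ∈ P, hvl X (fun Y => p.PsiP (upd P Y)) ≤ P.card * (p.PsiP P - 1 / 3) := by
  classical
  have g := p.good_of hS h
  have hn0 : (0 : ℝ) < p.n := by exact_mod_cast p.hn
  have hE := p.E_pos
  have s1 : 1 ≤ sig P 0 := by
    have : (0 : ℝ) < sig P 0 := lt_of_lt_of_le (by positivity) h0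
    exact_mod_cast this
  have each : ∀ X ∈ P, hvl X (fun Y => p.PsiP (upd P Y)) ≤
      p.PsiP P + 1 / 3 + (p.Psi (tau P) (dn (sig P) (size X)) - p.PsiP P) / 3 := by
    intro X hX
    have a0 := sig_le hX (Nat.zero_le (fit X))
    obtain ⟨a1, a2⟩ := sig_fit h hX
    have a3 := fit_le_tau hX
    obtain ⟨t, rfl⟩ := some_of_size (X := X) (by omega)
    have i0 : ∀ l side, ∀ Y ∈ t.ins l side, p.PsiP (upd P (some Y)) ≤ p.PsiP P := by
      intro l side Y hY
      rw [p.PsiP_upd h.1, ins_size t l side Y hY, ← a1]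
      exact p.I_step g a3 (by omega) _ (fit_le _) (ins_fit t l side Y hY)
    have i1 := ins_sum_le t (g := fun Y => p.PsiP (upd P Y)) (c := p.PsiP P) (e := 0)
      (⟨0, p.hn⟩, true) i0 (fun side Y hY => by simpa using i0 _ side Y hY)
    have d1 := avg_bad (del_ne t) (fun Y => decide (fit Y < fit (some t)))
      (g := fun Y => p.PsiP (upd P Y)) (c := p.Psi (tau P) (dn (sig P) (size (some t))))
      (e := 2 * p.E) (fun Y hY => by
        have k := del_size t Y hY
        have k2 : size Y = sig P (fit (some t)) - 1 := by omega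
        have := p.D_step g a3 (by omega) (fun i h1 h2 => a1 ▸ a2 i h1 h2) (fit Y) (fit_le _)
        rw [p.PsiP_upd h.1, k2]
        rw [a1] at this ⊢
        simpa only [decide_eq_true_eq] using this)
    have d2 : 2 * p.E * (t.del.countP (fun Y => decide (fit Y < fit (some t))) : ℝ) /
        t.del.length ≤ 1 := by
      rw [del_length]
      have b1 : (t.del.countP (fun Y => decide (fit Y < fit (some t))) : ℝ) ≤ p.n := by
        exact_mod_cast del_bad t
      have b2 : (sig P 0 : ℝ) ≤ size (some t) := by exact_mod_cast a0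
      have b3 : (0 : ℝ) < size (some t) := by exact_mod_cast (by omega : 0 < size (some t))
      rw [div_le_one b3]
      nlinarith
    have := hvl_some_le p.hn t (g := fun Y => p.PsiP (upd P Y)) (a := p.PsiP P)
      (b := p.Psi (tau P) (dn (sig P) (size (some t))) + 1) (c := p.PsiP P) (by linarith)
      (by linarith) (fun l Y hY => by
        rw [p.PsiP_upd h.1, sub_size t l Y hY, ← a1]
        exact p.S_iter g a3 _ (fit_le _))
    linarith
  have s2 := sum_le_sum each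
  have s3 := p.good_sum g s1 (P.image size) (fun i hi => by
    obtain ⟨X, hX, -, h2⟩ := sig_mem h.1 hi
    exact mem_image.2 ⟨X, hX, h2⟩)
  rw [sum_image (size_inj h)] at s3
  rw [sum_add_distrib, sum_const, nsmul_eq_mul, ← sum_div] at s2
  have s4 : (P.card : ℝ) ≤
      1 + (((range (tau P)).filter fun i => sig P i < sig P (i + 1)).card : ℝ) := by
    exact_mod_cast card_le1 h
  unfold PsiP at s2 ⊢
  linarith

noncomputable def K (s0 : ℕ) : ℝ := 3 * (p.n + 1) * (s0 : ℝ) + 6 * p.n * (p.n + 1) * (p.n + 1)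

noncomputable def Phi (s0 : ℕ) (P : Finset (Ind p.n)) : ℝ :=
  if s0 ≤ sig P 0 then 3 * p.PsiP P + p.K s0 else PhiB P

lemma Phi_le {T : ℕ} (hS : T + p.n ≤ p.S) (s0 : ℕ) {P : Finset (Ind p.n)} (h : Inv T P) :
    0 ≤ p.Phi s0 P ∧ p.Phi s0 P ≤ 3 * p.PsiP P + p.K s0 := by
  have h1 : 0 ≤ p.PsiP P := p.Psi_nonneg (p.good_of hS h)
  have h2 : 0 ≤ p.K s0 := by unfold K; positivity
  unfold Phi
  split_ifs with c
  · exact ⟨by positivity, le_rfl⟩
  · refine ⟨by unfold PhiB; positivity, ?_⟩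
    have a1 : (sig P 0 : ℝ) ≤ s0 := by exact_mod_cast (by omega : sig P 0 ≤ s0)
    have a2 : ((unc P).card : ℝ) ≤ p.n + 1 := by
      have : (unc P).card ≤ p.n + 1 := by
        classical
        refine le_trans (card_le_card (t := range (p.n + 1)) fun i hi => ?_) (card_range _).le
        simp only [unc, mem_filter] at hi
        exact hi.1
      exact_mod_cast this
    have h3 := mul_le_mul_of_nonneg_left a1 (show (0 : ℝ) ≤ 3 * (p.n + 1) by positivity)
    have h4 := mul_le_mul_of_nonneg_left a2 (show (0 : ℝ) ≤ 6 * p.n * (p.n + 1) by positivity)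
    unfold PhiB K
    linarith

lemma drift {T : ℕ} (hS : T + p.n ≤ p.S) {s0 : ℕ} (h0 : 2 * p.E * p.n ≤ s0)
    {P : Finset (Ind p.n)} (h : Inv T P) (hd : ¬ Done P) :
    ∑ X ∈ P, hvl X (fun Y => p.Phi s0 (upd P Y)) ≤ P.card * (p.Phi s0 P - 1) := by
  by_cases c : s0 ≤ sig P 0
  · have a := p.driftA hS h (h0.trans (by exact_mod_cast c))
    have b : ∀ X ∈ P, hvl X (fun Y => p.Phi s0 (upd P Y)) ≤
        3 * hvl X (fun Y => p.PsiP (upd P Y)) + p.K s0 := by
      intro X hX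
      have b1 := hvl_mono X (g := fun Y => p.Phi s0 (upd P Y))
        (h := fun Y => p.PsiP (upd P Y) + p.PsiP (upd P Y) + p.PsiP (upd P Y) + p.K s0)
        fun Y hY => by linarith [(p.Phi_le hS s0 (inv_upd h hX hY)).2]
      rw [hvl_add, hvl_add, hvl_add] at b1
      have b2 := hvl_le p.hn X (g := fun _ => p.K s0) fun _ => le_rfl
      linarith
    have b3 := sum_le_sum b
    rw [sum_add_distrib, ← mul_sum, sum_const, nsmul_eq_mul] at b3
    rw [show p.Phi s0 P = 3 * p.PsiP P + p.K s0 from if_pos c]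
    linarith
  · have e : ∀ Y, p.Phi s0 (upd P Y) = PhiB (upd P Y) := fun Y =>
      if_neg (by rw [sig0 h.1]; omega)
    simp only [e]
    rw [show p.Phi s0 P = PhiB P from if_neg c]
    exact driftB p.hn h hd

lemma psum_le {T : ℕ} (hS : T + p.n ≤ p.S) {s0 : ℕ} (h0 : 2 * p.E * p.n ≤ s0) (t : ℕ) :
    ∀ P : Finset (Ind p.n), Inv T P → ∑ j ∈ range t, surv j P ≤ p.Phi s0 P := by
  induction t with
  | zero => intro P h; simpa using (p.Phi_le hS s0 h).1
  | succ t ih =>
    intro P h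
    by_cases hd : Done P
    · refine le_trans (le_of_eq (sum_eq_zero fun j _ => ?_)) (p.Phi_le hS s0 h).1
      cases j <;> simp [surv, hd]
    · have hc : (0 : ℝ) < P.card := by exact_mod_cast h.1.card_pos
      rw [sum_range_succ']
      simp only [surv, if_neg hd]
      rw [← sum_div, sum_comm]
      have a : ∑ X ∈ P, ∑ j ∈ range t, hvl X (fun Y => surv j (upd P Y)) ≤
          ∑ X ∈ P, hvl X (fun Y => p.Phi s0 (upd P Y)) := by
        refine sum_le_sum fun X hX => ?_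
        rw [← hvl_sum X t (fun j Y => surv j (upd P Y))]
        exact hvl_mono X fun Y hY => ih _ (inv_upd h hX hY)
      have b := (div_le_iff₀' hc).2 (a.trans (p.drift hS h0 h hd))
      linarith

end Par

lemma surv_nonneg {n : ℕ} (t : ℕ) : ∀ P : Finset (Ind n), 0 ≤ surv t P := by
  induction t with
  | zero => intro P; unfold surv; split_ifs <;> norm_num
  | succ t ih =>
    intro P
    unfold surv
    split_ifs
    · exact le_rfl
    · refine div_nonneg (sum_nonneg fun X _ => ?_) (Nat.cast_nonneg _)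
      rw [← hvl_zero X]
      exact hvl_mono X fun Y _ => ih _

theorem main {n : ℕ} (hn : 1 ≤ n) :
    ∃ T₀ : ℕ, ∀ X : Ind n, T₀ ≤ size X → expT {X} ≤ ENNReal.ofReal (7 * size X) := by
  -- all extra terms are at most `c * g`
  set a : ℝ := 2 + n * 8 ^ n * 6 with ha
  set c : ℝ := 3 * (a * n) + 3 * (n + 1) * (2 * a * n + 1) + 6 * n * (n + 1) * (n + 1) with hc
  have a0 : 0 < a := by positivity
  have c0 : 0 < c := by positivity
  obtain ⟨m, hm⟩ := exists_nat_ge (8 * c)
  refine ⟨n + 1 + m ^ 2, fun X hX => ?_⟩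
  set T := size X with hT
  let p : Par := ⟨n, T + n, Nat.sqrt (T + n) + 1, hn, by
    have : 1 ≤ Nat.sqrt (T + n) := Nat.le_sqrt.2 (by omega)
    omega⟩
  have G2 : (2 : ℝ) ≤ p.g := p.G2
  have g1 : ((T + n : ℕ) : ℝ) ≤ (p.g : ℝ) ^ 2 := by
    exact_mod_cast (Nat.lt_succ_sqrt' (T + n)).le
  have g2 : ((p.g : ℝ) - 1) ^ 2 ≤ 2 * T := by
    have h1 := Nat.sqrt_le' (T + n)
    have h2 : Nat.sqrt (T + n) ^ 2 ≤ 2 * T := by omega
    have h3 : (p.g : ℝ) - 1 = (Nat.sqrt (T + n) : ℕ) := by simp [p]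
    rw [h3]
    exact_mod_cast h2
  have g3 : (m : ℝ) ≤ p.g := by
    have : m ≤ Nat.sqrt (T + n) := Nat.le_sqrt'.2 (by omega)
    exact_mod_cast (by omega : m ≤ Nat.sqrt (T + n) + 1)
  have l1 : p.Lip ≤ 6 * p.g := by
    have : 2 / (p.g : ℝ) * ((T + n : ℕ) : ℝ) ≤ 2 * p.g := by
      rw [div_mul_eq_mul_div, div_le_iff₀ (by linarith)]
      nlinarith
    change 2 * (p.g : ℝ) + 2 / (p.g : ℝ) * ((T + n : ℕ) : ℝ) + 2 ≤ _
    linarith
  have l2 : p.E ≤ a * p.g := by
    change 2 + (n : ℝ) * 8 ^ n * p.Lip ≤ _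
    have := mul_le_mul_of_nonneg_left l1 (show (0 : ℝ) ≤ n * 8 ^ n by positivity)
    rw [ha]
    nlinarith
  have hE := p.E_pos
  have hI : Inv T ({X} : Finset (Ind n)) :=
    ⟨singleton_nonempty X, fun A hA B hB _ => by
      rw [mem_singleton.1 hA, mem_singleton.1 hB], fun A hA => by
      rw [mem_singleton.1 hA]; omega⟩
  let s0 : ℕ := ⌈2 * p.E * n⌉₊
  have hs0 : (s0 : ℝ) ≤ 2 * p.E * n + 1 := (Nat.ceil_lt_add_one (by positivity)).le
  have bound : p.Phi s0 {X} ≤ 7 * T := by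
    refine (p.Phi_le (T := T) le_rfl s0 hI).2.trans ?_
    have t1 : tau ({X} : Finset (Ind n)) = fit X := by simp [tau]
    have t2 : ∀ i ≤ fit X, sig ({X} : Finset (Ind n)) i = T := by
      intro i hi
      obtain ⟨Z, hZ, -, h2⟩ := sig_mem hI.1 (t1 ▸ hi)
      rw [← h2, mem_singleton.1 hZ]
    have t3 : p.PsiP {X} ≤ 2 * T + p.E * n := by
      unfold Par.PsiP Par.Psi
      rw [t1, t2 _ le_rfl, sum_eq_zero]
      · have : (0 : ℝ) ≤ p.E * fit X := by positivity
        change 2 * (T : ℝ) + p.E * ((n : ℝ) - fit X) + 0 ≤ _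
        linarith
      · intro i hi
        have := mem_range.1 hi
        unfold Par.tm
        rw [t2 i (by omega), t2 (i + 1) (by omega), sub_self, v_zero G2, mul_zero]
    have n0 : (0 : ℝ) ≤ n := Nat.cast_nonneg n
    have u1 : p.E * n ≤ a * n * p.g := by nlinarith
    have u2 : (s0 : ℝ) ≤ (2 * a * n + 1) * p.g := by nlinarith
    have u3 := mul_le_mul_of_nonneg_left u2 (show (0 : ℝ) ≤ 3 * (n + 1) by positivity)
    have u4 : 6 * (n : ℝ) * (n + 1) * (n + 1) * 1 ≤ 6 * n * (n + 1) * (n + 1) * p.g :=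
      mul_le_mul_of_nonneg_left (by linarith) (by positivity)
    have u5 : c * p.g ≤ T := by nlinarith
    have u6 : c * p.g = 3 * (a * n * p.g) + 3 * (n + 1) * ((2 * a * n + 1) * p.g) +
        6 * n * (n + 1) * (n + 1) * p.g := by rw [hc]; ring
    change 3 * p.PsiP {X} + (3 * ((n : ℝ) + 1) * (s0 : ℝ) + 6 * n * (n + 1) * (n + 1)) ≤ _
    linarith
  unfold expT
  rw [ENNReal.tsum_eq_iSup_nat]
  refine iSup_le fun t => ?_
  rw [← ENNReal.ofReal_sum_of_nonneg fun j _ => surv_nonneg j _]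
  exact ENNReal.ofReal_le_ofReal
    ((p.psum_le (T := T) le_rfl (Nat.le_ceil _) t {X} hI).trans bound)

end Pool.Agent.H44.GP
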