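import Mathlib
import Pool.Agent.H44.GPDefs

namespace Pool.Agent.H44.GP

variable {n : ℕ}

/-- Expectation of `g` at the result of `k` successive applications of HVL-Prime. -/
noncomputable def hvlk : ℕ → Ind n → (Ind n → ℝ) → ℝ
  | 0, X, g => g X
  | k + 1, X, g => hvl X fun Y => hvlk k Y g

/-- Poisson(1) probabilities. -/
noncomputable def pois (m : ℕ) : ℝ := Real.exp (-1) / m.factorial

/-- Strict elitist selection. -/
def sel (X Y : Ind n) : Ind n := if fit X < fit Y then Y else X

/-- Probability that the strict (1+1) GP with `k = 1 + Poisson(1)`, started from `X`, needs more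
than `t` iterations. -/
noncomputable def surv1 : ℕ → Ind n → ℝ
  | 0, X => if fit X = n then 0 else 1
  | t + 1, X => if fit X = n then 0 else
      ∑' m, pois m * hvlk (m + 1) X fun Y => surv1 t (sel X Y)

/-- Expected optimization time. -/
noncomputable def expT1 (X : Ind n) : ENNReal := ∑' t, ENNReal.ofReal (surv1 t X)

end Pool.Agent.H44.GP
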