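import Mathlib
import Pool.Agent.H44.GQDefs
import Pool.Agent.H44.GP3

open Finset

namespace Pool.Agent.H44.GP

variable {n : ℕ}

lemma avg_mul {β : Type} (L : List β) (c : ℝ) (g : β → ℝ) :
    avg L (fun x => c * g x) = c * avg L g := by
  simp only [avg, List.sum_map_mul_left, mul_div_assoc]

lemma hvl_mul (X : Ind n) (c : ℝ) (g : Ind n → ℝ) : hvl X (fun Y => c * g Y) = c * hvl X g := by
  cases X with
  | none => simp only [hvl, ← mul_sum, mul_div_assoc]
  | some t =>
    simp only [hvl, avg_mul, ← mul_sum]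
    ring

lemma hvlk_mono (k : ℕ) : ∀ (X : Ind n) {g h : Ind n → ℝ},
    (∀ Y, size Y ≤ size X + k → g Y ≤ h Y) → hvlk k X g ≤ hvlk k X h := by
  induction k with
  | zero => intro X g h H; exact H X le_rfl
  | succ k ih =>
    intro X g h H
    exact hvl_mono X fun Y hY => ih Y fun Z hZ => H Z (by omega)

lemma hvlk_le (hn : 1 ≤ n) (k : ℕ) {g : Ind n → ℝ} {c : ℝ} (h : ∀ Y, g Y ≤ c) :
    ∀ X : Ind n, hvlk k X g ≤ c := by
  induction k with
  | zero => exact h
  | succ k ih => intro X; exact hvl_le hn X ih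

lemma hvlk_add (k : ℕ) (g h : Ind n → ℝ) :
    ∀ X : Ind n, hvlk k X (fun Y => g Y + h Y) = hvlk k X g + hvlk k X h := by
  induction k with
  | zero => intro X; rfl
  | succ k ih => intro X; simp only [hvlk, ih, hvl_add]

lemma hvlk_mul (k : ℕ) (c : ℝ) (g : Ind n → ℝ) :
    ∀ X : Ind n, hvlk k X (fun Y => c * g Y) = c * hvlk k X g := by
  induction k with
  | zero => intro X; rfl
  | succ k ih => intro X; simp only [hvlk, ih, hvl_mul]

lemma hvlk_zero (k : ℕ) (X : Ind n) : hvlk k X (fun _ => 0) = 0 := by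
  simpa using hvlk_mul k 0 (fun _ => 0) X

lemma hvlk_nonneg (k : ℕ) (X : Ind n) {g : Ind n → ℝ} (h : ∀ Y, 0 ≤ g Y) : 0 ≤ hvlk k X g := by
  rw [← hvlk_zero k X]
  exact hvlk_mono k X fun Y _ => h Y

lemma hvlk_sum (k : ℕ) (X : Ind n) (t : ℕ) (g : ℕ → Ind n → ℝ) :
    hvlk k X (fun Y => ∑ j ∈ range t, g j Y) = ∑ j ∈ range t, hvlk k X (g j) := by
  induction t with
  | zero => simpa using hvlk_zero k X
  | succ t ih => simp only [sum_range_succ, hvlk_add, ih]

section lists
variable {α : Type}

def inss (a : α) : List α → List (List α)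
  | [] => []
  | b :: L => (a :: b :: L) :: (inss a L).map (fun M => b :: M)

lemma inss_append (a : α) (u w : List α) :
    inss a (u ++ w) = (inss a u).map (fun L => L ++ w) ++ (inss a w).map (fun L => u ++ L) := by
  induction u with
  | nil => simp [inss]
  | cons b u ih => simp [inss, ih, Function.comp_def]

lemma inss_sub (a : α) (t : Tr α) :
    (inss a t.leaves).Sublist ((t.ins a true).map Tr.leaves) := by
  induction t with
  | leaf b => simp [inss, Tr.leaves, Tr.ins]
  | node l r ihl ihr =>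
    simp only [Tr.ins, Tr.leaves, inss_append, List.map_cons, List.map_append, List.map_map]
    refine List.Sublist.cons _ (List.Sublist.append ?_ ?_)
    · have := ihl.map (fun L => L ++ r.leaves)
      rw [List.map_map] at this
      exact this
    · have := ihr.map (fun L => l.leaves ++ L)
      rw [List.map_map] at this
      exact this

lemma ins_length (a : α) (side : Bool) (t : Tr α) :
    (t.ins a side).length + 1 = 2 * t.leaves.length := by
  induction t with
  | leaf b => rfl
  | node l r ihl ihr =>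
    simp only [Tr.ins, Tr.leaves, List.length_cons, List.length_append, List.length_map]
    omega

lemma avg_ind (L : List α) (p : α → Prop) [DecidablePred p] :
    avg L (fun x => if p x then 1 else 0) = (L.countP fun x => decide (p x)) / L.length := by
  unfold avg
  congr 1
  induction L with
  | nil => simp
  | cons a M ih =>
    rw [List.map_cons, List.sum_cons, ih, List.countP_cons]
    by_cases h : p a <;> simp [h, add_comm]

lemma avg_nonneg (L : List α) {g : α → ℝ} (h : ∀ x, 0 ≤ g x) : 0 ≤ avg L g :=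
  div_nonneg (List.sum_nonneg fun y hy => by
    obtain ⟨x, -, rfl⟩ := List.mem_map.1 hy
    exact h x) (Nat.cast_nonneg _)

end lists

lemma cnt_lb (L : List (Lit n)) : ∀ A : Finset (Fin n), A.card * min A.card L.length ≤
    2 * ∑ i ∈ A, (inss (i, true) L).countP fun M => decide (fd i M = some (i, true)) := by
  induction L with
  | nil => simp
  | cons b L ih =>
    intro A
    have h1 : ∀ i ∈ A, 1 + (if i ≠ b.1 then
        (inss (i, true) L).countP fun M => decide (fd i M = some (i, true)) else 0) ≤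
        (inss (i, true) (b :: L)).countP fun M => decide (fd i M = some (i, true)) := by
      intro i _
      have e : decide (fd i ((i, true) :: b :: L) = some (i, true)) = true := by
        rw [fd_cons]; simp
      rw [inss, List.countP_cons, if_pos e, List.countP_map, add_comm]
      refine Nat.add_le_add_right ?_ 1
      split_ifs with c
      · refine List.countP_mono_left fun M _ h => ?_
        simp only [Function.comp, decide_eq_true_eq] at h ⊢
        rw [fd_cons, if_neg (Ne.symm c), h]
      · exact Nat.zero_le _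
    have h2 := sum_le_sum h1
    rw [sum_add_distrib, ← sum_filter, filter_ne', sum_const, smul_eq_mul, mul_one] at h2
    have h3 := ih (A.erase b.1)
    refine le_trans ?_ (Nat.mul_le_mul_left 2 h2)
    rw [List.length_cons, mul_add]
    refine le_trans ?_ (Nat.add_le_add_left h3 _)
    by_cases c : b.1 ∈ A
    · have h4 := card_erase_add_one c
      rw [← h4]
      generalize (A.erase b.1).card = j
      rw [min_add_add_right]
      have : min j L.length ≤ j := min_le_left _ _
      nlinarith
    · rw [erase_eq_of_notMem c]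
      have : min A.card (L.length + 1) ≤ min A.card L.length + 1 := by omega
      nlinarith

lemma succ_of {t Y : Tr (Lit n)} {i : Fin n} {side : Bool} (hY : Y ∈ t.ins (i, true) side)
    (hi : fd i t.leaves ≠ some (i, true)) (h : fd i Y.leaves = some (i, true)) :
    fit (some t) < fit (some Y) := by
  obtain ⟨u, w, h1, h2⟩ := ins_spec _ side t Y hY
  change fitL t.leaves < fitL Y.leaves
  rw [fitL_eq, fitL_eq]
  refine card_lt_card ⟨fun j hj => ?_, fun c => ?_⟩
  · rw [mem_filter] at hj ⊢
    refine ⟨mem_univ _, ?_⟩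
    by_cases e : i = j
    · exact e ▸ h
    · rw [h2, fd_insert (a := (i, true)) e, ← h1]
      exact hj.2
  · exact hi (mem_filter.1 (c (mem_filter.2 ⟨mem_univ i, h⟩))).2

lemma p1_lb (hn : 1 ≤ n) (X : Ind n) :
    ((n - fit X : ℕ) : ℝ) ^ 2 / (48 * n * (size X + n)) ≤
      hvl X (fun Y => if fit X < fit Y then 1 else 0) := by
  have hn0 : (0 : ℝ) < n := by exact_mod_cast hn
  have hj : ((n - fit X : ℕ) : ℝ) ≤ n := by exact_mod_cast Nat.sub_le _ _
  have hj0 : (0 : ℝ) ≤ ((n - fit X : ℕ) : ℝ) := Nat.cast_nonneg _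
  cases X with
  | none =>
    have f0 : fit (none : Ind n) = 0 := by simp [fit, fitL, lv]
    have h1 : ∀ i : Fin n, (1 : ℝ) ≤ ∑ b : Bool,
        if fit (none : Ind n) < fit (some (Tr.leaf (i, b))) then (1 : ℝ) else 0 := by
      intro i
      have : fit (none : Ind n) < fit (some (Tr.leaf (i, true))) := by
        rw [f0]
        change 0 < fitL [(i, true)]
        rw [fitL_eq]
        exact card_pos.2 ⟨i, mem_filter.2 ⟨mem_univ _, by rw [fd_cons, if_pos rfl]⟩⟩
      rw [Fintype.sum_bool, if_pos this]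
      split_ifs <;> norm_num
    have h2 := sum_le_sum fun i (_ : i ∈ (univ : Finset (Fin n))) => h1 i
    rw [sum_const, card_univ, Fintype.card_fin, nsmul_eq_mul, mul_one,
      ← Fintype.sum_prod_type'] at h2
    unfold hvl
    dsimp only
    refine le_trans ?_ (div_le_div_of_nonneg_right h2 (by positivity))
    have : (0 : ℝ) ≤ size (none : Ind n) := Nat.cast_nonneg _
    rw [div_le_div_iff₀ (by positivity) (by positivity)]
    have h3 : ((n - fit (none : Ind n) : ℕ) : ℝ) ^ 2 ≤ (n : ℝ) ^ 2 := pow_le_pow_left₀ hj0 hj 2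
    nlinarith [mul_nonneg (mul_nonneg hn0.le hn0.le) this, mul_pos (mul_pos hn0 hn0) hn0]
  | some t =>
    let A := univ.filter fun i : Fin n => ¬ fd i t.leaves = some (i, true)
    have hA : A.card = n - fit (some t) := by
      have := card_filter_add_card_filter_not (s := (univ : Finset (Fin n)))
        (fun i : Fin n => fd i t.leaves = some (i, true))
      rw [card_univ, Fintype.card_fin] at this
      change fit (some t) + A.card = n at this
      omega
    have hs : 1 ≤ t.leaves.length := leaves_pos t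
    have hs' : (1 : ℝ) ≤ t.leaves.length := by exact_mod_cast hs
    let g : Ind n → ℝ := fun Y => if fit (some t) < fit Y then 1 else 0
    have g0 : ∀ Y, 0 ≤ g Y := fun Y => by simp only [g]; split_ifs <;> norm_num
    have h1 : ∀ i ∈ A, (((inss (i, true) t.leaves).countP
        fun M => decide (fd i M = some (i, true)) : ℕ) : ℝ) / (2 * t.leaves.length) ≤
        ∑ b : Bool, ∑ side : Bool, avg (t.ins (i, b) side) fun Y => g (some Y) := by
      intro i hi
      have hi' := (mem_filter.1 hi).2
      have a1 := (inss_sub (i, true) t).countP_le (p := fun M => decide (fd i M = some (i, true)))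
      rw [List.countP_map] at a1
      have a2 : (t.ins (i, true) true).countP ((fun M => decide (fd i M = some (i, true))) ∘
          Tr.leaves) ≤ (t.ins (i, true) true).countP
          fun Y => decide (fit (some t) < fit (some Y)) :=
        List.countP_mono_left fun Y hY h => by
          simp only [Function.comp, decide_eq_true_eq] at h ⊢
          exact succ_of hY hi' h
      have a3 := avg_ind (t.ins (i, true) true) fun Y => fit (some t) < fit (some Y)
      have a4 := ins_length (i, true) true t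
      have a5 : (((inss (i, true) t.leaves).countP
          fun M => decide (fd i M = some (i, true)) : ℕ) : ℝ) / (2 * t.leaves.length) ≤
          avg (t.ins (i, true) true) fun Y => g (some Y) := by
        simp only [g]
        rw [a3]
        refine div_le_div₀ (Nat.cast_nonneg _) (by exact_mod_cast a1.trans a2) ?_ ?_
        · exact_mod_cast (by omega : 0 < (t.ins (i, true) true).length)
        · exact_mod_cast (by omega : (t.ins (i, true) true).length ≤ 2 * t.leaves.length)
      simp only [Fintype.sum_bool]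
      have := avg_nonneg (t.ins (i, true) false) fun Y => g0 (some Y)
      have := avg_nonneg (t.ins (i, false) false) fun Y => g0 (some Y)
      have := avg_nonneg (t.ins (i, false) true) fun Y => g0 (some Y)
      linarith
    have h2 := (sum_le_sum h1).trans (sum_le_sum_of_subset_of_nonneg (subset_univ A)
      fun i _ _ => sum_nonneg fun b _ => sum_nonneg fun side _ =>
        avg_nonneg _ fun Y => g0 (some Y))
    rw [← Fintype.sum_prod_type', ← sum_div, ← Nat.cast_sum] at h2
    have h3 := cnt_lb t.leaves A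
    rw [hA] at h3
    have h4 : ((n - fit (some t) : ℕ) : ℝ) * min ((n - fit (some t) : ℕ) : ℝ) t.leaves.length ≤
        2 * ((∑ i ∈ A, (inss (i, true) t.leaves).countP
          fun M => decide (fd i M = some (i, true)) : ℕ) : ℝ) := by exact_mod_cast h3
    have h5 := avg_nonneg t.del g0
    have h6 : 0 ≤ (∑ l : Lit n, avg (t.sub l) fun Y => g (some Y)) / (2 * n) :=
      div_nonneg (sum_nonneg fun l _ => avg_nonneg _ fun Y => g0 (some Y)) (by positivity)
    have h7 := div_le_div_of_nonneg_right h2 (show (0 : ℝ) ≤ 4 * n by positivity)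
    change _ / (48 * n * ((t.leaves.length : ℝ) + n)) ≤ hvl (some t) g
    unfold hvl
    dsimp only
    generalize ((∑ i ∈ A, (inss (i, true) t.leaves).countP
      fun M => decide (fd i M = some (i, true)) : ℕ) : ℝ) = c at *
    generalize ((n - fit (some t) : ℕ) : ℝ) = j at *
    generalize (t.leaves.length : ℝ) = s at *
    have h8 : j ^ 2 / (48 * n * (s + n)) ≤ c / (2 * s) / (4 * n) / 3 := by
      rw [div_div, div_div, div_le_div_iff₀ (by positivity) (by positivity)]
      have h9 : j * s ≤ min j s * (s + n) := by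
        rcases le_total j s with k | k
        · rw [min_eq_left k]; nlinarith
        · rw [min_eq_right k]; nlinarith
      have h10 : j * (j * s) ≤ j * (min j s * (s + n)) := mul_le_mul_of_nonneg_left h9 hj0
      have h11 : j * min j s * (s + n) ≤ 2 * c * (s + n) :=
        mul_le_mul_of_nonneg_right h4 (by positivity)
      nlinarith
    linarith

noncomputable def aa (n j : ℕ) : ℝ := 144 * n * (2 - 2 / ((j : ℝ) + 1)) + 288 * j

noncomputable def bb (n j : ℕ) : ℝ := 576 * n * (8 * √(n : ℝ) * √(j : ℝ) + 308 * j)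

lemma aa_mono (n : ℕ) {i j : ℕ} (h : i ≤ j) : aa n i ≤ aa n j := by
  have h1 : (i : ℝ) ≤ j := by exact_mod_cast h
  unfold aa
  gcongr

lemma bb_mono (n : ℕ) {i j : ℕ} (h : i ≤ j) : bb n i ≤ bb n j := by
  have h1 : (i : ℝ) ≤ j := by exact_mod_cast h
  unfold bb
  gcongr

lemma aa_bd {n j : ℕ} (h : j ≤ n) : 0 ≤ aa n j ∧ aa n j ≤ 576 * n := by
  have h1 : (j : ℝ) ≤ n := by exact_mod_cast h
  have h0 : (0 : ℝ) ≤ j := Nat.cast_nonneg j
  have h2 : 0 ≤ 2 / ((j : ℝ) + 1) := by positivity
  have h3 : 2 / ((j : ℝ) + 1) ≤ 2 := by rw [div_le_iff₀ (by positivity)]; linarith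
  unfold aa
  constructor <;> nlinarith

lemma key_ineq {n i j : ℕ} (hj : j + 1 ≤ n) (hi : i ≤ j) {S S' k : ℝ} (hS : 0 ≤ S)
    (hk : 0 ≤ k) (h : S' ≤ S + k) :
    aa n i * S' + bb n i ≤ aa n (j + 1) * S + bb n (j + 1) -
      (144 * n * S / ((j : ℝ) + 1) ^ 2 + 21 * (576 * n)) +
      576 * n * (k - (S / (2 * n) + 4 * (√(n : ℝ) / √((j : ℝ) + 1)) + 287)) := by
  have hn0 : (0 : ℝ) < n := by exact_mod_cast (by omega : 0 < n)
  have j0 : (0 : ℝ) ≤ j := Nat.cast_nonneg j
  obtain ⟨a1, a2⟩ := aa_bd (n := n) (j := i) (by omega)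
  have a3 := mul_le_mul_of_nonneg_left h a1
  have a4 := mul_le_mul_of_nonneg_right (aa_mono n hi) hS
  have a5 := mul_le_mul_of_nonneg_right a2 hk
  have a6 := bb_mono n hi
  have a7 : aa n j + (144 * n / ((j : ℝ) + 1) ^ 2 + 288) ≤ aa n (j + 1) := by
    have : 1 / ((j : ℝ) + 1) ^ 2 ≤ 2 / ((j : ℝ) + 1) - 2 / ((j : ℝ) + 1 + 1) := by
      rw [div_sub_div _ _ (by positivity) (by positivity),
        div_le_div_iff₀ (by positivity) (by positivity)]
      nlinarith
    have := mul_le_mul_of_nonneg_left this (show (0 : ℝ) ≤ 144 * n by positivity)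
    unfold aa
    push_cast
    rw [mul_one_div] at this
    linarith
  have a8 := mul_le_mul_of_nonneg_right a7 hS
  have a9 : bb n j + 576 * n * (4 * (√(n : ℝ) / √((j : ℝ) + 1)) + 308) ≤ bb n (j + 1) := by
    have A0 : 0 < √((j : ℝ) + 1) := Real.sqrt_pos.2 (by positivity)
    have A1 := Real.mul_self_sqrt (show (0 : ℝ) ≤ j + 1 by positivity)
    have B1 := Real.mul_self_sqrt j0
    have t : 1 / √((j : ℝ) + 1) ≤ 2 * (√((j : ℝ) + 1) - √(j : ℝ)) := by
      rw [div_le_iff₀ A0]
      nlinarith [sq_nonneg (√((j : ℝ) + 1) - √(j : ℝ))]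
    have t2 := mul_le_mul_of_nonneg_left t (show (0 : ℝ) ≤ 576 * n * (4 * √(n : ℝ)) by positivity)
    have t3 : 576 * n * (4 * √(n : ℝ)) * (1 / √((j : ℝ) + 1)) =
        576 * n * (4 * (√(n : ℝ) / √((j : ℝ) + 1))) := by ring
    unfold bb
    push_cast
    linarith
  have e1 : 576 * (n : ℝ) * (S / (2 * n)) = 288 * S := by field_simp; ring
  have e2 : 144 * (n : ℝ) / ((j : ℝ) + 1) ^ 2 * S = 144 * n * S / ((j : ℝ) + 1) ^ 2 := by ring
  nlinarith

noncomputable def Ph (X : Ind n) : ℝ := aa n (n - fit X) * (size X + n) + bb n (n - fit X)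

lemma Ph_nonneg (X : Ind n) : 0 ≤ Ph X := by
  have := (aa_bd (Nat.sub_le n (fit X))).1
  unfold Ph bb
  positivity

lemma hs_pois (x : ℝ) : HasSum (fun m => pois m * x ^ m) (Real.exp (x - 1)) := by
  have h := (NormedSpace.expSeries_div_hasSum_exp x).mul_left (Real.exp (-1))
  rw [← Real.exp_eq_exp_ℝ, ← Real.exp_add, show -1 + x = x - 1 by ring] at h
  have e : (fun m => pois m * x ^ m) = fun i : ℕ => Real.exp (-1) * (x ^ i / i.factorial) := by
    funext m; unfold pois; ring
  rw [e]
  exact h

lemma pois_nonneg (m : ℕ) : 0 ≤ pois m := by unfold pois; positivity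

lemma hs_pois1 : HasSum pois 1 := by simpa using hs_pois 1

lemma surv1_bd (hn : 1 ≤ n) (t : ℕ) : ∀ X : Ind n, 0 ≤ surv1 t X ∧ surv1 t X ≤ 1 := by
  induction t with
  | zero => intro X; unfold surv1; split_ifs <;> norm_num
  | succ t ih =>
    intro X
    unfold surv1
    split_ifs
    · norm_num
    · have a : ∀ m, 0 ≤ pois m * hvlk (m + 1) X fun Y => surv1 t (sel X Y) := fun m =>
        mul_nonneg (pois_nonneg m) (hvlk_nonneg _ _ fun Y => (ih _).1)
      have b : ∀ m, pois m * (hvlk (m + 1) X fun Y => surv1 t (sel X Y)) ≤ pois m := fun m =>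
        mul_le_of_le_one_right (pois_nonneg m) (hvlk_le hn _ (fun Y => (ih _).2) X)
      exact ⟨tsum_nonneg a,
        hasSum_le b (Summable.of_nonneg_of_le a b hs_pois1.summable).hasSum hs_pois1⟩

lemma drift1 (hn : 1 ≤ n) {X : Ind n} (hX : fit X ≠ n) {g : Ind n → ℝ} (g0 : ∀ Y, 0 ≤ g Y)
    (hg : ∀ Y, g Y ≤ Ph Y) :
    ∑' m, pois m * hvlk (m + 1) X (fun Y => g (sel X Y)) ≤ Ph X - 1 := by
  have hn0 : (0 : ℝ) < n := by exact_mod_cast hn
  have f1 := fit_le X
  obtain ⟨j, hj⟩ : ∃ j, n - fit X = j + 1 := ⟨n - fit X - 1, by omega⟩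
  have p1 := p1_lb hn X
  rw [hj] at p1
  push_cast at p1
  set S : ℝ := size X + n with hS
  have S0 : 0 < S := by positivity
  set R : ℝ := 144 * n * S / ((j : ℝ) + 1) ^ 2 + 21 * (576 * n) with hR
  set L : ℝ := S / (2 * n) + 4 * (√(n : ℝ) / √((j : ℝ) + 1)) + 287 with hL
  have R0 : 0 ≤ R := by positivity
  let I : Ind n → ℝ := fun Y => if fit X < fit Y then 1 else 0
  have I0 : ∀ Y, 0 ≤ I Y := fun Y => by simp only [I]; split_ifs <;> norm_num
  have step : ∀ m, hvlk (m + 1) X (fun Y => g (sel X Y)) ≤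
      Ph X + 576 * n * Real.exp (1 - L) * Real.exp 1 ^ m - R * hvlk (m + 1) X I := by
    intro m
    have e : Real.exp (1 - L) * Real.exp 1 ^ m = Real.exp (((m + 1 : ℕ) : ℝ) - L) := by
      rw [← Real.exp_nat_mul, ← Real.exp_add]
      congr 1
      push_cast
      ring
    have h1 := hvlk_mono (m + 1) X (g := fun Y => g (sel X Y))
      (h := fun Y => (Ph X + 576 * n * Real.exp (((m + 1 : ℕ) : ℝ) - L)) + (-R) * I Y)
      fun Y hY => by
        refine (hg _).trans ?_
        have w : 0 ≤ 576 * n * Real.exp (((m + 1 : ℕ) : ℝ) - L) := by positivity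
        simp only [sel, I]
        split_ifs with c
        · have k1 := key_ineq (n := n) (i := n - fit Y) (j := j) (by omega) (by omega) S0.le
            (k := ((m + 1 : ℕ) : ℝ)) (S' := size Y + n) (by positivity) (by
              have : (size Y : ℝ) ≤ size X + ((m + 1 : ℕ) : ℝ) := by exact_mod_cast hY
              linarith)
          have k2 := Real.add_one_le_exp (((m + 1 : ℕ) : ℝ) - L)
          have k3 := mul_le_mul_of_nonneg_left
            (show ((m + 1 : ℕ) : ℝ) - L ≤ Real.exp (((m + 1 : ℕ) : ℝ) - L) by linarith)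
            (show (0 : ℝ) ≤ 576 * n by positivity)
          unfold Ph
          rw [hj]
          linarith
        · linarith
    rw [hvlk_add, hvlk_mul] at h1
    have h2 := hvlk_le hn (m + 1)
      (g := fun _ => Ph X + 576 * n * Real.exp (((m + 1 : ℕ) : ℝ) - L)) (fun _ => le_rfl) X
    rw [mul_assoc (576 * (n : ℝ)), e]
    linarith
  have hsum : HasSum (fun m => pois m * Ph X + 576 * n * Real.exp (1 - L) *
      (pois m * Real.exp 1 ^ m) - if m = 0 then pois 0 * (R * hvl X I) else 0)
      (1 * Ph X + 576 * n * Real.exp (1 - L) * Real.exp (Real.exp 1 - 1) -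
        pois 0 * (R * hvl X I)) :=
    ((hs_pois1.mul_right _).add ((hs_pois _).mul_left _)).sub (hasSum_ite_eq 0 _)
  have a : ∀ m, 0 ≤ pois m * hvlk (m + 1) X fun Y => g (sel X Y) := fun m =>
    mul_nonneg (pois_nonneg m) (hvlk_nonneg _ _ fun Y => g0 _)
  have b : ∀ m, pois m * (hvlk (m + 1) X fun Y => g (sel X Y)) ≤
      pois m * Ph X + 576 * n * Real.exp (1 - L) * (pois m * Real.exp 1 ^ m) -
        if m = 0 then pois 0 * (R * hvl X I) else 0 := by
    intro m
    have b1 := mul_le_mul_of_nonneg_left (step m) (pois_nonneg m)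
    split_ifs with c
    · subst c
      have : hvlk (0 + 1) X I = hvl X I := rfl
      rw [this] at b1
      linarith
    · have := mul_nonneg (pois_nonneg m) (mul_nonneg R0 (hvlk_nonneg (m + 1) X I0))
      linarith
  refine (hasSum_le b (Summable.of_nonneg_of_le a b hsum.summable).hasSum hsum).trans ?_
  set p0 : ℝ := ((j : ℝ) + 1) ^ 2 / (144 * n * S) with hp0
  have p00 : 0 < p0 := by positivity
  have e3 : Real.exp 1 ≤ 3 := by linarith [Real.exp_one_lt_d9]
  have c1 : 1 / 3 ≤ pois 0 := by
    simp only [pois, Nat.factorial_zero, Nat.cast_one, div_one, Real.exp_neg, ← one_div]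
    exact one_div_le_one_div_of_le (Real.exp_pos 1) e3
  have c2 : 3 * p0 ≤ hvl X I := by
    refine le_trans (le_of_eq ?_) p1
    rw [hp0]; field_simp; ring
  have c3 : 1 / 3 * (R * (3 * p0)) ≤ pois 0 * (R * hvl X I) :=
    mul_le_mul c1 (mul_le_mul_of_nonneg_left c2 R0) (by positivity) (pois_nonneg 0)
  have c4 : R * p0 = 1 + 21 * (576 * n) * p0 := by
    rw [hR, hp0]; field_simp
  have c5 : Real.exp (Real.exp 1) ≤ 21 := by
    have t1 : Real.exp (Real.exp 1) ≤ Real.exp ((3 : ℕ) * 1) := Real.exp_le_exp.2 (by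
      push_cast; linarith)
    rw [Real.exp_nat_mul] at t1
    have t2 : Real.exp 1 ^ 3 ≤ 2.7182818286 ^ 3 :=
      pow_le_pow_left₀ (Real.exp_pos 1).le Real.exp_one_lt_d9.le 3
    have t3 : (2.7182818286 : ℝ) ^ 3 ≤ 21 := by norm_num
    linarith
  have c6 : Real.exp (-L) ≤ p0 := by
    have y0 : 0 ≤ √(n : ℝ) / √((j : ℝ) + 1) := by positivity
    have y4 : (√(n : ℝ) / √((j : ℝ) + 1)) ^ 4 = (n : ℝ) ^ 2 / ((j : ℝ) + 1) ^ 2 := by
      rw [show (4 : ℕ) = 2 * 2 by norm_num, pow_mul, div_pow, Real.sq_sqrt hn0.le,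
        Real.sq_sqrt (by positivity), div_pow]
    generalize √(n : ℝ) / √((j : ℝ) + 1) = y at *
    have t1 : S / (2 * n) ≤ Real.exp (S / (2 * n)) := by
      linarith [Real.add_one_le_exp (S / (2 * n))]
    have t2 : y ^ 4 ≤ Real.exp (4 * y) := by
      rw [show (4 : ℝ) * y = (4 : ℕ) * y by norm_num, Real.exp_nat_mul]
      exact pow_le_pow_left₀ y0 (by linarith [Real.add_one_le_exp y]) 4
    have t3 : (288 : ℝ) ≤ Real.exp 287 := by linarith [Real.add_one_le_exp 287]
    have t4 : S / (2 * n) * y ^ 4 * 288 ≤ Real.exp L := by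
      rw [hL, Real.exp_add, Real.exp_add]
      gcongr
    have t5 : S / (2 * n) * y ^ 4 * 288 = p0⁻¹ := by
      rw [y4, hp0]; field_simp; ring
    rw [Real.exp_neg, ← inv_inv p0]
    exact inv_anti₀ (by positivity) (t5 ▸ t4)
  have c7 : Real.exp (1 - L) * Real.exp (Real.exp 1 - 1) = Real.exp (-L) *
      Real.exp (Real.exp 1) := by
    rw [← Real.exp_add, ← Real.exp_add]; congr 1; ring
  have c8 : Real.exp (-L) * Real.exp (Real.exp 1) ≤ p0 * 21 :=
    mul_le_mul c6 c5 (Real.exp_pos _).le p00.le
  have c9 := mul_le_mul_of_nonneg_left c8 (show (0 : ℝ) ≤ 576 * n by positivity)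
  rw [mul_assoc (576 * (n : ℝ)), c7]
  linarith

lemma psum1 (hn : 1 ≤ n) (t : ℕ) : ∀ X : Ind n, ∑ j ∈ range t, surv1 j X ≤ Ph X := by
  induction t with
  | zero => intro X; simpa using Ph_nonneg X
  | succ t ih =>
    intro X
    by_cases hX : fit X = n
    · refine le_trans (le_of_eq (sum_eq_zero fun j _ => ?_)) (Ph_nonneg X)
      cases j <;> simp [surv1, hX]
    · rw [sum_range_succ']
      simp only [surv1, if_neg hX]
      rw [← Summable.tsum_finsetSum (fun j _ => Summable.of_nonneg_of_le
        (fun m => mul_nonneg (pois_nonneg m) (hvlk_nonneg _ _ fun Y => (surv1_bd hn j _).1))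
        (fun m => mul_le_of_le_one_right (pois_nonneg m)
          (hvlk_le hn _ (fun Y => (surv1_bd hn j _).2) X)) hs_pois1.summable)]
      have d := drift1 hn hX (g := fun Y => ∑ j ∈ range t, surv1 j Y)
        (fun Y => sum_nonneg fun j _ => (surv1_bd hn j Y).1) ih
      simp only [hvlk_sum _ X t (fun j Y => surv1 j (sel X Y)), mul_sum] at d
      linarith

theorem main1 (hn : 1 ≤ n) (X : Ind n) :
    expT1 X ≤ ENNReal.ofReal (200000 * ((n : ℝ) ^ 2 + n * size X)) := by
  have hn0 : (0 : ℝ) ≤ n := Nat.cast_nonneg n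
  have bound : Ph X ≤ 200000 * ((n : ℝ) ^ 2 + n * size X) := by
    have a1 := (aa_bd (Nat.sub_le n (fit X))).2
    have a2 := bb_mono n (Nat.sub_le n (fit X))
    have a3 : bb n n = 576 * n * (316 * n) := by
      unfold bb
      rw [mul_assoc 8, Real.mul_self_sqrt hn0]
      ring
    have s0 : (0 : ℝ) ≤ size X := Nat.cast_nonneg _
    have a4 := mul_le_mul_of_nonneg_right a1 (show (0 : ℝ) ≤ size X + n by positivity)
    unfold Ph
    nlinarith [mul_nonneg hn0 s0, sq_nonneg (n : ℝ)]
  unfold expT1
  rw [ENNReal.tsum_eq_iSup_nat]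
  refine iSup_le fun t => ?_
  rw [← ENNReal.ofReal_sum_of_nonneg fun j _ => (surv1_bd hn j _).1]
  exact ENNReal.ofReal_le_ofReal ((psum1 hn t X).trans bound)

end Pool.Agent.H44.GP
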