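import Mathlib

open Finset
open scoped goldenRatio

namespace Pool.Agent.H44.GS

/-- the value `∑ c_i φ^(n-i)`, `i = 1..n` (here `i` runs over `0..n-1`) -/
noncomputable def val (n : ℕ) (c : Fin n → ℝ) : ℝ := ∑ i : Fin n, c i * φ ^ (n - 1 - (i : ℕ))

/-- the spectrum `X(φ)` with digits `-1, 0, 1` -/
def X : Set ℝ := {x | ∃ (n : ℕ) (c : Fin n → ℝ), (∀ i, c i = -1 ∨ c i = 0 ∨ c i = 1) ∧ x = val n c}

/-- the digit `0` or `1` -/
def dg (b : Bool) : ℝ := if b then 1 else 0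

open Classical in
/-- `N_n(x)`: number of pairs of 0-1 words of length `n` whose difference has value `x` -/
noncomputable def N (n : ℕ) (x : ℝ) : ℕ :=
  (univ.filter fun ab : (Fin n → Bool) × (Fin n → Bool) =>
    val n (fun i => dg (ab.1 i) - dg (ab.2 i)) = x).card

/-- `W_n` -/
noncomputable def W (μ : ℝ → ℝ) (n : ℕ) : ℝ := ∑ᶠ x ∈ X ∩ Set.Icc (0 : ℝ) n, μ x

/-- the integral of `f` against `ν_n` -/
noncomputable def nuInt (μ : ℝ → ℝ) (n : ℕ) (f : ℝ → ℝ) : ℝ :=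
  (W μ n)⁻¹ * ∑ᶠ x ∈ X ∩ Set.Icc (0 : ℝ) n, μ x * f (Int.fract x)

end Pool.Agent.H44.GS
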