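import Mathlib
import Pool.Agent.H44.GSDefs

open Finset Real Filter Topology
open scoped goldenRatio

namespace Pool.Agent.H44.GS

lemma sqrt5_lb : (2.236 : ℝ) < √5 := Real.lt_sqrt_of_sq_lt (by norm_num)

lemma sqrt5_ub : √5 < (2.237 : ℝ) := (Real.sqrt_lt' (by norm_num)).2 (by norm_num)

lemma phi_lb : (1.618 : ℝ) < φ := by unfold goldenRatio; linarith [sqrt5_lb]

lemma psi_lb : (-0.6185 : ℝ) < ψ := by unfold goldenConj; linarith [sqrt5_ub]

lemma psi_ub : ψ < (-0.618 : ℝ) := by unfold goldenConj; linarith [sqrt5_lb]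

lemma abs_psi : |ψ| ≤ 0.6185 := abs_le.2 ⟨psi_lb.le, by linarith [psi_ub]⟩

lemma val_succ (n : ℕ) (c : Fin (n + 1) → ℝ) :
    val (n + 1) c = φ * val n (fun i => c i.castSucc) + c (Fin.last n) := by
  unfold val
  rw [Fin.sum_univ_castSucc, mul_sum]
  congr 1
  · refine sum_congr rfl fun i _ => ?_
    have := i.2
    rw [Fin.val_castSucc, show n + 1 - 1 - (i : ℕ) = n - 1 - i + 1 by omega, pow_succ]; ring
  · simp

lemma val_rep (n : ℕ) : ∀ c : Fin n → ℝ, (∀ i, c i = -1 ∨ c i = 0 ∨ c i = 1) →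
    ∃ a b : ℤ, val n c = a + b * φ ∧ |(a : ℝ) + b * ψ| ≤ 3 := by
  induction n with
  | zero => intro c _; exact ⟨0, 0, by simp [val], by simp⟩
  | succ n ih =>
    intro c hc
    obtain ⟨a, b, e, h⟩ := ih (fun i => c i.castSucc) fun i => hc _
    obtain ⟨k, hk, hk1⟩ : ∃ k : ℤ, c (Fin.last n) = k ∧ |(k : ℝ)| ≤ 1 := by
      rcases hc (Fin.last n) with h | h | h
      · exact ⟨-1, by rw [h]; simp, by simp⟩
      · exact ⟨0, by rw [h]; simp, by simp⟩
      · exact ⟨1, by rw [h]; simp, by simp⟩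
    refine ⟨b + k, a + b, ?_, ?_⟩
    · rw [val_succ, e, hk]; push_cast
      linear_combination (b : ℝ) * goldenRatio_sq
    · have : ((b + k : ℤ) : ℝ) + ((a + b : ℤ) : ℝ) * ψ = ψ * (a + b * ψ) + k := by
        push_cast; linear_combination (-(b : ℝ)) * goldenConj_sq
      rw [this]
      refine le_trans (abs_add_le _ _) ?_
      rw [abs_mul]
      have := mul_le_mul abs_psi h (abs_nonneg _) (by norm_num)
      linarith

lemma X_rep {x : ℝ} (hx : x ∈ X) : ∃ a b : ℤ, x = a + b * φ ∧ |(a : ℝ) + b * ψ| ≤ 3 := by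
  obtain ⟨n, c, hc, rfl⟩ := hx
  exact val_rep n c hc

lemma X_fin (R : ℝ) : (X ∩ {x | |x| ≤ R}).Finite := by
  obtain ⟨M, hM⟩ := exists_nat_ge (2 * R + 10)
  refine ((Set.finite_Icc (-(M : ℤ)) M).prod (Set.finite_Icc (-(M : ℤ)) M)).image
    (fun p : ℤ × ℤ => (p.1 : ℝ) + p.2 * φ) |>.subset ?_
  rintro x ⟨hx, hR⟩
  obtain ⟨a, b, e, h⟩ := X_rep hx
  have hR : |x| ≤ R := hR
  rw [abs_le] at h hR
  have h5 : x - (a + b * ψ) = b * √5 := by rw [e, ← goldenRatio_sub_goldenConj]; ring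
  have h6 : x + (a + b * ψ) = 2 * a + b := by
    rw [e]; linear_combination (b : ℝ) * goldenRatio_add_goldenConj
  have s5 := sqrt5_lb
  have hR0 : 0 ≤ R := by linarith [hR.1, hR.2]
  have hb1 : (b : ℝ) ≤ R + 3 := by nlinarith [hR.2, h.1]
  have hb2 : -(R + 3) ≤ (b : ℝ) := by nlinarith [hR.1, h.2]
  refine ⟨(a, b), ⟨⟨?_, ?_⟩, ?_, ?_⟩, e.symm⟩
  · have : (-(M : ℝ)) ≤ a := by linarith [hR.1, h.1]
    exact_mod_cast this
  · have : (a : ℝ) ≤ M := by linarith [hR.2, h.2]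
    exact_mod_cast this
  · have : (-(M : ℝ)) ≤ b := by linarith
    exact_mod_cast this
  · have : (b : ℝ) ≤ M := by linarith
    exact_mod_cast this

lemma lucas (j : ℕ) : ∃ k : ℤ, φ ^ j + ψ ^ j = k := by
  induction j using Nat.twoStepInduction with
  | zero => exact ⟨2, by norm_num⟩
  | one => exact ⟨1, by simp⟩
  | more j h1 h2 =>
    obtain ⟨k1, e1⟩ := h1
    obtain ⟨k2, e2⟩ := h2
    refine ⟨k1 + k2, ?_⟩
    push_cast
    rw [← e1, ← e2]
    linear_combination φ ^ j * goldenRatio_sq + ψ ^ j * goldenConj_sq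

lemma psi_pow_sq (m : ℕ) : (ψ ^ m) ^ 2 ≤ 0.4 ^ m := by
  rw [← pow_mul, mul_comm, pow_mul]
  refine pow_le_pow_left₀ (sq_nonneg _) ?_ m
  nlinarith [psi_lb, psi_ub]

lemma cos_ge {y : ℝ} (hy : y ∈ X) {m : ℕ} (hm : 7 ≤ m) : 1 / 2 ≤ cos (2 * π * (φ ^ m * y)) := by
  obtain ⟨a, b, e, h⟩ := X_rep hy
  obtain ⟨k1, e1⟩ := lucas m
  obtain ⟨k2, e2⟩ := lucas (m + 1)
  set t := ψ ^ m * (a + b * ψ) with ht
  have : 2 * π * (φ ^ m * y) = -(2 * π * t) + ((a * k1 + b * k2 : ℤ) : ℝ) * (2 * π) := by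
    push_cast
    rw [← e1, ← e2, e, ht]; ring
  rw [this, cos_add_int_mul_two_pi, cos_neg]
  have h1 := Real.one_sub_sq_div_two_le_cos (x := 2 * π * t)
  have h2 : t ^ 2 ≤ 0.4 ^ 7 * 9 := by
    rw [ht, mul_pow]
    have h3 : ((a : ℝ) + b * ψ) ^ 2 ≤ 9 := by
      rw [abs_le] at h; nlinarith [h.1, h.2]
    have h4 : (0.4 : ℝ) ^ m ≤ 0.4 ^ 7 := pow_le_pow_of_le_one (by norm_num) (by norm_num) hm
    exact mul_le_mul (le_trans (psi_pow_sq m) h4) h3 (sq_nonneg _) (by norm_num)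
  have hp : π ^ 2 ≤ 10 := by nlinarith [pi_lt_d2, pi_pos]
  have h5 : π ^ 2 * t ^ 2 ≤ 10 * (0.4 ^ 7 * 9) := mul_le_mul hp h2 (sq_nonneg _) (by norm_num)
  nlinarith

/-- the Erdos product -/
noncomputable def PP (m : ℕ) : ℝ := ∏ j ∈ range m, cos (π * φ ^ j) ^ 2

lemma fac_eq (j : ℕ) : cos (π * φ ^ j) ^ 2 = cos (π * ψ ^ j) ^ 2 := by
  obtain ⟨k, e⟩ := lucas j
  have : π * φ ^ j = -(π * ψ ^ j) + k * π := by rw [← e]; ring
  rw [this, cos_add_int_mul_pi, cos_neg, mul_pow, ← zpow_natCast, ← zpow_mul]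
  rw [show k * ((2 : ℕ) : ℤ) = 2 * k by push_cast; ring, zpow_mul]; simp

lemma fac_ge (j : ℕ) : 1 - 10 * 0.4 ^ j ≤ cos (π * φ ^ j) ^ 2 := by
  rw [fac_eq, cos_sq']
  have h1 : sin (π * ψ ^ j) ^ 2 ≤ (π * ψ ^ j) ^ 2 := sin_sq_le_sq
  have hp : π ^ 2 ≤ 10 := by nlinarith [pi_lt_d2, pi_pos]
  have h2 := mul_le_mul hp (psi_pow_sq j) (sq_nonneg _) (by norm_num)
  rw [mul_pow] at h1
  linarith

lemma fac_pos (j : ℕ) : 0 < cos (π * φ ^ j) ^ 2 := by
  rw [fac_eq]
  refine lt_of_le_of_ne (sq_nonneg _) (pow_ne_zero 2 ?_).symm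
  have hp := pi_pos
  match j with
  | 0 => simp
  | 1 =>
    rw [pow_one, ← cos_neg]
    exact (cos_neg_of_pi_div_two_lt_of_lt (by nlinarith [psi_ub]) (by nlinarith [psi_lb])).ne
  | j + 2 =>
    have h1 : (ψ ^ (j + 2)) ^ 2 ≤ 0.4 ^ 2 := le_trans (psi_pow_sq _)
      (pow_le_pow_of_le_one (by norm_num) (by norm_num) (by omega))
    have h2 := abs_le_of_sq_le_sq' h1 (by norm_num)
    exact (cos_pos_of_mem_Ioo ⟨by nlinarith [h2.1], by nlinarith [h2.2]⟩).ne'

lemma PP_pos (m : ℕ) : 0 < PP m := prod_pos fun j _ => fac_pos j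

lemma PP_le (m : ℕ) : PP m ≤ 1 := prod_le_one (fun _ _ => sq_nonneg _) fun _ _ => cos_sq_le_one _

lemma PP_ge (m : ℕ) (hm : 4 ≤ m) : PP 4 * (1 / 2 + 17 * 0.4 ^ m) ≤ PP m := by
  induction m, hm using Nat.le_induction with
  | base => have := PP_pos 4; nlinarith
  | succ m hm ih =>
    have h4 : (0.4 : ℝ) ^ m ≤ 0.4 ^ 4 := pow_le_pow_of_le_one (by norm_num) (by norm_num) hm
    have h0 : (0 : ℝ) < 0.4 ^ m := by positivity
    have e : PP (m + 1) = PP m * cos (π * φ ^ m) ^ 2 := prod_range_succ _ _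
    rw [e, pow_succ]
    have h1 := mul_le_mul ih (fac_ge m) (by linarith) (PP_pos m).le
    refine le_trans ?_ h1
    rw [mul_assoc]
    refine mul_le_mul_of_nonneg_left ?_ (PP_pos 4).le
    nlinarith

/-- one step of the digit recursion on test functions -/
noncomputable def L (h : ℝ → ℝ) (y : ℝ) : ℝ := h (φ * y - 1) + 2 * h (φ * y) + h (φ * y + 1)

/-- sum of a test function over pairs of words -/
noncomputable def E (n : ℕ) (h : ℝ → ℝ) : ℝ :=
  ∑ a : Fin n → Bool, ∑ b : Fin n → Bool, h (val n (fun i => dg (a i) - dg (b i)))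

lemma sum_snoc {n : ℕ} (F : (Fin (n + 1) → Bool) → ℝ) :
    ∑ a, F a = ∑ a : Fin n → Bool, (F (Fin.snoc a true) + F (Fin.snoc a false)) := by
  rw [← (Fin.snocEquiv fun _ => Bool).sum_comp, Fintype.sum_prod_type, sum_comm]
  refine sum_congr rfl fun a _ => ?_
  rw [Fintype.sum_bool]; rfl

lemma E_succ (n : ℕ) (h : ℝ → ℝ) : E (n + 1) h = E n (L h) := by
  unfold E
  rw [sum_snoc]
  refine sum_congr rfl fun a _ => ?_
  rw [sum_snoc, sum_snoc, ← sum_add_distrib]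
  refine sum_congr rfl fun b _ => ?_
  simp only [val_succ, Fin.snoc_castSucc, Fin.snoc_last, L, dg]
  simp only [if_true, Bool.false_eq_true, if_false, sub_self, add_zero, sub_zero, zero_sub,
    ← sub_eq_add_neg]
  ring

lemma E_add (n m : ℕ) (h : ℝ → ℝ) : E (n + m) h = E n (L^[m] h) := by
  induction m generalizing h with
  | zero => rfl
  | succ m ih => rw [← add_assoc, E_succ, ih, Function.iterate_succ_apply]

lemma val_mem (n : ℕ) (a b : Fin n → Bool) : val n (fun i => dg (a i) - dg (b i)) ∈ X := by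
  refine ⟨n, _, fun i => ?_, rfl⟩
  unfold dg
  cases a i <;> cases b i <;> simp

lemma E_mono (n : ℕ) {h g : ℝ → ℝ} (H : ∀ x ∈ X, h x ≤ g x) : E n h ≤ E n g :=
  sum_le_sum fun a _ => sum_le_sum fun b _ => H _ (val_mem n a b)

lemma E_lin (n : ℕ) (c d : ℝ) (h g : ℝ → ℝ) :
    E n (fun x => c * h x + d * g x) = c * E n h + d * E n g := by
  simp only [E, sum_add_distrib, mul_sum]

lemma E_neg (n : ℕ) (h : ℝ → ℝ) : E n (fun x => h (-x)) = E n h := by
  unfold E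
  rw [sum_comm]
  refine sum_congr rfl fun a _ => sum_congr rfl fun b _ => ?_
  beta_reduce
  congr 1
  unfold val
  rw [← sum_neg_distrib]
  exact sum_congr rfl fun i _ => by ring

lemma L_loc (m : ℕ) {h g : ℝ → ℝ} : ∀ y, (∀ x, |x - φ ^ m * y| ≤ 2 * φ ^ m → h x ≤ g x) →
    L^[m] h y ≤ L^[m] g y := by
  induction m with
  | zero => intro y H; exact H y (by simp)
  | succ m ih =>
    intro y H
    rw [Function.iterate_succ_apply', Function.iterate_succ_apply']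
    have hp : 0 < φ ^ m := pow_pos goldenRatio_pos m
    have key : ∀ c : ℝ, |c| ≤ 1 → L^[m] h (φ * y + c) ≤ L^[m] g (φ * y + c) := by
      intro c hc
      refine ih _ fun x hx => H x ?_
      rw [abs_le] at hx hc ⊢
      rw [pow_succ]
      have := phi_lb
      constructor <;> nlinarith [hx.1, hx.2, hc.1, hc.2]
    have k1 := key (-1) (by simp)
    have k2 := key 0 (by simp)
    have k3 := key 1 (by simp)
    rw [← sub_eq_add_neg] at k1
    rw [add_zero] at k2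
    unfold L at k1 k2 k3 ⊢
    linarith

lemma L_const (m : ℕ) (c : ℝ) : L^[m] (fun _ => c) = fun _ => 4 ^ m * c := by
  induction m with
  | zero => simp
  | succ m ih =>
    rw [Function.iterate_succ_apply', ih]
    funext y; unfold L; ring

lemma L_cos (m : ℕ) : L^[m] (fun x => cos (2 * π * x)) =
    fun y => 4 ^ m * PP m * cos (2 * π * (φ ^ m * y)) := by
  induction m with
  | zero => funext y; simp [PP]
  | succ m ih =>
    rw [Function.iterate_succ_apply', ih]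
    funext y
    have e : PP (m + 1) = PP m * cos (π * φ ^ m) ^ 2 := prod_range_succ _ _
    unfold L
    beta_reduce
    rw [e, show 2 * π * (φ ^ m * (φ * y - 1)) = 2 * π * (φ ^ (m + 1) * y) - 2 * (π * φ ^ m) by ring,
      show 2 * π * (φ ^ m * (φ * y + 1)) = 2 * π * (φ ^ (m + 1) * y) + 2 * (π * φ ^ m) by ring,
      show 2 * π * (φ ^ m * (φ * y)) = 2 * π * (φ ^ (m + 1) * y) by ring, cos_sub, cos_add,
      cos_two_mul]
    ring

end Pool.Agent.H44.GS
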