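import Mathlib
import Pool.Agent.H44.GS1

open Finset Real Filter Topology
open scoped goldenRatio

namespace Pool.Agent.H44.GS

/-- weighted sum over the spectrum -/
noncomputable def T (μ h : ℝ → ℝ) : ℝ := ∑ᶠ x ∈ X, μ x * h x

/-- bounded support -/
def Bd (h : ℝ → ℝ) : Prop := ∃ R : ℝ, ∀ x, R < |x| → h x = 0

/-- cut-off -/
noncomputable def cut (R : ℝ) (g : ℝ → ℝ) (x : ℝ) : ℝ := if |x| ≤ R then g x else 0

lemma cut_bd (R : ℝ) (g : ℝ → ℝ) : Bd (cut R g) :=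
  ⟨R, fun _ hx => if_neg (not_le.2 hx)⟩

variable {lam : ℝ} {μ : ℝ → ℝ}

lemma E_tend (hμ : ∀ x ∈ X, Tendsto (fun n : ℕ => (N n x : ℝ) / lam ^ n) atTop (𝓝 (μ x)))
    {h : ℝ → ℝ} (hb : Bd h) : Tendsto (fun n : ℕ => E n h / lam ^ n) atTop (𝓝 (T μ h)) := by
  classical
  obtain ⟨R, hR⟩ := hb
  set F := (X_fin R).toFinset with hF
  have hmem : ∀ x, x ∈ F ↔ x ∈ X ∧ |x| ≤ R := fun x => by simp [hF]
  have e1 : T μ h = ∑ x ∈ F, μ x * h x := by
    unfold T
    refine finsum_mem_eq_sum_of_inter_support_eq _ ?_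
    ext x
    simp only [Set.mem_inter_iff, Function.mem_support, mem_coe, hmem]
    constructor
    · rintro ⟨h1, h2⟩
      refine ⟨⟨h1, not_lt.1 fun h3 => h2 ?_⟩, h2⟩
      rw [hR x h3, mul_zero]
    · rintro ⟨h1, h2⟩; exact ⟨h1.1, h2⟩
  have e2 : ∀ n, E n h / lam ^ n = ∑ x ∈ F, (N n x : ℝ) / lam ^ n * h x := by
    intro n
    have : E n h = ∑ x ∈ F, (N n x : ℝ) * h x := by
      unfold E N
      rw [← Fintype.sum_prod_type']
      simp_rw [card_filter, Nat.cast_sum, sum_mul]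
      rw [sum_comm]
      refine sum_congr rfl fun ab _ => ?_
      simp only [Nat.cast_ite, Nat.cast_one, Nat.cast_zero, ite_mul, one_mul, zero_mul]
      rw [sum_ite_eq]
      split_ifs with h1
      · rfl
      · exact hR _ (not_le.1 fun h2 => h1 ((hmem _).2 ⟨val_mem n _ _, h2⟩))
    rw [this, sum_div]
    exact sum_congr rfl fun x _ => by ring
  simp_rw [e2]
  rw [e1]
  exact tendsto_finsetSum _ fun x hx => (hμ x ((hmem x).1 hx).1).mul_const _

lemma E_shift (hl : 0 < lam)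
    (hμ : ∀ x ∈ X, Tendsto (fun n : ℕ => (N n x : ℝ) / lam ^ n) atTop (𝓝 (μ x)))
    {h : ℝ → ℝ} (hb : Bd h) (m : ℕ) :
    Tendsto (fun n : ℕ => E n (L^[m] h) / lam ^ n) atTop (𝓝 (lam ^ m * T μ h)) := by
  have := ((tendsto_add_atTop_iff_nat m).2 (E_tend hμ hb)).const_mul (lam ^ m)
  refine this.congr fun n => ?_
  rw [E_add, pow_add]
  field_simp

/-- mass of `[-R, R]` -/
noncomputable def V (μ : ℝ → ℝ) (R : ℝ) : ℝ := T μ (cut R fun _ => 1)

lemma V_up (hl : 0 < lam)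
    (hμ : ∀ x ∈ X, Tendsto (fun n : ℕ => (N n x : ℝ) / lam ^ n) atTop (𝓝 (μ x)))
    (m : ℕ) {R l : ℝ} (hR : R ≤ (l + 1) * φ ^ m) : lam ^ m * V μ R ≤ 4 ^ m * V μ (l + 3) := by
  have hp : 0 < φ ^ m := pow_pos goldenRatio_pos m
  refine le_of_tendsto_of_tendsto' (E_shift hl hμ (cut_bd R _) m)
    ((E_tend hμ (cut_bd (l + 3) fun _ => 1)).const_mul (4 ^ m)) fun n => ?_
  rw [← mul_div_assoc]
  refine div_le_div_of_nonneg_right ?_ (by positivity)
  have := E_lin n (4 ^ m) 0 (cut (l + 3) fun _ => 1) (fun _ => 0)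
  simp only [zero_mul, add_zero] at this
  rw [← this]
  refine E_mono n fun y _ => ?_
  by_cases hy : |y| ≤ l + 3
  · refine le_trans (L_loc m (g := fun _ => 1) y fun x _ => ?_) ?_
    · unfold cut; split_ifs <;> norm_num
    · rw [L_const]; simp [cut, hy]
  · refine le_trans (L_loc m (g := fun _ => 0) y fun x hx => ?_) ?_
    · unfold cut
      rw [if_neg]
      intro h
      have h1 := abs_sub_abs_le_abs_sub (φ ^ m * y) x
      rw [abs_sub_comm, abs_mul, abs_of_pos hp] at h1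
      have := not_le.1 hy
      nlinarith
    · rw [L_const]; simp [cut, hy]

lemma C_low (hl : 0 < lam)
    (hμ : ∀ x ∈ X, Tendsto (fun n : ℕ => (N n x : ℝ) / lam ^ n) atTop (𝓝 (μ x)))
    {m : ℕ} (hm : 7 ≤ m) {R l : ℝ} (hR1 : l * φ ^ m ≤ R) (hR : R ≤ (l + 1) * φ ^ m) :
    4 ^ m * ((PP 4 / 4 + 1) * V μ (l - 2) - V μ (l + 3)) ≤
      lam ^ m * T μ (cut R fun x => cos (2 * π * x)) := by
  have hp : 0 < φ ^ m := pow_pos goldenRatio_pos m
  have t1 := ((E_tend hμ (cut_bd (l - 2) fun _ => 1)).const_mul (4 ^ m * (PP 4 / 4 + 1))).add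
    ((E_tend hμ (cut_bd (l + 3) fun _ => 1)).const_mul (-4 ^ m))
  have e : 4 ^ m * ((PP 4 / 4 + 1) * V μ (l - 2) - V μ (l + 3)) =
      4 ^ m * (PP 4 / 4 + 1) * V μ (l - 2) + -4 ^ m * V μ (l + 3) := by ring
  rw [e]
  refine le_of_tendsto_of_tendsto' t1 (E_shift hl hμ (cut_bd R _) m) fun n => ?_
  rw [← mul_div_assoc, ← mul_div_assoc, ← add_div, ← E_lin]
  refine div_le_div_of_nonneg_right (E_mono n fun y hyX => ?_) (by positivity)
  have h4 : (0 : ℝ) < 4 ^ m := by positivity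
  by_cases hy : |y| ≤ l - 2
  · have hy' : |y| ≤ l + 3 := by linarith
    refine le_trans ?_ (L_loc m (h := fun x => cos (2 * π * x)) y fun x hx => ?_)
    · rw [L_cos]
      simp only [cut, hy, hy', if_true]
      have h1 := cos_ge hyX hm
      have h2 := PP_ge m (by omega)
      have h3 := PP_pos 4
      have h5 : (0 : ℝ) < 0.4 ^ m := by positivity
      have h6 : PP 4 / 2 ≤ PP m := by nlinarith
      have h7 : PP 4 / 2 * (1 / 2) ≤ PP m * cos (2 * π * (φ ^ m * y)) :=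
        mul_le_mul h6 h1 (by norm_num) (PP_pos m).le
      nlinarith
    · unfold cut
      rw [if_pos]
      have h1 := abs_sub_abs_le_abs_sub x (φ ^ m * y)
      rw [abs_mul, abs_of_pos hp] at h1
      nlinarith
  · by_cases hy' : |y| ≤ l + 3
    · refine le_trans ?_ (L_loc m (h := fun _ => -1) y fun x _ => ?_)
      · rw [L_const]; simp [cut, hy, hy']
      · unfold cut
        split_ifs
        · exact neg_one_le_cos _
        · norm_num
    · refine le_trans ?_ (L_loc m (h := fun _ => 0) y fun x hx => ?_)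
      · rw [L_const]; simp [cut, hy, hy']
      · unfold cut
        rw [if_neg]
        intro h
        have h1 := abs_sub_abs_le_abs_sub (φ ^ m * y) x
        rw [abs_sub_comm, abs_mul, abs_of_pos hp] at h1
        have := not_le.1 hy'
        nlinarith

lemma T_mono (hl : 0 < lam)
    (hμ : ∀ x ∈ X, Tendsto (fun n : ℕ => (N n x : ℝ) / lam ^ n) atTop (𝓝 (μ x)))
    {h g : ℝ → ℝ} (hh : Bd h) (hg : Bd g) (H : ∀ x, h x ≤ g x) : T μ h ≤ T μ g :=
  le_of_tendsto_of_tendsto' (E_tend hμ hh) (E_tend hμ hg) fun n =>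
    div_le_div_of_nonneg_right (E_mono n fun x _ => H x) (by positivity)

lemma T_sym (hl : 0 < lam)
    (hμ : ∀ x ∈ X, Tendsto (fun n : ℕ => (N n x : ℝ) / lam ^ n) atTop (𝓝 (μ x)))
    {h g : ℝ → ℝ} (hh : Bd h) (hg : Bd g) (H : ∀ x, h x ≤ g x + g (-x)) :
    T μ h ≤ 2 * T μ g := by
  refine le_of_tendsto_of_tendsto' (E_tend hμ hh) ((E_tend hμ hg).const_mul 2) fun n => ?_
  rw [← mul_div_assoc]
  refine div_le_div_of_nonneg_right ?_ (by positivity)
  have h1 := E_lin n 1 1 g (fun x => g (-x))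
  rw [E_neg] at h1
  have h2 := E_mono n (h := h) (g := fun x => 1 * g x + 1 * g (-x)) fun x _ => by
    have := H x; linarith
  linarith

lemma zero_mem : (0 : ℝ) ∈ X := ⟨0, fun _ => 0, fun i => Or.inr (Or.inl rfl), by simp [val]⟩

lemma V_zero : V μ 0 = μ 0 := by
  unfold V T
  rw [finsum_mem_eq_sum_of_inter_support_eq (t := {0})]
  · simp [cut]
  · ext x
    simp only [Set.mem_inter_iff, Function.mem_support, coe_singleton, Set.mem_singleton_iff]
    constructor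
    · rintro ⟨_, h2⟩
      refine ⟨by_contra fun h3 => h2 ?_, h2⟩
      simp [cut, h3]
    · rintro ⟨rfl, h2⟩; exact ⟨zero_mem, h2⟩

lemma V_mono (hl : 0 < lam)
    (hμ : ∀ x ∈ X, Tendsto (fun n : ℕ => (N n x : ℝ) / lam ^ n) atTop (𝓝 (μ x)))
    {R S : ℝ} (h : R ≤ S) : V μ R ≤ V μ S := by
  refine T_mono hl hμ (cut_bd _ _) (cut_bd _ _) fun x => ?_
  unfold cut
  split_ifs with h1 h2
  · exact le_rfl
  · exact absurd (le_trans h1 h) h2
  · norm_num
  · exact le_rfl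

lemma exists_l (hl : 0 < lam)
    (hμ : ∀ x ∈ X, Tendsto (fun n : ℕ => (N n x : ℝ) / lam ^ n) atTop (𝓝 (μ x)))
    (h0 : 0 < μ 0) {d : ℝ} (hd : 0 < d) :
    ∃ l : ℝ, 2 ≤ l ∧ V μ (l + 3) ≤ (1 + d) * V μ (l - 2) := by
  by_contra hcon
  have hcon : ∀ l : ℝ, 2 ≤ l → (1 + d) * V μ (l - 2) < V μ (l + 3) :=
    fun l hl2 => not_le.1 fun h => hcon ⟨l, hl2, h⟩
  have grow : ∀ k : ℕ, (1 + d) ^ k * μ 0 ≤ V μ (5 * k) := by
    intro k
    induction k with
    | zero => simp [V_zero]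
    | succ k ih =>
      have := hcon (5 * k + 2) (by have : (0 : ℝ) ≤ k := Nat.cast_nonneg k; linarith)
      rw [show (5 * k + 2 - 2 : ℝ) = 5 * k by ring,
        show (5 * k + 2 + 3 : ℝ) = 5 * ((k + 1 : ℕ) : ℝ) by push_cast; ring] at this
      rw [pow_succ]
      nlinarith
  obtain ⟨K, hK⟩ := ((tendsto_pow_atTop_atTop_of_one_lt (show 1 < 1 + d by linarith)).eventually
    (eventually_ge_atTop (8 / lam))).exists
  have ev1 : ∀ᶠ m : ℕ in atTop, (m : ℝ) ^ 1 / φ ^ m ≤ 3 / (5 * K + 1) :=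
    (tendsto_pow_const_div_const_pow_of_one_lt 1 one_lt_goldenRatio).eventually
      (eventually_le_nhds (by positivity))
  have ev2 : ∀ᶠ m : ℕ in atTop, V μ 5 / μ 0 < (2 : ℝ) ^ m :=
    (tendsto_pow_atTop_atTop_of_one_lt (show (1 : ℝ) < 2 by norm_num)).eventually
      (eventually_gt_atTop _)
  obtain ⟨m, h1, h2⟩ := (ev1.and ev2).exists
  have hp : 0 < φ ^ m := pow_pos goldenRatio_pos m
  rw [pow_one, div_le_div_iff₀ hp (by positivity)] at h1
  have h3 := V_up hl hμ m (R := 5 * ((K * m : ℕ) : ℝ)) (l := 2) (by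
    push_cast
    have : (0 : ℝ) ≤ m := Nat.cast_nonneg m
    nlinarith)
  have h4 := grow (K * m)
  rw [pow_mul] at h4
  have h5 : (8 / lam) ^ m ≤ ((1 + d) ^ K) ^ m := pow_le_pow_left₀ (by positivity) hK m
  have h6 : lam ^ m * (8 / lam) ^ m = 4 ^ m * 2 ^ m := by
    rw [← mul_pow, ← mul_pow]; congr 1; field_simp; norm_num
  rw [div_lt_iff₀ h0] at h2
  rw [show (2 : ℝ) + 3 = 5 by norm_num] at h3
  have hlm : 0 < lam ^ m := by positivity
  have h7 : lam ^ m * ((8 / lam) ^ m * μ 0) ≤ lam ^ m * V μ (5 * ((K * m : ℕ) : ℝ)) :=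
    mul_le_mul_of_nonneg_left (le_trans (mul_le_mul_of_nonneg_right h5 h0.le) h4) hlm.le
  rw [← mul_assoc, h6] at h7
  have h8 : (0 : ℝ) < 4 ^ m := by positivity
  nlinarith

/-- one-sided cut-off -/
noncomputable def hcut (R : ℝ) (g : ℝ → ℝ) : ℝ → ℝ := (Set.Icc 0 R).indicator g

lemma hcut_bd (R : ℝ) (g : ℝ → ℝ) : Bd (hcut R g) :=
  ⟨R, fun x hx => Set.indicator_of_notMem (fun h => by
    rw [abs_of_nonneg h.1] at hx; exact absurd h.2 (not_le.2 hx)) _⟩

lemma fin_eq (R : ℝ) (g : ℝ → ℝ) :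
    ∑ᶠ x ∈ X ∩ Set.Icc (0 : ℝ) R, μ x * g x = T μ (hcut R g) := by
  unfold T hcut
  rw [finsum_mem_def, finsum_mem_def]
  congr 1
  funext x
  by_cases h1 : x ∈ X <;> by_cases h2 : x ∈ Set.Icc (0 : ℝ) R <;> simp [h1, h2]

theorem main (hl : 0 < lam)
    (hμ : ∀ x ∈ X, Tendsto (fun n : ℕ => (N n x : ℝ) / lam ^ n) atTop (𝓝 (μ x)))
    (h0 : 0 < μ 0) :
    ∃ᶠ n : ℕ in atTop, PP 4 / 20 ≤ nuInt μ n (fun t => cos (2 * π * t)) := by
  have hP := PP_pos 4
  have hP1 := PP_le 4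
  obtain ⟨l, hl2, hV⟩ := exists_l hl hμ h0 (d := PP 4 / 8) (by positivity)
  rw [frequently_atTop]
  intro n0
  obtain ⟨m, hm7, hm⟩ := ((eventually_ge_atTop 7).and
    ((tendsto_pow_atTop_atTop_of_one_lt one_lt_goldenRatio).eventually
      (eventually_ge_atTop (n0 : ℝ)))).exists
  have hp1 : 1 ≤ φ ^ m := one_le_pow₀ one_lt_goldenRatio.le
  set n := ⌈l * φ ^ m⌉₊ with hn
  have n1 : l * φ ^ m ≤ n := Nat.le_ceil _
  have n2 : (n : ℝ) ≤ (l + 1) * φ ^ m := by
    have := Nat.ceil_lt_add_one (show 0 ≤ l * φ ^ m by positivity)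
    nlinarith
  refine ⟨n, ?_, ?_⟩
  · have : (n0 : ℝ) ≤ n := by nlinarith
    exact_mod_cast this
  have eW : W μ n = T μ (hcut n fun _ => 1) := by
    rw [← fin_eq]; unfold W; simp
  have eC : ∑ᶠ x ∈ X ∩ Set.Icc (0 : ℝ) n, μ x * cos (2 * π * Int.fract x) =
      T μ (hcut n fun x => cos (2 * π * x)) := by
    rw [← fin_eq]
    congr 1; funext x; congr 1; funext _; congr 1
    rw [Int.fract, mul_sub, mul_comm (2 * π) (⌊x⌋ : ℝ), cos_sub_int_mul_two_pi]
  have w1 : μ 0 ≤ W μ n := by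
    rw [eW, ← V_zero (μ := μ)]
    refine T_mono hl hμ (cut_bd _ _) (hcut_bd _ _) fun x => ?_
    unfold cut hcut
    split_ifs with h
    · rw [abs_nonpos_iff.1 h, Set.indicator_of_mem (by simp)]
    · exact Set.indicator_nonneg (fun _ _ => zero_le_one) _
  have w2 : W μ n ≤ V μ n := by
    rw [eW]
    refine T_mono hl hμ (hcut_bd _ _) (cut_bd _ _) fun x => ?_
    unfold cut hcut
    by_cases h : x ∈ Set.Icc (0 : ℝ) n
    · rw [Set.indicator_of_mem h, if_pos (by rw [abs_of_nonneg h.1]; exact h.2)]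
    · rw [Set.indicator_of_notMem h]; split_ifs <;> norm_num
  have c1 : T μ (cut n fun x => cos (2 * π * x)) ≤ 2 * T μ (hcut n fun x => cos (2 * π * x)) := by
    refine T_sym hl hμ (cut_bd _ _) (hcut_bd _ _) fun x => ?_
    unfold cut hcut
    rcases lt_trichotomy x 0 with h | h | h
    · rw [Set.indicator_of_notMem (fun h' => absurd h'.1 (not_le.2 h)), abs_of_neg h, zero_add]
      split_ifs with h2
      · rw [Set.indicator_of_mem (show -x ∈ Set.Icc (0 : ℝ) n from ⟨by linarith, h2⟩), mul_neg,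
          cos_neg]
      · rw [Set.indicator_of_notMem (fun h' => h2 h'.2)]
    · subst h; simp
    · rw [Set.indicator_of_notMem (a := -x) (fun h' => absurd h'.1 (by linarith)), abs_of_pos h,
        add_zero]
      split_ifs with h2
      · rw [Set.indicator_of_mem (show x ∈ Set.Icc (0 : ℝ) n from ⟨h.le, h2⟩)]
      · rw [Set.indicator_of_notMem (fun h' => h2 h'.2)]
  have u1 := V_up hl hμ m n2
  have u2 := C_low hl hμ hm7 n1 n2
  have v0 : 0 ≤ V μ (l - 2) := by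
    have := V_mono hl hμ (show (0 : ℝ) ≤ l - 2 by linarith)
    rw [V_zero] at this; linarith
  unfold nuInt
  rw [eC, inv_mul_eq_div, le_div_iff₀ (by linarith)]
  have hlm : 0 < lam ^ m := by positivity
  have h4 : (0 : ℝ) < 4 ^ m := by positivity
  have k1 : PP 4 / 10 * V μ (l + 3) ≤ (PP 4 / 4 + 1) * V μ (l - 2) - V μ (l + 3) := by
    have a1 : (1 + PP 4 / 10) * V μ (l + 3) ≤ (1 + PP 4 / 10) * ((1 + PP 4 / 8) * V μ (l - 2)) :=
      mul_le_mul_of_nonneg_left hV (by linarith)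
    have a2 : (1 + PP 4 / 10) * (1 + PP 4 / 8) ≤ PP 4 / 4 + 1 := by nlinarith
    have a3 := mul_le_mul_of_nonneg_right a2 v0
    nlinarith
  have k2 : lam ^ m * (PP 4 / 10 * V μ n) ≤ lam ^ m * T μ (cut n fun x => cos (2 * π * x)) := by
    have b1 := mul_le_mul_of_nonneg_left k1 h4.le
    have b2 := mul_le_mul_of_nonneg_left u1 (show 0 ≤ PP 4 / 10 by positivity)
    nlinarith
  have k3 := le_of_mul_le_mul_left k2 hlm
  have k4 := mul_le_mul_of_nonneg_left w2 (show 0 ≤ PP 4 / 10 by positivity)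
  linarith

end Pool.Agent.H44.GS
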