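import Mathlib
import Pool.Agent.H44.GS2

open Finset Real Filter Topology
open scoped goldenRatio

namespace Pool.Agent.H44.GS

lemma phi_ub : φ < (1.6185 : ℝ) := by unfold goldenRatio; linarith [sqrt5_ub]

lemma val_rep2 (n : ℕ) : ∀ c : Fin n → ℝ, (∀ i, c i = -1 ∨ c i = 0 ∨ c i = 1) →
    ∃ a b : ℤ, val n c = a + b * φ ∧ |(a : ℝ) + b * ψ| < 2 - ψ := by
  have hψ := psi_ub
  induction n with
  | zero => intro c _; exact ⟨0, 0, by simp [val], by simp; linarith⟩
  | succ n ih =>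
    intro c hc
    obtain ⟨a, b, e, h⟩ := ih (fun i => c i.castSucc) fun i => hc _
    obtain ⟨k, hk, hk1⟩ : ∃ k : ℤ, c (Fin.last n) = k ∧ |(k : ℝ)| ≤ 1 := by
      rcases hc (Fin.last n) with h | h | h
      · exact ⟨-1, by rw [h]; simp, by simp⟩
      · exact ⟨0, by rw [h]; simp, by simp⟩
      · exact ⟨1, by rw [h]; simp, by simp⟩
    refine ⟨b + k, a + b, ?_, ?_⟩
    · rw [val_succ, e, hk]; push_cast
      linear_combination (b : ℝ) * goldenRatio_sq
    · have : ((b + k : ℤ) : ℝ) + ((a + b : ℤ) : ℝ) * ψ = ψ * (a + b * ψ) + k := by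
        push_cast; linear_combination (-(b : ℝ)) * goldenConj_sq
      rw [this]
      refine lt_of_le_of_lt (abs_add_le _ _) ?_
      rw [abs_mul, abs_of_neg goldenConj_neg]
      have := mul_lt_mul_of_pos_left h (show 0 < -ψ by linarith)
      nlinarith [goldenConj_sq]

lemma small {x : ℝ} (hx : x ∈ X) (h2 : |x| < 2) :
    |x| = 0 ∨ |x| = 1 ∨ |x| = φ - 1 ∨ |x| = φ := by
  obtain ⟨n, c, hc, rfl⟩ := hx
  obtain ⟨a, b, e, h⟩ := val_rep2 n c hc
  rw [e] at h2 ⊢
  have p1 := phi_lb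
  have p2 := phi_ub
  have q1 := psi_lb
  have q2 := psi_ub
  rw [abs_lt] at h h2
  have hb1 : (b : ℝ) < 3 := by nlinarith [h.1, h2.2]
  have hb2 : (-3 : ℝ) < b := by nlinarith [h.2, h2.1]
  have hb1' : b < 3 := by exact_mod_cast hb1
  have hb2' : -3 < b := by exact_mod_cast hb2
  interval_cases b
  · exfalso
    push_cast at h h2
    have a1 : (1 : ℝ) < a := by linarith [h2.1]
    have a2 : (a : ℝ) < 2 := by linarith [h.2]
    have a1' : 1 < a := by exact_mod_cast a1
    have a2' : a < 2 := by exact_mod_cast a2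
    omega
  · push_cast at h h2 ⊢
    have a1 : (-1 : ℝ) < a := by linarith [h2.1]
    have a2 : (a : ℝ) < 2 := by linarith [h.2]
    have a1' : -1 < a := by exact_mod_cast a1
    have a2' : a < 2 := by exact_mod_cast a2
    interval_cases a
    · right; right; right; rw [abs_of_neg (by push_cast; linarith)]; push_cast; ring
    · right; right; left; rw [abs_of_neg (by push_cast; linarith)]; push_cast; ring
  · push_cast at h h2 ⊢
    have a1 : (-2 : ℝ) < a := by linarith [h2.1]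
    have a2 : (a : ℝ) < 2 := by linarith [h2.2]
    have a1' : -2 < a := by exact_mod_cast a1
    have a2' : a < 2 := by exact_mod_cast a2
    interval_cases a <;> simp
  · push_cast at h h2 ⊢
    have a1 : (-2 : ℝ) < a := by linarith [h.1]
    have a2 : (a : ℝ) < 1 := by linarith [h2.2]
    have a1' : -2 < a := by exact_mod_cast a1
    have a2' : a < 1 := by exact_mod_cast a2
    interval_cases a
    · right; right; left; rw [abs_of_pos (by push_cast; linarith)]; push_cast; ring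
    · right; right; right; rw [abs_of_pos (by push_cast; linarith)]; push_cast; ring
  · exfalso
    push_cast at h h2
    have a1 : (-2 : ℝ) < a := by linarith [h.1]
    have a2 : (a : ℝ) < -1 := by linarith [h2.2]
    have a1' : -2 < a := by exact_mod_cast a1
    have a2' : a < -1 := by exact_mod_cast a2
    omega

open Classical in
/-- real-valued count -/
noncomputable def Nr (n : ℕ) (x : ℝ) : ℝ := E n fun y => if y = x then 1 else 0

lemma N_eq (n : ℕ) (x : ℝ) : (N n x : ℝ) = Nr n x := by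
  unfold N Nr E
  rw [← Fintype.sum_prod_type', card_filter]
  push_cast
  rfl

lemma Nr_zero (x : ℝ) : Nr 0 x = if x = 0 then 1 else 0 := by
  simp [Nr, E, val, eq_comm]

lemma Nr_not {x : ℝ} (hx : x ∉ X) (n : ℕ) : Nr n x = 0 :=
  sum_eq_zero fun a _ => sum_eq_zero fun b _ => if_neg fun h => hx (by
    rw [← h]; exact val_mem n a b)

lemma Nr_neg (n : ℕ) (x : ℝ) : Nr n (-x) = Nr n x := by
  unfold Nr
  rw [← E_neg]
  congr 1; funext y; simp

lemma Nr_abs (n : ℕ) (x : ℝ) : Nr n |x| = Nr n x := by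
  rcases abs_choice x with h | h <;> rw [h]
  exact Nr_neg n x

lemma Nr_succ (n : ℕ) (x : ℝ) :
    Nr (n + 1) x = Nr n ((x + 1) / φ) + 2 * Nr n (x / φ) + Nr n ((x - 1) / φ) := by
  have hφ := goldenRatio_ne_zero
  unfold Nr
  rw [E_succ]
  unfold E L
  simp only [mul_sum, ← sum_add_distrib]
  refine sum_congr rfl fun a _ => sum_congr rfl fun b _ => ?_
  have e : ∀ y c : ℝ, (φ * y - c = x) ↔ (y = (x + c) / φ) := by
    intro y c; rw [eq_div_iff hφ]; constructor <;> intro h <;> linarith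
  have e0 := e (val n fun i => dg (a i) - dg (b i)) 0
  have e1 := e (val n fun i => dg (a i) - dg (b i)) (-1)
  rw [sub_zero, add_zero] at e0
  rw [sub_neg_eq_add, ← sub_eq_add_neg] at e1
  simp only [e, e0, e1]

lemma Nr_gap {x : ℝ} (n : ℕ) (h : (0 < |x| ∧ |x| < 0.6) ∨ (1 < |x| ∧ |x| < 1.6)) : Nr n x = 0 := by
  refine Nr_not (fun hx => ?_) n
  have p1 := phi_lb
  rcases h with h | h <;> rcases small hx (by linarith [h.2]) with g | g | g | g <;>
    linarith [h.1, h.2, phi_ub]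

lemma dv (x y : ℝ) (h : x = y * φ) : x / φ = y := by
  rw [h, mul_div_assoc, div_self goldenRatio_ne_zero, mul_one]

lemma recA (n : ℕ) : Nr (n + 1) 0 = 2 * Nr n 0 + 2 * Nr n (φ - 1) := by
  rw [Nr_succ, dv (0 + 1) (φ - 1) (by linarith [goldenRatio_sq]), zero_div,
    dv (0 - 1) (-(φ - 1)) (by linarith [goldenRatio_sq]), Nr_neg]
  ring

lemma recB (n : ℕ) : Nr (n + 1) 1 = Nr n 0 + 2 * Nr n (φ - 1) := by
  have p1 := phi_lb
  have p2 := phi_ub
  rw [Nr_succ, dv (1 + 1) (2 * φ - 2) (by linarith [goldenRatio_sq]),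
    dv 1 (φ - 1) (by linarith [goldenRatio_sq]), sub_self, zero_div,
    Nr_gap n (x := 2 * φ - 2) (Or.inr (by rw [abs_of_pos (by linarith)]; constructor <;> linarith))]
  ring

lemma recC (n : ℕ) : Nr (n + 1) (φ - 1) = Nr n 1 := by
  have p1 := phi_lb
  have p2 := phi_ub
  rw [Nr_succ, dv (φ - 1 + 1) 1 (by ring), dv (φ - 1) (2 - φ) (by linarith [goldenRatio_sq]),
    dv (φ - 1 - 1) (3 - 2 * φ) (by linarith [goldenRatio_sq]),
    Nr_gap n (x := 2 - φ) (Or.inl (by rw [abs_of_pos (by linarith)]; constructor <;> linarith)),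
    Nr_gap n (x := 3 - 2 * φ) (Or.inl (by rw [abs_of_neg (by linarith)]; constructor <;> linarith))]
  ring

lemma recD (n : ℕ) : Nr (n + 1) φ = Nr n φ + 2 * Nr n 1 := by
  have p1 := phi_lb
  have p2 := phi_ub
  rw [Nr_succ, dv (φ + 1) φ (by linarith [goldenRatio_sq]), dv φ 1 (by ring),
    dv (φ - 1) (2 - φ) (by linarith [goldenRatio_sq]),
    Nr_gap n (x := 2 - φ) (Or.inl (by rw [abs_of_pos (by linarith)]; constructor <;> linarith))]
  ring

/-- geometric asymptotics with an explicit error -/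
def Good (lam : ℝ) (u : ℕ → ℝ) (l : ℝ) : Prop := ∃ K : ℝ, ∀ n, |u n - l * lam ^ n| ≤ K * 1.3 ^ n

lemma Good.lin {lam : ℝ} {u v : ℕ → ℝ} {l m : ℝ} (hu : Good lam u l) (hv : Good lam v m)
    (c d : ℝ) : Good lam (fun n => c * u n + d * v n) (c * l + d * m) := by
  obtain ⟨K, hK⟩ := hu
  obtain ⟨M, hM⟩ := hv
  refine ⟨|c| * K + |d| * M, fun n => ?_⟩
  rw [show c * u n + d * v n - (c * l + d * m) * lam ^ n =
    c * (u n - l * lam ^ n) + d * (v n - m * lam ^ n) by ring]
  refine le_trans (abs_add_le _ _) ?_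
  rw [abs_mul, abs_mul, add_mul, mul_assoc, mul_assoc]
  exact add_le_add (mul_le_mul_of_nonneg_left (hK n) (abs_nonneg _))
    (mul_le_mul_of_nonneg_left (hM n) (abs_nonneg _))

lemma Good.shift {lam : ℝ} {u : ℕ → ℝ} {l : ℝ} (hu : Good lam u l) :
    Good lam (fun n => u (n + 1)) (l * lam) := by
  obtain ⟨K, hK⟩ := hu
  refine ⟨K * 1.3, fun n => ?_⟩
  have := hK (n + 1)
  rw [pow_succ', pow_succ', ← mul_assoc, ← mul_assoc] at this
  exact this

lemma Good.unshift {lam : ℝ} (hl : lam ≠ 0) {u : ℕ → ℝ} {l : ℝ}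
    (hu : Good lam (fun n => u (n + 1)) l) : Good lam u (l / lam) := by
  obtain ⟨K, hK⟩ := hu
  have hK0 : 0 ≤ K := by simpa using le_trans (abs_nonneg _) (hK 0)
  refine ⟨K + |u 0 - l / lam|, fun n => ?_⟩
  cases n with
  | zero => simp [hK0]
  | succ n =>
    have := hK n
    rw [show l / lam * lam ^ (n + 1) = l * lam ^ n by field_simp; ring, pow_succ]
    have h1 : (0 : ℝ) < 1.3 ^ n := by positivity
    have h2 := abs_nonneg (u 0 - l / lam)
    nlinarith

lemma Good.tend {lam : ℝ} (hl : 2 < lam) {u : ℕ → ℝ} {l : ℝ} (hu : Good lam u l) :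
    Tendsto (fun n => u n / lam ^ n) atTop (𝓝 l) := by
  obtain ⟨K, hK⟩ := hu
  have hl0 : 0 < lam := by linarith
  rw [tendsto_iff_norm_sub_tendsto_zero]
  have t := (tendsto_pow_atTop_nhds_zero_of_lt_one (r := 1.3 / lam) (by positivity)
    (by rw [div_lt_one hl0]; linarith)).const_mul K
  rw [mul_zero] at t
  refine squeeze_zero (fun _ => norm_nonneg _) (fun n => ?_) t
  have hp : 0 < lam ^ n := by positivity
  rw [Real.norm_eq_abs, show u n / lam ^ n - l = (u n - l * lam ^ n) / lam ^ n by field_simp,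
    abs_div, abs_of_pos hp, div_pow, ← mul_div_assoc]
  exact div_le_div_of_nonneg_right (hK n) hp.le

lemma exists_root : ∃ lam : ℝ, 2.48 ≤ lam ∧ lam ≤ 2.49 ∧ lam ^ 3 - 2 * lam ^ 2 - 2 * lam + 2 = 0 := by
  have := intermediate_value_Icc (show (2.48 : ℝ) ≤ 2.49 by norm_num)
    (f := fun t : ℝ => t ^ 3 - 2 * t ^ 2 - 2 * t + 2) (by fun_prop)
  obtain ⟨t, ht, e⟩ := this (show (0 : ℝ) ∈ _ from ⟨by norm_num, by norm_num⟩)
  exact ⟨t, ht.1, ht.2, e⟩

lemma goodA {lam : ℝ} (h1 : 2.48 ≤ lam) (h2 : lam ≤ 2.49)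
    (e : lam ^ 3 - 2 * lam ^ 2 - 2 * lam + 2 = 0) :
    ∃ l, 0 < l ∧ Good lam (fun n => Nr n 0) l := by
  have p1 := phi_lb
  have rec3 : ∀ n, Nr (n + 3) 0 = 2 * Nr (n + 2) 0 + 2 * Nr (n + 1) 0 - 2 * Nr n 0 := by
    intro n
    rw [recA (n + 2), recC (n + 1), recB n, recA n]; ring
  have a0 : Nr 0 0 = 1 := by simp [Nr_zero]
  have c0 : Nr 0 (φ - 1) = 0 := by rw [Nr_zero, if_neg (by linarith)]
  have b0 : Nr 0 1 = 0 := by simp [Nr_zero]
  have a1 : Nr 1 0 = 2 := by rw [recA 0, a0, c0]; ring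
  have a2 : Nr 2 0 = 4 := by rw [recA 1, recC 0, a1, b0]; ring
  have geo : ∀ n, Nr (n + 2) 0 - (2 - lam) * Nr (n + 1) 0 + (lam ^ 2 - 2 * lam - 2) * Nr n 0 =
      (lam ^ 2 - 2) * lam ^ n := by
    intro n
    induction n with
    | zero => rw [a0, a1, a2]; ring
    | succ n ih =>
      rw [rec3 n, pow_succ]
      linear_combination lam * ih - Nr n 0 * e
  have hD : 0 < 3 * lam ^ 2 - 4 * lam - 2 := by nlinarith
  set l := (lam ^ 2 - 2) / (3 * lam ^ 2 - 4 * lam - 2) with hl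
  have hl' : l * (3 * lam ^ 2 - 4 * lam - 2) = lam ^ 2 - 2 := div_mul_cancel₀ _ hD.ne'
  refine ⟨l, div_pos (by nlinarith) hD, |Nr 0 0 - l * lam ^ 0| + |Nr 1 0 - l * lam ^ 1|, ?_⟩
  set K := |Nr 0 0 - l * lam ^ 0| + |Nr 1 0 - l * lam ^ 1| with hK
  have k0 := abs_nonneg (Nr 0 0 - l * lam ^ 0)
  have k1 := abs_nonneg (Nr 1 0 - l * lam ^ 1)
  intro n
  induction n using Nat.twoStepInduction with
  | zero => rw [pow_zero (1.3 : ℝ)]; linarith
  | one => rw [pow_one (1.3 : ℝ)]; linarith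
  | more n i1 i2 =>
    have : Nr (n + 2) 0 - l * lam ^ (n + 2) = (2 - lam) * (Nr (n + 1) 0 - l * lam ^ (n + 1)) -
        (lam ^ 2 - 2 * lam - 2) * (Nr n 0 - l * lam ^ n) := by
      linear_combination geo n - lam ^ n * hl'
    rw [this]
    refine le_trans (abs_sub _ _) ?_
    rw [abs_mul, abs_mul]
    have s1 : |2 - lam| ≤ 0.49 := abs_le.2 ⟨by linarith, by linarith⟩
    have s2 : |lam ^ 2 - 2 * lam - 2| ≤ 0.82 := abs_le.2 ⟨by nlinarith, by nlinarith⟩
    have t1 := mul_le_mul s1 i2 (abs_nonneg _) (by norm_num)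
    have t2 := mul_le_mul s2 i1 (abs_nonneg _) (by norm_num)
    have : 0 ≤ K * 1.3 ^ n := by positivity
    beta_reduce at t1 t2
    rw [pow_succ (1.3 : ℝ)] at t1
    rw [pow_succ (1.3 : ℝ), pow_succ (1.3 : ℝ)]
    nlinarith

lemma goodD {lam : ℝ} (h1 : 2.48 ≤ lam) {b : ℝ} (hb : Good lam (fun n => Nr n 1) b) :
    Good lam (fun n => Nr n φ) (2 * b / (lam - 1)) := by
  obtain ⟨K, hK⟩ := hb
  have hK0 : 0 ≤ K := by simpa using le_trans (abs_nonneg _) (hK 0)
  have hl : lam - 1 ≠ 0 := by linarith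
  refine ⟨7 * K + |Nr 0 φ - 2 * b / (lam - 1) * lam ^ 0|, fun n => ?_⟩
  have k0 := abs_nonneg (Nr 0 φ - 2 * b / (lam - 1) * lam ^ 0)
  induction n with
  | zero => rw [pow_zero (1.3 : ℝ)]; linarith
  | succ n ih =>
    have : Nr (n + 1) φ - 2 * b / (lam - 1) * lam ^ (n + 1) =
        (Nr n φ - 2 * b / (lam - 1) * lam ^ n) + 2 * (Nr n 1 - b * lam ^ n) := by
      rw [recD]; field_simp; ring
    beta_reduce at ih ⊢
    rw [this]
    refine le_trans (abs_add_le _ _) ?_
    rw [abs_mul, abs_two, pow_succ]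
    have h2 := hK n
    have h3 : (0 : ℝ) < 1.3 ^ n := by positivity
    nlinarith

theorem exists_mu : ∃ (lam : ℝ) (μ : ℝ → ℝ), 0 < lam ∧
    (∀ x ∈ X, Tendsto (fun n : ℕ => (N n x : ℝ) / lam ^ n) atTop (𝓝 (μ x))) ∧ 0 < μ 0 := by
  obtain ⟨lam, h1, h2, e⟩ := exists_root
  obtain ⟨l, hl, gA⟩ := goodA h1 h2 e
  have gC : ∃ c, Good lam (fun n => Nr n (φ - 1)) c := by
    refine ⟨_, (by
      have := gA.shift.lin gA (1 / 2) (-1)
      rwa [show (fun n => 1 / 2 * Nr (n + 1) 0 + -1 * Nr n 0) = fun n => Nr n (φ - 1) from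
        funext fun n => by rw [recA]; ring] at this)⟩
  obtain ⟨c, gC⟩ := gC
  have gB : Good lam (fun n => Nr n 1) (c * lam) := by
    have := gC.shift
    simp only [recC] at this
    exact this
  have gD := goodD h1 gB
  have all : ∀ (k : ℕ) (x : ℝ), |x| < φ + φ ^ k * (2 - φ) → ∃ m, Good lam (fun n => Nr n x) m := by
    intro k
    induction k with
    | zero =>
      intro x hx
      by_cases hX : x ∈ X
      · simp_rw [← Nr_abs _ x]
        rcases small hX (by simpa using hx) with g | g | g | g <;> rw [g]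
        exacts [⟨_, gA⟩, ⟨_, gB⟩, ⟨_, gC⟩, ⟨_, gD⟩]
      · exact ⟨0, 0, fun n => by simp [Nr_not hX]⟩
    | succ k ih =>
      intro x hx
      have key : ∀ c : ℝ, |c| ≤ 1 → ∃ m, Good lam (fun n => Nr n ((x + c) / φ)) m := by
        intro c hc
        refine ih _ ?_
        rw [abs_div, abs_of_pos goldenRatio_pos, div_lt_iff₀ goldenRatio_pos]
        have := abs_add_le x c
        rw [pow_succ] at hx
        nlinarith [goldenRatio_sq]
      obtain ⟨m1, g1⟩ := key 1 (by simp)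
      obtain ⟨m2, g2⟩ := key 0 (by simp)
      obtain ⟨m3, g3⟩ := key (-1) (by simp)
      rw [add_zero] at g2
      rw [← sub_eq_add_neg] at g3
      have := (g1.lin g2 1 2).lin g3 1 1
      refine ⟨_, Good.unshift (by linarith) (u := fun n => Nr n x) (l := 1 * (1 * m1 + 2 * m2) + 1 * m3) ?_⟩
      simp only [Nr_succ]
      simpa only [one_mul] using this
  have all' : ∀ x : ℝ, ∃ m, Tendsto (fun n : ℕ => (N n x : ℝ) / lam ^ n) atTop (𝓝 m) := by
    intro x
    have h2φ : 0 < 2 - φ := by linarith [phi_ub]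
    obtain ⟨k, hk⟩ := ((tendsto_pow_atTop_atTop_of_one_lt one_lt_goldenRatio).eventually
      (eventually_ge_atTop (|x| / (2 - φ)))).exists
    rw [div_le_iff₀ h2φ] at hk
    obtain ⟨m, g⟩ := all k x (by linarith [goldenRatio_pos])
    exact ⟨m, by simp_rw [N_eq]; exact g.tend (by linarith)⟩
  choose μ hμ using all'
  refine ⟨lam, μ, by linarith, fun x _ => hμ x, ?_⟩
  have t := gA.tend (by linarith)
  simp_rw [← N_eq] at t
  rw [tendsto_nhds_unique (hμ 0) t]
  exact hl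

end Pool.Agent.H44.GS
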