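import Pool.Agent.H44.GWDefs

/-! Analytic part: the truncation argument. -/

open MeasureTheory Set Filter Topology

namespace Pool.Agent.H44.GW

variable {X : Type}

instance : DiscreteMeasurableSpace (X →₀ ℕ) := ⟨fun _ => trivial⟩

/-- vectors in the unit cube -/
def U (s : X → ℝ) : Prop := ∀ x, s x ∈ Icc (0 : ℝ) 1

theorem U.mul {s t : X → ℝ} (hs : U s) (ht : U t) : U (s * t) := fun x =>
  ⟨mul_nonneg (hs x).1 (ht x).1, mul_le_one₀ (hs x).2 (ht x).1 (ht x).2⟩

theorem U_one : U (1 : X → ℝ) := fun _ => by simp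

theorem U.pow {s : X → ℝ} (hs : U s) (k : ℕ) : U (s ^ k) := fun x =>
  ⟨pow_nonneg (hs x).1 _, pow_le_one₀ (hs x).1 (hs x).2⟩

theorem pw_nonneg {s : X → ℝ} (hs : U s) (f : X →₀ ℕ) : 0 ≤ pw s f :=
  Finset.prod_nonneg fun y _ => pow_nonneg (hs y).1 _

theorem pw_mono {s t : X → ℝ} (hs : U s) (h : s ≤ t) (f : X →₀ ℕ) : pw s f ≤ pw t f :=
  Finset.prod_le_prod (fun y _ => pow_nonneg (hs y).1 _) fun y _ =>
    pow_le_pow_left₀ (hs y).1 (h y) _

theorem pw_one (f : X →₀ ℕ) : pw 1 f = 1 := by simp [pw]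

theorem pw_le_one {s : X → ℝ} (hs : U s) (f : X →₀ ℕ) : pw s f ≤ 1 :=
  (pw_mono hs (fun y => (hs y).2) f).trans (pw_one f).le

theorem pw_mul (s t : X → ℝ) (f : X →₀ ℕ) : pw (s * t) f = pw s f * pw t f := by
  simp [pw, mul_pow, Finsupp.prod_mul]

theorem pw_pow (s : X → ℝ) (k : ℕ) (f : X →₀ ℕ) : pw (s ^ k) f = pw s f ^ k := by
  induction k with
  | zero => simp [pw_one]
  | succ k ih => rw [pow_succ, pw_mul, ih, pow_succ]

theorem pw_zero (s : X → ℝ) : pw s 0 = 1 := by simp [pw]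

theorem pw_add (s : X → ℝ) (f g : X →₀ ℕ) : pw s (f + g) = pw s f * pw s g :=
  Finsupp.prod_add_index' (fun _ => pow_zero _) fun _ _ _ => pow_add _ _ _

theorem pw_sum {ι : Type*} (s : X → ℝ) (F : Finset ι) (f : ι → X →₀ ℕ) :
    pw s (∑ i ∈ F, f i) = ∏ i ∈ F, pw s (f i) := by
  classical
  induction F using Finset.induction_on with
  | empty => simp [pw_zero]
  | insert i F hi ih => rw [Finset.sum_insert hi, Finset.prod_insert hi, pw_add, ih]

theorem pw_single (s : X → ℝ) (x : X) : pw s (Finsupp.single x 1) = s x := by simp [pw]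

theorem pw_le_apply {s : X → ℝ} (hs : U s) {f : X →₀ ℕ} {y : X} (hy : f y ≠ 0) : pw s f ≤ s y := by
  classical
  rw [pw, Finsupp.prod, ← Finset.mul_prod_erase _ _ (Finsupp.mem_support_iff.2 hy)]
  refine (mul_le_of_le_one_right (pow_nonneg (hs y).1 _) ?_).trans
    (pow_le_of_le_one (hs y).1 (hs y).2 hy)
  exact Finset.prod_le_one (fun y _ => pow_nonneg (hs y).1 _) fun y _ =>
    pow_le_one₀ (hs y).1 (hs y).2

theorem pw_congr {s t : X → ℝ} {f : X →₀ ℕ} (h : ∀ y, f y ≠ 0 → s y = t y) : pw s f = pw t f :=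
  Finset.prod_congr rfl fun y hy => by simp only [h y (Finsupp.mem_support_iff.1 hy)]

/-- increments are larger at larger points -/
def Sup (a b c d : ℝ) : Prop := 0 ≤ a ∧ a ≤ b ∧ a ≤ c ∧ b + c ≤ d + a

theorem Sup.mul {a b c d a' b' c' d' : ℝ} (h : Sup a b c d) (h' : Sup a' b' c' d') :
    Sup (a * a') (b * b') (c * c') (d * d') := by
  obtain ⟨h0, h1, h2, h3⟩ := h
  obtain ⟨h0', h1', h2', h3'⟩ := h'
  refine ⟨mul_nonneg h0 h0', mul_le_mul h1 h1' h0' (h0.trans h1),
    mul_le_mul h2 h2' h0' (h0.trans h2), ?_⟩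
  have h4 : (b + c - a) * (b' + c' - a') ≤ d * d' :=
    mul_le_mul (by linarith) (by linarith) (by linarith) (by linarith)
  nlinarith [mul_nonneg (sub_nonneg.2 h1) (sub_nonneg.2 h2'),
    mul_nonneg (sub_nonneg.2 h2) (sub_nonneg.2 h1')]

theorem Sup_one : Sup 1 1 1 1 := ⟨zero_le_one, le_rfl, le_rfl, le_rfl⟩

theorem Sup.pow {a b c d : ℝ} (h : Sup a b c d) (k : ℕ) : Sup (a ^ k) (b ^ k) (c ^ k) (d ^ k) := by
  induction k with
  | zero => simpa using Sup_one
  | succ k ih => simpa only [pow_succ] using ih.mul h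

theorem pw_sup {a b c d : X → ℝ} (h : ∀ y, Sup (a y) (b y) (c y) (d y)) (f : X →₀ ℕ) :
    Sup (pw a f) (pw b f) (pw c f) (pw d f) := by
  classical
  simp only [pw, Finsupp.prod]
  induction f.support using Finset.induction_on with
  | empty => simpa using Sup_one
  | insert i F hi ih => simpa only [Finset.prod_insert hi] using ((h i).pow _).mul ih

variable [Countable X] (μ : X → PMF (X →₀ ℕ))

theorem integrable_bdd {α : Type*} [MeasurableSpace α] {ν : Measure α} [IsFiniteMeasure ν]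
    {g : α → ℝ} (hg : Measurable g) (h0 : ∀ a, 0 ≤ g a) (h1 : ∀ a, g a ≤ 1) : Integrable g ν :=
  (integrable_const (1 : ℝ)).mono' hg.aestronglyMeasurable (ae_of_all _ fun a => by
    rw [Real.norm_eq_abs, abs_of_nonneg (h0 a)]
    exact h1 a)

omit [Countable X] in
theorem integrable_pw {s : X → ℝ} (hs : U s) (ν : Measure (X →₀ ℕ)) [IsFiniteMeasure ν] :
    Integrable (pw s) ν :=
  integrable_bdd measurable_from_top (pw_nonneg hs) (pw_le_one hs)

theorem G_eq {s : X → ℝ} (hs : U s) (x : X) : G μ s x = ∫ f, pw s f ∂(μ x).toMeasure := by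
  rw [PMF.integral_eq_tsum _ _ (integrable_pw hs _)]
  rfl

variable {μ}

theorem G_mono {s t : X → ℝ} (hs : U s) (ht : U t) (h : s ≤ t) : G μ s ≤ G μ t := fun x => by
  rw [G_eq μ hs, G_eq μ ht]
  exact integral_mono (integrable_pw hs _) (integrable_pw ht _) (pw_mono hs h)

theorem G_one : G μ 1 = 1 := funext fun x => by simp [G_eq μ U_one, pw_one]

theorem U.G {s : X → ℝ} (hs : U s) : U (G μ s) := fun x =>
  ⟨by rw [G_eq μ hs]; exact integral_nonneg (pw_nonneg hs),
    (G_mono hs U_one (fun y => (hs y).2) x).trans (by rw [G_one]; rfl)⟩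

theorem U.iter {s : X → ℝ} (hs : U s) (n : ℕ) : U ((GW.G μ)^[n] s) := by
  induction n with
  | zero => exact hs
  | succ n ih => rw [Function.iterate_succ_apply']; exact ih.G

theorem iter_mono {s t : X → ℝ} (hs : U s) (ht : U t) (h : s ≤ t) (n : ℕ) :
    (G μ)^[n] s ≤ (G μ)^[n] t := by
  induction n with
  | zero => exact h
  | succ n ih =>
    rw [Function.iterate_succ_apply', Function.iterate_succ_apply']
    exact G_mono (hs.iter n) (ht.iter n) ih

theorem G_sup {a b c d : X → ℝ} (ha : U a) (hb : U b) (hc : U c) (hd : U d)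
    (h : ∀ y, Sup (a y) (b y) (c y) (d y)) (x : X) :
    Sup (G μ a x) (G μ b x) (G μ c x) (G μ d x) := by
  refine ⟨(ha.G x).1, G_mono ha hb (fun y => (h y).2.1) x, G_mono ha hc (fun y => (h y).2.2.1) x, ?_⟩
  rw [G_eq μ ha, G_eq μ hb, G_eq μ hc, G_eq μ hd,
    ← integral_add (integrable_pw hb _) (integrable_pw hc _),
    ← integral_add (integrable_pw hd _) (integrable_pw ha _)]
  exact integral_mono ((integrable_pw hb _).add (integrable_pw hc _))
    ((integrable_pw hd _).add (integrable_pw ha _)) fun f => (pw_sup h f).2.2.2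

theorem G_tendsto {ι : Type*} {l : Filter ι} [l.IsCountablyGenerated] {s : ι → X → ℝ} {t : X → ℝ}
    (hs : ∀ i, U (s i)) (ht : U t) (h : ∀ y, Tendsto (fun i => s i y) l (𝓝 (t y))) (x : X) :
    Tendsto (fun i => G μ (s i) x) l (𝓝 (G μ t x)) := by
  simp only [G_eq μ (hs _), G_eq μ ht]
  refine tendsto_integral_filter_of_dominated_convergence (fun _ => 1)
    (Eventually.of_forall fun i => (integrable_pw (hs i) _).aestronglyMeasurable)
    (Eventually.of_forall fun i => ae_of_all _ fun f => ?_) (integrable_const _)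
    (ae_of_all _ fun f => ?_)
  · rw [Real.norm_eq_abs, abs_of_nonneg (pw_nonneg (hs i) f)]
    exact pw_le_one (hs i) f
  · exact tendsto_finsetProd _ fun y _ => (h y).pow _

theorem iter_tendsto {s : ℕ → X → ℝ} {t : X → ℝ}
    (hs : ∀ i, U (s i)) (ht : U t) (h : ∀ y, Tendsto (fun i => s i y) atTop (𝓝 (t y))) (n : ℕ)
    (x : X) : Tendsto (fun i => (G μ)^[n] (s i) x) atTop (𝓝 ((G μ)^[n] t x)) := by
  induction n generalizing x with
  | zero => exact h x
  | succ n ih =>
    simp only [Function.iterate_succ_apply']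
    exact G_tendsto (fun i => (hs i).iter n) (ht.iter n) ih x

theorem G_pow {s : X → ℝ} (hs : U s) (k : ℕ) (x : X) : G μ s x ^ k ≤ G μ (s ^ k) x := by
  rw [G_eq μ hs, G_eq μ (hs.pow k)]
  have h := (convexOn_pow (𝕜 := ℝ) k).map_integral_le (μ := (μ x).toMeasure) (f := pw s)
    (by fun_prop) isClosed_Ici (ae_of_all _ (pw_nonneg hs)) (integrable_pw hs _) (by
      have := integrable_pw (hs.pow k) (μ x).toMeasure
      exact this.congr (ae_of_all _ (pw_pow s k)))
  simpa only [pw_pow] using h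

open Classical in
/-- indicator of the complement -/
noncomputable def off (K : Set X) : X → ℝ := fun y => if y ∈ K then 0 else 1

omit [Countable X] in
theorem U_off (K : Set X) : U (off K) := fun y => by
  unfold off
  split_ifs <;> simp

open Classical in
/-- truncated iteration -/
noncomputable def tr (μ : X → PMF (X →₀ ℕ)) (K : Set X) (θ : X → ℝ) : ℕ → X → ℝ
  | 0 => off K * θ
  | n + 1 => fun y => if y ∈ K then G μ (tr μ K θ n) y else θ y

theorem U.tr {θ : X → ℝ} (h : U θ) (K : Set X) (n : ℕ) : U (tr μ K θ n) := by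
  induction n with
  | zero => exact (U_off K).mul h
  | succ n ih =>
    intro y
    simp only [GW.tr]
    split_ifs
    · exact ih.G y
    · exact h y

omit [Countable X] in
theorem tr_off {θ : X → ℝ} {K : Set X} (n : ℕ) {y : X} (hy : y ∉ K) : tr μ K θ n y = θ y := by
  cases n <;> simp [tr, off, hy]

omit [Countable X] in
theorem tr_in {θ : X → ℝ} {K : Set X} (n : ℕ) {y : X} (hy : y ∈ K) :
    tr μ K θ (n + 1) y = G μ (tr μ K θ n) y := by simp [tr, hy]

theorem tr_le {θ h : X → ℝ} (hθ : U θ) (hh : U h) (hG : G μ h ≤ h) (hle : θ ≤ h) (K : Set X)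
    (n : ℕ) : tr μ K θ n ≤ h := by
  induction n with
  | zero => exact fun y => (mul_le_of_le_one_left (hθ y).1 (U_off K y).2).trans (hle y)
  | succ n ih =>
    intro y
    simp only [GW.tr]
    split_ifs
    · exact (G_mono (hθ.tr K n) hh ih y).trans (hG y)
    · exact hle y

theorem tr_sup {θ h : X → ℝ} (hθ : U θ) (hh : U h) (hle : θ ≤ h) (K : Set X) (n : ℕ) (y : X) :
    tr μ K θ n y ≤ tr μ K h n y ∧
      Sup (tr μ K θ n y) (tr μ K θ (n + 1) y) (tr μ K h n y) (tr μ K h (n + 1) y) := by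
  induction n generalizing y with
  | zero =>
    have h1 := G_mono (μ := μ) (hθ.tr (μ := μ) K 0) (hh.tr (μ := μ) K 0) (fun y =>
      mul_le_mul_of_nonneg_left (hle y) (U_off K y).1) y
    have h2 := ((hθ.tr (μ := μ) K 0).G (μ := μ) y).1
    by_cases hy : y ∈ K
    · simp only [tr, off, Pi.mul_apply, hy, if_true, zero_mul, Sup] at h1 h2 ⊢
      refine ⟨le_rfl, le_rfl, h2, le_rfl, by linarith⟩
    · simp only [tr_off _ hy]
      exact ⟨hle y, (hθ y).1, le_rfl, hle y, by linarith⟩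
  | succ n ih =>
    by_cases hy : y ∈ K
    · have h1 := G_sup (μ := μ) (hθ.tr K n) (hθ.tr K (n + 1)) (hh.tr K n) (hh.tr K (n + 1))
        (fun y => (ih y).2) y
      have h2 := G_mono (μ := μ) (hθ.tr K n) (hh.tr K n) (fun y => (ih y).1) y
      simp only [tr_in _ hy]
      exact ⟨h2, h1⟩
    · simp only [tr_off _ hy]
      exact ⟨hle y, (hθ y).1, le_rfl, hle y, by linarith⟩

theorem iter_le_tr {h : X → ℝ} (hh : U h) (hG : G μ h ≤ h) (K : Set X) (n : ℕ) :
    (G μ)^[n] (off K * h) ≤ tr μ K h n := by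
  have hU := (U_off K).mul hh
  induction n with
  | zero => exact le_rfl
  | succ n ih =>
    intro y
    rw [Function.iterate_succ_apply']
    simp only [tr]
    split_ifs
    · exact G_mono (hU.iter n) (hh.tr K n) ih y
    · exact (G_mono (hU.iter n) hh (ih.trans (tr_le hh hh hG le_rfl K n)) y).trans (hG y)

theorem tr_continuous {θ : unitInterval → X → ℝ} (hθ : ∀ l, U (θ l))
    (hc : ∀ y, Continuous fun l => θ l y) (K : Set X) (n : ℕ) (y : X) :
    Continuous fun l => tr μ K (θ l) n y := by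
  induction n generalizing y with
  | zero => exact continuous_const.mul (hc y)
  | succ n ih =>
    simp only [tr]
    split_ifs
    · exact continuous_iff_continuousAt.2 fun l =>
        G_tendsto (fun l => (hθ l).tr K n) ((hθ l).tr K n) (fun y => (ih y).tendsto l) y
    · exact hc y

theorem exhaust (A : Set X) : ∃ K : ℕ → Set X, (∀ j, (K j).Finite ∧ K j ⊆ A) ∧ Monotone K ∧
    ∀ y ∈ A, ∃ j, y ∈ K j := by
  obtain ⟨e, he⟩ := exists_injective_nat X
  refine ⟨fun j => A ∩ e ⁻¹' Iio j, fun j => ⟨?_, inter_subset_left⟩, fun i j hij y hy =>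
    ⟨hy.1, lt_of_lt_of_le hy.2 hij⟩, fun y hy => ⟨e y + 1, hy, Nat.lt_succ_self _⟩⟩
  exact ((finite_Iio j).preimage he.injOn).subset inter_subset_right

/-- the truncation argument -/
theorem core {lo hi : X → ℝ} (hlo : U lo) (hhi : U hi) (hle : lo ≤ hi) (Glo : G μ lo ≤ lo)
    (Ghi : G μ hi ≤ hi) (A : Set X) (hA : ∀ y ∉ A, lo y = hi y)
    (hC : ∀ s, U s → (∀ y ∉ A, s y = hi y) → ∀ y ∉ A, G μ s y = hi y) (x : X) {c : ℝ}
    (hc : lo x ≤ c) (hK : ∀ K ⊆ A, K.Finite → ∃ n, c ≤ (G μ)^[n] (off K * hi) x) :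
    ∃ s ∈ Fix μ, s ≤ hi ∧ s x = c := by
  let θ : unitInterval → X → ℝ := fun l y => lo y + l * (hi y - lo y)
  have hθ1 : ∀ l, θ l ≤ hi := fun l y => by
    have := hle y
    have := l.2.2
    simp only [θ]
    nlinarith
  have hθ : ∀ l, U (θ l) := fun l y =>
    ⟨add_nonneg (hlo y).1 (mul_nonneg l.2.1 (sub_nonneg.2 (hle y))), (hθ1 l y).trans (hhi y).2⟩
  have step : ∀ K ⊆ A, K.Finite → ∀ ε > 0, ∃ s, U s ∧ s ≤ hi ∧ s x = c ∧ (∀ y ∉ A, s y = hi y) ∧
      ∀ y ∈ K, |G μ s y - s y| ≤ ε := by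
    intro K hKA hKf ε hε
    obtain ⟨n0, hn0⟩ := hK K hKA hKf
    have hmono : ∀ y, Monotone fun n => tr μ K hi n y := fun y =>
      monotone_nat_of_le_succ fun n => (tr_sup hhi hhi le_rfl K n y).2.2.1
    have hev : ∀ y, ∀ᶠ n in atTop, tr μ K hi (n + 1) y - tr μ K hi n y ≤ ε := fun y => by
      have h1 := tendsto_atTop_ciSup (hmono y) ⟨1, by
        rintro _ ⟨n, rfl⟩
        exact (hhi.tr K n y).2⟩
      have h2 := ((tendsto_add_atTop_iff_nat 1).2 h1).sub h1
      rw [sub_self] at h2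
      exact h2.eventually (eventually_le_nhds hε)
    obtain ⟨n, hn1, hn2⟩ := ((eventually_ge_atTop n0).and
      ((eventually_all_finite hKf).2 fun y _ => hev y)).exists
    have hcont := tr_continuous (μ := μ) hθ (fun y => by simp only [θ]; fun_prop) K n x
    have e0 : θ 0 = lo := funext fun y => by simp [θ]
    have e1 : θ 1 = hi := funext fun y => by simp [θ]
    obtain ⟨l, hl⟩ := intermediate_value_univ (0 : unitInterval) (1 : unitInterval) hcont
      (show c ∈ Icc _ _ from ⟨by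
      rw [e0]
      exact (tr_le hlo hlo Glo le_rfl K n x).trans hc, by
      rw [e1]
      exact (hn0.trans (iter_le_tr hhi Ghi K n0 x)).trans (hmono x hn1)⟩)
    refine ⟨tr μ K (θ l) n, (hθ l).tr K n, tr_le (hθ l) hhi Ghi (hθ1 l) K n, hl, fun y hy => ?_,
      fun y hy => ?_⟩
    · rw [tr_off _ fun h => hy (hKA h)]
      simp [θ, hA y hy]
    · obtain ⟨-, -, h2, -, h3⟩ := tr_sup (μ := μ) (hθ l) hhi (hθ1 l) K n y
      have h4 : tr μ K (θ l) (n + 1) y = G μ (tr μ K (θ l) n) y := by simp [tr, hy]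
      have h5 := hn2 y hy
      rw [← h4, abs_of_nonneg (sub_nonneg.2 h2)]
      linarith
  obtain ⟨K, hK1, hK2, hK3⟩ := exhaust A
  choose s hs using fun j : ℕ => step (K j) (hK1 j).2 (hK1 j).1 (1 / ((j : ℝ) + 1)) (by positivity)
  obtain ⟨t, ht, φ, hφ, hlim⟩ := (isCompact_univ_pi fun _ : X => isCompact_Icc (a := (0 : ℝ))
    (b := 1)).tendsto_subseq (x := s) fun j y _ => (hs j).1 y
  have hU : U t := fun y => ht y trivial
  have hl : ∀ y, Tendsto (fun j => s (φ j) y) atTop (𝓝 (t y)) := tendsto_pi_nhds.1 hlim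
  have hoff : ∀ y ∉ A, t y = hi y := fun y hy =>
    tendsto_nhds_unique (hl y) (tendsto_const_nhds.congr fun j => ((hs _).2.2.2.1 y hy).symm)
  refine ⟨t, ⟨hU, funext fun y => ?_⟩, fun y => le_of_tendsto' (hl y) fun j => (hs _).2.1 y,
    tendsto_nhds_unique (hl x) (tendsto_const_nhds.congr fun j => (hs _).2.2.1.symm)⟩
  by_cases hy : y ∈ A
  · obtain ⟨j0, hj0⟩ := hK3 y hy
    have h1 := ((G_tendsto (μ := μ) (fun j => (hs (φ j)).1) hU hl y).sub (hl y)).abs
    have h2 := tendsto_one_div_add_atTop_nhds_zero_nat (𝕜 := ℝ) |>.comp hφ.tendsto_atTop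
    have h3 : |G μ t y - t y| ≤ 0 := by
      refine le_of_tendsto_of_tendsto h1 h2 ?_
      filter_upwards [eventually_ge_atTop j0] with j hj
      exact (hs _).2.2.2.2 y (hK2 (hj.trans (hφ.id_le j)) hj0)
    exact sub_eq_zero.1 (abs_nonpos_iff.1 h3)
  · rw [hC t hU hoff y hy, hoff y hy]

end Pool.Agent.H44.GW
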