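import Pool.Agent.H44.GW1
import Pool.Agent.H44.Drive

/-! Probabilistic part: the branching property. -/

open MeasureTheory ProbabilityTheory Set Filter Topology

namespace Pool.Agent.H44.GW

variable {X : Type} [Countable X] {μ : X → PMF (X →₀ ℕ)}

/-- one generation -/
noncomputable def step (z : X →₀ ℕ) (ξ : X × ℕ → X →₀ ℕ) : X →₀ ℕ :=
  z.sum fun y k => ∑ i ∈ Finset.range k, ξ (y, i)

theorem measurable_step : Measurable fun p : (X →₀ ℕ) × (X × ℕ → X →₀ ℕ) => step p.1 p.2 :=
  measurable_from_prod_countable_right fun z => by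
    simp only [step, Finsupp.sum]
    exact Finset.measurable_sum _ fun _ _ => Finset.measurable_sum _ fun _ _ =>
      measurable_pi_apply _

omit [Countable X] in
theorem measurable_pw (t : X → ℝ) : Measurable (pw t) := measurable_from_top

open Classical in
/-- indicator of a proposition -/
noncomputable def chi (p : Prop) : ℝ := if p then 1 else 0

theorem chi_and (p q : Prop) : chi (p ∧ q) = chi p * chi q := by
  unfold chi
  split_ifs <;> simp_all

theorem measurable_Z (x : X) (n : ℕ) : Measurable (Z x n) := by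
  induction n with
  | zero => exact measurable_const
  | succ n ih => exact measurable_step.comp (ih.prodMk (measurable_pi_apply n))

omit [Countable X] in
theorem Z_congr (x : X) (n : ℕ) {u v : ℕ → X × ℕ → X →₀ ℕ} (h : ∀ i < n, u i = v i) :
    Z x n u = Z x n v := by
  induction n with
  | zero => rfl
  | succ n ih =>
    simp only [Z]
    rw [ih fun i hi => h i (by omega), h n (by omega)]

instance : IsProbabilityMeasure (P μ) := by unfold P; infer_instance

theorem integral_step {t : X → ℝ} (ht : U t) (z : X →₀ ℕ) :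
    ∫ ξ, pw t (step z ξ) ∂(Measure.infinitePi fun i : X × ℕ => (μ i.1).toMeasure) =
      pw (G μ t) z := by
  classical
  let F : Finset (X × ℕ) := z.support.biUnion fun y => (Finset.range (z y)).image (Prod.mk y)
  have hF : ∀ p : X × ℕ, p ∈ F ↔ p.1 ∈ z.support ∧ p.2 ∈ Finset.range (z p.1) := by
    rintro ⟨y, i⟩
    simp only [F, Finset.mem_biUnion, Finset.mem_image, Prod.mk.injEq]
    constructor
    · rintro ⟨y', h1, i', h2, rfl, rfl⟩
      exact ⟨h1, h2⟩
    · rintro ⟨h1, h2⟩
      exact ⟨y, h1, i, h2, rfl, rfl⟩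
  have e1 : ∀ ξ, pw t (step z ξ) = ∏ p : F, pw t (ξ p) := fun ξ => by
    rw [Finset.prod_coe_sort F fun p => pw t (ξ p), step, Finsupp.sum, pw_sum,
      Finset.prod_finset_product' F z.support (fun y => Finset.range (z y)) hF
        (f := fun y i => pw t (ξ (y, i)))]
    simp only [pw_sum]
  have hi := (iIndepFun_infinitePi (P := fun i : X × ℕ => (μ i.1).toMeasure)
    (X := fun _ f => pw t f) (fun _ => measurable_from_top)).precomp
    (g := (Subtype.val : F → X × ℕ)) Subtype.val_injective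
  simp only [e1]
  rw [hi.integral_fun_prod_eq_prod_integral fun i =>
    ((measurable_pw t).comp (measurable_pi_apply _)).aestronglyMeasurable]
  have e2 : ∀ p : X × ℕ, ∫ ξ, pw t (ξ p) ∂(Measure.infinitePi fun i : X × ℕ => (μ i.1).toMeasure) =
      G μ t p.1 := fun p => by
    rw [G_eq μ ht, ← Measure.infinitePi_map_eval (fun i : X × ℕ => (μ i.1).toMeasure) p,
      integral_map (measurable_pi_apply p).aemeasurable measurable_from_top.aestronglyMeasurable]
  simp only [e2]
  rw [Finset.prod_coe_sort F fun p => G μ t p.1,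
    Finset.prod_finset_product' F z.support (fun y => Finset.range (z y)) hF
      (f := fun y _ => G μ t y)]
  simp [pw, Finsupp.prod]

/-- a functional of the first `n` generations and the operator it induces -/
structure Good (μ : X → PMF (X →₀ ℕ)) (x : X) (n : ℕ) (Φ : (ℕ → X × ℕ → X →₀ ℕ) → ℝ)
    (op : (X → ℝ) → X → ℝ) : Prop where
  meas : Measurable Φ
  nonneg : ∀ ω, 0 ≤ Φ ω
  le_one : ∀ ω, Φ ω ≤ 1
  past : ∀ u v, (∀ i < n, u i = v i) → Φ u = Φ v
  eq : ∀ t, U t → ∫ ω, Φ ω * pw t (Z x n ω) ∂P μ = op t x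

omit [Countable X] in
theorem Good.zero (x : X) : Good μ x 0 (fun _ => 1) id :=
  ⟨measurable_const, fun _ => zero_le_one, fun _ => le_rfl, fun _ _ _ => rfl, fun t _ => by
    simp [Z, pw_single]⟩

theorem measurable_pwZ (b : X → ℝ) (x : X) (n : ℕ) : Measurable fun ω => pw b (Z x n ω) :=
  (measurable_pw b).comp (measurable_Z x n)

theorem Good.mul {x n Φ op} (h : Good μ x n Φ op) {b : X → ℝ} (hb : U b) :
    Good μ x n (fun ω => Φ ω * pw b (Z x n ω)) (fun t => op (b * t)) :=
  ⟨h.meas.mul (measurable_pwZ b x n), fun ω => mul_nonneg (h.nonneg ω) (pw_nonneg hb _),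
    fun ω => mul_le_one₀ (h.le_one ω) (pw_nonneg hb _) (pw_le_one hb _),
    fun u v huv => by rw [h.past u v huv, Z_congr x n huv], fun t ht => by
      simp only [← h.eq _ (hb.mul ht), pw_mul, mul_assoc]⟩

theorem Good.succ {x n Φ op} (h : Good μ x n Φ op) :
    Good μ x (n + 1) Φ (fun t => op (G μ t)) := by
  refine ⟨h.meas, h.nonneg, h.le_one, fun u v huv => h.past u v fun i hi => huv i (by omega),
    fun t ht => ?_⟩
  rw [← h.eq _ ht.G]
  set ν := Measure.infinitePi fun i : X × ℕ => (μ i.1).toMeasure with hν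
  have hF : Measurable fun ω => (Φ ω, Z x n ω) := h.meas.prodMk (measurable_Z x n)
  have hi := Drive.indep_past (μ := P μ) (ξ := fun i ω => ω i)
    (iIndepFun_infinitePi (P := fun _ : ℕ => ν) (X := fun _ a => a) fun _ => measurable_id)
    (fun i => measurable_pi_apply i) 0 n hF fun u v huv => by
      rw [h.past u v huv, Z_congr x n huv]
  have e := hi.map_prod_eq_prod_map_map hF.aemeasurable (measurable_pi_apply n).aemeasurable
  have e2 : (P μ).map (fun ω => ω n) = ν := Measure.infinitePi_map_eval (fun _ : ℕ => ν) n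
  let H : (ℝ × (X →₀ ℕ)) × (X × ℕ → X →₀ ℕ) → ℝ := fun p => p.1.1 * pw t (step p.1.2 p.2)
  have hH : Measurable H := measurable_fst.fst.mul
    ((measurable_pw t).comp (measurable_step.comp (measurable_fst.snd.prodMk measurable_snd)))
  have hM := hF.prodMk (measurable_pi_apply n)
  have hint : Integrable H ((P μ).map fun ω => ((Φ ω, Z x n ω), ω n)) :=
    (integrable_map_measure hH.aestronglyMeasurable hM.aemeasurable).2 (integrable_bdd (hH.comp hM)
      (fun ω => mul_nonneg (h.nonneg ω) (pw_nonneg ht _))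
      fun ω => mul_le_one₀ (h.le_one ω) (pw_nonneg ht _) (pw_le_one ht _))
  have hP : IsProbabilityMeasure ((P μ).map fun ω => (Φ ω, Z x n ω)) :=
    Measure.isProbabilityMeasure_map hF.aemeasurable
  calc ∫ ω, Φ ω * pw t (Z x (n + 1) ω) ∂P μ
      = ∫ p, H p ∂((P μ).map fun ω => ((Φ ω, Z x n ω), ω n)) := by
        rw [integral_map hM.aemeasurable hH.aestronglyMeasurable]
        rfl
    _ = ∫ p, p.1 * pw (G μ t) p.2 ∂((P μ).map fun ω => (Φ ω, Z x n ω)) := by
        rw [e, e2] at hint ⊢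
        rw [integral_prod _ hint]
        simp only [H, integral_const_mul, hν, integral_step ht]
    _ = _ := by
        rw [integral_map hF.aemeasurable]
        exact (measurable_fst.mul ((measurable_pw _).comp measurable_snd)).aestronglyMeasurable

theorem Good.iter {x n Φ op} (h : Good μ x n Φ op) (m : ℕ) :
    Good μ x (n + m) Φ (fun t => op ((G μ)^[m] t)) := by
  induction m with
  | zero => exact h
  | succ m ih => exact ih.succ

theorem integral_Z {t : X → ℝ} (ht : U t) (x : X) (n : ℕ) :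
    ∫ ω, pw t (Z x n ω) ∂P μ = (G μ)^[n] t x := by
  simpa using ((Good.zero (μ := μ) x).iter n).eq t ht

omit [Countable X] in
theorem pw_off (L : Set X) (z : X →₀ ℕ) : pw (off L) z = chi (∀ y ∈ L, z y = 0) := by
  unfold chi
  split_ifs with h
  · rw [← pw_one z]
    exact pw_congr fun y hy => by simp [off, show y ∉ L from fun hL => hy (h y hL)]
  · push Not at h
    obtain ⟨y, hy, hz⟩ := h
    exact le_antisymm ((pw_le_apply (U_off L) hz).trans (by simp [off, hy])) (pw_nonneg (U_off L) z)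

theorem Good.avoid {x n Φ op} (h : Good μ x n Φ op) (L : Set X) (m : ℕ) :
    Good μ x (n + m) (fun ω => Φ ω * chi (∀ k < m, ∀ y ∈ L, Z x (n + k) ω y = 0))
      (fun t => op ((fun s => off L * G μ s)^[m] t)) := by
  induction m with
  | zero => simpa [chi] using h
  | succ m ih =>
    have := (ih.mul (U_off L)).succ
    simp only [pw_off, mul_assoc, ← chi_and] at this
    simp only [Nat.forall_lt_succ_right]
    exact this

/-- the branching property for a family of events -/
structure Rep (μ : X → PMF (X →₀ ℕ)) (D : ℕ → (ℕ → X →₀ ℕ) → Prop) : Prop where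
  meas : ∀ n x, MeasurableSet {ω | D n fun k => Z x k ω}
  eq : ∀ n b, U b → ∀ x, ∫ ω, pw b (Z x n ω) * chi (D n fun k => Z x k ω) ∂P μ =
    (G μ)^[n] (b * fun y => (P μ).real {ω | D 0 fun k => Z y k ω}) x

theorem integral_ite {α : Type*} [MeasurableSpace α] (ν : Measure α) {p : α → Prop}
    (hp : MeasurableSet {a | p a}) : ∫ a, chi (p a) ∂ν = ν.real {a | p a} := by
  rw [← integral_indicator_one hp]
  rfl

omit [Countable X] in
theorem U_prob (E : X → Set (ℕ → X × ℕ → X →₀ ℕ)) : U fun y => (P μ).real (E y) := fun _ =>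
  ⟨measureReal_nonneg, measureReal_le_one⟩

theorem meas_zero (x : X) (k : ℕ) (L : Set X) :
    Measurable fun ω => ∀ y ∈ L, Z x k ω y = 0 :=
  (measurable_from_top (f := fun z : X →₀ ℕ => ∀ y ∈ L, z y = 0)).comp (measurable_Z x k)

theorem rep_base (L : Set X) (a m : ℕ) :
    Rep μ fun n p => ∀ k < m, ∀ y ∈ L, p (n + a + k) y = 0 := by
  have hm : ∀ n x, MeasurableSet {ω | ∀ k < m, ∀ y ∈ L, Z x (n + a + k) ω y = 0} := fun n x =>
    (Measurable.forall fun k => measurable_const.imp (meas_zero x _ L)).setOf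
  have key : ∀ n b, U b → ∀ x, ∫ ω, pw b (Z x n ω) *
      chi (∀ k < m, ∀ y ∈ L, Z x (n + a + k) ω y = 0) ∂P μ =
      (G μ)^[n] (b * (G μ)^[a] ((fun s => off L * G μ s)^[m] 1)) x := fun n b hb x => by
    have := ((((((Good.zero (μ := μ) x).iter n).mul hb).iter a).avoid L m).eq 1 U_one)
    simpa [pw_one] using this
  refine ⟨hm, fun n b hb x => ?_⟩
  rw [key n b hb x]
  refine congrArg (fun v => (G μ)^[n] (b * v) x) (funext fun y => ?_)
  have := key 0 1 U_one y
  simp only [pw_one, one_mul, Function.iterate_zero, id] at this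
  rw [← this, ← integral_ite _ (hm 0 y)]

theorem tendsto_ite {α : Type*} [MeasurableSpace α] (ν : Measure α) [IsFiniteMeasure ν]
    {g : α → ℝ} (hg : Measurable g) (h0 : ∀ a, 0 ≤ g a) (h1 : ∀ a, g a ≤ 1)
    {p : ℕ → α → Prop} {q : α → Prop} (hp : ∀ j, MeasurableSet {a | p j a})
    (h : ∀ a, ∀ᶠ j in atTop, p j a ↔ q a) :
    Tendsto (fun j => ∫ a, g a * chi (p j a) ∂ν) atTop
      (𝓝 (∫ a, g a * chi (q a) ∂ν)) := by
  refine tendsto_integral_of_dominated_convergence (fun _ => 1)
    (fun j => (hg.mul (Measurable.ite (hp j) measurable_const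
      measurable_const)).aestronglyMeasurable) (integrable_const _)
    (fun j => ae_of_all _ fun a => ?_) (ae_of_all _ fun a => ?_)
  · unfold chi
    split_ifs
    · simpa [abs_of_nonneg (h0 a)] using h1 a
    · simp
  · refine tendsto_const_nhds.congr' ?_
    filter_upwards [h a] with j hj
    simp only [hj]

theorem meas_lim {α : Type*} [MeasurableSpace α] {p : ℕ → α → Prop} {q : α → Prop}
    (hp : ∀ j, MeasurableSet {a | p j a}) (h : ∀ a, ∀ᶠ j in atTop, p j a ↔ q a) :
    MeasurableSet {a | q a} := by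
  have e : {a | q a} = ⋃ N, ⋂ j, ⋂ (_ : N ≤ j), {a | p j a} := by
    ext a
    simp only [mem_ofPred_eq, mem_iUnion, mem_iInter]
    obtain ⟨N, hN⟩ := eventually_atTop.1 (h a)
    exact ⟨fun hq => ⟨N, fun j hj => (hN j hj).2 hq⟩, fun ⟨M, hM⟩ =>
      (hN (max N M) (le_max_left _ _)).1 (hM _ (le_max_right _ _))⟩
  rw [e]
  exact MeasurableSet.iUnion fun N => MeasurableSet.iInter fun j => MeasurableSet.iInter fun _ => hp j

theorem tendsto_real {α : Type*} [MeasurableSpace α] (ν : Measure α) [IsFiniteMeasure ν]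
    {p : ℕ → α → Prop} {q : α → Prop} (hp : ∀ j, MeasurableSet {a | p j a})
    (h : ∀ a, ∀ᶠ j in atTop, p j a ↔ q a) :
    Tendsto (fun j => ν.real {a | p j a}) atTop (𝓝 (ν.real {a | q a})) := by
  have := tendsto_ite ν (g := fun _ => 1) measurable_const (fun _ => zero_le_one)
    (fun _ => le_rfl) hp h
  simpa only [one_mul, integral_ite ν (hp _), integral_ite ν (meas_lim hp h)] using this

theorem Rep.lim {D : ℕ → ℕ → (ℕ → X →₀ ℕ) → Prop} {E : ℕ → (ℕ → X →₀ ℕ) → Prop}
    (hD : ∀ j, Rep μ (D j)) (h : ∀ n p, ∀ᶠ j in atTop, D j n p ↔ E n p) : Rep μ E := by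
  refine ⟨fun n x => meas_lim (fun j => (hD j).meas n x) fun ω => h n _, fun n b hb x => ?_⟩
  have h1 := tendsto_ite (P μ) (measurable_pwZ b x n) (fun ω => pw_nonneg hb _)
    (fun ω => pw_le_one hb _) (fun j => (hD j).meas n x) fun ω => h n fun k => Z x k ω
  simp only [(hD _).eq n b hb x] at h1
  refine tendsto_nhds_unique h1 (iter_tendsto (fun j => hb.mul (U_prob _)) (hb.mul (U_prob _))
    (fun y => tendsto_const_nhds.mul ?_) n x)
  exact tendsto_real (P μ) (fun j => (hD j).meas 0 y) fun ω => h 0 _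

theorem ev_anti {p : ℕ → Prop} (h : ∀ i j, i ≤ j → p j → p i) : ∀ᶠ j in atTop, p j ↔ ∀ i, p i := by
  by_cases hp : ∀ i, p i
  · exact Eventually.of_forall fun j => ⟨fun _ => hp, fun _ => hp j⟩
  · obtain ⟨i, hi⟩ := not_forall.1 hp
    filter_upwards [eventually_ge_atTop i] with j hj
    exact ⟨fun hj' => absurd (h i j hj hj') hi, fun h' => h' j⟩

theorem ev_mono {p : ℕ → Prop} (h : ∀ i j, i ≤ j → p i → p j) : ∀ᶠ j in atTop, p j ↔ ∃ i, p i := by
  by_cases hp : ∃ i, p i
  · obtain ⟨i, hi⟩ := hp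
    filter_upwards [eventually_ge_atTop i] with j hj
    exact ⟨fun _ => ⟨i, hi⟩, fun _ => h i j hj hi⟩
  · exact Eventually.of_forall fun j => ⟨fun h => ⟨j, h⟩, fun h => absurd h hp⟩

theorem rep_ext (L : Set X) : Rep μ fun _ p => ∃ N, ∀ k ≥ N, ∀ y ∈ L, p k y = 0 := by
  have h1 : ∀ a, Rep μ fun n p => ∀ m, ∀ k < m, ∀ y ∈ L, p (n + a + k) y = 0 := fun a =>
    Rep.lim (rep_base L a) fun n p => ev_anti fun i j hij h k hk => h k (by omega)
  refine Rep.lim h1 fun n p => ?_
  have h2 := ev_mono (p := fun a => ∀ m, ∀ k < m, ∀ y ∈ L, p (n + a + k) y = 0)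
    fun i j hij h m k _ y hy => by
      have := h (j - i + k + 1) (j - i + k) (by omega) y hy
      rwa [show n + i + (j - i + k) = n + j + k by omega] at this
  filter_upwards [h2] with j hj
  rw [hj]
  constructor
  · rintro ⟨a, ha⟩
    refine ⟨n + a, fun k hk y hy => ?_⟩
    have := ha (k - (n + a) + 1) (k - (n + a)) (by omega) y hy
    rwa [show n + a + (k - (n + a)) = k by omega] at this
  · rintro ⟨N, hN⟩
    exact ⟨N, fun m k _ y hy => hN _ (by omega) y hy⟩

omit [Countable X] in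
theorem ev_zero {p : ℕ → X →₀ ℕ} (h : ∀ y, {n | p n y ≠ 0}.Finite) {K : Set X} (hK : K.Finite) :
    ∃ N, ∀ k ≥ N, ∀ y ∈ K, p k y = 0 := by
  refine eventually_atTop.1 ((eventually_all_finite hK).2 fun y _ => ?_)
  rw [← Nat.cofinite_eq_atTop]
  exact h y

theorem rep_loc : Rep μ fun _ p => ∀ y, {n | p n y ≠ 0}.Finite := by
  obtain ⟨K, hK1, hK2, hK3⟩ := exhaust (univ : Set X)
  refine Rep.lim (fun j => rep_ext (K j)) fun _ p => ?_
  have h2 := ev_anti (p := fun j => ∃ N, ∀ k ≥ N, ∀ y ∈ K j, p k y = 0)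
    fun i j hij ⟨N, hN⟩ => ⟨N, fun k hk y hy => hN k hk y (hK2 hij hy)⟩
  filter_upwards [h2] with j hj
  rw [hj]
  refine ⟨fun h y => ?_, fun h i => ev_zero h (hK1 i).1⟩
  obtain ⟨i, hi⟩ := hK3 y trivial
  obtain ⟨N, hN⟩ := h i
  exact (finite_Iio N).subset fun k hk => not_le.1 fun h' => hk (hN k h' y hi)

omit [Countable X] in
theorem Rep.fix {E : (ℕ → X →₀ ℕ) → Prop} (h : Rep μ fun _ => E) :
    (fun y => (P μ).real {ω | E fun k => Z y k ω}) ∈ Fix μ := by
  refine ⟨U_prob _, funext fun x => ?_⟩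
  have := h.eq 1 1 U_one x
  simp only [pw_one, one_mul, Function.iterate_one] at this
  rw [← this, integral_ite _ (h.meas 0 x)]

theorem Rep.tendsto {E : (ℕ → X →₀ ℕ) → Prop} (h : Rep μ fun _ => E) (K : Set X)
    (hK : ∀ p, E p → ∃ N, ∀ k ≥ N, ∀ y ∈ K, p k y = 0) (x : X) :
    Tendsto (fun n => (G μ)^[n] (off K * fun y => (P μ).real {ω | E fun k => Z y k ω}) x) atTop
      (𝓝 ((P μ).real {ω | E fun k => Z x k ω})) := by
  have hm : ∀ n, MeasurableSet {ω | (∀ y ∈ K, Z x n ω y = 0) ∧ E fun k => Z x k ω} := fun n =>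
    (meas_zero x n K).setOf.inter (h.meas 0 x)
  refine (tendsto_real (P μ) hm fun ω => ?_).congr fun n => ?_
  · by_cases hE : E fun k => Z x k ω
    · obtain ⟨N, hN⟩ := hK _ hE
      filter_upwards [eventually_ge_atTop N] with n hn
      exact ⟨fun h => h.2, fun h => ⟨hN n hn, h⟩⟩
    · simp [hE]
  · rw [← h.eq n _ (U_off K) x, ← integral_ite _ (hm n)]
    congr 1
    funext ω
    rw [pw_off, chi_and]

theorem qExt_fix (A : Set X) : qExt μ A ∈ Fix μ := (rep_ext A).fix

theorem qLoc_fix : qLoc μ ∈ Fix μ := rep_loc.fix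

theorem qExt_le {s : X → ℝ} (hs : s ∈ Fix μ) {A : Set X} (hA : ∀ y ∉ A, s y = 1) :
    qExt μ A ≤ s := fun x => by
  refine le_of_tendsto' ((rep_ext A).tendsto A (fun _ h => h) x) fun n => ?_
  refine (iter_mono ((U_off A).mul (U_prob _)) hs.1 (fun y => ?_) n x).trans
    (by rw [Function.iterate_fixed hs.2])
  by_cases hy : y ∈ A
  · simpa [off, hy] using (hs.1 y).1
  · rw [hA y hy]
    exact ((U_off A).mul (U_prob _) y).2

theorem between (x : X) {c : ℝ} (h1 : qExt μ univ x ≤ c) (h2 : c < qLoc μ x) :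
    ∃ s ∈ Fix μ, qExt μ univ ≤ s ∧ s ≤ qLoc μ ∧ s x = c := by
  obtain ⟨s, hs, h3, h4⟩ := core (μ := μ) (qExt_fix univ).1 qLoc_fix.1
    (qExt_le qLoc_fix (by simp)) (qExt_fix univ).2.le qLoc_fix.2.le univ (by simp) (by simp) x h1
    fun K _ hK => ((rep_loc.tendsto K (fun p h => ev_zero h hK) x).eventually
      (eventually_ge_nhds h2)).exists
  exact ⟨s, hs, qExt_le hs (by simp), h3, h4⟩

end Pool.Agent.H44.GW
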