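import Pool.Agent.H44.GW2

/-! Finite sets of fixed points consist of extinction probabilities. -/

open MeasureTheory ProbabilityTheory Set Filter Topology

namespace Pool.Agent.H44.GW

variable {X : Type} [Countable X] {μ : X → PMF (X →₀ ℕ)}

theorem closed {s : X → ℝ} (hs : s ∈ Fix μ) {t : X → ℝ} (ht : U t)
    (h : ∀ y, s y = 1 → t y = 1) {y : X} (hy : s y = 1) : G μ t y = 1 := by
  have h1 : ∫ f, (1 - pw s f) ∂(μ y).toMeasure = 0 := by
    rw [integral_sub (integrable_const _) (integrable_pw hs.1 _), ← G_eq μ hs.1, hs.2, hy]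
    simp
  rw [integral_eq_zero_iff_of_nonneg (fun f => sub_nonneg.2 (pw_le_one hs.1 f))
    ((integrable_const _).sub (integrable_pw hs.1 _))] at h1
  rw [G_eq μ ht, integral_congr_ae (g := fun _ => 1)]
  · simp
  · filter_upwards [h1] with f hf
    rw [← pw_one f]
    refine pw_congr fun z hz => h z (le_antisymm (hs.1 z).2 ?_)
    have h2 := pw_le_apply hs.1 hz
    have h3 : 1 - pw s f = 0 := hf
    linarith

theorem qExt_one {s : X → ℝ} (hs : s ∈ Fix μ) {y : X} (hy : s y = 1) :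
    qExt μ {z | s z ≠ 1} y = 1 := by
  set A := {z | s z ≠ 1} with hA
  have h1 : ∀ k z, s z = 1 → (G μ)^[k] (off A) z = 1 := fun k => by
    induction k with
    | zero => exact fun z hz => by simp [off, hA, hz]
    | succ k ih =>
      intro z hz
      rw [Function.iterate_succ_apply']
      exact closed hs ((U_off A).iter k) ih hz
  have h2 : ∀ᵐ ω ∂P μ, ∀ k, ∀ z ∈ A, Z y k ω z = 0 := ae_all_iff.2 fun k => by
    have h3 := integral_Z (μ := μ) (U_off A) y k
    simp only [pw_off] at h3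
    rw [h1 k y hy, integral_ite _ (meas_zero y k A).setOf] at h3
    refine (mem_ae_iff_prob_eq_one (meas_zero y k A).setOf).2 ?_
    rwa [measureReal_def, ENNReal.toReal_eq_one_iff] at h3
  rw [qExt, measureReal_def, ENNReal.toReal_eq_one_iff,
    ← mem_ae_iff_prob_eq_one ((rep_ext (μ := μ) A).meas 0 y)]
  filter_upwards [h2] with ω hω
  exact ⟨0, fun k _ => hω k⟩

theorem pigeon (hf : (Fix μ).Finite) {s : X → ℝ} (hs : s ∈ Fix μ) (x : X) : ∃ k,
    Tendsto (fun n => (G μ)^[n] (s ^ k) x - (G μ)^[n] (s ^ (k + 1)) x) atTop (𝓝 0) := by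
  have hU : U s := hs.1
  have hmono : ∀ k y, Monotone fun n => (G μ)^[n] (s ^ k) y := fun k y =>
    monotone_nat_of_le_succ fun n => by
      refine iter_mono (hU.pow k) (hU.pow k).G (fun z => ?_) n y
      have := G_pow (μ := μ) hU k z
      rwa [hs.2] at this
  let u : ℕ → X → ℝ := fun k y => ⨆ n, (G μ)^[n] (s ^ k) y
  have hl : ∀ k y, Tendsto (fun n => (G μ)^[n] (s ^ k) y) atTop (𝓝 (u k y)) := fun k y =>
    tendsto_atTop_ciSup (hmono k y) ⟨1, by
      rintro _ ⟨n, rfl⟩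
      exact ((hU.pow k).iter n y).2⟩
  have hu : ∀ k, U (u k) := fun k y =>
    isClosed_Icc.mem_of_tendsto (hl k y) (Eventually.of_forall fun n => (hU.pow k).iter n y)
  have hfix : ∀ k, u k ∈ Fix μ := fun k => ⟨hu k, funext fun y => by
    refine tendsto_nhds_unique (G_tendsto (fun n => (hU.pow k).iter n) (hu k) (hl k) y) ?_
    simp only [← Function.iterate_succ_apply' (G μ)]
    exact (tendsto_add_atTop_iff_nat 1).2 (hl k y)⟩
  have hanti : Antitone fun k => u k x := antitone_nat_of_succ_le fun k =>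
    le_of_tendsto_of_tendsto' (hl _ x) (hl _ x) fun n =>
      iter_mono (hU.pow _) (hU.pow _) (fun z => pow_le_pow_of_le_one (hU z).1 (hU z).2
        (Nat.le_succ k)) n x
  obtain ⟨i, j, hij, he⟩ := hf.exists_lt_map_eq_of_forall_mem hfix
  have h1 : u i x - u (i + 1) x = 0 := by
    have h2 := hanti (Nat.le_succ i)
    have h3 := hanti (show i + 1 ≤ j from hij)
    simp only [← he] at h2 h3
    linarith
  exact ⟨i, h1 ▸ (hl i x).sub (hl (i + 1) x)⟩

theorem point {M ε η : ℝ} (k : ℕ) (h0 : 0 ≤ M) (hε : 0 < ε) (hη : 0 < η) (h1 : M ≤ 1 - ε) :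
    M ≤ η + (η ^ k * ε)⁻¹ * (M ^ k - M ^ (k + 1)) := by
  have h2 : M ^ k - M ^ (k + 1) = M ^ k * (1 - M) := by ring
  have h3 : 0 < η ^ k * ε := by positivity
  rw [h2]
  rcases le_total M η with h | h
  · have : 0 ≤ (η ^ k * ε)⁻¹ * (M ^ k * (1 - M)) :=
      mul_nonneg (inv_nonneg.2 h3.le) (mul_nonneg (pow_nonneg h0 _) (by linarith))
    linarith
  · have : 1 ≤ (η ^ k * ε)⁻¹ * (M ^ k * (1 - M)) := by
      rw [← div_eq_inv_mul, le_div_iff₀ h3, one_mul]
      exact mul_le_mul (pow_le_pow_left₀ hη.le h k) (by linarith) hε.le (pow_nonneg h0 _)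
    linarith

theorem approx {s : X → ℝ} (hs : s ∈ Fix μ) (x : X)
    (hf : ∃ k, Tendsto (fun n => (G μ)^[n] (s ^ k) x - (G μ)^[n] (s ^ (k + 1)) x) atTop (𝓝 0))
    {c : ℝ} (hc : c < s x) {K : Set X} (hK : K ⊆ {z | s z ≠ 1}) (hKf : K.Finite) :
    ∃ n, c ≤ (G μ)^[n] (off K * s) x := by
  have hU : U s := hs.1
  obtain ⟨k, hk⟩ := hf
  obtain ⟨ε, hε, hε'⟩ : ∃ ε > 0, ∀ y ∈ K, s y ≤ 1 - ε := by
    have : ∀ᶠ ε in 𝓝[>] (0 : ℝ), ∀ y ∈ K, s y ≤ 1 - ε :=
      (eventually_all_finite hKf).2 fun y hy => by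
        have h1 : 0 < 1 - s y := sub_pos.2 (lt_of_le_of_ne (hU y).2 (hK hy))
        filter_upwards [Ioo_mem_nhdsGT h1] with e he
        linarith [he.2]
    obtain ⟨e, h1, h2⟩ := (this.and self_mem_nhdsWithin).exists
    exact ⟨e, h2, h1⟩
  set η := (s x - c) / 2 with hη
  have hη0 : 0 < η := by linarith
  set C := (η ^ k * ε)⁻¹ with hC
  have hpt : ∀ z, pw s z ≤ pw (off K * s) z + (η + C * (pw (s ^ k) z - pw (s ^ (k + 1)) z)) := by
    intro z
    rw [pw_mul, pw_off, pw_pow, pw_pow]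
    have h0 := pw_nonneg hU z
    have h1 := pw_le_one hU z
    by_cases h : ∀ y ∈ K, z y = 0
    · have : 0 ≤ C * (pw s z ^ k - pw s z ^ (k + 1)) := mul_nonneg (by positivity)
        (sub_nonneg.2 (pow_le_pow_of_le_one h0 h1 (Nat.le_succ k)))
      rw [chi, if_pos h]
      linarith
    · rw [chi, if_neg h, zero_mul, zero_add]
      push Not at h
      obtain ⟨y, hy, hz⟩ := h
      exact point k h0 hε hη0 ((pw_le_apply hU hz).trans (hε' y hy))
  have h2 := hk.const_mul C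
  rw [mul_zero] at h2
  obtain ⟨n, hn⟩ := (h2.eventually (eventually_le_nhds hη0)).exists
  refine ⟨n, ?_⟩
  have hi : ∀ t, U t → Integrable (fun ω => pw t (Z x n ω)) (P μ) := fun t ht =>
    integrable_bdd (measurable_pwZ t x n) (fun _ => pw_nonneg ht _) fun _ => pw_le_one ht _
  have hU' := (U_off K).mul hU
  have i1 : Integrable (fun ω => pw (s ^ k) (Z x n ω) - pw (s ^ (k + 1)) (Z x n ω)) (P μ) :=
    (hi _ (hU.pow k)).sub (hi _ (hU.pow (k + 1)))
  have i2 : Integrable (fun ω => η + C * (pw (s ^ k) (Z x n ω) - pw (s ^ (k + 1)) (Z x n ω)))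
      (P μ) := (integrable_const η).add (i1.const_mul C)
  have h3 := integral_mono (hi s hU) ((hi _ hU').add i2) fun ω => hpt _
  simp only [Pi.add_apply] at h3
  rw [integral_add (hi _ hU') i2, integral_add (integrable_const η) (i1.const_mul C),
    integral_const_mul, integral_sub (hi _ (hU.pow k)) (hi _ (hU.pow (k + 1))), integral_Z hU,
    integral_Z hU', integral_Z (hU.pow _), integral_Z (hU.pow _), Function.iterate_fixed hs.2] at h3
  simp only [integral_const, probReal_univ, smul_eq_mul, one_mul] at h3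
  linarith

/-- no coordinate projection of the set of fixed points contains an interval -/
def Thin (μ : X → PMF (X →₀ ℕ)) : Prop :=
  ∀ (x : X) (a b : ℝ), a < b → ¬Ico a b ⊆ (fun t => t x) '' Fix μ

theorem eq_qExt' (hf : Thin μ) {s : X → ℝ} (hs : s ∈ Fix μ)
    (hk : ∀ x, ∃ k,
      Tendsto (fun n => (G μ)^[n] (s ^ k) x - (G μ)^[n] (s ^ (k + 1)) x) atTop (𝓝 0)) :
    s = qExt μ {z | s z ≠ 1} := by
  have h1 : ∀ y ∉ {z | s z ≠ 1}, s y = 1 := fun y hy => not_not.1 hy
  have hle := qExt_le hs h1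
  refine le_antisymm (fun x => not_lt.1 fun hx => ?_) hle
  refine hf x _ _ hx fun c hc => ?_
  obtain ⟨t, ht, -, h2⟩ := core (μ := μ) (qExt_fix _).1 hs.1 hle (qExt_fix _).2.le hs.2.le _
    (fun y hy => by rw [qExt_one hs (h1 y hy), h1 y hy])
    (fun t ht h y hy => by
      rw [h1 y hy]
      exact closed hs ht (fun z hz => by rw [h z (not_not.2 hz), hz]) (h1 y hy)) x hc.1
    fun K hK hKf => approx hs x (hk x) hc.2 hK hKf
  exact ⟨t, ht, h2⟩

theorem eq_qExt (hf : (Fix μ).Finite) {s : X → ℝ} (hs : s ∈ Fix μ) :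
    s = qExt μ {z | s z ≠ 1} :=
  eq_qExt' (fun _ _ _ h h' => Ico_infinite h ((hf.image _).subset h')) hs (pigeon hf hs)

end Pool.Agent.H44.GW
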