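import Pool.Agent.H44.GWDefs

/-! Irreducibility and automorphisms of branching random walks. -/

open scoped ENNReal

namespace Pool.Agent.H44.GW

variable {X : Type}

/-- the mean number `m_{xy}` of children at `y` of a particle at `x` -/
noncomputable def mean (μ : X → PMF (X →₀ ℕ)) (x y : X) : ℝ≥0∞ := ∑' f, μ x f * (f y : ℝ≥0∞)

/-- any two sites are joined by a finite path along which `m` is positive -/
def Irred (μ : X → PMF (X →₀ ℕ)) : Prop :=
  ∀ x y, Relation.ReflTransGen (fun a b => 0 < mean μ a b) x y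

/-- `γ` is an automorphism: `μ_{γ x}(f ∘ γ⁻¹) = μ_x(f)` -/
def IsAut (μ : X → PMF (X →₀ ℕ)) (γ : X ≃ X) : Prop :=
  ∀ x f, μ (γ x) (Finsupp.equivMapDomain γ f) = μ x f

end Pool.Agent.H44.GW
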