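import Pool.Agent.H44.GW3
import Pool.Agent.H44.GWDefs2

/-! The dichotomy for irreducible processes. -/

open MeasureTheory ProbabilityTheory Set Filter Topology
open scoped ENNReal

namespace Pool.Agent.H44.GW

variable {X : Type} [Countable X] {μ : X → PMF (X →₀ ℕ)}

omit [Countable X] in
theorem mean_pos {x y : X} : 0 < mean μ x y ↔ ∃ f, μ x f ≠ 0 ∧ f y ≠ 0 := by
  simp [mean, pos_iff_ne_zero]

/-- real powers -/
noncomputable def rp (s : X → ℝ) (t : ℝ) : X → ℝ := fun y => s y ^ t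

omit [Countable X] in
theorem U.rp {s : X → ℝ} (hs : U s) {t : ℝ} (ht : 0 ≤ t) : U (rp s t) := fun y =>
  ⟨Real.rpow_nonneg (hs y).1 _, Real.rpow_le_one (hs y).1 (hs y).2 ht⟩

omit [Countable X] in
theorem pw_rp {s : X → ℝ} (hs : U s) (t : ℝ) (f : X →₀ ℕ) : pw (rp s t) f = pw s f ^ t := by
  simp only [pw, Finsupp.prod, rp]
  rw [← Real.finsetProd_rpow _ _ fun y _ => pow_nonneg (hs y).1 _]
  exact Finset.prod_congr rfl fun y _ => (Real.rpow_pow_comm (hs y).1 _ _)

theorem G_rp {s : X → ℝ} (hs : U s) {t : ℝ} (ht : 1 ≤ t) (x : X) :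
    G μ s x ^ t ≤ G μ (rp s t) x := by
  have ht0 : 0 ≤ t := by linarith
  rw [G_eq μ hs, G_eq μ (hs.rp ht0)]
  have h := (convexOn_rpow ht).map_integral_le (μ := (μ x).toMeasure) (f := pw s)
    (Real.continuous_rpow_const ht0).continuousOn isClosed_Ici (ae_of_all _ (pw_nonneg hs))
    (integrable_pw hs _) (by
      have := integrable_pw (hs.rp ht0) (μ x).toMeasure
      exact this.congr (ae_of_all _ (pw_rp hs t)))
  simpa only [pw_rp hs] using h

theorem rpow_lip {m a b : ℝ} (h0 : 0 ≤ m) (h1 : m ≤ 1) (ha : 1 ≤ a) (hab : a ≤ b) :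
    m ^ a ≤ m ^ b + (b - a) := by
  rcases h0.eq_or_lt with rfl | h0
  · rw [Real.zero_rpow (by linarith), Real.zero_rpow (by linarith)]
    linarith
  have e : m ^ b = m ^ a * m ^ (b - a) := by rw [← Real.rpow_add h0]; ring_nf
  have h2 : m ^ a ≤ m := by simpa using Real.rpow_le_rpow_of_exponent_ge h0 h1 ha
  have h3 : Real.log m * (b - a) + 1 ≤ m ^ (b - a) := by
    rw [Real.rpow_def_of_pos h0]
    exact Real.add_one_le_exp _
  have h4 : 1 - m⁻¹ ≤ Real.log m := Real.one_sub_inv_le_log_of_pos h0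
  have h5 : 0 < m ^ a := Real.rpow_pos_of_pos h0 a
  have h6 : Real.log m ≤ 0 := Real.log_nonpos h0.le h1
  have h7 : -1 ≤ m * Real.log m := by
    have := mul_le_mul_of_nonneg_left h4 h0.le
    rw [mul_sub, mul_inv_cancel₀ h0.ne'] at this
    linarith
  have h8 : -1 ≤ m ^ a * Real.log m := by nlinarith
  rw [e]
  nlinarith [mul_le_mul_of_nonneg_left h3 h5.le, mul_le_mul_of_nonneg_right h8 (sub_nonneg.2 hab)]

theorem pigeon' (hf : Thin μ) {s : X → ℝ} (hs : s ∈ Fix μ) (x : X) : ∃ k,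
    Tendsto (fun n => (G μ)^[n] (s ^ k) x - (G μ)^[n] (s ^ (k + 1)) x) atTop (𝓝 0) := by
  have hU : U s := hs.1
  have hR : ∀ t : ℝ, 1 ≤ t → U (rp s t) := fun t ht => hU.rp (by linarith)
  let u : ℝ → X → ℝ := fun t y => ⨆ n, (G μ)^[n] (rp s t) y
  have hl : ∀ t, 1 ≤ t → ∀ y, Tendsto (fun n => (G μ)^[n] (rp s t) y) atTop (𝓝 (u t y)) :=
    fun t ht y => tendsto_atTop_ciSup (monotone_nat_of_le_succ fun n => by
      refine iter_mono (hR t ht) (hR t ht).G (fun z => ?_) n y
      have := G_rp (μ := μ) hU ht z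
      rwa [hs.2] at this) ⟨1, by
      rintro _ ⟨n, rfl⟩
      exact ((hR t ht).iter n y).2⟩
  have hu : ∀ t, 1 ≤ t → U (u t) := fun t ht y =>
    isClosed_Icc.mem_of_tendsto (hl t ht y) (Eventually.of_forall fun n => (hR t ht).iter n y)
  have hfix : ∀ t, 1 ≤ t → u t ∈ Fix μ := fun t ht => ⟨hu t ht, funext fun y => by
    refine tendsto_nhds_unique (G_tendsto (fun n => (hR t ht).iter n) (hu t ht) (hl t ht) y) ?_
    simp only [← Function.iterate_succ_apply' (G μ)]
    exact (tendsto_add_atTop_iff_nat 1).2 (hl t ht y)⟩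
  have hlip : ∀ a b, 1 ≤ a → a ≤ b → u b x ≤ u a x ∧ u a x ≤ u b x + (b - a) := by
    intro a b ha hab
    have hb := ha.trans hab
    refine ⟨le_of_tendsto_of_tendsto' (hl b hb x) (hl a ha x) fun n =>
      iter_mono (hR b hb) (hR a ha) (fun z => Real.rpow_le_rpow_of_exponent_ge' (hU z).1 (hU z).2
        (by linarith) hab) n x,
      le_of_tendsto_of_tendsto' (hl a ha x) ((hl b hb x).add_const _) fun n => ?_⟩
    have hi : ∀ t, U t → Integrable (fun ω => pw t (Z x n ω)) (P μ) := fun t ht =>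
      integrable_bdd (measurable_pwZ t x n) (fun _ => pw_nonneg ht _) fun _ => pw_le_one ht _
    have h3 := integral_mono (hi _ (hR a ha)) ((hi _ (hR b hb)).add (integrable_const (b - a)))
      fun ω => by
        simp only [Pi.add_apply, pw_rp hU]
        exact rpow_lip (pw_nonneg hU _) (pw_le_one hU _) ha hab
    simp only [Pi.add_apply] at h3
    rw [integral_add (hi _ (hR b hb)) (integrable_const _), integral_Z (hR a ha),
      integral_Z (hR b hb)] at h3
    simpa using h3
  have hcont : ContinuousOn (fun t => u t x) (Icc 1 2) := by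
    refine (LipschitzOnWith.of_le_add fun a ha b hb => ?_).continuousOn
    rw [Real.dist_eq]
    rcases le_total a b with h | h
    · rw [abs_sub_comm, abs_of_nonneg (sub_nonneg.2 h)]
      exact (hlip a b ha.1 h).2
    · linarith [(hlip b a hb.1 h).1, abs_nonneg (a - b)]
  have h12 : u 1 x - u 2 x = 0 := by
    refine le_antisymm (not_lt.1 fun h => hf x _ _ (sub_pos.1 h) fun c hc => ?_)
      (sub_nonneg.2 (hlip 1 2 le_rfl one_le_two).1)
    obtain ⟨t, ht, h2⟩ := intermediate_value_Icc' one_le_two hcont ⟨hc.1, hc.2.le⟩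
    exact ⟨u t, hfix t ht.1, h2⟩
  have e1 : s ^ 1 = rp s 1 := funext fun y => by simp [rp]
  have e2 : s ^ (1 + 1) = rp s 2 := funext fun y => by simp [rp]
  exact ⟨1, by
    rw [e1, e2, ← h12]
    exact (hl 1 le_rfl x).sub (hl 2 one_le_two x)⟩

theorem one_of_child {s : X → ℝ} (hs : s ∈ Fix μ) {y z : X} (hy : s y = 1) (h : 0 < mean μ y z) :
    s z = 1 := by
  obtain ⟨f, hf, hz⟩ := mean_pos.1 h
  have h1 : ∫ f, (1 - pw s f) ∂(μ y).toMeasure = 0 := by
    rw [integral_sub (integrable_const _) (integrable_pw hs.1 _), ← G_eq μ hs.1, hs.2, hy]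
    simp
  rw [integral_eq_zero_iff_of_nonneg (fun f => sub_nonneg.2 (pw_le_one hs.1 f))
    ((integrable_const _).sub (integrable_pw hs.1 _))] at h1
  have h3 : 1 - pw s f = 0 := by
    have := ae_iff_of_countable.1 h1 f (by
      rwa [PMF.toMeasure_apply_singleton _ _ (measurableSet_singleton f)])
    exact this
  have h2 := pw_le_apply hs.1 hz
  exact le_antisymm (hs.1 z).2 (by linarith)

theorem card_fix_le : Cardinal.mk (Fix μ) ≤ Cardinal.continuum := by
  refine (Cardinal.mk_set_le _).trans ?_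
  rw [Cardinal.mk_arrow, Cardinal.lift_id, Cardinal.lift_id, Cardinal.mk_real]
  exact (Cardinal.power_le_power_left Cardinal.continuum_ne_zero
    (Cardinal.mk_le_aleph0 (α := X))).trans Cardinal.continuum_power_aleph0.le

theorem card_of_not_thin (h : ¬Thin μ) : Cardinal.mk (Fix μ) = Cardinal.continuum := by
  simp only [Thin, not_forall, not_not] at h
  obtain ⟨x, a, b, hab, h⟩ := h
  refine le_antisymm card_fix_le ?_
  rw [← Cardinal.mk_Ico_real hab]
  exact (Cardinal.mk_le_mk_of_subset h).trans Cardinal.mk_image_le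

theorem dichotomy (hi : Irred μ) :
    Fix μ ⊆ {qExt μ univ, 1} ∨ Cardinal.mk (Fix μ) = Cardinal.continuum := by
  by_cases h : Thin μ
  · refine Or.inl fun s hs => ?_
    by_cases h1 : ∃ y, s y = 1
    · obtain ⟨y, hy⟩ := h1
      refine Or.inr (funext fun z => ?_)
      induction hi y z with
      | refl => exact hy
      | tail _ h2 ih => exact one_of_child hs ih h2
    · refine Or.inl ((eq_qExt' h hs (pigeon' h hs)).trans ?_)
      congr 1
      exact eq_univ_of_forall fun y hy => h1 ⟨y, hy⟩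
  · exact Or.inr (card_of_not_thin h)

end Pool.Agent.H44.GW
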