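import Pool.Agent.H44.GW4

/-! Binary examples: two children with probability `p`, one child otherwise. -/

open MeasureTheory ProbabilityTheory Set Filter Topology Finsupp
open scoped ENNReal

namespace Pool.Agent.H44.GW

variable {X : Type}

/-- data of a binary branching random walk -/
structure Bin (X : Type) where
  p : X → ℝ
  p0 : ∀ y, 0 < p y
  p1 : ∀ y, p y < 1
  a : X → X
  b : X → X
  c : X → X

namespace Bin

variable (B : Bin X)

/-- the two-children outcome -/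
noncomputable def up (y : X) : X →₀ ℕ := single (B.a y) 1 + single (B.b y) 1

/-- the coin -/
noncomputable def coin (y : X) : PMF Bool :=
  PMF.ofFintype (fun t => if t then ENNReal.ofReal (B.p y) else ENNReal.ofReal (1 - B.p y)) (by
    simp only [Fintype.sum_bool, if_true, Bool.false_eq_true, if_false]
    rw [← ENNReal.ofReal_add (B.p0 y).le (sub_nonneg.2 (B.p1 y).le)]
    simp)

/-- the offspring law -/
noncomputable def μ (y : X) : PMF (X →₀ ℕ) :=
  (B.coin y).map fun t => if t then B.up y else single (B.c y) 1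

open Classical in
theorem μ_apply (y : X) (f : X →₀ ℕ) : B.μ y f =
    (if f = single (B.c y) 1 then ENNReal.ofReal (1 - B.p y) else 0) +
      if f = B.up y then ENNReal.ofReal (B.p y) else 0 := by
  rw [μ, PMF.map_apply, tsum_bool]
  simp [coin]

theorem μ_ne (y : X) (f : X →₀ ℕ) : B.μ y f ≠ 0 ↔ f = B.up y ∨ f = single (B.c y) 1 := by
  have h0 := B.p0 y
  have h1 := B.p1 y
  rw [μ_apply]
  split_ifs <;> simp [*]

theorem up_ne (y z : X) : B.up y z ≠ 0 ↔ z = B.a y ∨ z = B.b y := by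
  classical
  simp only [up, Finsupp.add_apply, single_apply]
  split_ifs <;> simp_all [eq_comm]

theorem mean_a (y : X) : 0 < mean B.μ y (B.a y) :=
  (by simp [mean, pos_iff_ne_zero] : 0 < mean B.μ y (B.a y) ↔ ∃ f, B.μ y f ≠ 0 ∧ f (B.a y) ≠ 0).2
    ⟨_, (B.μ_ne y _).2 (Or.inl rfl), (B.up_ne _ _).2 (Or.inl rfl)⟩

theorem mean_c (y : X) : 0 < mean B.μ y (B.c y) :=
  (by simp [mean, pos_iff_ne_zero] : 0 < mean B.μ y (B.c y) ↔ ∃ f, B.μ y f ≠ 0 ∧ f (B.c y) ≠ 0).2
    ⟨_, (B.μ_ne y _).2 (Or.inr rfl), by simp⟩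

theorem Z_succ (x : X) (n : ℕ) (ω : ℕ → X × ℕ → X →₀ ℕ) (z : X) :
    Z x (n + 1) ω z ≠ 0 ↔ ∃ y, ∃ i < Z x n ω y, ω n (y, i) z ≠ 0 := by
  simp only [Z, Finsupp.sum, Finsupp.finsetSum_apply, ne_eq, Finset.sum_eq_zero_iff, not_forall,
    Finset.mem_range, mem_support_iff]
  constructor
  · rintro ⟨y, -, i, hi, h⟩
    exact ⟨y, i, hi, h⟩
  · rintro ⟨y, i, hi, h⟩
    exact ⟨y, by omega, i, hi, h⟩

/-- all offspring vectors are admissible -/
def Adm (ω : ℕ → X × ℕ → X →₀ ℕ) : Prop :=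
  ∀ n y i, ω n (y, i) = B.up y ∨ ω n (y, i) = single (B.c y) 1

variable {B}

theorem Adm.child {ω} (h : B.Adm ω) {x y : X} {n : ℕ} (hy : Z x n ω y ≠ 0) :
    (Z x (n + 1) ω (B.a y) ≠ 0 ∧ Z x (n + 1) ω (B.b y) ≠ 0) ∨ Z x (n + 1) ω (B.c y) ≠ 0 := by
  rcases h n y 0 with h1 | h1
  · refine Or.inl ⟨(Z_succ _ _ _ _).2 ⟨y, 0, by omega, ?_⟩, (Z_succ _ _ _ _).2 ⟨y, 0, by omega, ?_⟩⟩
    · rw [h1]; exact (B.up_ne _ _).2 (Or.inl rfl)
    · rw [h1]; exact (B.up_ne _ _).2 (Or.inr rfl)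
  · exact Or.inr ((Z_succ _ _ _ _).2 ⟨y, 0, by omega, by simp [h1]⟩)

theorem Adm.parent {ω} (h : B.Adm ω) {x z : X} {n : ℕ} (hz : Z x (n + 1) ω z ≠ 0) :
    ∃ y, Z x n ω y ≠ 0 ∧ (z = B.a y ∨ z = B.b y ∨ z = B.c y) := by
  obtain ⟨y, i, hi, h1⟩ := (Z_succ _ _ _ _).1 hz
  refine ⟨y, by omega, ?_⟩
  rcases h n y i with h2 | h2 <;> rw [h2] at h1
  · exact or_assoc.1 (Or.inl ((B.up_ne _ _).1 h1))
  · exact Or.inr (Or.inr (single_apply_ne_zero.1 h1).1)

variable (B) [Countable X]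

theorem ae_adm : ∀ᵐ ω ∂P B.μ, B.Adm ω := by
  refine ae_all_iff.2 fun n => ae_all_iff.2 fun y => ae_all_iff.2 fun i => ?_
  have h1 := (measurePreserving_eval_infinitePi (fun i : X × ℕ => (B.μ i.1).toMeasure) (y, i)).comp
    (measurePreserving_eval_infinitePi
      (fun _ : ℕ => Measure.infinitePi fun i : X × ℕ => (B.μ i.1).toMeasure) n)
  refine h1.quasiMeasurePreserving.ae (p := fun f => f = B.up y ∨ f = single (B.c y) 1) ?_
  refine ae_iff_of_countable.2 fun f hf => (B.μ_ne y f).1 ?_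
  rwa [PMF.toMeasure_apply_singleton _ _ (measurableSet_singleton f)] at hf

theorem G_bin {s : X → ℝ} (hs : U s) (y : X) :
    G B.μ s y = B.p y * (s (B.a y) * s (B.b y)) + (1 - B.p y) * s (B.c y) := by
  rw [G_eq _ hs, μ, ← PMF.toMeasure_map _ _ measurable_from_top,
    integral_map measurable_from_top.aemeasurable (measurable_pw s).aestronglyMeasurable,
    PMF.integral_eq_sum]
  simp [coin, up, pw_add, pw_single, ENNReal.toReal_ofReal (B.p0 y).le,
    ENNReal.toReal_ofReal (sub_nonneg.2 (B.p1 y).le)]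

theorem prob_le {w : X → ℝ} {ρ : ℝ} (hw : ∀ y, 0 ≤ w y) (hρ : 0 ≤ ρ)
    (h : ∀ y, B.p y * (w (B.a y) + w (B.b y)) + (1 - B.p y) * w (B.c y) ≤ ρ * w y) {A : Set X}
    (hA : ∀ y ∈ A, 1 ≤ w y) (x : X) (n : ℕ) :
    P B.μ {ω | ¬∀ y ∈ A, Z x n ω y = 0} ≤ ENNReal.ofReal (w x * ρ ^ n) := by
  have h1 : ∀ n y, 1 - (G B.μ)^[n] (off A) y ≤ w y * ρ ^ n := fun n => by
    induction n with
    | zero =>
      intro y
      by_cases hy : y ∈ A
      · simpa [off, hy] using hA y hy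
      · simpa [off, hy] using hw y
    | succ n ih =>
      intro y
      have hU := (U_off A).iter (μ := B.μ) n
      rw [Function.iterate_succ_apply', G_bin B hU]
      have h2 := mul_le_mul_of_nonneg_right (h y) (pow_nonneg hρ n)
      have h3 := mul_nonneg (B.p0 y).le
        (mul_nonneg (sub_nonneg.2 (hU (B.a y)).2) (sub_nonneg.2 (hU (B.b y)).2))
      have h4 := mul_le_mul_of_nonneg_left (add_le_add (ih (B.a y)) (ih (B.b y))) (B.p0 y).le
      have h5 := mul_le_mul_of_nonneg_left (ih (B.c y)) (sub_nonneg.2 (B.p1 y).le)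
      rw [pow_succ]
      nlinarith
  have h3 := integral_Z (μ := B.μ) (U_off A) x n
  simp only [pw_off] at h3
  rw [integral_ite _ (meas_zero x n A).setOf] at h3
  have h4 := probReal_compl_eq_one_sub (μ := P B.μ) (meas_zero x n A).setOf
  rw [h3] at h4
  rw [← ofReal_measureReal]
  exact ENNReal.ofReal_le_ofReal (h4.le.trans (h1 n x))

theorem tsum_le {w : X → ℝ} {ρ : ℝ} (hw : ∀ y, 0 ≤ w y) (hρ : 0 ≤ ρ) (hρ1 : ρ < 1)
    (h : ∀ y, B.p y * (w (B.a y) + w (B.b y)) + (1 - B.p y) * w (B.c y) ≤ ρ * w y) {A : Set X}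
    (hA : ∀ y ∈ A, 1 ≤ w y) (x : X) :
    ∑' n, P B.μ {ω | ¬∀ y ∈ A, Z x n ω y = 0} ≤ ENNReal.ofReal (w x * (1 - ρ)⁻¹) := by
  refine (ENNReal.tsum_le_tsum (B.prob_le hw hρ h hA x)).trans (le_of_eq ?_)
  rw [← ENNReal.ofReal_tsum_of_nonneg (fun n => mul_nonneg (hw x) (pow_nonneg hρ n))
    ((summable_geometric_of_lt_one hρ hρ1).mul_left _), tsum_mul_left,
    tsum_geometric_of_lt_one hρ hρ1]

theorem ae_ext {w : X → ℝ} {ρ : ℝ} (hw : ∀ y, 0 ≤ w y) (hρ : 0 ≤ ρ) (hρ1 : ρ < 1)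
    (h : ∀ y, B.p y * (w (B.a y) + w (B.b y)) + (1 - B.p y) * w (B.c y) ≤ ρ * w y) {A : Set X}
    (hA : ∀ y ∈ A, 1 ≤ w y) (x : X) :
    ∀ᵐ ω ∂P B.μ, ∃ N, ∀ n ≥ N, ∀ y ∈ A, Z x n ω y = 0 := by
  filter_upwards [ae_eventually_notMem
    (ne_top_of_le_ne_top ENNReal.ofReal_ne_top (B.tsum_le hw hρ hρ1 h hA x))] with ω hω
  exact eventually_atTop.1 (hω.mono fun n hn => not_not.1 hn)

end Bin

/-! ### the walk on the integers -/

/-- two children at `x + 1` or one child at `x - 1` -/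
noncomputable def BZ : Bin ℤ :=
  ⟨fun _ => 7 / 8, fun _ => by norm_num, fun _ => by norm_num, (· + 1), (· + 1), (· - 1)⟩

theorem BZ_irred : Irred BZ.μ := fun x y => by
  induction y using Int.inductionOn' (b := x) with
  | zero => exact Relation.ReflTransGen.refl
  | succ k _ ih => exact ih.tail (BZ.mean_a k)
  | pred k _ ih => exact ih.tail (BZ.mean_c k)

theorem BZ_aut (t : ℤ) : IsAut BZ.μ (Equiv.addRight t) := fun x f => by
  have hi := mapDomain_injective (M := ℕ) (Equiv.addRight t).injective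
  have e1 : single (BZ.c (Equiv.addRight t x)) 1 =
      mapDomain (Equiv.addRight t) (single (BZ.c x) 1) := by
    rw [mapDomain_single]
    congr 1
    simp only [BZ, Equiv.coe_addRight]
    ring
  have e2 : BZ.up (Equiv.addRight t x) = mapDomain (Equiv.addRight t) (BZ.up x) := by
    rw [Bin.up, Bin.up, mapDomain_add, mapDomain_single, mapDomain_single]
    simp only [BZ, Equiv.coe_addRight, add_right_comm x t 1]
  rw [Bin.μ_apply, Bin.μ_apply, e1, e2, equivMapDomain_eq_mapDomain]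
  simp only [hi.eq_iff, show BZ.p (Equiv.addRight t x) = BZ.p x from rfl]
  congr!

theorem BZ_ae (x : ℤ) : ∀ᵐ ω ∂P BZ.μ, ∀ m : ℤ, ∃ N, ∀ n ≥ N, ∀ y ∈ Iic m, Z x n ω y = 0 :=
  ae_all_iff.2 fun m => BZ.ae_ext (w := fun y => (4 : ℝ) ^ (m - y)) (ρ := 15 / 16)
    (fun y => by positivity) (by norm_num) (by norm_num) (fun y => by
      simp only [BZ]
      rw [show m - (y + 1) = m - y - 1 by ring, show m - (y - 1) = m - y + 1 by ring,
        zpow_sub_one₀ (by norm_num), zpow_add_one₀ (by norm_num)]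
      linarith) (fun y hy => one_le_zpow₀ (by norm_num) (sub_nonneg.2 hy)) x

theorem BZ_one {A : Set ℤ} (hA : BddAbove A) : qExt BZ.μ A = 1 := funext fun x => by
  obtain ⟨m, hm⟩ := hA
  rw [qExt, Pi.one_apply, measureReal_def, ENNReal.toReal_eq_one_iff,
    ← mem_ae_iff_prob_eq_one ((rep_ext (μ := BZ.μ) A).meas 0 x)]
  filter_upwards [BZ_ae x] with ω hω
  obtain ⟨N, hN⟩ := hω m
  exact ⟨N, fun n hn y hy => hN n hn y (hm hy)⟩

theorem BZ_zero {A : Set ℤ} (hA : ¬BddAbove A) : qExt BZ.μ A = 0 := funext fun x => by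
  rw [qExt, Pi.zero_apply, measureReal_def, ENNReal.toReal_eq_zero_iff]
  refine Or.inl (measure_eq_zero_iff_ae_notMem.2 ?_)
  filter_upwards [BZ_ae x, BZ.ae_adm] with ω hω ha
  rintro ⟨N, hN⟩
  have h1 : ∀ n, ∃ z, Z x n ω z ≠ 0 := fun n => by
    induction n with
    | zero => exact ⟨x, by simp [Z]⟩
    | succ n ih =>
      obtain ⟨z, hz⟩ := ih
      rcases ha.child hz with h | h
      · exact ⟨_, h.1⟩
      · exact ⟨_, h⟩
  obtain ⟨z, hz⟩ := h1 N
  obtain ⟨y, hy, hzy⟩ := not_bddAbove_iff.1 hA z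
  have h2 : ∀ k, ∃ z < y, Z x (N + k) ω z ≠ 0 := fun k => by
    induction k with
    | zero => exact ⟨z, hzy, hz⟩
    | succ k ih =>
      obtain ⟨z, hzy, hz⟩ := ih
      rcases ha.child hz with h | h
      · refine ⟨z + 1, lt_of_le_of_ne hzy ?_, h.1⟩
        rintro rfl
        exact h.1 (hN _ (by omega) _ hy)
      · exact ⟨z - 1, by omega, h⟩
  obtain ⟨M, hM⟩ := hω y
  obtain ⟨z, hzy, hz⟩ := h2 M
  exact hz (hM _ (by omega) z hzy.le)

theorem BZ_range : range (qExt BZ.μ) = {0, 1} := by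
  refine Subset.antisymm ?_ ?_
  · rintro _ ⟨A, rfl⟩
    by_cases h : BddAbove A
    · exact Or.inr (BZ_one h)
    · exact Or.inl (BZ_zero h)
  · rintro _ (rfl | rfl)
    · exact ⟨univ, BZ_zero not_bddAbove_univ⟩
    · exact ⟨∅, BZ_one bddAbove_empty⟩

theorem BZ_card : Cardinal.mk (Fix BZ.μ) = Cardinal.continuum := by
  have h1 : qLoc BZ.μ 0 = 1 := by
    rw [qLoc, measureReal_def, ENNReal.toReal_eq_one_iff,
      ← mem_ae_iff_prob_eq_one ((rep_loc (μ := BZ.μ)).meas 0 0)]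
    filter_upwards [BZ_ae 0] with ω hω y
    obtain ⟨N, hN⟩ := hω y
    exact (finite_Iio N).subset fun k hk => not_le.1 fun h' => hk (hN k h' y self_mem_Iic)
  refine card_of_not_thin fun h => h 0 0 1 zero_lt_one fun c hc => ?_
  obtain ⟨s, hs, -, -, h2⟩ := between (μ := BZ.μ) 0 (c := c)
    (by rw [BZ_zero not_bddAbove_univ]; exact hc.1) (by rw [h1]; exact hc.2)
  exact ⟨s, hs, h2⟩

/-! ### the nested rays -/

/-- children at `(k, j+1)` and `(k-1, j+1)`, or, rarely, one child at `(j, 0)` -/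
noncomputable def BR : Bin (ℕ × ℕ) :=
  ⟨fun y => 1 - (1 / 4) ^ (y.2 + 1), fun y => sub_pos.2 (pow_lt_one₀ (by norm_num) (by norm_num)
    (by omega)), fun y => sub_lt_self _ (by positivity), fun y => (y.1, y.2 + 1),
    fun y => (y.1 - 1, y.2 + 1), fun y => (y.2, 0)⟩

theorem BR_irred : Irred BR.μ := by
  have h1 : ∀ k j m, Relation.ReflTransGen (fun a b => 0 < mean BR.μ a b) (k, j) (k, j + m) :=
    fun k j m => by
      induction m with
      | zero => exact Relation.ReflTransGen.refl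
      | succ m ih => exact ih.tail (BR.mean_a (k, j + m))
  rintro ⟨k, j⟩ ⟨k', j'⟩
  have h2 : Relation.ReflTransGen (fun a b => 0 < mean BR.μ a b) (k, j) (0, 0) :=
    (Relation.ReflTransGen.single (r := fun a b => 0 < mean BR.μ a b)
      (BR.mean_c (k, j))).tail (BR.mean_c (j, 0))
  have h3 := ((h2.trans (h1 0 0 k')).tail (BR.mean_c (0, 0 + k'))).trans (h1 _ 0 j')
  simpa [BR] using h3

theorem BR_w (y : ℕ × ℕ) : BR.p y * ((1 / 4 : ℝ) ^ (BR.a y).2 + (1 / 4) ^ (BR.b y).2) +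
    (1 - BR.p y) * (1 / 4) ^ (BR.c y).2 ≤ 3 / 4 * (1 / 4) ^ y.2 := by
  simp only [BR, pow_succ, pow_zero]
  have : (0 : ℝ) < (1 / 4) ^ y.2 := by positivity
  nlinarith

theorem BR_path {ω} (ha : BR.Adm ω) {x : ℕ × ℕ} {N : ℕ}
    (hN : ∀ n ≥ N, ∀ y ∈ {y : ℕ × ℕ | y.2 = 0}, Z x n ω y = 0) (A : Set (ℕ × ℕ)) :
    (∃ M, ∀ n ≥ M, ∀ y ∈ A, Z x n ω y = 0) ↔
      ∀ y, Z x N ω y ≠ 0 → ∀ k ≤ y.1, {j | (k, j) ∈ A}.Finite := by
  constructor
  · rintro ⟨M, hM⟩ y hy k hk
    have h1 : ∀ m i, y.1 - m ≤ i → i ≤ y.1 → Z x (N + m) ω (i, y.2 + m) ≠ 0 := fun m => by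
      induction m with
      | zero =>
        intro i h1 h2
        rwa [show i = y.1 by omega]
      | succ m ih =>
        intro i h1 h2
        by_cases h3 : y.1 - m ≤ i
        · rcases ha.child (ih i h3 h2) with h | h
          · exact h.1
          · exact absurd (hN _ (by omega) _ rfl) h
        · rcases ha.child (ih (i + 1) (by omega) (by omega)) with h | h
          · exact h.2
          · exact absurd (hN _ (by omega) _ rfl) h
    refine (finite_Iio (y.2 + y.1 + M)).subset fun j hj => mem_Iio.2 (not_le.1 fun h => ?_)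
    refine h1 (j - y.2) k (by omega) hk (hM _ (by omega) _ ?_)
    rwa [show y.2 + (j - y.2) = j by omega]
  · intro h
    have h1 : ∀ m z, Z x (N + m) ω z ≠ 0 → m ≤ z.2 ∧ ∃ y, Z x N ω y ≠ 0 ∧ z.1 ≤ y.1 := fun m => by
      induction m with
      | zero => exact fun z hz => ⟨Nat.zero_le _, z, hz, le_rfl⟩
      | succ m ih =>
        intro z hz
        obtain ⟨y, hy, h2⟩ := ha.parent hz
        obtain ⟨h3, u, hu, h4⟩ := ih y hy
        rcases h2 with rfl | rfl | rfl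
        · exact ⟨Nat.succ_le_succ h3, u, hu, h4⟩
        · exact ⟨Nat.succ_le_succ h3, u, hu, (Nat.sub_le _ _).trans h4⟩
        · exact absurd (hN _ (by omega) _ rfl) hz
    have h2 : (⋃ y ∈ (Z x N ω).support, ⋃ k ∈ Iic y.1, {j | (k, j) ∈ A}).Finite :=
      (Finset.finite_toSet _).biUnion fun y hy => (finite_Iic _).biUnion fun k hk =>
        h y (mem_support_iff.1 hy) k hk
    obtain ⟨J, hJ⟩ := h2.bddAbove
    refine ⟨N + J + 1, fun n hn z hz => not_not.1 fun h3 => ?_⟩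
    obtain ⟨h4, y, hy, h5⟩ := h1 (n - N) z (by rwa [show N + (n - N) = n by omega])
    have h6 : z.2 ≤ J := hJ (mem_iUnion₂.2 ⟨y, mem_support_iff.2 hy, mem_iUnion₂.2 ⟨z.1, h5, hz⟩⟩)
    omega

theorem BR_congr {A A' : Set (ℕ × ℕ)}
    (h : ∀ i, (∀ k ≤ i, {j | (k, j) ∈ A}.Finite) ↔ ∀ k ≤ i, {j | (k, j) ∈ A'}.Finite) :
    qExt BR.μ A = qExt BR.μ A' := funext fun x => by
  refine measureReal_congr ?_
  filter_upwards [BR.ae_adm, BR.ae_ext (w := fun y => (1 / 4 : ℝ) ^ y.2) (ρ := 3 / 4)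
    (fun y => by positivity) (by norm_num) (by norm_num) BR_w (A := {y | y.2 = 0})
    (fun y hy => by rw [show y.2 = 0 from hy, pow_zero]) x] with ω ha ⟨N, hN⟩
  refine propext (((BR_path ha hN A).trans ?_).trans (BR_path ha hN A').symm)
  simp only [h]

theorem ray_fin (k i : ℕ) : {j : ℕ | (k, j) ∈ {y : ℕ × ℕ | y.1 = i}}.Finite ↔ k ≠ i := by
  by_cases h : k = i
  · simpa [h] using infinite_univ
  · simp [h]

theorem BR_countable : (range (qExt BR.μ)).Countable := by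
  classical
  refine ((countable_range fun i => qExt BR.μ {y | y.1 = i}).insert (qExt BR.μ ∅)).mono ?_
  rintro _ ⟨A, rfl⟩
  by_cases h : ∃ k, ¬{j | (k, j) ∈ A}.Finite
  · refine Or.inr ⟨Nat.find h, BR_congr fun i => ?_⟩
    simp only [ray_fin]
    constructor
    · intro h1 k hk
      refine not_not.1 (Nat.find_min h (lt_of_le_of_lt hk (not_le.1 fun h2 => h1 _ h2 rfl)))
    · rintro h1 k hk rfl
      exact Nat.find_spec h (h1 _ hk)
  · refine Or.inl (BR_congr fun i => ?_)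
    push Not at h
    simp [h]

theorem BR_infinite : (range (qExt BR.μ)).Infinite := by
  have key : ∀ k k', k < k' →
      qExt BR.μ {y | y.1 = k} (k, 2) < qExt BR.μ {y | y.1 = k'} (k, 2) := by
    intro k k' hk
    let D := ⋃ n, {ω | ¬∀ y ∈ {y : ℕ × ℕ | y.2 = 0}, Z (k, 2) n ω y = 0}
    have hD : (P BR.μ).real D ≤ 1 / 4 := by
      refine ENNReal.toReal_le_of_le_ofReal (by norm_num) ((measure_iUnion_le _).trans
        ((BR.tsum_le (w := fun y => (1 / 4 : ℝ) ^ y.2) (ρ := 3 / 4) (fun y => by positivity)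
          (by norm_num) (by norm_num) BR_w
          (fun y hy => by rw [show y.2 = 0 from hy, pow_zero]) _).trans (le_of_eq ?_)))
      norm_num
    have hN : ∀ ω ∉ D, ∀ n ≥ 0, ∀ y ∈ {y : ℕ × ℕ | y.2 = 0}, Z (k, 2) n ω y = 0 :=
      fun ω hω n _ => not_not.1 fun h => hω (mem_iUnion.2 ⟨n, h⟩)
    have h1 : qExt BR.μ {y | y.1 = k} (k, 2) ≤ (P BR.μ).real D := by
      refine ENNReal.toReal_mono (measure_ne_top _ _) (measure_mono_ae ?_)
      filter_upwards [BR.ae_adm] with ω ha hω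
      by_contra h
      exact (ray_fin k k).1 ((BR_path ha (hN ω h) _).1 hω (k, 2) (by simp [Z]) k le_rfl) rfl
    have h2 := probReal_compl_eq_one_sub (μ := P BR.μ)
      ((rep_ext (μ := BR.μ) {y | y.1 = k'}).meas 0 (k, 2))
    have h3 : 1 - qExt BR.μ {y | y.1 = k'} (k, 2) ≤ (P BR.μ).real D := by
      refine h2.ge.trans (ENNReal.toReal_mono (measure_ne_top _ _) (measure_mono_ae ?_))
      filter_upwards [BR.ae_adm] with ω ha hω
      by_contra h
      refine hω ((BR_path ha (hN ω h) _).2 fun y hy i hi => (ray_fin _ _).2 ?_)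
      rw [(single_apply_ne_zero.1 hy).1] at hi
      omega
    linarith
  refine (infinite_range_of_injective (f := fun i => qExt BR.μ {y | y.1 = i}) ?_).mono ?_
  · intro k k' h
    have h' : qExt BR.μ {y | y.1 = k} = qExt BR.μ {y | y.1 = k'} := h
    rcases lt_trichotomy k k' with h1 | h1 | h1
    · exact absurd (key k k' h1) (by rw [h']; exact lt_irrefl _)
    · exact h1
    · exact absurd (key k' k h1) (by rw [h']; exact lt_irrefl _)
  · rintro _ ⟨i, rfl⟩
    exact ⟨_, rfl⟩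

theorem BR_card : Cardinal.mk (Fix BR.μ) = Cardinal.continuum :=
  (dichotomy BR_irred).resolve_left fun h => BR_infinite (((toFinite _).subset h).subset (by
    rintro _ ⟨A, rfl⟩
    exact qExt_fix A))

theorem BR_nonsing : (BR.μ (0, 0)).toMeasure {f | f.sum (fun _ k => k) = 1} < 1 := by
  refine lt_of_le_of_ne prob_le_one fun h => ?_
  have h1 := (PMF.toMeasure_apply_eq_one_iff _ (by trivial)).1 h
    ((PMF.mem_support_iff _ _).2 ((BR.μ_ne (0, 0) _).2 (Or.inl rfl)))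
  simp [Bin.up, BR, Finsupp.sum_add_index'] at h1

theorem diff_uncountable {α : Type} {S E : Set α} (h : Cardinal.mk S = Cardinal.continuum)
    (hE : E.Countable) : ¬(S \ E).Countable := fun h1 => by
  have h2 : S.Countable := (h1.union hE).mono fun s hs => by
    by_cases h : s ∈ E
    · exact Or.inr h
    · exact Or.inl ⟨hs, h⟩
  have := (Cardinal.le_aleph0_iff_set_countable.2 h2)
  rw [h] at this
  exact absurd this (not_le.2 Cardinal.aleph0_lt_continuum)

end Pool.Agent.H44.GW
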