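import Mathlib

/-! Multitype Galton-Watson processes with countably many types. -/

open MeasureTheory

namespace Pool.Agent.H44.GW

variable {X : Type}

/-- populations and offspring vectors carry the discrete sigma-algebra -/
instance : MeasurableSpace (X →₀ ℕ) := ⊤

/-- `∏_y s_y ^ f(y)` -/
noncomputable def pw (s : X → ℝ) (f : X →₀ ℕ) : ℝ := f.prod fun y k => s y ^ k

/-- the generating function -/
noncomputable def G (μ : X → PMF (X →₀ ℕ)) (s : X → ℝ) (x : X) : ℝ :=
  ∑' f, (μ x f).toReal * pw s f

/-- the fixed points of `G` in `[0,1]^X` -/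
def Fix (μ : X → PMF (X →₀ ℕ)) : Set (X → ℝ) := {s | (∀ x, s x ∈ Set.Icc (0 : ℝ) 1) ∧ G μ s = s}

/-- `ω n (y, i)` is the offspring vector of the `i`-th individual of type `y` in generation `n`;
these vectors are independent, of law `μ y` -/
noncomputable def P (μ : X → PMF (X →₀ ℕ)) : Measure (ℕ → X × ℕ → X →₀ ℕ) :=
  Measure.infinitePi fun _ => Measure.infinitePi fun i => (μ i.1).toMeasure

/-- the population in generation `n`, started from one individual of type `x` -/
noncomputable def Z (x : X) : ℕ → (ℕ → X × ℕ → X →₀ ℕ) → X →₀ ℕ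
  | 0, _ => Finsupp.single x 1
  | n + 1, ω => (Z x n ω).sum fun y k => ∑ i ∈ Finset.range k, ω n (y, i)

/-- probability of extinction in `A`: eventually no individual has its type in `A` -/
noncomputable def qExt (μ : X → PMF (X →₀ ℕ)) (A : Set X) (x : X) : ℝ :=
  (P μ).real {ω | ∃ N, ∀ n ≥ N, ∀ y ∈ A, Z x n ω y = 0}

/-- probability of local extinction: every type is present in finitely many generations only -/
noncomputable def qLoc (μ : X → PMF (X →₀ ℕ)) (x : X) : ℝ :=
  (P μ).real {ω | ∀ y, {n | Z x n ω y ≠ 0}.Finite}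

end Pool.Agent.H44.GW
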