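import Pool.Agent.H44.GlauberDefs

open Finset

namespace Pool.Agent.H44.Glauber

variable {V : Type} [Fintype V] [DecidableEq V] {G : SimpleGraph V} [DecidableRel G.Adj] {q : ℕ}

theorem P_mul (σ : Col G q) (f : Col G q → ℝ) :
    ∑ ρ, P G q σ ρ * f ρ = (∑ v, ∑ c, f (move G q σ v c)) / (Fintype.card V * q) := by
  rw [← Fintype.sum_prod_type', ← Finset.sum_fiberwise (s := univ)
    (g := fun p : V × Fin q => move G q σ p.1 p.2), sum_div]
  refine sum_congr rfl fun ρ _ => ?_
  rw [sum_congr rfl (g := fun _ => f ρ) fun p hp => by rw [(mem_filter.1 hp).2]]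
  simp [P, div_mul_eq_mul_div]

theorem pow_succ_apply (t : ℕ) (σ τ : Col G q) : (P G q ^ (t + 1)) σ τ =
    (∑ v, ∑ c, (P G q ^ t) (move G q σ v c) τ) / (Fintype.card V * q) := by
  rw [pow_succ', Matrix.mul_apply, P_mul σ fun ρ => (P G q ^ t) ρ τ]

theorem move_back {σ τ : Col G q} (hne : σ ≠ τ) {v : V} {c : Fin q} (h : move G q σ v c = τ) :
    move G q τ v (σ.1 v) = σ ∧ c = τ.1 v := by
  unfold move at h
  split_ifs at h with hp
  · subst h
    refine ⟨?_, by simp⟩
    unfold move
    have e : Function.update (Function.update σ.1 v c) v (σ.1 v) = σ.1 := by simp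
    rw [dif_pos (by rw [e]; exact σ.2)]
    exact Subtype.ext e
  · exact absurd h hne

theorem P_symm (σ τ : Col G q) : P G q σ τ = P G q τ σ := by
  by_cases h : σ = τ
  · rw [h]
  unfold P
  congr 2
  refine card_bij' (fun p _ => (p.1, σ.1 p.1)) (fun p _ => (p.1, τ.1 p.1)) ?_ ?_ ?_ ?_
  · intro p hp
    simpa using (move_back h (mem_filter.1 hp).2).1
  · intro p hp
    simpa using (move_back (Ne.symm h) (mem_filter.1 hp).2).1
  · intro p hp
    exact Prod.ext rfl (move_back h (mem_filter.1 hp).2).2.symm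
  · intro p hp
    exact Prod.ext rfl (move_back (Ne.symm h) (mem_filter.1 hp).2).2.symm

theorem pow_symm (t : ℕ) (σ τ : Col G q) : (P G q ^ t) σ τ = (P G q ^ t) τ σ := by
  have : (P G q).IsSymm := Matrix.IsSymm.ext fun a b => P_symm b a
  exact ((this.pow t).apply σ τ).symm

/-- action of colour permutations -/
def act (g : Equiv.Perm (Fin q)) : Col G q ≃ Col G q where
  toFun σ := ⟨g ∘ σ.1, fun u v h => g.injective.ne (σ.2 u v h)⟩
  invFun σ := ⟨g.symm ∘ σ.1, fun u v h => g.symm.injective.ne (σ.2 u v h)⟩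
  left_inv σ := Subtype.ext (by funext v; simp)
  right_inv σ := Subtype.ext (by funext v; simp)

theorem move_act (g : Equiv.Perm (Fin q)) (σ : Col G q) (v : V) (c : Fin q) :
    move G q (act g σ) v (g c) = act g (move G q σ v c) := by
  have e : Function.update (act g σ).1 v (g c) = g ∘ Function.update σ.1 v c :=
    (Function.comp_update g σ.1 v c).symm
  unfold move
  by_cases h : ∀ a b, G.Adj a b → Function.update σ.1 v c a ≠ Function.update σ.1 v c b
  · rw [dif_pos h, dif_pos (by rw [e]; exact fun a b hab => g.injective.ne (h a b hab))]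
    exact Subtype.ext e
  · rw [dif_neg h, dif_neg]
    rw [e]
    exact fun h' => h fun a b hab he => h' a b hab (congrArg g he)

theorem pow_act (g : Equiv.Perm (Fin q)) (t : ℕ) (σ τ : Col G q) :
    (P G q ^ t) (act g σ) (act g τ) = (P G q ^ t) σ τ := by
  induction t generalizing σ with
  | zero => simp [Matrix.one_apply]
  | succ t ih =>
    rw [pow_succ_apply, pow_succ_apply]
    congr 1
    refine sum_congr rfl fun v _ => ?_
    rw [← Equiv.sum_comp g]
    simp only [move_act, ih]

theorem tv_act (g : Equiv.Perm (Fin q)) (t : ℕ) (σ : Col G q) :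
    tv G q (act g σ) t = tv G q σ t := by
  unfold tv
  rw [← (act g).sum_comp]
  simp only [pow_act]

/-- probability that some vertex of `S` is not chosen in `t` steps -/
noncomputable def miss : ℕ → Finset V → ℝ
  | 0, S => if S.Nonempty then 1 else 0
  | t + 1, S => (∑ v, miss t (S.erase v)) / Fintype.card V

theorem move_agree (τ : Col G q) (v : V) (c : Fin q) {w : V} (hw : w ≠ v) :
    (move G q τ v c).1 w = τ.1 w := by
  unfold move
  split_ifs
  · simp [hw]
  · rfl

theorem miss_le (hq : 0 < q) (σ : V → Fin q) (t : ℕ) (S : Finset V) (τ : Col G q)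
    (h : ∀ v ∈ S, τ.1 v = σ v) :
    miss t S ≤ ∑ ρ with ∃ v, ρ.1 v = σ v, (P G q ^ t) τ ρ := by
  induction t generalizing S τ with
  | zero =>
    simp only [miss, pow_zero, Matrix.one_apply, sum_ite_eq, mem_filter, mem_univ, true_and]
    split_ifs with h1 h2
    · exact le_rfl
    · obtain ⟨v, hv⟩ := h1
      exact absurd ⟨v, h v hv⟩ h2
    · exact zero_le_one
    · exact le_rfl
  | succ t ih =>
    simp only [pow_succ_apply, miss]
    rw [← sum_div, sum_comm, ← div_div, div_right_comm]
    gcongr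
    rw [sum_div]
    refine sum_le_sum fun v _ => ?_
    rw [sum_comm, le_div_iff₀ (by positivity)]
    calc miss t (S.erase v) * q = ∑ _c : Fin q, miss t (S.erase v) := by simp [mul_comm]
      _ ≤ _ := sum_le_sum fun c _ => ih _ _ fun w hw => by
          rw [move_agree τ v c (mem_erase.1 hw).1, h w (mem_erase.1 hw).2]

theorem row_sum [Nonempty V] (hq : 0 < q) (t : ℕ) (σ : Col G q) : ∑ τ, (P G q ^ t) σ τ = 1 := by
  induction t generalizing σ with
  | zero => simp [Matrix.one_apply]
  | succ t ih =>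
    simp only [pow_succ_apply]
    rw [← sum_div, sum_comm]
    simp only [fun v => sum_comm (f := fun (τ : Col G q) (c : Fin q) =>
      (P G q ^ t) (move G q σ v c) τ) (s := univ) (t := univ), ih]
    have : (0 : ℝ) < Fintype.card V := by exact_mod_cast Fintype.card_pos
    have : (0 : ℝ) < q := by exact_mod_cast hq
    simp only [sum_const, card_univ, Fintype.card_fin, nsmul_eq_mul, mul_one]
    field_simp

theorem event_le_tv [Nonempty V] (hq : 0 < q) (t : ℕ) (σ : Col G q) (A : Finset (Col G q)) :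
    ∑ τ ∈ A, (P G q ^ t) σ τ - #A / Fintype.card (Col G q) ≤ tv G q σ t := by
  have hM : (0 : ℝ) < Fintype.card (Col G q) := by
    exact_mod_cast Fintype.card_pos_iff.2 ⟨σ⟩
  set f : Col G q → ℝ := fun τ => (P G q ^ t) σ τ - 1 / Fintype.card (Col G q) with hf
  have h0 : ∑ τ ∈ A, f τ + ∑ τ ∈ Aᶜ, f τ = 0 := by
    rw [sum_add_sum_compl, hf, sum_sub_distrib, row_sum hq]
    simp
    field_simp
    simp
  have h1 : ∑ τ ∈ A, f τ ≤ ∑ τ ∈ A, |f τ| := sum_le_sum fun _ _ => le_abs_self _
  have h2 : -∑ τ ∈ Aᶜ, f τ ≤ ∑ τ ∈ Aᶜ, |f τ| := by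
    rw [← sum_neg_distrib]
    exact sum_le_sum fun _ _ => neg_le_abs _
  have h3 := sum_add_sum_compl A fun τ => |f τ|
  have h4 : ∑ τ ∈ A, f τ = ∑ τ ∈ A, (P G q ^ t) σ τ - #A / Fintype.card (Col G q) := by
    rw [hf, sum_sub_distrib]
    simp [div_eq_mul_inv]
  unfold tv
  linarith

theorem card_agree (hq : 0 < q) (v : V) (c : Fin q) :
    (#{ρ : Col G q | ρ.1 v = c} : ℝ) = Fintype.card (Col G q) / q := by
  have h : ∀ c' : Fin q, #{ρ : Col G q | ρ.1 v = c'} = #{ρ : Col G q | ρ.1 v = c} := by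
    intro c'
    refine card_equiv (act (Equiv.swap c' c)) fun ρ => ?_
    simp only [mem_filter, mem_univ, true_and, act, Equiv.coe_fn_mk, Function.comp]
    rw [Equiv.swap_apply_eq_iff]
    simp
  have h2 := card_eq_sum_card_fiberwise (s := (univ : Finset (Col G q))) (t := univ)
    (f := fun ρ => ρ.1 v) (fun _ _ => mem_univ _)
  simp only [h, sum_const, card_univ, Fintype.card_fin, smul_eq_mul] at h2
  rw [h2, eq_div_iff (by positivity)]
  push_cast
  ring

theorem tv_lower [Nonempty V] (hq : 0 < q) (t : ℕ) (σ : Col G q) :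
    miss t (univ : Finset V) - Fintype.card V / q ≤ tv G q σ t := by
  refine le_trans ?_ (event_le_tv hq t σ {ρ | ∃ v, ρ.1 v = σ.1 v})
  have hM : (0 : ℝ) < Fintype.card (Col G q) := by
    exact_mod_cast Fintype.card_pos_iff.2 ⟨σ⟩
  refine sub_le_sub (miss_le hq σ.1 t univ σ fun _ _ => rfl) ?_
  rw [div_le_iff₀ hM]
  have : ({ρ | ∃ v, ρ.1 v = σ.1 v} : Finset (Col G q)) ⊆
      univ.biUnion fun v => ({ρ | ρ.1 v = σ.1 v} : Finset (Col G q)) := by
    intro ρ hρ
    simpa using hρ
  have h2 := (card_le_card this).trans card_biUnion_le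
  calc (#({ρ | ∃ v, ρ.1 v = σ.1 v} : Finset (Col G q)) : ℝ)
      ≤ ∑ v, (#({ρ | ρ.1 v = σ.1 v} : Finset (Col G q)) : ℝ) := by exact_mod_cast h2
    _ = _ := by
        simp only [card_agree hq, sum_const, card_univ, nsmul_eq_mul]
        ring

theorem miss_four (t : ℕ) (ht : t ≤ 8) : (377 / 1000 : ℝ) ≤ miss t (univ : Finset (Fin 4)) := by
  have key : ∀ t : ℕ, ∀ S : Finset (Fin 4), miss t S =
      if #S = 0 then 0 else if #S = 1 then (3 / 4) ^ t else if #S = 2 then
        2 * (3 / 4) ^ t - (1 / 2) ^ t else if #S = 3 then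
        3 * (3 / 4) ^ t - 3 * (1 / 2) ^ t + (1 / 4) ^ t else
        4 * (3 / 4) ^ t - 6 * (1 / 2) ^ t + 4 * (1 / 4) ^ t - 0 ^ t := by
    intro t
    induction t with
    | zero =>
      intro S
      simp only [miss, ← card_pos]
      split_ifs <;> first | omega | norm_num
    | succ t ih =>
      intro S
      simp only [miss, ih, card_erase_eq_ite]
      have hS : #S ≤ 4 := by simpa using card_le_univ S
      rw [← sum_add_sum_compl S, sum_congr rfl (g := fun _ => _) fun v hv => by rw [if_pos hv],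
        sum_congr (s₁ := Sᶜ) rfl (g := fun _ => _) fun v hv => by rw [if_neg (mem_compl.1 hv)]]
      simp only [sum_const, card_compl, Fintype.card_fin, nsmul_eq_mul]
      generalize #S = k at hS
      interval_cases k <;> norm_num <;> ring
  rw [key]
  simp only [card_univ, Fintype.card_fin]
  interval_cases t <;> norm_num

end Pool.Agent.H44.Glauber
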