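import Pool.Agent.H44.Glauber1
import Pool.Agent.H44.GlauberTab

open Finset

namespace Pool.Agent.H44.Glauber

section general
variable {V : Type} [Fintype V] [DecidableEq V] {G : SimpleGraph V} [DecidableRel G.Adj] {q : ℕ}

def Nn : ℕ → Col G q → Col G q → ℕ
  | 0, τ, σ => if τ = σ then 1 else 0
  | t + 1, τ, σ => ∑ v, ∑ c, Nn t (move G q τ v c) σ

theorem pow_eq_Nn (t : ℕ) (τ σ : Col G q) :
    (P G q ^ t) τ σ = Nn t τ σ / ((Fintype.card V : ℝ) * q) ^ t := by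
  induction t generalizing τ with
  | zero => simp [Nn, Matrix.one_apply]
  | succ t ih =>
    rw [pow_succ_apply]
    simp only [ih, Nn, ← sum_div]
    push_cast
    rw [div_div, pow_succ]

theorem Nn_le (t : ℕ) (τ σ : Col G q) : Nn t τ σ ≤ (Fintype.card V * q) ^ t := by
  induction t generalizing τ with
  | zero => simp only [Nn]; split_ifs <;> simp
  | succ t ih =>
    simp only [Nn]
    refine (sum_le_sum fun v _ => sum_le_sum fun c _ => ih _).trans_eq ?_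
    simp
    ring

theorem cast_dist (a b : ℕ) : (Nat.dist a b : ℝ) = |(a : ℝ) - b| := by
  rcases le_total a b with h | h
  · rw [Nat.dist_eq_sub_of_le h, Nat.cast_sub h, abs_sub_comm,
      abs_of_nonneg (sub_nonneg.2 (by exact_mod_cast h))]
  · rw [Nat.dist_eq_sub_of_le_right h, Nat.cast_sub h,
      abs_of_nonneg (sub_nonneg.2 (by exact_mod_cast h))]

theorem tv_le_of [Nonempty V] (hq : 0 < q) (σ : Col G q) (t M K : ℕ)
    (h : ∀ F : Fintype (Col G q), @Fintype.card _ F = M ∧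
      ∑ τ ∈ @univ _ F, Nat.dist (Nn t τ σ * M) ((Fintype.card V * q) ^ t) ≤ K) :
    tv G q σ t ≤ (1 / 2) * (K / (M * (Fintype.card V * q) ^ t)) := by
  obtain ⟨h1, h2⟩ := h inferInstance
  have hM : (0 : ℝ) < M := by
    rw [← h1]
    exact_mod_cast Fintype.card_pos_iff.2 ⟨σ⟩
  have hV : (0 : ℝ) < Fintype.card V := by exact_mod_cast Fintype.card_pos
  have hq' : (0 : ℝ) < q := by exact_mod_cast hq
  have e3 : ∀ τ : Col G q, |(P G q ^ t) σ τ - 1 / Fintype.card (Col G q)| =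
      (Nat.dist (Nn t τ σ * M) ((Fintype.card V * q) ^ t) : ℝ) /
        (M * (Fintype.card V * q) ^ t) := by
    intro τ
    have hp : (0 : ℝ) < M * (Fintype.card V * q) ^ t := by positivity
    rw [pow_symm, pow_eq_Nn, h1, cast_dist, eq_div_iff hp.ne', ← abs_of_pos hp, ← abs_mul]
    congr 1
    push_cast
    field_simp
  unfold tv
  simp only [e3, ← sum_div]
  gcongr
  exact_mod_cast h2
end general

instance inst4 : DecidableRel (SimpleGraph.pathGraph 4).Adj :=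
  fun _ _ => decidable_of_iff _ SimpleGraph.pathGraph_adj.symm

abbrev C7 : Type := Col (SimpleGraph.pathGraph 4) 7

theorem proper_iff {q : ℕ} (σ : Fin 4 → Fin q) :
    (∀ u v, (SimpleGraph.pathGraph 4).Adj u v → σ u ≠ σ v) ↔
      ok (σ 0) (σ 1) (σ 2) (σ 3) = true := by
  simp only [ok, Bool.and_eq_true, Bool.not_eq_true', beq_eq_false_iff_ne, ne_eq, Fin.val_inj,
    SimpleGraph.pathGraph_adj]
  constructor
  · intro h
    exact ⟨⟨h 0 1 (by decide), h 1 2 (by decide)⟩, h 2 3 (by decide)⟩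
  · rintro ⟨⟨h1, h2⟩, h3⟩ u v
    fin_cases u <;> fin_cases v <;> simp [h1, h2, h3, Ne.symm h1, Ne.symm h2, Ne.symm h3]

def cd (τ : C7) : ℕ := code (τ.1 0) (τ.1 1) (τ.1 2) (τ.1 3)

theorem get_move (T : ℕ) (τ : C7) (v : Fin 4) (c : Fin 7) :
    get T (cd (move _ 7 τ v c)) = pick T (τ.1 0) (τ.1 1) (τ.1 2) (τ.1 3)
      (Function.update τ.1 v c 0) (Function.update τ.1 v c 1) (Function.update τ.1 v c 2)
      (Function.update τ.1 v c 3) := by
  unfold move pick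
  split_ifs with h
  · rw [(proper_iff _).1 h]
    rfl
  · rw [proper_iff, Bool.not_eq_true] at h
    rw [h]
    rfl

theorem sum7_eq (f : ℕ → ℕ) : sum7 f = ∑ c : Fin 7, f c := by
  simp [sum7, Fin.sum_univ_seven]

theorem all7_iff {f : ℕ → Bool} (h : all7 f = true) (c : Fin 7) : f c = true := by
  simp only [all7, Bool.and_eq_true] at h
  fin_cases c <;> simp [h]

theorem chk_step {T T' : ℕ} (h : chk T T' = true) (τ : C7) :
    get T' (cd τ) = ∑ v, ∑ c, get T (cd (move _ 7 τ v c)) := by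
  have := all7_iff (all7_iff (all7_iff (all7_iff h (τ.1 0)) (τ.1 1)) (τ.1 2)) (τ.1 3)
  rw [(proper_iff _).1 τ.2] at this
  simp only [Bool.not_true, Bool.false_or, beq_iff_eq] at this
  rw [cd, this, nxt, Fin.sum_univ_four]
  simp only [get_move, sum7_eq]
  rfl

def s0 : C7 := ⟨![0, 1, 0, 1], by decide⟩
def s1 : C7 := ⟨![0, 1, 0, 2], by decide⟩
def s2 : C7 := ⟨![0, 1, 2, 0], by decide⟩
def s3 : C7 := ⟨![0, 1, 2, 1], by decide⟩
def s4 : C7 := ⟨![0, 1, 2, 3], by decide⟩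

def pk (t : ℕ) (τ : C7) : ℕ := Nn t τ s0 + 2 ^ 40 * Nn t τ s1 + 2 ^ 80 * Nn t τ s2 +
  2 ^ 120 * Nn t τ s3 + 2 ^ 160 * Nn t τ s4

theorem pk_succ (t : ℕ) (τ : C7) : pk (t + 1) τ = ∑ v, ∑ c, pk t (move _ 7 τ v c) := by
  simp only [pk, Nn, sum_add_distrib, mul_sum]

theorem pk_step {T T' t : ℕ} (h : chk T T' = true) (ih : ∀ τ, get T (cd τ) = pk t τ) (τ : C7) :
    get T' (cd τ) = pk (t + 1) τ := by
  rw [chk_step h, pk_succ]
  simp only [ih]

theorem base_nat : (all7 fun a => all7 fun b => all7 fun c => all7 fun d =>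
    get T0 (code a b c d) == (bif code a b c d == code 0 1 0 1 then 1 else 0) +
      2 ^ 40 * (bif code a b c d == code 0 1 0 2 then 1 else 0) +
      2 ^ 80 * (bif code a b c d == code 0 1 2 0 then 1 else 0) +
      2 ^ 120 * (bif code a b c d == code 0 1 2 1 then 1 else 0) +
      2 ^ 160 * (bif code a b c d == code 0 1 2 3 then 1 else 0)) = true := by decide +kernel

theorem cd_inj {τ σ : C7} (h : cd τ = cd σ) : τ = σ := by
  apply Subtype.ext
  simp only [cd, code] at h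
  have a0 := (τ.1 0).2; have a1 := (τ.1 1).2; have a2 := (τ.1 2).2
  have b0 := (σ.1 0).2; have b1 := (σ.1 1).2; have b2 := (σ.1 2).2
  funext i
  fin_cases i <;> apply Fin.ext <;> simp only [Fin.zero_eta, Fin.mk_one, Fin.reduceFinMk] <;> omega

theorem Nn_zero (τ σ : C7) : Nn 0 τ σ = bif cd τ == cd σ then 1 else 0 := by
  simp only [Nn]
  split_ifs with h
  · simp [h]
  · have : (cd τ == cd σ) = false := by simpa using fun h' => h (cd_inj h')
    simp [this]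

theorem pk_zero (τ : C7) : get T0 (cd τ) = pk 0 τ := by
  have := all7_iff (all7_iff (all7_iff (all7_iff base_nat (τ.1 0)) (τ.1 1)) (τ.1 2)) (τ.1 3)
  rw [beq_iff_eq] at this
  simp only [pk, Nn_zero]
  exact this

theorem pk_eight (τ : C7) : get T8 (cd τ) = pk 8 τ :=
  pk_step chk7 (pk_step chk6 (pk_step chk5 (pk_step chk4 (pk_step chk3 (pk_step chk2
    (pk_step chk1 (pk_step chk0 pk_zero))))))) τ

theorem digits (a b c d e : ℕ) (ha : a < 2 ^ 40) (hb : b < 2 ^ 40) (hc : c < 2 ^ 40)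
    (hd : d < 2 ^ 40) (he : e < 2 ^ 40) {x : ℕ}
    (hx : x = a + 2 ^ 40 * b + 2 ^ 80 * c + 2 ^ 120 * d + 2 ^ 160 * e) :
    x / (2 ^ 40) ^ 0 % 2 ^ 40 = a ∧ x / (2 ^ 40) ^ 1 % 2 ^ 40 = b ∧ x / (2 ^ 40) ^ 2 % 2 ^ 40 = c ∧
      x / (2 ^ 40) ^ 3 % 2 ^ 40 = d ∧ x / (2 ^ 40) ^ 4 % 2 ^ 40 = e := by
  norm_num at *
  omega

theorem dig_eq (τ : C7) :
    dig T8 0 (τ.1 0) (τ.1 1) (τ.1 2) (τ.1 3) = Nn 8 τ s0 ∧
    dig T8 1 (τ.1 0) (τ.1 1) (τ.1 2) (τ.1 3) = Nn 8 τ s1 ∧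
    dig T8 2 (τ.1 0) (τ.1 1) (τ.1 2) (τ.1 3) = Nn 8 τ s2 ∧
    dig T8 3 (τ.1 0) (τ.1 1) (τ.1 2) (τ.1 3) = Nn 8 τ s3 ∧
    dig T8 4 (τ.1 0) (τ.1 1) (τ.1 2) (τ.1 3) = Nn 8 τ s4 := by
  have hb : ∀ σ, Nn 8 τ σ < 2 ^ 40 := fun σ => (Nn_le 8 τ σ).trans_lt (by simp)
  exact digits _ _ _ _ _ (hb _) (hb _) (hb _) (hb _) (hb _) (pk_eight τ)

theorem sum_C7 (F : Fintype C7) (f : ℕ → ℕ → ℕ → ℕ → ℕ) :
    ∑ τ ∈ @univ C7 F, f (τ.1 0) (τ.1 1) (τ.1 2) (τ.1 3) = sum7 fun a => sum7 fun b =>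
      sum7 fun c => sum7 fun d => bif ok a b c d then f a b c d else 0 := by
  simp only [sum7_eq]
  rw [← Finset.sum_subtype (F := F)
    (univ.filter fun σ : Fin 4 → Fin 7 => ok (σ 0) (σ 1) (σ 2) (σ 3) = true)
    (fun σ => by rw [proper_iff]; simp) fun σ => f (σ 0) (σ 1) (σ 2) (σ 3), sum_filter]
  simp only [← Fintype.sum_prod_type']
  refine Fintype.sum_equiv ⟨fun σ => (σ 0, σ 1, σ 2, σ 3), fun p => ![p.1, p.2.1, p.2.2.1, p.2.2.2],
    fun σ => ?_, fun _ => rfl⟩ _ _ fun σ => ?_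
  · funext i
    fin_cases i <;> rfl
  · exact (Bool.cond_eq_ite _ _ _).symm

theorem card_C7 (F : Fintype C7) : @Fintype.card _ F = 1512 := by
  have := sum_C7 F fun _ _ _ _ => 1
  rw [sum_const, card_univ, smul_eq_mul, mul_one] at this
  rw [this]
  decide +kernel

theorem tv_of_tot {k : ℕ} {σ : C7}
    (h : ∀ τ : C7, dig T8 k (τ.1 0) (τ.1 1) (τ.1 2) (τ.1 3) = Nn 8 τ σ)
    (ht : tot T8 k ≤ 417270437227840) : tv _ 7 σ 8 ≤ Real.exp (-1) := by
  refine (tv_le_of (by norm_num) σ 8 1512 417270437227840 fun F => ⟨card_C7 F, ?_⟩).trans ?_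
  · have e := sum_C7 F fun a b c d => Nat.dist (dig T8 k a b c d * 1512) (28 ^ 8)
    simp only [h] at e
    exact e.trans_le ht
  · have := Real.exp_neg_one_gt_d9
    simp only [Fintype.card_fin]
    norm_num at this ⊢
    linarith

theorem tv_seven (σ : C7) : tv _ 7 σ 8 ≤ Real.exp (-1) := by
  have h0 := tv_of_tot (fun τ => (dig_eq τ).1) tot0
  have h1 := tv_of_tot (fun τ => (dig_eq τ).2.1) tot1
  have h2 := tv_of_tot (fun τ => (dig_eq τ).2.2.1) tot2
  have h3 := tv_of_tot (fun τ => (dig_eq τ).2.2.2.1) tot3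
  have h4 := tv_of_tot (fun τ => (dig_eq τ).2.2.2.2) tot4
  have key : ∀ (ρ : C7), (∀ i j, ρ.1 i = ρ.1 j ↔ σ.1 i = σ.1 j) → tv _ 7 ρ 8 ≤ Real.exp (-1) →
      tv _ 7 σ 8 ≤ Real.exp (-1) := by
    intro ρ hρ h
    obtain ⟨g, hg⟩ : ∃ g : Equiv.Perm (Fin 7), ∀ i, g (ρ.1 i) = σ.1 i := by
      let e : Set.range ρ.1 ≃ Set.range σ.1 := Equiv.ofBijective
        (fun x => ⟨σ.1 x.2.choose, _, rfl⟩) ⟨fun x y hxy => Subtype.ext (by
          rw [← x.2.choose_spec, ← y.2.choose_spec]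
          exact (hρ _ _).2 (congrArg Subtype.val hxy)), fun ⟨_, i, hi⟩ =>
            ⟨⟨_, i, rfl⟩, Subtype.ext (((hρ _ _).1
              (Exists.choose_spec (⟨i, rfl⟩ : ∃ y, ρ.1 y = ρ.1 i))).trans hi)⟩⟩
      refine ⟨e.extendSubtype, fun i => ?_⟩
      rw [e.extendSubtype_apply_of_mem _ ⟨i, rfl⟩]
      exact (hρ _ _).1 (Exists.choose_spec (⟨i, rfl⟩ : ∃ y, ρ.1 y = ρ.1 i))
    have : σ = act g ρ := Subtype.ext (funext fun i => (hg i).symm)
    rw [this, tv_act]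
    exact h
  have p1 := σ.2 0 1 (by decide)
  have p2 := σ.2 1 2 (by decide)
  have p3 := σ.2 2 3 (by decide)
  by_cases c02 : σ.1 0 = σ.1 2
  · by_cases c13 : σ.1 1 = σ.1 3
    · refine key s0 (fun i j => ?_) h0
      fin_cases i <;> fin_cases j <;> simp [s0] <;> grind
    · refine key s1 (fun i j => ?_) h1
      fin_cases i <;> fin_cases j <;> simp [s1] <;> grind
  · by_cases c03 : σ.1 0 = σ.1 3
    · refine key s2 (fun i j => ?_) h2
      fin_cases i <;> fin_cases j <;> simp [s2] <;> grind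
    · by_cases c13 : σ.1 1 = σ.1 3
      · refine key s3 (fun i j => ?_) h3
        fin_cases i <;> fin_cases j <;> simp [s3] <;> grind
      · refine key s4 (fun i j => ?_) h4
        fin_cases i <;> fin_cases j <;> simp [s4] <;> grind

theorem tmix_seven : tmix (SimpleGraph.pathGraph 4) 7 ≤ 8 :=
  iInf₂_le_of_le 8 tv_seven le_rfl

theorem tmix_big : 9 ≤ tmix (SimpleGraph.pathGraph 4) 500 := by
  refine le_iInf₂ fun t ht => ?_
  by_contra hc
  have ht8 : t ≤ 8 := by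
    have : (t : ℕ∞) < 9 := not_le.1 hc
    exact Nat.lt_succ_iff.1 (by exact_mod_cast this)
  have h1 := ht ⟨![0, 1, 0, 1], by decide⟩
  have h2 := tv_lower (G := SimpleGraph.pathGraph 4) (q := 500) (by norm_num) t
    ⟨![0, 1, 0, 1], by decide⟩
  have h3 := miss_four t ht8
  have h4 := Real.exp_neg_one_lt_d9
  simp only [Fintype.card_fin] at h2
  norm_num at h2 h3 h4
  linarith

theorem exists_increase : ∃ q, 7 ≤ q ∧
    tmix (SimpleGraph.pathGraph 4) q < tmix (SimpleGraph.pathGraph 4) (q + 1) := by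
  by_contra h
  push Not at h
  have : ∀ q, 7 ≤ q → tmix (SimpleGraph.pathGraph 4) q ≤ 8 := by
    intro q hq
    induction q, hq using Nat.le_induction with
    | base => exact tmix_seven
    | succ q hq ih => exact (h q hq).trans ih
  exact absurd (tmix_big.trans (this 500 (by norm_num))) (by decide)

end Pool.Agent.H44.Glauber
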