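import Mathlib

/-! Glauber dynamics on proper colourings. -/

open Finset

namespace Pool.Agent.H44.Glauber

variable {V : Type} [Fintype V] [DecidableEq V] (G : SimpleGraph V) [DecidableRel G.Adj] (q : ℕ)

/-- Proper `q`-colourings of `G`. -/
abbrev Col : Type := {σ : V → Fin q // ∀ u v, G.Adj u v → σ u ≠ σ v}

/-- Recolour `v` with `c` if the result is proper, otherwise stay. -/
def move (σ : Col G q) (v : V) (c : Fin q) : Col G q :=
  if h : ∀ a b, G.Adj a b → Function.update σ.1 v c a ≠ Function.update σ.1 v c b then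
    ⟨Function.update σ.1 v c, h⟩ else σ

/-- Transition matrix: a uniform vertex and an independent uniform colour. -/
noncomputable def P : Matrix (Col G q) (Col G q) ℝ := fun σ τ =>
  (#{p : V × Fin q | move G q σ p.1 p.2 = τ} : ℝ) / (Fintype.card V * q)

/-- Total variation distance to the uniform law after `t` steps from `σ`. -/
noncomputable def tv (σ : Col G q) (t : ℕ) : ℝ :=
  (1 / 2) * ∑ τ, |(P G q ^ t) σ τ - 1 / Fintype.card (Col G q)|

/-- Mixing time: the least `t` with worst-case distance at most `1/e` (`⊤` if there is none). -/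
noncomputable def tmix : ℕ∞ := ⨅ (t : ℕ) (_ : ∀ σ, tv G q σ t ≤ Real.exp (-1)), (t : ℕ∞)

end Pool.Agent.H44.Glauber
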