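import Pool.Agent.H44.Pei3

/-! Peierls estimate for the planar hard-core model. -/

open Finset

namespace Pool.Agent.H44.Pei

lemma contour' {X : Finset St} {o : St} (h0 : o ∈ X) :
    ∃ t : ℕ × ℕ × List Mv, t.2.1 < 2 * t.1 + 1 ∧ t.2.2 ∈ lists (2 * t.1) ∧ ∃ a ∈ DD X,
      vis ((o.1 + t.2.1, o.2), false) t.2.2 = comp (DD X) a ∧ (comp (DD X) a).card = t.1 + 1 := by
  have h1 : tau (DD X) o ≠ 0 := by rw [tau_DD, ch, if_pos h0]; decide
  obtain ⟨a, ha, h2⟩ := exists_comp h1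
  obtain ⟨x0, hk, h3⟩ := right_edge h2
  have e := comp_eq ha (mem_comp.1 h3).2
  obtain ⟨l, l1, l2⟩ := walk_exists (comp_subset _ _ h3)
  rw [e] at l1 l2
  obtain ⟨x, hx, h4⟩ := left_edge (closed_comp (closed_DD X) a) h2
  rw [← l1] at h4
  have h5 := vis_x h4
  simp only at h5
  obtain ⟨k, rfl⟩ : ∃ k : ℕ, x0 = o.1 + k := ⟨(x0 - o.1).toNat, by omega⟩
  obtain ⟨m, hm⟩ : ∃ m, (comp (DD X) a).card = m + 1 := ⟨(comp (DD X) a).card - 1, by omega⟩
  refine ⟨(m, k, l), by simp only; omega, ?_, a, ha, l1, hm⟩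
  have := mem_lists l
  rwa [show l.length = 2 * m by omega] at this

lemma peierls_sum {α : Type} (S : Finset α) (w : α → ℝ) (φ : α → ℕ × ℕ × List Mv) {Z : ℝ}
    (Z0 : 0 ≤ Z) (hφ : ∀ X ∈ S, (φ X).2.1 < 2 * (φ X).1 + 1 ∧ (φ X).2.2 ∈ lists (2 * (φ X).1))
    (fib : ∀ t, ∑ X ∈ S.filter (fun X => φ X = t), w X ≤ (1 / 2000) ^ (t.1 + 1) * Z) :
    ∑ X ∈ S, w X ≤ 1 / 1000 * Z := by
  classical
  set N := S.sup (fun X => (φ X).1) + 1 with hN
  set T : Finset (ℕ × ℕ × List Mv) :=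
    (range N).biUnion fun m => {m} ×ˢ range (2 * m + 1) ×ˢ lists (2 * m) with hT
  have maps : ∀ X ∈ S, φ X ∈ T := by
    intro X hX
    refine mem_biUnion.2 ⟨(φ X).1,
      mem_range.2 (Nat.lt_succ_of_le (le_sup (f := fun X => (φ X).1) hX)), ?_⟩
    simp only [mem_product, mem_singleton, mem_range, true_and]
    exact hφ X hX
  rw [← sum_fiberwise_of_maps_to maps]
  refine (sum_le_sum fun t _ => fib t).trans ?_
  rw [← sum_mul]
  refine mul_le_mul_of_nonneg_right ?_ Z0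
  rw [hT, sum_biUnion]
  swap
  · intro a _ b _ hab
    simp only [Function.onFun, disjoint_left, mem_product, mem_singleton]
    intro t h1 h2
    exact hab (h1.1.symm.trans h2.1)
  have b : ∀ m ∈ range N, ∑ t ∈ {m} ×ˢ range (2 * m + 1) ×ˢ lists (2 * m),
      (1 / 2000 : ℝ) ^ (t.1 + 1) ≤ 1 / 2000 * (1 / 2 : ℝ) ^ m := by
    intro m _
    rw [sum_product, sum_singleton]
    simp only [sum_const, card_product, card_range, nsmul_eq_mul]
    have c1 : 2 * m + 1 ≤ 3 ^ m := by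
      have := one_add_mul_le_pow (a := (2 : ℤ)) (by norm_num) m
      norm_num at this
      zify; linarith
    have c2 := card_lists (2 * m)
    have c3 : (((2 * m + 1) * (lists (2 * m)).card : ℕ) : ℝ) ≤ 972 ^ m := by
      have : (2 * m + 1) * (lists (2 * m)).card ≤ 972 ^ m := by
        calc _ ≤ 3 ^ m * 18 ^ (2 * m) := Nat.mul_le_mul c1 c2
          _ = _ := by rw [pow_mul, ← mul_pow]; norm_num
      exact_mod_cast this
    have c4 : (972 : ℝ) ^ m * (1 / 2000) ^ m ≤ (1 / 2) ^ m := by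
      rw [← mul_pow]; exact pow_le_pow_left₀ (by positivity) (by norm_num) m
    calc _ ≤ 972 ^ m * (1 / 2000 : ℝ) ^ (m + 1) := mul_le_mul_of_nonneg_right c3 (by positivity)
      _ = 1 / 2000 * (972 ^ m * (1 / 2000) ^ m) := by ring
      _ ≤ _ := mul_le_mul_of_nonneg_left c4 (by norm_num)
  refine (sum_le_sum b).trans ?_
  rw [← mul_sum]
  have := sum_geometric_two_le N
  linarith

def nb (u v : St) : Prop :=
  (u.1 = v.1 ∧ (u.2 = v.2 + 1 ∨ v.2 = u.2 + 1)) ∨ (u.2 = v.2 ∧ (u.1 = v.1 + 1 ∨ v.1 = u.1 + 1))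

lemma nb_symm {u v : St} (h : nb u v) : nb v u := by unfold nb at *; omega

lemma nb_oth (e : Ed) : nb e.1 (oth e) := by
  obtain ⟨i, d⟩ := e; cases d <;> simp [nb, oth]

lemma nb_edge {u v : St} (h : nb u v) :
    ∃ e : Ed, (e.1 = u ∧ oth e = v) ∨ (e.1 = v ∧ oth e = u) := by
  obtain ⟨a, b⟩ := u; obtain ⟨a', b'⟩ := v
  simp only [nb] at h
  rcases h with ⟨rfl, rfl | rfl⟩ | ⟨rfl, rfl | rfl⟩
  · exact ⟨((a, b'), true), Or.inr ⟨rfl, rfl⟩⟩
  · exact ⟨((a, b), true), Or.inl ⟨rfl, rfl⟩⟩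
  · exact ⟨((a', b), false), Or.inr ⟨rfl, rfl⟩⟩
  · exact ⟨((a, b), false), Or.inl ⟨rfl, rfl⟩⟩

def od (c : ℤ) (i : St) : Prop := (i.1 + i.2 + c) % 2 = 1

lemma od_nb {c : ℤ} {u v : St} (h : nb u v) : od c u ↔ ¬ od c v := by unfold nb od at *; omega

def Ind (I : Finset St) : Prop := ∀ u ∈ I, ∀ v ∈ I, ¬ nb u v

open Classical in
noncomputable def Confs (c : ℤ) (m : ℕ) : Finset (Finset St) :=
  ((box (m + 1)).filter fun i => ¬ od c i ∨ i ∈ box m).powerset.filter Ind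

lemma mem_Confs {c : ℤ} {m : ℕ} {I : Finset St} :
    I ∈ Confs c m ↔ (∀ i ∈ I, i ∈ box (m + 1) ∧ (od c i → i ∈ box m)) ∧ Ind I := by
  simp only [Confs, mem_filter, mem_powerset, subset_iff, imp_iff_not_or (a := od c _)]

open Classical in
noncomputable def XX (c : ℤ) (m : ℕ) (I : Finset St) : Finset St :=
  (box (m + 1)).filter fun u => (od c u ∧ u ∈ I) ∨ (¬ od c u ∧ ∃ v ∈ I, nb u v)

lemma mem_XX {c : ℤ} {m : ℕ} {I : Finset St} {u : St} : u ∈ XX c m I ↔
    u ∈ box (m + 1) ∧ ((od c u ∧ u ∈ I) ∨ (¬ od c u ∧ ∃ v ∈ I, nb u v)) := by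
  simp only [XX, mem_filter]

lemma box_nb {m : ℕ} {u v : St} (hu : u ∈ box m) (h : nb u v) : v ∈ box (m + 1) := by
  rw [mem_box] at *; unfold nb at h; push_cast; omega

lemma bd_X {c : ℤ} {m : ℕ} {I : Finset St} (hI : I ∈ Confs c m) {u v : St} (h : nb u v)
    (hu : u ∈ XX c m I) (hv : v ∉ XX c m I) : ¬ od c u ∧ u ∉ I ∧ v ∉ I := by
  obtain ⟨h1, h2⟩ := mem_Confs.1 hI
  simp only [XX, mem_filter] at hu hv
  rcases hu.2 with ⟨a, b⟩ | ⟨a, w, hw, b⟩
  · exact absurd ⟨box_nb ((h1 u b).2 a) h, Or.inr ⟨(od_nb h).1 a, u, b, nb_symm h⟩⟩ hv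
  · refine ⟨a, fun hh => h2 u hh w hw b, fun hh => hv ⟨(h1 v hh).1, Or.inl ⟨?_, hh⟩⟩⟩
    by_contra hc; exact a ((od_nb h).2 hc)

lemma kappa_const {X : Finset St} {a e : Ed} (he : e ∈ comp (DD X) a) (ha : a ∈ DD X) :
    ch (e.1 ∈ X) + tau (comp (DD X) a) e.1 = ch (a.1 ∈ X) + tau (comp (DD X) a) a.1 := by
  have hc := closed_comp (closed_DD X) a
  set κ : St → ZMod 2 := fun i => ch (i ∈ X) + tau (comp (DD X) a) i with hκ
  have step : ∀ e ∈ comp (DD X) a, ∀ e', adj e e' → κ e'.1 = κ (oth e') := by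
    intro e he e' h
    have h1 : ch (e' ∈ comp (DD X) a) = ch (e' ∈ DD X) := by
      have : e' ∈ comp (DD X) a ↔ e' ∈ DD X :=
        ⟨fun h2 => comp_subset _ _ h2, fun h2 => mem_comp.2 ⟨h2, (mem_comp.1 he).2.tail ⟨h2, h⟩⟩⟩
      simp only [ch, this]
    simp only [hκ]
    rw [tau_oth hc e', h1, ch_DD]
    linear_combination two_eq (ch (e'.1 ∈ X))
  have two : ∀ e ∈ comp (DD X) a, ∀ e', adj e e' → κ e.1 = κ e'.1 := by
    rintro ⟨⟨x, y⟩, d⟩ he ⟨⟨x', y'⟩, d'⟩ ⟨h1, h2⟩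
    simp only [abs_le] at h1 h2
    have a1 : κ (x, y) = κ (x', y) := by
      rcases lt_trichotomy x x' with h | h | h
      · have := step _ he ((x, y), false) ⟨by simp, by simp⟩
        rwa [show oth ((x, y), false) = (x', y) by simp [oth]; omega] at this
      · rw [h]
      · have := step _ he ((x', y), false) ⟨abs_le.2 h1, by simp⟩
        rw [show oth ((x', y), false) = (x, y) by simp [oth]; omega] at this
        exact this.symm
    have a2 : κ (x', y) = κ (x', y') := by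
      rcases lt_trichotomy y y' with h | h | h
      · have := step _ he ((x', y), true) ⟨abs_le.2 h1, by simp⟩
        rwa [show oth ((x', y), true) = (x', y') by simp [oth]; omega] at this
      · rw [h]
      · have := step _ he ((x', y'), true) ⟨abs_le.2 h1, abs_le.2 h2⟩
        rw [show oth ((x', y'), true) = (x', y) by simp [oth]; omega] at this
        exact this.symm
    exact a1.trans a2
  change κ e.1 = κ a.1
  have hr := (mem_comp.1 he).2
  clear he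
  induction hr with
  | refl => rfl
  | tail h1 h2 ih => rw [← ih, two _ (mem_comp.2 ⟨(reach_symm ha h1).1, h1⟩) _ h2.2]

noncomputable def TT (m : ℕ) (γ : Finset Ed) : Finset St := (box (m + 1)).filter fun i => tau γ i ≠ 0

structure Cut (c : ℤ) (m : ℕ) (I T : Finset St) : Prop where
  sub : ∀ u ∈ T, u ∈ box (m + 1) ∧ (od c u → u ∈ box m)
  emp : ∀ u ∈ T, ∀ v ∉ T, nb u v → u ∉ I ∧ v ∉ I
  par : ∀ u ∈ T, ∀ v ∉ T, nb u v → ∀ u' ∈ T, ∀ v' ∉ T, nb u' v' → (od c u ↔ od c u')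

lemma cut_comp {c : ℤ} {m : ℕ} {I : Finset St} (hI : I ∈ Confs c m) {a : Ed}
    (ha : a ∈ DD (XX c m I)) :
    Cut c m I (TT m (comp (DD (XX c m I)) a)) ∧
      DD (TT m (comp (DD (XX c m I)) a)) = comp (DD (XX c m I)) a := by
  set X := XX c m I with hX
  set γ := comp (DD X) a with hγ
  have hc : Closed γ := closed_comp (closed_DD X) a
  have hXb : X ⊆ box (m + 1) := fun u hu => (mem_XX.1 hu).1
  have mT : ∀ i, i ∈ TT m γ ↔ tau γ i ≠ 0 := fun i =>
    ⟨fun h => (mem_filter.1 h).2, fun h => mem_filter.2 ⟨tau_box hXb hc (comp_subset _ _) h, h⟩⟩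
  have hD : DD (TT m γ) = γ := by
    ext e
    rw [mem_DD, mT, mT, tau_oth hc e]
    generalize tau γ (oth e) = t
    unfold ch
    by_cases h : e ∈ γ <;> simp only [h, if_true, if_false] <;> revert t <;> decide
  have key : ∀ u ∈ TT m γ, ∀ v ∉ TT m γ, nb u v → u ∉ I ∧ v ∉ I ∧ (u ∈ X ↔ ¬ od c u) ∧
      (od c u → v ∈ X) ∧ ch (u ∈ X) + 1 = ch (a.1 ∈ X) + tau γ a.1 := by
    intro u hu v hv h
    obtain ⟨e, he⟩ := nb_edge h
    have h1 : e ∈ γ := by
      rw [← hD, mem_DD]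
      rcases he with ⟨rfl, rfl⟩ | ⟨rfl, rfl⟩
      · exact fun hh => hv (hh.1 hu)
      · exact fun hh => hv (hh.2 hu)
    have h2 : ¬ (u ∈ X ↔ v ∈ X) := by
      have := mem_DD.1 (comp_subset _ _ h1)
      rcases he with ⟨rfl, rfl⟩ | ⟨rfl, rfl⟩
      · exact this
      · exact fun hh => this hh.symm
    have h3 := kappa_const h1 ha
    have t1 : tau γ u = 1 := by
      have := (mT u).1 hu
      revert this; generalize tau γ u = t; revert t; decide
    have t0 : tau γ v = 0 := not_not.1 fun hh => hv ((mT v).2 hh)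
    have h4 : ch (u ∈ X) + 1 = ch (a.1 ∈ X) + tau γ a.1 := by
      rw [← h3]
      rcases he with ⟨rfl, rfl⟩ | ⟨rfl, rfl⟩
      · rw [t1]
      · rw [t0]; unfold ch
        by_cases hh : oth e ∈ X
        · rw [if_pos hh, if_neg (fun h' => h2 (iff_of_true hh h'))]; decide
        · rw [if_neg hh, if_pos (not_not.1 fun h' => h2 (iff_of_false hh h'))]; decide
    by_cases hh : u ∈ X
    · obtain ⟨b1, b2, b3⟩ := bd_X hI h hh (fun h' => h2 (iff_of_true hh h'))
      exact ⟨b2, b3, iff_of_true hh b1, fun h' => absurd h' b1, h4⟩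
    · have hvX : v ∈ X := not_not.1 fun h' => h2 (iff_of_false hh h')
      obtain ⟨b1, b2, b3⟩ := bd_X hI (nb_symm h) hvX hh
      have := (od_nb (c := c) h).2 b1
      exact ⟨b3, b2, iff_of_false hh (not_not.2 this), fun _ => hvX, h4⟩
  refine ⟨⟨fun u hu => ⟨(mem_filter.1 hu).1, fun ho => ?_⟩, fun u hu v hv h =>
    ⟨(key u hu v hv h).1, (key u hu v hv h).2.1⟩, fun u hu v hv h u' hu' v' hv' h' => ?_⟩, hD⟩
  · by_contra hb
    have hb' := (mem_filter.1 hu).1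
    have : ∃ v, nb u v ∧ v ∉ box (m + 1) := by
      rw [mem_box] at hb hb'
      push_cast at hb'
      by_cases c1 : u.1 = m + 1
      · exact ⟨(u.1 + 1, u.2), by simp [nb], by rw [mem_box]; push_cast; omega⟩
      by_cases c2 : u.1 = -(m + 1)
      · exact ⟨(u.1 - 1, u.2), by simp [nb], by rw [mem_box]; push_cast; omega⟩
      by_cases c3 : u.2 = m + 1
      · exact ⟨(u.1, u.2 + 1), by simp [nb], by rw [mem_box]; push_cast; omega⟩
      · exact ⟨(u.1, u.2 - 1), by simp [nb], by rw [mem_box]; push_cast; omega⟩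
    obtain ⟨v, h1, h2⟩ := this
    exact h2 (hXb ((key u hu v (fun hh => h2 (mem_filter.1 hh).1) h1).2.2.2.1 ho))
  · obtain ⟨-, -, a1, -, a2⟩ := key u hu v hv h
    obtain ⟨-, -, b1, -, b2⟩ := key u' hu' v' hv' h'
    have : ch (u ∈ X) = ch (u' ∈ X) := add_right_cancel (a2.trans b2.symm)
    have h5 : u ∈ X ↔ u' ∈ X := by
      unfold ch at this
      split_ifs at this with h6 h7 h7
      · exact iff_of_true h6 h7
      · exact absurd this (by decide)
      · exact absurd this (by decide)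
      · exact iff_of_false h6 h7
    exact not_iff_not.1 (a1.symm.trans (h5.trans b1))

lemma exists_dir (T : Finset St) :
    ∃ δ, nb 0 δ ∧ (DD T).card ≤ 4 * (T.filter fun u => u - δ ∉ T).card := by
  have h := card_DD T
  have e : (T.filter fun u => u - (0, -1) ∉ T).card + (T.filter fun u => u - (0, 1) ∉ T).card +
      (T.filter fun u => u - (-1, 0) ∉ T).card + (T.filter fun u => u - (1, 0) ∉ T).card +
      ∑ i ∈ T, jj T i = 4 * T.card := by
    simp only [card_filter]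
    rw [← sum_add_distrib, ← sum_add_distrib, ← sum_add_distrib, ← sum_add_distrib,
      card_eq_sum_ones, mul_sum]
    refine sum_congr rfl fun i _ => ?_
    have e1 : i - (0, -1) = oth (i, true) := by ext <;> simp [oth]
    have e2 : i - (0, 1) = bk (i, true) := by ext <;> simp [bk]
    have e3 : i - (-1, 0) = oth (i, false) := by ext <;> simp [oth]
    have e4 : i - (1, 0) = bk (i, false) := by ext <;> simp [bk]
    simp only [jj, Fintype.sum_bool, e1, e2, e3, e4, ite_not]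
    split_ifs <;> rfl
  by_contra hc
  push Not at hc
  have := hc (0, -1) (by simp [nb])
  have := hc (0, 1) (by simp [nb])
  have := hc (-1, 0) (by simp [nb])
  have := hc (1, 0) (by simp [nb])
  omega

def Psi (T : Finset St) (δ : St) (I J : Finset St) : Finset St :=
  (I \ T ∪ (I ∩ T).image (· + δ)) ∪ J

section psi
variable {c : ℤ} {m : ℕ} {T I J : Finset St} {δ : St}

lemma nb_add (hδ : nb 0 δ) (u : St) : nb u (u + δ) := by
  simp only [nb, Prod.fst_add, Prod.snd_add, Prod.fst_zero, Prod.snd_zero] at *; omega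

lemma nb_sub (hδ : nb 0 δ) (u : St) : nb u (u - δ) := by
  simp only [nb, Prod.fst_sub, Prod.snd_sub, Prod.fst_zero, Prod.snd_zero] at *; omega

lemma sh_mem (h : Cut c m I T) {s v : St} (hs : s ∈ I) (hT : s ∈ T) (hv : nb s v) : v ∈ T := by
  by_contra hc; exact (h.emp s hT v hc hv).1 hs

lemma mem_Psi {u : St} : u ∈ Psi T δ I J ↔ (u ∈ I ∧ u ∉ T) ∨ (u - δ ∈ I ∧ u - δ ∈ T) ∨ u ∈ J := by
  simp only [Psi, mem_union, mem_sdiff, mem_image, mem_inter, or_assoc, ← eq_sub_iff_add_eq,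
    exists_eq_right]

lemma Psi_mem (hI : I ∈ Confs c m) (h : Cut c m I T) (hδ : nb 0 δ)
    (hJ : J ⊆ T.filter fun u => u - δ ∉ T) : Psi T δ I J ∈ Confs c m := by
  obtain ⟨h1, h2⟩ := mem_Confs.1 hI
  have hB : ∀ u, u - δ ∈ I ∧ u - δ ∈ T → u ∈ T := fun u hu =>
    sh_mem h hu.1 hu.2 (nb_symm (nb_sub hδ u))
  have hJ' : ∀ u ∈ J, u ∈ T ∧ u - δ ∉ T := fun u hu => mem_filter.1 (hJ hu)
  have tr : ∀ u v, nb u v → nb (u - δ) (v - δ) := fun u v huv => by
    simp only [nb, Prod.fst_sub, Prod.snd_sub] at *; omega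
  refine mem_Confs.2 ⟨fun u hu => ?_, fun u hu v hv huv => ?_⟩
  · rcases mem_Psi.1 hu with a | a | a
    · exact h1 u a.1
    · exact h.sub u (hB u a)
    · exact h.sub u (hJ' u a).1
  · rcases mem_Psi.1 hu with a | a | a <;> rcases mem_Psi.1 hv with b | b | b
    · exact h2 u a.1 v b.1 huv
    · exact (h.emp v (hB v b) u a.2 (nb_symm huv)).2 a.1
    · exact (h.emp v (hJ' v b).1 u a.2 (nb_symm huv)).2 a.1
    · exact (h.emp u (hB u a) v b.2 huv).2 b.1
    · exact h2 _ a.1 _ b.1 (tr u v huv)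
    · exact (hJ' v b).2 (sh_mem h a.1 a.2 (tr u v huv))
    · exact (h.emp u (hJ' u a).1 v b.2 huv).2 b.1
    · exact (hJ' u a).2 (sh_mem h b.1 b.2 (tr v u (nb_symm huv)))
    · have p := h.par u (hJ' u a).1 _ (hJ' u a).2 (nb_sub hδ u) v (hJ' v b).1 _ (hJ' v b).2
        (nb_sub hδ v)
      have := od_nb (c := c) huv
      tauto

lemma Psi_card (h : Cut c m I T) (hδ : nb 0 δ) (hJ : J ⊆ T.filter fun u => u - δ ∉ T) :
    (Psi T δ I J).card = I.card + J.card := by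
  have hJ' : ∀ u ∈ J, u ∈ T ∧ u - δ ∉ T := fun u hu => mem_filter.1 (hJ hu)
  rw [Psi, card_union_of_disjoint, card_union_of_disjoint,
    card_image_of_injective _ (add_left_injective δ), card_sdiff_add_card_inter]
  · rw [disjoint_left]
    intro u h1 h2
    obtain ⟨s, hs, rfl⟩ := mem_image.1 h2
    exact (mem_sdiff.1 h1).2 (sh_mem h (mem_inter.1 hs).1 (mem_inter.1 hs).2 (nb_add hδ s))
  · rw [disjoint_left]
    intro u h1 h2
    rcases mem_union.1 h1 with h3 | h3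
    · exact (mem_sdiff.1 h3).2 (hJ' u h2).1
    · obtain ⟨s, hs, rfl⟩ := mem_image.1 h3
      exact (hJ' _ h2).2 (by simpa using (mem_inter.1 hs).2)

lemma Psi_rec (h : Cut c m I T) (hδ : nb 0 δ) (hJ : J ⊆ T.filter fun u => u - δ ∉ T) (u : St) :
    (u ∈ J ↔ u ∈ Psi T δ I J ∧ u ∈ T ∧ u - δ ∉ T) ∧
    (u ∈ I ↔ (u ∈ Psi T δ I J ∧ u ∉ T) ∨ (u ∈ T ∧ u + δ ∈ Psi T δ I J ∧ u + δ ∈ T)) := by
  have hB : ∀ u, u - δ ∈ I ∧ u - δ ∈ T → u ∈ T := fun u hu =>
    sh_mem h hu.1 hu.2 (nb_symm (nb_sub hδ u))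
  have hJ' : ∀ u ∈ J, u ∈ T ∧ u - δ ∉ T := fun u hu => mem_filter.1 (hJ hu)
  have a := hB u
  have b := hJ' u
  have c1 := hB (u + δ)
  have d := hJ' (u + δ)
  simp only [mem_Psi, add_sub_cancel_right] at *
  tauto

end psi

noncomputable def lam : ℝ := 2000 ^ 4 - 1

theorem hc_peierls (c : ℤ) (m : ℕ) {o : St} (ho : od c o) :
    ∑ I ∈ (Confs c m).filter (fun I => o ∈ I), lam ^ I.card ≤
      1 / 1000 * ∑ I ∈ Confs c m, lam ^ I.card := by
  classical
  have l0 : 0 ≤ lam := by unfold lam; norm_num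
  set S := (Confs c m).filter (fun I => o ∈ I) with hS
  have : ∀ I, ∃ t : ℕ × ℕ × List Mv, I ∈ S → (t.2.1 < 2 * t.1 + 1 ∧ t.2.2 ∈ lists (2 * t.1)) ∧
      Cut c m I (TT m (vis ((o.1 + t.2.1, o.2), false) t.2.2)) ∧
      (DD (TT m (vis ((o.1 + t.2.1, o.2), false) t.2.2))).card = t.1 + 1 := by
    intro I
    by_cases h : I ∈ S
    · obtain ⟨h1, h2⟩ := mem_filter.1 h
      obtain ⟨t, t1, t2, a, ha, t3, t4⟩ := contour' (X := XX c m I) (o := o)
        (mem_XX.2 ⟨((mem_Confs.1 h1).1 o h2).1, Or.inl ⟨ho, h2⟩⟩)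
      refine ⟨t, fun _ => ⟨⟨t1, t2⟩, ?_⟩⟩
      rw [t3, (cut_comp h1 ha).2]
      exact ⟨(cut_comp h1 ha).1, t4⟩
    · exact ⟨(0, 0, []), fun h' => absurd h' h⟩
  choose φ hφ using this
  have Z0 : 0 ≤ ∑ I ∈ Confs c m, lam ^ I.card := sum_nonneg fun _ _ => by positivity
  refine peierls_sum S _ φ Z0 (fun I hI => (hφ I hI).1) fun t => ?_
  set A := S.filter (fun I => φ I = t) with hA
  rcases A.eq_empty_or_nonempty with e | ⟨I0, hI0⟩
  · rw [e, sum_empty]; positivity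
  set T := TT m (vis ((o.1 + t.2.1, o.2), false) t.2.2) with hT
  have hAc : ∀ I ∈ A, I ∈ Confs c m ∧ Cut c m I T ∧ (DD T).card = t.1 + 1 := by
    intro I hI
    obtain ⟨a, rfl⟩ := mem_filter.1 hI
    exact ⟨(mem_filter.1 a).1, (hφ I a).2⟩
  obtain ⟨δ, hδ, hF⟩ := exists_dir T
  rw [(hAc I0 hI0).2.2] at hF
  set F := T.filter fun u => u - δ ∉ T with hFd
  have key : (∑ I ∈ A, lam ^ I.card) * (lam + 1) ^ F.card ≤ ∑ I ∈ Confs c m, lam ^ I.card := by
    have e1 : (lam + 1) ^ F.card = ∑ J ∈ F.powerset, lam ^ J.card := by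
      rw [← sum_pow_mul_eq_add_pow]; simp
    rw [e1, sum_mul_sum, ← sum_product']
    have e2 : ∑ p ∈ A ×ˢ F.powerset, lam ^ p.1.card * lam ^ p.2.card =
        ∑ Y ∈ (A ×ˢ F.powerset).image (fun p => Psi T δ p.1 p.2), lam ^ Y.card := by
      rw [sum_image]
      · refine sum_congr rfl fun p hp => ?_
        obtain ⟨p1, p2⟩ := mem_product.1 hp
        rw [Psi_card (hAc _ p1).2.1 hδ (mem_powerset.1 p2), pow_add]
      · intro p hp p' hp' e
        obtain ⟨p1, p2⟩ := mem_product.1 hp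
        obtain ⟨q1, q2⟩ := mem_product.1 hp'
        have r1 := Psi_rec (hAc _ p1).2.1 hδ (mem_powerset.1 p2)
        have r2 := Psi_rec (hAc _ q1).2.1 hδ (mem_powerset.1 q2)
        simp only at e
        ext u
        · rw [(r1 u).2, (r2 u).2, e]
        · rw [(r1 u).1, (r2 u).1, e]
    rw [e2]
    refine sum_le_sum_of_subset_of_nonneg (fun Y hY => ?_) fun _ _ _ => by positivity
    obtain ⟨p, hp, rfl⟩ := mem_image.1 hY
    obtain ⟨p1, p2⟩ := mem_product.1 hp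
    exact Psi_mem (hAc _ p1).1 (hAc _ p1).2.1 hδ (mem_powerset.1 p2)
  have b : (2000 : ℝ) ^ (t.1 + 1) ≤ (lam + 1) ^ F.card := by
    rw [lam, sub_add_cancel, ← pow_mul]
    exact pow_le_pow_right₀ (by norm_num) hF
  have a0 : 0 ≤ ∑ I ∈ A, lam ^ I.card := sum_nonneg fun _ _ => by positivity
  rw [one_div_pow, one_div_mul_eq_div, le_div_iff₀ (by positivity)]
  exact (mul_le_mul_of_nonneg_left b a0).trans key

end Pool.Agent.H44.Pei
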