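import Pool.Agent.H44.HCDefs

open Set Filter Topology MeasureTheory ProbabilityTheory
open scoped NNReal unitInterval

namespace Pool.Agent.H44.KCM

lemma IsLocal.continuous {β : Type} [TopologicalSpace β] {f : Conf → β} (h : IsLocal f) :
    Continuous f := by
  obtain ⟨S, hS⟩ := h
  refine continuous_iff_continuousAt.2 fun η => tendsto_const_nhds.congr' ?_
  have : ∀ᶠ η' in 𝓝 η, ∀ x ∈ S, η x = η' x := by
    rw [eventually_all_finset]
    intro x _
    have := (continuous_apply x).continuousAt (x := η)
    rw [ContinuousAt, nhds_discrete Bool, tendsto_pure] at this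
    exact this.mono fun _ h => h.symm
  exact this.mono fun η' h => hS _ _ h

lemma IsLocal.measurableSet {E : Set Conf} (h : IsLocal (· ∈ E)) : MeasurableSet E := by
  classical
  have : IsLocal fun η => decide (η ∈ E) := by
    obtain ⟨S, hS⟩ := h
    exact ⟨S, fun η η' hh => by simp only [hS η η' hh]⟩
  have e : E = (fun η => decide (η ∈ E)) ⁻¹' {true} := by ext η; simp
  rw [e]
  exact this.continuous.measurable (measurableSet_singleton _)

lemma IsLocal.bin {α β γ : Type} {f : Conf → α} {g : Conf → β} (hf : IsLocal f) (hg : IsLocal g)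
    (op : α → β → γ) : IsLocal fun η => op (f η) (g η) := by
  classical
  obtain ⟨S, hS⟩ := hf
  obtain ⟨T, hT⟩ := hg
  exact ⟨S ∪ T, fun η η' h => by
    simp only [hS η η' fun x hx => h x (Finset.mem_union_left _ hx),
      hT η η' fun x hx => h x (Finset.mem_union_right _ hx)]⟩

lemma IsLocal.comp {α β : Type} {f : Conf → α} (hf : IsLocal f) (op : α → β) :
    IsLocal fun η => op (f η) := hf.bin hf fun a _ => op a

lemma isLocal_apply (x : ℤ × ℤ) : IsLocal fun η => η x :=
  ⟨{x}, fun _ _ h => h x (Finset.mem_singleton_self x)⟩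

lemma isLocal_const {β : Type} (b : β) : IsLocal fun _ => b := ⟨∅, fun _ _ _ => rfl⟩

noncomputable def locAlg : Subalgebra ℝ C(Conf, ℝ) where
  carrier := {f | IsLocal f}
  mul_mem' := fun hf hg => hf.bin hg (· * ·)
  add_mem' := fun hf hg => hf.bin hg (· + ·)
  algebraMap_mem' := fun r => isLocal_const (algebraMap ℝ ℝ r)

lemma dense_loc : Dense {f : C(Conf, ℝ) | IsLocal f} := by
  have h : locAlg.SeparatesPoints := by
    intro η η' hne
    obtain ⟨x, hx⟩ := Function.ne_iff.1 hne
    have hl : IsLocal fun ζ : Conf => if ζ x then (1 : ℝ) else 0 :=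
      (isLocal_apply x).comp fun b => if b then (1 : ℝ) else 0
    refine ⟨_, ⟨⟨_, hl.continuous⟩, hl, rfl⟩, ?_⟩
    simp only [ContinuousMap.coe_mk]
    cases h1 : η x <;> cases h2 : η' x <;> simp_all
  have := ContinuousMap.subalgebra_topologicalClosure_eq_top_of_separatesPoints _ h
  intro f
  have h2 : f ∈ locAlg.topologicalClosure := by rw [this]; trivial
  exact h2

noncomputable def ell (μ : Measure Conf) [IsProbabilityMeasure μ] : C(Conf, ℝ) →L[ℝ] ℝ :=
  LinearMap.mkContinuous
    { toFun := fun f => ∫ η, f η ∂μ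
      map_add' := fun f g => integral_add
        (f.continuous.integrable_of_hasCompactSupport (HasCompactSupport.of_compactSpace _))
        (g.continuous.integrable_of_hasCompactSupport (HasCompactSupport.of_compactSpace _))
      map_smul' := fun a f => by simp [integral_const_mul] } 1 fun f => by
    have := norm_integral_le_of_norm_le_const (μ := μ) (f := f) (C := ‖f‖)
      (Eventually.of_forall fun η => f.norm_coe_le_norm η)
    simpa using this

theorem stationary_of {q : ℝ} {c : ℤ × ℤ → Conf → ℝ} {μ : Measure Conf} [IsProbabilityMeasure μ]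
    (hg : ∀ f, IsLocal f → Continuous (gen q c f))
    (h : ∀ f, IsLocal f → ∫ η, gen q c f η ∂μ = 0) : Stationary q c μ := by
  refine ⟨inferInstance, h, fun P hP t f => ?_⟩
  have z : ∀ f g : C(Conf, ℝ),
      Tendsto (fun t : ℝ≥0 => (t : ℝ)⁻¹ • (P t f - f)) (𝓝[>] 0) (𝓝 g) → ell μ g = 0 := by
    intro f g hfg
    have hc : IsClosed {u : C(Conf, ℝ) × C(Conf, ℝ) | ell μ u.2 = 0} :=
      isClosed_eq (by fun_prop) continuous_const
    refine hc.closure_subset_iff.2 (fun u hu => ?_) ((hP.generator f g).1 hfg)
    exact (integral_congr_ae (Eventually.of_forall hu.2)).trans (h _ hu.1)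
  have loc : ∀ f : C(Conf, ℝ), IsLocal f → ell μ (P t f) = ell μ f := by
    intro f hf
    have h1 := (hP.generator f ⟨_, hg f hf⟩).2 (subset_closure ⟨hf, fun _ => rfl⟩)
    have h2 : ∀ s : ℝ≥0, Tendsto (fun u : ℝ≥0 => (u : ℝ)⁻¹ * (ell μ (P (s + u) f) - ell μ (P s f)))
        (𝓝[>] 0) (𝓝 0) := by
      intro s
      have a : Tendsto (fun u : ℝ≥0 => (u : ℝ)⁻¹ • (P u (P s f) - P s f)) (𝓝[>] 0)
          (𝓝 (P s ⟨_, hg f hf⟩)) := by
        refine (((hP.bdd s).tendsto _).comp h1).congr fun u => ?_
        simp only [Function.comp, (hP.lin s).map_smul, (hP.lin s).map_sub, ← hP.add, add_comm]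
      have b := ((ell μ).continuous.tendsto _).comp a
      rw [z _ _ a] at b
      refine b.congr fun u => ?_
      simp only [Function.comp, map_smul, map_sub, ← hP.add, add_comm, smul_eq_mul]
    have h3 := constant_of_has_deriv_right_zero (f := fun s : ℝ => ell μ (P s.toNNReal f))
      (a := 0) (b := t)
      ((ell μ).continuous.comp ((hP.cont f).comp continuous_real_toNNReal)).continuousOn
      (fun s hs => by
        rw [← hasDerivWithinAt_Ioi_iff_Ici, hasDerivWithinAt_iff_tendsto_slope' self_notMem_Ioi]
        have a : Tendsto (fun y : ℝ => (y - s).toNNReal) (𝓝[>] s) (𝓝[>] 0) := by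
          refine tendsto_nhdsWithin_iff.2 ⟨?_, ?_⟩
          · have : Tendsto (fun y : ℝ => (y - s).toNNReal) (𝓝 s) (𝓝 (s - s).toNNReal) :=
              (continuous_real_toNNReal.comp (continuous_id.sub continuous_const)).tendsto s
            rw [sub_self, Real.toNNReal_zero] at this
            exact this.mono_left nhdsWithin_le_nhds
          · filter_upwards [self_mem_nhdsWithin] with y hy
            exact Real.toNNReal_pos.2 (sub_pos.2 hy)
        refine ((h2 s.toNNReal).comp a).congr' ?_
        filter_upwards [self_mem_nhdsWithin] with y hy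
        have hy' : 0 ≤ y - s := (sub_pos.2 hy).le
        simp only [Function.comp, slope_def_field]
        rw [← Real.toNNReal_add hs.1 hy', Real.coe_toNNReal _ hy', add_sub_cancel,
          div_eq_inv_mul]) t ⟨t.2, le_rfl⟩
    simpa [hP.zero] using h3
  exact (isClosed_eq (f := fun f => ell μ (P t f)) (g := fun f => ell μ f)
    ((ell μ).continuous.comp (hP.bdd t)) (by fun_prop)).closure_subset_iff.2 loc (dense_loc f)

end Pool.Agent.H44.KCM
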