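import Pool.Agent.H44.HC1
import Pool.Agent.H44.HC2

open Filter Topology MeasureTheory ProbabilityTheory Finset
open scoped NNReal unitInterval

namespace Pool.Agent.H44.KCM

open Pei

def cfg (J : Finset St) : Conf := fun x => decide (x ∈ J)

noncomputable def ZZ (c : ℤ) (m : ℕ) : ℝ := ∑ J ∈ Confs c m, lam ^ J.card

lemma lam_pos : 0 < lam := by unfold lam; norm_num

lemma ZZ_pos (c : ℤ) (m : ℕ) : 0 < ZZ c m :=
  sum_pos (fun _ _ => pow_pos lam_pos _) ⟨∅, mem_Confs.2 ⟨by simp, by simp [Ind]⟩⟩

noncomputable def mu (c : ℤ) (m : ℕ) : Measure Conf :=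
  ∑ J ∈ Confs c m, ENNReal.ofReal (lam ^ J.card / ZZ c m) • Measure.dirac (cfg J)

lemma integral_mu (c : ℤ) (m : ℕ) (f : Conf → ℝ) :
    ∫ η, f η ∂mu c m = (∑ J ∈ Confs c m, lam ^ J.card * f (cfg J)) / ZZ c m := by
  rw [mu, integral_finsetSum_measure, sum_div]
  · refine sum_congr rfl fun J _ => ?_
    rw [integral_smul_measure, integral_dirac, ENNReal.toReal_ofReal
      (div_nonneg (pow_pos lam_pos _).le (ZZ_pos c m).le), smul_eq_mul]
    ring
  · exact fun J _ => (integrable_dirac (by simp)).smul_measure ENNReal.ofReal_ne_top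

instance (c : ℤ) (m : ℕ) : IsProbabilityMeasure (mu c m) := by
  constructor
  simp only [mu, Measure.coe_finsetSum, Finset.sum_apply, Measure.smul_apply, measure_univ,
    smul_eq_mul, mul_one]
  rw [← ENNReal.ofReal_sum_of_nonneg fun _ _ => div_nonneg (pow_pos lam_pos _).le (ZZ_pos c m).le,
    ← sum_div]
  exact (congrArg ENNReal.ofReal (div_self (ZZ_pos c m).ne')).trans ENNReal.ofReal_one

noncomputable def muP (c : ℤ) (m : ℕ) : ProbabilityMeasure Conf := ⟨mu c m, inferInstance⟩

noncomputable def muL (c : ℤ) : ProbabilityMeasure Conf := ((hyperfilter ℕ).map (muP c)).lim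

lemma tendsto_muL (c : ℤ) {f : Conf → ℝ} (hf : IsLocal f) :
    Tendsto (fun m => (∑ J ∈ Confs c m, lam ^ J.card * f (cfg J)) / ZZ c m) (hyperfilter ℕ)
      (𝓝 (∫ η, f η ∂(muL c : Measure Conf))) := by
  have h : Tendsto (muP c) (hyperfilter ℕ) (𝓝 (muL c)) := ((hyperfilter ℕ).map (muP c)).le_nhds_lim
  have := ProbabilityMeasure.tendsto_iff_forall_integral_tendsto.1 h
    (BoundedContinuousFunction.mkOfCompact ⟨f, hf.continuous⟩)
  refine this.congr fun m => ?_
  exact integral_mu c m f

lemma hyper_le : (hyperfilter ℕ : Filter ℕ) ≤ atTop := by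
  rw [← Nat.cofinite_eq_atTop]; exact hyperfilter_le_cofinite

lemma fa4_eq (x : St) (η : Conf) :
    (fa4 x η = 1 ∧ ∀ y, nb x y → η y = false) ∨ (fa4 x η = 0 ∧ ∃ y, nb x y ∧ η y = true) := by
  unfold fa4
  split_ifs with h
  · refine Or.inl ⟨rfl, fun y hy => ?_⟩
    obtain ⟨a, b⟩ := y
    obtain ⟨h1, h2, h3, h4⟩ := h
    simp only [nb] at hy
    rcases hy with ⟨rfl, e | rfl⟩ | ⟨rfl, e | rfl⟩
    · rwa [show b = x.2 - 1 by omega]
    · exact h3
    · rwa [show a = x.1 - 1 by omega]
    · exact h1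
  · refine Or.inr ⟨rfl, ?_⟩
    by_contra hc
    push Not at hc
    simp only [ne_eq, Bool.not_eq_true] at hc
    exact h ⟨hc _ (by simp [nb]), hc _ (by simp [nb]), hc _ (by simp [nb]), hc _ (by simp [nb])⟩

lemma fa4_local (x : St) : IsLocal (fa4 x) :=
  (((isLocal_apply (x.1 + 1, x.2)).bin (isLocal_apply (x.1 - 1, x.2)) Prod.mk).bin
    ((isLocal_apply (x.1, x.2 + 1)).bin (isLocal_apply (x.1, x.2 - 1)) Prod.mk)
    fun u v => if u.1 = false ∧ u.2 = false ∧ v.1 = false ∧ v.2 = false then (1 : ℝ) else 0)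

lemma fa4_kcm : IsKCM fa4 1 := by
  refine ⟨fun x η => by unfold fa4; split_ifs <;> norm_num, fun x η η' h => ?_⟩
  unfold fa4
  rw [h (x.1 + 1, x.2), h (x.1 - 1, x.2), h (x.1, x.2 + 1), h (x.1, x.2 - 1)] <;>
    simp [Prod.ext_iff, Prod.dist_eq, sub_eq_self]

open Classical in
lemma ins_sum {c : ℤ} {m : ℕ} {x : St} (hx : x ∈ box m) (F : Finset St → ℝ) :
    ∑ J ∈ (Confs c m).filter (fun J => x ∈ J), F J =
      ∑ J ∈ (Confs c m).filter (fun J => x ∉ J ∧ ∀ v ∈ J, ¬ nb x v), F (insert x J) := by
  symm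
  refine sum_bij' (fun J _ => insert x J) (fun J _ => J.erase x) ?_ ?_ ?_ ?_ fun _ _ => rfl
  · intro J hJ
    obtain ⟨h1, h2, h3⟩ := mem_filter.1 hJ
    obtain ⟨h4, h5⟩ := mem_Confs.1 h1
    refine mem_filter.2 ⟨mem_Confs.2 ⟨fun i hi => ?_, fun u hu v hv => ?_⟩, mem_insert_self _ _⟩
    · rcases mem_insert.1 hi with rfl | hi
      · exact ⟨box_mono (Nat.le_succ m) hx, fun _ => hx⟩
      · exact h4 i hi
    · rcases mem_insert.1 hu with rfl | hu' <;> rcases mem_insert.1 hv with rfl | hv'
      · unfold nb; omega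
      · exact h3 v hv'
      · exact fun h => h3 u hu' (nb_symm h)
      · exact h5 u hu' v hv'
  · intro J hJ
    obtain ⟨h1, h2⟩ := mem_filter.1 hJ
    obtain ⟨h4, h5⟩ := mem_Confs.1 h1
    exact mem_filter.2 ⟨mem_Confs.2 ⟨fun i hi => h4 i (mem_of_mem_erase hi), fun u hu v hv =>
      h5 u (mem_of_mem_erase hu) v (mem_of_mem_erase hv)⟩, notMem_erase _ _,
      fun v hv => h5 x h2 v (mem_of_mem_erase hv)⟩
  · exact fun J hJ => erase_insert (mem_filter.1 hJ).2.1
  · exact fun J hJ => insert_erase (mem_filter.1 hJ).2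

noncomputable def qq : ℝ := 1 / 2000 ^ 4

lemma flip_cfg {x : St} {J : Finset St} (h : x ∉ J) :
    flipAt (cfg J) x = cfg (insert x J) ∧ flipAt (cfg (insert x J)) x = cfg J := by
  constructor <;> funext y <;> by_cases hy : y = x
  · subst hy; simp [flipAt, cfg, h]
  · simp [flipAt, cfg, hy]
  · subst hy; simp [flipAt, cfg, h]
  · simp [flipAt, cfg, hy]

lemma bal {c : ℤ} {m : ℕ} {x : St} (hx : x ∈ box m) (f : Conf → ℝ) :
    ∑ J ∈ Confs c m, lam ^ J.card * (fa4 x (cfg J) * (if cfg J x then qq else 1 - qq) *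
      (f (flipAt (cfg J) x) - f (cfg J))) = 0 := by
  classical
  rw [← sum_filter_add_sum_filter_not _ (fun J => x ∈ J), ins_sum hx,
    ← sum_filter_add_sum_filter_not ((Confs c m).filter fun J => x ∉ J) (fun J => ∀ v ∈ J, ¬ nb x v),
    filter_filter, ← add_assoc, ← sum_add_distrib, sum_eq_zero, sum_eq_zero, add_zero]
  · intro J hJ
    have h := (mem_filter.1 hJ).2
    rcases fa4_eq x (cfg J) with ⟨-, h1⟩ | ⟨h1, -⟩
    · refine absurd (fun v hv hh => ?_) h
      have := h1 v hh
      simp [cfg, hv] at this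
    · simp [h1]
  · intro J hJ
    obtain ⟨-, h1, h2⟩ := mem_filter.1 hJ
    have a : ∀ K : Finset St, (∀ v ∈ K, ¬ nb x v) → fa4 x (cfg K) = 1 := by
      intro K hK
      rcases fa4_eq x (cfg K) with ⟨h, -⟩ | ⟨-, y, h3, h4⟩
      · exact h
      · exact absurd h3 (hK y (by simpa [cfg] using h4))
    rw [(flip_cfg h1).1, (flip_cfg h1).2, a J h2, a (insert x J) (fun v hv => by
      rcases mem_insert.1 hv with rfl | hv
      · unfold nb; omega
      · exact h2 v hv), card_insert_of_notMem h1, if_pos (by simp [cfg]),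
      if_neg (by simp [cfg, h1]), pow_succ]
    generalize lam ^ J.card = w
    unfold lam qq
    ring

lemma gen_eq {q : ℝ} {c : St → Conf → ℝ} {f : Conf → ℝ} {S : Finset St}
    (hS : ∀ η η', (∀ x ∈ S, η x = η' x) → f η = f η') (η : Conf) :
    gen q c f η = ∑ x ∈ S, c x η * (if η x then q else 1 - q) * (f (flipAt η x) - f η) := by
  refine tsum_eq_sum fun x hx => ?_
  rw [hS (flipAt η x) η fun y hy => Function.update_of_ne (by rintro rfl; exact hx hy) _ _,
    sub_self, mul_zero]

lemma gen_local {q : ℝ} {f : Conf → ℝ} (hf : IsLocal f) : IsLocal (gen q fa4 f) := by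
  obtain ⟨S, hS⟩ := hf
  rw [funext (gen_eq hS)]
  have : ∀ T : Finset St, IsLocal fun η =>
      ∑ x ∈ T, fa4 x η * (if η x then q else 1 - q) * (f (flipAt η x) - f η) := by
    intro T
    induction T using Finset.cons_induction_on with
    | empty => exact isLocal_const _
    | cons a T ha ih =>
      simp only [sum_cons]
      refine IsLocal.bin ?_ ih (· + ·)
      refine (((fa4_local a).bin (isLocal_apply a) fun u b => u * (if b then q else 1 - q)).bin
        (IsLocal.bin (f := fun η => f (flipAt η a)) ?_ ⟨S, hS⟩ (· - ·)) (· * ·))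
      refine ⟨S, fun η η' h => hS _ _ fun y hy => ?_⟩
      by_cases e : y = a
      · subst e; simp [flipAt, h y hy]
      · simp [flipAt, e, h y hy]
  exact this S

lemma ev_box (x : St) : ∀ᶠ m in atTop, x ∈ box m := by
  filter_upwards [eventually_ge_atTop (x.1.natAbs + x.2.natAbs)] with m hm
  rw [mem_box]; omega

theorem muL_stat (c : ℤ) : Stationary qq fa4 (muL c : Measure Conf) := by
  refine stationary_of (fun f hf => (gen_local hf).continuous) fun f hf => ?_
  refine tendsto_nhds_unique (tendsto_muL c (gen_local hf)) (tendsto_const_nhds.congr' ?_)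
  obtain ⟨S, hS⟩ := hf
  filter_upwards [hyper_le ((eventually_all_finset S).2 fun x _ => ev_box x)] with m hm
  simp only [gen_eq hS, mul_sum]
  rw [sum_comm, sum_eq_zero fun x hx => bal (hm x hx) f, zero_div]

def occ (x : St) (η : Conf) : ℝ := if η x then 1 else 0

lemma occ_local (x : St) : IsLocal (occ x) := (isLocal_apply x).comp fun b => if b then 1 else 0

lemma sum_occ (c : ℤ) (m : ℕ) (x : St) : ∑ J ∈ Confs c m, lam ^ J.card * occ x (cfg J) =
    ∑ J ∈ (Confs c m).filter (fun J => x ∈ J), lam ^ J.card := by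
  rw [sum_filter]
  exact sum_congr rfl fun J _ => by by_cases h : x ∈ J <;> simp [occ, cfg, h]

theorem muL_one : ∫ η, occ 0 η ∂(muL 1 : Measure Conf) ≤ 1 / 1000 := by
  refine le_of_tendsto' (tendsto_muL 1 (occ_local 0)) fun m => ?_
  rw [sum_occ, div_le_iff₀ (ZZ_pos _ _)]
  exact hc_peierls 1 m (by simp [od])

theorem muL_zero : 1 / 2 ≤ ∫ η, occ 0 η ∂(muL 0 : Measure Conf) := by
  classical
  refine ge_of_tendsto' (tendsto_muL 0 (occ_local 0)) fun m => ?_
  have h0 : (0 : St) ∈ box m := by simp [mem_box]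
  rw [sum_occ, le_div_iff₀ (ZZ_pos _ _)]
  have e1 := sum_filter_add_sum_filter_not (Confs 0 m) (fun J => (0 : St) ∈ J)
    fun J => lam ^ J.card
  have e2 := sum_filter_add_sum_filter_not ((Confs 0 m).filter fun J => (0 : St) ∉ J)
    (fun J => ∀ v ∈ J, ¬ nb 0 v) fun J => lam ^ J.card
  have e3 := ins_sum (c := 0) h0 fun J => lam ^ J.card
  rw [filter_filter] at e2
  have e4 : ∑ J ∈ (Confs 0 m).filter (fun J => (0 : St) ∉ J ∧ ∀ v ∈ J, ¬ nb 0 v),
      lam ^ (insert 0 J).card =
      lam * ∑ J ∈ (Confs 0 m).filter (fun J => (0 : St) ∉ J ∧ ∀ v ∈ J, ¬ nb 0 v), lam ^ J.card := by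
    rw [mul_sum]
    exact sum_congr rfl fun J hJ => by
      rw [card_insert_of_notMem (mem_filter.1 hJ).2.1, pow_succ']
  have e5 : ∑ J ∈ ((Confs 0 m).filter fun J => (0 : St) ∉ J).filter
      (fun J => ¬ ∀ v ∈ J, ¬ nb 0 v), lam ^ J.card ≤
      ∑ J ∈ Confs 0 m, lam ^ J.card * (occ (1, 0) (cfg J) + occ (-1, 0) (cfg J) +
        occ (0, 1) (cfg J) + occ (0, -1) (cfg J)) := by
    have o0 : ∀ x η, 0 ≤ occ x η := fun x η => by unfold occ; split_ifs <;> norm_num
    refine le_trans (sum_le_sum fun J hJ => ?_) (sum_le_sum_of_subset_of_nonneg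
      ((filter_subset _ _).trans (filter_subset _ _)) fun J _ _ =>
        mul_nonneg (pow_pos lam_pos _).le
          (add_nonneg (add_nonneg (add_nonneg (o0 _ _) (o0 _ _)) (o0 _ _)) (o0 _ _)))
    refine le_mul_of_one_le_right (pow_pos lam_pos _).le ?_
    have h := (mem_filter.1 hJ).2
    push Not at h
    obtain ⟨⟨a, b⟩, h1, h2⟩ := h
    have o1 : occ (a, b) (cfg J) = 1 := by simp [occ, cfg, h1]
    have := o0 (1, 0) (cfg J); have := o0 (-1, 0) (cfg J)
    have := o0 (0, 1) (cfg J); have := o0 (0, -1) (cfg J)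
    simp only [nb, Prod.fst_zero, Prod.snd_zero] at h2
    rcases h2 with ⟨rfl, e | rfl⟩ | ⟨rfl, e | rfl⟩
    · obtain rfl : b = -1 := by omega
      linarith
    · rw [zero_add] at o1; linarith
    · obtain rfl : a = -1 := by omega
      linarith
    · rw [zero_add] at o1; linarith
  simp only [mul_add, sum_add_distrib, sum_occ] at e5
  have p1 := hc_peierls 0 m (o := (1, 0)) (by simp [od])
  have p2 := hc_peierls 0 m (o := (-1, 0)) (by simp [od])
  have p3 := hc_peierls 0 m (o := (0, 1)) (by simp [od])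
  have p4 := hc_peierls 0 m (o := (0, -1)) (by simp [od])
  have l1 : 1 ≤ lam := by unfold lam; norm_num
  have z := ZZ_pos 0 m
  unfold ZZ at z ⊢
  have a0 : 0 ≤ ∑ J ∈ (Confs 0 m).filter (fun J => (0 : St) ∉ J ∧ ∀ v ∈ J, ¬ nb 0 v),
      lam ^ J.card := sum_nonneg fun _ _ => (pow_pos lam_pos _).le
  have l2 : 100 ≤ lam := by unfold lam; norm_num
  nlinarith

theorem muL_pair (c : ℤ) {x y : St} (h : nb x y) :
    ∫ η, occ x η * occ y η ∂(muL c : Measure Conf) = 0 := by
  refine tendsto_nhds_unique (tendsto_muL c ((occ_local x).bin (occ_local y) (· * ·)))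
    (tendsto_const_nhds.congr fun m => ?_)
  rw [sum_eq_zero, zero_div]
  intro J hJ
  have := (mem_Confs.1 hJ).2 x
  by_cases h1 : x ∈ J <;> by_cases h2 : y ∈ J <;> simp [occ, cfg, h1, h2]
  exact absurd h (this h1 y h2)

theorem not_rep (q : I) : ¬ (Representable q fa4 (muL 0 : Measure Conf) ∧
    Representable q fa4 (muL 1 : Measure Conf)) := by
  have key : ∀ c, Representable q fa4 (muL c : Measure Conf) →
      ∫ η, occ 0 η ∂(muL c : Measure Conf) = piCond q fa4 (fun _ => false) (occ 0) := by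
    rintro c ⟨ν, hν, hA, hf⟩
    have h1 : ∀ x y, nb x y → ∀ᵐ β ∂ν, piCond q fa4 β (fun η => occ x η * occ y η) = 0 := by
      intro x y hxy
      have hl := (occ_local x).bin (occ_local y) (· * ·)
      obtain ⟨m1, m2⟩ := hf _ hl
      rw [muL_pair c hxy] at m2
      have hE : IsLocal (· ∈ {η : Conf | η x = true ∧ η y = true}) :=
        (isLocal_apply x).bin (isLocal_apply y) fun a b => a = true ∧ b = true
      have b : ∀ᵐ β ∂ν, piCond q fa4 β (fun η => occ x η * occ y η) ∈ Set.Icc (0 : ℝ) 1 := by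
        filter_upwards [hA] with β hβ
        obtain ⟨a, ha⟩ := hβ.2.2 _ hE
        have e : ∀ L, ∫ η, occ x η * occ y η ∂cond (piq q) (AL fa4 L β) =
            (cond (piq q) (AL fa4 L β)).real {η : Conf | η x = true ∧ η y = true} := by
          intro L
          rw [← integral_indicator_one hE.measurableSet]
          congr 1
          funext η
          cases h1 : η x <;> cases h2 : η y <;> simp [occ, Set.indicator, h1, h2]
        simp only [piCond, e, ha.limUnder_eq]
        exact ⟨ge_of_tendsto' ha fun _ => measureReal_nonneg,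
          le_of_tendsto' ha fun _ => measureReal_le_one⟩
      exact (integral_eq_zero_iff_of_nonneg_ae (b.mono fun _ h => h.1)
        (Integrable.of_mem_Icc 0 1 m1 b)).1 m2.symm
    have h2 : ∀ᵐ β ∂ν, β = fun _ => false := by
      have : ∀ᵐ β ∂ν, ∀ x y, nb x y → piCond q fa4 β (fun η => occ x η * occ y η) = 0 :=
        ae_all_iff.2 fun x => ae_all_iff.2 fun y => by
          by_cases h : nb x y
          · exact (h1 x y h).mono fun _ a _ => a
          · exact Eventually.of_forall fun _ a => absurd a h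
      filter_upwards [this, hA] with β h3 h4
      funext x
      by_contra hx
      rw [Bool.not_eq_false] at hx
      have h5 : fill fa4 Set.univ β x = true := by rw [h4.1, hx]
      simp only [fill, decide_eq_true_eq, Set.mem_univ, if_true] at h5
      have h6 := h5 1
      simp only [Function.iterate_one, step, Set.mem_univ, true_and] at h6
      rcases fa4_eq x β with ⟨h7, -⟩ | ⟨-, y, h7, h8⟩
      · simp [h7] at h6
      have h9 : Tendsto (fun L => ∫ η, occ x η * occ y η ∂cond (piq q) (AL fa4 L β)) atTop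
          (𝓝 1) := by
        refine tendsto_const_nhds.congr' ?_
        filter_upwards [h4.2.1, ev_box x, ev_box y] with L l1 l2 l3
        have bx : ∀ z, z ∈ Box L ↔ z ∈ Pei.box L := fun z => by
          simp only [Box, Set.mem_ofPred_eq, mem_box, abs_le]
        have hm : MeasurableSet (AL fa4 L β) := by
          refine IsLocal.measurableSet ⟨Pei.box L, fun η η' h => ?_⟩
          have : fill fa4 (Box L) η = fill fa4 (Box L) η' := by
            classical
            have e : (fun w => if w ∈ Box L then η w else true) =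
                fun w => if w ∈ Box L then η' w else true := by
              funext w
              split_ifs with hw
              · exact h w ((bx w).1 hw)
              · rfl
            unfold fill
            rw [e]
          simp only [AL, Set.mem_ofPred_eq, this]
        have : IsProbabilityMeasure (piq q) := by unfold piq; infer_instance
        have := cond_isProbabilityMeasure l1.ne'
        have : ∀ᵐ η ∂cond (piq q) (AL fa4 L β), occ x η * occ y η = 1 := by
          filter_upwards [ae_cond_mem hm] with η hη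
          have a : ∀ z ∈ Pei.box L, β z = true → η z = true := by
            intro z hz hb
            have := hη z ((bx z).2 hz)
            rw [hb] at this
            simp only [fill, decide_eq_true_eq] at this
            simpa [(bx z).2 hz] using this 0
          simp [occ, a x l2 hx, a y l3 h8]
        rw [integral_congr_ae this]
        simp
      have := h3 x y h7
      rw [piCond, h9.limUnder_eq] at this
      exact one_ne_zero this
    rw [(hf _ (occ_local 0)).2, integral_congr_ae
      (g := fun _ => piCond q fa4 (fun _ => false) (occ 0)) (h2.mono fun β h => by rw [h])]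
    simp
  rintro ⟨h0, h1⟩
  have := muL_zero
  have := muL_one
  linarith [key 0 h0, key 1 h1]

end Pool.Agent.H44.KCM
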