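import Mathlib

/-! Kinetically constrained models on the square lattice (`true` = filled, `false` = empty). -/

open Set Filter Topology MeasureTheory ProbabilityTheory
open scoped NNReal unitInterval

namespace Pool.Agent.H44.KCM

abbrev Conf : Type := ℤ × ℤ → Bool

/-- `η` flipped at `x` -/
def flipAt (η : Conf) (x : ℤ × ℤ) : Conf := Function.update η x (!η x)

/-- rates `c_x ≥ 0` depending only on the sites `y` with `0 < ‖y - x‖ ≤ r` -/
def IsKCM (c : ℤ × ℤ → Conf → ℝ) (r : ℕ) : Prop :=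
  (∀ x η, 0 ≤ c x η) ∧
    ∀ x η η', (∀ y, y ≠ x → dist y x ≤ r → η y = η' y) → c x η = c x η'

/-- `f` depends on finitely many sites -/
def IsLocal {β : Type} (f : Conf → β) : Prop :=
  ∃ S : Finset (ℤ × ℤ), ∀ η η', (∀ x ∈ S, η x = η' x) → f η = f η'

/-- the generator on local functions -/
noncomputable def gen (q : ℝ) (c : ℤ × ℤ → Conf → ℝ) (f : Conf → ℝ) (η : Conf) : ℝ :=
  ∑' x, c x η * (if η x then q else 1 - q) * (f (flipAt η x) - f η)

/-- `g` is the derivative at `0` of `t ↦ P_t f` (in the sup norm) -/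
def GenLim (P : ℝ≥0 → C(Conf, ℝ) → C(Conf, ℝ)) (f g : C(Conf, ℝ)) : Prop :=
  Tendsto (fun t : ℝ≥0 => (t : ℝ)⁻¹ • (P t f - f)) (𝓝[>] 0) (𝓝 g)

/-- the closure of the graph of `gen` on local functions -/
def Graph (q : ℝ) (c : ℤ × ℤ → Conf → ℝ) : Set (C(Conf, ℝ) × C(Conf, ℝ)) :=
  closure {u | IsLocal u.1 ∧ ∀ η, u.2 η = gen q c u.1 η}

/-- `P` is the strongly continuous semigroup on `C(Ω)` whose generator is the closure of `gen`
on local functions -/
structure IsSemigroup (q : ℝ) (c : ℤ × ℤ → Conf → ℝ) (P : ℝ≥0 → C(Conf, ℝ) → C(Conf, ℝ)) :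
    Prop where
  lin : ∀ t, IsLinearMap ℝ (P t)
  bdd : ∀ t, Continuous (P t)
  zero : ∀ f, P 0 f = f
  add : ∀ s t f, P (s + t) f = P s (P t f)
  cont : ∀ f, Continuous fun t => P t f
  generator : ∀ f g, GenLim P f g ↔ (f, g) ∈ Graph q c

/-- stationary measure: `μ(L f) = 0` for local `f`, and `μ P_t = μ` -/
def Stationary (q : ℝ) (c : ℤ × ℤ → Conf → ℝ) (μ : Measure Conf) : Prop :=
  IsProbabilityMeasure μ ∧ (∀ f, IsLocal f → ∫ η, gen q c f η ∂μ = 0) ∧
    ∀ P, IsSemigroup q c P → ∀ t (f : C(Conf, ℝ)), ∫ η, P t f η ∂μ = ∫ η, f η ∂μ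

open Classical in
/-- one bootstrap step on the sites of `Λ` -/
noncomputable def step (c : ℤ × ℤ → Conf → ℝ) (Λ : Set (ℤ × ℤ)) (η : Conf) : Conf :=
  fun x => if x ∈ Λ ∧ 0 < c x η then false else η x

open Classical in
/-- `[η]_Λ`: the limit of the bootstrap iteration on `Λ`, the sites outside `Λ` kept filled -/
noncomputable def fill (c : ℤ × ℤ → Conf → ℝ) (Λ : Set (ℤ × ℤ)) (η : Conf) : Conf :=
  fun x => decide (∀ n, (step c Λ)^[n] (fun y => if y ∈ Λ then η y else true) x = true)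

def Box (L : ℕ) : Set (ℤ × ℤ) := {x | |x.1| ≤ L ∧ |x.2| ≤ L}

/-- `A_L(β)` -/
def AL (c : ℤ × ℤ → Conf → ℝ) (L : ℕ) (β : Conf) : Set Conf :=
  {η | ∀ x ∈ Box L, fill c (Box L) η x = β x}

/-- product measure, each site empty with probability `q` -/
noncomputable def piq (q : I) : Measure Conf :=
  Measure.infinitePi fun _ => bernoulliMeasure false true q

def Admissible (q : I) (c : ℤ × ℤ → Conf → ℝ) (β : Conf) : Prop :=
  fill c univ β = β ∧ (∀ᶠ L in atTop, 0 < piq q (AL c L β)) ∧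
    ∀ E : Set Conf, IsLocal (· ∈ E) →
      ∃ a, Tendsto (fun L => (cond (piq q) (AL c L β)).real E) atTop (𝓝 a)

/-- `π_β(f)` -/
noncomputable def piCond (q : I) (c : ℤ × ℤ → Conf → ℝ) (β : Conf) (f : Conf → ℝ) : ℝ :=
  limUnder atTop fun L => ∫ η, f η ∂cond (piq q) (AL c L β)

/-- `μ` is a mixture of the measures `π_β` -/
def Representable (q : I) (c : ℤ × ℤ → Conf → ℝ) (μ : Measure Conf) : Prop :=
  ∃ ν : Measure Conf, IsProbabilityMeasure ν ∧ (∀ᵐ β ∂ν, Admissible q c β) ∧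
    ∀ f, IsLocal f → AEMeasurable (fun β => piCond q c β f) ν ∧
      ∫ η, f η ∂μ = ∫ β, piCond q c β f ∂ν

/-- the FA-4f constraint: all four neighbours of `x` are empty -/
def fa4 (x : ℤ × ℤ) (η : Conf) : ℝ :=
  if η (x.1 + 1, x.2) = false ∧ η (x.1 - 1, x.2) = false ∧ η (x.1, x.2 + 1) = false ∧
    η (x.1, x.2 - 1) = false then 1 else 0

end Pool.Agent.H44.KCM
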