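import Pool.Agent.H44.FEDefs

open MeasureTheory

namespace Pool.Agent.H44.FE

/-- the FKG inequality for increasing events -/
def FKG {d : ℕ} (μ : Measure (Cfg d)) : Prop :=
  ∀ A B : Set (Cfg d), MeasurableSet A → MeasurableSet B → IsUpperSet A → IsUpperSet B →
    μ A * μ B ≤ μ (A ∩ B)

open Classical in
/-- the open edges with both endpoints in the half-plane `y ≥ 0` -/
noncomputable def half (ω : Cfg 2) : Cfg 2 := fun e => ω e && decide (∀ x ∈ e.1, 0 ≤ x 1)

end Pool.Agent.H44.FE
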