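import Pool.Agent.H44.FE3
import Pool.Agent.H44.HPDefs

/-! Multiscale U-shaped obstacles: deterministic part. -/

open Set Filter

namespace Pool.Agent.H44.FE

abbrev VV : Type := Fin 2 → ℤ
abbrev Idx : Type := (ℕ × VV × VV) ⊕ (Zd 2).edgeSet

def nn (k : ℕ) : ℕ := k + 19 ^ 8
def MM (k : ℕ) : ℕ := Nat.nthRoot 8 (nn k)
def LL : ℕ → ℕ
  | 0 => 1
  | k + 1 => MM k * LL k

lemma MM_ge (k : ℕ) : 19 ≤ MM k := (Nat.le_nthRoot_iff (by norm_num)).2 (Nat.le_add_left _ _)

lemma LL_gt (k : ℕ) : k < LL k := by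
  induction k with
  | zero => exact Nat.one_pos
  | succ k ih => have := MM_ge k; simp only [LL]; nlinarith

lemma LL_mono : Monotone LL := monotone_nat_of_le_succ fun k => by
  have := MM_ge k; simp only [LL]; nlinarith

lemma LL_succ (k : ℕ) : (LL (k + 1) : ℤ) = MM k * LL k := by simp [LL]

lemma conn_symm {d : ℕ} {ω : Cfg d} {x y : Fin d → ℤ} (h : Conn ω x y) : Conn ω y x := by
  induction h with
  | refl => exact conn_refl _ _
  | tail _ h2 ih =>
    obtain ⟨h3, h4⟩ := h2
    exact Relation.ReflTransGen.head ⟨h3.symm, by simpa only [Sym2.eq_swap] using h4⟩ ih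

def Cover (L : ℤ) (v w x y : VV) : Prop :=
  (Zd 2).Adj v w ∧ (∀ i, |x i - v i| ≤ L) ∧ ¬ (∀ i, |y i - v i| ≤ L) ∧ y - x ≠ w - v

def cov (k : ℕ) (v w : VV) (e : (Zd 2).edgeSet) : Prop := ∃ x y, e.1 = s(x, y) ∧ Cover (LL k) v w x y

noncomputable def YY (g : ℕ → ℕ) (ω : Idx → ℕ) : Cfg 2 := fun e =>
  @decide (1 ≤ ω (.inr e) ∧ ∀ k v w, cov k v w e → ω (.inl (k, v, w)) = 0 → g k < ω (.inr e))
    (Classical.propDecidable _)

lemma YY_iff {g : ℕ → ℕ} {ω : Idx → ℕ} {e : (Zd 2).edgeSet} : YY g ω e = true ↔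
    1 ≤ ω (.inr e) ∧ ∀ k v w, cov k v w e → ω (.inl (k, v, w)) = 0 → g k < ω (.inr e) :=
  @decide_eq_true_iff _ (Classical.propDecidable _)

def Tch (L : ℤ) (v w x : VV) : Prop := ∃ i j s, i ≠ j ∧ (s = 1 ∨ s = -1) ∧ w - v = Pi.single i s ∧
  (((-s * (x i - v i) = L ∨ -s * (x i - v i) = L + 1) ∧ |x j - v j| ≤ L) ∨
    ((|x j - v j| = L ∨ |x j - v j| = L + 1) ∧ |x i - v i| ≤ L))

lemma fin2 (i : Fin 2) : ∃ j, i ≠ j ∧ ∀ m, m = i ∨ m = j := by revert i; decide

lemma Cover.tch {L : ℤ} {v w x y : VV} (h : Cover L v w x y) (a : (Zd 2).Adj x y) :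
    Tch L v w x ∧ Tch L v w y := by
  obtain ⟨h1, h2, h3, h4⟩ := h
  obtain ⟨i, s, hs, e⟩ := adj_iff.1 h1
  obtain ⟨m, t, ht, e'⟩ := adj_iff.1 a
  obtain ⟨j, hij, hj⟩ := fin2 i
  have a1 := congrFun e' i
  have a2 := congrFun e' j
  have b1 := h2 i
  have b2 := h2 j
  have b3 : ¬ (|y i - v i| ≤ L ∧ |y j - v j| ≤ L) := fun hh => h3 fun m => by
    rcases hj m with rfl | rfl
    · exact hh.1
    · exact hh.2
  simp only [Pi.sub_apply] at a1 a2
  rcases hj m with rfl | rfl
  · have : t ≠ s := by rintro rfl; exact h4 (e'.trans e.symm)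
    rw [Pi.single_eq_same] at a1
    rw [Pi.single_eq_of_ne hij.symm] at a2
    constructor <;> refine ⟨m, j, s, hij, hs, e, Or.inl ?_⟩ <;>
      rcases hs with rfl | rfl <;> simp only [abs_le] at * <;> omega
  · rw [Pi.single_eq_same] at a2
    rw [Pi.single_eq_of_ne hij] at a1
    constructor <;> refine ⟨i, m, s, hij, hs, e, Or.inr ?_⟩ <;>
      simp only [Int.abs_eq_natAbs] at * <;> omega

lemma Tch.near {L : ℤ} {v w x : VV} (h : Tch L v w x) :
    (∀ m, |x m - v m| ≤ L + 1) ∧ (∀ m, |w m - v m| ≤ 1) ∧ ∃ m, L ≤ |x m - v m| := by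
  obtain ⟨i, j, s, hij, hs, e, h⟩ := h
  have hj : ∀ m, m = i ∨ m = j := by revert hij; generalize i = a; generalize j = b; revert a b; decide
  refine ⟨fun m => ?_, fun m => ?_, ?_⟩
  · rcases hj m with rfl | rfl <;> rcases hs with rfl | rfl <;>
      simp only [Int.abs_eq_natAbs] at * <;> omega
  · rw [← Pi.sub_apply, e, Pi.single_apply]
    split_ifs <;> rcases hs with rfl | rfl <;> simp
  · rcases h with h | h
    · exact ⟨i, by rcases hs with rfl | rfl <;> simp only [Int.abs_eq_natAbs] at * <;> omega⟩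
    · exact ⟨j, by omega⟩

lemma direction {L L' : ℤ} (hL : 1 ≤ L) {v w : VV}
    (h : ∀ x, (∀ m, |x m| ≤ 12 * L) → ¬ Tch L' v w x) : ∃ i j σ, i ≠ j ∧ (σ = 1 ∨ σ = -1) ∧
      ∀ x : VV, 0 ≤ x j → x j ≤ 12 * L → -L ≤ σ * x i → ¬ Tch L' v w x := by
  by_cases hu : Un (w - v); swap
  · exact ⟨0, 1, 1, by decide, Or.inl rfl, fun x _ _ _ ⟨i, _, s, _, hs, e, _⟩ => hu ⟨i, s, hs, e⟩⟩
  obtain ⟨i, s, hs, e⟩ := hu
  obtain ⟨j, hij, hj⟩ := fin2 i
  have key : ∀ x, Tch L' v w x ↔
      (((-s * (x i - v i) = L' ∨ -s * (x i - v i) = L' + 1) ∧ |x j - v j| ≤ L') ∨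
      ((|x j - v j| = L' ∨ |x j - v j| = L' + 1) ∧ |x i - v i| ≤ L')) := by
    refine fun x => ⟨?_, fun h => ⟨i, j, s, hij, hs, e, h⟩⟩
    rintro ⟨i', j', s', h1, h2, h3, h4⟩
    have := congrFun (e.symm.trans h3) i
    rw [Pi.single_eq_same, Pi.single_apply] at this
    split_ifs at this with h5
    · subst h5 this
      obtain rfl : j' = j := (hj j').resolve_left h1.symm
      exact h4
    · omega
  by_cases c : -s * v i + L' + 1 < -L
  · refine ⟨i, j, -s, hij, by omega, fun x _ _ h3 => ?_⟩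
    rw [key]
    rcases hs with rfl | rfl <;> simp only [Int.abs_eq_natAbs] <;> omega
  · refine ⟨i, j, s, hij, hs, fun x h1 h2 h3 h4 => ?_⟩
    by_cases c2 : |x i| ≤ 12 * L
    · refine h x (fun m => ?_) h4
      rcases hj m with rfl | rfl
      · exact c2
      · rw [abs_le]; omega
    · refine h (Function.update x i (-s * min (-s * v i + L') 0)) (fun m => ?_) ?_
      · rcases hj m with rfl | rfl
        · rw [Function.update_self, abs_le]; rcases hs with rfl | rfl <;> omega
        · rw [Function.update_of_ne hij.symm, abs_le]; omega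
      · rw [key] at h4 ⊢
        rw [Function.update_self, Function.update_of_ne hij.symm]
        rcases hs with rfl | rfl <;> simp only [Int.abs_eq_natAbs] at * <;> omega

def Far (y c : VV) : Prop := ∃ i, 5 ≤ |y i - c i|

def free (a c : ℤ) : ℤ := if 5 ≤ c - a then a else a + 9

lemma free_spec (a c : ℤ) : a ≤ free a c ∧ free a c ≤ a + 9 ∧ 5 ≤ |free a c - c| := by
  unfold free; split_ifs <;> simp only [Int.abs_eq_natAbs] <;> omega

section grid
variable {E : VV → VV → Prop} (hE : Equivalence E) {P : VV → Prop}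
  (hP : ∀ y y', P y → P y' → (Zd 2).Adj y y' → E y y')
include hE hP

lemma line (y : VV) (i : Fin 2) {lo hi : ℤ}
    (h : ∀ t, lo ≤ t → t ≤ hi → P (Function.update y i t)) {t t' : ℤ} (h1 : lo ≤ t) (h2 : t ≤ hi)
    (h3 : lo ≤ t') (h4 : t' ≤ hi) : E (Function.update y i t) (Function.update y i t') := by
  have : ∀ t, lo ≤ t → t ≤ hi → E (Function.update y i lo) (Function.update y i t) := by
    intro t ht
    induction t, ht using Int.leInduction with
    | base => exact fun _ => hE.refl _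
    | succ t ht ih =>
      refine fun h5 => hE.trans (ih (by omega)) (hP _ _ (h t ht (by omega)) (h _ (by omega) h5)
        (adj_iff.2 ⟨i, 1, Or.inl rfl, funext fun j => ?_⟩))
      by_cases hj : j = i
      · subst hj; simp
      · simp [hj]
  exact hE.trans (hE.symm (this t h1 h2)) (this t' h3 h4)

lemma grid (a c : VV) {N : ℤ} (hN : 10 ≤ N)
    (h : ∀ y, (∀ i, a i ≤ y i ∧ y i < a i + N) → Far y c → P y) (y : VV)
    (h1 : ∀ i, a i ≤ y i ∧ y i < a i + N) (h2 : Far y c) : E y fun i => free (a i) (c i) := by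
  obtain ⟨i, hi⟩ := h2
  obtain ⟨j, hij, hj⟩ := fin2 i
  have f := fun m => free_spec (a m) (c m)
  have s1 := line hE hP y j (lo := a j) (hi := a j + N - 1) (fun t t1 t2 => h _ (fun m => by
      rcases hj m with rfl | rfl
      · rw [Function.update_of_ne hij]; exact h1 m
      · rw [Function.update_self]; omega) ⟨i, by rwa [Function.update_of_ne hij]⟩)
    (t := y j) (t' := free (a j) (c j)) (h1 j).1 (by have := h1 j; omega) (f j).1
    (by have := f j; omega)
  have s2 := line hE hP (Function.update y j (free (a j) (c j))) i (lo := a i) (hi := a i + N - 1)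
    (fun t t1 t2 => h _ (fun m => by
      rcases hj m with rfl | rfl
      · rw [Function.update_self]; omega
      · rw [Function.update_of_ne hij.symm, Function.update_self]; have := f m; omega)
      ⟨j, by rw [Function.update_of_ne hij.symm, Function.update_self]; exact (f j).2.2⟩)
    (t := y i) (t' := free (a i) (c i)) (h1 i).1 (by have := h1 i; omega) (f i).1
    (by have := f i; omega)
  rw [Function.update_eq_self] at s1
  rw [show Function.update (Function.update y j (free (a j) (c j))) i (y i) =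
      Function.update y j (free (a j) (c j)) from by
        rw [Function.update_eq_self_iff, Function.update_of_ne hij],
    show Function.update (Function.update y j (free (a j) (c j))) i (free (a i) (c i)) =
      fun i => free (a i) (c i) from funext fun m => by
        rcases hj m with rfl | rfl
        · rw [Function.update_self]
        · rw [Function.update_of_ne hij.symm, Function.update_self]] at s2
  exact hE.trans s1 s2

end grid

def InB (L : ℤ) (y x : VV) : Prop := ∀ i, L * y i ≤ x i ∧ x i < L * y i + L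

lemma InB.trans {k : ℕ} {z y x : VV} (h1 : InB (MM k) z y) (h2 : InB (LL k) y x) :
    InB (LL (k + 1)) z x := fun i => by
  have := h1 i; have := h2 i; have := LL_gt k
  rw [LL_succ]
  constructor <;> nlinarith

variable (ω : Idx → ℕ)

def clean (k : ℕ) (y : VV) : Prop :=
  ∀ j, k ≤ j → ∀ v w, ω (.inl (j, v, w)) = 0 → ∀ x, InB (LL k) y x → ¬ Tch (LL j) v w x

def near (k : ℕ) (y : VV) : Prop := ∃ v w, ω (.inl (k, v, w)) = 0 ∧
  (∀ i, LL k * (y i - 2) ≤ v i ∧ v i < LL k * (y i + 3)) ∧ ∀ i, |w i - v i| ≤ 1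

def bad : ℕ → VV → Prop
  | 0, y => ∃ y', ∃ h : (Zd 2).Adj y y', ω (.inr (mkE h)) = 0
  | k + 1, z => ∃ y y', InB (MM k) z y ∧ InB (MM k) z y' ∧ (bad k y ∨ near ω k y) ∧
      (bad k y' ∨ near ω k y') ∧ Far y y'

def dfc (k : ℕ) (y : VV) : Prop := bad ω k y ∨ near ω k y

lemma center {D R : VV → Prop} (h : ¬ ∃ y y', R y ∧ R y' ∧ D y ∧ D y' ∧ Far y y') :
    ∃ c, ∀ y, R y → Far y c → ¬ D y := by
  by_cases h1 : ∃ c, R c ∧ D c
  · obtain ⟨c, h2, h3⟩ := h1
    exact ⟨c, fun y a b d => h ⟨y, c, a, h2, d, h3, b⟩⟩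
  · exact ⟨0, fun y a _ d => h1 ⟨y, a, d⟩⟩

noncomputable def ctr (k : ℕ) (z : VV) : VV :=
  Classical.epsilon fun c => ∀ y, InB (MM k) z y → Far y c → ¬ dfc ω k y

noncomputable def rep : ℕ → VV → VV
  | 0, y => y
  | k + 1, z => rep k fun i => free (MM k * z i) (ctr ω k z i)

lemma rep_in (k : ℕ) (y : VV) : InB (LL k) y (rep ω k y) := by
  induction k generalizing y with
  | zero => intro i; simp [LL, rep]
  | succ k ih =>
    refine InB.trans (fun i => ?_) (ih _)
    have := free_spec (MM k * y i) (ctr ω k y i)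
    have := MM_ge k
    omega

variable {ω}

def Gd (ω : Idx → ℕ) (k : ℕ) (y : VV) : Prop := ¬ bad ω k y ∧ clean ω k y

lemma gd_of {k : ℕ} {y : VV} (h1 : ¬ dfc ω k y) (h2 : ∀ j, k + 1 ≤ j → ∀ v w,
    ω (.inl (j, v, w)) = 0 → ∀ x, InB (LL k) y x → ¬ Tch (LL j) v w x) : Gd ω k y := by
  refine ⟨fun h => h1 (Or.inl h), fun j hj v w ha x hx ht => ?_⟩
  rcases hj.eq_or_lt with rfl | hj
  · refine h1 (Or.inr ⟨v, w, ha, fun i => ?_, ht.near.2.1⟩)
    have := abs_le.1 (ht.near.1 i); have := hx i; have := LL_gt k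
    constructor <;> nlinarith
  · exact h2 j hj v w ha x hx ht

lemma sub_gd {k : ℕ} {z y : VV} (hz : Gd ω (k + 1) z) (h1 : InB (MM k) z y)
    (h2 : Far y (ctr ω k z)) : Gd ω k y :=
  gd_of (Classical.epsilon_spec (center (D := dfc ω k) hz.1) y h1 h2)
    fun j hj v w ha x hx => hz.2 j hj v w ha x (h1.trans hx)

lemma equiv_rep (g : ℕ → ℕ) (k : ℕ) :
    Equivalence fun y y' => Conn (YY g ω) (rep ω k y) (rep ω k y') :=
  ⟨fun _ => conn_refl _ _, conn_symm, fun a b => a.trans b⟩

lemma down {g : ℕ → ℕ} {k : ℕ} (ih : ∀ y y', Gd ω k y → Gd ω k y' → (Zd 2).Adj y y' →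
    Conn (YY g ω) (rep ω k y) (rep ω k y')) {z y : VV} (hz : Gd ω (k + 1) z)
    (h1 : InB (MM k) z y) (h2 : Far y (ctr ω k z)) :
    Conn (YY g ω) (rep ω k y) (rep ω (k + 1) z) :=
  grid (equiv_rep g k) ih (fun i => MM k * z i) (ctr ω k z) (N := MM k)
    (by have := MM_ge k; omega) (fun _ a b => sub_gd hz a b) y h1 h2

theorem skel (g : ℕ → ℕ) (k : ℕ) : ∀ y y', Gd ω k y → Gd ω k y' → (Zd 2).Adj y y' →
    Conn (YY g ω) (rep ω k y) (rep ω k y') := by
  induction k with
  | zero =>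
    intro y y' h1 _ a
    refine Relation.ReflTransGen.single ⟨a, YY_iff.2 ⟨?_, ?_⟩⟩
    · exact Nat.one_le_iff_ne_zero.2 fun h => h1.1 ⟨y', a, h⟩
    · rintro k v w ⟨x, x', e, hc⟩ ha
      refine absurd ?_ (h1.2 k (Nat.zero_le k) v w ha y fun i => by simp [LL])
      rcases Sym2.eq_iff.1 e with ⟨rfl, rfl⟩ | ⟨rfl, rfl⟩
      · exact (hc.tch a).1
      · exact (hc.tch a.symm).2
  | succ k ih =>
    have : ∀ (z z' : VV) i, z' - z = Pi.single i 1 → Gd ω (k + 1) z → Gd ω (k + 1) z' →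
        Conn (YY g ω) (rep ω (k + 1) z) (rep ω (k + 1) z') := by
      intro z z' i e h1 h2
      obtain ⟨j, hij, hj⟩ := fin2 i
      have e1 : z' i = z i + 1 := by have := congrFun e i; simp at this; omega
      have e2 : z' j = z j := by have := congrFun e j; simp [hij.symm] at this; omega
      have hM := MM_ge k
      obtain ⟨t, t1, t2, t3, t4⟩ : ∃ t, MM k * z j ≤ t ∧ t < MM k * z j + MM k ∧
          5 ≤ |t - ctr ω k z j| ∧ 5 ≤ |t - ctr ω k z' j| := by
        generalize MM k * z j = a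
        generalize ctr ω k z j = c
        generalize ctr ω k z' j = c'
        by_contra hc
        push Not at hc
        have := hc a; have := hc (a + 9); have := hc (a + 18)
        simp only [Int.abs_eq_natAbs] at *
        omega
      let y : VV := fun m => if m = i then MM k * z i + MM k - 1 else t
      let y' : VV := fun m => if m = i then MM k * z i + MM k else t
      have b1 : InB (MM k) z y := fun m => by
        rcases hj m with rfl | rfl <;> simp only [y, if_true, if_neg hij.symm] <;> omega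
      have b2 : InB (MM k) z' y' := fun m => by
        rcases hj m with rfl | rfl <;> simp only [y', if_true, if_neg hij.symm, e1, e2, mul_add] <;>
          omega
      have f1 : Far y (ctr ω k z) := ⟨j, by simpa only [y, if_neg hij.symm]⟩
      have f2 : Far y' (ctr ω k z') := ⟨j, by simpa only [y', if_neg hij.symm]⟩
      refine (conn_symm (down ih h1 b1 f1)).trans ((ih y y' (sub_gd h1 b1 f1) (sub_gd h2 b2 f2)
        (adj_iff.2 ⟨i, 1, Or.inl rfl, funext fun m => ?_⟩)).trans (down ih h2 b2 f2))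
      by_cases hm : m = i <;> simp [y, y', hm]
    intro z z' h1 h2 a
    obtain ⟨i, s, rfl | rfl, e⟩ := adj_iff.1 a
    · exact this z z' i e h1 h2
    · refine conn_symm (this z' z i ?_ h2 h1)
      rw [← neg_sub, e, Pi.single_neg, neg_neg]

end Pool.Agent.H44.FE
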