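import Pool.Agent.H44.HP1

/-! Infinite path in the plane, blocking in the half-plane. -/

open Set Filter

namespace Pool.Agent.H44.FE

variable (ω : Idx → ℕ)

def H1 (k : ℕ) : Prop := ¬ ∃ y y' : VV, (∀ i, |y i| ≤ 12 * MM k) ∧ (∀ i, |y' i| ≤ 12 * MM k) ∧
  dfc ω k y ∧ dfc ω k y' ∧ Far y y'

def Reg (k : ℕ) (o : VV × VV) : Prop := (∀ i, |o.1 i| ≤ 14 * LL k) ∧ ∀ i, |o.2 i - o.1 i| ≤ 1

def H2 (k : ℕ) : Prop := ∀ o o', Reg (k + 1) o → Reg (k + 1) o' → ω (.inl (k + 1, o)) = 0 →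
  ω (.inl (k + 1, o')) = 0 → o = o'

def H3 (k : ℕ) : Prop := ∀ v w, ω (.inl (k + 1, v, w)) = 0 → ∀ x : VV, (∀ i, |x i| ≤ 12 * LL k) →
  ¬ Tch (LL (k + 1)) v w x

variable {ω}

lemma high {K k : ℕ} (h3 : ∀ k, K ≤ k → H3 ω k) (hk : K ≤ k) {j : ℕ} (hj : k + 1 ≤ j) {v w : VV}
    (ha : ω (.inl (j, v, w)) = 0) {x : VV} (hx : ∀ i, |x i| ≤ 12 * LL k) : ¬ Tch (LL j) v w x := by
  obtain ⟨j, rfl⟩ : ∃ j', j = j' + 1 := ⟨j - 1, by omega⟩
  refine h3 j (by omega) v w ha x fun i => (hx i).trans ?_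
  have := LL_mono (show k ≤ j by omega)
  omega

lemma InB.abs {L R : ℤ} (hL : 0 ≤ L) {y x : VV} (h : InB L y x) (hy : ∀ i, |y i| ≤ R) (i : Fin 2) :
    |x i| ≤ (R + 1) * L := by
  have := h i; have := abs_le.1 (hy i)
  rw [abs_le]; constructor <;> nlinarith

theorem perc_plane (g : ℕ → ℕ) (h : ∀ᶠ k in atTop, H1 ω k ∧ H2 ω k ∧ H3 ω k) : Perc (YY g ω) := by
  obtain ⟨K, hK⟩ := eventually_atTop.1 h
  have h3 : ∀ k, K ≤ k → H3 ω k := fun k hk => (hK k hk).2.2
  have : ∀ k, ∃ c, K ≤ k → ∀ y : VV, (∀ i, |y i| ≤ 12 * MM k) → Far y c → ¬ dfc ω k y := by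
    intro k
    by_cases hk : K ≤ k
    · obtain ⟨c, hc⟩ := center (hK k hk).1
      exact ⟨c, fun _ => hc⟩
    · exact ⟨0, fun h => absurd h hk⟩
  choose c hc using this
  have gd : ∀ k, K ≤ k → ∀ y : VV, (∀ i, |y i| ≤ 10) → Far y (c k) → Gd ω k y := by
    intro k hk y h1 h2
    refine gd_of (hc k hk y (fun i => ?_) h2) fun j hj v w ha x hx => high h3 hk hj ha fun i => ?_
    · have := h1 i; have := MM_ge k; omega
    · have := hx.abs (by positivity) h1 i; omega
  set f : ℕ → VV := fun k i => free (-10) (c k i) with hf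
  have hub : ∀ k, K ≤ k → ∀ y : VV, (∀ i, |y i| ≤ 10) → Far y (c k) →
      Conn (YY g ω) (rep ω k y) (rep ω k (f k)) := by
    intro k hk y h1 h2
    refine grid (equiv_rep g k) (skel g k) (fun _ => -10) (c k) (N := 21) (by norm_num)
      (fun y a b => gd k hk y (fun i => ?_) b) y (fun i => ?_) h2
    · have := a i; rw [abs_le]; omega
    · have := abs_le.1 (h1 i); omega
  have st : ∀ k, K ≤ k → Conn (YY g ω) (rep ω k (f k)) (rep ω (k + 1) (f (k + 1))) := by
    intro k hk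
    have hL := LL_gt k
    have hM := MM_ge k
    obtain ⟨i, j, σ, hij, hσ, hd⟩ : ∃ i j σ, i ≠ j ∧ (σ = 1 ∨ σ = -1) ∧ ∀ v w, Reg (k + 1) (v, w) →
        ω (.inl (k + 1, v, w)) = 0 → ∀ x : VV, 0 ≤ x j → x j ≤ 12 * LL k → -(LL k : ℤ) ≤ σ * x i →
          ¬ Tch (LL (k + 1)) v w x := by
      by_cases ho : ∃ o, Reg (k + 1) o ∧ ω (.inl (k + 1, o)) = 0
      · obtain ⟨⟨v0, w0⟩, h1, h2⟩ := ho
        obtain ⟨i, j, σ, a, b, d⟩ := direction (L := LL k) (by omega) (h3 k hk v0 w0 h2)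
        refine ⟨i, j, σ, a, b, fun v w r ha => ?_⟩
        obtain ⟨rfl, rfl⟩ := Prod.mk.inj ((hK k hk).2.1 _ _ r h1 ha h2)
        exact d
      · exact ⟨0, 1, 1, by decide, Or.inl rfl, fun v w r ha => absurd ⟨_, r, ha⟩ ho⟩
    have hj : ∀ m, m = i ∨ m = j := by
      revert hij; generalize i = a; generalize j = b; revert a b; decide
    obtain ⟨t1, t2, t3⟩ := free_spec 0 (c k j)
    set t := free 0 (c k j)
    let Y : ℤ → VV := fun u => Function.update (fun _ => t) i u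
    have Yi : ∀ u, Y u i = u := fun u => Function.update_self ..
    have Yj : ∀ u, Y u j = t := fun u => Function.update_of_ne hij.symm ..
    have gl : ∀ u, 0 ≤ σ * u → |u| ≤ 11 * MM k → Gd ω k (Y u) := by
      intro u u1 u2
      have b : ∀ m, |Y u m| ≤ 11 * MM k := fun m => by
        rcases hj m with rfl | rfl
        · rwa [Yi]
        · rw [Yj, abs_le]; omega
      refine gd_of (hc k hk _ (fun m => (b m).trans (by omega)) ⟨j, by rwa [Yj]⟩)
        fun n hn v w ha x hx ht => ?_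
      have b2 : ∀ m, |x m| ≤ 12 * LL (k + 1) := fun m => by
        refine (hx.abs (by positivity) b m).trans ?_
        rw [LL_succ]; nlinarith
      rcases hn.eq_or_lt with rfl | hn
      · refine hd v w ⟨fun m => ?_, ht.near.2.1⟩ ha x ?_ ?_ ?_ ht
        · have := abs_le.1 (b2 m); have := abs_le.1 (ht.near.1 m); have := LL_gt (k + 1)
          simp only [abs_le]; omega
        · have := hx j; rw [Yj] at this; nlinarith
        · have := hx j; rw [Yj] at this; nlinarith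
        · have := hx i; rw [Yi] at this
          rcases hσ with rfl | rfl <;> nlinarith
      · exact high h3 (hk.trans (Nat.le_succ k)) hn ha b2 ht
    obtain ⟨n, n1, n2, n3⟩ : ∃ n : ℤ, |n| ≤ 10 ∧ (0 ≤ n ↔ σ = 1) ∧ 5 ≤ |n - c (k + 1) i| := by
      rcases hσ with rfl | rfl
      · have := free_spec 0 (c (k + 1) i)
        exact ⟨_, by rw [abs_le]; omega, by omega, this.2.2⟩
      · have := free_spec (-10) (c (k + 1) i)
        exact ⟨_, by rw [abs_le]; omega, by omega, this.2.2⟩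
    let z : VV := Function.update 0 i n
    have zi : z i = n := Function.update_self ..
    have zj : z j = 0 := Function.update_of_ne hij.symm ..
    have z1 : ∀ m, |z m| ≤ 10 := fun m => by
      rcases hj m with rfl | rfl
      · rwa [zi]
      · simp [zj]
    have z2 : Far z (c (k + 1)) := ⟨i, by rwa [zi]⟩
    obtain ⟨u1, u2, u3⟩ := free_spec (MM k * n) (ctr ω k z i)
    set u := free (MM k * n) (ctr ω k z i)
    have n4 := abs_le.1 n1
    have a1 := hub k hk (Y 0) (fun m => by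
      rcases hj m with rfl | rfl
      · simp [Yi]
      · rw [Yj, abs_le]; omega) ⟨j, by rwa [Yj]⟩
    have a2 : Conn (YY g ω) (rep ω k (Y 0)) (rep ω k (Y u)) := by
      rcases hσ with rfl | rfl
      · have := n2.2 rfl
        refine line (equiv_rep g k) (skel g k) _ i (lo := 0) (hi := 11 * MM k)
          (fun s s1 s2 => gl s (by omega) (by rw [abs_le]; omega)) le_rfl (by omega) ?_ ?_ <;>
          nlinarith
      · have : n ≤ -1 := by omega
        refine line (equiv_rep g k) (skel g k) _ i (lo := -(11 * MM k)) (hi := 0)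
          (fun s s1 s2 => gl s (by omega) (by rw [abs_le]; omega)) (by omega) le_rfl ?_ ?_ <;>
          nlinarith
    have a3 := down (skel g k) (gd (k + 1) (by omega) z z1 z2) (y := Y u) (fun m => by
      rcases hj m with rfl | rfl
      · rw [Yi, zi]; omega
      · rw [Yj, zj]; omega) ⟨i, by rwa [Yi]⟩
    exact (conn_symm a1).trans (a2.trans (a3.trans (hub (k + 1) (by omega) z z1 z2)))
  have st2 : ∀ k, K ≤ k → Conn (YY g ω) (rep ω K (f K)) (rep ω k (f k)) := fun k hk =>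
    Nat.le_induction (conn_refl _ _) (fun n hn ih => ih.trans (st n hn)) k hk
  refine ⟨rep ω K (f K), fun hfin => ?_⟩
  obtain ⟨b, hb⟩ := (hfin.image fun y => |y 0|).bddAbove
  obtain ⟨k, k1, k2⟩ : ∃ k : ℕ, K ≤ k ∧ b ≤ k := ⟨K + b.natAbs, by omega, by omega⟩
  obtain ⟨n, n1, n2⟩ : ∃ n : ℤ, (n = 10 ∨ n = -10) ∧ 5 ≤ |n - c k 0| := by
    by_cases e : 0 ≤ c k 0
    · exact ⟨-10, Or.inr rfl, by rw [le_abs]; omega⟩
    · exact ⟨10, Or.inl rfl, by rw [le_abs]; omega⟩
  have a := hb (mem_image_of_mem _ ((st2 k k1).trans (conn_symm (hub k k1 (fun _ => n)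
    (fun _ => by rw [abs_le]; omega) ⟨0, n2⟩))))
  have h4 := rep_in ω k (fun _ => n) 0
  have := LL_gt k
  simp only [abs_le] at a h4
  rcases n1 with rfl | rfl <;> omega

theorem block {g : ℕ → ℕ} {k : ℕ} {x v : VV} (h1 : ∀ i, |x i - v i| ≤ LL k) (h2 : v 1 ≤ LL k)
    (h3 : ∀ i, |v i| ≤ 2 * LL k) (ha : ω (.inl (k, v, v - Pi.single 1 1)) = 0)
    (hn : ∀ e, (∀ i, |sg e i| ≤ 7 * LL k) → ω (.inr e) ≤ g k) :
    {y | Conn (half (YY g ω)) x y}.Finite := by
  refine (Fintype.piFinset fun i => Finset.Icc (v i - LL k) (v i + LL k)).finite_toSet.subset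
    fun y hy => ?_
  suffices ∀ i, |y i - v i| ≤ LL k by
    simp only [Finset.mem_coe, Fintype.mem_piFinset, Finset.mem_Icc]
    exact fun i => by have := abs_le.1 (this i); omega
  induction hy with
  | refl => exact h1
  | @tail a b _ hab ih =>
    obtain ⟨adj, ho⟩ := hab
    simp only [half, Bool.and_eq_true, decide_eq_true_eq] at ho
    by_contra hc
    by_cases e : b - a = v - Pi.single 1 1 - v
    · have e0 := congrFun e 0
      have e1 := congrFun e 1
      have := ho.2 b (Sym2.mem_mk_right _ _)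
      have := ih 0; have := ih 1
      simp [Fin.forall_fin_two, abs_le] at *
      omega
    · have c : Cover (LL k) v (v - Pi.single 1 1) a b :=
        ⟨adj_iff.2 ⟨1, -1, Or.inr rfl, by rw [Pi.single_neg]; abel⟩, ih, hc, e⟩
      refine absurd ((YY_iff.1 ho.1).2 k v _ ⟨a, b, rfl, c⟩ ha) (not_lt.2 (hn _ fun i => ?_))
      have := abs_le.1 ((c.tch adj).2.near.1 i)
      have := abs_le.1 (ih i); have := abs_le.1 (h3 i); have := LL_gt k
      rw [sg_mk, Pi.add_apply, abs_le]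
      omega

end Pool.Agent.H44.FE
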