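import Pool.Agent.H44.HP2
import Pool.Agent.H44.Har

/-! Multiscale estimates. -/

open Set Filter Topology MeasureTheory ProbabilityTheory Measure
open scoped unitInterval ENNReal

namespace Pool.Agent.H44.FE

lemma nn_pos (k : ℕ) : (1 : ℝ) ≤ nn k := by
  exact_mod_cast (show 1 ≤ nn k by unfold nn; omega)

lemma LL_pos (k : ℕ) : (1 : ℝ) ≤ LL k := by
  exact_mod_cast (show 1 ≤ LL k by have := LL_gt k; omega)

noncomputable def rho (k : ℕ) : I := ⟨1 / (nn k * LL k ^ 2), by positivity, by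
  rw [div_le_one (by have := nn_pos k; have := LL_pos k; positivity)]
  exact one_le_mul_of_one_le_of_one_le (nn_pos k) (one_le_pow₀ (LL_pos k))⟩

noncomputable def eps : I := ⟨1 / (9 * 19 ^ 8), by norm_num, by norm_num⟩

noncomputable def PI : Idx → Measure ℕ
  | .inl o => bernoulliMeasure 0 1 (rho o.1)
  | .inr _ => geometricMeasure eps

instance (a : Idx) : IsProbabilityMeasure (PI a) := by cases a <;> unfold PI <;> infer_instance

noncomputable abbrev QQ : Measure (Idx → ℕ) := infinitePi PI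

lemma eps_ne : eps ≠ 0 ∧ eps ≠ 1 := by constructor <;> simp [eps, Subtype.ext_iff] <;> norm_num

lemma QQ_eval (a : Idx) (s : Set ℕ) : QQ {ω | ω a ∈ s} = PI a s :=
  (measurePreserving_eval_infinitePi PI a).measure_preimage
    (MeasurableSet.of_discrete (s := s)).nullMeasurableSet

lemma PI_act (o : ℕ × VV × VV) : (PI (.inl o)).real {0} = rho o.1 := by
  simp [PI]

lemma QQ_act (o : ℕ × VV × VV) : QQ.real {ω | ω (.inl o) = 0} = rho o.1 := by
  rw [← PI_act, measureReal_def, measureReal_def, ← QQ_eval]; rfl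

lemma QQ_edge (e : (Zd 2).edgeSet) : QQ.real {ω | ω (.inr e) = 0} = eps := by
  have := geometricMeasure_real_singleton eps_ne.1 0
  rw [pow_zero, one_mul] at this
  rw [← this, measureReal_def, measureReal_def]
  exact congrArg _ (QQ_eval (.inr e) {0})

noncomputable def cube (c : VV) (R : ℤ) : Finset VV :=
  Fintype.piFinset fun i => Finset.Icc (c i - R) (c i + R)

lemma mem_cube {c x : VV} {R : ℤ} : x ∈ cube c R ↔ ∀ i, |x i - c i| ≤ R := by
  simp only [cube, Fintype.mem_piFinset, Finset.mem_Icc, abs_le]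
  exact forall_congr' fun i => by omega

lemma card_cube (c : VV) (R : ℕ) : ((cube c R).card : ℝ) = (2 * R + 1) ^ 2 := by
  have : ∀ i, (Finset.Icc (c i - R) (c i + R)).card = 2 * R + 1 := fun i => by
    rw [Int.card_Icc]; omega
  simp [cube, Fintype.card_piFinset, this]

noncomputable def rect (a : VV) (N : ℕ) : Finset VV :=
  Fintype.piFinset fun i => Finset.Ico (a i) (a i + N)

lemma mem_rect {a x : VV} {N : ℕ} : x ∈ rect a N ↔ ∀ i, a i ≤ x i ∧ x i < a i + N := by
  simp only [rect, Fintype.mem_piFinset, Finset.mem_Ico]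

lemma card_rect (a : VV) (N : ℕ) : (rect a N).card = N ^ 2 := by
  simp [rect, Fintype.card_piFinset]

lemma union_le {α : Type} (R : Finset α) (s : α → Set (Idx → ℕ)) {d : ℝ}
    (h : ∀ a ∈ R, QQ.real (s a) ≤ d) {t : Set (Idx → ℕ)} (ht : ∀ ω ∈ t, ∃ a ∈ R, ω ∈ s a) :
    QQ.real t ≤ R.card * d := by
  refine (measureReal_mono (s₂ := ⋃ a ∈ R, s a) (fun ω hω => ?_) (measure_ne_top _ _)).trans
    ((measureReal_biUnion_finset_le _ _).trans ?_)
  · obtain ⟨a, h1, h2⟩ := ht ω hω
    exact mem_biUnion (Finset.mem_coe.2 h1) h2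
  · rw [← nsmul_eq_mul]; exact Finset.sum_le_card_nsmul _ _ _ h

lemma act_bound (k : ℕ) (R : Finset VV) {t : Set (Idx → ℕ)}
    (ht : ∀ ω ∈ t, ∃ v ∈ R, ∃ w : VV, (∀ i, |w i - v i| ≤ 1) ∧ ω (.inl (k, v, w)) = 0) :
    QQ.real t ≤ R.card * (9 * rho k) := by
  refine union_le R (fun v => {ω | ∃ w : VV, (∀ i, |w i - v i| ≤ 1) ∧ ω (.inl (k, v, w)) = 0})
    (fun v _ => ?_) ht
  have := union_le (cube v (1 : ℕ)) (fun w => {ω | ω (.inl (k, v, w)) = 0}) (d := rho k)
    (fun w _ => (QQ_act (k, v, w)).le)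
    (t := {ω | ∃ w : VV, (∀ i, |w i - v i| ≤ 1) ∧ ω (.inl (k, v, w)) = 0})
    fun ω ⟨w, h1, h2⟩ => ⟨w, mem_cube.2 h1, h2⟩
  rw [card_cube] at this
  norm_num at this ⊢
  exact this

def loc : Idx → VV
  | .inl o => 2 • o.2.1
  | .inr e => sg e

def Dep (k : ℕ) (y : VV) : Set Idx :=
  {a | ∀ i, 2 * (LL k * (y i - 2)) ≤ loc a i ∧ loc a i < 2 * (LL k * (y i + 3))}

lemma near_dep (k : ℕ) (y : VV) : DependsOn (fun ω => near ω k y) (Dep k y) := by
  have : ∀ ω ω' : Idx → ℕ, (∀ a ∈ Dep k y, ω a = ω' a) → near ω k y → near ω' k y := by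
    rintro ω ω' h ⟨v, w, h1, h2, h3⟩
    refine ⟨v, w, (h _ fun i => ?_).symm.trans h1, h2, h3⟩
    have := h2 i
    simp only [loc, Pi.smul_apply, nsmul_eq_mul]
    omega
  exact fun ω ω' h => propext ⟨this ω ω' h, this ω' ω fun a ha => (h a ha).symm⟩

lemma dfc_dep (k : ℕ) (y : VV) : DependsOn (fun ω => dfc ω k y) (Dep k y) := by
  have : ∀ k y, ∀ ω ω' : Idx → ℕ, (∀ a ∈ Dep k y, ω a = ω' a) → bad ω k y → bad ω' k y := by
    intro k
    induction k with
    | zero =>
      rintro y ω ω' h ⟨y', a, h1⟩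
      refine ⟨y', a, (h _ fun i => ?_).symm.trans h1⟩
      obtain ⟨j, s, hs, e⟩ := adj_iff.1 a
      have := congrFun e i
      simp only [Pi.sub_apply, Pi.single_apply] at this
      simp only [loc, sg_mk, Pi.add_apply, LL]
      split_ifs at this <;> omega
    | succ k ih =>
      rintro z ω ω' h ⟨y, y', h1, h2, h3, h4, h5⟩
      have sub : ∀ y, InB (MM k) z y → ∀ a ∈ Dep k y, ω a = ω' a := fun y hy a ha =>
        h a fun i => by
          have := ha i; have := hy i; have := LL_gt k; have := MM_ge k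
          rw [LL_succ]
          constructor <;> nlinarith
      exact ⟨y, y', h1, h2, h3.imp (ih _ _ _ (sub y h1)) (near_dep k y (sub y h1)).mp,
        h4.imp (ih _ _ _ (sub y' h2)) (near_dep k y' (sub y' h2)).mp, h5⟩
  exact fun ω ω' h => propext (or_congr ⟨this k y ω ω' h, this k y ω' ω fun a ha => (h a ha).symm⟩
    (iff_of_eq (near_dep k y h)))

lemma m_eq (a : Idx) (n : ℕ) : Measurable fun ω : Idx → ℕ => ω a = n :=
  (measurable_of_countable fun m : ℕ => m = n).comp (measurable_pi_apply a)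

lemma dfc_meas (k : ℕ) (y : VV) : MeasurableSet {ω | dfc ω k y} := by
  have n : ∀ k y, Measurable fun ω => near ω k y := fun k y =>
    .exists fun v => .exists fun w => (m_eq _ _).and measurable_const
  have b : ∀ k y, Measurable fun ω => bad ω k y := by
    intro k
    induction k with
    | zero => exact fun y => .exists fun y' => .exists fun h => m_eq _ _
    | succ k ih =>
      exact fun z => .exists fun y => .exists fun y' => measurable_const.and (measurable_const.and
        (((ih y).or (n k y)).and (((ih y').or (n k y')).and measurable_const)))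
  exact measurableSet_setOfPred.2 ((b k y).or (n k y))

lemma pair_bound (k : ℕ) (R : Finset VV) {d : ℝ} (hd : ∀ y, QQ.real {ω | dfc ω k y} ≤ d)
    {t : Set (Idx → ℕ)} (ht : ∀ ω ∈ t, ∃ y y', y ∈ R ∧ y' ∈ R ∧ dfc ω k y ∧ dfc ω k y' ∧ Far y y') :
    QQ.real t ≤ (R.card * d) ^ 2 := by
  have d0 : 0 ≤ d := measureReal_nonneg.trans (hd 0)
  have := union_le (R ×ˢ R) (fun p => {ω | dfc ω k p.1 ∧ dfc ω k p.2 ∧ Far p.1 p.2}) (d := d * d)
    (fun p _ => by
      by_cases hf : Far p.1 p.2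
      · have := Har.indep_of PI (S := Dep k p.1) (T := Dep k p.2) (by
          obtain ⟨i, hi⟩ := hf
          refine disjoint_left.2 fun a h1 h2 => ?_
          have := h1 i; have := h2 i; have := LL_gt k
          rcases le_abs.1 hi with h | h <;> nlinarith) (dfc_meas k p.1) (dfc_meas k p.2)
          (dfc_dep k p.1) (dfc_dep k p.2)
        refine (measureReal_mono (s₂ := {ω | dfc ω k p.1} ∩ {ω | dfc ω k p.2})
          fun ω h => ⟨h.1, h.2.1⟩).trans ?_
        rw [measureReal_def, this, ENNReal.toReal_mul]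
        exact mul_le_mul (hd _) (hd _) ENNReal.toReal_nonneg d0
      · simp only [hf, and_false, ofPred_false, measureReal_empty]; positivity)
    (t := t) fun ω hω => by
      obtain ⟨y, y', h1, h2, h3⟩ := ht ω hω
      exact ⟨(y, y'), Finset.mem_product.2 ⟨h1, h2⟩, h3⟩
  rw [Finset.card_product] at this
  push_cast at this
  linarith

lemma MM_pow (k : ℕ) : (MM k : ℝ) ^ 8 ≤ nn k := by
  exact_mod_cast Nat.pow_nthRoot_le_iff.2 (Or.inl (by norm_num))

lemma MM_ge' (k : ℕ) : (19 : ℝ) ≤ MM k := by exact_mod_cast MM_ge k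

lemma dfc_bound (k : ℕ) : ∀ y, QQ.real {ω | dfc ω k y} ≤ 226 / nn k := by
  have nr : ∀ k y, QQ.real {ω | near ω k y} ≤ 225 / nn k := by
    intro k y
    refine (act_bound k (rect (fun i => LL k * (y i - 2)) (5 * LL k)) (t := {ω | near ω k y})
      fun ω ⟨v, w, h1, h2, h3⟩ => ⟨v, mem_rect.2 fun i => ?_, w, h3, h1⟩).trans (le_of_eq ?_)
    · have := h2 i; push_cast; constructor <;> linarith
    · have := nn_pos k; have := LL_pos k
      simp only [card_rect, rho]; push_cast; field_simp; norm_num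
  have st : ∀ k, (∀ y, QQ.real {ω | bad ω k y} ≤ 1 / nn k) →
      ∀ y, QQ.real {ω | dfc ω k y} ≤ 226 / nn k := fun k h y =>
    (measureReal_union_le {ω | bad ω k y} {ω | near ω k y}).trans (by
      have := h y; have := nr k y
      rw [show (226 : ℝ) / nn k = 1 / nn k + 225 / nn k by ring]; linarith)
  refine st k ?_
  induction k with
  | zero =>
    intro y
    refine (union_le (cube y (1 : ℕ)) (fun y' => {ω | ∃ h : (Zd 2).Adj y y', ω (.inr (mkE h)) = 0})
      (d := eps) (fun y' _ => ?_) (t := {ω | bad ω 0 y})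
      fun ω ⟨y', h1, h2⟩ => ⟨y', mem_cube.2 fun i => ?_, h1, h2⟩).trans ?_
    · by_cases h : (Zd 2).Adj y y'
      · simp only [h, exists_true_left]; exact (QQ_edge _).le
      · simp only [h, IsEmpty.exists_iff, ofPred_false, measureReal_empty]; exact eps.2.1
    · obtain ⟨j, s, hs, e⟩ := adj_iff.1 h1
      rw [← Pi.sub_apply, e, Pi.single_apply]
      split_ifs <;> rcases hs with rfl | rfl <;> simp
    · rw [card_cube]; simp only [eps, nn]; norm_num
  | succ k ih =>
    intro z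
    refine (pair_bound k (rect (fun i => MM k * z i) (MM k)) (st k ih) (t := {ω | bad ω (k + 1) z})
      fun ω ⟨y, y', h1, h2, h3⟩ => ⟨y, y', mem_rect.2 h1, mem_rect.2 h2, h3⟩).trans ?_
    have a := MM_pow k; have b := MM_ge' k; have c := nn_pos k
    have e : (nn (k + 1) : ℝ) = nn k + 1 := by simp only [nn]; push_cast; ring
    have d : (19 : ℝ) ^ 4 ≤ MM k ^ 4 := by gcongr
    rw [card_rect, e, mul_pow, div_pow, ← mul_div_assoc, div_le_div_iff₀ (by positivity)
      (by positivity)]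
    push_cast
    have : ((MM k : ℝ) ^ 2) ^ 2 * 226 ^ 2 * 2 ≤ nn k := by nlinarith
    nlinarith

lemma summ : Summable fun k => 1 / ((nn k : ℝ) * MM k) := by
  have h := ((summable_nat_add_iff (19 ^ 8)).2
    (Real.summable_one_div_nat_rpow.2 (show (1 : ℝ) < 9 / 8 by norm_num))).mul_left 2
  refine h.of_nonneg_of_le (fun k => by positivity) fun k => ?_
  have c := nn_pos k
  have b := MM_ge' k
  have a : (nn k : ℝ) ^ (1 / 8 : ℝ) ≤ 2 * MM k := by
    have : (nn k : ℝ) ≤ (MM k + 1) ^ 8 := by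
      exact_mod_cast (Nat.lt_pow_nthRoot_add_one (by norm_num) (nn k)).le
    refine (Real.rpow_le_rpow (by positivity) this (by norm_num)).trans ?_
    rw [one_div, show (8 : ℝ) = (8 : ℕ) by norm_num, Real.pow_rpow_inv_natCast (by positivity)
      (by norm_num)]
    linarith
  change _ ≤ 2 * (1 / (nn k : ℝ) ^ (9 / 8 : ℝ))
  rw [show (9 / 8 : ℝ) = 1 + 1 / 8 by norm_num, Real.rpow_add (by positivity), Real.rpow_one,
    ← mul_div_assoc, div_le_div_iff₀ (by positivity) (by positivity)]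
  nlinarith

lemma bc (s : ℕ → Set (Idx → ℕ)) (C : ℝ) (h : ∀ k, QQ.real (s k) ≤ C * (1 / ((nn k : ℝ) * MM k))) :
    ∀ᵐ ω ∂QQ, ∀ᶠ k in atTop, ω ∉ s k :=
  ae_eventually_notMem (ne_top_of_le_ne_top (summ.mul_left C).tsum_ofReal_ne_top
    (ENNReal.tsum_le_tsum fun k => by
      rw [← ofReal_measureReal]; exact ENNReal.ofReal_le_ofReal (h k)))

lemma nn_succ (k : ℕ) : (nn k : ℝ) ≤ nn (k + 1) := by simp only [nn]; push_cast; linarith

lemma MM_le (k : ℕ) : (MM k : ℝ) ^ 5 ≤ nn k :=
  (pow_le_pow_right₀ (by have := MM_ge' k; linarith) (by norm_num)).trans (MM_pow k)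

theorem ae_H1 : ∀ᵐ ω ∂QQ, ∀ᶠ k in atTop, H1 ω k := by
  refine (bc (fun k => {ω | ¬ H1 ω k}) (25 ^ 4 * 226 ^ 2) fun k => ?_).mono fun ω h =>
    h.mono fun k => not_not.1
  refine (pair_bound k (cube 0 (12 * MM k : ℕ)) (dfc_bound k) fun ω h => ?_).trans ?_
  · obtain ⟨y, y', h1, h2, h3⟩ := not_not.1 h
    exact ⟨y, y', mem_cube.2 (by simpa using h1), mem_cube.2 (by simpa using h2), h3⟩
  · have a := MM_le k; have b := MM_ge' k; have c := nn_pos k
    rw [card_cube]
    push_cast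
    calc _ ≤ ((25 * MM k : ℝ) ^ 2 * (226 / nn k)) ^ 2 := by gcongr; linarith
      _ = 25 ^ 4 * 226 ^ 2 * (1 / (nn k * MM k)) * (MM k ^ 5 / nn k) := by field_simp
      _ ≤ _ := mul_le_of_le_one_right (by positivity) ((div_le_one (by positivity)).2 a)

theorem ae_H2 : ∀ᵐ ω ∂QQ, ∀ᶠ k in atTop, H2 ω k := by
  classical
  refine (bc (fun k => {ω | ¬ H2 ω k}) ((9 * 29 ^ 2) ^ 2) fun k => ?_).mono fun ω h =>
    h.mono fun k => not_not.1
  set O := (cube 0 (14 * LL (k + 1) : ℕ)).biUnion fun v => (cube v (1 : ℕ)).image (Prod.mk v)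
  have hO : (O.card : ℝ) ≤ (2 * (14 * LL (k + 1) : ℕ) + 1) ^ 2 * 9 := by
    rw [← card_cube 0]
    have := Finset.card_biUnion_le_card_mul (cube 0 (14 * LL (k + 1) : ℕ))
      (fun v => (cube v (1 : ℕ)).image (Prod.mk v)) 9 fun v _ => Finset.card_image_le.trans (by
        have := card_cube v 1
        norm_num at this ⊢
        exact_mod_cast this.le)
    exact_mod_cast this
  have mO : ∀ o, Reg (k + 1) o → o ∈ O := fun o h => Finset.mem_biUnion.2
    ⟨o.1, mem_cube.2 (by simpa using h.1), Finset.mem_image.2 ⟨o.2, mem_cube.2 h.2, rfl⟩⟩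
  refine (union_le (O ×ˢ O) (fun p => {ω | p.1 ≠ p.2 ∧ ω (.inl (k + 1, p.1)) = 0 ∧
    ω (.inl (k + 1, p.2)) = 0}) (d := rho (k + 1) * rho (k + 1)) (fun p _ => ?_)
    fun ω h => ?_).trans ?_
  · by_cases hp : p.1 = p.2
    · simp only [hp, ne_eq, not_true, false_and, ofPred_false, measureReal_empty]
      exact mul_self_nonneg _
    · have := Har.indep_of PI (S := {.inl (k + 1, p.1)}) (T := {.inl (k + 1, p.2)}) (by simpa)
        (measurableSet_setOfPred.2 (m_eq (.inl (k + 1, p.1)) 0))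
        (measurableSet_setOfPred.2 (m_eq (.inl (k + 1, p.2)) 0))
        (fun _ _ h => by simp [h _ rfl]) fun _ _ h => by simp [h _ rfl]
      refine (measureReal_mono (s₂ := {ω : Idx → ℕ | ω (.inl (k + 1, p.1)) = 0} ∩
        {ω | ω (.inl (k + 1, p.2)) = 0}) (fun ω h => h.2) (measure_ne_top _ _)).trans (le_of_eq ?_)
      rw [measureReal_def, this, ENNReal.toReal_mul]
      exact congrArg₂ _ (QQ_act _) (QQ_act _)
  · simp only [H2, mem_ofPred_eq, not_forall] at h
    obtain ⟨o, o', h1, h2, h3, h4, h5⟩ := h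
    exact ⟨(o, o'), Finset.mem_product.2 ⟨mO o h1, mO o' h2⟩, h5, h3, h4⟩
  · have a := MM_le k; have b := MM_ge' k; have c := nn_pos k; have d := nn_succ k
    have e := LL_pos (k + 1)
    have f : (MM k : ℝ) ≤ nn k := (le_self_pow₀ (by linarith) (by norm_num)).trans a
    rw [Finset.card_product]
    simp only [rho]
    push_cast at hO ⊢
    have g : (O.card : ℝ) ≤ (29 * LL (k + 1)) ^ 2 * 9 := hO.trans (by gcongr; linarith)
    calc _ ≤ ((29 * LL (k + 1)) ^ 2 * 9 * ((29 * LL (k + 1)) ^ 2 * 9) : ℝ) *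
          (1 / (nn k * LL (k + 1) ^ 2) * (1 / (MM k * LL (k + 1) ^ 2))) := by
            have f' := f.trans d
            gcongr
      _ = _ := by field_simp

theorem ae_H3 : ∀ᵐ ω ∂QQ, ∀ᶠ k in atTop, H3 ω k := by
  classical
  refine (bc (fun k => {ω | ¬ H3 ω k}) 1944 fun k => ?_).mono fun ω h => h.mono fun k => not_not.1
  have hM := MM_ge k
  have hL := LL_gt k
  obtain ⟨b, hb⟩ : ∃ b : ℕ, LL (k + 1) = b + 12 * LL k + 1 :=
    ⟨LL (k + 1) - 12 * LL k - 1, by have : 19 * LL k ≤ LL (k + 1) := Nat.mul_le_mul_right _ hM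
                                    omega⟩
  refine (act_bound (k + 1) (cube 0 (LL (k + 1) + 12 * LL k + 1 : ℕ) \ cube 0 b)
    fun ω h => ?_).trans ?_
  · simp only [H3, mem_ofPred_eq, not_forall, not_not] at h
    obtain ⟨v, w, h1, x, h2, h3⟩ := h
    obtain ⟨h4, h5, m, h6⟩ := h3.near
    refine ⟨v, Finset.mem_sdiff.2 ⟨mem_cube.2 fun i => ?_, fun h => ?_⟩, w, h5, h1⟩
    · have := h2 i; have := h4 i
      simp only [Pi.zero_apply, Int.abs_eq_natAbs] at *
      omega
    · have := mem_cube.1 h m; have := h2 m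
      simp only [Pi.zero_apply, Int.abs_eq_natAbs] at *
      omega
  · rw [Finset.cast_card_sdiff fun x hx => mem_cube.2 fun i => (mem_cube.1 hx i).trans (by omega),
      card_cube, card_cube]
    have b1 := MM_ge' k; have c := nn_pos k; have d := nn_succ k; have e := LL_pos k
    have e0 := LL_pos (k + 1)
    have e1 : (LL (k + 1) : ℝ) = MM k * LL k := by simp [LL]
    have e2 : (b : ℝ) = LL (k + 1) - 12 * LL k - 1 := by rw [hb]; push_cast; ring
    simp only [rho]
    push_cast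
    calc _ = (4 * (24 * LL k + 2) * (2 * LL (k + 1) + 1) : ℝ) *
          (9 * (1 / (nn (k + 1) * LL (k + 1) ^ 2))) := by rw [e2]; ring
      _ ≤ (4 * (26 * LL k) * (2 * LL (k + 1) + LL (k + 1) / 19) : ℝ) *
          (9 * (1 / (nn k * LL (k + 1) ^ 2))) := by
            gcongr
            · linarith
            · rw [e1]; nlinarith
      _ = 4 * 26 * (2 + 1 / 19) * 9 * (1 / (nn k * MM k)) := by rw [e1]; field_simp
      _ ≤ _ := by gcongr; norm_num

end Pool.Agent.H44.FE
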