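import Pool.Agent.H44.HP3

open Set Filter Topology MeasureTheory ProbabilityTheory Measure
open scoped unitInterval ENNReal

namespace Pool.Agent.H44.FE

lemma noise' : ∃ g : ℕ → ℕ, Monotone g ∧
    ∀ᵐ ω ∂QQ, ∀ᶠ k in atTop, ∀ e, (∀ i, |sg e i| ≤ 7 * LL k) → ω (.inr e) ≤ g k := by
  set S : ℕ → Finset (Zd 2).edgeSet := fun k => (cube 0 (7 * LL k)).preimage sg sg_inj.injOn
  have h0 : Tendsto (fun n => geometricMeasure eps (Ioi n)) atTop (𝓝 0) := by
    have := tendsto_measure_iInter_atTop (μ := geometricMeasure eps) (s := fun n : ℕ => Ioi n)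
      (fun _ => measurableSet_Ioi.nullMeasurableSet) (fun _ _ h => Ioi_subset_Ioi h)
      ⟨0, measure_ne_top _ _⟩
    rwa [show ⋂ n : ℕ, Ioi n = ∅ from eq_empty_of_forall_notMem fun n h =>
      lt_irrefl n (mem_iInter.1 h n), measure_empty] at this
  have : ∀ k : ℕ, ∃ n : ℕ, (S k).card * geometricMeasure eps (Ioi n) ≤ 2⁻¹ ^ k := by
    intro k
    have := ENNReal.Tendsto.const_mul (a := (S k).card) h0 (Or.inr (by simp))
    rw [mul_zero] at this
    exact (this.eventually (ge_mem_nhds (geo_pos k))).exists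
  choose g hg using this
  refine ⟨partialSups g, (partialSups g).monotone, ?_⟩
  have := ae_eventually_notMem (μ := QQ) (s := fun k => ⋃ e ∈ S k, {ω | ω (.inr e) ∈ Ioi (g k)})
    (ne_top_of_le_ne_top geo_sum (ENNReal.tsum_le_tsum fun k => by
      refine (measure_biUnion_finset_le _ _).trans (le_trans (le_of_eq ?_) (hg k))
      rw [Finset.sum_congr rfl fun e _ => QQ_eval (.inr e) (Ioi (g k))]
      simp [PI]))
  filter_upwards [this] with U hU
  filter_upwards [hU] with k hk e he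
  refine le_trans (not_lt.1 fun h => hk ?_) (le_partialSups g k)
  exact mem_biUnion (Finset.mem_coe.2 (Finset.mem_preimage.2 (mem_cube.2 (by simpa using he)))) h

lemma caps (x0 : ℤ) (K : ℕ) : ∀ᵐ ω ∂QQ, ∃ k, K ≤ k ∧ ∃ v ∈ rect ![x0, 1] (LL k),
    ω (.inl (k, v, v - Pi.single 1 1)) = 0 := by
  classical
  rw [ae_iff, ← measureReal_eq_zero_iff]
  have b : ∀ N, QQ.real {ω | ¬ ∃ k, K ≤ k ∧ ∃ v ∈ rect ![x0, 1] (LL k),
      ω (.inl (k, v, v - Pi.single 1 1)) = 0} ≤
      Real.exp (-∑ i ∈ Finset.range N, 1 / ((i + (K + 19 ^ 8) : ℕ) : ℝ)) := by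
    intro N
    let f : (Σ _ : ℕ, VV) → Idx := fun p => .inl (p.1 + K, p.2, p.2 - Pi.single 1 1)
    have hf : Function.Injective f := by
      rintro ⟨a, v⟩ ⟨b, w⟩ h
      simp only [f, Sum.inl.injEq, Prod.mk.injEq] at h
      obtain ⟨h1, rfl, -⟩ := h
      obtain rfl : a = b := by omega
      rfl
    refine (measureReal_mono (s₂ := Set.pi (((Finset.range N).sigma fun i =>
      rect ![x0, 1] (LL (i + K))).image f) fun _ => {0}ᶜ) (fun ω h a ha => ?_)
      (measure_ne_top _ _)).trans ?_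
    · obtain ⟨p, hp, rfl⟩ := Finset.mem_image.1 (Finset.mem_coe.1 ha)
      exact fun h0 => h ⟨p.1 + K, Nat.le_add_left _ _, p.2, (Finset.mem_sigma.1 hp).2, h0⟩
    rw [measureReal_def, infinitePi_pi _ fun _ _ => .of_discrete, ENNReal.toReal_prod,
      Finset.prod_image hf.injOn, Finset.prod_sigma, ← Finset.sum_neg_distrib, Real.exp_sum]
    refine Finset.prod_le_prod (fun _ _ => Finset.prod_nonneg fun _ _ => ENNReal.toReal_nonneg)
      fun i _ => ?_
    have e : ∀ v, (PI (f ⟨i, v⟩) {0}ᶜ).toReal = 1 - rho (i + K) := fun v => by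
      rw [← measureReal_def, probReal_compl_eq_one_sub .of_discrete, PI_act]
    simp only [e, Finset.prod_const, card_rect]
    refine (pow_le_pow_left₀ (sub_nonneg.2 (rho _).2.2) (Real.one_sub_le_exp_neg _) _).trans ?_
    rw [← Real.exp_nat_mul]
    refine le_of_eq (congrArg _ ?_)
    have := LL_pos (i + K)
    have := nn_pos (i + K)
    simp only [rho, ← add_assoc]
    change _ = -(1 / (nn (i + K) : ℝ))
    push_cast
    field_simp
  have t := (not_summable_iff_tendsto_nat_atTop_of_nonneg (fun n => by positivity)).1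
    (mt (summable_nat_add_iff (K + 19 ^ 8)).1 Real.not_summable_one_div_natCast)
  exact le_antisymm (ge_of_tendsto' (Real.tendsto_exp_neg_atTop_nhds_zero.comp t) b)
    measureReal_nonneg

lemma m_cond (g : ℕ → ℕ) (e : (Zd 2).edgeSet) {u : (Idx → ℕ) → ℕ} (hu : Measurable u) :
    Measurable fun ω : Idx → ℕ =>
      1 ≤ u ω ∧ ∀ k v w, cov k v w e → ω (.inl (k, v, w)) = 0 → g k < u ω :=
  ((measurable_of_countable fun m : ℕ => 1 ≤ m).comp hu).and (.forall fun k => .forall fun _ =>
    .forall fun _ => measurable_const.imp ((m_eq _ _).imp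
      ((measurable_of_countable fun m : ℕ => g k < m).comp hu)))

lemma measurable_YY (g : ℕ → ℕ) : Measurable (YY g) := by
  refine measurable_pi_lambda _ fun e => measurable_to_bool ?_
  have := measurableSet_setOfPred.2 (m_cond g e (measurable_pi_apply (.inr e)))
  rwa [show (fun c => YY g c e) ⁻¹' {true} = _ from Set.ext fun ω => YY_iff]

lemma YY_mono (g : ℕ → ℕ) : Monotone (YY g) := by
  intro ω ω' h e
  refine Bool.le_iff_imp.2 fun h1 => YY_iff.2 ⟨(YY_iff.1 h1).1.trans (h _), fun k v w c a => ?_⟩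
  exact ((YY_iff.1 h1).2 k v w c (Nat.le_zero.1 (a ▸ h _))).trans_le (h _)

theorem fkg_map (g : ℕ → ℕ) : FKG (QQ.map (YY g)) := by
  intro A B hA hB uA uB
  rw [map_apply (measurable_YY g) hA, map_apply (measurable_YY g) hB,
    map_apply (measurable_YY g) (hA.inter hB)]
  exact Har.harris PI (measurable_YY g hA) (measurable_YY g hB) (uA.preimage (YY_mono g))
    (uB.preimage (YY_mono g))

lemma cover_aut (φ : Zd 2 ≃g Zd 2) (L : ℤ) {v w x y : VV} (h : Cover L v w x y) :
    Cover L (φ v) (φ w) (φ x) (φ y) := by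
  obtain ⟨ρ, ε, c, hε, hφ⟩ := classify φ
  have e : ∀ a b i, φ a (ρ i) - φ b (ρ i) = ε i * (a i - b i) := fun a b i => by rw [hφ, hφ]; ring
  have e2 : ∀ a, (∀ i, |φ a i - φ v i| ≤ L) ↔ ∀ i, |a i - v i| ≤ L := fun a => by
    rw [ρ.surjective.forall]
    refine forall_congr' fun i => ?_
    rw [e]
    rcases hε i with h | h <;> rw [h] <;> simp [abs_sub_comm]
  refine ⟨φ.map_adj_iff.2 h.1, (e2 x).2 h.2.1, mt (e2 y).1 h.2.2.1, fun h1 => h.2.2.2 ?_⟩
  funext i
  have := congrFun h1 (ρ i)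
  simp only [Pi.sub_apply, e] at this ⊢
  rcases hε i with h | h <;> rw [h] at this <;> omega

lemma cov_aut (φ : Zd 2 ≃g Zd 2) {k : ℕ} {v w : VV} {e : (Zd 2).edgeSet} :
    cov k (φ v) (φ w) (φ.mapEdgeSet e) ↔ cov k v w e := by
  have : ∀ (φ : Zd 2 ≃g Zd 2) v w e, cov k v w e → cov k (φ v) (φ w) (φ.mapEdgeSet e) := by
    rintro φ v w e ⟨x, y, h1, h2⟩
    refine ⟨φ x, φ y, ?_, cover_aut φ _ h2⟩
    change Sym2.map φ e.1 = _
    rw [h1, Sym2.map_mk]
  refine ⟨fun h => ?_, this φ v w e⟩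
  have h2 := this φ.symm _ _ _ h
  rwa [φ.symm_apply_apply, φ.symm_apply_apply,
    show φ.symm.mapEdgeSet (φ.mapEdgeSet e) = e from φ.mapEdgeSet.left_inv e] at h2

theorem inv_YY (g : ℕ → ℕ) : Invariant (QQ.map (YY g)) := by
  intro φ
  let τ : Idx → Idx := Sum.map (fun o => (o.1, φ o.2.1, φ o.2.2)) φ.mapEdgeSet
  have hτ : Function.Injective τ := by
    refine Function.Injective.sumMap ?_ φ.mapEdgeSet.injective
    rintro ⟨k, v, w⟩ ⟨k', v', w'⟩ h
    simpa using h
  have e : QQ.map (fun ω a => ω (τ a)) = QQ := by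
    rw [map_infinitePi_infinitePi_of_inj hτ]
    congr 1
    funext a
    cases a <;> rfl
  rw [map_map (by fun_prop) (measurable_YY g)]
  conv_rhs => rw [← e, map_map (measurable_YY g) (by fun_prop)]
  congr 1
  funext ω e
  refine Bool.eq_iff_iff.2 (YY_iff.trans (Iff.trans ?_ (YY_iff (ω := fun a => ω (τ a))).symm))
  refine and_congr_right' (forall_congr' fun k => ?_)
  rw [φ.surjective.forall₂]
  exact forall₂_congr fun v w => by rw [cov_aut]; rfl

lemma upd' (a : Idx) (n : ℕ) (hn : PI a {n} ≠ 0) {B : Set (Idx → ℕ)} (hB : MeasurableSet B)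
    (h : DependsOn (· ∈ B) {a}ᶜ) (h0 : QQ (B ∩ {ω | ω a ∈ ({n} : Set ℕ)}) = 0) : QQ B = 0 := by
  rw [Har.indep_of PI (B := {ω | ω a ∈ ({n} : Set ℕ)}) disjoint_compl_left hB
    (measurable_pi_apply a (measurableSet_singleton n))
    h fun _ _ hh => by simp [hh a rfl], QQ_eval] at h0
  exact (mul_eq_zero.1 h0).resolve_right hn

theorem fe_YY {g : ℕ → ℕ} (hg : Monotone g) : FiniteEnergy (QQ.map (YY g)) := by
  intro e
  have := isProbabilityMeasure_map (μ := QQ) (measurable_YY g).aemeasurable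
  have hle : others e ≤ MeasurableSpace.pi := Measurable.comap_le (by fun_prop)
  have hb : MeasurableSet {ω : Cfg 2 | ω e = true} :=
    measurableSet_eq_fun (measurable_pi_apply _) measurable_const
  have pos : ∀ n, PI (.inr e) {n} ≠ 0 := fun n h => by
    have := geometricMeasure_real_singleton_pos eps_ne.1 eps_ne.2 n
    rw [measureReal_def, show geometricMeasure eps {n} = 0 from h] at this
    simp at this
  have dep : ∀ B, MeasurableSet[others e] B → DependsOn (· ∈ YY g ⁻¹' B) {.inr e}ᶜ := by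
    rintro _ ⟨C, -, rfl⟩ ω ω' h
    have : (fun f : {f // f ≠ e} => YY g ω f) = fun f : {f // f ≠ e} => YY g ω' f := by
      funext f
      refine Bool.eq_iff_iff.2 (YY_iff.trans (Iff.trans ?_ YY_iff.symm))
      rw [h (.inr f) (by simpa using f.2)]
      exact and_congr_right' (forall₃_congr fun k v w => by rw [h (.inl _) (by simp)])
    simp only [mem_preimage, this]
  refine cond_both hle _ hb (fun B hB h => ?_) fun B hB h => ?_
  · rw [map_apply (measurable_YY g) ((hle _ hB).inter hb)] at h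
    rw [map_apply (measurable_YY g) (hle _ hB)]
    have a : ∀ n, QQ (YY g ⁻¹' B ∩ {ω | 1 ≤ n ∧ ∀ k v w, cov k v w e →
        ω (.inl (k, v, w)) = 0 → g k < n}) = 0 := by
      intro n
      refine upd' (.inr e) n (pos n) ((measurable_YY g (hle _ hB)).inter
        (measurableSet_setOfPred.2 (m_cond g e measurable_const))) (fun ω ω' hh => ?_)
        (measure_mono_null (t := YY g ⁻¹' (B ∩ {ω | ω e = true}))
          (fun ω hω => ⟨hω.1.1, YY_iff.2 ?_⟩) h)
      · refine propext (and_congr (iff_of_eq (dep B hB hh)) (and_congr_right' ?_))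
        exact forall₃_congr fun k v w => by rw [hh (.inl _) (by simp)]
      · rw [show ω (.inr e) = n from hω.2]; exact hω.1.2
    refine measure_eq_zero_iff_ae_notMem.2 ?_
    filter_upwards [ae_H3, measure_eq_zero_iff_ae_notMem.1 (measure_iUnion_null a)] with ω h3 h4 h5
    obtain ⟨x, i, hx⟩ := edge_form e
    obtain ⟨K, hK⟩ := eventually_atTop.1 (h3.and (eventually_all.2 fun i =>
      eventually_ge_atTop (x i).natAbs))
    refine h4 (mem_iUnion.2 ⟨g K + 1, h5, Nat.le_add_left _ _, fun k v w c ha => ?_⟩)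
    refine Nat.lt_succ_of_le (hg (not_lt.1 fun hk => ?_))
    refine high (fun k hk => (hK k hk).1) le_rfl hk ha (x := x) (fun i => ?_) ?_
    · have := (hK K le_rfl).2 i; have := LL_gt K
      rw [Int.abs_eq_natAbs]; omega
    · obtain ⟨a, b, h1, h2⟩ := c
      have adj : (Zd 2).Adj a b := by have := e.2; rwa [h1] at this
      rcases Sym2.eq_iff.1 (hx.symm.trans h1) with ⟨rfl, -⟩ | ⟨rfl, -⟩
      · exact (h2.tch adj).1
      · exact (h2.tch adj).2
  · rw [map_apply (measurable_YY g) ((hle _ hB).inter hb.compl)] at h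
    rw [map_apply (measurable_YY g) (hle _ hB)]
    refine upd' (.inr e) 0 (pos 0) (measurable_YY g (hle _ hB)) (dep B hB)
      (measure_mono_null (t := YY g ⁻¹' (B ∩ {ω | ω e = true}ᶜ))
        (fun ω hω => ⟨hω.1, fun h1 => ?_⟩) h)
    have := (YY_iff.1 h1).1
    rw [show ω (.inr e) = 0 from hω.2] at this
    omega

theorem hp_main : ∃ μ : Measure (Cfg 2), IsProbabilityMeasure μ ∧ Invariant μ ∧ FiniteEnergy μ ∧
    FKG μ ∧ (∀ᵐ ω ∂μ, Perc ω) ∧ ∀ᵐ ω ∂μ, ¬ Perc (half ω) := by
  obtain ⟨g, hg, h⟩ := noise'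
  refine ⟨QQ.map (YY g), isProbabilityMeasure_map (measurable_YY g).aemeasurable, inv_YY g,
    fe_YY hg, fkg_map g, (ae_map_iff (measurable_YY g).aemeasurable measurable_perc).2 ?_, ?_⟩
  · filter_upwards [ae_H1, ae_H2, ae_H3] with ω h1 h2 h3
    exact perc_plane g (h1.and (h2.and h3))
  have m : Measurable half := measurable_pi_lambda _ fun e =>
    (measurable_of_countable fun b : Bool => b && _).comp (measurable_pi_apply e)
  refine (ae_map_iff (measurable_YY g).aemeasurable (m measurable_perc).compl).2 ?_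
  filter_upwards [h, ae_all_iff.2 fun x0 => ae_all_iff.2 fun K => caps x0 K] with ω h1 h2
  rintro ⟨x, hx⟩
  refine hx ?_
  by_cases h0 : 0 ≤ x 1
  · obtain ⟨K, hK⟩ := eventually_atTop.1 (h1.and (eventually_ge_atTop
      ((x 0).natAbs + (x 1).natAbs)))
    obtain ⟨k, k1, v, k2, k3⟩ := h2 (x 0) K
    have := (hK k k1).2
    have := LL_gt k
    simp only [mem_rect, Fin.forall_fin_two, Matrix.cons_val_zero, Matrix.cons_val_one] at k2
    refine block ?_ (by omega) ?_ k3 (hK k k1).1 <;>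
      simp only [Fin.forall_fin_two, abs_le] <;> omega
  · refine (finite_singleton x).subset fun y hy => ?_
    rcases Relation.ReflTransGen.cases_head hy with rfl | ⟨b, ⟨adj, ho⟩, -⟩
    · rfl
    · simp only [half, Bool.and_eq_true, decide_eq_true_eq] at ho
      exact absurd (ho.2 x (Sym2.mem_mk_left _ _)) h0

end Pool.Agent.H44.FE
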