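import Pool.Agent.H44.ISDDefs

open MeasureTheory ProbabilityTheory Filter Topology Set

namespace Pool.Agent.H44.ISD

lemma quant_le_iff (μ : Measure ℝ) {p : ℝ} (hp : p ∈ Ioo (0 : ℝ) 1) (x : ℝ) :
    quant μ p ≤ x ↔ p ≤ cdf μ x := by
  have hne : {x | p ≤ cdf μ x}.Nonempty :=
    ((tendsto_cdf_atTop μ).eventually_const_le hp.2).exists
  have hbd : BddBelow {x | p ≤ cdf μ x} := by
    obtain ⟨b, hb⟩ := eventually_atBot.1 ((tendsto_cdf_atBot μ).eventually (gt_mem_nhds hp.1))
    refine ⟨b, fun y hy => ?_⟩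
    by_contra h
    exact absurd (hb y (not_le.1 h).le) (not_lt.2 hy)
  refine ⟨fun h => le_trans ?_ (monotone_cdf μ h), fun h => csInf_le hbd h⟩
  have hc := ((cdf μ).right_continuous (quant μ p)).mono Ioi_subset_Ici_self
  refine ge_of_tendsto hc ?_
  filter_upwards [self_mem_nhdsWithin] with y hy
  obtain ⟨z, hz, hzy⟩ := exists_lt_of_csInf_lt hne hy
  exact le_trans hz (monotone_cdf μ hzy.le)

lemma quant_mono (μ : Measure ℝ) : MonotoneOn (quant μ) (Ioo 0 1) := fun _ ha _ hb hab =>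
  (quant_le_iff μ ha _).2 (hab.trans ((quant_le_iff μ hb _).1 le_rfl))

noncomputable def U : Measure ℝ := volume.restrict (Ioo 0 1)

instance : IsProbabilityMeasure U := ⟨by simp [U]⟩

lemma quant_aem (μ : Measure ℝ) : AEMeasurable (quant μ) U :=
  aemeasurable_restrict_of_monotoneOn measurableSet_Ioo (quant_mono μ)

lemma map_quant (μ : Measure ℝ) [IsProbabilityMeasure μ] : U.map (quant μ) = μ := by
  have := Measure.isProbabilityMeasure_map (quant_aem μ)
  refine Measure.ext_of_Iic _ _ fun x => ?_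
  rw [Measure.map_apply_of_aemeasurable (quant_aem μ) measurableSet_Iic, U,
    Measure.restrict_apply' measurableSet_Ioo, ← ofReal_cdf]
  have h1 := cdf_le_one μ x
  refine le_antisymm ?_ ?_
  · calc _ ≤ volume (Ioc 0 (cdf μ x)) :=
          measure_mono fun u hu => ⟨hu.2.1, (quant_le_iff μ hu.2 x).1 hu.1⟩
      _ = _ := by simp
  · calc _ = volume (Ioo 0 (cdf μ x)) := by simp
      _ ≤ _ := measure_mono fun u hu => mem_inter
          ((quant_le_iff μ ⟨hu.1, hu.2.trans_le h1⟩ x).2 hu.2.le) (mem_Ioo.2 ⟨hu.1, hu.2.trans_le h1⟩)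

lemma quant_map {q : ℝ → ℝ} (hm : MonotoneOn q (Ioo 0 1)) (hc : ContinuousOn q (Ioo 0 1))
    {p : ℝ} (hp : p ∈ Ioo (0 : ℝ) 1) : quant (U.map q) p = q p := by
  have ha : AEMeasurable q U := aemeasurable_restrict_of_monotoneOn measurableSet_Ioo hm
  have := Measure.isProbabilityMeasure_map ha
  refine eq_of_forall_ge_iff fun x => ?_
  rw [quant_le_iff _ hp, ← ENNReal.ofReal_le_ofReal_iff (cdf_nonneg _ _), ofReal_cdf,
    Measure.map_apply_of_aemeasurable ha measurableSet_Iic, U,
    Measure.restrict_apply' measurableSet_Ioo]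
  refine ⟨fun h => ?_, fun h => ?_⟩
  · by_contra hx
    push Not at hx
    have h1 : ContinuousAt q p := hc.continuousAt (Ioo_mem_nhds hp.1 hp.2)
    have h2 : ∀ᶠ y in 𝓝[<] p, x < q y ∧ y ∈ Ioo 0 p :=
      ((h1.eventually (lt_mem_nhds hx)).filter_mono nhdsWithin_le_nhds).and
        (Ioo_mem_nhdsLT hp.1)
    obtain ⟨y, hy1, hy2⟩ := h2.exists
    have h3 : volume (q ⁻¹' Iic x ∩ Ioo 0 1) ≤ volume (Ioo 0 y) := measure_mono fun u hu =>
      ⟨hu.2.1, by
        by_contra hc
        exact absurd (hy1.trans_le (hm ⟨hy2.1, hy2.2.trans hp.2⟩ hu.2 (not_lt.1 hc)))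
          (not_lt.2 hu.1)⟩
    have h4 := h.trans h3
    rw [Real.volume_Ioo, sub_zero, ENNReal.ofReal_le_ofReal_iff hy2.1.le] at h4
    exact absurd hy2.2 (not_lt.2 h4)
  · calc _ = volume (Ioo 0 p) := by simp
      _ ≤ _ := measure_mono fun u hu => mem_inter
          ((hm ⟨hu.1, hu.2.trans hp.2⟩ hp hu.2.le).trans h) (mem_Ioo.2 ⟨hu.1, hu.2.trans hp.2⟩)

noncomputable def pi (ν : Measure ℝ) (t : ℝ) : ℝ := ∫ w, max (t - w) 0 ∂ν

variable {ν : Measure ℝ} [IsProbabilityMeasure ν]

lemma int_max (hν : Integrable (fun x : ℝ => x) ν) (t : ℝ) :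
    Integrable (fun w => max (t - w) 0) ν := ((integrable_const t).sub hν).pos_part

lemma quant_int (hν : Integrable (fun x : ℝ => x) ν) : IntegrableOn (quant ν) (Ioo 0 1) := by
  rw [← map_quant ν] at hν
  exact (integrable_map_measure (by fun_prop) (quant_aem ν)).1 hν

lemma pi_eq (t : ℝ) : pi ν t = ∫ u in Ioo (0 : ℝ) 1, max (t - quant ν u) 0 := by
  rw [pi]
  conv_lhs => rw [← map_quant ν]
  rw [integral_map (quant_aem ν) (by fun_prop), U]

lemma F1_eq (hν : Integrable (fun x : ℝ => x) ν) {p : ℝ} (h0 : 0 ≤ p) (h1 : p ≤ 1) (t : ℝ) :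
    p * t - Finv ν 1 p = ∫ u in Ioo 0 p, (t - quant ν u) := by
  have hi : IntegrableOn (quant ν) (Ioo 0 p) := (quant_int hν).mono_set (Ioo_subset_Ioo_right h1)
  rw [integral_sub (by simp) hi]
  simp only [Finv]
  rw [intervalIntegral.integral_of_le h0, integral_Ioc_eq_integral_Ioo]
  simp [h0]

lemma pi_ge (hν : Integrable (fun x : ℝ => x) ν) {p : ℝ} (h0 : 0 ≤ p) (h1 : p ≤ 1) (t : ℝ) :
    p * t - Finv ν 1 p ≤ pi ν t := by
  have hi : IntegrableOn (fun u => t - quant ν u) (Ioo 0 1) :=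
    (show IntegrableOn (fun _ => t) (Ioo (0 : ℝ) 1) by simp).sub (quant_int hν)
  have hs : Ioo (0 : ℝ) p ⊆ Ioo 0 1 := Ioo_subset_Ioo_right h1
  rw [F1_eq hν h0 h1, pi_eq]
  refine le_trans (setIntegral_mono (hi.mono_set hs) (IntegrableOn.mono_set hi.pos_part hs)
    fun u => le_max_left _ _) ?_
  exact setIntegral_mono_set hi.pos_part (ae_of_all _ fun u => le_max_right _ _) hs.eventuallyLE

lemma pi_at (hν : Integrable (fun x : ℝ => x) ν) {p : ℝ} (hp : p ∈ Ioo (0 : ℝ) 1) :
    pi ν (quant ν p) = p * quant ν p - Finv ν 1 p := by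
  have hs : Ioo (0 : ℝ) p ⊆ Ioo 0 1 := Ioo_subset_Ioo_right hp.2.le
  rw [F1_eq hν hp.1.le hp.2.le, pi_eq,
    setIntegral_eq_of_subset_of_forall_sdiff_eq_zero measurableSet_Ioo hs]
  · refine setIntegral_congr_fun measurableSet_Ioo fun u hu => ?_
    exact max_eq_left (sub_nonneg.2 (quant_mono ν (hs hu) hp hu.2.le))
  · intro u hu
    refine max_eq_right (sub_nonpos.2 (quant_mono ν hp hu.1 ?_))
    by_contra hc
    exact hu.2 ⟨hu.1.1, not_le.1 hc⟩

lemma pi_nonneg (t : ℝ) : 0 ≤ pi ν t := integral_nonneg fun _ => le_max_right _ _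

lemma pi_mono (hν : Integrable (fun x : ℝ => x) ν) : Monotone (pi ν) := fun a b hab =>
  integral_mono (int_max hν a) (int_max hν b) fun w => max_le_max (by linarith) le_rfl

lemma pi_bd (hν : Integrable (fun x : ℝ => x) ν) (t : ℝ) :
    max t 0 - ∫ w, |w| ∂ν ≤ pi ν t ∧ pi ν t ≤ max t 0 + ∫ w, |w| ∂ν := by
  constructor
  · have := integral_mono ((integrable_const (max t 0)).sub hν.abs) (int_max hν t) fun w => by
      have := le_abs_self w
      have := abs_nonneg w
      have := le_max_left (t - w) 0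
      have := le_max_right (t - w) 0
      simp only [Pi.sub_apply]
      rcases le_total t 0 with h | h
      · rw [max_eq_right h]; linarith
      · rw [max_eq_left h]; linarith
    rw [integral_sub' (integrable_const _) hν.abs] at this
    simpa [pi] using this
  · have := integral_mono (int_max hν t) ((integrable_const (max t 0)).add hν.abs) fun w => by
      have := neg_abs_le w
      have := abs_nonneg w
      have := le_max_left t 0
      have := le_max_right t 0
      simp only [Pi.add_apply]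
      exact max_le (by linarith) (by linarith)
    rw [integral_add' (integrable_const _) hν.abs] at this
    simpa [pi] using this

/-- heavier lower tail gives strict inequality of `F^{[-3]}` near `0` -/
lemma strict {κ : Measure ℝ} [IsProbabilityMeasure κ] (hν : Integrable (fun x : ℝ => x) ν)
    (hκ : Integrable (fun x : ℝ => x) κ) {t0 : ℝ} (h : ∀ t ≤ t0, pi κ t < pi ν t) :
    ∃ p ∈ Ioo (0 : ℝ) 1, Finv ν 2 p < Finv κ 2 p := by
  have hc : 0 < cdf ν t0 := by
    by_contra hc
    have h0 : ν (Iic t0) = 0 := by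
      rw [← ofReal_cdf, ENNReal.ofReal_eq_zero]; exact not_lt.1 hc
    have : pi ν t0 = 0 := by
      refine integral_eq_zero_of_ae ?_
      filter_upwards [measure_eq_zero_iff_ae_notMem.1 h0] with w hw
      exact max_eq_right (sub_nonpos.2 (not_le.1 hw).le)
    linarith [h t0 le_rfl, pi_nonneg (ν := κ) t0]
  set p := cdf ν t0 / 2 with hp
  have hp1 : p < 1 := by linarith [cdf_le_one ν t0]
  have hp0 : 0 < p := by positivity
  have key : ∀ u ∈ Ioc 0 p, Finv ν 1 u < Finv κ 1 u := by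
    intro u hu
    have hu' : u ∈ Ioo (0 : ℝ) 1 := ⟨hu.1, hu.2.trans_lt hp1⟩
    have h1 := h _ ((quant_le_iff ν hu' t0).2 (by linarith [hu.2]))
    have h2 := pi_at hν hu'
    have h3 := pi_ge hκ hu'.1.le hu'.2.le (quant ν u)
    linarith
  have cont : ∀ (μ : Measure ℝ) [IsProbabilityMeasure μ], Integrable (fun x : ℝ => x) μ →
      ContinuousOn (Finv μ 1) (Icc 0 p) := by
    intro μ _ hμ
    have hi : IntegrableOn (quant μ) (uIcc 0 p) := by
      rw [uIcc_of_le hp0.le, integrableOn_Icc_iff_integrableOn_Ioo]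
      exact (quant_int hμ).mono_set (Ioo_subset_Ioo_right hp1.le)
    have := intervalIntegral.continuousOn_primitive_interval hi
    rwa [uIcc_of_le hp0.le] at this
  exact ⟨p, ⟨hp0, hp1⟩, intervalIntegral.integral_lt_integral_of_continuousOn_of_le_of_exists_lt
    hp0 (cont ν hν) (cont κ hκ) (fun u hu => (key u hu).le) ⟨p, ⟨hp0.le, le_rfl⟩,
      key p ⟨hp0, le_rfl⟩⟩⟩

variable {ρ : Measure ℝ} [IsProbabilityMeasure ρ]

lemma conv_int (hν : Integrable (fun x : ℝ => x) ν) (hρ : Integrable (fun x : ℝ => x) ρ) :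
    Integrable (fun x : ℝ => x) (ν ∗ ρ) := by
  rw [Measure.conv, integrable_map_measure (by fun_prop) (by fun_prop)]
  exact (hν.comp_fst ρ).add (hρ.comp_snd ν)

lemma pi_conv (hν : Integrable (fun x : ℝ => x) ν) (hρ : Integrable (fun x : ℝ => x) ρ) (t : ℝ) :
    Integrable (fun z => pi ν (t - z)) ρ ∧ pi (ν ∗ ρ) t = ∫ z, pi ν (t - z) ∂ρ := by
  have h := int_max (conv_int hρ hν) t
  constructor
  · refine ((integrable_conv_iff h.1).1 h).2.congr (ae_of_all _ fun z => ?_)
    simp only [pi]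
    refine integral_congr_ae (ae_of_all _ fun y => ?_)
    simp only [Real.norm_of_nonneg (le_max_right _ _), sub_sub]
  · rw [pi, Measure.conv_comm, integral_conv h]
    simp only [pi, sub_sub]

end Pool.Agent.H44.ISD
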