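import Pool.Agent.H44.ISD1

open MeasureTheory ProbabilityTheory Filter Topology Set

namespace Pool.Agent.H44.ISD

noncomputable def qX (u : ℝ) : ℝ := -15 / 2 + 9 * u
noncomputable def qY (u : ℝ) : ℝ := -u ^ (-(2 / 3) : ℝ)

lemma qX_mono : MonotoneOn qX (Ioo 0 1) := fun a _ b _ hab => by simp only [qX]; linarith
lemma qX_cont : ContinuousOn qX (Ioo 0 1) := by unfold qX; fun_prop
lemma qY_mono : MonotoneOn qY (Ioo 0 1) := fun a ha b _ hab => by
  simp only [qY, neg_le_neg_iff]
  exact Real.rpow_le_rpow_of_nonpos ha.1 hab (by norm_num)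
lemma qY_cont : ContinuousOn qY (Ioo 0 1) :=
  (continuousOn_id.rpow_const fun _ hx => Or.inl hx.1.ne').neg

noncomputable def μX : Measure ℝ := U.map qX
noncomputable def μY : Measure ℝ := U.map qY

lemma aX : AEMeasurable qX U := aemeasurable_restrict_of_monotoneOn measurableSet_Ioo qX_mono
lemma aY : AEMeasurable qY U := aemeasurable_restrict_of_monotoneOn measurableSet_Ioo qY_mono

instance : IsProbabilityMeasure μX := Measure.isProbabilityMeasure_map aX
instance : IsProbabilityMeasure μY := Measure.isProbabilityMeasure_map aY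

lemma iX : Integrable (fun x : ℝ => x) μX := by
  rw [μX, integrable_map_measure (by fun_prop) aX]
  have : Continuous qX := by unfold qX; fun_prop
  exact (this.integrableOn_Icc (a := 0) (b := 1)).mono_set Ioo_subset_Icc_self

lemma iY : Integrable (fun x : ℝ => x) μY := by
  rw [μY, integrable_map_measure (by fun_prop) aY]
  have := (intervalIntegral.intervalIntegrable_rpow' (a := 0) (b := 1) (r := -(2 / 3))
    (by norm_num)).1
  exact (this.mono_set Ioo_subset_Ioc_self).neg

lemma congr01 {f g : ℝ → ℝ} {p : ℝ} (h0 : 0 ≤ p) (h : ∀ u ∈ Ioo 0 p, f u = g u) :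
    ∫ u in (0 : ℝ)..p, f u = ∫ u in (0 : ℝ)..p, g u := by
  rw [intervalIntegral.integral_of_le h0, intervalIntegral.integral_of_le h0,
    integral_Ioc_eq_integral_Ioo, integral_Ioc_eq_integral_Ioo]
  exact setIntegral_congr_fun measurableSet_Ioo h

lemma poly (a b c d : ℝ) :
    ∫ u in (0 : ℝ)..1, (a + b * u + c * u ^ 2 + d * u ^ 3) = a + b / 2 + c / 3 + d / 4 := by
  rw [intervalIntegral.integral_add, intervalIntegral.integral_add, intervalIntegral.integral_add]
  · rw [intervalIntegral.integral_const_mul b (fun u : ℝ => u), integral_id]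
    simp; ring
  all_goals exact Continuous.intervalIntegrable (by fun_prop) _ _

lemma muX : muMin μX 1 = -3 ∧ muMin μX 2 = -9 / 2 ∧ muMin μX 3 = -21 / 4 := by
  have h : ∀ u ∈ Ioo (0 : ℝ) 1, quant μX u = -15 / 2 + 9 * u :=
    fun u hu => quant_map qX_mono qX_cont hu
  refine ⟨?_, ?_, ?_⟩
  · rw [muMin, congr01 zero_le_one (g := fun u => -15 / 2 + 9 * u + 0 * u ^ 2 + 0 * u ^ 3)
      fun u hu => by rw [h u hu]; ring, poly]
    norm_num
  · rw [muMin, congr01 zero_le_one (g := fun u => -15 / 2 + 33 / 2 * u + -9 * u ^ 2 + 0 * u ^ 3)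
      fun u hu => by rw [h u hu]; ring, poly]
    norm_num
  · rw [muMin, congr01 zero_le_one (g := fun u => -15 / 2 + 24 * u + -51 / 2 * u ^ 2 + 9 * u ^ 3)
      fun u hu => by rw [h u hu]; ring, poly]
    norm_num

lemma rp (a b c : ℝ) : ∫ u in (0 : ℝ)..1, (a * u ^ (-(2 / 3) : ℝ) + b * u ^ (1 / 3 : ℝ) +
    c * u ^ (4 / 3 : ℝ)) = 3 * a + 3 / 4 * b + 3 / 7 * c := by
  have i1 := (intervalIntegral.intervalIntegrable_rpow' (a := 0) (b := 1) (r := -(2 / 3))
    (by norm_num)).const_mul a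
  have i2 := (intervalIntegral.intervalIntegrable_rpow' (a := 0) (b := 1) (r := 1 / 3)
    (by norm_num)).const_mul b
  have i3 := (intervalIntegral.intervalIntegrable_rpow' (a := 0) (b := 1) (r := 4 / 3)
    (by norm_num)).const_mul c
  rw [intervalIntegral.integral_add (i1.add i2) i3, intervalIntegral.integral_add i1 i2]
  simp only [intervalIntegral.integral_const_mul]
  rw [integral_rpow (Or.inl (by norm_num)), integral_rpow (Or.inl (by norm_num)),
    integral_rpow (Or.inl (by norm_num)), Real.zero_rpow (by norm_num),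
    Real.zero_rpow (by norm_num), Real.zero_rpow (by norm_num)]
  simp only [Real.one_rpow]; ring

lemma hqY : ∀ u ∈ Ioo (0 : ℝ) 1, quant μY u = -u ^ (-(2 / 3) : ℝ) :=
  fun _ hu => quant_map qY_mono qY_cont hu

lemma muY : muMin μY 1 = -3 ∧ muMin μY 2 = -9 / 2 ∧ muMin μY 3 = -81 / 14 := by
  have h1 : ∀ u : ℝ, 0 < u → u ^ (1 / 3 : ℝ) = u ^ (-(2 / 3) : ℝ) * u := fun u hu => by
    rw [← Real.rpow_add_one hu.ne']; norm_num
  have h2 : ∀ u : ℝ, 0 < u → u ^ (4 / 3 : ℝ) = u ^ (-(2 / 3) : ℝ) * u * u := fun u hu => by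
    rw [← Real.rpow_add_one hu.ne', ← Real.rpow_add_one hu.ne']; norm_num
  refine ⟨?_, ?_, ?_⟩
  · rw [muMin, congr01 zero_le_one (g := fun u => -1 * u ^ (-(2 / 3) : ℝ) + 0 * u ^ (1 / 3 : ℝ) +
      0 * u ^ (4 / 3 : ℝ)) fun u hu => by rw [hqY u hu]; ring, rp]
    norm_num
  · rw [muMin, congr01 zero_le_one (g := fun u => -1 * u ^ (-(2 / 3) : ℝ) + 1 * u ^ (1 / 3 : ℝ) +
      0 * u ^ (4 / 3 : ℝ)) fun u hu => by simp only [hqY u hu, h1 u hu.1]; ring, rp]
    norm_num
  · rw [muMin, congr01 zero_le_one (g := fun u => -1 * u ^ (-(2 / 3) : ℝ) + 2 * u ^ (1 / 3 : ℝ) +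
      -1 * u ^ (4 / 3 : ℝ)) fun u hu => by simp only [hqY u hu, h1 u hu.1, h2 u hu.1]; ring, rp]
    norm_num

lemma piX {s : ℝ} (hs : s ≤ -8) : pi μX s = 0 := by
  rw [pi_eq]
  refine setIntegral_eq_zero_of_forall_eq_zero fun u hu => max_eq_right ?_
  rw [show quant μX u = -15 / 2 + 9 * u from quant_map qX_mono qX_cont hu]
  linarith [hu.1]

lemma piY {r : ℝ} (h0 : 0 < r) (h1 : r ≤ 1) : 2 * r ≤ pi μY (-(1 / r ^ 2)) := by
  have h3 : r ^ 3 ≤ 1 := pow_le_one₀ h0.le h1
  have h := pi_ge iY (p := r ^ 3) (by positivity) h3 (-(1 / r ^ 2))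
  have h2 : Finv μY 1 (r ^ 3) = -(3 * r) := by
    simp only [Finv]
    rw [congr01 (by positivity) (g := fun u => -u ^ (-(2 / 3) : ℝ))
      fun u hu => hqY u ⟨hu.1, hu.2.trans_le h3⟩, intervalIntegral.integral_neg,
      integral_rpow (Or.inl (by norm_num)), Real.zero_rpow (by norm_num),
      ← Real.rpow_natCast, ← Real.rpow_mul h0.le]
    norm_num; ring
  have h4 : r ^ 3 * -(1 / r ^ 2) = -r := by field_simp
  linarith

lemma tails {ρ : Measure ℝ} [IsProbabilityMeasure ρ] (hρ : Integrable (fun x : ℝ => x) ρ) :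
    ∃ t0, ∀ t ≤ t0, pi (μX ∗ ρ) t < pi (μY ∗ ρ) t := by
  set m := ∫ z, |z| ∂ρ with hm
  set M := ∫ w, |w| ∂μX + ∫ w, |w| ∂μY with hM
  have hm0 : 0 ≤ m := integral_nonneg fun _ => abs_nonneg _
  have hM0 : 0 ≤ M := add_nonneg (integral_nonneg fun _ => abs_nonneg _)
    (integral_nonneg fun _ => abs_nonneg _)
  set K := 2 * m + 1 with hK
  have hK0 : 0 < K := by positivity
  refine ⟨-(K + 16 + 8 * (M * m) ^ 2), fun t ht => ?_⟩
  have hMm : 0 ≤ M * m := mul_nonneg hM0 hm0
  have hsq : 0 ≤ (M * m) ^ 2 := sq_nonneg _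
  obtain ⟨iX', eX⟩ := pi_conv iX hρ t
  obtain ⟨iY', eY⟩ := pi_conv iY hρ t
  set A := pi μY (t - K) with hA
  have hA0 : 0 ≤ A := pi_nonneg _
  have hd : 0 < -t - 8 := by linarith
  have pt : ∀ z, A - (A / K + M / (-t - 8)) * |z| ≤ pi μY (t - z) - pi μX (t - z) := by
    intro z
    have a1 : 0 ≤ M / (-t - 8) * |z| := by positivity
    have a2 : 0 ≤ A / K * |z| := by positivity
    have a3 : K ≤ |z| → A ≤ A / K * |z| := fun h => by
      calc A = A / K * K := by field_simp
        _ ≤ _ := mul_le_mul_of_nonneg_left h (by positivity)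
    rw [add_mul]
    rcases le_or_gt (t + 8) z with h | h
    · rw [piX (by linarith)]
      rcases le_total z K with h' | h'
      · have := pi_mono iY (show t - K ≤ t - z by linarith)
        linarith
      · have := a3 (h'.trans (le_abs_self z))
        linarith [pi_nonneg (ν := μY) (t - z)]
    · have b1 : -t - 8 ≤ |z| := by linarith [neg_abs_le z]
      have b2 := a3 (by linarith)
      have b3 : M ≤ M / (-t - 8) * |z| := by
        calc M = M / (-t - 8) * (-t - 8) := by field_simp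
          _ ≤ _ := mul_le_mul_of_nonneg_left b1 (by positivity)
      linarith [(pi_bd iX (t - z)).2, (pi_bd iY (t - z)).1]
  have key := integral_mono ((integrable_const A).sub (hρ.abs.const_mul _)) (iY'.sub iX') pt
  rw [integral_sub' (integrable_const _) (hρ.abs.const_mul _), integral_sub' iY' iX',
    integral_const_mul, ← eX, ← eY, ← hm] at key
  simp only [integral_const, probReal_univ, smul_eq_mul, one_mul] at key
  set y := √(-2 * t) with hy
  have hy2 : y ^ 2 = -2 * t := Real.sq_sqrt (by linarith)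
  have hy1 : 1 ≤ y := by rw [hy, Real.le_sqrt (by norm_num) (by linarith)]; linarith
  have c1 := piY (r := 1 / y) (by positivity) (by rw [div_le_one (by linarith)]; exact hy1)
  have c2 : pi μY (-(1 / (1 / y) ^ 2)) ≤ A := by
    refine pi_mono iY ?_
    rw [one_div, one_div, inv_pow, inv_inv, hy2]; linarith
  have c3 : A / K * m ≤ A / 2 := by
    rw [div_mul_eq_mul_div, div_le_div_iff₀ hK0 two_pos]; nlinarith
  have c4 : 4 * (M * m) < y := by
    refine lt_of_pow_lt_pow_left₀ 2 (by linarith) ?_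
    nlinarith
  have c5 : M / (-t - 8) * m < 1 / y := by
    rw [div_mul_eq_mul_div, div_lt_div_iff₀ hd (by linarith)]
    nlinarith
  rw [add_mul] at key
  linarith

end Pool.Agent.H44.ISD
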