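import Mathlib

open MeasureTheory ProbabilityTheory

namespace Pool.Agent.H44.ISD

/-- the quantile function `F⁻¹(p) = inf {x : F(x) ≥ p}` of a law `μ` -/
noncomputable def quant (μ : Measure ℝ) (p : ℝ) : ℝ := sInf {x | p ≤ cdf μ x}

/-- `Finv μ k` is `F^{[-(k+1)]}` -/
noncomputable def Finv (μ : Measure ℝ) : ℕ → ℝ → ℝ
  | 0 => quant μ
  | k + 1 => fun p => ∫ u in (0 : ℝ)..p, Finv μ k u

/-- mean of the minimum of `k` independent copies -/
noncomputable def muMin (μ : Measure ℝ) (k : ℕ) : ℝ :=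
  k * ∫ u in (0 : ℝ)..1, quant μ u * (1 - u) ^ (k - 1)

end Pool.Agent.H44.ISD
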