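import Pool.Agent.H44.JSDefs
import Pool.Agent.H44.Har

/-! The transition semigroup of the workload process. -/

open Set MeasureTheory ProbabilityTheory Filter Topology Measure
open scoped ENNReal

namespace Pool.Agent.H44.JS

noncomputable def ex : Measure ℝ := expMeasure (99 / 100)

instance : IsProbabilityMeasure ex := isProbabilityMeasure_expMeasure (by norm_num)

noncomputable def E (x : ℝ) : ℝ≥0∞ := ENNReal.ofReal (Real.exp x)

lemma E_add (x y : ℝ) : E (x + y) = E x * E y := by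
  rw [E, Real.exp_add, ENNReal.ofReal_mul (Real.exp_pos _).le]; rfl

lemma E_mono {x y : ℝ} (h : x ≤ y) : E x ≤ E y := ENNReal.ofReal_le_ofReal (Real.exp_le_exp.2 h)

@[simp] lemma E_zero : E 0 = 1 := by simp [E]

lemma E_ne_top (x : ℝ) : E x ≠ ∞ := ENNReal.ofReal_ne_top

lemma E_ne_zero (x : ℝ) : E x ≠ 0 := by simp [E, Real.exp_pos]

@[fun_prop] lemma E_meas : Measurable E := by unfold E; fun_prop

lemma ex_lint {G : ℝ → ℝ≥0∞} (hG : Measurable G) :
    ∫⁻ τ, G τ ∂ex = ∫⁻ τ, exponentialPDF (99 / 100) τ * G τ :=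
  lintegral_withDensity_eq_lintegral_mul _ (measurable_exponentialPDFReal _).ennreal_ofReal hG

lemma ex_nonneg : ∀ᵐ τ ∂ex, 0 < τ := by
  rw [ae_iff, show {a : ℝ | ¬ 0 < a} = Iic 0 from Set.ext fun _ => not_lt,
    ← lintegral_indicator_one measurableSet_Iic,
    ex_lint (measurable_one.indicator measurableSet_Iic)]
  refine (lintegral_eq_zero_iff' ?_).2 ?_
  · exact ((measurable_exponentialPDFReal _).ennreal_ofReal.mul (measurable_one.indicator
      measurableSet_Iic)).aemeasurable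
  · filter_upwards [compl_mem_ae_iff.2 (Real.volume_singleton (a := 0))] with τ h
    rcases lt_or_gt_of_ne h with h | h
    · simp [exponentialPDF_of_neg h]
    · simp [h]

lemma mem {t : ℝ} (ht : 0 ≤ t) {G : ℝ → ℝ≥0∞} (hG : Measurable G) :
    ∫⁻ τ in Ioi t, G (τ - t) ∂ex = E (-(99 / 100 * t)) * ∫⁻ τ, G τ ∂ex := by
  rw [← lintegral_indicator measurableSet_Ioi, ex_lint (G := (Ioi t).indicator fun τ => G (τ - t))
    ((hG.comp (measurable_sub_const t)).indicator measurableSet_Ioi), ex_lint hG, ← lintegral_const_mul' _ _ (E_ne_top _),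
    ← lintegral_add_right_eq_self _ t]
  refine lintegral_congr_ae ?_
  filter_upwards [compl_mem_ae_iff.2 (Real.volume_singleton (a := 0))] with τ h
  rcases lt_or_gt_of_ne h with h | h
  · simp [exponentialPDF_of_neg h, h.le]
  · rw [indicator_of_mem (by simpa using h), exponentialPDF_of_nonneg h.le,
      exponentialPDF_of_nonneg (by linarith), ← mul_assoc, E,
      ← ENNReal.ofReal_mul (Real.exp_pos _).le, mul_left_comm, ← Real.exp_add]
    simp only [add_sub_cancel_right]
    congr 4; ring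

lemma ex_Ioi {t : ℝ} (ht : 0 ≤ t) : ex (Ioi t) = E (-(99 / 100 * t)) := by
  simpa using mem ht (G := fun _ => 1) measurable_const

lemma lap {a : ℝ} (ha : 0 < 99 / 100 + a) :
    ∫⁻ τ, E (-(a * τ)) ∂ex = ENNReal.ofReal (99 / 100 / (99 / 100 + a)) := by
  rw [ex_lint (by fun_prop), ← mul_one (ENNReal.ofReal _), ← lintegral_exponentialPDF_eq_one ha,
    ← lintegral_const_mul' _ _ ENNReal.ofReal_ne_top]
  refine lintegral_congr fun τ => ?_
  rcases lt_or_ge τ 0 with h | h
  · simp [exponentialPDF_of_neg h]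
  · rw [exponentialPDF_of_nonneg h, exponentialPDF_of_nonneg h, E,
      ← ENNReal.ofReal_mul (by positivity), ← ENNReal.ofReal_mul (by positivity), mul_assoc,
      ← Real.exp_add]
    congr 1
    rw [← mul_assoc, div_mul_cancel₀ _ ha.ne']
    congr 2; ring

abbrev Om : Type := ℕ → ℝ × Mk

def sh (ω : Om) : Om := fun n => ω (n + 1)

@[fun_prop] lemma sh_meas : Measurable sh := by unfold sh; fun_prop

lemma drain_drain (w : St) (t : ℝ) {s : ℝ} (hs : 0 ≤ s) : drain (drain w t) s = drain w (t + s) := by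
  funext i
  simp only [drain, max_def]
  split_ifs <;> linarith

@[fun_prop] lemma drain_meas {X : Type} [MeasurableSpace X] {w : X → St} {t : X → ℝ}
    (hw : Measurable w) (ht : Measurable t) : Measurable fun x => drain (w x) (t x) := by
  unfold drain; fun_prop

lemma job_meas' : Measurable fun p : (St × ℝ × ℝ) × Fin 3 => job p.1.1 (p.2, p.1.2) := by
  refine measurable_from_prod_countable_left fun c => ?_
  show Measurable fun a : St × ℝ × ℝ => if a.1 c ≤ a.1 (c + 1) then
    Function.update a.1 c (a.1 c + a.2.1) else Function.update a.1 (c + 1) (a.1 (c + 1) + a.2.2)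
  refine Measurable.ite (measurableSet_le (by fun_prop) (by fun_prop)) ?_ ?_
  · exact measurable_update'.comp (f := fun p : St × ℝ × ℝ => (p.1, p.1 c + p.2.1)) (by fun_prop)
  · exact measurable_update'.comp (f := fun p : St × ℝ × ℝ => (p.1, p.1 (c + 1) + p.2.2))
      (by fun_prop)

@[fun_prop] lemma job_meas {X : Type} [MeasurableSpace X] {w : X → St} {m : X → Mk}
    (hw : Measurable w) (hm : Measurable m) : Measurable fun x => job (w x) (m x) :=
  job_meas'.comp (f := fun x => ((w x, (m x).2), (m x).1)) (by fun_prop)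

lemma Z_meas (n : ℕ) : Measurable fun p : St × Om => Z p.1 p.2 n := by
  induction n with
  | zero => exact measurable_fst
  | succ n ih => simp only [Z]; fun_prop

lemma T_meas (n : ℕ) : Measurable fun ω => T ω n := by unfold T; fun_prop

lemma N_meas : Measurable fun p : Om × ℝ => N p.1 p.2 := by
  refine measurable_to_countable' fun n => ?_
  have h : ∀ k, MeasurableSet {p : Om × ℝ | p.2 < T p.1 (k + 1)} := fun k =>
    measurableSet_lt measurable_snd ((T_meas _).comp measurable_fst)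
  have : (fun p : Om × ℝ => N p.1 p.2) ⁻¹' {n} = ({p | p.2 < T p.1 (n + 1)} ∩
      ⋂ k < n, {p | p.2 < T p.1 (k + 1)}ᶜ) ∪ ({_p | n = 0} ∩ ⋂ k, {p | p.2 < T p.1 (k + 1)}ᶜ) := by
    ext p
    simp only [mem_preimage, mem_singleton_iff, mem_union, mem_inter_iff, mem_iInter,
      mem_compl_iff, mem_ofPred_eq, N]
    constructor
    · rintro rfl
      rcases eq_empty_or_nonempty {n | p.2 < T p.1 (n + 1)} with h | h
      · exact Or.inr ⟨by rw [h, Nat.sInf_empty], fun k hk => (eq_empty_iff_forall_notMem.1 h) k hk⟩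
      · exact Or.inl ⟨Nat.sInf_mem h, fun k hk => Nat.notMem_of_lt_sInf hk⟩
    · rintro (⟨h1, h2⟩ | ⟨rfl, h⟩)
      · exact le_antisymm (Nat.sInf_le h1) (not_lt.1 fun h => h2 _ h
          (Nat.sInf_mem (s := {n | p.2 < T p.1 (n + 1)}) ⟨n, h1⟩))
      · rw [(eq_empty_iff_forall_notMem (s := {n | p.2 < T p.1 (n + 1)})).2 h, Nat.sInf_empty]
  rw [this]
  exact ((h n).inter (.iInter fun k => .iInter fun _ => (h k).compl)).union
    ((MeasurableSet.const _).inter (.iInter fun k => (h k).compl))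

@[fun_prop] lemma W_meas {X : Type} [MeasurableSpace X] {w : X → St} {t : X → ℝ} {ω : X → Om}
    (hw : Measurable w) (ht : Measurable t) (hω : Measurable ω) :
    Measurable fun x => W (w x) (t x) (ω x) := by
  have h : Measurable fun p : X × ℕ => drain (Z (w p.1) (ω p.1) p.2) (t p.1 - T (ω p.1) p.2) :=
    measurable_from_prod_countable_left fun n => drain_meas ((Z_meas n).comp (hw.prodMk hω))
      (ht.sub ((T_meas n).comp hω))
  exact h.comp (measurable_id.prodMk (N_meas.comp (hω.prodMk ht)))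

lemma T_succ (ω : Om) (n : ℕ) : T ω (n + 1) = T (sh ω) n + (ω 0).1 := Finset.sum_range_succ' _ n

lemma Z_succ (w : St) (ω : Om) (n : ℕ) :
    Z w ω (n + 1) = Z (job (drain w (ω 0).1) (ω 0).2) (sh ω) n := by
  induction n with
  | zero => rfl
  | succ n ih => rw [Z, ih]; rfl

lemma W_lt (w : St) {t : ℝ} {ω : Om} (h : t < (ω 0).1) : W w t ω = drain w t := by
  have : N ω t = 0 := Nat.sInf_eq_zero.2 (Or.inl (by simpa [T] using h))
  simp [W, this, Z, T]

lemma W_ge (w : St) {t : ℝ} {ω : Om} (h : ¬ t < (ω 0).1) (h' : ∃ k, t < T ω (k + 1)) :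
    W w t ω = W (job (drain w (ω 0).1) (ω 0).2) (t - (ω 0).1) (sh ω) := by
  have hN : t < T ω (N ω t + 1) := Nat.sInf_mem (s := {n | t < T ω (n + 1)}) h'
  have h0 : N ω t ≠ 0 := fun e => by
    rw [e] at hN
    exact h (by simpa [T] using hN)
  obtain ⟨n, hn⟩ := Nat.exists_eq_succ_of_ne_zero h0
  have h1 : t < T ω (n + 1 + 1) := by rwa [hn] at hN
  have : N (sh ω) (t - (ω 0).1) = n := by
    rw [T_succ] at h1
    refine le_antisymm (Nat.sInf_le (sub_lt_iff_lt_add.2 h1)) (not_lt.1 fun h2 => ?_)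
    have h3 := Nat.sInf_mem (s := {n | t - (ω 0).1 < T (sh ω) (n + 1)}) ⟨n, sub_lt_iff_lt_add.2 h1⟩
    have h4 : N ω t ≤ N (sh ω) (t - (ω 0).1) + 1 :=
      Nat.sInf_le (show t < _ by rw [T_succ]; exact sub_lt_iff_lt_add.1 h3)
    omega
  rw [W, W, hn, this, Z_succ, T_succ]
  congr 1; ring

noncomputable def Fn (f : St → ℝ≥0∞) : ℕ → ℝ → St → Om → ℝ≥0∞
  | 0, _, _, _ => 0
  | n + 1, t, w, ω => if t < (ω 0).1 then f (drain w t)
      else Fn f n (t - (ω 0).1) (job (drain w (ω 0).1) (ω 0).2) (sh ω)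

lemma Fn_eq (f : St → ℝ≥0∞) {n : ℕ} : ∀ {t w ω}, (∃ k < n, t < T ω (k + 1)) →
    Fn f n t w ω = f (W w t ω) := by
  induction n with
  | zero => simp
  | succ n ih =>
    rintro t w ω ⟨k, h1, h2⟩
    rw [Fn]
    split_ifs with h
    · rw [W_lt w h]
    · rw [W_ge w h ⟨k, h2⟩]
      rcases k with _ | k
      · exact absurd (by simpa [T] using h2) h
      · rw [T_succ] at h2
        exact ih ⟨k, by omega, sub_lt_iff_lt_add.2 h2⟩

lemma Fn_meas {f : St → ℝ≥0∞} (hf : Measurable f) (n : ℕ) :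
    Measurable fun p : ℝ × St × Om => Fn f n p.1 p.2.1 p.2.2 := by
  induction n with
  | zero => exact measurable_const
  | succ n ih =>
    simp only [Fn]
    refine Measurable.ite (measurableSet_lt (by fun_prop) (by fun_prop)) (by fun_prop) ?_
    exact ih.comp (f := fun p : ℝ × St × Om => (p.1 - (p.2.2 0).1,
      job (drain p.2.1 (p.2.2 0).1) (p.2.2 0).2, sh p.2.2)) (by fun_prop)

variable (κ : Measure Mk) [IsProbabilityMeasure κ]

noncomputable def PP : Measure Om := infinitePi fun _ => ex.prod κ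

instance : IsProbabilityMeasure (PP κ) := by unfold PP; infer_instance

lemma shift {F : (ℝ × Mk) × Om → ℝ≥0∞} (hF : Measurable F) :
    ∫⁻ ω, F (ω 0, sh ω) ∂PP κ = ∫⁻ τ, ∫⁻ m, ∫⁻ ω, F ((τ, m), ω) ∂PP κ ∂κ ∂ex := by
  have h1 : MeasurePreserving (fun ω : Om => ω 0) (PP κ) (ex.prod κ) :=
    measurePreserving_eval_infinitePi _ 0
  have h2 : MeasurePreserving sh (PP κ) (PP κ) :=
    ⟨sh_meas, map_infinitePi_infinitePi_of_inj (P := fun _ : ℕ => ex.prod κ) Nat.succ_injective⟩
  rw [PP, ← (Har.mp_mix (fun _ : ℕ => ex.prod κ) {0}).lintegral_comp (f := fun ω => F (ω 0, sh ω))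
    (by fun_prop), ← PP, ← lintegral_prod (fun x => ∫⁻ ω, F (x, ω) ∂PP κ)
    hF.lintegral_prod_right'.aemeasurable, ← lintegral_prod _ hF.aemeasurable,
    ← (h1.prod h2).lintegral_comp hF]
  refine lintegral_congr fun z => ?_
  congr 2
  · exact Har.mix_mem _ _ rfl
  · exact funext fun n => Har.mix_not _ _ (Nat.succ_ne_zero n)

lemma ae_ex (t : ℝ) : ∀ᵐ ω ∂PP κ, ∃ k, t < T ω (k + 1) := by
  have h0 : ∀ᵐ ω ∂PP κ, ∀ i, 0 < (ω i).1 := ae_all_iff.2 fun i =>
    (measurePreserving_fst.comp (measurePreserving_eval_infinitePi (fun _ : ℕ => ex.prod κ)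
      i)).quasiMeasurePreserving.ae ex_nonneg
  have h1 : ex (Iic |t|) < 1 := by
    rw [← compl_Ioi, prob_compl_eq_one_sub measurableSet_Ioi, ex_Ioi (abs_nonneg t)]
    exact ENNReal.sub_lt_self ENNReal.one_ne_top one_ne_zero (E_ne_zero _)
  have h2 : PP κ {ω | ∀ k, (ω k).1 ≤ |t|} = 0 := by
    refine le_zero_iff.1 (ge_of_tendsto' (ENNReal.tendsto_pow_atTop_nhds_zero_of_lt_one h1)
      fun n => (measure_mono (t := Set.pi (Finset.range n) fun _ => Iic |t| ×ˢ univ)
        fun ω (h : ∀ k, _) i _ => ⟨h i, trivial⟩).trans (le_of_eq ?_))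
    rw [PP, infinitePi_pi _ fun _ _ => measurableSet_Iic.prod .univ]
    simp [prod_prod]
  filter_upwards [h0, compl_mem_ae_iff.2 h2] with ω h3 h4
  obtain ⟨k, hk⟩ := not_forall.1 h4
  refine ⟨k, (le_abs_self t).trans_lt ((not_le.1 hk).trans_le ?_)⟩
  exact Finset.single_le_sum (f := fun i => (ω i).1) (fun i _ => (h3 i).le)
    (Finset.self_mem_range_succ k)

noncomputable def Pt (f : St → ℝ≥0∞) (t : ℝ) (w : St) : ℝ≥0∞ := ∫⁻ ω, f (W w t ω) ∂PP κ

noncomputable def K (g : St → ℝ≥0∞) (w : St) : ℝ≥0∞ := ∫⁻ m, g (job w m) ∂κ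

noncomputable def step (f : St → ℝ≥0∞) (u : ℝ → St → ℝ≥0∞) (t : ℝ) (w : St) : ℝ≥0∞ :=
  ex (Ioi t) * f (drain w t) + ∫⁻ τ in Iic t, K κ (u (t - τ)) (drain w τ) ∂ex

variable {f g : St → ℝ≥0∞}

@[fun_prop] lemma Pt_meas (hf : Measurable f) {X : Type} [MeasurableSpace X] {w : X → St}
    {t : X → ℝ} (hw : Measurable w) (ht : Measurable t) : Measurable fun x => Pt κ f (t x) (w x) :=
  Measurable.lintegral_prod_right' (f := fun p : X × Om => f (W (w p.1) (t p.1) p.2)) (by fun_prop)

lemma K_meas {X : Type} [MeasurableSpace X] {u : X → St → ℝ≥0∞}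
    (hu : Measurable fun p : X × St => u p.1 p.2) {w : X → St} (hw : Measurable w) :
    Measurable fun x => K κ (u x) (w x) :=
  Measurable.lintegral_prod_right' (f := fun p : X × Mk => u p.1 (job (w p.1) p.2))
    (hu.comp (f := fun p : X × Mk => (p.1, job (w p.1) p.2)) (by fun_prop))

lemma split {G : ℝ → St → Om → ℝ≥0∞} (hG : Measurable fun p : ℝ × St × Om => G p.1 p.2.1 p.2.2)
    (hf : Measurable f) (t : ℝ) (w : St) :
    ∫⁻ ω, (if t < (ω 0).1 then f (drain w t) else G (t - (ω 0).1) (job (drain w (ω 0).1) (ω 0).2)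
      (sh ω)) ∂PP κ = step κ f (fun t w => ∫⁻ ω, G t w ω ∂PP κ) t w := by
  rw [shift κ (F := fun z => if t < z.1.1 then f (drain w t) else G (t - z.1.1)
    (job (drain w z.1.1) z.1.2) z.2), step, ← lintegral_add_compl _ (measurableSet_Ioi (a := t)),
    compl_Ioi]
  · congr 1
    · rw [setLIntegral_congr_fun measurableSet_Ioi (g := fun _ => f (drain w t))
        fun τ (h : t < τ) => by simp [h]]
      simp [mul_comm]
    · exact setLIntegral_congr_fun measurableSet_Iic fun τ (h : τ ≤ t) => by simp [h.not_gt, K]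
  · exact Measurable.ite (measurableSet_lt (by fun_prop) (by fun_prop)) (by fun_prop)
      (hG.comp (f := fun z : (ℝ × Mk) × Om => (t - z.1.1, job (drain w z.1.1) z.1.2, z.2))
        (by fun_prop))

theorem Pt_step (hf : Measurable f) (t : ℝ) (w : St) : Pt κ f t w = step κ f (Pt κ f) t w := by
  refine Eq.trans (lintegral_congr_ae ?_) (split κ (G := fun t w ω => f (W w t ω)) (by fun_prop) hf t w)
  filter_upwards [ae_ex κ t] with ω h
  split_ifs with h1
  · rw [W_lt w h1]
  · rw [W_ge w h1 h]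

theorem Pt_le (hf : Measurable f) {u : ℝ → St → ℝ≥0∞}
    (hu : ∀ t, 0 ≤ t → ∀ w, step κ f u t w ≤ u t w) {t : ℝ} (ht : 0 ≤ t) (w : St) :
    Pt κ f t w ≤ u t w := by
  have h1 : ∀ n t, 0 ≤ t → ∀ w, ∫⁻ ω, Fn f n t w ω ∂PP κ ≤ u t w := by
    intro n
    induction n with
    | zero => simp [Fn]
    | succ n ih =>
      intro t ht w
      simp only [Fn]
      rw [split κ (Fn_meas hf n) hf]
      exact le_trans (add_le_add le_rfl (setLIntegral_mono' measurableSet_Iic fun τ (h : τ ≤ t) =>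
        lintegral_mono fun m => ih _ (sub_nonneg.2 h) _)) (hu t ht w)
  refine le_trans (lintegral_mono_ae ?_) ((lintegral_liminf_le fun n => (Fn_meas hf n).comp
    (f := fun ω => (t, w, ω)) (by fun_prop)).trans (liminf_le_of_frequently_le'
      (Frequently.of_forall (f := atTop) fun n => h1 n t ht w)))
  filter_upwards [ae_ex κ t] with ω ⟨k, h⟩
  refine le_liminf_of_le (by isBoundedDefault) ?_
  filter_upwards [eventually_gt_atTop k] with n hn
  exact (Fn_eq f ⟨k, hn, h⟩).ge

lemma mem' {t : ℝ} (ht : 0 ≤ t) {G : ℝ → St → ℝ≥0∞}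
    (hG : Measurable fun p : ℝ × St => G p.1 p.2) (w : St) :
    ex (Ioi t) * ∫⁻ τ, G τ (drain (drain w t) τ) ∂ex = ∫⁻ τ in Ioi t, G (τ - t) (drain w τ) ∂ex := by
  rw [ex_Ioi ht, ← mem ht (G := fun τ => G τ (drain (drain w t) τ))
    (hG.comp (f := fun τ => (τ, drain (drain w t) τ)) (by fun_prop))]
  refine setLIntegral_congr_fun measurableSet_Ioi fun τ (h : t < τ) => ?_
  rw [drain_drain _ _ (by linarith), add_sub_cancel]

lemma semi_le (hf : Measurable f) {s t : ℝ} (hs : 0 ≤ s) (ht : 0 ≤ t) (w : St) :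
    Pt κ (Pt κ f s) t w ≤ Pt κ f (t + s) w := by
  refine Pt_le κ (by fun_prop) (u := fun t w => Pt κ f (t + s) w) (fun t ht w => le_of_eq ?_) ht w
  have hm : Measurable fun p : ℝ × St => (Iic s).indicator
      (fun τ => K κ (Pt κ f (s - τ)) p.2) p.1 :=
    (K_meas κ (u := fun p : ℝ × St => Pt κ f (s - p.1)) (by fun_prop) measurable_snd).indicator
      (measurable_fst measurableSet_Iic)
  have h1 := mem' ht (G := fun τ x => (Iic s).indicator (fun τ => K κ (Pt κ f (s - τ)) x) τ) hm w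
  rw [show (∫⁻ τ, (Iic s).indicator (fun τ' => K κ (Pt κ f (s - τ')) (drain (drain w t) τ)) τ ∂ex) = _
    from lintegral_indicator measurableSet_Iic fun τ => K κ (Pt κ f (s - τ)) (drain (drain w t) τ)]
    at h1
  rw [Pt_step κ hf (t + s), step, step, Pt_step κ hf s, step, mul_add, h1, ← mul_assoc,
    ex_Ioi ht, ex_Ioi hs, ex_Ioi (add_nonneg ht hs), ← E_add, drain_drain _ _ hs, add_assoc,
    ← Iic_union_Ioc_eq_Iic (le_add_of_nonneg_right hs : t ≤ t + s),
    lintegral_union measurableSet_Ioc (Iic_disjoint_Ioc le_rfl), add_comm (∫⁻ _ in Iic t, _ ∂_)]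
  congr 2
  · congr 1; ring
  · rw [← Ioi_inter_Iic, inter_comm, ← Measure.restrict_restrict measurableSet_Iic,
      ← lintegral_indicator measurableSet_Iic]
    refine lintegral_congr fun τ => ?_
    simp only [indicator, mem_Iic, sub_le_iff_le_add', show s - (τ - t) = t + s - τ by ring]
  · refine lintegral_congr fun τ => ?_
    rw [show t - τ + s = t + s - τ by ring]

noncomputable def mu (t : ℝ) (w : St) : Measure St := (PP κ).map (W w t)

instance (t : ℝ) (w : St) : IsProbabilityMeasure (mu κ t w) :=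
  isProbabilityMeasure_map (Measurable.aemeasurable (by fun_prop))

lemma Pt_eq (hf : Measurable f) (t : ℝ) (w : St) : Pt κ f t w = ∫⁻ x, f x ∂mu κ t w :=
  (lintegral_map hf (by fun_prop)).symm

lemma mu_eq {A : Set St} (hA : MeasurableSet A) (t : ℝ) (w : St) :
    mu κ t w A = Pt κ (A.indicator 1) t w := by
  rw [Pt_eq κ (measurable_one.indicator hA), lintegral_indicator_one hA]

theorem semi (hf : Measurable f) {s t : ℝ} (hs : 0 ≤ s) (ht : 0 ≤ t) (w : St) :
    Pt κ f (t + s) w = Pt κ (Pt κ f s) t w := by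
  have hm : Measurable (mu κ s) := measurable_of_measurable_coe _ fun A hA => by
    simp_rw [mu_eq κ hA]
    exact Pt_meas κ (measurable_one.indicator hA) measurable_id measurable_const
  have h1 : ∀ A, MeasurableSet A → (mu κ t w).bind (mu κ s) A ≤ mu κ (t + s) w A := fun A hA => by
    rw [bind_apply hA hm.aemeasurable]
    simp_rw [mu_eq κ hA]
    rw [← Pt_eq κ (f := Pt κ (A.indicator 1) s)
      (Pt_meas κ (measurable_one.indicator hA) measurable_id measurable_const)]
    exact semi_le κ (measurable_one.indicator hA) hs ht w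
  have : IsProbabilityMeasure ((mu κ t w).bind (mu κ s)) :=
    ⟨by rw [bind_apply .univ hm.aemeasurable]; simp⟩
  have h2 : (mu κ t w).bind (mu κ s) = mu κ (t + s) w := Measure.ext fun A hA => by
    refine le_antisymm (h1 A hA) ?_
    have := h1 _ hA.compl
    rwa [prob_compl_eq_one_sub hA, prob_compl_eq_one_sub hA,
      ENNReal.sub_le_sub_iff_left prob_le_one ENNReal.one_ne_top] at this
  rw [Pt_eq κ hf, ← h2, lintegral_bind hm.aemeasurable hf.aemeasurable,
    Pt_eq κ (f := Pt κ f s) (Pt_meas κ hf measurable_id measurable_const)]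
  simp_rw [Pt_eq κ hf]

lemma minor (hf : Measurable f) {t : ℝ} (ht : 0 ≤ t) {w : St} (hw : ∀ i, w i ≤ t) :
    E (-(99 / 100 * t)) * f 0 ≤ Pt κ f t w := by
  rw [Pt_step κ hf, step, ex_Ioi ht, show drain w t = 0 from funext fun i => by simp [drain, hw i]]
  exact le_self_add

noncomputable def sm (a : ℝ) (g : St → ℝ≥0∞) (w : St) : ℝ≥0∞ :=
  ∫⁻ τ, E (a * τ) * K κ g (drain w τ) ∂ex

lemma sm_meas (a : ℝ) (hg : Measurable g) : Measurable (sm κ a g) :=
  Measurable.lintegral_prod_right' (f := fun p : St × ℝ => E (a * p.2) * K κ g (drain p.1 p.2))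
    ((by fun_prop : Measurable fun p : St × ℝ => E (a * p.2)).mul
      (K_meas κ (u := fun _ => g) (by fun_prop) (by fun_prop)))

theorem sm_drift {a b : ℝ} (ha : 0 ≤ a) (hb : 0 < b) (hg : Measurable g) {C C' : ℝ≥0∞}
    (h : ∀ w, sm κ a g w ≤ g w + C)
    (hC : C + C' * ENNReal.ofReal (99 / 100 / (99 / 100 + b)) ≤ C') {t : ℝ} (ht : 0 ≤ t) (w : St) :
    Pt κ (sm κ a g) t w ≤ E (-(a * t)) * sm κ a g w + C' * E (b * t) := by
  refine Pt_le κ (sm_meas κ a hg) (u := fun t w => E (-(a * t)) * sm κ a g w + C' * E (b * t))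
    (fun t ht w => ?_) ht w
  have hK : Measurable fun τ => K κ g (drain w τ) :=
    K_meas κ (u := fun _ => g) (by fun_prop) (by fun_prop)
  have h1 := mem' ht (G := fun τ w => E (a * τ) * K κ g w)
    ((by fun_prop : Measurable fun p : ℝ × St => E (a * p.1)).mul
      (K_meas κ (u := fun _ => g) (by fun_prop) measurable_snd)) w
  have h2 : ∀ τ ∈ Iic t, K κ (fun w => E (-(a * (t - τ))) * sm κ a g w + C' * E (b * (t - τ)))
      (drain w τ) ≤ E (a * (τ - t)) * K κ g (drain w τ) + (C + C' * E (b * t) * E (-(b * τ))) := by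
    intro τ (hτ : τ ≤ t)
    refine (lintegral_mono fun m => add_le_add (mul_le_mul' le_rfl (h _)) le_rfl).trans ?_
    simp only [mul_add, add_assoc]
    rw [lintegral_add_right _ measurable_const, lintegral_const_mul _ (by fun_prop),
      lintegral_const, measure_univ, mul_one, mul_assoc, ← E_add,
      show -(a * (t - τ)) = a * (τ - t) by ring, show b * (t - τ) = b * t + -(b * τ) by ring]
    gcongr
    · exact le_rfl
    · exact mul_le_of_le_one_left' (E_zero ▸ E_mono (mul_nonpos_of_nonneg_of_nonpos ha (by linarith)))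
  rw [step, sm, h1]
  refine (add_le_add le_rfl (setLIntegral_mono' measurableSet_Iic h2)).trans ?_
  rw [lintegral_add_left (by fun_prop), ← add_assoc, ← compl_Ioi,
    lintegral_add_compl _ measurableSet_Ioi, sm, ← lintegral_const_mul _ (by fun_prop)]
  refine add_le_add (le_of_eq (lintegral_congr fun τ => ?_)) ((setLIntegral_le_lintegral _ _).trans ?_)
  · rw [← mul_assoc, ← E_add]; congr 2; ring
  · rw [lintegral_add_left measurable_const, lintegral_const, measure_univ, mul_one,
      lintegral_const_mul _ (by fun_prop), lap (by linarith), mul_right_comm]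
    refine le_trans (add_le_add (le_mul_of_one_le_right' (E_zero ▸ E_mono (mul_nonneg hb.le ht)))
      le_rfl) ?_
    rw [← add_mul]
    exact mul_le_mul' hC le_rfl

end Pool.Agent.H44.JS
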