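import Pool.Agent.H44.JS1

/-! Convergence of the law of the workload from a drift condition and the atom at `0`. -/

open Set MeasureTheory ProbabilityTheory Filter Topology Measure
open scoped ENNReal NNReal BoundedContinuousFunction

namespace Pool.Agent.H44.JS

lemma limit {X : Type} [MeasurableSpace X] (μ : ℝ → Measure X) [∀ t, IsProbabilityMeasure (μ t)]
    (h : ∀ δ : ℝ≥0∞, 0 < δ → ∃ t0, ∀ s ≥ t0, ∀ t ≥ t0, ∀ A, MeasurableSet A → μ s A ≤ μ t A + δ) :
    ∃ ν : Measure X, ∀ A, MeasurableSet A → Tendsto (fun t => μ t A) atTop (𝓝 (ν A)) := by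
  have h1 : ∀ A, MeasurableSet A → Tendsto (fun t => μ t A) atTop
      (𝓝 (limsup (fun t => μ t A) atTop)) := fun A hA => by
    refine tendsto_of_le_liminf_of_limsup_le (ENNReal.le_of_forall_pos_le_add fun δ hδ _ => ?_) le_rfl
    obtain ⟨t0, h0⟩ := h δ (by simpa using hδ)
    rw [← tsub_le_iff_right]
    refine le_liminf_of_le (by isBoundedDefault) ?_
    filter_upwards [eventually_ge_atTop t0] with t ht
    rw [tsub_le_iff_right]
    refine limsup_le_of_le (by isBoundedDefault) ?_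
    filter_upwards [eventually_ge_atTop t0] with s hs using h0 s hs t ht A hA
  refine ⟨ofMeasurable (fun A _ => limsup (fun t => μ t A) atTop) (by simp) fun A hA hd => ?_,
    fun A hA => by rw [ofMeasurable_apply _ hA]; exact h1 A hA⟩
  have h2 := fun s : Finset ℕ => tendsto_finsetSum s fun i _ => h1 _ (hA i)
  refine le_antisymm (ENNReal.le_of_forall_pos_le_add fun δ hδ _ => ?_) ?_
  · obtain ⟨t0, h0⟩ := h δ (by simpa using hδ)
    have hd' : ∀ n, Pairwise (Function.onFun Disjoint fun i => A (i + n)) := fun n i j hij =>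
      hd (by simpa using hij)
    have h3 : ∀ n, limsup (fun t => μ t (⋃ i, A i)) atTop ≤
        ∑' i, limsup (fun t => μ t (A i)) atTop + δ + ∑' i, μ t0 (A (i + n)) := fun n => by
      refine le_trans (le_of_tendsto_of_tendsto (h1 _ (.iUnion hA)) ((h2 (Finset.range n)).add
        (tendsto_const_nhds (x := δ + ∑' i, μ t0 (A (i + n))))) ?_) ?_
      · filter_upwards [eventually_ge_atTop t0] with s hs
        rw [measure_iUnion hd hA, ← (ENNReal.summable.sum_add_tsum_nat_add' (k := n)),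
          ← measure_iUnion (hd' n) fun i => hA _, ← measure_iUnion (hd' n) fun i => hA _, add_comm (δ : ℝ≥0∞)]
        exact add_le_add le_rfl (h0 s hs t0 le_rfl _ (.iUnion fun i => hA _))
      · rw [add_assoc]
        exact add_le_add (ENNReal.sum_le_tsum _) le_rfl
    have h4 := ENNReal.tendsto_sum_nat_add (fun i => μ t0 (A i))
      (by rw [← measure_iUnion hd hA]; exact measure_ne_top _ _)
    simpa using ge_of_tendsto' (tendsto_const_nhds.add h4) h3
  · refine ENNReal.tsum_eq_iSup_sum.trans_le (iSup_le fun s => ?_)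
    refine le_of_tendsto_of_tendsto' (h2 s) (h1 _ (.iUnion hA)) fun t => ?_
    rw [measure_iUnion hd hA]
    exact ENNReal.sum_le_tsum _

variable (κ : Measure Mk) [IsProbabilityMeasure κ] {f g : St → ℝ≥0∞}

lemma Pt_mono (h : ∀ x, f x ≤ g x) (t : ℝ) (w : St) : Pt κ f t w ≤ Pt κ g t w :=
  lintegral_mono fun _ => h _

lemma Pt_add (hf : Measurable f) (g : St → ℝ≥0∞) (t : ℝ) (w : St) :
    Pt κ (fun x => f x + g x) t w = Pt κ f t w + Pt κ g t w :=
  lintegral_add_left (by fun_prop) _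

lemma Pt_mul (hf : Measurable f) (c : ℝ≥0∞) (t : ℝ) (w : St) :
    Pt κ (fun x => c * f x) t w = c * Pt κ f t w := lintegral_const_mul _ (by fun_prop)

@[simp] lemma Pt_const (c : ℝ≥0∞) (t : ℝ) (w : St) : Pt κ (fun _ => c) t w = c := by simp [Pt]

lemma Pt_aff (hf : Measurable f) (m c b : ℝ≥0∞) (t : ℝ) (w : St) :
    Pt κ (fun x => m + c * (1 + b * f x)) t w = m + c * (1 + b * Pt κ f t w) := by
  rw [Pt_add κ measurable_const, Pt_mul κ (by fun_prop), Pt_add κ measurable_const, Pt_mul κ hf]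
  simp

def D (U : St → ℝ≥0∞) (b : ℝ≥0∞) (f : St → ℝ≥0∞) (c : ℝ≥0∞) : Prop :=
  ∀ x y, f x ≤ f y + c * (2 + b * U x + b * U y)

lemma contr0 {U : St → ℝ≥0∞} (hU : Measurable U) (hf : Measurable f) (hf1 : ∀ x, f x ≤ 1)
    {b c e : ℝ≥0∞} (hc : c ≠ ∞) (hb : b * U 0 ≠ ∞) (h : D U b f c) {t : ℝ} {x y : St}
    (hx : ∀ g, Measurable g → e * g 0 ≤ Pt κ g t x) (hy : ∀ g, Measurable g → e * g 0 ≤ Pt κ g t y) :
    Pt κ f t x + e * (2 * c) ≤ Pt κ f t y + c * (2 + b * Pt κ U t x + b * Pt κ U t y) := by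
  obtain ⟨m, hm⟩ : ∃ m, m = ⨅ y, (f y + c * (1 + b * U y)) := ⟨_, rfl⟩
  have h1 : ∀ x, f x ≤ m + c * (1 + b * U x) := fun x => by
    rw [hm, ENNReal.iInf_add]
    exact le_iInf fun y => (h x y).trans_eq (by ring)
  have h2 : ∀ y, m ≤ f y + c * (1 + b * U y) := fun y => hm ▸ iInf_le _ y
  have hf0 : f 0 ≠ ∞ := ne_top_of_le_ne_top ENNReal.one_ne_top (hf1 0)
  have hm0 : m ≠ ∞ := ne_top_of_le_ne_top (by finiteness) (h2 0)
  have e1 := Pt_add κ hf (fun x => m + c * (1 + b * U x) - f x) t x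
  have e2 := Pt_add κ (f := fun _ => m) measurable_const (fun x => f x + c * (1 + b * U x) - m) t y
  simp only [add_tsub_cancel_of_le (h1 _), add_tsub_cancel_of_le (h2 _)] at e1 e2
  rw [Pt_aff κ hU] at e1
  rw [Pt_add κ hf, Pt_const, show (fun x => c * (1 + b * U x)) = fun x => 0 + c * (1 + b * U x) by
    simp, Pt_aff κ hU, zero_add] at e2
  have e3 := hx (fun x => m + c * (1 + b * U x) - f x) (by fun_prop)
  have e4 := hy (fun x => f x + c * (1 + b * U x) - m) (by fun_prop)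
  have e5 : 2 * c ≤ (m + c * (1 + b * U 0) - f 0) + (f 0 + c * (1 + b * U 0) - m) := by
    rw [← ENNReal.add_le_add_iff_left (a := f 0 + m) (by finiteness), add_add_add_comm,
      add_tsub_cancel_of_le (h1 _), add_tsub_cancel_of_le (h2 _)]
    exact le_self_add.trans_eq (show f 0 + m + 2 * c + 2 * c * (b * U 0) = _ by ring)
  refine (add_le_add le_rfl ((mul_le_mul' le_rfl e5).trans ((mul_add _ _ _).trans_le
    (add_le_add e3 e4)))).trans_eq ?_
  rw [← add_assoc, ← e1, add_right_comm, ← e2]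
  ring

lemma contr {U : St → ℝ≥0∞} (hU : Measurable U) (hU' : ∀ x, U x ≠ ∞) {K e b : ℝ≥0}
    (he : e ≤ 1) (hb : 2 * b * K = e) {t : ℝ} (h1 : ∀ x, Pt κ U t x ≤ (1 / 2 : ℝ≥0) * U x + K)
    (h2 : ∀ x, U x < 8 * K → ∀ g, Measurable g → e * g 0 ≤ Pt κ g t x)
    (hf : Measurable f) (hf1 : ∀ x, f x ≤ 1) {c : ℝ≥0} (h : D U b f c) :
    D U b (Pt κ f t) ((1 - e / 8) * c : ℝ≥0) := by
  intro x y
  have hb0 : b * U 0 ≠ ∞ := ENNReal.mul_ne_top ENNReal.coe_ne_top (hU' 0)
  have key : ∀ e' : ℝ≥0, (∀ g, Measurable g → e' * g 0 ≤ Pt κ g t x) →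
      (∀ g, Measurable g → e' * g 0 ≤ Pt κ g t y) → (e' = e ∨ 8 * K ≤ U x + U y) →
      Pt κ f t x ≤ Pt κ f t y + ((1 - e / 8) * c : ℝ≥0) * (2 + b * U x + b * U y) := by
    intro e' hx hy h3
    rw [← ENNReal.add_le_add_iff_right (a := e' * (2 * c)) (by finiteness), add_assoc]
    refine (contr0 κ hU hf hf1 ENNReal.coe_ne_top hb0 h hx hy).trans (add_le_add le_rfl ?_)
    refine (mul_le_mul' le_rfl (add_le_add (add_le_add le_rfl (mul_le_mul' le_rfl (h1 x)))
      (mul_le_mul' le_rfl (h1 y)))).trans ?_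
    lift U x to ℝ≥0 using hU' x with u
    lift U y to ℝ≥0 using hU' y with v
    have h8 : e / 8 ≤ 1 := (div_le_self (zero_le) (by norm_num)).trans he
    norm_cast at h3 ⊢
    rw [← NNReal.coe_le_coe] at he ⊢
    rw [← NNReal.coe_inj] at hb
    push_cast [NNReal.coe_sub h8] at hb ⊢
    have h4 : (2 + b * (1 / 2 * u + K) + b * (1 / 2 * v + K) : ℝ) ≤
        (1 - e / 8) * (2 + b * u + b * v) + e' * 2 := by
      have h5 : (0 : ℝ) ≤ b * (u + v) := by positivity
      have h6 : (0 : ℝ) ≤ (1 - e) * (b * (u + v)) := mul_nonneg (by simpa using he) h5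
      rcases h3 with rfl | h3
      · nlinarith [e'.2]
      · rw [← NNReal.coe_le_coe] at h3
        push_cast at h3
        nlinarith [e'.2, mul_le_mul_of_nonneg_left h3 b.2]
    nlinarith [mul_le_mul_of_nonneg_left h4 c.2]
  rcases lt_or_ge (U x + U y) (8 * K) with h3 | h3
  · exact key e (h2 x (le_self_add.trans_lt h3)) (h2 y (le_add_self.trans_lt h3)) (Or.inl rfl)
  · exact key 0 (by simp) (by simp) (Or.inr h3)

theorem harris {U : St → ℝ≥0∞} (hU : Measurable U) (hU' : ∀ x, U x ≠ ∞) {K : ℝ≥0} (hK : 0 < K)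
    {t : ℝ} (ht : 0 < t) (h1 : ∀ x, Pt κ U t x ≤ (1 / 2 : ℝ≥0) * U x + K)
    (h0 : ∀ r ∈ Icc 0 t, Pt κ U r 0 ≤ U 0 + K) (h2 : ∀ x, U x < 8 * K → ∀ i, x i ≤ t) :
    ∃ ν : Measure St, ∀ A, MeasurableSet A → Tendsto (fun t => mu κ t 0 A) atTop (𝓝 (ν A)) := by
  obtain ⟨e, he⟩ : ∃ e : ℝ≥0, e = (Real.exp (-(99 / 100 * t))).toNNReal := ⟨_, rfl⟩
  have he0 : 0 < e := he ▸ Real.toNNReal_pos.2 (Real.exp_pos _)
  have he1 : e ≤ 1 := he ▸ Real.toNNReal_le_one.2 (Real.exp_le_one_iff.2 (by linarith))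
  obtain ⟨b, hb⟩ : ∃ b : ℝ≥0, 2 * b * K = e := ⟨e / (2 * K), by field_simp⟩
  have hB : ∀ j : ℕ, ∀ r ∈ Icc 0 ((j + 1) * t), Pt κ U r 0 ≤ U 0 + 2 * K := by
    intro j
    induction j with
    | zero =>
      exact fun r hr => (h0 r (by simpa using hr)).trans
        (add_le_add le_rfl (le_mul_of_one_le_left' one_le_two))
    | succ j ih =>
      intro r hr
      rcases le_total r t with h | h
      · exact ih r ⟨hr.1, h.trans (le_mul_of_one_le_left ht.le (by simp))⟩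
      · rw [← sub_add_cancel r t, semi κ hU ht.le (sub_nonneg.2 h)]
        refine (Pt_mono κ h1 _ _).trans ?_
        rw [Pt_add κ (by fun_prop), Pt_mul κ hU, Pt_const]
        refine (add_le_add (mul_le_mul' le_rfl (ih _ ⟨sub_nonneg.2 h, by
          have := hr.2; push_cast at this; linarith⟩)) le_rfl).trans ?_
        lift U 0 to ℝ≥0 using hU' 0 with u
        norm_cast
        rw [← NNReal.coe_le_coe]
        push_cast
        linarith [u.2]
  have hB' : ∀ r, 0 ≤ r → Pt κ U r 0 ≤ U 0 + 2 * K := fun r hr => hB ⌈r / t⌉₊ r ⟨hr, by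
    rw [← div_le_iff₀ ht]; linarith [Nat.le_ceil (r / t)]⟩
  have hD : ∀ A, MeasurableSet A → ∀ n : ℕ, D U b (Pt κ (A.indicator 1) (n * t))
      ((1 - e / 8) ^ (n - 1) : ℝ≥0) := by
    intro A hA n
    have hA1 : ∀ s x, Pt κ (A.indicator 1) s x ≤ 1 := fun s x => mu_eq κ hA s x ▸ prob_le_one
    have h00 : ∀ s, D U b (Pt κ (A.indicator 1) s) (1 : ℝ≥0) := fun s x y =>
      (hA1 _ _).trans (le_add_left (by
        rw [ENNReal.coe_one, one_mul, add_assoc]; exact one_le_two.trans le_self_add))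
    induction n with
    | zero => exact h00 _
    | succ n ih =>
      rcases n with _ | n
      · exact h00 _
      · have := contr κ hU hU' he1 hb h1 (fun x hx g hg => by
          rw [he]; exact minor κ hg ht.le (h2 x hx)) (f := Pt κ (A.indicator 1) ((n + 1 : ℕ) * t))
          (Pt_meas κ (measurable_one.indicator hA) measurable_id measurable_const) (hA1 _) ih
        intro x y
        have h3 := this x y
        rw [← semi κ (measurable_one.indicator hA) (by positivity) ht.le,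
          ← semi κ (measurable_one.indicator hA) (by positivity) ht.le] at h3
        rw [show ((n + 1 + 1 : ℕ) : ℝ) * t = t + (n + 1 : ℕ) * t by push_cast; ring,
          Nat.add_sub_cancel, pow_succ']
        exact h3
  refine limit _ fun δ hδ => ?_
  obtain ⟨B, hB⟩ : ∃ B, B = 2 + b * (U 0 + 2 * K) + b * (U 0 + 2 * K) := ⟨_, rfl⟩
  have hBt : B ≠ ∞ := by have := hU' 0; rw [hB]; finiteness
  have hl : ((1 - e / 8 : ℝ≥0) : ℝ≥0∞) < 1 := by
    exact_mod_cast tsub_lt_self one_pos (by positivity)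
  have := ENNReal.Tendsto.mul_const (ENNReal.tendsto_pow_atTop_nhds_zero_of_lt_one hl) (Or.inr hBt)
  rw [zero_mul] at this
  obtain ⟨n, hn⟩ := (this.eventually (ge_mem_nhds hδ)).exists
  refine ⟨(n + 1 : ℕ) * t, fun s hs r hr A hA => ?_⟩
  have hA' := measurable_one.indicator (β := ℝ≥0∞) hA
  have hm := Pt_meas κ hA' measurable_id (measurable_const (a := ((n + 1 : ℕ) : ℝ) * t))
  rw [mu_eq κ hA, mu_eq κ hA, ← sub_add_cancel s ((n + 1 : ℕ) * t), ← sub_add_cancel r
    ((n + 1 : ℕ) * t), semi κ hA' (by positivity) (sub_nonneg.2 hs),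
    semi κ hA' (by positivity) (sub_nonneg.2 hr)]
  have h4 := hD A hA (n + 1)
  rw [Nat.add_sub_cancel, ENNReal.coe_pow] at h4
  generalize ((1 - e / 8 : ℝ≥0) : ℝ≥0∞) ^ n = c at h4 hn
  have h5 := hB' _ (sub_nonneg.2 hs)
  have h6 := hB' _ (sub_nonneg.2 hr)
  generalize s - (n + 1 : ℕ) * t = s at h5 ⊢
  generalize r - (n + 1 : ℕ) * t = r at h6 ⊢
  change Measurable (Pt κ (A.indicator 1) ((n + 1 : ℕ) * t)) at hm
  generalize Pt κ (A.indicator 1) ((n + 1 : ℕ) * t) = F at hm h4 ⊢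
  have h7 : ∀ y, Pt κ F s 0 ≤ F y + (c * (2 + b * (U 0 + 2 * K)) + c * b * U y) := fun y => by
    refine (Pt_mono κ (g := fun x => F y + c * (2 + b * U y) + c * b * U x)
      (fun x => (h4 x y).trans_eq (by ring)) _ _).trans ?_
    rw [Pt_add κ measurable_const, Pt_const, Pt_mul κ hU]
    exact (add_le_add le_rfl (mul_le_mul' le_rfl h5)).trans_eq (by ring)
  refine (Pt_const κ _ r 0).symm.trans_le ((Pt_mono κ h7 _ _).trans ?_)
  rw [Pt_add κ hm, Pt_add κ measurable_const, Pt_const, Pt_mul κ hU]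
  refine add_le_add le_rfl (le_trans ?_ hn)
  exact (add_le_add le_rfl (mul_le_mul' le_rfl h6)).trans_eq (by rw [hB]; ring)

noncomputable def pm (t : ℝ) : ProbabilityMeasure St := ⟨mu κ t 0, inferInstance⟩

lemma pm_int (f : St →ᵇ ℝ) (t : ℝ) : ∫ x, f x ∂(pm κ t : Measure St) = ∫ ω, f (W 0 t ω) ∂PP κ :=
  integral_map (Measurable.aemeasurable (by fun_prop)) f.continuous.aestronglyMeasurable

def Stab : Prop := ∃ ν : Measure St, IsProbabilityMeasure ν ∧ ν {x | ∀ i, 0 ≤ x i} = 1 ∧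
  ∀ f : St →ᵇ ℝ, Tendsto (fun t : ℝ => ∫ ω, f (W 0 t ω) ∂PP κ) atTop (𝓝 (∫ x, f x ∂ν))

theorem stab_of {ν : Measure St}
    (h : ∀ A, MeasurableSet A → Tendsto (fun t => mu κ t 0 A) atTop (𝓝 (ν A))) : Stab κ := by
  have h1 : IsProbabilityMeasure ν := ⟨tendsto_nhds_unique (h _ .univ) (by simp)⟩
  have hA : MeasurableSet {x : St | ∀ i, 0 ≤ x i} := by measurability
  refine ⟨ν, h1, tendsto_nhds_unique (h _ hA) (tendsto_const_nhds.congr fun t => ?_), fun f => ?_⟩
  · rw [mu, map_apply (by fun_prop) hA, eq_univ_of_forall (s := W 0 t ⁻¹' {x : St | ∀ i, 0 ≤ x i})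
      fun ω i => le_max_right _ _, measure_univ]
  · simp_rw [← pm_int]
    exact ProbabilityMeasure.tendsto_iff_forall_integral_tendsto.1
      (tendsto_of_forall_isOpen_le_liminf' (μ := ⟨ν, h1⟩) (μs := pm κ) fun G hG =>
        (h G hG.measurableSet).liminf_eq.ge) f

theorem not_stab (hg : Measurable g) (h1 : ∀ x, g x ≤ 1) (h2 : ∀ t, 0 ≤ t → ∀ x, Pt κ g t x ≤ g x)
    (h3 : Pt κ g 1 0 < g 0) : ¬ Stab κ := by
  rintro ⟨ν, hν, -, h⟩
  have h4 : Tendsto (pm κ) atTop (𝓝 ⟨ν, hν⟩) :=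
    ProbabilityMeasure.tendsto_iff_forall_integral_tendsto.2 fun f => by
      simp_rw [pm_int]; exact h f
  obtain ⟨M, hM⟩ : ∃ M : ℕ, 0 < ν {x | ∀ i, x i < M} := by
    by_contra hc
    have : ν (⋃ M : ℕ, {x | ∀ i, x i < M}) = 0 :=
      measure_iUnion_null fun M => by simpa using not_exists.1 hc M
    rw [eq_univ_of_forall (s := ⋃ M : ℕ, _) fun x => ?_, measure_univ] at this
    · exact one_ne_zero this
    · obtain ⟨M, hM⟩ := exists_nat_gt ‖x‖
      exact mem_iUnion.2 ⟨M, fun i => ((le_abs_self _).trans (norm_le_pi_norm x i)).trans_lt hM⟩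
  obtain ⟨B, hB⟩ : ∃ B, B = {x : St | ∀ i, x i < M} := ⟨_, rfl⟩
  have hO : IsOpen B := by
    rw [hB, ofPred_forall]
    exact isOpen_iInter_of_finite fun i => isOpen_lt (continuous_apply i) continuous_const
  obtain ⟨c, hc, hc'⟩ := exists_between (hB ▸ hM)
  obtain ⟨t0, h5⟩ := eventually_atTop.1 ((eventually_lt_of_lt_liminf (hc'.trans_le
    (ProbabilityMeasure.le_liminf_measure_open_of_tendsto h4 hO))).and (eventually_ge_atTop 0))
  obtain ⟨d, hd⟩ : ∃ d, d = E (-(99 / 100 * M)) * (g 0 - Pt κ g 1 0) := ⟨_, rfl⟩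
  have hP : ∀ t, Measurable (Pt κ g t) := fun t => Pt_meas κ hg measurable_id measurable_const
  have h6 : ∀ x, Pt κ g (M + 1) x + d * B.indicator 1 x ≤ g x := fun x => by
    by_cases hx : x ∈ B
    · have e1 := Pt_add κ (hP 1) (fun x => g x - Pt κ g 1 x) M x
      simp only [add_tsub_cancel_of_le (h2 1 zero_le_one _)] at e1
      rw [indicator_of_mem hx, Pi.one_apply, mul_one, semi κ hg zero_le_one M.cast_nonneg, hd]
      refine le_trans (add_le_add le_rfl (minor κ (f := fun x => g x - Pt κ g 1 x) (hg.sub (hP 1))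
        M.cast_nonneg fun i => ((hB ▸ hx :) i).le)) (e1.ge.trans (h2 _ M.cast_nonneg x))
    · simpa [hx] using h2 _ (by positivity) x
  have h7 : ∀ n : ℕ, ∀ t ≥ t0, n * (d * c) ≤ Pt κ g t 0 := by
    intro n
    induction n with
    | zero => simp
    | succ n ih =>
      intro t ht
      refine le_trans ?_ (Pt_mono κ h6 t 0)
      rw [Pt_add κ (hP _), Pt_mul κ (measurable_one.indicator hO.measurableSet),
        ← semi κ hg (by positivity) (h5 t ht).2, ← mu_eq κ hO.measurableSet, Nat.cast_succ, add_mul,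
        one_mul]
      exact add_le_add (ih _ (by have := M.cast_nonneg (α := ℝ); linarith))
        (mul_le_mul' le_rfl (h5 t ht).1.le)
  obtain ⟨n, hn⟩ := ENNReal.exists_nat_mul_gt (a := d * c) (b := 1)
    (mul_ne_zero (hd ▸ mul_ne_zero (E_ne_zero _) (tsub_pos_of_lt h3).ne') hc.ne') ENNReal.one_ne_top
  exact (hn.trans_le (h7 n t0 le_rfl)).not_ge ((h2 _ (h5 t0 le_rfl).2 0).trans (h1 0))

lemma pos_step (hf : Measurable f) {t a b : ℝ} (ha : 0 ≤ a) (hab : a < b) (hb : b ≤ t) {w : St}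
    (h : ∀ τ ∈ Ioc a b, K κ (Pt κ f (t - τ)) (drain w τ) ≠ 0) : Pt κ f t w ≠ 0 := by
  rw [Pt_step κ hf, step]
  intro h0
  have h1 := (setLIntegral_eq_zero_iff measurableSet_Iic (K_meas κ (u := fun τ => Pt κ f (t - τ))
    (by fun_prop) (w := fun τ => drain w τ) (by fun_prop))).1 (add_eq_zero.1 h0).2
  have h2 : ex (Ioc a b) = 0 := by
    refine measure_mono_null ?_ (ae_iff.1 h1)
    exact fun τ hτ h' => h τ hτ (h' (hτ.2.trans hb))
  have h3 := measure_union_le (μ := ex) (Ioc a b) (Ioi b)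
  rw [Ioc_union_Ioi_eq_Ioi hab.le, h2, zero_add, ex_Ioi ha, ex_Ioi (ha.trans hab.le), E, E,
    ENNReal.ofReal_le_ofReal_iff (Real.exp_pos _).le, Real.exp_le_exp] at h3
  linarith

lemma pos_base (hf : Measurable f) {t : ℝ} (ht : 0 ≤ t) {w : St} (h : f (drain w t) ≠ 0) :
    Pt κ f t w ≠ 0 := by
  rw [Pt_step κ hf, step, ex_Ioi ht]
  exact fun h0 => mul_ne_zero (E_ne_zero _) h (add_eq_zero.1 h0).1

end Pool.Agent.H44.JS
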