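import Mathlib

/-! Two finite tables of correctors for the chain of workload differences. -/

namespace Pool.Agent.H44.JS

def hh (S tb : ℕ) (x y : ℤ) : ℤ :=
  if -S ≤ x ∧ x ≤ S ∧ -S ≤ y ∧ y ≤ S then
    (tb / 10000 ^ ((x + S).toNat * (2 * S + 1) + (y + S).toNat) % 10000 : ℕ) - 5000 else 0

lemma hh_bd (S tb : ℕ) (x y : ℤ) : -5000 ≤ hh S tb x y ∧ hh S tb x y ≤ 5000 := by
  unfold hh
  split_ifs
  · omega
  · omega

lemma hh_zero {S : ℕ} (tb : ℕ) {x y : ℤ} (h : x < -S ∨ S < x ∨ y < -S ∨ S < y) :
    hh S tb x y = 0 := if_neg (by omega)

def tA : ℕ := 496240673310296922382076152010141000100010001000100010001000100010001000100010001000100010001964499143593013328822382250198213021158100010001000100010001000100010001000100010001000100016391918523439543362321424432779228717621722109110001000100010001000100010001000100010001000100019652477475043483282341830102998260922651875100010001000100010001000100010001000100010001000100025722820522743893798418036123590336226451840100010001000100010001000100010001000100010001000115527813320506246554362451739724138341025581662100010001000100010001000100010001000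1000100014091955359041185729557552595233498244163476249315261000100010001000100010001000100010001000100019492624409345216396616058046041509945703527262519031000100010001000100010001000100010001000172628443610476354947154674567436033511843753297259616321000100010001000100010001000100010461764268937804334579963658015795871536582550848234034320725801859130110001000100010001000101917522592356742995226634667978777759471546251524647963738318724481768125416021226105711761553210832504015488959506645787086839602881279497135636356585028452040573654336430471000100010001471234232923805505356806618789776958752751669266251524348754101361931372679237710001000100010312070277534494361513060447039726972447537657360075036436837593101260721821733100010001000100014662228264237914161536662246361667361176820593752134644384233622735227218361000100010001000117218942197316135364403545553705599521251685736466542663453282422991757129710001000100010001000145316992697290340034748491549154474464544474877415735412981235619031354100010001000100010001196122122622317330141173882412534023604352634144032313227262098152411101000100010001000100010341451240325043494424735583510278427742583261626012951226817141156100010001000100010001000100010612082197030193783282928821824205516131720179717632267152010811000100010001000100010001109130221202392336442602498252611781211100010001000100010001381100010001000100010001000100010001127195921403171400920612016100010001000100010001000100010001158100010001000100010001000100010631846209430903985163016531000100010001000100010001000100010001000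

def tB : ℕ := 491860746885700070007000700070007000570643475344572255936690700070007000644748963933420441395240627970007000700054803831263524463806490259856453700062944679303512432597386449795772700070005901439220512908417855826629700070007000563134003793464460967000700070007000623243194831537662217000700070007000684652805793642970007000

def GA (x y : ℤ) : ℤ :=
  900 * (x + y) + 1000 * max (max x y) 0 - 700 * min (min x y) 0 + hh 11 tA x y

def GB (x y : ℤ) : ℤ :=
  2400 * (x + y) - 2200 * max (max x y) 0 + 1000 * min (min x y) 0 + hh 4 tB x y

def okA (x y : ℤ) : Prop := ∀ p q : Bool, (if p then x ≤ y else y ≤ x) →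
  (if q then 0 ≤ x else x ≤ 0) →
  (if p then 2 * GA (x + 2) y else GA x (y + 3) + GA x (y + 5)) +
  (if y ≤ 0 then 2 * GA x (y + 2) else GA (x - 3) (y - 3) + GA (x - 5) (y - 5) + 24000) +
  (if q then 2 * GA (x - 2) (y - 2) + 12000 else GA (x + 3) y + GA (x + 5) y) ≤ 6 * GA x y + 18120

def okB (x y : ℤ) : Prop :=
  3 * GB x y + 9120 ≤ (if x < y then GB (x + 1) y else GB x (y + 2)) +
    (if y ≤ 0 then GB x (y + 1) else GB (x - 2) (y - 2) + 12000) +
    (if 0 < x then GB (x - 1) (y - 1) + 6000 else GB (x + 2) y)

instance (x y : ℤ) : Decidable (okA x y) := by unfold okA; infer_instance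

instance (x y : ℤ) : Decidable (okB x y) := by unfold okB; infer_instance

lemma boxA : ∀ i < 33, ∀ j < 33, okA ((i : ℕ) - 16) ((j : ℕ) - 16) := by decide +kernel

lemma boxB : ∀ i < 13, ∀ j < 13, okB ((i : ℕ) - 6) ((j : ℕ) - 6) := by decide +kernel

section
variable {α : Type} [LinearOrder α] {a b c : α}

lemma n1 (h : a ≤ b) (k : a ≤ c) : min (min a b) c = a := by rw [min_eq_left h, min_eq_left k]

lemma n2 (h : b ≤ a) (k : b ≤ c) : min (min a b) c = b := by rw [min_eq_right h, min_eq_left k]

lemma n3 (h : c ≤ a) (k : c ≤ b) : min (min a b) c = c := min_eq_right (le_min h k)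

lemma m1 (h : b ≤ a) (k : c ≤ a) : max (max a b) c = a := by rw [max_eq_left h, max_eq_left k]

lemma m2 (h : a ≤ b) (k : c ≤ b) : max (max a b) c = b := by rw [max_eq_right h, max_eq_left k]

lemma m3 (h : a ≤ c) (k : b ≤ c) : max (max a b) c = c := max_eq_right (max_le h k)

end

lemma bd3 (x y s : ℤ) (hs : 0 ≤ s) : max (max (x + s) y) 0 ≤ max (max x y) 0 + s ∧
    max (max x (y + s)) 0 ≤ max (max x y) 0 + s ∧ max (max (x - s) (y - s)) 0 ≤ max (max x y) 0 ∧
    min (min x y) 0 ≤ min (min (x + s) y) 0 ∧ min (min x y) 0 ≤ min (min x (y + s)) 0 ∧
    min (min x y) 0 - s ≤ min (min (x - s) (y - s)) 0 := by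
  refine ⟨?_, ?_, ?_, ?_, ?_, ?_⟩ <;> omega

lemma bd4 (x y s : ℤ) (hs : 0 ≤ s) : (x + s ≤ y → max (max (x + s) y) 0 ≤ max (max x y) 0) ∧
    (y + s ≤ x → max (max x (y + s)) 0 ≤ max (max x y) 0) ∧
    (s ≤ x → max (max (x - s) (y - s)) 0 ≤ max (max x y) 0 - s) := by
  refine ⟨?_, ?_, ?_⟩ <;> omega

lemma iso {x y d : ℤ} (h : ¬ (-2 * d ≤ x ∧ x ≤ 2 * d ∧ -2 * d ≤ y ∧ y ≤ 2 * d)) :
    ((x + d ≤ y ∧ x + d ≤ 0) ∨ (y + d ≤ x ∧ y + d ≤ 0) ∨ (d ≤ x ∧ d ≤ y)) ∨
    ((y + d ≤ x ∧ d ≤ x) ∨ (x + d ≤ y ∧ d ≤ y) ∨ (x + d ≤ 0 ∧ y + d ≤ 0)) := by omega

theorem allB (x y : ℤ) : okB x y := by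
  by_cases h : -6 ≤ x ∧ x ≤ 6 ∧ -6 ≤ y ∧ y ≤ 6
  · have := boxB (x + 6).toNat (by omega) (y + 6).toNat (by omega)
    rwa [show ((x + 6).toNat : ℤ) - 6 = x by omega, show ((y + 6).toNat : ℤ) - 6 = y by omega] at this
  · unfold okB GB
    simp (disch := omega) only [hh_zero]
    have h0 := iso (x := x) (y := y) (d := 2) (by omega)
    clear h
    obtain ⟨_, _, _, _, _, _⟩ := bd3 x y 1 (by norm_num)
    obtain ⟨_, _, _, _, _, _⟩ := bd3 x y 2 (by norm_num)
    rcases h0 with h0 | h0 <;> rcases h0 with ⟨h1, h2⟩ | ⟨h1, h2⟩ | ⟨h1, h2⟩ <;> split_ifs
    all_goals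
      try have := (bd4 x y 1 (by norm_num)).1 (by linarith only [h1])
      try have := (bd4 x y 1 (by norm_num)).2.1 (by linarith only [h1])
      try have := (bd4 x y 1 (by norm_num)).2.2 (by linarith only [h1])
      try have := (bd4 x y 2 (by norm_num)).1 (by linarith only [h1])
      try have := (bd4 x y 2 (by norm_num)).2.1 (by linarith only [h1])
      try have := (bd4 x y 2 (by norm_num)).2.2 (by linarith only [h1])
      first | linarith |
        (simp (disch := with_unfolding_all linarith only [h1, h2]) only [n1, n2, n3]; linarith) |
        (simp (disch := with_unfolding_all linarith only [h1, h2]) only [m1, m2, m3]; linarith)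

theorem allA (x y : ℤ) : okA x y := by
  by_cases h : -16 ≤ x ∧ x ≤ 16 ∧ -16 ≤ y ∧ y ≤ 16
  · have := boxA (x + 16).toNat (by omega) (y + 16).toNat (by omega)
    rwa [show ((x + 16).toNat : ℤ) - 16 = x by omega, show ((y + 16).toNat : ℤ) - 16 = y by omega]
      at this
  · intro p q hp hq
    unfold GA
    simp (disch := omega) only [hh_zero]
    have h0 := iso (x := x) (y := y) (d := 5) (by omega)
    clear h
    obtain ⟨_, _, _, _, _, _⟩ := bd3 x y 2 (by norm_num)
    obtain ⟨_, _, _, _, _, _⟩ := bd3 x y 3 (by norm_num)
    obtain ⟨_, _, _, _, _, _⟩ := bd3 x y 5 (by norm_num)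
    rcases h0 with h0 | h0 <;> rcases h0 with ⟨h1, h2⟩ | ⟨h1, h2⟩ | ⟨h1, h2⟩ <;>
      split_ifs at hp hq ⊢
    all_goals
      try have := (bd4 x y 2 (by norm_num)).1 (by linarith only [h1])
      try have := (bd4 x y 2 (by norm_num)).2.1 (by linarith only [h1])
      try have := (bd4 x y 2 (by norm_num)).2.2 (by linarith only [h1])
      try have := (bd4 x y 3 (by norm_num)).1 (by linarith only [h1])
      try have := (bd4 x y 3 (by norm_num)).2.1 (by linarith only [h1])
      try have := (bd4 x y 3 (by norm_num)).2.2 (by linarith only [h1])
      try have := (bd4 x y 5 (by norm_num)).1 (by linarith only [h1])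
      try have := (bd4 x y 5 (by norm_num)).2.1 (by linarith only [h1])
      try have := (bd4 x y 5 (by norm_num)).2.2 (by linarith only [h1])
      first | linarith |
        (simp (disch := with_unfolding_all linarith only [h1, h2]) only [n1, n2, n3]; linarith) |
        (simp (disch := with_unfolding_all linarith only [h1, h2]) only [m1, m2, m3]; linarith)

end Pool.Agent.H44.JS
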