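import Pool.Agent.H44.JS2
import Pool.Agent.H44.JS4

/-! One arrival: mean increments and exponential moments. -/

open Set MeasureTheory ProbabilityTheory Filter Topology Measure
open scoped ENNReal NNReal

namespace Pool.Agent.H44.JS

noncomputable def Fr (r s : ℝ) : Measure ℝ := (2⁻¹ : ℝ≥0∞) • dirac r + (2⁻¹ : ℝ≥0∞) • dirac s

instance (r s : ℝ) : IsProbabilityMeasure (Fr r s) := ⟨by simp [Fr, ENNReal.inv_two_add_inv_two]⟩

noncomputable def kap (r s : ℝ) : Measure Mk := (uniformOn univ).prod ((dirac 2).prod (Fr r s))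

instance (r s : ℝ) : IsProbabilityMeasure (kap r s) := by unfold kap; infer_instance

variable {r s : ℝ} {w : St}

lemma K_eq {g : St → ℝ≥0∞} (hg : Measurable g) (w : St) :
    K (kap r s) g w = 6⁻¹ * ∑ c : Fin 3, (g (job w (c, 2, r)) + g (job w (c, 2, s))) := by
  rw [K, kap, lintegral_prod _ (Measurable.aemeasurable (by fun_prop)), lintegral_fintype,
    Finset.mul_sum]
  refine Finset.sum_congr rfl fun c _ => ?_
  rw [lintegral_prod _ (Measurable.aemeasurable (by fun_prop)), lintegral_dirac, Fr,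
    lintegral_add_measure, lintegral_smul_measure, lintegral_smul_measure, lintegral_dirac,
    lintegral_dirac, uniformOn_univ, count_singleton, smul_eq_mul, smul_eq_mul, ← mul_add,
    mul_right_comm, Fintype.card_fin, one_div, ← ENNReal.mul_inv (by simp) (by simp)]
  norm_num

lemma K_pos {g : St → ℝ≥0∞} (hg : Measurable g) (c : Fin 3) (h : g (job w (c, 2, r)) ≠ 0) :
    K (kap r s) g w ≠ 0 := by
  rw [K_eq hg]
  refine mul_ne_zero (by simp) fun h0 => h ?_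
  exact (add_eq_zero.1 (Finset.sum_eq_zero_iff.1 h0 c (Finset.mem_univ c))).1

noncomputable def J (r s : ℝ) (g : St → ℝ) (w : St) : ℝ :=
  (∑ c : Fin 3, (g (job w (c, 2, r)) + g (job w (c, 2, s)))) / 6

lemma K_ofReal {g : St → ℝ} (hg : Measurable g) (h0 : ∀ x, 0 ≤ g x) (w : St) :
    K (kap r s) (fun x => ENNReal.ofReal (g x)) w = ENNReal.ofReal (J r s g w) := by
  rw [K_eq hg.ennreal_ofReal, J, ENNReal.ofReal_div_of_pos (by norm_num),
    ENNReal.ofReal_sum_of_nonneg fun c _ => add_nonneg (h0 _) (h0 _), ENNReal.div_eq_inv_mul]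
  simp [ENNReal.ofReal_add, h0]

def up (w : St) (i : Fin 3) (s : ℝ) : St := Function.update w i (w i + s)

lemma J_eq (g : St → ℝ) : J r s g w =
    ((if w 0 ≤ w 1 then 2 * g (up w 0 2) else g (up w 1 r) + g (up w 1 s)) +
    (if w 1 ≤ w 2 then 2 * g (up w 1 2) else g (up w 2 r) + g (up w 2 s)) +
    (if w 2 ≤ w 0 then 2 * g (up w 2 2) else g (up w 0 r) + g (up w 0 s))) / 6 := by
  simp only [J, Fin.sum_univ_three, job, up, two_mul, show (0 : Fin 3) + 1 = 1 from rfl,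
    show (1 : Fin 3) + 1 = 2 from rfl, show (2 : Fin 3) + 1 = 0 from rfl]
  split_ifs <;> rfl

noncomputable def mx (w : St) : ℝ := max (max (w 0) (w 1)) (w 2)

noncomputable def mn (w : St) : ℝ := min (min (w 0) (w 1)) (w 2)

def su (w : St) : ℝ := w 0 + w 1 + w 2

@[fun_prop] lemma mx_meas : Measurable mx := by unfold mx; fun_prop

@[fun_prop] lemma mn_meas : Measurable mn := by unfold mn; fun_prop

@[fun_prop] lemma su_meas : Measurable su := by unfold su; fun_prop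

lemma ups (w : St) (s : ℝ) : (up w 0 s 0 = w 0 + s ∧ up w 0 s 1 = w 1 ∧ up w 0 s 2 = w 2) ∧
    (up w 1 s 0 = w 0 ∧ up w 1 s 1 = w 1 + s ∧ up w 1 s 2 = w 2) ∧
    (up w 2 s 0 = w 0 ∧ up w 2 s 1 = w 1 ∧ up w 2 s 2 = w 2 + s) := by simp [up]

lemma up_bd (w : St) (i : Fin 3) (hs : 0 ≤ s) : su (up w i s) = su w + s ∧ mx w ≤ mx (up w i s) ∧
    mx (up w i s) ≤ mx w + s ∧ mn w ≤ mn (up w i s) ∧ mn (up w i s) ≤ mn w + s := by
  have : i = 0 ∨ i = 1 ∨ i = 2 := by omega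
  rcases this with rfl | rfl | rfl <;> simp only [su, mx, mn, ups] <;>
    refine ⟨by ring, ?_, ?_, ?_, ?_⟩ <;> simp only [max_def, min_def] <;> split_ifs <;> linarith

lemma job_bd (w : St) (c : Fin 3) (hr : r ∈ Icc (0 : ℝ) 5) : ∃ s ∈ Icc (0 : ℝ) 5,
    su (job w (c, 2, r)) = su w + s ∧ mx w ≤ mx (job w (c, 2, r)) ∧
    mx (job w (c, 2, r)) ≤ mx w + s ∧ mn w ≤ mn (job w (c, 2, r)) ∧
    mn (job w (c, 2, r)) ≤ mn w + s := by
  unfold job
  split_ifs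
  · exact ⟨2, by norm_num, up_bd w c (by norm_num)⟩
  · exact ⟨r, hr, up_bd w (c + 1) hr.1⟩

lemma mid_bd (w : St) : mn w ≤ su w - mx w - mn w ∧ su w - mx w - mn w ≤ mx w := by
  simp only [su, mx, mn, max_def, min_def]
  split_ifs <;> constructor <;> linarith

lemma le_mx (w : St) (i : Fin 3) : mn w ≤ w i ∧ w i ≤ mx w := by
  have : i = 0 ∨ i = 1 ∨ i = 2 := by omega
  rcases this with rfl | rfl | rfl <;> simp [mx, mn]

lemma J_le {g g' : St → ℝ} (h : ∀ c, ∀ x ∈ ({r, s} : Set ℝ),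
    g (job w (c, 2, x)) ≤ g' (job w (c, 2, x))) : J r s g w ≤ J r s g' w :=
  div_le_div_of_nonneg_right (Finset.sum_le_sum fun c _ =>
    add_le_add (h c r (by simp)) (h c s (by simp))) (by norm_num)

lemma J_const (d : ℝ) : J r s (fun _ => d) w = d := by simp [J]; ring

lemma J_lin (a b c : ℝ) (f g h : St → ℝ) : J r s (fun x => a * f x + b * g x + c * h x) w =
    a * J r s f w + b * J r s g w + c * J r s h w := by
  simp only [J, Fin.sum_univ_three]; ring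

noncomputable def e (x : ℝ) : ℝ := Real.exp (x / 10 ^ 6)

lemma e_pos (x : ℝ) : 0 < e x := Real.exp_pos _

lemma e_add (x y : ℝ) : e (x + y) = e x * e y := by rw [e, add_div, Real.exp_add]; rfl

lemma e_mono {x y : ℝ} (h : x ≤ y) : e x ≤ e y :=
  Real.exp_le_exp.2 (div_le_div_of_nonneg_right h (by norm_num))

@[fun_prop] lemma e_meas : Measurable e := by unfold e; fun_prop

lemma e_le {x : ℝ} (h : |x| ≤ 31) : e x ≤ 1 + (x + 1 / 1000) / 10 ^ 6 := by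
  obtain ⟨h1, h2⟩ := abs_le.1 h
  have := (abs_le.1 (Real.abs_exp_sub_one_sub_id_le (x := x / 10 ^ 6)
    (abs_le.2 ⟨by linarith, by linarith⟩))).2
  rw [e]
  nlinarith

lemma e_two {x y : ℝ} (h : x ≤ y + 31) : e x ≤ 2 * e y := by
  refine (e_mono h).trans ?_
  rw [e_add, mul_comm]
  exact mul_le_mul_of_nonneg_right ((e_le (by norm_num)).trans (by norm_num)) (e_pos _).le

lemma expJ (hr : r ∈ Icc (0 : ℝ) 5) (hs : s ∈ Icc (0 : ℝ) 5) {V : St → ℝ} {d : ℝ}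
    (h1 : ∀ c, ∀ x ∈ Icc (0 : ℝ) 5, |V (job w (c, 2, x)) - V w| ≤ 31) (h2 : J r s V w ≤ V w + d) :
    J r s (fun x => e (V x)) w ≤ (1 + (d + 1 / 1000) / 10 ^ 6) * e (V w) := by
  refine (J_le (g' := fun x => (e (V w) / 10 ^ 6) * V x + e (V w) * (1 + (1 / 1000 - V w) / 10 ^ 6)
    * 1 + 0 * 0) fun c x hx => ?_).trans ?_
  · have := mul_le_mul_of_nonneg_left (e_le (h1 c x (by rcases hx with rfl | rfl <;> assumption)))
      (e_pos (V w)).le
    rw [← e_add, add_sub_cancel] at this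
    linarith
  · rw [J_lin, J_const]
    nlinarith [mul_le_mul_of_nonneg_left h2 (e_pos (V w)).le]

lemma J_bd (hr : r ∈ Icc (0 : ℝ) 5) (hs : s ∈ Icc (0 : ℝ) 5) {V : St → ℝ} {d : ℝ}
    (h1 : ∀ c, ∀ x ∈ Icc (0 : ℝ) 5, V (job w (c, 2, x)) ≤ d) : J r s V w ≤ d :=
  (J_le fun c x hx => h1 c x (by rcases hx with rfl | rfl <;> assumption)).trans_eq (J_const d)

lemma argmin {d : ℝ} (h : mn w + d ≤ su w - mx w - mn w) : (w 0 + d ≤ w 1 ∧ w 0 + d ≤ w 2) ∨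
    (w 1 + d ≤ w 0 ∧ w 1 + d ≤ w 2) ∨ (w 2 + d ≤ w 0 ∧ w 2 + d ≤ w 1) := by
  simp only [su, mx, mn, max_def, min_def] at h
  split_ifs at h <;> first | exact .inl ⟨by linarith, by linarith⟩ |
    exact .inr (.inl ⟨by linarith, by linarith⟩) | exact .inr (.inr ⟨by linarith, by linarith⟩)

lemma argmax {d : ℝ} (h : su w - mx w - mn w + d ≤ mx w) : (w 1 + d ≤ w 0 ∧ w 2 + d ≤ w 0) ∨
    (w 0 + d ≤ w 1 ∧ w 2 + d ≤ w 1) ∨ (w 0 + d ≤ w 2 ∧ w 1 + d ≤ w 2) := by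
  simp only [su, mx, mn, max_def, min_def] at h
  split_ifs at h <;> first | exact .inl ⟨by linarith, by linarith⟩ |
    exact .inr (.inl ⟨by linarith, by linarith⟩) | exact .inr (.inr ⟨by linarith, by linarith⟩)

lemma A2 (h : mn w + 5 ≤ su w - mx w - mn w) :
    J 3 5 (fun x => 3 / 2 * (su x - mn x)) w ≤ 3 / 2 * (su w - mn w) + 5 / 2 := by
  rw [J_eq]
  simp only [su, mn, ups]
  rcases argmin h with ⟨h1, h2⟩ | ⟨h1, h2⟩ | ⟨h1, h2⟩ <;> split_ifs <;> first | linarith |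
    (simp (disch := with_unfolding_all linarith only [h1, h2]) only [n1, n2, n3]; linarith)

lemma A3 (h : su w - mx w - mn w + 5 ≤ mx w) : J 3 5 (fun x => 3 * mx x) w ≤ 3 * mx w + 0 := by
  rw [J_eq]
  simp only [mx, ups]
  rcases argmax h with ⟨h1, h2⟩ | ⟨h1, h2⟩ | ⟨h1, h2⟩ <;> split_ifs <;> first | linarith |
    (simp (disch := with_unfolding_all linarith only [h1, h2]) only [m1, m2, m3]; linarith)

lemma B2 (h : su w - mx w - mn w + 4 ≤ mx w) :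
    J 4 4 (fun x => 3 / 2 * (mx x - su x)) w ≤ 3 / 2 * (mx w - su w) + -4 := by
  rw [J_eq]
  simp only [su, mx, ups]
  rcases argmax h with ⟨h1, h2⟩ | ⟨h1, h2⟩ | ⟨h1, h2⟩ <;> split_ifs <;> first | linarith |
    (simp (disch := with_unfolding_all linarith only [h1, h2]) only [m1, m2, m3]; linarith)

lemma B3 (h : mn w + 4 ≤ su w - mx w - mn w) : J 4 4 (fun x => -3 * mn x) w ≤ -3 * mn w + -6 := by
  rw [J_eq]
  simp only [mn, ups]
  rcases argmin h with ⟨h1, h2⟩ | ⟨h1, h2⟩ | ⟨h1, h2⟩ <;> split_ifs <;> first | linarith |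
    (simp (disch := with_unfolding_all linarith only [h1, h2]) only [n1, n2, n3]; linarith)

noncomputable def VV (u : ℝ) (G : ℤ → ℤ → ℤ) (w : St) : ℝ :=
  3 * w 2 + G ⌈(w 0 - w 2) / u⌉ ⌈(w 1 - w 2) / u⌉ / 1000

@[fun_prop] lemma VV_meas (u : ℝ) (G : ℤ → ℤ → ℤ) : Measurable (VV u G) := by
  have : Measurable fun p : ℤ × ℤ => (G p.1 p.2 : ℝ) := measurable_of_countable _
  exact (measurable_const.mul (measurable_pi_apply 2)).add ((this.comp (f := fun w : St =>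
    (⌈(w 0 - w 2) / u⌉, ⌈(w 1 - w 2) / u⌉)) (by fun_prop)).div_const _)

lemma dv {u : ℝ} (hu : u ≠ 0) (k : ℤ) (hs : s = u * k) (a b : ℝ) :
    (a + s - b) / u = (a - b) / u + k ∧ (a - (b + s)) / u = (a - b) / u - k := by
  subst hs
  constructor <;> field_simp <;> ring

lemma VV_up {u : ℝ} (hu : u ≠ 0) (G : ℤ → ℤ → ℤ) (k : ℤ) (hs : s = u * k) :
    VV u G (up w 0 s) = 3 * w 2 + G (⌈(w 0 - w 2) / u⌉ + k) ⌈(w 1 - w 2) / u⌉ / 1000 ∧
    VV u G (up w 1 s) = 3 * w 2 + G ⌈(w 0 - w 2) / u⌉ (⌈(w 1 - w 2) / u⌉ + k) / 1000 ∧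
    VV u G (up w 2 s) = 3 * w 2 + 3 * s +
      G (⌈(w 0 - w 2) / u⌉ - k) (⌈(w 1 - w 2) / u⌉ - k) / 1000 := by
  simp only [VV, ups, dv hu k hs, Int.ceil_add_intCast, Int.ceil_sub_intCast, mul_add, and_self]

lemma drain_sub {τ : ℝ} (h : τ ≤ mn w) (i : Fin 3) : drain w τ i = w i - τ :=
  max_eq_left (sub_nonneg.2 (h.trans (le_mx w i).1))

lemma drain_ord (w : St) (τ : ℝ) : mx (drain w τ) = max (mx w - τ) 0 ∧
    mn (drain w τ) = max (mn w - τ) 0 ∧ su (drain w τ) =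
      max (mx w - τ) 0 + max (mn w - τ) 0 + max (su w - mx w - mn w - τ) 0 := by
  have h : Monotone fun x : ℝ => max (x - τ) 0 := fun x y h => max_le_max (by linarith) le_rfl
  refine ⟨?_, ?_, ?_⟩
  · exact (h.map_max.trans (congrArg (max · _) h.map_max)).symm
  · exact (h.map_min.trans (congrArg (min · _) h.map_min)).symm
  · simp only [su, mx, mn, drain]
    have : (w 0 ≤ w 1 ∧ w 1 ≤ w 2) ∨ (w 0 ≤ w 2 ∧ w 2 ≤ w 1) ∨ (w 1 ≤ w 0 ∧ w 0 ≤ w 2) ∨
      (w 1 ≤ w 2 ∧ w 2 ≤ w 0) ∨ (w 2 ≤ w 0 ∧ w 0 ≤ w 1) ∨ (w 2 ≤ w 1 ∧ w 1 ≤ w 0) := by grind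
    rcases this with ⟨h1, h2⟩ | ⟨h1, h2⟩ | ⟨h1, h2⟩ | ⟨h1, h2⟩ | ⟨h1, h2⟩ | ⟨h1, h2⟩ <;>
      simp (disch := with_unfolding_all linarith) only [n1, n2, n3, m1, m2, m3] <;> ring_nf

lemma VV_drain {τ : ℝ} (h : τ ≤ mn w) (u : ℝ) (G : ℤ → ℤ → ℤ) :
    VV u G (drain w τ) = VV u G w - 3 * τ := by
  simp only [VV, drain_sub h, sub_sub_sub_cancel_right]; ring

lemma lap2 (A B : ℝ≥0∞) {a b : ℝ} (ha : 0 < 99 / 100 + a) (hb : 0 < 99 / 100 + b) :
    ∫⁻ τ, A * E (-(a * τ)) + B * E (-(b * τ)) ∂ex = A * ENNReal.ofReal (99 / 100 / (99 / 100 + a)) +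
      B * ENNReal.ofReal (99 / 100 / (99 / 100 + b)) := by
  rw [lintegral_add_left (by fun_prop), lintegral_const_mul _ (by fun_prop),
    lintegral_const_mul _ (by fun_prop), lap ha, lap hb]

end Pool.Agent.H44.JS
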