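import Pool.Agent.H44.JS5

/-! The stable example: right service times `3` or `5`. -/

open Set MeasureTheory ProbabilityTheory Filter Topology Measure
open scoped ENNReal NNReal

namespace Pool.Agent.H44.JS

variable {w : St}

lemma ceil_bd (w : St) {u : ℝ} (hu : 0 < u) {x y : ℤ} (hx : x = ⌈(w 0 - w 2) / u⌉)
    (hy : y = ⌈(w 1 - w 2) / u⌉) : (w 0 - w 2 ≤ u * x ∧ u * x ≤ w 0 - w 2 + u) ∧
    (w 1 - w 2 ≤ u * y ∧ u * y ≤ w 1 - w 2 + u) ∧
    (mx w - w 2 ≤ u * max (max (x : ℝ) y) 0 ∧ u * max (max (x : ℝ) y) 0 ≤ mx w - w 2 + u) ∧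
    (mn w - w 2 ≤ u * min (min (x : ℝ) y) 0 ∧ u * min (min (x : ℝ) y) 0 ≤ mn w - w 2 + u) := by
  have h : ∀ a : ℝ, a ≤ u * ⌈a / u⌉ ∧ u * ⌈a / u⌉ ≤ a + u := fun a =>
    ⟨(div_le_iff₀' hu).1 (Int.le_ceil _), by
      have := mul_le_mul_of_nonneg_left (Int.ceil_lt_add_one (a / u)).le hu.le
      rwa [mul_add, mul_div_cancel₀ _ hu.ne', mul_one] at this⟩
  obtain ⟨h1, h2⟩ := hx ▸ h (w 0 - w 2)
  obtain ⟨h3, h4⟩ := hy ▸ h (w 1 - w 2)
  simp only [mul_max_of_nonneg _ _ hu.le, mul_min_of_nonneg _ _ hu.le, mul_zero, mx, mn]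
  generalize u * x = X at *
  generalize u * y = Y at *
  refine ⟨⟨h1, h2⟩, ⟨h3, h4⟩, ⟨?_, ?_⟩, ?_, ?_⟩ <;> grind

lemma VA_bd (w : St) : 9 / 10 * su w + mx w - 7 / 10 * mn w - 6 ≤ VV 1 GA w ∧
    VV 1 GA w ≤ 9 / 10 * su w + mx w - 7 / 10 * mn w + 8 := by
  obtain ⟨⟨_, _⟩, ⟨_, _⟩, ⟨_, _⟩, _, _⟩ := ceil_bd w one_pos rfl rfl
  obtain ⟨h1, h2⟩ := hh_bd 11 tA ⌈(w 0 - w 2) / 1⌉ ⌈(w 1 - w 2) / 1⌉
  rw [← Int.cast_le (R := ℝ)] at h1 h2
  simp only [VV, GA, su]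
  push_cast at h1 h2 ⊢
  constructor <;> linarith

lemma A1 (w : St) : J 3 5 (VV 1 GA) w ≤ VV 1 GA w + 302 / 100 := by
  have h1 : if decide (w 0 ≤ w 1) then ⌈(w 0 - w 2) / 1⌉ ≤ ⌈(w 1 - w 2) / 1⌉
      else ⌈(w 1 - w 2) / 1⌉ ≤ ⌈(w 0 - w 2) / 1⌉ := by
    split_ifs with h <;> simp only [decide_eq_true_eq] at h <;> exact Int.ceil_mono (by linarith)
  have h2 : if decide (w 2 ≤ w 0) then 0 ≤ ⌈(w 0 - w 2) / 1⌉ else ⌈(w 0 - w 2) / 1⌉ ≤ 0 := by
    split_ifs with h <;> simp only [decide_eq_true_eq] at h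
    · exact Int.ceil_nonneg (by linarith)
    · exact Int.ceil_nonpos.2 (by linarith)
  have h3 : ⌈(w 1 - w 2) / 1⌉ ≤ 0 ↔ w 1 ≤ w 2 := by simp [Int.ceil_nonpos]
  have h := allA _ _ _ _ h1 h2
  rw [← Int.cast_le (R := ℝ)] at h
  rw [J_eq]
  simp only [VV_up (s := 2) one_ne_zero GA 2 (by norm_num), VV_up (s := 3) one_ne_zero GA 3
    (by norm_num), VV_up (s := 5) one_ne_zero GA 5 (by norm_num)]
  simp only [decide_eq_true_eq, h3] at h
  rw [VV]
  split_ifs at h ⊢ <;> push_cast at h <;> linarith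

noncomputable def UA (w : St) : ℝ :=
  1 * e (VV 1 GA w) + 1 / 10 ^ 5 * e (3 / 2 * (su w - mn w)) + 1 / 10 ^ 10 * e (3 * mx w)

lemma UA_pos (w : St) : 0 < UA w := by
  unfold UA e; positivity

lemma UA_meas : Measurable UA := by unfold UA; fun_prop

lemma JUA (w : St) : J 3 5 UA w ≤ (1 + 3024 / 10 ^ 9) * UA w := by
  have h3 : (3 : ℝ) ∈ Icc (0 : ℝ) 5 := by norm_num
  have h5 : (5 : ℝ) ∈ Icc (0 : ℝ) 5 := by norm_num
  obtain ⟨b1, b2⟩ := VA_bd w
  obtain ⟨b3, b4⟩ := mid_bd w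
  have e1 := expJ h3 h5 (fun c x hx => by
    obtain ⟨s, ⟨_, _⟩, _, _, _, _, _⟩ := job_bd w c hx
    obtain ⟨_, _⟩ := VA_bd (job w (c, 2, x))
    exact abs_le.2 ⟨by linarith, by linarith⟩) (A1 w)
  have e2 := fun d => expJ h3 h5 (V := fun x => 3 / 2 * (su x - mn x)) (w := w) (d := d)
    fun c x hx => by
      obtain ⟨s, ⟨_, _⟩, _, _, _, _, _⟩ := job_bd w c hx
      exact abs_le.2 ⟨by linarith, by linarith⟩
  have e3 := fun d => expJ h3 h5 (V := fun x => 3 * mx x) (w := w) (d := d) fun c x hx => by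
    obtain ⟨s, ⟨_, _⟩, _, _, _, _, _⟩ := job_bd w c hx
    exact abs_le.2 ⟨by linarith, by linarith⟩
  have f2 := e2 8 (J_bd h3 h5 fun c x hx => by
    obtain ⟨s, ⟨_, _⟩, _, _, _, _, _⟩ := job_bd w c hx
    linarith)
  have f3 := e3 15 (J_bd h3 h5 fun c x hx => by
    obtain ⟨s, ⟨_, _⟩, _, _, _, _, _⟩ := job_bd w c hx
    linarith)
  have p1 := e_pos (VV 1 GA w)
  have p2 := e_pos (3 / 2 * (su w - mn w))
  have p3 := e_pos (3 * mx w)
  unfold UA
  rw [J_lin]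
  rcases le_total (mn w + 5) (su w - mx w - mn w) with h | h <;>
    rcases le_total (su w - mx w - mn w + 5) (mx w) with h' | h'
  · linarith [e2 _ (A2 h), e3 _ (A3 h')]
  · linarith [e2 _ (A2 h), e_two (x := 3 * mx w) (y := 3 / 2 * (su w - mn w)) (by linarith)]
  · linarith [e3 _ (A3 h'), e_two (x := 3 / 2 * (su w - mn w)) (y := VV 1 GA w) (by linarith)]
  · linarith [e_two (x := 3 * mx w) (y := 3 / 2 * (su w - mn w)) (by linarith),
      e_two (x := 3 / 2 * (su w - mn w)) (y := VV 1 GA w) (by linarith)]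

lemma absorb {δ : ℝ} (hδ : 0 < δ) : ∃ C, 0 ≤ C ∧ ∀ v, e (14 / 15 * v + 8) ≤ δ * e v + C := by
  refine ⟨e (14 * (8 - Real.log δ * 10 ^ 6) + 8), (e_pos _).le, fun v => ?_⟩
  rcases le_total (v / 15) (8 - Real.log δ * 10 ^ 6) with h | h
  · exact (e_mono (by linarith)).trans (le_add_of_nonneg_left (mul_pos hδ (e_pos _)).le)
  · refine le_add_of_le_of_nonneg ((e_mono (y := Real.log δ * 10 ^ 6 + v) (by linarith)).trans_eq ?_)
      (e_pos _).le
    rw [e_add, e, mul_div_cancel_right₀ _ (by norm_num), Real.exp_log hδ]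

lemma drainA : ∃ C, 0 ≤ C ∧ ∀ w τ, UA (drain w τ) ≤ (1 + 1 / 10 ^ 9) * (e (-3 * τ) * UA w) + C := by
  obtain ⟨C, hC, h⟩ := absorb (δ := 1 / 10 ^ 20) (by norm_num)
  refine ⟨2 * (e 8 + C) + 1, by linarith [e_pos 8], fun w τ => ?_⟩
  obtain ⟨o1, o2, o3⟩ := drain_ord w τ
  obtain ⟨b3, b4⟩ := mid_bd w
  have p1 := e_pos (-3 * τ + VV 1 GA w)
  have p2 := e_pos (-3 * τ + 3 / 2 * (su w - mn w))
  have p3 := e_pos (-3 * τ + 3 * mx w)
  have p4 := e_pos 8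
  have h2 := h (-3 * τ + 3 / 2 * (su w - mn w))
  have h3 := h (-3 * τ + 3 * mx w)
  have k : e (-3 * τ) * UA w = 1 * e (-3 * τ + VV 1 GA w) + 1 / 10 ^ 5 *
      e (-3 * τ + 3 / 2 * (su w - mn w)) + 1 / 10 ^ 10 * e (-3 * τ + 3 * mx w) := by
    simp only [e_add, UA]; ring
  have k1 : ∀ v, v ≤ 14 / 15 * (-3 * τ + 3 / 2 * (su w - mn w)) + 8 ∨
      v ≤ 14 / 15 * (-3 * τ + 3 * mx w) + 8 ∨ v ≤ 8 → e v ≤ 1 / 10 ^ 20 *
      e (-3 * τ + 3 / 2 * (su w - mn w)) + 1 / 10 ^ 20 * e (-3 * τ + 3 * mx w) + (e 8 + C) := by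
    rintro v (hv | hv | hv) <;> linarith [e_mono hv]
  have a1 : e (VV 1 GA (drain w τ)) ≤ e (-3 * τ + VV 1 GA w) + (1 / 10 ^ 20 *
      e (-3 * τ + 3 / 2 * (su w - mn w)) + 1 / 10 ^ 20 * e (-3 * τ + 3 * mx w) + (e 8 + C)) := by
    rcases le_total τ (mn w) with h0 | h0
    · rw [VV_drain h0, sub_eq_neg_add, ← neg_mul]; linarith
    · have := (VA_bd (drain w τ)).2
      exact le_add_of_nonneg_of_le p1.le (k1 _ (by grind))
  have a2 : e (3 / 2 * (su (drain w τ) - mn (drain w τ))) ≤ e (-3 * τ + 3 / 2 * (su w - mn w)) +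
      (1 / 10 ^ 20 * e (-3 * τ + 3 / 2 * (su w - mn w)) + 1 / 10 ^ 20 * e (-3 * τ + 3 * mx w) +
      (e 8 + C)) := by
    rcases le_total τ (su w - mx w - mn w) with h0 | h0
    · exact le_add_of_le_of_nonneg (e_mono (by grind)) (by positivity)
    · exact le_add_of_nonneg_of_le p2.le (k1 _ (by grind))
  have a3 : e (3 * mx (drain w τ)) ≤ e (-3 * τ + 3 * mx w) + 1 := by
    rcases le_total τ (mx w) with h0 | h0
    · exact le_add_of_le_of_nonneg (e_mono (by grind)) zero_le_one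
    · rw [o1, max_eq_right (by linarith)]
      simpa [e] using p3.le
  rw [k, UA]
  linarith

lemma ofReal_e (x : ℝ) : ENNReal.ofReal (e x) = E (x / 10 ^ 6) := rfl

theorem stabA : Stab (kap 3 5) := by
  obtain ⟨C, hC, h⟩ := drainA
  obtain ⟨g, hg⟩ : ∃ g, g = fun w => ENNReal.ofReal (UA w) := ⟨_, rfl⟩
  have hm : Measurable g := hg ▸ UA_meas.ennreal_ofReal
  have h1 : ∀ w, sm (kap 3 5) (1 / 10 ^ 9) g w ≤ g w + ENNReal.ofReal (4 * C) := fun w => by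
    have p := UA_pos w
    refine (lintegral_mono (g := fun τ => ENNReal.ofReal ((1 + 3024 / 10 ^ 9) * (1 + 1 / 10 ^ 9) *
      UA w) * E (-((3 / 10 ^ 6 - 1 / 10 ^ 9) * τ)) + ENNReal.ofReal (2 * C) *
      E (-(-(1 / 10 ^ 9) * τ))) fun τ => ?_).trans ?_
    · rw [hg, K_ofReal UA_meas (fun x => (UA_pos x).le)]
      simp only [E]
      rw [← ENNReal.ofReal_mul (Real.exp_pos _).le, ← ENNReal.ofReal_mul (by positivity),
        ← ENNReal.ofReal_mul (by positivity), ← ENNReal.ofReal_add (by positivity) (by positivity)]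
      refine ENNReal.ofReal_le_ofReal ?_
      have h2 := (JUA (drain w τ)).trans (mul_le_mul_of_nonneg_left (h w τ) (by norm_num))
      rw [show -((3 / 10 ^ 6 - 1 / 10 ^ 9) * τ) = 1 / 10 ^ 9 * τ + -3 * τ / 10 ^ 6 by ring,
        Real.exp_add, ← e, neg_mul, neg_mul, neg_neg]
      rw [neg_mul] at h2
      have h3 := Real.exp_pos (1 / 10 ^ 9 * τ)
      nlinarith [mul_le_mul_of_nonneg_left h2 h3.le, mul_nonneg h3.le hC]
    · rw [lap2 _ _ (by norm_num) (by norm_num), hg, ← ENNReal.ofReal_mul (by positivity),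
        ← ENNReal.ofReal_mul (by positivity)]
      refine add_le_add (ENNReal.ofReal_le_ofReal ?_) (ENNReal.ofReal_le_ofReal ?_) <;>
        norm_num <;> linarith
  have h2 := fun t ht w => sm_drift (kap 3 5) (a := 1 / 10 ^ 9) (b := 1 / 10 ^ 6) (by norm_num)
    (by norm_num) hm h1 (C' := ENNReal.ofReal (10 ^ 7 * C)) (t := t) (by
      rw [← ENNReal.ofReal_mul (by positivity), ← ENNReal.ofReal_add (by positivity) (by positivity)]
      refine ENNReal.ofReal_le_ofReal ?_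
      norm_num
      linarith) ht w
  have h3 : ∀ w i, ENNReal.ofReal (1 / 10 ^ 11 * e (3 * w i)) ≤ sm (kap 3 5) (1 / 10 ^ 9) g w := by
    intro w i
    have p := e_pos (3 * w i)
    refine le_trans ?_ (lintegral_mono_ae (f := fun τ => ENNReal.ofReal (1 / 10 ^ 10 * e (3 * w i)) *
      E (-(3 / 10 ^ 6 * τ))) ?_)
    · rw [lintegral_const_mul _ (by fun_prop), lap (by norm_num), ← ENNReal.ofReal_mul (by positivity)]
      refine ENNReal.ofReal_le_ofReal ?_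
      norm_num
      linarith
    · filter_upwards [ex_nonneg] with τ hτ
      refine le_trans ?_ (le_mul_of_one_le_left' (E_zero ▸ E_mono (by positivity)))
      rw [hg, K_ofReal UA_meas (fun x => (UA_pos x).le), E, ← ENNReal.ofReal_mul (by positivity)]
      refine ENNReal.ofReal_le_ofReal ((J_const (r := 3) (s := 5) (w := drain w τ) _).ge.trans
        (J_le fun c x hx => ?_))
      obtain ⟨s, -, -, h4, -⟩ := job_bd (drain w τ) c (r := x) (by rcases hx with rfl | rfl <;> norm_num)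
      rw [show -(3 / 10 ^ 6 * τ) = -3 * τ / 10 ^ 6 by ring, ← e, mul_assoc, ← e_add, UA]
      have h5 : w i - τ ≤ mx (drain w τ) := (le_max_left _ _).trans (le_mx (drain w τ) i).2
      refine le_add_of_nonneg_of_le ?_ (mul_le_mul_of_nonneg_left (e_mono (by linarith)) (by norm_num))
      unfold e
      positivity
  obtain ⟨t, ht⟩ : ∃ t, t = 10 ^ 9 + 10 ^ 25 * (C + 1) := ⟨_, rfl⟩
  have ht0 : 0 < t := by rw [ht]; positivity
  obtain ⟨K, hK⟩ : ∃ K : ℝ≥0, K = (10 ^ 7 * (C + 1) * e t).toNNReal := ⟨_, rfl⟩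
  have p := e_pos t
  have hK' : ∀ r ≤ t, ENNReal.ofReal (10 ^ 7 * C) * E (1 / 10 ^ 6 * r) ≤ K := fun r hr => by
    rw [hK, one_div, ← div_eq_inv_mul, ← ofReal_e, ← ENNReal.ofReal_mul (by positivity)]
    exact ENNReal.ofReal_le_ofReal (mul_le_mul (by linarith) (e_mono hr) (e_pos _).le (by positivity))
  refine Exists.elim (harris (kap 3 5) (sm_meas _ _ hm) (fun x => ne_top_of_le_ne_top (by
    rw [hg]; finiteness) (h1 x)) (K := K) (hK ▸ Real.toNNReal_pos.2 (by positivity)) ht0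
    (fun x => (h2 t ht0.le x).trans (add_le_add (mul_le_mul' ?_ le_rfl) (hK' t le_rfl)))
    (fun r hr => (h2 r hr.1 0).trans (add_le_add (mul_le_of_le_one_left' (E_zero ▸ E_mono (by
      linarith [hr.1]))) (hK' r hr.2))) fun x hx i => not_lt.1 fun hi => hx.not_ge (le_trans ?_ (h3 x i)))
    fun ν hν => stab_of _ hν
  · rw [E, Real.exp_neg]
    refine ENNReal.ofReal_le_of_le_toReal ?_
    have := Real.add_one_le_exp (1 / 10 ^ 9 * t)
    simp only [one_div, ENNReal.coe_toReal, NNReal.coe_inv, NNReal.coe_ofNat] at this ⊢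
    exact inv_anti₀ two_pos (by linarith)
  · rw [hK, ← ENNReal.ofReal_ofNat, ← ENNReal.ofReal, ← ENNReal.ofReal_mul (by norm_num)]
    refine ENNReal.ofReal_le_ofReal ?_
    have h4 := e_mono (x := t + t) (y := 3 * x i) (by linarith)
    have h5 := Real.add_one_le_exp (t / 10 ^ 6)
    rw [e_add] at h4
    rw [← e] at h5
    nlinarith [mul_le_mul_of_nonneg_left h5 p.le]

end Pool.Agent.H44.JS
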