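import Pool.Agent.H44.JS6

/-! The unstable example: right service time `4`. -/

open Set MeasureTheory ProbabilityTheory Filter Topology Measure
open scoped ENNReal NNReal

namespace Pool.Agent.H44.JS

variable {w : St}

def La (w : St) : Prop := 0 < ⌈(w 0 - w 2) / 2⌉ - (w 0 - w 2) / 2 ∧
  ⌈(w 0 - w 2) / 2⌉ - (w 0 - w 2) / 2 < ⌈(w 1 - w 2) / 2⌉ - (w 1 - w 2) / 2

lemma La_meas : MeasurableSet {w | La w} := by
  have : Measurable fun n : ℤ => (n : ℝ) := measurable_of_countable _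
  have h : ∀ i, Measurable fun w : St => ⌈(w i - w 2) / 2⌉ - (w i - w 2) / 2 := fun i =>
    (this.comp (by fun_prop)).sub (by fun_prop)
  exact (measurableSet_lt measurable_const (h 0)).inter (measurableSet_lt (h 0) (h 1))

lemma La_up (h : La w) (i : Fin 3) (k : ℤ) {s : ℝ} (hs : s = 2 * k) : La (up w i s) := by
  have : i = 0 ∨ i = 1 ∨ i = 2 := by omega
  obtain ⟨h1, h2⟩ := h
  rcases this with rfl | rfl | rfl <;>
    simp only [La, ups, dv two_ne_zero k hs, Int.ceil_add_intCast, Int.ceil_sub_intCast] <;>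
    push_cast <;> constructor <;> linarith

lemma La_job (h : La w) (c : Fin 3) : La (job w (c, 2, 4)) := by
  unfold job
  split_ifs
  · exact La_up h c 1 (by norm_num)
  · exact La_up h (c + 1) 2 (by norm_num)

lemma La_drain (h : La w) {τ : ℝ} (hτ : τ ≤ mn w) : La (drain w τ) := by
  simpa only [La, drain_sub hτ, sub_sub_sub_cancel_right] using h

lemma VB_bd (w : St) : 6 / 5 * su w - 11 / 10 * mx w + 1 / 2 * mn w - 8 ≤ VV 2 GB w ∧
    VV 2 GB w ≤ 6 / 5 * su w - 11 / 10 * mx w + 1 / 2 * mn w + 11 := by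
  obtain ⟨⟨_, _⟩, ⟨_, _⟩, ⟨_, _⟩, _, _⟩ := ceil_bd w two_pos rfl rfl
  obtain ⟨h1, h2⟩ := hh_bd 4 tB ⌈(w 0 - w 2) / 2⌉ ⌈(w 1 - w 2) / 2⌉
  rw [← Int.cast_le (R := ℝ)] at h1 h2
  simp only [VV, GB, su]
  push_cast at h1 h2 ⊢
  constructor <;> linarith

lemma B1 (hw : La w) : J 4 4 (fun x => -VV 2 GB x) w ≤ -VV 2 GB w + -(304 / 100) := by
  obtain ⟨l1, l2⟩ := hw
  have l3 := Int.ceil_lt_add_one ((w 1 - w 2) / 2)
  have h1 : ⌈(w 0 - w 2) / 2⌉ < ⌈(w 1 - w 2) / 2⌉ ↔ w 0 ≤ w 1 := by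
    refine ⟨fun h => not_lt.1 fun h' => h.not_ge (Int.ceil_mono (by linarith)), fun h => ?_⟩
    rw [← Int.cast_lt (R := ℝ)]
    linarith
  have h2 : 0 < ⌈(w 0 - w 2) / 2⌉ ↔ w 2 ≤ w 0 := by
    refine ⟨fun h => by linarith [Int.ceil_pos.1 h], fun h => ?_⟩
    rw [← Int.cast_pos (R := ℝ)]
    linarith
  have h3 : ⌈(w 1 - w 2) / 2⌉ ≤ 0 ↔ w 1 ≤ w 2 := by
    rw [Int.ceil_nonpos]
    constructor <;> intro <;> linarith
  have h := allB ⌈(w 0 - w 2) / 2⌉ ⌈(w 1 - w 2) / 2⌉
  rw [okB, ← Int.cast_le (R := ℝ)] at h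
  rw [J_eq]
  simp only [VV_up (s := 2) two_ne_zero GB 1 (by norm_num), VV_up (s := 4) two_ne_zero GB 2
    (by norm_num)]
  simp only [h1, h2, h3] at h
  rw [VV]
  split_ifs at h ⊢ <;> push_cast at h <;> linarith

noncomputable def HB (w : St) : ℝ :=
  2 * 10 ^ 10 * e (-VV 2 GB w) + 2 * 10 ^ 5 * e (3 / 2 * (mx w - su w)) + 2 * e (-3 * mn w)

lemma HB_pos (w : St) : 0 < HB w := by unfold HB e; positivity

lemma HB_meas : Measurable HB := by unfold HB; fun_prop

lemma JHB (hw : La w) : J 4 4 HB w ≤ (1 - 3035 / 10 ^ 9) * HB w := by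
  have h4 : (4 : ℝ) ∈ Icc (0 : ℝ) 5 := by norm_num
  obtain ⟨b1, b2⟩ := VB_bd w
  obtain ⟨b3, b4⟩ := mid_bd w
  have e1 := expJ h4 h4 (fun c x hx => by
    obtain ⟨s, ⟨_, _⟩, _, _, _, _, _⟩ := job_bd w c hx
    obtain ⟨_, _⟩ := VB_bd (job w (c, 2, x))
    exact abs_le.2 ⟨by linarith, by linarith⟩) (B1 hw)
  have e2 := fun d => expJ h4 h4 (V := fun x => 3 / 2 * (mx x - su x)) (w := w) (d := d)
    fun c x hx => by
      obtain ⟨s, ⟨_, _⟩, _, _, _, _, _⟩ := job_bd w c hx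
      exact abs_le.2 ⟨by linarith, by linarith⟩
  have e3 := fun d => expJ h4 h4 (V := fun x => -3 * mn x) (w := w) (d := d) fun c x hx => by
    obtain ⟨s, ⟨_, _⟩, _, _, _, _, _⟩ := job_bd w c hx
    exact abs_le.2 ⟨by linarith, by linarith⟩
  have f2 := e2 0 (J_bd h4 h4 fun c x hx => by
    obtain ⟨s, ⟨_, _⟩, _, _, _, _, _⟩ := job_bd w c hx
    linarith)
  have f3 := e3 0 (J_bd h4 h4 fun c x hx => by
    obtain ⟨s, ⟨_, _⟩, _, _, _, _, _⟩ := job_bd w c hx
    linarith)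
  have p1 := e_pos (-VV 2 GB w)
  have p2 := e_pos (3 / 2 * (mx w - su w))
  have p3 := e_pos (-3 * mn w)
  unfold HB
  rw [J_lin]
  rcases le_total (mn w + 4) (su w - mx w - mn w) with h | h <;>
    rcases le_total (su w - mx w - mn w + 4) (mx w) with h' | h'
  · linarith [e2 _ (B2 h'), e3 _ (B3 h)]
  · linarith [e3 _ (B3 h), e_two (x := 3 / 2 * (mx w - su w)) (y := -VV 2 GB w) (by linarith)]
  · linarith [e2 _ (B2 h'), e_two (x := -3 * mn w) (y := 3 / 2 * (mx w - su w)) (by linarith)]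
  · linarith [e_two (x := -3 * mn w) (y := 3 / 2 * (mx w - su w)) (by linarith),
      e_two (x := 3 / 2 * (mx w - su w)) (y := -VV 2 GB w) (by linarith)]

lemma HB_drain {τ : ℝ} (h : τ ≤ mn w) : HB (drain w τ) = e (3 * τ) * HB w := by
  obtain ⟨o1, o2, o3⟩ := drain_ord w τ
  obtain ⟨b3, b4⟩ := mid_bd w
  rw [max_eq_left (by linarith)] at o1 o2
  rw [max_eq_left (by linarith), max_eq_left (by linarith), max_eq_left (by linarith)] at o3
  rw [HB, HB, VV_drain h, o1, o2, o3, show -(VV 2 GB w - 3 * τ) = 3 * τ + -VV 2 GB w by ring,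
    show -3 * (mn w - τ) = 3 * τ + -3 * mn w by ring, show 3 / 2 * (mx w - τ - (mx w - τ + (mn w - τ)
    + (su w - mx w - mn w - τ))) = 3 * τ + 3 / 2 * (mx w - su w) by ring]
  simp only [e_add]
  ring

open Classical in
noncomputable def h0 (w : St) : ℝ := if La w then min 1 (HB w) else 1

lemma h0_meas : Measurable h0 :=
  Measurable.ite La_meas (measurable_const.min HB_meas) measurable_const

lemma h0_bd (w : St) : 0 ≤ h0 w ∧ h0 w ≤ 1 := by
  unfold h0
  split_ifs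
  · exact ⟨le_min zero_le_one (HB_pos w).le, min_le_left _ _⟩
  · norm_num

lemma Jh0 (hw : La w) (τ : ℝ) : J 4 4 h0 (drain w τ) ≤ (1 - 3035 / 10 ^ 9) * HB w * e (3 * τ) := by
  rcases le_total τ (mn w) with h | h
  · refine (J_le (g' := HB) fun c x hx => ?_).trans ((JHB (La_drain hw h)).trans_eq ?_)
    · obtain rfl : x = 4 := by simpa using hx
      rw [h0, if_pos (La_job (La_drain hw h) c)]
      exact min_le_right _ _
    · rw [HB_drain h]; ring
  · refine (J_le (g' := fun _ => 1) fun c x _ => (h0_bd _).2).trans ((J_const 1).trans_le ?_)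
    have h1 := e_mono (x := 0) (y := -3 * mn w + 3 * τ) (by linarith)
    have h2 : 2 * e (-3 * mn w) ≤ HB w := le_add_of_nonneg_left (by unfold e; positivity)
    rw [e_add, e, zero_div, Real.exp_zero] at h1
    nlinarith [mul_le_mul_of_nonneg_right h2 (e_pos (3 * τ)).le]

lemma HB_lt (h : ∀ i, 10 ^ 17 ≤ w i) : HB w < 1 := by
  have h1 : 10 ^ 17 ≤ mn w := le_min (le_min (h 0) (h 1)) (h 2)
  obtain ⟨b1, b2⟩ := VB_bd w
  obtain ⟨b3, b4⟩ := mid_bd w
  have h2 : e (-10 ^ 17) ≤ 1 / 10 ^ 11 := by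
    rw [e, neg_div, Real.exp_neg, one_div]
    exact inv_anti₀ (by norm_num) (by linarith [Real.add_one_le_exp (10 ^ 17 / 10 ^ 6)])
  have h3 := e_mono (x := -VV 2 GB w) (y := -10 ^ 17) (by linarith)
  have h4 := e_mono (x := 3 / 2 * (mx w - su w)) (y := -10 ^ 17) (by linarith)
  have h5 := e_mono (x := -3 * mn w) (y := -10 ^ 17) (by linarith)
  unfold HB
  generalize e (-10 ^ 17) = z at *
  norm_num at *
  linarith

noncomputable def ff (w : St) : ℝ≥0∞ := 1 - ENNReal.ofReal (h0 w)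

lemma ff_meas : Measurable ff := measurable_const.sub h0_meas.ennreal_ofReal

lemma pos_job {t b : ℝ} (hb : 0 < b) (ht : b ≤ t) (c : Fin 3)
    (h : ∀ τ, 0 < τ → τ ≤ b → drain w τ c ≤ drain w τ (c + 1) ∧
      Pt (kap 4 4) ff (t - τ) (up (drain w τ) c 2) ≠ 0) : Pt (kap 4 4) ff t w ≠ 0 :=
  pos_step _ ff_meas le_rfl hb ht fun τ hτ => K_pos (Pt_meas _ ff_meas measurable_id
    measurable_const) c (by rw [job, if_pos (h τ hτ.1 hτ.2).1]; exact (h τ hτ.1 hτ.2).2)

lemma pos_ind (n : ℕ) : ∀ t w, 0 < t → La w → t ≤ mn w → mx w ≤ mn w + 2 →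
    3 * (10 ^ 17 + t) + 4 ≤ su w + 2 * n → Pt (kap 4 4) ff t w ≠ 0 := by
  induction n with
  | zero =>
    intro t w ht h1 h2 h3 h4
    refine pos_base _ ff_meas ht.le (tsub_pos_of_lt (ENNReal.ofReal_lt_one.2 ?_)).ne'
    rw [h0, if_pos (La_drain h1 h2)]
    refine (min_le_right _ _).trans_lt (HB_lt fun i => ?_)
    rw [drain_sub h2]
    have := le_mx w i
    have := mid_bd w
    push_cast at h4
    linarith
  | succ n ih =>
    intro t w ht h1 h2 h3 h4
    obtain ⟨c, hc⟩ : ∃ c, w c = mn w := by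
      rcases min_choice (min (w 0) (w 1)) (w 2) with h | h
      · rcases min_choice (w 0) (w 1) with h' | h'
        · exact ⟨0, (h.trans h').symm⟩
        · exact ⟨1, (h.trans h').symm⟩
      · exact ⟨2, h.symm⟩
    refine pos_job (half_pos ht) (half_le_self ht.le) c fun τ h5 h6 => ?_
    have h7 : τ ≤ mn w := by linarith
    obtain ⟨o1, o2, o3⟩ := drain_ord w τ
    obtain ⟨b3, b4⟩ := mid_bd w
    rw [max_eq_left (by linarith)] at o1 o2
    rw [max_eq_left (by linarith), max_eq_left (by linarith), max_eq_left (by linarith)] at o3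
    obtain ⟨u1, u2, u3, u4, u5⟩ := up_bd (drain w τ) c (s := 2) (by norm_num)
    refine ⟨by rw [drain_sub h7, drain_sub h7, hc]; linarith [(le_mx w (c + 1)).1],
      ih _ _ (by linarith) (La_up (La_drain h1 h7) c 1 (by norm_num)) (by linarith) ?_
      (by push_cast at h4; linarith)⟩
    have k : ∀ i, up (drain w τ) c 2 i ≤ mn w - τ + 2 := fun i => by
      by_cases hi : i = c
      · simp [up, hi, drain_sub h7, hc]
      · simp only [up, Function.update_of_ne hi, drain_sub h7]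
        linarith [(le_mx w i).2]
    exact (max_le (max_le (k 0) (k 1)) (k 2)).trans (by linarith)

lemma pos_zero : Pt (kap 4 4) ff 1 0 ≠ 0 := by
  refine pos_job (b := 1 / 4) (by norm_num) (by norm_num) 1 fun a a1 a2 => ⟨le_rfl, ?_⟩
  have e1 : up (drain 0 a) 1 2 = ![0, 2, 0] := by
    ext i; fin_cases i <;> simp [up, drain, a1.le]
  rw [e1]
  refine pos_job (b := 1 / 4) (by norm_num) (by linarith) 0 fun b b1 b2 => ⟨by simp [drain, b1.le], ?_⟩
  have e2 : up (drain ![0, 2, 0] b) 0 2 = ![2, 2 - b, 0] := by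
    ext i; fin_cases i <;> simp [up, drain, b1.le]; linarith
  rw [e2]
  refine pos_job (b := 1 / 4) (by norm_num) (by linarith) 2 fun c c1 c2 => ⟨by simp [drain, c1.le], ?_⟩
  have e3 : up (drain ![2, 2 - b, 0] c) 2 2 = ![2 - c, 2 - b - c, 2] := by
    ext i; fin_cases i <;> simp [up, drain, c1.le] <;> linarith
  rw [e3]
  have k : ∀ x : ℝ, 0 < x → x < 1 → ⌈(2 - x - 2) / 2⌉ = 0 := fun x h1 h2 =>
    Int.ceil_eq_iff.2 ⟨by push_cast; linarith, by push_cast; linarith⟩
  refine pos_ind (10 ^ 18) _ _ (by linarith) ?_ ?_ ?_ ?_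
  · simp only [La, Matrix.cons_val, sub_sub 2 b c, k c c1 (by linarith), k (b + c) (by linarith)
      (by linarith)]
    push_cast
    constructor <;> linarith
  · simp only [mn, Matrix.cons_val]; grind
  · simp only [mn, mx, Matrix.cons_val]; grind
  · simp only [su, Matrix.cons_val]; push_cast; linarith

theorem unstabB : ¬ Stab (kap 4 4) := by
  obtain ⟨g, hg⟩ : ∃ g, g = fun w => ENNReal.ofReal (h0 w) := ⟨_, rfl⟩
  have hm : Measurable g := hg ▸ h0_meas.ennreal_ofReal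
  have hg1 : ∀ w, g w ≤ 1 := fun w => hg ▸ ENNReal.ofReal_le_one.2 (h0_bd w).2
  have hK := fun w => hg ▸ K_ofReal (r := 4) (s := 4) h0_meas (fun x => (h0_bd x).1) w
  have h1 : ∀ w, sm (kap 4 4) 0 g w ≤ 1 := fun w => by
    refine (lintegral_mono (g := fun _ => 1) fun τ => ?_).trans_eq (by simp)
    rw [zero_mul, E_zero, one_mul]
    exact (lintegral_mono (g := fun _ => 1) fun m => hg1 _).trans_eq (by simp)
  have h2 : ∀ w, sm (kap 4 4) 0 g w ≤ g w := fun w => by
    rw [show g w = ENNReal.ofReal (h0 w) by rw [hg], h0]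
    split_ifs with hw
    · rw [ENNReal.ofReal_min, ENNReal.ofReal_one]
      refine le_min (h1 w) ((lintegral_mono (g := fun τ => ENNReal.ofReal ((1 - 3035 / 10 ^ 9) * HB w)
        * E (-(-(3 / 10 ^ 6) * τ))) fun τ => ?_).trans ?_)
      · have p := HB_pos w
        beta_reduce
        rw [zero_mul, E_zero, one_mul, hK, show -(-(3 / 10 ^ 6) * τ) = 3 * τ / 10 ^ 6 by ring,
          ← ofReal_e, ← ENNReal.ofReal_mul (by positivity)]
        exact ENNReal.ofReal_le_ofReal (Jh0 hw τ)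
      · have p := HB_pos w
        rw [lintegral_const_mul _ (by fun_prop), lap (by norm_num),
          ← ENNReal.ofReal_mul (by positivity)]
        refine ENNReal.ofReal_le_ofReal ?_
        norm_num
        linarith
    · simpa using h1 w
  refine not_stab _ (sm_meas _ 0 hm) h1 (fun t ht w => by
    simpa using sm_drift (kap 4 4) le_rfl one_pos hm (C := 0) (C' := 0) (by simpa using h2)
      (by simp) ht w) ((Pt_mono _ h2 _ _).trans_lt (lt_of_lt_of_le (b := 1) ?_ ?_))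
  · have h3 := Pt_add (kap 4 4) hm ff 1 0
    simp only [hg, ff, add_tsub_cancel_of_le (hg ▸ hg1 _ :), Pt_const] at h3
    rw [h3, hg]
    exact ENNReal.lt_add_right (ne_top_of_le_ne_top ENNReal.one_ne_top (h3 ▸ le_self_add)) pos_zero
  · refine le_trans (by simp) (lintegral_mono_ae (f := fun _ => 1) ?_)
    filter_upwards [ex_nonneg] with τ hτ
    rw [zero_mul, E_zero, one_mul, hK, show drain 0 τ = 0 from funext fun i => by simp [drain, hτ.le],
      J_eq]
    simp [h0, La, ups]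
    norm_num

end Pool.Agent.H44.JS
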