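import Mathlib

/-! The three-server cyclic system with join-the-smaller-workload routing. -/

open MeasureTheory ProbabilityTheory Filter Topology
open scoped BoundedContinuousFunction

namespace Pool.Agent.H44.JS

/-- workload vectors; servers are `0, 1, 2` -/
abbrev St : Type := Fin 3 → ℝ

/-- a customer: class, service time if it goes left, service time if it goes right -/
abbrev Mk : Type := Fin 3 × ℝ × ℝ

/-- the workloads after time `t` without arrivals -/
def drain (w : St) (t : ℝ) : St := fun i => max (w i - t) 0

/-- class `c` joins its left server `c` or its right server `c + 1`, whichever has the smaller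
workload; ties go left -/
noncomputable def job (w : St) (m : Mk) : St :=
  if w m.1 ≤ w (m.1 + 1) then Function.update w m.1 (w m.1 + m.2.1)
  else Function.update w (m.1 + 1) (w (m.1 + 1) + m.2.2)

/-- the workloads just after the `n`-th arrival; `(ω n).1` are the interarrival times -/
noncomputable def Z (w : St) (ω : ℕ → ℝ × Mk) : ℕ → St
  | 0 => w
  | n + 1 => job (drain (Z w ω n) (ω n).1) (ω n).2

/-- the `n`-th arrival time -/
def T (ω : ℕ → ℝ × Mk) (n : ℕ) : ℝ := ∑ i ∈ Finset.range n, (ω i).1

/-- the number of arrivals up to time `t` -/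
noncomputable def N (ω : ℕ → ℝ × Mk) (t : ℝ) : ℕ := sInf {n | t < T ω (n + 1)}

/-- the workload vector at time `t` started from `w` -/
noncomputable def W (w : St) (t : ℝ) (ω : ℕ → ℝ × Mk) : St :=
  drain (Z w ω (N ω t)) (t - T ω (N ω t))

/-- i.i.d. customers: exponential interarrival time, uniform class, independent service times -/
noncomputable def law (lam : ℝ) (Fl Fr : Measure ℝ) : Measure (ℕ → ℝ × Mk) :=
  Measure.infinitePi fun _ => (expMeasure lam).prod ((uniformOn Set.univ).prod (Fl.prod Fr))

/-- the law of `W(t)` converges weakly to a probability measure on the nonnegative orthant -/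
def Stable (lam : ℝ) (Fl Fr : Measure ℝ) (w : St) : Prop :=
  ∃ ν : Measure St, IsProbabilityMeasure ν ∧ ν {x | ∀ i, 0 ≤ x i} = 1 ∧
    ∀ f : St →ᵇ ℝ, Tendsto (fun t : ℝ => ∫ ω, f (W w t ω) ∂law lam Fl Fr) atTop (𝓝 (∫ x, f x ∂ν))

end Pool.Agent.H44.JS
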