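import Pool.Agent.H44.JS4

/-! Correctors for left service two units and right service one unit. -/

namespace Pool.Agent.H44.JS

def tC : ℕ := 4513200020002000200020002000200020002000200027204698200020002000200020002000200020002000200024194357280423172727200020002000200020002000245331985256409144322743200020002000200020002000312245176334610845003383247528002606200020002115393855357952569442752747200020002000200020002095411163125953391821582000200020002000200020002616524843884372204420002000200020002000200020004347329431992391200020002000200020002000200036932408228920002000200020002000200020002000317420002000200020002000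

def tD : ℕ := 563868547000700070007000700070007000700053386249686870007000700070007000700069475419557963137000700070007000700070005934443947355916693370007000700070006316476536614459542553475643700070006954558644674736558562546859700070007000648854286001631769007000700070007000700060177000700070007000700070007000700065347000700070007000

def GC (x y : ℤ) : ℤ :=
  1746 * (x + y) + 1940 * max (max x y) 0 - 1358 * min (min x y) 0 + hh 5 tC x y

def GD (x y : ℤ) : ℤ :=
  2328 * (x + y) - 2134 * max (max x y) 0 + 970 * min (min x y) 0 + hh 4 tD x y

def okC (x y : ℤ) : Prop := ∀ p : Bool, (if p then x ≤ y else y ≤ x) →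
  (if p then GC (x + 2) y else GC x (y + 1)) +
  (if y ≤ 0 then GC x (y + 2) else GC (x - 1) (y - 1) + 5820) +
  (if 0 < x then GC (x - 2) (y - 2) + 11640 else GC (x + 1) y) ≤ 3 * GC x y + 9060

def okD (x y : ℤ) : Prop :=
  3 * GD x y + 9120 ≤ (if x ≤ y then GD (x + 2) y else GD x (y + 1)) +
    (if y ≤ 0 then GD x (y + 2) else GD (x - 1) (y - 1) + 5820) +
    (if 0 ≤ x then GD (x - 2) (y - 2) + 11640 else GD (x + 1) y)

instance (x y : ℤ) : Decidable (okC x y) := by unfold okC; infer_instance

instance (x y : ℤ) : Decidable (okD x y) := by unfold okD; infer_instance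

lemma boxC : ∀ i < 15, ∀ j < 15, okC ((i : ℕ) - 7) ((j : ℕ) - 7) := by decide +kernel

lemma boxD : ∀ i < 13, ∀ j < 13, okD ((i : ℕ) - 6) ((j : ℕ) - 6) := by decide +kernel

theorem allC (x y : ℤ) : okC x y := by
  by_cases h : -7 ≤ x ∧ x ≤ 7 ∧ -7 ≤ y ∧ y ≤ 7
  · have := boxC (x + 7).toNat (by omega) (y + 7).toNat (by omega)
    rwa [show ((x + 7).toNat : ℤ) - 7 = x by omega, show ((y + 7).toNat : ℤ) - 7 = y by omega] at this
  · intro p hp
    unfold GC
    simp (disch := omega) only [hh_zero]
    have h0 := iso (x := x) (y := y) (d := 2) (by omega)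
    clear h
    obtain ⟨_, _, _, _, _, _⟩ := bd3 x y 1 (by norm_num)
    obtain ⟨_, _, _, _, _, _⟩ := bd3 x y 2 (by norm_num)
    rcases h0 with h0 | h0 <;> rcases h0 with ⟨h1, h2⟩ | ⟨h1, h2⟩ | ⟨h1, h2⟩ <;> split_ifs at hp ⊢
    all_goals
      try have := (bd4 x y 1 (by norm_num)).1 (by linarith only [h1])
      try have := (bd4 x y 1 (by norm_num)).2.1 (by linarith only [h1])
      try have := (bd4 x y 1 (by norm_num)).2.2 (by linarith only [h1])
      try have := (bd4 x y 2 (by norm_num)).1 (by linarith only [h1])
      try have := (bd4 x y 2 (by norm_num)).2.1 (by linarith only [h1])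
      try have := (bd4 x y 2 (by norm_num)).2.2 (by linarith only [h1])
      first | linarith |
        (simp (disch := with_unfolding_all linarith only [h1, h2]) only [n1, n2, n3]; linarith) |
        (simp (disch := with_unfolding_all linarith only [h1, h2]) only [m1, m2, m3]; linarith)

theorem allD (x y : ℤ) : okD x y := by
  by_cases h : -6 ≤ x ∧ x ≤ 6 ∧ -6 ≤ y ∧ y ≤ 6
  · have := boxD (x + 6).toNat (by omega) (y + 6).toNat (by omega)
    rwa [show ((x + 6).toNat : ℤ) - 6 = x by omega, show ((y + 6).toNat : ℤ) - 6 = y by omega] at this
  · unfold okD GD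
    simp (disch := omega) only [hh_zero]
    have h0 := iso (x := x) (y := y) (d := 2) (by omega)
    clear h
    obtain ⟨_, _, _, _, _, _⟩ := bd3 x y 1 (by norm_num)
    obtain ⟨_, _, _, _, _, _⟩ := bd3 x y 2 (by norm_num)
    rcases h0 with h0 | h0 <;> rcases h0 with ⟨h1, h2⟩ | ⟨h1, h2⟩ | ⟨h1, h2⟩ <;> split_ifs
    all_goals
      try have := (bd4 x y 1 (by norm_num)).1 (by linarith only [h1])
      try have := (bd4 x y 1 (by norm_num)).2.1 (by linarith only [h1])
      try have := (bd4 x y 1 (by norm_num)).2.2 (by linarith only [h1])
      try have := (bd4 x y 2 (by norm_num)).1 (by linarith only [h1])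
      try have := (bd4 x y 2 (by norm_num)).2.1 (by linarith only [h1])
      try have := (bd4 x y 2 (by norm_num)).2.2 (by linarith only [h1])
      first | linarith |
        (simp (disch := with_unfolding_all linarith only [h1, h2]) only [n1, n2, n3]; linarith) |
        (simp (disch := with_unfolding_all linarith only [h1, h2]) only [m1, m2, m3]; linarith)

end Pool.Agent.H44.JS
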