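import Pool.Agent.H44.JS7
import Pool.Agent.H44.JT1

/-! The convergence theorem with a drift function that may be infinite. -/

open Set MeasureTheory ProbabilityTheory Filter Topology Measure
open scoped ENNReal NNReal BoundedContinuousFunction

namespace Pool.Agent.H44.JS

variable (κ : Measure Mk) [IsProbabilityMeasure κ] {f g : St → ℝ≥0∞}

lemma contr' {U : St → ℝ≥0∞} (hU : Measurable U) (hU' : U 0 ≠ ∞) {K e b : ℝ≥0}
    (he0 : 0 < e) (he : e ≤ 1) (hb : 2 * b * K = e) {t : ℝ} (h1 : ∀ x, Pt κ U t x ≤ (1 / 2 : ℝ≥0) * U x + K)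
    (h2 : ∀ x, U x < 8 * K → ∀ g, Measurable g → e * g 0 ≤ Pt κ g t x)
    (hf : Measurable f) (hf1 : ∀ x, f x ≤ 1) {c : ℝ≥0} (hc : c ≠ 0) (h : D U b f c) :
    D U b (Pt κ f t) ((1 - e / 8) * c : ℝ≥0) := by
  intro x y
  have hb1 : (b : ℝ≥0∞) ≠ 0 := by
    rintro h0
    rw [ENNReal.coe_eq_zero.1 h0] at hb
    simp [← hb] at he0
  have hc1 : (((1 - e / 8) * c : ℝ≥0) : ℝ≥0∞) ≠ 0 := ENNReal.coe_ne_zero.2 (mul_ne_zero
    (tsub_pos_of_lt ((div_lt_self he0 (by norm_num)).trans_le he)).ne' hc)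
  rcases eq_or_ne (U x) ∞ with hx' | hx'
  · rw [hx', ENNReal.mul_top hb1, _root_.add_top, _root_.top_add, ENNReal.mul_top hc1, _root_.add_top]
    exact le_top
  rcases eq_or_ne (U y) ∞ with hy' | hy'
  · rw [hy', ENNReal.mul_top hb1, _root_.add_top, ENNReal.mul_top hc1, _root_.add_top]
    exact le_top
  have hb0 : b * U 0 ≠ ∞ := ENNReal.mul_ne_top ENNReal.coe_ne_top hU'
  have key : ∀ e' : ℝ≥0, (∀ g, Measurable g → e' * g 0 ≤ Pt κ g t x) →
      (∀ g, Measurable g → e' * g 0 ≤ Pt κ g t y) → (e' = e ∨ 8 * K ≤ U x + U y) →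
      Pt κ f t x ≤ Pt κ f t y + ((1 - e / 8) * c : ℝ≥0) * (2 + b * U x + b * U y) := by
    intro e' hx hy h3
    rw [← ENNReal.add_le_add_iff_right (a := e' * (2 * c)) (by finiteness), add_assoc]
    refine (contr0 κ hU hf hf1 ENNReal.coe_ne_top hb0 h hx hy).trans (add_le_add le_rfl ?_)
    refine (mul_le_mul' le_rfl (add_le_add (add_le_add le_rfl (mul_le_mul' le_rfl (h1 x)))
      (mul_le_mul' le_rfl (h1 y)))).trans ?_
    lift U x to ℝ≥0 using hx' with u
    lift U y to ℝ≥0 using hy' with v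
    have h8 : e / 8 ≤ 1 := (div_le_self (zero_le) (by norm_num)).trans he
    norm_cast at h3 ⊢
    rw [← NNReal.coe_le_coe] at he ⊢
    rw [← NNReal.coe_inj] at hb
    push_cast [NNReal.coe_sub h8] at hb ⊢
    have h4 : (2 + b * (1 / 2 * u + K) + b * (1 / 2 * v + K) : ℝ) ≤
        (1 - e / 8) * (2 + b * u + b * v) + e' * 2 := by
      have h5 : (0 : ℝ) ≤ b * (u + v) := by positivity
      have h6 : (0 : ℝ) ≤ (1 - e) * (b * (u + v)) := mul_nonneg (by simpa using he) h5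
      rcases h3 with rfl | h3
      · nlinarith [e'.2]
      · rw [← NNReal.coe_le_coe] at h3
        push_cast at h3
        nlinarith [e'.2, mul_le_mul_of_nonneg_left h3 b.2]
    nlinarith [mul_le_mul_of_nonneg_left h4 c.2]
  rcases lt_or_ge (U x + U y) (8 * K) with h3 | h3
  · exact key e (h2 x (le_self_add.trans_lt h3)) (h2 y (le_add_self.trans_lt h3)) (Or.inl rfl)
  · exact key 0 (by simp) (by simp) (Or.inr h3)

theorem harris' {U : St → ℝ≥0∞} (hU : Measurable U) (hU' : U 0 ≠ ∞) {K : ℝ≥0} (hK : 0 < K)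
    {t : ℝ} (ht : 0 < t) (h1 : ∀ x, Pt κ U t x ≤ (1 / 2 : ℝ≥0) * U x + K)
    (h0 : ∀ r ∈ Icc 0 t, Pt κ U r 0 ≤ U 0 + K) (h2 : ∀ x, U x < 8 * K → ∀ i, x i ≤ t) :
    ∃ ν : Measure St, ∀ A, MeasurableSet A → Tendsto (fun t => mu κ t 0 A) atTop (𝓝 (ν A)) := by
  obtain ⟨e, he⟩ : ∃ e : ℝ≥0, e = (Real.exp (-(99 / 100 * t))).toNNReal := ⟨_, rfl⟩
  have he0 : 0 < e := he ▸ Real.toNNReal_pos.2 (Real.exp_pos _)
  have he1 : e ≤ 1 := he ▸ Real.toNNReal_le_one.2 (Real.exp_le_one_iff.2 (by linarith))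
  obtain ⟨b, hb⟩ : ∃ b : ℝ≥0, 2 * b * K = e := ⟨e / (2 * K), by field_simp⟩
  have hB : ∀ j : ℕ, ∀ r ∈ Icc 0 ((j + 1) * t), Pt κ U r 0 ≤ U 0 + 2 * K := by
    intro j
    induction j with
    | zero =>
      exact fun r hr => (h0 r (by simpa using hr)).trans
        (add_le_add le_rfl (le_mul_of_one_le_left' one_le_two))
    | succ j ih =>
      intro r hr
      rcases le_total r t with h | h
      · exact ih r ⟨hr.1, h.trans (le_mul_of_one_le_left ht.le (by simp))⟩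
      · rw [← sub_add_cancel r t, semi κ hU ht.le (sub_nonneg.2 h)]
        refine (Pt_mono κ h1 _ _).trans ?_
        rw [Pt_add κ (by fun_prop), Pt_mul κ hU, Pt_const]
        refine (add_le_add (mul_le_mul' le_rfl (ih _ ⟨sub_nonneg.2 h, by
          have := hr.2; push_cast at this; linarith⟩)) le_rfl).trans ?_
        lift U 0 to ℝ≥0 using hU' with u
        norm_cast
        rw [← NNReal.coe_le_coe]
        push_cast
        linarith [u.2]
  have hB' : ∀ r, 0 ≤ r → Pt κ U r 0 ≤ U 0 + 2 * K := fun r hr => hB ⌈r / t⌉₊ r ⟨hr, by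
    rw [← div_le_iff₀ ht]; linarith [Nat.le_ceil (r / t)]⟩
  have hD : ∀ A, MeasurableSet A → ∀ n : ℕ, D U b (Pt κ (A.indicator 1) (n * t))
      ((1 - e / 8) ^ (n - 1) : ℝ≥0) := by
    intro A hA n
    have hA1 : ∀ s x, Pt κ (A.indicator 1) s x ≤ 1 := fun s x => mu_eq κ hA s x ▸ prob_le_one
    have h00 : ∀ s, D U b (Pt κ (A.indicator 1) s) (1 : ℝ≥0) := fun s x y =>
      (hA1 _ _).trans (le_add_left (by
        rw [ENNReal.coe_one, one_mul, add_assoc]; exact one_le_two.trans le_self_add))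
    induction n with
    | zero => exact h00 _
    | succ n ih =>
      rcases n with _ | n
      · exact h00 _
      · have := contr' κ hU hU' he0 he1 hb h1 (fun x hx g hg => by
          rw [he]; exact minor κ hg ht.le (h2 x hx)) (f := Pt κ (A.indicator 1) ((n + 1 : ℕ) * t))
          (Pt_meas κ (measurable_one.indicator hA) measurable_id measurable_const) (hA1 _)
          (pow_ne_zero _ (tsub_pos_of_lt ((div_lt_self he0 (by norm_num)).trans_le he1)).ne') ih
        intro x y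
        have h3 := this x y
        rw [← semi κ (measurable_one.indicator hA) (by positivity) ht.le,
          ← semi κ (measurable_one.indicator hA) (by positivity) ht.le] at h3
        rw [show ((n + 1 + 1 : ℕ) : ℝ) * t = t + (n + 1 : ℕ) * t by push_cast; ring,
          Nat.add_sub_cancel, pow_succ']
        exact h3
  refine limit _ fun δ hδ => ?_
  obtain ⟨B, hB⟩ : ∃ B, B = 2 + b * (U 0 + 2 * K) + b * (U 0 + 2 * K) := ⟨_, rfl⟩
  have hBt : B ≠ ∞ := by have := hU'; rw [hB]; finiteness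
  have hl : ((1 - e / 8 : ℝ≥0) : ℝ≥0∞) < 1 := by
    exact_mod_cast tsub_lt_self one_pos (by positivity)
  have := ENNReal.Tendsto.mul_const (ENNReal.tendsto_pow_atTop_nhds_zero_of_lt_one hl) (Or.inr hBt)
  rw [zero_mul] at this
  obtain ⟨n, hn⟩ := (this.eventually (ge_mem_nhds hδ)).exists
  refine ⟨(n + 1 : ℕ) * t, fun s hs r hr A hA => ?_⟩
  have hA' := measurable_one.indicator (β := ℝ≥0∞) hA
  have hm := Pt_meas κ hA' measurable_id (measurable_const (a := ((n + 1 : ℕ) : ℝ) * t))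
  rw [mu_eq κ hA, mu_eq κ hA, ← sub_add_cancel s ((n + 1 : ℕ) * t), ← sub_add_cancel r
    ((n + 1 : ℕ) * t), semi κ hA' (by positivity) (sub_nonneg.2 hs),
    semi κ hA' (by positivity) (sub_nonneg.2 hr)]
  have h4 := hD A hA (n + 1)
  rw [Nat.add_sub_cancel, ENNReal.coe_pow] at h4
  generalize ((1 - e / 8 : ℝ≥0) : ℝ≥0∞) ^ n = c at h4 hn
  have h5 := hB' _ (sub_nonneg.2 hs)
  have h6 := hB' _ (sub_nonneg.2 hr)
  generalize s - (n + 1 : ℕ) * t = s at h5 ⊢
  generalize r - (n + 1 : ℕ) * t = r at h6 ⊢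
  change Measurable (Pt κ (A.indicator 1) ((n + 1 : ℕ) * t)) at hm
  generalize Pt κ (A.indicator 1) ((n + 1 : ℕ) * t) = F at hm h4 ⊢
  have h7 : ∀ y, Pt κ F s 0 ≤ F y + (c * (2 + b * (U 0 + 2 * K)) + c * b * U y) := fun y => by
    refine (Pt_mono κ (g := fun x => F y + c * (2 + b * U y) + c * b * U x)
      (fun x => (h4 x y).trans_eq (by ring)) _ _).trans ?_
    rw [Pt_add κ measurable_const, Pt_const, Pt_mul κ hU]
    exact (add_le_add le_rfl (mul_le_mul' le_rfl h5)).trans_eq (by ring)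
  refine (Pt_const κ _ r 0).symm.trans_le ((Pt_mono κ h7 _ _).trans ?_)
  rw [Pt_add κ hm, Pt_add κ measurable_const, Pt_const, Pt_mul κ hU]
  refine add_le_add le_rfl (le_trans ?_ hn)
  exact (add_le_add le_rfl (mul_le_mul' le_rfl h6)).trans_eq (by rw [hB]; ring)

theorem not_stab' {w : St} {c : ℝ≥0∞} (hc : c < 1) (h : ∀ M : ℕ, ∃ F : ℝ → ℝ≥0∞,
    Tendsto F atTop (𝓝 c) ∧ ∀ t, 0 ≤ t → mu κ t w {x | ∀ i, x i < M} ≤ F t) {ν : Measure St}
    [hν : IsProbabilityMeasure ν] (hf : ∀ f : St →ᵇ ℝ,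
      Tendsto (fun t : ℝ => ∫ ω, f (W w t ω) ∂PP κ) atTop (𝓝 (∫ x, f x ∂ν))) : False := by
  have h4 : Tendsto (β := ProbabilityMeasure St) (fun t => ⟨mu κ t w, inferInstance⟩) atTop
      (𝓝 ⟨ν, hν⟩) := ProbabilityMeasure.tendsto_iff_forall_integral_tendsto.2 fun f =>
    (hf f).congr fun t => (integral_map (Measurable.aemeasurable (by fun_prop))
      f.continuous.aestronglyMeasurable).symm
  have h1 : ∀ M : ℕ, ν {x | ∀ i, x i < M} ≤ c := fun M => by
    obtain ⟨F, h2, h3⟩ := h M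
    have hO : IsOpen {x : St | ∀ i, x i < M} := by
      rw [ofPred_forall]
      exact isOpen_iInter_of_finite fun i => isOpen_lt (continuous_apply i) continuous_const
    refine (ProbabilityMeasure.le_liminf_measure_open_of_tendsto h4 hO).trans
      (h2.liminf_eq ▸ liminf_le_liminf ?_)
    filter_upwards [eventually_ge_atTop 0] with t ht using h3 t ht
  have h2 := Monotone.measure_iUnion (μ := ν) (s := fun M : ℕ => {x : St | ∀ i, x i < M})
    fun a b hab x hx i => (hx i).trans_le (Nat.cast_le.2 hab)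
  rw [eq_univ_of_forall (s := ⋃ M : ℕ, _) fun x => ?_, measure_univ] at h2
  · exact hc.not_ge (h2 ▸ iSup_le h1)
  · obtain ⟨M, hM⟩ := exists_nat_gt ‖x‖
    exact mem_iUnion.2 ⟨M, fun i => ((le_abs_self _).trans (norm_le_pi_norm x i)).trans_lt hM⟩

instance : NullSingletonClass ex := by unfold ex expMeasure gammaMeasure; infer_instance

lemma ex_gen (u : ℝ) (w : St) : ∀ᵐ τ ∂ex, 0 < τ ∧ ∀ i, ∀ n : ℤ, w i - τ ≠ u * n := by
  refine ex_nonneg.and (ae_all_iff.2 fun i => ae_all_iff.2 fun n => ?_)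
  filter_upwards [compl_mem_ae_iff.2 (measure_singleton (μ := ex) (w i - u * n))] with τ h h'
  exact h (by rw [← h']; simp)

end Pool.Agent.H44.JS
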