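import Pool.Agent.H44.JT2

/-! Deterministic service times `3.88` (left) and `1.94` (right): stability from `0`. -/

open Set MeasureTheory ProbabilityTheory Filter Topology Measure
open scoped ENNReal NNReal

namespace Pool.Agent.H44.JS

variable {w : St}

noncomputable def kq : Measure Mk := (uniformOn univ).prod ((dirac (97 / 25)).prod (dirac (97 / 50)))

instance : IsProbabilityMeasure kq := by unfold kq; infer_instance

noncomputable def jb (w : St) (c : Fin 3) : St := job w (c, 97 / 25, 97 / 50)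

noncomputable def J3 (g : St → ℝ) (w : St) : ℝ := (∑ c, g (jb w c)) / 3

lemma K_le {g : St → ℝ≥0∞} (hg : Measurable g) {g' : St → ℝ} (h0 : ∀ x, 0 ≤ g' x)
    (h : ∀ c, g (jb w c) ≤ ENNReal.ofReal (g' (jb w c))) : K kq g w ≤ ENNReal.ofReal (J3 g' w) := by
  rw [K, kq, lintegral_prod _ (Measurable.aemeasurable (by fun_prop)), lintegral_fintype, J3,
    ENNReal.ofReal_div_of_pos (by norm_num), ENNReal.ofReal_sum_of_nonneg fun c _ => h0 _,
    div_eq_mul_inv (G := ℝ≥0∞), Finset.sum_mul]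
  refine Finset.sum_le_sum fun c _ => ?_
  rw [dirac_prod_dirac, lintegral_dirac, uniformOn_univ, count_singleton]
  exact mul_le_mul' (h c) (by simp)

lemma le_K {g : St → ℝ≥0∞} (hg : Measurable g) {a : ℝ≥0∞} (h : ∀ c, a ≤ g (jb w c)) :
    a ≤ K kq g w := by
  rw [K, kq, lintegral_prod _ (Measurable.aemeasurable (by fun_prop))]
  refine le_trans (by simp) (lintegral_mono (f := fun _ => a) fun c => ?_)
  rw [dirac_prod_dirac, lintegral_dirac]
  exact h c

lemma J3_eq (g : St → ℝ) : J3 g w =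
    ((if w 0 ≤ w 1 then g (up w 0 (97 / 25)) else g (up w 1 (97 / 50))) +
    (if w 1 ≤ w 2 then g (up w 1 (97 / 25)) else g (up w 2 (97 / 50))) +
    (if w 2 ≤ w 0 then g (up w 2 (97 / 25)) else g (up w 0 (97 / 50)))) / 3 := by
  simp only [J3, jb, Fin.sum_univ_three, job, up, show (0 : Fin 3) + 1 = 1 from rfl,
    show (1 : Fin 3) + 1 = 2 from rfl, show (2 : Fin 3) + 1 = 0 from rfl]
  split_ifs <;> rfl

lemma jb_eq (w : St) (c : Fin 3) : ∃ i s, ∃ k : ℤ, s = 97 / 50 * (k : ℝ) ∧ s ∈ Icc (0 : ℝ) 5 ∧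
    jb w c = up w i s := by
  unfold jb job
  split_ifs
  · exact ⟨c, _, 2, by norm_num, by norm_num, rfl⟩
  · exact ⟨c + 1, _, 1, by norm_num, by norm_num, rfl⟩

lemma jb_bd (w : St) (c : Fin 3) : ∃ s ∈ Icc (0 : ℝ) 5, su (jb w c) = su w + s ∧
    mx w ≤ mx (jb w c) ∧ mx (jb w c) ≤ mx w + s ∧ mn w ≤ mn (jb w c) ∧ mn (jb w c) ≤ mn w + s := by
  obtain ⟨i, s, k, -, h, h'⟩ := jb_eq w c
  exact ⟨s, h, h' ▸ up_bd w i h.1⟩

lemma J3_bd {V : St → ℝ} {d : ℝ} (h : ∀ c, V (jb w c) ≤ d) : J3 V w ≤ d := by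
  rw [J3, Fin.sum_univ_three]
  linarith [h 0, h 1, h 2]

lemma J3_lin (a b c : ℝ) (f g h : St → ℝ) : J3 (fun x => a * f x + b * g x + c * h x) w =
    a * J3 f w + b * J3 g w + c * J3 h w := by
  simp only [J3, Fin.sum_univ_three]; ring

lemma expJ3 {V : St → ℝ} {d : ℝ} (h1 : ∀ c, |V (jb w c) - V w| ≤ 31) (h2 : J3 V w ≤ V w + d) :
    J3 (fun x => e (V x)) w ≤ (1 + (d + 1 / 1000) / 10 ^ 6) * e (V w) := by
  have h : ∀ c, e (V (jb w c)) ≤ e (V w) * (1 + (V (jb w c) - V w + 1 / 1000) / 10 ^ 6) := fun c => by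
    have := mul_le_mul_of_nonneg_left (e_le (h1 c)) (e_pos (V w)).le
    rwa [← e_add, add_sub_cancel] at this
  simp only [J3, Fin.sum_univ_three] at h2 ⊢
  nlinarith [mul_le_mul_of_nonneg_left h2 (e_pos (V w)).le, h 0, h 1, h 2]

lemma C2 (h : mn w + 5 ≤ su w - mx w - mn w) :
    J3 (fun x => 3 / 2 * (su x - mn x)) w ≤ 3 / 2 * (su w - mn w) + 5 / 2 := by
  rw [J3_eq]
  simp only [su, mn, ups]
  rcases argmin h with ⟨h1, h2⟩ | ⟨h1, h2⟩ | ⟨h1, h2⟩ <;> split_ifs <;> first | linarith |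
    (simp (disch := with_unfolding_all linarith only [h1, h2]) only [n1, n2, n3]; linarith)

lemma C3 (h : su w - mx w - mn w + 5 ≤ mx w) : J3 (fun x => 3 * mx x) w ≤ 3 * mx w + 0 := by
  rw [J3_eq]
  simp only [mx, ups]
  rcases argmax h with ⟨h1, h2⟩ | ⟨h1, h2⟩ | ⟨h1, h2⟩ <;> split_ifs <;> first | linarith |
    (simp (disch := with_unfolding_all linarith only [h1, h2]) only [m1, m2, m3]; linarith)

def Gen (w : St) : Prop := ∀ n : ℤ, w 0 - w 2 ≠ 97 / 50 * n

def Sg (w : St) : Prop := Gen w ∨ w 0 ≤ 0 ∨ w 2 ≤ 0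

lemma Sg_meas : MeasurableSet {w | Sg w} := by unfold Sg Gen; measurability

lemma Sg_drain (h : Sg w) {τ : ℝ} (h0 : 0 < τ) (h1 : ∀ i, ∀ n : ℤ, w i - τ ≠ 97 / 50 * n) :
    Gen (drain w τ) ∨ (drain w τ 0 = 0 ∧ drain w τ 2 = 0 ∧ mn w ≤ τ) := by
  simp only [Gen, drain]
  rcases le_or_gt (w 0) τ with a | a <;> rcases le_or_gt (w 2) τ with b | b
  · exact .inr ⟨max_eq_right (by linarith), max_eq_right (by linarith), (le_mx w 0).1.trans a⟩
  · rw [max_eq_right (by linarith), max_eq_left (by linarith)]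
    exact .inl fun n hn => h1 2 (-n) (by push_cast; linarith)
  · rw [max_eq_left (by linarith), max_eq_right (by linarith)]
    exact .inl fun n hn => h1 0 n (by linarith)
  · rw [max_eq_left (by linarith), max_eq_left (by linarith)]
    rcases h with h | h | h
    · exact .inl fun n hn => h n (by linarith)
    · linarith
    · linarith

lemma Sg_jb (h : Gen w ∨ (w 0 = 0 ∧ w 2 = 0)) (c : Fin 3) : Sg (jb w c) := by
  obtain ⟨i, s, k, hs, -, h'⟩ := jb_eq w c
  have : i = 0 ∨ i = 1 ∨ i = 2 := by omega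
  rw [h']
  rcases h with h | ⟨h1, h2⟩
  · refine .inl fun n hn => ?_
    rcases this with rfl | rfl | rfl <;> simp only [ups] at hn
    · exact h (n - k) (by push_cast; linarith)
    · exact h n hn
    · exact h (n + k) (by push_cast; linarith)
  · rcases this with rfl | rfl | rfl <;> simp [Sg, ups, h1, h2]

noncomputable def VC : St → ℝ := VV (97 / 50) GC

lemma VC_bd (w : St) : 9 / 10 * su w + mx w - 7 / 10 * mn w - 7 ≤ VC w ∧
    VC w ≤ 9 / 10 * su w + mx w - 7 / 10 * mn w + 11 := by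
  obtain ⟨⟨_, _⟩, ⟨_, _⟩, ⟨_, _⟩, _, _⟩ := ceil_bd w (u := 97 / 50) (by norm_num) rfl rfl
  obtain ⟨h1, h2⟩ := hh_bd 5 tC ⌈(w 0 - w 2) / (97 / 50)⌉ ⌈(w 1 - w 2) / (97 / 50)⌉
  rw [← Int.cast_le (R := ℝ)] at h1 h2
  simp only [VC, VV, GC, su]
  push_cast at h1 h2 ⊢
  constructor <;> linarith

lemma C1 (hw : Gen w) : J3 VC w ≤ VC w + 302 / 100 := by
  have u0 : (0 : ℝ) < 97 / 50 := by norm_num
  have h1 : if decide (w 0 ≤ w 1) then ⌈(w 0 - w 2) / (97 / 50)⌉ ≤ ⌈(w 1 - w 2) / (97 / 50)⌉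
      else ⌈(w 1 - w 2) / (97 / 50)⌉ ≤ ⌈(w 0 - w 2) / (97 / 50)⌉ := by
    split_ifs with h <;> simp only [decide_eq_true_eq] at h <;> exact Int.ceil_mono (by linarith)
  have h2 : 0 < ⌈(w 0 - w 2) / (97 / 50)⌉ ↔ w 2 ≤ w 0 := by
    rw [Int.ceil_pos, div_pos_iff_of_pos_right u0]
    exact ⟨fun h => by linarith, fun h => (sub_nonneg.2 h).lt_of_ne' (by simpa using hw 0)⟩
  have h3 : ⌈(w 1 - w 2) / (97 / 50)⌉ ≤ 0 ↔ w 1 ≤ w 2 := by
    rw [Int.ceil_nonpos]
    constructor <;> intro <;> linarith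
  have h := allC _ _ _ h1
  rw [← Int.cast_le (R := ℝ)] at h
  rw [J3_eq, VC]
  simp only [VV_up (s := 97 / 25) u0.ne' GC 2 (by norm_num), VV_up (s := 97 / 50) u0.ne' GC 1
    (by norm_num)]
  simp only [decide_eq_true_eq, h2, h3] at h
  rw [VV]
  split_ifs at h ⊢ <;> push_cast at h <;> linarith

noncomputable def UC (w : St) : ℝ :=
  1 * e (VC w) + 1 / 10 ^ 5 * e (3 / 2 * (su w - mn w)) + 1 / 10 ^ 10 * e (3 * mx w)

lemma UC_pos (w : St) : 0 < UC w := by unfold UC e; positivity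

lemma UC_meas : Measurable UC := by unfold UC VC; fun_prop

lemma JUC (w : St) : J3 UC w ≤ (1 + 3024 / 10 ^ 9) * (UC w + e (VC w)) ∧
    (Gen w → J3 UC w ≤ (1 + 3024 / 10 ^ 9) * UC w) := by
  obtain ⟨b1, b2⟩ := VC_bd w
  obtain ⟨b3, b4⟩ := mid_bd w
  have b5 : ∀ c, |VC (jb w c) - VC w| ≤ 31 := fun c => by
    obtain ⟨s, ⟨_, _⟩, _, _, _, _, _⟩ := jb_bd w c
    obtain ⟨_, _⟩ := VC_bd (jb w c)
    exact abs_le.2 ⟨by linarith, by linarith⟩
  have e2 := fun d => expJ3 (V := fun x => 3 / 2 * (su x - mn x)) (w := w) (d := d) fun c => by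
    obtain ⟨s, ⟨_, _⟩, _, _, _, _, _⟩ := jb_bd w c
    exact abs_le.2 ⟨by linarith, by linarith⟩
  have e3 := fun d => expJ3 (V := fun x => 3 * mx x) (w := w) (d := d) fun c => by
    obtain ⟨s, ⟨_, _⟩, _, _, _, _, _⟩ := jb_bd w c
    exact abs_le.2 ⟨by linarith, by linarith⟩
  have f2 := e2 8 (J3_bd fun c => by
    obtain ⟨s, ⟨_, _⟩, _, _, _, _, _⟩ := jb_bd w c
    linarith)
  have f3 := e3 15 (J3_bd fun c => by
    obtain ⟨s, ⟨_, _⟩, _, _, _, _, _⟩ := jb_bd w c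
    linarith)
  have p1 := e_pos (VC w)
  have p2 := e_pos (3 / 2 * (su w - mn w))
  have p3 := e_pos (3 * mx w)
  have key : ∀ z, J3 (fun x => e (VC x)) w ≤ (1 + 3021 / 10 ^ 9) * e (VC w) + z →
      J3 UC w ≤ (1 + 3024 / 10 ^ 9) * UC w + z := fun z hz => by
    unfold UC
    rw [J3_lin]
    rcases le_total (mn w + 5) (su w - mx w - mn w) with h | h <;>
      rcases le_total (su w - mx w - mn w + 5) (mx w) with h' | h'
    · linarith [e2 _ (C2 h), e3 _ (C3 h')]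
    · linarith [e2 _ (C2 h), e_two (x := 3 * mx w) (y := 3 / 2 * (su w - mn w)) (by linarith)]
    · linarith [e3 _ (C3 h'), e_two (x := 3 / 2 * (su w - mn w)) (y := VC w) (by linarith)]
    · linarith [e_two (x := 3 * mx w) (y := 3 / 2 * (su w - mn w)) (by linarith),
        e_two (x := 3 / 2 * (su w - mn w)) (y := VC w) (by linarith)]
  constructor
  · have := expJ3 b5 (d := 31) (J3_bd fun c => by linarith [(abs_le.1 (b5 c)).2])
    linarith [key (e (VC w)) (by linarith)]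
  · intro hw
    linarith [key 0 (by linarith [expJ3 b5 (C1 hw)])]

lemma drainC : ∃ C, 0 ≤ C ∧ ∀ w τ, UC (drain w τ) + (if mn w ≤ τ then e (VC (drain w τ)) else 0) ≤
    (1 + 1 / 10 ^ 9) * (e (-3 * τ) * UC w) + C := by
  obtain ⟨C, hC, h⟩ := absorb (δ := 1 / 10 ^ 21) (by norm_num)
  refine ⟨3 * (2 * (e 8 + C)) + 1, by linarith [e_pos 8], fun w τ => ?_⟩
  obtain ⟨o1, o2, o3⟩ := drain_ord w τ
  obtain ⟨b3, b4⟩ := mid_bd w
  have p1 := e_pos (-3 * τ + VC w)
  have p2 := e_pos (-3 * τ + 3 / 2 * (su w - mn w))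
  have p3 := e_pos (-3 * τ + 3 * mx w)
  have p4 := e_pos 8
  have h2 := h (-3 * τ + 3 / 2 * (su w - mn w))
  have h3 := h (-3 * τ + 3 * mx w)
  have k : e (-3 * τ) * UC w = 1 * e (-3 * τ + VC w) + 1 / 10 ^ 5 *
      e (-3 * τ + 3 / 2 * (su w - mn w)) + 1 / 10 ^ 10 * e (-3 * τ + 3 * mx w) := by
    simp only [e_add, UC]; ring
  have k1 : ∀ v, v ≤ 14 / 15 * (-3 * τ + 3 / 2 * (su w - mn w)) + 11 ∨
      v ≤ 14 / 15 * (-3 * τ + 3 * mx w) + 11 ∨ v ≤ 11 → e v ≤ 1 / 10 ^ 20 *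
      e (-3 * τ + 3 / 2 * (su w - mn w)) + 1 / 10 ^ 20 * e (-3 * τ + 3 * mx w) + 2 * (e 8 + C) := by
    rintro v (hv | hv | hv)
    · linarith [e_two (x := v) (y := 14 / 15 * (-3 * τ + 3 / 2 * (su w - mn w)) + 8) (by linarith)]
    · linarith [e_two (x := v) (y := 14 / 15 * (-3 * τ + 3 * mx w) + 8) (by linarith)]
    · linarith [e_two (x := v) (y := 8) (by linarith)]
  have a2 : e (3 / 2 * (su (drain w τ) - mn (drain w τ))) ≤ e (-3 * τ + 3 / 2 * (su w - mn w)) +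
      (1 / 10 ^ 20 * e (-3 * τ + 3 / 2 * (su w - mn w)) + 1 / 10 ^ 20 * e (-3 * τ + 3 * mx w) +
      2 * (e 8 + C)) := by
    rcases le_total τ (su w - mx w - mn w) with h0 | h0
    · exact le_add_of_le_of_nonneg (e_mono (by grind)) (by positivity)
    · exact le_add_of_nonneg_of_le p2.le (k1 _ (by grind))
  have a3 : e (3 * mx (drain w τ)) ≤ e (-3 * τ + 3 * mx w) + 1 := by
    rcases le_total τ (mx w) with h0 | h0
    · exact le_add_of_le_of_nonneg (e_mono (by grind)) zero_le_one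
    · rw [o1, max_eq_right (by linarith)]
      simpa [e] using p3.le
  rw [k, UC]
  split_ifs with h0
  · have := (VC_bd (drain w τ)).2
    have := k1 (VC (drain w τ)) (by grind)
    linarith
  · rw [VC, VV_drain (not_le.1 h0).le, sub_eq_neg_add, ← neg_mul, ← VC]
    linarith

theorem stabC : Stab kq := by
  classical
  obtain ⟨C, hC, h⟩ := drainC
  obtain ⟨g, hg⟩ : ∃ g, g = fun w => if Sg w then ENNReal.ofReal (UC w) else ∞ := ⟨_, rfl⟩
  have hm : Measurable g := hg ▸ Measurable.ite Sg_meas UC_meas.ennreal_ofReal measurable_const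
  have hg0 : ∀ w, ENNReal.ofReal (UC w) ≤ g w := fun w => by
    rw [hg]; dsimp only; split_ifs <;> simp
  have h1 : ∀ w, sm kq (1 / 10 ^ 9) g w ≤ g w + ENNReal.ofReal (4 * C) := fun w => by
    by_cases hw : Sg w
    swap
    · simp [hg, hw]
    have p := UC_pos w
    refine (lintegral_mono_ae (g := fun τ => ENNReal.ofReal ((1 + 3024 / 10 ^ 9) * (1 + 1 / 10 ^ 9) *
      UC w) * E (-((3 / 10 ^ 6 - 1 / 10 ^ 9) * τ)) + ENNReal.ofReal (2 * C) *
      E (-(-(1 / 10 ^ 9) * τ))) ?_).trans ?_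
    · filter_upwards [ex_gen (97 / 50) w] with τ ⟨t0, t1⟩
      have k := Sg_drain hw t0 t1
      refine (mul_le_mul' le_rfl (K_le hm (fun x => (UC_pos x).le) fun c => by
        simp [hg, Sg_jb (k.imp_right fun h => ⟨h.1, h.2.1⟩) c])).trans ?_
      simp only [E]
      rw [← ENNReal.ofReal_mul (Real.exp_pos _).le, ← ENNReal.ofReal_mul (by positivity),
        ← ENNReal.ofReal_mul (by positivity), ← ENNReal.ofReal_add (by positivity) (by positivity)]
      refine ENNReal.ofReal_le_ofReal ?_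
      have h2 : J3 UC (drain w τ) ≤ (1 + 3024 / 10 ^ 9) *
          ((1 + 1 / 10 ^ 9) * (e (-3 * τ) * UC w) + C) := by
        have h3 := h w τ
        have h4 := e_pos (VC (drain w τ))
        rcases k with k | k
        · refine ((JUC _).2 k).trans (mul_le_mul_of_nonneg_left ?_ (by norm_num))
          split_ifs at h3 <;> linarith
        · rw [if_pos k.2.2] at h3
          exact (JUC _).1.trans (mul_le_mul_of_nonneg_left h3 (by norm_num))
      rw [show -((3 / 10 ^ 6 - 1 / 10 ^ 9) * τ) = 1 / 10 ^ 9 * τ + -3 * τ / 10 ^ 6 by ring,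
        Real.exp_add, ← e, neg_mul, neg_mul, neg_neg]
      rw [neg_mul] at h2
      have h3 := Real.exp_pos (1 / 10 ^ 9 * τ)
      nlinarith [mul_le_mul_of_nonneg_left h2 h3.le, mul_nonneg h3.le hC]
    · rw [lap2 _ _ (by norm_num) (by norm_num), ← ENNReal.ofReal_mul (by positivity),
        ← ENNReal.ofReal_mul (by positivity)]
      refine add_le_add ((ENNReal.ofReal_le_ofReal ?_).trans (hg0 w)) (ENNReal.ofReal_le_ofReal ?_) <;>
        norm_num <;> linarith
  have h2 := fun t ht w => sm_drift kq (a := 1 / 10 ^ 9) (b := 1 / 10 ^ 6) (by norm_num)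
    (by norm_num) hm h1 (C' := ENNReal.ofReal (10 ^ 7 * C)) (t := t) (by
      rw [← ENNReal.ofReal_mul (by positivity), ← ENNReal.ofReal_add (by positivity) (by positivity)]
      refine ENNReal.ofReal_le_ofReal ?_
      norm_num
      linarith) ht w
  have h3 : ∀ w i, ENNReal.ofReal (1 / 10 ^ 11 * e (3 * w i)) ≤ sm kq (1 / 10 ^ 9) g w := by
    intro w i
    have p := e_pos (3 * w i)
    refine le_trans ?_ (lintegral_mono_ae (f := fun τ => ENNReal.ofReal (1 / 10 ^ 10 * e (3 * w i)) *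
      E (-(3 / 10 ^ 6 * τ))) ?_)
    · rw [lintegral_const_mul _ (by fun_prop), lap (by norm_num), ← ENNReal.ofReal_mul (by positivity)]
      refine ENNReal.ofReal_le_ofReal ?_
      norm_num
      linarith
    · filter_upwards [ex_nonneg] with τ hτ
      refine le_trans ?_ (le_mul_of_one_le_left' (E_zero ▸ E_mono (by positivity)))
      rw [E, ← ENNReal.ofReal_mul (by positivity)]
      refine le_K hm fun c => (ENNReal.ofReal_le_ofReal ?_).trans (hg0 _)
      obtain ⟨s, -, -, h4, -⟩ := jb_bd (drain w τ) c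
      rw [show -(3 / 10 ^ 6 * τ) = -3 * τ / 10 ^ 6 by ring, ← e, mul_assoc, ← e_add, UC]
      have h5 : w i - τ ≤ mx (drain w τ) := (le_max_left _ _).trans (le_mx (drain w τ) i).2
      refine le_add_of_nonneg_of_le ?_ (mul_le_mul_of_nonneg_left (e_mono (by linarith)) (by norm_num))
      unfold e
      positivity
  obtain ⟨t, ht⟩ : ∃ t, t = 10 ^ 9 + 10 ^ 25 * (C + 1) := ⟨_, rfl⟩
  have ht0 : 0 < t := by rw [ht]; positivity
  obtain ⟨K, hK⟩ : ∃ K : ℝ≥0, K = (10 ^ 7 * (C + 1) * e t).toNNReal := ⟨_, rfl⟩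
  have p := e_pos t
  have hK' : ∀ r ≤ t, ENNReal.ofReal (10 ^ 7 * C) * E (1 / 10 ^ 6 * r) ≤ K := fun r hr => by
    rw [hK, one_div, ← div_eq_inv_mul, ← ofReal_e, ← ENNReal.ofReal_mul (by positivity)]
    exact ENNReal.ofReal_le_ofReal (mul_le_mul (by linarith) (e_mono hr) (e_pos _).le (by positivity))
  refine Exists.elim (harris' kq (sm_meas _ _ hm) (ne_top_of_le_ne_top (by
    rw [hg]; dsimp only; rw [if_pos (show Sg 0 from .inr (.inl le_rfl))]; finiteness) (h1 0)) (K := K) (hK ▸ Real.toNNReal_pos.2 (by positivity)) ht0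
    (fun x => (h2 t ht0.le x).trans (add_le_add (mul_le_mul' ?_ le_rfl) (hK' t le_rfl)))
    (fun r hr => (h2 r hr.1 0).trans (add_le_add (mul_le_of_le_one_left' (E_zero ▸ E_mono (by
      linarith [hr.1]))) (hK' r hr.2))) fun x hx i => not_lt.1 fun hi => hx.not_ge (le_trans ?_ (h3 x i)))
    fun ν hν => stab_of _ hν
  · rw [E, Real.exp_neg]
    refine ENNReal.ofReal_le_of_le_toReal ?_
    have := Real.add_one_le_exp (1 / 10 ^ 9 * t)
    simp only [one_div, ENNReal.coe_toReal, NNReal.coe_inv, NNReal.coe_ofNat] at this ⊢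
    exact inv_anti₀ two_pos (by linarith)
  · rw [hK, ← ENNReal.ofReal_ofNat, ← ENNReal.ofReal, ← ENNReal.ofReal_mul (by norm_num)]
    refine ENNReal.ofReal_le_ofReal ?_
    have h4 := e_mono (x := t + t) (y := 3 * x i) (by linarith)
    have h5 := Real.add_one_le_exp (t / 10 ^ 6)
    rw [e_add] at h4
    rw [← e] at h5
    nlinarith [mul_le_mul_of_nonneg_left h5 p.le]

end Pool.Agent.H44.JS
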