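import Pool.Agent.H44.JT3

/-! Deterministic service times `3.88` (left) and `1.94` (right): escape from equal workloads. -/

open Set MeasureTheory ProbabilityTheory Filter Topology Measure
open scoped ENNReal NNReal BoundedContinuousFunction

namespace Pool.Agent.H44.JS

variable {w : St}

lemma D2 (h : su w - mx w - mn w + 4 ≤ mx w) :
    J3 (fun x => 3 / 2 * (mx x - su x)) w ≤ 3 / 2 * (mx w - su w) + -(7 / 2) := by
  rw [J3_eq]
  simp only [su, mx, ups]
  rcases argmax h with ⟨h1, h2⟩ | ⟨h1, h2⟩ | ⟨h1, h2⟩ <;> split_ifs <;> first | linarith |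
    (simp (disch := with_unfolding_all linarith only [h1, h2]) only [m1, m2, m3]; linarith)

lemma D3 (h : mn w + 4 ≤ su w - mx w - mn w) : J3 (fun x => -3 * mn x) w ≤ -3 * mn w + -5 := by
  rw [J3_eq]
  simp only [mn, ups]
  rcases argmin h with ⟨h1, h2⟩ | ⟨h1, h2⟩ | ⟨h1, h2⟩ <;> split_ifs <;> first | linarith |
    (simp (disch := with_unfolding_all linarith only [h1, h2]) only [n1, n2, n3]; linarith)

def Lt (w : St) : Prop := (∀ i j, ∃ n : ℤ, w i - w j = 97 / 50 * n) ∧ 0 < mn w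

lemma Lt_meas : MeasurableSet {w | Lt w} := by
  have := mn_meas
  unfold Lt
  measurability

lemma Lt_jb (h : Lt w) (c : Fin 3) : Lt (jb w c) := by
  obtain ⟨s, -, -, -, -, h1, -⟩ := jb_bd w c
  refine ⟨fun i j => ?_, h.2.trans_le h1⟩
  obtain ⟨a, s, k, hs, -, h'⟩ := jb_eq w c
  obtain ⟨n, hn⟩ := h.1 i j
  rw [h', up]
  by_cases hi : i = a <;> by_cases hj : j = a
  · exact ⟨0, by simp [hi, hj]⟩
  · subst hi
    exact ⟨n + k, by rw [Function.update_self, Function.update_of_ne hj]; push_cast; linarith⟩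
  · subst hj
    exact ⟨n - k, by rw [Function.update_self, Function.update_of_ne hi]; push_cast; linarith⟩
  · exact ⟨n, by rwa [Function.update_of_ne hi, Function.update_of_ne hj]⟩

lemma Lt_drain (h : Lt w) {τ : ℝ} (hτ : τ < mn w) : Lt (drain w τ) :=
  ⟨by simpa only [drain_sub hτ.le, sub_sub_sub_cancel_right] using h.1, by
    rw [(drain_ord w τ).2.1]; exact lt_max_of_lt_left (sub_pos.2 hτ)⟩

lemma ex_mn (w : St) : ∃ c, w c = mn w := by
  rcases min_choice (min (w 0) (w 1)) (w 2) with h | h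
  · rcases min_choice (w 0) (w 1) with h' | h'
    · exact ⟨0, (h.trans h').symm⟩
    · exact ⟨1, (h.trans h').symm⟩
  · exact ⟨2, h.symm⟩

lemma Lt_back {τ : ℝ} (h1 : ∀ i, ∀ n : ℤ, w i - τ ≠ 97 / 50 * n) (h0 : 0 < τ) {c : Fin 3}
    (h : Lt (jb (drain w τ) c)) : Lt w ∧ τ < mn w := by
  obtain ⟨a, s, k, hs, -, h'⟩ := jb_eq (drain w τ) c
  rw [h'] at h
  have h2 : ∀ j ≠ a, up (drain w τ) a s j = w j - τ ∧ τ < w j := fun j hj => by
    have := h.2.trans_le (le_mx _ j).1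
    rw [up, Function.update_of_ne hj] at this ⊢
    have h3 : 0 < w j - τ := by simpa [drain] using this
    exact ⟨max_eq_left h3.le, by linarith⟩
  have h4 : up (drain w τ) a s a = drain w τ a + s := Function.update_self ..
  have h3 : τ < w a := not_le.1 fun h3 => by
    obtain ⟨j, hj⟩ := exists_ne a
    obtain ⟨n, hn⟩ := h.1 j a
    rw [(h2 j hj).1, h4, show drain w τ a = 0 from max_eq_right (by linarith)] at hn
    exact h1 j (n + k) (by push_cast; linarith)
  have h5 : τ < mn w := by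
    obtain ⟨b, hb⟩ := ex_mn w
    by_cases hab : b = a
    · rwa [← hb, hab]
    · exact hb ▸ (h2 b hab).2
  refine ⟨⟨fun i j => ?_, h0.trans h5⟩, h5⟩
  obtain ⟨n, hn⟩ := h.1 i j
  rw [drain_sub h5.le] at h4
  by_cases hi : i = a <;> by_cases hj : j = a
  · exact ⟨0, by simp [hi, hj]⟩
  · rw [(h2 j hj).1, hi, h4] at hn
    exact ⟨n - k, by rw [hi]; push_cast; linarith⟩
  · rw [(h2 i hi).1, hj, h4] at hn
    exact ⟨n + k, by rw [hj]; push_cast; linarith⟩
  · rw [(h2 i hi).1, (h2 j hj).1] at hn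
    exact ⟨n, by linarith⟩

noncomputable def VD : St → ℝ := VV (97 / 50) GD

lemma VD_bd (w : St) : 6 / 5 * su w - 11 / 10 * mx w + 1 / 2 * mn w - 8 ≤ VD w ∧
    VD w ≤ 6 / 5 * su w - 11 / 10 * mx w + 1 / 2 * mn w + 11 := by
  obtain ⟨⟨_, _⟩, ⟨_, _⟩, ⟨_, _⟩, _, _⟩ := ceil_bd w (u := 97 / 50) (by norm_num) rfl rfl
  obtain ⟨h1, h2⟩ := hh_bd 4 tD ⌈(w 0 - w 2) / (97 / 50)⌉ ⌈(w 1 - w 2) / (97 / 50)⌉
  rw [← Int.cast_le (R := ℝ)] at h1 h2
  simp only [VD, VV, GD, su]
  push_cast at h1 h2 ⊢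
  constructor <;> linarith

lemma D1 (hw : Lt w) : J3 (fun x => -VD x) w ≤ -VD w + -(304 / 100) := by
  have u0 : (0 : ℝ) < 97 / 50 := by norm_num
  obtain ⟨x, hx⟩ := hw.1 0 2
  obtain ⟨y, hy⟩ := hw.1 1 2
  have ex : ⌈(w 0 - w 2) / (97 / 50)⌉ = x := by rw [hx, mul_div_cancel_left₀ _ u0.ne', Int.ceil_intCast]
  have ey : ⌈(w 1 - w 2) / (97 / 50)⌉ = y := by rw [hy, mul_div_cancel_left₀ _ u0.ne', Int.ceil_intCast]
  have h1 : x ≤ y ↔ w 0 ≤ w 1 := by
    rw [← Int.cast_le (R := ℝ)]; constructor <;> intro <;> linarith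
  have h2 : 0 ≤ x ↔ w 2 ≤ w 0 := by
    rw [← Int.cast_nonneg_iff (R := ℝ)]; constructor <;> intro <;> linarith
  have h3 : y ≤ 0 ↔ w 1 ≤ w 2 := by
    rw [← Int.cast_nonpos (R := ℝ)]; constructor <;> intro <;> linarith
  have h := allD x y
  rw [okD, ← Int.cast_le (R := ℝ)] at h
  rw [J3_eq, VD]
  simp only [VV_up (s := 97 / 25) u0.ne' GD 2 (by norm_num), VV_up (s := 97 / 50) u0.ne' GD 1
    (by norm_num)]
  simp only [h1, h2, h3] at h
  rw [VV, ex, ey]
  split_ifs at h ⊢ <;> push_cast at h <;> linarith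

noncomputable def HD (w : St) : ℝ :=
  2 * 10 ^ 10 * e (-VD w) + 2 * 10 ^ 5 * e (3 / 2 * (mx w - su w)) + 2 * e (-3 * mn w)

lemma HD_pos (w : St) : 0 < HD w := by unfold HD e; positivity

lemma HD_meas : Measurable HD := by unfold HD VD; fun_prop

lemma JHD (hw : Lt w) : J3 HD w ≤ (1 - 3035 / 10 ^ 9) * HD w := by
  obtain ⟨b1, b2⟩ := VD_bd w
  obtain ⟨b3, b4⟩ := mid_bd w
  have e1 := expJ3 (fun c => by
    obtain ⟨s, ⟨_, _⟩, _, _, _, _, _⟩ := jb_bd w c
    obtain ⟨_, _⟩ := VD_bd (jb w c)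
    exact abs_le.2 ⟨by linarith, by linarith⟩) (D1 hw)
  have e2 := fun d => expJ3 (V := fun x => 3 / 2 * (mx x - su x)) (w := w) (d := d) fun c => by
    obtain ⟨s, ⟨_, _⟩, _, _, _, _, _⟩ := jb_bd w c
    exact abs_le.2 ⟨by linarith, by linarith⟩
  have e3 := fun d => expJ3 (V := fun x => -3 * mn x) (w := w) (d := d) fun c => by
    obtain ⟨s, ⟨_, _⟩, _, _, _, _, _⟩ := jb_bd w c
    exact abs_le.2 ⟨by linarith, by linarith⟩
  have f2 := e2 0 (J3_bd fun c => by
    obtain ⟨s, ⟨_, _⟩, _, _, _, _, _⟩ := jb_bd w c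
    linarith)
  have f3 := e3 0 (J3_bd fun c => by
    obtain ⟨s, ⟨_, _⟩, _, _, _, _, _⟩ := jb_bd w c
    linarith)
  have p1 := e_pos (-VD w)
  have p2 := e_pos (3 / 2 * (mx w - su w))
  have p3 := e_pos (-3 * mn w)
  unfold HD
  rw [J3_lin]
  rcases le_total (mn w + 4) (su w - mx w - mn w) with h | h <;>
    rcases le_total (su w - mx w - mn w + 4) (mx w) with h' | h'
  · linarith [e2 _ (D2 h'), e3 _ (D3 h)]
  · linarith [e3 _ (D3 h), e_two (x := 3 / 2 * (mx w - su w)) (y := -VD w) (by linarith)]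
  · linarith [e2 _ (D2 h'), e_two (x := -3 * mn w) (y := 3 / 2 * (mx w - su w)) (by linarith)]
  · linarith [e_two (x := -3 * mn w) (y := 3 / 2 * (mx w - su w)) (by linarith),
      e_two (x := 3 / 2 * (mx w - su w)) (y := -VD w) (by linarith)]

lemma HD_drain {τ : ℝ} (h : τ ≤ mn w) : HD (drain w τ) = e (3 * τ) * HD w := by
  obtain ⟨o1, o2, o3⟩ := drain_ord w τ
  obtain ⟨b3, b4⟩ := mid_bd w
  rw [max_eq_left (by linarith)] at o1 o2
  rw [max_eq_left (by linarith), max_eq_left (by linarith), max_eq_left (by linarith)] at o3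
  rw [HD, HD, VD, VV_drain h, ← VD, o1, o2, o3, show -(VD w - 3 * τ) = 3 * τ + -VD w by ring,
    show -3 * (mn w - τ) = 3 * τ + -3 * mn w by ring, show 3 / 2 * (mx w - τ - (mx w - τ + (mn w - τ)
    + (su w - mx w - mn w - τ))) = 3 * τ + 3 / 2 * (mx w - su w) by ring]
  simp only [e_add]
  ring

lemma JHD' (hw : Lt w) {τ : ℝ} (h : τ < mn w) :
    J3 HD (drain w τ) ≤ (1 - 3035 / 10 ^ 9) * HD w * e (3 * τ) :=
  (JHD (Lt_drain hw h)).trans_eq (by rw [HD_drain h.le]; ring)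

lemma lapD {a : ℝ} (ha : a ∈ Icc (0 : ℝ) (1 / 10 ^ 9)) {G : ℝ → ℝ≥0∞}
    (h : ∀ᵐ τ ∂ex, G τ ≤ ENNReal.ofReal ((1 - 3035 / 10 ^ 9) * HD w * e (3 * τ))) :
    ∫⁻ τ, E (a * τ) * G τ ∂ex ≤ ENNReal.ofReal (HD w) := by
  have p := HD_pos w
  refine (lintegral_mono_ae (g := fun τ => ENNReal.ofReal ((1 - 3035 / 10 ^ 9) * HD w) *
    E (-(-(3 / 10 ^ 6 + 1 / 10 ^ 9) * τ))) ?_).trans ?_
  · filter_upwards [h, ex_nonneg] with τ h1 h2
    refine (mul_le_mul' (E_mono (mul_le_mul_of_nonneg_right ha.2 h2.le)) h1).trans_eq ?_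
    rw [ENNReal.ofReal_mul (by positivity), ofReal_e, mul_left_comm, ← E_add]
    congr 2
    ring
  · rw [lintegral_const_mul _ (by fun_prop), lap (by norm_num), ← ENNReal.ofReal_mul (by positivity)]
    refine ENNReal.ofReal_le_ofReal ?_
    norm_num
    linarith

theorem unstabD {ν : Measure St} [IsProbabilityMeasure ν] (hf : ∀ f : St →ᵇ ℝ, Tendsto
    (fun t : ℝ => ∫ ω, f (W (fun _ => 10 ^ 17) t ω) ∂PP kq) atTop (𝓝 (∫ x, f x ∂ν))) : False := by
  classical
  obtain ⟨g, hg⟩ : ∃ g, g = fun w => if Lt w then min 1 (ENNReal.ofReal (HD w)) else 1 := ⟨_, rfl⟩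
  obtain ⟨g', hg'⟩ : ∃ g, g = fun w => if Lt w then ENNReal.ofReal (HD w) else 0 := ⟨_, rfl⟩
  have hm : Measurable g :=
    hg ▸ Measurable.ite Lt_meas (measurable_const.min HD_meas.ennreal_ofReal) measurable_const
  have hm' : Measurable g' := hg' ▸ Measurable.ite Lt_meas HD_meas.ennreal_ofReal measurable_const
  have hK1 : ∀ w, K kq g w ≤ 1 := fun w => (lintegral_mono (g := fun _ => 1) fun m => by
    rw [hg]; dsimp only; split_ifs <;> simp).trans_eq (by simp)
  have h0 : ∀ w, Lt w → sm kq 0 g w ≤ ENNReal.ofReal (HD w) := fun w hw => by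
    refine lapD (by norm_num) (ae_of_all _ fun τ => ?_)
    rcases lt_or_ge τ (mn w) with h | h
    · exact (K_le hm (fun x => (HD_pos x).le) fun c => by
        simp [hg, Lt_jb (Lt_drain hw h) c]).trans (ENNReal.ofReal_le_ofReal (JHD' hw h))
    · refine (hK1 _).trans (ENNReal.one_le_ofReal.2 ?_)
      have h1 := e_mono (x := 0) (y := -3 * mn w + 3 * τ) (by linarith)
      have h2 : 2 * e (-3 * mn w) ≤ HD w := le_add_of_nonneg_left (by unfold e; positivity)
      rw [e_add, e, zero_div, Real.exp_zero] at h1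
      nlinarith [mul_le_mul_of_nonneg_right h2 (e_pos (3 * τ)).le]
  have h1 : ∀ w, sm kq 0 g w ≤ g w + 0 := fun w => by
    have h2 : sm kq 0 g w ≤ 1 := (lintegral_mono (g := fun _ => 1) fun τ => by
      simpa using hK1 _).trans_eq (by simp)
    rw [add_zero, show g w = if Lt w then min 1 (ENNReal.ofReal (HD w)) else 1 by rw [hg]]
    split_ifs with hw
    exacts [le_min h2 (h0 w hw), h2]
  have h2 : ∀ w, sm kq (1 / 10 ^ 9) g' w ≤ g' w + 0 := fun w => by
    have h3 : ∀ τ, (0 < τ ∧ ∀ i, ∀ n : ℤ, w i - τ ≠ 97 / 50 * n) → ¬ (Lt w ∧ τ < mn w) →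
        K kq g' (drain w τ) = 0 := fun τ h4 h5 => le_zero_iff.1 ((K_le hm' (g' := fun _ => 0)
      (fun _ => le_rfl) fun c => by simp [hg', mt (Lt_back h4.2 h4.1) h5]).trans (by simp [J3]))
    rw [add_zero, show g' w = if Lt w then ENNReal.ofReal (HD w) else 0 by rw [hg']]
    split_ifs with hw
    · refine lapD (by norm_num) ?_
      filter_upwards [ex_gen (97 / 50) w] with τ h4
      by_cases h : τ < mn w
      · exact (K_le hm' (fun x => (HD_pos x).le) fun c => by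
          simp [hg', Lt_jb (Lt_drain hw h) c]).trans (ENNReal.ofReal_le_ofReal (JHD' hw h))
      · simp [h3 τ h4 fun h' => h h'.2]
    · refine (lintegral_congr_ae (g := fun _ => 0) ?_).trans_le (by simp)
      filter_upwards [ex_gen (97 / 50) w] with τ h4
      simp [h3 τ h4 fun h' => hw h'.1]
  have hw : Lt fun _ => 10 ^ 17 := ⟨fun i j => ⟨0, by simp⟩, by norm_num [mn]⟩
  refine not_stab' kq (c := sm kq 0 g fun _ => 10 ^ 17) ((h0 _ hw).trans_lt
    (ENNReal.ofReal_lt_one.2 ?_)) (fun M => ⟨fun t => sm kq 0 g (fun _ => 10 ^ 17) +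
      E (3 * (M + 5) / 10 ^ 6) * sm kq (1 / 10 ^ 9) g' (fun _ => 10 ^ 17) * E (-(1 / 10 ^ 9 * t)),
      ?_, fun t ht => ?_⟩) hf
  · obtain ⟨b1, -⟩ := VD_bd fun _ => 10 ^ 17
    have h2 : e (-10 ^ 17) ≤ 1 / 10 ^ 11 := by
      rw [e, neg_div, Real.exp_neg, one_div]
      exact inv_anti₀ (by norm_num) (by linarith [Real.add_one_le_exp (10 ^ 17 / 10 ^ 6)])
    simp only [HD, su, mx, mn, max_self, min_self] at b1 ⊢
    generalize VD (fun _ => 10 ^ 17) = v at b1 ⊢
    have h3 := e_mono (x := -v) (y := -10 ^ 17) (by linarith)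
    have h4 := e_mono (x := 3 / 2 * (10 ^ 17 - (10 ^ 17 + 10 ^ 17 + 10 ^ 17))) (y := -10 ^ 17)
      (by norm_num)
    have h5 := e_mono (x := -3 * 10 ^ 17) (y := -10 ^ 17) (by norm_num)
    generalize e (-10 ^ 17) = z at *
    norm_num at *
    linarith
  · have h3 : Tendsto (fun t : ℝ => E (-(1 / 10 ^ 9 * t))) atTop (𝓝 0) := by
      rw [← ENNReal.ofReal_zero]
      exact ENNReal.tendsto_ofReal (Real.tendsto_exp_neg_atTop_nhds_zero.comp
        (tendsto_id.const_mul_atTop (by norm_num)))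
    simpa using tendsto_const_nhds.add (ENNReal.Tendsto.const_mul h3 (Or.inr (ENNReal.mul_ne_top
      (E_ne_top _) (ne_top_of_le_ne_top (by simp [hg', hw]) (h2 _)))))
  · have hA : MeasurableSet {x : St | ∀ i, x i < M} := by measurability
    rw [mu_eq _ hA]
    refine (Pt_mono _ (g := fun x => sm kq 0 g x + E (3 * (M + 5) / 10 ^ 6) *
      sm kq (1 / 10 ^ 9) g' x) (fun x => ?_) _ _).trans ?_
    · by_cases hx : x ∈ {x : St | ∀ i, x i < M}
      swap
      · simp [hx]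
      have hK : ∀ {f : St → ℝ≥0∞}, Measurable f → Measurable fun τ => K kq f (drain x τ) :=
        fun hf => K_meas kq (u := fun _ => _) (hf.comp measurable_snd) (by fun_prop)
      have := hK hm
      have := hK hm'
      rw [indicator_of_mem hx, sm, sm, ← lintegral_const_mul _ (by fun_prop),
        ← lintegral_add_left (by fun_prop)]
      refine le_trans (by simp) (lintegral_mono_ae (f := fun _ => 1) ?_)
      filter_upwards [ex_nonneg] with τ hτ
      rw [zero_mul, E_zero, one_mul]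
      refine le_trans ?_ (add_le_add le_rfl (mul_le_mul' le_rfl
        (le_mul_of_one_le_left' (E_zero ▸ E_mono (by positivity)))))
      rw [K, K, ← lintegral_const_mul _ (by fun_prop), ← lintegral_add_left (by fun_prop)]
      refine le_K (g := fun z => g z + E (3 * (M + 5) / 10 ^ 6) * g' z) (by fun_prop) fun c => ?_
      by_cases hz : Lt (jb (drain x τ) c)
      swap
      · simp [hg, hz]
      refine le_add_left ?_
      simp only [hg', if_pos hz]
      rw [← ofReal_e, ← ENNReal.ofReal_mul (e_pos _).le, ENNReal.one_le_ofReal]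
      obtain ⟨s, hs, -, -, -, -, h4⟩ := jb_bd (drain x τ) c
      have h5 : mn (drain x τ) ≤ M := (le_mx _ 0).1.trans (max_le (by linarith [hx 0]) M.cast_nonneg)
      have h6 := e_mono (x := 0) (y := 3 * (M + 5) + -3 * mn (jb (drain x τ) c)) (by linarith [hs.2])
      have h7 : 2 * e (-3 * mn (jb (drain x τ) c)) ≤ HD (jb (drain x τ) c) :=
        le_add_of_nonneg_left (by unfold e; positivity)
      rw [e_add, e, zero_div, Real.exp_zero] at h6
      nlinarith [mul_le_mul_of_nonneg_left h7 (e_pos (3 * (M + 5))).le]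
    · beta_reduce
      rw [Pt_add _ (sm_meas _ _ hm), Pt_mul _ (sm_meas _ _ hm'), mul_assoc, mul_comm (sm _ _ _ _)]
      refine add_le_add ?_ (mul_le_mul' le_rfl ?_)
      · simpa using sm_drift kq le_rfl one_pos hm (C' := 0) h1 (by simp) ht _
      · simpa using sm_drift kq (by norm_num) one_pos hm' (C' := 0) h2 (by simp) ht _

end Pool.Agent.H44.JS
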