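import Pool.Agent.H44.GW5

open Pool.Agent.H44.GW

namespace Pool.Agent.H44.JoinA

/-- Q2: an irreducible walk has at most the two obvious fixed points, or continuum many.
Q1: some irreducible non-singular walk has countably infinitely many extinction vectors. -/
theorem result :
    (∀ (X : Type) [Countable X] (μ : X → PMF (X →₀ ℕ)), Irred μ →
      Fix μ ⊆ {qExt μ Set.univ, 1} ∨ Cardinal.mk (Fix μ) = Cardinal.continuum) ∧
    ∃ μ : ℕ × ℕ → PMF (ℕ × ℕ →₀ ℕ), Irred μ ∧
      (∃ x, (μ x).toMeasure {f | f.sum (fun _ k => k) = 1} < 1) ∧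
      (Set.range (qExt μ)).Countable ∧ (Set.range (qExt μ)).Infinite :=
  ⟨fun _ _ _ => dichotomy, BR.μ, BR_irred, ⟨_, BR_nonsing⟩, BR_countable, BR_infinite⟩

end Pool.Agent.H44.JoinA
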