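import Pool.Agent.H44.GM2

open MeasureTheory Real Pool.Agent.H44.GM

namespace Pool.Agent.H44.JoinB

theorem result (M : ℝ) (d : ℕ) (μ ν : Measure (EuclideanSpace ℝ (Fin d)))
    [IsProbabilityMeasure μ] [IsProbabilityMeasure ν]
    (hμ : μ.support ⊆ Metric.closedBall 0 M) (hν : ν.support ⊆ Metric.closedBall 0 M) :
    Integrable (fun x => mix d μ x * log (mix d μ x / mix d ν x)) ∧
    Integrable (fun x => (mix d μ x - mix d ν x) ^ 2 / mix d ν x) ∧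
    Integrable (fun x => (√(mix d μ x) - √(mix d ν x)) ^ 2) ∧
    ∫ x, mix d μ x * log (mix d μ x / mix d ν x) ≤
      13 * exp (4 * M ^ 2) * ∫ x, (√(mix d μ x) - √(mix d ν x)) ^ 2 ∧
    ∫ x, (mix d μ x - mix d ν x) ^ 2 / mix d ν x ≤
      13 * exp (4 * M ^ 2) * ∫ x, (√(mix d μ x) - √(mix d ν x)) ^ 2 := by
  have h1 : ∀ᵐ z ∂μ, ‖z‖ ≤ M := by
    filter_upwards [μ.support_mem_ae] with z hz using by simpa using hμ hz
  have h2 : ∀ᵐ z ∂ν, ‖z‖ ≤ M := by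
    filter_upwards [ν.support_mem_ae] with z hz using by simpa using hν hz
  exact ⟨(kl μ ν h1 h2).1, (chi μ ν h1 h2).1, hel_integrable μ ν,
    (kl μ ν h1 h2).2.trans (chi μ ν h1 h2).2, (chi μ ν h1 h2).2⟩

end Pool.Agent.H44.JoinB
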