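import Pool.Agent.H44.EntJ

open MeasureTheory Pool.Agent.H44.Ent
open scoped ENNReal

namespace Pool.Agent.H44.JoinC

/-- For every `M > 1`, no constant `C(M)` works, neither for the relative Fisher information nor
for the relative entropy. -/
theorem result : ∀ M : ℝ, 1 < M → ∀ C : ℝ,
    (∃ (μ : Measure ℝ) (n : ℕ), Adm M μ ∧ 1 ≤ n ∧ J μ ≠ ∞ ∧
      ENNReal.ofReal (C / n) * J μ < J (law μ n)) ∧
    (∃ (μ : Measure ℝ) (n : ℕ), Adm M μ ∧ 1 ≤ n ∧ D μ ≠ ∞ ∧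
      ENNReal.ofReal (C / n) * D μ < D (law μ n)) :=
  fun _ hM C => ⟨J_false hM C, D_false hM C⟩

end Pool.Agent.H44.JoinC
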