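import Pool.Agent.H44.Sok1

open Pool.Agent.H44.Sok

theorem Pool.Agent.H44.JoinD.result (Δ : ℕ) (hΔ : 2 ≤ Δ) :
    (∃ D : Set ℂ, IsOpen D ∧ IsConnected D ∧
      (∀ t : ℝ, 0 ≤ t → t < 1 / ((Δ : ℝ) - 1) → (t : ℂ) ∈ D) ∧
      ∀ (V : Type) [Fintype V] [DecidableEq V] (G : SimpleGraph V) [DecidableRel G.Adj],
        G.maxDegree ≤ Δ → ∀ w ∈ D, 1 + w ≠ 0 ∧ SprLtOne G fun _ => w) ∧
    (∀ a : ℝ, 0 ≤ a → a < 1 / ((Δ : ℝ) - 1) → ∃ D : Set ℂ, IsOpen D ∧ IsConnected D ∧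
      (∀ t : ℝ, 0 ≤ t → t ≤ a → (t : ℂ) ∈ D) ∧ (∀ w ∈ D, 1 + w ≠ 0) ∧
      ∀ (V : Type) [Fintype V] [DecidableEq V] (G : SimpleGraph V) [DecidableRel G.Adj],
        G.maxDegree ≤ Δ → ∀ w : V → ℂ, (∀ x, w x ∈ D) → SprLtOne G w) := by
  have key : ∀ a : ℝ, 0 ≤ a → a < 1 / ((Δ : ℝ) - 1) → ∃ D : Set ℂ, IsOpen D ∧ IsConnected D ∧
      (∀ t : ℝ, 0 ≤ t → t ≤ a → (t : ℂ) ∈ D) ∧ (∀ w ∈ D, 1 + w ≠ 0) ∧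
      ∀ (V : Type) [Fintype V] [DecidableEq V] (G : SimpleGraph V) [DecidableRel G.Adj],
        G.maxDegree ≤ Δ → ∀ w : V → ℂ, (∀ x, w x ∈ D) → SprLtOne G w := by
    intro a h0 ha
    obtain ⟨ε, hε, h⟩ := exists_eps hΔ h0 ha
    obtain ⟨h1, h2, h3⟩ := Dom_facts h0 (lt_min hε one_pos)
    refine ⟨_, h1, h2, fun t a b => h3 t ⟨a, b⟩, fun w hw h' => ?_, fun V _ _ G _ hG w hw =>
      h V G hG w fun x => Metric.thickening_mono (min_le_left _ _) _ (hw x)⟩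
    obtain ⟨_, ⟨t, ht, rfl⟩, h4⟩ := Metric.mem_thickening_iff.1 hw
    rw [eq_neg_of_add_eq_zero_right h', dist_eq_norm, lt_min_iff,
      show (-1 - t : ℂ) = (-1 - t : ℝ) by push_cast; rfl, Complex.norm_real,
      Real.norm_of_nonpos (by linarith [ht.1])] at h4
    linarith [ht.1, h4.2]
  refine ⟨?_, key⟩
  choose! D hD using key
  have h2 : (2 : ℝ) ≤ Δ := by exact_mod_cast hΔ
  have h0 : (0 : ℝ) ∈ Set.Ico (0 : ℝ) (1 / ((Δ : ℝ) - 1)) := ⟨le_rfl, one_div_pos.2 (by linarith)⟩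
  refine ⟨⋃ a : Set.Ico (0 : ℝ) (1 / ((Δ : ℝ) - 1)), D a,
    isOpen_iUnion fun a => (hD a a.2.1 a.2.2).1,
    ⟨⟨_, Set.mem_iUnion.2 ⟨⟨0, h0⟩, (hD 0 h0.1 h0.2).2.2.1 0 le_rfl le_rfl⟩⟩,
      isPreconnected_iUnion ⟨_, Set.mem_iInter.2 fun a => (hD a a.2.1 a.2.2).2.2.1 0 le_rfl a.2.1⟩
        fun a => (hD a a.2.1 a.2.2).2.1.isPreconnected⟩,
    fun t a b => Set.mem_iUnion.2 ⟨⟨t, a, b⟩, (hD t a b).2.2.1 t a le_rfl⟩,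
    fun V _ _ G _ hG w hw => ?_⟩
  obtain ⟨a, ha⟩ := Set.mem_iUnion.1 hw
  exact ⟨(hD a a.2.1 a.2.2).2.2.2.1 w ha, (hD a a.2.1 a.2.2).2.2.2.2 V G hG _ fun _ => ha⟩
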