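import Pool.Agent.H65.RaagRF

open Finset

namespace Pool.Agent.H44.KD

variable {n k : ℕ}

def HG (a : Fin k → Equiv.Perm (Fin n)) : SimpleGraph (Fin n) :=
  SimpleGraph.fromRel fun u v => ∃ i, v = a i u

lemma word_cases (w : FreeGroup (Fin k)) (i : Fin k) :
    (FreeGroup.of i * w).toWord.head? = some (i, true) ∨ w.toWord.head? = some (i, false) := by
  rw [FreeGroup.toWord_mul, FreeGroup.toWord_of, List.singleton_append, FreeGroup.reduce.cons,
    FreeGroup.reduce_toWord]
  cases w.toWord with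
  | nil => simp
  | cons x t =>
    obtain ⟨j, b⟩ := x
    by_cases h : i = j ∧ true = !b
    · right
      obtain ⟨rfl, h⟩ := h
      cases b <;> simp at h ⊢
    · left
      simp only [if_neg h, List.head?_cons]

lemma arcs_le (ρ : FreeGroup (Fin k) →* Equiv.Perm (Fin n)) (L : ℕ)
    (hρ : ∀ w, w ≠ 1 → w.norm ≤ 2 * L + 1 → ∀ v, ρ w v ≠ v) (C : Finset (Fin n)) (c : Fin n)
    (hc : c ∈ C) (hC : ∀ v ∈ C, ∃ p : (HG fun i => ρ (.of i)).Walk c v, p.length ≤ L) :
    ((C ×ˢ univ).filter fun x : Fin n × Fin k => ρ (.of x.2) x.1 ∈ C).card + 1 ≤ C.card := by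
  have h1 : ∀ u v (p : (HG fun i => ρ (.of i)).Walk u v),
      ∃ w : FreeGroup (Fin k), w.norm ≤ p.length ∧ ρ w u = v := by
    intro u v p
    induction p with
    | nil => exact ⟨1, by simp, by simp⟩
    | cons h p ih =>
      obtain ⟨w, a, b⟩ := ih
      rcases h.2 with ⟨i, rfl⟩ | ⟨i, rfl⟩
      · refine ⟨w * .of i, (FreeGroup.norm_mul_le _ _).trans (by simpa using a), ?_⟩
        rw [map_mul, Equiv.Perm.mul_apply, b]
      · refine ⟨w * (.of i)⁻¹, (FreeGroup.norm_mul_le _ _).trans (by simpa using a), ?_⟩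
        rw [map_mul, map_inv, Equiv.Perm.mul_apply]
        simpa using b
  have h2 : ∀ v, ∃ w : FreeGroup (Fin k), v ∈ C → w.norm ≤ L ∧ ρ w c = v := by
    intro v
    by_cases h : v ∈ C
    · obtain ⟨p, hp⟩ := hC v h
      obtain ⟨w, a, b⟩ := h1 _ _ p
      exact ⟨w, fun _ => ⟨a.trans hp, b⟩⟩
    · exact ⟨1, fun l => (h l).elim⟩
  choose w hw using h2
  have h3 : ∀ x y : FreeGroup (Fin k), x.norm + y.norm ≤ 2 * L + 1 → ρ x c = ρ y c → x = y := by
    intro x y a b
    by_contra l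
    refine hρ (x⁻¹ * y) (fun e => l (inv_mul_eq_one.1 e))
      ((FreeGroup.norm_mul_le _ _).trans (by simpa using a)) c ?_
    rw [map_mul, map_inv, Equiv.Perm.mul_apply, ← b]
    simp
  have h4 : w c = 1 := h3 _ _ (by have := (hw c hc).1; simp; omega) (by simp [(hw c hc).2])
  let g : Fin n → Option (Fin n × Fin k) := fun u => (w u).toWord.head?.map fun x =>
    (if x.2 = true then (ρ (.of x.1))⁻¹ u else u, x.1)
  rw [← card_image_of_injective _ (Option.some_injective _), ← card_erase_add_one hc,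
    Nat.add_le_add_iff_right]
  refine (card_le_card (t := (C.erase c).image g) ?_).trans card_image_le
  intro z hz
  obtain ⟨⟨v, i⟩, hx, rfl⟩ := mem_image.1 hz
  simp only [mem_filter, mem_product, mem_univ, and_true] at hx
  have e : FreeGroup.of i * w v = w (ρ (.of i) v) := h3 _ _ (by
    have a := FreeGroup.norm_mul_le (FreeGroup.of i) (w v)
    have b := (hw v hx.1).1
    have d := (hw _ hx.2).1
    rw [FreeGroup.norm_of] at a
    omega) (by rw [map_mul, Equiv.Perm.mul_apply, (hw v hx.1).2, (hw _ hx.2).2])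
  rcases word_cases (w v) i with h | h
  · rw [e] at h
    refine mem_image.2 ⟨_, mem_erase.2 ⟨fun l => ?_, hx.2⟩, by simp [g, h]⟩
    rw [l, h4] at h
    simp at h
  · refine mem_image.2 ⟨_, mem_erase.2 ⟨fun l => ?_, hx.1⟩, by simp [g, h]⟩
    rw [l, h4] at h
    simp at h

theorem exists_struct (k L T : ℕ) : ∃ n, T ≤ n ∧ ∃ (a : Fin k → Equiv.Perm (Fin n))
    (W : Finset (Fin n)), W.card * T ≤ n ∧ (∀ i v, v ∉ W → v < a i v) ∧
    (∀ u v, ∃ φ : Equiv.Perm (Fin n), φ u = v ∧ ∀ i x, φ (a i x) = a i (φ x)) ∧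
    ∀ (C : Finset (Fin n)), ∀ c ∈ C, (∀ v ∈ C, ∃ p : (HG a).Walk c v, p.length ≤ L) →
      ((C ×ˢ univ).filter fun x : Fin n × Fin k => a x.2 x.1 ∈ C).card + 1 ≤ C.card := by
  classical
  have h0 : ∀ w : FreeGroup (Fin k), ∃ H : FiniteIndexNormalSubgroup (FreeGroup (Fin k)),
      w ≠ 1 → w ∉ H := fun w => by
    by_cases c : w = 1
    · exact ⟨.ofSubgroup ⊤, fun h => (h c).elim⟩
    · exact (Group.exists_finiteIndexNormalSubgroup_notMem w c).imp fun _ h _ => h
  choose H hH using h0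
  let S := {w : FreeGroup (Fin k) // w.norm ≤ 2 * L + 1}
  have : Finite S := ((List.finite_length_le (Fin k × Bool) (2 * L + 1)).preimage
    FreeGroup.toWord_injective.injOn).to_subtype
  let Γ0 := ∀ w : S, FreeGroup (Fin k) ⧸ (H w.1).toSubgroup
  let Γ := Γ0 × Multiplicative (ZMod (T + 2))
  let π : FreeGroup (Fin k) →* Γ :=
    (MonoidHom.pi fun w : S => QuotientGroup.mk' (H w.1).toSubgroup).prod
      (FreeGroup.lift fun _ => Multiplicative.ofAdd 1)
  have hπ : ∀ w, w ≠ 1 → w.norm ≤ 2 * L + 1 → π w ≠ 1 := fun w a b e =>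
    hH w a ((QuotientGroup.eq_one_iff w).1 (congrFun (congrArg Prod.fst e) ⟨w, b⟩))
  have : Fintype Γ0 := Fintype.ofFinite _
  let χ : Γ → ℕ := fun g => (Multiplicative.toAdd g.2).val
  let e0 := Fintype.equivFin Γ
  let τ := Tuple.sort (χ ∘ e0.symm)
  let e := e0.trans τ.symm
  have he : ∀ x y, χ x < χ y → e x < e y := by
    intro x y h
    by_contra l
    have := Tuple.monotone_sort (χ ∘ e0.symm) (not_lt.1 l)
    simp only [Function.comp, e, τ, Equiv.trans_apply, Equiv.apply_symm_apply,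
      Equiv.symm_apply_apply] at this
    omega
  have hcard : Fintype.card Γ = Fintype.card Γ0 * (T + 2) := by simp [Γ]
  have hpos : 0 < Fintype.card Γ0 := Fintype.card_pos
  let ρ : FreeGroup (Fin k) →* Equiv.Perm (Fin (Fintype.card Γ)) :=
    MonoidHom.mk' (fun w => e.permCongr (Equiv.mulLeft (π w))) (by
      intro a b; ext x; simp [mul_assoc])
  have hρ : ∀ w x, ρ w x = e (π w * e.symm x) := fun _ _ => rfl
  refine ⟨Fintype.card Γ, by nlinarith, fun i => ρ (.of i),
    univ.image fun g : Γ0 => e (g, Multiplicative.ofAdd (-1)), ?_, fun i v hv => ?_,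
    fun u v => ?_, fun C c hc => arcs_le ρ L (fun w a b v l => ?_) C c hc⟩
  · exact (Nat.mul_le_mul card_image_le (by omega)).trans hcard.ge
  · obtain ⟨⟨g, z⟩, rfl⟩ := e.surjective v
    rw [hρ, Equiv.symm_apply_apply]
    refine he _ _ ?_
    have a : Multiplicative.toAdd z ≠ -1 := fun l => hv (mem_image.2 ⟨g, mem_univ _, by
      rw [← l]; rfl⟩)
    have b : χ (π (.of i) * (g, z)) = (1 + Multiplicative.toAdd z).val := by
      show (Multiplicative.toAdd (FreeGroup.lift (fun _ => Multiplicative.ofAdd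
        (1 : ZMod (T + 2))) (.of i) * z)).val = _
      rw [FreeGroup.lift_apply_of]
      rfl
    have d := ZMod.val_lt (Multiplicative.toAdd z)
    have f : (Multiplicative.toAdd z).val ≠ T + 1 := fun l => a (by
      rw [← ZMod.natCast_zmod_val (Multiplicative.toAdd z), l, eq_neg_iff_add_eq_zero]
      exact_mod_cast ZMod.natCast_self (T + 2))
    have o : (1 : ZMod (T + 2)).val = 1 := ZMod.val_one'' (by omega)
    rw [b, ZMod.val_add_of_lt (by rw [o]; omega), o]
    exact Nat.lt_one_add_iff.2 le_rfl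
  · refine ⟨e.permCongr (Equiv.mulRight ((e.symm u)⁻¹ * e.symm v)), by
      show e (e.symm u * ((e.symm u)⁻¹ * e.symm v)) = v
      rw [mul_inv_cancel_left, Equiv.apply_symm_apply], fun i x => ?_⟩
    simp [hρ, mul_assoc]
  · rw [hρ, ← e.eq_symm_apply] at l
    exact hπ w a b (mul_eq_right.1 l)

end Pool.Agent.H44.KD
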