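import Pool.Agent.H44.OS3

open Finset SimpleGraph

namespace Pool.Agent.H44.KD

open Pool.Agent.H44.OS Classical

variable {n : ℕ}

noncomputable def NC (K : SimpleGraph (Fin n)) : ℕ := Nat.card K.ConnectedComponent

lemma NC_edge (K : SimpleGraph (Fin n)) (u v : Fin n) : NC K ≤ NC (K ⊔ edge u v) + 1 := by
  let g : Fin n → K.ConnectedComponent := fun x =>
    if K.Reachable x v then K.connectedComponentMk u else K.connectedComponentMk x
  have hg : ∀ x y, (K ⊔ edge u v).Adj x y → g x = g y := by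
    intro x y h
    simp only [sup_adj, edge_adj] at h
    rcases h with h | ⟨⟨rfl, rfl⟩ | ⟨rfl, rfl⟩, -⟩
    · have : K.Reachable x v ↔ K.Reachable y v :=
        ⟨fun l => h.symm.reachable.trans l, fun l => h.reachable.trans l⟩
      simp only [g, this, ConnectedComponent.connectedComponentMk_eq_of_adj h]
    · simp [g]
    · simp [g]
  have hg' : ∀ x y, (K ⊔ edge u v).Reachable x y → g x = g y := by
    rintro x y ⟨p⟩
    induction p with
    | nil => rfl
    | cons h _ ih => exact (hg _ _ h).trans ih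
  let f : Option (K ⊔ edge u v).ConnectedComponent → K.ConnectedComponent := fun o =>
    o.elim (K.connectedComponentMk v) (Quot.lift g hg')
  have hf : Function.Surjective f := by
    intro c
    induction c using ConnectedComponent.ind with
    | _ x =>
      by_cases h : K.Reachable x v
      · exact ⟨none, (ConnectedComponent.sound h).symm⟩
      · exact ⟨some ((K ⊔ edge u v).connectedComponentMk x), if_neg h⟩
  have := Nat.card_le_card_of_surjective f hf
  rwa [Finite.card_option] at this

lemma NC_le (F : Finset (Fin n × Fin n)) : ∀ K K' : SimpleGraph (Fin n),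
    (∀ u v, K'.Adj u v → K.Adj u v ∨ (u, v) ∈ F ∨ (v, u) ∈ F) → NC K ≤ NC K' + F.card := by
  induction F using Finset.induction_on with
  | empty =>
    intro K K' h
    exact ConnectedComponent.card_le_card_of_le fun u v l => by simpa using h u v l
  | insert x F hx ih =>
    intro K K' h
    have a := NC_edge K x.1 x.2
    have b := ih (K ⊔ edge x.1 x.2) K' fun u v l => by
      have := l.ne
      rcases h u v l with c | c | c
      · exact Or.inl (Or.inl c)
      · rcases mem_insert.1 c with rfl | c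
        · exact Or.inl (Or.inr (by simp [edge_adj, this]))
        · exact Or.inr (Or.inl c)
      · rcases mem_insert.1 c with rfl | c
        · exact Or.inl (Or.inr (by simp [edge_adj, this]))
        · exact Or.inr (Or.inr c)
    rw [card_insert_of_notMem hx]
    omega

lemma NC_le_n (K : SimpleGraph (Fin n)) : NC K ≤ n :=
  (Nat.card_le_card_of_surjective K.connectedComponentMk Quot.mk_surjective).trans (by simp)

lemma NC_bot : NC (⊥ : SimpleGraph (Fin n)) = n := by
  refine le_antisymm (NC_le_n _) ?_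
  have := Nat.card_le_card_of_injective (⊥ : SimpleGraph (Fin n)).connectedComponentMk
    fun x y h => by simpa using h
  rwa [Nat.card_eq_fintype_card (α := Fin n), Fintype.card_fin] at this

def Ky (K : SimpleGraph (Fin n)) (y : Fin n → Bool) : SimpleGraph (Fin n) where
  Adj u v := K.Adj u v ∧ y u = false ∧ y v = false
  symm := ⟨fun _ _ h => ⟨h.1.symm, h.2.2, h.2.1⟩⟩
  loopless := ⟨fun _ h => h.1.ne rfl⟩

lemma reach_in {K : SimpleGraph (Fin n)} {y : Fin n → Bool} {u v : Fin n}
    (h : (Ky K y).Reachable u v) : u = v ∨ ∃ (hu : y u = false) (hv : y v = false),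
      (K.induce {v | y v = false}).Reachable ⟨u, hu⟩ ⟨v, hv⟩ := by
  obtain ⟨p⟩ := h
  induction p with
  | nil => exact Or.inl rfl
  | cons h _ ih =>
    right
    have a : (K.induce {v | y v = false}).Adj ⟨_, h.2.1⟩ ⟨_, h.2.2⟩ := h.1
    rcases ih with rfl | ⟨_, hv, l⟩
    · exact ⟨_, _, a.reachable⟩
    · exact ⟨_, hv, a.reachable.trans l⟩

noncomputable def cc (K : SimpleGraph (Fin n)) (y : Fin n → Bool) : ℝ := NC (Ky K y) + nf y - n

lemma CC_cc (K : SimpleGraph (Fin n)) (y : Fin n → Bool) :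
    (Nat.card (K.induce {v | y v = false}).ConnectedComponent : ℝ) = cc K y := by
  let φ : K.induce {v | y v = false} →g Ky K y := ⟨Subtype.val, fun {a b} h => ⟨h, a.2, b.2⟩⟩
  let f : (K.induce {v | y v = false}).ConnectedComponent ⊕ {v // ¬ y v = false} →
      (Ky K y).ConnectedComponent :=
    Sum.elim (ConnectedComponent.map φ) fun v => (Ky K y).connectedComponentMk v.1
  have hf : Function.Bijective f := by
    constructor
    · rintro (c | u) (d | v) h
      · induction c using ConnectedComponent.ind with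
        | _ a =>
        induction d using ConnectedComponent.ind with
        | _ b =>
        rcases reach_in (ConnectedComponent.exact h) with e | ⟨_, _, l⟩
        · rw [Subtype.ext e]
        · exact congrArg _ (ConnectedComponent.sound l)
      · induction c using ConnectedComponent.ind with
        | _ a =>
        rcases reach_in (ConnectedComponent.exact h) with e | ⟨_, l, _⟩
        · exact (v.2 (e ▸ a.2)).elim
        · exact (v.2 l).elim
      · induction d using ConnectedComponent.ind with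
        | _ a =>
        rcases reach_in (ConnectedComponent.exact h) with e | ⟨l, _, _⟩
        · exact (u.2 (e ▸ a.2)).elim
        · exact (u.2 l).elim
      · rcases reach_in (ConnectedComponent.exact h) with e | ⟨l, _, _⟩
        · rw [Subtype.ext e]
        · exact (u.2 l).elim
    · intro c
      induction c using ConnectedComponent.ind with
      | _ v =>
      by_cases h : y v = false
      · exact ⟨.inl (connectedComponentMk _ ⟨v, h⟩), rfl⟩
      · exact ⟨.inr ⟨v, h⟩, rfl⟩
  have a := Nat.card_eq_of_bijective f hf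
  rw [Nat.card_sum, Nat.card_eq_fintype_card (α := {v // ¬ y v = false}),
    Fintype.card_subtype] at a
  have b := card_filter_add_card_filter_not (s := (univ : Finset (Fin n))) (fun v => y v = false)
  rw [card_univ, Fintype.card_fin] at b
  have c : Nat.card (K.induce {v | y v = false}).ConnectedComponent + n = NC (Ky K y) + nf y := by
    unfold NC nf; omega
  have d := congrArg (Nat.cast : ℕ → ℝ) c
  push_cast at d
  unfold cc
  linarith

lemma nf_ina (σ : Equiv.Perm (Fin n)) {t : ℕ} (h : t ≤ n) : nf (ina σ t) = t := by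
  refine Eq.trans ?_ (Fin.card_filter_val_lt.trans (min_eq_right h))
  refine card_equiv σ.symm fun v => ?_
  simp [ina]

lemma nf_le (y : Fin n → Bool) : nf y ≤ n := (card_le_univ _).trans (by simp)

lemma cc_ina (K : SimpleGraph (Fin n)) (σ : Equiv.Perm (Fin n)) {s t : ℕ} (h : s ≤ t)
    (h' : t ≤ n) : cc K (ina σ t) ≤ cc K (ina σ s) + (t - s) := by
  have a : NC (Ky K (ina σ t)) ≤ NC (Ky K (ina σ s)) :=
    ConnectedComponent.card_le_card_of_le fun u v l => by
      obtain ⟨a, b, c⟩ := l
      simp only [ina, decide_eq_false_iff_not, not_le] at b c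
      exact ⟨a, by simp only [ina, decide_eq_false_iff_not, not_le]; omega,
        by simp only [ina, decide_eq_false_iff_not, not_le]; omega⟩
  have b : (NC (Ky K (ina σ t)) : ℝ) ≤ NC (Ky K (ina σ s)) := by exact_mod_cast a
  rw [cc, cc, nf_ina σ h', nf_ina σ (h.trans h')]
  linarith

lemma var_le {ρ D : ℝ} (h0 : 0 ≤ ρ) (h1 : ρ ≤ 1) (n : ℕ) : ∀ f : (Fin n → Bool) → ℝ,
    (∀ y v, |f (Function.update y v true) - f (Function.update y v false)| ≤ D) →
    Ex ρ (fun y => (f y - Ex ρ f) ^ 2) ≤ D ^ 2 * n := by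
  induction n with
  | zero =>
    intro f _
    have : ∀ y, f y = Ex ρ f := fun y => by
      rw [← Ex_const (n := 0) ρ (f y)]
      congr 1
      funext z
      rw [Subsingleton.elim y z]
    have e : (fun y => (f y - Ex ρ f) ^ 2) = fun _ => 0 := funext fun y => by
      rw [← this y]; simp
    rw [e, Ex_const]
    simp
  | succ n ih =>
    intro f hf
    have dec : ∀ F : (Fin (n + 1) → Bool) → ℝ, Ex ρ F =
        Ex ρ fun x : Fin n → Bool => ρ * F (Fin.cons true x) + (1 - ρ) * F (Fin.cons false x) := by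
      intro F
      rw [Ex, ← Equiv.sum_comp (Fin.consEquiv fun _ => Bool), Fintype.sum_prod_type,
        Fintype.sum_bool, ← sum_add_distrib]
      refine sum_congr rfl fun x _ => ?_
      show wt ρ (Fin.cons true x : Fin (n + 1) → Bool) * F (Fin.cons true x) +
        wt ρ (Fin.cons false x : Fin (n + 1) → Bool) * F (Fin.cons false x) = _
      simp only [wt, Fin.prod_univ_succ, Fin.cons_zero, Fin.cons_succ]
      simp
      ring
    have a := ih (fun x => ρ * f (Fin.cons true x) + (1 - ρ) * f (Fin.cons false x)) fun x v => by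
      have b1 := abs_le.1 (hf (Fin.cons true x) v.succ)
      have b2 := abs_le.1 (hf (Fin.cons false x) v.succ)
      simp only [← Fin.cons_update] at b1 b2
      have : 0 ≤ 1 - ρ := by linarith
      rw [abs_le]
      constructor <;> nlinarith [b1.1, b1.2, b2.1, b2.2]
    rw [← dec f] at a
    rw [dec]
    refine (Ex_mono h0 h1 (g := fun x => (ρ * f (Fin.cons true x) + (1 - ρ) * f (Fin.cons false x) -
      Ex ρ f) ^ 2 + D ^ 2) fun x => ?_).trans ?_
    · have b := sq_le_sq' (abs_le.1 (hf (Fin.cons true x) 0)).1 (abs_le.1 (hf (Fin.cons true x) 0)).2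
      simp only [Fin.update_cons_zero] at b
      have c : ρ * (1 - ρ) ≤ 1 := by nlinarith
      have d := mul_le_mul c b (sq_nonneg _) zero_le_one
      nlinarith
    · rw [Ex_add, Ex_const]
      push_cast
      linarith

lemma nf_eq (y : Fin n → Bool) : (nf y : ℝ) = ∑ v, (1 - io y v) := by
  rw [nf, card_filter, Nat.cast_sum]
  refine sum_congr rfl fun v _ => ?_
  unfold io
  cases y v <;> simp

lemma nf_upd (y : Fin n → Bool) (v : Fin n) :
    (nf (Function.update y v true) : ℝ) - nf (Function.update y v false) = -1 := by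
  rw [nf_eq, nf_eq, ← sum_sub_distrib, sum_eq_single v]
  · simp [io]
  · intro u _ h
    simp [io, h]
  · simp

lemma Ex_nf (ρ : ℝ) : Ex ρ (fun y : Fin n → Bool => (nf y : ℝ)) = n * (1 - ρ) := by
  simp only [nf_eq]
  rw [Ex_sum]
  simp only [Ex_sub, Ex_const, Ex_io]
  simp
  ring

lemma avg_ina (ρ : ℝ) (φ : (Fin n → Bool) → ℝ) :
    ∑ σ : Equiv.Perm (Fin n), Ex ρ (fun y : Fin n → Bool => φ (ina σ (nf y))) = n.factorial * Ex ρ φ := by
  rw [symm_Ex, ← sum_nf (fun t => ρ ^ (n - t) * (1 - ρ) ^ t * ∑ σ, φ (ina σ t)), ← Ex_sum]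
  exact sum_congr rfl fun y _ => by rw [wt_eq]

lemma full_info (K : SimpleGraph (Fin n)) {c D : ℝ} (M : ℕ) (hM : 0 < M) (hn : 2 * M ^ 2 ≤ n)
    (hc0 : 0 ≤ c) (hc : ∀ ρ, 0 ≤ ρ → ρ ≤ 1 → Ex ρ (cc K) ≤ c)
    (hD : ∀ y v, |cc K (Function.update y v true) - cc K (Function.update y v false)| ≤ D)
    (A : Equiv.Perm (Fin n) → ℕ) (hA : ∀ σ, A σ ≤ n) :
    ∑ σ, cc K (ina σ (A σ)) ≤ n.factorial * (c + 4 * (n / M) + 2 * M ^ 2 * D ^ 2) := by
  have M0 : (0 : ℝ) < M := by exact_mod_cast hM
  have hn' : 2 * (M : ℝ) ^ 2 ≤ n := by exact_mod_cast hn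
  have n0 : (0 : ℝ) < n := lt_of_lt_of_le (by positivity) hn'
  set δ : ℝ := n / M with hδ
  have δ0 : 0 < δ := by positivity
  have r0 : ∀ j ∈ range M, 0 ≤ 1 - (j : ℝ) / M := fun j hj => by
    rw [sub_nonneg, div_le_one M0]; exact_mod_cast (mem_range.1 hj).le
  have r1 : ∀ j : ℕ, 1 - (j : ℝ) / M ≤ 1 := fun j => sub_le_self _ (by positivity)
  let V : ℕ → Equiv.Perm (Fin n) → ℝ := fun j σ =>
    Ex (1 - j / M) fun y : Fin n → Bool => (cc K (ina σ (nf y)) - Ex (1 - j / M) (cc K)) ^ 2
  have V0 : ∀ σ, ∀ j ∈ range M, 0 ≤ V j σ := fun σ j hj =>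
    sum_nonneg fun y _ => mul_nonneg (wt_nonneg (r0 j hj) (r1 j) y) (sq_nonneg _)
  have pt : ∀ σ, cc K (ina σ (A σ)) ≤ c + 4 * δ + 2 / δ * ∑ j ∈ range M, V j σ := by
    intro σ
    have S0 := sum_nonneg (V0 σ)
    by_contra hX
    have hX' : c + 4 * δ < cc K (ina σ (A σ)) :=
      lt_of_le_of_lt (le_add_of_nonneg_right (by positivity)) (not_le.1 hX)
    have z := cc_ina K σ (Nat.zero_le _) (hA σ)
    have z1 : cc K (ina σ 0) ≤ 0 := by
      have : (NC (Ky K (ina σ 0)) : ℝ) ≤ n := by exact_mod_cast NC_le_n _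
      rw [cc, nf_ina σ (Nat.zero_le _)]; push_cast; linarith
    have t1 : 1 ≤ ⌊A σ / δ⌋₊ := Nat.le_floor (by rw [le_div_iff₀ δ0]; push_cast at z ⊢; linarith)
    obtain ⟨j, hj⟩ := Nat.exists_eq_add_of_le' t1
    have f1 := Nat.floor_le (show 0 ≤ A σ / δ by positivity)
    have f2 := Nat.lt_floor_add_one (A σ / δ)
    rw [hj, Nat.cast_add, Nat.cast_one] at f1 f2
    rw [le_div_iff₀ δ0] at f1
    rw [div_lt_iff₀ δ0] at f2
    have jM : j ∈ range M := by
      have a : (A σ : ℝ) ≤ M * δ := by rw [hδ, mul_div_cancel₀ _ M0.ne']; exact_mod_cast hA σ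
      have b : (j : ℝ) + 1 ≤ M := le_of_mul_le_mul_right (f1.trans a) δ0
      exact mem_range.2 (by exact_mod_cast b)
    set X := cc K (ina σ (A σ)) - c - 3 * δ with hXd
    have e : (n : ℝ) * (1 - (1 - j / M)) = j * δ := by rw [hδ]; ring
    have w : ∀ y : Fin n → Bool, X ^ 2 ≤ (cc K (ina σ (nf y)) - Ex (1 - j / M) (cc K)) ^ 2 +
        X ^ 2 / δ ^ 2 * ((nf y : ℝ) - j * δ) ^ 2 := by
      intro y
      rcases le_total (δ ^ 2) (((nf y : ℝ) - j * δ) ^ 2) with l | l
      · have := mul_le_mul_of_nonneg_left l (show 0 ≤ X ^ 2 / δ ^ 2 by positivity)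
        rw [div_mul_cancel₀ _ (by positivity)] at this
        linarith [sq_nonneg (cc K (ina σ (nf y)) - Ex (1 - j / M) (cc K))]
      · obtain ⟨l1, l2⟩ := abs_le.1 (abs_le_of_sq_le_sq' l δ0.le |> abs_le.2)
        have a : nf y ≤ A σ := by exact_mod_cast (show (nf y : ℝ) ≤ A σ by linarith)
        have b := cc_ina K σ a (hA σ)
        refine le_add_of_le_of_nonneg (pow_le_pow_left₀ (by linarith) ?_ 2) (by positivity)
        linarith [hc _ (r0 j jM) (r1 j)]
    have a := Ex_mono (r0 j jM) (r1 j) w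
    have b := var_le (D := 1) (r0 j jM) (r1 j) n (fun y => (nf y : ℝ)) fun y v => by
      rw [nf_upd]; simp
    rw [Ex_nf, e] at b
    rw [Ex_const, Ex_add, Ex_mul] at a
    have d : X ^ 2 / δ ^ 2 * (1 ^ 2 * n) ≤ X ^ 2 / 2 := by
      rw [div_mul_eq_mul_div, div_le_div_iff₀ (by positivity) (by norm_num), mul_assoc]
      refine mul_le_mul_of_nonneg_left ?_ (sq_nonneg _)
      rw [hδ, div_pow, le_div_iff₀ (by positivity)]
      nlinarith
    have g := mul_le_mul_of_nonneg_left b (show 0 ≤ X ^ 2 / δ ^ 2 by positivity)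
    have h : V j σ ≤ ∑ j ∈ range M, V j σ := single_le_sum (V0 σ) jM
    have i : X ^ 2 ≤ 2 * ∑ j ∈ range M, V j σ := by
      have : V j σ = Ex (1 - j / M) fun y : Fin n → Bool =>
        (cc K (ina σ (nf y)) - Ex (1 - j / M) (cc K)) ^ 2 := rfl
      linarith
    refine hX ?_
    rw [div_mul_eq_mul_div, ← sub_le_iff_le_add', le_div_iff₀ δ0]
    nlinarith
  refine (sum_le_sum fun σ _ => pt σ).trans ?_
  rw [sum_add_distrib, sum_const, card_univ, Fintype.card_perm, Fintype.card_fin, nsmul_eq_mul,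
    ← mul_sum, sum_comm, mul_add _ (c + 4 * δ)]
  have b : ∑ j ∈ range M, ∑ σ, V j σ ≤ ∑ j ∈ range M, n.factorial * (D ^ 2 * n) :=
    sum_le_sum fun j hj => by
      rw [avg_ina _ (fun y => (cc K y - Ex (1 - j / M) (cc K)) ^ 2)]
      exact mul_le_mul_of_nonneg_left (var_le (r0 j hj) (r1 j) n _ hD) (by positivity)
  rw [sum_const, card_range, nsmul_eq_mul] at b
  refine add_le_add le_rfl ((mul_le_mul_of_nonneg_left b (by positivity)).trans (le_of_eq ?_))
  rw [hδ]
  field_simp

end Pool.Agent.H44.KD
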