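import Pool.Agent.H44.KD1
import Pool.Agent.H44.KD2

open Finset SimpleGraph

namespace Pool.Agent.H44.KD

open Pool.Agent.H44.OS Classical

variable {n k : ℕ}

noncomputable def cl (K : SimpleGraph (Fin n)) (v : Fin n) : Finset (Fin n) :=
  univ.filter fun w => K.Reachable v w

noncomputable def sm (K : SimpleGraph (Fin n)) (R : ℕ) (y : Fin n → Bool) (v : Fin n) : ℝ :=
  if y v = false ∧ (cl (Ky K y) v).card ≤ R then 1 else 0

def Acy (a : Fin k → Equiv.Perm (Fin n)) (L : ℕ) : Prop :=
  ∀ (C : Finset (Fin n)), ∀ c ∈ C, (∀ v ∈ C, ∃ p : (HG a).Walk c v, p.length ≤ L) →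
    ((C ×ˢ univ).filter fun x : Fin n × Fin k => a x.2 x.1 ∈ C).card + 1 ≤ C.card

lemma Acy.ne {a : Fin k → Equiv.Perm (Fin n)} {L : ℕ} (h : Acy a L) (i : Fin k) (v : Fin n) :
    a i v ≠ v := fun e => by
  have := h {v} v (mem_singleton_self v) fun w hw => by
    rw [mem_singleton.1 hw]; exact ⟨.nil, by simp⟩
  have b : ((({v} : Finset (Fin n)) ×ˢ univ).filter fun x : Fin n × Fin k =>
    a x.2 x.1 ∈ ({v} : Finset (Fin n))).Nonempty := ⟨(v, i), by simp [e]⟩
  have := b.card_pos
  simp only [card_singleton] at *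
  omega

lemma count {a : Fin k → Equiv.Perm (Fin n)} {L R : ℕ} (h : Acy a L) (hR : R ≤ L) (R0 : 0 < R)
    (y : Fin n → Bool) : cc (HG a) y ≤ ∑ v, (sm (HG a) R y v -
      ∑ i, sm (HG a) R y v * (1 - io y (a i v)) + 1 / R) := by
  set K := Ky (HG a) y with hK
  have R1 : (0 : ℝ) < R := by exact_mod_cast R0
  have : Fintype K.ConnectedComponent := Fintype.ofFinite _
  have e : (n : ℝ) = ∑ v : Fin n, 1 := by simp
  rw [cc, nf_eq, add_sub_assoc, ← le_sub_iff_add_le]
  conv_rhs => rw [e]
  rw [← sum_sub_distrib, ← sum_sub_distrib, ← sum_fiberwise univ K.connectedComponentMk, NC,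
    Nat.card_eq_fintype_card, ← card_univ, card_eq_sum_ones, Nat.cast_sum]
  refine sum_le_sum fun c _ => ?_
  induction c using ConnectedComponent.ind with
  | _ u =>
  have e1 : (univ.filter fun v => K.connectedComponentMk v = K.connectedComponentMk u) = cl K u :=
    filter_congr fun v _ => by rw [ConnectedComponent.eq, reachable_comm]
  have e2 : ∀ v ∈ cl K u, cl K v = cl K u := fun v hv => filter_congr fun w _ =>
    ⟨fun l => (mem_filter.1 hv).2.trans l, fun l => (mem_filter.1 hv).2.symm.trans l⟩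
  have hu : u ∈ cl K u := mem_filter.2 ⟨mem_univ _, .refl _⟩
  rw [e1, Nat.cast_one]
  cases hy : y u with
  | true =>
    have : cl K u = {u} := eq_singleton_iff_unique_mem.2 ⟨hu, fun v hv => by
      rcases reach_in (mem_filter.1 hv).2 with l | ⟨l, _⟩
      · exact l.symm
      · simp [hy] at l⟩
    rw [this, sum_singleton]
    simp [sm, io, hy]
  | false =>
    have act : ∀ v ∈ cl K u, y v = false := fun v hv => by
      rcases reach_in (mem_filter.1 hv).2 with l | ⟨_, l, _⟩
      · exact l ▸ hy
      · exact l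
    by_cases hs : (cl K u).card ≤ R
    · have a1 := h (cl K u) u hu fun v hv => by
        obtain ⟨p, hp⟩ := (mem_filter.1 hv).2.exists_isPath
        have le : K ≤ HG a := fun _ _ l => l.1
        refine ⟨p.map (Hom.ofLE le), ?_⟩
        have b : p.support.toFinset ⊆ cl K u := fun x hx =>
          mem_filter.2 ⟨mem_univ _, ⟨p.takeUntil x (List.mem_toFinset.1 hx)⟩⟩
        have c := card_le_card b
        rw [List.toFinset_card_of_nodup hp.support_nodup, Walk.length_support] at c
        rw [Walk.length_map]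
        omega
      rw [card_filter, sum_product] at a1
      have a2 : ∑ v ∈ cl K u, (1 - ∑ i, (if a i v ∈ cl K u then (1 : ℝ) else 0)) ≤ _ :=
        sum_le_sum (g := fun v => sm (HG a) R y v -
          ∑ i, sm (HG a) R y v * (1 - io y (a i v)) + 1 / R - (1 - io y v - 1)) fun v hv => by
          have b : sm (HG a) R y v = 1 := if_pos ⟨act v hv, by rw [← hK, e2 v hv]; exact hs⟩
          have c : ∑ i, 1 * (1 - io y (a i v)) ≤ ∑ i, (if a i v ∈ cl K u then (1 : ℝ) else 0) :=
            sum_le_sum fun i _ => by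
              cases hi : y (a i v) with
              | true => split_ifs <;> simp [io, hi]
              | false =>
                have m : a i v ∈ cl K u := mem_filter.2 ⟨mem_univ _, (mem_filter.1 hv).2.trans
                  (Adj.reachable ⟨⟨(h.ne i v).symm, Or.inl ⟨i, rfl⟩⟩, act v hv, hi⟩)⟩
                rw [if_pos m]
                simp [io, hi]
          rw [b]
          linarith [io_nonneg y v, one_div_pos.2 R1]
      refine le_trans ?_ a2
      rw [sum_sub_distrib, sum_const, nsmul_eq_mul, mul_one, le_sub_iff_add_le']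
      exact_mod_cast a1
    · have a2 : ∑ v ∈ cl K u, (1 / R : ℝ) ≤ _ :=
        sum_le_sum (g := fun v => sm (HG a) R y v -
          ∑ i, sm (HG a) R y v * (1 - io y (a i v)) + 1 / R - (1 - io y v - 1)) fun v hv => by
          have b : sm (HG a) R y v = 0 := if_neg fun l => hs (by rw [← e2 v hv]; exact l.2)
          simp only [b, zero_mul, sum_const_zero]
          linarith [io_nonneg y v]
      refine le_trans ?_ a2
      rw [sum_const, nsmul_eq_mul, mul_one_div, le_div_iff₀ R1, one_mul]
      exact_mod_cast (not_le.1 hs).le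

lemma Ex_perm (ρ : ℝ) (φ : Equiv.Perm (Fin n)) (F : (Fin n → Bool) → ℝ) :
    Ex ρ F = Ex ρ fun y => F fun v => y (φ v) := by
  rw [Ex, ← Equiv.sum_comp (Equiv.arrowCongr φ.symm (Equiv.refl Bool))]
  refine sum_congr rfl fun y _ => ?_
  congr 1
  exact Equiv.prod_comp φ (fun i => if y i = true then ρ else 1 - ρ)

lemma sm_perm {a : Fin k → Equiv.Perm (Fin n)} (φ : Equiv.Perm (Fin n))
    (hφ : ∀ i x, φ (a i x) = a i (φ x)) (R : ℕ) (ρ : ℝ) (u : Fin n) :
    Ex ρ (fun y => sm (HG a) R y u) = Ex ρ fun y => sm (HG a) R y (φ u) := by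
  rw [Ex_perm ρ φ]
  congr 1
  funext y
  let ψ : Ky (HG a) (fun v => y (φ v)) ≃g Ky (HG a) y :=
    ⟨φ, fun {b c} => by simp [Ky, HG, ← hφ]⟩
  have : (cl (Ky (HG a) fun v => y (φ v)) u).card = (cl (Ky (HG a) y) (φ u)).card :=
    card_equiv φ fun v => by
      simp only [cl, mem_filter, mem_univ, true_and]
      exact (Iso.reachable_iff (φ := ψ)).symm
  simp only [sm, this]

lemma Ex_ind (ρ : ℝ) (v : Fin n) (F : (Fin n → Bool) → ℝ)
    (h : ∀ y b, F (Function.update y v b) = F y) :
    Ex ρ (fun y => (1 - io y v) * F y) = (1 - ρ) * Ex ρ F := by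
  rw [Ex_merge ρ {v}, ← Ex_mul]
  congr 1
  funext x
  have : ∀ y, (1 - io (merge {v} x y) v) * F (merge {v} x y) = F x * (1 - io y v) := fun y => by
    have e : merge {v} x y = Function.update x v (y v) := by
      funext i
      by_cases l : i = v <;> simp [merge, l]
    rw [e, h, mul_comm]
    simp [io]
  simp only [this, Ex_mul, Ex_sub, Ex_const, Ex_io]
  ring

lemma cl_mono (K : SimpleGraph (Fin n)) {y z : Fin n → Bool} (h : y ≤ z) (v : Fin n) :
    cl (Ky K z) v ⊆ cl (Ky K y) v := fun w hw => by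
  have f : ∀ x, z x = false → y x = false := fun x l => le_antisymm (l ▸ h x) (by simp)
  have le : Ky K z ≤ Ky K y := fun b c l => ⟨l.1, f _ l.2.1, f _ l.2.2⟩
  exact mem_filter.2 ⟨mem_univ _, (mem_filter.1 hw).2.mono le⟩

noncomputable def br (K : SimpleGraph (Fin n)) (R : ℕ) (v w : Fin n) (y : Fin n → Bool) : ℝ :=
  if (cl (Ky K (Function.update (Function.update y w true) v false)) v).card ≤ R then 1 else 0

lemma br_mono (K : SimpleGraph (Fin n)) (R : ℕ) (v w : Fin n) : Monotone (br K R v w) := by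
  intro y z h
  have := card_le_card (cl_mono K (y := Function.update (Function.update y w true) v false)
    (z := Function.update (Function.update z w true) v false) (fun i => by
      simp only [Function.update_apply]
      split_ifs
      · rfl
      · rfl
      · exact h i) v)
  unfold br
  split_ifs <;> first | omega | norm_num

lemma br_nonneg (K : SimpleGraph (Fin n)) (R : ℕ) (v w : Fin n) (y) : 0 ≤ br K R v w y := by
  unfold br; split_ifs <;> norm_num

lemma br_upd (K : SimpleGraph (Fin n)) (R : ℕ) (v w u : Fin n) (hu : u = v ∨ u = w) (y b) :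
    br K R v w (Function.update y u b) = br K R v w y := by
  have : Function.update (Function.update (Function.update y u b) w true) v false =
      Function.update (Function.update y w true) v false := by
    funext i
    simp only [Function.update_apply]
    split_ifs with a c d
    · rfl
    · rfl
    · rcases hu with rfl | rfl <;> contradiction
    · rfl
  simp only [br, this]

lemma sm_le {ρ : ℝ} (h0 : 0 ≤ ρ) (h1 : ρ ≤ 1) (K : SimpleGraph (Fin n)) (R : ℕ) (v w : Fin n) :
    Ex ρ (fun y => sm K R y v) ≤ (1 - ρ) * Ex ρ (br K R v w) := by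
  rw [← Ex_ind ρ v _ (br_upd K R v w v (Or.inl rfl))]
  refine Ex_mono h0 h1 fun y => ?_
  unfold sm
  split_ifs with c
  · have := card_le_card (cl_mono K (y := y)
      (z := Function.update (Function.update y w true) v false) (fun i => by
        simp only [Function.update_apply]
        split_ifs with l
        · rw [l, c.1]
        · simp
        · rfl) v)
    rw [br, if_pos (this.trans c.2)]
    simp [io, c.1]
  · exact mul_nonneg (sub_nonneg.2 (io_le _ _)) (br_nonneg _ _ _ _ _)

lemma edge_ge {ρ : ℝ} (h0 : 0 ≤ ρ) (h1 : ρ ≤ 1) (K : SimpleGraph (Fin n)) (R : ℕ) {v w : Fin n}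
    (h : v ≠ w) : Ex ρ (fun y => sm K R y v) * Ex ρ (fun y => sm K R y w) ≤
      Ex ρ fun y => sm K (2 * R) y v * (1 - io y w) := by
  have s0 : ∀ R y v, 0 ≤ sm K R y v := fun R y v => by unfold sm; split_ifs <;> norm_num
  have f := fkg (μ := wt ρ) (f := br K R v w) (g := br K R w v) (wt_nonneg h0 h1)
    (br_nonneg K R v w) (br_nonneg K R w v) (br_mono K R v w) (br_mono K R w v) fun a b => by
      unfold wt
      rw [← prod_mul_distrib, ← prod_mul_distrib]
      refine le_of_eq (prod_congr rfl fun i _ => ?_)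
      rw [Pi.inf_apply, Pi.sup_apply]
      cases a i <;> cases b i <;> simp [mul_comm]
  have h3 : ∑ y : Fin n → Bool, wt ρ y = 1 := by simpa [Ex] using Ex_const (n := n) ρ 1
  rw [h3, one_mul] at f
  have a := mul_le_mul (sm_le h0 h1 K R v w) (sm_le h0 h1 K R w v)
    (sum_nonneg fun y _ => mul_nonneg (wt_nonneg h0 h1 y) (s0 _ _ _)) (mul_nonneg (by linarith)
    (sum_nonneg fun y _ => mul_nonneg (wt_nonneg h0 h1 y) (br_nonneg _ _ _ _ _)))
  have b := Ex_ind ρ w (fun y => br K R v w y * br K R w v y) fun y b => by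
    rw [br_upd _ _ _ _ _ (Or.inr rfl), br_upd _ _ _ _ _ (Or.inl rfl)]
  have c := Ex_ind ρ v (fun y => (1 - io y w) * (br K R v w y * br K R w v y)) fun y b => by
    rw [br_upd _ _ _ _ _ (Or.inl rfl), br_upd _ _ _ _ _ (Or.inr rfl)]
    simp [io, h.symm]
  rw [b] at c
  have d : (1 - ρ) * Ex ρ (br K R v w) * ((1 - ρ) * Ex ρ (br K R w v)) ≤
      (1 - ρ) * ((1 - ρ) * Ex ρ fun y => br K R v w y * br K R w v y) := by
    rw [mul_mul_mul_comm, ← mul_assoc (1 - ρ) (1 - ρ)]
    exact mul_le_mul_of_nonneg_left f (mul_self_nonneg _)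
  refine a.trans (d.trans (c.ge.trans (Ex_mono h0 h1 fun y => ?_)))
  cases hv : y v with
  | true => simpa [io, hv] using mul_nonneg (s0 (2 * R) y v) (sub_nonneg.2 (io_le y w))
  | false =>
    rw [mul_left_comm, mul_comm]
    refine mul_le_mul_of_nonneg_right ?_ (sub_nonneg.2 (io_le y w))
    have key : ∀ v w x z : Fin n, v ≠ w → (Ky K y).Adj x z → z ≠ v → z ≠ w →
        x ∈ cl (Ky K (Function.update (Function.update y w true) v false)) v →
        z ∈ cl (Ky K (Function.update (Function.update y w true) v false)) v := by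
      intro v w x z h a z1 z2 hx
      refine mem_filter.2 ⟨mem_univ _, (mem_filter.1 hx).2.trans (Adj.reachable ⟨a.1, ?_, ?_⟩)⟩
      · rcases reach_in (mem_filter.1 hx).2 with l | ⟨_, l, _⟩
        · simp [← l]
        · exact l
      · simp [z1, z2, a.2.2]
    have sub : cl (Ky K y) v ⊆ cl (Ky K (Function.update (Function.update y w true) v false)) v ∪
        cl (Ky K (Function.update (Function.update y v true) w false)) w := by
      intro z hz
      have r := (reachable_iff_reflTransGen _ _).1 (mem_filter.1 hz).2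
      clear hz
      induction r with
      | refl => exact mem_union_left _ (mem_filter.2 ⟨mem_univ _, .refl _⟩)
      | @tail x z _ a ih =>
        by_cases z1 : z = v
        · exact mem_union_left _ (mem_filter.2 ⟨mem_univ _, z1 ▸ .refl _⟩)
        by_cases z2 : z = w
        · exact mem_union_right _ (mem_filter.2 ⟨mem_univ _, z2 ▸ .refl _⟩)
        rcases mem_union.1 ih with l | l
        · exact mem_union_left _ (key v w x z h a z1 z2 l)
        · exact mem_union_right _ (key w v x z h.symm a z2 z1 l)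
    have cs := (card_le_card sub).trans (card_union_le _ _)
    simp only [br, sm, io, hv, true_and]
    split_ifs <;> first | omega | contradiction | norm_num

lemma mean_le {a : Fin k → Equiv.Perm (Fin n)} {J : ℕ} (hk : 0 < k) (hJ : 0 < J)
    (h : Acy a (2 ^ J * J)) (hT : ∀ u v, ∃ φ : Equiv.Perm (Fin n), φ u = v ∧
      ∀ i x, φ (a i x) = a i (φ x)) (v0 : Fin n) (ρ : ℝ) (h0 : 0 ≤ ρ) (h1 : ρ ≤ 1) :
    Ex ρ (cc (HG a)) ≤ n * (1 / (4 * k) + 2 / J) := by
  let s : ℕ → ℝ := fun R => Ex ρ fun y => sm (HG a) R y v0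
  have hs : ∀ R v, Ex ρ (fun y => sm (HG a) R y v) = s R := fun R v => by
    obtain ⟨φ, e, l⟩ := hT v v0
    rw [sm_perm φ l, e]
  have J0 : (0 : ℝ) < J := by exact_mod_cast hJ
  have k0 : (0 : ℝ) < k := by exact_mod_cast hk
  obtain ⟨j, hj, e⟩ := exists_le_of_sum_le (s := range J) ⟨0, mem_range.2 hJ⟩
    (f := fun j => s (2 ^ (j + 1) * J) - s (2 ^ j * J)) (g := fun _ => 1 / J) (by
      rw [sum_range_sub (fun j => s (2 ^ j * J)), sum_const, card_range, nsmul_eq_mul,
        mul_one_div_cancel J0.ne']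
      have a : s (2 ^ J * J) ≤ 1 := (Ex_mono h0 h1 fun y => by
        unfold sm; split_ifs <;> norm_num).trans (Ex_const ρ 1).le
      have b : 0 ≤ s (2 ^ 0 * J) := (Ex_const ρ 0).ge.trans (Ex_mono h0 h1 fun y => by
        unfold sm; split_ifs <;> norm_num)
      linarith)
  rw [pow_succ', mul_assoc] at e
  have hR : 2 * (2 ^ j * J) ≤ 2 ^ J * J := by
    rw [← mul_assoc, ← pow_succ']
    exact Nat.mul_le_mul_right _ (Nat.pow_le_pow_right two_pos (mem_range.1 hj))
  have hR' : J ≤ 2 * (2 ^ j * J) := by nlinarith [Nat.one_le_two_pow (n := j)]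
  refine (Ex_mono h0 h1 (count h hR (by omega))).trans ?_
  rw [Ex_sum]
  refine (sum_le_card_nsmul univ _ (1 / (4 * k) + 2 / J : ℝ) fun v _ => ?_).trans_eq
    (by rw [card_univ, Fintype.card_fin, nsmul_eq_mul])
  rw [Ex_add, Ex_sub, Ex_const, Ex_sum, hs]
  have a := card_nsmul_le_sum univ (fun i => Ex ρ fun y => sm (HG a) (2 * (2 ^ j * J)) y v *
    (1 - io y (a i v))) (s (2 ^ j * J) * s (2 ^ j * J)) fun i _ => by
      have := edge_ge h0 h1 (HG a) (2 ^ j * J) (h.ne i v).symm
      rwa [hs, hs] at this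
  rw [card_univ, Fintype.card_fin, nsmul_eq_mul] at a
  have b : (1 : ℝ) / ((2 * (2 ^ j * J) : ℕ) : ℝ) ≤ 1 / J :=
    one_div_le_one_div_of_le J0 (by exact_mod_cast hR')
  have c : s (2 ^ j * J) - k * (s (2 ^ j * J) * s (2 ^ j * J)) ≤ 1 / (4 * k) := by
    rw [le_div_iff₀ (by positivity)]
    nlinarith [sq_nonneg (2 * k * s (2 ^ j * J) - 1)]
  have d : (2 : ℝ) / J = 1 / J + 1 / J := by ring
  linarith

lemma lip (a : Fin k → Equiv.Perm (Fin n)) (y : Fin n → Bool) (v : Fin n) :
    |cc (HG a) (Function.update y v true) - cc (HG a) (Function.update y v false)| ≤ 2 * k + 1 := by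
  have key : ∀ x, x ≠ v → Function.update y v true x = Function.update y v false x := fun x l => by
    simp [l]
  have a1 : NC (Ky (HG a) (Function.update y v false)) ≤ NC (Ky (HG a) (Function.update y v true)) :=
    ConnectedComponent.card_le_card_of_le fun b c l => by
      have b1 : b ≠ v := fun e => by simpa [e] using l.2.1
      have c1 : c ≠ v := fun e => by simpa [e] using l.2.2
      exact ⟨l.1, key b b1 ▸ l.2.1, key c c1 ▸ l.2.2⟩
  have a2 := NC_le ((univ.image fun i => (v, a i v)) ∪ univ.image fun i => (v, (a i)⁻¹ v))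
    (Ky (HG a) (Function.update y v true)) (Ky (HG a) (Function.update y v false)) fun b c l => by
      by_cases b1 : b = v
      · subst b1
        rcases l.1.2 with ⟨i, e⟩ | ⟨i, e⟩
        · exact Or.inr (Or.inl (mem_union_left _ (mem_image.2 ⟨i, mem_univ _, by rw [e]⟩)))
        · exact Or.inr (Or.inl (mem_union_right _ (mem_image.2 ⟨i, mem_univ _, by simp [e]⟩)))
      by_cases c1 : c = v
      · subst c1
        rcases l.1.2 with ⟨i, e⟩ | ⟨i, e⟩
        · exact Or.inr (Or.inr (mem_union_right _ (mem_image.2 ⟨i, mem_univ _, by simp [e]⟩)))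
        · exact Or.inr (Or.inr (mem_union_left _ (mem_image.2 ⟨i, mem_univ _, by rw [e]⟩)))
      exact Or.inl ⟨l.1, (key b b1).trans l.2.1, (key c c1).trans l.2.2⟩
  have a3 : ((univ.image fun i => (v, a i v)) ∪ univ.image fun i => (v, (a i)⁻¹ v)).card ≤ k + k :=
    (card_union_le _ _).trans (add_le_add (card_image_le.trans (by simp))
      (card_image_le.trans (by simp)))
  have b1 : (NC (Ky (HG a) (Function.update y v false)) : ℝ) ≤
    NC (Ky (HG a) (Function.update y v true)) := by exact_mod_cast a1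
  have b2 : (NC (Ky (HG a) (Function.update y v true)) : ℝ) ≤
    NC (Ky (HG a) (Function.update y v false)) + (k + k) := by
      exact_mod_cast a2.trans (Nat.add_le_add_left a3 _)
  have := nf_upd y v
  unfold cc
  rw [abs_le]
  constructor <;> linarith [Nat.cast_nonneg (α := ℝ) k]

end Pool.Agent.H44.KD
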