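import Pool.Agent.H44.OSDefs

namespace Pool.Agent.H44.KD

open Pool.Agent.H44.OS Classical

variable {n : ℕ}

/-- Maximal `k`-degenerate: in some ordering `τ` of the vertices the vertex at position `i`
(counted from `0`) has exactly `min k i` neighbours at earlier positions. -/
def MaxDeg (k : ℕ) (G : SimpleGraph (Fin n)) : Prop :=
  ∃ τ : Equiv.Perm (Fin n), ∀ i : Fin n,
    (Finset.univ.filter fun j : Fin n => j < i ∧ G.Adj (τ j) (τ i)).card = min k i

/-- The best score of a stopping algorithm on `G`. -/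
noncomputable def best (G : SimpleGraph (Fin n)) : ℝ :=
  sSup {x | ∃ A, IsStop A ∧ x = score G A}

/-- `inf {m(G)/|G| : G maximal k-degenerate, |G| ≥ N}`. -/
noncomputable def low (k N : ℕ) : ℝ :=
  sInf {x | ∃ n, N ≤ n ∧ ∃ G : SimpleGraph (Fin n), MaxDeg k G ∧ x = best G / n}

end Pool.Agent.H44.KD
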