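import Pool.Agent.H44.KD3
import Pool.Agent.H44.KDDefs

open Finset SimpleGraph

namespace Pool.Agent.H44.KD

open Pool.Agent.H44.OS Classical

variable {n k : ℕ}

lemma score_eq (G : SimpleGraph (Fin n)) (A : Equiv.Perm (Fin n) → ℕ) :
    score G A = (∑ σ, cc G (ina σ (A σ))) / n.factorial := by
  simp only [score, CC_eq, CC_cc]

lemma upper (hk : 0 < k) {J : ℕ} (hJ : 0 < J) (N : ℕ) : ∃ n, N ≤ n ∧ ∃ G : SimpleGraph (Fin n),
    MaxDeg k G ∧ ∀ A, IsStop A → score G A ≤ n * (1 / (4 * k) + 8 / J) := by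
  obtain ⟨n, hn, a, W, hW, hlt, hT, hA⟩ :=
    exists_struct k (2 ^ J * J) (N + 2 * J ^ 2 + k * J + 2 * J ^ 3 * (2 * k + 1) ^ 2)
  have J0 : (0 : ℝ) < J := by exact_mod_cast hJ
  have n0 : 0 < n := by have : 0 < k * J := by positivity
                        omega
  have hB : ∀ v : Fin n, ∃ B : Finset (Fin n),
      ((univ.image fun i => (a i)⁻¹ v).filter (· < v)) ⊆ B ∧ B ⊆ Iio v ∧ B.card = min k v := by
    intro v
    have s : ((univ.image fun i => (a i)⁻¹ v).filter (· < v)) ⊆ Iio v :=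
      fun x hx => mem_Iio.2 (mem_filter.1 hx).2
    refine exists_subsuperset_card_eq s (le_min ((card_filter_le _ _).trans
      (card_image_le.trans (by simp))) ((card_le_card s).trans (by simp))) (by simp)
  choose B B1 B2 B3 using hB
  refine ⟨n, by omega, fromRel fun u v => u ∈ B v, ⟨1, fun i => ?_⟩, fun A hS => ?_⟩
  · rw [← B3]
    congr 1
    ext j
    simp only [mem_filter, mem_univ, true_and, Equiv.Perm.one_apply, fromRel_adj]
    exact ⟨fun ⟨l, _, m⟩ => m.resolve_right fun o => lt_asymm l (mem_Iio.1 (B2 _ o)),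
      fun m => ⟨mem_Iio.1 (B2 _ m), (mem_Iio.1 (B2 _ m)).ne, Or.inl m⟩⟩
  have key : ∀ y, cc (fromRel fun u v => u ∈ B v) y ≤ cc (HG a) y + n / J := by
    intro y
    have one : ∀ u i, (fromRel fun u v => u ∈ B v).Adj u (a i u) ∨
        (u, a i u) ∈ (W ×ˢ univ).image fun x : Fin n × Fin k => (x.1, a x.2 x.1) := by
      intro u i
      by_cases h : u ∈ W
      · exact Or.inr (mem_image.2 ⟨(u, i), by simp [h], rfl⟩)
      · exact Or.inl ⟨(hlt i u h).ne, Or.inl (B1 _ (mem_filter.2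
          ⟨mem_image.2 ⟨i, mem_univ _, by simp⟩, hlt i u h⟩))⟩
    have b := NC_le ((W ×ˢ univ).image fun x : Fin n × Fin k => (x.1, a x.2 x.1))
      (Ky (fromRel fun u v => u ∈ B v) y) (Ky (HG a) y) fun u v l => by
        rcases l.1.2 with ⟨i, rfl⟩ | ⟨i, rfl⟩
        · exact (one u i).imp (fun m => ⟨m, l.2⟩) Or.inl
        · exact (one v i).imp (fun m => ⟨m.symm, l.2⟩) Or.inr
    have c : ((W ×ˢ univ).image fun x : Fin n × Fin k => (x.1, a x.2 x.1)).card * J ≤ n := by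
      refine le_trans (Nat.mul_le_mul_right _ card_image_le) (le_trans ?_ hW)
      rw [card_product, card_univ, Fintype.card_fin, mul_assoc]
      exact Nat.mul_le_mul_left _ (by omega)
    have d : (((W ×ˢ univ).image fun x : Fin n × Fin k => (x.1, a x.2 x.1)).card : ℝ) ≤ n / J := by
      rw [le_div_iff₀ J0]; exact_mod_cast c
    have e := (Nat.cast_le (α := ℝ)).2 b
    push_cast at e
    unfold cc
    linarith
  have f := full_info (HG a) J hJ (by omega) (by positivity)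
    (mean_le hk hJ hA hT ⟨0, n0⟩) (lip a) A fun σ => (hS.1 σ).2
  have g : 2 * (J : ℝ) ^ 2 * (2 * k + 1) ^ 2 ≤ n / J := by
    rw [le_div_iff₀ J0]
    have : 2 * J ^ 2 * (2 * k + 1) ^ 2 * J ≤ n :=
      le_trans (le_of_eq (by ring)) ((Nat.le_add_left _ _).trans hn)
    exact_mod_cast this
  rw [score_eq, div_le_iff₀ (by positivity)]
  refine (sum_le_sum fun σ _ => key _).trans ?_
  rw [sum_add_distrib, sum_const, card_univ, Fintype.card_perm, Fintype.card_fin, nsmul_eq_mul]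
  refine (add_le_add f le_rfl).trans ?_
  rw [← mul_add, mul_comm]
  refine mul_le_mul_of_nonneg_right ?_ (by positivity)
  have : (n : ℝ) * (1 / (4 * k) + 8 / J) = n * (1 / (4 * k) + 2 / J) + 6 * (n / J) := by ring
  linarith

lemma pair_le {t : ℕ} (ht : t ≤ n) {u v : Fin n} (h : u ≠ v) :
    ((n : ℝ) * n - n) * ∑ σ, (1 - io (ina σ t) u) * (1 - io (ina σ t) v) ≤ n.factorial * t ^ 2 := by
  have a : ∀ x ∈ (univ : Finset (Fin n)).offDiag, ∑ σ, (1 - io (ina σ t) u) * (1 - io (ina σ t) v) ≤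
      ∑ σ, (1 - io (ina σ t) x.1) * (1 - io (ina σ t) x.2) := by
    rintro ⟨u', v'⟩ hx
    have h' : u' ≠ v' := (mem_offDiag.1 hx).2.2
    let π := Equiv.swap (Equiv.swap u u' v) v' * Equiv.swap u u'
    have p1 : π u = u' := by
      rw [Equiv.Perm.mul_apply, Equiv.swap_apply_left, Equiv.swap_apply_of_ne_of_ne _ h']
      exact fun e => h ((Equiv.swap u u').injective (by rw [Equiv.swap_apply_left]; exact e))
    have p2 : π v = v' := by rw [Equiv.Perm.mul_apply, Equiv.swap_apply_left]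
    rw [← Equiv.sum_comp (Equiv.mulLeft π) fun σ => (1 - io (ina σ t) u') * (1 - io (ina σ t) v')]
    refine le_of_eq (sum_congr rfl fun σ _ => ?_)
    have e : ∀ w, ina (π * σ) t (π w) = ina σ t w := fun w => by
      simp [ina, Equiv.Perm.mul_def]
    simp only [Equiv.coe_mulLeft, io, ← p1, ← p2, e]
  have b := card_nsmul_le_sum _ _ _ a
  rw [offDiag_card, card_univ, Fintype.card_fin, nsmul_eq_mul, Nat.cast_sub (Nat.le_mul_self n),
    Nat.cast_mul] at b
  refine b.trans ((sum_le_sum_of_subset_of_nonneg (subset_univ _) fun x _ _ => sum_nonneg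
    fun σ _ => mul_nonneg (sub_nonneg.2 (io_le _ _)) (sub_nonneg.2 (io_le _ _))).trans ?_)
  rw [sum_comm]
  refine (sum_le_card_nsmul univ _ ((t : ℝ) ^ 2) fun σ _ => le_of_eq ?_).trans_eq
    (by rw [card_univ, Fintype.card_perm, Fintype.card_fin, nsmul_eq_mul])
  rw [Fintype.sum_prod_type]
  simp only []
  rw [← sum_mul_sum, ← nf_eq, nf_ina σ ht, sq]

lemma lower (hk : 0 < k) (hn : 2 * k ≤ n) {G : SimpleGraph (Fin n)} (hG : MaxDeg k G) :
    ∃ A, IsStop A ∧ n / (4 * k) - 2 ≤ score G A := by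
  obtain ⟨τ, hτ⟩ := hG
  set t := n / (2 * k) with ht
  have t1 : 1 ≤ t := (Nat.le_div_iff_mul_le (by omega)).2 (by omega)
  have t2 : t ≤ n := Nat.div_le_self _ _
  refine ⟨fun _ => t, ⟨fun _ => ⟨t1, t2⟩, fun _ _ _ => rfl⟩, ?_⟩
  let F : Finset (Fin n × Fin n) := univ.biUnion fun i =>
    (univ.filter fun j : Fin n => j < i ∧ G.Adj (τ j) (τ i)).image fun j => (τ j, τ i)
  have cF : F.card ≤ n * k := by
    refine (card_biUnion_le_card_mul _ _ k fun i _ => card_image_le.trans ?_).trans (by simp)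
    rw [hτ]; exact min_le_left _ _
  have nF : ∀ x ∈ F, x.1 ≠ x.2 := fun x hx => by
    obtain ⟨i, -, l⟩ := mem_biUnion.1 hx
    obtain ⟨j, m, rfl⟩ := mem_image.1 l
    exact (mem_filter.1 m).2.2.ne
  have mF : ∀ i j, j < i → G.Adj (τ j) (τ i) → (τ j, τ i) ∈ F := fun i j a b =>
    mem_biUnion.2 ⟨i, mem_univ _, mem_image.2 ⟨j, mem_filter.2 ⟨mem_univ _, a, b⟩, rfl⟩⟩
  have key : ∀ y, nf y - ∑ x ∈ F, (1 - io y x.1) * (1 - io y x.2) ≤ cc G y := by
    intro y
    have b := NC_le (F.filter fun x => y x.1 = false ∧ y x.2 = false) ⊥ (Ky G y) fun u v l => by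
      obtain ⟨j, rfl⟩ := τ.surjective u
      obtain ⟨i, rfl⟩ := τ.surjective v
      rcases lt_trichotomy j i with c | rfl | c
      · exact Or.inr (Or.inl (mem_filter.2 ⟨mF i j c l.1, l.2⟩))
      · exact (l.ne rfl).elim
      · exact Or.inr (Or.inr (mem_filter.2 ⟨mF j i c l.1.symm, l.2.symm⟩))
    rw [NC_bot, card_filter] at b
    have e := (Nat.cast_le (α := ℝ)).2 b
    push_cast at e
    have : ∑ x ∈ F, (if y x.1 = false ∧ y x.2 = false then (1 : ℝ) else 0) =
        ∑ x ∈ F, (1 - io y x.1) * (1 - io y x.2) := sum_congr rfl fun x _ => by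
      unfold io
      cases y x.1 <;> cases y x.2 <;> simp
    unfold cc
    linarith
  have k1 : (1 : ℝ) ≤ k := by exact_mod_cast hk
  have n2 : (2 : ℝ) * k ≤ n := by exact_mod_cast hn
  have q : (0 : ℝ) < n * n - n := by nlinarith
  have F0 : (0 : ℝ) < n.factorial := by positivity
  have b := sum_le_card_nsmul F (fun x => ∑ σ, (1 - io (ina σ t) x.1) * (1 - io (ina σ t) x.2))
    (n.factorial * t ^ 2 / (n * n - n)) fun x hx => by
      rw [le_div_iff₀ q, mul_comm]; exact pair_le t2 (nF x hx)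
  rw [nsmul_eq_mul, sum_comm] at b
  have c : (F.card : ℝ) ≤ n * k := by exact_mod_cast cF
  have t3 : (t : ℝ) * (2 * k) ≤ n := by exact_mod_cast Nat.div_mul_le_self n (2 * k)
  have t4 : (n : ℝ) ≤ (t + 1) * (2 * k) := by
    exact_mod_cast ((Nat.div_lt_iff_lt_mul (by omega)).1 (Nat.lt_succ_self t)).le
  have d : (n : ℝ) * k * (t ^ 2 / (n * n - n)) ≤ n / (4 * k) + 1 := by
    rw [← mul_div_assoc, div_add_one (by positivity), div_le_div_iff₀ q (by positivity)]
    have e := pow_le_pow_left₀ (by positivity) t3 2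
    have n0 : (0 : ℝ) < n := by linarith
    have f : (n : ℝ) ^ 2 ≤ (n + 4 * k) * (n - 1) := by nlinarith
    nlinarith [mul_le_mul_of_nonneg_left (e.trans f) n0.le]
  have g : (n : ℝ) / (2 * k) ≤ t + 1 := by rw [div_le_iff₀ (by positivity)]; exact t4
  have g2 : (n : ℝ) / (2 * k) = n / (4 * k) + n / (4 * k) := by field_simp; ring
  rw [score_eq, le_div_iff₀ F0]
  refine le_trans ?_ (sum_le_sum fun σ _ => key _)
  simp only [nf_ina _ t2]
  rw [sum_sub_distrib, sum_const, card_univ, Fintype.card_perm, Fintype.card_fin, nsmul_eq_mul]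
  have h := mul_le_mul_of_nonneg_right c
    (show 0 ≤ (n.factorial : ℝ) * t ^ 2 / (n * n - n) by positivity)
  have i := mul_le_mul_of_nonneg_left d F0.le
  have j : (n : ℝ) * k * (n.factorial * t ^ 2 / (n * n - n)) =
      n.factorial * (n * k * (t ^ 2 / (n * n - n))) := by ring
  nlinarith

theorem main (hk : 0 < k) : Filter.Tendsto (low k) Filter.atTop (nhds (1 / (4 * k))) := by
  rw [Metric.tendsto_atTop]
  intro ε hε
  obtain ⟨J, hJ⟩ := exists_nat_gt (8 / ε)
  have J0 : (0 : ℝ) < J := lt_trans (by positivity) hJ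
  have J1 : 0 < J := by exact_mod_cast J0
  have J2 : (8 : ℝ) / J < ε := by rw [div_lt_iff₀ J0]; rwa [div_lt_iff₀ hε, mul_comm] at hJ
  refine ⟨2 * k + J, fun N hN => ?_⟩
  have lo : ∀ x ∈ {x | ∃ n, N ≤ n ∧ ∃ G : SimpleGraph (Fin n), MaxDeg k G ∧ x = best G / n},
      1 / (4 * k) - 2 / J ≤ x := by
    rintro x ⟨n, hn, G, hG, rfl⟩
    obtain ⟨A, hA, l⟩ := lower hk (by omega) hG
    have nJ : (J : ℝ) ≤ n := by exact_mod_cast (show J ≤ n by omega)
    have b : score G A ≤ best G := le_csSup ⟨n, by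
      rintro x ⟨A, -, rfl⟩
      rw [score_eq, div_le_iff₀ (by positivity), mul_comm]
      refine (sum_le_card_nsmul univ _ (n : ℝ) fun σ _ => ?_).trans_eq
        (by rw [card_univ, Fintype.card_perm, Fintype.card_fin, nsmul_eq_mul])
      have c : (NC (Ky G (ina σ (A σ))) : ℝ) ≤ n := by exact_mod_cast NC_le_n _
      have d : (nf (ina σ (A σ)) : ℝ) ≤ n := by exact_mod_cast nf_le _
      unfold cc
      linarith⟩ ⟨A, hA, rfl⟩
    have c : 2 ≤ 2 / J * (n : ℝ) := by rw [div_mul_eq_mul_div, le_div_iff₀ J0]; linarith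
    rw [le_div_iff₀ (by linarith), sub_mul, one_div_mul_eq_div]
    linarith
  obtain ⟨n, hn, G, hG, up⟩ := upper hk J1 N
  have m : best G / n ∈
      {x | ∃ n, N ≤ n ∧ ∃ G : SimpleGraph (Fin n), MaxDeg k G ∧ x = best G / n} :=
    ⟨n, hn, G, hG, rfl⟩
  have a : 1 / (4 * k) - 2 / J ≤ low k N := le_csInf ⟨_, m⟩ lo
  have b : low k N ≤ best G / n := csInf_le ⟨_, lo⟩ m
  have c : best G / n ≤ 1 / (4 * k) + 8 / J := by
    obtain ⟨A, hA, -⟩ := lower hk (by omega) hG
    rw [div_le_iff₀ (by exact_mod_cast (show 0 < n by omega)), mul_comm]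
    exact csSup_le ⟨_, A, hA, rfl⟩ (by rintro x ⟨A, hA, rfl⟩; exact up A hA)
  have d : (2 : ℝ) / J ≤ 8 / J := by gcongr; norm_num
  rw [Real.dist_eq, abs_lt]
  constructor <;> linarith

end Pool.Agent.H44.KD
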