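import Mathlib

open Finset Real

namespace Pool.Agent.H44.KH

/-- the sign attached to a Boolean -/
def sg (b : Bool) : ℝ := if b then 1 else -1

/-- expectation of `φ (a_1 ε_1 + ... + a_n ε_n)` over uniformly random signs -/
noncomputable def Ex {n : ℕ} (a : Fin n → ℝ) (φ : ℝ → ℝ) : ℝ :=
  (∑ ε : Fin n → Bool, φ (∑ k, a k * sg (ε k))) / 2 ^ n

variable {n : ℕ}

lemma sg_not (b : Bool) : sg (!b) = -sg b := by cases b <;> simp [sg]

lemma Ex_mono (a : Fin n → ℝ) {φ ψ : ℝ → ℝ} (h : ∀ x, φ x ≤ ψ x) : Ex a φ ≤ Ex a ψ :=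
  div_le_div_of_nonneg_right (sum_le_sum fun _ _ => h _) (by positivity)

lemma Ex_add (a : Fin n → ℝ) (φ ψ : ℝ → ℝ) : Ex a (fun x => φ x + ψ x) = Ex a φ + Ex a ψ := by
  unfold Ex; rw [sum_add_distrib, add_div]

lemma Ex_mul (a : Fin n → ℝ) (c : ℝ) (φ : ℝ → ℝ) : Ex a (fun x => c * φ x) = c * Ex a φ := by
  unfold Ex; rw [← mul_sum, mul_div_assoc]

lemma Ex_const (a : Fin n → ℝ) (c : ℝ) : Ex a (fun _ => c) = c := by
  unfold Ex; simp

lemma Ex_sum {ι : Type} (a : Fin n → ℝ) (s : Finset ι) (φ : ι → ℝ → ℝ) :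
    Ex a (fun x => ∑ i ∈ s, φ i x) = ∑ i ∈ s, Ex a (φ i) := by
  unfold Ex; rw [sum_comm, sum_div]

lemma Ex_zero (φ : ℝ → ℝ) : Ex (fun _ : Fin n => (0 : ℝ)) φ = φ 0 := by
  unfold Ex; simp

def flip (P : Fin n → Bool) : (Fin n → Bool) ≃ (Fin n → Bool) where
  toFun ε k := if P k then !ε k else ε k
  invFun ε k := if P k then !ε k else ε k
  left_inv ε := by funext k; by_cases h : P k <;> simp [h]
  right_inv ε := by funext k; by_cases h : P k <;> simp [h]

lemma Ex_abs (a : Fin n → ℝ) (φ : ℝ → ℝ) : Ex (fun k => |a k|) φ = Ex a φ := by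
  unfold Ex
  congr 1
  rw [← (flip fun k => decide (a k < 0)).sum_comp]
  refine sum_congr rfl fun ε _ => congrArg φ (sum_congr rfl fun k _ => ?_)
  by_cases h : a k < 0
  · simp [flip, h, sg_not, abs_of_neg h]
  · simp [flip, h, abs_of_nonneg (not_lt.1 h)]

lemma sum_split (a : Fin n → ℝ) (i : Fin n) (f : Fin n → ℝ) :
    ∑ k, a k * f k = ∑ k, Function.update a i 0 k * f k + a i * f i := by
  rw [← add_sum_erase _ _ (mem_univ i), ← add_sum_erase _ (fun k => Function.update a i 0 k * f k)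
    (mem_univ i), Function.update_self, zero_mul, zero_add, add_comm]
  congr 1
  exact sum_congr rfl fun k hk => by rw [Function.update_of_ne (ne_of_mem_erase hk)]

lemma Ex_step (a : Fin n → ℝ) (i : Fin n) (φ : ℝ → ℝ) :
    Ex a φ = Ex (Function.update a i 0) (fun x => (φ (x + a i) + φ (x - a i)) / 2) := by
  unfold Ex
  congr 1
  have h1 := (flip fun k => decide (k = i)).sum_comp
    (fun ε : Fin n → Bool => φ (∑ k, a k * sg (ε k)))
  have h2 : ∑ ε : Fin n → Bool, φ (∑ k, a k * sg (ε k)) =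
      (∑ ε : Fin n → Bool, φ (∑ k, a k * sg (ε k)) +
        ∑ ε : Fin n → Bool, φ (∑ k, a k * sg ((flip fun k => decide (k = i)) ε k))) / 2 := by
    rw [h1]; ring
  rw [h2, ← sum_add_distrib, sum_div]
  refine sum_congr rfl fun ε _ => ?_
  have e : ∑ k, Function.update a i 0 k * sg ((flip fun k => decide (k = i)) ε k) =
      ∑ k, Function.update a i 0 k * sg (ε k) := by
    refine sum_congr rfl fun k _ => ?_
    by_cases h : k = i
    · subst h; simp
    · simp [flip, h]
  rw [sum_split a i, sum_split a i (fun k => sg ((flip fun k => decide (k = i)) ε k)), e]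
  have e2 : (flip fun k => decide (k = i)) ε i = !ε i := by simp [flip]
  rw [e2]
  cases ε i
  · simp [sg, sub_eq_add_neg, add_comm]
  · simp [sg, sub_eq_add_neg]

lemma induct (P : (Fin n → ℝ) → Prop) (h0 : P fun _ => 0)
    (hs : ∀ a i, P (Function.update a i 0) → P a) (a : Fin n → ℝ) : P a := by
  have : ∀ s : Finset (Fin n), ∀ a : Fin n → ℝ, (∀ k, k ∉ s → a k = 0) → P a := by
    intro s
    induction s using Finset.induction_on with
    | empty => intro a ha; rwa [show a = fun _ => 0 from funext fun k => ha k (by simp)]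
    | insert i s _ ih =>
      intro a ha
      refine hs a i (ih _ fun k hk => ?_)
      by_cases h : k = i
      · subst h; simp
      · rw [Function.update_of_ne h]; exact ha k (by simp [h, hk])
  exact this univ a fun k hk => absurd (mem_univ k) hk

lemma sum_sq_split (a : Fin n → ℝ) (i : Fin n) :
    ∑ k, a k ^ 2 = ∑ k, Function.update a i 0 k ^ 2 + a i ^ 2 := by
  rw [← add_sum_erase _ _ (mem_univ i), ← add_sum_erase _ (fun k => Function.update a i 0 k ^ 2)
    (mem_univ i), Function.update_self]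
  have : ∑ k ∈ univ.erase i, Function.update a i 0 k ^ 2 = ∑ k ∈ univ.erase i, a k ^ 2 :=
    sum_congr rfl fun k hk => by rw [Function.update_of_ne (ne_of_mem_erase hk)]
  rw [this]; ring

lemma Ex_sq (a : Fin n → ℝ) : Ex a (fun x => x ^ 2) = ∑ k, a k ^ 2 := by
  refine induct (fun a => Ex a (fun x => x ^ 2) = ∑ k, a k ^ 2) (by simp [Ex_zero]) ?_ a
  intro a i ih
  rw [Ex_step a i, sum_sq_split a i, ← ih]
  have : (fun x => ((x + a i) ^ 2 + (x - a i) ^ 2) / 2) = fun x => x ^ 2 + a i ^ 2 := by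
    funext x; ring
  rw [this, Ex_add, Ex_const]

noncomputable def ind (r x : ℝ) : ℝ := if |x| ≤ r then 1 else 0

lemma couple (m r : ℝ) (a : Fin n → ℝ) (ha : ∀ k, |a k| ≤ m) :
    ∀ u v : ℝ, |v| ≤ |u| + m → Ex a (fun x => ind r (x + u)) ≤ Ex a (fun x => ind (r + m) (x + v)) := by
  revert ha
  refine induct (fun a => (∀ k, |a k| ≤ m) → ∀ u v : ℝ, |v| ≤ |u| + m →
    Ex a (fun x => ind r (x + u)) ≤ Ex a (fun x => ind (r + m) (x + v))) ?_ ?_ a
  · intro _ u v h
    rw [Ex_zero, Ex_zero, zero_add, zero_add]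
    unfold ind
    split_ifs with h1 h2
    · exact le_rfl
    · exact absurd (by linarith) h2
    · exact zero_le_one
    · exact le_rfl
  · intro a i ih ha u v h
    have hm : 0 ≤ m := (abs_nonneg _).trans (ha i)
    have ih' := ih fun k => by
      by_cases hk : k = i
      · subst hk; simpa using hm
      · rw [Function.update_of_ne hk]; exact ha k
    rw [Ex_step a i, Ex_step a i (fun x => ind (r + m) (x + v))]
    have e : ∀ (ρ w : ℝ), (fun x => (ind ρ (x + a i + w) + ind ρ (x - a i + w)) / 2) =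
        fun x => (1 / 2) * ind ρ (x + (w + a i)) + (1 / 2) * ind ρ (x + (w - a i)) := by
      intro ρ w; funext x
      rw [show x + a i + w = x + (w + a i) by ring, show x - a i + w = x + (w - a i) by ring]; ring
    rw [e, e, Ex_add, Ex_add, Ex_mul, Ex_mul, Ex_mul, Ex_mul]
    have hc := abs_le.1 (ha i)
    set c := a i
    have key : (|v + c| ≤ |u + c| + m ∧ |v - c| ≤ |u - c| + m) ∨
        (|v - c| ≤ |u + c| + m ∧ |v + c| ≤ |u - c| + m) := by
      have a1 := le_abs_self (u + c)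
      have a2 := neg_le_abs (u + c)
      have a3 := le_abs_self (u - c)
      have a4 := neg_le_abs (u - c)
      rcases abs_cases u with ⟨hu, hu'⟩ | ⟨hu, hu'⟩ <;> rcases abs_cases v with ⟨hv, hv'⟩ | ⟨hv, hv'⟩
      · left; constructor <;> rw [abs_le] <;> constructor <;> linarith [hc.1, hc.2, abs_nonneg (u + c), abs_nonneg (u - c)]
      · right; constructor <;> rw [abs_le] <;> constructor <;> linarith [hc.1, hc.2, abs_nonneg (u + c), abs_nonneg (u - c)]
      · right; constructor <;> rw [abs_le] <;> constructor <;> linarith [hc.1, hc.2, abs_nonneg (u + c), abs_nonneg (u - c)]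
      · left; constructor <;> rw [abs_le] <;> constructor <;> linarith [hc.1, hc.2, abs_nonneg (u + c), abs_nonneg (u - c)]
    rcases key with ⟨k1, k2⟩ | ⟨k1, k2⟩
    · linarith [ih' _ _ k1, ih' _ _ k2]
    · linarith [ih' _ _ k1, ih' _ _ k2]

lemma ind_nonneg (r x : ℝ) : 0 ≤ ind r x := by unfold ind; split_ifs <;> norm_num

lemma cover {r : ℝ} (hr : 0 < r) (K : ℕ) (hK : 2 ≤ (2 * K + 1) * r) (x : ℝ) :
    1 - x ^ 2 / 4 ≤ ∑ k ∈ range (2 * K + 1), ind r (x + (2 * K * r - 2 * r * k)) := by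
  by_cases hx : 4 ≤ x ^ 2
  · exact le_trans (by linarith) (sum_nonneg fun k _ => ind_nonneg _ _)
  · have h1 : x < 2 := by nlinarith
    have h2 : -2 < x := by nlinarith
    set t := (x + (2 * K + 1) * r) / (2 * r) with ht
    have ht0 : 0 ≤ t := div_nonneg (by linarith) (by linarith)
    have ht1 : t < ((2 * K + 1 : ℕ) : ℝ) := by
      rw [ht, div_lt_iff₀ (by linarith)]; push_cast; linarith
    have hk : ⌊t⌋₊ < 2 * K + 1 := (Nat.floor_lt ht0).2 ht1
    have h3 := Nat.floor_le ht0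
    have h4 := Nat.lt_floor_add_one t
    have e : t * (2 * r) = x + (2 * K + 1) * r := by rw [ht]; field_simp
    have h5 : (⌊t⌋₊ : ℝ) * (2 * r) ≤ t * (2 * r) := mul_le_mul_of_nonneg_right h3 (by linarith)
    have h6 : t * (2 * r) ≤ ((⌊t⌋₊ : ℝ) + 1) * (2 * r) :=
      mul_le_mul_of_nonneg_right h4.le (by linarith)
    have h7 : ind r (x + (2 * K * r - 2 * r * (⌊t⌋₊ : ℝ))) = 1 := by
      unfold ind
      rw [if_pos]
      rw [abs_le]; constructor <;> linarith
    have h8 := single_le_sum (f := fun k : ℕ => ind r (x + (2 * K * r - 2 * r * k)))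
      (fun k _ => ind_nonneg _ _) (mem_range.2 hk)
    have := sq_nonneg x
    beta_reduce at h8
    linarith

lemma small (m : ℝ) (hm : 0 < m) (hm1 : m ≤ 1) (a : Fin n → ℝ) (ha : ∀ k, |a k| ≤ m)
    (hs : ∑ k, a k ^ 2 ≤ 1) : 3 / 52 * m ≤ Ex a (ind (6 / 5 * m)) := by
  set r := m / 5 with hr
  have hr0 : 0 < r := by positivity
  set K := ⌈1 / r⌉₊ with hK
  have h1 : 1 / r ≤ K := Nat.le_ceil _
  have h2 : (K : ℝ) < 1 / r + 1 := Nat.ceil_lt_add_one (by positivity)
  rw [div_le_iff₀ hr0] at h1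
  have h3 : (K : ℝ) * r ≤ 1 + r := by
    have := mul_le_mul_of_nonneg_right h2.le hr0.le
    rwa [add_mul, one_div, inv_mul_cancel₀ hr0.ne', one_mul] at this
  have h4 := Ex_mono a (cover hr0 K (by linarith))
  rw [Ex_sum] at h4
  have h5 : Ex a (fun x => 1 - x ^ 2 / 4) = 1 - (∑ k, a k ^ 2) / 4 := by
    have : (fun x : ℝ => 1 - x ^ 2 / 4) = fun x => 1 + (-1 / 4) * x ^ 2 := by funext x; ring
    rw [this, Ex_add, Ex_const, Ex_mul, Ex_sq]; ring
  have h6 : ∀ u : ℝ, Ex a (fun x => ind r (x + u)) ≤ Ex a (ind (6 / 5 * m)) := fun u => by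
    have := couple m r a ha u 0 (by simp only [abs_zero]; positivity)
    simp only [add_zero] at this
    rwa [show r + m = 6 / 5 * m by rw [hr]; ring] at this
  have h7 := sum_le_sum (s := range (2 * K + 1))
    (f := fun k : ℕ => Ex a fun x => ind r (x + (2 * K * r - 2 * r * k)))
    (g := fun _ => Ex a (ind (6 / 5 * m))) fun k _ => h6 _
  rw [sum_const, card_range, nsmul_eq_mul] at h7
  push_cast at h7
  set g := Ex a (ind (6 / 5 * m))
  have h8 : 3 / 4 ≤ (2 * K + 1) * g := by linarith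
  have hg : 0 ≤ g := by
    by_contra hg
    have : (2 * (K : ℝ) + 1) * g ≤ 0 := mul_nonpos_of_nonneg_of_nonpos (by positivity) (by linarith)
    linarith
  have h9 : (2 * K + 1) * r ≤ 13 / 5 := by linarith
  have h10 := mul_le_mul_of_nonneg_right h8 hr0.le
  have h11 := mul_le_mul_of_nonneg_right h9 hg
  nlinarith

/-- positive part cubed -/
noncomputable def kk (y t : ℝ) : ℝ := max (t - y) 0 ^ 3

lemma h_eq (x t : ℝ) (ht : 0 ≤ t) :
    (|x + t| ^ 3 + |x - t| ^ 3) / 2 = |x| ^ 3 + 3 * |x| * t ^ 2 + kk |x| t := by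
  have key : ∀ y : ℝ, 0 ≤ y → (|y + t| ^ 3 + |y - t| ^ 3) / 2 = y ^ 3 + 3 * y * t ^ 2 + kk y t := by
    intro y hy
    unfold kk
    rw [abs_of_nonneg (by linarith : 0 ≤ y + t)]
    rcases le_total t y with h | h
    · rw [abs_of_nonneg (by linarith : 0 ≤ y - t), max_eq_right (by linarith)]; ring
    · rw [abs_of_nonpos (by linarith : y - t ≤ 0), max_eq_left (by linarith)]; ring
  rcases le_total 0 x with h | h
  · rw [abs_of_nonneg h]; exact key x h
  · rw [abs_of_nonpos h, ← key (-x) (by linarith), add_comm (|x + t| ^ 3)]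
    rw [← abs_neg (x - t), ← abs_neg (x + t)]
    congr 4 <;> ring

lemma kk_gap {y p q P : ℝ} (hy : 0 ≤ y) (hq : 0 ≤ q) (hqp : q ≤ p) (hP : 0 < P)
    (hs : P ^ 2 = p ^ 2 + q ^ 2) :
    kk y p + kk y q + (max (P - y) 0 / P) ^ 3 * (q ^ 2 * P / 4) ≤ kk y P := by
  set l := max (P - y) 0 / P with hl
  have hl0 : 0 ≤ l := div_nonneg (le_max_right _ _) hP.le
  have e : max (P - y) 0 = l * P := by rw [hl]; field_simp
  have hp : 0 ≤ p := hq.trans hqp
  have hpP : p ≤ P := by nlinarith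
  have hqP : q ≤ 3 / 4 * P := by nlinarith
  have lin : ∀ t, 0 ≤ t → t ≤ P → max (t - y) 0 ≤ l * t := by
    intro t ht htP
    refine max_le ?_ (mul_nonneg hl0 ht)
    have h1 : P - y ≤ l * P := e ▸ le_max_left _ _
    have h2 : (t - y) * P ≤ (l * t) * P := by nlinarith
    exact le_of_mul_le_mul_right h2 hP
  have h1 : kk y p ≤ l ^ 3 * (p ^ 2 * P) := by
    unfold kk
    have a1 := lin p hp hpP
    have a2 : max (p - y) 0 ≤ l * P := a1.trans (mul_le_mul_of_nonneg_left hpP hl0)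
    have a0 : 0 ≤ max (p - y) 0 := le_max_right _ _
    calc max (p - y) 0 ^ 3 = max (p - y) 0 ^ 2 * max (p - y) 0 := by ring
      _ ≤ (l * p) ^ 2 * (l * P) :=
          mul_le_mul (pow_le_pow_left₀ a0 a1 2) a2 a0 (sq_nonneg _)
      _ = _ := by ring
  have h2 : kk y q ≤ l ^ 3 * (q ^ 2 * (3 / 4 * P)) := by
    unfold kk
    have a1 := lin q hq (by linarith)
    have a0 : 0 ≤ max (q - y) 0 := le_max_right _ _
    calc max (q - y) 0 ^ 3 ≤ (l * q) ^ 3 := pow_le_pow_left₀ a0 a1 3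
      _ = l ^ 3 * (q ^ 2 * q) := by ring
      _ ≤ _ := mul_le_mul_of_nonneg_left (mul_le_mul_of_nonneg_left hqP (sq_nonneg _))
          (pow_nonneg hl0 3)
  have h3 : kk y P = l ^ 3 * (P * (p ^ 2 + q ^ 2)) := by
    unfold kk; rw [e, ← hs]; ring
  rw [h3]
  linarith

/-- the four-point average -/
noncomputable def G (a b x : ℝ) : ℝ :=
  ((|x + b + a| ^ 3 + |x + b - a| ^ 3) / 2 + (|x - b + a| ^ 3 + |x - b - a| ^ 3) / 2) / 2

lemma two_point {a b c : ℝ} (hb : 0 ≤ b) (hab : b ≤ a) (hc : 0 < c)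
    (hs : 2 * c ^ 2 = a ^ 2 + b ^ 2) (x : ℝ) :
    G a b x + (1 / 2500 * ((a - b) ^ 2 * (2 * c))) * ind (6 / 5 * a) x ≤ G c c x := by
  have e1 : G a b x = ((|x + (a + b)| ^ 3 + |x - (a + b)| ^ 3) / 2 +
      (|x + (a - b)| ^ 3 + |x - (a - b)| ^ 3) / 2) / 2 := by
    unfold G
    rw [show x + b + a = x + (a + b) by ring, show x + b - a = x - (a - b) by ring,
      show x - b + a = x + (a - b) by ring, show x - b - a = x - (a + b) by ring]; ring
  have e2 : G c c x = ((|x + 2 * c| ^ 3 + |x - 2 * c| ^ 3) / 2 + |x| ^ 3) / 2 := by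
    unfold G
    rw [show x + c + c = x + 2 * c by ring, show x + c - c = x by ring,
      show x - c + c = x by ring, show x - c - c = x - 2 * c by ring]; ring
  rw [e1, e2, h_eq x _ (by linarith), h_eq x _ (by linarith), h_eq x _ (by linarith)]
  have hs' : (2 * c) ^ 2 = (a + b) ^ 2 + (a - b) ^ 2 := by linarith
  have h := kk_gap (abs_nonneg x) (by linarith : 0 ≤ a - b) (by linarith : a - b ≤ a + b)
    (by linarith : 0 < 2 * c) hs'
  have h2 : 1 / 2500 * ((a - b) ^ 2 * (2 * c)) * ind (6 / 5 * a) x ≤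
      (max (2 * c - |x|) 0 / (2 * c)) ^ 3 * ((a - b) ^ 2 * (2 * c) / 4) / 2 := by
    unfold ind
    split_ifs with hx
    · have h3 : a ≤ 283 / 200 * c := by nlinarith
      have h4 : 3 / 20 ≤ max (2 * c - |x|) 0 / (2 * c) := by
        rw [le_div_iff₀ (by linarith)]
        exact le_trans (by linarith) (le_max_left _ _)
      have h5 := pow_le_pow_left₀ (by norm_num) h4 3
      have h6 : 0 ≤ (a - b) ^ 2 * (2 * c) := by positivity
      nlinarith
    · rw [mul_zero]; positivity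
  rw [hs']
  linarith

end Pool.Agent.H44.KH
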