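import Pool.Agent.H44.KH1

open Finset Real

namespace Pool.Agent.H44.KH

variable {n : ℕ}

noncomputable def F (a : Fin n → ℝ) : ℝ := Ex a fun x => |x| ^ 3

noncomputable def D (a : Fin n → ℝ) : ℝ := ∑ k, (a k ^ 2 - (n : ℝ)⁻¹) ^ 2

lemma F_eq (a : Fin n → ℝ) {i j : Fin n} (hij : j ≠ i) :
    F a = Ex (Function.update (Function.update a i 0) j 0) (G (a i) (a j)) := by
  unfold F
  rw [Ex_step a i, Ex_step _ j, Function.update_of_ne hij]
  rfl

lemma sum_two (a : Fin n → ℝ) {i j : Fin n} (hij : j ≠ i) (c d : ℝ) (f : ℝ → ℝ) :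
    ∑ k, f (Function.update (Function.update a i c) j d k) =
      ∑ k, f (a k) - f (a i) - f (a j) + f c + f d := by
  have hj : j ∈ univ.erase i := mem_erase.2 ⟨hij, mem_univ j⟩
  rw [← add_sum_erase _ _ (mem_univ i), ← add_sum_erase _ _ hj,
    ← add_sum_erase _ (fun k => f (a k)) (mem_univ i), ← add_sum_erase _ (fun k => f (a k)) hj,
    Function.update_self, Function.update_of_ne hij.symm, Function.update_self]
  have : ∑ k ∈ (univ.erase i).erase j, f (Function.update (Function.update a i c) j d k) =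
      ∑ k ∈ (univ.erase i).erase j, f (a k) := sum_congr rfl fun k hk => by
    rw [Function.update_of_ne (ne_of_mem_erase hk),
      Function.update_of_ne (ne_of_mem_erase (mem_of_mem_erase hk))]
  rw [this]; ring

lemma step (a : Fin n → ℝ) (h0 : ∀ k, 0 ≤ a k) (h1 : ∑ k, a k ^ 2 = 1) {i j : Fin n}
    (hi : ∀ k, a k ≤ a i) (hlt : a j < a i) :
    ∃ a' : Fin n → ℝ, (∀ k, 0 ≤ a' k) ∧ ∑ k, a' k ^ 2 = 1 ∧
      F a + 1 / 100000 * D a < F a' + 1 / 100000 * D a' := by
  have hij : j ≠ i := fun h => by rw [h] at hlt; exact lt_irrefl _ hlt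
  have hpos : 0 < a i := (h0 j).trans_lt hlt
  have hb := h0 j
  set c := √((a i ^ 2 + a j ^ 2) / 2) with hc
  have hc0 : 0 < c := sqrt_pos.2 (by positivity)
  have hs : 2 * c ^ 2 = a i ^ 2 + a j ^ 2 := by
    rw [hc, sq_sqrt (by positivity)]; ring
  set a' := Function.update (Function.update a i c) j c with ha'
  set z := Function.update (Function.update a i 0) j 0 with hz
  have hi1 : a i ≤ 1 := by
    have := single_le_sum (f := fun k => a k ^ 2) (fun k _ => sq_nonneg _) (mem_univ i)
    beta_reduce at this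
    nlinarith
  refine ⟨a', fun k => ?_, ?_, ?_⟩
  · by_cases hk : k = j
    · rw [ha', hk, Function.update_self]; exact hc0.le
    · rw [ha', Function.update_of_ne hk]
      by_cases hk' : k = i
      · rw [hk', Function.update_self]; exact hc0.le
      · rw [Function.update_of_ne hk']; exact h0 k
  · rw [ha', sum_two a hij c c (fun t => t ^ 2)]; linarith
  · have e1 := F_eq a hij
    have e2 := F_eq a' hij
    have e3 : Function.update (Function.update a' i 0) j 0 = z := by
      funext k
      by_cases hk : k = j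
      · rw [hz, hk, Function.update_self, Function.update_self]
      · rw [hz, Function.update_of_ne hk, Function.update_of_ne hk]
        by_cases hk' : k = i
        · rw [hk', Function.update_self, Function.update_self]
        · rw [Function.update_of_ne hk', Function.update_of_ne hk', ha', Function.update_of_ne hk,
            Function.update_of_ne hk']
    have e4 : a' i = c := by rw [ha', Function.update_of_ne hij.symm, Function.update_self]
    have e5 : a' j = c := by rw [ha', Function.update_self]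
    rw [e3, e4, e5] at e2
    rw [← hz] at e1
    have h2 := Ex_mono z (two_point hb hlt.le hc0 hs)
    rw [Ex_add, Ex_mul, ← e1] at h2
    have h2' : Ex z (fun x => G c c x) = F a' := e2.symm
    have hz1 : ∀ k, |z k| ≤ a i := fun k => by
      by_cases hk : k = j
      · rw [hz, hk, Function.update_self, abs_zero]; exact hpos.le
      · rw [hz, Function.update_of_ne hk]
        by_cases hk' : k = i
        · rw [hk', Function.update_self, abs_zero]; exact hpos.le
        · rw [Function.update_of_ne hk', abs_of_nonneg (h0 k)]; exact hi k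
    have hz2 : ∑ k, z k ^ 2 ≤ 1 := by
      rw [hz, sum_two a hij 0 0 (fun t => t ^ 2)]
      nlinarith [sq_nonneg (a i), sq_nonneg (a j)]
    have h3 := small (a i) hpos hi1 z hz1 hz2
    have e6 : D a' = D a - (a i ^ 2 - a j ^ 2) ^ 2 / 2 := by
      unfold D
      rw [ha', sum_two a hij c c (fun t => (t ^ 2 - (n : ℝ)⁻¹) ^ 2)]
      have : c ^ 2 = (a i ^ 2 + a j ^ 2) / 2 := by linarith
      rw [this]; ring
    have hq : 0 < (a i - a j) ^ 2 := pow_pos (by linarith) 2
    have h4 := mul_le_mul_of_nonneg_left h3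
      (show 0 ≤ 1 / 2500 * ((a i - a j) ^ 2 * (2 * c)) by positivity)
    have h5 : a i + a j ≤ 2 * c := by nlinarith [sq_nonneg (a i - a j)]
    have h6 : (a i + a j) ^ 2 ≤ 2 * ((2 * c) * a i) := by nlinarith
    have h7 := mul_le_mul_of_nonneg_left h6 hq.le
    have h8 : 0 < (a i - a j) ^ 2 * ((2 * c) * a i) := by positivity
    have e7 : (a i ^ 2 - a j ^ 2) ^ 2 = (a i - a j) ^ 2 * (a i + a j) ^ 2 := by ring
    rw [e6, e7]
    have e8 : Ex z (fun x => ind (6 / 5 * a i) x) = Ex z (ind (6 / 5 * a i)) := rfl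
    linarith

theorem main (hn : 1 ≤ n) (a : Fin n → ℝ) (h1 : ∑ k, a k ^ 2 = 1) :
    F a ≤ F (fun _ : Fin n => (√n)⁻¹) - 1 / 100000 * D a := by
  set K : Set (Fin n → ℝ) := {a | (∀ k, 0 ≤ a k) ∧ ∑ k, a k ^ 2 = 1} with hK
  have hKc : IsCompact K := by
    refine (isCompact_Icc (a := fun _ => (0 : ℝ)) (b := fun _ => (1 : ℝ))).of_isClosed_subset ?_ ?_
    · refine IsClosed.inter (s₁ := {a : Fin n → ℝ | ∀ k, 0 ≤ a k})
        (s₂ := {a : Fin n → ℝ | ∑ k, a k ^ 2 = 1}) isClosed_Ici (isClosed_eq (by fun_prop) continuous_const)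
    · intro b hb
      refine ⟨hb.1, fun k => ?_⟩
      have := single_le_sum (f := fun k => b k ^ 2) (fun k _ => sq_nonneg _) (mem_univ k)
      have h2 := hb.2
      have h3 := hb.1 k
      beta_reduce at this ⊢
      nlinarith
  have hcont : Continuous fun b : Fin n → ℝ => F b + 1 / 100000 * D b := by
    unfold F D Ex; fun_prop
  have hmem : (fun k => |a k|) ∈ K := ⟨fun k => abs_nonneg _, by simpa using h1⟩
  obtain ⟨b, hb, hmax⟩ := hKc.exists_isMaxOn ⟨_, hmem⟩ hcont.continuousOn
  haveI : Nonempty (Fin n) := ⟨⟨0, hn⟩⟩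
  obtain ⟨i, hi⟩ := Finite.exists_max b
  have hall : ∀ j, b j = b i := fun j => by
    by_contra hne
    obtain ⟨a', h0', h1', hlt⟩ := step b hb.1 hb.2 hi (lt_of_le_of_ne (hi j) hne)
    exact absurd (hmax (show a' ∈ K from ⟨h0', h1'⟩)) (not_le.2 hlt)
  have hn' : (0 : ℝ) < n := by exact_mod_cast hn
  have hbi : b i ^ 2 = (n : ℝ)⁻¹ := by
    have h2 := hb.2
    simp only [hall, sum_const, card_univ, Fintype.card_fin, nsmul_eq_mul] at h2
    field_simp; linarith
  have hb' : b = fun _ => (√n)⁻¹ := by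
    funext k
    rw [hall k, ← sqrt_inv, ← hbi, sqrt_sq (hb.1 i)]
  have hD : D b = 0 := by
    unfold D; simp only [hall, hbi, sub_self]; simp
  have h3 : F (fun k => |a k|) + 1 / 100000 * D (fun k => |a k|) ≤ F b + 1 / 100000 * D b :=
    hmax hmem
  have h4 : F (fun k => |a k|) = F a := Ex_abs a _
  have h5 : D (fun k => |a k|) = D a := by unfold D; simp only [sq_abs]
  rw [h4, h5, hD, hb'] at h3
  linarith

end Pool.Agent.H44.KH
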