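import Mathlib

/-! Dirichlet averages: complete homogeneous symmetric polynomials are moments. -/

open MeasureTheory Finset

namespace Pool.Agent.H44.KMP

theorem beta_int (s m : ℕ) : ∫ v in (0 : ℝ)..1, v ^ m * (1 - v) ^ s =
    (m.factorial * s.factorial : ℝ) / (m + s + 1).factorial := by
  induction s generalizing m with
  | zero =>
    simp only [pow_zero, mul_one, integral_pow, Nat.factorial_zero, add_zero, Nat.factorial_succ]
    have := Nat.factorial_pos m
    push_cast
    field_simp
    simp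
  | succ s ih =>
    have h : ∀ v ∈ Set.uIcc (0 : ℝ) 1, HasDerivAt (fun v : ℝ => v ^ (m + 1) * (1 - v) ^ (s + 1))
        ((m + 1) * (v ^ m * (1 - v) ^ (s + 1)) - (s + 1) * (v ^ (m + 1) * (1 - v) ^ s)) v :=
      fun v _ => by
        refine (((hasDerivAt_id v).pow (m + 1)).mul
          (((hasDerivAt_id v).const_sub 1).pow (s + 1))).congr_deriv ?_
        simp
        ring
    have h2 := intervalIntegral.integral_eq_sub_of_hasDerivAt h
      (Continuous.intervalIntegrable (by fun_prop) _ _)
    rw [intervalIntegral.integral_sub (Continuous.intervalIntegrable (by fun_prop) _ _)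
      (Continuous.intervalIntegrable (by fun_prop) _ _), intervalIntegral.integral_const_mul,
      intervalIntegral.integral_const_mul, ih] at h2
    simp only [one_pow, sub_self, ne_eq, Nat.add_eq_zero_iff, one_ne_zero, and_false,
      not_false_eq_true, zero_pow, mul_zero, zero_mul] at h2
    have h3 : ((m : ℝ) + 1) ≠ 0 := by positivity
    have h4 : (((m + (s + 1) + 1).factorial : ℕ) : ℝ) ≠ 0 := by positivity
    rw [show m + 1 + s + 1 = m + (s + 1) + 1 by ring] at h2
    refine mul_left_cancel₀ h3 ((sub_eq_zero.1 h2).trans ?_)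
    rw [Nat.factorial_succ m, Nat.factorial_succ s]
    push_cast
    field_simp

/-- the Beta law with parameters `1` and `r + 1` -/
noncomputable def bet (r : ℕ) : Measure ℝ :=
  (volume.restrict (Set.Ioc (0 : ℝ) 1)).withDensity fun v => ENNReal.ofReal ((r + 1) * (1 - v) ^ r)

theorem bet_ae (r : ℕ) : ∀ᵐ v ∂bet r, v ∈ Set.Icc (0 : ℝ) 1 :=
  (withDensity_absolutelyContinuous _ _).ae_le
    ((ae_restrict_mem measurableSet_Ioc).mono fun _ h => Set.Ioc_subset_Icc_self h)

theorem bet_int (r : ℕ) (g : ℝ → ℝ) :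
    ∫ v, g v ∂bet r = ∫ v in (0 : ℝ)..1, (r + 1) * (1 - v) ^ r * g v := by
  rw [bet, integral_withDensity_eq_integral_toReal_smul (by fun_prop) (by simp),
    intervalIntegral.integral_of_le zero_le_one]
  refine setIntegral_congr_fun measurableSet_Ioc fun v hv => ?_
  have : 0 ≤ 1 - v := sub_nonneg.2 hv.2
  simp only [smul_eq_mul]
  rw [ENNReal.toReal_ofReal (by positivity)]

theorem bet_mom (r m s : ℕ) : ∫ v, v ^ m * (1 - v) ^ s ∂bet r =
    (r + 1) * ((m.factorial * (s + r).factorial : ℝ) / (m + (s + r) + 1).factorial) := by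
  rw [bet_int, ← beta_int, ← intervalIntegral.integral_const_mul]
  congr 1
  funext v
  ring

instance (r : ℕ) : IsProbabilityMeasure (bet r) := by
  refine isProbabilityMeasure_iff_real.2 ?_
  have := bet_mom r 0 0
  simp only [pow_zero, mul_one, integral_const, smul_eq_mul, Nat.factorial_zero, zero_add,
    Nat.factorial_succ] at this
  rw [this]
  have := Nat.factorial_pos r
  push_cast
  field_simp

theorem integrable_of_ae {ν : Measure ℝ} [IsFiniteMeasure ν] {a c : ℝ}
    (h : ∀ᵐ x ∂ν, x ∈ Set.Icc a c) {g : ℝ → ℝ} (hg : Continuous g) : Integrable g ν := by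
  rw [← Measure.restrict_eq_self_of_ae_mem h]
  exact hg.continuousOn.integrableOn_compact isCompact_Icc

variable {ι : Type} [DecidableEq ι]

/-- complete homogeneous symmetric polynomial -/
noncomputable def H (θ : ι → ℝ) (B : Finset ι) (l : ℕ) : ℝ :=
  ∑ g ∈ piAntidiag B l, ∏ i ∈ B, θ i ^ g i

theorem H_cons (θ : ι → ℝ) {B : Finset ι} {i : ι} (hi : i ∉ B) (l : ℕ) :
    H θ (cons i B hi) l = ∑ p ∈ antidiagonal l, θ i ^ p.1 * H θ B p.2 := by
  rw [H, piAntidiag_cons, sum_disjiUnion]
  refine sum_congr rfl fun p _ => ?_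
  rw [sum_map, H, mul_sum]
  refine sum_congr rfl fun g hg => ?_
  have h1 : g i = 0 := not_not.1 fun h => hi ((mem_piAntidiag.1 hg).2 i h)
  rw [prod_cons]
  simp only [addRightEmbedding_apply, Pi.add_apply, if_true, h1, zero_add]
  congr 1
  refine prod_congr rfl fun j hj => ?_
  rw [if_neg (fun h : j = i => hi (h ▸ hj)), add_zero]

theorem moments (θ : ι → ℝ) {a c : ℝ} (hθ : ∀ i, θ i ∈ Set.Icc a c) {B : Finset ι}
    (hB : B.Nonempty) : ∃ ν : Measure ℝ, IsProbabilityMeasure ν ∧ (∀ᵐ x ∂ν, x ∈ Set.Icc a c) ∧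
      ∀ l, H θ B l = ((B.card - 1 + l).choose l : ℝ) * ∫ x, x ^ l ∂ν := by
  induction hB using Nonempty.cons_induction with
  | singleton i =>
    refine ⟨Measure.dirac (θ i), inferInstance, (ae_dirac_iff measurableSet_Icc).2 (hθ i),
      fun l => ?_⟩
    have := H_cons θ (notMem_empty i) l
    simp only [cons_empty] at this
    rw [this, sum_eq_single (l, 0)]
    · simp [H]
    · rintro ⟨p, q⟩ h1 h2
      have h3 : q ≠ 0 := by
        rintro rfl
        simp_all
      simp [H, h3]
    · simp
  | cons i B hi hB ih =>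
    obtain ⟨ν, hν, h1, h2⟩ := ih
    obtain ⟨r, hr⟩ : ∃ r, B.card = r + 1 := Nat.exists_eq_succ_of_ne_zero hB.card_pos.ne'
    let T : ℝ × ℝ → ℝ := fun p => p.1 * θ i + (1 - p.1) * p.2
    have hT : Measurable T := by fun_prop
    refine ⟨((bet r).prod ν).map T, Measure.isProbabilityMeasure_map hT.aemeasurable, ?_,
      fun l => ?_⟩
    · refine (ae_map_iff hT.aemeasurable measurableSet_Icc).2 ?_
      filter_upwards [Measure.quasiMeasurePreserving_fst.ae (bet_ae r),
        Measure.quasiMeasurePreserving_snd.ae h1] with p hp hq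
      have := hθ i
      constructor <;> simp only [T] <;> nlinarith [hp.1, hp.2, hq.1, hq.2, this.1, this.2]
    · rw [integral_map hT.aemeasurable (by fun_prop), H_cons]
      have e : ∀ p : ℝ × ℝ, T p ^ l = ∑ q ∈ antidiagonal l,
          (l.choose q.1 * θ i ^ q.1) * ((p.1 ^ q.1 * (1 - p.1) ^ q.2) * p.2 ^ q.2) := fun p => by
        rw [(Commute.all _ _).add_pow']
        refine sum_congr rfl fun q _ => ?_
        rw [nsmul_eq_mul, mul_pow, mul_pow]
        ring
      simp only [e]
      rw [integral_finsetSum _ fun q _ => ((integrable_of_ae (bet_ae r) (g := fun v =>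
        v ^ q.1 * (1 - v) ^ q.2) (by fun_prop)).mul_prod (integrable_of_ae h1 (g := fun x =>
          x ^ q.2) (by fun_prop))).const_mul _, mul_sum]
      refine sum_congr rfl fun q hq => ?_
      rw [integral_const_mul, integral_prod_mul (fun v => v ^ q.1 * (1 - v) ^ q.2) (· ^ q.2),
        bet_mom, h2, card_cons, hr, ← mem_antidiagonal.1 hq]
      obtain ⟨m, s⟩ := q
      simp only [Nat.add_sub_cancel]
      rw [← Nat.choose_symm_add (a := r), ← Nat.choose_symm_add (a := r + 1), Nat.cast_add_choose,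
        Nat.cast_add_choose, Nat.cast_add_choose, add_comm m s,
        show m + (s + r) + 1 = r + 1 + (s + m) by ring, add_comm s r, Nat.factorial_succ r]
      have := Nat.factorial_pos r
      have := Nat.factorial_pos s
      have := Nat.factorial_pos m
      have := Nat.factorial_pos (s + m)
      have := Nat.factorial_pos (r + 1 + (s + m))
      push_cast
      field_simp

theorem average (θ : ι → ℝ) {a c : ℝ} (hθ : ∀ i, θ i ∈ Set.Icc a c) {B : Finset ι}
    (hB : B.Nonempty) : ∃ ν : Measure ℝ, IsProbabilityMeasure ν ∧ (∀ᵐ x ∂ν, x ∈ Set.Icc a c) ∧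
      ∀ l, H θ B l = (piAntidiag B l).card * ∫ x, x ^ l ∂ν := by
  obtain ⟨ν, h1, h2, h3⟩ := moments θ hθ hB
  obtain ⟨ν', h1', h2', h3'⟩ := moments (fun _ : ι => (1 : ℝ)) (a := 1) (c := 1) (by simp) hB
  refine ⟨ν, h1, h2, fun l => ?_⟩
  have h4 : ∫ x, x ^ l ∂ν' = 1 := by
    rw [integral_congr_ae (g := fun _ => 1)]
    · simp
    · filter_upwards [h2'] with x hx
      rw [le_antisymm hx.2 hx.1, one_pow]
  have h5 := h3' l
  rw [h4, mul_one] at h5
  rw [h3, ← h5]
  simp [H]

end Pool.Agent.H44.KMP
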