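import Pool.Agent.H44.KMP1

/-! Combinatorics of the redistribution operators. -/

open MeasureTheory Finset

namespace Pool.Agent.H44.KMP

variable {n : ℕ}

/-- level set -/
def lev (n k : ℕ) : Finset (Fin n → ℕ) := piAntidiag univ k

theorem mem_lev {k : ℕ} {g : Fin n → ℕ} : g ∈ lev n k ↔ ∑ i, g i = k := by simp [lev]

/-- class of a configuration -/
def cls (B : Finset (Fin n)) (η : Fin n → ℕ) : Finset (Fin n → ℕ) :=
  (lev n (∑ i, η i)).filter fun g => ∀ j ∉ B, g j = η j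

theorem mem_cls {B : Finset (Fin n)} {η g : Fin n → ℕ} :
    g ∈ cls B η ↔ ∑ i, g i = ∑ i, η i ∧ ∀ j ∉ B, g j = η j := by simp [cls, mem_lev]

theorem self_cls (B : Finset (Fin n)) (η : Fin n → ℕ) : η ∈ cls B η := by simp [mem_cls]

theorem card_cls (B : Finset (Fin n)) (η : Fin n → ℕ) : (0 : ℝ) < (cls B η).card := by
  exact_mod_cast card_pos.2 ⟨η, self_cls B η⟩

theorem cls_eq {B : Finset (Fin n)} {η g : Fin n → ℕ} (h : g ∈ cls B η) : cls B g = cls B η := by
  obtain ⟨h1, h2⟩ := mem_cls.1 h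
  ext f
  simp only [mem_cls, h1]
  exact and_congr_right fun _ => forall₂_congr fun j hj => by rw [h2 j hj]

theorem sum_cls {B : Finset (Fin n)} {η g : Fin n → ℕ} (h : g ∈ cls B η) :
    ∑ i ∈ B, g i = ∑ i ∈ B, η i := by
  obtain ⟨h1, h2⟩ := mem_cls.1 h
  rw [← sum_add_sum_compl B g, ← sum_add_sum_compl B η,
    sum_congr rfl fun j hj => h2 j (mem_compl.1 hj)] at h1
  exact Nat.add_right_cancel h1

/-- unit vector -/
def e (i : Fin n) : Fin n → ℕ := Pi.single i 1

theorem sum_e (η : Fin n → ℕ) (i : Fin n) : ∑ j, (η + e i) j = ∑ j, η j + 1 := by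
  simp [e, sum_add_distrib]

theorem sub_add_e {g : Fin n → ℕ} {i : Fin n} (h : g i ≠ 0) : g - e i + e i = g := by
  funext j
  by_cases hj : j = i
  · subst hj
    simp only [e, Pi.add_apply, Pi.sub_apply, Pi.single_eq_same]
    omega
  · simp [e, hj]

/-- averaging over the class -/
noncomputable def Nf (B : Finset (Fin n)) (u : (Fin n → ℕ) → ℝ) (η : Fin n → ℕ) : ℝ :=
  (∑ g ∈ cls B η, u g) / (cls B η).card

/-- lowering operator -/
noncomputable def D (u : (Fin n → ℕ) → ℝ) (η : Fin n → ℕ) : ℝ := ∑ i, (η i + 1) * u (η + e i)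

/-- raising operator -/
noncomputable def Up (u : (Fin n → ℕ) → ℝ) (η : Fin n → ℕ) : ℝ := ∑ i, η i * u (η - e i)

theorem shift (B : Finset (Fin n)) (η : Fin n → ℕ) (i : Fin n) (φ : (Fin n → ℕ) → ℝ) :
    ∑ g ∈ cls B η, (g i + 1) * φ (g + e i) = ∑ g ∈ cls B (η + e i), g i * φ g := by
  rw [← sum_filter_of_ne (s := cls B (η + e i)) (p := fun g => g i ≠ 0) fun g _ h h0 => by
    simp [h0] at h]
  refine sum_nbij' (· + e i) (· - e i) (fun g hg => ?_) (fun g hg => ?_) (fun g _ => ?_)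
    (fun g hg => sub_add_e (mem_filter.1 hg).2) fun g _ => by simp [e]
  · obtain ⟨h1, h2⟩ := mem_cls.1 hg
    refine mem_filter.2 ⟨mem_cls.2 ⟨by rw [sum_e, sum_e, h1], fun j hj => ?_⟩, by simp [e]⟩
    simp [h2 j hj]
  · obtain ⟨h0, h3⟩ := mem_filter.1 hg
    obtain ⟨h1, h2⟩ := mem_cls.1 h0
    refine mem_cls.2 ⟨?_, fun j hj => by simp [h2 j hj]⟩
    rw [← sub_add_e h3, sum_e, sum_e] at h1
    omega
  · funext j
    simp

theorem D_Nf (B : Finset (Fin n)) (u : (Fin n → ℕ) → ℝ) (η : Fin n → ℕ) :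
    D (Nf B u) η = Nf B (D u) η := by
  have hc := card_cls B η
  simp only [Nf, D]
  rw [sum_comm, sum_div, ← sum_add_sum_compl B, ← sum_add_sum_compl B]
  simp only [shift]
  congr 1
  · rcases B.eq_empty_or_nonempty with rfl | ⟨i0, hi0⟩
    · simp
    set C := cls B (η + e i0) with hC
    have h1 : ∀ i ∈ B, cls B (η + e i) = C := fun i hi =>
      cls_eq (mem_cls.2 ⟨by rw [sum_e, sum_e], fun j hj => by
        have h1 : j ≠ i := fun h => hj (h ▸ hi)
        have h2 : j ≠ i0 := fun h => hj (h ▸ hi0)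
        simp [e, h1, h2]⟩)
    have h2 : ∀ φ : (Fin n → ℕ) → ℝ, ∑ i ∈ B, ∑ g ∈ C, g i * φ g =
        (∑ i ∈ B, ((η + e i0) i : ℝ)) * ∑ g ∈ C, φ g := fun φ => by
      rw [sum_comm, mul_sum]
      refine sum_congr rfl fun g hg => ?_
      rw [← sum_mul]
      congr 1
      exact_mod_cast sum_cls hg
    have h3 : (∑ i ∈ B, ((η i : ℝ) + 1)) * (cls B η).card =
        (∑ i ∈ B, ((η + e i0) i : ℝ)) * C.card := by
      have h4 := h2 fun _ => 1
      rw [← sum_congr rfl fun i hi => by rw [← h1 i hi, ← shift B η i fun _ => 1], sum_comm,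
        sum_congr rfl (g := fun _ => ∑ i ∈ B, ((η i : ℝ) + 1)) fun g hg => by
          simp only [mul_one, sum_add_distrib]
          congr 1
          exact_mod_cast sum_cls hg] at h4
      simpa [mul_comm] using h4
    have hC0 := card_cls B (η + e i0)
    rw [sum_congr rfl (g := fun i => ((η i : ℝ) + 1) * ((∑ g ∈ C, u g) / C.card))
        fun i hi => by rw [h1 i hi], ← sum_mul, ← sum_div,
      sum_congr rfl (g := fun i => ∑ g ∈ C, g i * u g) (f := fun i => ∑ g ∈ cls B (η + e i), g i * u g)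
        fun i hi => by rw [h1 i hi], h2]
    rw [← mul_div_assoc, div_eq_div_iff hC0.ne' hc.ne']
    linear_combination (∑ g ∈ C, u g) * h3
  · refine sum_congr rfl fun i hi => ?_
    have h1 : ∀ φ : (Fin n → ℕ) → ℝ, ∑ g ∈ cls B (η + e i), g i * φ g =
        (η i + 1) * ∑ g ∈ cls B (η + e i), φ g := fun φ => by
      rw [mul_sum]
      refine sum_congr rfl fun g hg => ?_
      rw [(mem_cls.1 hg).2 i (mem_compl.1 hi)]
      simp [e]
    have h2 := shift B η i fun _ => 1
    rw [h1, sum_congr rfl (g := fun _ => (η i : ℝ) + 1) fun g hg => by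
      rw [(mem_cls.1 hg).2 i (mem_compl.1 hi), mul_one]] at h2
    simp only [sum_const, nsmul_eq_mul, mul_one] at h2
    have h3 : ((cls B (η + e i)).card : ℝ) = (cls B η).card :=
      mul_left_cancel₀ (by positivity : (η i : ℝ) + 1 ≠ 0) (by linarith)
    rw [h1, h3, mul_div_assoc]

theorem Nf_symm (B : Finset (Fin n)) (k : ℕ) (f g : (Fin n → ℕ) → ℝ) :
    ∑ η ∈ lev n k, Nf B f η * g η = ∑ η ∈ lev n k, f η * Nf B g η := by
  simp only [Nf, sum_div, sum_mul, mul_sum]
  rw [sum_comm' (t' := lev n k) (s' := fun η => cls B η)]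
  · refine sum_congr rfl fun η _ => sum_congr rfl fun ζ hζ => ?_
    rw [cls_eq hζ]
    ring
  · intro x y
    simp only [mem_lev, mem_cls]
    constructor
    · rintro ⟨h1, h2, h3⟩
      exact ⟨⟨h2.symm, fun j hj => (h3 j hj).symm⟩, h2.trans h1⟩
    · rintro ⟨⟨h2, h3⟩, h1⟩
      exact ⟨h2.trans h1, h2.symm, fun j hj => (h3 j hj).symm⟩

theorem adj (k : ℕ) (f g : (Fin n → ℕ) → ℝ) :
    ∑ η ∈ lev n (k + 1), Up f η * g η = ∑ η ∈ lev n k, f η * D g η := by
  simp only [Up, D, sum_mul, mul_sum]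
  rw [sum_comm, sum_comm (s := lev n k)]
  refine sum_congr rfl fun i _ => ?_
  have h := shift univ (Pi.single i k) i fun η => f (η - e i) * g η
  rw [cls, cls, sum_e] at h
  simp only [sum_pi_single', mem_univ, if_true, not_true, IsEmpty.forall_iff, implies_true,
    filter_true, add_tsub_cancel_right] at h
  simp only [mul_assoc, ← h]
  exact sum_congr rfl fun η _ => by ring

/-- the Laplacian on functions -/
noncomputable def Lf (w : Finset (Fin n) → ℝ) (u : (Fin n → ℕ) → ℝ) (η : Fin n → ℕ) : ℝ :=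
  ∑ B, w B * (u η - Nf B u η)

variable (w : Finset (Fin n) → ℝ)

theorem D_Lf (u : (Fin n → ℕ) → ℝ) (η : Fin n → ℕ) : D (Lf w u) η = Lf w (D u) η := by
  rw [Lf]
  simp only [← D_Nf]
  simp only [D, Lf, mul_sum, ← sum_sub_distrib]
  rw [sum_comm]
  exact sum_congr rfl fun B _ => sum_congr rfl fun i _ => by ring

theorem Lf_symm (k : ℕ) (f g : (Fin n → ℕ) → ℝ) :
    ∑ η ∈ lev n k, Lf w f η * g η = ∑ η ∈ lev n k, f η * Lf w g η := by
  simp only [Lf, sum_mul, mul_sum]
  rw [sum_comm, sum_comm (s := lev n k)]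
  refine sum_congr rfl fun B _ => ?_
  have h := Nf_symm B k f g
  calc _ = w B * (∑ η ∈ lev n k, f η * g η - ∑ η ∈ lev n k, Nf B f η * g η) := by
        rw [← sum_sub_distrib, mul_sum]
        exact sum_congr rfl fun η _ => by ring
    _ = _ := by
        rw [h, ← sum_sub_distrib, mul_sum]
        exact sum_congr rfl fun η _ => by ring

/-- eigenfunction (possibly zero) of mean zero on level `k` -/
def Eig (k : ℕ) (l : ℝ) (u : (Fin n → ℕ) → ℝ) : Prop :=
  ∑ η ∈ lev n k, u η = 0 ∧ ∀ η ∈ lev n k, Lf w u η = l * u η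

variable {w}

theorem Eig.down {k : ℕ} {l : ℝ} {u} (h : Eig w (k + 1) l u) : Eig w k l (D u) := by
  refine ⟨?_, fun η hη => ?_⟩
  · have h1 := adj k (fun _ => 1) u
    simp only [one_mul] at h1
    rw [← h1, sum_congr rfl (g := fun η => ((k + 1 : ℕ) : ℝ) * u η) fun η hη => by
      rw [← mem_lev.1 hη]
      simp [Up], ← mul_sum, h.1, mul_zero]
  · rw [← D_Lf, D, D, mul_sum]
    refine sum_congr rfl fun i _ => ?_
    rw [h.2 _ (mem_lev.2 (by rw [sum_e, mem_lev.1 hη]))]
    ring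

theorem Eig.up {k : ℕ} {l : ℝ} {u} (h : Eig w k l u) : Eig w (k + 1) l (Up u) := by
  refine ⟨?_, fun η hη => ?_⟩
  · have h1 := adj k u fun _ => 1
    simp only [mul_one] at h1
    rw [h1, sum_congr rfl (g := fun η => ((k : ℝ) + n) * u η) fun η hη => by
      rw [← mem_lev.1 hη]
      simp [D, sum_add_distrib, mul_comm], ← mul_sum, h.1, mul_zero]
  · have h1 : ∀ f : (Fin n → ℕ) → ℝ, ∑ ζ ∈ lev n (k + 1), f ζ * (Pi.single η 1 : _ → ℝ) ζ = f η :=
      fun f => by simp [Pi.single_apply, hη]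
    rw [← h1 (Lf w (Up u)), ← h1 (Up u), Lf_symm, adj, adj]
    simp only [D_Lf]
    rw [← Lf_symm, mul_sum]
    exact sum_congr rfl fun ζ hζ => by rw [h.2 ζ hζ, mul_assoc]

theorem Up_inj (i0 : Fin n) {k : ℕ} {u : (Fin n → ℕ) → ℝ} (h : ∀ η ∈ lev n (k + 1), Up u η = 0) :
    ∀ η ∈ lev n k, u η = 0 := by
  have key : ∀ m, ∀ η ∈ lev n k, k ≤ η i0 + m → u η = 0 := fun m => by
    induction m using Nat.strong_induction_on with
    | _ m ih =>
      intro η hη hm
      have h1 := h (η + e i0) (mem_lev.2 (by rw [sum_e, mem_lev.1 hη]))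
      rw [Up, sum_eq_single i0] at h1
      · rw [add_tsub_cancel_right] at h1
        exact (mul_eq_zero.1 h1).resolve_left (by simp [e]; positivity)
      · intro i _ hi
        by_cases h0 : (η + e i0) i = 0
        · simp [h0]
        have h2 : η + e i0 - e i ∈ lev n k := by
          have := sum_e (η + e i0 - e i) i
          rw [sub_add_e h0, sum_e, mem_lev.1 hη] at this
          exact mem_lev.2 (by omega)
        have h3 : (η + e i0 - e i) i0 = η i0 + 1 := by simp [e, hi.symm]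
        have h4 : (η + e i0 - e i) i0 ≤ k := by
          rw [← mem_lev.1 h2]
          exact single_le_sum (fun _ _ => Nat.zero_le _) (mem_univ i0)
        rw [ih (m - 1) (by omega) _ h2 (by omega), mul_zero]
      · simp
  exact fun η hη => key k η hη (by omega)

theorem eig_bound (hw : ∀ B, 0 ≤ w B) {k : ℕ} {l : ℝ} {u : (Fin n → ℕ) → ℝ}
    (h : ∀ η ∈ lev n k, Lf w u η = l * u η) (h0 : ∃ η ∈ lev n k, u η ≠ 0) : l ≤ 2 * ∑ B, w B := by
  obtain ⟨η0, h1, h2⟩ := h0
  obtain ⟨η, hη, hm⟩ := exists_max_image (lev n k) (fun η => |u η|) ⟨η0, h1⟩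
  have h3 : 0 < |u η| := (abs_pos.2 h2).trans_le (hm η0 h1)
  have h4 : ∀ B, |Nf B u η| ≤ |u η| := fun B => by
    rw [Nf, abs_div, abs_of_pos (card_cls B η), div_le_iff₀ (card_cls B η), mul_comm,
      ← nsmul_eq_mul]
    refine (abs_sum_le_sum_abs _ _).trans (sum_le_card_nsmul _ _ _ fun g hg => hm g ?_)
    exact mem_lev.2 ((mem_cls.1 hg).1.trans (mem_lev.1 hη))
  refine (le_abs_self l).trans (le_of_mul_le_mul_right ?_ h3)
  rw [← abs_mul, ← h η hη, Lf, mul_sum, sum_mul]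
  refine (abs_sum_le_sum_abs _ _).trans (sum_le_sum fun B _ => ?_)
  rw [abs_mul, abs_of_nonneg (hw B), mul_comm 2, mul_assoc]
  exact mul_le_mul_of_nonneg_left ((abs_sub _ _).trans (by linarith [h4 B])) (hw B)

end Pool.Agent.H44.KMP
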