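import Mathlib

/-! The discrete KMP process on a weighted hypergraph. -/

open Finset

namespace Pool.Agent.H44.KMP

/-- configurations of `k` particles on `n` sites -/
abbrev Conf (n k : ℕ) : Type := ↥(piAntidiag (univ : Finset (Fin n)) k)

/-- the matrix of `N_B`: column `f` is the uniform law on the configurations that agree with `f`
off `B` -/
noncomputable def N {n : ℕ} (k : ℕ) (B : Finset (Fin n)) : Matrix (Conf n k) (Conf n k) ℝ :=
  fun g f => if ∀ j ∉ B, g.1 j = f.1 j then
    1 / ((univ.filter fun g' : Conf n k => ∀ j ∉ B, g'.1 j = f.1 j).card : ℝ) else 0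

/-- the Laplacian `∑_B w_B (I - N_B)` -/
noncomputable def L {n : ℕ} (k : ℕ) (w : Finset (Fin n) → ℝ) : Matrix (Conf n k) (Conf n k) ℝ :=
  ∑ B, w B • (1 - N k B)

/-- the eigenvalues of the Laplacian on the orthogonal complement of the uniform vector -/
def spec {n : ℕ} (k : ℕ) (w : Finset (Fin n) → ℝ) : Set ℝ :=
  {l | ∃ u : Conf n k → ℝ, u ≠ 0 ∧ ∑ f, u f = 0 ∧ (L k w).mulVec u = l • u}

end Pool.Agent.H44.KMP
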