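import Pool.Agent.H44.KMP2
import Pool.Agent.H44.KMPDefs

/-! The hidden parameter model and the spectral gap. -/

open MeasureTheory Finset Filter Topology

namespace Pool.Agent.H44.KMP

variable {n : ℕ}

/-- monomial -/
noncomputable def mon (θ : Fin n → ℝ) (η : Fin n → ℕ) : ℝ := ∏ i, θ i ^ η i

/-- generating polynomial -/
noncomputable def Φ (k : ℕ) (f : (Fin n → ℕ) → ℝ) (θ : Fin n → ℝ) : ℝ :=
  ∑ η ∈ lev n k, f η * mon θ η

/-- the unit box -/
def box (θ : Fin n → ℝ) : Prop := ∀ i, θ i ∈ Set.Icc (0 : ℝ) 1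

theorem sum_cls_eq (B : Finset (Fin n)) (η : Fin n → ℕ) (φ : (Fin n → ℕ) → ℝ) :
    ∑ g ∈ cls B η, φ g = ∑ h ∈ piAntidiag B (∑ i ∈ B, η i), φ (B.piecewise h η) := by
  refine sum_nbij' (fun g => B.piecewise g 0) (fun h => B.piecewise h η) (fun g hg => ?_)
    (fun h hh => ?_) (fun g hg => ?_) (fun h hh => ?_) fun g hg => ?_
  · refine mem_piAntidiag.2 ⟨?_, fun i hi => not_not.1 fun h => hi (by simp [h])⟩
    rw [← sum_cls hg]
    exact sum_congr rfl fun i hi => by simp [hi]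
  · refine mem_cls.2 ⟨?_, fun j hj => by simp [hj]⟩
    rw [← sum_add_sum_compl B (B.piecewise h η), ← sum_add_sum_compl B η,
      ← (mem_piAntidiag.1 hh).1]
    congr 1
    · exact sum_congr rfl fun i hi => by simp [hi]
    · exact sum_congr rfl fun i hi => by simp [mem_compl.1 hi]
  · funext j
    by_cases hj : j ∈ B
    · simp [hj]
    · simp [hj, (mem_cls.1 hg).2 j hj]
  · funext j
    by_cases hj : j ∈ B
    · simp [hj]
    · simpa [hj] using (not_not.1 fun h0 => hj ((mem_piAntidiag.1 hh).2 j h0)).symm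
  · congr 1
    funext j
    by_cases hj : j ∈ B
    · simp [hj]
    · simp [hj, (mem_cls.1 hg).2 j hj]

theorem Nf_mon (B : Finset (Fin n)) {θ : Fin n → ℝ} (hθ : box θ) :
    ∃ (ν : Measure ℝ) (T : ℝ → Fin n → ℝ), IsProbabilityMeasure ν ∧ (∀ᵐ x ∂ν, box (T x)) ∧
      ∀ η, Integrable (fun x => mon (T x) η) ν ∧ Nf B (mon θ) η = ∫ x, mon (T x) η ∂ν := by
  rcases B.eq_empty_or_nonempty with rfl | hB
  · refine ⟨Measure.dirac 0, fun _ => θ, inferInstance, ae_of_all _ fun _ => hθ, fun η =>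
      ⟨integrable_const _, ?_⟩⟩
    have : cls ∅ η = {η} := by
      ext g
      simp only [mem_cls, notMem_empty, not_false_eq_true, forall_const, mem_singleton]
      exact ⟨fun h => funext h.2, fun h => by simp [h]⟩
    simp [Nf, this]
  obtain ⟨ν, h1, h2, h3⟩ := average θ hθ hB
  have e1 : ∀ x η, mon (B.piecewise (fun _ => x) θ) η =
      x ^ (∑ i ∈ B, η i) * ∏ i ∈ Bᶜ, θ i ^ η i := fun x η => by
    rw [mon, ← prod_mul_prod_compl B, ← prod_pow_eq_pow_sum]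
    congr 1
    · exact prod_congr rfl fun i hi => by simp [hi]
    · exact prod_congr rfl fun i hi => by simp [mem_compl.1 hi]
  refine ⟨ν, fun x => B.piecewise (fun _ => x) θ, h1, h2.mono fun x hx i => ?_, fun η => ?_⟩
  · by_cases hi : i ∈ B
    · simpa [hi] using hx
    · simpa [hi] using hθ i
  simp only [e1]
  refine ⟨integrable_of_ae h2 (by fun_prop), ?_⟩
  have h4 := sum_cls_eq B η fun _ => 1
  simp only [sum_const, nsmul_eq_mul, mul_one] at h4
  rw [integral_mul_const, Nf, div_eq_iff (card_cls B η).ne', h4, sum_cls_eq, mul_right_comm,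
    mul_comm (∫ x, _ ∂ν), ← h3, H, sum_mul]
  refine sum_congr rfl fun h _ => ?_
  rw [mon, ← prod_mul_prod_compl B]
  congr 1
  · exact prod_congr rfl fun i hi => by simp [hi]
  · exact prod_congr rfl fun i hi => by simp [mem_compl.1 hi]

theorem le_Nf {j k : ℕ} {f v : (Fin n → ℕ) → ℝ} (h : ∀ θ, box θ → Φ j f θ ≤ Φ k v θ)
    (B : Finset (Fin n)) (θ : Fin n → ℝ) (hθ : box θ) : Φ j (Nf B f) θ ≤ Φ k (Nf B v) θ := by
  obtain ⟨ν, T, h1, h2, h3⟩ := Nf_mon B hθ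
  have e1 : ∀ j f, Integrable (fun x => Φ j f (T x)) ν ∧ Φ j (Nf B f) θ = ∫ x, Φ j f (T x) ∂ν :=
    fun j f => by
      refine ⟨integrable_finsetSum _ fun η _ => (h3 η).1.const_mul _, ?_⟩
      simp only [Φ]
      rw [Nf_symm, integral_finsetSum _ fun η _ => (h3 η).1.const_mul _]
      exact sum_congr rfl fun η _ => by rw [integral_const_mul, (h3 η).2]
  rw [(e1 j f).2, (e1 k v).2]
  exact integral_mono_ae (e1 j f).1 (e1 k v).1 (h2.mono fun x hx => h _ hx)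

/-- lazy step -/
noncomputable def Pf (w : Finset (Fin n) → ℝ) (ε : ℝ) (u : (Fin n → ℕ) → ℝ) (η : Fin n → ℕ) : ℝ :=
  u η - ε * Lf w u η

variable {w : Finset (Fin n) → ℝ}

theorem Φ_Pf (ε : ℝ) (j : ℕ) (f : (Fin n → ℕ) → ℝ) (θ : Fin n → ℝ) : Φ j (Pf w ε f) θ =
    (1 - ε * ∑ B, w B) * Φ j f θ + ε * ∑ B, w B * Φ j (Nf B f) θ := by
  simp only [Φ, Pf, Lf, mul_sum]
  rw [sum_comm, ← sum_add_distrib]
  refine sum_congr rfl fun η _ => ?_
  simp only [mul_sub, sum_sub_distrib, sub_mul, sum_mul, mul_assoc]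
  ring

theorem le_Pf (hw : ∀ B, 0 ≤ w B) {ε : ℝ} (h0 : 0 ≤ ε) (h1 : ε * ∑ B, w B ≤ 1) {j k : ℕ}
    {f v : (Fin n → ℕ) → ℝ} (h : ∀ θ, box θ → Φ j f θ ≤ Φ k v θ) (t : ℕ) :
    ∀ θ, box θ → Φ j ((Pf w ε)^[t] f) θ ≤ Φ k ((Pf w ε)^[t] v) θ := by
  induction t with
  | zero => exact h
  | succ t ih =>
    intro θ hθ
    rw [Function.iterate_succ_apply', Function.iterate_succ_apply', Φ_Pf, Φ_Pf]
    exact add_le_add (mul_le_mul_of_nonneg_left (ih θ hθ) (by linarith))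
      (mul_le_mul_of_nonneg_left (sum_le_sum fun B _ =>
        mul_le_mul_of_nonneg_left (le_Nf ih B θ hθ) (hw B)) h0)

theorem Lf_congr {k : ℕ} {u v : (Fin n → ℕ) → ℝ} (h : ∀ η ∈ lev n k, u η = v η) :
    ∀ η ∈ lev n k, Lf w u η = Lf w v η := fun η hη => by
  refine sum_congr rfl fun B _ => ?_
  rw [h η hη, Nf, Nf, sum_congr rfl fun g hg =>
    h g (mem_lev.2 ((mem_cls.1 hg).1.trans (mem_lev.1 hη)))]

theorem Lf_sum {ι : Type} (s : Finset ι) (c : ι → ℝ) (u : ι → (Fin n → ℕ) → ℝ) (η : Fin n → ℕ) :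
    Lf w (fun η => ∑ i ∈ s, c i * u i η) η = ∑ i ∈ s, c i * Lf w (u i) η := by
  simp only [Lf, Nf, mul_sum]
  rw [sum_comm (s := s)]
  refine sum_congr rfl fun B _ => ?_
  rw [sum_comm, sum_div, ← sum_sub_distrib, mul_sum]
  refine sum_congr rfl fun i _ => ?_
  rw [← mul_sum]
  ring

theorem Pf_iter {ι : Type} (s : Finset ι) {k : ℕ} {l : ι → ℝ} {u : ι → (Fin n → ℕ) → ℝ}
    (hu : ∀ i ∈ s, Eig w k (l i) (u i)) {v : (Fin n → ℕ) → ℝ}
    (hv : ∀ η ∈ lev n k, v η = ∑ i ∈ s, u i η) (ε : ℝ) (t : ℕ) :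
    ∀ η ∈ lev n k, (Pf w ε)^[t] v η = ∑ i ∈ s, (1 - ε * l i) ^ t * u i η := by
  induction t with
  | zero => simpa using hv
  | succ t ih =>
    intro η hη
    rw [Function.iterate_succ_apply', Pf, Lf_congr ih η hη, Lf_sum, ih η hη, mul_sum,
      ← sum_sub_distrib]
    refine sum_congr rfl fun i hi => ?_
    rw [(hu i hi).2 η hη]
    ring

theorem Φ_iter {ι : Type} (s : Finset ι) {k : ℕ} {l : ι → ℝ} {u : ι → (Fin n → ℕ) → ℝ}
    (hu : ∀ i ∈ s, Eig w k (l i) (u i)) {v : (Fin n → ℕ) → ℝ}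
    (hv : ∀ η ∈ lev n k, v η = ∑ i ∈ s, u i η) (ε : ℝ) (t : ℕ) (θ : Fin n → ℝ) :
    Φ k ((Pf w ε)^[t] v) θ = ∑ i ∈ s, (1 - ε * l i) ^ t * Φ k (u i) θ := by
  simp only [Φ, mul_sum]
  rw [sum_comm]
  refine sum_congr rfl fun η hη => ?_
  rw [Pf_iter s hu hv ε t η hη, sum_mul]
  simp only [mul_assoc]

theorem Φ_ne {k : ℕ} {f : (Fin n → ℕ) → ℝ} (h : ∃ η ∈ lev n k, f η ≠ 0) :
    ∃ θ, box θ ∧ Φ k f θ ≠ 0 := by
  by_contra h1
  push Not at h1
  obtain ⟨η, hη, h2⟩ := h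
  let p : MvPolynomial (Fin n) ℝ :=
    ∑ ζ ∈ lev n k, MvPolynomial.monomial (Finsupp.equivFunOnFinite.symm ζ) (f ζ)
  have h3 : p = 0 := MvPolynomial.funext_set (fun _ => Set.Icc (0 : ℝ) 1)
    (fun _ => Set.Icc_infinite zero_lt_one) fun θ hθ => by
      rw [map_zero, ← h1 θ fun i => hθ i trivial]
      simp [p, Φ, mon, MvPolynomial.eval_monomial, Finsupp.prod_fintype]
  have h4 := congrArg (MvPolynomial.coeff (Finsupp.equivFunOnFinite.symm η)) h3
  simp [p, MvPolynomial.coeff_sum, MvPolynomial.coeff_monomial, hη] at h4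
  exact h2 h4

theorem mon_add (θ : Fin n → ℝ) (η ζ : Fin n → ℕ) : mon θ (η + ζ) = mon θ η * mon θ ζ := by
  simp [mon, pow_add, prod_mul_distrib]

theorem mon_e (θ : Fin n → ℝ) (i : Fin n) : mon θ (e i) = θ i := by
  rw [mon, prod_eq_single i] <;> simp +contextual [e]

theorem mon_deriv (θ : Fin n → ℝ) (η : Fin n → ℕ) (s : ℝ) :
    HasDerivAt (fun s => mon (fun i => θ i + s) η) (Up (mon fun i => θ i + s) η) s := by
  refine (HasDerivAt.fun_finsetProd (u := univ) fun i _ =>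
    ((hasDerivAt_id s).const_add (θ i)).pow (η i)).congr_deriv ?_
  refine sum_congr rfl fun i _ => ?_
  rw [mon, ← mul_prod_erase _ _ (mem_univ i),
    prod_congr rfl (f := fun j => (θ j + s) ^ (η - e i) j) (g := fun j => (θ j + s) ^ η j)
      fun j hj => by simp [e, ne_of_mem_erase hj]]
  simp [e]
  ring

theorem Φ_transl {k : ℕ} {f : (Fin n → ℕ) → ℝ} (h : ∀ η ∈ lev n k, D f η = 0) (θ : Fin n → ℝ)
    (s : ℝ) : Φ (k + 1) f (fun i => θ i + s) = Φ (k + 1) f θ := by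
  have h1 : ∀ s, HasDerivAt (fun s => Φ (k + 1) f fun i => θ i + s) 0 s := fun s => by
    refine (HasDerivAt.fun_sum fun η _ => (mon_deriv θ η s).const_mul (f η)).congr_deriv ?_
    simp only [mul_comm (f _)]
    rw [adj]
    exact sum_eq_zero fun η hη => by rw [h η hη, mul_zero]
  have := is_const_of_deriv_eq_zero (fun s => (h1 s).differentiableAt) (fun s => (h1 s).deriv) s 0
  simpa using this

theorem Φ_single {k : ℕ} {η : Fin n → ℕ} (h : η ∈ lev n k) (θ : Fin n → ℝ) :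
    Φ k (Pi.single η 1) θ = mon θ η := by simp [Φ, Pi.single_apply, h]

theorem exists_V (i0 : Fin n) (C : ℝ) : ∃ v : (Fin n → ℕ) → ℝ,
    ∀ θ, Φ 2 v θ = C * ∑ i, (θ i - θ i0) ^ 2 := by
  have h : ∀ i j : Fin n, e i + e j ∈ lev n 2 := fun i j => mem_lev.2 (by
    simp [e, sum_add_distrib])
  refine ⟨fun η => C * ∑ i, ((Pi.single (e i + e i) 1 : _ → ℝ) η -
    2 * (Pi.single (e i + e i0) 1 : _ → ℝ) η + (Pi.single (e i0 + e i0) 1 : _ → ℝ) η), fun θ => ?_⟩
  simp only [Φ, mul_assoc, ← mul_sum, sum_mul]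
  rw [sum_comm]
  congr 1
  refine sum_congr rfl fun i _ => ?_
  have h1 := Φ_single (h i i) θ
  have h2 := Φ_single (h i i0) θ
  have h3 := Φ_single (h i0 i0) θ
  simp only [Φ, mon_add, mon_e] at h1 h2 h3
  simp only [add_mul, sub_mul, sum_add_distrib, sum_sub_distrib, mul_assoc, ← mul_sum, h1, h2, h3]
  ring

theorem Φ_bound (i0 : Fin n) {k : ℕ} {f : (Fin n → ℕ) → ℝ} (h : ∀ η ∈ lev n (k + 1), D f η = 0)
    (θ : Fin n → ℝ) (hθ : box θ) :
    Φ (k + 2) f θ ≤ (∑ η ∈ lev n (k + 2), |f η|) * ∑ i, (θ i - θ i0) ^ 2 := by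
  rw [← Φ_transl h θ (-θ i0), Φ, sum_mul]
  refine sum_le_sum fun η hη => (le_abs_self _).trans ?_
  rw [abs_mul]
  refine mul_le_mul_of_nonneg_left ?_ (abs_nonneg _)
  obtain ⟨m, -, hm⟩ := exists_max_image univ (fun i => |θ i - θ i0|) ⟨i0, mem_univ _⟩
  have h1 : |θ m - θ i0| ≤ 1 := abs_le.2 ⟨by linarith [(hθ m).1, (hθ i0).2],
    by linarith [(hθ m).2, (hθ i0).1]⟩
  calc |mon (fun i => θ i + -θ i0) η| ≤ ∏ i, |θ m - θ i0| ^ η i := by
        rw [mon, abs_prod]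
        refine prod_le_prod (fun i _ => abs_nonneg _) fun i _ => ?_
        rw [abs_pow]
        exact pow_le_pow_left₀ (abs_nonneg _) (hm i (mem_univ i)) _
    _ = |θ m - θ i0| ^ (k + 2) := by rw [prod_pow_eq_pow_sum, mem_lev.1 hη]
    _ ≤ |θ m - θ i0| ^ 2 := pow_le_pow_of_le_one (abs_nonneg _) h1 (by omega)
    _ ≤ _ := by
        rw [sq_abs]
        exact single_le_sum (f := fun i => (θ i - θ i0) ^ 2) (fun _ _ => sq_nonneg _) (mem_univ m)

/-! ### the link with matrices -/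

theorem L_mulVec (k : ℕ) (u : (Fin n → ℕ) → ℝ) (g : Conf n k) :
    (L k w).mulVec (fun f => u f.1) g = Lf w u g.1 := by
  have hg : ∑ i, g.1 i = k := mem_lev.1 g.2
  have h1 : ∀ (B : Finset (Fin n)) (f : Conf n k) (φ : (Fin n → ℕ) → ℝ),
      ∑ g' : Conf n k, (if ∀ j ∉ B, g'.1 j = f.1 j then φ g'.1 else 0) = ∑ g' ∈ cls B f.1, φ g' :=
    fun B f φ => by
      rw [cls, sum_filter, show ∑ i, f.1 i = k from mem_lev.1 f.2]
      exact sum_coe_sort (lev n k) fun g' => if ∀ j ∉ B, g' j = f.1 j then φ g' else 0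
  rw [L, Matrix.sum_mulVec, Finset.sum_apply, Lf]
  refine sum_congr rfl fun B _ => ?_
  rw [Matrix.smul_mulVec, Matrix.sub_mulVec, Matrix.one_mulVec, Pi.smul_apply, Pi.sub_apply,
    smul_eq_mul, Nf, sum_div, ← h1 B g]
  congr 2
  refine sum_congr rfl fun f _ => ?_
  simp only [N]
  by_cases h : ∀ j ∉ B, f.1 j = g.1 j
  · rw [if_pos h, if_pos fun j hj => (h j hj).symm, card_filter, Nat.cast_sum]
    have h2 := h1 B f fun _ => 1
    simp only [Nat.cast_ite, Nat.cast_one, Nat.cast_zero, h2]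
    rw [cls_eq (mem_cls.2 ⟨(mem_lev.1 f.2).trans hg.symm, h⟩)]
    simp [div_eq_inv_mul]
  · rw [if_neg h, if_neg fun h' => h fun j hj => (h' j hj).symm, zero_mul]

/-- extension by zero -/
noncomputable def ext {k : ℕ} (u : Conf n k → ℝ) (η : Fin n → ℕ) : ℝ :=
  if h : η ∈ lev n k then u ⟨η, h⟩ else 0

theorem ext_apply {k : ℕ} (u : Conf n k → ℝ) (f : Conf n k) : ext u f.1 = u f := dif_pos f.2

theorem eig_iff {k : ℕ} {l : ℝ} {u : (Fin n → ℕ) → ℝ} : Eig w k l u ↔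
    ∑ f : Conf n k, u f.1 = 0 ∧
      (L k w).mulVec (fun f : Conf n k => u f.1) = l • fun f : Conf n k => u f.1 := by
  rw [Eig, ← sum_coe_sort (lev n k) u]
  refine and_congr Iff.rfl ⟨fun h => funext fun f => ?_, fun h η hη => ?_⟩
  · rw [L_mulVec, h _ f.2]
    rfl
  · rw [← L_mulVec k u ⟨η, hη⟩, h]
    rfl

theorem mem_spec {k : ℕ} {l : ℝ} :
    l ∈ spec k w ↔ ∃ u, (∃ η ∈ lev n k, u η ≠ 0) ∧ Eig w k l u := by
  constructor
  · rintro ⟨u, h1, h2, h3⟩
    obtain ⟨f, hf⟩ := Function.ne_iff.1 h1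
    refine ⟨ext u, ⟨f.1, f.2, by rwa [ext_apply]⟩, eig_iff.2 ?_⟩
    simp only [ext_apply]
    exact ⟨h2, h3⟩
  · rintro ⟨u, ⟨η, hη, h1⟩, h2⟩
    exact ⟨fun f => u f.1, Function.ne_iff.2 ⟨⟨η, hη⟩, h1⟩, eig_iff.1 h2⟩

theorem Lf_const (c : ℝ) (η : Fin n → ℕ) : Lf w (fun _ => c) η = 0 := by
  refine sum_eq_zero fun B _ => ?_
  have := (card_cls B η).ne'
  rw [Nf, sum_const, nsmul_eq_mul, mul_div_cancel_left₀ _ this, sub_self, mul_zero]

theorem decomp (k : ℕ) {v : (Fin n → ℕ) → ℝ} (hv : ∑ η ∈ lev n k, v η = 0) :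
    ∃ (l : Conf n k → ℝ) (u : Conf n k → (Fin n → ℕ) → ℝ), (∀ i, Eig w k (l i) (u i)) ∧
      ∀ η ∈ lev n k, v η = ∑ i, u i η := by
  have hL : (L k w).IsHermitian := by
    ext f g
    have h1 : ∀ f g : Conf n k, L k w f g =
        ∑ η ∈ lev n k, Lf w (Pi.single g.1 1) η * (Pi.single f.1 1 : _ → ℝ) η := fun f g => by
      have h2 := L_mulVec (w := w) k (Pi.single g.1 1) f
      have h3 : f.1 ∈ lev n k := f.2
      simp only [Matrix.mulVec, dotProduct, Pi.single_apply, Subtype.val_inj, mul_ite, mul_one,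
        mul_zero, sum_ite_eq', mem_univ, if_true] at h2
      simp [Pi.single_apply, h3, h2]
    rw [Matrix.conjTranspose_apply, star_trivial, h1, h1, Lf_symm]
    simp only [mul_comm]
  let b := hL.eigenvectorBasis
  let x : EuclideanSpace ℝ (Conf n k) := WithLp.toLp 2 fun f => v f.1
  let a : Conf n k → (Fin n → ℕ) → ℝ := fun i => ext fun f => b i f
  have ha : ∀ i, ∀ η ∈ lev n k, Lf w (a i) η = hL.eigenvalues i * a i η := fun i η hη => by
    rw [← L_mulVec k (a i) ⟨η, hη⟩]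
    simp only [a, ext_apply]
    rw [show ext (fun f => b i f) η = b i ⟨η, hη⟩ from dif_pos hη]
    exact congrFun (hL.mulVec_eigenvectorBasis i) _
  have hx : ∀ η ∈ lev n k, v η = ∑ i, b.repr x i * a i η := fun η hη => by
    have := congrArg (fun y : EuclideanSpace ℝ (Conf n k) => y ⟨η, hη⟩) (b.sum_repr x)
    simp only [WithLp.ofLp_sum, Finset.sum_apply, PiLp.smul_apply, smul_eq_mul, x] at this
    rw [← this]
    refine sum_congr rfl fun i _ => ?_
    simp only [a]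
    rw [show ext (fun f => b i f) η = b i ⟨η, hη⟩ from dif_pos hη]
  let m : Conf n k → ℝ := fun i => (∑ η ∈ lev n k, a i η) / (lev n k).card
  have hm : ∀ i, hL.eigenvalues i * m i = 0 := fun i => by
    have h1 := Lf_symm w k (a i) fun _ => 1
    simp only [Lf_const, mul_zero, sum_const_zero, mul_one] at h1
    rw [sum_congr rfl (ha i), ← mul_sum] at h1
    simp only [m]
    rw [← mul_div_assoc, h1, zero_div]
  refine ⟨hL.eigenvalues, fun i η => b.repr x i * a i η + -(b.repr x i * m i) * 1,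
    fun i => ⟨?_, fun η hη => ?_⟩, fun η hη => ?_⟩
  · have hc : ((lev n k).card : ℝ) ≠ 0 := by exact_mod_cast (card_pos.2 ⟨i.1, i.2⟩).ne'
    simp only [sum_add_distrib, ← mul_sum, sum_const, nsmul_eq_mul, m]
    field_simp
    ring
  · have h1 := Lf_sum (w := w) univ ![b.repr x i, -(b.repr x i * m i)] ![a i, fun _ => 1] η
    simp only [Fin.sum_univ_two, Matrix.cons_val_zero, Matrix.cons_val_one, Lf_const] at h1
    rw [h1, ha i η hη]
    linear_combination (b.repr x i) * hm i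
  · rw [sum_congr rfl hx, sum_comm] at hv
    simp only [← mul_sum] at hv
    simp only [sum_add_distrib, ← hx η hη, mul_one, sum_neg_distrib, m, ← mul_div_assoc, ← sum_div,
      hv]
    simp

theorem spec_up (i0 : Fin n) {k : ℕ} : spec k w ⊆ spec (k + 1) w := fun l hl => by
  obtain ⟨u, ⟨η, hη, h1⟩, h2⟩ := mem_spec.1 hl
  refine mem_spec.2 ⟨Up u, ?_, h2.up⟩
  by_contra h
  push Not at h
  exact h1 (Up_inj i0 h η hη)

theorem growth {ρ σ a C : ℝ} (hσ : 0 ≤ σ) (ha : 0 < a) (h : ∀ t : ℕ, ρ ^ t * a ≤ σ ^ t * C) :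
    ρ ≤ σ := by
  by_contra h1
  push Not at h1
  have hρ : 0 < ρ := hσ.trans_lt h1
  have h2 := (tendsto_pow_atTop_nhds_zero_of_lt_one (div_nonneg hσ hρ.le)
    ((div_lt_one hρ).2 h1)).mul_const C
  rw [zero_mul] at h2
  refine not_le.2 ha (ge_of_tendsto' h2 fun t => ?_)
  rw [div_pow, div_mul_eq_mul_div, le_div_iff₀ (pow_pos hρ t), mul_comm]
  exact h t

theorem lower (hw : ∀ B, 0 ≤ w B) (i0 : Fin n) {γ : ℝ} (hγ : IsLeast (spec 2 w) γ) (k : ℕ) :
    γ ∈ lowerBounds (spec k w) := by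
  induction k with
  | zero =>
    intro l hl
    obtain ⟨u, ⟨η, hη, h1⟩, h2⟩ := mem_spec.1 hl
    have h3 := h2.1
    simp only [lev, piAntidiag_zero, mem_singleton, sum_singleton] at hη h3
    exact absurd (hη ▸ h3) h1
  | succ k ih =>
    intro l hl
    rcases k with _ | k
    · exact hγ.2 (spec_up i0 hl)
    obtain ⟨u, h1, h2⟩ := mem_spec.1 hl
    by_cases hD : ∃ η ∈ lev n (k + 1), D u η ≠ 0
    · exact ih (mem_spec.2 ⟨D u, hD, h2.down⟩)
    push Not at hD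
    obtain ⟨u, hD, h2, θ, hθ, h3⟩ : ∃ u, (∀ η ∈ lev n (k + 1), D u η = 0) ∧ Eig w (k + 2) l u ∧
        ∃ θ, box θ ∧ 0 < Φ (k + 2) u θ := by
      obtain ⟨θ, hθ, h3⟩ := Φ_ne h1
      rcases h3.lt_or_gt with h3 | h3
      · refine ⟨fun η => -1 * u η, fun η hη => ?_, ⟨?_, fun η hη => ?_⟩, θ, hθ, ?_⟩
        · simpa [D] using hD η hη
        · simpa using h2.1
        · have := Lf_sum (w := w) {()} (fun _ => -1) (fun _ => u) η
          simp only [sum_singleton] at this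
          rw [this, h2.2 η hη]
          ring
        · simpa [Φ] using h3
      · exact ⟨u, hD, h2, θ, hθ, h3⟩
    obtain ⟨v, hv⟩ := exists_V i0 (∑ η ∈ lev n (k + 2), |u η|)
    obtain ⟨l', u', h4, h5⟩ := decomp (w := w) 2 (v := v) (by simpa [Φ, mon] using hv 1)
    have hW : 0 ≤ ∑ B, w B := sum_nonneg fun B _ => hw B
    set ε := 1 / (2 * ∑ B, w B + 1) with hε
    have hε0 : 0 < ε := by positivity
    have hε1 : ε * (2 * ∑ B, w B + 1) = 1 := by rw [hε]; field_simp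
    have hb : ∀ l ∈ spec 2 w, 0 ≤ 1 - ε * l := fun l hl => by
      obtain ⟨u, h1, h2⟩ := mem_spec.1 hl
      nlinarith [mul_le_mul_of_nonneg_left (eig_bound hw h2.2 h1) hε0.le]
    have h6 := growth (ρ := 1 - ε * l) (C := ∑ i, |Φ 2 (u' i) θ|) (hb γ hγ.1) h3 fun t => by
      have h7 := le_Pf hw hε0.le (by nlinarith) (fun θ hθ => (Φ_bound i0 hD θ hθ).trans
        (hv θ).ge) t θ hθ
      rw [Φ_iter {()} (l := fun _ => l) (u := fun _ => u) (fun _ _ => h2) (by simp),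
        Φ_iter univ (fun i _ => h4 i) h5, sum_singleton] at h7
      refine h7.trans ?_
      rw [mul_sum]
      refine sum_le_sum fun i _ => ?_
      by_cases h8 : ∃ η ∈ lev n 2, u' i η ≠ 0
      · have h9 := mem_spec.2 ⟨_, h8, h4 i⟩
        refine (mul_le_mul_of_nonneg_left (le_abs_self _) (pow_nonneg (hb _ h9) t)).trans
          (mul_le_mul_of_nonneg_right (pow_le_pow_left₀ (hb _ h9) ?_ t) (abs_nonneg _))
        nlinarith [hγ.2 h9]
      · push Not at h8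
        have : Φ 2 (u' i) θ = 0 := sum_eq_zero fun η hη => by rw [h8 η hη, zero_mul]
        simp [this]
    nlinarith

theorem exists_least (hn : 2 ≤ n) : ∃ γ, IsLeast (spec 2 w) γ := by
  have hf : (spec 2 w).Finite := (Module.End.finite_hasEigenvalue (Matrix.toLin' (L 2 w))).subset
    fun l ⟨u, h1, _, h3⟩ => Module.End.hasEigenvalue_of_hasEigenvector
      ⟨Module.End.mem_eigenspace_iff.2 h3, h1⟩
  have hne : (spec 2 w).Nonempty := by
    obtain ⟨v, hv⟩ := exists_V (⟨0, by omega⟩ : Fin n) 1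
    obtain ⟨l, u, h1, h2⟩ := decomp (w := w) 2 (v := v) (by simpa [Φ, mon] using hv 1)
    by_contra h
    have h3 : ∀ i, ∀ η ∈ lev n 2, u i η = 0 := fun i η hη => not_not.1 fun h4 =>
      h ⟨l i, mem_spec.2 ⟨_, ⟨η, hη, h4⟩, h1 i⟩⟩
    have h4 := hv (Pi.single ⟨1, by omega⟩ 1)
    rw [Φ, sum_eq_zero fun η hη => by
      rw [h2 η hη, sum_eq_zero fun i _ => h3 i η hη, zero_mul], one_mul, eq_comm,
      sum_eq_zero_iff_of_nonneg fun _ _ => sq_nonneg _] at h4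
    simpa using h4 ⟨1, by omega⟩ (mem_univ _)
  exact ⟨_, hne.csInf_mem hf, fun l hl => csInf_le hf.bddBelow hl⟩

theorem main (hn : 2 ≤ n) (hw : ∀ B, 0 ≤ w B) :
    ∃ γ, ∀ k, 2 ≤ k → IsLeast (spec k w) γ := by
  obtain ⟨γ, hγ⟩ := exists_least (w := w) hn
  refine ⟨γ, fun k hk => ⟨?_, lower hw ⟨0, by omega⟩ hγ k⟩⟩
  induction hk with
  | refl => exact hγ.1
  | step _ ih => exact spec_up ⟨0, by omega⟩ ih

end Pool.Agent.H44.KMP
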