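import Mathlib

/-! Kiefer-Wolfowitz workload recursion of a GI/GI/k queue. -/

open MeasureTheory

namespace Pool.Agent.H44.KW

/-- Sort a vector in ascending order. -/
noncomputable def sortVec {k : ℕ} (v : Fin k → ℝ) : Fin k → ℝ := v ∘ Tuple.sort v

/-- One step of the Kiefer-Wolfowitz recursion with service time `s` and interarrival time `t`:
the first (least loaded) server gets the new customer, all workloads decrease by `t`, are cut
at `0`, and are sorted. -/
noncomputable def kwStep {k : ℕ} (w : Fin k → ℝ) (s t : ℝ) : Fin k → ℝ :=
  sortVec fun i => if (i : ℕ) = 0 then max (w i + s - t) 0 else max (w i - t) 0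

/-- `π` is a stationary law of the workload vector when service times have law `μS` and
interarrival times have law `μT`: it is a probability law on sorted nonnegative vectors, and if
`W ∼ π`, `S ∼ μS`, `T ∼ μT` are independent then `kwStep W S T ∼ π`. -/
def IsStationary {k : ℕ} (μS μT : Measure ℝ) (π : Measure (Fin k → ℝ)) : Prop :=
  IsProbabilityMeasure π ∧ (∀ᵐ w ∂π, Monotone w ∧ ∀ i, 0 ≤ w i) ∧
    (π.prod (μS.prod μT)).map (fun p => kwStep p.1 p.2.1 p.2.2) = π

end Pool.Agent.H44.KW
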