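import Pool.Agent.H44.KWTwo

open MeasureTheory Set
open scoped ENNReal

namespace Pool.Agent.H44.KW

theorem measurable_g0 : Measurable (fun q : ℝ × ℝ => (![0, max (q.1 - q.2) 0] : Fin 2 → ℝ)) := by
  refine measurable_pi_lambda _ fun i => ?_
  fin_cases i
  · simp
  · simp only [Fin.mk_one, Matrix.cons_val_one, Matrix.cons_val_fin_one]
    fun_prop

theorem stationary_eq {π : Measure (Fin 2 → ℝ)} (h : IsStationary muS muT π) :
    π = (muS.prod muT).map fun q => ![0, max (q.1 - q.2) 0] := by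
  have hP := h.1
  have hgood : ∀ᵐ w ∂π, w ∈ good := by
    rw [ae_iff]
    exact stationary_good h
  have h1 : ∀ᵐ p ∂π.prod (muS.prod muT), p.1 ∈ good :=
    (Measure.quasiMeasurePreserving_fst).ae hgood
  have h2 : ∀ᵐ p ∂π.prod (muS.prod muT), p.2.1 ≤ 2 ∧ 1 ≤ p.2.2 :=
    (Measure.quasiMeasurePreserving_snd).ae ae_ST
  have : (fun p : (Fin 2 → ℝ) × ℝ × ℝ => kwStep p.1 p.2.1 p.2.2) =ᵐ[π.prod (muS.prod muT)]
      (fun q : ℝ × ℝ => (![0, max (q.1 - q.2) 0] : Fin 2 → ℝ)) ∘ Prod.snd := by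
    filter_upwards [h1, h2] with p hp hq
    exact step_good hp hq.2
  conv_lhs => rw [← h.2.2]
  rw [Measure.map_congr this, ← Measure.map_map measurable_g0 measurable_snd, Measure.map_snd_prod]
  simp

theorem integral_ST {F : ℝ × ℝ → ℝ} (hF : Measurable F) (hb : ∀ q, |F q| ≤ 1) :
    ∫ q, F q ∂muS.prod muT =
      ((F (1 / 2, 1) + F (1 / 2, 5 / 4)) / 2 + (F (2, 1) + F (2, 5 / 4)) / 2) / 2 := by
  rw [integral_prod _ (Integrable.of_bound hF.aestronglyMeasurable 1 (ae_of_all _ hb))]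
  unfold muS muT
  simp only [integral_coin]

theorem integral_stat {π : Measure (Fin 2 → ℝ)} (h : IsStationary muS muT π)
    {F : (Fin 2 → ℝ) × ℝ × ℝ → ℝ} (hF : Measurable F) (hb : ∀ q, |F q| ≤ 1) :
    ∫ p, F p ∂π.prod (muS.prod muT) =
      ∫ r : ℝ × ℝ, ∫ q, F (![0, max (r.1 - r.2) 0], q) ∂muS.prod muT ∂muS.prod muT := by
  have hP := h.1
  rw [integral_prod _ (Integrable.of_bound hF.aestronglyMeasurable 1 (ae_of_all _ hb))]
  conv_lhs => rw [stationary_eq h]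
  rw [integral_map measurable_g0.aemeasurable]
  exact hF.stronglyMeasurable.integral_prod_right'.aestronglyMeasurable

theorem integral_stat' {π : Measure (Fin 2 → ℝ)} (h : IsStationary muS muT π)
    {F : (Fin 2 → ℝ) × ℝ × ℝ → ℝ} (hF : Measurable F) (hb : ∀ q, |F q| ≤ 1)
    {G : ℝ → ℝ} (hG : ∀ x, G x = ((F (![0, x], 1 / 2, 1) + F (![0, x], 1 / 2, 5 / 4)) / 2 +
      (F (![0, x], 2, 1) + F (![0, x], 2, 5 / 4)) / 2) / 2) :
    ∫ p, F p ∂π.prod (muS.prod muT) = (G 0 + (G 1 + G (3 / 4)) / 2) / 2 := by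
  rw [integral_stat h hF hb]
  have e : ∀ w : Fin 2 → ℝ, ∫ q, F (w, q) ∂muS.prod muT = ((F (w, 1 / 2, 1) + F (w, 1 / 2, 5 / 4)) / 2 +
      (F (w, 2, 1) + F (w, 2, 5 / 4)) / 2) / 2 := fun w =>
    integral_ST (hF.comp (measurable_const.prodMk measurable_id)) fun q => hb _
  simp only [e, ← hG]
  have hGm : Measurable G := by
    have hx : Measurable fun x : ℝ => (![0, x] : Fin 2 → ℝ) := by
      refine measurable_pi_lambda _ fun i => ?_
      fin_cases i
      · simp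
      · simp only [Fin.mk_one, Matrix.cons_val_one, Matrix.cons_val_fin_one]
        fun_prop
    rw [funext hG]
    fun_prop
  rw [integral_ST (F := fun r => G (max (r.1 - r.2) 0)) (by fun_prop)]
  · norm_num
  · intro q
    rw [hG, abs_le]
    have a1 := abs_le.1 (hb (![0, max (q.1 - q.2) 0], 1 / 2, 1))
    have a2 := abs_le.1 (hb (![0, max (q.1 - q.2) 0], 1 / 2, 5 / 4))
    have a3 := abs_le.1 (hb (![0, max (q.1 - q.2) 0], 2, 1))
    have a4 := abs_le.1 (hb (![0, max (q.1 - q.2) 0], 2, 5 / 4))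
    constructor <;> linarith [a1.1, a1.2, a2.1, a2.2, a3.1, a3.2, a4.1, a4.2]

end Pool.Agent.H44.KW
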