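import Pool.Agent.H44.KWSort
import Pool.Agent.H44.Drive

/-! Convexity of the mean stationary workloads. -/

open MeasureTheory ProbabilityTheory Finset Filter Topology
open scoped ENNReal

namespace Pool.Agent.H44.KW

variable {k : ℕ} {μS μT : Measure ℝ} [IsProbabilityMeasure μS] [IsProbabilityMeasure μT]
  {π : Measure (Fin k → ℝ)}

/-- law of the driving sequence -/
noncomputable def law (μS μT : Measure ℝ) : Measure (ℕ → ℝ × ℝ) :=
  Measure.infinitePi fun _ => μS.prod μT

instance : IsProbabilityMeasure (law μS μT) := by unfold law; infer_instance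

theorem law_indep : iIndepFun (fun (n : ℕ) (u : ℕ → ℝ × ℝ) => u n) (law μS μT) :=
  iIndepFun_infinitePi (P := fun _ : ℕ => μS.prod μT) (X := fun _ q => q) fun _ => measurable_id

theorem law_map (n : ℕ) : (law μS μT).map (fun u => u n) = μS.prod μT :=
  Measure.infinitePi_map_eval (fun _ : ℕ => μS.prod μT) n

theorem measurable_gap (a b : Fin k) :
    Measurable fun p : (Fin k → ℝ) × ℝ => ENNReal.ofReal (gap a b p.1 p.2) := by
  unfold gap
  fun_prop

theorem lintegral_last (m : ℕ) {H : (ℕ → ℝ × ℝ) → ℝ × ℝ → ℝ≥0∞}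
    (hH : Measurable fun p : (ℕ → ℝ × ℝ) × ℝ × ℝ => H p.1 p.2)
    (hd : ∀ u v : ℕ → ℝ × ℝ, (∀ i < m, u i = v i) → H u = H v) :
    ∫⁻ u, H u (u m) ∂law μS μT = ∫⁻ u, ∫⁻ q, H u q ∂(μS.prod μT) ∂law μS μT := by
  let F : (ℕ → ℝ × ℝ) → ℕ → ℝ × ℝ := fun u i => if i < m then u i else 0
  have hF : Measurable F := by
    refine measurable_pi_lambda _ fun i => ?_
    by_cases h : i < m
    · simp only [F, h, if_true]
      exact measurable_pi_apply i
    · simp only [F, h, if_false]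
      exact measurable_const
  have hFd : ∀ u v : ℕ → ℝ × ℝ, (∀ i < m, u i = v i) → F u = F v := by
    intro u v h
    funext i
    by_cases hi : i < m
    · simp [F, hi, h i hi]
    · simp [F, hi]
  have hHF : ∀ u, H (F u) = H u := fun u => hd _ _ fun i hi => by simp [F, hi]
  have := Drive.lintegral_past (law_indep (μS := μS) (μT := μT)) (fun n => measurable_pi_apply n)
    m hF hFd hH
  simpa only [hHF, law_map] using this

/-- expected gap above the `m`-th threshold -/
noncomputable def X (μS μT : Measure ℝ) (π : Measure (Fin k → ℝ)) (z a b : Fin k) (m : ℕ) : ℝ≥0∞ :=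
  ∫⁻ w, ∫⁻ u, ENNReal.ofReal (gap a b w (theta z m w u)) ∂law μS μT ∂π

theorem measurable_gt (z a b : Fin k) (m : ℕ) :
    Measurable fun p : (Fin k → ℝ) × (ℕ → ℝ × ℝ) =>
      ENNReal.ofReal (gap a b p.1 (theta z m p.1 p.2)) :=
  (measurable_gap a b).comp (measurable_fst.prodMk (measurable_theta z m))

/-- next threshold as a function of the new input -/
noncomputable def nxt (z : Fin k) (m : ℕ) (w : Fin k → ℝ) (u : ℕ → ℝ × ℝ) (q : ℝ × ℝ) : ℝ :=
  max (max (q.2 + theta z m (kwStep w q.1 q.2) u) (w z + q.1)) 0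

theorem measurable_nxt (z : Fin k) (m : ℕ) :
    Measurable fun p : ((Fin k → ℝ) × (ℕ → ℝ × ℝ)) × ℝ × ℝ => nxt z m p.1.1 p.1.2 p.2 := by
  have h1 : Measurable fun p : ((Fin k → ℝ) × (ℕ → ℝ × ℝ)) × ℝ × ℝ =>
      kwStep p.1.1 p.2.1 p.2.2 :=
    measurable_kwStep.comp
      (f := fun p : ((Fin k → ℝ) × (ℕ → ℝ × ℝ)) × ℝ × ℝ => (p.1.1, p.2)) (by fun_prop)
  have h2 := (measurable_theta z m).comp (h1.prodMk (measurable_snd.comp measurable_fst))
  exact Measurable.max (Measurable.max (Measurable.add (by fun_prop) h2) (by fun_prop))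
    measurable_const

theorem measurable_gn (z a b : Fin k) (m : ℕ) :
    Measurable fun p : ((Fin k → ℝ) × (ℕ → ℝ × ℝ)) × ℝ × ℝ =>
      ENNReal.ofReal (gap a b p.1.1 (nxt z m p.1.1 p.1.2 p.2)) :=
  (measurable_gap a b).comp ((measurable_fst.comp measurable_fst).prodMk (measurable_nxt z m))

theorem measurable_gs (z a b : Fin k) (m : ℕ) :
    Measurable fun p : ((Fin k → ℝ) × (ℕ → ℝ × ℝ)) × ℝ × ℝ =>
      ENNReal.ofReal (gap a b (kwStep p.1.1 p.2.1 p.2.2)
        (theta z m (kwStep p.1.1 p.2.1 p.2.2) p.1.2)) := by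
  have h1 : Measurable fun p : ((Fin k → ℝ) × (ℕ → ℝ × ℝ)) × ℝ × ℝ =>
      kwStep p.1.1 p.2.1 p.2.2 :=
    measurable_kwStep.comp
      (f := fun p : ((Fin k → ℝ) × (ℕ → ℝ × ℝ)) × ℝ × ℝ => (p.1.1, p.2)) (by fun_prop)
  exact (measurable_gt z a b m).comp (h1.prodMk (measurable_snd.comp measurable_fst))

theorem X_eq_prod [IsProbabilityMeasure π] (z a b : Fin k) (m : ℕ) :
    X μS μT π z a b m = ∫⁻ p, ENNReal.ofReal (gap a b p.1.1 (theta z m p.1.1 p.1.2))
      ∂(π.prod (law μS μT)).prod (μS.prod μT) := by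
  have hm : Measurable fun p : ((Fin k → ℝ) × (ℕ → ℝ × ℝ)) × ℝ × ℝ =>
      ENNReal.ofReal (gap a b p.1.1 (theta z m p.1.1 p.1.2)) :=
    (measurable_gt z a b m).comp measurable_fst
  rw [lintegral_prod _ hm.aemeasurable]
  simp only [lintegral_const, measure_univ, mul_one]
  rw [lintegral_prod _ (measurable_gt z a b m).aemeasurable]
  rfl

theorem X_succ [IsProbabilityMeasure π] (z a b : Fin k) (m : ℕ) :
    X μS μT π z a b (m + 1) = ∫⁻ p, ENNReal.ofReal (gap a b p.1.1 (nxt z m p.1.1 p.1.2 p.2))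
      ∂(π.prod (law μS μT)).prod (μS.prod μT) := by
  rw [lintegral_prod _ (measurable_gn z a b m).aemeasurable,
    lintegral_prod _ (measurable_gn z a b m).lintegral_prod_right'.aemeasurable]
  refine lintegral_congr fun w => ?_
  refine lintegral_last m (H := fun u q => ENNReal.ofReal (gap a b w (nxt z m w u q))) ?_ ?_
  · exact (measurable_gn z a b m).comp
      (f := fun p : (ℕ → ℝ × ℝ) × ℝ × ℝ => ((w, p.1), p.2)) (by fun_prop)
  · intro u v h
    funext q
    simp only [nxt, theta_congr z m _ h]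

theorem X_stat (h : IsStationary μS μT π) (z a b : Fin k) (m : ℕ) :
    X μS μT π z a b m = ∫⁻ p, ENNReal.ofReal (gap a b (kwStep p.1.1 p.2.1 p.2.2)
        (theta z m (kwStep p.1.1 p.2.1 p.2.2) p.1.2))
      ∂(π.prod (law μS μT)).prod (μS.prod μT) := by
  obtain ⟨hP, -, hst⟩ := h
  have hm := (measurable_gt z a b m).lintegral_prod_right' (ν := law μS μT)
  have e : X μS μT π z a b m = ∫⁻ p : (Fin k → ℝ) × ℝ × ℝ, ∫⁻ u,
      ENNReal.ofReal (gap a b (kwStep p.1 p.2.1 p.2.2) (theta z m (kwStep p.1 p.2.1 p.2.2) u))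
        ∂law μS μT ∂π.prod (μS.prod μT) := by
    unfold X
    conv_lhs => rw [← hst]
    rw [lintegral_map hm measurable_kwStep]
  have hm2 : Measurable fun p : (Fin k → ℝ) × ℝ × ℝ => ∫⁻ u,
      ENNReal.ofReal (gap a b (kwStep p.1 p.2.1 p.2.2) (theta z m (kwStep p.1 p.2.1 p.2.2) u))
        ∂law μS μT := hm.comp measurable_kwStep
  rw [e, lintegral_prod _ hm2.aemeasurable,
    lintegral_prod _ (measurable_gs z a b m).aemeasurable,
    lintegral_prod _ (measurable_gs z a b m).lintegral_prod_right'.aemeasurable]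
  refine lintegral_congr fun w => ?_
  refine lintegral_lintegral_swap (Measurable.aemeasurable ?_)
  exact (measurable_gs z a b m).comp
    (f := fun p : (ℝ × ℝ) × (ℕ → ℝ × ℝ) => ((w, p.2), p.1)) (by fun_prop)

theorem X_step (h : IsStationary μS μT π) (hS : ∀ᵐ s ∂μS, 0 ≤ s) (hT : ∀ᵐ t ∂μT, 0 ≤ t)
    {z a b c : Fin k} (hz : (z : ℕ) = 0) (hab : (a : ℕ) + 1 = b) (hbc : (b : ℕ) + 1 = c) (m : ℕ) :
    X μS μT π z a b m + X μS μT π z b c (m + 1) ≤
      X μS μT π z b c m + X μS μT π z a b (m + 1) := by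
  have hP := h.1
  rw [X_stat h z a b m, X_succ z b c m, X_eq_prod z b c m, X_succ z a b m,
    ← lintegral_add_left (measurable_gs z a b m), ← lintegral_add_right _ (measurable_gn z a b m)]
  refine lintegral_mono_ae ?_
  have h1 : ∀ᵐ p ∂(π.prod (law μS μT)).prod (μS.prod μT), Monotone p.1.1 ∧ ∀ i, 0 ≤ p.1.1 i :=
    Measure.quasiMeasurePreserving_fst.ae (Measure.quasiMeasurePreserving_fst.ae h.2.1)
  have h2 : ∀ᵐ p ∂(π.prod (law μS μT)).prod (μS.prod μT), 0 ≤ p.2.1 :=
    Measure.quasiMeasurePreserving_snd.ae (Measure.quasiMeasurePreserving_fst.ae hS)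
  have h3 : ∀ᵐ p ∂(π.prod (law μS μT)).prod (μS.prod μT), 0 ≤ p.2.2 :=
    Measure.quasiMeasurePreserving_snd.ae (Measure.quasiMeasurePreserving_snd.ae hT)
  filter_upwards [h1, h2, h3] with p hp hs ht
  have hab' : a ≤ b := by rw [Fin.le_def]; omega
  have hbc' : b ≤ c := by rw [Fin.le_def]; omega
  have hk : kwStep p.1.1 p.2.1 p.2.2 a ≤ kwStep p.1.1 p.2.1 p.2.2 b := monotone_sortVec _ hab'
  rw [← ENNReal.ofReal_add (gap_nonneg hk _) (gap_nonneg (hp.1 hbc') _),
    ← ENNReal.ofReal_add (gap_nonneg (hp.1 hbc') _) (gap_nonneg (hp.1 hab') _)]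
  exact ENNReal.ofReal_le_ofReal (gap_step hz hab hbc hp.1 (hp.2 z) hs ht m p.1.2)

theorem X_zero (h : IsStationary μS μT π) (z a b : Fin k) :
    X μS μT π z a b 0 = ∫⁻ w, ENNReal.ofReal (w b - w a) ∂π := by
  unfold X
  refine lintegral_congr_ae ?_
  filter_upwards [h.2.1] with w hw
  simp [theta, gap, hw.2]

omit [IsProbabilityMeasure μS] [IsProbabilityMeasure μT] in
theorem X_le (h : IsStationary μS μT π) (z : Fin k) {a b : Fin k} (hab : a ≤ b) (m : ℕ) :
    X μS μT π z a b m ≤ X μS μT π z a b 0 := by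
  refine lintegral_mono_ae ?_
  filter_upwards [h.2.1] with w hw
  exact lintegral_mono fun u => ENNReal.ofReal_le_ofReal
    (gap_anti (hw.1 hab) (theta_nonneg z m w u))

theorem sum_tendsto (hi : Integrable id μT) (hpos : 0 < ∫ t, t ∂μT) :
    ∀ᵐ u ∂law μS μT, Tendsto (fun n => ∑ i ∈ range n, (u i).2) atTop atTop := by
  have hm : ∀ n : ℕ, (law μS μT).map (fun u => (u n).2) = μT := by
    intro n
    have : (fun u : ℕ → ℝ × ℝ => (u n).2) = Prod.snd ∘ fun u => u n := rfl
    rw [this, ← Measure.map_map measurable_snd (measurable_pi_apply n), law_map,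
      Measure.map_snd_prod]
    simp
  have hme : ∀ n : ℕ, Measurable fun u : ℕ → ℝ × ℝ => (u n).2 := fun n => by fun_prop
  have hint : Integrable (fun u : ℕ → ℝ × ℝ => (u 0).2) (law μS μT) := by
    rw [← hm 0] at hi
    exact (integrable_map_measure aestronglyMeasurable_id (hme 0).aemeasurable).1 hi
  have hE : ∫ u, (u 0).2 ∂law μS μT = ∫ t, t ∂μT := by
    conv_rhs => rw [← hm 0]
    rw [integral_map (hme 0).aemeasurable (by fun_prop)]
  have hind := (law_indep (μS := μS) (μT := μT)).comp (fun _ => Prod.snd) fun _ => measurable_snd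
  have := strong_law_ae_real (μ := law μS μT) (fun n u => (u n).2) hint
    (fun i j hij => hind.indepFun hij)
    (fun i => ⟨(hme i).aemeasurable, (hme 0).aemeasurable, by rw [hm, hm]⟩)
  filter_upwards [this] with u hu
  rw [hE] at hu
  have h2 := hu.pos_mul_atTop hpos tendsto_natCast_atTop_atTop
  refine h2.congr' ?_
  filter_upwards [eventually_gt_atTop 0] with n hn
  have : (n : ℝ) ≠ 0 := by positivity
  field_simp

theorem X_tendsto (h : IsStationary μS μT π) (hi : Integrable id μT) (hpos : 0 < ∫ t, t ∂μT)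
    (z : Fin k) {a b : Fin k} (hab : a ≤ b) (hfin : X μS μT π z a b 0 ≠ ∞) :
    Tendsto (X μS μT π z a b) atTop (𝓝 0) := by
  have hP := h.1
  have e : ∀ m, X μS μT π z a b m = ∫⁻ p, ENNReal.ofReal (gap a b p.1 (theta z m p.1 p.2))
      ∂π.prod (law μS μT) := fun m =>
    (lintegral_prod _ (measurable_gt z a b m).aemeasurable).symm
  have h1 : ∀ᵐ p ∂π.prod (law μS μT), Monotone p.1 ∧ ∀ i, 0 ≤ p.1 i :=
    Measure.quasiMeasurePreserving_fst.ae h.2.1
  have h2 : ∀ᵐ p ∂π.prod (law μS μT),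
      Tendsto (fun n => ∑ i ∈ range n, (p.2 i).2) atTop atTop :=
    Measure.quasiMeasurePreserving_snd.ae (sum_tendsto hi hpos)
  have := tendsto_lintegral_of_dominated_convergence (μ := π.prod (law μS μT)) (f := fun _ => 0)
    (F := fun m p => ENNReal.ofReal (gap a b p.1 (theta z m p.1 p.2)))
    (fun p => ENNReal.ofReal (gap a b p.1 (theta z 0 p.1 p.2))) (measurable_gt z a b) ?_
    (by rw [← e]; exact hfin) ?_
  · simpa only [← e, lintegral_zero] using this
  · intro m
    filter_upwards [h1] with p hp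
    exact ENNReal.ofReal_le_ofReal (gap_anti (hp.1 hab) (theta_nonneg z m p.1 p.2))
  · filter_upwards [h1, h2] with p hp hu
    refine tendsto_const_nhds.congr' ?_
    filter_upwards [hu.eventually_ge_atTop (p.1 b)] with n hn
    have h3 := hn.trans (sum_le_theta z n p.1 p.2)
    simp [gap, max_eq_right h3, max_eq_right ((hp.1 hab).trans h3)]

theorem convex_lintegral (h : IsStationary μS μT π) (hS : ∀ᵐ s ∂μS, 0 ≤ s)
    (hT : ∀ᵐ t ∂μT, 0 ≤ t) (hi : Integrable id μT) (hpos : 0 < ∫ t, t ∂μT)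
    {a b c : Fin k} (hab : (a : ℕ) + 1 = b) (hbc : (b : ℕ) + 1 = c) :
    2 * ∫⁻ w, ENNReal.ofReal (w b) ∂π ≤
      ∫⁻ w, ENNReal.ofReal (w a) ∂π + ∫⁻ w, ENNReal.ofReal (w c) ∂π := by
  have hab' : a ≤ b := by rw [Fin.le_def]; omega
  have hbc' : b ≤ c := by rw [Fin.le_def]; omega
  by_cases hc : ∫⁻ w, ENNReal.ofReal (w c) ∂π = ∞
  · simp [hc]
  let z : Fin k := ⟨0, a.pos⟩
  have split : ∀ {a b : Fin k}, a ≤ b → ∫⁻ w, ENNReal.ofReal (w b) ∂π =
      ∫⁻ w, ENNReal.ofReal (w a) ∂π + X μS μT π z a b 0 := by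
    intro a b hab
    rw [X_zero h, ← lintegral_add_left (by fun_prop)]
    refine lintegral_congr_ae ?_
    filter_upwards [h.2.1] with w hw
    rw [← ENNReal.ofReal_add (hw.2 a) (sub_nonneg.2 (hw.1 hab))]
    simp
  have e1 := split hab'
  have e2 := split hbc'
  have f2 : X μS μT π z b c 0 ≠ ∞ := fun h => hc (by rw [e2, h]; simp)
  have fb : ∫⁻ w, ENNReal.ofReal (w b) ∂π ≠ ∞ := fun h => hc (by rw [e2, h]; simp)
  have f1 : X μS μT π z a b 0 ≠ ∞ := fun h => fb (by rw [e1, h]; simp)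
  have ind : ∀ m, X μS μT π z a b 0 + X μS μT π z b c m ≤
      X μS μT π z b c 0 + X μS μT π z a b m := by
    intro m
    induction m with
    | zero => rw [add_comm]
    | succ m ih =>
      have hs := X_step h hS hT (z := z) rfl hab hbc m
      have g1 := ne_top_of_le_ne_top f1 (X_le h z hab' m)
      have g2 := ne_top_of_le_ne_top f2 (X_le h z hbc' m)
      have g3 := ne_top_of_le_ne_top f1 (X_le h z hab' (m + 1))
      have g4 := ne_top_of_le_ne_top f2 (X_le h z hbc' (m + 1))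
      rw [← ENNReal.toReal_le_toReal (by finiteness) (by finiteness),
        ENNReal.toReal_add (by finiteness) (by finiteness),
        ENNReal.toReal_add (by finiteness) (by finiteness)] at hs ih ⊢
      linarith
  have key : X μS μT π z a b 0 ≤ X μS μT π z b c 0 := by
    have ht := (X_tendsto h hi hpos z hab' f1).const_add (X μS μT π z b c 0)
    rw [add_zero] at ht
    exact ge_of_tendsto' ht fun m => le_self_add.trans (ind m)
  rw [two_mul]
  nth_rewrite 2 [e1]
  rw [e2]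
  calc _ ≤ ∫⁻ w, ENNReal.ofReal (w b) ∂π + (∫⁻ w, ENNReal.ofReal (w a) ∂π +
        X μS μT π z b c 0) := by gcongr
    _ = _ := by ring

end Pool.Agent.H44.KW
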