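import Pool.Agent.H44.Drive

/-! A D/GI/2 queue (interarrival time 4, service time 7 or 10) whose customers are served
cyclically for the first few steps. -/

open MeasureTheory ProbabilityTheory
open scoped ENNReal

namespace Pool.Agent.H44.KWCyc
open Pool.Agent.H44.Drive

abbrev Om : Type := ℕ ⊕ ℕ → Bool

instance : IsProbabilityMeasure (bern (1 / 25)) := bern_prob (by norm_num) (by norm_num)

noncomputable def mu : Measure Om := Measure.infinitePi fun _ => bern (1 / 25)

instance : IsProbabilityMeasure mu := by unfold mu; infer_instance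

def sv (b : Bool) : ℝ := if b then 10 else 7

def T (_ : ℕ) (_ : Om) : ℝ := 4
def S (n : ℕ) (ω : Om) : ℝ := sv (ω (Sum.inr n))
def xi (n : ℕ) (ω : Om) : Bool := ω (Sum.inr n)

theorem measurable_xi (n : ℕ) : Measurable (xi n) := measurable_pi_apply _
theorem measurable_T (n : ℕ) : Measurable (T n) := measurable_const
theorem measurable_S (n : ℕ) : Measurable (S n) :=
  (measurable_of_countable sv).comp (measurable_xi n)

theorem map_xi (n : ℕ) : mu.map (xi n) = bern (1 / 25) :=
  Measure.infinitePi_map_eval (fun _ : ℕ ⊕ ℕ => bern (1 / 25)) (Sum.inr n)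

theorem indep_xi : iIndepFun xi mu := by
  have := iIndepFun.precomp (g := (Sum.inr : ℕ → ℕ ⊕ ℕ)) Sum.inr_injective
    (iIndepFun_infinitePi (P := fun _ : ℕ ⊕ ℕ => bern (1 / 25)) (X := fun _ b => b)
    (fun _ => measurable_id))
  exact this

theorem indep_sum : iIndepFun (fun i : ℕ ⊕ ℕ => Sum.elim T S i) mu := by
  have := iIndepFun_infinitePi (P := fun _ : ℕ ⊕ ℕ => bern (1 / 25))
    (X := fun i : ℕ ⊕ ℕ => Sum.elim (fun _ _ => (4 : ℝ)) (fun _ b => sv b) i)
    (fun _ => measurable_of_countable _)
  convert this using 1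
  · funext i
    cases i <;> rfl
  · rfl

theorem indep_pair : iIndepFun (fun n ω => (T n ω, S n ω)) mu :=
  indep_xi.comp (fun _ b => ((4 : ℝ), sv b)) (fun _ => measurable_of_countable _)

theorem ident_T (n : ℕ) : IdentDistrib (T n) (T 0) mu mu :=
  IdentDistrib.refl (measurable_T 0).aemeasurable

theorem ident_S (n : ℕ) : IdentDistrib (S n) (S 0) mu mu := by
  have : IdentDistrib (xi n) (xi 0) mu mu :=
    ⟨(measurable_xi n).aemeasurable, (measurable_xi 0).aemeasurable, by rw [map_xi, map_xi]⟩
  exact this.comp (measurable_of_countable sv)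

theorem integral_xi (n : ℕ) (g : Bool → ℝ) :
    ∫ ω, g (xi n ω) ∂mu = 1 / 25 * g true + (1 - 1 / 25) * g false := by
  rw [← integral_bern (by norm_num) (by norm_num), ← map_xi n,
    integral_map (measurable_xi n).aemeasurable (measurable_of_countable g).aestronglyMeasurable]

theorem lintegral_xi (n : ℕ) (g : Bool → ℝ≥0∞) :
    ∫⁻ ω, g (xi n ω) ∂mu = ENNReal.ofReal (1 / 25) * g true +
      ENNReal.ofReal (1 - 1 / 25) * g false := by
  rw [← lintegral_bern, ← map_xi n, lintegral_map (measurable_of_countable g) (measurable_xi n)]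

theorem memLp_S (p : ℝ≥0∞) : MemLp (S 0) p mu := by
  refine MemLp.of_bound (measurable_S 0).aestronglyMeasurable 10 (ae_of_all _ fun ω => ?_)
  unfold S sv
  split_ifs <;> norm_num

theorem memLp_T (p : ℝ≥0∞) : MemLp (T 0) p mu := memLp_const _

theorem integral_S : ∫ ω, S 0 ω ∂mu = 178 / 25 := by
  have := integral_xi 0 sv
  simp only [sv] at this
  refine this.trans (by norm_num)

theorem integral_T : ∫ ω, T 0 ω ∂mu = 4 := by simp [T]

theorem variance_T : variance (T 0) mu = 0 := by
  rw [variance_eq_sub (memLp_T 2)]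
  simp [T]

theorem variance_S : variance (S 0) mu = 216 / 625 := by
  rw [variance_eq_sub (memLp_S 2), integral_S]
  have := integral_xi 0 (fun b => sv b ^ 2)
  simp only [sv] at this
  have e : ∫ ω, (S 0 ^ 2) ω ∂mu = _ := this
  rw [e]
  norm_num

theorem S_nonneg (n : ℕ) (ω : Om) : 0 ≤ S n ω := by
  unfold S sv
  split_ifs <;> norm_num

theorem T_nonneg (n : ℕ) (ω : Om) : 0 ≤ T n ω := by simp [T]

noncomputable def arg (v : Fin 2 → ℝ) : Fin 2 := if v 0 ≤ v 1 then 0 else 1

theorem arg_le (v : Fin 2 → ℝ) (j : Fin 2) : v (arg v) ≤ v j := by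
  unfold arg
  split_ifs with h <;> fin_cases j <;> simp <;> linarith

noncomputable def fV (v : Fin 2 → ℝ) (b : Bool) : Fin 2 → ℝ :=
  fun i => max 0 (v i + (if i = arg v then sv b else 0) - 4)

noncomputable def V (n : ℕ) (ω : Om) : Fin 2 → ℝ := chain fV 0 n fun i => xi i ω

theorem V_zero (ω : Om) (i : Fin 2) : V 0 ω i = 0 := rfl

theorem V_succ (n : ℕ) (ω : Om) : ∃ j : Fin 2, (∀ i, V n ω j ≤ V n ω i) ∧
    ∀ i, V (n + 1) ω i = max 0 (V n ω i + (if i = j then S n ω else 0) - T n ω) :=
  ⟨arg (V n ω), arg_le _, fun _ => rfl⟩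

theorem fV_le {a b : ℝ} (h : a ≤ b) (c : Bool) :
    fV ![a, b] c = ![max 0 (a + sv c - 4), max 0 (b - 4)] := by
  funext i
  fin_cases i <;> simp [fV, arg, h]

theorem fV_gt {a b : ℝ} (h : b < a) (c : Bool) :
    fV ![a, b] c = ![max 0 (a - 4), max 0 (b + sv c - 4)] := by
  funext i
  fin_cases i <;> simp [fV, arg, not_le.2 h]

theorem V_four (ω : Om) (i : Fin 2) :
    (if xi 2 ω then 2 else 0) + (if xi 0 ω then 1 else 0) ≤ V 4 ω i := by
  have h0 : (0 : Fin 2 → ℝ) = ![0, 0] := by
    funext i
    fin_cases i <;> rfl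
  simp only [V, chain, h0]
  generalize xi 0 ω = b0, xi 1 ω = b1, xi 2 ω = b2, xi 3 ω = b3
  rw [fV_le le_rfl, fV_gt (by cases b0 <;> norm_num [sv]),
    fV_le (by cases b0 <;> cases b1 <;> norm_num [sv]),
    fV_gt (by cases b0 <;> cases b1 <;> cases b2 <;> norm_num [sv])]
  fin_cases i <;> cases b0 <;> cases b1 <;> cases b2 <;> cases b3 <;> norm_num [sv]

theorem wait_four : ENNReal.ofReal (3 / 25) ≤ ∫⁻ ω, ENNReal.ofReal (⨅ i, V 4 ω i) ∂mu := by
  calc ENNReal.ofReal (3 / 25)
      = ∫⁻ ω, (ENNReal.ofReal (if xi 2 ω then 2 else 0) +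
          ENNReal.ofReal (if xi 0 ω then 1 else 0)) ∂mu := by
        rw [lintegral_add_left]
        · rw [lintegral_xi 2 (fun b => ENNReal.ofReal (if b then 2 else 0)),
            lintegral_xi 0 (fun b => ENNReal.ofReal (if b then 1 else 0))]
          simp only [if_true, Bool.false_eq_true, if_false, ENNReal.ofReal_zero, mul_zero, add_zero]
          rw [← ENNReal.ofReal_mul (by norm_num), ← ENNReal.ofReal_mul (by norm_num),
            ← ENNReal.ofReal_add (by norm_num) (by norm_num)]
          norm_num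
        · exact (measurable_of_countable
            (fun b : Bool => ENNReal.ofReal (if b then 2 else 0))).comp (measurable_xi 2)
    _ ≤ _ := by
        refine lintegral_mono fun ω => ?_
        rw [← ENNReal.ofReal_add (by split_ifs <;> norm_num) (by split_ifs <;> norm_num)]
        exact ENNReal.ofReal_le_ofReal (le_ciInf (V_four ω))

/-- the fast single server, in units of one half -/
def gN (m : ℕ) (b : Bool) : ℕ := if b then m + 2 else m - 1

def N (n : ℕ) (ω : Om) : ℕ := chain gN 0 n fun i => xi i ω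

noncomputable def U (n : ℕ) (ω : Om) : ℝ := (N n ω : ℝ) / 2

theorem U_zero (ω : Om) : U 0 ω = 0 := by simp [U, N, chain]

theorem U_succ (n : ℕ) (ω : Om) :
    U (n + 1) ω = max 0 (U n ω + S n ω / ((2 : ℕ) : ℝ) - T n ω) := by
  have e : N (n + 1) ω = gN (N n ω) (xi n ω) := rfl
  have e2 : S n ω = sv (xi n ω) := rfl
  rw [U, U, e, e2, T]
  generalize N n ω = m, xi n ω = b
  cases b
  · rcases m with _ | m
    · norm_num [gN, sv]
    · simp only [gN, sv, Bool.false_eq_true, if_false, Nat.add_sub_cancel]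
      have : (0 : ℝ) ≤ m := Nat.cast_nonneg m
      push_cast
      rw [max_eq_right (by linarith)]
      ring
  · simp only [gN, sv, if_true]
    have : (0 : ℝ) ≤ m := Nat.cast_nonneg m
    push_cast
    rw [max_eq_right (by linarith)]
    ring

def phi : ℕ → ℝ
  | 0 => 0
  | m + 1 => 2 ^ m

theorem phi_nonneg (m : ℕ) : 0 ≤ phi m := by
  cases m <;> simp [phi]

theorem le_phi (m : ℕ) : (m : ℝ) ≤ phi m := by
  rcases m with _ | m
  · simp [phi]
  · simp only [phi]
    exact_mod_cast Nat.lt_two_pow_self

theorem phi_drift (m : ℕ) :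
    1 / 25 * phi (gN m true) + (1 - 1 / 25) * phi (gN m false) ≤ 16 / 25 * phi m + 2 / 25 := by
  rcases m with _ | _ | m
  · norm_num [gN, phi]
  · norm_num [gN, phi]
  · simp only [gN, phi, if_true, Bool.false_eq_true, if_false, Nat.add_sub_cancel, pow_succ]
    linarith

theorem phi_bound (n : ℕ) : ∫⁻ ω, ENNReal.ofReal (phi (N n ω)) ∂mu ≤ ENNReal.ofReal (2 / 9) := by
  induction n with
  | zero => simp [N, chain, phi]
  | succ n ih =>
    have hm : Measurable fun ω => ENNReal.ofReal (phi (N n ω)) :=
      (measurable_of_countable fun m => ENNReal.ofReal (phi m)).comp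
        ((measurable_chain (measurable_of_countable _) 0 n).comp
          (measurable_pi_lambda _ measurable_xi))
    have e := lintegral_chain_succ indep_xi measurable_xi (f := gN) (measurable_of_countable _) 0 n
      (H := fun m => ENNReal.ofReal (phi m)) (measurable_of_countable _)
    refine e.le.trans ?_
    simp only [map_xi, lintegral_bern]
    calc _ ≤ ∫⁻ ω, (ENNReal.ofReal (16 / 25) * ENNReal.ofReal (phi (N n ω)) +
          ENNReal.ofReal (2 / 25)) ∂mu := by
          refine lintegral_mono fun ω => ?_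
          rw [← ENNReal.ofReal_mul (by norm_num), ← ENNReal.ofReal_mul (by norm_num),
            ← ENNReal.ofReal_mul (by norm_num),
            ← ENNReal.ofReal_add (mul_nonneg (by norm_num) (phi_nonneg _))
              (mul_nonneg (by norm_num) (phi_nonneg _)),
            ← ENNReal.ofReal_add (mul_nonneg (by norm_num) (phi_nonneg _)) (by norm_num)]
          exact ENNReal.ofReal_le_ofReal (phi_drift _)
      _ ≤ ENNReal.ofReal (16 / 25) * ENNReal.ofReal (2 / 9) + ENNReal.ofReal (2 / 25) := by
          rw [lintegral_add_right _ measurable_const, lintegral_const_mul _ hm]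
          simp only [lintegral_const, measure_univ, mul_one]
          gcongr
      _ = _ := by
          rw [← ENNReal.ofReal_mul (by norm_num),
            ← ENNReal.ofReal_add (by norm_num) (by norm_num)]
          norm_num

theorem U_bound (n : ℕ) : ∫⁻ ω, ENNReal.ofReal (U n ω) ∂mu ≤ ENNReal.ofReal (1 / 9) := by
  calc _ ≤ ∫⁻ ω, ENNReal.ofReal (1 / 2) * ENNReal.ofReal (phi (N n ω)) ∂mu := by
        refine lintegral_mono fun ω => ?_
        rw [← ENNReal.ofReal_mul (by norm_num)]
        refine ENNReal.ofReal_le_ofReal ?_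
        have := le_phi (N n ω)
        unfold U
        linarith
    _ ≤ ENNReal.ofReal (1 / 2) * ENNReal.ofReal (2 / 9) := by
        rw [lintegral_const_mul' _ _ ENNReal.ofReal_ne_top]
        gcongr
        exact phi_bound n
    _ = _ := by
        rw [← ENNReal.ofReal_mul (by norm_num)]
        norm_num

end Pool.Agent.H44.KWCyc
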