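import Pool.Agent.H44.KW

/-! Deterministic facts on sorting and on the Kiefer-Wolfowitz step. -/

open MeasureTheory Finset

namespace Pool.Agent.H44.KW

variable {k : ℕ}

theorem monotone_sortVec (v : Fin k → ℝ) : Monotone (sortVec v) := Tuple.monotone_sort v

theorem sortVec_le_iff (v : Fin k → ℝ) (j : Fin k) (x : ℝ) :
    sortVec v j ≤ x ↔ (j : ℕ) < #{i | v i ≤ x} := by
  rw [← Tuple.lt_card_le_iff_apply_le_of_monotone (monotone_sortVec v)]
  have : #{i | sortVec v i ≤ x} = #{i | v i ≤ x} := by
    refine Finset.card_bij (fun i _ => Tuple.sort v i) ?_ ?_ ?_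
    · intro i hi
      simpa [sortVec] using hi
    · intro i _ j _ h
      exact (Tuple.sort v).injective h
    · intro b hb
      exact ⟨(Tuple.sort v).symm b, by simpa [sortVec] using hb, by simp⟩
  rw [this]

theorem sortVec_mono {v v' : Fin k → ℝ} (h : ∀ i, v i ≤ v' i) (j : Fin k) :
    sortVec v j ≤ sortVec v' j := by
  rw [sortVec_le_iff]
  refine ((sortVec_le_iff v' j _).1 le_rfl).trans_le (card_le_card fun i hi => ?_)
  simp only [mem_filter, mem_univ, true_and] at hi ⊢
  exact (h i).trans hi

theorem sortVec_comp {φ : ℝ → ℝ} (hφ : Monotone φ) (v : Fin k → ℝ) :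
    sortVec (φ ∘ v) = φ ∘ sortVec v :=
  (Tuple.comp_sort_eq_comp_iff_monotone.2 (hφ.comp (monotone_sortVec v))).symm

theorem sortVec_of_monotone {v : Fin k → ℝ} (h : Monotone v) : sortVec v = v := by
  unfold sortVec
  rw [Tuple.sort_eq_refl_iff_monotone.2 h]
  rfl

theorem measurable_sortVec : Measurable (sortVec : (Fin k → ℝ) → Fin k → ℝ) := by
  refine measurable_pi_lambda _ fun j => measurable_of_Iic fun x => ?_
  have : (fun v : Fin k → ℝ => sortVec v j) ⁻¹' Set.Iic x =
      {v | (j : ℕ) < ∑ i, if v i ≤ x then 1 else 0} := by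
    ext v
    simp only [Set.mem_preimage, Set.mem_Iic, sortVec_le_iff, Set.mem_ofPred_eq, card_filter]
  rw [this]
  refine measurableSet_lt measurable_const (Finset.measurable_sum _ fun i _ => ?_)
  exact Measurable.ite (measurableSet_le (measurable_pi_apply i) measurable_const)
    measurable_const measurable_const

theorem measurable_kwStep :
    Measurable (fun p : (Fin k → ℝ) × ℝ × ℝ => kwStep p.1 p.2.1 p.2.2) := by
  refine measurable_sortVec.comp (measurable_pi_lambda _ fun i => ?_)
  split_ifs <;> fun_prop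

/-- add the service time to the first coordinate -/
def ins (w : Fin k → ℝ) (s : ℝ) : Fin k → ℝ := fun i => if (i : ℕ) = 0 then w i + s else w i

theorem kwStep_eq (w : Fin k → ℝ) (s t : ℝ) (j : Fin k) :
    kwStep w s t j = max (sortVec (ins w s) j - t) 0 := by
  have hφ : Monotone fun x : ℝ => max (x - t) 0 := fun a b h =>
    max_le_max (by linarith) le_rfl
  have := congrFun (sortVec_comp hφ (ins w s)) j
  simp only [Function.comp] at this
  rw [← this]
  unfold kwStep
  congr 1
  funext i
  simp only [Function.comp, ins]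
  split_ifs <;> rfl

theorem sortVec_ins {w : Fin k → ℝ} (hw : Monotone w) {s : ℝ} (hs : 0 ≤ s) {z j j' : Fin k}
    (hz : (z : ℕ) = 0) (hj : (j : ℕ) + 1 = j') :
    sortVec (ins w s) j = min (w j') (max (w j) (w z + s)) := by
  refine eq_of_forall_ge_iff fun x => ?_
  have hjj : w j ≤ w j' := hw (by rw [Fin.le_def]; omega)
  have hzero : ∀ i : Fin k, (i : ℕ) = 0 ↔ i = z := fun i => by
    rw [Fin.ext_iff, hz]
  rw [sortVec_le_iff]
  by_cases hy : w z + s ≤ x
  · have : ({i | ins w s i ≤ x} : Finset (Fin k)) = ({i | w i ≤ x} : Finset (Fin k)) := by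
      ext i
      simp only [mem_filter, mem_univ, true_and, ins, hzero]
      split_ifs with h
      · subst h
        exact ⟨fun _ => by linarith, fun _ => hy⟩
      · rfl
    rw [this, Tuple.lt_card_le_iff_apply_le_of_monotone hw]
    simp only [min_le_iff, max_le_iff, hy, and_true]
    exact ⟨Or.inr, fun h => h.elim hjj.trans id⟩
  · have : ({i | ins w s i ≤ x} : Finset (Fin k)) = ({i | w i ≤ x} : Finset (Fin k)).erase z := by
      ext i
      simp only [mem_filter, mem_univ, true_and, ins, hzero, mem_erase]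
      split_ifs with h
      · subst h
        simp [hy]
      · simp [h]
    rw [this]
    simp only [min_le_iff, max_le_iff, hy, and_false, or_false]
    rw [← Tuple.lt_card_le_iff_apply_le_of_monotone hw, ← hj]
    by_cases hm : z ∈ ({i | w i ≤ x} : Finset (Fin k))
    · rw [card_erase_of_mem hm]
      omega
    · have he : ({i | w i ≤ x} : Finset (Fin k)) = ∅ := by
        refine eq_empty_of_forall_notMem fun i hi => hm ?_
        simp only [mem_filter, mem_univ, true_and] at hi ⊢
        exact (hw (by rw [Fin.le_def]; omega)).trans hi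
      simp [he]

theorem kwStep_le_add {w w' : Fin k → ℝ} {c : ℝ} (hc : 0 ≤ c) (h : ∀ i, w i ≤ w' i + c)
    (s t : ℝ) (j : Fin k) : kwStep w s t j ≤ kwStep w' s t j + c := by
  have hφ : Monotone fun x : ℝ => x + c := fun a b h => by linarith
  have := congrFun (sortVec_comp hφ
    (fun i => if (i : ℕ) = 0 then max (w' i + s - t) 0 else max (w' i - t) 0)) j
  simp only [Function.comp] at this
  unfold kwStep
  rw [← this]
  refine sortVec_mono (fun i => ?_) j
  have := h i
  simp only [Function.comp]
  split_ifs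
  · exact max_le (by linarith [le_max_left (w' i + s - t) 0])
      (by linarith [le_max_right (w' i + s - t) 0])
  · exact max_le (by linarith [le_max_left (w' i - t) 0])
      (by linarith [le_max_right (w' i - t) 0])

theorem le_kwStep_add {w : Fin k → ℝ} (hw : Monotone w) {s : ℝ} (hs : 0 ≤ s) (t : ℝ) (j : Fin k) :
    w j ≤ kwStep w s t j + t := by
  rw [kwStep_eq]
  have : sortVec w j ≤ sortVec (ins w s) j := by
    refine sortVec_mono (fun i => ?_) j
    unfold ins
    split_ifs <;> linarith
  rw [sortVec_of_monotone hw] at this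
  linarith [le_max_left (sortVec (ins w s) j - t) 0]

/-- the thresholds -/
noncomputable def theta (z : Fin k) : ℕ → (Fin k → ℝ) → (ℕ → ℝ × ℝ) → ℝ
  | 0, _, _ => 0
  | m + 1, w, u => max (max ((u m).2 + theta z m (kwStep w (u m).1 (u m).2) u) (w z + (u m).1)) 0

theorem theta_nonneg (z : Fin k) (m : ℕ) (w : Fin k → ℝ) (u : ℕ → ℝ × ℝ) : 0 ≤ theta z m w u := by
  cases m
  · exact le_rfl
  · exact le_max_right _ _

theorem theta_congr (z : Fin k) (m : ℕ) (w : Fin k → ℝ) {u v : ℕ → ℝ × ℝ}
    (h : ∀ i < m, u i = v i) : theta z m w u = theta z m w v := by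
  induction m generalizing w with
  | zero => rfl
  | succ m ih =>
    simp only [theta]
    rw [h m (by omega), ih _ fun i hi => h i (by omega)]

theorem theta_le_add (z : Fin k) (m : ℕ) {w w' : Fin k → ℝ} {c : ℝ} (hc : 0 ≤ c)
    (h : ∀ i, w i ≤ w' i + c) (u : ℕ → ℝ × ℝ) : theta z m w u ≤ theta z m w' u + c := by
  induction m generalizing w w' with
  | zero => simpa [theta] using hc
  | succ m ih =>
    simp only [theta]
    have h1 := ih (kwStep_le_add hc h (u m).1 (u m).2)
    have h2 := h z
    set a := theta z m (kwStep w' (u m).1 (u m).2) u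
    have e1 := le_max_left (max ((u m).2 + a) (w' z + (u m).1)) 0
    have e2 := le_max_right (max ((u m).2 + a) (w' z + (u m).1)) 0
    have e3 := le_max_left ((u m).2 + a) (w' z + (u m).1)
    have e4 := le_max_right ((u m).2 + a) (w' z + (u m).1)
    exact max_le (max_le (by linarith) (by linarith)) (by linarith)

theorem sum_le_theta (z : Fin k) (m : ℕ) (w : Fin k → ℝ) (u : ℕ → ℝ × ℝ) :
    ∑ i ∈ range m, (u i).2 ≤ theta z m w u := by
  induction m generalizing w with
  | zero => simp [theta]
  | succ m ih =>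
    rw [sum_range_succ]
    simp only [theta]
    have := ih (kwStep w (u m).1 (u m).2)
    exact le_max_of_le_left (le_max_of_le_left (by linarith))

theorem measurable_theta (z : Fin k) (m : ℕ) :
    Measurable fun p : (Fin k → ℝ) × (ℕ → ℝ × ℝ) => theta z m p.1 p.2 := by
  induction m with
  | zero => exact measurable_const
  | succ m ih =>
    simp only [theta]
    have h1 : Measurable fun p : (Fin k → ℝ) × (ℕ → ℝ × ℝ) =>
        kwStep p.1 (p.2 m).1 (p.2 m).2 :=
      measurable_kwStep.comp (f := fun p : (Fin k → ℝ) × (ℕ → ℝ × ℝ) => (p.1, p.2 m))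
        (by fun_prop)
    have h2 := ih.comp (h1.prodMk measurable_snd)
    refine Measurable.max (Measurable.max (Measurable.add (by fun_prop) h2) (by fun_prop))
      measurable_const

/-- length of the part above `θ` of the interval between two coordinates -/
noncomputable def gap (a b : Fin k) (w : Fin k → ℝ) (θ : ℝ) : ℝ := max (w b) θ - max (w a) θ

theorem gap_nonneg {a b : Fin k} {w : Fin k → ℝ} (h : w a ≤ w b) (θ : ℝ) : 0 ≤ gap a b w θ :=
  sub_nonneg.2 (max_le_max h le_rfl)

theorem gap_anti {a b : Fin k} {w : Fin k → ℝ} (h : w a ≤ w b) {θ θ' : ℝ} (hθ : θ ≤ θ') :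
    gap a b w θ' ≤ gap a b w θ := by
  simp only [gap, max_def]
  split_ifs <;> linarith

theorem gap_identity (p q r y θ : ℝ) (hpq : p ≤ q) (hqr : q ≤ r) :
    (max (min r (max q y)) θ - max (min q (max p y)) θ) + (max r (max θ y) - max q (max θ y)) =
      (max r θ - max q θ) + (max q (max θ y) - max p (max θ y)) := by
  simp only [max_def, min_def]
  split_ifs <;> linarith

theorem gap_step {z a b c : Fin k} (hz : (z : ℕ) = 0) (hab : (a : ℕ) + 1 = b)
    (hbc : (b : ℕ) + 1 = c) {w : Fin k → ℝ} (hw : Monotone w) (hw0 : 0 ≤ w z) {s t : ℝ}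
    (hs : 0 ≤ s) (ht : 0 ≤ t) (m : ℕ) (u : ℕ → ℝ × ℝ) :
    gap a b (kwStep w s t) (theta z m (kwStep w s t) u) +
        gap b c w (max (max (t + theta z m (kwStep w s t) u) (w z + s)) 0) ≤
      gap b c w (theta z m w u) +
        gap a b w (max (max (t + theta z m (kwStep w s t) u) (w z + s)) 0) := by
  have hP := theta_le_add z m ht (le_kwStep_add hw hs t) u
  have h0 := theta_nonneg z m (kwStep w s t) u
  generalize theta z m (kwStep w s t) u = θ at hP h0
  have hpq : w a ≤ w b := hw (by rw [Fin.le_def]; omega)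
  have hqr : w b ≤ w c := hw (by rw [Fin.le_def]; omega)
  have e0 : max (max (t + θ) (w z + s)) 0 = max (t + θ) (w z + s) :=
    max_eq_left (le_max_of_le_right (by linarith))
  have e1 : ∀ x : ℝ, max (max (x - t) 0) θ = max x (t + θ) - t := by
    intro x
    simp only [max_def]
    split_ifs <;> linarith
  have h2 := gap_anti hqr (show theta z m w u ≤ t + θ by linarith)
  have h3 := gap_identity (w a) (w b) (w c) (w z + s) (t + θ) hpq hqr
  rw [e0]
  unfold gap at *
  rw [kwStep_eq, kwStep_eq, e1, e1, sortVec_ins hw hs hz hab, sortVec_ins hw hs hz hbc]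
  linarith

end Pool.Agent.H44.KW
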