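import Pool.Agent.H44.KW

open MeasureTheory Set
open scoped ENNReal

namespace Pool.Agent.H44.KW

theorem sortVec_two (v : Fin 2 → ℝ) : sortVec v = ![min (v 0) (v 1), max (v 0) (v 1)] := by
  have hm : Monotone (sortVec v) := Tuple.monotone_sort v
  have h01 : sortVec v 0 ≤ sortVec v 1 := hm (by decide)
  have hp : ∀ σ : Equiv.Perm (Fin 2), (σ 0 = 0 ∧ σ 1 = 1) ∨ (σ 0 = 1 ∧ σ 1 = 0) := by decide
  unfold sortVec at *
  simp only [Function.comp] at h01
  funext i
  rcases hp (Tuple.sort v) with ⟨h0, h1⟩ | ⟨h0, h1⟩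
  · rw [h0, h1] at h01
    fin_cases i
    · simp [h0, h01]
    · simp [h1, h01]
  · rw [h0, h1] at h01
    fin_cases i
    · simp [h0, h01]
    · simp [h1, h01]

theorem kwStep_two (w : Fin 2 → ℝ) (s t : ℝ) :
    kwStep w s t = ![min (max (w 0 + s - t) 0) (max (w 1 - t) 0),
      max (max (w 0 + s - t) 0) (max (w 1 - t) 0)] := by
  unfold kwStep
  rw [sortVec_two]
  simp

theorem measurable_kwStep_two :
    Measurable (fun p : (Fin 2 → ℝ) × ℝ × ℝ => kwStep p.1 p.2.1 p.2.2) := by
  simp only [kwStep_two]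
  refine measurable_pi_lambda _ fun i => ?_
  fin_cases i
  · simp only [Fin.zero_eta, Matrix.cons_val_zero]
    fun_prop
  · simp only [Fin.mk_one, Matrix.cons_val_one, Matrix.cons_val_fin_one]
    fun_prop

theorem measurable_kwStep_two' (s t : ℝ) :
    Measurable (fun w : Fin 2 → ℝ => kwStep w s t) :=
  measurable_kwStep_two.comp (f := fun w : Fin 2 → ℝ => (w, s, t)) (by fun_prop)

/-- fair coin on two values -/
noncomputable def coin (a b : ℝ) : Measure ℝ :=
  (2⁻¹ : ℝ≥0∞) • Measure.dirac a + (2⁻¹ : ℝ≥0∞) • Measure.dirac b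

instance (a b : ℝ) : IsProbabilityMeasure (coin a b) :=
  ⟨by simp [coin, ENNReal.inv_two_add_inv_two]⟩

theorem ae_coin {a b : ℝ} {p : ℝ → Prop} (ha : p a) (hb : p b) : ∀ᵐ x ∂coin a b, p x := by
  unfold coin
  rw [ae_add_measure_iff]
  constructor
  · exact Measure.ae_smul_measure (by simpa using ha) _
  · exact Measure.ae_smul_measure (by simpa using hb) _

theorem integral_coin (a b : ℝ) (f : ℝ → ℝ) : ∫ x, f x ∂coin a b = (f a + f b) / 2 := by
  unfold coin
  rw [integral_add_measure]
  · simp [integral_smul_measure]; ring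
  · exact (integrable_dirac (by simp)).smul_measure (by simp)
  · exact (integrable_dirac (by simp)).smul_measure (by simp)

theorem lintegral_coin (a b : ℝ) (f : ℝ → ℝ≥0∞) :
    ∫⁻ x, f x ∂coin a b = 2⁻¹ * f a + 2⁻¹ * f b := by
  unfold coin
  simp [lintegral_add_measure, lintegral_smul_measure]

theorem memLp_coin (a b : ℝ) : MemLp id 2 (coin a b) := by
  refine MemLp.of_bound aestronglyMeasurable_id (max |a| |b|) ?_
  exact ae_coin (by simp) (by simp)

noncomputable def muS : Measure ℝ := coin (1 / 2) 2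
noncomputable def muT : Measure ℝ := coin 1 (5 / 4)

instance : IsProbabilityMeasure muS := by unfold muS; infer_instance
instance : IsProbabilityMeasure muT := by unfold muT; infer_instance

def good : Set (Fin 2 → ℝ) := {w | w 0 = 0 ∧ 0 ≤ w 1 ∧ w 1 ≤ 1}

theorem measurableSet_good : MeasurableSet good := by
  unfold good
  measurability

theorem step_good {w : Fin 2 → ℝ} (hw : w ∈ good) {s t : ℝ} (ht : 1 ≤ t) :
    kwStep w s t = ![0, max (s - t) 0] := by
  obtain ⟨h0, h1, h2⟩ := hw
  rw [kwStep_two, h0, max_eq_right (show w 1 - t ≤ 0 by linarith)]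
  simp

theorem mem_good {s t : ℝ} (hs : s ≤ 2) (ht : 1 ≤ t) : ![0, max (s - t) 0] ∈ good := by
  refine ⟨by simp, by simp, ?_⟩
  simp only [Matrix.cons_val_one, Matrix.cons_val_fin_one, max_le_iff]
  constructor <;> linarith

theorem ae_ST : ∀ᵐ q ∂muS.prod muT, q.1 ≤ 2 ∧ 1 ≤ q.2 := by
  rw [Measure.ae_prod_iff_ae_ae (by measurability)]
  exact ae_coin (ae_coin (by norm_num) (by norm_num)) (ae_coin (by norm_num) (by norm_num))

theorem exists_stationary : ∃ π : Measure (Fin 2 → ℝ), IsStationary muS muT π := by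
  have hg : Measurable (fun q : ℝ × ℝ => (![0, max (q.1 - q.2) 0] : Fin 2 → ℝ)) := by
    refine measurable_pi_lambda _ fun i => ?_
    fin_cases i
    · simp
    · simp only [Fin.mk_one, Matrix.cons_val_one, Matrix.cons_val_fin_one]
      fun_prop
  set π : Measure (Fin 2 → ℝ) := (muS.prod muT).map fun q => ![0, max (q.1 - q.2) 0] with hπ
  have hP : IsProbabilityMeasure π := Measure.isProbabilityMeasure_map hg.aemeasurable
  have hgood : ∀ᵐ w ∂π, w ∈ good := by
    refine (ae_map_iff hg.aemeasurable measurableSet_good).2 ?_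
    filter_upwards [ae_ST] with q hq using mem_good hq.1 hq.2
  refine ⟨π, hP, ?_, ?_⟩
  · filter_upwards [hgood] with w hw
    obtain ⟨h0, h1, h2⟩ := hw
    refine ⟨?_, ?_⟩
    · rw [Fin.monotone_iff_le_succ]
      intro i
      fin_cases i
      simpa [h0] using h1
    · intro i
      fin_cases i
      · simp [h0]
      · simpa using h1
  · have h1 : ∀ᵐ p ∂π.prod (muS.prod muT), p.1 ∈ good :=
      (Measure.quasiMeasurePreserving_fst).ae hgood
    have h2 : ∀ᵐ p ∂π.prod (muS.prod muT), p.2.1 ≤ 2 ∧ 1 ≤ p.2.2 :=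
      (Measure.quasiMeasurePreserving_snd).ae ae_ST
    have : (fun p : (Fin 2 → ℝ) × ℝ × ℝ => kwStep p.1 p.2.1 p.2.2) =ᵐ[π.prod (muS.prod muT)]
        (fun q : ℝ × ℝ => (![0, max (q.1 - q.2) 0] : Fin 2 → ℝ)) ∘ Prod.snd := by
      filter_upwards [h1, h2] with p hp hq
      exact step_good hp hq.2
    rw [Measure.map_congr this, ← Measure.map_map hg measurable_snd, Measure.map_snd_prod]
    simp [hπ]

theorem stationary_apply {π : Measure (Fin 2 → ℝ)} (h : IsStationary muS muT π)
    {A : Set (Fin 2 → ℝ)} (hA : MeasurableSet A) :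
    π A = 2⁻¹ * (2⁻¹ * π ((fun w => kwStep w (1 / 2) 1) ⁻¹' A) +
        2⁻¹ * π ((fun w => kwStep w (1 / 2) (5 / 4)) ⁻¹' A)) +
      2⁻¹ * (2⁻¹ * π ((fun w => kwStep w 2 1) ⁻¹' A) +
        2⁻¹ * π ((fun w => kwStep w 2 (5 / 4)) ⁻¹' A)) := by
  obtain ⟨hP, -, hst⟩ := h
  have hm := measurable_kwStep_two hA
  conv_lhs => rw [← hst, Measure.map_apply measurable_kwStep_two hA, Measure.prod_apply_symm hm]
  rw [lintegral_prod _ (measurable_measure_prodMk_right hm).aemeasurable]
  unfold muS muT
  rw [lintegral_coin, lintegral_coin, lintegral_coin]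
  rfl

theorem iterate_bound (w : Fin 2 → ℝ) (n : ℕ) (M : ℝ) (h0 : w 0 ≤ M) (h1 : w 1 ≤ M) :
    ∀ i, ((fun w => kwStep w (1 / 2) 1)^[n] w) i ≤ max (M - n / 2) 0 := by
  induction n with
  | zero =>
    intro i
    fin_cases i
    · simp [h0]
    · simp [h1]
  | succ n ih =>
    rw [Function.iterate_succ_apply', kwStep_two]
    have a0 := ih 0
    have a1 := ih 1
    generalize ((fun w => kwStep w (1 / 2) 1)^[n] w) = u at a0 a1
    have b0 : max (u 0 + 1 / 2 - 1) 0 ≤ max (M - (n + 1 : ℕ) / 2) 0 := by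
      push_cast
      rcases le_max_iff.1 a0 with h | h
      · exact max_le_max (by linarith) le_rfl
      · exact max_le (le_max_of_le_right (by linarith)) (le_max_right _ _)
    have b1 : max (u 1 - 1) 0 ≤ max (M - (n + 1 : ℕ) / 2) 0 := by
      push_cast
      rcases le_max_iff.1 a1 with h | h
      · exact max_le_max (by linarith) le_rfl
      · exact max_le (le_max_of_le_right (by linarith)) (le_max_right _ _)
    intro i
    fin_cases i
    · exact (min_le_left _ _).trans b0
    · exact max_le b0 b1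

theorem stationary_good {π : Measure (Fin 2 → ℝ)} (h : IsStationary muS muT π) :
    π goodᶜ = 0 := by
  have hP := h.1
  set f : (Fin 2 → ℝ) → Fin 2 → ℝ := fun w => kwStep w (1 / 2) 1 with hf
  have hfm : Measurable f := measurable_kwStep_two' _ _
  have hsub : ∀ s t : ℝ, s ≤ 2 → 1 ≤ t → (fun w => kwStep w s t) ⁻¹' goodᶜ ⊆ goodᶜ := by
    intro s t hs ht w hw hg
    apply hw
    show kwStep w s t ∈ good
    rw [step_good hg ht]
    exact mem_good hs ht
  have hnull : ∀ A, MeasurableSet A → π A = 0 → π (f ⁻¹' A) = 0 := by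
    intro A hA h0
    have := stationary_apply h hA
    rw [h0] at this
    have h2 := this.symm
    simp only [add_eq_zero, mul_eq_zero, ENNReal.inv_eq_zero, ENNReal.ofNat_ne_top,
      false_or] at h2
    exact h2.1.1
  have hle : π goodᶜ ≤ π (f ⁻¹' goodᶜ) := by
    have e := stationary_apply h measurableSet_good.compl
    have e2 := measure_mono (μ := π) (hsub (1 / 2) (5 / 4) (by norm_num) (by norm_num))
    have e3 := measure_mono (μ := π) (hsub 2 1 (by norm_num) (by norm_num))
    have e4 := measure_mono (μ := π) (hsub 2 (5 / 4) (by norm_num) (by norm_num))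
    rw [← ENNReal.toReal_le_toReal (measure_ne_top _ _) (measure_ne_top _ _)] at e2 e3 e4 ⊢
    have e' := congrArg ENNReal.toReal e
    rw [ENNReal.toReal_add (by finiteness) (by finiteness), ENNReal.toReal_mul, ENNReal.toReal_mul,
      ENNReal.toReal_add (by finiteness) (by finiteness),
      ENNReal.toReal_add (by finiteness) (by finiteness)] at e'
    simp only [ENNReal.toReal_mul, ENNReal.toReal_inv, ENNReal.toReal_ofNat] at e'
    linarith
  have hdiff : π (goodᶜ \ f ⁻¹' goodᶜ) = 0 := by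
    rw [measure_sdiff (hsub _ _ (by norm_num) le_rfl) (hfm measurableSet_good.compl).nullMeasurableSet
      (measure_ne_top _ _)]
    exact tsub_eq_zero_of_le hle
  have hit : ∀ n : ℕ, π (f^[n] ⁻¹' (goodᶜ \ f ⁻¹' goodᶜ)) = 0 := by
    intro n
    induction n with
    | zero => simpa using hdiff
    | succ n ih =>
      rw [Function.iterate_succ, preimage_comp]
      exact hnull _ ((hfm.iterate n) (measurableSet_good.compl.diff
        (hfm measurableSet_good.compl))) ih
  refine measure_mono_null (t := ⋃ n : ℕ, f^[n] ⁻¹' (goodᶜ \ f ⁻¹' goodᶜ)) ?_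
    (measure_iUnion_null hit)
  intro w hw
  by_contra hc
  simp only [mem_iUnion, not_exists] at hc
  have hall : ∀ n : ℕ, f^[n] w ∉ good := by
    intro n
    induction n with
    | zero => exact hw
    | succ n ih =>
      intro hg
      rw [Function.iterate_succ_apply'] at hg
      exact hc n ⟨ih, fun h' => h' hg⟩
  obtain ⟨n, hn⟩ := exists_nat_ge (2 * max (w 0) (w 1))
  have hb := iterate_bound w (n + 1) (max (w 0) (w 1)) (le_max_left _ _) (le_max_right _ _)
  rw [max_eq_right (by push_cast; linarith)] at hb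
  apply hall (n + 1)
  have hnn : ∀ i, 0 ≤ (f^[n + 1] w) i := by
    intro i
    rw [Function.iterate_succ_apply', hf]
    simp only [kwStep_two]
    fin_cases i <;> simp
  exact ⟨le_antisymm (hb 0) (hnn 0), hnn 1, (hb 1).trans zero_le_one⟩

theorem stationary_wait {π : Measure (Fin 2 → ℝ)} (h : IsStationary muS muT π) :
    ∀ᵐ w ∂π, w 0 = 0 := by
  have : ∀ᵐ w ∂π, w ∈ good := by
    rw [ae_iff]
    exact stationary_good h
  filter_upwards [this] with w hw using hw.1

end Pool.Agent.H44.KW
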