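import Mathlib

open MeasureTheory ProbabilityTheory Filter Topology Real Finset

namespace Pool.Agent.H44.Lac

lemma m_up {p θ : ℝ} (hp0 : 0 ≤ p) (hθ : 0 ≤ θ) :
    exp (θ * p) * (1 - p + p * exp (-θ)) ≤ exp (p * θ ^ 2 / 2) := by
  have h1 : exp (-θ) ≤ 1 - θ + θ ^ 2 / 2 := by
    have h := Real.quadratic_le_exp_of_nonneg hθ
    have h2 : exp (-θ) * exp θ = 1 := by rw [← exp_add]; simp
    have h3 : 0 < exp (-θ) := exp_pos _
    have h4 : 0 < 1 - θ + θ ^ 2 / 2 := by nlinarith [sq_nonneg (θ - 1)]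
    have h5 : 1 ≤ (1 - θ + θ ^ 2 / 2) * (1 + θ + θ ^ 2 / 2) := by nlinarith [sq_nonneg (θ ^ 2)]
    by_contra hc
    push Not at hc
    have := mul_lt_mul_of_pos_right hc (exp_pos θ)
    nlinarith [mul_le_mul_of_nonneg_left h h4.le]
  have h2 : 1 - p + p * exp (-θ) ≤ exp (p * (exp (-θ) - 1)) := by
    have := add_one_le_exp (p * (exp (-θ) - 1)); linarith
  calc _ ≤ exp (θ * p) * exp (p * (exp (-θ) - 1)) := mul_le_mul_of_nonneg_left h2 (exp_pos _).le
    _ = exp (p * (exp (-θ) - 1 + θ)) := by rw [← exp_add]; ring_nf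
    _ ≤ _ := exp_le_exp.2 (by nlinarith [mul_le_mul_of_nonneg_left h1 hp0])

lemma exp_low {x : ℝ} (h0 : 0 ≤ x) (h1 : x ≤ 1 / 2) : exp (-x - x ^ 2) ≤ 1 - x := by
  have h := Real.quadratic_le_exp_of_nonneg (x := x + x ^ 2) (by positivity)
  have h2 : exp (-x - x ^ 2) * exp (x + x ^ 2) = 1 := by rw [← exp_add]; ring_nf; simp
  have h3 : 0 < exp (-x - x ^ 2) := exp_pos _
  have h5 : 1 ≤ (1 - x) * (1 + (x + x ^ 2) + (x + x ^ 2) ^ 2 / 2) := by
    have : 0 ≤ x ^ 2 * (1 / 2 - x) := mul_nonneg (by positivity) (by linarith)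
    have h6 : 0 ≤ x ^ 3 * (1 - x - x ^ 2) := mul_nonneg (by positivity) (by nlinarith)
    nlinarith [sq_nonneg x, pow_nonneg h0 3, pow_nonneg h0 4]
  by_contra hc
  push Not at hc
  have := mul_lt_mul_of_pos_right hc (exp_pos (x + x ^ 2))
  nlinarith [mul_le_mul_of_nonneg_left h (show 0 ≤ 1 - x by linarith)]

lemma m_low {p θ : ℝ} (hp0 : 0 ≤ p) (hp1 : p ≤ 1) (hθ : 0 ≤ θ) (hθ1 : θ ≤ 1 / 2) :
    exp (p * θ ^ 2 / 3 - p ^ 2 * θ ^ 2) ≤ exp (θ * p) * (1 - p + p * exp (-θ)) := by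
  have h1 : 1 - θ + θ ^ 2 / 3 ≤ exp (-θ) := by
    have h := Real.exp_bound (x := -θ) (by rw [abs_neg, abs_of_nonneg hθ]; linarith) (n := 3)
      (by norm_num)
    rw [abs_neg, abs_of_nonneg hθ] at h
    have h' := (abs_le.1 h).1
    simp [Finset.sum_range_succ, Nat.factorial] at h'
    nlinarith [mul_le_mul_of_nonneg_left hθ1 (sq_nonneg θ)]
  have h2 : 1 - θ ≤ exp (-θ) := by have := add_one_le_exp (-θ); linarith
  have h3 : exp (-θ) ≤ 1 := exp_le_one_iff.2 (by linarith)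
  set x := p * (1 - exp (-θ)) with hx
  have hx0 : 0 ≤ x := mul_nonneg hp0 (by linarith)
  have hx1 : x ≤ p * θ := mul_le_mul_of_nonneg_left (by linarith) hp0
  have hx2 : x ≤ 1 / 2 := hx1.trans (by nlinarith)
  have h4 := exp_low hx0 hx2
  have h5 : x ^ 2 ≤ (p * θ) ^ 2 := pow_le_pow_left₀ hx0 hx1 2
  calc _ ≤ exp (θ * p) * exp (-x - x ^ 2) := by
        rw [← exp_add]; refine exp_le_exp.2 ?_
        nlinarith [mul_le_mul_of_nonneg_left h1 hp0]
    _ ≤ _ := mul_le_mul_of_nonneg_left (by linarith) (exp_pos _).le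

variable {Ω : Type*} [MeasurableSpace Ω] {P : Measure Ω} [IsProbabilityMeasure P]

lemma mgf_ind {s : Set Ω} (hs : MeasurableSet s) (t : ℝ) :
    mgf (s.indicator fun _ => (1 : ℝ)) P t = 1 - P.real s + P.real s * exp t := by
  have : (fun ω => exp (t * s.indicator (fun _ => (1 : ℝ)) ω)) =
      fun ω => 1 + s.indicator (fun _ => exp t - 1) ω := by
    funext ω; by_cases h : ω ∈ s <;> simp [h]
  rw [mgf, this, integral_add (integrable_const _) ((integrable_const _).indicator hs),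
    integral_indicator_const _ hs]
  simp; ring

/-- lower-tail anti-concentration -/
lemma tail {s : ℕ → Set Ω} (hs : ∀ i, MeasurableSet (s i)) (hi : iIndepSet s P) (T : Finset ℕ)
    {μ θ : ℝ} (hμ : μ = ∑ i ∈ T, P.real (s i)) (hθ : 0 < θ) (hθ1 : θ ≤ 1 / 2)
    (h6 : θ ^ 2 * μ = 6) (hS : θ ^ 2 * ∑ i ∈ T, P.real (s i) ^ 2 ≤ 1 / 2) :
    exp (-12) ≤ P.real {ω | 1 < θ * (μ - ∑ i ∈ T, (s i).indicator (fun _ => (1 : ℝ)) ω)} := by
  set X : ℕ → Ω → ℝ := fun i => (s i).indicator fun _ => (1 : ℝ) with hX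
  have hXm : ∀ i, Measurable (X i) := fun i => measurable_const.indicator (hs i)
  have hI : iIndepFun X P := hi.iIndepFun_indicator
  set N : Ω → ℝ := fun ω => ∑ i ∈ T, X i ω with hN
  have hNm : Measurable N := Finset.measurable_sum _ fun i _ => hXm i
  have hN0 : ∀ ω, 0 ≤ N ω := fun ω => Finset.sum_nonneg fun i _ =>
    Set.indicator_nonneg (fun _ _ => zero_le_one) _
  have key : ∀ t : ℝ, ∫ ω, exp (t * (μ - N ω)) ∂P =
      ∏ i ∈ T, exp (t * P.real (s i)) * (1 - P.real (s i) + P.real (s i) * exp (-t)) := by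
    intro t
    have h := hI.mgf_sum hXm T (t := -t)
    rw [Finset.prod_mul_distrib, ← exp_sum, ← Finset.mul_sum, ← hμ]
    simp only [hX, mgf_ind (hs _)] at h
    rw [← h, mgf, ← integral_const_mul]
    refine integral_congr_ae (ae_of_all _ fun ω => ?_)
    simp only [hN, hX, Finset.sum_apply, ← exp_add]; ring_nf
  have hint : ∀ t : ℝ, 0 ≤ t → Integrable (fun ω => exp (t * (μ - N ω))) P := fun t ht =>
    Integrable.of_bound (by fun_prop) (exp (t * μ)) (ae_of_all _ fun ω => by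
      rw [Real.norm_of_nonneg (exp_pos _).le]
      exact exp_le_exp.2 (mul_le_mul_of_nonneg_left (by linarith [hN0 ω]) ht))
  have lo : exp (3 / 2) ≤ ∫ ω, exp (θ * (μ - N ω)) ∂P := by
    rw [key]
    refine le_trans ?_ (Finset.prod_le_prod (fun i _ => (exp_pos _).le) fun i _ =>
      m_low measureReal_nonneg measureReal_le_one hθ.le hθ1)
    rw [← exp_sum]
    refine exp_le_exp.2 ?_
    rw [Finset.sum_sub_distrib, ← Finset.sum_div, ← Finset.sum_mul, ← Finset.sum_mul, ← hμ]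
    nlinarith
  have up : ∫ ω, exp (2 * θ * (μ - N ω)) ∂P ≤ exp 12 := by
    rw [key]
    refine le_trans (Finset.prod_le_prod (fun i _ => mul_nonneg (exp_pos _).le ?_) fun i _ =>
      m_up measureReal_nonneg (by positivity)) ?_
    · have : P.real (s i) ≤ 1 := measureReal_le_one
      have : 0 ≤ P.real (s i) * exp (-(2 * θ)) := by positivity
      linarith
    rw [← exp_sum]
    refine exp_le_exp.2 ?_
    rw [← Finset.sum_div, ← Finset.sum_mul, ← hμ]
    nlinarith
  set B := {ω | 1 < θ * (μ - N ω)} with hB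
  have hBm : MeasurableSet B := measurableSet_lt measurable_const (by fun_prop)
  set L := exp 12 with hL
  have hL0 : 0 < L := exp_pos _
  have pt : ∀ ω, exp (θ * (μ - N ω)) ≤
      exp 1 + (exp (2 * θ * (μ - N ω)) / (2 * L) + B.indicator (fun _ => L / 2) ω) := by
    intro ω
    have e2 : exp (2 * θ * (μ - N ω)) = exp (θ * (μ - N ω)) ^ 2 := by
      rw [← exp_nat_mul]; ring_nf
    by_cases h : ω ∈ B
    · rw [Set.indicator_of_mem h, e2]
      set z := exp (θ * (μ - N ω))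
      have : z ≤ z ^ 2 / (2 * L) + L / 2 := by
        have : 0 ≤ (z - L) ^ 2 / (2 * L) := by positivity
        have e : (z - L) ^ 2 / (2 * L) = z ^ 2 / (2 * L) + L / 2 - z := by field_simp; ring
        linarith
      linarith [exp_pos 1]
    · rw [Set.indicator_of_notMem h]
      have : exp (θ * (μ - N ω)) ≤ exp 1 := exp_le_exp.2 (not_lt.1 h)
      have : 0 ≤ exp (2 * θ * (μ - N ω)) / (2 * L) := by positivity
      linarith
  have i2 := (hint (2 * θ) (by positivity)).div_const (2 * L)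
  have i3 : Integrable (B.indicator fun _ => L / 2) P := (integrable_const _).indicator hBm
  have := integral_mono (hint θ hθ.le) ((integrable_const (exp 1)).add (i2.add i3)) pt
  rw [integral_add' (integrable_const _) (i2.add i3), integral_add' i2 i3, integral_div,
    integral_indicator_const _ hBm] at this
  simp only [integral_const, probReal_univ, smul_eq_mul, one_mul] at this
  have a1 : (∫ ω, exp (2 * θ * (μ - N ω)) ∂P) / (2 * L) ≤ 1 / 2 := by
    rw [div_le_iff₀ (by positivity)]; linarith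
  have a2 : exp 1 + 1 ≤ exp (3 / 2) := by
    have : exp (3 / 2) = exp 1 * exp (1 / 2) := by rw [← exp_add]; norm_num
    have h1 := add_one_le_exp (1 / 2 : ℝ)
    have h2 := add_one_le_exp (1 : ℝ)
    nlinarith
  have a3 : 1 ≤ P.real B * L := by linarith
  rw [exp_neg, ← hL, inv_le_iff_one_le_mul₀ hL0]
  exact a3

end Pool.Agent.H44.Lac
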