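import Mathlib

namespace Pool.Agent.H44.Lac

/-- sums of finite nonempty subsets of `A` -/
def subsetSums (A : Set ℕ) : Set ℕ :=
  {s | ∃ F : Finset ℕ, F.Nonempty ∧ (F : Set ℕ) ⊆ A ∧ ∑ a ∈ F, a = s}

end Pool.Agent.H44.Lac
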