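import Pool.Agent.H44.Lac1
import Pool.Agent.H44.LacDefs

open MeasureTheory ProbabilityTheory Filter Topology Real Finset

namespace Pool.Agent.H44.Lac

lemma card_le {A : Set ℕ} (h0 : 0 ∉ A) (n : ℕ) :
    ((subsetSums A ∩ Set.Icc 1 n).ncard : ℝ) ≤
      exp (log 2 * ∑ i ∈ Icc 1 n, {i | i ∈ A}.indicator (fun _ => (1 : ℝ)) i) := by
  classical
  set T := (Icc 1 n).filter (· ∈ A) with hT
  have h1 : ∑ i ∈ Icc 1 n, {i | i ∈ A}.indicator (fun _ => (1 : ℝ)) i = T.card := by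
    rw [hT, Finset.card_filter]; push_cast
    refine Finset.sum_congr rfl fun i _ => ?_
    by_cases h : i ∈ A <;> simp [h]
  have h2 : subsetSums A ∩ Set.Icc 1 n ⊆ ↑(T.powerset.image fun F => ∑ a ∈ F, a) := by
    rintro s ⟨⟨F, -, hF, rfl⟩, -, hs⟩
    simp only [coe_image, coe_powerset, Set.mem_image, Set.mem_preimage, Set.mem_powerset_iff,
      coe_subset]
    refine ⟨F, fun a ha => ?_, rfl⟩
    have hA : a ∈ A := hF ha
    have : a ≤ ∑ a ∈ F, a := Finset.single_le_sum (f := fun a => a) (fun _ _ => Nat.zero_le _) ha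
    have : a ≠ 0 := fun h => h0 (h ▸ hA)
    simp only [hT, mem_filter, mem_Icc]
    exact ⟨⟨by omega, by omega⟩, hA⟩
  have h3 := Set.ncard_le_ncard h2 (Finset.finite_toSet _)
  rw [Set.ncard_coe_finset] at h3
  have h4 := h3.trans (Finset.card_image_le.trans (Finset.card_powerset T).le)
  rw [h1, mul_comm, exp_nat_mul, exp_log two_pos]
  exact_mod_cast h4

noncomputable def pp (i : ℕ) : ℝ := min 1 (1 / (i * log 2))

lemma l2 : 2 / 3 < log 2 ∧ log 2 < 1 :=
  ⟨by linarith [Real.log_two_gt_d9], by linarith [Real.log_two_lt_d9]⟩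

lemma mu_low (n : ℕ) : log n ≤ ∑ i ∈ Icc 1 n, pp i := by
  have h := log_add_one_le_harmonic n
  simp_rw [harmonic_eq_sum_Icc, Rat.cast_sum, Rat.cast_inv, Rat.cast_natCast] at h
  have h1 : log n ≤ log ((n + 1 : ℕ) : ℝ) := by
    rcases Nat.eq_zero_or_pos n with rfl | hn
    · simp
    · exact log_le_log (by exact_mod_cast hn) (by push_cast; linarith)
  refine h1.trans (h.trans (Finset.sum_le_sum fun i hi => ?_))
  have hi1 : (1 : ℝ) ≤ i := by exact_mod_cast (mem_Icc.1 hi).1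
  refine le_min (inv_le_one_of_one_le₀ hi1) ?_
  rw [one_div]
  exact inv_anti₀ (by have := l2.1; positivity) (by nlinarith [l2.2])

lemma mu_up (n : ℕ) : log 2 * ∑ i ∈ Icc 1 n, pp i ≤ 1 + log n := by
  have h := harmonic_le_one_add_log n
  simp_rw [harmonic_eq_sum_Icc, Rat.cast_sum, Rat.cast_inv, Rat.cast_natCast] at h
  refine le_trans ?_ h
  rw [Finset.mul_sum]
  refine Finset.sum_le_sum fun i hi => ?_
  have hi1 : (1 : ℝ) ≤ i := by exact_mod_cast (mem_Icc.1 hi).1
  have := l2.1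
  calc _ ≤ log 2 * (1 / (i * log 2)) := mul_le_mul_of_nonneg_left (min_le_right _ _) (by positivity)
    _ = _ := by field_simp

lemma sq_up (n : ℕ) : ∑ i ∈ Icc 1 n, pp i ^ 2 ≤ 6 := by
  have h : ∀ n : ℕ, ∑ i ∈ Icc 1 n, pp i ^ 2 ≤ 6 - 6 / (n + 1 : ℝ) := by
    intro n
    induction n with
    | zero => simp
    | succ n ih =>
      rw [Finset.sum_Icc_succ_top (by omega)]
      have h0 : (0 : ℝ) ≤ n := Nat.cast_nonneg n
      have := l2.1
      have h1 : pp (n + 1) ≤ 3 / 2 / (n + 1) := by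
        refine (min_le_right _ _).trans ?_
        push_cast
        rw [div_le_div_iff₀ (by positivity) (by positivity)]; nlinarith
      have h2 : 0 ≤ pp (n + 1) := le_min zero_le_one (by positivity)
      have h3 := pow_le_pow_left₀ h2 h1 2
      have h4 : (3 / 2 / ((n : ℝ) + 1)) ^ 2 ≤ 6 / (n + 1) - 6 / (n + 1 + 1) := by
        rw [div_sub_div _ _ (by positivity) (by positivity), div_pow,
          div_le_div_iff₀ (by positivity) (by positivity)]
        nlinarith [mul_nonneg h0 h0]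
      push_cast; linarith
  have := h n
  have : (0 : ℝ) ≤ 6 / (n + 1 : ℝ) := by positivity
  linarith

lemma small : Tendsto (fun n : ℕ => exp 1 * (√(log n) * exp (-(1 / 4 * √(log n))))) atTop (𝓝 0) := by
  have h1 : Tendsto (fun n : ℕ => 1 / 4 * √(log n)) atTop atTop :=
    (Real.tendsto_sqrt_atTop.comp (tendsto_log_atTop.comp tendsto_natCast_atTop_atTop)).const_mul_atTop
      (by norm_num)
  have h2 := ((Real.tendsto_pow_mul_exp_neg_atTop_nhds_zero 1).comp h1).const_mul (exp 1 * 4)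
  rw [mul_zero] at h2
  refine h2.congr fun n => ?_
  simp only [Function.comp]; ring

/-- on the lower-tail event the ratio is small -/
lemma ratio {A : Set ℕ} (h0 : 0 ∉ A) {n : ℕ} (hn : 1 ≤ n) {μ : ℝ} (hμ : μ = ∑ i ∈ Icc 1 n, pp i)
    (hμ0 : 0 < μ)
    (h : 1 < √(6 / μ) * (μ - ∑ i ∈ Icc 1 n, {i | i ∈ A}.indicator (fun _ => (1 : ℝ)) i)) :
    √(log n) * (subsetSums A ∩ Set.Icc 1 n).ncard / n ≤
      exp 1 * (√(log n) * exp (-(1 / 4 * √(log n)))) := by
  have h1 := card_le h0 n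
  set N := ∑ i ∈ Icc 1 n, {i | i ∈ A}.indicator (fun _ => (1 : ℝ)) i
  have hn' : (0 : ℝ) < n := by exact_mod_cast hn
  have h2 := mu_up n
  have h3 := mu_low n
  rw [← hμ] at h2 h3
  have h4 : √(log n) ≤ √μ := sqrt_le_sqrt h3
  have h5 : √(6 / μ) * √μ = √6 := by
    rw [← Real.sqrt_mul (by positivity)]; congr 1; field_simp
  have h6 : √6 < 5 / 2 := by rw [Real.sqrt_lt' (by norm_num)]; norm_num
  have h7 : 0 < √μ := sqrt_pos.2 hμ0
  have h8 : 0 < √(6 / μ) := sqrt_pos.2 (by positivity)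
  have h9 : 0 < μ - N := by
    by_contra hc; push Not at hc; nlinarith
  have h10 : √μ < 5 / 2 * (μ - N) := by nlinarith [mul_lt_mul_of_pos_right h h7]
  have h11 : log 2 * N ≤ 1 + log n - 1 / 4 * √(log n) := by nlinarith [l2.1, l2.2]
  have h12 : exp (log 2 * N) ≤ exp 1 * n * exp (-(1 / 4 * √(log n))) := by
    refine (exp_le_exp.2 h11).trans (le_of_eq ?_)
    rw [sub_eq_add_neg, exp_add, exp_add, exp_log hn']
  rw [div_le_iff₀ hn']
  nlinarith [mul_le_mul_of_nonneg_left (h1.trans h12) (sqrt_nonneg (log n))]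

end Pool.Agent.H44.Lac
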