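import Mathlib

/-! Loeb measures on ultraproducts of probability spaces. -/

open Set Filter Topology MeasureTheory
open scoped ENNReal

namespace Pool.Agent.H44.Loeb

noncomputable def UU : Ultrafilter ℕ := hyperfilter ℕ

lemma UU_le : (UU : Filter ℕ) ≤ atTop := by
  rw [← Nat.cofinite_eq_atTop]; exact hyperfilter_le_cofinite

def UP (Ω : ℕ → Type) : Type := ∀ n, Ω n

variable {Ω : ℕ → Type}

def ul (A : ∀ n, Set (Ω n)) : Set (UP Ω) := {x | ∀ᶠ n in (UU : Filter ℕ), x n ∈ A n}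

lemma ul_inter (A B : ∀ n, Set (Ω n)) : ul (fun n => A n ∩ B n) = ul A ∩ ul B := by
  ext x; simp [ul, eventually_and]

lemma ul_union (A B : ∀ n, Set (Ω n)) : ul (fun n => A n ∪ B n) = ul A ∪ ul B := by
  ext x; simp only [ul, mem_union, mem_ofPred_eq]; exact Ultrafilter.eventually_or

lemma ul_compl (A : ∀ n, Set (Ω n)) : ul (fun n => (A n)ᶜ) = (ul A)ᶜ := by
  ext x; simp only [ul, mem_compl_iff, mem_ofPred_eq]; exact Ultrafilter.eventually_not

lemma ul_empty : ul (fun n => (∅ : Set (Ω n))) = ∅ := by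
  ext x; simp [ul, UU.neBot.ne]

lemma ul_univ : ul (fun n => (univ : Set (Ω n))) = univ := by
  ext x; simp [ul]

lemma ul_eq_empty [∀ n, Nonempty (Ω n)] {A : ∀ n, Set (Ω n)} (h : ul A = ∅) :
    ∀ᶠ n in (UU : Filter ℕ), A n = ∅ := by
  classical
  by_contra hc
  rw [← Ultrafilter.eventually_not] at hc
  have : (fun n => if h : (A n).Nonempty then h.some else Classical.arbitrary _ : UP Ω) ∈ ul A := by
    filter_upwards [hc] with n hn
    have h1 : (A n).Nonempty := nonempty_iff_ne_empty.2 hn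
    simp only [dif_pos h1]; exact h1.some_mem
  rw [h] at this; exact this

lemma ul_inj [∀ n, Nonempty (Ω n)] {A B : ∀ n, Set (Ω n)} (h : ul A = ul B) :
    ∀ᶠ n in (UU : Filter ℕ), A n = B n := by
  have h1 : ul (fun n => A n ∩ (B n)ᶜ) = ∅ := by rw [ul_inter, ul_compl, h, inter_compl_self]
  have h2 : ul (fun n => B n ∩ (A n)ᶜ) = ∅ := by rw [ul_inter, ul_compl, h, inter_compl_self]
  filter_upwards [ul_eq_empty h1, ul_eq_empty h2] with n a b
  rw [← sdiff_eq, sdiff_eq_empty] at a b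
  exact a.antisymm b

lemma saturation [∀ n, Nonempty (Ω n)] (A : ℕ → ∀ n, Set (Ω n))
    (hm : Antitone fun k => ul (A k)) (h : ⋂ k, ul (A k) = ∅) : ∃ k, ul (A k) = ∅ := by
  classical
  by_contra hc
  push Not at hc
  let B : ℕ → ∀ n, Set (Ω n) := fun k n => ⋂ j ∈ Iic k, A j n
  have hB : ∀ k, ∀ᶠ n in (UU : Filter ℕ), (B k n).Nonempty := by
    intro k
    obtain ⟨x, hx⟩ := hc k
    have : ∀ᶠ n in (UU : Filter ℕ), ∀ j ∈ Iic k, x n ∈ A j n :=
      (eventually_all_finite (finite_Iic k)).2 fun j hj => hm hj hx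
    filter_upwards [this] with n hn
    exact ⟨x n, mem_iInter₂.2 hn⟩
  let kk : ℕ → ℕ := fun n => Nat.findGreatest (fun k => (B k n).Nonempty) n
  have : (fun n => if h : (B (kk n) n).Nonempty then h.some else Classical.arbitrary _ : UP Ω) ∈
      ⋂ k, ul (A k) := by
    refine mem_iInter.2 fun k => ?_
    filter_upwards [hB k, UU_le (eventually_ge_atTop k)] with n h1 h2
    have a : k ≤ kk n := Nat.le_findGreatest h2 h1
    have b : (B (kk n) n).Nonempty := Nat.findGreatest_spec (P := fun k => (B k n).Nonempty) h2 h1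
    simp only [dif_pos b]
    exact mem_iInter₂.1 b.some_mem k a
  rw [h] at this; exact this

variable [∀ n, MeasurableSpace (Ω n)]

def Intl (Ω : ℕ → Type) [∀ n, MeasurableSpace (Ω n)] : Set (Set (UP Ω)) :=
  {B | ∃ A : ∀ n, Set (Ω n), (∀ n, MeasurableSet (A n)) ∧ ul A = B}

instance : MeasurableSpace (UP Ω) := MeasurableSpace.generateFrom (Intl Ω)

lemma intl_alg : IsSetAlgebra (Intl Ω) where
  empty_mem := ⟨_, fun _ => MeasurableSet.empty, ul_empty⟩
  compl_mem := by rintro _ ⟨A, hA, rfl⟩; exact ⟨_, fun n => (hA n).compl, ul_compl A⟩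
  union_mem := by
    rintro _ _ ⟨A, hA, rfl⟩ ⟨B, hB, rfl⟩; exact ⟨_, fun n => (hA n).union (hB n), ul_union A B⟩

lemma intl_pi : IsPiSystem (Intl Ω) := fun _ hs _ ht _ => intl_alg.inter_mem hs ht

lemma measurableSet_ul {A : ∀ n, Set (Ω n)} (hA : ∀ n, MeasurableSet (A n)) :
    MeasurableSet (ul A) := MeasurableSpace.measurableSet_generateFrom ⟨A, hA, rfl⟩

noncomputable def elim (u : ℕ → ℝ≥0∞) : ℝ≥0∞ := (UU.map u).lim

lemma tendsto_elim (u : ℕ → ℝ≥0∞) : Tendsto u UU (𝓝 (elim u)) := (UU.map u).le_nhds_lim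

variable [∀ n, Nonempty (Ω n)]

open Classical in
noncomputable def cont0 (μ : ∀ n, Measure (Ω n)) (B : Set (UP Ω)) : ℝ≥0∞ :=
  if h : B ∈ Intl Ω then elim fun n => μ n (h.choose n) else 0

lemma tendsto_cont0 (μ : ∀ n, Measure (Ω n)) {A : ∀ n, Set (Ω n)} (hA : ∀ n, MeasurableSet (A n)) :
    Tendsto (fun n => μ n (A n)) UU (𝓝 (cont0 μ (ul A))) := by
  have h : ul A ∈ Intl Ω := ⟨A, hA, rfl⟩
  rw [cont0, dif_pos h]
  refine (tendsto_elim _).congr' ?_
  filter_upwards [ul_inj h.choose_spec.2] with n hn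
  rw [hn]

lemma cont0_empty (μ : ∀ n, Measure (Ω n)) : cont0 μ ∅ = 0 := by
  have := tendsto_cont0 μ (A := fun _ => ∅) fun _ => MeasurableSet.empty
  rw [ul_empty] at this
  simp only [measure_empty] at this
  exact tendsto_nhds_unique this tendsto_const_nhds

noncomputable def cont (μ : ∀ n, Measure (Ω n)) : AddContent ℝ≥0∞ (Intl Ω) :=
  intl_alg.isSetRing.addContent_of_union (cont0 μ) (cont0_empty μ) (by
    rintro _ _ ⟨A, hA, rfl⟩ ⟨B, hB, rfl⟩ hd
    have h1 := tendsto_cont0 μ fun n => (hA n).union (hB n)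
    rw [ul_union] at h1
    refine tendsto_nhds_unique h1 (((tendsto_cont0 μ hA).add (tendsto_cont0 μ hB)).congr' ?_)
    have h2 : ul (fun n => A n ∩ B n) = ∅ := by rw [ul_inter]; exact hd.inter_eq
    filter_upwards [ul_eq_empty h2] with n hn
    rw [measure_union (disjoint_iff_inter_eq_empty.2 hn) (hB n)])

lemma cont_sub (μ : ∀ n, Measure (Ω n)) [∀ n, IsProbabilityMeasure (μ n)] :
    (cont μ).IsSigmaSubadditive := by
  refine isSigmaSubadditive_of_addContent_iUnion_eq_tsum intl_alg.isSetRing fun f hf hU hd =>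
    addContent_iUnion_eq_sum_of_tendsto_zero intl_alg.isSetRing _ ?_ ?_ hf hU hd
  · rintro _ ⟨A, hA, rfl⟩
    have : cont0 μ (ul A) ≤ 1 := le_of_tendsto' (tendsto_cont0 μ hA) fun n => prob_le_one
    exact ne_top_of_le_ne_top ENNReal.one_ne_top this
  · intro s hs hm h
    choose A hA e using hs
    obtain rfl : s = fun k => ul (A k) := funext fun k => (e k).symm
    obtain ⟨k, hk⟩ := saturation A hm h
    refine tendsto_const_nhds.congr' ?_
    filter_upwards [eventually_ge_atTop k] with j hj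
    have : ul (A j) = ∅ := subset_eq_empty (hm hj) hk
    rw [this, addContent_empty]

noncomputable def loeb (μ : ∀ n, Measure (Ω n)) [∀ n, IsProbabilityMeasure (μ n)] :
    Measure (UP Ω) :=
  (cont μ).measure intl_alg.isSetRing.isSetSemiring le_rfl (cont_sub μ)

variable (μ : ∀ n, Measure (Ω n)) [∀ n, IsProbabilityMeasure (μ n)]

lemma tendsto_loeb {A : ∀ n, Set (Ω n)} (hA : ∀ n, MeasurableSet (A n)) :
    Tendsto (fun n => μ n (A n)) UU (𝓝 (loeb μ (ul A))) := by
  have h : ul A ∈ Intl Ω := ⟨A, hA, rfl⟩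
  have e : loeb μ (ul A) = cont μ (ul A) :=
    AddContent.measure_eq (cont μ) intl_alg.isSetRing.isSetSemiring rfl (cont_sub μ) h
  rw [e]
  exact tendsto_cont0 μ hA

instance : IsProbabilityMeasure (loeb μ) := by
  have := tendsto_loeb μ (A := fun _ => univ) fun _ => MeasurableSet.univ
  rw [ul_univ] at this
  simp only [measure_univ] at this
  exact ⟨tendsto_nhds_unique this tendsto_const_nhds⟩

lemma tendsto_loeb_real {A : ∀ n, Set (Ω n)} (hA : ∀ n, MeasurableSet (A n)) :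
    Tendsto (fun n => (μ n).real (A n)) UU (𝓝 ((loeb μ).real (ul A))) :=
  (ENNReal.tendsto_toReal (measure_ne_top _ _)).comp (tendsto_loeb μ hA)

end Pool.Agent.H44.Loeb
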