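import Mathlib

/-! Markov processes on general state spaces and their random distance profiles. -/

open Set Filter Topology MeasureTheory ProbabilityTheory
open scoped NNReal

namespace Pool.Agent.H44.Loeb

/-- total variation distance `sup_A |μ A - ν A|` -/
noncomputable def tv {α : Type} [MeasurableSpace α] (μ ν : Measure α) : ℝ :=
  ⨆ A : {A : Set α // MeasurableSet A}, |μ.real A - ν.real A|

/-- the σ-algebra on paths generated by the coordinates up to time `t` -/
@[reducible] def past (E : Type) [MeasurableSpace E] (t : ℝ≥0) : MeasurableSpace (ℝ≥0 → E) :=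
  ⨆ s : Iic t, MeasurableSpace.comap (fun ω => ω s.1) inferInstance

/-- a time-homogeneous continuous-time Markov process on `E` (the laws `P_x` of the path started
at `x`) together with a stationary distribution `π` -/
structure MarkovProc (E : Type) [MeasurableSpace E] where
  law : Kernel E (ℝ≥0 → E)
  prob : IsMarkovKernel law
  start : ∀ x, (law x).map (fun ω => ω 0) = Measure.dirac x
  markov : ∀ x t s A C, MeasurableSet[past E t] A → MeasurableSet C →
    law x (A ∩ {ω | ω (t + s) ∈ C}) = ∫⁻ ω in A, law (ω t) {ω' | ω' s ∈ C} ∂(law x)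
  π : Measure E
  πprob : IsProbabilityMeasure π
  stat : ∀ t C, MeasurableSet C → ∫⁻ x, law x {ω | ω t ∈ C} ∂π = π C

/-- `d_x(t) = ‖P_x(X_t ∈ ·) - π‖` -/
noncomputable def MarkovProc.dist {E : Type} [MeasurableSpace E] (M : MarkovProc E) (x : E)
    (t : ℝ≥0) : ℝ :=
  tv ((M.law x).map fun ω => ω t) M.π

/-- nonincreasing functions `[0, ∞) → [0, 1]` -/
def Prof : Type := {f : ℝ≥0 → ℝ // Antitone f ∧ ∀ t, f t ∈ Icc (0 : ℝ) 1}

/-- pointwise convergence at the (positive) continuity points of the limit -/
def Conv (g : ℕ → Prof) (f : Prof) : Prop :=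
  ∀ t : ℝ≥0, 0 < t → ContinuousAt f.1 t → Tendsto (fun k => (g k).1 t) atTop (𝓝 (f.1 t))

/-- the topology of pointwise convergence at continuity points of the limit -/
instance : TopologicalSpace Prof where
  IsOpen O := ∀ f ∈ O, ∀ g, Conv g f → ∀ᶠ k in atTop, g k ∈ O
  isOpen_univ := fun _ _ _ _ => Eventually.of_forall fun _ => mem_univ _
  isOpen_inter := fun _ _ h1 h2 f hf g hg => (h1 f hf.1 g hg).and (h2 f hf.2 g hg)
  isOpen_sUnion := fun _ h f ⟨O, hO, hf⟩ g hg => (h O hO f hf g hg).mono fun _ hk => ⟨O, hO, hk⟩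

instance : MeasurableSpace Prof := borel Prof

end Pool.Agent.H44.Loeb
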