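import Pool.Agent.H44.Loeb1
import Pool.Agent.H44.LoebDefs

open Set Filter Topology MeasureTheory
open scoped ENNReal symmDiff

namespace Pool.Agent.H44.Loeb

variable {Ω : ℕ → Type} [∀ n, MeasurableSpace (Ω n)]

/-- staircase approximation -/
noncomputable def stair (m : ℕ) (u : ℝ) : ℝ :=
  ∑ j ∈ Finset.range m, if ((j : ℝ) + 1) / m ≤ u then 1 / (m : ℝ) else 0

lemma stair_aux (m : ℕ) (hm : 0 < m) (u : ℝ) (h0 : 0 ≤ u) (k : ℕ) :
    (∑ j ∈ Finset.range k, if ((j : ℝ) + 1) / m ≤ u then 1 / (m : ℝ) else 0) ≤ min u (k / m) ∧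
    min (u - 1 / m) (k / m) ≤
      ∑ j ∈ Finset.range k, if ((j : ℝ) + 1) / m ≤ u then 1 / (m : ℝ) else 0 := by
  have hm' : (0 : ℝ) < m := by exact_mod_cast hm
  have h1 : (0 : ℝ) < 1 / m := by positivity
  induction k with
  | zero => simp [h0]
  | succ k ih =>
    rw [Finset.sum_range_succ]
    obtain ⟨a, b⟩ := ih
    have e : ((k + 1 : ℕ) : ℝ) / m = k / m + 1 / m := by push_cast; ring
    have e' : ((k : ℝ) + 1) / m = k / m + 1 / m := by ring
    rw [e, e']
    rw [le_min_iff] at a ⊢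
    rw [min_le_iff] at b ⊢
    split_ifs with h
    · refine ⟨⟨by linarith [a.2], by linarith [a.2]⟩, ?_⟩
      rcases b with b | b
      · left; linarith
      · right; linarith
    · refine ⟨⟨by linarith [a.1], by linarith [a.2]⟩, ?_⟩
      left
      rcases b with b | b <;> linarith [not_le.1 h]

lemma stair_close {m : ℕ} (hm : 0 < m) {u : ℝ} (hu : u ∈ Icc (0 : ℝ) 1) :
    |stair m u - u| ≤ 1 / m := by
  have hm' : (0 : ℝ) < m := by exact_mod_cast hm
  have h1 : (0 : ℝ) < 1 / m := by positivity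
  obtain ⟨a, b⟩ := stair_aux m hm u hu.1 m
  rw [div_self hm'.ne'] at a b
  rw [le_min_iff] at a
  rw [min_eq_left (by linarith [hu.2])] at b
  rw [abs_le, stair]; constructor <;> linarith [a.1]

open Classical in
noncomputable def stairL (f : ∀ n, Ω n → ℝ) (m : ℕ) (x : UP Ω) : ℝ :=
  ∑ j ∈ Finset.range m, (ul fun n => {y | ((j : ℝ) + 1) / m ≤ f n y}).indicator
    (fun _ => 1 / (m : ℝ)) x

omit [∀ n, MeasurableSpace (Ω n)] in
lemma stairL_ev (f : ∀ n, Ω n → ℝ) (m : ℕ) (x : UP Ω) :
    ∀ᶠ n in (UU : Filter ℕ), stair m (f n (x n)) = stairL f m x := by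
  have : ∀ᶠ n in (UU : Filter ℕ), ∀ j ∈ Finset.range m,
      (if ((j : ℝ) + 1) / m ≤ f n (x n) then 1 / (m : ℝ) else 0) =
      (ul fun n => {y | ((j : ℝ) + 1) / m ≤ f n y}).indicator (fun _ => 1 / (m : ℝ)) x := by
    refine (eventually_all_finset _).2 fun j _ => ?_
    by_cases h : x ∈ ul fun n => {y | ((j : ℝ) + 1) / m ≤ f n y}
    · rw [indicator_of_mem h]
      filter_upwards [h] with n hn
      exact if_pos hn
    · rw [indicator_of_notMem h]
      have h' := Ultrafilter.eventually_not.2 h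
      filter_upwards [h'] with n hn
      exact if_neg hn
  filter_upwards [this] with n hn
  exact Finset.sum_congr rfl hn

omit [∀ n, MeasurableSpace (Ω n)] in
lemma stairL_close {f : ∀ n, Ω n → ℝ} (h01 : ∀ n y, f n y ∈ Icc (0 : ℝ) 1) {g : UP Ω → ℝ}
    (hg : ∀ x, Tendsto (fun n => f n (x n)) UU (𝓝 (g x))) {m : ℕ} (hm : 0 < m) (x : UP Ω) :
    |stairL f m x - g x| ≤ 1 / m := by
  refine le_of_tendsto ((hg x).const_sub (stairL f m x)).abs ?_
  filter_upwards [stairL_ev f m x] with n hn
  rw [← hn]; exact stair_close hm (h01 n _)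

lemma measurable_stairL {f : ∀ n, Ω n → ℝ} (hf : ∀ n, Measurable (f n)) (m : ℕ) :
    Measurable (stairL f m) :=
  Finset.measurable_sum _ fun _ _ =>
    measurable_const.indicator (measurableSet_ul fun n => measurableSet_le measurable_const (hf n))

theorem measurable_ulim {f : ∀ n, Ω n → ℝ} (hf : ∀ n, Measurable (f n))
    (h01 : ∀ n y, f n y ∈ Icc (0 : ℝ) 1) {g : UP Ω → ℝ}
    (hg : ∀ x, Tendsto (fun n => f n (x n)) UU (𝓝 (g x))) : Measurable g := by
  refine measurable_of_tendsto_metrizable (fun m => measurable_stairL hf (m + 1))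
    (tendsto_pi_nhds.2 fun x => ?_)
  rw [tendsto_iff_dist_tendsto_zero]
  refine squeeze_zero (fun _ => dist_nonneg) (fun m => ?_) tendsto_one_div_add_atTop_nhds_zero_nat
  have := stairL_close h01 hg (Nat.succ_pos m) x
  push_cast at this
  exact this

lemma integral_close {α : Type} [MeasurableSpace α] (ν : Measure α) [IsProbabilityMeasure ν]
    {f g : α → ℝ} (hf : Measurable f) (hg : Measurable g) (h01 : ∀ y, g y ∈ Icc (0 : ℝ) 1) {c : ℝ}
    (h : ∀ y, |f y - g y| ≤ c) : |∫ y, f y ∂ν - ∫ y, g y ∂ν| ≤ c := by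
  have ig : Integrable g ν := Integrable.of_bound hg.aestronglyMeasurable 1
    (Eventually.of_forall fun y => by rw [Real.norm_eq_abs, abs_of_nonneg (h01 y).1]; exact (h01 y).2)
  have id : Integrable (fun y => f y - g y) ν :=
    Integrable.of_bound (hf.sub hg).aestronglyMeasurable c (Eventually.of_forall h)
  have i1 : Integrable f ν := (id.add ig).congr (Eventually.of_forall fun y => by simp)
  rw [← integral_sub i1 ig]
  have := norm_integral_le_of_norm_le_const (μ := ν) (f := fun y => f y - g y) (C := c)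
    (Eventually.of_forall h)
  simpa using this

variable [∀ n, Nonempty (Ω n)] (μ : ∀ n, Measure (Ω n)) [∀ n, IsProbabilityMeasure (μ n)]

theorem tendsto_integral01 {f : ∀ n, Ω n → ℝ} (hf : ∀ n, Measurable (f n))
    (h01 : ∀ n y, f n y ∈ Icc (0 : ℝ) 1) {g : UP Ω → ℝ}
    (hg : ∀ x, Tendsto (fun n => f n (x n)) UU (𝓝 (g x))) :
    Tendsto (fun n => ∫ y, f n y ∂μ n) UU (𝓝 (∫ x, g x ∂loeb μ)) := by
  have g01 : ∀ x, g x ∈ Icc (0 : ℝ) 1 := fun x =>
    isClosed_Icc.mem_of_tendsto (hg x) (Eventually.of_forall fun n => h01 n _)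
  have hS : ∀ (m j : ℕ) n, MeasurableSet {y | ((j : ℝ) + 1) / m ≤ f n y} :=
    fun m j n => measurableSet_le measurable_const (hf n)
  have key : ∀ m : ℕ, Tendsto (fun n => ∫ y, stair m (f n y) ∂μ n) UU
      (𝓝 (∫ x, stairL f m x ∂loeb μ)) := by
    intro m
    have e1 : ∀ n, ∫ y, stair m (f n y) ∂μ n = ∑ j ∈ Finset.range m,
        (μ n).real {y | ((j : ℝ) + 1) / m ≤ f n y} * (1 / (m : ℝ)) := by
      intro n
      have : ∀ y, stair m (f n y) = ∑ j ∈ Finset.range m,
          {y | ((j : ℝ) + 1) / m ≤ f n y}.indicator (fun _ => 1 / (m : ℝ)) y := fun y => by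
        simp only [stair, indicator_apply, mem_ofPred_eq]
      simp only [this]
      rw [integral_finsetSum _ fun j _ => (integrable_const _).indicator (hS m j n)]
      exact Finset.sum_congr rfl fun j _ => by rw [integral_indicator_const _ (hS m j n)]; rfl
    have e2 : ∫ x, stairL f m x ∂loeb μ = ∑ j ∈ Finset.range m,
        (loeb μ).real (ul fun n => {y | ((j : ℝ) + 1) / m ≤ f n y}) * (1 / (m : ℝ)) := by
      unfold stairL
      rw [integral_finsetSum _ fun j _ =>
        (integrable_const _).indicator (measurableSet_ul (hS m j))]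
      exact Finset.sum_congr rfl fun j _ => by
        rw [integral_indicator_const _ (measurableSet_ul (hS m j))]; rfl
    simp only [e1, e2]
    exact tendsto_finsetSum _ fun j _ => (tendsto_loeb_real μ (hS m j)).mul_const _
  rw [Metric.tendsto_nhds]
  intro ε hε
  obtain ⟨m, hm⟩ := exists_nat_one_div_lt (show 0 < ε / 3 by positivity)
  have hst : Measurable (stair (m + 1)) := Finset.measurable_sum _ fun _ _ =>
    Measurable.ite (measurableSet_le measurable_const measurable_id) measurable_const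
      measurable_const
  filter_upwards [Metric.tendsto_nhds.1 (key (m + 1)) (ε / 3) (by positivity)] with n hn
  have a := integral_close (μ n) (hst.comp (hf n)) (hf n) (h01 n)
    fun y => stair_close (Nat.succ_pos m) (h01 n y)
  have b := integral_close (loeb μ) (measurable_stairL hf (m + 1)) (measurable_ulim hf h01 hg) g01
    (stairL_close h01 hg (Nat.succ_pos m))
  rw [Real.dist_eq] at hn ⊢
  push_cast at a b
  simp only [Function.comp_apply] at a
  rw [abs_le] at a b
  rw [abs_lt] at hn ⊢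
  constructor <;> linarith [a.1, a.2, b.1, b.2, hn.1, hn.2]

omit [∀ n, Nonempty (Ω n)] in
theorem measurable_elim {f : ∀ n, Ω n → ℝ≥0∞} (hf : ∀ n, Measurable (f n))
    (h1 : ∀ n y, f n y ≤ 1) {g : UP Ω → ℝ≥0∞}
    (hg : ∀ x, Tendsto (fun n => f n (x n)) UU (𝓝 (g x))) : Measurable g := by
  have g1 : ∀ x, g x ≠ ∞ := fun x =>
    ne_top_of_le_ne_top ENNReal.one_ne_top (le_of_tendsto' (hg x) fun n => h1 n _)
  have := measurable_ulim (f := fun n y => (f n y).toReal) (fun n => (hf n).ennreal_toReal)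
    (fun n y => ⟨ENNReal.toReal_nonneg, ENNReal.toReal_le_of_le_ofReal zero_le_one
      (by simpa using h1 n y)⟩) (g := fun x => (g x).toReal)
    fun x => (ENNReal.tendsto_toReal (g1 x)).comp (hg x)
  have e : g = fun x => ENNReal.ofReal (g x).toReal :=
    funext fun x => (ENNReal.ofReal_toReal (g1 x)).symm
  rw [e]; exact this.ennreal_ofReal

theorem tendsto_lintegral {f : ∀ n, Ω n → ℝ≥0∞} (hf : ∀ n, Measurable (f n))
    (h1 : ∀ n y, f n y ≤ 1) {g : UP Ω → ℝ≥0∞}
    (hg : ∀ x, Tendsto (fun n => f n (x n)) UU (𝓝 (g x))) :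
    Tendsto (fun n => ∫⁻ y, f n y ∂μ n) UU (𝓝 (∫⁻ x, g x ∂loeb μ)) := by
  have g1 : ∀ x, g x ≤ 1 := fun x => le_of_tendsto' (hg x) fun n => h1 n _
  have lt : ∀ {a : ℝ≥0∞}, a ≤ 1 → a < ∞ := fun h => lt_of_le_of_lt h ENNReal.one_lt_top
  have := tendsto_integral01 μ (f := fun n y => (f n y).toReal) (fun n => (hf n).ennreal_toReal)
    (fun n y => ⟨ENNReal.toReal_nonneg, ENNReal.toReal_le_of_le_ofReal zero_le_one
      (by simpa using h1 n y)⟩) (g := fun x => (g x).toReal)
    fun x => (ENNReal.tendsto_toReal (lt (g1 x)).ne).comp (hg x)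
  simp only [fun n => integral_toReal (μ := μ n) (hf n).aemeasurable
    (Eventually.of_forall fun y => lt (h1 n y))] at this
  rw [integral_toReal (measurable_elim hf h1 hg).aemeasurable
    (Eventually.of_forall fun y => lt (g1 y))] at this
  have h2 := (ENNReal.continuous_ofReal.tendsto _).comp this
  have b : ∀ {α : Type} [MeasurableSpace α] (ν : Measure α) [IsProbabilityMeasure ν]
      (u : α → ℝ≥0∞), (∀ y, u y ≤ 1) → ∫⁻ y, u y ∂ν ≠ ∞ := by
    intro α _ ν _ u hu
    have := lintegral_mono (μ := ν) hu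
    simp only [lintegral_const, measure_univ, mul_one] at this
    exact (lt this).ne
  rw [ENNReal.ofReal_toReal (b _ _ g1)] at h2
  refine h2.congr fun n => ?_
  exact ENNReal.ofReal_toReal (b _ _ (h1 n))

theorem tendsto_integral_bdd {f : ∀ n, Ω n → ℝ} (hf : ∀ n, Measurable (f n)) {B : ℝ}
    (hB : ∀ n y, |f n y| ≤ B) {g : UP Ω → ℝ} (hgm : Measurable g)
    (hg : ∀ x, Tendsto (fun n => f n (x n)) UU (𝓝 (g x))) :
    Tendsto (fun n => ∫ y, f n y ∂μ n) UU (𝓝 (∫ x, g x ∂loeb μ)) := by
  have B0 : 0 ≤ B := (abs_nonneg _).trans (hB 0 (Classical.arbitrary _))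
  have gB : ∀ x, |g x| ≤ B := fun x => le_of_tendsto' (hg x).abs fun n => hB n _
  have := tendsto_integral01 μ (f := fun n y => (f n y + B) / (2 * B + 1))
    (fun n => ((hf n).add_const _).div_const _) (fun n y => by
      have := abs_le.1 (hB n y)
      constructor
      · apply div_nonneg <;> linarith [this.1]
      · rw [div_le_one (by linarith)]; linarith [this.2])
    (g := fun x => (g x + B) / (2 * B + 1)) fun x => ((hg x).add_const _).div_const _
  have e : ∀ {α : Type} [MeasurableSpace α] (ν : Measure α) [IsProbabilityMeasure ν]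
      (u : α → ℝ), Measurable u → (∀ y, |u y| ≤ B) →
      ∫ y, u y ∂ν = (∫ y, (u y + B) / (2 * B + 1) ∂ν) * (2 * B + 1) - B := by
    intro α _ ν _ u hu hb
    rw [integral_div, integral_add (Integrable.of_bound hu.aestronglyMeasurable B
      (Eventually.of_forall hb)) (integrable_const _)]
    simp only [integral_const, probReal_univ, smul_eq_mul, one_mul]
    field_simp; ring
  rw [e _ g hgm gB]
  simp only [fun n => e (μ n) (f n) (hf n) (hB n)]
  exact (this.mul_const _).sub_const _

section tv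
variable {α : Type} [MeasurableSpace α] (ρ σ : Measure α) [IsProbabilityMeasure ρ]
  [IsProbabilityMeasure σ]

lemma abs_le_one' (A : Set α) : |ρ.real A - σ.real A| ≤ 1 := by
  have a : ρ.real A ≤ 1 := measureReal_le_one
  have b : σ.real A ≤ 1 := measureReal_le_one
  have c : 0 ≤ ρ.real A := measureReal_nonneg
  have d : 0 ≤ σ.real A := measureReal_nonneg
  rw [abs_le]; constructor <;> linarith

lemma le_tv {A : Set α} (hA : MeasurableSet A) : |ρ.real A - σ.real A| ≤ tv ρ σ :=
  le_ciSup (f := fun A : {A : Set α // MeasurableSet A} => |ρ.real A - σ.real A|)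
    ⟨1, by rintro _ ⟨A, rfl⟩; exact abs_le_one' ρ σ A⟩ ⟨A, hA⟩

omit [IsProbabilityMeasure ρ] [IsProbabilityMeasure σ] in
lemma tv_le {c : ℝ} (h : ∀ A, MeasurableSet A → |ρ.real A - σ.real A| ≤ c) : tv ρ σ ≤ c :=
  haveI : Nonempty {A : Set α // MeasurableSet A} := ⟨⟨∅, MeasurableSet.empty⟩⟩
  ciSup_le fun A => h A.1 A.2

end tv

theorem tendsto_tv (ν : ∀ n, Measure (Ω n)) [∀ n, IsProbabilityMeasure (ν n)] :
    Tendsto (fun n => tv (μ n) (ν n)) UU (𝓝 (tv (loeb μ) (loeb ν))) := by
  rw [tendsto_order]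
  constructor
  · intro a ha
    by_contra hc
    rw [← Ultrafilter.eventually_not] at hc
    refine not_le.2 ha (tv_le _ _ fun A hA => le_of_forall_pos_le_add fun ε hε => ?_)
    obtain ⟨_, ⟨B, hB, rfl⟩, hAB⟩ := (Measure.MeasureDense.of_generateFrom_isSetAlgebra_finite
      (loeb μ + loeb ν) intl_alg rfl).approx A hA (measure_ne_top _ _) ε hε
    have h1 : |(loeb μ).real (ul B) - (loeb ν).real (ul B)| ≤ a := by
      refine le_of_tendsto ((tendsto_loeb_real μ hB).sub (tendsto_loeb_real ν hB)).abs ?_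
      filter_upwards [hc] with n hn
      exact (le_tv _ _ (hB n)).trans (not_lt.1 hn)
    have h2 := abs_measureReal_sub_le_measureReal_symmDiff (μ := loeb μ) hA.nullMeasurableSet
      (measurableSet_ul hB).nullMeasurableSet
    have h3 := abs_measureReal_sub_le_measureReal_symmDiff (μ := loeb ν) hA.nullMeasurableSet
      (measurableSet_ul hB).nullMeasurableSet
    have h4 : (loeb μ).real (A ∆ ul B) + (loeb ν).real (A ∆ ul B) ≤ ε := by
      rw [← measureReal_add_apply]
      exact ENNReal.toReal_le_of_le_ofReal hε.le hAB.le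
    rw [abs_le] at h1 h2 h3 ⊢
    constructor <;> linarith [h1.1, h1.2, h2.1, h2.2, h3.1, h3.2]
  · intro a ha
    by_contra hc
    rw [← Ultrafilter.eventually_not] at hc
    obtain ⟨b, hb1, hb2⟩ := exists_between ha
    have : ∀ n, ∃ A : Set (Ω n), MeasurableSet A ∧
        (a ≤ tv (μ n) (ν n) → b ≤ |(μ n).real A - (ν n).real A|) := by
      intro n
      by_contra hh
      push Not at hh
      have h1 := tv_le (μ n) (ν n) fun A hA => (hh A hA).2.le
      linarith [(hh ∅ MeasurableSet.empty).1]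
    choose A hA hA2 using this
    have h1 : b ≤ |(loeb μ).real (ul A) - (loeb ν).real (ul A)| := by
      refine ge_of_tendsto ((tendsto_loeb_real μ hA).sub (tendsto_loeb_real ν hA)).abs ?_
      filter_upwards [hc] with n hn
      exact hA2 n (not_lt.1 hn)
    linarith [le_tv (loeb μ) (loeb ν) (measurableSet_ul hA)]

end Pool.Agent.H44.Loeb
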