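import Pool.Agent.H44.Loeb2

open Set Filter Topology MeasureTheory ProbabilityTheory
open scoped ENNReal NNReal

namespace Pool.Agent.H44.Loeb

variable {S : ℕ → Type} [∀ n, MeasurableSpace (S n)]

def XX (t : ℝ≥0) (ω : UP fun n => ℝ≥0 → S n) : UP S := fun n => ω n t

def Phi (ω : UP fun n => ℝ≥0 → S n) : ℝ≥0 → UP S := fun t => XX t ω

lemma meas_ev {E : Type} [MeasurableSpace E] (t : ℝ≥0) {C : Set E} (hC : MeasurableSet C) :
    MeasurableSet {ω : ℝ≥0 → E | ω t ∈ C} := measurable_pi_apply t hC

lemma measurable_XX (t : ℝ≥0) : Measurable (XX (S := S) t) := by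
  refine measurable_generateFrom ?_
  rintro _ ⟨C, hC, rfl⟩
  exact measurableSet_ul (Ω := fun n => ℝ≥0 → S n) (A := fun n => {ω | ω t ∈ C n})
    fun n => meas_ev t (hC n)

lemma measurable_Phi : Measurable (Phi (S := S)) := measurable_pi_lambda _ measurable_XX

lemma past_le (E : Type) [MeasurableSpace E] (t : ℝ≥0) : past E t ≤ MeasurableSpace.pi :=
  iSup_le fun s => (measurable_pi_apply s.1).comap_le

def IntPast (S : ℕ → Type) [∀ n, MeasurableSpace (S n)] (t : ℝ≥0) :
    Set (Set (UP fun n => ℝ≥0 → S n)) :=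
  {B | ∃ A : ∀ n, Set (ℝ≥0 → S n), (∀ n, MeasurableSet[past (S n) t] (A n)) ∧ ul A = B}

lemma intPast_pi (t : ℝ≥0) : IsPiSystem (IntPast S t) := by
  rintro _ ⟨A, hA, rfl⟩ _ ⟨B, hB, rfl⟩ -
  exact ⟨_, fun n => (hA n).inter (hB n), ul_inter A B⟩

lemma intPast_le (t : ℝ≥0) : MeasurableSpace.generateFrom (IntPast S t) ≤
    (inferInstance : MeasurableSpace (UP fun n => ℝ≥0 → S n)) :=
  MeasurableSpace.generateFrom_mono (by
    rintro _ ⟨A, hA, rfl⟩; exact ⟨A, fun n => past_le _ t _ (hA n), rfl⟩)

lemma measurable_Phi_past (t : ℝ≥0) :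
    @Measurable _ _ (MeasurableSpace.generateFrom (IntPast S t)) (past (UP S) t) Phi := by
  rw [measurable_iff_comap_le, MeasurableSpace.comap_iSup]
  refine iSup_le fun s => ?_
  rw [MeasurableSpace.comap_comp, ← measurable_iff_comap_le]
  refine @measurable_generateFrom _ _ (MeasurableSpace.generateFrom (IntPast S t)) _ _ ?_
  rintro _ ⟨C, hC, rfl⟩
  refine MeasurableSpace.measurableSet_generateFrom ⟨fun n => {ω | ω s.1 ∈ C n}, fun n => ?_, rfl⟩
  exact le_iSup (fun s : Iic t => MeasurableSpace.comap (fun ω : ℝ≥0 → S n => ω s.1)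
    inferInstance) s _ ⟨C n, hC n, rfl⟩

variable [∀ n, Nonempty (S n)] (M : ∀ n, MarkovProc (S n))

instance {E : Type} [MeasurableSpace E] (M : MarkovProc E) : IsMarkovKernel M.law := M.prob
instance {E : Type} [MeasurableSpace E] (M : MarkovProc E) : IsProbabilityMeasure M.π := M.πprob

noncomputable def QQ (x : UP S) : Measure (UP fun n => ℝ≥0 → S n) :=
  loeb fun n => (M n).law (x n)

instance (x : UP S) : IsProbabilityMeasure (QQ M x) := by unfold QQ; infer_instance

lemma measurable_QQ (B : Set (UP fun n => ℝ≥0 → S n)) (hB : MeasurableSet B) :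
    Measurable fun x => QQ M x B := by
  induction B, hB using MeasurableSpace.induction_on_inter rfl intl_pi with
  | empty => simp
  | basic B hB =>
    obtain ⟨A, hA, rfl⟩ := hB
    exact measurable_elim (f := fun n y => (M n).law y (A n))
      (fun n => Kernel.measurable_coe _ (hA n)) (fun _ _ => prob_le_one)
      fun x => tendsto_loeb _ hA
  | compl B hB ih =>
    simp only [prob_compl_eq_one_sub hB]
    exact ih.const_sub _
  | iUnion f hd hf ih =>
    simp only [measure_iUnion hd hf]
    exact Measurable.tsum ih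

noncomputable def lawU : Kernel (UP S) (ℝ≥0 → UP S) where
  toFun x := (QQ M x).map Phi
  measurable' := Measure.measurable_of_measurable_coe _ fun s hs => by
    simp only [Measure.map_apply measurable_Phi hs]
    exact measurable_QQ M _ (measurable_Phi hs)

lemma lawU_apply (x : UP S) {B : Set (ℝ≥0 → UP S)} (hB : MeasurableSet B) :
    lawU M x B = QQ M x (Phi ⁻¹' B) := Measure.map_apply measurable_Phi hB

instance : IsMarkovKernel (lawU M) :=
  ⟨fun x => Measure.isProbabilityMeasure_map (μ := QQ M x) measurable_Phi.aemeasurable⟩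

lemma tendsto_lawU (x : UP S) (t : ℝ≥0) {C : ∀ n, Set (S n)} (hC : ∀ n, MeasurableSet (C n)) :
    Tendsto (fun n => (M n).law (x n) {ω | ω t ∈ C n}) UU (𝓝 (lawU M x {ω | ω t ∈ ul C})) := by
  rw [lawU_apply M x (meas_ev t (measurableSet_ul hC))]
  exact tendsto_loeb (fun n => (M n).law (x n)) fun n => meas_ev t (hC n)

noncomputable def kap (s : ℝ≥0) : Kernel (UP S) (UP S) := (lawU M).map fun ω => ω s

instance (s : ℝ≥0) : IsMarkovKernel (kap M s) :=
  Kernel.IsMarkovKernel.map _ (measurable_pi_apply s)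

lemma kap_apply (s : ℝ≥0) (x : UP S) {C : Set (UP S)} (hC : MeasurableSet C) :
    kap M s x C = lawU M x {ω | ω s ∈ C} := Kernel.map_apply' _ (measurable_pi_apply s) _ hC

lemma step1 (x : UP S) (t s : ℝ≥0) {A : ∀ n, Set (ℝ≥0 → S n)}
    (hA : ∀ n, MeasurableSet[past (S n) t] (A n)) {C : ∀ n, Set (S n)}
    (hC : ∀ n, MeasurableSet (C n)) :
    QQ M x (ul A ∩ XX (t + s) ⁻¹' ul C) = ∫⁻ ω in ul A, kap M s (XX t ω) (ul C) ∂QQ M x := by
  have hA' : ∀ n, MeasurableSet (A n) := fun n => past_le _ t _ (hA n)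
  have h1 := tendsto_loeb (fun n => (M n).law (x n))
    (A := fun n => A n ∩ {ω | ω (t + s) ∈ C n}) fun n => (hA' n).inter (meas_ev _ (hC n))
  rw [ul_inter] at h1
  have h2 := tendsto_lintegral (fun n => (M n).law (x n))
    (f := fun n => (A n).indicator fun ω => (M n).law (ω t) {ω' | ω' s ∈ C n})
    (fun n => ((Kernel.measurable_coe _ (meas_ev s (hC n))).comp
      (measurable_pi_apply t)).indicator (hA' n))
    (fun n ω => indicator_le' (fun _ _ => prob_le_one) (fun _ _ => zero_le_one) ω)
    (g := (ul A).indicator fun ω => kap M s (XX t ω) (ul C)) (fun ω => by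
      by_cases h : ω ∈ ul A
      · rw [indicator_of_mem h, kap_apply M s _ (measurableSet_ul hC)]
        refine (tendsto_lawU M (XX t ω) s hC).congr' ?_
        filter_upwards [h] with n hn
        rw [indicator_of_mem hn]; rfl
      · rw [indicator_of_notMem h]
        refine tendsto_const_nhds.congr' ?_
        filter_upwards [Ultrafilter.eventually_not.2 h] with n hn
        rw [indicator_of_notMem hn])
  rw [lintegral_indicator (measurableSet_ul hA')] at h2
  simp only [fun n => lintegral_indicator (μ := (M n).law (x n)) (hA' n),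
    ← fun n => (M n).markov (x n) t s (A n) (C n) (hA n) (hC n)] at h2
  exact tendsto_nhds_unique h1 h2

lemma step2 (x : UP S) (t s : ℝ≥0) {B : Set (UP fun n => ℝ≥0 → S n)}
    (hB : MeasurableSet[MeasurableSpace.generateFrom (IntPast S t)] B) {C : ∀ n, Set (S n)}
    (hC : ∀ n, MeasurableSet (C n)) :
    QQ M x (B ∩ XX (t + s) ⁻¹' ul C) = ∫⁻ ω in B, kap M s (XX t ω) (ul C) ∂QQ M x := by
  have key : ∀ B, MeasurableSet B → ((QQ M x).restrict (XX (t + s) ⁻¹' ul C) B =
      (QQ M x).withDensity (fun ω => kap M s (XX t ω) (ul C)) B ↔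
      QQ M x (B ∩ XX (t + s) ⁻¹' ul C) = ∫⁻ ω in B, kap M s (XX t ω) (ul C) ∂QQ M x) := by
    intro B hB
    rw [Measure.restrict_apply hB, withDensity_apply _ hB]
  rw [← key B (intPast_le t _ hB)]
  refine ext_on_measurableSpace_of_generate_finite _ (IntPast S t) ?_ (intPast_le t) rfl
    (intPast_pi t) ?_ hB
  · rintro _ ⟨A, hA, rfl⟩
    rw [key _ (measurableSet_ul fun n => past_le _ t _ (hA n))]
    exact step1 M x t s hA hC
  · rw [key _ MeasurableSet.univ, ← ul_univ]
    exact step1 M x t s (fun n => MeasurableSet.univ) hC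

lemma step3 (x : UP S) (t s : ℝ≥0) {B : Set (UP fun n => ℝ≥0 → S n)}
    (hB : MeasurableSet[MeasurableSpace.generateFrom (IntPast S t)] B) {C : Set (UP S)}
    (hC : MeasurableSet C) :
    QQ M x (B ∩ XX (t + s) ⁻¹' C) = ∫⁻ ω in B, kap M s (XX t ω) C ∂QQ M x := by
  have key : ∀ C, MeasurableSet C → (((QQ M x).restrict B).map (XX (t + s)) C =
      (((QQ M x).restrict B).map (XX t)).bind (kap M s) C ↔
      QQ M x (B ∩ XX (t + s) ⁻¹' C) = ∫⁻ ω in B, kap M s (XX t ω) C ∂QQ M x) := by
    intro C hC
    rw [Measure.map_apply (measurable_XX _) hC, Measure.restrict_apply (measurable_XX _ hC),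
      Measure.bind_apply hC (kap M s).aemeasurable,
      lintegral_map (Kernel.measurable_coe _ hC) (measurable_XX _), inter_comm]
  rw [← key C hC]
  refine congrFun (congrArg _ (ext_of_generate_finite (Intl S) rfl intl_pi ?_ ?_)) C
  · rintro _ ⟨C, hC, rfl⟩
    rw [key _ (measurableSet_ul hC)]
    exact step2 M x t s hB hC
  · rw [key _ MeasurableSet.univ, ← ul_univ]
    exact step2 M x t s hB fun n => MeasurableSet.univ

noncomputable def ultra : MarkovProc (UP S) where
  law := lawU M
  prob := inferInstance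
  start x := by
    have := Measure.isProbabilityMeasure_map (μ := lawU M x) (measurable_pi_apply 0).aemeasurable
    refine ext_of_generate_finite (Intl S) rfl intl_pi ?_ (by simp)
    rintro _ ⟨C, hC, rfl⟩
    rw [Measure.map_apply (measurable_pi_apply (0 : ℝ≥0)) (measurableSet_ul hC),
      Measure.dirac_apply' _ (measurableSet_ul hC)]
    refine tendsto_nhds_unique (tendsto_lawU M x 0 hC) ?_
    have e : ∀ n, (M n).law (x n) {ω | ω 0 ∈ C n} = (C n).indicator 1 (x n) := fun n => by
      rw [← Measure.dirac_apply' _ (hC n), ← (M n).start,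
        Measure.map_apply (measurable_pi_apply 0) (hC n)]; rfl
    simp only [e]
    refine tendsto_const_nhds.congr' ?_
    by_cases h : x ∈ ul C
    · filter_upwards [h] with n hn
      rw [indicator_of_mem hn, indicator_of_mem h]; rfl
    · filter_upwards [Ultrafilter.eventually_not.2 h] with n hn
      rw [indicator_of_notMem hn, indicator_of_notMem h]
  markov x t s A C hA hC := by
    have hA' := past_le _ t _ hA
    rw [lawU_apply M x (hA'.inter (meas_ev _ hC))]
    have h := step3 M x t s (measurable_Phi_past t hA) hC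
    have e : ∫⁻ ω in A, lawU M (ω t) {ω' | ω' s ∈ C} ∂lawU M x =
        ∫⁻ ω in Phi ⁻¹' A, lawU M (Phi ω t) {ω' | ω' s ∈ C} ∂QQ M x :=
      setLIntegral_map (μ := QQ M x) hA' ((Kernel.measurable_coe _ (meas_ev s hC)).comp
        (measurable_pi_apply t)) measurable_Phi
    rw [e]
    simp only [kap_apply M s _ hC] at h
    exact h
  π := loeb fun n => (M n).π
  πprob := inferInstance
  stat t C hC := by
    have key : ∀ C, MeasurableSet C → (loeb fun n => (M n).π).bind (kap M t) C =
        ∫⁻ x, lawU M x {ω | ω t ∈ C} ∂loeb fun n => (M n).π := by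
      intro C hC
      rw [Measure.bind_apply hC (kap M t).aemeasurable]
      simp only [kap_apply M t _ hC]
    rw [← key C hC]
    refine congrFun (congrArg _ (ext_of_generate_finite (Intl S) rfl intl_pi ?_ (by simp))) C
    rintro _ ⟨C, hC, rfl⟩
    rw [key _ (measurableSet_ul hC)]
    have h := tendsto_lintegral (fun n => (M n).π)
      (f := fun n y => (M n).law y {ω | ω t ∈ C n})
      (fun n => Kernel.measurable_coe _ (meas_ev t (hC n))) (fun _ _ => prob_le_one)
      fun x => tendsto_lawU M x t hC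
    simp only [fun n => (M n).stat t (C n) (hC n)] at h
    exact tendsto_nhds_unique h (tendsto_loeb _ hC)

instance {E : Type} [MeasurableSpace E] (M : MarkovProc E) (x : E) (t : ℝ≥0) :
    IsProbabilityMeasure ((M.law x).map fun ω => ω t) :=
  Measure.isProbabilityMeasure_map (measurable_pi_apply t).aemeasurable

theorem tendsto_dist (x : UP S) (t : ℝ≥0) :
    Tendsto (fun n => (M n).dist (x n) t) UU (𝓝 ((ultra M).dist x t)) := by
  have e : ((ultra M).law x).map (fun ω => ω t) =
      loeb fun n => ((M n).law (x n)).map fun ω => ω t := by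
    refine ext_of_generate_finite (Intl S) rfl intl_pi ?_ (by simp)
    rintro _ ⟨C, hC, rfl⟩
    rw [Measure.map_apply (measurable_pi_apply t) (measurableSet_ul hC)]
    refine tendsto_nhds_unique (tendsto_lawU M x t hC) ((tendsto_loeb _ hC).congr fun n => ?_)
    exact Measure.map_apply (measurable_pi_apply t) (hC n)
  unfold MarkovProc.dist
  rw [e]
  exact tendsto_tv _ _

end Pool.Agent.H44.Loeb
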