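import Pool.Agent.H44.Loeb3

open Set Filter Topology MeasureTheory ProbabilityTheory
open scoped ENNReal NNReal BoundedContinuousFunction

namespace Pool.Agent.H44.Loeb

instance : BorelSpace Prof := ⟨rfl⟩

noncomputable def ex (f : Prof) (s : ℝ) : ℝ := if s ≤ 0 then 1 else f.1 s.toNNReal

lemma ex_anti (f : Prof) : Antitone (ex f) := by
  intro a b h
  unfold ex
  split_ifs with h1 h2 h2
  · exact le_rfl
  · exact absurd (h.trans h1) h2
  · exact (f.2.2 _).2
  · exact f.2.1 (Real.toNNReal_le_toNNReal h)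

lemma ex_mem (f : Prof) (s : ℝ) : ex f s ∈ Icc (0 : ℝ) 1 := by
  unfold ex; split_ifs
  · exact ⟨zero_le_one, le_rfl⟩
  · exact f.2.2 _

lemma conv_of {g : ℕ → Prof} {f : Prof} (h : ∀ a b : ℚ, a < b → ∀ ε > 0,
    ∀ᶠ k in atTop, ex (g k) b ≤ ex f a + ε ∧ ex f b - ε ≤ ex (g k) a) : Conv g f := by
  intro t ht hc
  rw [Metric.tendsto_nhds]
  intro ε hε
  obtain ⟨δ, hδ, hd⟩ := Metric.continuousAt_iff.1 hc (ε / 2) (by positivity)
  have ht' : (0 : ℝ) < t := ht
  have close : ∀ s : ℝ, 0 < s → |s - t| < δ → |ex f s - f.1 t| < ε / 2 := by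
    intro s hs h1
    rw [ex, if_neg (not_le.2 hs)]
    refine hd ?_
    rw [NNReal.dist_eq, Real.coe_toNNReal s hs.le]; exact h1
  obtain ⟨a, a1, a2⟩ := exists_rat_btwn (show max (t - δ) 0 < (t : ℝ) by
    rw [max_lt_iff]; constructor <;> linarith)
  obtain ⟨b, b1, b2⟩ := exists_rat_btwn a2
  obtain ⟨c, c1, c2⟩ := exists_rat_btwn (show (t : ℝ) < t + δ by linarith)
  obtain ⟨d, d1, d2⟩ := exists_rat_btwn c2
  rw [max_lt_iff] at a1
  have ha := close a a1.2 (by rw [abs_lt]; constructor <;> linarith [a1.1])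
  have hd' := close d (by linarith) (by rw [abs_lt]; constructor <;> linarith)
  filter_upwards [h a b (by exact_mod_cast b1) (ε / 2) (by positivity),
    h c d (by exact_mod_cast d1) (ε / 2) (by positivity)] with k h1 h2
  have e : ∀ u : Prof, u.1 t = ex u t := fun u => by
    rw [ex, if_neg (not_le.2 ht'), Real.toNNReal_coe]
  have m1 := ex_anti (g k) b2.le
  have m2 := ex_anti (g k) c1.le
  rw [Real.dist_eq, e (g k), abs_lt]
  rw [abs_lt] at ha hd'
  constructor <;> linarith [h1.1, h2.2, ha.2, hd'.1]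

noncomputable def ev (f : Prof) (q : ℚ) : ℝ := ex f q

noncomputable def prim (f : Prof) (p : ℚ × ℚ) : ℝ := ∫ s in (p.1 : ℝ)..p.2, ex f s

lemma conv_of_ev {g : ℕ → Prof} {f : Prof} (h : Tendsto (fun k => ev (g k)) atTop (𝓝 (ev f))) :
    Conv g f := by
  refine conv_of fun a b hab ε hε => ?_
  have m := ex_anti f (show (a : ℝ) ≤ b by exact_mod_cast hab.le)
  filter_upwards [Metric.tendsto_nhds.1 (tendsto_pi_nhds.1 h a) ε hε,
    Metric.tendsto_nhds.1 (tendsto_pi_nhds.1 h b) ε hε] with k h1 h2
  rw [Real.dist_eq, abs_lt] at h1 h2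
  simp only [ev] at h1 h2
  constructor <;> linarith [h1.1, h2.2]

lemma prim_bounds (f : Prof) {a b : ℚ} (hab : a < b) :
    (b - a) * ex f b ≤ prim f (a, b) ∧ prim f (a, b) ≤ (b - a) * ex f a := by
  have h : (a : ℝ) ≤ b := by exact_mod_cast hab.le
  have i : IntervalIntegrable (ex f) volume a b := (ex_anti f).intervalIntegrable
  constructor
  · have := intervalIntegral.integral_mono_on h (intervalIntegrable_const (c := ex f b)) i
      fun s hs => ex_anti f hs.2
    simpa [prim] using this
  · have := intervalIntegral.integral_mono_on h i (intervalIntegrable_const (c := ex f a))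
      fun s hs => ex_anti f hs.1
    simpa [prim] using this

lemma conv_of_prim {g : ℕ → Prof} {f : Prof}
    (h : Tendsto (fun k => prim (g k)) atTop (𝓝 (prim f))) : Conv g f := by
  refine conv_of fun a b hab ε hε => ?_
  have hd : (0 : ℝ) < b - a := by have : (a : ℝ) < b := by exact_mod_cast hab
                                  linarith
  filter_upwards [Metric.tendsto_nhds.1 (tendsto_pi_nhds.1 h (a, b)) ((b - a) * ε)
    (by positivity)] with k h1
  rw [Real.dist_eq, abs_lt] at h1
  obtain ⟨p1, p2⟩ := prim_bounds f hab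
  obtain ⟨q1, q2⟩ := prim_bounds (g k) hab
  constructor
  · exact le_of_mul_le_mul_left (by linarith [h1.2]) hd
  · exact le_of_mul_le_mul_left (by linarith [h1.1]) hd

lemma prim_of_conv {g : ℕ → Prof} {f : Prof} (h : Conv g f) :
    Tendsto (fun k => prim (g k)) atTop (𝓝 (prim f)) := by
  refine tendsto_pi_nhds.2 fun p => ?_
  refine intervalIntegral.tendsto_integral_filter_of_dominated_convergence (fun _ => 1)
    (Eventually.of_forall fun k => (ex_anti (g k)).measurable.aestronglyMeasurable)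
    (Eventually.of_forall fun k => Eventually.of_forall fun s _ => ?_) intervalIntegrable_const ?_
  · have := ex_mem (g k) s
    rw [Real.norm_eq_abs, abs_of_nonneg this.1]; exact this.2
  · have hc : ((fun t : ℝ≥0 => (t : ℝ)) '' {t | ¬ ContinuousAt f.1 t}).Countable :=
      f.2.1.countable_not_continuousAt.image _
    filter_upwards [hc.ae_notMem volume] with s hs _
    unfold ex
    split_ifs with h0
    · exact tendsto_const_nhds
    · refine h _ (Real.toNNReal_pos.2 (not_le.1 h0)) ?_
      by_contra hh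
      exact hs ⟨_, hh, Real.coe_toNNReal s (not_le.1 h0).le⟩

lemma open_of_seq {Y : Type} [TopologicalSpace Y] [FirstCountableTopology Y] (j : Prof → Y)
    (h : ∀ g f, Tendsto (fun k => j (g k)) atTop (𝓝 (j f)) → Conv g f) {O : Set Prof}
    (hO : IsOpen O) : ∃ U, IsOpen U ∧ j ⁻¹' U = O := by
  have hO' : ∀ f ∈ O, ∀ g, Conv g f → ∀ᶠ k in atTop, g k ∈ O := hO
  clear hO
  let τ : TopologicalSpace Prof := TopologicalSpace.induced j inferInstance
  have : FirstCountableTopology Prof := TopologicalSpace.firstCountableTopology_induced _ _ j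
  have : IsClosed Oᶜ := by
    refine IsSeqClosed.isClosed fun g f hg hf hfO => ?_
    rw [nhds_induced, tendsto_comap_iff] at hf
    obtain ⟨k, hk⟩ := (hO' f hfO g (h g f hf)).exists
    exact hg k hk
  exact isOpen_induced_iff.1 (isClosed_compl_iff.1 this)

lemma inducing_prim : IsInducing prim := by
  refine ⟨TopologicalSpace.ext_iff.2 fun O => ⟨fun hO => open_of_seq prim (fun _ _ => conv_of_prim) hO,
    ?_⟩⟩
  rintro ⟨U, hU, rfl⟩ f hf g hg
  exact prim_of_conv hg (hU.mem_nhds hf)

instance : TopologicalSpace.PseudoMetrizableSpace Prof := inducing_prim.pseudoMetrizableSpace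

lemma measurable_of_ev {E : Type} [MeasurableSpace E] {d : E → Prof}
    (h : ∀ t, Measurable fun x => (d x).1 t) : Measurable d := by
  refine measurable_of_isOpen fun O hO => ?_
  obtain ⟨U, hU, rfl⟩ := open_of_seq ev (fun _ _ => conv_of_ev) hO
  have : Measurable fun x => ev (d x) := measurable_pi_lambda _ fun q => by
    unfold ev ex
    split_ifs
    · exact measurable_const
    · exact h _
  exact this hU.measurableSet

lemma tendsto_of_pointwise {g : ℕ → Prof} {f : Prof} {l : Filter ℕ}
    (h : ∀ t, Tendsto (fun k => (g k).1 t) l (𝓝 (f.1 t))) : Tendsto g l (𝓝 f) := by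
  refine tendsto_nhds.2 fun O hO hf => ?_
  obtain ⟨U, hU, rfl⟩ := open_of_seq ev (fun _ _ => conv_of_ev) hO
  have : Tendsto (fun k => ev (g k)) l (𝓝 (ev f)) := tendsto_pi_nhds.2 fun q => by
    unfold ev ex
    split_ifs
    · exact tendsto_const_nhds
    · exact h _
  exact this (hU.mem_nhds hf)

theorem main {S : ℕ → Type} [∀ n, MeasurableSpace (S n)] (M : ∀ n, MarkovProc (S n))
    (F : ∀ n, S n → Prof) (hF : ∀ n x t, (F n x).1 t = (M n).dist x t)
    (hm : ∀ n, Measurable (F n)) (hm' : ∀ n t, Measurable fun x => (F n x).1 t)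
    (Λ : Measure Prof) [IsProbabilityMeasure Λ]
    (h : ∀ φ : Prof →ᵇ ℝ, Tendsto (fun n => ∫ x, φ (F n x) ∂(M n).π) atTop (𝓝 (∫ f, φ f ∂Λ))) :
    ∃ (E : Type) (_ : MeasurableSpace E) (N : MarkovProc E) (d : E → Prof),
      (∀ x t, (d x).1 t = N.dist x t) ∧ Measurable d ∧ N.π.map d = Λ := by
  have : ∀ n, Nonempty (S n) := fun n => nonempty_of_isProbabilityMeasure (M n).π
  have hl : ∀ (x : UP S) t, Tendsto (fun n => (F n (x n)).1 t) UU (𝓝 ((ultra M).dist x t)) := by
    intro x t; simp only [hF]; exact tendsto_dist M x t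
  let d : UP S → Prof := fun x => ⟨(ultra M).dist x,
    fun s t hst => le_of_tendsto_of_tendsto' (hl x t) (hl x s) fun n => (F n (x n)).2.1 hst,
    fun t => isClosed_Icc.mem_of_tendsto (hl x t) (Eventually.of_forall fun n => (F n (x n)).2.2 t)⟩
  have hd : Measurable d := measurable_of_ev fun t =>
    measurable_ulim (fun n => hm' n t) (fun n y => (F n y).2.2 t) fun x => hl x t
  refine ⟨UP S, inferInstance, ultra M, d, fun _ _ => rfl, hd, ?_⟩
  refine ext_of_forall_integral_eq_of_IsFiniteMeasure fun φ => ?_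
  rw [integral_map hd.aemeasurable φ.continuous.measurable.aestronglyMeasurable]
  refine tendsto_nhds_unique (tendsto_integral_bdd (fun n => (M n).π)
    (f := fun n x => φ (F n x)) (fun n => φ.continuous.measurable.comp (hm n)) (B := ‖φ‖)
    (fun n y => φ.norm_coe_le_norm _) (φ.continuous.measurable.comp hd) fun x => ?_)
    ((h φ).mono_left UU_le)
  exact (φ.continuous.tendsto _).comp (tendsto_of_pointwise (hl x))

end Pool.Agent.H44.Loeb
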