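import Pool.Agent.H44.MBDefs

namespace Pool.Agent.H44.MB

variable {n : ℕ} {G : SimpleGraph (Fin n)} {b : ℕ}

open Classical in
noncomputable def fam (G : SimpleGraph (Fin n)) (k : ℕ) : Finset (Finset (Fin n)) :=
  (Finset.powersetCard k Finset.univ).filter (Dominating G)

lemma mem_fam {k : ℕ} {A : Finset (Fin n)} : A ∈ fam G k ↔ A.card = k ∧ Dominating G A := by
  simp [fam]

lemma dwin_succ : ∀ (t : ℕ) (D S : Finset (Fin n)), DWin G b t D S → DWin G b (t + 1) D S
  | 0, D, S, h => ⟨∅, by simp, by simp, Or.inl (by rw [Finset.union_empty]; exact h)⟩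
  | t + 1, D, S, ⟨X, h1, h2, h3⟩ =>
    ⟨X, h1, h2, h3.imp id fun h Y a c => dwin_succ t _ _ (h Y a c)⟩

lemma dwin_mono {t s : ℕ} (h : t ≤ s) {D S : Finset (Fin n)} (hw : DWin G b t D S) :
    DWin G b s D S := by
  induction h with
  | refl => exact hw
  | step _ ih => exact dwin_succ _ _ _ ih

lemma staller (hb : 1 ≤ b) {k : ℕ} (hk : ∀ A, Dominating G A → k ≤ A.card) :
    ∀ (t : ℕ) (D S : Finset (Fin n)), Disjoint D S → D.card + b * t ≤ k →
      (((fam G k).filter (fun A => Disjoint A S)).card < t ∨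
        ((fam G k).filter (fun A => Disjoint A S)).card = 0) → ¬ DWin G b t D S := by
  have base : ∀ D S : Finset (Fin n), Disjoint D S → D.card ≤ k → Has G D →
      0 < ((fam G k).filter (fun A => Disjoint A S)).card := by
    rintro D S hd hc ⟨A, hA, hA2⟩
    refine Finset.card_pos.2 ⟨A, Finset.mem_filter.2 ⟨mem_fam.2 ⟨?_, hA2⟩,
      Finset.disjoint_of_subset_left hA hd⟩⟩
    have := Finset.card_le_card hA
    have := hk A hA2
    omega
  intro t
  induction t with
  | zero =>
    intro D S hd hc hr hw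
    have := base D S hd (by omega) hw
    omega
  | succ t ih =>
    rintro D S hd hc hr ⟨X, h1, h2, h3⟩
    have hd' : Disjoint (D ∪ X) S :=
      Finset.disjoint_union_left.2 ⟨hd, (Finset.disjoint_union_right.1 h1).2⟩
    have hc' : (D ∪ X).card + b * t ≤ k := by
      have := Finset.card_union_le D X
      rw [Nat.mul_succ] at hc
      omega
    rcases h3 with h3 | h3
    · have h4 := base _ S hd' (by omega) h3
      obtain ⟨A, hA, hA2⟩ := h3
      have h5 := Finset.card_le_card hA
      have h6 := hk A hA2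
      have h7 : t ≤ b * t := Nat.le_mul_of_pos_left t hb
      omega
    · rcases Nat.eq_zero_or_pos ((fam G k).filter (fun A => Disjoint A S)).card with h0 | h0
      · refine ih _ (S ∪ ∅) (by simpa using hd') hc' (Or.inr (by simpa using h0))
          (h3 ∅ (by simp) (by simp))
      · obtain ⟨A, hA⟩ := Finset.card_pos.1 h0
        obtain ⟨hA1, hA2⟩ := Finset.mem_filter.1 hA
        have h7 : t ≤ b * t := Nat.le_mul_of_pos_left t hb
        obtain ⟨a, ha, ha'⟩ := Finset.exists_mem_notMem_of_card_lt_card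
          (s := D ∪ X) (t := A) (by rw [(mem_fam.1 hA1).1]; omega)
        have haS : a ∉ S := Finset.disjoint_left.1 hA2 ha
        refine ih _ (S ∪ {a}) (Finset.disjoint_union_right.2 ⟨hd', by simpa using ha'⟩) hc'
          (Or.inl ?_) (h3 {a} (by
            rw [Finset.disjoint_singleton_left, Finset.mem_union]; tauto) (by simp))
        have : ((fam G k).filter (fun A => Disjoint A (S ∪ {a}))) ⊆
            ((fam G k).filter (fun A => Disjoint A S)).erase A := by
          intro B hB
          obtain ⟨hB1, hB2⟩ := Finset.mem_filter.1 hB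
          rw [Finset.disjoint_union_right] at hB2
          refine Finset.mem_erase.2 ⟨?_, Finset.mem_filter.2 ⟨hB1, hB2.1⟩⟩
          rintro rfl
          exact Finset.disjoint_singleton_right.1 hB2.2 ha
        have h8 := Finset.card_le_card this
        rw [Finset.card_erase_of_mem hA] at h8
        omega

lemma det (hb : 1 ≤ b) {m : ℕ} (hn : 2 * (b * m) ≤ n) (h1 : 1 ≤ (fam G (b * m)).card)
    (h2 : (fam G (b * m)).card < m) :
    ((⌈(gamma G : ℝ) / b⌉₊ : ℕ) : ℕ∞) < gammaMB G b ∧
      ((⌈(gamma G : ℝ) / b⌉₊ : ℕ) : ℕ∞) < gammaMB' G b := by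
  set k := b * m with hkd
  have hmk : m ≤ k := Nat.le_mul_of_pos_left m hb
  have hk : ∀ A, Dominating G A → k ≤ A.card := by
    intro A hA
    by_contra hlt
    obtain ⟨D, hD1, hD2⟩ := Finset.exists_superset_card_eq (s := A) (n := k - 1) (by omega)
      (by simp; omega)
    have : Dᶜ.card ≤ (fam G k).card := by
      refine Finset.card_le_card_of_injOn (fun v => insert v D) (fun v hv => ?_) ?_
      · have hv' : v ∉ D := by simpa using hv
        refine mem_fam.2 ⟨by rw [Finset.card_insert_of_notMem hv']; omega, fun w hw => ?_⟩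
        obtain ⟨u, hu, h⟩ := hA w fun h => hw (Finset.mem_insert_of_mem (hD1 h))
        exact ⟨u, Finset.mem_insert_of_mem (hD1 hu), h⟩
      · intro v hv w _ h
        have hv' : v ∉ D := by simpa using hv
        have : v ∈ insert w D := by
          have h' : insert v D = insert w D := h
          rw [← h']; exact Finset.mem_insert_self _ _
        rcases Finset.mem_insert.1 this with h | h
        · exact h
        · exact absurd h hv'
    rw [Finset.card_compl, Fintype.card_fin] at this
    omega
  have hg : gamma G = k := by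
    obtain ⟨A, hA⟩ := Finset.card_pos.1 h1
    have hmem : k ∈ {k | ∃ D, Dominating G D ∧ D.card = k} :=
      ⟨A, (mem_fam.1 hA).2, (mem_fam.1 hA).1⟩
    refine le_antisymm (Nat.sInf_le hmem) ?_
    obtain ⟨D, hD, hD2⟩ := Nat.sInf_mem ⟨k, hmem⟩
    unfold gamma
    rw [← hD2]; exact hk D hD
  have hc : ⌈(gamma G : ℝ) / b⌉₊ = m := by
    have : (0 : ℝ) < b := by exact_mod_cast hb
    rw [hg, hkd, Nat.cast_mul, mul_div_cancel_left₀ _ this.ne', Nat.ceil_natCast]
  have hw : ∀ t, DWin G b t ∅ ∅ → m + 1 ≤ t := by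
    intro t ht
    by_contra hlt
    exact staller hb hk m ∅ ∅ (by simp) (by simp [hkd]) (Or.inl (by simpa using h2))
      (dwin_mono (by omega) ht)
  rw [hc]
  have hlt : (m : ℕ∞) < ((m + 1 : ℕ) : ℕ∞) := by exact_mod_cast Nat.lt_succ_self m
  exact ⟨hlt.trans_le (le_iInf₂ fun t ht => by exact_mod_cast hw t ht),
    hlt.trans_le (le_iInf₂ fun t ht => by exact_mod_cast hw t (ht ∅ (by simp)))⟩

end Pool.Agent.H44.MB
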