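import Pool.Agent.H44.MB1
import Pool.Agent.H44.Har

open MeasureTheory Measure ProbabilityTheory unitInterval

namespace Pool.Agent.H44.MB

variable {n : ℕ}

noncomputable def nu (n : ℕ) (p : I) (e : Sym2 (Fin n)) : Measure Prop :=
  toNNReal p • dirac (e ∈ (Sym2.diagSet : Set (Sym2 (Fin n)))ᶜ) + toNNReal (σ p) • dirac False

instance (p : I) (e : Sym2 (Fin n)) : IsProbabilityMeasure (nu n p e) := by
  unfold nu; infer_instance

noncomputable abbrev PP (n : ℕ) (p : I) : Measure (Sym2 (Fin n) → Prop) := infinitePi (nu n p)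

def gr (ω : Sym2 (Fin n) → Prop) : SimpleGraph (Fin n) := SimpleGraph.fromEdgeSet {e | ω e}

lemma ms (A : Set (Sym2 (Fin n) → Prop)) : MeasurableSet A := (Set.toFinite A).measurableSet

lemma le_G (p : I) (S : Set (SimpleGraph (Fin n))) :
    (PP n p).real (gr ⁻¹' S) ≤ (SimpleGraph.binomialRandom (Fin n) p).real S := by
  refine ENNReal.toReal_mono (measure_ne_top _ _) ?_
  rw [SimpleGraph.binomialRandom_eq_map, setBernoulli_eq_map]
  refine le_trans ?_ (le_map_apply SimpleGraph.measurable_fromEdgeSet.aemeasurable S)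
  exact le_map_apply (f := fun p : Sym2 (Fin n) → Prop => {i | p i})
    MeasurableEquiv.setOfPred.measurable.aemeasurable _

def Nn (v : Fin n) (A : Finset (Fin n)) : Set (Sym2 (Fin n) → Prop) := {ω | ∀ a ∈ A, ¬ ω s(v, a)}

lemma P_Nn (p : I) {v : Fin n} {A : Finset (Fin n)} (hv : v ∉ A) :
    (PP n p).real (Nn v A) = (1 - p : ℝ) ^ A.card := by
  classical
  have : Nn v A = Set.pi ((A.image fun a => s(v, a) : Finset _) : Set (Sym2 (Fin n)))
      (fun _ => {P | ¬ P}) := by
    ext ω; simp [Nn]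
  rw [this, Measure.real, infinitePi_pi _ (fun _ _ => (Set.toFinite _).measurableSet),
    Finset.prod_image (fun a _ b _ h => Sym2.congr_right.1 h), ENNReal.toReal_prod,
    Finset.prod_congr rfl (g := fun _ => (1 - p : ℝ)), Finset.prod_const]
  intro a ha
  have hne : v ≠ a := fun h => hv (h ▸ ha)
  simp [nu, hne, Set.indicator]

lemma P_inter (p : I) (U : Finset (Fin n)) (E : Fin n → Set (Sym2 (Fin n) → Prop))
    (hE : ∀ v, DependsOn (· ∈ E v) {e | ∃ a ∈ U, e = s(v, a)}) (R : Finset (Fin n))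
    (hR : ∀ v ∈ R, v ∉ U) :
    (PP n p).real (⋂ v ∈ R, E v) = ∏ v ∈ R, (PP n p).real (E v) := by
  classical
  induction R using Finset.induction_on with
  | empty => simp
  | insert w R hw ih =>
    rw [Finset.set_biInter_insert, Finset.prod_insert hw,
      ← ih fun v hv => hR v (Finset.mem_insert_of_mem hv), Measure.real, Measure.real, Measure.real,
      ← ENNReal.toReal_mul]
    congr 1
    refine Har.indep_of (nu n p) (S := {e | ∃ a ∈ U, e = s(w, a)})
      (T := {e | ∃ v ∈ R, ∃ a ∈ U, e = s(v, a)}) ?_ (ms _) (ms _) (hE w) ?_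
    · refine Set.disjoint_left.2 ?_
      rintro _ ⟨a, ha, rfl⟩ ⟨v, hv, a', ha', h⟩
      rcases Sym2.eq_iff.1 h with ⟨h1, _⟩ | ⟨h1, _⟩
      · exact hw (h1 ▸ hv)
      · exact hR w (Finset.mem_insert_self _ _) (h1 ▸ ha')
    · intro ω ω' h
      simp only [Set.mem_iInter, eq_iff_iff]
      refine forall₂_congr fun v hv => ?_
      exact eq_iff_iff.1 (hE v fun e ⟨a, ha, he⟩ => h e ⟨v, hv, a, ha, he⟩)

lemma dep_Nn {v : Fin n} {A U : Finset (Fin n)} (h : A ⊆ U) {ω ω' : Sym2 (Fin n) → Prop}
    (hω : ∀ e ∈ {e | ∃ a ∈ U, e = s(v, a)}, ω e = ω' e) : ω ∈ Nn v A ↔ ω' ∈ Nn v A :=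
  forall₂_congr fun a ha => by rw [hω _ ⟨a, h ha, rfl⟩]

def DomE (A : Finset (Fin n)) : Set (Sym2 (Fin n) → Prop) := {ω | Dominating (gr ω) A}

lemma mem_DomE {A : Finset (Fin n)} {ω : Sym2 (Fin n) → Prop} :
    ω ∈ DomE A ↔ ∀ v, v ∉ A → ω ∉ Nn v A := by
  simp only [DomE, Dominating, gr, Nn, Set.mem_ofPred_eq, SimpleGraph.fromEdgeSet_adj, not_forall,
    not_not]
  refine forall₂_congr fun v hv => ⟨fun ⟨u, hu, h, _⟩ => ⟨u, hu, h⟩,
    fun ⟨u, hu, h⟩ => ⟨u, hu, h, fun e => hv (e ▸ hu)⟩⟩

lemma P_Dom (p : I) (A : Finset (Fin n)) :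
    (PP n p).real (DomE A) = (1 - (1 - p : ℝ) ^ A.card) ^ (n - A.card) := by
  have : DomE A = ⋂ v ∈ Aᶜ, (Nn v A)ᶜ := by
    ext ω; simp [mem_DomE]
  rw [this, P_inter p A (fun v => (Nn v A)ᶜ)
    (fun v ω ω' h => propext (not_congr (dep_Nn subset_rfl h))) Aᶜ
    (fun v hv => by simpa using hv), Finset.prod_congr rfl (g := fun _ => 1 - (1 - p : ℝ) ^ A.card),
    Finset.prod_const, Finset.card_compl, Fintype.card_fin]
  intro v hv
  rw [probReal_compl_eq_one_sub (ms _), P_Nn p (by simpa using hv)]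

lemma P_Dom2 (p : I) {A B : Finset (Fin n)} {k : ℕ} (hA : A.card = k) (hB : B.card = k) :
    (PP n p).real (DomE A ∩ DomE B) ≤
      (1 - 2 * (1 - p : ℝ) ^ k + (1 - p : ℝ) ^ k * (1 - p : ℝ) ^ (B \ A).card) ^
        (n - k - (B \ A).card) := by
  have hc : (A ∪ B).card = k + (B \ A).card := by
    rw [← hA, add_comm, Finset.card_sdiff_add_card, Finset.union_comm]
  have : DomE A ∩ DomE B ⊆ ⋂ v ∈ (A ∪ B)ᶜ, (Nn v A ∪ Nn v B)ᶜ := by
    rintro ω ⟨h1, h2⟩
    simp only [Set.mem_iInter, Finset.mem_compl, Finset.mem_union, not_or, Set.mem_compl_iff,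
      Set.mem_union]
    exact fun v hv => ⟨mem_DomE.1 h1 v hv.1, mem_DomE.1 h2 v hv.2⟩
  refine (measureReal_mono this).trans (le_of_eq ?_)
  rw [P_inter p (A ∪ B) (fun v => (Nn v A ∪ Nn v B)ᶜ) (fun v ω ω' h => propext (not_congr (or_congr
      (dep_Nn Finset.subset_union_left h) (dep_Nn Finset.subset_union_right h)))) (A ∪ B)ᶜ
    (fun v hv => by simpa using hv), Finset.prod_congr rfl (g := fun _ =>
      1 - 2 * (1 - p : ℝ) ^ k + (1 - p : ℝ) ^ k * (1 - p : ℝ) ^ (B \ A).card),
    Finset.prod_const, Finset.card_compl, Fintype.card_fin, hc, Nat.sub_sub]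
  intro v hv
  have hv' : v ∉ A ∪ B := by simpa using hv
  have h1 := measureReal_union_add_inter (μ := PP n p) (s := Nn v A) (ms (Nn v B))
  have h2 : Nn v A ∩ Nn v B = Nn v (A ∪ B) := by
    ext ω; simp [Nn, or_imp, forall_and]
  rw [h2, P_Nn p hv', P_Nn p (fun h => hv' (Finset.mem_union_left _ h)),
    P_Nn p (fun h => hv' (Finset.mem_union_right _ h)), hA, hB, hc, pow_add] at h1
  rw [probReal_compl_eq_one_sub (ms _)]
  linarith

lemma count_small (A : Finset (Fin n)) (k J : ℕ) (hA : A.card = k) (hn : 2 ≤ n) :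
    ((Finset.powersetCard k Finset.univ).filter
      (fun B : Finset (Fin n) => (B \ A).card < J)).card ≤ n ^ (4 * J) := by
  set T := (Finset.range J).biUnion
    (fun j => Finset.powersetCard j (Finset.univ : Finset (Fin n))) with hT
  have h1 : T.card ≤ n ^ (2 * J) := by
    refine Finset.card_biUnion_le.trans ?_
    calc ∑ j ∈ Finset.range J, (Finset.powersetCard j (Finset.univ : Finset (Fin n))).card
        ≤ ∑ j ∈ Finset.range J, n ^ J := Finset.sum_le_sum fun j hj => by
          rw [Finset.card_powersetCard, Finset.card_univ, Fintype.card_fin]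
          exact (Nat.choose_le_pow _ _).trans
            (Nat.pow_le_pow_right (by omega) (Finset.mem_range.1 hj).le)
      _ = J * n ^ J := by simp
      _ ≤ n ^ J * n ^ J := Nat.mul_le_mul_right _
          (Nat.lt_two_pow_self.le.trans (Nat.pow_le_pow_left hn J))
      _ = _ := by ring
  have hm : ∀ C : Finset (Fin n), C.card < J → C ∈ T := fun C hC => by simp [hT, hC]
  calc _ ≤ (T ×ˢ T).card := by
        refine Finset.card_le_card_of_injOn (fun B => (A \ B, B \ A)) (fun B hB => ?_) ?_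
        · simp only [Finset.coe_filter, Finset.mem_powersetCard, Set.mem_ofPred_eq] at hB
          have := Finset.card_sdiff_comm (s := A) (t := B) (by omega)
          exact Finset.mem_coe.2 (Finset.mem_product.2 ⟨hm _ (by dsimp only; omega), hm _ hB.2⟩)
        · intro B _ C _ h
          obtain ⟨h1, h2⟩ := Prod.ext_iff.1 h
          ext x
          have h3 := congrArg (x ∈ ·) h1
          have h4 := congrArg (x ∈ ·) h2
          simp only [Finset.mem_sdiff, eq_iff_iff] at h3 h4
          tauto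
    _ ≤ n ^ (2 * J) * n ^ (2 * J) := by rw [Finset.card_product]; exact Nat.mul_le_mul h1 h1
    _ = _ := by ring

lemma prob_lower (p : I) {k m J : ℕ} (hn : 2 ≤ n) (hm : 0 < m) {c1 c2 μ : ℝ} (h1 : 0 ≤ c1)
    (h2 : 0 ≤ c2) (x P : ℝ) (hx : x = (1 - p : ℝ) ^ k) (hP : P = (1 - x) ^ (n - k))
    (hl : 1 ≤ n.choose k * P) (hu : n.choose k * P ≤ μ)
    (ga : ∀ j, 1 ≤ j → j < J → (n : ℝ) ^ (4 * J) * (1 - 2 * x + x * (1 - p : ℝ) ^ j) ^ (n - k - j) ≤
      c1 * P)
    (gb : ∀ j, J ≤ j → j ≤ k → (1 - 2 * x + x * (1 - p : ℝ) ^ j) ^ (n - k - j) ≤ c2 * P ^ 2) :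
    1 / (μ * (1 + c1 + c2 * μ)) - μ / m ≤
      (PP n p).real {ω | 1 ≤ (fam (gr ω) k).card ∧ (fam (gr ω) k).card < m} := by
  classical
  set K := Finset.powersetCard k (Finset.univ : Finset (Fin n)) with hK
  have hKc : (K.card : ℝ) = n.choose k := by simp [hK]
  have hKm : ∀ A ∈ K, A.card = k := fun A hA => (Finset.mem_powersetCard.1 hA).2
  have hP0 : 0 ≤ P := by
    by_contra h
    nlinarith [Nat.cast_nonneg (α := ℝ) (n.choose k)]
  set C := μ * (1 + c1 + c2 * μ) with hC
  have hμ : 1 ≤ μ := hl.trans hu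
  have hC0 : 0 < C := by positivity
  let X : (Sym2 (Fin n) → Prop) → ℝ := fun ω => ∑ A ∈ K, (DomE A).indicator 1 ω
  have hX : ∀ ω, X ω = (fam (gr ω) k).card := by
    intro ω
    simp only [X, fam, Set.indicator, DomE, Set.mem_ofPred_eq, Pi.one_apply, Finset.sum_boole]
    rfl
  have int : ∀ f : (Sym2 (Fin n) → Prop) → ℝ, Integrable f (PP n p) := fun f => Integrable.of_finite
  have e1 : ∫ ω, X ω ∂PP n p = n.choose k * P := by
    rw [integral_finsetSum _ fun _ _ => int _, Finset.sum_congr rfl (g := fun _ => P),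
      Finset.sum_const, nsmul_eq_mul, hKc]
    intro A hA
    rw [integral_indicator_one (ms _), P_Dom, hKm A hA, hP, hx]
  have e2 : ∫ ω, X ω ^ 2 ∂PP n p ≤ C := by
    have : ∀ ω, X ω ^ 2 = ∑ A ∈ K, ∑ B ∈ K, (DomE A ∩ DomE B).indicator 1 ω := by
      intro ω
      simp only [X, sq, Finset.sum_mul_sum, Set.inter_indicator_one, Pi.mul_apply]
    simp only [this]
    rw [integral_finsetSum _ fun _ _ => int _]
    have inner : ∀ A ∈ K, ∫ ω, ∑ B ∈ K, (DomE A ∩ DomE B).indicator (1 : (Sym2 (Fin n) → Prop) → ℝ) ω ∂PP n p ≤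
        P * (1 + c1 + c2 * μ) := by
      intro A hA
      rw [integral_finsetSum _ fun _ _ => int _]
      have hn0 : (0 : ℝ) < (n : ℝ) ^ (4 * J) := by positivity
      calc ∑ B ∈ K, ∫ ω, (DomE A ∩ DomE B).indicator (1 : (Sym2 (Fin n) → Prop) → ℝ) ω ∂PP n p
          ≤ ∑ B ∈ K, ((if B = A then P else 0) +
            (if (B \ A).card < J then c1 * P / (n : ℝ) ^ (4 * J) else 0) + c2 * P ^ 2) := by
            refine Finset.sum_le_sum fun B hB => ?_
            rw [integral_indicator_one (ms _)]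
            have t1 : 0 ≤ (if B = A then P else 0) := by split_ifs <;> positivity
            have t2 : 0 ≤ (if (B \ A).card < J then c1 * P / (n : ℝ) ^ (4 * J) else 0) := by
              split_ifs <;> positivity
            have t3 : 0 ≤ c2 * P ^ 2 := by positivity
            have t4 := P_Dom2 p (hKm A hA) (hKm B hB)
            rw [← hx] at t4
            by_cases hBA : B = A
            · rw [hBA, Set.inter_self, P_Dom, hKm A hA, ← hx, ← hP, if_pos rfl]
              rw [hBA] at t2
              linarith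
            · have hj : 1 ≤ (B \ A).card := Finset.card_pos.2 (Finset.sdiff_nonempty.2 fun h =>
                hBA (Finset.eq_of_subset_of_card_le h (by rw [hKm A hA, hKm B hB])))
              by_cases hJ : (B \ A).card < J
              · have := ga _ hj hJ
                rw [if_pos hJ]
                rw [mul_comm, ← le_div_iff₀ hn0] at this
                linarith
              · have := gb _ (not_lt.1 hJ)
                  ((Finset.card_le_card Finset.sdiff_subset).trans (hKm B hB).le)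
                linarith
        _ ≤ P + c1 * P + μ * (c2 * P) := by
            rw [Finset.sum_add_distrib, Finset.sum_add_distrib, Finset.sum_ite_eq' K A, if_pos hA,
              ← Finset.sum_filter, Finset.sum_const, Finset.sum_const, nsmul_eq_mul, nsmul_eq_mul,
              hKc]
            have t5 : ((K.filter (fun B : Finset (Fin n) => (B \ A).card < J)).card : ℝ) ≤
                (n : ℝ) ^ (4 * J) := by exact_mod_cast count_small A k J (hKm A hA) hn
            have t6 := mul_le_mul_of_nonneg_right t5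
              (show 0 ≤ c1 * P / (n : ℝ) ^ (4 * J) by positivity)
            rw [mul_div_cancel₀ _ hn0.ne'] at t6
            have t7 := mul_le_mul_of_nonneg_right hu (show 0 ≤ c2 * P by positivity)
            nlinarith
        _ = _ := by ring
    refine (Finset.sum_le_sum inner).trans ?_
    rw [Finset.sum_const, nsmul_eq_mul, hKc, ← mul_assoc, hC]
    exact mul_le_mul_of_nonneg_right hu (by positivity)
  have hm' : (0 : ℝ) < m := by exact_mod_cast hm
  rw [← integral_indicator_one (ms _)]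
  refine le_trans ?_ (integral_mono (f := fun ω => 2 / C * X ω - 1 / C ^ 2 * X ω ^ 2 - 1 / m * X ω)
    (int _) (int _) fun ω => ?_)
  · rw [integral_sub (int _) (int _), integral_sub (int _) (int _), integral_const_mul,
      integral_const_mul, integral_const_mul, e1]
    have t1 := mul_le_mul_of_nonneg_left e2 (show 0 ≤ 1 / C ^ 2 by positivity)
    have t2 : 1 / C ^ 2 * C = 1 / C := by field_simp
    have t3 := mul_le_mul_of_nonneg_left hl (show 0 ≤ 2 / C by positivity)
    have t4 := mul_le_mul_of_nonneg_left hu (show 0 ≤ 1 / (m : ℝ) by positivity)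
    have t5 : 2 / C * 1 = 2 * (1 / C) := by ring
    have t6 : μ / m = 1 / m * μ := by ring
    linarith
  · simp only [hX]
    set N := (fam (gr ω) k).card with hN
    have t1 : 2 / C * (N : ℝ) - 1 / C ^ 2 * (N : ℝ) ^ 2 ≤ 1 := by
      have : 2 / C * (N : ℝ) - 1 / C ^ 2 * (N : ℝ) ^ 2 = 1 - (N / C - 1) ^ 2 := by
        field_simp; ring
      nlinarith [sq_nonneg (N / C - 1 : ℝ)]
    have t2 : 0 ≤ 1 / (m : ℝ) * N := by positivity
    by_cases h : 1 ≤ N ∧ N < m
    · rw [Set.indicator_of_mem (by exact h)]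
      simp only [Pi.one_apply]; linarith
    · rw [Set.indicator_of_notMem (by exact h)]
      rcases Nat.eq_zero_or_pos N with h0 | h0
      · simp [h0]
      · have : (m : ℝ) ≤ N := by exact_mod_cast (show m ≤ N by omega)
        have : 1 ≤ 1 / (m : ℝ) * N := by rw [one_div, ← div_eq_inv_mul, le_div_iff₀ hm']; linarith
        linarith

end Pool.Agent.H44.MB
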