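import Mathlib

open Real Filter Topology

namespace Pool.Agent.H44.MB

lemma divt (P : ℕ → Prop) {a b : ℕ} (hab : a ≤ b) (ha : P a) (hb : ¬ P b) :
    ∃ n, a ≤ n ∧ n < b ∧ P n ∧ ¬ P (n + 1) := by
  induction hab with
  | refl => exact absurd ha hb
  | @step m hm ih =>
    by_cases h : P m
    · exact ⟨m, hm, Nat.lt_succ_self m, h, hb⟩
    · obtain ⟨n, h1, h2, h3⟩ := ih h
      exact ⟨n, h1, by omega, h3⟩

lemma core {p q x : ℝ} {k J : ℕ} (hp0 : 0 < p) (hp1 : p < 1) (hq : q = 1 - p) (hx : x = q ^ k)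
    (E1 : 2 ≤ k) (E2 : 8 * k ^ 2 * x ≤ 1) (E3 : 3 - log q < k) (E4 : 4 * (k ^ 3 + 1) * q ^ J ≤ 1)
    (E5 : -log p ≤ k / 4) (E6 : (J : ℝ) ≤ p * k / 32) :
    ∃ n : ℕ, 2 * k ≤ n ∧ 1 ≤ n.choose k * (1 - x) ^ (n - k) ∧
      n.choose k * (1 - x) ^ (n - k) ≤ 1 / p ∧
      (∀ j, 1 ≤ j → j < J → (n : ℝ) ^ (4 * J) * (1 - 2 * x + x * q ^ j) ^ (n - k - j) ≤
        2 * exp 1 * (1 - x) ^ (n - k)) ∧
      ∀ j, J ≤ j → j ≤ k → (1 - 2 * x + x * q ^ j) ^ (n - k - j) ≤
        4 * exp 1 * ((1 - x) ^ (n - k)) ^ 2 := by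
  have hq0 : 0 < q := by linarith
  have hq1 : q < 1 := by linarith
  have hk : (2 : ℝ) ≤ k := by exact_mod_cast E1
  have hx0 : 0 < x := by rw [hx]; positivity
  have hkx : k * x ≤ 1 / 16 := by nlinarith
  have hx1 : x ≤ 1 / 32 := by nlinarith
  have hxq : x ≤ q := by rw [hx]; exact pow_le_of_le_one hq0.le hq1.le (by omega)
  have bern : ∀ M : ℕ, M * x ≤ 1 / 2 → 1 / 2 ≤ (1 - x) ^ M := fun M hM => by
    have := one_add_mul_le_pow (a := -x) (by linarith) M
    rw [← sub_eq_add_neg] at this; linarith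
  obtain ⟨n, n1, n2, n3, n4⟩ := divt (fun n => 1 ≤ n.choose k * (1 - x) ^ (n - k))
    (a := k + ⌊1 / (2 * x)⌋₊) (b := k + ⌈k ^ 3 / x⌉₊) (by
      refine Nat.add_le_add_left (Nat.cast_le (α := ℝ).1 ((Nat.floor_le (by positivity)).trans
        (le_trans ?_ (Nat.le_ceil _)))) _
      rw [div_le_div_iff₀ (by positivity) hx0]
      have : (1 : ℝ) ≤ k ^ 3 := one_le_pow₀ (by linarith)
      nlinarith) (by
      have h1 : 1 ≤ ⌊1 / (2 * x)⌋₊ := Nat.le_floor (by
        rw [Nat.cast_one, le_div_iff₀ (by positivity)]; linarith)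
      have h2 : 2 ≤ (k + ⌊1 / (2 * x)⌋₊).choose k :=
        le_trans (by rw [Nat.choose_succ_self_right]; omega)
          (Nat.choose_le_choose k (show k + 1 ≤ _ by omega))
      have h3 := bern ⌊1 / (2 * x)⌋₊ (by
        have := Nat.floor_le (show 0 ≤ 1 / (2 * x) by positivity)
        rw [le_div_iff₀ (by positivity)] at this; linarith)
      have h4 : (2 : ℝ) ≤ (k + ⌊1 / (2 * x)⌋₊).choose k := by exact_mod_cast h2
      simp only [Nat.add_sub_cancel_left]
      nlinarith) (by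
      simp only [Nat.add_sub_cancel_left, not_le]
      set M := ⌈k ^ 3 / x⌉₊ with hM
      have h1 : k ^ 3 / x ≤ M := Nat.le_ceil _
      have h2 : (M : ℝ) < k ^ 3 / x + 1 := Nat.ceil_lt_add_one (by positivity)
      have h3 : (1 - x) ^ M ≤ exp (-k ^ 3) := by
        calc (1 - x) ^ M ≤ exp (-x) ^ M :=
              pow_le_pow_left₀ (by linarith) (by linarith [add_one_le_exp (-x)]) M
          _ ≤ _ := by
              rw [← exp_nat_mul]; rw [div_le_iff₀ hx0] at h1; exact exp_le_exp.2 (by linarith)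
      have h4 : ((k + M : ℕ) : ℝ) < exp (k ^ 2) := by
        have a1 : (k : ℝ) ^ 3 ≤ k ^ 3 / x := by
          rw [le_div_iff₀ hx0]; exact mul_le_of_le_one_right (by positivity) (by linarith)
        have a2 : (k : ℝ) ≤ k ^ 3 := le_self_pow₀ (by linarith) (by norm_num)
        have a3 : (k : ℝ) + 1 ≤ exp k := add_one_le_exp _
        have a4 : 3 * (k : ℝ) ^ 3 ≤ exp (3 * k) := by
          have : ((k : ℝ) + 1) ^ 3 ≤ exp k ^ 3 := pow_le_pow_left₀ (by positivity) a3 3
          have b1 : (k : ℝ) ^ 2 / 2 ≤ exp k := by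
            have := pow_div_factorial_le_exp (k : ℝ) (by positivity) 2
            simpa using this
          have b2 : exp (3 * (k : ℝ)) = exp k ^ 3 := by rw [← exp_nat_mul]; norm_num
          have b3 : 2 * (k : ℝ) ≤ exp k := by
            have := quadratic_le_exp_of_nonneg (show (0 : ℝ) ≤ k by positivity)
            nlinarith
          have b4 : (2 * (k : ℝ)) ^ 3 ≤ exp k ^ 3 := pow_le_pow_left₀ (by positivity) b3 3
          rw [b2]; nlinarith
        have a5 : 1 / x = exp (-(k * log q)) := by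
          rw [exp_neg, ← log_pow, ← hx, exp_log hx0, one_div]
        have a6 : 3 * (k ^ 3 / x) ≤ exp (3 * k - k * log q) := by
          rw [sub_eq_add_neg, exp_add, ← a5, ← mul_div_assoc, mul_one_div]
          exact div_le_div_of_nonneg_right a4 hx0.le
        have a7 : exp (3 * k - k * log q) ≤ exp (k ^ 2) := exp_le_exp.2 (by nlinarith)
        push_cast
        linarith
      have h5 : ((k + M).choose k : ℝ) ≤ ((k + M : ℕ) : ℝ) ^ k := by
        exact_mod_cast Nat.choose_le_pow _ _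
      have h6 : ((k + M : ℕ) : ℝ) ^ k < exp (k ^ 2) ^ k :=
        pow_lt_pow_left₀ h4 (by positivity) (by omega)
      rw [← exp_nat_mul] at h6
      calc ((k + M).choose k : ℝ) * (1 - x) ^ M ≤ ((k + M : ℕ) : ℝ) ^ k * exp (-k ^ 3) :=
            mul_le_mul h5 h3 (pow_nonneg (by linarith) _) (by positivity)
        _ < exp (k * k ^ 2) * exp (-k ^ 3) := mul_lt_mul_of_pos_right h6 (exp_pos _)
        _ = 1 := by rw [← exp_add, ← exp_zero]; congr 1; ring)
  have hn4 : 4 * (k : ℝ) ^ 2 ≤ n := by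
    have h1 : 1 / (2 * x) < ⌊1 / (2 * x)⌋₊ + 1 := Nat.lt_floor_add_one _
    have h2 : ((k + ⌊1 / (2 * x)⌋₊ : ℕ) : ℝ) ≤ n := by exact_mod_cast n1
    have h3 : 4 * (k : ℝ) ^ 2 ≤ 1 / (2 * x) := by rw [le_div_iff₀ (by positivity)]; linarith
    push_cast at h2
    linarith
  have hn2 : 2 * k ≤ n := by
    have : 2 * (k : ℝ) ≤ n := by nlinarith
    exact_mod_cast this
  have hn2' : 2 * (k : ℝ) ≤ n := by exact_mod_cast hn2
  have hn0 : (0 : ℝ) < n := by linarith
  set P := (1 - x) ^ (n - k) with hP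
  have hP0 : 0 < P := pow_pos (by linarith) _
  have hup : n.choose k * P ≤ 1 / p := by
    have h1 : (n.choose k : ℝ) ≤ (n + 1).choose k := by
      exact_mod_cast Nat.choose_le_choose k n.le_succ
    rw [show n + 1 - k = n - k + 1 by omega, pow_succ, ← hP, not_le] at n4
    rw [le_div_iff₀ hp0]
    have h2 : n.choose k * P * p ≤ (n + 1).choose k * P * (1 - x) :=
      mul_le_mul (mul_le_mul_of_nonneg_right h1 hP0.le) (by linarith) hp0.le (by positivity)
    linarith
  have hnk : ((n - k : ℕ) : ℝ) = n - k := Nat.cast_sub (by omega)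
  have hL : x * (n - k) ≤ k ^ 3 + 1 := by
    have h1 : n - k + 1 ≤ ⌈k ^ 3 / x⌉₊ := by omega
    have h2 : (⌈k ^ 3 / x⌉₊ : ℝ) < k ^ 3 / x + 1 := Nat.ceil_lt_add_one (by positivity)
    have h3 : ((n - k + 1 : ℕ) : ℝ) ≤ ⌈k ^ 3 / x⌉₊ := by exact_mod_cast h1
    rw [Nat.cast_add, hnk, Nat.cast_one] at h3
    have h4 : (n : ℝ) - k ≤ k ^ 3 / x := by linarith
    rw [le_div_iff₀ hx0] at h4
    linarith
  have h2P : ∀ j, j ≤ k → (1 - x) ^ (n - k - j) ≤ 2 * P := by
    intro j hj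
    have hj' : (j : ℝ) ≤ k := by exact_mod_cast hj
    have h1 := bern j (by nlinarith)
    have h2 : P = (1 - x) ^ (n - k - j) * (1 - x) ^ j := by
      rw [← pow_add, hP]; congr 1; omega
    have h3 : 0 ≤ (1 - x) ^ (n - k - j) := pow_nonneg (by linarith) _
    nlinarith
  have hb0 : ∀ j : ℕ, 0 ≤ 1 - 2 * x + x * q ^ j := fun j => by
    have : 0 ≤ x * q ^ j := by positivity
    linarith
  refine ⟨n, hn2, n3, hup, fun j j1 j2 => ?_, fun j j1 j2 => ?_⟩
  · have hJk : (J : ℝ) ≤ k := by nlinarith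
    have hjk : j ≤ k := by
      have : J ≤ k := by exact_mod_cast hJk
      omega
    have hjk' : (j : ℝ) ≤ k := by exact_mod_cast hjk
    have he : ((n - k - j : ℕ) : ℝ) = n - k - j := by rw [Nat.cast_sub (by omega), hnk]
    have a1 : 1 - 2 * x + x * q ^ j ≤ (1 - x) * exp (-(p * x)) := by
      have b1 : q ^ j ≤ q := pow_le_of_le_one hq0.le hq1.le (by omega)
      have b2 := add_one_le_exp (-(p * x))
      have b3 := mul_le_mul_of_nonneg_left b2 (show 0 ≤ 1 - x by linarith)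
      have b4 := mul_le_mul_of_nonneg_left b1 hx0.le
      have b5 : 0 ≤ p * x * x := by positivity
      rw [hq] at b4 ⊢
      nlinarith
    have a2 := pow_le_pow_left₀ (hb0 j) a1 (n - k - j)
    rw [mul_pow, ← exp_nat_mul, he] at a2
    set l := log (n : ℝ) with hl
    have hl1 : 1 ≤ l := by
      rw [hl, le_log_iff_exp_le hn0]; linarith [exp_one_lt_d9]
    have a3 : k * l / 2 ≤ log (n.choose k) := by
      have b1 : ((n + 1 - k : ℕ) : ℝ) ^ k / (k.factorial : ℝ) ≤ n.choose k := Nat.pow_le_choose k n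
      have b2 : (k.factorial : ℝ) ≤ (k : ℝ) ^ k := by exact_mod_cast Nat.factorial_le_pow k
      have b3 : (n : ℝ) / 2 ≤ ((n + 1 - k : ℕ) : ℝ) := by
        rw [Nat.cast_sub (by omega)]; push_cast; linarith
      have b4 : ((n : ℝ) / 2 / k) ^ k ≤ n.choose k := by
        refine le_trans ?_ b1
        rw [div_pow]
        exact div_le_div₀ (by positivity) (pow_le_pow_left₀ (by positivity) b3 k) (by positivity) b2
      have b5 := log_le_log (by positivity) b4
      rw [log_pow] at b5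
      have b6 : l ≤ log (((n : ℝ) / 2 / k) ^ 2) := by
        refine log_le_log hn0 ?_
        rw [div_pow, div_pow, div_div, le_div_iff₀ (by positivity)]
        nlinarith
      rw [log_pow] at b6
      push_cast at b6
      nlinarith
    have a4 : exp (-(2 * x) * (n - k)) ≤ P := by
      rw [← hnk, mul_comm, exp_nat_mul]
      refine pow_le_pow_left₀ (exp_pos _).le ?_ _
      have := add_one_le_exp (2 * x)
      rw [exp_neg, inv_le_iff_one_le_mul₀ (exp_pos _)]
      nlinarith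
    have hN0 : (0 : ℝ) < n.choose k := by exact_mod_cast Nat.choose_pos (by omega)
    have a5 : log (n.choose k) + -(2 * x) * (n - k) ≤ -log p := by
      rw [← exp_le_exp, exp_add, exp_log hN0, exp_neg (log p), exp_log hp0, ← one_div]
      exact (mul_le_mul_of_nonneg_left a4 hN0.le).trans hup
    have a6 : 4 * J * l ≤ p * (x * (n - k)) := by
      have b1 : k * l / 8 ≤ x * (n - k) := by nlinarith
      have b2 := mul_le_mul_of_nonneg_left b1 hp0.le
      have b3 := mul_le_mul_of_nonneg_right E6 (show 0 ≤ l by linarith)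
      linarith
    have a7 : (n : ℝ) ^ (4 * J) * exp ((n - k - j) * -(p * x)) ≤ exp 1 := by
      rw [← exp_log (pow_pos hn0 (4 * J)), log_pow, ← exp_add, ← hl]
      refine exp_le_exp.2 ?_
      push_cast
      have b1 : p * (j * x) ≤ 1 := by nlinarith [mul_le_mul_of_nonneg_right hjk' hx0.le]
      nlinarith
    calc _ ≤ (n : ℝ) ^ (4 * J) * ((2 * P) * exp ((n - k - j) * -(p * x))) :=
          mul_le_mul_of_nonneg_left (a2.trans (mul_le_mul_of_nonneg_right (h2P j hjk)
            (exp_pos _).le)) (by positivity)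
      _ = (2 * P) * ((n : ℝ) ^ (4 * J) * exp ((n - k - j) * -(p * x))) := by ring
      _ ≤ (2 * P) * exp 1 := mul_le_mul_of_nonneg_left a7 (by positivity)
      _ = _ := by ring
  · have he : ((n - k - j : ℕ) : ℝ) ≤ n - k := by rw [← hnk]; exact_mod_cast Nat.sub_le _ _
    have a1 : 1 - 2 * x + x * q ^ j ≤ (1 - x) ^ 2 * exp (4 * x * q ^ J) := by
      have b1 : q ^ j ≤ q ^ J := pow_le_pow_of_le_one hq0.le hq1.le j1
      have b2 := add_one_le_exp (4 * x * q ^ J)
      have b3 := mul_le_mul_of_nonneg_left b2 (sq_nonneg (1 - x))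
      have b4 := mul_le_mul_of_nonneg_left b1 hx0.le
      have b5 : 0 ≤ x * q ^ J := by positivity
      have b6 : 1 / 4 ≤ (1 - x) ^ 2 := by nlinarith
      nlinarith [mul_le_mul_of_nonneg_right b6 b5]
    have a2 := pow_le_pow_left₀ (hb0 j) a1 (n - k - j)
    rw [mul_pow, ← exp_nat_mul, ← pow_mul, mul_comm 2 (n - k - j), pow_mul] at a2
    have a3 : exp ((n - k - j : ℕ) * (4 * x * q ^ J)) ≤ exp 1 := by
      refine exp_le_exp.2 ?_
      have b1 := mul_le_mul_of_nonneg_right he (show 0 ≤ 4 * x * q ^ J by positivity)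
      have b2 := mul_le_mul_of_nonneg_right hL (show 0 ≤ 4 * q ^ J by positivity)
      nlinarith
    have a4 : ((1 - x) ^ (n - k - j)) ^ 2 ≤ (2 * P) ^ 2 :=
      pow_le_pow_left₀ (pow_nonneg (by linarith) _) (h2P j j2) 2
    calc _ ≤ (2 * P) ^ 2 * exp 1 := a2.trans (mul_le_mul a4 a3 (exp_pos _).le (by positivity))
      _ = _ := by ring

lemma conds {p q : ℝ} (hp0 : 0 < p) (hp1 : p < 1) (hq : q = 1 - p) : ∀ᶠ k : ℕ in atTop,
    2 ≤ k ∧ 8 * (k : ℝ) ^ 2 * q ^ k ≤ 1 ∧ 3 - log q < k ∧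
      4 * ((k : ℝ) ^ 3 + 1) * q ^ ⌊p * k / 32⌋₊ ≤ 1 ∧ -log p ≤ k / 4 := by
  have hq0 : 0 < q := by linarith
  have hq1 : q < 1 := by linarith
  have t1 := (tendsto_pow_const_mul_const_pow_of_abs_lt_one 2
    (show |q| < 1 by rwa [abs_of_pos hq0])).eventually (ge_mem_nhds (show (0 : ℝ) < 1 / 8 by norm_num))
  set s := q ^ (p / 32) with hs
  have hs0 : 0 < s := rpow_pos_of_pos hq0 _
  have hs1 : s < 1 := rpow_lt_one hq0.le hq1 (by positivity)
  have t2 := (tendsto_pow_const_mul_const_pow_of_abs_lt_one 3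
    (show |s| < 1 by rwa [abs_of_pos hs0])).eventually (ge_mem_nhds (show (0 : ℝ) < q / 8 by positivity))
  have t3 := tendsto_natCast_atTop_atTop (R := ℝ)
  filter_upwards [eventually_ge_atTop 2, t1, t2, t3.eventually (eventually_gt_atTop (3 - log q)),
    t3.eventually (eventually_ge_atTop (-4 * log p))] with k h1 h2 h3 h4 h5
  refine ⟨h1, by linarith, h4, ?_, by linarith⟩
  have hk : (2 : ℝ) ≤ k := by exact_mod_cast h1
  have a1 : q ^ ⌊p * k / 32⌋₊ * q ≤ s ^ k := by
    rw [← pow_succ, hs, ← rpow_natCast, ← rpow_natCast, ← rpow_mul hq0.le]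
    refine rpow_le_rpow_of_exponent_ge hq0 hq1.le ?_
    have := Nat.lt_floor_add_one (p * k / 32)
    push_cast; linarith
  have a2 : (1 : ℝ) ≤ k ^ 3 := one_le_pow₀ (by linarith)
  refine le_of_mul_le_mul_right ?_ hq0
  have a3 := mul_le_mul_of_nonneg_left a1 (show 0 ≤ 8 * (k : ℝ) ^ 3 by positivity)
  have a4 : 0 ≤ q ^ ⌊p * k / 32⌋₊ * q := by positivity
  nlinarith

end Pool.Agent.H44.MB
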