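import Pool.Agent.H44.MBDefs2
import Pool.Agent.H44.MB1

namespace Pool.Agent.H44.MB

variable {n : ℕ}

noncomputable def pot (F : Finset (Finset (Fin n))) (D S : Finset (Fin n)) : ℝ :=
  ∑ A ∈ F, if Disjoint A S then 2 ^ (A ∩ D).card else 0

noncomputable def wt (F : Finset (Finset (Fin n))) (D S : Finset (Fin n)) (x : Fin n) : ℝ :=
  ∑ A ∈ F, if Disjoint A S ∧ x ∈ A then 2 ^ (A ∩ D).card else 0

lemma beck (W : Finset (Fin n) → Prop) (F : Finset (Finset (Fin n))) (k : ℕ) (Δ : ℝ) (hΔ : 0 ≤ Δ)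
    (hW : ∀ A ∈ F, ∀ D, A ⊆ D → W D) (hk : ∀ A ∈ F, A.card ≤ k)
    (hd : ∀ u v : Fin n, u ≠ v → ((F.filter (fun A => u ∈ A ∧ v ∈ A)).card : ℝ) ≤ Δ) :
    ∀ (t : ℕ) (D S : Finset (Fin n)), (D ∪ S)ᶜ.card ≤ t → t * (Δ * 2 ^ k) < pot F D S →
      Win W 1 t D S := by
  have full : ∀ D S : Finset (Fin n), (D ∪ S)ᶜ = ∅ → 0 < pot F D S → W D := by
    intro D S h hp
    obtain ⟨A, hA, h2⟩ := Finset.exists_ne_zero_of_sum_ne_zero hp.ne'
    have h3 : Disjoint A S := by by_contra hn; exact h2 (if_neg hn)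
    refine hW A hA D fun a ha => ?_
    have : a ∉ (D ∪ S)ᶜ := by rw [h]; simp
    rcases Finset.mem_union.1 (not_not.1 (fun e => this (Finset.mem_compl.2 e)) : a ∈ D ∪ S)
      with h | h
    · exact h
    · exact absurd h (Finset.disjoint_left.1 h3 ha)
  intro t
  induction t with
  | zero =>
    intro D S h hp
    exact full D S (Finset.card_eq_zero.1 (by omega)) (by simpa using hp)
  | succ t ih =>
    intro D S h hp
    rcases ((D ∪ S)ᶜ).eq_empty_or_nonempty with he | hne
    · exact Or.inl (full D S he (lt_of_le_of_lt (by positivity) hp))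
    obtain ⟨x, hx, hmax⟩ := Finset.exists_max_image _ (wt F D S) hne
    have hx' : x ∉ D ∪ S := by simpa using hx
    have hxD : x ∉ D := fun h => hx' (Finset.mem_union_left _ h)
    refine Or.inr ⟨x, hx', Or.inr fun Y hY hc => ih _ _ ?_ ?_⟩
    · have : (insert x D ∪ (S ∪ Y))ᶜ ⊆ ((D ∪ S)ᶜ).erase x := by
        intro a ha
        simp only [Finset.mem_compl, Finset.mem_union, Finset.mem_insert, Finset.mem_erase,
          not_or] at ha ⊢
        tauto
      have h2 := Finset.card_le_card this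
      rw [Finset.card_erase_of_mem hx] at h2
      omega
    · have c1 : ∀ A : Finset (Fin n), x ∈ A → (A ∩ insert x D).card = (A ∩ D).card + 1 := by
        intro A hA
        rw [Finset.inter_insert_of_mem hA, Finset.card_insert_of_notMem (by simp [hxD])]
      have c2 : ∀ A : Finset (Fin n), x ∉ A → (A ∩ insert x D).card = (A ∩ D).card := by
        intro A hA
        rw [Finset.inter_insert_of_notMem hA]
      have hΔk : 0 ≤ Δ * 2 ^ k := by positivity
      push_cast at hp
      rcases Nat.eq_zero_or_pos Y.card with h0 | h0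
      · rw [Finset.card_eq_zero.1 h0, Finset.union_empty]
        have : pot F D S ≤ pot F (insert x D) S := by
          refine Finset.sum_le_sum fun A _ => ?_
          split_ifs
          · exact pow_le_pow_right₀ (by norm_num) (Finset.card_le_card
              (Finset.inter_subset_inter_left (Finset.subset_insert _ _)))
          · rfl
        linarith
      · obtain ⟨y, rfl⟩ := Finset.card_eq_one.1 (le_antisymm hc h0)
        have hy : y ∉ insert x D ∪ S := Finset.disjoint_singleton_left.1 hY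
        simp only [Finset.mem_union, Finset.mem_insert, not_or] at hy
        have h1 := hmax y (by simp [hy.1.2, hy.2])
        have h2 := hd x y (Ne.symm hy.1.1)
        have h3 : pot F D S + wt F D S x - wt F D S y -
            (F.filter (fun A => x ∈ A ∧ y ∈ A)).card * 2 ^ k ≤ pot F (insert x D) (S ∪ {y}) := by
          rw [← nsmul_eq_mul, ← Finset.sum_const, Finset.sum_filter, pot, wt, wt, pot,
            ← Finset.sum_add_distrib, ← Finset.sum_sub_distrib, ← Finset.sum_sub_distrib]
          refine Finset.sum_le_sum fun A hA => ?_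
          have h4 : (2 : ℝ) ^ (A ∩ D).card ≤ 2 ^ k := pow_le_pow_right₀ (by norm_num)
            ((Finset.card_le_card Finset.inter_subset_left).trans (hk A hA))
          simp only [Finset.disjoint_union_right, Finset.disjoint_singleton_right]
          by_cases a : Disjoint A S <;> by_cases b : x ∈ A <;> by_cases c : y ∈ A <;>
            simp [a, b, c, h4]
          rw [Finset.card_insert_of_notMem (by simp [hxD]), pow_succ]
          linarith
        nlinarith [mul_le_mul_of_nonneg_right h2 (show (0 : ℝ) ≤ 2 ^ k by positivity)]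

variable {G : SimpleGraph (Fin n)}

lemma dom_mono {A B : Finset (Fin n)} (h : A ⊆ B) (hA : Dominating G A) : Dominating G B := by
  intro w hw
  obtain ⟨u, hu, h'⟩ := hA w fun h' => hw (h h')
  exact ⟨u, h hu, h'⟩

def NoCherry (G : SimpleGraph (Fin n)) (k : ℕ) : Prop :=
  ∀ A ∈ fam G k, ∀ B ∈ fam G k, (B \ A).card ≠ 1

lemma two_ext {k : ℕ} (h : NoCherry G k) {D : Finset (Fin n)} (hD : D.card + 1 = k) {u v : Fin n}
    (hu : u ∉ D) (hv : v ∉ D) (h1 : Dominating G (insert u D)) (h2 : Dominating G (insert v D)) :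
    u = v := by
  by_contra hne
  refine h (insert u D) (mem_fam.2 ⟨by rw [Finset.card_insert_of_notMem hu, hD], h1⟩)
    (insert v D) (mem_fam.2 ⟨by rw [Finset.card_insert_of_notMem hv, hD], h2⟩) ?_
  rw [Finset.card_eq_one]
  refine ⟨v, ?_⟩
  ext a
  simp only [Finset.mem_sdiff, Finset.mem_insert, Finset.mem_singleton, not_or]
  constructor
  · tauto
  · rintro rfl; exact ⟨Or.inl rfl, fun e => hne e.symm, hv⟩

lemma no_small {k : ℕ} (h : NoCherry G k) (hn : k + 1 ≤ n) {D : Finset (Fin n)} (hD : D.card < k) :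
    ¬ Has G D := by
  rintro ⟨A, hA, hA2⟩
  obtain ⟨E, hE1, hE2⟩ := Finset.exists_superset_card_eq (s := D) (n := k - 1) (by omega)
    (by simp; omega)
  obtain ⟨u, hu, v, hv, huv⟩ := Finset.one_lt_card.1 (show 1 < Eᶜ.card by
    rw [Finset.card_compl, Fintype.card_fin]; omega)
  have hE := dom_mono (hA.trans hE1) hA2
  exact huv (two_ext h (by omega) (by simpa using hu) (by simpa using hv)
    (dom_mono (Finset.subset_insert _ _) hE) (dom_mono (Finset.subset_insert _ _) hE))

lemma slow {k : ℕ} (h : NoCherry G k) (hn : k + 1 ≤ n) : ∀ (t : ℕ) (D S : Finset (Fin n)),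
    D.card + t ≤ k → D.card < k →
    (D.card + 1 = k → ∀ v, v ∉ D → Dominating G (insert v D) → v ∈ S) →
      ¬ Win (Has G) 1 t D S := by
  intro t
  induction t with
  | zero => intro D S _ h2 _; exact no_small h hn h2
  | succ t ih =>
    rintro D S h1 h2 h3 (hw | ⟨v, hv, hw⟩)
    · exact no_small h hn h2 hw
    have hvD : v ∉ D := fun e => hv (Finset.mem_union_left _ e)
    have hvS : v ∉ S := fun e => hv (Finset.mem_union_right _ e)
    have hc := Finset.card_insert_of_notMem hvD
    by_cases hk : D.card + 1 = k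
    · have hno : ¬ Has G (insert v D) := fun ⟨A, hA, hA2⟩ => hvS (h3 hk v hvD (dom_mono hA hA2))
      rcases hw with hw | hw
      · exact hno hw
      · obtain rfl : t = 0 := by omega
        exact hno (hw ∅ (by simp) (by simp))
    · rcases hw with hw | hw
      · exact no_small h hn (by omega) hw
      · by_cases hu : (insert v D).card + 1 = k ∧ ∃ u, u ∉ insert v D ∧
            Dominating G (insert u (insert v D)) ∧ u ∉ S
        · obtain ⟨e, u, a, b, c⟩ := hu
          refine ih _ (S ∪ {u}) (by omega) (by omega) (fun _ w hw1 hw2 => ?_)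
            (hw {u} (by rw [Finset.disjoint_singleton_left, Finset.mem_union]; tauto) (by simp))
          rw [two_ext h e hw1 a hw2 b]; simp
        · refine ih _ (S ∪ ∅) (by omega) (by omega) (fun e w hw1 hw2 => ?_)
            (hw ∅ (by simp) (by simp))
          by_contra hn'
          exact hu ⟨e, w, hw1, hw2, by simpa using hn'⟩

noncomputable def ZZ (G : SimpleGraph (Fin n)) (k : ℕ) : ℝ :=
  ∑ A ∈ fam G k, ∑ B ∈ fam G k, ((A ∩ B).offDiag.card : ℝ)

lemma det2 {k : ℕ} (hk : 2 ≤ k) (hn : k + 1 ≤ n) (h : NoCherry G k) {μ : ℝ} (hμ : 0 < μ)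
    (h1 : μ / 2 < (fam G k).card) (h2 : ZZ G k < μ ^ 2 / (16 * n * 2 ^ k)) :
    sizeMB G 1 < timeMB G 1 := by
  classical
  have hn0 : (0 : ℝ) < n := by exact_mod_cast (show 0 < n by omega)
  set Δ := μ / (4 * n * 2 ^ k) with hΔ
  have hΔ0 : 0 < Δ := by positivity
  let dg : Fin n × Fin n → ℝ := fun e => ((fam G k).filter (fun A => e.1 ∈ A ∧ e.2 ∈ A)).card
  let F := (fam G k).filter (fun A => ∀ e ∈ A.offDiag, dg e ≤ Δ)
  have hFd : ∀ u v : Fin n, u ≠ v → ((F.filter (fun A => u ∈ A ∧ v ∈ A)).card : ℝ) ≤ Δ := by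
    intro u v huv
    rcases (F.filter (fun A => u ∈ A ∧ v ∈ A)).eq_empty_or_nonempty with he | ⟨A, hA⟩
    · rw [he]; simpa using hΔ0.le
    · obtain ⟨hA1, hA2⟩ := Finset.mem_filter.1 hA
      refine le_trans ?_ ((Finset.mem_filter.1 hA1).2 (u, v)
        (Finset.mem_offDiag.2 ⟨hA2.1, hA2.2, huv⟩))
      exact Nat.cast_le.2 (Finset.card_le_card
        (Finset.filter_subset_filter _ (Finset.filter_subset _ _)))
  have hZ : ∀ A, ∑ B ∈ fam G k, ((A ∩ B).offDiag.card : ℝ) = ∑ e ∈ A.offDiag, dg e := by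
    intro A
    simp only [dg, Finset.card_filter, Nat.cast_sum]
    rw [Finset.sum_comm]
    refine Finset.sum_congr rfl fun B _ => ?_
    rw [← Nat.cast_sum, ← Finset.card_filter]
    congr 2
    ext e
    simp only [Finset.mem_offDiag, Finset.mem_inter, Finset.mem_filter]
    tauto
  have hF : ((fam G k).card : ℝ) ≤ F.card + ZZ G k / Δ := by
    rw [ZZ, Finset.sum_div, Finset.card_eq_sum_ones, Finset.card_filter, Nat.cast_sum, Nat.cast_sum,
      ← Finset.sum_add_distrib]
    refine Finset.sum_le_sum fun A _ => ?_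
    rw [hZ]
    have h0 : ∀ e ∈ A.offDiag, 0 ≤ dg e := fun e _ => Nat.cast_nonneg _
    split_ifs with hA
    · have := div_nonneg (Finset.sum_nonneg h0) hΔ0.le
      push_cast; linarith
    · push Not at hA
      obtain ⟨e, he, hlt⟩ := hA
      have := Finset.single_le_sum h0 he
      push_cast
      rw [zero_add, le_div_iff₀ hΔ0]; linarith
  have hZ2 : ZZ G k / Δ < μ / 4 := by
    rw [div_lt_iff₀ hΔ0, hΔ]
    refine h2.trans_eq ?_
    field_simp; norm_num
  have hw := beck (fun D => ∃ A, A ⊆ D ∧ Dominating G A ∧ A.card ≤ k) F k Δ hΔ0.le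
    (fun A hA D hD => ⟨A, hD, (mem_fam.1 (Finset.mem_filter.1 hA).1).2,
      (mem_fam.1 (Finset.mem_filter.1 hA).1).1.le⟩)
    (fun A hA => (mem_fam.1 (Finset.mem_filter.1 hA).1).1.le) hFd n ∅ ∅ (by simp) (by
      have e1 : pot F ∅ ∅ = F.card := by simp [pot]
      have e2 : n * (Δ * 2 ^ k) = μ / 4 := by rw [hΔ]; field_simp
      rw [e1, e2]; linarith)
  have a1 : sizeMB G 1 ≤ k := iInf₂_le_of_le k ⟨n, hw⟩ le_rfl
  have a2 : ((k + 1 : ℕ) : ℕ∞) ≤ timeMB G 1 := le_iInf₂ fun t ht => by
    have : k + 1 ≤ t := by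
      by_contra hlt
      exact slow h hn t ∅ ∅ (by simp; omega) (by simp; omega) (fun e => by simp at e; omega) ht
    exact_mod_cast this
  exact a1.trans_lt (lt_of_lt_of_le (by exact_mod_cast Nat.lt_succ_self k) a2)

end Pool.Agent.H44.MB
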