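import Pool.Agent.H44.MB2
import Pool.Agent.H44.MB4

open MeasureTheory Measure ProbabilityTheory unitInterval

namespace Pool.Agent.H44.MB

variable {n : ℕ}

lemma pair_count {k : ℕ} (hk : 2 ≤ k) (hn : 2 * k ≤ n) (A : Finset (Fin n)) (hA : A.card = k) :
    (n : ℝ) ^ 2 * ∑ B ∈ Finset.powersetCard k (Finset.univ : Finset (Fin n)),
      ((A ∩ B).offDiag.card : ℝ) ≤ 4 * k ^ 4 * n.choose k := by
  obtain ⟨i, rfl⟩ : ∃ i, k = i + 2 := ⟨k - 2, by omega⟩
  have h1 : ∑ B ∈ Finset.powersetCard (i + 2) (Finset.univ : Finset (Fin n)),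
      (A ∩ B).offDiag.card ≤ (i + 2) ^ 2 * n.choose i := by
    calc _ = ∑ B ∈ Finset.powersetCard (i + 2) (Finset.univ : Finset (Fin n)),
          ∑ e ∈ A.offDiag, if e.1 ∈ B ∧ e.2 ∈ B then 1 else 0 := by
          refine Finset.sum_congr rfl fun B _ => ?_
          rw [← Finset.card_filter]
          congr 1
          ext e
          simp only [Finset.mem_offDiag, Finset.mem_inter, Finset.mem_filter]
          tauto
      _ ≤ ∑ e ∈ A.offDiag, n.choose i := by
          rw [Finset.sum_comm]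
          refine Finset.sum_le_sum fun e he => ?_
          rw [← Finset.card_filter]
          have hne := (Finset.mem_offDiag.1 he).2.2
          have : n.choose i = (Finset.powersetCard i (Finset.univ : Finset (Fin n))).card := by simp
          rw [this]
          refine Finset.card_le_card_of_injOn (fun B => (B.erase e.1).erase e.2) (fun B hB => ?_) ?_
          · simp only [Finset.coe_filter, Finset.mem_powersetCard, Set.mem_ofPred_eq] at hB
            refine Finset.mem_coe.2 (Finset.mem_powersetCard.2 ⟨Finset.subset_univ _, ?_⟩)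
            rw [Finset.card_erase_of_mem (Finset.mem_erase.2 ⟨hne.symm, hB.2.2⟩),
              Finset.card_erase_of_mem hB.2.1, hB.1.2]
            omega
          · intro B hB C hC h
            simp only [Finset.coe_filter, Finset.mem_powersetCard, Set.mem_ofPred_eq] at hB hC
            ext a
            have h3 := congrArg (a ∈ ·) h
            simp only [Finset.mem_erase, eq_iff_iff] at h3
            by_cases a1 : a = e.1
            · rw [a1]; tauto
            · by_cases a2 : a = e.2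
              · rw [a2]; tauto
              · tauto
      _ ≤ _ := by
          rw [Finset.sum_const, smul_eq_mul, Finset.offDiag_card, hA]
          exact Nat.mul_le_mul_right _ (by rw [sq]; omega)
  have h2 := Nat.choose_succ_right_eq n i
  have h3 := Nat.choose_succ_right_eq n (i + 1)
  have h4 : n ^ 2 * n.choose i ≤ 4 * (i + 2) ^ 2 * n.choose (i + 2) := by
    have a1 : n ≤ 2 * (n - i) := by omega
    have a2 : n ≤ 2 * (n - (i + 1)) := by omega
    calc n ^ 2 * n.choose i = n * n * n.choose i := by ring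
      _ ≤ (2 * (n - (i + 1))) * (2 * (n - i)) * n.choose i := by gcongr
      _ = 4 * (n - (i + 1)) * (n.choose i * (n - i)) := by ring
      _ = 4 * (i + 1) * (n.choose (i + 1) * (n - (i + 1))) := by rw [← h2]; ring
      _ = 4 * (i + 1) * (n.choose (i + 2) * (i + 2)) := by rw [← h3]
      _ ≤ 4 * (i + 2) * (n.choose (i + 2) * (i + 2)) := by gcongr; omega
      _ = _ := by ring
  have h5 : n ^ 2 * ∑ B ∈ Finset.powersetCard (i + 2) (Finset.univ : Finset (Fin n)),
      (A ∩ B).offDiag.card ≤ 4 * (i + 2) ^ 4 * n.choose (i + 2) :=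
    calc _ ≤ n ^ 2 * ((i + 2) ^ 2 * n.choose i) := Nat.mul_le_mul_left _ h1
      _ = (i + 2) ^ 2 * (n ^ 2 * n.choose i) := by ring
      _ ≤ (i + 2) ^ 2 * (4 * (i + 2) ^ 2 * n.choose (i + 2)) := Nat.mul_le_mul_left _ h4
      _ = _ := by ring
  exact_mod_cast h5

lemma prob2 (p : I) {k J : ℕ} (hk : 2 ≤ k) (hn : 2 * k ≤ n) {c2 η : ℝ}
    (h2 : 0 ≤ c2) (x P μ : ℝ) (hx : x = (1 - p : ℝ) ^ k) (hP : P = (1 - x) ^ (n - k)) (hP0 : 0 < P)
    (hμ : μ = n.choose k * P)
    (ga : ∀ j, j ≤ k → (1 - 2 * x + x * (1 - p : ℝ) ^ j) ^ (n - k - j) ≤ 2 * P)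
    (ga' : 2 * (n : ℝ) ^ (4 * J) * k ^ 2 * n ^ 2 ≤ μ)
    (gb : ∀ j, J ≤ j → j ≤ k → (1 - 2 * x + x * (1 - p : ℝ) ^ j) ^ (n - k - j) ≤ c2 * P ^ 2)
    (g0 : 0 ≤ 1 - 2 * x + x * (1 - p : ℝ) ^ 1)
    (gc : n.choose k * ((n : ℝ) ^ (4 * 2) * (1 - 2 * x + x * (1 - p : ℝ) ^ 1) ^ (n - k - 1)) ≤ η) :
    1 / (4 * (1 + c2)) - 16 * (1 + 4 * c2) * k ^ 4 * 2 ^ k / n - η ≤
      (PP n p).real {ω | μ / 2 < (fam (gr ω) k).card ∧ ZZ (gr ω) k < μ ^ 2 / (16 * n * 2 ^ k) ∧
        NoCherry (gr ω) k} := by
  classical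
  set K := Finset.powersetCard k (Finset.univ : Finset (Fin n)) with hK
  have hKc : (K.card : ℝ) = n.choose k := by simp [hK]
  have hKm : ∀ A ∈ K, A.card = k := fun A hA => (Finset.mem_powersetCard.1 hA).2
  have hN : (0 : ℝ) < n.choose k := by exact_mod_cast Nat.choose_pos (by omega)
  have hμ0 : 0 < μ := by rw [hμ]; positivity
  have hk' : (2 : ℝ) ≤ k := by exact_mod_cast hk
  have hn' : (4 : ℝ) ≤ n := by exact_mod_cast (show 4 ≤ n by omega)
  have int : ∀ f : (Sym2 (Fin n) → Prop) → ℝ, Integrable f (PP n p) := fun f => Integrable.of_finite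
  let S : (Finset (Fin n) → Finset (Fin n) → ℝ) → (Sym2 (Fin n) → Prop) → ℝ := fun c ω =>
    ∑ A ∈ K, ∑ B ∈ K, c A B * (DomE A ∩ DomE B).indicator 1 ω
  have hS : ∀ c ω, S c ω = ∑ A ∈ fam (gr ω) k, ∑ B ∈ fam (gr ω) k, c A B := by
    intro c ω
    simp only [S, fam, Finset.sum_filter, ← hK]
    refine Finset.sum_congr rfl fun A _ => ?_
    by_cases hA : Dominating (gr ω) A
    · rw [if_pos hA]
      refine Finset.sum_congr rfl fun B _ => ?_
      by_cases hB : Dominating (gr ω) B <;> simp [Set.indicator, DomE, hA, hB]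
    · rw [if_neg hA]
      exact Finset.sum_eq_zero fun B _ => by simp [Set.indicator, DomE, hA]
  have hI : ∀ c, ∫ ω, S c ω ∂PP n p = ∑ A ∈ K, ∑ B ∈ K, c A B * (PP n p).real (DomE A ∩ DomE B) := by
    intro c
    simp only [S]
    rw [integral_finsetSum _ fun _ _ => int _]
    refine Finset.sum_congr rfl fun A _ => ?_
    rw [integral_finsetSum _ fun _ _ => int _]
    exact Finset.sum_congr rfl fun B _ => by rw [integral_const_mul, integral_indicator_one (ms _)]
  have hb : ∀ A ∈ K, ∀ B ∈ K, (PP n p).real (DomE A ∩ DomE B) ≤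
      (if (B \ A).card < J then 2 * P else 0) + c2 * P ^ 2 := by
    intro A hA B hB
    have t4 := P_Dom2 p (hKm A hA) (hKm B hB)
    rw [← hx] at t4
    have t5 : (B \ A).card ≤ k := (Finset.card_le_card Finset.sdiff_subset).trans (hKm B hB).le
    split_ifs with h
    · have : 0 ≤ c2 * P ^ 2 := by positivity
      linarith [ga _ t5]
    · linarith [gb _ (not_lt.1 h) t5]
  have hsm : ∀ A ∈ K, ∀ J' : ℕ, ∀ y : ℝ, 0 ≤ y →
      ∑ B ∈ K, (if (B \ A).card < J' then y else 0) ≤ (n : ℝ) ^ (4 * J') * y := by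
    intro A hA J' y hy
    rw [← Finset.sum_filter, Finset.sum_const, nsmul_eq_mul]
    exact mul_le_mul_of_nonneg_right
      (by exact_mod_cast count_small A k J' (hKm A hA) (by omega)) hy
  let X : (Sym2 (Fin n) → Prop) → ℝ := fun ω => ∑ A ∈ K, (DomE A).indicator 1 ω
  have hX : ∀ ω, X ω = (fam (gr ω) k).card := by
    intro ω
    simp only [X, fam, Set.indicator, DomE, Set.mem_ofPred_eq, Pi.one_apply, Finset.sum_boole]
    rfl
  have e1 : ∫ ω, X ω ∂PP n p = μ := by
    rw [integral_finsetSum _ fun _ _ => int _, Finset.sum_congr rfl (g := fun _ => P),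
      Finset.sum_const, nsmul_eq_mul, hKc, hμ]
    intro A hA
    rw [integral_indicator_one (ms _), P_Dom, hKm A hA, hP, hx]
  have hnJ : (0 : ℝ) ≤ (n : ℝ) ^ (4 * J) := by positivity
  have e2 : ∫ ω, S (fun _ _ => 1) ω ∂PP n p ≤ (1 + c2) * μ ^ 2 := by
    rw [hI]
    calc _ ≤ ∑ A ∈ K, (μ * P + c2 * μ * P) := Finset.sum_le_sum fun A hA => by
          refine (Finset.sum_le_sum fun B hB => (one_mul _).le.trans (hb A hA B hB)).trans ?_
          rw [Finset.sum_add_distrib, Finset.sum_const, nsmul_eq_mul, hKc]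
          have t1 := hsm A hA J (2 * P) (by positivity)
          have t2 : 2 * (n : ℝ) ^ (4 * J) ≤ μ := by
            refine le_trans ?_ ga'
            rw [mul_assoc (2 * (n : ℝ) ^ (4 * J))]
            exact le_mul_of_one_le_right (by positivity) (by nlinarith [mul_nonneg (sq_nonneg (k : ℝ)) (sq_nonneg (n : ℝ)), mul_le_mul (show (1 : ℝ) ≤ k ^ 2 by nlinarith) (show (1 : ℝ) ≤ n ^ 2 by nlinarith) zero_le_one (sq_nonneg _)])
          have t3 := mul_le_mul_of_nonneg_right t2 hP0.le
          rw [hμ] at t3 ⊢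
          nlinarith
      _ = _ := by rw [Finset.sum_const, nsmul_eq_mul, hKc, hμ]; ring
  have e3 : ∫ ω, S (fun A B => ((A ∩ B).offDiag.card : ℝ)) ω ∂PP n p ≤
      (1 + 4 * c2) * k ^ 4 * μ ^ 2 / n ^ 2 := by
    rw [hI]
    calc _ ≤ ∑ A ∈ K, ((1 + 4 * c2) * k ^ 4 * μ * P / n ^ 2) := Finset.sum_le_sum fun A hA => by
          have t0 : ∀ B, ((A ∩ B).offDiag.card : ℝ) ≤ k ^ 2 := fun B => by
            have a1 : (A ∩ B).card ≤ k :=
              (Finset.card_le_card Finset.inter_subset_left).trans (hKm A hA).le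
            have a2 : (A ∩ B).offDiag.card ≤ k ^ 2 := by
              rw [Finset.offDiag_card, sq]
              exact (Nat.sub_le _ _).trans (Nat.mul_le_mul a1 a1)
            exact_mod_cast a2
          refine (Finset.sum_le_sum (g := fun B => (if (B \ A).card < J then k ^ 2 * (2 * P) else 0) +
            c2 * P ^ 2 * ((A ∩ B).offDiag.card : ℝ)) fun B hB => ?_).trans ?_
          · refine (mul_le_mul_of_nonneg_left (hb A hA B hB) (Nat.cast_nonneg _)).trans ?_
            split_ifs
            · nlinarith [mul_le_mul_of_nonneg_right (t0 B) hP0.le]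
            · nlinarith
          · rw [Finset.sum_add_distrib, ← Finset.mul_sum, le_div_iff₀ (by positivity)]
            have t1 := mul_le_mul_of_nonneg_right (hsm A hA J (k ^ 2 * (2 * P)) (by positivity))
              (sq_nonneg (n : ℝ))
            have t2 := mul_le_mul_of_nonneg_left (pair_count hk hn A (hKm A hA))
              (show 0 ≤ c2 * P ^ 2 by positivity)
            have t3 := mul_le_mul_of_nonneg_right ga' hP0.le
            have t4 : μ * P ≤ k ^ 4 * (μ * P) :=
              le_mul_of_one_le_left (by positivity) (one_le_pow₀ (by linarith))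
            rw [← hK] at t2
            have t5 : c2 * P ^ 2 * (4 * k ^ 4 * n.choose k) = 4 * c2 * k ^ 4 * μ * P := by
              rw [hμ]; ring
            nlinarith
      _ = _ := by rw [Finset.sum_const, nsmul_eq_mul, hKc, hμ]; ring
  have e4 : ∫ ω, S (fun A B => if (B \ A).card = 1 then 1 else 0) ω ∂PP n p ≤ η := by
    rw [hI]
    refine le_trans ?_ gc
    rw [← hKc, ← nsmul_eq_mul, ← Finset.sum_const]
    refine Finset.sum_le_sum fun A hA => le_trans (Finset.sum_le_sum fun B hB => ?_)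
      (hsm A hA 2 _ (pow_nonneg g0 _))
    have t4 := P_Dom2 p (hKm A hA) (hKm B hB)
    rw [← hx] at t4
    by_cases h : (B \ A).card = 1
    · rw [if_pos h, if_pos (by omega), one_mul]; rwa [h] at t4
    · rw [if_neg h, zero_mul]; split_ifs
      · exact pow_nonneg g0 _
      · rfl
  set s := 1 / (2 * (1 + c2)) with hs
  have hs0 : 0 < s := by positivity
  set w := 16 * (n : ℝ) * 2 ^ k / μ ^ 2 with hw
  have hw0 : 0 < w := by positivity
  rw [← integral_indicator_one (ms _)]
  refine le_trans ?_ (integral_mono (f := fun ω => 2 * s / μ * X ω -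
      s ^ 2 / μ ^ 2 * S (fun _ _ => 1) ω - s - w * S (fun A B => ((A ∩ B).offDiag.card : ℝ)) ω -
      S (fun A B => if (B \ A).card = 1 then 1 else 0) ω) (int _) (int _) fun ω => ?_)
  · rw [integral_sub (int _) (int _), integral_sub (int _) (int _), integral_sub (int _) (int _),
      integral_sub (int _) (int _), integral_const_mul, integral_const_mul, integral_const_mul, e1]
    simp only [integral_const, probReal_univ, smul_eq_mul, one_mul]
    have t1 := mul_le_mul_of_nonneg_left e2 (show 0 ≤ s ^ 2 / μ ^ 2 by positivity)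
    have t2 := mul_le_mul_of_nonneg_left e3 hw0.le
    have t3 : s ^ 2 / μ ^ 2 * ((1 + c2) * μ ^ 2) = 1 / (4 * (1 + c2)) := by
      rw [hs]; field_simp; norm_num
    have t4 : w * ((1 + 4 * c2) * k ^ 4 * μ ^ 2 / n ^ 2) =
        16 * (1 + 4 * c2) * k ^ 4 * 2 ^ k / n := by rw [hw]; field_simp
    have t5 : 2 * s / μ * μ = 2 * s := by field_simp
    have t6 : s = 2 * (1 / (4 * (1 + c2))) := by rw [hs]; field_simp; norm_num
    linarith
  · simp only [hX, hS]
    set N : ℝ := ((fam (gr ω) k).card : ℝ) with hNd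
    have a1 : ∑ A ∈ fam (gr ω) k, ∑ B ∈ fam (gr ω) k, (1 : ℝ) = N ^ 2 := by simp [hNd, sq]
    have a2 : 0 ≤ ZZ (gr ω) k :=
      Finset.sum_nonneg fun _ _ => Finset.sum_nonneg fun _ _ => Nat.cast_nonneg _
    have a3 : ∀ A ∈ fam (gr ω) k, ∀ B ∈ fam (gr ω) k,
        (0 : ℝ) ≤ if (B \ A).card = 1 then 1 else 0 := fun _ _ _ _ => by split_ifs <;> norm_num
    have a4 := Finset.sum_nonneg fun A hA => Finset.sum_nonneg (a3 A hA)
    have a5 : 2 * s / μ * N - s ^ 2 / μ ^ 2 * N ^ 2 ≤ 1 := by
      have : 2 * s / μ * N - s ^ 2 / μ ^ 2 * N ^ 2 = 1 - (s * N / μ - 1) ^ 2 := by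
        field_simp; ring
      nlinarith [sq_nonneg (s * N / μ - 1)]
    have a6 := mul_nonneg hw0.le a2
    rw [a1]
    change _ - w * ZZ (gr ω) k - _ ≤ _
    by_cases h : μ / 2 < N ∧ ZZ (gr ω) k < μ ^ 2 / (16 * n * 2 ^ k) ∧ NoCherry (gr ω) k
    · rw [Set.indicator_of_mem (by exact h)]
      simp only [Pi.one_apply]; linarith
    · rw [Set.indicator_of_notMem (by exact h)]
      by_cases b1 : μ / 2 < N
      · by_cases b2 : ZZ (gr ω) k < μ ^ 2 / (16 * n * 2 ^ k)
        · have b3 : ¬ NoCherry (gr ω) k := fun e => h ⟨b1, b2, e⟩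
          unfold NoCherry at b3
          push Not at b3
          obtain ⟨A, hA, B, hB, e⟩ := b3
          have b4 := (Finset.single_le_sum (a3 A hA) hB).trans
            (Finset.single_le_sum (fun A hA => Finset.sum_nonneg (a3 A hA)) hA)
          rw [if_pos e] at b4
          linarith
        · have b3 := mul_le_mul_of_nonneg_left (not_lt.1 b2) hw0.le
          have b4 : w * (μ ^ 2 / (16 * n * 2 ^ k)) = 1 := by rw [hw]; field_simp
          linarith
      · have b3 : 2 * s / μ * N ≤ s := by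
          rw [div_mul_eq_mul_div, div_le_iff₀ hμ0]; nlinarith [not_lt.1 b1]
        have b4 : 0 ≤ s ^ 2 / μ ^ 2 * N ^ 2 := by positivity
        linarith

end Pool.Agent.H44.MB
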