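import Pool.Agent.H44.MB3

open Real Filter Topology

namespace Pool.Agent.H44.MB

lemma core2 {q x : ℝ} {k J n : ℕ} (hq : q = 1 / 4) (hx : x = q ^ k) (hn : n = k ^ 2 * 4 ^ k)
    (E1 : 60 ≤ k) (E2 : 8 * k ^ 2 * x ≤ 1) (E4 : 4 * (k ^ 3 + 1) * q ^ J ≤ 1)
    (E6 : (J : ℝ) ≤ 3 / 4 * k / 32) (E7 : (k : ℝ) ^ 2 ≤ exp (k / 10)) :
    2 * k ≤ n ∧ 0 < (1 - x) ^ (n - k) ∧
      (∀ j, j ≤ k → (1 - 2 * x + x * q ^ j) ^ (n - k - j) ≤ 2 * (1 - x) ^ (n - k)) ∧
      2 * (n : ℝ) ^ (4 * J) * k ^ 2 * n ^ 2 ≤ n.choose k * (1 - x) ^ (n - k) ∧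
      (∀ j, J ≤ j → j ≤ k → (1 - 2 * x + x * q ^ j) ^ (n - k - j) ≤
        4 * exp 1 * ((1 - x) ^ (n - k)) ^ 2) ∧ 0 ≤ 1 - 2 * x + x * q ^ 1 ∧
      n.choose k * ((n : ℝ) ^ (4 * 2) * (1 - 2 * x + x * q ^ 1) ^ (n - k - 1)) ≤ exp (-k) := by
  have hq0 : 0 < q := by rw [hq]; norm_num
  have hq1 : q < 1 := by rw [hq]; norm_num
  have hk : (60 : ℝ) ≤ k := by exact_mod_cast E1
  have hx0 : 0 < x := by rw [hx]; positivity
  have hkx : k * x ≤ 1 / 16 := by nlinarith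
  have hx1 : x ≤ 1 / 32 := by nlinarith
  have hnr : (n : ℝ) = k ^ 2 * 4 ^ k := by rw [hn]; push_cast; ring
  have hnx : n * x = k ^ 2 := by
    rw [hnr, hx, hq, mul_assoc, ← mul_pow]; norm_num
  have h4k : (4 : ℝ) ≤ 4 ^ k := le_self_pow₀ (by norm_num) (by omega)
  have hn2' : 2 * (k : ℝ) ^ 2 ≤ n := by rw [hnr]; nlinarith
  have hn2'' : 2 * (k : ℝ) ≤ n := by nlinarith
  have hn2 : 2 * k ≤ n := by exact_mod_cast hn2''
  have hn0 : (0 : ℝ) < n := by linarith
  have l4 : (4 : ℝ) ^ k = exp (k * (2 * log 2)) := by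
    rw [exp_nat_mul, show 2 * log 2 = log 4 by
      rw [show (4 : ℝ) = 2 ^ 2 by norm_num, log_pow]; norm_num, exp_log (by norm_num)]
  have l2a := log_two_lt_d9
  have l2b := log_two_gt_d9
  have hne : (n : ℝ) ≤ exp (3 / 2 * k) := by
    rw [hnr, l4]
    refine (mul_le_mul_of_nonneg_right E7 (exp_pos _).le).trans ?_
    rw [← exp_add]; exact exp_le_exp.2 (by nlinarith)
  have hpow : ∀ M : ℕ, (n : ℝ) ^ M ≤ exp (M * (3 / 2 * k)) := fun M => by
    rw [exp_nat_mul]; exact pow_le_pow_left₀ hn0.le hne M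
  set P := (1 - x) ^ (n - k) with hP
  have hP0 : 0 < P := pow_pos (by linarith) _
  have hnk : ((n - k : ℕ) : ℝ) = n - k := Nat.cast_sub (by omega)
  have h2P : ∀ j, j ≤ k → (1 - x) ^ (n - k - j) ≤ 2 * P := by
    intro j hj
    have hj' : (j : ℝ) ≤ k := by exact_mod_cast hj
    have h1 : 1 / 2 ≤ (1 - x) ^ j := by
      have := one_add_mul_le_pow (a := -x) (by linarith) j
      rw [← sub_eq_add_neg] at this
      linarith [mul_le_mul_of_nonneg_right hj' hx0.le]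
    have h2 : P = (1 - x) ^ (n - k - j) * (1 - x) ^ j := by
      rw [← pow_add, hP]; congr 1; omega
    have h3 : 0 ≤ (1 - x) ^ (n - k - j) := pow_nonneg (by linarith) _
    linarith [mul_le_mul_of_nonneg_left h1 h3]
  have hb0 : ∀ j : ℕ, 0 ≤ 1 - 2 * x + x * q ^ j := fun j => by
    have : 0 ≤ x * q ^ j := by positivity
    linarith
  refine ⟨hn2, hP0, fun j hj => ?_, ?_, fun j j1 j2 => ?_, hb0 1, ?_⟩
  · refine le_trans (pow_le_pow_left₀ (hb0 j) ?_ _) (h2P j hj)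
    have := mul_le_mul_of_nonneg_left (pow_le_one₀ hq0.le hq1.le (n := j)) hx0.le
    linarith
  · have a1 : exp (k * (k * (2 * log 2))) ≤ n.choose k := by
      have b1 : ((n + 1 - k : ℕ) : ℝ) ^ k / (k.factorial : ℝ) ≤ n.choose k := Nat.pow_le_choose k n
      have b2 : (k.factorial : ℝ) ≤ (k : ℝ) ^ k := by exact_mod_cast Nat.factorial_le_pow k
      have b3 : (n : ℝ) / 2 ≤ ((n + 1 - k : ℕ) : ℝ) := by
        rw [Nat.cast_sub (by omega)]; push_cast; linarith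
      have b4 : ((n : ℝ) / 2 / k) ^ k ≤ n.choose k := by
        refine le_trans ?_ b1
        rw [div_pow]
        exact div_le_div₀ (by positivity) (pow_le_pow_left₀ (by positivity) b3 k) (by positivity) b2
      refine le_trans ?_ b4
      rw [exp_nat_mul, ← l4]
      refine pow_le_pow_left₀ (by positivity) ?_ k
      rw [div_div, le_div_iff₀ (by positivity), hnr, mul_comm]
      exact mul_le_mul_of_nonneg_right (by nlinarith) (by positivity)
    have a2 : exp (-(11 / 10 * x) * (n - k)) ≤ P := by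
      rw [← hnk, mul_comm, exp_nat_mul]
      refine pow_le_pow_left₀ (exp_pos _).le ?_ _
      have := mul_le_mul_of_nonneg_left (add_one_le_exp (11 / 10 * x)) (show 0 ≤ 1 - x by linarith)
      rw [exp_neg, inv_le_iff_one_le_mul₀ (exp_pos _)]
      nlinarith
    calc 2 * (n : ℝ) ^ (4 * J) * k ^ 2 * n ^ 2 = (2 * k ^ 2) * ((n : ℝ) ^ (4 * J) * n ^ 2) := by ring
      _ ≤ n * ((n : ℝ) ^ (4 * J) * n ^ 2) := mul_le_mul_of_nonneg_right hn2' (by positivity)
      _ = (n : ℝ) ^ (4 * J + 3) := by ring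
      _ ≤ exp ((4 * J + 3 : ℕ) * (3 / 2 * k)) := hpow _
      _ ≤ exp (k * (k * (2 * log 2))) * exp (-(11 / 10 * x) * (n - k)) := by
          rw [← exp_add]
          refine exp_le_exp.2 ?_
          push_cast
          have c1 := mul_le_mul_of_nonneg_right E6 (show (0 : ℝ) ≤ k by positivity)
          have c2 := mul_le_mul_of_nonneg_left l2b.le (sq_nonneg (k : ℝ))
          have c3 : 0 ≤ k * x := by positivity
          have c4 := mul_le_mul_of_nonneg_right hk (show (0 : ℝ) ≤ k by positivity)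
          nlinarith
      _ ≤ _ := mul_le_mul a1 a2 (exp_pos _).le (by positivity)
  · have he : ((n - k - j : ℕ) : ℝ) ≤ n := by exact_mod_cast (show n - k - j ≤ n by omega)
    have b5 : 0 ≤ x * q ^ J := by positivity
    have a1 : 1 - 2 * x + x * q ^ j ≤ (1 - x) ^ 2 * exp (4 * x * q ^ J) := by
      have b1 : q ^ j ≤ q ^ J := pow_le_pow_of_le_one hq0.le hq1.le j1
      have b2 := add_one_le_exp (4 * x * q ^ J)
      have b3 := mul_le_mul_of_nonneg_left b2 (sq_nonneg (1 - x))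
      have b4 := mul_le_mul_of_nonneg_left b1 hx0.le
      have b6 : 1 / 4 ≤ (1 - x) ^ 2 := by nlinarith
      nlinarith [mul_le_mul_of_nonneg_right b6 b5]
    have a2 := pow_le_pow_left₀ (hb0 j) a1 (n - k - j)
    rw [mul_pow, ← exp_nat_mul, ← pow_mul, mul_comm 2 (n - k - j), pow_mul] at a2
    have a3 : exp ((n - k - j : ℕ) * (4 * x * q ^ J)) ≤ exp 1 := by
      refine exp_le_exp.2 ?_
      have b1 := mul_le_mul_of_nonneg_right he (show 0 ≤ 4 * x * q ^ J by positivity)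
      have b2 : (k : ℝ) ^ 2 ≤ k ^ 3 + 1 := by nlinarith
      have b3 := mul_le_mul_of_nonneg_right b2 (show 0 ≤ 4 * q ^ J by positivity)
      have b4 : n * (4 * x * q ^ J) = k ^ 2 * (4 * q ^ J) := by rw [← hnx]; ring
      linarith
    have a4 : ((1 - x) ^ (n - k - j)) ^ 2 ≤ (2 * P) ^ 2 :=
      pow_le_pow_left₀ (pow_nonneg (by linarith) _) (h2P j j2) 2
    calc _ ≤ (2 * P) ^ 2 * exp 1 := a2.trans (mul_le_mul a4 a3 (exp_pos _).le (by positivity))
      _ = _ := by ring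
  · have a1 : (n.choose k : ℝ) ≤ exp (k * (3 / 2 * k)) :=
      le_trans (by exact_mod_cast Nat.choose_le_pow n k) (hpow k)
    have a2 : (1 - 2 * x + x * q ^ 1) ^ (n - k - 1) ≤ exp ((n - k - 1) * -(7 / 4 * x)) := by
      rw [show (n : ℝ) - k - 1 = ((n - k - 1 : ℕ) : ℝ) by
        rw [Nat.cast_sub (by omega), hnk]; simp, exp_nat_mul]
      refine pow_le_pow_left₀ (hb0 1) ?_ _
      rw [hq]; linarith [add_one_le_exp (-(7 / 4 * x))]
    calc _ ≤ exp (k * (3 / 2 * k)) * (exp ((4 * 2 : ℕ) * (3 / 2 * k)) *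
          exp ((n - k - 1) * -(7 / 4 * x))) :=
          mul_le_mul a1 (mul_le_mul (hpow _) a2 (pow_nonneg (hb0 1) _) (exp_pos _).le)
            (mul_nonneg (by positivity) (pow_nonneg (hb0 1) _)) (exp_pos _).le
      _ ≤ _ := by
          rw [← exp_add, ← exp_add]
          refine exp_le_exp.2 ?_
          push_cast
          have c4 := mul_le_mul_of_nonneg_right hk (show (0 : ℝ) ≤ k by positivity)
          nlinarith

lemma conds2 {ε : ℝ} (hε : 0 < ε) : ∀ᶠ k : ℕ in atTop, (k : ℝ) ^ 2 ≤ exp (k / 10) ∧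
    (k : ℝ) ^ 2 * (1 / 2) ^ k ≤ ε ∧ exp (-(k : ℝ)) ≤ ε := by
  have t1 := (tendsto_pow_const_mul_const_pow_of_abs_lt_one 2
    (show |exp (-(1 / 10 : ℝ))| < 1 by
      rw [abs_of_pos (exp_pos _)]; exact exp_lt_one_iff.2 (by norm_num))).eventually
    (ge_mem_nhds (show (0 : ℝ) < 1 by norm_num))
  have t2 := (tendsto_pow_const_mul_const_pow_of_abs_lt_one 2
    (show |(1 / 2 : ℝ)| < 1 by norm_num [abs_of_pos])).eventually (ge_mem_nhds hε)
  have t3 := (tendsto_exp_neg_atTop_nhds_zero.comp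
    (tendsto_natCast_atTop_atTop (R := ℝ))).eventually (ge_mem_nhds hε)
  filter_upwards [t1, t2, t3] with k h1 h2 h3
  refine ⟨?_, h2, h3⟩
  rw [← exp_nat_mul, mul_neg, exp_neg, mul_inv_le_iff₀ (exp_pos _), one_mul] at h1
  rwa [div_eq_mul_one_div]

end Pool.Agent.H44.MB
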