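import Mathlib

/-! The biased Maker-Breaker domination game. -/

namespace Pool.Agent.H44.MB

variable {n : ℕ}

/-- every vertex outside `D` has a neighbour in `D` -/
def Dominating (G : SimpleGraph (Fin n)) (D : Finset (Fin n)) : Prop :=
  ∀ v, v ∉ D → ∃ u ∈ D, G.Adj v u

/-- domination number -/
noncomputable def gamma (G : SimpleGraph (Fin n)) : ℕ :=
  sInf {k | ∃ D, Dominating G D ∧ D.card = k}

/-- `D` contains a dominating set -/
def Has (G : SimpleGraph (Fin n)) (D : Finset (Fin n)) : Prop := ∃ A, A ⊆ D ∧ Dominating G A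

/-- Dominator holds `D`, Staller holds `S`, Dominator is to move and can force a win within `t`
of her turns -/
def DWin (G : SimpleGraph (Fin n)) (b : ℕ) : ℕ → Finset (Fin n) → Finset (Fin n) → Prop
  | 0, D, _ => Has G D
  | t + 1, D, S => ∃ X, Disjoint X (D ∪ S) ∧ X.card ≤ b ∧ (Has G (D ∪ X) ∨
      ∀ Y, Disjoint Y (D ∪ X ∪ S) → Y.card ≤ 1 → DWin G b t (D ∪ X) (S ∪ Y))

/-- least number of rounds when Dominator moves first -/
noncomputable def gammaMB (G : SimpleGraph (Fin n)) (b : ℕ) : ℕ∞ :=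
  ⨅ t ∈ {t : ℕ | DWin G b t ∅ ∅}, (t : ℕ∞)

/-- least number of rounds when Staller moves first -/
noncomputable def gammaMB' (G : SimpleGraph (Fin n)) (b : ℕ) : ℕ∞ :=
  ⨅ t ∈ {t : ℕ | ∀ Y, Y.card ≤ 1 → DWin G b t ∅ Y}, (t : ℕ∞)

end Pool.Agent.H44.MB
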