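import Pool.Agent.H44.MBDefs

/-! The (1:b) Maker-Breaker domination game: Dominator claims one vertex, Staller up to `b`. -/

namespace Pool.Agent.H44.MB

variable {n : ℕ}

/-- Dominator holds `D`, Staller holds `S`, Dominator is to move and can force, within `t` of her
moves, that her set of vertices satisfies `W` -/
def Win (W : Finset (Fin n) → Prop) (b : ℕ) : ℕ → Finset (Fin n) → Finset (Fin n) → Prop
  | 0, D, _ => W D
  | t + 1, D, S => W D ∨ ∃ v, v ∉ D ∪ S ∧ (W (insert v D) ∨
      ∀ Y, Disjoint Y (insert v D ∪ S) → Y.card ≤ b → Win W b t (insert v D) (S ∪ Y))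

/-- least number of rounds in which Dominator can force a dominating set -/
noncomputable def timeMB (G : SimpleGraph (Fin n)) (b : ℕ) : ℕ∞ :=
  ⨅ t ∈ {t : ℕ | Win (Has G) b t ∅ ∅}, (t : ℕ∞)

/-- least `s` such that Dominator can force claiming a dominating set of size at most `s` -/
noncomputable def sizeMB (G : SimpleGraph (Fin n)) (b : ℕ) : ℕ∞ :=
  ⨅ s ∈ {s : ℕ | ∃ t, Win (fun D => ∃ A, A ⊆ D ∧ Dominating G A ∧ A.card ≤ s) b t ∅ ∅}, (s : ℕ∞)

end Pool.Agent.H44.MB
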