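import Mathlib

open MeasureTheory Set
open scoped ENNReal

namespace Pool.Agent.H44.MZ

/-- truncated power profile -/
noncomputable def Lam (q t a : ℝ) : ℝ := (min a t) ^ q / t ^ q

/-- its derivative -/
noncomputable def lam (q t x : ℝ) : ℝ≥0∞ :=
  if x < t then ENNReal.ofReal (q * x ^ (q - 1) / t ^ q) else 0

/-- the kernel after Holder -/
noncomputable def Hk (p q t x : ℝ) : ℝ≥0∞ :=
  if x < t then ENNReal.ofReal (q ^ p * x ^ q * t ^ (-1 - q)) else 0

lemma Lam_mono {q t a b : ℝ} (hq : 0 ≤ q) (ht : 0 < t) (ha : 0 ≤ a) (hab : a ≤ b) :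
    Lam q t a ≤ Lam q t b := by
  unfold Lam
  exact div_le_div_of_nonneg_right
    (Real.rpow_le_rpow (le_min ha ht.le) (min_le_min_right _ hab) hq) (by positivity)

lemma Lam_zero {q t : ℝ} (hq : 0 < q) (ht : 0 < t) : Lam q t 0 = 0 := by
  unfold Lam
  rw [min_eq_left ht.le, Real.zero_rpow hq.ne', zero_div]

lemma Lam_one {q t a : ℝ} (ht : 0 < t) (ha : t ≤ a) : Lam q t a = 1 := by
  unfold Lam
  rw [min_eq_right ha, div_self (by positivity)]

lemma lam_meas (q t : ℝ) : Measurable (lam q t) := by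
  unfold lam
  refine Measurable.ite measurableSet_Iio ?_ measurable_const
  fun_prop

lemma Hk_meas (p q : ℝ) : Measurable (Function.uncurry (Hk p q)) := by
  unfold Hk Function.uncurry
  refine Measurable.ite (measurableSet_lt measurable_snd measurable_fst) ?_ measurable_const
  fun_prop

lemma ftc {q t a b : ℝ} (hq : 1 < q) (ht : 0 < t) (ha : 0 ≤ a) (hab : a ≤ b) :
    ENNReal.ofReal (Lam q t b - Lam q t a) ≤ ∫⁻ x in Ioo a b, lam q t x := by
  have hsub : Ioo (min a t) (min b t) ⊆ Ioo a b := by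
    intro x hx
    have h1 := hx.1
    have h2 := hx.2
    rw [lt_min_iff] at h2
    rw [min_lt_iff] at h1
    exact ⟨h1.resolve_right (by linarith [h2.2]), h2.1⟩
  refine le_trans (le_of_eq ?_) (lintegral_mono_set hsub)
  have ha' : 0 ≤ min a t := le_min ha ht.le
  have hle : min a t ≤ min b t := min_le_min_right _ hab
  have e1 : ∫⁻ x in Ioo (min a t) (min b t), lam q t x =
      ∫⁻ x in Ioo (min a t) (min b t), ENNReal.ofReal (q / t ^ q * x ^ (q - 1)) := by
    refine setLIntegral_congr_fun measurableSet_Ioo fun x hx => ?_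
    unfold lam
    rw [if_pos (lt_of_lt_of_le hx.2 (min_le_right _ _))]
    congr 1; ring
  have hint : IntervalIntegrable (fun x : ℝ => q / t ^ q * x ^ (q - 1)) volume
      (min a t) (min b t) :=
    (intervalIntegral.intervalIntegrable_rpow' (by linarith)).const_mul _
  rw [e1, ← ofReal_integral_eq_lintegral_ofReal, ← integral_Ioc_eq_integral_Ioo,
    ← intervalIntegral.integral_of_le hle, intervalIntegral.integral_const_mul,
    integral_rpow (Or.inl (by linarith))]
  · congr 1
    unfold Lam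
    rw [show q - 1 + 1 = q by ring]
    field_simp
  · exact (intervalIntegrable_iff_integrableOn_Ioo_of_le hle).1 hint
  · filter_upwards [ae_restrict_mem measurableSet_Ioo] with x hx
    have : 0 ≤ x := by linarith [hx.1]
    positivity

lemma holder {p q t a b : ℝ} (hpq : p.HolderConjugate q) (ht : 0 < t) (ha : 0 ≤ a)
    (hab : a ≤ b) :
    ENNReal.ofReal (Lam q t b - Lam q t a) ^ p * ENNReal.ofReal (t ^ (p - 1)) ≤
      ENNReal.ofReal (b - a) ^ (p - 1) * ∫⁻ x in Ioo a b, Hk p q t x := by
  have hp : 1 < p := hpq.lt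
  have hq : 1 < q := hpq.symm.lt
  have h1 := ENNReal.lintegral_mul_le_Lp_mul_Lq (volume.restrict (Ioo a b)) hpq
    (f := lam q t) (g := fun _ => 1) (lam_meas q t).aemeasurable aemeasurable_const
  simp only [Pi.mul_apply, mul_one, ENNReal.one_rpow, lintegral_const, one_mul,
    MeasurableSet.univ, Measure.restrict_apply, univ_inter, Real.volume_Ioo] at h1
  have h2 := ENNReal.rpow_le_rpow (le_trans (ftc hq ht ha hab) h1) (by linarith : 0 ≤ p)
  rw [ENNReal.mul_rpow_of_nonneg _ _ (by linarith), ← ENNReal.rpow_mul, ← ENNReal.rpow_mul,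
    one_div_mul_cancel (by linarith), ENNReal.rpow_one] at h2
  have e : 1 / q * p = p - 1 := by
    rw [← hpq.div_conj_eq_sub_one]; ring
  rw [e] at h2
  refine le_trans (mul_le_mul_left h2 _) (le_of_eq ?_)
  rw [mul_comm (∫⁻ _ in _, _), mul_assoc, ← lintegral_mul_const' _ _ ENNReal.ofReal_ne_top]
  congr 1
  refine setLIntegral_congr_fun measurableSet_Ioo fun x hx => ?_
  have hx0 : 0 < x := by linarith [hx.1]
  unfold lam Hk
  split_ifs with h
  · rw [ENNReal.ofReal_rpow_of_nonneg (by positivity) (by linarith),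
      ← ENNReal.ofReal_mul (by positivity)]
    congr 1
    rw [Real.div_rpow (by positivity) (by positivity), Real.mul_rpow (by positivity)
      (by positivity), ← Real.rpow_mul hx0.le, ← Real.rpow_mul ht.le,
      hpq.symm.sub_one_mul_conj, mul_assoc (q ^ p), mul_div_assoc, mul_assoc, div_mul_eq_mul_div,
      mul_div_assoc, ← Real.rpow_sub ht]
    congr 3
    have := hpq.mul_eq_add
    linarith
  · rw [ENNReal.zero_rpow_of_pos (by linarith), zero_mul]

lemma fub {p q a b : ℝ} (hq : 0 < q) (ha : 0 ≤ a) :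
    ∫⁻ t in Ioi (0 : ℝ), ∫⁻ x in Ioo a b, Hk p q t x =
      ENNReal.ofReal (q ^ p / q) * ENNReal.ofReal (b - a) := by
  rw [lintegral_lintegral_swap (Hk_meas p q).aemeasurable]
  have : ∀ x ∈ Ioo a b, ∫⁻ t in Ioi (0 : ℝ), Hk p q t x = ENNReal.ofReal (q ^ p / q) := by
    intro x hx
    have hx0 : 0 < x := by linarith [hx.1]
    have e : ∀ t, Hk p q t x =
        (Ioi x).indicator (fun t => ENNReal.ofReal (q ^ p * x ^ q * t ^ (-1 - q))) t := by
      intro t; unfold Hk; simp [indicator_apply]
    simp_rw [e]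
    rw [lintegral_indicator measurableSet_Ioi, Measure.restrict_restrict measurableSet_Ioi,
      inter_eq_left.2 (Ioi_subset_Ioi hx0.le), ← ofReal_integral_eq_lintegral_ofReal,
      integral_const_mul, integral_Ioi_rpow_of_lt (by linarith) hx0]
    · congr 1
      rw [show -1 - q + 1 = -q by ring, Real.rpow_neg hx0.le]
      have : 0 < x ^ q := by positivity
      field_simp
    · exact (integrableOn_Ioi_rpow_of_lt (by linarith) hx0).const_mul _
    · filter_upwards [ae_restrict_mem measurableSet_Ioi] with t ht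
      have : 0 < t := lt_trans hx0 ht
      positivity
  rw [setLIntegral_congr_fun measurableSet_Ioo this]
  simp

/-- the dominating function -/
noncomputable def W (p q a b t : ℝ) : ℝ≥0∞ :=
  ENNReal.ofReal (b - a) ^ (p - 1) * ∫⁻ x in Ioo a b, Hk p q t x

lemma W_meas (p q a b : ℝ) : Measurable (W p q a b) :=
  measurable_const.mul (Hk_meas p q).lintegral_prod_right

lemma const_eq {p q : ℝ} (hpq : p.HolderConjugate q) :
    p * (q ^ p / q) = p ^ p / (p - 1) ^ (p - 1) := by
  have hp : 1 < p := hpq.lt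
  have hp1 : 0 < p - 1 := by linarith
  have hp0 : 0 < p := by linarith
  rw [hpq.conjugate_eq, Real.div_rpow hp0.le hp1.le, Real.rpow_sub_one hp1.ne']
  have : 0 < (p - 1) ^ p := by positivity
  field_simp

lemma W_int {p q a b : ℝ} (hpq : p.HolderConjugate q) (ha : 0 ≤ a) :
    ENNReal.ofReal p * ∫⁻ t in Ioi (0 : ℝ), W p q a b t =
      ENNReal.ofReal (p ^ p / (p - 1) ^ (p - 1)) * ENNReal.ofReal (b - a) ^ p := by
  have hp : 1 < p := hpq.lt
  unfold W
  rw [lintegral_const_mul _ (Hk_meas p q).lintegral_prod_right, fub hpq.symm.pos ha,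
    ← const_eq hpq, ENNReal.ofReal_mul (by linarith)]
  have : ENNReal.ofReal (b - a) ^ p =
      ENNReal.ofReal (b - a) ^ (p - 1) * ENNReal.ofReal (b - a) := by
    have := ENNReal.rpow_add_of_nonneg (x := ENNReal.ofReal (b - a)) (p - 1) 1 (by linarith)
      (by norm_num)
    rw [ENNReal.rpow_one, sub_add_cancel] at this
    exact this
  rw [this]; ring

end Pool.Agent.H44.MZ
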