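import Mathlib

open MeasureTheory Set
open scoped ENNReal NNReal

namespace Pool.Agent.H44.MZ

/-- A locally finite tree with pre-root `top` and root `root`, given by its parent map.
`depth` is the distance to the pre-root. -/
structure RTree where
  V : Type
  top : V
  root : V
  par : V → V
  depth : V → ℕ
  depth_top : depth top = 0
  depth_par : ∀ v, v ≠ top → depth v = depth (par v) + 1
  par_top : par top = top
  root_ne : root ≠ top
  par_eq_top : ∀ v, v ≠ top → (par v = top ↔ v = root)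
  locFin : ∀ v, {w | par w = v}.Finite
  count : Countable V

namespace RTree

variable (T : RTree)

/-- edges: the edge from `v` to its parent is named by `v` -/
abbrev E : Type := {v : T.V // v ≠ T.top}

/-- infinite geodesics from the pre-root -/
def Ray : Type :=
  {ξ : ℕ → T.V // ξ 0 = T.top ∧ ∀ n, ξ (n + 1) ≠ T.top ∧ T.par (ξ (n + 1)) = ξ n}

/-- the closed tree: vertices and infinite geodesics -/
inductive Pt : Type
  | vert : T.V → Pt
  | ray : T.Ray → Pt

/-- the edge `α` lies on the geodesic from the pre-root to the point -/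
def onPath (α : T.E) : T.Pt → Prop
  | Pt.vert x => ∃ k, T.par^[k] x = α.1
  | Pt.ray ξ => ∃ n, ξ.1 n = α.1

/-- successor set -/
def S (α : T.E) : Set T.Pt := {x | T.onPath α x}

instance : TopologicalSpace T.Pt :=
  TopologicalSpace.generateFrom (range T.S ∪ range fun v => {Pt.vert v})

instance : MeasurableSpace T.Pt := borel T.Pt

/-- Hardy operator -/
noncomputable def I (φ : T.E → ℝ≥0) (x : T.Pt) : ℝ≥0∞ :=
  ∑' α : T.E, (T.S α).indicator (fun _ => (φ α : ℝ≥0∞)) x

/-- the weighted energy -/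
noncomputable def energy (p : ℝ) (π φ : T.E → ℝ≥0) : ℝ≥0∞ :=
  ∑' α : T.E, (φ α : ℝ≥0∞) ^ p * π α

/-- best constant `[μ]` in the Hardy inequality -/
noncomputable def hardy (p : ℝ) (π : T.E → ℝ≥0) (μ : Measure T.Pt) : ℝ≥0∞ :=
  sInf {C | ∀ φ : T.E → ℝ≥0, ∫⁻ x, T.I φ x ^ p ∂μ ≤ C * T.energy p π φ}

/-- capacity -/
noncomputable def cap (p : ℝ) (π : T.E → ℝ≥0) (A : Set T.Pt) : ℝ≥0∞ :=
  ⨅ (φ : T.E → ℝ≥0) (_ : ∀ x ∈ A, 1 ≤ T.I φ x), T.energy p π φ

/-- isocapacitary constant, over finite families of edges with disjoint successor sets -/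
noncomputable def isocap (p : ℝ) (π : T.E → ℝ≥0) (μ : Measure T.Pt) : ℝ≥0∞ :=
  ⨆ (s : Finset T.E) (_ : s.Nonempty) (_ : (s : Set T.E).PairwiseDisjoint T.S),
    (∑ α ∈ s, μ (T.S α)) / T.cap p π (⋃ α ∈ s, T.S α)

end RTree

end Pool.Agent.H44.MZ
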