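import Mathlib
import Pool.Agent.H44.MZ1
import Pool.Agent.H44.MZDefs

open MeasureTheory Set
open scoped ENNReal NNReal

namespace Pool.Agent.H44.MZ

namespace RTree

variable (T : RTree)

instance : Countable T.V := T.count

instance : BorelSpace T.Pt := ⟨rfl⟩

lemma S_meas (α : T.E) : MeasurableSet (T.S α) :=
  (TopologicalSpace.isOpen_generateFrom_of_mem (Or.inl ⟨α, rfl⟩)).measurableSet

lemma vert_meas (v : T.V) : MeasurableSet ({Pt.vert v} : Set T.Pt) :=
  (TopologicalSpace.isOpen_generateFrom_of_mem (Or.inr ⟨v, rfl⟩)).measurableSet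

lemma I_meas (φ : T.E → ℝ≥0) : Measurable (T.I φ) :=
  Measurable.tsum fun α => measurable_const.indicator (T.S_meas α)

lemma ind {P : T.V → Prop} (h0 : P T.top) (h1 : ∀ v, v ≠ T.top → P (T.par v) → P v) (v : T.V) :
    P v := by
  induction h : T.depth v using Nat.strong_induction_on generalizing v with
  | _ n ih =>
    by_cases hv : v = T.top
    · rw [hv]; exact h0
    · have := T.depth_par v hv
      exact h1 v hv (ih _ (by omega) _ rfl)

lemma depth_iter (k : ℕ) (v : T.V) : T.depth (T.par^[k] v) ≤ T.depth v := by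
  induction k with
  | zero => simp
  | succ k ih =>
    rw [Function.iterate_succ_apply']
    by_cases h : T.par^[k] v = T.top
    · rw [h, T.par_top, T.depth_top]; omega
    · have := T.depth_par _ h; omega

lemma not_path_top (β : T.E) : ¬ T.onPath β (Pt.vert T.top) := by
  rintro ⟨k, hk⟩
  rw [Function.iterate_fixed T.par_top] at hk
  exact β.2 hk.symm

lemma path_step (α β : T.E) :
    T.onPath β (Pt.vert α.1) ↔ β = α ∨ T.onPath β (Pt.vert (T.par α.1)) := by
  constructor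
  · rintro ⟨k, hk⟩
    cases k with
    | zero => left; exact Subtype.ext hk.symm
    | succ k => right; exact ⟨k, hk⟩
  · rintro (rfl | ⟨k, hk⟩)
    · exact ⟨0, rfl⟩
    · exact ⟨k + 1, hk⟩

lemma not_path_par (α : T.E) : ¬ T.onPath α (Pt.vert (T.par α.1)) := by
  rintro ⟨k, hk⟩
  have h1 := T.depth_iter k (T.par α.1)
  have h2 := T.depth_par α.1 α.2
  rw [hk] at h1; omega

lemma I_top (φ : T.E → ℝ≥0) : T.I φ (Pt.vert T.top) = 0 := by
  unfold I
  rw [ENNReal.tsum_eq_zero]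
  intro β
  exact indicator_of_notMem (show Pt.vert T.top ∉ T.S β from T.not_path_top β) _

lemma I_step (φ : T.E → ℝ≥0) (α : T.E) :
    T.I φ (Pt.vert α.1) = T.I φ (Pt.vert (T.par α.1)) + φ α := by
  classical
  unfold I
  rw [← tsum_ite_eq α (fun _ => (φ α : ℝ≥0∞)), ← ENNReal.tsum_add]
  refine tsum_congr fun β => ?_
  by_cases h : β = α
  · subst h
    rw [indicator_of_mem (show Pt.vert β.1 ∈ T.S β from ⟨0, rfl⟩),
      indicator_of_notMem (show Pt.vert (T.par β.1) ∉ T.S β from T.not_path_par β)]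
    simp
  · rw [if_neg h, add_zero]
    by_cases h2 : T.onPath β (Pt.vert (T.par α.1))
    · rw [indicator_of_mem (show Pt.vert (T.par α.1) ∈ T.S β from h2),
        indicator_of_mem (show Pt.vert α.1 ∈ T.S β from (T.path_step α β).2 (Or.inr h2))]
    · rw [indicator_of_notMem (show Pt.vert (T.par α.1) ∉ T.S β from h2), indicator_of_notMem]
      intro h3
      exact h2 (((T.path_step α β).1 h3).resolve_left h)

lemma I_fin (φ : T.E → ℝ≥0) (v : T.V) : T.I φ (Pt.vert v) ≠ ⊤ := by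
  refine T.ind (P := fun v => T.I φ (Pt.vert v) ≠ ⊤) ?_ ?_ v
  · rw [I_top]; simp
  · intro v hv ih
    rw [T.I_step φ ⟨v, hv⟩]
    exact ENNReal.add_ne_top.2 ⟨ih, ENNReal.coe_ne_top⟩

lemma ray_iter (ξ : T.Ray) (k n : ℕ) : T.par^[k] (ξ.1 n) = ξ.1 (n - k) := by
  induction k with
  | zero => rfl
  | succ k ih =>
    rw [Function.iterate_succ_apply', ih]
    rcases Nat.eq_zero_or_pos (n - k) with h | h
    · rw [h, show n - (k + 1) = 0 by omega, ξ.2.1, T.par_top]
    · rw [show n - k = n - (k + 1) + 1 by omega]; exact (ξ.2.2 _).2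

lemma path_trans {α β : T.E} {x : T.Pt} (h1 : T.onPath α x) (h2 : T.onPath β (Pt.vert α.1)) :
    T.onPath β x := by
  obtain ⟨j, hj⟩ := h2
  cases x with
  | vert y =>
    obtain ⟨k, hk⟩ := h1
    exact ⟨j + k, by rw [Function.iterate_add_apply, hk, hj]⟩
  | ray ξ =>
    obtain ⟨n, hn⟩ := h1
    exact ⟨n - j, by rw [← T.ray_iter, hn, hj]⟩

lemma I_mono (φ : T.E → ℝ≥0) {x y : T.Pt} (h : ∀ β, T.onPath β x → T.onPath β y) :
    T.I φ x ≤ T.I φ y := by
  refine ENNReal.tsum_le_tsum fun β => ?_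
  by_cases hx : T.onPath β x
  · rw [indicator_of_mem (show x ∈ T.S β from hx), indicator_of_mem (show y ∈ T.S β from h β hx)]
  · rw [indicator_of_notMem (show x ∉ T.S β from hx)]; exact zero_le

lemma path_cmp {α β : T.E} {x : T.Pt} (h1 : T.onPath α x) (h2 : T.onPath β x) :
    T.onPath α (Pt.vert β.1) ∨ T.onPath β (Pt.vert α.1) := by
  cases x with
  | vert y =>
    obtain ⟨k, hk⟩ := h1
    obtain ⟨j, hj⟩ := h2
    rcases le_total k j with h | h
    · right; exact ⟨j - k, by rw [← hk, ← Function.iterate_add_apply, Nat.sub_add_cancel h, hj]⟩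
    · left; exact ⟨k - j, by rw [← hj, ← Function.iterate_add_apply, Nat.sub_add_cancel h, hk]⟩
  | ray ξ =>
    obtain ⟨n, hn⟩ := h1
    obtain ⟨m, hm⟩ := h2
    rcases le_total n m with h | h
    · left; exact ⟨m - n, by rw [← hm, T.ray_iter, Nat.sub_sub_self h, hn]⟩
    · right; exact ⟨n - m, by rw [← hn, T.ray_iter, Nat.sub_sub_self h, hm]⟩

/-- real value of the Hardy operator at a vertex -/
noncomputable def f (φ : T.E → ℝ≥0) (v : T.V) : ℝ := (T.I φ (Pt.vert v)).toReal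

lemma f_nonneg (φ : T.E → ℝ≥0) (v : T.V) : 0 ≤ T.f φ v := ENNReal.toReal_nonneg

lemma f_top (φ : T.E → ℝ≥0) : T.f φ T.top = 0 := by simp [f, I_top]

lemma f_step (φ : T.E → ℝ≥0) (α : T.E) : T.f φ α.1 = T.f φ (T.par α.1) + φ α := by
  unfold f
  rw [I_step, ENNReal.toReal_add (T.I_fin _ _) ENNReal.coe_ne_top]; simp

lemma ofReal_f (φ : T.E → ℝ≥0) (v : T.V) : ENNReal.ofReal (T.f φ v) = T.I φ (Pt.vert v) :=
  ENNReal.ofReal_toReal (T.I_fin φ v)

/-- edges crossing level `t` -/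
def A (φ : T.E → ℝ≥0) (t : ℝ) : Set T.E := {α | T.f φ (T.par α.1) ≤ t ∧ t < T.f φ α.1}

lemma cross_vert (φ : T.E → ℝ≥0) {t : ℝ} (ht : 0 ≤ t) (v : T.V) :
    t < T.f φ v → ∃ α ∈ T.A φ t, T.onPath α (Pt.vert v) := by
  refine T.ind (P := fun v => t < T.f φ v → ∃ α ∈ T.A φ t, T.onPath α (Pt.vert v)) ?_ ?_ v
  · intro h; rw [f_top] at h; linarith
  · intro v hv ih h
    by_cases h2 : T.f φ (T.par v) ≤ t
    · exact ⟨⟨v, hv⟩, ⟨h2, h⟩, 0, rfl⟩
    · obtain ⟨α, hα, hp⟩ := ih (not_le.1 h2)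
      exact ⟨α, hα, (T.path_step ⟨v, hv⟩ α).2 (Or.inr hp)⟩

lemma cross (φ : T.E → ℝ≥0) {t : ℝ} (ht : 0 ≤ t) (x : T.Pt) (h : ENNReal.ofReal t < T.I φ x) :
    ∃ α ∈ T.A φ t, T.onPath α x := by
  classical
  cases x with
  | vert v =>
    rw [← ofReal_f, ENNReal.ofReal_lt_ofReal_iff_of_nonneg ht] at h
    exact T.cross_vert φ ht v h
  | ray ξ =>
    by_cases hn : ∃ n, t < T.f φ (ξ.1 n)
    · obtain ⟨n, hn⟩ := hn
      obtain ⟨α, hα, k, hk⟩ := T.cross_vert φ ht _ hn
      exact ⟨α, hα, n - k, by rw [← T.ray_iter, hk]⟩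
    · exfalso
      refine absurd h (not_lt.2 ?_)
      unfold I
      rw [ENNReal.tsum_eq_iSup_sum]
      refine iSup_le fun s => ?_
      have : ∀ β : T.E, ∃ n, T.onPath β (Pt.ray ξ) → ξ.1 n = β.1 := by
        intro β
        by_cases hb : T.onPath β (Pt.ray ξ)
        · obtain ⟨n, hn⟩ := hb; exact ⟨n, fun _ => hn⟩
        · exact ⟨0, fun h => absurd h hb⟩
      choose g hg using this
      have h1 : T.I φ (Pt.vert (ξ.1 (s.sup g))) ≤ ENNReal.ofReal t := by
        rw [← ofReal_f]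
        exact ENNReal.ofReal_le_ofReal (not_lt.1 fun h => hn ⟨_, h⟩)
      refine le_trans (le_trans (Finset.sum_le_sum fun β hβ => ?_) (ENNReal.sum_le_tsum s)) h1
      by_cases hb : T.onPath β (Pt.ray ξ)
      · have hle : g β ≤ s.sup g := Finset.le_sup hβ
        rw [indicator_of_mem (show Pt.ray ξ ∈ T.S β from hb), indicator_of_mem
          (show Pt.vert (ξ.1 (s.sup g)) ∈ T.S β from
            ⟨s.sup g - g β, by rw [T.ray_iter, Nat.sub_sub_self hle, hg β hb]⟩)]
      · rw [indicator_of_notMem (show Pt.ray ξ ∉ T.S β from hb)]; exact zero_le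

lemma A_disj (φ : T.E → ℝ≥0) (t : ℝ) : (T.A φ t).PairwiseDisjoint T.S := by
  have key : ∀ α ∈ T.A φ t, ∀ β ∈ T.A φ t, α ≠ β → ¬ T.onPath α (Pt.vert β.1) := by
    intro α hα β hβ hne h
    have h2 := ((T.path_step β α).1 h).resolve_left hne
    have h3 : T.I φ (Pt.vert α.1) ≤ T.I φ (Pt.vert (T.par β.1)) :=
      T.I_mono φ fun γ hγ => T.path_trans h2 hγ
    have h4 : T.f φ α.1 ≤ T.f φ (T.par β.1) := ENNReal.toReal_mono (T.I_fin _ _) h3
    linarith [hα.2, hβ.1]
  intro α hα β hβ hne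
  refine disjoint_left.2 fun x hx hx' => ?_
  rcases T.path_cmp hx hx' with h | h
  · exact key α hα β hβ hne h
  · exact key β hβ α hα hne.symm h

/-- the test function -/
noncomputable def psi (q : ℝ) (φ : T.E → ℝ≥0) (t : ℝ) (α : T.E) : ℝ≥0 :=
  (Lam q t (T.f φ α.1) - Lam q t (T.f φ (T.par α.1))).toNNReal

lemma Lam_nonneg {q t a : ℝ} (hq : 0 < q) (ht : 0 < t) (ha : 0 ≤ a) : 0 ≤ Lam q t a := by
  rw [← Lam_zero hq ht]; exact Lam_mono hq.le ht le_rfl ha

lemma I_psi {q t : ℝ} (hq : 0 < q) (ht : 0 < t) (φ : T.E → ℝ≥0) (v : T.V) :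
    T.I (T.psi q φ t) (Pt.vert v) = ENNReal.ofReal (Lam q t (T.f φ v)) := by
  refine T.ind (P := fun v => T.I (T.psi q φ t) (Pt.vert v) =
    ENNReal.ofReal (Lam q t (T.f φ v))) ?_ ?_ v
  · rw [I_top, f_top, Lam_zero hq ht]; simp
  · intro v hv ih
    rw [T.I_step _ ⟨v, hv⟩, ih]
    have hle : T.f φ (T.par v) ≤ T.f φ v := by
      rw [T.f_step φ ⟨v, hv⟩]; simp
    have := Lam_mono hq.le ht (T.f_nonneg φ _) hle
    change _ + ENNReal.ofReal _ = _
    rw [← ENNReal.ofReal_add (Lam_nonneg hq ht (T.f_nonneg φ _)) (by simpa using this)]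
    congr 1; simp

lemma cap_ne_top (p : ℝ) (hp : 0 < p) (π : T.E → ℝ≥0) (s : Finset T.E) :
    T.cap p π (⋃ α ∈ s, T.S α) ≠ ⊤ := by
  classical
  refine ne_top_of_le_ne_top ?_ (iInf₂_le (fun α => if α ∈ s then 1 else 0) ?_)
  · unfold energy
    rw [tsum_eq_sum (s := s)]
    · exact ENNReal.sum_ne_top.2 fun α hα => by simp [hα]
    · intro α hα; simp [hα, hp]
  · intro x hx
    simp only [mem_iUnion] at hx
    obtain ⟨α, hα, hx⟩ := hx
    refine le_trans ?_ (ENNReal.le_tsum α)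
    rw [indicator_of_mem hx]; simp [hα]

lemma level_le {p q t : ℝ} (hp : 0 < p) (hq : 0 < q) (ht : 0 < t) (π φ : T.E → ℝ≥0)
    (μ : Measure T.Pt) (hc : T.isocap p π μ ≠ ⊤) :
    μ {x | ENNReal.ofReal t < T.I φ x} ≤ T.isocap p π μ * T.energy p π (T.psi q φ t) := by
  classical
  have h1 : {x | ENNReal.ofReal t < T.I φ x} ⊆ ⋃ α, if α ∈ T.A φ t then T.S α else ∅ := by
    intro x hx
    obtain ⟨α, hα, h⟩ := T.cross φ ht.le x hx
    exact mem_iUnion.2 ⟨α, by rw [if_pos hα]; exact h⟩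
  refine le_trans (measure_mono h1) (le_trans (measure_iUnion_le _) ?_)
  rw [ENNReal.tsum_eq_iSup_sum]
  refine iSup_le fun s => ?_
  have e : ∑ α ∈ s, μ (if α ∈ T.A φ t then T.S α else ∅) =
      ∑ α ∈ s.filter (fun α => α ∈ T.A φ t), μ (T.S α) := by
    rw [Finset.sum_filter]
    exact Finset.sum_congr rfl fun α _ => by split_ifs <;> simp
  rw [e]
  set s' := s.filter (fun α => α ∈ T.A φ t) with hs'
  rcases s'.eq_empty_or_nonempty with h | h
  · rw [h]; simp
  have hd : (s' : Set T.E).PairwiseDisjoint T.S :=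
    (T.A_disj φ t).subset fun α hα => (Finset.mem_filter.1 hα).2
  have h2 : (∑ α ∈ s', μ (T.S α)) / T.cap p π (⋃ α ∈ s', T.S α) ≤ T.isocap p π μ :=
    le_iSup_of_le s' (le_iSup_of_le h (le_iSup_of_le hd le_rfl))
  rw [ENNReal.div_le_iff_le_mul (Or.inr hc) (Or.inl (T.cap_ne_top p hp π s'))] at h2
  refine le_trans h2 (mul_le_mul_right (iInf₂_le (T.psi q φ t) ?_) _)
  intro x hx
  simp only [mem_iUnion] at hx
  obtain ⟨α, hα, hx⟩ := hx
  refine le_trans ?_ (T.I_mono _ (x := Pt.vert α.1) fun β hβ => T.path_trans hx hβ)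
  rw [T.I_psi hq ht, Lam_one ht (Finset.mem_filter.1 hα).2.2.le]; simp

lemma trunc_sup {p : ℝ} (hp : 1 ≤ p) (y : ℝ≥0∞) : y ^ p ≤ ⨆ N : ℕ, (min y N) ^ p := by
  by_cases hy : y = ⊤
  · have : (⨆ N : ℕ, (min y N) ^ p) = ⊤ := by
      rw [eq_top_iff, ← ENNReal.iSup_natCast]
      refine iSup_le fun N => le_iSup_of_le (N + 1) ?_
      rw [hy, min_eq_right le_top]
      refine le_trans ?_ (ENNReal.le_rpow_self_of_one_le (by simp) hp)
      simp
    rw [this]; exact le_top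
  · obtain ⟨N, hN⟩ := ENNReal.exists_nat_gt hy
    exact le_iSup_of_le N (by rw [min_eq_left hN.le])

theorem upper {p : ℝ} (hp : 1 < p) (π : T.E → ℝ≥0) (μ : Measure T.Pt) :
    T.hardy p π μ ≤ ENNReal.ofReal (p ^ p / (p - 1) ^ (p - 1)) * T.isocap p π μ := by
  have hp1 : 0 < p - 1 := by linarith
  have hp0 : 0 < p := by linarith
  by_cases hc : T.isocap p π μ = ⊤
  · rw [hc, ENNReal.mul_top (ENNReal.ofReal_pos.2 (by positivity)).ne']; exact le_top
  have hpq : p.HolderConjugate (Real.conjExponent p) := Real.HolderConjugate.conjExponent hp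
  set q := Real.conjExponent p
  refine sInf_le fun φ => ?_
  refine le_trans (lintegral_mono fun x => trunc_sup hp.le (T.I φ x)) ?_
  rw [lintegral_iSup (fun N => ((T.I_meas φ).min measurable_const).pow_const _)
    (fun N M h x => ENNReal.rpow_le_rpow (min_le_min_left _ (by exact_mod_cast h)) hp0.le)]
  refine iSup_le fun N => ?_
  have hne : ∀ x, min (T.I φ x) N ≠ ⊤ := fun x =>
    ne_top_of_le_ne_top (ENNReal.natCast_ne_top N) (min_le_right _ _)
  have e1 : ∀ x, (min (T.I φ x) N) ^ p = ENNReal.ofReal ((min (T.I φ x) N).toReal ^ p) := by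
    intro x
    rw [← ENNReal.ofReal_rpow_of_nonneg ENNReal.toReal_nonneg hp0.le,
      ENNReal.ofReal_toReal (hne x)]
  simp_rw [e1]
  rw [lintegral_rpow_eq_lintegral_meas_lt_mul μ (f := fun x => (min (T.I φ x) N).toReal)
    (Filter.Eventually.of_forall fun x => ENNReal.toReal_nonneg)
    ((T.I_meas φ).min measurable_const).ennreal_toReal.aemeasurable hp0]
  have hb : ∀ t ∈ Ioi (0 : ℝ), μ {a | t < (min (T.I φ a) N).toReal} *
      ENNReal.ofReal (t ^ (p - 1)) ≤ T.isocap p π μ *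
        ∑' α : T.E, (π α : ℝ≥0∞) * W p q (T.f φ (T.par α.1)) (T.f φ α.1) t := by
    intro t ht
    have ht : 0 < t := ht
    have hsub : {a | t < (min (T.I φ a) N).toReal} ⊆ {x | ENNReal.ofReal t < T.I φ x} := by
      intro x hx
      have hx : t < (min (T.I φ x) N).toReal := hx
      refine lt_of_lt_of_le ?_ (min_le_left (T.I φ x) N)
      exact (ENNReal.ofReal_lt_iff_lt_toReal ht.le (hne x)).2 hx
    refine le_trans (mul_le_mul_left (le_trans (measure_mono hsub)
      (T.level_le hp0 hpq.symm.pos ht π φ μ hc)) _) ?_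
    rw [mul_assoc]
    refine mul_le_mul_right ?_ _
    unfold energy
    rw [← ENNReal.tsum_mul_right]
    refine ENNReal.tsum_le_tsum fun α => ?_
    rw [mul_right_comm, mul_comm]
    refine mul_le_mul_right ?_ _
    exact holder hpq ht (T.f_nonneg φ _) (by rw [T.f_step φ α]; simp)
  refine le_trans (mul_le_mul_right (setLIntegral_mono' measurableSet_Ioi hb) _) (le_of_eq ?_)
  rw [lintegral_const_mul' _ _ hc, lintegral_tsum fun α =>
    ((W_meas _ _ _ _).const_mul _).aemeasurable, mul_left_comm, ← ENNReal.tsum_mul_left,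
    mul_comm (ENNReal.ofReal _) (T.isocap p π μ), mul_assoc]
  congr 1
  unfold energy
  rw [← ENNReal.tsum_mul_left]
  refine tsum_congr fun α => ?_
  rw [lintegral_const_mul _ (W_meas _ _ _ _), mul_left_comm, W_int hpq (T.f_nonneg φ _),
    T.f_step φ α, add_sub_cancel_left, ENNReal.ofReal_coe_nnreal]
  ring

end RTree

end Pool.Agent.H44.MZ
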