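import Mathlib
import Pool.Agent.H44.MZ2

open MeasureTheory Set
open scoped ENNReal NNReal

namespace Pool.Agent.H44.MZ

/-- the half-line tree -/
abbrev P : RTree where
  V := ℕ
  top := 0
  root := 1
  par := fun v => v - 1
  depth := id
  depth_top := rfl
  depth_par := fun v hv => by simp only [id]; omega
  par_top := rfl
  root_ne := one_ne_zero
  par_eq_top := fun v hv => by omega
  locFin := fun v => (Set.finite_le_nat (v + 1)).subset fun w hw => by
    have : w - 1 = v := hw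
    show w ≤ v + 1
    omega
  count := inferInstance

lemma P_iter (k v : ℕ) : P.par^[k] v = v - k := by
  induction k with
  | zero => rfl
  | succ k ih => rw [Function.iterate_succ_apply', ih]; show v - k - 1 = _; omega

lemma P_mem (α : P.E) (w : ℕ) : RTree.Pt.vert (T := P) w ∈ P.S α ↔ α.1 ≤ w := by
  constructor
  · rintro ⟨k, hk⟩
    rw [P_iter] at hk
    rw [← hk]
    exact Nat.sub_le w k
  · intro h; exact ⟨w - α.1, by rw [P_iter]; exact Nat.sub_sub_self h⟩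

lemma radon {p a b A B : ℝ} (hp : 1 ≤ p) (ha : 0 ≤ a) (hb : 0 ≤ b) (hA : 0 < A) (hB : 0 < B) :
    (a + b) ^ p * (A + B) ^ (1 - p) ≤ a ^ p * A ^ (1 - p) + b ^ p * B ^ (1 - p) := by
  have e : ∀ x X : ℝ, 0 ≤ x → 0 < X → x ^ p * X ^ (1 - p) = X * (x / X) ^ p := by
    intro x X hx hX
    rw [Real.div_rpow hx hX.le, Real.rpow_sub hX, Real.rpow_one]; ring
  have hAB : 0 < A + B := by linarith
  rw [e _ _ (by linarith) hAB, e _ _ ha hA, e _ _ hb hB]
  have h := (convexOn_rpow hp).2 (show a / A ∈ Ici 0 from by rw [mem_Ici]; positivity)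
    (show b / B ∈ Ici 0 from by rw [mem_Ici]; positivity)
    (show 0 ≤ A / (A + B) by positivity) (show 0 ≤ B / (A + B) by positivity)
    (by field_simp)
  simp only [smul_eq_mul] at h
  rw [show A / (A + B) * (a / A) + B / (A + B) * (b / B) = (a + b) / (A + B) by field_simp] at h
  have h2 := mul_le_mul_of_nonneg_left h hAB.le
  refine le_trans h2 (le_of_eq ?_)
  field_simp

/-- increments of the geometric sequence -/
noncomputable def inc (x : ℝ) (v : ℕ) : ℝ := if v = 1 then x else x ^ (v - 1) * (x - 1)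

lemma inc_pos {x : ℝ} (hx : 1 < x) (v : ℕ) : 0 < inc x v := by
  unfold inc
  have : 0 < x - 1 := by linarith
  split_ifs <;> positivity

/-- edge weights -/
noncomputable def pw' (p ρ : ℝ) (α : P.E) : ℝ≥0 := (inc ρ α.1 ^ (1 - p)).toNNReal

/-- edge energies -/
noncomputable def eta (p : ℝ) (π φ : P.E → ℝ≥0) (α : P.E) : ℝ≥0 := φ α ^ p * π α

lemma f_succ (φ : P.E → ℝ≥0) (v : ℕ) :
    P.f φ (v + 1) = P.f φ v + φ ⟨v + 1, Nat.succ_ne_zero v⟩ :=
  P.f_step φ ⟨v + 1, Nat.succ_ne_zero v⟩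

lemma f_zero (φ : P.E → ℝ≥0) : P.f φ (0 : ℕ) = 0 := P.f_top φ

lemma eta_val {p ρ : ℝ} (hρ : 1 < ρ) (φ : P.E → ℝ≥0) (α : P.E) :
    (eta p (pw' p ρ) φ α : ℝ) = (φ α : ℝ) ^ p * inc ρ α.1 ^ (1 - p) := by
  unfold eta pw'
  rw [NNReal.coe_mul, NNReal.coe_rpow, Real.coe_toNNReal _ (Real.rpow_nonneg (inc_pos hρ _).le _)]

lemma capLB {p ρ : ℝ} (hp : 1 < p) (hρ : 1 < ρ) (φ : P.E → ℝ≥0) (v : ℕ) :
    P.f φ (v + 1) ^ p * (ρ ^ (v + 1)) ^ (1 - p) ≤ P.f (eta p (pw' p ρ) φ) (v + 1) := by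
  induction v with
  | zero =>
    rw [f_succ, f_succ, f_zero, f_zero, eta_val hρ]
    simp [inc]
  | succ v ih =>
    rw [f_succ φ (v + 1), f_succ _ (v + 1), eta_val hρ]
    have h := radon hp.le (P.f_nonneg φ (v + 1)) (φ ⟨v + 1 + 1, Nat.succ_ne_zero _⟩).2
      (show 0 < ρ ^ (v + 1) by positivity) (inc_pos hρ (v + 1 + 1))
    have e : ρ ^ (v + 1) + inc ρ (v + 1 + 1) = ρ ^ (v + 1 + 1) := by
      unfold inc; rw [if_neg (by omega)]; simp; ring
    rw [e] at h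
    exact le_trans h (add_le_add_left ih _)

lemma I_eta_le {p : ℝ} (hp : 0 ≤ p) (π φ : P.E → ℝ≥0) (x : P.Pt) :
    P.I (eta p π φ) x ≤ P.energy p π φ := by
  refine ENNReal.tsum_le_tsum fun α => le_trans (indicator_le_self _ _ x) (le_of_eq ?_)
  unfold eta
  rw [ENNReal.coe_mul, ENNReal.coe_rpow_of_nonneg _ hp]

lemma cap_ge {p ρ : ℝ} (hp : 1 < p) (hρ : 1 < ρ) (α : P.E) :
    ENNReal.ofReal ((ρ ^ (1 - p)) ^ α.1) ≤ P.cap p (pw' p ρ) (P.S α) := by
  refine le_iInf₂ fun φ hφ => ?_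
  obtain ⟨v, hv⟩ := α
  obtain ⟨v, rfl⟩ := Nat.exists_eq_succ_of_ne_zero hv
  have h1 := hφ _ ((P_mem _ (v + 1)).2 le_rfl)
  rw [← P.ofReal_f, ENNReal.one_le_ofReal] at h1
  refine le_trans ?_ (I_eta_le (by linarith) _ φ (RTree.Pt.vert (v + 1)))
  rw [← P.ofReal_f]
  refine ENNReal.ofReal_le_ofReal (le_trans ?_ (capLB hp hρ φ v))
  rw [Real.rpow_pow_comm (by linarith)]
  exact le_mul_of_one_le_left (by positivity) (Real.one_le_rpow h1 (by linarith))

/-- the measure -/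
noncomputable def mu (u : ℝ) (N : ℕ) : Measure P.Pt :=
  ∑ v ∈ Finset.range N,
    ENNReal.ofReal (u ^ (v + 1) * (1 - u)) • Measure.dirac (RTree.Pt.vert (T := P) (v + 1))

lemma tele {u : ℝ} (a : ℕ) (ha : a ≠ 0) (N : ℕ) :
    ∑ v ∈ Finset.range N, (if a ≤ v + 1 then u ^ (v + 1) * (1 - u) else 0) +
      u ^ (max a (N + 1)) = u ^ a := by
  induction N with
  | zero => rw [max_eq_left (by omega)]; simp
  | succ N ih =>
    rw [Finset.sum_range_succ, ← ih]
    split_ifs with h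
    · rw [max_eq_right h, max_eq_right (by omega)]; ring
    · rw [max_eq_left (by omega), max_eq_left (by omega)]; ring

lemma mu_S {u : ℝ} (h0 : 0 ≤ u) (h1 : u ≤ 1) (N : ℕ) (α : P.E) :
    mu u N (P.S α) ≤ ENNReal.ofReal (u ^ α.1) := by
  unfold mu
  rw [Measure.coe_finsetSum, Finset.sum_apply]
  have h1' : 0 ≤ 1 - u := by linarith
  have e : ∀ v ∈ Finset.range N, (ENNReal.ofReal (u ^ (v + 1) * (1 - u)) •
      Measure.dirac (RTree.Pt.vert (T := P) (v + 1))) (P.S α) =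
      ENNReal.ofReal (if α.1 ≤ v + 1 then u ^ (v + 1) * (1 - u) else 0) := by
    intro v _
    rw [Measure.smul_apply, Measure.dirac_apply' _ (P.S_meas α), smul_eq_mul]
    split_ifs with h
    · rw [indicator_of_mem ((P_mem α _).2 h)]; simp
    · rw [indicator_of_notMem (fun h' => h ((P_mem α _).1 h'))]; simp
  rw [Finset.sum_congr rfl e, ← ENNReal.ofReal_sum_of_nonneg
    (fun v _ => by split_ifs <;> positivity)]
  refine ENNReal.ofReal_le_ofReal ?_
  rw [← tele α.1 α.2 N]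
  exact le_add_of_nonneg_right (by positivity)

lemma isocap_le {p ρ : ℝ} (hp : 1 < p) (hρ : 1 < ρ) (N : ℕ) :
    P.isocap p (pw' p ρ) (mu (ρ ^ (1 - p)) N) ≤ 1 := by
  refine iSup_le fun s => iSup_le fun hs => iSup_le fun hd => ?_
  obtain ⟨α, hα⟩ := hs
  have : s = {α} := by
    refine Finset.eq_singleton_iff_unique_mem.2 ⟨hα, fun β hβ => ?_⟩
    by_contra hne
    exact disjoint_left.1 (hd hβ hα hne) ((P_mem β (max β.1 α.1)).2 (le_max_left _ _))
      ((P_mem α (max β.1 α.1)).2 (le_max_right _ _))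
  rw [this]
  simp only [Finset.sum_singleton, Finset.mem_singleton, iUnion_iUnion_eq_left]
  refine ENNReal.div_le_of_le_mul ?_
  rw [one_mul]
  exact le_trans (mu_S (by positivity)
    (Real.rpow_le_one_of_one_le_of_nonpos hρ.le (by linarith)) N α) (cap_ge hp hρ α)

/-- the test function -/
noncomputable def ph (σ : ℝ) (N : ℕ) (α : P.E) : ℝ≥0 :=
  if α.1 ≤ N then (inc σ α.1).toNNReal else 0

lemma f_ph {σ : ℝ} (hσ : 1 < σ) (N v : ℕ) (h : v + 1 ≤ N) : P.f (ph σ N) (v + 1) = σ ^ (v + 1) := by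
  induction v with
  | zero =>
    rw [f_succ, f_zero, ph, if_pos h, Real.coe_toNNReal _ (inc_pos hσ _).le]; simp [inc]
  | succ v ih =>
    rw [f_succ, ih (by omega), ph, if_pos h, Real.coe_toNNReal _ (inc_pos hσ _).le]
    unfold inc; rw [if_neg (by simp)]; simp; ring

lemma f_eta {p ρ σ : ℝ} (hρ : 1 < ρ) (hσ : 1 < σ) (hs : σ ^ p * ρ ^ (1 - p) = 1) (N v : ℕ)
    (h : v + 1 ≤ N) : P.f (eta p (pw' p ρ) (ph σ N)) (v + 1) =
      1 + v * ((σ - 1) ^ p * (ρ - 1) ^ (1 - p)) := by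
  induction v with
  | zero =>
    rw [f_succ, f_zero, eta_val hρ, ph, if_pos h, Real.coe_toNNReal _ (inc_pos hσ _).le]
    simp [inc, hs]
  | succ v ih =>
    rw [f_succ, ih (by omega), eta_val hρ, ph, if_pos h, Real.coe_toNNReal _ (inc_pos hσ _).le]
    unfold inc
    rw [if_neg (by simp), if_neg (by simp)]
    simp only [Nat.add_sub_cancel]
    rw [Real.mul_rpow (by positivity) (by linarith), Real.mul_rpow (by positivity) (by linarith),
      ← Real.rpow_pow_comm (by linarith), ← Real.rpow_pow_comm (by linarith)]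
    have : (σ ^ p) ^ (v + 1) * (ρ ^ (1 - p)) ^ (v + 1) = 1 := by rw [← mul_pow, hs, one_pow]
    push_cast
    linear_combination ((σ - 1) ^ p * (ρ - 1) ^ (1 - p)) * this

lemma energy_ph {p : ℝ} (hp : 0 < p) (π : P.E → ℝ≥0) (σ : ℝ) (N : ℕ) :
    P.energy p π (ph σ N) ≤ P.I (eta p π (ph σ N)) (RTree.Pt.vert N) := by
  refine ENNReal.tsum_le_tsum fun α => ?_
  by_cases h : α.1 ≤ N
  · rw [indicator_of_mem ((P_mem α N).2 h)]
    unfold eta
    rw [ENNReal.coe_mul, ENNReal.coe_rpow_of_nonneg _ hp.le]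
  · simp [ph, h, hp]

lemma int_ph {p ρ σ : ℝ} (hp : 0 < p) (hρ : 1 < ρ) (hσ : 1 < σ) (hs : σ ^ p * ρ ^ (1 - p) = 1)
    (hu : ρ ^ (1 - p) ≤ 1) (N : ℕ) :
    ∫⁻ x, P.I (ph σ N) x ^ p ∂(mu (ρ ^ (1 - p)) N) = ENNReal.ofReal (N * (1 - ρ ^ (1 - p))) := by
  unfold mu
  have h1' : 0 ≤ 1 - ρ ^ (1 - p) := by linarith
  rw [lintegral_finsetSum_measure]
  have e : ∀ v ∈ Finset.range N, ∫⁻ x, P.I (ph σ N) x ^ p ∂(ENNReal.ofReal
      ((ρ ^ (1 - p)) ^ (v + 1) * (1 - ρ ^ (1 - p))) •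
        Measure.dirac (RTree.Pt.vert (T := P) (v + 1))) = ENNReal.ofReal (1 - ρ ^ (1 - p)) := by
    intro v hv
    rw [lintegral_smul_measure, lintegral_dirac' _ ((P.I_meas _).pow_const _), ← P.ofReal_f,
      f_ph hσ N v (Finset.mem_range.1 hv), smul_eq_mul,
      ENNReal.ofReal_rpow_of_nonneg (by positivity) hp.le, ← ENNReal.ofReal_mul (by positivity),
      ← Real.rpow_pow_comm (by linarith)]
    congr 1
    have : (σ ^ p) ^ (v + 1) * (ρ ^ (1 - p)) ^ (v + 1) = 1 := by rw [← mul_pow, hs, one_pow]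
    linear_combination (1 - ρ ^ (1 - p)) * this
  rw [Finset.sum_congr rfl e, Finset.sum_const, Finset.card_range, nsmul_eq_mul,
    ENNReal.ofReal_mul (Nat.cast_nonneg N), ENNReal.ofReal_natCast]

lemma key {p ρ k : ℝ} (hp : 1 < p) (hρ : 1 < ρ) (hk : 0 ≤ k)
    (h : ∀ (π : P.E → ℝ≥0) (μ : Measure P.Pt),
      P.hardy p π μ ≤ ENNReal.ofReal k * P.isocap p π μ) :
    (p - 1) * (Real.conjExponent p) ^ p * ρ ^ (-p) ≤ k := by
  have hpq : p.HolderConjugate (Real.conjExponent p) := Real.HolderConjugate.conjExponent hp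
  set q := Real.conjExponent p
  have hq : 1 < q := hpq.symm.lt
  have hρ0 : 0 < ρ := by linarith
  set σ := ρ ^ (1 / q) with hσdef
  have hσ : 1 < σ := Real.one_lt_rpow hρ (by positivity)
  have hs : σ ^ p * ρ ^ (1 - p) = 1 := by
    rw [hσdef, ← Real.rpow_mul hρ0.le, ← Real.rpow_add hρ0,
      show 1 / q * p = p / q by ring, hpq.div_conj_eq_sub_one]
    simp
  have hu : ρ ^ (1 - p) ≤ 1 := Real.rpow_le_one_of_one_le_of_nonpos hρ.le (by linarith)
  set c := (σ - 1) ^ p * (ρ - 1) ^ (1 - p) with hc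
  set a := 1 - ρ ^ (1 - p) with ha
  have hσ1 : 0 < σ - 1 := by linarith
  have hρ1 : 0 < ρ - 1 := by linarith
  have hc0 : 0 < c := by positivity
  have step : ∀ N : ℕ, ((N : ℝ) + 1) * a ≤ k * (1 + N * c) := by
    intro N
    have h1 : P.hardy p (pw' p ρ) (mu (ρ ^ (1 - p)) (N + 1)) ≤ ENNReal.ofReal k :=
      le_trans (h _ _) (by simpa using mul_le_mul_right (isocap_le hp hρ (N + 1)) _)
    have h2 : ENNReal.ofReal (((N : ℝ) + 1) * a) / ENNReal.ofReal (1 + N * c) ≤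
        P.hardy p (pw' p ρ) (mu (ρ ^ (1 - p)) (N + 1)) := by
      refine le_sInf fun C hC => ENNReal.div_le_of_le_mul ?_
      have h3 := hC (ph σ (N + 1))
      rw [int_ph (by linarith) hρ hσ hs hu] at h3
      push_cast at h3
      refine le_trans h3 (mul_le_mul_right (le_trans (energy_ph (by linarith) _ _ _) ?_) _)
      rw [← P.ofReal_f, f_eta hρ hσ hs (N + 1) N le_rfl]
    have h4 := le_trans h2 h1
    have hpos : 0 < 1 + N * c := by positivity
    rw [← ENNReal.ofReal_div_of_pos hpos, ENNReal.ofReal_le_ofReal_iff hk, div_le_iff₀ hpos] at h4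
    exact h4
  have h5 : a ≤ k * c := by
    by_contra hlt
    have hlt : k * c < a := not_le.1 hlt
    obtain ⟨N, hN⟩ := exists_nat_gt (k / (a - k * c))
    rw [div_lt_iff₀ (by linarith)] at hN
    have := step N
    have : 0 ≤ k * c := by positivity
    nlinarith
  have h6 : (p - 1) * (ρ - 1) * ρ ^ (-p) ≤ a := by
    have l1 := Real.one_sub_inv_le_log_of_pos hρ0
    have l2 : (p - 1) * Real.log ρ + 1 ≤ ρ ^ (p - 1) := by
      rw [Real.rpow_def_of_pos hρ0, mul_comm (Real.log ρ)]; exact Real.add_one_le_exp _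
    have l3 : ρ ^ (p - 1) * ρ ^ (1 - p) = 1 := by rw [← Real.rpow_add hρ0]; simp
    have l4 : ρ ^ (-p) = ρ⁻¹ * ρ ^ (1 - p) := by
      rw [← Real.rpow_neg_one, ← Real.rpow_add hρ0]; congr 1; ring
    have l5 : 0 < ρ ^ (1 - p) := by positivity
    have l6 : (p - 1) * (1 - ρ⁻¹) ≤ ρ ^ (p - 1) - 1 := by nlinarith
    have l7 := mul_le_mul_of_nonneg_right l6 l5.le
    rw [l4, ha]
    have l8 : (ρ - 1) * ρ⁻¹ = 1 - ρ⁻¹ := by field_simp
    calc (p - 1) * (ρ - 1) * (ρ⁻¹ * ρ ^ (1 - p)) = (p - 1) * ((ρ - 1) * ρ⁻¹) * ρ ^ (1 - p) := by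
          ring
      _ ≤ _ := by rw [l8]; linarith
  have h7 : c ≤ (ρ - 1) / q ^ p := by
    have b1 : σ - 1 ≤ (ρ - 1) / q := by
      have := rpow_one_add_le_one_add_mul_self (s := ρ - 1) (by linarith) (p := 1 / q)
        (by positivity) (by rw [div_le_one (by linarith)]; linarith)
      rw [show 1 + (ρ - 1) = ρ by ring] at this
      rw [hσdef, show (ρ - 1) / q = 1 / q * (ρ - 1) by ring]; linarith
    have b2 := Real.rpow_le_rpow hσ1.le b1 (by linarith : 0 ≤ p)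
    refine le_trans (mul_le_mul_of_nonneg_right b2 (by positivity)) (le_of_eq ?_)
    rw [Real.div_rpow hρ1.le (by linarith), div_mul_eq_mul_div, ← Real.rpow_add hρ1]
    simp
  have h8 : (p - 1) * (ρ - 1) * ρ ^ (-p) ≤ k * ((ρ - 1) / q ^ p) :=
    le_trans h6 (le_trans h5 (mul_le_mul_of_nonneg_left h7 hk))
  have hqp : 0 < q ^ p := by positivity
  rw [mul_div_assoc', le_div_iff₀ hqp] at h8
  nlinarith

theorem lower {p : ℝ} (hp : 1 < p) (K : ℝ≥0∞)
    (h : ∀ (π : P.E → ℝ≥0) (μ : Measure P.Pt), P.hardy p π μ ≤ K * P.isocap p π μ) :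
    ENNReal.ofReal (p ^ p / (p - 1) ^ (p - 1)) ≤ K := by
  by_cases hK : K = ⊤
  · rw [hK]; exact le_top
  rw [← ENNReal.ofReal_toReal hK] at h ⊢
  refine ENNReal.ofReal_le_ofReal ?_
  have hpq : p.HolderConjugate (Real.conjExponent p) := Real.HolderConjugate.conjExponent hp
  have e : p ^ p / (p - 1) ^ (p - 1) = (p - 1) * (Real.conjExponent p) ^ p * (1 : ℝ) ^ (-p) := by
    rw [← const_eq hpq, Real.one_rpow, mul_one, ← hpq.div_conj_eq_sub_one]; ring
  rw [e]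
  have hc : ContinuousAt (fun ρ : ℝ => (p - 1) * (Real.conjExponent p) ^ p * ρ ^ (-p)) 1 :=
    continuousAt_const.mul (Real.continuousAt_rpow_const 1 (-p) (Or.inl one_ne_zero))
  refine le_of_tendsto (hc.tendsto.mono_left (nhdsWithin_le_nhds (s := Ioi 1))) ?_
  filter_upwards [self_mem_nhdsWithin] with ρ hρ
  exact key hp hρ ENNReal.toReal_nonneg h

end Pool.Agent.H44.MZ
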