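import Pool.Agent.H43.PL2

open MeasureTheory Set Real

namespace Pool.Agent.H44.Met

variable {ι : Type} [Fintype ι]

lemma pl_iota {a b : ℝ} (ha : 0 < a) (hb : 0 < b) (hab : a + b = 1) :
    H43.PL2.HasPL a b (volume : Measure (ι → ℝ)) :=
  H43.PL2.HasPL.of_equiv (MeasurableEquiv.arrowCongr' (Fintype.equivFin ι).symm (MeasurableEquiv.refl ℝ))
    (volume_preserving_arrowCongr' _ _ (MeasurePreserving.id _)) (fun _ _ => rfl)
    (H43.PL2.hasPL_pi ha hb hab _)

noncomputable def W (M : Set (ι → ℝ)) (e : ι) (s : ℝ) : ℝ := volume.real (M ∩ {x | x e < s})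

lemma meas_lt (e : ι) (s : ℝ) : MeasurableSet {x : ι → ℝ | x e < s} :=
  measurableSet_lt (measurable_pi_apply e) measurable_const

lemma logc {M : Set (ι → ℝ)} (hM : MeasurableSet M) (hc : Convex ℝ M) (hf : volume M ≠ ⊤) (e : ι)
    {u t : ℝ} (hu : 0 < u) (ht : 0 < t) (h : exp 1 * W M e 1 < W M e (1 + u)) :
    W M e (1 - t * u) ≤ W M e 1 * exp (-t) := by
  have hfin : ∀ s, volume (M ∩ {x | x e < s}) ≠ ⊤ := fun s =>
    ne_top_of_le_ne_top hf (measure_mono inter_subset_left)
  have ha : 0 < t / (t + 1) := by positivity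
  have hb : 0 < 1 / (t + 1) := by positivity
  have hab : t / (t + 1) + 1 / (t + 1) = 1 := by field_simp
  have key := (pl_iota (ι := ι) ha hb hab).bm ha hb (hM.inter (meas_lt e (1 + u)))
    (hM.inter (meas_lt e (1 - t * u))) (hM.inter (meas_lt e 1)) (by
      rintro x ⟨hx, hx2⟩ y ⟨hy, hy2⟩
      refine ⟨hc hx hy ha.le hb.le hab, ?_⟩
      simp only [mem_ofPred_eq, Pi.add_apply, Pi.smul_apply, smul_eq_mul] at hx2 hy2 ⊢
      have h1 := mul_lt_mul_of_pos_left hx2 ha
      have h2 := mul_lt_mul_of_pos_left hy2 hb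
      have h3 : t / (t + 1) * (1 + u) + 1 / (t + 1) * (1 - t * u) = 1 := by field_simp; ring
      linarith)
  have key2 : W M e (1 + u) ^ (t / (t + 1)) * W M e (1 - t * u) ^ (1 / (t + 1)) ≤ W M e 1 := by
    have := ENNReal.toReal_mono (hfin 1) key
    rwa [ENNReal.toReal_mul, ← ENNReal.toReal_rpow, ← ENNReal.toReal_rpow] at this
  have h0 : ∀ s, 0 ≤ W M e s := fun s => measureReal_nonneg
  rcases (h0 (1 - t * u)).eq_or_lt with hz | hz
  · rw [← hz]; exact mul_nonneg (h0 1) (exp_pos _).le
  have hB : 0 < W M e (1 + u) := lt_of_le_of_lt (mul_nonneg (exp_pos _).le (h0 1)) h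
  have hE : 0 < W M e 1 := lt_of_lt_of_le (by positivity) key2
  have l1 := log_le_log (by positivity) key2
  rw [log_mul (by positivity) (by positivity), log_rpow hB, log_rpow hz] at l1
  have l2 := log_le_log (by positivity) h.le
  rw [log_mul (exp_pos _).ne' hE.ne', log_exp] at l2
  rw [← log_le_log_iff hz (by positivity), log_mul hE.ne' (exp_pos _).ne', log_exp]
  have l3 : t / (t + 1) * (1 + log (W M e 1)) + 1 / (t + 1) * log (W M e (1 - t * u)) ≤
      log (W M e 1) := by
    have := mul_le_mul_of_nonneg_left l2 ha.le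
    linarith
  have l4 := mul_le_mul_of_nonneg_left l3 (show 0 ≤ t + 1 by positivity)
  have l5 : (t + 1) * (t / (t + 1) * (1 + log (W M e 1)) + 1 / (t + 1) *
      log (W M e (1 - t * u))) = t * (1 + log (W M e 1)) + log (W M e (1 - t * u)) := by
    field_simp
  rw [l5] at l4
  linarith

lemma Z_le {u1 u2 : ℝ} (h0 : 0 ≤ u1) (h1 : u1 ≤ 1) (h2 : 0 < u2) :
    ∫ x in Ioc (0 : ℝ) 2, exp (-(log 4 * (Iio (1 + u1)).indicator 1 x + max (1 - x) 0 / u2)) ≤
      u2 / 4 + u1 / 4 + (1 - u1) := by
  have hi : 0 < u2⁻¹ := by positivity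
  have i1 : Integrable ((Iic (1 : ℝ)).indicator fun x => 4⁻¹ * exp (-u2⁻¹) * exp (u2⁻¹ * x)) :=
    (integrable_indicator_iff measurableSet_Iic).2 ((integrableOn_exp_mul_Iic hi 1).const_mul _)
  have i2 : Integrable ((Ico (1 : ℝ) (1 + u1)).indicator fun _ => (4⁻¹ : ℝ)) :=
    (integrable_indicator_iff measurableSet_Ico).2 (integrableOn_const (by simp))
  have i3 : Integrable ((Icc (1 + u1) (2 : ℝ)).indicator fun _ => (1 : ℝ)) :=
    (integrable_indicator_iff measurableSet_Icc).2 (integrableOn_const (by simp))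
  rw [← integral_indicator measurableSet_Ioc]
  refine (integral_mono_of_nonneg (Filter.Eventually.of_forall fun x =>
    indicator_nonneg (fun _ _ => (exp_pos _).le) x) ((i1.add i2).add i3)
    (Filter.Eventually.of_forall fun x => ?_)).trans (le_of_eq ?_)
  · have e4 : exp (-log 4) = 4⁻¹ := by rw [exp_neg, exp_log (by norm_num)]
    simp only [Pi.add_apply]
    have n1 : 0 ≤ (Iic (1 : ℝ)).indicator (fun x => 4⁻¹ * exp (-u2⁻¹) * exp (u2⁻¹ * x)) x :=
      indicator_nonneg (fun _ _ => by positivity) x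
    have n2 : 0 ≤ (Ico (1 : ℝ) (1 + u1)).indicator (fun _ => (4⁻¹ : ℝ)) x :=
      indicator_nonneg (fun _ _ => by positivity) x
    have n3 : 0 ≤ (Icc (1 + u1) (2 : ℝ)).indicator (fun _ => (1 : ℝ)) x :=
      indicator_nonneg (fun _ _ => by positivity) x
    by_cases hx : x ∈ Ioc (0 : ℝ) 2
    · rw [indicator_of_mem hx]
      rcases lt_or_ge x 1 with a | a
      · rw [indicator_of_mem (show x ∈ Iio (1 + u1) by simp; linarith),
          indicator_of_mem (show x ∈ Iic 1 from a.le), max_eq_left (by linarith)]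
        have : exp (-(log 4 * (1 : ℝ → ℝ) x + (1 - x) / u2)) =
            4⁻¹ * exp (-u2⁻¹) * exp (u2⁻¹ * x) := by
          rw [← e4, ← exp_add, ← exp_add]; congr 1; simp; ring
        linarith
      · rw [max_eq_right (by linarith)]
        rcases lt_or_ge x (1 + u1) with b | b
        · rw [indicator_of_mem (show x ∈ Iio (1 + u1) from b),
            indicator_of_mem (show x ∈ Ico 1 (1 + u1) from ⟨a, b⟩)]
          simp only [Pi.one_apply, mul_one, zero_div, add_zero, e4]
          linarith
        · rw [indicator_of_notMem (show x ∉ Iio (1 + u1) by simpa using b),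
            indicator_of_mem (show x ∈ Icc (1 + u1) 2 from ⟨b, hx.2⟩)]
          simp only [mul_zero, zero_div, add_zero, neg_zero, exp_zero]
          linarith
    · rw [indicator_of_notMem hx]; linarith
  · rw [integral_add' (i1.add i2) i3, integral_add' i1 i2, integral_indicator measurableSet_Iic,
      integral_indicator measurableSet_Ico, integral_indicator measurableSet_Icc,
      integral_const_mul, integral_exp_mul_Iic hi]
    simp only [integral_const, MeasurableSet.univ, measureReal_restrict_apply, univ_inter,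
      smul_eq_mul, mul_one]
    rw [Real.volume_real_Ico_of_le (by linarith), Real.volume_real_Icc_of_le (by linarith), exp_neg]
    field_simp
    ring

lemma coord {M : Set (ι → ℝ)} (hM : MeasurableSet M) (hc : Convex ℝ M) (hf : volume M ≠ ⊤)
    (hb : ∀ x ∈ M, ∀ e, x e ∈ Ioc (0 : ℝ) 2) (e : ι) (K : ℕ) (hK : 0 < K) :
    ∃ (ψ : ℝ → ℝ) (z : ℝ), Measurable ψ ∧ (∀ x, 0 ≤ ψ x) ∧ (∃ B, ∀ x ∈ Ioc (0 : ℝ) 2, ψ x ≤ B) ∧
      ∫ x in Ioc (0 : ℝ) 2, exp (-ψ x) ≤ exp z ∧
      z * volume.real M + ∫ x in M, ψ (x e) ≤ 5 * W M e 1 + volume.real M / K := by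
  have h0 : ∀ s, 0 ≤ W M e s := fun s => measureReal_nonneg
  have hK' : (0 : ℝ) < K := by exact_mod_cast hK
  have he1 := exp_one_lt_d9
  have he2 := exp_one_gt_d9
  have hV : 0 ≤ volume.real M := measureReal_nonneg
  rcases le_or_gt (volume.real M) (exp 1 * W M e 1) with hA | hA
  · refine ⟨fun _ => 0, 1, measurable_const, fun _ => le_rfl, ⟨0, fun _ _ => le_rfl⟩, ?_, ?_⟩
    · simp; linarith
    · simp only [one_mul, integral_zero, add_zero]
      have : 0 ≤ volume.real M / K := by positivity
      nlinarith [h0 1]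
  have hex : ∃ i : ℕ, exp 1 * W M e 1 < W M e (1 + (i + 1 : ℝ) / K) ∧ i ≤ K := by
    refine ⟨K, ?_, le_rfl⟩
    have : M ∩ {x | x e < 1 + (K + 1 : ℝ) / K} = M := by
      refine inter_eq_left.2 fun x hx => ?_
      have h1 := (hb x hx e).2
      have h2 : 1 < (K + 1 : ℝ) / K := by rw [lt_div_iff₀ hK']; linarith
      simp only [mem_ofPred_eq]; linarith
    unfold W; rw [this]; exact hA
  classical
  set i := Nat.find hex with hi
  obtain ⟨s1, s2⟩ := Nat.find_spec hex
  rw [← hi] at s1 s2
  have s3 : W M e (1 + (i : ℝ) / K) ≤ exp 1 * W M e 1 := by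
    rcases Nat.eq_zero_or_pos i with h | h
    · rw [h]; simp only [Nat.cast_zero, zero_div, add_zero]; nlinarith [h0 1]
    · have := Nat.find_min hex (m := i - 1) (by omega)
      rw [not_and_or] at this
      rcases this with h' | h'
      · rw [Nat.cast_sub h, Nat.cast_one, sub_add_cancel] at h'; exact not_lt.1 h'
      · omega
  set u1 : ℝ := i / K with hu1
  set u2 : ℝ := (i + 1) / K with hu2
  have a0 : 0 ≤ u1 := by positivity
  have a1 : u1 ≤ 1 := by rw [hu1, div_le_one hK']; exact_mod_cast s2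
  have a2 : 0 < u2 := by positivity
  have a3 : u2 = u1 + 1 / K := by rw [hu1, hu2]; ring
  have hl4 : 0 ≤ log 4 := log_nonneg (by norm_num)
  have hl4' : log 4 ≤ 1.4 := by
    have : log 4 = 2 * log 2 := by rw [show (4 : ℝ) = 2 ^ 2 by norm_num, log_pow]; norm_num
    have := log_two_lt_d9
    linarith
  have : IsFiniteMeasure (volume.restrict M) := ⟨by simpa using hf.lt_top⟩
  have m2 : Measurable fun x : ℝ => max (1 - x) 0 / u2 := by fun_prop
  have b2 : ∀ x ∈ Ioc (0 : ℝ) 2, max (1 - x) 0 / u2 ≤ 1 / u2 := fun x hx =>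
    div_le_div_of_nonneg_right (max_le (by linarith [hx.1]) zero_le_one) a2.le
  have n2 : ∀ x : ℝ, 0 ≤ max (1 - x) 0 / u2 := fun x => div_nonneg (le_max_right _ _) a2.le
  refine ⟨fun x => log 4 * (Iio (1 + u1)).indicator 1 x + max (1 - x) 0 / u2, 1 / K,
    ((measurable_one.indicator measurableSet_Iio).const_mul _).add m2,
    fun x => add_nonneg (mul_nonneg hl4 (indicator_nonneg (fun _ _ => zero_le_one) x)) (n2 x),
    ⟨log 4 + 1 / u2, fun x hx => add_le_add (mul_le_of_le_one_right hl4
      (indicator_le_self' (fun _ _ => zero_le_one) x)) (b2 x hx)⟩, ?_, ?_⟩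
  · refine (Z_le a0 a1 a2).trans ?_
    have := add_one_le_exp (1 / (K : ℝ))
    have : 0 < 1 / (K : ℝ) := by positivity
    linarith
  · have j1 : Integrable (fun x : ι → ℝ => (Iio (1 + u1)).indicator (1 : ℝ → ℝ) (x e))
        (volume.restrict M) :=
      (integrable_const (1 : ℝ)).indicator (meas_lt e (1 + u1))
    have j2 : Integrable (fun x : ι → ℝ => max (1 - x e) 0 / u2) (volume.restrict M) := by
      refine Integrable.of_bound (m2.comp (measurable_pi_apply e)).aestronglyMeasurable (1 / u2) ?_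
      filter_upwards [ae_restrict_mem hM] with x hx
      rw [Real.norm_of_nonneg (n2 _)]; exact b2 _ (hb x hx e)
    rw [integral_add (j1.const_mul _) j2, integral_const_mul]
    have k1 : ∫ x in M, (Iio (1 + u1)).indicator (1 : ℝ → ℝ) (x e) = W M e (1 + u1) := by
      have := integral_indicator_one (μ := volume.restrict M) (meas_lt e (1 + u1))
      rw [measureReal_restrict_apply (meas_lt e _), inter_comm] at this
      exact this
    have k2 : ∫ x in M, max (1 - x e) 0 / u2 ≤ W M e 1 := by
      rw [j2.integral_eq_integral_meas_lt (Filter.Eventually.of_forall fun x => n2 _)]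
      refine (integral_mono_of_nonneg (g := fun t => W M e 1 * exp (-t))
        (Filter.Eventually.of_forall fun _ => measureReal_nonneg)
        ((integrableOn_exp_neg_Ioi 0).const_mul _) ?_).trans ?_
      · filter_upwards [ae_restrict_mem measurableSet_Ioi] with t ht
        have ht' : 0 < t := ht
        have : {a : ι → ℝ | t < max (1 - a e) 0 / u2} = {x | x e < 1 - t * u2} := by
          ext a
          simp only [mem_ofPred_eq, lt_div_iff₀ a2, lt_max_iff]
          constructor
          · rintro (h | h)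
            · linarith
            · nlinarith
          · intro h; left; linarith
        rw [this, measureReal_restrict_apply (meas_lt e _), inter_comm]
        exact logc hM hc hf e a2 ht' s1
      · rw [integral_const_mul, integral_exp_neg_Ioi_zero, mul_one]
    rw [k1]
    have k3 : log 4 * W M e (1 + u1) ≤ 1.4 * (exp 1 * W M e 1) :=
      mul_le_mul hl4' s3 (h0 _) (by norm_num)
    have k4 : 1 / (K : ℝ) * volume.real M = volume.real M / K := by ring
    nlinarith [h0 1]

lemma gibbs {M : Set (ι → ℝ)} (hM : MeasurableSet M) (hc : Convex ℝ M) (hf : volume M ≠ ⊤)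
    (hb : ∀ x ∈ M, ∀ e, x e ∈ Ioc (0 : ℝ) 2) (hV : 0 < volume.real M) :
    volume.real M * log (volume.real M) ≤ 5 * ∑ e, W M e 1 := by
  set V := volume.real M with hVd
  have : IsFiniteMeasure (volume.restrict M) := ⟨by simpa using hf.lt_top⟩
  have key : ∀ K : ℕ, 0 < K → V * log V ≤ 5 * ∑ e, W M e 1 + Fintype.card ι * V / K := by
    intro K hK
    choose ψ z hm hn hB hZ hE using fun e => coord hM hc hf hb e K hK
    choose B hB using hB
    have iψ : ∀ e, Integrable (fun x : ι → ℝ => ψ e (x e)) (volume.restrict M) := fun e => by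
      refine Integrable.of_bound ((hm e).comp (measurable_pi_apply e)).aestronglyMeasurable (B e) ?_
      filter_upwards [ae_restrict_mem hM] with x hx
      rw [Real.norm_of_nonneg (hn _ _)]; exact hB e _ (hb x hx e)
    set S : (ι → ℝ) → ℝ := fun x => ∑ e, ψ e (x e) with hS
    have iS : Integrable S (volume.restrict M) := integrable_finsetSum _ fun e _ => iψ e
    set c := (∫ x in M, S x) / V with hcd
    let φ : ι → ℝ → ℝ := fun e => (Ioc (0 : ℝ) 2).indicator fun y => exp (-ψ e y)
    have iφ : ∀ e, Integrable (φ e) := fun e => by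
      refine (integrable_indicator_iff measurableSet_Ioc).2 ?_
      have : IsFiniteMeasure (volume.restrict (Ioc (0 : ℝ) 2)) := ⟨by simp⟩
      refine Integrable.of_bound (hm e).neg.exp.aestronglyMeasurable 1
        (Filter.Eventually.of_forall fun y => ?_)
      rw [Real.norm_of_nonneg (exp_pos _).le]
      exact exp_le_one_iff.2 (by linarith [hn e y])
    have nφ : ∀ e y, 0 ≤ φ e y := fun e y => indicator_nonneg (fun _ _ => (exp_pos _).le) y
    have iΦ : Integrable (fun x : ι → ℝ => ∏ e, φ e (x e)) := Integrable.fintype_prod iφ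
    have t1 : ∫ x : ι → ℝ, ∏ e, φ e (x e) ≤ exp (∑ e, z e) := by
      rw [integral_fintype_prod_volume_eq_prod, exp_sum]
      refine Finset.prod_le_prod (fun e _ => integral_nonneg (nφ e)) fun e _ => ?_
      rw [integral_indicator measurableSet_Ioc]; exact hZ e
    have t2 : ∫ x in M, ∏ e, φ e (x e) ≤ ∫ x : ι → ℝ, ∏ e, φ e (x e) :=
      setIntegral_le_integral iΦ
        (Filter.Eventually.of_forall fun x => Finset.prod_nonneg fun e _ => nφ e _)
    have t3 : ∫ x in M, exp (-c) * (1 + c - S x) ≤ ∫ x in M, ∏ e, φ e (x e) := by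
      refine setIntegral_mono_on (((integrable_const _).sub iS).const_mul _) iΦ.integrableOn hM
        fun x hx => ?_
      have : ∏ e, φ e (x e) = exp (-c) * exp (c - S x) := by
        rw [← exp_add, show -c + (c - S x) = ∑ e, -ψ e (x e) by
          simp only [hS, Finset.sum_neg_distrib]; ring, exp_sum]
        exact Finset.prod_congr rfl fun e _ => indicator_of_mem (hb x hx e) _
      rw [this]
      exact mul_le_mul_of_nonneg_left (by linarith [add_one_le_exp (c - S x)]) (exp_pos _).le
    have t4 : ∫ x in M, exp (-c) * (1 + c - S x) = exp (-c) * V := by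
      rw [integral_const_mul, integral_sub (integrable_const _) iS]
      simp only [integral_const, MeasurableSet.univ, measureReal_restrict_apply, univ_inter,
        smul_eq_mul]
      rw [← hVd, hcd]; field_simp; ring
    have t5 : -c + log V ≤ ∑ e, z e := by
      rw [← exp_le_exp, exp_add, exp_log hV]; linarith
    have t6 : c * V = ∑ e, ∫ x in M, ψ e (x e) := by
      rw [hcd, div_mul_cancel₀ _ hV.ne', hS, integral_finsetSum _ fun e _ => iψ e]
    have t7 := Finset.sum_le_sum fun e (_ : e ∈ Finset.univ) => hE e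
    rw [Finset.sum_add_distrib, Finset.sum_add_distrib, ← Finset.sum_mul, ← Finset.mul_sum,
      Finset.sum_const, Finset.card_univ, nsmul_eq_mul, ← t6] at t7
    have t8 := mul_le_mul_of_nonneg_right t5 hV.le
    rw [mul_div_assoc]
    nlinarith
  refine le_of_forall_pos_le_add fun η hη => ?_
  obtain ⟨K, hK⟩ := exists_nat_gt (Fintype.card ι * V / η)
  have hK0 : (0 : ℝ) < K := lt_of_le_of_lt (by positivity) hK
  refine (key K (by exact_mod_cast hK0)).trans ?_
  rw [div_lt_iff₀ hη] at hK
  have : Fintype.card ι * V / K ≤ η := by rw [div_le_iff₀ hK0]; linarith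
  linarith

end Pool.Agent.H44.Met
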