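import Pool.Agent.H44.Met1

open MeasureTheory Set Real

namespace Pool.Agent.H44.Met

variable {ι : Type} [Fintype ι] [DecidableEq ι]

def MT (T : Finset (ι × ι × ι)) : Set (ι → ℝ) :=
  {d | (∀ e, 0 < d e ∧ d e ≤ 2) ∧ ∀ t ∈ T, d t.2.2 ≤ d t.1 + d t.2.1}

lemma MT_meas (T : Finset (ι × ι × ι)) : MeasurableSet (MT T) := by
  have : MT T = (⋂ e, (fun d : ι → ℝ => d e) ⁻¹' Ioc 0 2) ∩
      ⋂ t ∈ T, {d : ι → ℝ | d t.2.2 ≤ d t.1 + d t.2.1} := by
    ext d; simp [MT]
  rw [this]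
  exact (MeasurableSet.iInter fun e => measurable_pi_apply e measurableSet_Ioc).inter
    (Finset.measurableSet_biInter _ fun t _ => measurableSet_le (by fun_prop) (by fun_prop))

lemma MT_convex (T : Finset (ι × ι × ι)) : Convex ℝ (MT T) := by
  intro x hx y hy a b ha hb hab
  refine ⟨fun e => ?_, fun t ht => ?_⟩
  · exact convex_Ioc (0 : ℝ) 2 (hx.1 e) (hy.1 e) ha hb hab
  · simp only [Pi.add_apply, Pi.smul_apply, smul_eq_mul]
    nlinarith [mul_le_mul_of_nonneg_left (hx.2 t ht) ha, mul_le_mul_of_nonneg_left (hy.2 t ht) hb]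

lemma MT_fin (T : Finset (ι × ι × ι)) : volume (MT T) ≠ ⊤ := by
  refine ne_top_of_le_ne_top (isCompact_Icc (a := (0 : ι → ℝ)) (b := fun _ => 2)).measure_lt_top.ne
    (measure_mono fun d hd => ⟨fun e => (hd.1 e).1.le, fun e => (hd.1 e).2⟩)

lemma wsum (x y : ℝ) (A : Finset ι) :
    ∑ Λ : Finset ι, (if A ⊆ Λ then ∏ g, (if g ∈ Λ then x else y) else 0) =
      ∏ g, (x + if g ∈ A then 0 else y) := by
  rw [Finset.prod_add, Finset.powerset_univ]
  refine Finset.sum_congr rfl fun Λ _ => ?_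
  split_ifs with h
  · rw [Finset.prod_ite]
    congr 1
    · simp
    · refine Finset.prod_congr (by ext; simp) fun g hg => ?_
      rw [if_neg fun hA => (Finset.mem_sdiff.1 hg).2 (h hA)]
  · obtain ⟨g, hg, hg'⟩ := Finset.not_subset.1 h
    rw [Finset.prod_eq_zero (s := Finset.univ \ Λ) (i := g) (by simp [hg']) (by simp [hg]), mul_zero]

lemma vol_lower (T : Finset (ι × ι × ι)) (hT : ∀ t ∈ T, t.1 ≠ t.2.1) {δ : ℝ} (h0 : 0 < δ)
    (h1 : δ ≤ 1 / 6) :
    exp (Fintype.card ι * δ / 2 - 16 * T.card * δ ^ 3) ≤ volume.real (MT T) := by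
  classical
  let opp : Finset ι → ι → Prop := fun Λ g => ∃ t ∈ T, t.2.2 = g ∧ t.1 ∈ Λ ∧ t.2.1 ∈ Λ
  let lo : Finset ι → ι → ℝ := fun Λ g => if g ∈ Λ then 1 - δ else 1 + δ
  let hi : Finset ι → ι → ℝ := fun Λ g =>
    if g ∈ Λ then 1 + δ else if opp Λ g then 2 - 2 * δ else 2
  let box : Finset ι → Set (ι → ℝ) := fun Λ => Set.pi univ fun g => Ico (lo Λ g) (hi Λ g)
  have hsub : ∀ Λ, box Λ ⊆ MT T := by
    intro Λ d hd
    have hd' : ∀ g, lo Λ g ≤ d g ∧ d g < hi Λ g := fun g => hd g (mem_univ g)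
    have l1 : ∀ g, 1 - δ ≤ d g := fun g => by
      have := (hd' g).1; simp only [lo] at this; split_ifs at this <;> linarith
    have l2 : ∀ g, d g ≤ 2 := fun g => by
      have := (hd' g).2; simp only [hi] at this; split_ifs at this <;> linarith
    have l3 : ∀ g, g ∉ Λ → 1 + δ ≤ d g := fun g hg => by
      have := (hd' g).1; simpa only [lo, hg, if_false] using this
    refine ⟨fun e => ⟨by linarith [l1 e], l2 e⟩, fun t ht => ?_⟩
    by_cases a : t.1 ∈ Λ
    · by_cases b : t.2.1 ∈ Λ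
      · have ho : opp Λ t.2.2 := ⟨t, ht, rfl, a, b⟩
        have := (hd' t.2.2).2
        simp only [hi, ho, if_true] at this
        split_ifs at this <;> linarith [l1 t.1, l1 t.2.1]
      · linarith [l1 t.1, l3 _ b, l2 t.2.2]
    · linarith [l1 t.2.1, l3 _ a, l2 t.2.2]
  have hmeas : ∀ Λ, MeasurableSet (box Λ) := fun Λ =>
    MeasurableSet.univ_pi fun _ => measurableSet_Ico
  have hdisj : Pairwise (Function.onFun Disjoint box) := by
    intro Λ Λ' hne
    refine Set.disjoint_left.2 fun d hd hd' => hne ?_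
    ext g
    have a := hd g (mem_univ g)
    have b := hd' g (mem_univ g)
    simp only [lo, hi, mem_Ico] at a b
    by_cases c : g ∈ Λ <;> by_cases c' : g ∈ Λ' <;> simp only [c, c', if_true, if_false] at a b ⊢ <;>
      linarith [a.1, a.2, b.1, b.2]
  have hsum : ∑ Λ, volume.real (box Λ) ≤ volume.real (MT T) := by
    rw [← measureReal_iUnion_fintype hdisj hmeas (fun Λ =>
      ne_top_of_le_ne_top (MT_fin T) (measure_mono (hsub Λ)))]
    exact measureReal_mono (iUnion_subset hsub) (MT_fin T)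
  refine le_trans ?_ hsum
  let w : Finset ι → ℝ := fun Λ => ∏ g, (if g ∈ Λ then 2 * δ else 1 - δ)
  let c : Finset ι → ℝ := fun Λ => ∑ t ∈ T, if ({t.1, t.2.1} : Finset ι) ⊆ Λ then 1 else 0
  have hw : ∀ Λ, 0 ≤ w Λ := fun Λ => Finset.prod_nonneg fun g _ => by split_ifs <;> linarith
  have hρ : (1 - δ) * exp (-(4 * δ)) ≤ 1 - 3 * δ := by
    have e1 := add_one_le_exp (4 * δ)
    rw [exp_neg, mul_inv_le_iff₀ (exp_pos _)]
    nlinarith
  have hbox : ∀ Λ, w Λ * exp (-(4 * δ) * c Λ) ≤ volume.real (box Λ) := by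
    intro Λ
    have e1 : volume.real (box Λ) = ∏ g, (hi Λ g - lo Λ g) := by
      simp only [box]
      rw [Measure.real, Real.volume_pi_Ico_toReal]
      intro g; simp only [lo, hi]; split_ifs <;> linarith
    have e2 : (∑ g, if opp Λ g then (1 : ℝ) else 0) ≤ c Λ := by
      simp only [c]
      rw [Finset.sum_boole, Finset.sum_boole, Nat.cast_le]
      refine le_trans (Finset.card_le_card (t := (T.filter
        (fun t => ({t.1, t.2.1} : Finset ι) ⊆ Λ)).image (fun t => t.2.2)) ?_) Finset.card_image_le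
      intro g hg
      obtain ⟨t, ht, h2, h3, h4⟩ := (Finset.mem_filter.1 hg).2
      exact Finset.mem_image.2 ⟨t, Finset.mem_filter.2 ⟨ht, by
        simp [Finset.insert_subset_iff, h3, h4]⟩, h2⟩
    have e3 : exp (-(4 * δ) * c Λ) ≤ ∏ g, exp (-(4 * δ) * if opp Λ g then (1 : ℝ) else 0) := by
      rw [← exp_sum, ← Finset.mul_sum]
      exact exp_le_exp.2 (by nlinarith)
    rw [e1]
    refine (mul_le_mul_of_nonneg_left e3 (hw Λ)).trans ?_
    simp only [w]
    rw [← Finset.prod_mul_distrib]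
    refine Finset.prod_le_prod (fun g _ => mul_nonneg (by split_ifs <;> linarith) (exp_pos _).le)
      fun g _ => ?_
    have e5 : exp (-(4 * δ)) ≤ 1 := exp_le_one_iff.2 (by linarith)
    simp only [lo, hi]
    split_ifs <;> simp only [mul_one, mul_zero, exp_zero] <;> nlinarith
  set Z := (1 + δ) ^ Fintype.card ι with hZ
  have s1 : ∑ Λ, w Λ = Z := by
    have := wsum (ι := ι) (2 * δ) (1 - δ) ∅
    simp only [Finset.empty_subset, if_true, Finset.notMem_empty, if_false, Finset.prod_const,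
      Finset.card_univ] at this
    rw [hZ, show 1 + δ = 2 * δ + (1 - δ) by ring]; exact this
  have s2 : ∑ Λ, w Λ * c Λ ≤ T.card * (4 * δ ^ 2) * Z := by
    simp only [c, Finset.mul_sum, mul_ite, mul_one, mul_zero]
    rw [Finset.sum_comm, mul_assoc, ← nsmul_eq_mul, ← Finset.sum_const]
    refine Finset.sum_le_sum fun t ht => ?_
    simp only [w]
    rw [wsum]
    calc ∏ g, (2 * δ + if g ∈ ({t.1, t.2.1} : Finset ι) then 0 else 1 - δ)
        ≤ ∏ g, ((if g ∈ ({t.1, t.2.1} : Finset ι) then 2 * δ else 1) * (1 + δ)) :=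
          Finset.prod_le_prod (fun g _ => by split_ifs <;> linarith)
            (fun g _ => by split_ifs <;> nlinarith)
      _ = _ := by
          rw [Finset.prod_mul_distrib, Finset.prod_ite_mem, Finset.univ_inter, Finset.prod_const,
            Finset.card_pair (hT t ht), Finset.prod_const, Finset.card_univ]
          ring
  set τ : ℝ := T.card * (4 * δ ^ 2) with hτ
  have s3 : exp (-(4 * δ) * τ) * Z ≤ ∑ Λ, w Λ * exp (-(4 * δ) * c Λ) := by
    calc exp (-(4 * δ) * τ) * Z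
        ≤ exp (-(4 * δ) * τ) * ((1 + 4 * δ * τ) * ∑ Λ, w Λ - 4 * δ * ∑ Λ, w Λ * c Λ) := by
          rw [s1]
          exact mul_le_mul_of_nonneg_left (by nlinarith) (exp_pos _).le
      _ = ∑ Λ, w Λ * (exp (-(4 * δ) * τ) * (4 * δ * τ - 4 * δ * c Λ + 1)) := by
          rw [Finset.mul_sum, Finset.mul_sum, ← Finset.sum_sub_distrib, Finset.mul_sum]
          exact Finset.sum_congr rfl fun Λ _ => by ring
      _ ≤ _ := Finset.sum_le_sum fun Λ _ => mul_le_mul_of_nonneg_left (by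
          rw [show -(4 * δ) * c Λ = -(4 * δ) * τ + (4 * δ * τ - 4 * δ * c Λ) by ring, exp_add]
          exact mul_le_mul_of_nonneg_left (add_one_le_exp _) (exp_pos _).le) (hw Λ)
  refine le_trans ?_ (s3.trans (Finset.sum_le_sum fun Λ _ => hbox Λ))
  have s4 : exp (δ / 2) ≤ 1 + δ := by
    have e1 := add_one_le_exp (-(δ / 2))
    rw [exp_neg, le_inv_comm₀ (by linarith) (exp_pos _)] at e1
    refine e1.trans ?_
    rw [inv_le_iff_one_le_mul₀ (by linarith)]
    nlinarith
  have s5 : exp (Fintype.card ι * δ / 2) ≤ Z := by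
    rw [mul_div_assoc, exp_nat_mul]; exact pow_le_pow_left₀ (exp_pos _).le s4 _
  rw [sub_eq_add_neg, exp_add, mul_comm, show -(16 * (T.card : ℝ) * δ ^ 3) = -(4 * δ) * τ by
    rw [hτ]; ring]
  exact mul_le_mul_of_nonneg_left s5 (exp_pos _).le

end Pool.Agent.H44.Met
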