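import Mathlib

open Finset

namespace Pool.Agent.H44.OS

variable {n : ℕ}

def io (y : Fin n → Bool) (v : Fin n) : ℝ := if y v = true then 1 else 0

def wt (ρ : ℝ) (y : Fin n → Bool) : ℝ := ∏ i, if y i = true then ρ else 1 - ρ

def Ex (ρ : ℝ) (F : (Fin n → Bool) → ℝ) : ℝ := ∑ y, wt ρ y * F y

lemma io_nonneg (y : Fin n → Bool) (v : Fin n) : 0 ≤ io y v := by
  unfold io; split_ifs <;> norm_num

lemma io_le (y : Fin n → Bool) (v : Fin n) : io y v ≤ 1 := by
  unfold io; split_ifs <;> norm_num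

lemma wt_nonneg {ρ : ℝ} (h0 : 0 ≤ ρ) (h1 : ρ ≤ 1) (y : Fin n → Bool) : 0 ≤ wt ρ y :=
  prod_nonneg fun i _ => by split_ifs <;> linarith

lemma Ex_prod (ρ : ℝ) (g : Fin n → Bool → ℝ) :
    Ex ρ (fun y => ∏ i, g i (y i)) = ∏ i, (ρ * g i true + (1 - ρ) * g i false) := by
  have h1 := Finset.prod_univ_sum (fun _ : Fin n => (univ : Finset Bool))
    (fun i b => (if b = true then ρ else 1 - ρ) * g i b)
  rw [Fintype.piFinset_univ] at h1
  unfold Ex wt
  simp only [← prod_mul_distrib]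
  rw [← h1]
  simp

lemma Ex_mul (ρ c : ℝ) (f : (Fin n → Bool) → ℝ) : Ex ρ (fun y => c * f y) = c * Ex ρ f := by
  simp only [Ex, mul_sum]
  exact sum_congr rfl fun S _ => by ring

lemma Ex_const (ρ c : ℝ) : Ex ρ (fun _ : Fin n → Bool => c) = c := by
  have h := Ex_prod (n := n) ρ (fun _ _ => 1)
  have h2 := Ex_mul (n := n) ρ c (fun _ => 1)
  simp only [prod_const_one, mul_one, add_sub_cancel] at h h2
  rw [h2, h, mul_one]

lemma Ex_mono {ρ : ℝ} (h0 : 0 ≤ ρ) (h1 : ρ ≤ 1) {f g : (Fin n → Bool) → ℝ} (h : ∀ y, f y ≤ g y) :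
    Ex ρ f ≤ Ex ρ g :=
  sum_le_sum fun y _ => mul_le_mul_of_nonneg_left (h y) (wt_nonneg h0 h1 y)

lemma Ex_add (ρ : ℝ) (f g : (Fin n → Bool) → ℝ) :
    Ex ρ (fun y => f y + g y) = Ex ρ f + Ex ρ g := by
  simp only [Ex, mul_add, sum_add_distrib]

lemma Ex_sub (ρ : ℝ) (f g : (Fin n → Bool) → ℝ) :
    Ex ρ (fun y => f y - g y) = Ex ρ f - Ex ρ g := by
  simp only [Ex, mul_sub, sum_sub_distrib]

lemma Ex_sum (ρ : ℝ) {ι : Type} (A : Finset ι) (f : ι → (Fin n → Bool) → ℝ) :
    Ex ρ (fun y => ∑ i ∈ A, f i y) = ∑ i ∈ A, Ex ρ (f i) := by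
  simp only [Ex, mul_sum]
  exact sum_comm

lemma Ex_prodM (ρ : ℝ) (M : Finset (Fin n)) (g : Bool → ℝ) :
    Ex ρ (fun y => ∏ i ∈ M, g (y i)) = (ρ * g true + (1 - ρ) * g false) ^ M.card := by
  have h := Ex_prod ρ (fun i b => if i ∈ M then g b else 1)
  simp only [prod_ite_mem, univ_inter] at h
  rw [h, ← prod_const, ← univ_inter M, ← prod_ite_mem, univ_inter]
  refine prod_congr rfl fun i _ => ?_
  split_ifs <;> ring

lemma Ex_io (ρ : ℝ) (v : Fin n) : Ex ρ (fun y => io y v) = ρ := by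
  have := Ex_prodM ρ {v} (fun b => if b = true then 1 else 0)
  simpa [io] using this

def merge (B : Finset (Fin n)) (x y : Fin n → Bool) : Fin n → Bool :=
  fun i => if i ∈ B then y i else x i

lemma Ex_merge (ρ : ℝ) (B : Finset (Fin n)) (F : (Fin n → Bool) → ℝ) :
    Ex ρ F = Ex ρ (fun x => Ex ρ fun y => F (merge B x y)) := by
  let τ : (Fin n → Bool) × (Fin n → Bool) → (Fin n → Bool) × (Fin n → Bool) :=
    fun q => (merge B q.1 q.2, merge B q.2 q.1)
  have hτ : Function.Involutive τ := fun q => by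
    ext i <;> simp only [τ, merge] <;> split_ifs <;> rfl
  have h1 := Equiv.sum_comp hτ.toPerm (fun q => wt ρ q.1 * wt ρ q.2 * F q.1)
  have h2 : ∀ x y, wt ρ (merge B x y) * wt ρ (merge B y x) = wt ρ x * wt ρ y := by
    intro x y
    unfold wt
    rw [← prod_mul_distrib, ← prod_mul_distrib]
    refine prod_congr rfl fun i _ => ?_
    by_cases h : i ∈ B <;> simp [merge, h, mul_comm]
  simp only [Function.Involutive.coe_toPerm, τ, h2, Fintype.sum_prod_type] at h1
  have h3 : ∑ y : Fin n → Bool, wt ρ y = 1 := by simpa [Ex] using Ex_const (n := n) ρ 1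
  calc Ex ρ F = ∑ x, ∑ y, wt ρ x * wt ρ y * F x := by
        refine sum_congr rfl fun x _ => ?_
        rw [← sum_mul, ← mul_sum, h3, mul_one]
    _ = _ := by
        rw [← h1]
        simp only [Ex, mul_sum, mul_assoc]

def cap (y z : Fin n → Bool) : Fin n → Bool := fun i => y i && z i

lemma Ex_thin (p q : ℝ) (F : (Fin n → Bool) → ℝ) :
    Ex (p * q) F = Ex p (fun y => Ex q fun z => F (cap y z)) := by
  have h1 : ∀ u : Fin n → Bool, F u = ∑ a, F a * ∏ i, (if u i = a i then (1 : ℝ) else 0) := by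
    intro u
    rw [sum_eq_single u]
    · simp
    · intro a _ ha
      obtain ⟨i, hi⟩ := Function.ne_iff.1 ha
      rw [prod_eq_zero (mem_univ i) (if_neg (Ne.symm hi)), mul_zero]
    · simp
  have h2 : ∀ y, (Ex q fun z => F (cap y z)) = ∑ a, F a * ∏ i,
      (q * (if (y i && true) = a i then (1 : ℝ) else 0) +
        (1 - q) * (if (y i && false) = a i then (1 : ℝ) else 0)) := by
    intro y
    simp only [h1 (cap y _)]
    rw [Ex_sum]
    refine sum_congr rfl fun a _ => ?_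
    rw [Ex_mul, ← Ex_prod q (fun i b => if (y i && b) = a i then (1 : ℝ) else 0)]
    rfl
  simp only [h2]
  rw [Ex_sum]
  refine sum_congr rfl fun a _ => ?_
  rw [Ex_mul, Ex_prod p (fun i b => q * (if (b && true) = a i then (1 : ℝ) else 0) +
    (1 - q) * (if (b && false) = a i then (1 : ℝ) else 0)), mul_comm]
  congr 1
  refine prod_congr rfl fun i _ => ?_
  cases a i <;> simp
  ring

def Z (e : ℝ) (M : Finset (Fin n)) (y : Fin n → Bool) : ℝ := e * ∑ v ∈ M, (2 * io y v - 1)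

noncomputable def inn (e ρ : ℝ) (M : Finset (Fin n)) : ℝ := Ex ρ fun y => max (Z e M y) 0

lemma exp_le_lin {u : ℝ} (h : -(1 / 2) ≤ u) : Real.exp (u - 2 * u ^ 2) ≤ 1 + u := by
  have h1 := Real.add_one_le_exp (-(u - 2 * u ^ 2))
  have h2 : Real.exp (u - 2 * u ^ 2) * Real.exp (-(u - 2 * u ^ 2)) = 1 := by
    rw [← Real.exp_add]; simp
  have h3 := Real.exp_pos (u - 2 * u ^ 2)
  have h4 : 0 < -(u - 2 * u ^ 2) + 1 := by nlinarith [sq_nonneg (u - 1 / 4)]
  have h5 : Real.exp (u - 2 * u ^ 2) * (-(u - 2 * u ^ 2) + 1) ≤ 1 := by nlinarith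
  have h6 : 1 ≤ (1 + u) * (-(u - 2 * u ^ 2) + 1) := by
    nlinarith [mul_nonneg (sq_nonneg u) (show 0 ≤ 1 + 2 * u by linarith)]
  exact le_of_mul_le_mul_right (h5.trans h6) h4

lemma inn_le {e ρ s l : ℝ} (h0 : 0 ≤ ρ) (h1 : ρ ≤ 1) (he : e = 1 ∨ e = -1)
    (hs : e * (2 * ρ - 1) = -2 * s) (hs1 : s ≤ 1 / 2) (hl : 0 < l) (hl1 : l ≤ 1 / 2)
    (M : Finset (Fin n)) :
    inn e ρ M ≤ Real.exp (2 * l ^ 2 * M.card - 2 * s * l * M.card) / l := by
  let g : Bool → ℝ := fun b => 1 + l * e * (2 * (if b = true then 1 else 0) - 1)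
  have pt : ∀ y : Fin n → Bool, max (Z e M y) 0 ≤
      Real.exp (2 * l ^ 2 * M.card) / l * ∏ i ∈ M, g (y i) := by
    intro y
    have a1 : Real.exp (l * Z e M y - 2 * l ^ 2 * M.card) ≤ ∏ i ∈ M, g (y i) := by
      have : l * Z e M y - 2 * l ^ 2 * M.card =
          ∑ i ∈ M, (l * e * (2 * io y i - 1) - 2 * l ^ 2) := by
        rw [sum_sub_distrib, sum_const, nsmul_eq_mul, ← mul_sum, Z]; ring
      rw [this, Real.exp_sum]
      refine prod_le_prod (fun i _ => (Real.exp_pos _).le) fun i _ => ?_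
      have b := exp_le_lin (u := l * e * (2 * io y i - 1)) (by
        unfold io; rcases he with rfl | rfl <;> split_ifs <;> linarith)
      have c : (l * e * (2 * io y i - 1)) ^ 2 = l ^ 2 := by
        unfold io; rcases he with rfl | rfl <;> split_ifs <;> ring
      rw [c] at b
      exact b
    have a2 : l * max (Z e M y) 0 ≤ Real.exp (l * Z e M y) := by
      rcases le_total (Z e M y) 0 with k | k
      · rw [max_eq_right k, mul_zero]; exact (Real.exp_pos _).le
      · rw [max_eq_left k]; linarith [Real.add_one_le_exp (l * Z e M y)]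
    rw [Real.exp_sub, div_le_iff₀ (Real.exp_pos _)] at a1
    rw [div_mul_eq_mul_div, le_div_iff₀ hl]
    linarith
  refine (Ex_mono h0 h1 pt).trans ?_
  rw [Ex_mul, Ex_prodM]
  have e1 : ρ * g true + (1 - ρ) * g false = 1 - 2 * s * l := by
    simp only [g, if_true, Bool.false_eq_true, if_false]
    linear_combination l * hs
  have e2 : (1 - 2 * s * l) ^ M.card ≤ Real.exp (-(2 * s * l * M.card)) := by
    rw [show -(2 * s * l * M.card) = (M.card : ℕ) * (-(2 * s * l)) by ring, Real.exp_nat_mul]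
    exact pow_le_pow_left₀ (by nlinarith) (by linarith [Real.add_one_le_exp (-(2 * s * l))]) _
  rw [e1, sub_eq_add_neg (2 * l ^ 2 * M.card), Real.exp_add, div_mul_eq_mul_div]
  gcongr

noncomputable def H (s b : ℝ) : ℝ := 16 * (√b / (1 + (s * √b) ^ 2))

lemma H_nonneg (s b : ℝ) : 0 ≤ H s b := by unfold H; positivity

lemma inn_a {e ρ s : ℝ} (h0 : 0 ≤ ρ) (h1 : ρ ≤ 1) (he : e = 1 ∨ e = -1)
    (hs : e * (2 * ρ - 1) = -2 * s) (hs0 : 0 < s) (hs1 : s ≤ 1 / 2) (M : Finset (Fin n)) :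
    inn e ρ M ≤ 2 / s * Real.exp (-(s ^ 2 * M.card / 2)) := by
  refine (inn_le h0 h1 he hs hs1 (l := s / 2) (by positivity) (by linarith) M).trans (le_of_eq ?_)
  rw [show 2 * (s / 2) ^ 2 * (M.card : ℝ) - 2 * s * (s / 2) * M.card = -(s ^ 2 * M.card / 2) by
    ring]
  field_simp

lemma inn_H {e ρ s b : ℝ} (h0 : 0 ≤ ρ) (h1 : ρ ≤ 1) (he : e = 1 ∨ e = -1)
    (hs : e * (2 * ρ - 1) = -2 * s) (hs0 : 0 < s) (hs1 : s ≤ 1 / 2) (M : Finset (Fin n))
    (hb1 : b / 2 ≤ M.card) (hb2 : (M.card : ℝ) ≤ 2 * b) : inn e ρ M ≤ H s b := by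
  rcases M.eq_empty_or_nonempty with rfl | hM
  · simpa [inn, Z, Ex_const] using H_nonneg s b
  have m1 : (1 : ℝ) ≤ M.card := by exact_mod_cast hM.card_pos
  have b0 : 0 < b := by linarith
  have β0 : 0 < √b := Real.sqrt_pos.2 b0
  have β2 : √b ^ 2 = b := Real.sq_sqrt b0.le
  unfold H
  rw [← mul_div_assoc, le_div_iff₀ (by positivity)]
  rcases le_total (s * √b) 1 with c | c
  · have μ1 : 1 ≤ √(M.card : ℝ) := Real.one_le_sqrt.2 m1
    have μ2 : √(M.card : ℝ) ^ 2 = M.card := Real.sq_sqrt (by linarith)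
    have a := inn_le h0 h1 he hs hs1 (l := 1 / (2 * √(M.card : ℝ))) (by positivity)
      (one_div_le_one_div_of_le (by norm_num) (by linarith)) M
    have a1 : 2 * (1 / (2 * √(M.card : ℝ))) ^ 2 * M.card = 1 / 2 := by
      rw [div_pow, mul_pow, μ2]; field_simp
    have a2 : Real.exp (2 * (1 / (2 * √(M.card : ℝ))) ^ 2 * M.card -
        2 * s * (1 / (2 * √(M.card : ℝ))) * M.card) ≤ 2 := by
      have t : 0 ≤ 2 * s * (1 / (2 * √(M.card : ℝ))) * M.card := by positivity
      have t1 : Real.exp (1 / 2) * Real.exp (1 / 2) = Real.exp 1 := by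
        rw [← Real.exp_add]; norm_num
      have t2 : Real.exp (1 / 2) ≤ 2 := by
        nlinarith [Real.exp_one_lt_d9, Real.exp_pos (1 / 2)]
      exact (Real.exp_le_exp.2 (by linarith)).trans t2
    have a3 : inn e ρ M ≤ 2 * (2 * √(M.card : ℝ)) := by
      refine a.trans ?_
      rw [div_div_eq_mul_div, div_one]
      gcongr
    have a4 : √(M.card : ℝ) ≤ 2 * √b := by nlinarith
    have a5 : 1 + (s * √b) ^ 2 ≤ 2 := by nlinarith [mul_pos hs0 β0]
    have a6 : inn e ρ M ≤ 8 * √b := by linarith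
    nlinarith [mul_le_mul a6 a5 (by positivity) (by positivity)]
  · have a := inn_a h0 h1 he hs hs0 hs1 M
    have y2 : (s * √b) ^ 2 = s ^ 2 * b := by rw [mul_pow, β2]
    have a1 : Real.exp (-(s ^ 2 * M.card / 2)) ≤ 4 / (s * √b) ^ 2 := by
      rw [Real.exp_neg, ← one_div, div_le_div_iff₀ (Real.exp_pos _) (by positivity), y2]
      have := Real.add_one_le_exp (s ^ 2 * M.card / 2)
      nlinarith [mul_le_mul_of_nonneg_left hb1 (sq_nonneg s)]
    have a2 : 2 / s ≤ 2 * √b := by rw [div_le_iff₀ hs0]; nlinarith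
    have a3 : inn e ρ M ≤ 2 * √b * (4 / (s * √b) ^ 2) :=
      a.trans (mul_le_mul a2 a1 (Real.exp_pos _).le (by positivity))
    have a4 : 1 + (s * √b) ^ 2 ≤ 2 * (s * √b) ^ 2 := by nlinarith
    have a5 := mul_le_mul a3 a4 (by positivity) (by positivity)
    refine a5.trans (le_of_eq ?_)
    field_simp
    ring

lemma inn_small {ρ : ℝ} (h0 : 0 < ρ) (h1 : ρ ≤ 1 / 4) (M : Finset (Fin n)) :
    inn 1 ρ M ≤ 2 * ρ := by
  set r : ℝ := (1 - ρ) / ρ with hr
  have r3 : 3 ≤ r := by rw [hr, le_div_iff₀ h0]; linarith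
  have L1 : 1 ≤ Real.log r :=
    (Real.le_log_iff_exp_le (by linarith)).2 (by linarith [Real.exp_one_lt_d9])
  have eL : Real.exp (Real.log r) = r := Real.exp_log (by linarith)
  let g : Bool → ℝ := fun b => Real.exp (Real.log r * (2 * (if b = true then 1 else 0) - 1))
  have pt : ∀ y : Fin n → Bool, max (Z 1 M y) 0 ≤ r⁻¹ * ∏ i ∈ M, g (y i) := by
    intro y
    have a1 : ∏ i ∈ M, g (y i) = Real.exp (Real.log r * Z 1 M y) := by
      rw [Z, one_mul, mul_sum, Real.exp_sum]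
      rfl
    obtain ⟨k, hk⟩ : ∃ k : ℤ, Z 1 M y = k :=
      ⟨∑ v ∈ M, (2 * (if y v = true then 1 else 0) - 1), by
        simp only [Z, one_mul, io]; push_cast; rfl⟩
    rw [a1, ← eL, ← Real.exp_neg, ← Real.exp_add, eL, hk]
    refine max_le ?_ (Real.exp_pos _).le
    rcases le_or_gt k 0 with c | c
    · exact le_trans (by exact_mod_cast c) (Real.exp_pos _).le
    · have c1 : (1 : ℝ) ≤ k := by exact_mod_cast c
      have := Real.add_one_le_exp (-Real.log r + Real.log r * k)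
      nlinarith
  refine (Ex_mono h0.le (by linarith) pt).trans ?_
  rw [Ex_mul, Ex_prodM]
  have e1 : ρ * g true + (1 - ρ) * g false = 1 := by
    simp only [g, if_true, Bool.false_eq_true, if_false]
    norm_num
    rw [Real.exp_neg, eL, hr]
    have : 1 - ρ ≠ 0 := by linarith
    field_simp
    ring
  rw [e1, one_pow, mul_one, hr, inv_div, div_le_iff₀ (by linarith)]
  nlinarith

section cond
variable (p : Fin n → Fin n) (B : Finset (Fin n))

def T (e : ℝ) (y : Fin n → Bool) : ℝ := e * ∑ v ∈ B, io y (p v) * (2 * io y v - 1)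

def MB (x : Fin n → Bool) : Finset (Fin n) := B.filter fun v => x (p v) = true

def W (x : Fin n → Bool) : ℝ := ∑ v ∈ B, io x (p v)

lemma card_MB (x : Fin n → Bool) : ((MB p B x).card : ℝ) = W p B x := by simp [MB, W, io]

lemma W_nonneg (x : Fin n → Bool) : 0 ≤ W p B x := sum_nonneg fun _ _ => io_nonneg _ _

lemma cond (hB : ∀ v ∈ B, p v ∉ B) (e ρ : ℝ) :
    Ex ρ (fun y => max (T p B e y) 0) = Ex ρ fun x => inn e ρ (MB p B x) := by
  rw [Ex_merge ρ B]
  congr 1
  funext x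
  unfold inn
  congr 1
  funext y
  congr 1
  unfold T Z MB
  rw [sum_filter]
  congr 1
  refine sum_congr rfl fun v hv => ?_
  simp only [io, merge, if_pos hv, if_neg (hB v hv)]
  split_ifs <;> simp

lemma io_cap (y z : Fin n → Bool) (u : Fin n) : io (cap y z) u = io y u * io z u := by
  unfold io cap
  cases y u <;> cases z u <;> simp

lemma W_cap_le (y z : Fin n → Bool) : W p B (cap y z) ≤ W p B y :=
  sum_le_sum fun v _ => by
    rw [io_cap]; exact mul_le_of_le_one_right (io_nonneg _ _) (io_le _ _)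

lemma markov {q : ℝ} (h0 : 0 ≤ q) (h1 : q ≤ 1) (y : Fin n → Bool) :
    Ex q (fun z => if W p B (cap y z) < W p B y / 2 then (1 : ℝ) else 0) ≤ 2 * (1 - q) := by
  rcases (W_nonneg p B y).eq_or_lt with c | c
  · have : ∀ z, ¬ W p B (cap y z) < W p B y / 2 := fun z => by
      have := W_nonneg p B (cap y z)
      linarith
    simp only [this, if_false, Ex_const]
    linarith
  · have pt : ∀ z, (if W p B (cap y z) < W p B y / 2 then (1 : ℝ) else 0) ≤
        2 / W p B y * (W p B y - W p B (cap y z)) := by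
      intro z
      have := W_cap_le p B y z
      split_ifs with k
      · rw [div_mul_eq_mul_div, le_div_iff₀ c]; linarith
      · exact mul_nonneg (by positivity) (by linarith)
    refine (Ex_mono h0 h1 pt).trans (le_of_eq ?_)
    have e : Ex q (fun z => W p B (cap y z)) = W p B y * q := by
      simp only [W, io_cap]
      rw [Ex_sum, sum_mul]
      exact sum_congr rfl fun v _ => by rw [Ex_mul, Ex_io]
    rw [Ex_mul, Ex_sub, Ex_const, e]
    field_simp

noncomputable def K (s : ℝ) : ℝ := Ex (1 / 2) fun y => H s (W p B y)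

lemma inn_le_s {e ρ s : ℝ} (h0 : 0 ≤ ρ) (h1 : ρ ≤ 1) (he : e = 1 ∨ e = -1)
    (hs : e * (2 * ρ - 1) = -2 * s) (hs0 : 0 < s) (hs1 : s ≤ 1 / 2) (M : Finset (Fin n)) :
    inn e ρ M ≤ 2 / s :=
  (inn_a h0 h1 he hs hs0 hs1 M).trans (mul_le_of_le_one_right (by positivity)
    (Real.exp_le_one_iff.2 (neg_nonpos.2 (by positivity))))

lemma low (hB : ∀ v ∈ B, p v ∉ B) {s : ℝ} (hs0 : 0 < s) (hs1 : s ≤ 1 / 2) :
    Ex (1 / 2 - s) (fun y => max (T p B 1 y) 0) ≤ K p B s + 8 := by
  rw [cond p B hB]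
  have e := Ex_thin (1 / 2) (1 - 2 * s) (fun x => inn 1 (1 / 2 - s) (MB p B x))
  rw [show (1 / 2 : ℝ) * (1 - 2 * s) = 1 / 2 - s by ring] at e
  rw [e, K, ← Ex_const (n := n) (1 / 2) 8, ← Ex_add]
  refine Ex_mono (by norm_num) (by norm_num) fun y => ?_
  have pt : ∀ z, inn 1 (1 / 2 - s) (MB p B (cap y z)) ≤ H s (W p B y) +
      2 / s * (if W p B (cap y z) < W p B y / 2 then (1 : ℝ) else 0) := by
    intro z
    split_ifs with k
    · linarith [inn_le_s (ρ := 1 / 2 - s) (by linarith) (by linarith) (Or.inl rfl) (by ring)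
        hs0 hs1 (MB p B (cap y z)), H_nonneg s (W p B y)]
    · have := inn_H (ρ := 1 / 2 - s) (b := W p B y) (by linarith) (by linarith) (Or.inl rfl)
        (by ring) hs0 hs1 (MB p B (cap y z)) (by rw [card_MB]; linarith)
        (by rw [card_MB]; linarith [W_cap_le p B y z, W_nonneg p B y])
      linarith
  refine (Ex_mono (by linarith) (by linarith) pt).trans ?_
  rw [Ex_add, Ex_const, Ex_mul]
  have m := mul_le_mul_of_nonneg_left (markov p B (q := 1 - 2 * s) (by linarith) (by linarith) y)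
    (show 0 ≤ 2 / s by positivity)
  have : 2 / s * (2 * (1 - (1 - 2 * s))) = 8 := by field_simp; ring
  linarith

lemma high (hB : ∀ v ∈ B, p v ∉ B) {s : ℝ} (hs0 : 0 < s) (hs1 : s ≤ 1 / 2) :
    Ex (1 / 2 + s) (fun y => max (T p B (-1) y) 0) ≤ K p B s + 8 := by
  rw [cond p B hB]
  have q0 : 0 ≤ 1 / (1 + 2 * s) := by positivity
  have q1 : 1 / (1 + 2 * s) ≤ 1 := by rw [div_le_one (by linarith)]; linarith
  have q2 : 1 - 1 / (1 + 2 * s) ≤ 2 * s := by
    rw [sub_le_comm, le_div_iff₀ (by linarith)]; nlinarith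
  have e := Ex_thin (1 / 2 + s) (1 / (1 + 2 * s)) (fun x => H s (W p B x))
  rw [show (1 / 2 + s) * (1 / (1 + 2 * s)) = 1 / 2 by field_simp] at e
  rw [K, e, ← Ex_const (n := n) (1 / 2 + s) 8, ← Ex_add]
  refine Ex_mono (by linarith) (by linarith) fun y => ?_
  have pt : ∀ z, inn (-1) (1 / 2 + s) (MB p B y) ≤ H s (W p B (cap y z)) +
      2 / s * (if W p B (cap y z) < W p B y / 2 then (1 : ℝ) else 0) := by
    intro z
    split_ifs with k
    · linarith [inn_le_s (ρ := 1 / 2 + s) (by linarith) (by linarith) (Or.inr rfl) (by ring)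
        hs0 hs1 (MB p B y), H_nonneg s (W p B (cap y z))]
    · have := inn_H (ρ := 1 / 2 + s) (b := W p B (cap y z)) (by linarith) (by linarith)
        (Or.inr rfl) (by ring) hs0 hs1 (MB p B y)
        (by rw [card_MB]; linarith [W_cap_le p B y z, W_nonneg p B y])
        (by rw [card_MB]; linarith)
      linarith
  have a := Ex_mono q0 q1 pt
  rw [Ex_add, Ex_const, Ex_mul] at a
  have m := mul_le_mul_of_nonneg_left ((markov p B q0 q1 y).trans
    (mul_le_mul_of_nonneg_left q2 zero_le_two)) (show 0 ≤ 2 / s by positivity)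
  have : 2 / s * (2 * (2 * s)) = 8 := by field_simp; ring
  linarith

lemma small (hB : ∀ v ∈ B, p v ∉ B) {ρ : ℝ} (h0 : 0 < ρ) (h1 : ρ ≤ 1 / 4) :
    Ex ρ (fun y => max (T p B 1 y) 0) ≤ 2 * ρ := by
  rw [cond p B hB]
  exact (Ex_mono h0.le (by linarith) fun x => inn_small h0 h1 _).trans (Ex_const _ _).le

lemma Ex_T (hB : ∀ v ∈ B, p v ∉ B) (ρ : ℝ) :
    Ex ρ (T p B 1) = B.card * (ρ * (2 * ρ - 1)) := by
  have : T p B 1 = fun y => ∑ v ∈ B, io y (p v) * (2 * io y v - 1) := by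
    funext y; rw [T, one_mul]
  rw [this, Ex_sum, ← nsmul_eq_mul, ← sum_const]
  refine sum_congr rfl fun v hv => ?_
  rw [Ex_merge ρ B]
  have : ∀ x y, io (merge B x y) (p v) * (2 * io (merge B x y) v - 1) =
      io x (p v) * (2 * io y v - 1) := fun x y => by
    simp only [io, merge, if_pos hv, if_neg (hB v hv)]
  simp only [this, Ex_mul, Ex_sub, Ex_const, Ex_io]
  simp only [mul_comm (io _ (p v)), Ex_mul, Ex_io]
  ring

lemma K_cont : Continuous fun ρ : ℝ => K p B (ρ - 1 / 2) := by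
  unfold K Ex H
  refine continuous_finsetSum _ fun y _ => continuous_const.mul (continuous_const.mul ?_)
  exact continuous_const.div (by fun_prop) fun x => by positivity

lemma K_neg (s : ℝ) : K p B (-s) = K p B s := by simp [K, H]

lemma intH (a b c β : ℝ) : ∫ ρ in a..b, β / (1 + ((ρ - c) * β) ^ 2) ≤ 4 := by
  have hd : ∀ x ∈ Set.uIcc a b, HasDerivAt (fun ρ => Real.arctan ((ρ - c) * β))
      (β / (1 + ((x - c) * β) ^ 2)) x := by
    intro x _
    have h1 : HasDerivAt (fun ρ : ℝ => (ρ - c) * β) β x := by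
      simpa using ((hasDerivAt_id x).sub_const c).mul_const β
    have := h1.arctan
    rwa [one_div, inv_mul_eq_div] at this
  rw [intervalIntegral.integral_eq_sub_of_hasDerivAt hd (Continuous.intervalIntegrable
    (continuous_const.div (by fun_prop) fun x => by positivity) _ _)]
  linarith [Real.arctan_lt_pi_div_two ((b - c) * β),
    Real.neg_pi_div_two_lt_arctan ((a - c) * β), Real.pi_le_four]

lemma intK (a b : ℝ) : ∫ ρ in a..b, K p B (ρ - 1 / 2) ≤ 64 := by
  have e := intervalIntegral.integral_finsetSum (μ := MeasureTheory.volume) (a := a) (b := b)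
    (s := univ) (f := fun (y : Fin n → Bool) (ρ : ℝ) => wt (1 / 2) y *
      (16 * (√(W p B y) / (1 + ((ρ - 1 / 2) * √(W p B y)) ^ 2))))
    (fun y _ => Continuous.intervalIntegrable
    (continuous_const.mul (continuous_const.mul
      (continuous_const.div (by fun_prop) fun x => by positivity))) _ _)
  refine le_trans (le_of_eq e) ?_
  refine le_trans (sum_le_sum (g := fun y => wt (1 / 2) y * 64) fun y _ => ?_)
    (Ex_const (n := n) (1 / 2) 64).le
  rw [intervalIntegral.integral_const_mul, intervalIntegral.integral_const_mul]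
  refine mul_le_mul_of_nonneg_left ?_ (wt_nonneg (by norm_num) (by norm_num) y)
  linarith [intH a b (1 / 2) √(W p B y)]

end cond

end Pool.Agent.H44.OS
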