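import Mathlib

namespace Pool.Agent.H44.OS

variable {n : ℕ}

/-- Number of connected components of the subgraph induced by the first `t` vertices of the
ordering `σ` (position `i`, counted from `0`, holds the vertex `σ i`). -/
noncomputable def CC (G : SimpleGraph (Fin n)) (σ : Equiv.Perm (Fin n)) (t : ℕ) : ℕ :=
  Nat.card (G.induce {v | ∃ i : Fin n, (i : ℕ) < t ∧ σ i = v}).ConnectedComponent

/-- Stopping algorithm with full information. -/
def IsStop (A : Equiv.Perm (Fin n) → ℕ) : Prop :=
  (∀ σ, 1 ≤ A σ ∧ A σ ≤ n) ∧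
    ∀ σ τ : Equiv.Perm (Fin n), (∀ i : Fin n, (i : ℕ) < A σ → σ i = τ i) → A τ = A σ

/-- Expected number of components at the stopping time. -/
noncomputable def score (G : SimpleGraph (Fin n)) (A : Equiv.Perm (Fin n) → ℕ) : ℝ :=
  (∑ σ : Equiv.Perm (Fin n), (CC G σ (A σ) : ℝ)) / n.factorial

end Pool.Agent.H44.OS
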