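import Pool.Agent.H44.OS1
import Pool.Agent.H44.OSDefs

open Finset

namespace Pool.Agent.H44.OS

variable {n : ℕ}

def YB (p : Fin n → Fin n) (B : Finset (Fin n)) (y : Fin n → Bool) : ℝ :=
  ∑ v ∈ B, (1 - io y v) * io y (p v)

lemma io_upd (y : Fin n → Bool) (u w : Fin n) :
    io (Function.update y u false) w = if w = u then 0 else io y w := by
  unfold io
  by_cases h : w = u
  · subst h; simp
  · simp [Function.update_of_ne h, h]

lemma genB (p : Fin n → Fin n) (B : Finset (Fin n)) (hB : ∀ v ∈ B, p v ∉ B) (y : Fin n → Bool) :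
    ∑ u, io y u * (YB p B (Function.update y u false) - YB p B y) = T p B 1 y := by
  simp only [YB, T, one_mul, ← sum_sub_distrib, mul_sum]
  rw [sum_comm]
  refine sum_congr rfl fun v hv => ?_
  have hne : p v ≠ v := fun h => hB v hv (h.symm ▸ hv)
  have : ∀ u, io y u * ((1 - io (Function.update y u false) v) *
      io (Function.update y u false) (p v) - (1 - io y v) * io y (p v)) =
      (if u = v then io y v * io y (p v) else 0) +
        (if u = p v then -((1 - io y v) * io y (p v)) else 0) := by
    intro u
    rw [io_upd, io_upd]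
    by_cases h1 : u = v
    · subst h1
      simp only [if_true, if_neg hne, if_neg hne.symm]
      unfold io; split_ifs <;> norm_num
    · by_cases h2 : u = p v
      · subst h2
        simp only [if_true, if_neg hne, if_neg hne.symm]
        unfold io; split_ifs <;> norm_num
      · simp [h1, h2, Ne.symm h1, Ne.symm h2]
  simp only [this, sum_add_distrib, sum_ite_eq', mem_univ, if_true]
  ring

lemma genR (r : Fin n) (y : Fin n → Bool) :
    ∑ u, io y u * ((1 - io (Function.update y u false) r) - (1 - io y r)) = io y r := by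
  rw [sum_eq_single r]
  · rw [io_upd, if_pos rfl]; unfold io; split_ifs <;> norm_num
  · intro u _ hu
    rw [io_upd, if_neg hu.symm]; ring
  · simp

lemma graph (G : SimpleGraph (Fin n)) (hG : G.Connected) :
    ∃ (r : Fin n) (p : Fin n → Fin n) (B C : Finset (Fin n)), (∀ v ∈ B, p v ∉ B) ∧
      (∀ v ∈ C, p v ∉ C) ∧ B.card + C.card ≤ n ∧ ∀ y : Fin n → Bool,
      (Nat.card (G.induce {v | y v = false}).ConnectedComponent : ℝ) ≤
        (1 - io y r) + YB p B y + YB p C y := by
  classical
  obtain ⟨r⟩ := hG.nonempty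
  have hp : ∀ v : Fin n, ∃ w, v ≠ r → G.Adj v w ∧ G.dist w r + 1 = G.dist v r := by
    intro v
    by_cases h : v = r
    · exact ⟨v, fun k => (k h).elim⟩
    obtain ⟨q, hq⟩ := hG.exists_walk_length_eq_dist v r
    cases q with
    | nil => exact (h rfl).elim
    | cons a q =>
      refine ⟨_, fun _ => ⟨a, ?_⟩⟩
      have h1 := SimpleGraph.dist_le q
      have h2 := hG.dist_triangle (u := v) (w := r) (v := _) |>.trans
        (add_le_add (SimpleGraph.dist_eq_one_iff_adj.2 a).le le_rfl)
      rw [SimpleGraph.Walk.length_cons] at hq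
      omega
  choose p hp using hp
  refine ⟨r, p, (univ.erase r).filter fun v => Even (G.dist v r),
    (univ.erase r).filter fun v => ¬ Even (G.dist v r), ?_, ?_, ?_, fun y => ?_⟩
  · intro v hv h
    simp only [mem_filter, mem_erase] at hv h
    have := (hp v hv.1.1).2
    have a := hv.2
    rw [← this, Nat.even_add_one] at a
    exact a h.2
  · intro v hv h
    simp only [mem_filter, mem_erase] at hv h
    have := (hp v hv.1.1).2
    have a := hv.2
    rw [← this, Nat.even_add_one] at a
    exact a h.2
  · rw [card_filter_add_card_filter_not]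
    exact (card_le_univ _).trans (by simp)
  let Top : Finset (Fin n) := univ.filter fun v => y v = false ∧ (v = r ∨ y (p v) = true)
  let f : Top → (G.induce {v | y v = false}).ConnectedComponent := fun v =>
    SimpleGraph.connectedComponentMk _ ⟨v.1, (mem_filter.1 v.2).2.1⟩
  have hf : ∀ k, ∀ v (hv : y v = false), G.dist v r = k →
      ∃ t, f t = SimpleGraph.connectedComponentMk _ ⟨v, hv⟩ := by
    intro k
    induction k using Nat.strong_induction_on with
    | _ k ih =>
      intro v hv hk
      by_cases h : v ∈ Top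
      · exact ⟨⟨v, h⟩, rfl⟩
      · simp only [Top, mem_filter, mem_univ, true_and, hv, not_or, Bool.not_eq_true] at h
        obtain ⟨a, b⟩ := hp v h.1
        obtain ⟨t, ht⟩ := ih _ (by omega) (p v) h.2 rfl
        refine ⟨t, ht.trans ?_⟩
        exact SimpleGraph.ConnectedComponent.connectedComponentMk_eq_of_adj a.symm
  have hs : Function.Surjective f := by
    intro c
    induction c using SimpleGraph.ConnectedComponent.ind with
    | _ v => exact hf _ v.1 v.2 rfl
  have h1 := Nat.card_le_card_of_surjective f hs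
  rw [Nat.card_eq_fintype_card (α := Top), Fintype.card_coe] at h1
  refine le_trans (Nat.cast_le.2 h1) (le_of_eq ?_)
  rw [add_assoc, YB, YB, sum_filter_add_sum_filter_not, card_filter, Nat.cast_sum,
    ← add_sum_erase _ _ (mem_univ r)]
  congr 1
  · unfold io; cases y r <;> simp
  · refine sum_congr rfl fun v hv => ?_
    have := (mem_erase.1 hv).1
    unfold io
    cases y v <;> cases y (p v) <;> simp [this]

def ina (σ : Equiv.Perm (Fin n)) (t : ℕ) : Fin n → Bool := fun v => decide (t ≤ (σ.symm v : ℕ))

lemma CC_eq (G : SimpleGraph (Fin n)) (σ : Equiv.Perm (Fin n)) (t : ℕ) :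
    CC G σ t = Nat.card (G.induce {v | ina σ t v = false}).ConnectedComponent := by
  have : {v | ∃ i : Fin n, (i : ℕ) < t ∧ σ i = v} = {v | ina σ t v = false} := by
    ext v
    simp only [Set.mem_setOf_eq, ina, decide_eq_false_iff_not, not_le]
    exact ⟨fun ⟨i, h, e⟩ => by rw [← e, Equiv.symm_apply_apply]; exact h,
      fun h => ⟨_, h, Equiv.apply_symm_apply _ _⟩⟩
  rw [CC, this]

lemma step {A : Equiv.Perm (Fin n) → ℕ} (hA : IsStop A) (Y S : (Fin n → Bool) → ℝ)
    (hS : ∀ y, ∑ u, io y u * (Y (Function.update y u false) - Y y) = S y) (t : Fin n) :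
    ((n : ℝ) - t) * ∑ σ, (if (t : ℕ) < A σ then Y (ina σ (t + 1)) - Y (ina σ t) else 0) ≤
      ∑ σ, max (S (ina σ t)) 0 := by
  have h1 : ∀ j : Fin n, t ≤ j →
      ∑ σ, (if (t : ℕ) < A σ then Y (ina σ (t + 1)) - Y (ina σ t) else 0) =
      ∑ σ, (if (t : ℕ) < A σ then
        Y (Function.update (ina σ t) (σ j) false) - Y (ina σ t) else 0) := by
    intro j hj
    rw [← Equiv.sum_comp (Equiv.mulRight (Equiv.swap t j))]
    refine sum_congr rfl fun σ _ => ?_
    simp only [Equiv.coe_mulRight]
    have a : ∀ i : Fin n, i < t → Equiv.swap t j i = i := fun i hi =>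
      Equiv.swap_apply_of_ne_of_ne hi.ne (hi.trans_le hj).ne
    have e1 : (t : ℕ) < A (σ * Equiv.swap t j) ↔ (t : ℕ) < A σ := by
      constructor <;> intro h <;> by_contra k
      · rw [hA.2 σ (σ * Equiv.swap t j) fun i hi => by
          rw [Equiv.Perm.mul_apply, a i (by show (i : ℕ) < t; omega)]] at h
        exact k h
      · rw [hA.2 (σ * Equiv.swap t j) σ fun i hi => by
          rw [Equiv.Perm.mul_apply, a i (by show (i : ℕ) < t; omega)]] at h
        exact k h
    have e0 : ∀ v, (σ * Equiv.swap t j).symm v = Equiv.swap t j (σ.symm v) := fun v => by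
      rw [Equiv.symm_apply_eq, Equiv.Perm.mul_apply, Equiv.swap_apply_self,
        Equiv.apply_symm_apply]
    have hj' : (t : ℕ) ≤ j := hj
    have e2 : ina (σ * Equiv.swap t j) t = ina σ t := by
      funext v
      simp only [ina, e0, Equiv.swap_apply_def]
      split_ifs with c d
      · simp [c, hj']
      · simp [d, hj']
      · rfl
    have e3 : ina (σ * Equiv.swap t j) (t + 1) = Function.update (ina σ t) (σ j) false := by
      funext v
      obtain ⟨i, rfl⟩ := σ.surjective v
      by_cases c : i = j
      · subst c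
        simp [ina, e0]
      · rw [Function.update_of_ne (σ.injective.ne c)]
        simp only [ina, e0, Equiv.symm_apply_apply, Equiv.swap_apply_def, if_neg c]
        have c' : (i : ℕ) ≠ j := fun h => c (Fin.ext h)
        split_ifs with d
        · subst d
          simp only [le_refl, decide_true, decide_eq_true_eq]
          omega
        · have d' : (i : ℕ) ≠ t := fun h => d (Fin.ext h)
          simp only [decide_eq_decide]
          omega
    simp only [e1, e2, e3]
  have h2 : ((n : ℝ) - t) = ∑ j : Fin n, if t ≤ j then (1 : ℝ) else 0 := by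
    rw [sum_boole]
    have a := card_filter_add_card_filter_not (s := (univ : Finset (Fin n)))
      (fun j : Fin n => (j : ℕ) < t)
    rw [Fin.card_filter_val_lt, min_eq_right t.2.le, card_univ, Fintype.card_fin] at a
    have b : (univ.filter fun j : Fin n => ¬ (j : ℕ) < t) = univ.filter fun j => t ≤ j :=
      filter_congr fun j _ => not_lt
    rw [b] at a
    have c : ((t : ℕ) : ℝ) + (univ.filter fun j => t ≤ j).card = n := by exact_mod_cast a
    linarith
  rw [h2, sum_mul]
  have h3 : ∀ j : Fin n, (if t ≤ j then (1 : ℝ) else 0) *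
      ∑ σ, (if (t : ℕ) < A σ then Y (ina σ (t + 1)) - Y (ina σ t) else 0) =
      ∑ σ, (if (t : ℕ) < A σ then io (ina σ t) (σ j) *
        (Y (Function.update (ina σ t) (σ j) false) - Y (ina σ t)) else 0) := by
    intro j
    by_cases hj : t ≤ j
    · have hj' : (t : ℕ) ≤ j := hj
      rw [if_pos hj, one_mul, h1 j hj]
      simp [io, ina, hj']
    · have hj' : ¬ (t : ℕ) ≤ j := hj
      simp [io, ina, hj, hj']
  simp only [h3]
  rw [sum_comm]
  refine sum_le_sum fun σ _ => ?_
  split_ifs with c
  · rw [Equiv.sum_comp σ (fun u => io (ina σ t) u *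
      (Y (Function.update (ina σ t) u false) - Y (ina σ t))), hS]
    exact le_max_left _ _
  · simp

lemma dynkin {A : Equiv.Perm (Fin n) → ℕ} (hA : IsStop A) (Y S : (Fin n → Bool) → ℝ)
    (hS : ∀ y, ∑ u, io y u * (Y (Function.update y u false) - Y y) = S y)
    (h0 : Y (fun _ => true) = 0) :
    ∑ σ, Y (ina σ (A σ)) ≤ ∑ t ∈ range n, (∑ σ, max (S (ina σ t)) 0) / ((n : ℝ) - t) := by
  have h1 : ∀ σ, Y (ina σ (A σ)) =
      ∑ t ∈ range n, (if t < A σ then Y (ina σ (t + 1)) - Y (ina σ t) else 0) := by
    intro σ
    have a : (range n).filter (fun t => t < A σ) = range (A σ) := by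
      ext t
      have := (hA.1 σ).2
      simp only [mem_filter, mem_range]
      omega
    have b : ina σ 0 = fun _ => true := by funext v; simp [ina]
    rw [← sum_filter, a, sum_range_sub (fun t => Y (ina σ t)), b, h0, sub_zero]
  simp only [h1]
  rw [sum_comm]
  refine sum_le_sum fun t ht => ?_
  have ht' := mem_range.1 ht
  have : (t : ℝ) < n := by exact_mod_cast ht'
  rw [le_div_iff₀ (by linarith), mul_comm]
  exact step hA Y S hS ⟨t, ht'⟩

end Pool.Agent.H44.OS
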