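import Pool.Agent.H44.OS2

open Finset

namespace Pool.Agent.H44.OS

variable {n : ℕ}

def nf (y : Fin n → Bool) : ℕ := (univ.filter fun v => y v = false).card

lemma exists_ina (y : Fin n → Bool) : ∃ τ : Equiv.Perm (Fin n), ina τ (nf y) = y := by
  classical
  have hle : nf y ≤ n := (card_le_univ _).trans (by simp)
  have hc : Fintype.card {i : Fin n // (i : ℕ) < nf y} = Fintype.card {v // y v = false} := by
    rw [Fintype.card_subtype, Fintype.card_subtype, Fin.card_filter_val_lt, min_eq_right hle]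
    rfl
  let e := Fintype.equivOfCardEq hc
  refine ⟨e.extendSubtype, funext fun v => ?_⟩
  obtain ⟨i, rfl⟩ := e.extendSubtype.surjective v
  simp only [ina, Equiv.symm_apply_apply]
  by_cases h : (i : ℕ) < nf y
  · rw [e.extendSubtype_mem i h]; simpa using h
  · have := e.extendSubtype_not_mem i h
    rw [Bool.not_eq_false] at this
    rw [this]; simpa using h

lemma wt_eq (ρ : ℝ) (y : Fin n → Bool) : wt ρ y = ρ ^ (n - nf y) * (1 - ρ) ^ nf y := by
  have a := card_filter_add_card_filter_not (s := (univ : Finset (Fin n))) (fun v => y v = true)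
  simp only [card_univ, Fintype.card_fin, Bool.not_eq_true] at a
  rw [wt, prod_ite, prod_const, prod_const]
  simp only [Bool.not_eq_true]
  congr 2
  unfold nf
  omega

lemma sum_nf (g : ℕ → ℝ) : ∑ y : Fin n → Bool, g (nf y) = ∑ t ∈ range (n + 1), n.choose t * g t := by
  have a := sum_powerset_apply_card g (x := (univ : Finset (Fin n)))
  simp only [card_univ, Fintype.card_fin, nsmul_eq_mul, powerset_univ] at a
  rw [← a]
  refine sum_nbij' (fun y => univ.filter fun v => y v = false) (fun s v => decide (v ∉ s))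
    (by simp) (by simp) (fun y _ => ?_) (fun s _ => ?_) fun y _ => rfl
  · funext v; simp
  · ext v; simp

lemma symm_Ex (ρ : ℝ) (φ : (Fin n → Bool) → ℝ) :
    n.factorial * Ex ρ φ =
      ∑ t ∈ range (n + 1), n.choose t * (ρ ^ (n - t) * (1 - ρ) ^ t * ∑ σ, φ (ina σ t)) := by
  rw [← sum_nf (fun t => ρ ^ (n - t) * (1 - ρ) ^ t * ∑ σ, φ (ina σ t))]
  have h1 : ∀ σ : Equiv.Perm (Fin n), Ex ρ φ = ∑ y, wt ρ y * φ (fun v => y (σ.symm v)) := by
    intro σ
    rw [Ex, ← Equiv.sum_comp (Equiv.arrowCongr σ (Equiv.refl Bool))]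
    refine sum_congr rfl fun y _ => ?_
    congr 1
    exact Equiv.prod_comp σ.symm (fun i => if y i = true then ρ else 1 - ρ)
  have h2 : (n.factorial : ℝ) * Ex ρ φ = ∑ σ : Equiv.Perm (Fin n), Ex ρ φ := by
    rw [sum_const, card_univ, Fintype.card_perm, Fintype.card_fin, nsmul_eq_mul]
  rw [h2, sum_congr rfl fun σ _ => h1 σ, sum_comm]
  refine sum_congr rfl fun y _ => ?_
  rw [← mul_sum, wt_eq]
  congr 1
  obtain ⟨τ, hτ⟩ := exists_ina y
  rw [← Equiv.sum_comp (Equiv.mulRight τ) (fun σ => φ (ina σ (nf y)))]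
  refine sum_congr rfl fun σ _ => ?_
  congr 1
  funext v
  conv_lhs => rw [← hτ]
  rfl

lemma beta (k : ℕ) : ∀ t : ℕ, ∫ ρ in (0 : ℝ)..1, ρ ^ t * (1 - ρ) ^ k =
    (t.factorial * k.factorial : ℝ) / (t + k + 1).factorial := by
  induction k with
  | zero =>
    intro t
    have : (t.factorial : ℝ) ≠ 0 := by positivity
    simp [Nat.factorial_succ]
    field_simp
  | succ k ih =>
    intro t
    have e : ∀ ρ : ℝ, ρ ^ t * (1 - ρ) ^ (k + 1) = ρ ^ t * (1 - ρ) ^ k - ρ ^ (t + 1) * (1 - ρ) ^ k :=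
      fun ρ => by ring
    simp only [e]
    rw [intervalIntegral.integral_sub (Continuous.intervalIntegrable (by fun_prop) _ _)
      (Continuous.intervalIntegrable (by fun_prop) _ _), ih, ih,
      show t + 1 + k + 1 = (t + k + 1) + 1 by ring, show t + (k + 1) + 1 = (t + k + 1) + 1 by ring,
      Nat.factorial_succ (t + k + 1), Nat.factorial_succ t, Nat.factorial_succ k]
    have : ((t + k + 1).factorial : ℝ) ≠ 0 := by positivity
    push_cast
    field_simp
    ring

noncomputable def P (φ : (Fin n → Bool) → ℝ) (ρ : ℝ) : ℝ :=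
  ∑ t ∈ range n, (n.choose t * ∑ σ, φ (ina σ t)) * (ρ ^ (n - t - 1) * (1 - ρ) ^ t)

lemma P_cont (φ : (Fin n → Bool) → ℝ) : Continuous (P φ) := by
  unfold P
  fun_prop

lemma intP (φ : (Fin n → Bool) → ℝ) :
    ∫ ρ in (0 : ℝ)..1, P φ ρ = ∑ t ∈ range n, (∑ σ, φ (ina σ t)) / ((n : ℝ) - t) := by
  have e := intervalIntegral.integral_finsetSum (μ := MeasureTheory.volume) (a := 0) (b := 1)
    (s := range n) (f := fun (t : ℕ) (ρ : ℝ) =>
      (n.choose t * ∑ σ, φ (ina σ t)) * (ρ ^ (n - t - 1) * (1 - ρ) ^ t))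
    (fun y _ => Continuous.intervalIntegrable (by fun_prop) _ _)
  refine e.trans (sum_congr rfl fun t ht => ?_)
  rw [intervalIntegral.integral_const_mul, beta]
  obtain ⟨k, rfl⟩ := Nat.exists_eq_add_of_lt (mem_range.1 ht)
  have a := Nat.add_choose_mul_factorial_mul_factorial (k + 1) t
  rw [show t + k + 1 - t - 1 = k by omega, show k + t + 1 = t + k + 1 by ring]
  rw [show k + 1 + t = t + k + 1 by ring, Nat.factorial_succ k] at a
  have b : ((t + k + 1).choose t : ℝ) * ((k + 1) * k.factorial) * t.factorial =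
      (t + k + 1).factorial := by exact_mod_cast a
  have c : ((t + k + 1 : ℕ) : ℝ) - t = k + 1 := by push_cast; ring
  have d : (0 : ℝ) < (t + k + 1).choose t := by exact_mod_cast Nat.choose_pos (by omega)
  rw [← b, c]
  field_simp

lemma P_le (φ : (Fin n → Bool) → ℝ) (hφ : ∀ y, 0 ≤ φ y) {ρ : ℝ} (h1 : ρ ≤ 1) :
    ρ * P φ ρ ≤ n.factorial * Ex ρ φ := by
  rw [symm_Ex, sum_range_succ, P, mul_sum]
  refine le_add_of_le_of_nonneg (le_of_eq (sum_congr rfl fun t ht => ?_)) ?_
  · obtain ⟨k, rfl⟩ := Nat.exists_eq_add_of_lt (mem_range.1 ht)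
    rw [show t + k + 1 - t - 1 = k by omega, show t + k + 1 - t = k + 1 by omega]
    ring
  · have : 0 ≤ 1 - ρ := by linarith
    have := sum_nonneg fun (σ : Equiv.Perm (Fin n)) (_ : σ ∈ univ) => hφ (ina σ n)
    rw [Nat.sub_self, pow_zero]
    positivity

lemma K_nonneg (p : Fin n → Fin n) (B : Finset (Fin n)) (s : ℝ) : 0 ≤ K p B s :=
  sum_nonneg fun y _ => mul_nonneg (wt_nonneg (by norm_num) (by norm_num) y) (H_nonneg _ _)

lemma main (r : Fin n) (p : Fin n → Fin n) (B C : Finset (Fin n)) (hB : ∀ v ∈ B, p v ∉ B)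
    (hC : ∀ v ∈ C, p v ∉ C) (hn : B.card + C.card ≤ n) :
    ∫ ρ in (0 : ℝ)..1, P (fun y => max (io y r + T p B 1 y + T p C 1 y) 0) ρ ≤
      n.factorial * (n / 4 + 1100) := by
  set φ : (Fin n → Bool) → ℝ := fun y => max (io y r + T p B 1 y + T p C 1 y) 0 with hφ
  have φ0 : ∀ y, 0 ≤ φ y := fun y => le_max_right _ _
  have F0 : (0 : ℝ) < n.factorial := by positivity
  have hn' : (B.card : ℝ) + C.card ≤ n := by exact_mod_cast hn
  have kB := K_cont p B
  have kC := K_cont p C
  have u1 : ∀ ρ, 0 ≤ ρ → ρ ≤ 1 → Ex ρ φ ≤ ρ + Ex ρ (fun y => max (T p B 1 y) 0) +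
      Ex ρ (fun y => max (T p C 1 y) 0) := by
    intro ρ h0 h1
    have : Ex ρ φ ≤ Ex ρ fun y => io y r + max (T p B 1 y) 0 + max (T p C 1 y) 0 := by
      refine Ex_mono h0 h1 fun y => max_le ?_ ?_
      · linarith [le_max_left (T p B 1 y) 0, le_max_left (T p C 1 y) 0]
      · linarith [le_max_right (T p B 1 y) 0, le_max_right (T p C 1 y) 0, io_nonneg y r]
    rw [Ex_add, Ex_add, Ex_io] at this
    exact this
  have u2 : ∀ ρ, 0 ≤ ρ → ρ ≤ 1 → Ex ρ φ ≤ ρ + B.card * (ρ * (2 * ρ - 1)) +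
      C.card * (ρ * (2 * ρ - 1)) + Ex ρ (fun y => max (T p B (-1) y) 0) +
      Ex ρ (fun y => max (T p C (-1) y) 0) := by
    intro ρ h0 h1
    rw [← Ex_T p B hB, ← Ex_T p C hC]
    have e := Ex_io (n := n) ρ r
    have : Ex ρ φ ≤ Ex ρ fun y => io y r + T p B 1 y + T p C 1 y + max (T p B (-1) y) 0 +
        max (T p C (-1) y) 0 := by
      refine Ex_mono h0 h1 fun y => max_le ?_ ?_
      · linarith [le_max_right (T p B (-1) y) 0, le_max_right (T p C (-1) y) 0]
      · have a : T p B (-1) y = - T p B 1 y := by simp [T]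
        have b : T p C (-1) y = - T p C 1 y := by simp [T]
        linarith [le_max_left (T p B (-1) y) 0, le_max_left (T p C (-1) y) 0, io_nonneg y r]
    rw [Ex_add, Ex_add, Ex_add, Ex_add, e] at this
    exact this
  have i1 : ∫ ρ in (0 : ℝ)..(1 / 2), P φ ρ ≤ ∫ ρ in (0 : ℝ)..(1 / 2),
      n.factorial * (68 + 4 * K p B (ρ - 1 / 2) + 4 * K p C (ρ - 1 / 2)) := by
    refine intervalIntegral.integral_mono_on_of_le_Ioo (by norm_num)
      ((P_cont φ).intervalIntegrable _ _) (Continuous.intervalIntegrable (by fun_prop) _ _)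
      fun ρ ⟨h0, h1⟩ => ?_
    have a := (P_le φ φ0 (ρ := ρ) (by linarith)).trans
      (mul_le_mul_of_nonneg_left (u1 ρ h0.le (by linarith)) F0.le)
    have b1 := K_nonneg p B (ρ - 1 / 2)
    have b2 := K_nonneg p C (ρ - 1 / 2)
    refine le_of_mul_le_mul_left (a.trans ?_) h0
    rw [mul_left_comm ρ (n.factorial : ℝ)]
    refine mul_le_mul_of_nonneg_left ?_ F0.le
    rcases le_total ρ (1 / 4) with c | c
    · nlinarith [small p B hB h0 c, small p C hC h0 c]
    · have l1 := low p B hB (s := 1 / 2 - ρ) (by linarith) (by linarith)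
      have l2 := low p C hC (s := 1 / 2 - ρ) (by linarith) (by linarith)
      rw [sub_sub_cancel, ← K_neg, neg_sub] at l1 l2
      nlinarith
  have i2 : ∫ ρ in (1 / 2 : ℝ)..1, P φ ρ ≤ ∫ ρ in (1 / 2 : ℝ)..1,
      n.factorial * (68 - n + 4 * K p B (ρ - 1 / 2) + 4 * K p C (ρ - 1 / 2) + 2 * n * ρ) := by
    refine intervalIntegral.integral_mono_on_of_le_Ioo (by norm_num)
      ((P_cont φ).intervalIntegrable _ _) (Continuous.intervalIntegrable (by fun_prop) _ _)
      fun ρ ⟨h0, h1⟩ => ?_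
    have a := (P_le φ φ0 (ρ := ρ) (by linarith)).trans
      (mul_le_mul_of_nonneg_left (u2 ρ (by linarith) h1.le) F0.le)
    have b1 := K_nonneg p B (ρ - 1 / 2)
    have b2 := K_nonneg p C (ρ - 1 / 2)
    refine le_of_mul_le_mul_left (a.trans ?_) (show 0 < ρ by linarith)
    rw [mul_left_comm ρ (n.factorial : ℝ)]
    refine mul_le_mul_of_nonneg_left ?_ F0.le
    have l1 := high p B hB (s := ρ - 1 / 2) (by linarith) (by linarith)
    have l2 := high p C hC (s := ρ - 1 / 2) (by linarith) (by linarith)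
    rw [add_sub_cancel] at l1 l2
    have m := mul_le_mul_of_nonneg_right hn' (show 0 ≤ ρ * (2 * ρ - 1) by nlinarith)
    nlinarith
  have ci : ∀ {f : ℝ → ℝ}, Continuous f → ∀ a b, IntervalIntegrable f MeasureTheory.volume a b :=
    fun h => h.intervalIntegrable
  rw [intervalIntegral.integral_const_mul, intervalIntegral.integral_add (ci (by fun_prop) _ _)
    (ci (by fun_prop) _ _), intervalIntegral.integral_add (ci (by fun_prop) _ _)
    (ci (by fun_prop) _ _), intervalIntegral.integral_const_mul,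
    intervalIntegral.integral_const_mul, intervalIntegral.integral_const] at i1
  rw [intervalIntegral.integral_const_mul, intervalIntegral.integral_add (ci (by fun_prop) _ _)
    (ci (by fun_prop) _ _), intervalIntegral.integral_add (ci (by fun_prop) _ _)
    (ci (by fun_prop) _ _), intervalIntegral.integral_add (ci (by fun_prop) _ _)
    (ci (by fun_prop) _ _), intervalIntegral.integral_const_mul,
    intervalIntegral.integral_const_mul, intervalIntegral.integral_const,
    intervalIntegral.integral_const_mul, integral_id] at i2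
  rw [← intervalIntegral.integral_add_adjacent_intervals (b := 1 / 2) (ci (P_cont φ) _ _)
    (ci (P_cont φ) _ _)]
  refine (add_le_add i1 i2).trans ?_
  rw [← mul_add]
  refine mul_le_mul_of_nonneg_left ?_ F0.le
  simp only [smul_eq_mul]
  linarith [intK p B 0 (1 / 2), intK p C 0 (1 / 2), intK p B (1 / 2) 1, intK p C (1 / 2) 1]

theorem score_le (G : SimpleGraph (Fin n)) (hG : G.Connected) {A : Equiv.Perm (Fin n) → ℕ}
    (hA : IsStop A) : score G A ≤ n / 4 + 1100 := by
  obtain ⟨r, p, B, C, hB, hC, hn, h⟩ := graph G hG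
  have d := dynkin hA (fun y => (1 - io y r) + YB p B y + YB p C y)
    (fun y => io y r + T p B 1 y + T p C 1 y) (fun y => by
      have a := congrArg₂ (· + ·) (congrArg₂ (· + ·) (genR r y) (genB p B hB y)) (genB p C hC y)
      simp only [← sum_add_distrib] at a
      rw [← a]
      exact sum_congr rfl fun u _ => by ring) (by simp [io, YB])
  rw [← intP (fun y => max (io y r + T p B 1 y + T p C 1 y) 0)] at d
  rw [score, div_le_iff₀ (by positivity), mul_comm]
  refine le_trans (sum_le_sum fun σ _ => ?_) (d.trans (main r p B C hB hC hn))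
  rw [CC_eq]
  exact h _

end Pool.Agent.H44.OS
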