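import Pool.Agent.H44.Drive

/-! A one-dimensional PCA with gliders, coalescing killers and a coin. -/

open MeasureTheory ProbabilityTheory Set Filter Topology
open scoped ENNReal

namespace Pool.Agent.H44.PCA1
open Pool.Agent.H44.Drive

abbrev Site : Type := Fin 1 → ℤ
abbrev Al : Type := Bool × Bool × Bool
abbrev X : Type := Site → Al

def s (i : ℤ) : Site := fun _ => i

theorem s_zero (v : Site) : s (v 0) = v := by
  funext j
  rw [Subsingleton.elim j 0]
  rfl

theorem add_s (v : Site) (j : ℤ) : v + s j = s (v 0 + j) := by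
  funext i
  rw [Subsingleton.elim i 0]
  rfl

theorem s_inj : Function.Injective s := fun _ _ h => congrFun h 0

def nG (gl : Bool) (a0 a1 : Al) : Bool := gl && a1.1 && !a0.2.1 && !a1.2.1
def nK (gl : Bool) (am a0 : Al) : Bool :=
  (a0.2.1 && !a0.2.2) || (am.2.1 && am.2.2) || (gl && a0.1)

def dG (gl : Bool) (x : X) (i : ℤ) : Bool := nG gl (x (s i)) (x (s (i + 1)))
def dK (gl : Bool) (x : X) (i : ℤ) : Bool := nK gl (x (s (i - 1))) (x (s i))

def step (gl : Bool) (x : X) (ξ : Site → Bool) : X := fun v => (dG gl x (v 0), dK gl x (v 0), ξ v)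

theorem step_s (gl : Bool) (x : X) (ξ : Site → Bool) (i : ℤ) :
    step gl x ξ (s i) = (dG gl x i, dK gl x i, ξ (s i)) := rfl

theorem measurable_dG (gl : Bool) (i : ℤ) : Measurable fun x => dG gl x i :=
  (measurable_of_finite fun p : Al × Al => nG gl p.1 p.2).comp
    (f := fun x : X => (x (s i), x (s (i + 1)))) ((measurable_pi_apply (s i)).prodMk (measurable_pi_apply (s (i + 1))))

theorem measurable_dK (gl : Bool) (i : ℤ) : Measurable fun x => dK gl x i :=
  (measurable_of_finite fun p : Al × Al => nK gl p.1 p.2).comp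
    (f := fun x : X => (x (s (i - 1)), x (s i))) ((measurable_pi_apply (s (i - 1))).prodMk (measurable_pi_apply (s i)))

theorem measurable_step (gl : Bool) :
    Measurable fun p : X × (Site → Bool) => step gl p.1 p.2 := by
  refine measurable_pi_lambda _ fun v => ?_
  exact ((measurable_dG gl _).comp measurable_fst).prodMk
    (((measurable_dK gl _).comp measurable_fst).prodMk
      ((measurable_pi_apply v).comp measurable_snd))

theorem measurable_step' (gl : Bool) (x : X) : Measurable (step gl x) :=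
  (measurable_step gl).comp (measurable_const.prodMk measurable_id)

instance : IsProbabilityMeasure (bern (1 / 2)) := bern_prob (by norm_num) (by norm_num)

noncomputable def nu : Measure (Site → Bool) := Measure.infinitePi fun _ => bern (1 / 2)

instance : IsProbabilityMeasure nu := by unfold nu; infer_instance

noncomputable def ker (gl : Bool) : Kernel X X where
  toFun x := nu.map (step gl x)
  measurable' := by
    refine Measure.measurable_of_measurable_coe _ fun B hB => ?_
    simp only [Measure.map_apply (measurable_step' gl _) hB]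
    exact measurable_measure_prodMk_left (measurable_step gl hB)

theorem ker_apply (gl : Bool) (x : X) {B : Set X} (hB : MeasurableSet B) :
    ker gl x B = nu (step gl x ⁻¹' B) := Measure.map_apply (measurable_step' gl _) hB

instance (gl : Bool) : IsMarkovKernel (ker gl) :=
  ⟨fun x => Measure.isProbabilityMeasure_map (measurable_step' gl x).aemeasurable⟩

def N : Finset Site := {s (-1), s 0, s 1}

noncomputable def rule (gl : Bool) (u : ↥N → Al) : ProbabilityMeasure Al :=
  ⟨(bern (1 / 2)).map fun c => (nG gl (u ⟨s 0, by simp [N]⟩) (u ⟨s 1, by simp [N]⟩),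
      nK gl (u ⟨s (-1), by simp [N]⟩) (u ⟨s 0, by simp [N]⟩), c),
    Measure.isProbabilityMeasure_map (measurable_of_finite _).aemeasurable⟩

theorem ker_eq (gl : Bool) (x : X) : ker gl x = Measure.infinitePi
    (fun k : Site => ((rule gl (fun v : ↥N => x (k + (v : Site)))) : Measure Al)) := by
  have := Measure.infinitePi_map_pi (fun _ : Site => bern (1 / 2))
    (f := fun (v : Site) (c : Bool) => ((dG gl x (v 0), dK gl x (v 0), c) : Al))
    (fun _ => measurable_of_finite _)
  refine Eq.trans this ?_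
  congr 1
  funext k
  simp only [rule, ProbabilityMeasure.coe_mk, add_s, dG, dK, add_zero, sub_eq_add_neg]

/-- the Markov operator -/
noncomputable def T (gl : Bool) (μ : Measure X) : Measure X := μ.bind (ker gl)

instance (gl : Bool) (μ : Measure X) [IsProbabilityMeasure μ] : IsProbabilityMeasure (T gl μ) := by
  unfold T; infer_instance

instance (gl : Bool) (n : ℕ) (μ : Measure X) [IsProbabilityMeasure μ] :
    IsProbabilityMeasure ((T gl)^[n] μ) := by
  induction n with
  | zero => simpa
  | succ n ih => rw [Function.iterate_succ_apply']; infer_instance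

theorem T_apply (gl : Bool) (μ : Measure X) {B : Set X} (hB : MeasurableSet B) :
    T gl μ B = ∫⁻ x, nu (step gl x ⁻¹' B) ∂μ := by
  unfold T
  rw [Measure.bind_apply hB (ker gl).aemeasurable]
  simp only [ker_apply gl _ hB]

theorem T_le (gl : Bool) (μ : Measure X) {B B' : Set X} (hB : MeasurableSet B)
    (hB' : MeasurableSet B') (h : ∀ x ξ, step gl x ξ ∈ B → x ∈ B') : T gl μ B ≤ μ B' := by
  rw [T_apply gl μ hB, ← lintegral_indicator_one hB']
  refine lintegral_mono fun x => ?_
  by_cases hx : x ∈ B'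
  · simpa [hx] using prob_le_one
  · have : step gl x ⁻¹' B = ∅ := eq_empty_of_forall_notMem fun ξ hξ => hx (h x ξ hξ)
    simp [this]

/-- some new killer in `[a, a + m)` -/
def E (gl : Bool) (a : ℤ) (m : ℕ) : Set X := {x | ∃ q : ℤ, a ≤ q ∧ q < a + m ∧ dK gl x q = true}

/-- some new glider in `[a, a + m)` -/
def EG (gl : Bool) (a : ℤ) (m : ℕ) : Set X := {x | ∃ q : ℤ, a ≤ q ∧ q < a + m ∧ dG gl x q = true}

theorem measurableSet_E (gl : Bool) (a : ℤ) (m : ℕ) : MeasurableSet (E gl a m) := by
  have := fun q => measurable_dK gl q (measurableSet_singleton true)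
  unfold E
  rw [ofPred_exists]
  refine MeasurableSet.iUnion fun q => ?_
  exact (MeasurableSet.const _).inter ((MeasurableSet.const _).inter (this q))

theorem measurableSet_EG (gl : Bool) (a : ℤ) (m : ℕ) : MeasurableSet (EG gl a m) := by
  have := fun q => measurable_dG gl q (measurableSet_singleton true)
  unfold EG
  rw [ofPred_exists]
  refine MeasurableSet.iUnion fun q => ?_
  exact (MeasurableSet.const _).inter ((MeasurableSet.const _).inter (this q))

theorem E_zero (gl : Bool) (a : ℤ) : E gl a 0 = ∅ :=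
  eq_empty_of_forall_notMem fun _ ⟨_, h1, h2, _⟩ => by simp at h2; omega

/-- the dual interval -/
def E' (gl : Bool) (a : ℤ) (m : ℕ) : Bool → Bool → Set X
  | false, false => E gl a (m + 1)
  | true, false => E gl (a - 1) (m + 2)
  | false, true => E gl a m
  | true, true => E gl (a - 1) (m + 1)

theorem mem_E' (gl : Bool) (a : ℤ) (m : ℕ) (b c : Bool) (x : X) : x ∈ E' gl a m b c ↔
    ∃ q : ℤ, a - b.toNat ≤ q ∧ q < a + m + 1 - c.toNat ∧ dK gl x q = true := by
  cases b <;> cases c <;> simp only [E', E, mem_ofPred_eq] <;>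
    refine exists_congr fun q => and_congr (by simp) (and_congr_left' ?_) <;>
    simp <;> omega

theorem step_E_sub (gl : Bool) (a : ℤ) (m : ℕ) (x : X) (ξ : Site → Bool)
    (h : step gl x ξ ∈ E gl a (m + 1)) :
    x ∈ E' gl a m (ξ (s (a - 1))) (ξ (s (a + m))) ∨ x ∈ EG gl a (m + 1) := by
  obtain ⟨q, h1, h2, h3⟩ := h
  have e : dK gl (step gl x ξ) q = nK gl (step gl x ξ (s (q - 1))) (step gl x ξ (s q)) := rfl
  rw [e] at h3
  simp only [nK, step_s, Bool.or_eq_true, Bool.and_eq_true, Bool.not_eq_true'] at h3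
  rw [mem_E']
  push_cast at h2
  rcases h3 with (⟨h3, h4⟩ | ⟨h3, h4⟩) | ⟨-, h3⟩
  · left
    refine ⟨q, by omega, ?_, h3⟩
    by_cases hq : q = a + m
    · rw [← hq, h4]; simp
    · have := Bool.toNat_le (ξ (s (a + m)))
      omega
  · left
    have := Bool.toNat_le (ξ (s (a + m)))
    refine ⟨q - 1, ?_, by omega, h3⟩
    by_cases hq : q = a
    · rw [← hq, h4]; simp
    · omega
  · right
    exact ⟨q, h1, by push_cast; omega, h3⟩

theorem step_E_sup (gl : Bool) (a : ℤ) (m : ℕ) (x : X) (ξ : Site → Bool)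
    (h : x ∈ E' gl a m (ξ (s (a - 1))) (ξ (s (a + m)))) : step gl x ξ ∈ E gl a (m + 1) := by
  rw [mem_E'] at h
  obtain ⟨q, h1, h2, h3⟩ := h
  have b1 := Bool.toNat_le (ξ (s (a - 1)))
  cases hq : ξ (s q)
  · refine ⟨q, ?_, by push_cast; omega, ?_⟩
    · by_cases hq' : q = a - 1
      · rw [← hq', hq] at h1
        simp at h1
        omega
      · omega
    · have : dK gl (step gl x ξ) q = nK gl (step gl x ξ (s (q - 1))) (step gl x ξ (s q)) := rfl
      simp [this, nK, step_s, h3, hq]
  · refine ⟨q + 1, by omega, ?_, ?_⟩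
    · by_cases hq' : q = a + m
      · rw [← hq', hq] at h2
        simp at h2
      · push_cast
        omega
    · have : dK gl (step gl x ξ) (q + 1) =
        nK gl (step gl x ξ (s (q + 1 - 1))) (step gl x ξ (s (q + 1))) := rfl
      simp [this, nK, step_s, h3, hq]

theorem lintegral_two {i j : Site} (hij : i ≠ j) (F : Bool → Bool → ℝ≥0∞) :
    ∫⁻ ξ, F (ξ i) (ξ j) ∂nu =
      4⁻¹ * (F false false + F true false + F false true + F true true) := by
  have := Measure.infinitePi_map_eval_prod (P := fun _ : Site => bern (1 / 2)) hij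
  have e : ∫⁻ ξ, F (ξ i) (ξ j) ∂nu = ∫⁻ p, F p.1 p.2 ∂(bern (1 / 2)).prod (bern (1 / 2)) := by
    rw [← this, lintegral_map (measurable_of_finite _) (by fun_prop)]
    rfl
  rw [e, lintegral_prod _ (measurable_of_finite _).aemeasurable]
  simp only [lintegral_bern]
  have h2 : ENNReal.ofReal (1 / 2) = 2⁻¹ := by
    rw [one_div, ENNReal.ofReal_inv_of_pos (by norm_num)]; simp
  have h3 : ENNReal.ofReal (1 - 1 / 2) = 2⁻¹ := by rw [← h2]; norm_num
  have h4 : (4 : ℝ≥0∞)⁻¹ = 2⁻¹ * 2⁻¹ := by
    rw [← ENNReal.mul_inv (by simp) (by simp)]; norm_num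
  rw [h2, h3, h4]
  ring

theorem lintegral_dual (gl : Bool) (μ : Measure X) (a : ℤ) (m : ℕ) :
    ∫⁻ x, ∫⁻ ξ, (E' gl a m (ξ (s (a - 1))) (ξ (s (a + m)))).indicator 1 x ∂nu ∂μ =
      4⁻¹ * (μ (E gl a (m + 1)) + μ (E gl (a - 1) (m + 2)) + μ (E gl a m) +
        μ (E gl (a - 1) (m + 1))) := by
  have hne : s (a - 1) ≠ s (a + m) := fun h => by have := s_inj h; omega
  have hm : ∀ a m, Measurable ((E gl a m).indicator (1 : X → ℝ≥0∞)) := fun a m =>
    measurable_one.indicator (measurableSet_E gl a m)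
  rw [lintegral_congr fun x =>
    lintegral_two hne fun b c => (E' gl a m b c).indicator (1 : X → ℝ≥0∞) x]
  simp only [E']
  rw [lintegral_const_mul' _ _ (by simp), lintegral_add_right _ (hm _ _),
    lintegral_add_right _ (hm _ _), lintegral_add_right _ (hm _ _)]
  simp only [lintegral_indicator_one (measurableSet_E gl _ _)]

theorem T_E_le (gl : Bool) (μ : Measure X) (a : ℤ) (m : ℕ) :
    T gl μ (E gl a (m + 1)) ≤ 4⁻¹ * (μ (E gl a (m + 1)) + μ (E gl (a - 1) (m + 2)) + μ (E gl a m) +
        μ (E gl (a - 1) (m + 1))) + μ (EG gl a (m + 1)) := by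
  rw [T_apply gl μ (measurableSet_E gl _ _), ← lintegral_dual,
    ← lintegral_indicator_one (measurableSet_EG gl _ _),
    ← lintegral_add_right _ (measurable_one.indicator (measurableSet_EG gl _ _))]
  refine lintegral_mono fun x => ?_
  rw [← lintegral_indicator_one (measurable_step' gl x (measurableSet_E gl _ _))]
  calc _ ≤ ∫⁻ ξ, ((E' gl a m (ξ (s (a - 1))) (ξ (s (a + m)))).indicator 1 x +
        (EG gl a (m + 1)).indicator 1 x) ∂nu := by
        refine lintegral_mono fun ξ => ?_
        by_cases h : step gl x ξ ∈ E gl a (m + 1)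
        · have h' : ξ ∈ step gl x ⁻¹' E gl a (m + 1) := h
          rcases step_E_sub gl a m x ξ h with h1 | h1 <;> simp [h', h1]
        · have h' : ξ ∉ step gl x ⁻¹' E gl a (m + 1) := h
          simp [h']
    _ = _ := by
        rw [lintegral_add_right _ measurable_const]
        simp

theorem T_E_ge (gl : Bool) (μ : Measure X) (a : ℤ) (m : ℕ) :
    4⁻¹ * (μ (E gl a (m + 1)) + μ (E gl (a - 1) (m + 2)) + μ (E gl a m) +
        μ (E gl (a - 1) (m + 1))) ≤ T gl μ (E gl a (m + 1)) := by
  rw [T_apply gl μ (measurableSet_E gl _ _), ← lintegral_dual]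
  refine lintegral_mono fun x => ?_
  rw [← lintegral_indicator_one (measurable_step' gl x (measurableSet_E gl _ _))]
  refine lintegral_mono fun ξ => ?_
  by_cases h : x ∈ E' gl a m (ξ (s (a - 1))) (ξ (s (a + m)))
  · have h' : ξ ∈ step gl x ⁻¹' E gl a (m + 1) := step_E_sup gl a m x ξ h
    simp [h', h]
  · simp [h]

theorem decay {ι : Type*} (p : ι → ℕ → ℤ → ℕ → ℝ) (err : ℕ → ℤ → ℕ → ℝ)
    (h1 : ∀ i n a m, p i n a m ≤ 1) (h0 : ∀ i n a, p i n a 0 = 0)
    (hrec : ∀ i n a m, p i (n + 1) a (m + 1) ≤ 4⁻¹ * (p i n a (m + 1) + p i n (a - 1) (m + 2) +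
      p i n a m + p i n (a - 1) (m + 1)) + err n a m)
    (herr : ∀ a m, Tendsto (fun n => err n a m) atTop (𝓝 0)) (a : ℤ) (m : ℕ) {ε : ℝ}
    (hε : 0 < ε) : ∀ᶠ n in atTop, ∀ i, p i n a m ≤ ε := by
  have key : ∀ (K L : ℕ), 0 < K → ∀ (a : ℤ) (m : ℕ), m ≤ K → ∀ ε : ℝ, 0 < ε →
      ∀ᶠ n in atTop, ∀ i, p i n a m ≤ m / K + 2 * m * (K - m) / (L + 1) + ε := by
    intro K L hK
    have hK' : (0 : ℝ) < K := by exact_mod_cast hK
    have triv : ∀ (L : ℕ) (a : ℤ) (m : ℕ) (ε : ℝ), 0 < ε → m ≤ K →
        (m = 0 ∨ m = K ∨ (L + 1 : ℝ) ≤ 2 * m * (K - m)) →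
        ∀ n i, p i n a m ≤ m / K + 2 * m * (K - m) / (L + 1) + ε := by
      intro L a m ε hε hm h n i
      rcases h with rfl | rfl | h
      · simp [h0, hε.le]
      · rw [div_self hK'.ne']
        simp only [sub_self, mul_zero, zero_div, add_zero]
        linarith [h1 i n a m]
      · have : 1 ≤ 2 * (m : ℝ) * (K - m) / (L + 1) := by
          rw [le_div_iff₀ (by positivity)]; linarith
        have h2 : (0 : ℝ) ≤ m / K := by positivity
        linarith [h1 i n a m]
    induction L with
    | zero =>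
      intro a m hm ε hε
      refine Eventually.of_forall (triv 0 a m ε hε hm ?_)
      by_cases hm0 : m = 0
      · exact Or.inl hm0
      by_cases hmK : m = K
      · exact Or.inr (Or.inl hmK)
      have e1 : (1 : ℝ) ≤ m := by exact_mod_cast Nat.pos_of_ne_zero hm0
      have e2 : (m : ℝ) + 1 ≤ K := by exact_mod_cast (show m + 1 ≤ K by omega)
      right; right
      push_cast
      nlinarith
    | succ L ih =>
      intro a m hm ε hε
      by_cases hc : m = 0 ∨ m = K ∨ ((L + 1 : ℕ) + 1 : ℝ) ≤ 2 * m * (K - m)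
      · exact Eventually.of_forall (triv (L + 1) a m ε hε hm hc)
      push Not at hc
      obtain ⟨hm0, hmK, hlt⟩ := hc
      obtain ⟨m, rfl⟩ := Nat.exists_eq_succ_of_ne_zero hm0
      have hε2 := half_pos hε
      have ev : ∀ᶠ n in atTop, ∀ i, p i (n + 1) a (m + 1) ≤
          (m + 1 : ℕ) / K + 2 * (m + 1 : ℕ) * (K - (m + 1 : ℕ)) / ((L + 1 : ℕ) + 1) + ε := by
        filter_upwards [ih a (m + 1) hm _ hε2, ih (a - 1) (m + 2) (by omega) _ hε2,
          ih a m (by omega) _ hε2, ih (a - 1) (m + 1) hm _ hε2,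
          (herr a m).eventually (ge_mem_nhds hε2)] with n e1 e2 e3 e4 e5 i
        have r := hrec i n a m
        have f1 := e1 i
        have f2 := e2 i
        have f3 := e3 i
        have f4 := e4 i
        push_cast at f1 f2 f3 f4 hlt ⊢
        have hL : (0 : ℝ) < L + 1 := by positivity
        have id1 : ((m : ℝ) + 2) / K + m / K = 2 * ((m + 1) / K) := by ring
        have id2 : 2 * ((m : ℝ) + 2) * (K - (m + 2)) / (L + 1) + 2 * m * (K - m) / (L + 1) =
            2 * (2 * (m + 1) * (K - (m + 1)) / (L + 1)) - 4 / (L + 1) := by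
          field_simp
          ring
        have id3 : 2 * ((m : ℝ) + 1) * (K - (m + 1)) / (L + 1) - 1 / (L + 1) ≤
            2 * (m + 1) * (K - (m + 1)) / (L + 1 + 1) := by
          rw [← sub_div, div_le_div_iff₀ hL (by positivity)]
          nlinarith
        have id4 : 4 / ((L : ℝ) + 1) = 4 * (1 / (L + 1)) := by ring
        linarith
      rw [eventually_atTop] at ev ⊢
      obtain ⟨n0, hn0⟩ := ev
      refine ⟨n0 + 1, fun n hn => ?_⟩
      obtain ⟨n, rfl⟩ := Nat.exists_eq_add_of_le' (show 1 ≤ n by omega)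
      exact hn0 n (by omega)
  obtain ⟨K, hK⟩ := exists_nat_gt (max (m : ℝ) (3 * m / ε))
  have hK1 : (m : ℝ) < K := (le_max_left _ _).trans_lt hK
  have hK0 : (0 : ℝ) < K := (Nat.cast_nonneg m).trans_lt hK1
  obtain ⟨L, hL⟩ := exists_nat_gt (3 * (2 * m * (K - m)) / ε)
  filter_upwards [key K L (by exact_mod_cast hK0) a m (by exact_mod_cast hK1.le) (ε / 3)
    (by linarith)] with n hn i
  have e1 : (m : ℝ) / K ≤ ε / 3 := by
    have := (le_max_right _ _).trans_lt hK
    rw [div_lt_iff₀ hε] at this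
    rw [div_le_iff₀ hK0]
    linarith
  have e2 : 2 * (m : ℝ) * (K - m) / (L + 1) ≤ ε / 3 := by
    rw [div_lt_iff₀ hε] at hL
    rw [div_le_iff₀ (by positivity)]
    nlinarith
  linarith [hn i]

end Pool.Agent.H44.PCA1
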