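import Pool.Agent.H44.PCA1

open MeasureTheory ProbabilityTheory Set Filter Topology
open scoped ENNReal

namespace Pool.Agent.H44.PCA1
open Pool.Agent.H44.Drive

theorem mG (q : ℤ) (b : Bool) : Measurable fun x : X => (x (s q)).1 = b :=
  (measurable_of_finite fun a : Al => a.1 = b).comp (measurable_pi_apply (s q))

theorem mK (q : ℤ) (b : Bool) : Measurable fun x : X => (x (s q)).2.1 = b :=
  (measurable_of_finite fun a : Al => a.2.1 = b).comp (measurable_pi_apply (s q))

def B (n : ℕ) (i : ℤ) : Set X :=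
  {x | (x (s (i + n + 1))).1 = true ∧ (∀ q, i ≤ q → q ≤ i + n + 1 → (x (s q)).2.1 = false) ∧
    (1 ≤ n → ∀ q, i ≤ q → q ≤ i + n → (x (s q)).1 = false)}

theorem measurableSet_B (n : ℕ) (i : ℤ) : MeasurableSet (B n i) :=
  ((mG _ _).and ((Measurable.forall fun q => measurable_const.imp
    (measurable_const.imp (mK q false))).and (measurable_const.imp
      (Measurable.forall fun q => measurable_const.imp
        (measurable_const.imp (mG q false)))))).setOf

theorem dG_sub_B (i : ℤ) : {x | dG true x i = true} ⊆ B 0 i := by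
  intro x hx
  simp only [dG, nG, mem_ofPred_eq, Bool.true_and, Bool.and_eq_true, Bool.not_eq_true'] at hx
  refine ⟨by simpa using hx.1.1, fun q h1 h2 => ?_, fun h => absurd h (by norm_num)⟩
  obtain rfl | rfl : q = i ∨ q = i + 1 := by push_cast at h2; omega
  · exact hx.1.2
  · exact hx.2

theorem step_B (n : ℕ) (i : ℤ) (x : X) (ξ : Site → Bool) (h : step true x ξ ∈ B n i) :
    x ∈ B (n + 1) i := by
  obtain ⟨h1, h2, -⟩ := h
  simp only [step_s, dG, dK, nG, nK, Bool.true_and, Bool.and_eq_true, Bool.not_eq_true',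
    Bool.or_eq_false_iff, Bool.and_eq_false_imp, Bool.not_eq_false'] at h1 h2
  refine ⟨by push_cast; rw [← add_assoc]; exact h1.1.1, fun q h3 h4 => ?_,
    fun _ q h3 h4 => (h2 q h3 (by push_cast at h4; omega)).2⟩
  push_cast at h4
  by_cases hq : q = i + n + 1
  · rw [hq]; exact h1.1.2
  by_cases hq' : q = i + n + 1 + 1
  · rw [hq']; exact h1.2
  by_contra hc
  have hc' : (x (s q)).2.1 = true := by simpa using hc
  have a1 := (h2 q h3 (by omega)).1.1 hc'
  have a2 := (h2 (q + 1) (by omega) (by omega)).1.2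
  rw [add_sub_cancel_right] at a2
  rw [a2 hc'] at a1
  exact Bool.false_ne_true a1

theorem iter_dG_le (n : ℕ) (i : ℤ) (μ : Measure X) :
    ((T true)^[n] μ) {x | dG true x i = true} ≤ μ (B n i) := by
  induction n generalizing μ with
  | zero => exact measure_mono (dG_sub_B i)
  | succ n ih =>
    rw [Function.iterate_succ_apply]
    exact (ih _).trans (T_le true μ (measurableSet_B _ _) (measurableSet_B _ _) (step_B n i))

theorem B_tendsto (i : ℤ) (μ : Measure X) [IsProbabilityMeasure μ] :
    Tendsto (fun n => μ (B n i)) atTop (𝓝 0) := by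
  rw [← tendsto_add_atTop_iff_nat 1]
  refine ENNReal.tendsto_atTop_zero_of_tsum_ne_top ?_
  rw [← measure_iUnion _ fun n => measurableSet_B _ _]
  · exact measure_ne_top _ _
  · have : ∀ n m : ℕ, n < m → Disjoint (B (n + 1) i) (B (m + 1) i) := by
      intro n m hnm
      rw [disjoint_left]
      intro x hx hx'
      have := hx'.2.2 (by omega) (i + (n + 1 : ℕ) + 1) (by omega) (by push_cast; omega)
      rw [hx.1] at this
      exact Bool.false_ne_true this.symm
    intro n m hnm
    rcases lt_or_gt_of_ne hnm with h | h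
    · exact this _ _ h
    · exact (this _ _ h).symm

theorem EG_tendsto (a : ℤ) (m : ℕ) (μ : Measure X) [IsProbabilityMeasure μ] :
    Tendsto (fun n => (((T true)^[n] μ) (EG true a m)).toReal) atTop (𝓝 0) := by
  have h : Tendsto (fun n => ∑ j ∈ Finset.range m, μ (B n (a + j))) atTop (𝓝 0) := by
    simpa using tendsto_finsetSum (Finset.range m) fun j _ => B_tendsto (a + j) μ
  have h2 : Tendsto (fun n => ((T true)^[n] μ) (EG true a m)) atTop (𝓝 0) := by
    refine tendsto_of_tendsto_of_tendsto_of_le_of_le tendsto_const_nhds h (fun _ => zero_le)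
      fun n => ?_
    refine le_trans (measure_mono (t := ⋃ j ∈ Finset.range m, {x | dG true x (a + j) = true}) ?_)
      ((measure_biUnion_finset_le _ _).trans (Finset.sum_le_sum fun j _ => iter_dG_le n _ μ))
    rintro x ⟨q, h1, h2, h3⟩
    simp only [mem_iUnion]
    refine ⟨(q - a).toNat, by simp; omega, ?_⟩
    have : a + ((q - a).toNat : ℤ) = q := by omega
    simpa only [mem_ofPred_eq, this] using h3
  exact (ENNReal.tendsto_toReal (by simp)).comp h2

theorem EG_false (a : ℤ) (m : ℕ) : EG false a m = ∅ :=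
  eq_empty_of_forall_notMem fun _ ⟨_, _, _, h⟩ => by simp [dG, nG] at h

theorem T_E_le_real (gl : Bool) (μ : Measure X) [IsProbabilityMeasure μ] (a : ℤ) (m : ℕ) :
    (T gl μ (E gl a (m + 1))).toReal ≤ 4⁻¹ * ((μ (E gl a (m + 1))).toReal +
      (μ (E gl (a - 1) (m + 2))).toReal + (μ (E gl a m)).toReal +
        (μ (E gl (a - 1) (m + 1))).toReal) + (μ (EG gl a (m + 1))).toReal := by
  refine (ENNReal.toReal_mono (by finiteness) (T_E_le gl μ a m)).trans_eq ?_
  rw [ENNReal.toReal_add (by finiteness) (by finiteness), ENNReal.toReal_mul,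
    ENNReal.toReal_add (by finiteness) (by finiteness),
    ENNReal.toReal_add (by finiteness) (by finiteness),
    ENNReal.toReal_add (by finiteness) (by finiteness)]
  simp

theorem T_E_ge_real (gl : Bool) (μ : Measure X) [IsProbabilityMeasure μ] (a : ℤ) (m : ℕ) :
    4⁻¹ * ((μ (E gl a (m + 1))).toReal +
      (μ (E gl (a - 1) (m + 2))).toReal + (μ (E gl a m)).toReal +
        (μ (E gl (a - 1) (m + 1))).toReal) ≤ (T gl μ (E gl a (m + 1))).toReal := by
  refine le_trans (le_of_eq ?_) (ENNReal.toReal_mono (by finiteness) (T_E_ge gl μ a m))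
  rw [ENNReal.toReal_mul,
    ENNReal.toReal_add (by finiteness) (by finiteness),
    ENNReal.toReal_add (by finiteness) (by finiteness),
    ENNReal.toReal_add (by finiteness) (by finiteness)]
  simp

def x0 : X := fun _ => (false, false, false)

theorem dG_x0 (gl : Bool) (i : ℤ) : dG gl x0 i = false := by simp [dG, nG, x0]
theorem dK_x0 (gl : Bool) (i : ℤ) : dK gl x0 i = false := by simp [dK, nK, x0]

def cyl (S : Finset Site) (a : X) : Set X := {x | ∀ k ∈ S, x k = a k}

theorem measurableSet_cyl (S : Finset Site) (a : X) : MeasurableSet (cyl S a) :=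
  (Measurable.forall fun k => measurable_const.imp
    ((measurable_of_finite fun b : Al => b = a k).comp (measurable_pi_apply k))).setOf

def bad (gl : Bool) (S : Finset Site) : Set X := ⋃ k ∈ S, (EG gl (k 0) 1 ∪ E gl (k 0) 1)

theorem measurableSet_bad (gl : Bool) (S : Finset Site) : MeasurableSet (bad gl S) :=
  S.measurableSet_biUnion fun _ _ => (measurableSet_EG _ _ _).union (measurableSet_E _ _ _)

theorem step_of_not_bad {gl : Bool} {S : Finset Site} {x : X} (hx : x ∉ bad gl S) (ξ : Site → Bool)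
    {k : Site} (hk : k ∈ S) : step gl x ξ k = step gl x0 ξ k := by
  simp only [bad, mem_iUnion, mem_union, not_exists, not_or] at hx
  obtain ⟨h1, h2⟩ := hx k hk
  have e1 : dG gl x (k 0) = false := by
    by_contra hc
    exact h1 ⟨k 0, le_rfl, by simp, by simpa using hc⟩
  have e2 : dK gl x (k 0) = false := by
    by_contra hc
    exact h2 ⟨k 0, le_rfl, by simp, by simpa using hc⟩
  simp only [step, e1, e2, dG_x0, dK_x0]

theorem pre_cyl {gl : Bool} {S : Finset Site} {x : X} (hx : x ∉ bad gl S) (a : X) :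
    step gl x ⁻¹' cyl S a = step gl x0 ⁻¹' cyl S a := by
  ext ξ
  exact forall₂_congr fun k hk => by rw [step_of_not_bad hx ξ hk]

theorem T_cyl (gl : Bool) (μ : Measure X) [IsProbabilityMeasure μ] (S : Finset Site) (a : X) :
    |(T gl μ (cyl S a)).toReal - (ker gl x0 (cyl S a)).toReal| ≤ (μ (bad gl S)).toReal := by
  have hm := measurable_one.indicator (measurableSet_bad gl S) (f := (1 : X → ℝ≥0∞))
  have h1 : T gl μ (cyl S a) ≤ ker gl x0 (cyl S a) + μ (bad gl S) := by
    rw [T_apply gl μ (measurableSet_cyl S a), ker_apply gl x0 (measurableSet_cyl S a)]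
    calc _ ≤ ∫⁻ x, (nu (step gl x0 ⁻¹' cyl S a) + (bad gl S).indicator 1 x) ∂μ := by
          refine lintegral_mono fun x => ?_
          by_cases hx : x ∈ bad gl S
          · simpa [hx] using le_add_left prob_le_one
          · simp [hx, pre_cyl hx]
      _ = _ := by
          rw [lintegral_add_right _ hm, lintegral_indicator_one (measurableSet_bad gl S)]
          simp
  have h2 : ker gl x0 (cyl S a) ≤ T gl μ (cyl S a) + μ (bad gl S) := by
    rw [T_apply gl μ (measurableSet_cyl S a), ker_apply gl x0 (measurableSet_cyl S a),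
      ← lintegral_indicator_one (measurableSet_bad gl S), ← lintegral_add_right _ hm]
    calc _ = ∫⁻ _, nu (step gl x0 ⁻¹' cyl S a) ∂μ := by simp
      _ ≤ _ := by
          refine lintegral_mono fun x => ?_
          by_cases hx : x ∈ bad gl S
          · simpa [hx] using le_add_left prob_le_one
          · simp [hx, pre_cyl hx]
  have e1 := ENNReal.toReal_mono (by finiteness) h1
  have e2 := ENNReal.toReal_mono (by finiteness) h2
  rw [ENNReal.toReal_add (by finiteness) (by finiteness)] at e1 e2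
  rw [abs_le]
  constructor <;> linarith

theorem bad_decay {ι : Type*} (gl : Bool) (μ : ι → Measure X) [∀ i, IsProbabilityMeasure (μ i)]
    (err : ℕ → ℤ → ℕ → ℝ)
    (h1 : ∀ i n a m, (((T gl)^[n] (μ i)) (EG gl a (m + 1))).toReal ≤ err n a m)
    (herr : ∀ a m, Tendsto (fun n => err n a m) atTop (𝓝 0)) (S : Finset Site) {ε : ℝ}
    (hε : 0 < ε) : ∀ᶠ n in atTop, ∀ i, (((T gl)^[n] (μ i)) (bad gl S)).toReal < ε := by
  have hd := fun a m ε (hε : 0 < ε) => decay
    (fun i n a m => (((T gl)^[n] (μ i)) (E gl a m)).toReal) err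
    (fun i n a m => ENNReal.toReal_le_of_le_ofReal zero_le_one (by simpa using prob_le_one))
    (fun i n a => by simp [E_zero])
    (fun i n a m => by
      rw [Function.iterate_succ_apply']
      exact (T_E_le_real gl _ a m).trans (add_le_add le_rfl (h1 i n a m))) herr a m hε
  set δ : ℝ := ε / (2 * (S.card + 1)) with hδ
  have hδ0 : 0 < δ := by positivity
  have ev : ∀ᶠ n in atTop, ∀ k ∈ S, (∀ i, (((T gl)^[n] (μ i)) (E gl (k 0) 1)).toReal ≤ δ) ∧
      err n (k 0) 0 ≤ δ :=
    (eventually_all_finset S).2 fun k _ =>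
      (hd (k 0) 1 δ hδ0).and ((herr (k 0) 0).eventually (ge_mem_nhds hδ0))
  filter_upwards [ev] with n hn i
  have e : ((T gl)^[n] (μ i)) (bad gl S) ≤ ∑ k ∈ S, ENNReal.ofReal (2 * δ) := by
    refine (measure_biUnion_finset_le _ _).trans (Finset.sum_le_sum fun k hk => ?_)
    refine (measure_union_le _ _).trans ?_
    rw [two_mul, ENNReal.ofReal_add hδ0.le hδ0.le]
    refine add_le_add ?_ ?_
    · rw [← ENNReal.ofReal_toReal (measure_ne_top _ (EG gl (k 0) 1))]
      exact ENNReal.ofReal_le_ofReal ((h1 i n (k 0) 0).trans (hn k hk).2)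
    · rw [← ENNReal.ofReal_toReal (measure_ne_top _ (E gl (k 0) 1))]
      exact ENNReal.ofReal_le_ofReal ((hn k hk).1 i)
  rw [← ENNReal.ofReal_sum_of_nonneg fun _ _ => by positivity] at e
  refine (ENNReal.toReal_le_of_le_ofReal (by positivity) e).trans_lt ?_
  rw [Finset.sum_const, nsmul_eq_mul, hδ]
  have : (0 : ℝ) < S.card + 1 := by positivity
  calc (S.card : ℝ) * (2 * (ε / (2 * (S.card + 1)))) = ε * (S.card / (S.card + 1)) := by
        field_simp
    _ < ε * 1 := by
        gcongr
        rw [div_lt_one this]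
        linarith
    _ = ε := mul_one ε

theorem cyl_decay {ι : Type*} (gl : Bool) (μ : ι → Measure X) [∀ i, IsProbabilityMeasure (μ i)]
    (err : ℕ → ℤ → ℕ → ℝ)
    (h1 : ∀ i n a m, (((T gl)^[n] (μ i)) (EG gl a (m + 1))).toReal ≤ err n a m)
    (herr : ∀ a m, Tendsto (fun n => err n a m) atTop (𝓝 0)) (S : Finset Site) (a : X) {ε : ℝ}
    (hε : 0 < ε) : ∃ n0, ∀ n, n0 ≤ n → ∀ i,
      |(((T gl)^[n] (μ i)) (cyl S a)).toReal - (ker gl x0 (cyl S a)).toReal| < ε := by
  obtain ⟨n0, hn0⟩ := eventually_atTop.1 (bad_decay gl μ err h1 herr S hε)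
  refine ⟨n0 + 1, fun n hn i => ?_⟩
  obtain ⟨n, rfl⟩ := Nat.exists_eq_add_of_le' (show 1 ≤ n by omega)
  rw [Function.iterate_succ_apply']
  exact (T_cyl gl _ S a).trans_lt (hn0 n (by omega) i)

theorem ergodic_true (μ : Measure X) [IsProbabilityMeasure μ] (S : Finset Site) (a : X) :
    Tendsto (fun n => ((T true)^[n] μ) (cyl S a)) atTop (𝓝 (ker true x0 (cyl S a))) := by
  rw [← ENNReal.tendsto_toReal_iff (fun _ => measure_ne_top _ _) (measure_ne_top _ _),
    Metric.tendsto_atTop]
  intro ε hε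
  obtain ⟨n0, hn0⟩ := cyl_decay true (fun _ : Unit => μ)
    (fun n a m => (((T true)^[n] μ) (EG true a (m + 1))).toReal) (fun _ _ _ _ => le_rfl)
    (fun a m => EG_tendsto a (m + 1) μ) S a hε
  exact ⟨n0, fun n hn => hn0 n hn ()⟩

theorem uniform_false (S : Finset Site) (a : X) {ε : ℝ} (hε : 0 < ε) :
    ∃ n0, ∀ n, n0 ≤ n → ∀ μ : Measure X, IsProbabilityMeasure μ →
      |(((T false)^[n] μ) (cyl S a)).toReal - (ker false x0 (cyl S a)).toReal| < ε := by
  obtain ⟨n0, hn0⟩ := cyl_decay false (fun μ : ProbabilityMeasure X => (μ : Measure X))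
    (fun _ _ _ => 0) (fun _ _ _ _ => by simp [EG_false]) (fun _ _ => tendsto_const_nhds) S a hε
  exact ⟨n0, fun n hn μ hμ => hn0 n hn ⟨μ, hμ⟩⟩

theorem T_of_ae (gl : Bool) (μ : Measure X) [IsProbabilityMeasure μ]
    (h : ∀ᵐ x ∂μ, ∀ k : Site, x ∉ bad gl {k}) : T gl μ = ker gl x0 := by
  ext A hA
  rw [T_apply gl μ hA, ker_apply gl x0 hA]
  calc _ = ∫⁻ _, nu (step gl x0 ⁻¹' A) ∂μ := by
        refine lintegral_congr_ae ?_
        filter_upwards [h] with x hx
        have : step gl x = step gl x0 := by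
          funext ξ k
          exact step_of_not_bad (hx k) ξ (Finset.mem_singleton_self k)
        rw [this]
    _ = _ := by simp

theorem invariant (gl : Bool) : T gl (ker gl x0) = ker gl x0 := by
  refine T_of_ae gl _ (ae_all_iff.2 fun k => ?_)
  rw [ae_iff]
  simp only [not_not, ofPred_mem_eq]
  rw [ker_apply gl x0 (measurableSet_bad gl _)]
  convert measure_empty (μ := nu)
  refine eq_empty_of_forall_notMem fun ξ hξ => ?_
  simp only [bad, Finset.mem_singleton, iUnion_iUnion_eq_left, mem_preimage, mem_union] at hξ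
  rcases hξ with ⟨q, -, -, h⟩ | ⟨q, -, -, h⟩
  · have : dG gl (step gl x0 ξ) q = nG gl (step gl x0 ξ (s q)) (step gl x0 ξ (s (q + 1))) := rfl
    simp [this, step_s, nG, dG_x0] at h
  · have : dK gl (step gl x0 ξ) q = nK gl (step gl x0 ξ (s (q - 1))) (step gl x0 ξ (s q)) := rfl
    simp [this, step_s, nK, dG_x0, dK_x0] at h

theorem unique_false (μ : Measure X) [IsProbabilityMeasure μ] (h : T false μ = μ) :
    μ = ker false x0 := by
  rw [← h]
  refine T_of_ae false μ (ae_all_iff.2 fun k => ?_)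
  rw [ae_iff]
  simp only [not_not, ofPred_mem_eq]
  have : ∀ ε : ℝ, 0 < ε → (μ (bad false {k})).toReal < ε := by
    intro ε hε
    obtain ⟨n, hn⟩ := (bad_decay false (fun _ : Unit => μ) (fun _ _ _ => 0)
      (fun _ _ _ _ => by simp [EG_false]) (fun _ _ => tendsto_const_nhds) {k} hε).exists
    have := hn ()
    rwa [Function.iterate_fixed h] at this
  have h0 : (μ (bad false {k})).toReal = 0 :=
    le_antisymm (le_of_forall_pos_le_add fun ε hε => by linarith [this ε hε]) ENNReal.toReal_nonneg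
  rcases (ENNReal.toReal_eq_zero_iff _).1 h0 with h | h
  · exact h
  · exact absurd h (measure_ne_top _ _)

def x1 : X := fun _ => (false, true, false)

theorem lower_abs (p : ℕ → ℤ → ℕ → ℝ) (h0 : ∀ n a m, 0 ≤ p n a m) (h1 : ∀ a m, 1 ≤ p 0 a (m + 1))
    (hrec : ∀ n a m, 4⁻¹ * (p n a (m + 1) + p n (a - 1) (m + 2) + p n a m + p n (a - 1) (m + 1)) ≤
      p (n + 1) a (m + 1)) (n : ℕ) (a : ℤ) (m : ℕ) : (m : ℝ) / (m + n) ≤ p n a m := by
  induction n generalizing a m with
  | zero =>
    rcases m with _ | m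
    · simpa using h0 0 a 0
    · rw [Nat.cast_zero, add_zero]
      exact (div_self_le_one _).trans (h1 a m)
  | succ n ih =>
    rcases m with _ | m
    · simpa using h0 _ a 0
    refine le_trans ?_ (hrec n a m)
    have h1 := ih a (m + 1)
    have h2 := ih (a - 1) (m + 2)
    have h3 := ih a m
    have h4 := ih (a - 1) (m + 1)
    push_cast at h1 h2 h3 h4 ⊢
    have hm : (0 : ℝ) ≤ m := Nat.cast_nonneg m
    have hn : (0 : ℝ) ≤ n := Nat.cast_nonneg n
    have e1 : ((m : ℝ) + 1) / (m + 1 + (n + 1)) ≤ (m + 1) / (m + 1 + n) :=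
      div_le_div_of_nonneg_left (by linarith) (by linarith) (by linarith)
    have e2 : ((m : ℝ) + 2) / (m + 1 + (n + 1)) ≤ (m + 2) / (m + 2 + n) :=
      div_le_div_of_nonneg_left (by linarith) (by linarith) (by linarith)
    have e3 : (m : ℝ) / (m + 1 + (n + 1)) ≤ m / (m + n) := by
      rcases Nat.eq_zero_or_pos m with rfl | h
      · simp
      · have : (0 : ℝ) < m := by exact_mod_cast h
        exact div_le_div_of_nonneg_left (by linarith) (by linarith) (by linarith)
    have e4 : ((m : ℝ) + 2) / (m + 1 + (n + 1)) + m / (m + 1 + (n + 1)) =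
        2 * ((m + 1) / (m + 1 + (n + 1))) := by ring
    linarith

theorem lower_false (n : ℕ) (a : ℤ) (m : ℕ) :
    (m : ℝ) / (m + n) ≤ (((T false)^[n] (Measure.dirac x1)) (E false a m)).toReal := by
  refine lower_abs (fun n a m => (((T false)^[n] (Measure.dirac x1)) (E false a m)).toReal)
    (fun _ _ _ => ENNReal.toReal_nonneg) (fun a m => ?_) (fun n a m => ?_) n a m
  · have : x1 ∈ E false a (m + 1) := ⟨a, le_rfl, by push_cast; omega, rfl⟩
    rw [Function.iterate_zero_apply, Measure.dirac_apply_of_mem this, ENNReal.toReal_one]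
  · rw [Function.iterate_succ_apply']
    exact T_E_ge_real false _ a m

theorem nu_false : nu {ξ | ξ (s 0) = false} = 2⁻¹ := by
  have := lintegral_two (i := s 0) (j := s 1) (fun h => by have := s_inj h; omega)
    (fun b _ => if b = false then 1 else 0)
  have hm : MeasurableSet {ξ : Site → Bool | ξ (s 0) = false} :=
    ((measurable_of_finite fun b : Bool => b = false).comp (measurable_pi_apply (s 0))).setOf
  rw [← lintegral_indicator_one hm]
  refine Eq.trans (lintegral_congr fun ξ => ?_) (this.trans ?_)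
  · simp [indicator]
  · have h4 : (4 : ℝ≥0∞)⁻¹ = 2⁻¹ * 2⁻¹ := by
      rw [← ENNReal.mul_inv (by simp) (by simp)]; norm_num
    simp only [if_true, Bool.true_eq_false, if_false, add_zero, h4, one_add_one_eq_two]
    rw [mul_assoc, ENNReal.inv_mul_cancel (by simp) (by simp), mul_one]

theorem cyl_lower (n : ℕ) : 1 / (2 * (n + 1) : ℝ) ≤
    |(((T false)^[n + 1] (Measure.dirac x1)) (cyl {s 0} x1)).toReal -
      (ker false x0 (cyl {s 0} x1)).toReal| := by
  have e0 : ker false x0 (cyl {s 0} x1) = 0 := by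
    rw [ker_apply _ _ (measurableSet_cyl _ _)]
    convert measure_empty (μ := nu)
    refine eq_empty_of_forall_notMem fun ξ hξ => ?_
    have := hξ (s 0) (Finset.mem_singleton_self _)
    simp [step_s, x1, dK_x0] at this
  have e1 : ∀ μ : Measure X, 2⁻¹ * μ (E false 0 1) ≤ T false μ (cyl {s 0} x1) := by
    intro μ
    rw [T_apply _ _ (measurableSet_cyl _ _), ← lintegral_indicator_one (measurableSet_E _ _ _),
      ← lintegral_const_mul' _ _ (by simp)]
    refine lintegral_mono fun x => ?_
    by_cases hx : x ∈ E false 0 1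
    · simp only [hx, indicator_of_mem, Pi.one_apply, mul_one, ← nu_false]
      refine measure_mono fun ξ hξ k hk => ?_
      obtain ⟨q, h1, h2, h3⟩ := hx
      obtain rfl : q = 0 := by push_cast at h2; omega
      rw [Finset.mem_singleton.1 hk, step_s, h3, show ξ (s 0) = false from hξ]
      simp [x1, dG, nG]
    · simp [hx]
  rw [e0, Function.iterate_succ_apply', ENNReal.toReal_zero, sub_zero,
    abs_of_nonneg ENNReal.toReal_nonneg]
  refine le_trans ?_ (ENNReal.toReal_mono (by finiteness) (e1 _))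
  have := lower_false n 0 1
  rw [ENNReal.toReal_mul]
  simp only [ENNReal.toReal_inv, ENNReal.toReal_ofNat]
  have e : 1 / (2 * (n + 1) : ℝ) = 2⁻¹ * (((1 : ℕ) : ℝ) / ((1 : ℕ) + n)) := by
    push_cast
    field_simp
    ring
  rw [e]
  gcongr

theorem not_exp (K γ : ℝ) (h0 : 0 ≤ γ) (h1 : γ < 1) : ∃ t : ℕ, K * γ ^ t <
    |(((T false)^[t] (Measure.dirac x1)) (cyl {s 0} x1)).toReal -
      (ker false x0 (cyl {s 0} x1)).toReal| := by
  have h := ((tendsto_self_mul_const_pow_of_lt_one h0 h1).const_mul K).comp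
    (tendsto_add_atTop_nat 1)
  rw [mul_zero] at h
  obtain ⟨n, hn⟩ := (h.eventually (gt_mem_nhds (show (0 : ℝ) < 1 / 2 by norm_num))).exists
  refine ⟨n + 1, lt_of_lt_of_le ?_ (cyl_lower n)⟩
  simp only [Function.comp] at hn
  push_cast at hn
  rw [lt_div_iff₀ (by positivity)]
  linarith

/-- a lone glider at `n` with nothing to its left -/
def Gl (n : ℕ) : Set X :=
  {x | (x (s n)).1 = true ∧ (∀ q : ℤ, q ≤ n → (x (s q)).2.1 = false) ∧
    ∀ q : ℤ, q < n → (x (s q)).1 = false}

theorem measurableSet_Gl (n : ℕ) : MeasurableSet (Gl n) :=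
  ((mG _ _).and ((Measurable.forall fun q => measurable_const.imp (mK q false)).and
    (Measurable.forall fun q => measurable_const.imp (mG q false)))).setOf

theorem step_Gl (n : ℕ) (x : X) (ξ : Site → Bool) (h : x ∈ Gl (n + 1)) : step true x ξ ∈ Gl n := by
  obtain ⟨h1, h2, h3⟩ := h
  push_cast at h1 h2 h3
  refine ⟨?_, fun q hq => ?_, fun q hq => ?_⟩
  · simp [step_s, dG, nG, h1, h2 n (by omega), h2 (n + 1) le_rfl]
  · simp [step_s, dK, nK, h2 q (by omega), h2 (q - 1) (by omega), h3 q (by omega)]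
  · simp [step_s, dG, nG, h3 (q + 1) (by omega)]

theorem iter_Gl (n : ℕ) (μ : Measure X) : ((T true)^[n] μ) (Gl 0)ᶜ ≤ μ (Gl n)ᶜ := by
  induction n generalizing μ with
  | zero => exact le_rfl
  | succ n ih =>
    rw [Function.iterate_succ_apply]
    exact (ih _).trans (T_le true μ (measurableSet_Gl _).compl (measurableSet_Gl _).compl
      fun x ξ h hx => h (step_Gl n x ξ hx))

def xg (n : ℕ) : X := fun v => (decide (v 0 = n), false, false)

theorem glider_cyl (n : ℕ) : ((T true)^[n] (Measure.dirac (xg n))) (cyl {s 0} x0) = 0 := by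
  have hx : xg n ∈ Gl n := ⟨by simp [xg, s], fun _ _ => rfl, fun q hq => by simp [xg, s]; omega⟩
  refine le_antisymm (le_trans (measure_mono ?_) ((iter_Gl n _).trans_eq ?_)) zero_le
  · intro x hx hg
    have := hg.1
    rw [Nat.cast_zero, hx (s 0) (Finset.mem_singleton_self _)] at this
    simp [x0] at this
  · rw [Measure.dirac_apply' _ (measurableSet_Gl n).compl]
    simp [hx]

theorem pi_cyl : ker true x0 (cyl {s 0} x0) = 2⁻¹ := by
  rw [ker_apply _ _ (measurableSet_cyl _ _), ← nu_false]
  congr 1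
  ext ξ
  simp [cyl, step_s, dG_x0, dK_x0, x0]

theorem not_uniform (π : Measure X) (h : ∀ (S : Finset Site) (a : X), ∀ ε : ℝ, 0 < ε →
    ∃ n0 : ℕ, ∀ n : ℕ, n0 ≤ n → ∀ μ : Measure X, IsProbabilityMeasure μ →
      |(((T true)^[n] μ) (cyl S a)).toReal - (π (cyl S a)).toReal| < ε) : False := by
  obtain ⟨n, hn⟩ := h {s 0} x0 (1 / 4) (by norm_num)
  have h1 := hn n le_rfl (Measure.dirac (xg n)) inferInstance
  have h2 := hn n le_rfl (ker true x0) inferInstance
  rw [glider_cyl] at h1
  rw [Function.iterate_fixed (invariant true), pi_cyl] at h2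
  simp only [ENNReal.toReal_zero, ENNReal.toReal_inv, ENNReal.toReal_ofNat, abs_lt] at h1 h2
  linarith [h1.1, h2.2]

end Pool.Agent.H44.PCA1
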