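import Mathlib

/-! Probabilistic cellular automata on `ℤ^d`: basic definitions. -/

open MeasureTheory ProbabilityTheory Filter Topology

namespace Pool.Agent.H44.PCA

variable {d : ℕ} {A : Type} [MeasurableSpace A]

/-- `κ` is the transition kernel of the PCA with neighbourhood `N` and local rule `f`: new symbols
are independent, the one at `k` having law `f` of the old pattern on `k + N`. -/
def IsPCA (N : Finset (Fin d → ℤ)) (f : (↥N → A) → ProbabilityMeasure A)
    (κ : Kernel ((Fin d → ℤ) → A) ((Fin d → ℤ) → A)) : Prop :=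
  ∀ x, κ x = Measure.infinitePi
    (fun k : Fin d → ℤ => ((f (fun v : ↥N => x (k + (v : Fin d → ℤ)))) : Measure A))

/-- The cylinder of configurations equal to `a` on the finite set `S`. -/
def cyl (S : Finset (Fin d → ℤ)) (a : (Fin d → ℤ) → A) : Set ((Fin d → ℤ) → A) :=
  {x | ∀ k ∈ S, x k = a k}

/-- The shift `(σ^k x)_i = x_{i+k}`. -/
def shift (k : Fin d → ℤ) (x : (Fin d → ℤ) → A) : (Fin d → ℤ) → A := fun i => x (i + k)

/-- `κ` is ergodic with invariant measure `π`: `π` is the unique invariant probability measure, and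
from every initial law the probability of every cylinder converges to its `π`-probability. -/
def IsErgodic (κ : Kernel ((Fin d → ℤ) → A) ((Fin d → ℤ) → A))
    (π : Measure ((Fin d → ℤ) → A)) : Prop :=
  IsProbabilityMeasure π ∧ π.bind κ = π ∧
  (∀ μ : Measure ((Fin d → ℤ) → A), IsProbabilityMeasure μ → μ.bind κ = μ → μ = π) ∧
  ∀ μ : Measure ((Fin d → ℤ) → A), IsProbabilityMeasure μ →
    ∀ (S : Finset (Fin d → ℤ)) (a : (Fin d → ℤ) → A),
      Tendsto (fun n : ℕ => ((fun ν : Measure ((Fin d → ℤ) → A) => ν.bind κ)^[n] μ) (cyl S a))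
        atTop (𝓝 (π (cyl S a)))

end Pool.Agent.H44.PCA
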