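import Pool.Agent.H44.PCADefs

open MeasureTheory ProbabilityTheory Filter Topology Set
open scoped ENNReal Pointwise

namespace Pool.Agent.H44.PCA

variable {d : ℕ} {A : Type} [MeasurableSpace A] [Fintype A] [DiscreteMeasurableSpace A]
  {N : Finset (Fin d → ℤ)} {f : (↥N → A) → ProbabilityMeasure A}
  {κ : Kernel ((Fin d → ℤ) → A) ((Fin d → ℤ) → A)}

/-- local functions -/
def Loc (U : Finset (Fin d → ℤ)) (g : ((Fin d → ℤ) → A) → ℝ≥0∞) : Prop :=
  ∀ x y, (∀ k ∈ U, x k = y k) → g x = g y

omit [MeasurableSpace A] [Fintype A] [DiscreteMeasurableSpace A] in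
theorem Loc.factor {U : Finset (Fin d → ℤ)} {g : ((Fin d → ℤ) → A) → ℝ≥0∞} (h : Loc U g) :
    ∃ G : (U → A) → ℝ≥0∞, g = fun x => G (U.restrict x) := by
  classical
  refine ⟨fun r => if h : ∃ x : (Fin d → ℤ) → A, U.restrict x = r then g h.choose else 0, ?_⟩
  funext x
  have hx : ∃ y : (Fin d → ℤ) → A, U.restrict y = U.restrict x := ⟨x, rfl⟩
  simp only [hx, dif_pos]
  exact h _ _ fun k hk => (congrFun hx.choose_spec ⟨k, hk⟩).symm

theorem Loc.measurable {U : Finset (Fin d → ℤ)} {g : ((Fin d → ℤ) → A) → ℝ≥0∞} (h : Loc U g) :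
    Measurable g := by
  obtain ⟨G, rfl⟩ := h.factor
  exact (measurable_of_finite G).comp U.measurable_restrict

omit [Fintype A] [DiscreteMeasurableSpace A] in
theorem IsPCA.markov (h : IsPCA N f κ) : IsMarkovKernel κ :=
  ⟨fun x => by rw [h x]; infer_instance⟩

/-- the Markov operator on functions -/
noncomputable def P (κ : Kernel ((Fin d → ℤ) → A) ((Fin d → ℤ) → A))
    (g : ((Fin d → ℤ) → A) → ℝ≥0∞) : ((Fin d → ℤ) → A) → ℝ≥0∞ := fun x => ∫⁻ y, g y ∂κ x

theorem Loc.P (h : IsPCA N f κ) {U : Finset (Fin d → ℤ)} {g : ((Fin d → ℤ) → A) → ℝ≥0∞}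
    (hg : Loc U g) : Loc (U + N) (P κ g) := by
  obtain ⟨G, rfl⟩ := hg.factor
  intro x y hxy
  unfold PCA.P
  rw [h x, h y, lintegral_restrict_infinitePi _ (measurable_of_finite G),
    lintegral_restrict_infinitePi _ (measurable_of_finite G)]
  congr 2
  funext k
  congr 2
  funext v
  exact hxy _ (Finset.add_mem_add k.2 v.2)

theorem P_mul (h : IsPCA N f κ) {U V : Finset (Fin d → ℤ)} {g g' : ((Fin d → ℤ) → A) → ℝ≥0∞}
    (hg : Loc U g) (hg' : Loc V g') (hUV : Disjoint U V) :
    P κ (g * g') = P κ g * P κ g' := by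
  funext x
  obtain ⟨G, rfl⟩ := hg.factor
  obtain ⟨G', rfl⟩ := hg'.factor
  simp only [PCA.P, Pi.mul_apply, h x]
  have hi := (iIndepFun_infinitePi
    (P := fun k : Fin d → ℤ => ((f (fun v : ↥N => x (k + (v : Fin d → ℤ)))) : Measure A))
    (X := fun _ a => a) fun _ => measurable_id).indepFun_finset U V hUV
      fun k => measurable_pi_apply k
  exact lintegral_mul_eq_lintegral_mul_lintegral_of_indepFun hg.measurable hg'.measurable
    (hi.comp (measurable_of_finite G) (measurable_of_finite G'))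

/-- dependence cone -/
def cone (N U : Finset (Fin d → ℤ)) : ℕ → Finset (Fin d → ℤ)
  | 0 => U
  | n + 1 => cone N U n + N

theorem Loc.iter (h : IsPCA N f κ) {U : Finset (Fin d → ℤ)} {g : ((Fin d → ℤ) → A) → ℝ≥0∞}
    (hg : Loc U g) (n : ℕ) : Loc (cone N U n) ((PCA.P κ)^[n] g) := by
  induction n with
  | zero => exact hg
  | succ n ih =>
    rw [Function.iterate_succ_apply']
    exact ih.P h

theorem iter_mul (h : IsPCA N f κ) {U V : Finset (Fin d → ℤ)} {g g' : ((Fin d → ℤ) → A) → ℝ≥0∞}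
    (hg : Loc U g) (hg' : Loc V g') (n : ℕ) (hUV : ∀ j < n, Disjoint (cone N U j) (cone N V j)) :
    (P κ)^[n] (g * g') = (P κ)^[n] g * (P κ)^[n] g' := by
  induction n with
  | zero => rfl
  | succ n ih =>
    simp only [Function.iterate_succ_apply']
    rw [ih fun j hj => hUV j (by omega), P_mul h (hg.iter h n) (hg'.iter h n) (hUV n (by omega))]

theorem lintegral_iter (h : IsPCA N f κ) {U : Finset (Fin d → ℤ)}
    {g : ((Fin d → ℤ) → A) → ℝ≥0∞} (hg : Loc U g) (n : ℕ) (μ : Measure ((Fin d → ℤ) → A)) :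
    ∫⁻ x, g x ∂((fun ν : Measure ((Fin d → ℤ) → A) => ν.bind κ)^[n] μ) =
      ∫⁻ x, (P κ)^[n] g x ∂μ := by
  induction n generalizing μ with
  | zero => rfl
  | succ n ih =>
    rw [Function.iterate_succ_apply, ih, Function.iterate_succ_apply',
      Measure.lintegral_bind κ.aemeasurable (hg.iter h n).measurable.aemeasurable]
    rfl

omit [Fintype A] [DiscreteMeasurableSpace A] in
theorem measurable_shift (k : Fin d → ℤ) :
    Measurable (shift k : ((Fin d → ℤ) → A) → (Fin d → ℤ) → A) :=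
  measurable_pi_lambda _ fun _ => measurable_pi_apply _

omit [Fintype A] [DiscreteMeasurableSpace A] in
theorem ker_shift (h : IsPCA N f κ) (k : Fin d → ℤ) (x : (Fin d → ℤ) → A) :
    κ (shift k x) = (κ x).map (shift k) := by
  rw [h, h]
  have := Measure.map_infinitePi_infinitePi_of_inj
    (P := fun i : Fin d → ℤ => ((f (fun v : ↥N => x (i + (v : Fin d → ℤ)))) : Measure A))
    (f := fun i => i + k) (add_left_injective k)
  refine Eq.trans ?_ this.symm
  congr 1
  funext i
  congr 2
  funext v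
  simp only [shift]
  congr 1
  abel

omit [Fintype A] [DiscreteMeasurableSpace A] in
theorem shift_invariant (h : IsPCA N f κ) {π : Measure ((Fin d → ℤ) → A)} (he : IsErgodic κ π)
    (k : Fin d → ℤ) : π.map (shift k) = π := by
  have := he.1
  refine he.2.2.1 _ (Measure.isProbabilityMeasure_map (measurable_shift k).aemeasurable) ?_
  ext B hB
  rw [Measure.bind_apply hB κ.aemeasurable,
    lintegral_map (κ.measurable_coe hB) (measurable_shift k),
    Measure.map_apply (measurable_shift k) hB]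
  conv_rhs => rw [← he.2.1, Measure.bind_apply (measurable_shift k hB) κ.aemeasurable]
  simp only [ker_shift h, Measure.map_apply (measurable_shift k) hB]

omit [MeasurableSpace A] [Fintype A] [DiscreteMeasurableSpace A] in
theorem loc_cyl (S : Finset (Fin d → ℤ)) (a : (Fin d → ℤ) → A) :
    Loc S ((cyl S a).indicator 1) := by
  intro x y hxy
  have : x ∈ cyl S a ↔ y ∈ cyl S a := forall₂_congr fun k hk => by rw [hxy k hk]
  by_cases hx : x ∈ cyl S a
  · simp [hx, this.1 hx]
  · simp [hx, mt this.2 hx]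

omit [MeasurableSpace A] [Fintype A] [DiscreteMeasurableSpace A] in
theorem loc_shift_cyl (k : Fin d → ℤ) (S : Finset (Fin d → ℤ)) (a : (Fin d → ℤ) → A) :
    Loc (S + {k}) ((shift k ⁻¹' cyl S a).indicator 1) := by
  intro x y hxy
  have := loc_cyl S a (shift k x) (shift k y) fun i hi =>
    hxy _ (Finset.add_mem_add hi (Finset.mem_singleton_self k))
  exact this

theorem measurableSet_cyl (S : Finset (Fin d → ℤ)) (a : (Fin d → ℤ) → A) :
    MeasurableSet (cyl S a) :=
  (Measurable.forall fun k => measurable_const.imp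
    ((measurable_of_finite fun b : A => b = a k).comp (measurable_pi_apply k))).setOf

theorem cone_add (N S : Finset (Fin d → ℤ)) (k : Fin d → ℤ) (n : ℕ) :
    cone N (S + {k}) n = cone N S n + {k} := by
  induction n with
  | zero => rfl
  | succ n ih => simp only [cone, ih, add_right_comm]

omit [Fintype A] [DiscreteMeasurableSpace A] in
theorem iter_le_one (h : IsPCA N f κ) {g : ((Fin d → ℤ) → A) → ℝ≥0∞} (hg : ∀ x, g x ≤ 1) (n : ℕ)
    (x : (Fin d → ℤ) → A) : (P κ)^[n] g x ≤ 1 := by
  have := h.markov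
  induction n generalizing x with
  | zero => exact hg x
  | succ n ih =>
    rw [Function.iterate_succ_apply']
    exact (lintegral_mono ih).trans (by simp)

theorem mixing (h : IsPCA N f κ) {π : Measure ((Fin d → ℤ) → A)} (he : IsErgodic κ π)
    (S S' : Finset (Fin d → ℤ)) (a a' : (Fin d → ℤ) → A) {ε : ℝ} (hε : 0 < ε) :
    ∃ R : ℝ, ∀ k : Fin d → ℤ, R ≤ ‖k‖ →
      |(π (cyl S a ∩ shift k ⁻¹' cyl S' a')).toReal -
        (π (cyl S a)).toReal * (π (cyl S' a')).toReal| < ε := by
  have hP := he.1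
  set c := π (cyl S a) with hc
  have hc' : c ≠ ∞ := measure_ne_top _ _
  set F : ℕ → ((Fin d → ℤ) → A) → ℝ≥0∞ := fun n => (P κ)^[n] ((cyl S a).indicator 1) with hF
  have hFm : ∀ n, Measurable (F n) := fun n => ((loc_cyl S a).iter h n).measurable
  have ind1 : ∀ (B : Set ((Fin d → ℤ) → A)) x,
      B.indicator (1 : ((Fin d → ℤ) → A) → ℝ≥0∞) x ≤ 1 := fun B x =>
    indicator_le_self' (fun _ _ => zero_le) x
  have hF1 : ∀ n x, F n x ≤ 1 := fun n => iter_le_one h (ind1 _) n
  have hlim : ∀ x, Tendsto (fun n => F n x) atTop (𝓝 c) := by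
    intro x
    refine (he.2.2.2 (Measure.dirac x) inferInstance S a).congr fun n => ?_
    rw [← lintegral_indicator_one (measurableSet_cyl S a), lintegral_iter h (loc_cyl S a),
      lintegral_dirac' _ (hFm n)]
  have t1 : Tendsto (fun n => ∫⁻ x, (F n x - c) ∂π) atTop (𝓝 0) := by
    have := tendsto_lintegral_of_dominated_convergence (μ := π) (F := fun n x => F n x - c)
      (f := fun _ => 0) (fun _ => 1) (fun n => (hFm n).sub_const c)
      (fun n => ae_of_all _ fun x => tsub_le_self.trans (hF1 n x)) (by simp)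
      (ae_of_all _ fun x => by
        simpa using ENNReal.Tendsto.sub (hlim x) (tendsto_const_nhds (x := c)) (Or.inl hc'))
    simpa using this
  have t2 : Tendsto (fun n => ∫⁻ x, (c - F n x) ∂π) atTop (𝓝 0) := by
    have := tendsto_lintegral_of_dominated_convergence (μ := π) (F := fun n x => c - F n x)
      (f := fun _ => 0) (fun _ => c) (fun n => (hFm n).const_sub c)
      (fun n => ae_of_all _ fun x => tsub_le_self) (by simpa using hc')
      (ae_of_all _ fun x => by
        simpa using ENNReal.Tendsto.sub tendsto_const_nhds (hlim x) (Or.inl hc'))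
    simpa using this
  have hε' : (0 : ℝ≥0∞) < ENNReal.ofReal ε := ENNReal.ofReal_pos.2 hε
  obtain ⟨n, hn1, hn2⟩ :=
    ((t1.eventually (gt_mem_nhds hε')).and (t2.eventually (gt_mem_nhds hε'))).exists
  obtain ⟨R, hR⟩ := (((Finset.range n).biUnion fun j => cone N S j - cone N S' j).image
    fun k => ‖k‖).bddAbove
  refine ⟨R + 1, fun k hk => ?_⟩
  have hdis : ∀ j < n, Disjoint (cone N S j) (cone N (S' + {k}) j) := by
    intro j hj
    rw [cone_add, Finset.disjoint_left]
    intro u hu hu'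
    obtain ⟨v, hv, w, hw, rfl⟩ := Finset.mem_add.1 hu'
    rw [Finset.mem_singleton.1 hw] at hu
    have : ‖k‖ ≤ R := hR (Finset.mem_coe.2 (Finset.mem_image.2 ⟨k, Finset.mem_biUnion.2
      ⟨j, Finset.mem_range.2 hj, Finset.mem_sub.2 ⟨_, hu, v, hv, by abel⟩⟩, rfl⟩))
    linarith
  set G : ((Fin d → ℤ) → A) → ℝ≥0∞ := (P κ)^[n] ((shift k ⁻¹' cyl S' a').indicator 1) with hG
  have hGm : Measurable G := ((loc_shift_cyl k S' a').iter h n).measurable
  have hG1 : ∀ x, G x ≤ 1 := iter_le_one h (ind1 _) n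
  have hfix : (fun ν : Measure ((Fin d → ℤ) → A) => ν.bind κ)^[n] π = π :=
    Function.iterate_fixed he.2.1 n
  have hD := measurable_shift k (measurableSet_cyl S' a')
  have e1 : ∫⁻ x, G x ∂π = π (cyl S' a') := by
    rw [hG, ← lintegral_iter h (loc_shift_cyl k S' a'), hfix, lintegral_indicator_one hD,
      ← Measure.map_apply (measurable_shift k) (measurableSet_cyl S' a'), shift_invariant h he]
  have e2 : π (cyl S a ∩ shift k ⁻¹' cyl S' a') = ∫⁻ x, F n x * G x ∂π := by
    have hl : Loc (S ∪ (S' + {k})) ((cyl S a).indicator 1 *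
        (shift k ⁻¹' cyl S' a').indicator (1 : ((Fin d → ℤ) → A) → ℝ≥0∞)) := by
      intro x y hxy
      simp only [Pi.mul_apply]
      rw [loc_cyl S a x y fun i hi => hxy i (Finset.mem_union_left _ hi),
        loc_shift_cyl k S' a' x y fun i hi => hxy i (Finset.mem_union_right _ hi)]
    rw [← lintegral_indicator_one ((measurableSet_cyl S a).inter hD), inter_indicator_one]
    conv_lhs => rw [← hfix]
    rw [lintegral_iter h hl, iter_mul h (loc_cyl S a) (loc_shift_cyl k S' a') n hdis]
    rfl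
  have i1 : π (cyl S a ∩ shift k ⁻¹' cyl S' a') ≤ c * π (cyl S' a') + ∫⁻ x, (F n x - c) ∂π := by
    rw [e2, ← e1, ← lintegral_const_mul _ hGm, ← lintegral_add_left (hGm.const_mul c)]
    refine lintegral_mono fun x => ?_
    calc F n x * G x ≤ (c + (F n x - c)) * G x := by gcongr; exact le_add_tsub
      _ ≤ c * G x + (F n x - c) * 1 := by rw [add_mul]; gcongr; exact hG1 x
      _ = _ := by rw [mul_one]
  have i2 : c * π (cyl S' a') ≤ π (cyl S a ∩ shift k ⁻¹' cyl S' a') + ∫⁻ x, (c - F n x) ∂π := by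
    rw [e2, ← e1, ← lintegral_const_mul _ hGm, ← lintegral_add_right _ ((hFm n).const_sub c)]
    refine lintegral_mono fun x => ?_
    calc c * G x ≤ (F n x + (c - F n x)) * G x := by gcongr; exact le_add_tsub
      _ ≤ F n x * G x + (c - F n x) * 1 := by rw [add_mul]; gcongr; exact hG1 x
      _ = _ := by rw [mul_one]
  have f1 := ne_top_of_lt hn1
  have f2 := ne_top_of_lt hn2
  have j1 := ENNReal.toReal_mono (by finiteness) i1
  have j2 := ENNReal.toReal_mono (by finiteness) i2
  rw [ENNReal.toReal_add (by finiteness) (by finiteness), ENNReal.toReal_mul] at j1 j2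
  have k1 := ENNReal.toReal_lt_of_lt_ofReal hn1
  have k2 := ENNReal.toReal_lt_of_lt_ofReal hn2
  rw [abs_lt]
  constructor <;> linarith

end Pool.Agent.H44.PCA
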