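import Pool.Agent.H44.OSDefs

namespace Pool.Agent.H44.PT

variable {n : ℕ}

/-- Two faces are adjacent when they share an edge. -/
def Dual (T : Finset (Finset (Fin n))) : SimpleGraph (Finset (Fin n)) :=
  SimpleGraph.fromRel fun f g => f ∈ T ∧ g ∈ T ∧ (f ∩ g).card = 2

/-- `T` is the set of faces of a triangulation of the sphere with graph `G`: faces are triangles
of `G`, every edge lies in exactly two faces, the dual graph is connected, and there are `3n - 6`
edges and `2n - 4` faces. -/
structure Tri (G : SimpleGraph (Fin n)) (T : Finset (Finset (Fin n))) : Prop where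
  face : ∀ f ∈ T, G.IsNClique 3 f
  two : ∀ u v, G.Adj u v → (T.filter fun f => u ∈ f ∧ v ∈ f).card = 2
  conn : ∀ f ∈ T, ∀ g ∈ T, (Dual T).Reachable f g
  edges : G.edgeSet.ncard + 6 = 3 * n
  faces : T.card + 4 = 2 * n

end Pool.Agent.H44.PT
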