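import Pool.Agent.H44.KD4
import Pool.Agent.H44.PTDefs

open Finset SimpleGraph

namespace Pool.Agent.H44.PT

open Pool.Agent.H44.OS Pool.Agent.H44.KD Classical

variable {n : ℕ}

lemma euler {G : SimpleGraph (Fin n)} {T : Finset (Finset (Fin n))} (h : Tri G T)
    {f0 : Finset (Fin n)} (h0 : f0 ∈ T) (y : Fin n → Bool) :
    n + ((T.erase f0).filter fun f => ∀ v ∈ f, y v = false).card ≤ NC (Ky G y) +
      (univ.filter fun x : Fin n × Fin n => x.1 < x.2 ∧ (Ky G y).Adj x.1 x.2).card := by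
  have hp : ∀ f, ∃ g, f ∈ T.erase f0 → g ∈ T ∧ (f ∩ g).card = 2 ∧
      (Dual T).dist g f0 < (Dual T).dist f f0 := by
    intro f
    by_cases hf : f ∈ T.erase f0
    swap
    · exact ⟨f, fun l => (hf l).elim⟩
    obtain ⟨q, hq⟩ := (h.conn f (mem_of_mem_erase hf) f0 h0).exists_walk_length_eq_dist
    cases q with
    | nil => exact ((mem_erase.1 hf).1 rfl).elim
    | @cons _ g _ a q =>
      have := dist_le q
      rw [Walk.length_cons] at hq
      refine ⟨g, fun _ => ⟨?_, ?_, by omega⟩⟩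
      · exact a.2.elim (fun l => l.2.1) fun l => l.1
      · exact a.2.elim (fun l => l.2.2) fun l => inter_comm f _ ▸ l.2.2
  choose p hp using hp
  set d := fun f => (Dual T).dist f f0
  set Act := (T.erase f0).filter fun f => ∀ v ∈ f, y v = false with hAct
  have two : ∀ g ∈ T.erase f0, ∀ f ∈ T, f ≠ g → g ∩ p g ⊆ f → f = p g := by
    intro g hg f hf fg s
    obtain ⟨a, b, c⟩ := hp g hg
    obtain ⟨u, v, uv, e⟩ := card_eq_two.1 b
    have g3 := h.face g (mem_of_mem_erase hg)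
    have hu : u ∈ g ∩ p g := by simp [e]
    have hv : v ∈ g ∩ p g := by simp [e]
    have t := h.two u v (g3.1 (mem_inter.1 hu).1 (mem_inter.1 hv).1 uv)
    have gp : g ≠ p g := fun l => by
      rw [← l, inter_self, g3.2] at b
      omega
    by_contra l
    have := card_le_card (s := {f, g, p g}) (t := T.filter fun f => u ∈ f ∧ v ∈ f) (by
      simp only [insert_subset_iff, singleton_subset_iff, mem_filter]
      exact ⟨⟨hf, s hu, s hv⟩, ⟨mem_of_mem_erase hg, (mem_inter.1 hu).1, (mem_inter.1 hv).1⟩,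
        a, (mem_inter.1 hu).2, (mem_inter.1 hv).2⟩)
    rw [card_eq_three.2 ⟨f, g, p g, fg, l, gp, rfl⟩] at this
    omega
  let K : SimpleGraph (Fin n) :=
    { Adj := fun u v => (Ky G y).Adj u v ∧ ∀ f ∈ Act, f ∩ p f ≠ {u, v}
      symm := ⟨fun u v l => ⟨l.1.symm, fun f hf e => l.2 f hf (e.trans (pair_comm v u))⟩⟩
      loopless := ⟨fun _ l => l.1.ne rfl⟩ }
  have cl : ∀ m, ∀ f ∈ Act, T.sup d - d f = m → ∀ u ∈ f, ∀ v ∈ f, K.Reachable u v := by
    intro m
    induction m using Nat.strong_induction_on with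
    | _ m ih =>
    intro f hf hm
    obtain ⟨hf1, hf2⟩ := mem_filter.1 hf
    have f3 := h.face f (mem_of_mem_erase hf1)
    have a : ∀ u ∈ f, ∀ v ∈ f, f ∩ p f ≠ {u, v} → K.Reachable u v := by
      intro u hu v hv l
      by_cases uv : u = v
      · rw [uv]
      by_cases c : ∀ g ∈ Act, g ∩ p g ≠ {u, v}
      · exact Adj.reachable ⟨⟨f3.1 hu hv uv, hf2 u hu, hf2 v hv⟩, c⟩
      push Not at c
      obtain ⟨g, hg, e⟩ := c
      have g1 := (mem_filter.1 hg).1
      have b := two g g1 f (mem_of_mem_erase hf1) (fun o => l (o ▸ e))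
        (by rw [e]; simp [insert_subset_iff, hu, hv])
      have c : d f < d g := b ▸ (hp g g1).2.2
      have c2 : d g ≤ T.sup d := le_sup (mem_of_mem_erase g1)
      have s : {u, v} ⊆ g := e ▸ inter_subset_left
      exact ih _ (by omega) g hg rfl u (s (by simp)) v (s (by simp))
    intro u hu v hv
    obtain ⟨w, hw, nw⟩ := exists_mem_notMem_of_card_lt_card (s := f ∩ p f) (t := f)
      (by rw [(hp f hf1).2.1, f3.2]; omega)
    exact (a u hu w hw fun l => nw (by simp [l])).trans (a w hw v hv fun l => nw (by simp [l]))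
  have r1 : ∀ u v, (Ky G y).Reachable u v → K.Reachable u v := by
    rintro u v ⟨q⟩
    induction q with
    | nil => rfl
    | @cons u x _ a _ ih =>
      refine .trans ?_ ih
      by_cases c : ∀ g ∈ Act, g ∩ p g ≠ {u, x}
      · exact Adj.reachable ⟨a, c⟩
      push Not at c
      obtain ⟨g, hg, e⟩ := c
      have s : {u, x} ⊆ g := e ▸ inter_subset_left
      exact cl _ g hg rfl u (s (by simp)) x (s (by simp))
  have r2 : NC K ≤ NC (Ky G y) := Nat.card_le_card_of_surjective
    (Quot.lift K.connectedComponentMk fun u v l => ConnectedComponent.sound (r1 u v l) :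
      (Ky G y).ConnectedComponent → K.ConnectedComponent) fun c => by
    induction c using ConnectedComponent.ind with
    | _ v => exact ⟨(Ky G y).connectedComponentMk v, rfl⟩
  set F := univ.filter fun x : Fin n × Fin n => x.1 < x.2 ∧ (Ky G y).Adj x.1 x.2
  have r3 := NC_le (F.filter fun x => ∀ f ∈ Act, f ∩ p f ≠ {x.1, x.2}) ⊥ K fun u v l => by
    rcases lt_trichotomy u v with c | rfl | c
    · exact Or.inr (Or.inl (mem_filter.2 ⟨mem_filter.2 ⟨mem_univ _, c, l.1⟩, l.2⟩))
    · exact (l.ne rfl).elim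
    · exact Or.inr (Or.inr (mem_filter.2 ⟨mem_filter.2 ⟨mem_univ _, c, l.1.symm⟩, l.symm.2⟩))
  have r4 := card_filter_add_card_filter_not (s := F) fun x => ∀ f ∈ Act, f ∩ p f ≠ {x.1, x.2}
  have r5 : Act.card ≤ (F.filter fun x => ¬ ∀ f ∈ Act, f ∩ p f ≠ {x.1, x.2}).card := by
    rw [← card_image_of_injOn (f := fun f => f ∩ p f) fun f hf g hg e => by
      have f1 := (mem_filter.1 hf).1
      have g1 := (mem_filter.1 hg).1
      by_contra l
      replace e : f ∩ p f = g ∩ p g := e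
      have a := two g g1 f (mem_of_mem_erase f1) l (e ▸ inter_subset_left)
      have b := two f f1 g (mem_of_mem_erase g1) (Ne.symm l) (e.symm ▸ inter_subset_left)
      have c := (hp f f1).2.2
      have c' := (hp g g1).2.2
      rw [← a] at c'
      rw [← b] at c
      omega]
    refine (card_le_card (t := (F.filter fun x => ¬ ∀ f ∈ Act, f ∩ p f ≠ {x.1, x.2}).image
      fun x => {x.1, x.2}) fun e he => ?_).trans card_image_le
    obtain ⟨f, hf, rfl⟩ := mem_image.1 he
    obtain ⟨hf1, hf2⟩ := mem_filter.1 hf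
    have key : ∀ u v, u < v → f ∩ p f = {u, v} → f ∩ p f ∈ (F.filter fun x =>
        ¬ ∀ f ∈ Act, f ∩ p f ≠ {x.1, x.2}).image fun x => ({x.1, x.2} : Finset (Fin n)) := by
      intro u v uv e
      have s : {u, v} ⊆ f := e ▸ inter_subset_left
      have hu := s (mem_insert_self _ _)
      have hv := s (mem_insert_of_mem (mem_singleton_self _))
      exact mem_image.2 ⟨(u, v), mem_filter.2 ⟨mem_filter.2 ⟨mem_univ _, uv,
        (h.face f (mem_of_mem_erase hf1)).1 hu hv uv.ne, hf2 u hu, hf2 v hv⟩,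
        fun l => l f hf e⟩, e.symm⟩
    obtain ⟨u, v, uv, e⟩ := card_eq_two.1 (hp f hf1).2.1
    rcases lt_or_gt_of_ne uv with c | c
    · exact key u v c e
    · exact key v u c (e.trans (pair_comm _ _))
  rw [NC_bot] at r3
  omega

lemma Ex_all (ρ : ℝ) (M : Finset (Fin n)) :
    Ex ρ (fun y => if ∀ v ∈ M, y v = false then (1 : ℝ) else 0) = (1 - ρ) ^ M.card := by
  have := Ex_prodM ρ M (fun b => if b = false then 1 else 0)
  refine Eq.trans (congrArg _ (funext fun y => ?_)) (this.trans (by simp))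
  rw [prod_boole]
  split_ifs <;> rfl

theorem lower {G : SimpleGraph (Fin n)} {T : Finset (Finset (Fin n))} (h : Tri G T) (hn : 3 ≤ n) :
    ∃ A, IsStop A ∧ √3 / 18 * n - 1 ≤ score G A := by
  obtain ⟨f0, h0⟩ : T.Nonempty := card_pos.1 (by have := h.faces; omega)
  have s3 : √3 ^ 2 = 3 := Real.sq_sqrt (by norm_num)
  have s0 := Real.sqrt_nonneg 3
  set ρ : ℝ := (3 + √3) / 6 with hρ
  have r0 : 0 ≤ ρ := by positivity
  have r1 : ρ ≤ 1 := by rw [hρ]; nlinarith
  set E := univ.filter fun x : Fin n × Fin n => x.1 < x.2 ∧ G.Adj x.1 x.2 with hE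
  have cE : E.card ≤ G.edgeSet.ncard := by
    rw [← Set.ncard_coe_finset]
    refine Set.ncard_le_ncard_of_injOn (fun x => s(x.1, x.2)) (fun x hx => (mem_filter.1 hx).2.2)
      fun x hx z hz e => ?_
    rcases Sym2.eq_iff.1 e with l | l
    · exact Prod.ext l.1 l.2
    · exact (lt_asymm (mem_filter.1 hx).2.1 (l.1 ▸ l.2 ▸ (mem_filter.1 hz).2.1)).elim
  have pt : ∀ y, (nf y : ℝ) + ∑ f ∈ T.erase f0, (if ∀ v ∈ f, y v = false then (1 : ℝ) else 0) -
      ∑ x ∈ E, (if ∀ v ∈ ({x.1, x.2} : Finset (Fin n)), y v = false then (1 : ℝ) else 0) ≤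
      cc G y := by
    intro y
    have a := euler h h0 y
    have b : (univ.filter fun x : Fin n × Fin n => x.1 < x.2 ∧ (Ky G y).Adj x.1 x.2) =
        E.filter fun x => ∀ v ∈ ({x.1, x.2} : Finset (Fin n)), y v = false := by
      ext x
      simp [hE, Ky, and_assoc]
    rw [b] at a
    have c := (Nat.cast_le (α := ℝ)).2 a
    push_cast at c
    rw [sum_boole, sum_boole, cc]
    linarith
  have m := Ex_mono r0 r1 pt
  rw [Ex_sub, Ex_add, Ex_nf, Ex_sum, Ex_sum] at m
  simp only [Ex_all] at m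
  rw [sum_congr rfl (g := fun _ => (1 - ρ) ^ 3) fun f hf => by
      rw [(h.face f (mem_of_mem_erase hf)).2],
    sum_congr rfl (s₁ := E) (g := fun _ => (1 - ρ) ^ 2) fun x hx => by
      rw [card_pair (mem_filter.1 hx).2.1.ne],
    sum_const, sum_const, nsmul_eq_mul, nsmul_eq_mul] at m
  have c1 : ((T.erase f0).card : ℝ) = 2 * n - 5 := by
    have a := card_erase_add_one h0
    have b := h.faces
    have c : (T.erase f0).card + 5 = 2 * n := by omega
    have := congrArg (Nat.cast : ℕ → ℝ) c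
    push_cast at this
    linarith
  have c2 : (E.card : ℝ) ≤ 3 * n := by
    have := h.edges
    exact_mod_cast (show E.card ≤ 3 * n by omega)
  have c3 : 1 - ρ - 3 * (1 - ρ) ^ 2 + 2 * (1 - ρ) ^ 3 = √3 / 18 := by
    rw [hρ]
    linear_combination (-√3 / 108) * s3
  have c4 : 5 * (1 - ρ) ^ 3 ≤ 1 := by
    have : 1 - ρ ≤ 1 / 2 := by rw [hρ]; linarith
    nlinarith [pow_le_pow_left₀ (sub_nonneg.2 r1) this 3]
  have m2 : √3 / 18 * n - 1 ≤ Ex ρ (cc G) := by
    rw [← c3]
    rw [c1] at m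
    nlinarith [mul_le_mul_of_nonneg_right c2 (sq_nonneg (1 - ρ))]
  obtain ⟨y0, -, hy⟩ := exists_max_image univ (fun y : Fin n → Bool =>
    ∑ σ : Equiv.Perm (Fin n), cc G (ina σ (nf y))) univ_nonempty
  have m3 : n.factorial * Ex ρ (cc G) ≤ ∑ σ : Equiv.Perm (Fin n), cc G (ina σ (nf y0)) := by
    rw [← avg_ina, ← Ex_sum]
    exact (Ex_mono r0 r1 fun y => hy y (mem_univ _)).trans (Ex_const _ _).le
  have F0 : (0 : ℝ) < n.factorial := by positivity
  have m4 : √3 / 18 * n - 1 ≤ score G fun _ => nf y0 := by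
    rw [score_eq, le_div_iff₀ F0]
    nlinarith
  rcases Nat.eq_zero_or_pos (nf y0) with z | z
  · refine ⟨fun _ => 1, ⟨fun _ => ⟨le_rfl, le_trans (by norm_num) hn⟩, fun _ _ _ => rfl⟩, m4.trans ?_⟩
    refine le_trans ?_ (show 0 ≤ score G fun _ => 1 by unfold score; positivity)
    rw [score_eq, z]
    refine div_nonpos_of_nonpos_of_nonneg (sum_nonpos fun σ _ => ?_) F0.le
    have : (NC (Ky G (ina σ 0)) : ℝ) ≤ n := by exact_mod_cast NC_le_n _
    rw [cc, nf_ina σ (Nat.zero_le _)]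
    push_cast
    linarith
  · exact ⟨_, ⟨fun _ => ⟨z, nf_le _⟩, fun _ _ _ => rfl⟩, m4⟩

end Pool.Agent.H44.PT
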