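import Pool.Agent.H44.PakDefs

open Finset Matrix

namespace Pool.Agent.H44.Pak

variable {G : Type} [Fintype G] [DecidableEq G] [AddCommGroup G]

noncomputable def unif (S : Finset G) : Matrix G G ℝ :=
  fun x y => if y - x ∈ S then 1 / (S.card : ℝ) else 0

noncomputable def walk (a : ℝ) (S : Finset G) : Matrix G G ℝ := a • 1 + (1 - a) • unif S

noncomputable def JJ (G : Type) [Fintype G] : Matrix G G ℝ := fun _ _ => 1 / (Fintype.card G : ℝ)

omit [Fintype G] in
lemma unif_eq_circ (S : Finset G) :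
    unif S = circulant (fun g => if -g ∈ S then 1 / (S.card : ℝ) else 0) := by
  ext x y; simp [unif, neg_sub]

lemma unif_comm (S T : Finset G) : unif S * unif T = unif T * unif S := by
  rw [unif_eq_circ, unif_eq_circ, circulant_mul_comm]

omit [Fintype G] in
lemma unif_nonneg (S : Finset G) (x y : G) : 0 ≤ unif S x y := by
  unfold unif; split_ifs <;> positivity

lemma sum_unif_mul (S : Finset G) (x : G) (f : G → ℝ) :
    ∑ y, unif S x y * f y = (∑ s ∈ S, f (x + s)) / S.card := by
  rw [← Equiv.sum_comp (Equiv.addLeft x)]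
  simp only [unif, Equiv.coe_addLeft, add_sub_cancel_left, ite_mul, zero_mul]
  rw [Finset.sum_ite_mem, univ_inter, ← Finset.mul_sum]; ring

lemma unif_row {S : Finset G} (hS : S.Nonempty) (x : G) : ∑ y, unif S x y = 1 := by
  have := sum_unif_mul S x (fun _ => 1)
  have h : (S.card : ℝ) ≠ 0 := by exact_mod_cast hS.card_pos.ne'
  simp only [mul_one, sum_const, nsmul_eq_mul] at this
  rw [this]; field_simp

lemma unif_col {S : Finset G} (hS : S.Nonempty) (y : G) : ∑ x, unif S x y = 1 := by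
  rw [← Equiv.sum_comp (Equiv.subLeft y)]
  have h : (S.card : ℝ) ≠ 0 := by exact_mod_cast hS.card_pos.ne'
  simp only [unif, Equiv.subLeft_apply, sub_sub_cancel]
  rw [Finset.sum_ite_mem, univ_inter]; simp only [sum_const, nsmul_eq_mul]; field_simp

omit [Fintype G] in
lemma walk_apply (a : ℝ) (S : Finset G) (x y : G) :
    walk a S x y = a * (if x = y then 1 else 0) + (1 - a) * unif S x y := by
  simp [walk, Matrix.one_apply]

omit [Fintype G] in
lemma walk_nonneg {a : ℝ} (h0 : 0 ≤ a) (h1 : a ≤ 1) (S : Finset G) (x y : G) :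
    0 ≤ walk a S x y := by
  rw [walk_apply]
  have := unif_nonneg S x y
  have : 0 ≤ 1 - a := by linarith
  split_ifs <;> positivity

lemma walk_row (a : ℝ) {S : Finset G} (hS : S.Nonempty) (x : G) : ∑ y, walk a S x y = 1 := by
  simp only [walk_apply, sum_add_distrib, ← mul_sum, unif_row hS]; simp

lemma walk_col (a : ℝ) {S : Finset G} (hS : S.Nonempty) (y : G) : ∑ x, walk a S x y = 1 := by
  simp only [walk_apply, sum_add_distrib, ← mul_sum, unif_col hS]; simp

section gen
variable {V : Type} [Fintype V] [DecidableEq V]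

lemma pow_nonneg' {P : Matrix V V ℝ} (h : ∀ x y, 0 ≤ P x y) (t : ℕ) (x y : V) :
    0 ≤ (P ^ t) x y := by
  induction t generalizing x y with
  | zero => simp [Matrix.one_apply]; split_ifs <;> simp
  | succ t ih => rw [pow_succ, mul_apply]; exact sum_nonneg fun z _ => mul_nonneg (ih _ _) (h _ _)

lemma pow_row {P : Matrix V V ℝ} (h : ∀ x, ∑ y, P x y = 1) (t : ℕ) (x : V) :
    ∑ y, (P ^ t) x y = 1 := by
  induction t generalizing x with
  | zero => simp [Matrix.one_apply]
  | succ t ih =>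
    simp only [pow_succ, mul_apply]
    rw [sum_comm]; simp only [← mul_sum, h, mul_one, ih]

lemma pow_col {P : Matrix V V ℝ} (h : ∀ y, ∑ x, P x y = 1) (t : ℕ) (y : V) :
    ∑ x, (P ^ t) x y = 1 := by
  induction t generalizing y with
  | zero => simp [Matrix.one_apply]
  | succ t ih =>
    simp only [pow_succ', mul_apply]
    rw [sum_comm]; simp only [← sum_mul, h, one_mul, ih]

omit [DecidableEq V] in
lemma mul_lower {B X : Matrix V V ℝ} {b c : ℝ} (hB : ∀ x y, 0 ≤ B x y) (hr : ∀ x, ∑ y, B x y = b)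
    (hX : ∀ x y, c ≤ X x y) (x y : V) : b * c ≤ (B * X) x y := by
  rw [mul_apply, ← hr x, sum_mul]
  exact sum_le_sum fun z _ => mul_le_mul_of_nonneg_left (hX _ _) (hB _ _)

omit [DecidableEq V] in
/-- total variation from an entrywise lower bound -/
lemma tv_le_of_lower [Nonempty V] {p : V → ℝ} {η : ℝ} (hp : ∑ y, p y = 1) (hη : 0 ≤ η)
    (h : ∀ y, (1 - η) / Fintype.card V ≤ p y) :
    (1 / 2) * ∑ y, |p y - 1 / (Fintype.card V : ℝ)| ≤ η := by
  have hN : (0 : ℝ) < Fintype.card V := by exact_mod_cast Fintype.card_pos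
  have h1 : ∀ y, |p y - 1 / (Fintype.card V : ℝ)| ≤
      (p y - 1 / (Fintype.card V : ℝ)) + 2 * (η / Fintype.card V) := by
    intro y
    have := h y
    rw [sub_div] at this
    have h2 : 0 ≤ η / Fintype.card V := by positivity
    rw [abs_le]; constructor <;> linarith
  have h3 := sum_le_sum fun y (_ : y ∈ univ) => h1 y
  simp only [sum_add_distrib, sum_sub_distrib, hp, sum_const, card_univ, nsmul_eq_mul] at h3
  have e1 : (Fintype.card V : ℝ) * (1 / Fintype.card V) = 1 := by field_simp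
  have e2 : (Fintype.card V : ℝ) * (2 * (η / Fintype.card V)) = 2 * η := by field_simp
  rw [e1, e2] at h3; linarith

omit [DecidableEq V] in
/-- total variation lower bound from a test function -/
lemma tv_ge_of_test [Nonempty V] {p f : V → ℝ} (hp : ∑ y, p y = 1) (h0 : ∀ y, 0 ≤ f y)
    (h1 : ∀ y, f y ≤ 1) :
    (∑ y, f y) / Fintype.card V - ∑ y, p y * f y ≤
      (1 / 2) * ∑ y, |p y - 1 / (Fintype.card V : ℝ)| := by
  have hN : (0 : ℝ) < Fintype.card V := by exact_mod_cast Fintype.card_pos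
  have h2 : ∀ y, 2 * (f y / Fintype.card V - p y * f y) ≤
      |p y - 1 / (Fintype.card V : ℝ)| - (p y - 1 / (Fintype.card V : ℝ)) := by
    intro y
    have e : f y / Fintype.card V - p y * f y = f y * (1 / Fintype.card V - p y) := by ring
    rw [e]
    rcases le_total (p y) (1 / Fintype.card V) with hy | hy
    · rw [abs_of_nonpos (by linarith)]
      nlinarith [h0 y, h1 y]
    · rw [abs_of_nonneg (by linarith)]
      nlinarith [h0 y, h1 y]
  have h3 := sum_le_sum fun y (_ : y ∈ univ) => h2 y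
  simp only [sum_sub_distrib, hp, sum_const, card_univ, nsmul_eq_mul, ← mul_sum, ← sum_div] at h3
  have e1 : (Fintype.card V : ℝ) * (1 / Fintype.card V) = 1 := by field_simp
  rw [e1] at h3; linarith

omit [DecidableEq V] in
/-- separation lower bound from a test function -/
lemma sep_ge_of_test [Nonempty V] {p f : V → ℝ} {s : ℝ} (h0 : ∀ y, 0 ≤ f y)
    (h1 : ∀ y, f y ≤ 1) (hs0 : 0 ≤ s)
    (hs : ∀ y, 1 - p y / (1 / (Fintype.card V : ℝ)) ≤ s) :
    (∑ y, f y) / Fintype.card V - ∑ y, p y * f y ≤ s := by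
  have hN : (0 : ℝ) < Fintype.card V := by exact_mod_cast Fintype.card_pos
  have h2 : ∀ y, f y / Fintype.card V - p y * f y ≤ s / Fintype.card V := by
    intro y
    have e : f y / Fintype.card V - p y * f y =
        f y * (1 - p y / (1 / (Fintype.card V : ℝ))) / Fintype.card V := by field_simp
    rw [e]
    apply div_le_div_of_nonneg_right _ hN.le
    calc _ ≤ f y * s := mul_le_mul_of_nonneg_left (hs y) (h0 y)
      _ ≤ 1 * s := mul_le_mul_of_nonneg_right (h1 y) hs0
      _ = s := one_mul s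
  have h3 := sum_le_sum fun y (_ : y ∈ univ) => h2 y
  simp only [sum_sub_distrib, sum_const, card_univ, nsmul_eq_mul, ← sum_div] at h3
  have e1 : (Fintype.card V : ℝ) * (s / Fintype.card V) = s := by field_simp
  rw [e1] at h3; exact h3

end gen

omit [Fintype G] in
lemma walk_sub_nonneg {a : ℝ} (h0 : 0 ≤ a) (h1 : a ≤ 1) {S T : Finset G} (hT : T ⊆ S)
    (hne : T.Nonempty) (x y : G) :
    0 ≤ (walk a S - ((1 - a) * T.card / S.card) • unif T) x y := by
  have hc : (T.card : ℝ) ≠ 0 := by exact_mod_cast hne.card_pos.ne'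
  have ha : 0 ≤ 1 - a := by linarith
  simp only [Matrix.sub_apply, Matrix.smul_apply, walk_apply, smul_eq_mul, unif]
  by_cases h : y - x ∈ T
  · rw [if_pos h, if_pos (hT h)]
    have : (1 - a) * T.card / S.card * (1 / T.card) = (1 - a) * (1 / S.card) := by field_simp
    rw [this]; split_ifs <;> linarith
  · rw [if_neg h]
    split_ifs <;> simp <;> positivity

/-- entrywise lower bound on the powers of the walk -/
theorem walk_pow_lower {a : ℝ} (h0 : 0 ≤ a) (h1 : a ≤ 1) {S S1 S2 : Finset G} (hS1 : S1 ⊆ S)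
    (hS2 : S2 ⊆ S) (hn1 : S1.Nonempty) (hn2 : S2.Nonempty) (hJ : unif S2 * unif S1 = JJ G)
    {θ β : ℝ} (hθ : θ = (1 - a) * S2.card / S.card) (hβ : β = (1 - a) * S1.card / S.card)
    (hlt : θ < β) (t : ℕ) (x y : G) :
    (1 - β / (β - θ) * (1 - θ) ^ t) / Fintype.card G ≤ (walk a S ^ t) x y := by
  have hS : S.Nonempty := hn1.mono hS1
  have hN : (0 : ℝ) < Fintype.card G := by exact_mod_cast Fintype.card_pos
  have hSc : (0 : ℝ) < S.card := by exact_mod_cast hS.card_pos
  have ha : 0 ≤ 1 - a := by linarith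
  have hθ0 : 0 ≤ θ := by rw [hθ]; positivity
  have hβ1 : β ≤ 1 := by
    rw [hβ, div_le_one hSc]
    have : (S1.card : ℝ) ≤ S.card := by exact_mod_cast card_le_card hS1
    nlinarith [Nat.cast_nonneg (α := ℝ) S1.card]
  set M := walk a S with hM
  set A := M - θ • unif S2 with hA
  set B := M - β • unif S1 with hB
  have hA0 : ∀ x y, 0 ≤ A x y := by intro x y; rw [hA, hθ]; exact walk_sub_nonneg h0 h1 hS2 hn2 x y
  have hB0 : ∀ x y, 0 ≤ B x y := by intro x y; rw [hB, hβ]; exact walk_sub_nonneg h0 h1 hS1 hn1 x y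
  have hAr : ∀ x, ∑ y, A x y = 1 - θ := by
    intro x; simp only [hA, Matrix.sub_apply, Matrix.smul_apply, smul_eq_mul, sum_sub_distrib,
      ← mul_sum, hM, walk_row a hS, unif_row hn2, mul_one]
  have hBr : ∀ x, ∑ y, B x y = 1 - β := by
    intro x; simp only [hB, Matrix.sub_apply, Matrix.smul_apply, smul_eq_mul, sum_sub_distrib,
      ← mul_sum, hM, walk_row a hS, unif_row hn1, mul_one]
  have hcomm : unif S2 * B = B * unif S2 := by
    simp only [hB, hM, walk, Matrix.mul_sub, Matrix.sub_mul, Matrix.mul_add, Matrix.add_mul,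
      Matrix.mul_smul, Matrix.smul_mul, Matrix.mul_one, Matrix.one_mul, unif_comm S2]
  have hJM : ∀ t x y, (JJ G * M ^ t) x y = 1 / Fintype.card G := by
    intro t x y
    simp only [mul_apply, JJ, ← mul_sum, pow_col (walk_col a hS), hM, mul_one]
  have hM0 : ∀ x y, 0 ≤ M x y := walk_nonneg h0 h1 S
  have c1 : ∀ t x y, (1 - (1 - β) ^ t) / Fintype.card G ≤ (unif S2 * M ^ t) x y := by
    intro t
    induction t with
    | zero => intro x y; simpa using unif_nonneg S2 x y
    | succ t ih =>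
      intro x y
      have e : unif S2 * M ^ (t + 1) = β • (JJ G * M ^ t) + B * (unif S2 * M ^ t) := by
        have : M = β • unif S1 + B := by rw [hB]; abel
        rw [pow_succ', ← Matrix.mul_assoc, ← Matrix.mul_assoc, ← hcomm, ← hJ]
        nth_rewrite 1 [this]
        simp only [Matrix.mul_add, Matrix.add_mul, Matrix.mul_smul, Matrix.smul_mul]
      rw [e, Matrix.add_apply, Matrix.smul_apply, hJM, smul_eq_mul]
      have := mul_lower hB0 hBr ih x y
      have e2 : (1 - (1 - β) ^ (t + 1)) / Fintype.card G =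
          β * (1 / Fintype.card G) + (1 - β) * ((1 - (1 - β) ^ t) / Fintype.card G) := by
        field_simp; ring
      linarith
  have hd : β - θ ≠ 0 := by linarith
  have c2 : ∀ t x y, (1 - (β / (β - θ) * (1 - θ) ^ t - θ / (β - θ) * (1 - β) ^ t)) /
      Fintype.card G ≤ (M ^ t) x y := by
    intro t
    induction t with
    | zero =>
      intro x y
      have : β / (β - θ) * (1 - θ) ^ 0 - θ / (β - θ) * (1 - β) ^ 0 = 1 := by field_simp
      rw [this]; simpa using pow_nonneg' hM0 0 x y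
    | succ t ih =>
      intro x y
      have e : M ^ (t + 1) = θ • (unif S2 * M ^ t) + A * M ^ t := by
        have : M = θ • unif S2 + A := by rw [hA]; abel
        rw [pow_succ']
        nth_rewrite 1 [this]
        simp only [Matrix.add_mul, Matrix.smul_mul]
      rw [e, Matrix.add_apply, Matrix.smul_apply, smul_eq_mul]
      have h3 := mul_lower hA0 hAr ih x y
      have h4 := mul_le_mul_of_nonneg_left (c1 t x y) hθ0
      have e2 : (1 - (β / (β - θ) * (1 - θ) ^ (t + 1) - θ / (β - θ) * (1 - β) ^ (t + 1))) /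
          Fintype.card G = θ * ((1 - (1 - β) ^ t) / Fintype.card G) + (1 - θ) *
          ((1 - (β / (β - θ) * (1 - θ) ^ t - θ / (β - θ) * (1 - β) ^ t)) / Fintype.card G) := by
        field_simp; ring
      linarith
  refine le_trans ?_ (c2 t x y)
  apply div_le_div_of_nonneg_right _ hN.le
  have : 0 ≤ θ / (β - θ) * (1 - β) ^ t := by
    have : 0 ≤ 1 - β := by linarith
    have : 0 < β - θ := by linarith
    positivity
  linarith

/-- test function propagation -/
theorem walk_pow_test {a : ℝ} (h0 : 0 ≤ a) (h1 : a ≤ 1) {S1 S2 : Finset G}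
    (hn1 : S1.Nonempty) (φ : ℕ → G → ℝ) (hφ0 : ∀ s y, 0 ≤ φ s y) (hφ1 : ∀ s y, φ s y ≤ 1)
    (hmono : ∀ s y, φ s y ≤ φ (s + 1) y)
    (hstep : ∀ s y, ∑ g ∈ S1, φ s (y + g) ≤ S1.card * φ (s + 1) y)
    {θ : ℝ} (hθ : θ = (1 - a) * S2.card / (S1 ∪ S2).card) (t : ℕ) (x : G) :
    ∑ y, (walk a (S1 ∪ S2) ^ t) x y * φ 0 y ≤ φ t x + t * θ := by
  have hS : (S1 ∪ S2).Nonempty := hn1.mono subset_union_left
  have hSc : (0 : ℝ) < (S1 ∪ S2).card := by exact_mod_cast hS.card_pos
  have ha : 0 ≤ 1 - a := by linarith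
  have one : ∀ s x, ∑ y, walk a (S1 ∪ S2) x y * φ s y ≤ φ (s + 1) x + θ := by
    intro s x
    simp only [walk_apply, add_mul, sum_add_distrib, mul_assoc, ← mul_sum, sum_unif_mul]
    simp only [ite_mul, one_mul, zero_mul, sum_ite_eq, mem_univ, if_true]
    have h2 : ∑ g ∈ S1 ∪ S2, φ s (x + g) ≤ (S1 ∪ S2).card * φ (s + 1) x + S2.card := by
      have e : ∑ g ∈ S1 ∪ S2, φ s (x + g) + ∑ g ∈ S1 ∩ S2, φ s (x + g) =
          ∑ g ∈ S1, φ s (x + g) + ∑ g ∈ S2, φ s (x + g) := sum_union_inter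
      have h3 : 0 ≤ ∑ g ∈ S1 ∩ S2, φ s (x + g) := sum_nonneg fun g _ => hφ0 _ _
      have h4 : ∑ g ∈ S2, φ s (x + g) ≤ S2.card := by
        simpa using sum_le_card_nsmul S2 _ 1 fun g _ => hφ1 s (x + g)
      have h5 : (S1.card : ℝ) ≤ (S1 ∪ S2).card := by exact_mod_cast card_le_card subset_union_left
      have h6 := mul_le_mul_of_nonneg_right h5 (hφ0 (s + 1) x)
      linarith [hstep s x]
    have h7 : (∑ g ∈ S1 ∪ S2, φ s (x + g)) / (S1 ∪ S2).card ≤
        φ (s + 1) x + S2.card / (S1 ∪ S2).card := by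
      rw [div_le_iff₀ hSc]
      have : (φ (s + 1) x + S2.card / (S1 ∪ S2).card) * (S1 ∪ S2).card =
          (S1 ∪ S2).card * φ (s + 1) x + S2.card := by field_simp
      linarith
    have h8 := mul_le_mul_of_nonneg_left h7 ha
    have h9 := mul_le_mul_of_nonneg_left (hmono s x) h0
    have e3 : θ = (1 - a) * (S2.card / (S1 ∪ S2).card) := by rw [hθ]; ring
    rw [e3]; nlinarith
  induction t generalizing x with
  | zero => simp [Matrix.one_apply]
  | succ t ih =>
    simp only [pow_succ', mul_apply, sum_mul]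
    rw [sum_comm]
    simp only [mul_assoc, ← mul_sum]
    calc _ ≤ ∑ z, walk a (S1 ∪ S2) x z * (φ t z + t * θ) :=
          sum_le_sum fun z _ => mul_le_mul_of_nonneg_left (ih z) (walk_nonneg h0 h1 _ _ _)
      _ = ∑ z, walk a (S1 ∪ S2) x z * φ t z + t * θ := by
          simp only [mul_add, sum_add_distrib, ← sum_mul, walk_row a hS, one_mul]
      _ ≤ _ := by have := one t x; push_cast; linarith

/-- eigenvalues are character sums -/
theorem eig_le {a : ℝ} (h1 : a ≤ 1) {S S1 : Finset G} (hS1 : S1 ⊆ S) (hn1 : S1.Nonempty)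
    (hψ : ∀ ψ : AddChar G ℂ, ψ ≠ 0 → ‖∑ g ∈ S1, ψ g‖ ≤ S1.card / 2)
    {l : ℝ} {f : G → ℝ} (hf : f ≠ 0) (hs : ∑ x, f x = 0) (he : (walk a S).mulVec f = l • f) :
    l ≤ 1 - (1 - a) * S1.card / S.card / 2 := by
  have hS : S.Nonempty := hn1.mono hS1
  have hSc : (0 : ℝ) < S.card := by exact_mod_cast hS.card_pos
  have ha : 0 ≤ 1 - a := by linarith
  obtain ⟨x0, hx0⟩ := Function.ne_iff.1 hf
  have hex : ∃ ψ : AddChar G ℂ, ∑ x, (f x : ℂ) * ψ (-x) ≠ 0 := by
    by_contra hcon
    push Not at hcon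
    have h2 : ∑ ψ : AddChar G ℂ, ψ x0 * ∑ x, (f x : ℂ) * ψ (-x) = 0 := by simp [hcon]
    simp only [mul_sum] at h2
    rw [sum_comm] at h2
    have h3 : ∀ x, ∑ ψ : AddChar G ℂ, ψ x0 * ((f x : ℂ) * ψ (-x)) =
        (f x : ℂ) * if x0 = x then (Fintype.card G : ℂ) else 0 := by
      intro x
      have := AddChar.sum_apply_eq_ite (x0 - x)
      simp only [sub_eq_zero] at this
      rw [← this, mul_sum]
      refine sum_congr rfl fun ψ _ => ?_
      rw [sub_eq_add_neg, AddChar.map_add_eq_mul]; ring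
    simp only [h3, mul_ite, mul_zero, sum_ite_eq, mem_univ, if_true] at h2
    rcases mul_eq_zero.1 h2 with h | h
    · exact hx0 (by exact_mod_cast h)
    · exact Fintype.card_ne_zero (by exact_mod_cast h)
  obtain ⟨ψ, hψ0⟩ := hex
  have hne : ψ ≠ 0 := by
    rintro rfl
    apply hψ0
    simp only [AddChar.zero_apply, mul_one]
    exact_mod_cast hs
  have hpt : ∀ x, l * f x = a * f x + (1 - a) * ((∑ s ∈ S, f (x + s)) / S.card) := by
    intro x
    have := congrFun he x
    simp only [mulVec, dotProduct, walk_apply, add_mul, sum_add_distrib, mul_assoc, ← mul_sum,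
      sum_unif_mul, Pi.smul_apply, smul_eq_mul] at this
    simp only [ite_mul, one_mul, zero_mul, sum_ite_eq, mem_univ, if_true] at this
    exact this.symm
  set F := ∑ x, (f x : ℂ) * ψ (-x) with hF
  have hsh : ∀ s, ∑ x, (f (x + s) : ℂ) * ψ (-x) = ψ s * F := by
    intro s
    rw [hF, mul_sum, ← Equiv.sum_comp (Equiv.addRight s) (fun x => ψ s * ((f x : ℂ) * ψ (-x)))]
    refine sum_congr rfl fun x _ => ?_
    have : ψ (-x) = ψ s * ψ (-(x + s)) := by rw [← AddChar.map_add_eq_mul]; congr 1; abel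
    simp only [Equiv.coe_addRight, this]; ring
  have key : (l : ℂ) * F = (a + (1 - a) * ((∑ s ∈ S, ψ s) / S.card)) * F := by
    have e1 : (l : ℂ) * F = ∑ x, ((l * f x : ℝ) : ℂ) * ψ (-x) := by
      rw [hF, mul_sum]; refine sum_congr rfl fun x _ => ?_; push_cast; ring
    rw [e1]
    simp only [hpt]
    push_cast
    simp only [add_mul, sum_add_distrib, mul_assoc, ← mul_sum]
    congr 2
    simp only [div_mul_eq_mul_div, ← sum_div, sum_mul]
    rw [sum_comm]
    simp only [hsh]
  have key2 : (l : ℂ) = a + (1 - a) * ((∑ s ∈ S, ψ s) / S.card) := mul_right_cancel₀ hψ0 key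
  have key3 : l = a + (1 - a) * ((∑ s ∈ S, ψ s).re / S.card) := by
    have := congrArg Complex.re key2
    simp only [Complex.ofReal_re, Complex.add_re] at this
    rw [this]
    have e : (1 - (a : ℂ)) * ((∑ s ∈ S, ψ s) / S.card) =
        (((1 - a) / S.card : ℝ) : ℂ) * ∑ s ∈ S, ψ s := by push_cast; ring
    rw [e, Complex.re_ofReal_mul]; ring
  have h5 : (∑ s ∈ S, ψ s).re ≤ S.card - S1.card / 2 := by
    rw [← sum_sdiff hS1, Complex.add_re]
    have h6 := (Complex.re_le_norm _).trans (hψ ψ hne)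
    have h7 : (∑ s ∈ S \ S1, ψ s).re ≤ (S \ S1).card := by
      refine (Complex.re_le_norm _).trans ((norm_sum_le _ _).trans ?_)
      simp [AddChar.norm_apply]
    rw [cast_card_sdiff hS1] at h7
    linarith
  have h8 : (∑ s ∈ S, ψ s).re / S.card ≤ 1 - S1.card / S.card / 2 := by
    rw [div_le_iff₀ hSc]
    have : (1 - (S1.card : ℝ) / S.card / 2) * S.card = S.card - S1.card / 2 := by field_simp
    linarith
  have h9 := mul_le_mul_of_nonneg_left h8 ha
  have : (1 - a) * S1.card / S.card / 2 = (1 - a) * (S1.card / S.card / 2) := by ring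
  rw [key3, this]; nlinarith

end Pool.Agent.H44.Pak
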