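import Pool.Agent.H44.Pak1

open Finset Matrix

namespace Pool.Agent.H44.Pak

lemma unif_prod_J {W K : Type} [Fintype W] [DecidableEq W] [AddCommGroup W] [Fintype K]
    [DecidableEq K] [AddCommGroup K] {C : Finset W} (hC : C.Nonempty) (k0 : K) :
    unif ((univ : Finset W) ×ˢ ({k0} : Finset K)) * unif (C ×ˢ (univ : Finset K)) = JJ (W × K) := by
  ext x y
  rw [mul_apply, sum_unif_mul, sum_product]
  simp only [sum_singleton, unif, mem_product, mem_univ, and_true, Prod.fst_sub, Prod.fst_add,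
    card_product, card_univ, card_singleton, JJ, Fintype.card_prod]
  rw [← Equiv.sum_comp (Equiv.subLeft (y.1 - x.1))]
  have e : ∀ v, y.1 - (x.1 + Equiv.subLeft (y.1 - x.1) v) = v := by
    intro v; rw [Equiv.subLeft_apply]; abel
  simp only [e]
  rw [Finset.sum_ite_mem, univ_inter]
  have h1 : (C.card : ℝ) ≠ 0 := by exact_mod_cast hC.card_pos.ne'
  have h2 : (Fintype.card W : ℝ) ≠ 0 := by exact_mod_cast Fintype.card_ne_zero
  have h3 : (Fintype.card K : ℝ) ≠ 0 := by exact_mod_cast Fintype.card_ne_zero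
  simp only [sum_const, nsmul_eq_mul]
  push_cast
  field_simp

abbrev W0 (q : ℕ) : Type := ZMod q × ZMod q

variable {q : ℕ} [NeZero q]

def cross (q : ℕ) [NeZero q] : Finset (W0 q) :=
  (univ.erase 0 ×ˢ {0}) ∪ ({0} ×ˢ univ.erase 0)

lemma sum_cross {M : Type} [AddCommMonoid M] (φ : W0 q → M) :
    ∑ c ∈ cross q, φ c = ∑ x ∈ univ.erase 0, φ (x, 0) + ∑ y ∈ univ.erase 0, φ (0, y) := by
  rw [cross, sum_union, sum_product, sum_product]
  · simp
  · rw [disjoint_left]
    rintro ⟨x, y⟩ h1 h2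
    simp only [mem_product, mem_erase, mem_singleton] at h1 h2
    exact h1.1.1 h2.1

lemma card_cross : ((cross q).card : ℝ) = 2 * ((q : ℝ) - 1) := by
  have := sum_cross (q := q) (fun _ => (1 : ℝ))
  simp only [sum_const, nsmul_eq_mul, mul_one, card_erase_of_mem (mem_univ _), card_univ,
    ZMod.card] at this
  rw [this, Nat.cast_sub (Nat.pos_of_ne_zero (NeZero.ne q))]; push_cast; ring

lemma mem_cross {c : W0 q} : c ∈ cross q ↔ (c.1 ≠ 0 ∧ c.2 = 0) ∨ (c.1 = 0 ∧ c.2 ≠ 0) := by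
  simp only [cross, mem_union, mem_product, mem_erase, mem_univ, and_true, mem_singleton]

lemma neg_mem_cross {c : W0 q} (h : c ∈ cross q) : -c ∈ cross q := by
  rw [mem_cross] at h ⊢
  simpa using h

lemma zero_notMem_cross : (0 : W0 q) ∉ cross q := by rw [mem_cross]; simp

lemma cross_char (hq : 3 ≤ q) (χ : AddChar (W0 q) ℂ) (hχ : χ ≠ 0) :
    ‖∑ c ∈ cross q, χ c‖ ≤ (q : ℝ) - 1 := by
  classical
  have h3 : (3 : ℝ) ≤ q := by exact_mod_cast hq
  rw [sum_cross]
  set χ1 := χ.compAddMonoidHom (AddMonoidHom.inl (ZMod q) (ZMod q)) with h1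
  set χ2 := χ.compAddMonoidHom (AddMonoidHom.inr (ZMod q) (ZMod q)) with h2
  have e1 : ∑ x ∈ univ.erase 0, χ (x, 0) = (if χ1 = 0 then (q : ℂ) else 0) - 1 := by
    have := AddChar.sum_eq_ite χ1
    rw [ZMod.card] at this
    rw [← this, ← sum_erase_add _ _ (mem_univ 0)]
    simp [h1]
  have e2 : ∑ y ∈ univ.erase 0, χ (0, y) = (if χ2 = 0 then (q : ℂ) else 0) - 1 := by
    have := AddChar.sum_eq_ite χ2
    rw [ZMod.card] at this
    rw [← this, ← sum_erase_add _ _ (mem_univ 0)]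
    simp [h2]
  have hq2 : ‖(q : ℂ) - 2‖ ≤ (q : ℝ) - 1 := by
    have : (q : ℂ) - 2 = ((q - 2 : ℝ) : ℂ) := by push_cast; ring
    rw [this, Complex.norm_real, Real.norm_eq_abs, abs_of_nonneg (by linarith)]; linarith
  rw [e1, e2]
  by_cases a1 : χ1 = 0 <;> by_cases a2 : χ2 = 0
  · exfalso
    apply hχ
    ext ⟨x, y⟩
    have b1 : χ (x, 0) = 1 := by simpa [h1] using DFunLike.congr_fun a1 x
    have b2 : χ (0, y) = 1 := by simpa [h2] using DFunLike.congr_fun a2 y
    have : ((x, y) : W0 q) = (x, 0) + (0, y) := by simp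
    rw [this, AddChar.map_add_eq_mul, b1, b2]; simp
  · rw [if_pos a1, if_neg a2]; convert hq2 using 2; ring
  · rw [if_neg a1, if_pos a2]; convert hq2 using 2; ring
  · rw [if_neg a1, if_neg a2]
    have : (0 - 1 + (0 - 1) : ℂ) = -2 := by ring
    rw [this]; simp; linarith

abbrev GG (d q m : ℕ) : Type := (Fin d → W0 q) × (ZMod 2 × ZMod m)

def CC (d q : ℕ) [NeZero q] : Finset (Fin d → W0 q) := Fintype.piFinset fun _ => cross q

def SS1 (d q m : ℕ) [NeZero q] [NeZero m] : Finset (GG d q m) := CC d q ×ˢ univ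

def SS2 (d q m : ℕ) [NeZero q] [NeZero m] : Finset (GG d q m) := univ ×ˢ {(1, 0)}

variable {d m : ℕ} [NeZero m]

lemma card_CC : ((CC d q).card : ℝ) = (2 * ((q : ℝ) - 1)) ^ d := by
  simp [CC, Fintype.card_piFinset, card_cross]

lemma card_SS1 : ((SS1 d q m).card : ℝ) = (CC d q).card * (2 * m) := by
  simp [SS1, ZMod.card]

lemma card_SS2 : ((SS2 d q m).card : ℝ) = (q * q) ^ d := by
  simp [SS2, ZMod.card]

lemma card_GG : (Fintype.card (GG d q m) : ℝ) = (q * q) ^ d * (2 * m) := by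
  simp [ZMod.card]

lemma CC_nonempty (hq : 3 ≤ q) : (CC d q).Nonempty := by
  have h3 : (3 : ℝ) ≤ q := by exact_mod_cast hq
  rw [← card_pos]
  have : (0 : ℝ) < (CC d q).card := by rw [card_CC]; apply pow_pos; linarith
  exact_mod_cast this

lemma SS1_nonempty (hq : 3 ≤ q) : (SS1 d q m).Nonempty :=
  (CC_nonempty hq).product univ_nonempty

lemma SS2_nonempty : (SS2 d q m).Nonempty := univ_nonempty.product (singleton_nonempty _)

lemma SS_J (hq : 3 ≤ q) : unif (SS2 d q m) * unif (SS1 d q m) = JJ (GG d q m) :=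
  unif_prod_J (CC_nonempty hq) _

lemma SS_neg {g : GG d q m} (h : g ∈ SS1 d q m ∪ SS2 d q m) : -g ∈ SS1 d q m ∪ SS2 d q m := by
  rw [mem_union] at h ⊢
  rcases h with h | h
  · left
    simp only [SS1, CC, mem_product, Fintype.mem_piFinset, mem_univ, and_true] at h ⊢
    intro i; exact neg_mem_cross (h i)
  · right
    simp only [SS2, mem_product, mem_univ, true_and, mem_singleton] at h ⊢
    rw [Prod.snd_neg, h]; simp only [Prod.neg_mk, neg_zero]; rfl

lemma SS_zero (hd : 0 < d) : (0 : GG d q m) ∉ SS1 d q m ∪ SS2 d q m := by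
  rw [mem_union]
  rintro (h | h)
  · simp only [SS1, CC, mem_product, Fintype.mem_piFinset, mem_univ, and_true] at h
    exact zero_notMem_cross (h ⟨0, hd⟩)
  · simp only [SS2, mem_product, mem_univ, true_and, mem_singleton] at h
    have := congrArg Prod.fst h
    simp at this

lemma char_pi {ι W : Type} [Fintype ι] [DecidableEq ι] [AddCommGroup W]
    (χ : AddChar (ι → W) ℂ) (v : ι → W) :
    χ v = ∏ i, χ.compAddMonoidHom (AddMonoidHom.single (fun _ : ι => W) i) (v i) := by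
  conv_lhs => rw [← Finset.univ_sum_single v]
  have : ∀ s : Finset ι, χ (∑ i ∈ s, Pi.single i (v i)) = ∏ i ∈ s, χ (Pi.single i (v i)) := by
    intro s
    induction s using Finset.induction_on with
    | empty => simp
    | insert a s ha ih => rw [sum_insert ha, prod_insert ha, AddChar.map_add_eq_mul, ih]
  rw [this]; rfl

lemma CC_char (hq : 3 ≤ q) (χ : AddChar (Fin d → W0 q) ℂ) (hχ : χ ≠ 0) :
    ‖∑ v ∈ CC d q, χ v‖ ≤ (CC d q).card / 2 := by
  have h3 : (3 : ℝ) ≤ q := by exact_mod_cast hq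
  set χi := fun i => χ.compAddMonoidHom (AddMonoidHom.single (fun _ : Fin d => W0 q) i) with hχi
  have e : ∑ v ∈ CC d q, χ v = ∏ i, ∑ c ∈ cross q, χi i c := by
    rw [Finset.prod_univ_sum]
    exact sum_congr rfl fun v _ => char_pi χ v
  obtain ⟨i0, hi0⟩ : ∃ i, χi i ≠ 0 := by
    by_contra hcon
    push Not at hcon
    apply hχ
    ext v
    rw [char_pi χ v]
    have : ∀ i, χ.compAddMonoidHom (AddMonoidHom.single (fun _ : Fin d => W0 q) i) = 0 := hcon
    simp [this]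
  rw [e, norm_prod, card_CC, ← mul_prod_erase _ _ (mem_univ i0)]
  have h1 := cross_char hq _ hi0
  have h2 : ∏ i ∈ univ.erase i0, ‖∑ c ∈ cross q, χi i c‖ ≤
      ∏ i ∈ univ.erase i0, (2 * ((q : ℝ) - 1)) := by
    refine prod_le_prod (fun _ _ => norm_nonneg _) fun i _ => ?_
    refine (norm_sum_le _ _).trans ?_
    simp [AddChar.norm_apply, card_cross]
  have e2 : (2 * ((q : ℝ) - 1)) ^ d =
      2 * ((q : ℝ) - 1) * ∏ i ∈ univ.erase i0, (2 * ((q : ℝ) - 1)) := by
    rw [mul_prod_erase univ (fun _ : Fin d => 2 * ((q : ℝ) - 1)) (mem_univ i0)]; simp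
  rw [e2]
  calc _ ≤ ((q : ℝ) - 1) * ∏ i ∈ univ.erase i0, (2 * ((q : ℝ) - 1)) :=
        mul_le_mul h1 h2 (prod_nonneg fun _ _ => norm_nonneg _) (by linarith)
    _ = _ := by ring

lemma SS1_char (hq : 3 ≤ q) (ψ : AddChar (GG d q m) ℂ) (hψ : ψ ≠ 0) :
    ‖∑ g ∈ SS1 d q m, ψ g‖ ≤ (SS1 d q m).card / 2 := by
  classical
  set ψ1 := ψ.compAddMonoidHom (AddMonoidHom.inl (Fin d → W0 q) (ZMod 2 × ZMod m)) with h1
  set ψ2 := ψ.compAddMonoidHom (AddMonoidHom.inr (Fin d → W0 q) (ZMod 2 × ZMod m)) with h2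
  have hsplit : ∀ v k, ψ (v, k) = ψ1 v * ψ2 k := by
    intro v k
    have : ((v, k) : GG d q m) = (v, 0) + (0, k) := by simp
    rw [this, AddChar.map_add_eq_mul]; rfl
  have e : ∑ g ∈ SS1 d q m, ψ g = (∑ v ∈ CC d q, ψ1 v) * ∑ k, ψ2 k := by
    rw [SS1, sum_product, sum_mul_sum]; simp only [hsplit]
  rw [e, AddChar.sum_eq_ite]
  split_ifs with a2
  · have a1 : ψ1 ≠ 0 := by
      intro a1; apply hψ; ext ⟨v, k⟩; rw [hsplit, a1, a2]; simp
    have := CC_char hq ψ1 a1
    rw [norm_mul, card_SS1]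
    simp only [Fintype.card_prod, ZMod.card, Complex.norm_natCast]
    push_cast
    nlinarith [Nat.cast_nonneg (α := ℝ) m]
  · simp only [mul_zero, norm_zero]; positivity

/-- test functions -/
noncomputable def phi (x : GG d q m) (s : ℕ) (y : GG d q m) : ℝ :=
  ∏ i, (1 - if (y.1 i).2 = (x.1 i).2 then (1 / 2 : ℝ) ^ s else 0)

omit [NeZero q] [NeZero m] in
lemma fac_mem (p : Prop) [Decidable p] (s : ℕ) :
    0 ≤ (1 - if p then (1 / 2 : ℝ) ^ s else 0) ∧ (1 - if p then (1 / 2 : ℝ) ^ s else 0) ≤ 1 := by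
  have h1 : (1 / 2 : ℝ) ^ s ≤ 1 := pow_le_one₀ (by norm_num) (by norm_num)
  have h0 : 0 ≤ (1 / 2 : ℝ) ^ s := by positivity
  split_ifs <;> constructor <;> linarith

omit [NeZero q] [NeZero m] in
lemma phi_nonneg (x : GG d q m) (s : ℕ) (y : GG d q m) : 0 ≤ phi x s y :=
  prod_nonneg fun _ _ => (fac_mem _ _).1

omit [NeZero q] [NeZero m] in
lemma phi_le_one (x : GG d q m) (s : ℕ) (y : GG d q m) : phi x s y ≤ 1 :=
  prod_le_one (fun _ _ => (fac_mem _ _).1) fun _ _ => (fac_mem _ _).2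

omit [NeZero q] [NeZero m] in
lemma phi_mono (x : GG d q m) (s : ℕ) (y : GG d q m) : phi x s y ≤ phi x (s + 1) y := by
  refine prod_le_prod (fun _ _ => (fac_mem _ _).1) fun i _ => ?_
  have h0 : 0 ≤ (1 / 2 : ℝ) ^ s := by positivity
  split_ifs
  · rw [pow_succ]; linarith
  · exact le_rfl

lemma phi_step (x : GG d q m) (s : ℕ) (y : GG d q m) :
    ∑ g ∈ SS1 d q m, phi x s (y + g) ≤ (SS1 d q m).card * phi x (s + 1) y := by
  have hq : (1 : ℝ) ≤ q := by exact_mod_cast Nat.pos_of_ne_zero (NeZero.ne q)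
  rw [card_SS1, card_CC, SS1, sum_product]
  have hsum : ∀ v k, phi x s (y + (v, k)) =
      ∏ i, (1 - if (y.1 i).2 + (v i).2 = (x.1 i).2 then (1 / 2 : ℝ) ^ s else 0) := fun _ _ => rfl
  simp only [hsum]
  simp only [phi, sum_const, card_univ, Fintype.card_prod, ZMod.card, nsmul_eq_mul, ← mul_sum]
  rw [CC, ← Finset.prod_univ_sum (fun _ => cross q)
    (fun i c => 1 - if (y.1 i).2 + c.2 = (x.1 i).2 then (1 / 2 : ℝ) ^ s else 0)]
  have key : ∏ i, ∑ c ∈ cross q, (1 - if (y.1 i).2 + c.2 = (x.1 i).2 then (1 / 2 : ℝ) ^ s else 0) ≤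
      ∏ i, (2 * ((q : ℝ) - 1) *
        (1 - if (y.1 i).2 = (x.1 i).2 then (1 / 2 : ℝ) ^ (s + 1) else 0)) := by
    refine prod_le_prod (fun i _ => sum_nonneg fun _ _ => (fac_mem _ _).1) fun i _ => ?_
    have hc : ((univ.erase (0 : ZMod q)).card : ℝ) = q - 1 := by
      rw [card_erase_of_mem (mem_univ _), card_univ, ZMod.card,
        Nat.cast_sub (Nat.pos_of_ne_zero (NeZero.ne q))]; simp
    rw [sum_cross]
    have b2 : ∑ z ∈ univ.erase (0 : ZMod q),
        (1 - if (y.1 i).2 + z = (x.1 i).2 then (1 / 2 : ℝ) ^ s else 0) ≤ q - 1 := by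
      rw [← hc]
      simpa using sum_le_card_nsmul (univ.erase (0 : ZMod q)) _ 1
        fun z _ => (fac_mem ((y.1 i).2 + z = (x.1 i).2) s).2
    simp only [add_zero, sum_const, nsmul_eq_mul, hc]
    have h0 : 0 ≤ (1 / 2 : ℝ) ^ s := by positivity
    split_ifs
    · rw [pow_succ]; nlinarith
    · nlinarith
  rw [prod_mul_distrib] at key
  simp only [prod_const, card_univ, Fintype.card_fin] at key
  push_cast
  have hm : (0 : ℝ) ≤ 2 * m := by positivity
  nlinarith [mul_le_mul_of_nonneg_left key hm]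

omit [NeZero q] [NeZero m] in
lemma phi_self (x : GG d q m) (s : ℕ) : phi x s x = (1 - (1 / 2 : ℝ) ^ s) ^ d := by
  simp [phi]

lemma phi_zero_sum (x : GG d q m) :
    (∑ y, phi x 0 y) / Fintype.card (GG d q m) = (1 - 1 / (q : ℝ)) ^ d := by
  have hq : (0 : ℝ) < q := by exact_mod_cast Nat.pos_of_ne_zero (NeZero.ne q)
  have hm : (0 : ℝ) < m := by exact_mod_cast Nat.pos_of_ne_zero (NeZero.ne m)
  rw [card_GG, Fintype.sum_prod_type]
  simp only [phi, pow_zero, sum_const, card_univ, Fintype.card_prod, ZMod.card, nsmul_eq_mul,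
    ← mul_sum]
  rw [← Fintype.piFinset_univ, ← Finset.prod_univ_sum (fun _ => (univ : Finset (W0 q)))
    (fun i c => 1 - if c.2 = (x.1 i).2 then (1 : ℝ) else 0)]
  have : ∀ i, ∑ c : W0 q, (1 - if c.2 = (x.1 i).2 then (1 : ℝ) else 0) =
      q * q * (1 - 1 / (q : ℝ)) := by
    intro i
    rw [Fintype.sum_prod_type]
    simp only [sum_sub_distrib, sum_const, card_univ, ZMod.card, nsmul_eq_mul, sum_ite_eq',
      mem_univ, if_true]
    field_simp
  simp only [this, prod_const, card_univ, Fintype.card_fin, mul_pow]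
  push_cast
  field_simp

end Pool.Agent.H44.Pak
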