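import Pool.Agent.H44.Pak2

open Finset Matrix

namespace Pool.Agent.H44.Pak

structure Good {G : Type} [Fintype G] [DecidableEq G] [AddCommGroup G] (r : ℕ) (S : Finset G)
    (θ : ℝ) : Prop where
  symm : ∀ g ∈ S, -g ∈ S
  zero : (0 : G) ∉ S
  ne : S.Nonempty
  card : r ≤ Fintype.card G
  lo : 1 / (4 * (r : ℝ) + 1) ≤ θ
  hi : θ ≤ 1 / (2 * (r : ℝ))
  lower : ∀ a : ℝ, 0 ≤ a → a ≤ 1 / 2 → ∀ t x y,
    (1 - 21 / 20 * (1 - (1 - a) * θ) ^ t) / Fintype.card G ≤ (walk a S ^ t) x y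
  test : ∀ x, ∃ φ : G → ℝ, (∀ y, 0 ≤ φ y) ∧ (∀ y, φ y ≤ 1) ∧
    99 / 100 ≤ (∑ y, φ y) / Fintype.card G ∧ ∀ a : ℝ, 0 ≤ a → a ≤ 1 → ∀ t ≤ 400 * r,
      ∑ y, (walk a S ^ t) x y * φ y ≤ 1 / 100 + t * ((1 - a) * θ)
  eig : ∀ a : ℝ, a ≤ 1 → ∀ (l : ℝ) (f : G → ℝ), f ≠ 0 → ∑ x, f x = 0 →
    (walk a S).mulVec f = l • f → l ≤ 1 - (1 - a) / 4

lemma one_sub_pow_le {x : ℝ} (h0 : 0 ≤ x) (h1 : x ≤ 1) (t : ℕ) : (1 - x) ^ t ≤ 1 / (1 + t * x) := by
  have hb := one_add_mul_le_pow (a := x) (by linarith) t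
  have h2 : (1 - x) ^ t * (1 + x) ^ t ≤ 1 := by
    rw [← mul_pow]; apply pow_le_one₀ <;> nlinarith
  have h3 : 0 ≤ (1 - x) ^ t := pow_nonneg (by linarith) _
  rw [le_div_iff₀ (by positivity)]
  nlinarith [mul_le_mul_of_nonneg_left hb h3]

theorem good_of {r d q m : ℕ} [NeZero q] [NeZero m] (hr : 11 ≤ r) (hd : d = 100 * 2 ^ (400 * r))
    (hq : q = 100 * d) (hm : m = r * ((q * q) ^ d / (CC d q).card + 1)) :
    Good r (SS1 d q m ∪ SS2 d q m)
      ((SS2 d q m).card / (SS1 d q m ∪ SS2 d q m).card) := by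
  have hd0 : 0 < d := by rw [hd]; positivity
  have hq3 : 3 ≤ q := by omega
  have hr' : (11 : ℝ) ≤ r := by exact_mod_cast hr
  set c := (CC d q).card with hc
  set w := (q * q) ^ d with hw
  have hc0 : 0 < c := (CC_nonempty hq3).card_pos
  have hw0 : 0 < w := by have := Nat.pos_of_ne_zero (NeZero.ne q); positivity
  have hcw : c ≤ w := by
    have := card_le_univ (CC d q)
    simpa [ZMod.card] using this
  have h1 : w < c * (w / c + 1) := Nat.lt_mul_div_succ w hc0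
  have h2 : c * (w / c + 1) ≤ 2 * w := by
    have := Nat.mul_div_le w c
    nlinarith
  have hs1 : ((SS1 d q m).card : ℝ) = 2 * r * (c * (w / c + 1) : ℕ) := by
    rw [card_SS1, hm]; push_cast; ring
  have hs2 : ((SS2 d q m).card : ℝ) = w := by rw [card_SS2, hw]; push_cast; ring
  have h1' : (w : ℝ) ≤ (c * (w / c + 1) : ℕ) := by exact_mod_cast h1.le
  have h2' : ((c * (w / c + 1) : ℕ) : ℝ) ≤ 2 * w := by exact_mod_cast h2
  have hw' : (0 : ℝ) < w := by exact_mod_cast hw0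
  have l1 : 2 * r * (w : ℝ) ≤ (SS1 d q m).card := by rw [hs1]; nlinarith
  have u1 : ((SS1 d q m).card : ℝ) ≤ 4 * r * w := by rw [hs1]; nlinarith
  have l2 : ((SS1 d q m).card : ℝ) ≤ (SS1 d q m ∪ SS2 d q m).card := by
    exact_mod_cast card_le_card subset_union_left
  have u2 : ((SS1 d q m ∪ SS2 d q m).card : ℝ) ≤ (SS1 d q m).card + w := by
    rw [← hs2]; exact_mod_cast card_union_le _ _
  set s1 : ℝ := ((SS1 d q m).card : ℝ) with hs1d
  set s : ℝ := ((SS1 d q m ∪ SS2 d q m).card : ℝ) with hsd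
  have hs0 : 0 < s := by nlinarith
  have hw1 : 22 * (w : ℝ) ≤ s1 := by nlinarith
  refine ⟨fun g hg => SS_neg hg, SS_zero hd0, (SS1_nonempty hq3).mono subset_union_left, ?_, ?_,
    ?_, ?_, ?_, ?_⟩
  · have : (r : ℝ) ≤ Fintype.card (GG d q m) := by
      have h5 : s1 ≤ Fintype.card (GG d q m) := by
        rw [hs1d]; exact_mod_cast card_le_univ _
      have : (1 : ℝ) ≤ w := by exact_mod_cast hw0
      nlinarith
    exact_mod_cast this
  · rw [hs2, div_le_div_iff₀ (by positivity) hs0]; nlinarith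
  · rw [hs2, div_le_div_iff₀ hs0 (by positivity)]; nlinarith
  · intro a h0 ha t x y
    have hlt : (1 - a) * (SS2 d q m).card / s < (1 - a) * s1 / s := by
      rw [hs2]; apply div_lt_div_of_pos_right _ hs0; nlinarith
    have := walk_pow_lower h0 (by linarith) subset_union_left subset_union_right
      (SS1_nonempty hq3) SS2_nonempty (SS_J (d := d) (m := m) hq3) rfl rfl hlt t x y
    refine le_trans ?_ this
    apply div_le_div_of_nonneg_right _ (by positivity)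
    rw [← hsd, ← hs1d, hs2, mul_div_assoc (1 - a) (w : ℝ)]
    have hK : (1 - a) * s1 / s / ((1 - a) * s1 / s - (1 - a) * (w / s)) ≤ 21 / 20 := by
      have e : (1 - a) * s1 / s / ((1 - a) * s1 / s - (1 - a) * (w / s)) = s1 / (s1 - w) := by
        have : 1 - a ≠ 0 := by linarith
        have : s1 - w ≠ 0 := by linarith
        field_simp
      rw [e, div_le_div_iff₀ (by linarith) (by norm_num)]; linarith
    have hp : 0 ≤ (1 - (1 - a) * (w / s)) ^ t := by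
      apply pow_nonneg
      have : w / s ≤ 1 := by rw [div_le_one hs0]; linarith
      have : 0 ≤ w / s := by positivity
      nlinarith
    nlinarith [mul_le_mul_of_nonneg_right hK hp]
  · intro x
    refine ⟨phi x 0, phi_nonneg x 0, phi_le_one x 0, ?_, ?_⟩
    · rw [phi_zero_sum]
      have hq' : (q : ℝ) = 100 * d := by exact_mod_cast hq
      have hd' : (1 : ℝ) ≤ d := by exact_mod_cast hd0
      have := one_add_mul_le_pow (a := -(1 / (q : ℝ))) (by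
        have : 1 / (q : ℝ) ≤ 1 := by rw [div_le_one (by linarith)]; linarith
        linarith) d
      have e : (d : ℝ) * -(1 / (q : ℝ)) = -(1 / 100) := by rw [hq']; field_simp
      rw [e] at this
      rw [sub_eq_add_neg]; linarith
    · intro a h0 ha t ht
      have := walk_pow_test h0 ha (S2 := SS2 d q m) (SS1_nonempty hq3) (phi x) (phi_nonneg x)
        (phi_le_one x) (phi_mono x) (phi_step x) rfl t x
      rw [mul_div_assoc] at this
      refine this.trans ?_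
      rw [phi_self]
      have h5 := one_sub_pow_le (x := (1 / 2 : ℝ) ^ t) (by positivity)
        (pow_le_one₀ (by norm_num) (by norm_num)) d
      have h6 : (100 : ℝ) ≤ d * (1 / 2 : ℝ) ^ t := by
        have h7 : (1 / 2 : ℝ) ^ (400 * r) ≤ (1 / 2 : ℝ) ^ t :=
          pow_le_pow_of_le_one (by norm_num) (by norm_num) ht
        have h8 : (d : ℝ) * (1 / 2 : ℝ) ^ (400 * r) = 100 := by
          rw [hd]; push_cast; rw [mul_assoc, ← mul_pow]; norm_num
        rw [← h8]; exact mul_le_mul_of_nonneg_left h7 (by positivity)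
      have h9 : 1 / (1 + d * (1 / 2 : ℝ) ^ t) ≤ 1 / 100 :=
        one_div_le_one_div_of_le (by norm_num) (by linarith)
      linarith
  · intro a ha l f hf hs he
    have := eig_le ha subset_union_left (SS1_nonempty hq3) (SS1_char hq3) hf hs he
    rw [← hsd, ← hs1d] at this
    have h5 : 1 / 2 ≤ s1 / s := by rw [div_le_div_iff₀ (by norm_num) hs0]; linarith
    have e : (1 - a) * s1 / s / 2 = (1 - a) * (s1 / s) / 2 := by ring
    rw [e] at this
    nlinarith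

theorem exists_good (n : ℕ) : ∃ (G : Type) (_ : Fintype G) (_ : DecidableEq G)
    (_ : AddCommGroup G) (S : Finset G) (θ : ℝ), Good (n + 11) S θ := by
  obtain ⟨d, hd⟩ : ∃ d, d = 100 * 2 ^ (400 * (n + 11)) := ⟨_, rfl⟩
  obtain ⟨q, hq⟩ : ∃ q, q = 100 * d := ⟨_, rfl⟩
  have : NeZero q := ⟨by rw [hq, hd]; positivity⟩
  obtain ⟨m, hm⟩ : ∃ m, m = (n + 11) * ((q * q) ^ d / (CC d q).card + 1) := ⟨_, rfl⟩
  have : NeZero m := ⟨by rw [hm]; exact Nat.mul_ne_zero (by omega) (Nat.succ_ne_zero _)⟩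
  exact ⟨GG d q m, inferInstance, inferInstance, inferInstance, _, _,
    good_of (by omega) hd hq hm⟩

/-- abstract consequences for a distance squeezed between the two bounds -/
theorem abstract_ratio {D : ℕ → ℝ} {θ : ℝ} {r : ℕ} (hr : 11 ≤ r) (lo : 1 / (8 * (r : ℝ) + 2) ≤ θ)
    (hi : θ ≤ 1 / 22) (hU : ∀ t, D t ≤ 21 / 20 * (1 - θ) ^ t)
    (hL : ∀ t ≤ 400 * r, 98 / 100 - t * θ ≤ D t) :
    (∀ ε > 0, ∃ t, D t ≤ ε) ∧ 7 / 10 ≤ (sInf {t | D t ≤ 1 / 4} : ℕ) * θ ∧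
      3 / 2 ≤ ((sInf {t | D t ≤ 1 / 4} : ℕ) : ℝ) / (sInf {t | D t ≤ 1 - 1 / 4} : ℕ) := by
  have hr' : (11 : ℝ) ≤ r := by exact_mod_cast hr
  have h0 : 0 < θ := lt_of_lt_of_le (by positivity) lo
  have hU' : ∀ t : ℕ, D t ≤ 21 / 20 * (1 / (1 + t * θ)) := fun t =>
    (hU t).trans (mul_le_mul_of_nonneg_left (one_sub_pow_le h0.le (by linarith) t) (by norm_num))
  have erg : ∀ ε > 0, ∃ t, D t ≤ ε := by
    intro ε hε
    obtain ⟨t, ht⟩ := exists_nat_ge (2 / (ε * θ))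
    refine ⟨t, (hU' t).trans ?_⟩
    rw [div_le_iff₀ (by positivity)] at ht
    rw [mul_one_div, div_le_iff₀ (by positivity)]
    nlinarith
  have small : ∀ t : ℕ, t * θ < 7 / 10 → t ≤ 400 * r := by
    intro t ht
    have h1 : t * (1 / (8 * (r : ℝ) + 2)) ≤ t * θ := mul_le_mul_of_nonneg_left lo (by positivity)
    have h2 : t * (1 / (8 * (r : ℝ) + 2)) < 7 / 10 := by linarith
    rw [mul_one_div, div_lt_iff₀ (by positivity)] at h2
    have : (t : ℝ) ≤ 400 * r := by linarith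
    exact_mod_cast this
  have a1 : 7 / 10 ≤ (sInf {t | D t ≤ 1 / 4} : ℕ) * θ := by
    by_contra hcon
    push Not at hcon
    have h1 : D (sInf {t | D t ≤ 1 / 4}) ≤ 1 / 4 := Nat.sInf_mem (erg (1 / 4) (by norm_num))
    have := hL _ (small _ hcon)
    linarith
  have a2 : ((sInf {t | D t ≤ 1 - 1 / 4} : ℕ) : ℝ) * θ ≤ 4 / 10 + θ := by
    have h1 : D ⌈4 / 10 / θ⌉₊ ≤ 1 - 1 / 4 := by
      refine (hU' _).trans ?_
      have := Nat.le_ceil (4 / 10 / θ)
      rw [div_le_iff₀ h0] at this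
      rw [mul_one_div, div_le_iff₀ (by positivity)]
      linarith
    have h2 : ((sInf {t | D t ≤ 1 - 1 / 4} : ℕ) : ℝ) ≤ ⌈4 / 10 / θ⌉₊ := by
      exact_mod_cast Nat.sInf_le h1
    have h3 := Nat.ceil_lt_add_one (show 0 ≤ 4 / 10 / θ by positivity)
    have h4 : (4 / 10 / θ + 1) * θ = 4 / 10 + θ := by field_simp
    nlinarith
  have a3 : (0 : ℝ) < (sInf {t | D t ≤ 1 - 1 / 4} : ℕ) := by
    have h1 : D (sInf {t | D t ≤ 1 - 1 / 4}) ≤ 1 - 1 / 4 :=
      Nat.sInf_mem (erg (1 - 1 / 4) (by norm_num))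
    have := hL _ (small (sInf {t | D t ≤ 1 - 1 / 4}) (by linarith))
    by_contra hcon
    have h2 : ((sInf {t | D t ≤ 1 - 1 / 4} : ℕ) : ℝ) = 0 := le_antisymm (not_lt.1 hcon) (by positivity)
    rw [h2] at this; linarith
  refine ⟨erg, a1, ?_⟩
  rw [le_div_iff₀ a3]
  by_contra hcon
  push Not at hcon
  have := mul_lt_mul_of_pos_right hcon h0
  nlinarith

section cons
variable {G : Type} [Fintype G] [DecidableEq G] [AddCommGroup G] {r : ℕ} {S : Finset G} {θ : ℝ}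

lemma Good.pos (h : Good r S θ) : 0 < θ := lt_of_lt_of_le (by positivity) h.lo

lemma Good.le22 (h : Good r S θ) (hr : 11 ≤ r) : θ ≤ 1 / 22 := by
  have hr' : (11 : ℝ) ≤ r := by exact_mod_cast hr
  exact h.hi.trans (one_div_le_one_div_of_le (by norm_num) (by linarith))

lemma Good.eta_nonneg (h : Good r S θ) (hr : 11 ≤ r) {a : ℝ} (h0 : 0 ≤ a) (_h1 : a ≤ 1 / 2)
    (t : ℕ) : 0 ≤ 21 / 20 * (1 - (1 - a) * θ) ^ t := by
  have := h.le22 hr
  have := h.pos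
  have : 0 ≤ 1 - (1 - a) * θ := by nlinarith
  positivity

lemma Good.tv_le (h : Good r S θ) (hr : 11 ≤ r) {a : ℝ} (h0 : 0 ≤ a) (h1 : a ≤ 1 / 2) (t : ℕ) :
    tvDist (walk a S) t ≤ 21 / 20 * (1 - (1 - a) * θ) ^ t :=
  ciSup_le fun x => tv_le_of_lower (pow_row (walk_row a h.ne) t x) (h.eta_nonneg hr h0 h1 t)
    (h.lower a h0 h1 t x)

lemma Good.tv_ge (h : Good r S θ) {a : ℝ} (h0 : 0 ≤ a) (h1 : a ≤ 1 / 2) (t : ℕ)
    (ht : t ≤ 400 * r) : 98 / 100 - t * ((1 - a) * θ) ≤ tvDist (walk a S) t := by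
  obtain ⟨φ, p0, p1, p2, p3⟩ := h.test 0
  have := tv_ge_of_test (pow_row (walk_row a h.ne) t 0) p0 p1
  have h4 := p3 a h0 (by linarith) t ht
  refine le_trans ?_ (le_ciSup (f := fun x => (1 / 2) * ∑ y,
    |(walk a S ^ t) x y - 1 / (Fintype.card G : ℝ)|) (Set.finite_range _).bddAbove 0)
  linarith

lemma Good.sep_le (h : Good r S θ) {a : ℝ} (h0 : 0 ≤ a) (h1 : a ≤ 1 / 2) (t : ℕ) :
    sepDist (walk a S) t ≤ 21 / 20 * (1 - (1 - a) * θ) ^ t := by
  have hN : (0 : ℝ) < Fintype.card G := by exact_mod_cast Fintype.card_pos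
  refine ciSup_le fun x => ciSup_le fun y => ?_
  have := h.lower a h0 h1 t x y
  rw [div_le_iff₀ hN] at this
  rw [div_div_eq_mul_div, div_one]; linarith

lemma Good.sep_ge (h : Good r S θ) {a : ℝ} (h0 : 0 ≤ a) (h1 : a ≤ 1 / 2) (t : ℕ)
    (ht : t ≤ 400 * r) : 98 / 100 - t * ((1 - a) * θ) ≤ sepDist (walk a S) t := by
  have hN : (0 : ℝ) < Fintype.card G := by exact_mod_cast Fintype.card_pos
  obtain ⟨φ, p0, p1, p2, p3⟩ := h.test 0
  have hs : ∀ y, 1 - (walk a S ^ t) 0 y / (1 / (Fintype.card G : ℝ)) ≤ sepDist (walk a S) t := by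
    intro y
    refine le_trans ?_ (le_ciSup (f := fun x => ⨆ y,
      (1 - (walk a S ^ t) x y / (1 / (Fintype.card G : ℝ)))) (Set.finite_range _).bddAbove 0)
    exact le_ciSup (f := fun y => (1 - (walk a S ^ t) 0 y / (1 / (Fintype.card G : ℝ))))
      (Set.finite_range _).bddAbove y
  have hs0 : 0 ≤ sepDist (walk a S) t := by
    have h5 := sum_le_sum fun y (_ : y ∈ univ) => hs y
    simp only [sum_sub_distrib, ← sum_div, pow_row (walk_row a h.ne), sum_const, card_univ,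
      nsmul_eq_mul] at h5
    have e : (Fintype.card G : ℝ) * 1 - 1 / (1 / (Fintype.card G : ℝ)) = 0 := by
      field_simp; ring
    rw [e] at h5
    exact nonneg_of_mul_nonneg_right h5 hN |> fun h => by
      by_contra hc; push Not at hc; nlinarith
  have := sep_ge_of_test p0 p1 hs0 hs
  have h4 := p3 a h0 (by linarith) t ht
  linarith

lemma Good.lam2_le (h : Good r S θ) {a : ℝ} (_h0 : 0 ≤ a) (h1 : a ≤ 1 / 2) :
    lam2 (walk a S) ≤ 7 / 8 := by
  refine Real.sSup_le ?_ (by norm_num)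
  rintro l ⟨f, hf, hs, he⟩
  have := h.eig a (by linarith) l f hf hs he
  linarith

lemma Good.lo' (h : Good r S θ) {a : ℝ} (h1 : a ≤ 1 / 2) :
    1 / (8 * (r : ℝ) + 2) ≤ (1 - a) * θ := by
  have := h.lo
  have h2 := h.pos
  have e : 1 / (8 * (r : ℝ) + 2) = 1 / 2 * (1 / (4 * (r : ℝ) + 1)) := by field_simp; ring
  rw [e]; nlinarith

lemma Good.hi' (h : Good r S θ) (hr : 11 ≤ r) {a : ℝ} (h0 : 0 ≤ a) :
    (1 - a) * θ ≤ 1 / 22 := by
  have := h.le22 hr
  have h2 := h.pos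
  nlinarith

theorem Good.tv (h : Good r S θ) (hr : 11 ≤ r) {a : ℝ} (h0 : 0 ≤ a) (h1 : a ≤ 1 / 2) :
    (∀ ε > 0, ∃ t, tvDist (walk a S) t ≤ ε) ∧ (r : ℝ) ≤ tmix (walk a S) (1 / 4) ∧
      3 / 2 ≤ (tmix (walk a S) (1 / 4) : ℝ) / tmix (walk a S) (1 - 1 / 4) := by
  obtain ⟨a1, a2, a3⟩ := abstract_ratio hr (h.lo' h1) (h.hi' hr h0) (h.tv_le hr h0 h1)
    (h.tv_ge h0 h1)
  refine ⟨a1, ?_, a3⟩
  have hr' : (11 : ℝ) ≤ r := by exact_mod_cast hr
  have h3 := h.hi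
  have h2 := h.pos
  rw [le_div_iff₀ (by positivity)] at h3
  change 7 / 10 ≤ (tmix (walk a S) (1 / 4) : ℝ) * _ at a2
  have h4 : (0 : ℝ) ≤ tmix (walk a S) (1 / 4) := by positivity
  by_contra hc
  push Not at hc
  have h5 : (1 - a) * θ ≤ θ := by nlinarith
  have h6 := mul_le_mul_of_nonneg_left h5 h4
  nlinarith

theorem Good.sep (h : Good r S θ) (hr : 11 ≤ r) {a : ℝ} (h0 : 0 ≤ a) (h1 : a ≤ 1 / 2) :
    (∀ ε > 0, ∃ t, sepDist (walk a S) t ≤ ε) ∧
      3 / 2 ≤ (tsep (walk a S) (1 / 4) : ℝ) / tsep (walk a S) (1 - 1 / 4) := by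
  obtain ⟨a1, -, a3⟩ := abstract_ratio hr (h.lo' h1) (h.hi' hr h0) (h.sep_le h0 h1)
    (h.sep_ge h0 h1)
  exact ⟨a1, a3⟩

theorem Good.prod (h : Good r S θ) (hr : 11 ≤ r) {a : ℝ} (h0 : 0 ≤ a) (h1 : a ≤ 1 / 2) :
    (r : ℝ) / 8 ≤ tmix (walk a S) (1 / 4) * (1 - lam2 (walk a S)) := by
  have := (h.tv hr h0 h1).2.1
  have h2 := h.lam2_le h0 h1
  have h4 : (0 : ℝ) ≤ r := by positivity
  nlinarith

theorem Good.pow_pos (h : Good r S θ) (hr : 11 ≤ r) {a : ℝ} (h0 : 0 ≤ a) (h1 : a ≤ 1 / 2) :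
    ∃ t0, ∀ t ≥ t0, ∀ x y, 0 < (walk a S ^ t) x y := by
  have hN : (0 : ℝ) < Fintype.card G := by exact_mod_cast Fintype.card_pos
  refine ⟨400 * r, fun t ht x y => lt_of_lt_of_le ?_ (h.lower a h0 h1 t x y)⟩
  apply div_pos _ hN
  have h2 := h.lo' h1
  have h3 := h.hi' hr h0
  have hr' : (11 : ℝ) ≤ r := by exact_mod_cast hr
  have h4 : 0 < (1 - a) * θ := lt_of_lt_of_le (by positivity) h2
  have h5 := one_sub_pow_le h4.le (by linarith) t
  have h6 : (400 * r : ℝ) ≤ t := by exact_mod_cast ht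
  rw [div_le_iff₀ (by positivity)] at h2
  have h7 : 1 ≤ t * ((1 - a) * θ) := by nlinarith
  have h8 : 1 / (1 + t * ((1 - a) * θ)) ≤ 1 / 2 := one_div_le_one_div_of_le (by norm_num) (by linarith)
  linarith

end cons

open Filter Topology

lemma not_tendsto_one {u : ℕ → ℝ} (h : ∀ n, 3 / 2 ≤ u n) : ¬ Tendsto u atTop (𝓝 1) := by
  intro hu
  have := ge_of_tendsto' hu h
  norm_num at this

lemma tendsto_of_ge {u : ℕ → ℝ} (h : ∀ n : ℕ, ((n + 11 : ℕ) : ℝ) / 8 ≤ u n) :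
    Tendsto u atTop atTop := by
  refine tendsto_atTop_mono h ?_
  apply Tendsto.atTop_div_const (by norm_num)
  exact tendsto_natCast_atTop_atTop.comp (tendsto_add_atTop_nat 11)

lemma card_tendsto {u : ℕ → ℕ} (h : ∀ n, n + 11 ≤ u n) : Tendsto u atTop atTop :=
  tendsto_atTop_mono h (tendsto_add_atTop_nat 11)

end Pool.Agent.H44.Pak
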