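import Pool.Agent.H44.Pak3

open Finset Matrix

namespace Pool.Agent.H44.Pak

variable {G : Type} [Fintype G] [DecidableEq G] [AddCommGroup G] {r : ℕ} {S : Finset G} {θ : ℝ}

omit [Fintype G] in
lemma lazyCayley_eq (S : Finset G) : lazyCayley S = walk (1 / 2) S := by
  ext x y
  rw [walk_apply]
  simp only [lazyCayley, unif]
  split_ifs <;> norm_num

lemma mem_closure_of_pow (a : ℝ) (S : Finset G) (t : ℕ) (x y : G) (h : (walk a S ^ t) x y ≠ 0) :
    y - x ∈ AddSubgroup.closure (S : Set G) := by
  induction t generalizing y with
  | zero =>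
    by_cases e : x = y
    · subst e; simp
    · simp [e] at h
  | succ t ih =>
    rw [pow_succ, mul_apply] at h
    obtain ⟨z, -, hz⟩ := exists_ne_zero_of_sum_ne_zero h
    have h1 := ih z (left_ne_zero_of_mul hz)
    have h2 := right_ne_zero_of_mul hz
    have : y - z ∈ AddSubgroup.closure (S : Set G) := by
      by_cases e : z = y
      · subst e; simp
      · apply AddSubgroup.subset_closure
        by_contra hc
        apply h2
        rw [walk_apply, if_neg e, unif, if_neg (by simpa using hc)]; simp
    have e : y - x = (y - z) + (z - x) := by abel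
    rw [e]; exact add_mem this h1

theorem Good.closure (h : Good r S θ) (hr : 11 ≤ r) : AddSubgroup.closure (S : Set G) = ⊤ := by
  obtain ⟨t, ht⟩ := h.pow_pos hr (a := 0) le_rfl (by norm_num)
  rw [eq_top_iff]
  intro g _
  simpa using mem_closure_of_pow 0 S t 0 g (ht t le_rfl 0 g).ne'

lemma Good.adj (h : Good r S θ) (x y : G) :
    (SimpleGraph.circulantGraph (S : Set G)).Adj x y ↔ y - x ∈ S := by
  simp only [SimpleGraph.circulantGraph, SimpleGraph.fromRel_adj, mem_coe]
  constructor
  · rintro ⟨-, h1 | h1⟩
    · simpa using h.symm _ h1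
    · exact h1
  · intro h1
    refine ⟨?_, Or.inr h1⟩
    rintro rfl
    exact h.zero (by simpa using h1)

lemma Good.degree (h : Good r S θ) (x : G)
    [Fintype ((SimpleGraph.circulantGraph (S : Set G)).neighborSet x)] :
    (SimpleGraph.circulantGraph (S : Set G)).degree x = S.card := by
  rw [← SimpleGraph.card_neighborFinset_eq_degree]
  refine card_bij (fun y _ => y - x) ?_ ?_ ?_
  · intro y hy; rw [SimpleGraph.mem_neighborFinset] at hy; exact (h.adj x y).1 hy
  · intro y _ z _ e; simpa using e
  · intro s hs
    refine ⟨s + x, ?_, by simp⟩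
    rw [SimpleGraph.mem_neighborFinset, h.adj]; simpa using hs

lemma Good.srw_eq (h : Good r S θ) : srw (SimpleGraph.circulantGraph (S : Set G)) = walk 0 S := by
  ext x y
  rw [walk_apply]
  simp only [srw, unif, h.adj, h.degree]
  split_ifs <;> norm_num

lemma Good.lazySrw_eq (h : Good r S θ) :
    lazySrw (SimpleGraph.circulantGraph (S : Set G)) = walk (1 / 2) S := by
  rw [lazySrw, h.srw_eq]
  simp only [walk, smul_add]
  norm_num

lemma Good.connected (h : Good r S θ) (hr : 11 ≤ r) :
    (SimpleGraph.circulantGraph (S : Set G)).Connected := by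
  have key : ∀ g ∈ AddSubgroup.closure (S : Set G), ∀ x,
      (SimpleGraph.circulantGraph (S : Set G)).Reachable x (x + g) := by
    intro g hg
    induction hg using AddSubgroup.closure_induction with
    | mem g hg => intro x; exact ((h.adj x (x + g)).2 (by simpa using hg)).reachable
    | zero => intro x; simp
    | add a b _ _ ha hb => intro x; rw [← add_assoc]; exact (ha x).trans (hb _)
    | neg a _ ha => intro x; have := (ha (x + -a)).symm; simpa using this
  refine ⟨fun x y => ?_⟩
  have := key (y - x) (by rw [h.closure hr]; trivial) x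
  simpa using this

omit [Fintype G] [DecidableEq G] in
lemma circ_transitive (S : Set G) : VertexTransitive (SimpleGraph.circulantGraph S) := by
  intro x y
  refine ⟨⟨Equiv.addRight (y - x), ?_⟩, by simp⟩
  intro a b
  simp [SimpleGraph.circulantGraph, SimpleGraph.fromRel_adj]

omit [AddCommGroup G] [DecidableEq G] in
lemma div_trel (P : Matrix G G ℝ) (u : ℝ) : u / trel P = u * (1 - lam2 P) := by
  rw [trel, div_div_eq_mul_div, div_one]

end Pool.Agent.H44.Pak
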