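import Pool.Agent.H44.PakDefs

/-! Continuous-time simple random walk on a finite graph, typical starting point. -/

open Finset

namespace Pool.Agent.H44.Pak

variable {V : Type} [Fintype V] [DecidableEq V]

/-- law at time `t` of the chain that makes a `P`-step at the rings of a rate-one Poisson clock -/
noncomputable def heat (P : Matrix V V ℝ) (t : ℝ) : Matrix V V ℝ :=
  fun x y => ∑' k : ℕ, Real.exp (-t) * t ^ k / (k.factorial : ℝ) * (P ^ k) x y

open Classical in
/-- the stationary law `deg x / (2 |E|)` -/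
noncomputable def degLaw (Γ : SimpleGraph V) (x : V) : ℝ :=
  (Γ.degree x : ℝ) / (2 * (Γ.edgeFinset.card : ℝ))

/-- `d_x(t)` -/
noncomputable def distFrom (Γ : SimpleGraph V) (x : V) (t : ℝ) : ℝ :=
  (1 / 2) * ∑ y, |heat (srw Γ) t x y - degLaw Γ y|

/-- `τ_x` -/
noncomputable def tauFrom (Γ : SimpleGraph V) (x : V) : ℝ :=
  sInf {t | 0 ≤ t ∧ distFrom Γ x t ≤ 1 / 4}

open Classical in
/-- stationary mass of a set of vertices -/
noncomputable def mass (Γ : SimpleGraph V) (A : Set V) : ℝ :=
  ∑ x, if x ∈ A then degLaw Γ x else 0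

/-- `m` is a median of `τ_x` for `x` drawn from the stationary law -/
def IsMedian (Γ : SimpleGraph V) (m : ℝ) : Prop :=
  1 / 2 ≤ mass Γ {x | tauFrom Γ x ≤ m} ∧ 1 / 2 ≤ mass Γ {x | m ≤ tauFrom Γ x}

/-- spectral gap of the generator `P - I`: one minus the largest eigenvalue of `P` having an
eigenvector orthogonal to the constants in `L²(π)` -/
noncomputable def gapOf (Γ : SimpleGraph V) : ℝ :=
  1 - sSup {l | ∃ f : V → ℝ, f ≠ 0 ∧ ∑ x, degLaw Γ x * f x = 0 ∧ (srw Γ).mulVec f = l • f}

end Pool.Agent.H44.Pak
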