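import Pool.Agent.H44.Pak4
import Pool.Agent.H44.PakDefs2

open Finset Matrix

namespace Pool.Agent.H44.Pak

noncomputable def poi (t : ℝ) (k : ℕ) : ℝ := Real.exp (-t) * t ^ k / (k.factorial : ℝ)

lemma poi_nonneg {t : ℝ} (ht : 0 ≤ t) (k : ℕ) : 0 ≤ poi t k := by unfold poi; positivity

lemma hasSum_poi_pow (t x : ℝ) : HasSum (fun k => poi t k * x ^ k) (Real.exp (-(t * (1 - x)))) := by
  have h := (NormedSpace.expSeries_div_hasSum_exp (t * x)).mul_left (Real.exp (-t))
  rw [← Real.exp_eq_exp_ℝ, ← Real.exp_add] at h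
  have e : -t + t * x = -(t * (1 - x)) := by ring
  rw [e] at h
  refine h.congr_fun fun k => ?_
  rw [poi, mul_pow]; ring

lemma hasSum_poi (t : ℝ) : HasSum (poi t) 1 := by
  simpa using hasSum_poi_pow t 1

lemma hasSum_poi_mean (t : ℝ) : HasSum (fun k => poi t k * k) t := by
  rw [← hasSum_nat_add_iff' 1]
  simp only [sum_range_one, Nat.cast_zero, mul_zero, sub_zero]
  have h := (hasSum_poi t).mul_left t
  rw [mul_one] at h
  refine h.congr_fun fun k => ?_
  rw [poi, poi, Nat.factorial_succ]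
  push_cast
  field_simp
  ring

section gen
variable {V : Type} [Fintype V] [DecidableEq V]

lemma pow_le_one' {P : Matrix V V ℝ} (h0 : ∀ x y, 0 ≤ P x y) (h1 : ∀ x, ∑ y, P x y = 1) (k : ℕ)
    (x y : V) : (P ^ k) x y ≤ 1 := by
  rw [← pow_row h1 k x]
  exact single_le_sum (f := fun y => (P ^ k) x y) (fun y _ => pow_nonneg' h0 k x y) (mem_univ y)

lemma hasSum_heat {P : Matrix V V ℝ} (h0 : ∀ x y, 0 ≤ P x y) (h1 : ∀ x, ∑ y, P x y = 1) {t : ℝ}
    (ht : 0 ≤ t) (x y : V) : HasSum (fun k => poi t k * (P ^ k) x y) (heat P t x y) := by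
  apply Summable.hasSum
  refine Summable.of_nonneg_of_le (fun k => mul_nonneg (poi_nonneg ht k) (pow_nonneg' h0 k x y))
    (fun k => ?_) (hasSum_poi t).summable
  exact mul_le_of_le_one_right (poi_nonneg ht k) (pow_le_one' h0 h1 k x y)

lemma hasSum_heat_test {P : Matrix V V ℝ} (h0 : ∀ x y, 0 ≤ P x y) (h1 : ∀ x, ∑ y, P x y = 1)
    {t : ℝ} (ht : 0 ≤ t) (x : V) (f : V → ℝ) :
    HasSum (fun k => poi t k * ∑ y, (P ^ k) x y * f y) (∑ y, heat P t x y * f y) := by
  have := hasSum_sum (s := univ) fun y _ => (hasSum_heat h0 h1 ht x y).mul_right (f y)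
  refine this.congr_fun fun k => ?_
  rw [mul_sum]; simp only [mul_assoc]

lemma heat_row {P : Matrix V V ℝ} (h0 : ∀ x y, 0 ≤ P x y) (h1 : ∀ x, ∑ y, P x y = 1)
    {t : ℝ} (ht : 0 ≤ t) (x : V) : ∑ y, heat P t x y = 1 := by
  have := hasSum_heat_test h0 h1 ht x (fun _ => 1)
  simp only [mul_one, pow_row h1] at this
  exact this.unique (hasSum_poi t)

end gen

variable {G : Type} [Fintype G] [DecidableEq G] [AddCommGroup G] {r : ℕ} {S : Finset G} {θ : ℝ}

lemma walk_pow_shift (a : ℝ) (S : Finset G) (g : G) (k : ℕ) (x y : G) :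
    (walk a S ^ k) (x + g) (y + g) = (walk a S ^ k) x y := by
  induction k generalizing y with
  | zero => simp [Matrix.one_apply]
  | succ k ih =>
    rw [pow_succ, mul_apply, mul_apply, ← Equiv.sum_comp (Equiv.addRight g)]
    refine sum_congr rfl fun z _ => ?_
    simp only [Equiv.coe_addRight, ih, walk_apply, unif, add_left_inj, add_sub_add_right_eq_sub]

lemma Good.card_edge (h : Good r S θ)
    [i : Fintype (SimpleGraph.circulantGraph (S : Set G)).edgeSet] :
    2 * (SimpleGraph.circulantGraph (S : Set G)).edgeFinset.card = Fintype.card G * S.card := by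
  classical
  have h1 := SimpleGraph.sum_degrees_eq_twice_card_edges (SimpleGraph.circulantGraph (S : Set G))
  simp only [h.degree, sum_const, card_univ, smul_eq_mul] at h1
  rw [h1]
  simp only [SimpleGraph.edgeFinset_card, Fintype.card_eq_nat_card]

lemma Good.degLaw_eq (h : Good r S θ) (x : G) :
    degLaw (SimpleGraph.circulantGraph (S : Set G)) x = 1 / Fintype.card G := by
  have hS : (S.card : ℝ) ≠ 0 := by exact_mod_cast h.ne.card_pos.ne'
  have hN : (Fintype.card G : ℝ) ≠ 0 := by exact_mod_cast Fintype.card_ne_zero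
  have h2 : ∀ i : Fintype (SimpleGraph.circulantGraph (S : Set G)).edgeSet,
      (2 * ((SimpleGraph.circulantGraph (S : Set G)).edgeFinset.card : ℝ)) =
      Fintype.card G * S.card := fun i => by exact_mod_cast h.card_edge
  unfold degLaw
  rw [h.degree, h2]
  field_simp

lemma Good.dist_eq (h : Good r S θ) (x : G) (t : ℝ) :
    distFrom (SimpleGraph.circulantGraph (S : Set G)) x t =
      (1 / 2) * ∑ y, |heat (walk 0 S) t x y - 1 / (Fintype.card G : ℝ)| := by
  simp only [distFrom, h.srw_eq, h.degLaw_eq]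

lemma Good.dist_shift (h : Good r S θ) (x : G) (t : ℝ) :
    distFrom (SimpleGraph.circulantGraph (S : Set G)) x t =
      distFrom (SimpleGraph.circulantGraph (S : Set G)) 0 t := by
  rw [h.dist_eq, h.dist_eq, ← Equiv.sum_comp (Equiv.addRight x)]
  congr 1
  refine sum_congr rfl fun y _ => ?_
  have := fun k => walk_pow_shift 0 S x k 0 y
  simp only [zero_add] at this
  simp only [Equiv.coe_addRight, heat, this]

lemma Good.tau_shift (h : Good r S θ) (x : G) :
    tauFrom (SimpleGraph.circulantGraph (S : Set G)) x =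
      tauFrom (SimpleGraph.circulantGraph (S : Set G)) 0 := by
  simp only [tauFrom, h.dist_shift x]

lemma Good.mass_univ (h : Good r S θ) :
    mass (SimpleGraph.circulantGraph (S : Set G)) Set.univ = 1 := by
  have hN : (Fintype.card G : ℝ) ≠ 0 := by exact_mod_cast Fintype.card_ne_zero
  simp only [mass, Set.mem_univ, if_true, h.degLaw_eq, sum_const, card_univ, nsmul_eq_mul]
  field_simp

lemma Good.isMedian (h : Good r S θ) : IsMedian (SimpleGraph.circulantGraph (S : Set G))
    (tauFrom (SimpleGraph.circulantGraph (S : Set G)) 0) := by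
  have e1 : {x | tauFrom (SimpleGraph.circulantGraph (S : Set G)) x ≤
      tauFrom (SimpleGraph.circulantGraph (S : Set G)) 0} = Set.univ :=
    Set.eq_univ_of_forall fun x => (h.tau_shift x).le
  have e2 : {x | tauFrom (SimpleGraph.circulantGraph (S : Set G)) 0 ≤
      tauFrom (SimpleGraph.circulantGraph (S : Set G)) x} = Set.univ :=
    Set.eq_univ_of_forall fun x => (h.tau_shift x).ge
  rw [IsMedian, e1, e2, h.mass_univ]; norm_num

lemma Good.dist_le (h : Good r S θ) (x : G) {t : ℝ} (ht : 0 ≤ t) :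
    distFrom (SimpleGraph.circulantGraph (S : Set G)) x t ≤ 21 / 20 * Real.exp (-(t * θ)) := by
  have w0 := walk_nonneg le_rfl zero_le_one S
  have w1 := walk_row 0 h.ne
  rw [h.dist_eq]
  refine tv_le_of_lower (heat_row w0 w1 ht x) (by positivity) fun y => ?_
  have a1 := ((hasSum_poi t).sub ((hasSum_poi_pow t (1 - θ)).mul_left (21 / 20))).div_const
    (Fintype.card G : ℝ)
  rw [sub_sub_cancel] at a1
  refine hasSum_le (fun k => ?_) a1 (hasSum_heat w0 w1 ht x y)
  have := mul_le_mul_of_nonneg_left (h.lower 0 le_rfl (by norm_num) k x y) (poi_nonneg ht k)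
  refine le_trans (le_of_eq ?_) this
  simp only [sub_zero, one_mul]; ring

lemma Good.dist_ge (h : Good r S θ) (hr : 11 ≤ r) (x : G) {t : ℝ} (ht : 0 ≤ t) :
    98 / 100 - t * (θ + 1 / (400 * r)) ≤ distFrom (SimpleGraph.circulantGraph (S : Set G)) x t := by
  have w0 := walk_nonneg le_rfl zero_le_one S
  have w1 := walk_row 0 h.ne
  have hr' : (11 : ℝ) ≤ r := by exact_mod_cast hr
  have hθ := h.pos
  obtain ⟨φ, p0, p1, p2, p3⟩ := h.test x
  have a0 := tv_ge_of_test (heat_row w0 w1 ht x) p0 p1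
  have a1 := ((hasSum_poi t).mul_right (1 / 100)).add
    ((hasSum_poi_mean t).mul_right (θ + 1 / (400 * r)))
  have a2 : ∑ y, heat (walk 0 S) t x y * φ y ≤ 1 * (1 / 100) + t * (θ + 1 / (400 * r)) := by
    refine hasSum_le (fun k => ?_) (hasSum_heat_test w0 w1 ht x φ) a1
    have b : ∑ y, (walk 0 S ^ k) x y * φ y ≤ 1 / 100 + k * (θ + 1 / (400 * r)) := by
      have c0 : (0 : ℝ) ≤ k * (1 / (400 * r)) := by positivity
      have c1 : (0 : ℝ) ≤ k * θ := by positivity
      by_cases hk : k ≤ 400 * r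
      · have := p3 0 le_rfl zero_le_one k hk
        simp only [sub_zero, one_mul] at this
        linarith
      · have c2 : (400 * r : ℝ) ≤ k := by exact_mod_cast (not_le.1 hk).le
        have c3 : (1 : ℝ) ≤ k * (1 / (400 * r)) := by
          rw [mul_one_div, le_div_iff₀ (by positivity)]; linarith
        have c4 : ∑ y, (walk 0 S ^ k) x y * φ y ≤ ∑ y, (walk 0 S ^ k) x y :=
          sum_le_sum fun y _ => mul_le_of_le_one_right (pow_nonneg' w0 k x y) (p1 y)
        rw [pow_row w1] at c4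
        linarith
    have := mul_le_mul_of_nonneg_left b (poi_nonneg ht k)
    linarith
  rw [h.dist_eq]; linarith

lemma Good.reach (h : Good r S θ) (x : G) :
    ∃ t, 0 ≤ t ∧ distFrom (SimpleGraph.circulantGraph (S : Set G)) x t ≤ 1 / 4 := by
  have hθ := h.pos
  refine ⟨4 / θ, by positivity, (h.dist_le x (by positivity)).trans ?_⟩
  have e : 4 / θ * θ = 4 := by field_simp
  rw [e, Real.exp_neg]
  have := Real.add_one_le_exp (4 : ℝ)
  have h2 : (Real.exp 4)⁻¹ ≤ 5⁻¹ := inv_anti₀ (by norm_num) (by linarith)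
  linarith

lemma Good.tau_ge (h : Good r S θ) (hr : 11 ≤ r) (x : G) :
    7 / 10 / θ ≤ tauFrom (SimpleGraph.circulantGraph (S : Set G)) x := by
  have hθ := h.pos
  have hr' : (11 : ℝ) ≤ r := by exact_mod_cast hr
  refine le_csInf (h.reach x) ?_
  rintro t ⟨ht, hd⟩
  have a := h.dist_ge hr x ht
  have lo := h.lo
  rw [div_le_iff₀ (by positivity)] at lo
  have b : 1 / (400 * (r : ℝ)) ≤ θ / 50 := by
    rw [div_le_iff₀ (by positivity)]; nlinarith
  rw [div_le_iff₀ hθ]
  nlinarith

lemma Good.gap_ge (h : Good r S θ) : 1 / 4 ≤ gapOf (SimpleGraph.circulantGraph (S : Set G)) := by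
  have hN : (Fintype.card G : ℝ) ≠ 0 := by exact_mod_cast Fintype.card_ne_zero
  have : sSup {l : ℝ | ∃ f : G → ℝ, f ≠ 0 ∧
      ∑ x, degLaw (SimpleGraph.circulantGraph (S : Set G)) x * f x = 0 ∧
      (srw (SimpleGraph.circulantGraph (S : Set G))).mulVec f = l • f} ≤ 3 / 4 := by
    refine Real.sSup_le ?_ (by norm_num)
    rintro l ⟨f, hf, hs, he⟩
    rw [h.srw_eq] at he
    simp only [h.degLaw_eq, ← mul_sum] at hs
    have := h.eig 0 zero_le_one l f hf (by simpa [hN] using hs) he
    linarith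
  rw [gapOf]; linarith

lemma Good.prod_cont (h : Good r S θ) (hr : 11 ≤ r) :
    (r : ℝ) / 8 ≤ tauFrom (SimpleGraph.circulantGraph (S : Set G)) 0 /
      (1 / gapOf (SimpleGraph.circulantGraph (S : Set G))) := by
  have hθ := h.pos
  have hr' : (11 : ℝ) ≤ r := by exact_mod_cast hr
  have a := h.tau_ge hr 0
  have b := h.gap_ge
  have c := h.hi
  rw [le_div_iff₀ (by positivity)] at c
  have d : (r : ℝ) ≤ 7 / 10 / θ := by rw [le_div_iff₀ hθ]; nlinarith
  rw [div_div_eq_mul_div, div_one]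
  nlinarith

lemma Good.mass_zero (h : Good r S θ) (hr : 11 ≤ r) :
    mass (SimpleGraph.circulantGraph (S : Set G))
      {x | 1 - 1 / 4 < distFrom (SimpleGraph.circulantGraph (S : Set G)) x
        ((1 - 1 / 4) * tauFrom (SimpleGraph.circulantGraph (S : Set G)) 0)} = 0 := by
  have hθ := h.pos
  have a := h.tau_ge hr 0
  rw [div_le_iff₀ hθ] at a
  have h0 : 0 ≤ tauFrom (SimpleGraph.circulantGraph (S : Set G)) 0 := by
    by_contra hc; push Not at hc; nlinarith
  refine sum_eq_zero fun x _ => if_neg ?_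
  rw [Set.mem_ofPred_eq, not_lt]
  refine (h.dist_le x (by positivity)).trans ?_
  rw [Real.exp_neg]
  set u := (1 - 1 / 4) * tauFrom (SimpleGraph.circulantGraph (S : Set G)) 0 * θ with hu
  have h1 : 1 / 2 ≤ u := by rw [hu]; nlinarith
  have := Real.add_one_le_exp u
  have h2 : (Real.exp u)⁻¹ ≤ (3 / 2)⁻¹ := inv_anti₀ (by norm_num) (by linarith)
  linarith

end Pool.Agent.H44.Pak
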