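import Pool.Agent.H44.PakDefs

namespace Pool.Agent.H44.Pak

/-- simple random walk on the Cayley multigraph with one edge `{g, g z}` for each `g` and each
`z ∈ Z`: from `x` there are `2 |Z|` edge ends, leading to the `x z` and the `x z⁻¹` -/
noncomputable def multiSrw {G : Type} [Group G] [DecidableEq G] (Z : Finset G) : Matrix G G ℝ :=
  fun x y => ((if x⁻¹ * y ∈ Z then 1 else 0) + (if y⁻¹ * x ∈ Z then 1 else 0)) / (2 * (Z.card : ℝ))

end Pool.Agent.H44.Pak
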