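import Pool.Agent.H44.Pak4
import Pool.Agent.H44.PakDefs3

open Finset Matrix

namespace Pool.Agent.H44.Pak

/-- the additive group written multiplicatively, on the same carrier -/
@[reducible] def mulGrp (G : Type) [AddCommGroup G] : CommGroup G :=
  inferInstanceAs (CommGroup (Multiplicative G))

variable {G : Type} [Fintype G] [DecidableEq G] [AddCommGroup G] {r : ℕ} {S : Finset G} {θ : ℝ}

lemma Good.multiSrw_eq (h : Good r S θ) : @multiSrw G (mulGrp G).toGroup _ S = walk 0 S := by
  ext x y
  rw [walk_apply]
  change ((if -x + y ∈ S then 1 else 0) + (if -y + x ∈ S then 1 else 0)) / (2 * (S.card : ℝ)) = _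
  have e : -y + x ∈ S ↔ y - x ∈ S := by
    constructor
    · intro h1; have := h.symm _ h1; rwa [neg_add_rev, neg_neg, neg_add_eq_sub] at this
    · intro h1; have := h.symm _ h1; rwa [neg_sub, ← neg_add_eq_sub] at this
  rw [neg_add_eq_sub]
  simp only [e, unif]
  split_ifs <;> ring

end Pool.Agent.H44.Pak
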