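import Mathlib

/-! Mixing quantities of finite Markov chains with uniform stationary law. -/

open Finset

namespace Pool.Agent.H44.Pak

variable {V : Type} [Fintype V] [DecidableEq V]

/-- worst-start total variation distance to the uniform law after `t` steps -/
noncomputable def tvDist (P : Matrix V V ℝ) (t : ℕ) : ℝ :=
  ⨆ x, (1 / 2) * ∑ y, |(P ^ t) x y - 1 / (Fintype.card V : ℝ)|

/-- total variation mixing time -/
noncomputable def tmix (P : Matrix V V ℝ) (ε : ℝ) : ℕ := sInf {t | tvDist P t ≤ ε}

/-- worst-start separation distance to the uniform law after `t` steps -/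
noncomputable def sepDist (P : Matrix V V ℝ) (t : ℕ) : ℝ :=
  ⨆ x, ⨆ y, (1 - (P ^ t) x y / (1 / (Fintype.card V : ℝ)))

/-- separation mixing time -/
noncomputable def tsep (P : Matrix V V ℝ) (ε : ℝ) : ℕ := sInf {t | sepDist P t ≤ ε}

/-- second largest eigenvalue of an irreducible symmetric stochastic matrix: the largest
eigenvalue having an eigenvector orthogonal to the constants -/
noncomputable def lam2 (P : Matrix V V ℝ) : ℝ :=
  sSup {l | ∃ f : V → ℝ, f ≠ 0 ∧ ∑ x, f x = 0 ∧ P.mulVec f = l • f}

/-- relaxation time -/
noncomputable def trel (P : Matrix V V ℝ) : ℝ := 1 / (1 - lam2 P)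

/-- lazy simple random walk on the Cayley graph of an abelian group: stay with probability `1/2`,
otherwise add a uniform element of `S` -/
noncomputable def lazyCayley {G : Type} [AddCommGroup G] [DecidableEq G] (S : Finset G) :
    Matrix G G ℝ :=
  fun x y => (if x = y then 1 / 2 else 0) + (if y - x ∈ S then 1 / 2 * (1 / (S.card : ℝ)) else 0)

open Classical in
/-- simple random walk on a graph: move to a uniform neighbour -/
noncomputable def srw (Γ : SimpleGraph V) : Matrix V V ℝ :=
  fun x y => if Γ.Adj x y then 1 / (Γ.degree x : ℝ) else 0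

/-- lazy simple random walk on a graph, `(I + D⁻¹ A) / 2` -/
noncomputable def lazySrw (Γ : SimpleGraph V) : Matrix V V ℝ := (1 / 2 : ℝ) • (1 + srw Γ)

/-- the automorphism group acts transitively on the vertices -/
def VertexTransitive (Γ : SimpleGraph V) : Prop := ∀ x y, ∃ φ : Γ ≃g Γ, φ x = y

end Pool.Agent.H44.Pak
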