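import Mathlib

/-! Peierls estimate for the planar Ising model, via closed cochains. -/

open Finset
open scoped symmDiff

namespace Pool.Agent.H44.Pei

abbrev St : Type := ℤ × ℤ
abbrev Ed : Type := St × Bool

/-- the other endpoint: `false` horizontal, `true` vertical -/
def oth (e : Ed) : St := if e.2 then (e.1.1, e.1.2 + 1) else (e.1.1 + 1, e.1.2)

def bk (e : Ed) : St := if e.2 then (e.1.1, e.1.2 - 1) else (e.1.1 - 1, e.1.2)

lemma oth_bk (i : St) (d : Bool) : oth (bk (i, d), d) = i := by cases d <;> simp [oth, bk]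
lemma bk_oth (i : St) (d : Bool) : bk (oth (i, d), d) = i := by cases d <;> simp [oth, bk]

/-- disagreeing edges -/
def DD (X : Finset St) : Finset Ed :=
  (X ×ˢ univ ∪ (X ×ˢ univ).image fun e => (bk e, e.2)).filter fun e => ¬ (e.1 ∈ X ↔ oth e ∈ X)

lemma mem_DD {X : Finset St} {e : Ed} : e ∈ DD X ↔ ¬ (e.1 ∈ X ↔ oth e ∈ X) := by
  rw [DD, mem_filter, and_iff_right_iff_imp]
  intro h
  by_cases h1 : e.1 ∈ X
  · exact mem_union_left _ (by simp [h1])
  · have h2 : oth e ∈ X := by tauto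
    exact mem_union_right _ (mem_image.2 ⟨(oth e, e.2), by simp [h2], by
      obtain ⟨i, d⟩ := e; simp [bk_oth]⟩)

def ch (p : Prop) [Decidable p] : ZMod 2 := if p then 1 else 0

lemma ch_DD (X : Finset St) (e : Ed) : ch (e ∈ DD X) = ch (e.1 ∈ X) + ch (oth e ∈ X) := by
  simp only [ch, mem_DD]
  by_cases h1 : e.1 ∈ X <;> by_cases h2 : oth e ∈ X <;> simp [h1, h2]; rfl

def Closed (γ : Finset Ed) : Prop := ∀ x y : ℤ,
  ch (((x, y), false) ∈ γ) + ch (((x, y + 1), false) ∈ γ) =
    ch (((x, y), true) ∈ γ) + ch (((x + 1, y), true) ∈ γ)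

lemma two_eq (a : ZMod 2) : a + a = 0 := by revert a; decide

lemma closed_DD (X : Finset St) : Closed (DD X) := by
  intro x y
  simp only [ch_DD, oth]
  simp only [Bool.false_eq_true, if_false, if_true]
  generalize ch ((x, y) ∈ X) = a
  generalize ch ((x + 1, y) ∈ X) = b
  generalize ch ((x, y + 1) ∈ X) = c
  generalize ch ((x + 1, y + 1) ∈ X) = d
  ring

/-- parity of the crossings of the right ray from `i` -/
def tau (γ : Finset Ed) (i : St) : ZMod 2 :=
  ∑ e ∈ γ, ch (e.2 = false ∧ e.1.2 = i.2 ∧ i.1 ≤ e.1.1)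

lemma ch_mem_eq (γ : Finset Ed) (a : Ed) : ch (a ∈ γ) = ∑ e ∈ γ, ch (e = a) := by
  simp [ch]

lemma tau_step (γ : Finset Ed) (x y : ℤ) :
    tau γ (x, y) = ch (((x, y), false) ∈ γ) + tau γ (x + 1, y) := by
  rw [ch_mem_eq, tau, tau, ← sum_add_distrib]
  refine sum_congr rfl fun e _ => ?_
  obtain ⟨⟨a, b⟩, d⟩ := e
  simp only [ch, Prod.mk.injEq]
  split_ifs <;> first | rfl | (exfalso; omega) | (exfalso; simp_all; done) | (exfalso; simp_all; omega)

lemma exists_bound (γ : Finset Ed) : ∃ R : ℤ, ∀ e ∈ γ, |e.1.1| < R ∧ |e.1.2| < R := by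
  refine ⟨(γ.sup fun e => e.1.1.natAbs + e.1.2.natAbs : ℕ) + 1, fun e he => ?_⟩
  have := le_sup (f := fun e : Ed => e.1.1.natAbs + e.1.2.natAbs) he
  simp only [Int.abs_eq_natAbs]
  constructor <;> omega

lemma tau_far {γ : Finset Ed} {i : St} (h : ∀ e ∈ γ, e.1.2 ≠ i.2 ∨ e.1.1 < i.1) : tau γ i = 0 :=
  sum_eq_zero fun e he => if_neg fun hh => by have := h e he; omega

lemma tau_vert {γ : Finset Ed} (hγ : Closed γ) (x y : ℤ) :
    tau γ (x, y) = ch (((x, y), true) ∈ γ) + tau γ (x, y + 1) := by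
  obtain ⟨R, hR⟩ := exists_bound γ
  have key : ∀ x' ≤ max x R, tau γ (x', y) = ch (((x', y), true) ∈ γ) + tau γ (x', y + 1) := by
    intro x' hx'
    induction x', hx' using Int.leInductionDown with
    | base =>
      have f : ∀ y', tau γ (max x R, y') = 0 := fun y' => tau_far fun e he => Or.inr (by
        have := (abs_lt.1 (hR e he).1).2
        exact lt_of_lt_of_le this (le_max_right _ _))
      rw [f, f, add_zero, ch, if_neg]
      intro he
      have := (abs_lt.1 (hR _ he).1).2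
      exact absurd (lt_of_lt_of_le this (le_max_right x R)) (lt_irrefl _)
    | pred n _ ih =>
      have h := hγ (n - 1) y
      rw [tau_step γ (n - 1) y, tau_step γ (n - 1) (y + 1)]
      rw [sub_add_cancel] at h ⊢
      rw [ih]
      generalize ch (((n - 1, y), false) ∈ γ) = a at *
      generalize ch (((n - 1, y + 1), false) ∈ γ) = b at *
      generalize ch (((n - 1, y), true) ∈ γ) = c at *
      generalize ch (((n, y), true) ∈ γ) = d at *
      have := two_eq b; have := two_eq d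
      linear_combination h - two_eq b + two_eq d
  exact key x (le_max_left _ _)

lemma tau_oth {γ : Finset Ed} (hγ : Closed γ) (e : Ed) :
    tau γ e.1 = ch (e ∈ γ) + tau γ (oth e) := by
  obtain ⟨⟨x, y⟩, d⟩ := e
  cases d
  · exact tau_step γ x y
  · exact tau_vert hγ x y

lemma tau_left {γ : Finset Ed} (hγ : Closed γ) : ∃ R : ℤ, ∀ x y, x ≤ -R → tau γ (x, y) = 0 := by
  obtain ⟨R, hR⟩ := exists_bound γ
  refine ⟨R, fun x y hx => ?_⟩
  have key : ∀ y' ≤ max y R, tau γ (x, y') = 0 := by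
    intro y' hy'
    induction y', hy' using Int.leInductionDown with
    | base => exact tau_far fun e he => Or.inl (by
        have := (abs_lt.1 (hR e he).2).2
        exact (lt_of_lt_of_le this (le_max_right _ _)).ne)
    | pred n _ ih =>
      rw [tau_vert hγ, sub_add_cancel, ih, add_zero, ch, if_neg]
      intro he
      have := (abs_lt.1 (hR _ he).1).1
      simp only at this; omega
  exact key y (le_max_left _ _)

lemma right_edge {γ : Finset Ed} {i : St} (h : tau γ i ≠ 0) :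
    ∃ x, i.1 ≤ x ∧ ((x, i.2), false) ∈ γ := by
  obtain ⟨⟨⟨a, b⟩, d⟩, he, h1⟩ := exists_ne_zero_of_sum_ne_zero h
  have h2 : d = false ∧ b = i.2 ∧ i.1 ≤ a := by
    by_contra hc; exact h1 (if_neg hc)
  obtain ⟨rfl, rfl, h3⟩ := h2
  exact ⟨a, h3, he⟩

lemma left_edge {γ : Finset Ed} (hγ : Closed γ) {i : St} (h : tau γ i ≠ 0) :
    ∃ x, x < i.1 ∧ ((x, i.2), false) ∈ γ := by
  by_contra hc
  push Not at hc
  obtain ⟨R, hR⟩ := tau_left hγ
  have key : ∀ x ≤ i.1, tau γ (x, i.2) = tau γ i := by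
    intro x hx
    induction x, hx using Int.leInductionDown with
    | base => rfl
    | pred n hn ih => rw [tau_step, sub_add_cancel, ih, ch, if_neg (hc _ (by omega)), zero_add]
  exact h ((key (min i.1 (-R)) (min_le_left _ _)).symm.trans (hR _ _ (min_le_right _ _)))

lemma tau_DD (X : Finset St) (i : St) : tau (DD X) i = ch (i ∈ X) := by
  obtain ⟨x, y⟩ := i
  obtain ⟨R, hR⟩ := exists_bound (DD X)
  obtain ⟨R', hR'⟩ := exists_bound (X ×ˢ univ)
  have key : ∀ x' ≤ max x (max R R'), tau (DD X) (x', y) = ch ((x', y) ∈ X) := by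
    intro x' hx'
    induction x', hx' using Int.leInductionDown with
    | base =>
      rw [tau_far fun e he => Or.inr (by have := (abs_lt.1 (hR e he).1).2; simp only; omega),
        ch, if_neg]
      intro he
      have := (abs_lt.1 (hR' (_, true) (mem_product.2 ⟨he, mem_univ _⟩)).1).2
      simp only at this; omega
    | pred n _ ih =>
      rw [tau_step, ch_DD, sub_add_cancel, ih]
      simp only [oth, Bool.false_eq_true, if_false, sub_add_cancel]
      rw [add_assoc, two_eq, add_zero]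
  exact key x (le_max_left _ _)

noncomputable def box (n : ℕ) : Finset St := Icc (-(n : ℤ)) n ×ˢ Icc (-(n : ℤ)) n

lemma mem_box {n : ℕ} {i : St} : i ∈ box n ↔ (-(n : ℤ) ≤ i.1 ∧ i.1 ≤ n) ∧ -(n : ℤ) ≤ i.2 ∧ i.2 ≤ n := by
  simp [box]

lemma edge_box {n : ℕ} {X : Finset St} (hX : X ⊆ box n) {x y : ℤ} (h : ((x, y), false) ∈ DD X) :
    (-(n : ℤ) - 1 ≤ x ∧ x ≤ n) ∧ -(n : ℤ) ≤ y ∧ y ≤ n := by
  rw [mem_DD] at h
  simp only [oth, Bool.false_eq_true, if_false] at h
  by_cases h1 : (x, y) ∈ X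
  · have := mem_box.1 (hX h1); simp only at this; omega
  · have h2 : (x + 1, y) ∈ X := by tauto
    have := mem_box.1 (hX h2); simp only at this; omega

lemma tau_box {n : ℕ} {X : Finset St} (hX : X ⊆ box n) {γ : Finset Ed} (hγ : Closed γ)
    (hs : γ ⊆ DD X) {i : St} (h : tau γ i ≠ 0) : i ∈ box n := by
  obtain ⟨x, h1, h2⟩ := right_edge h
  obtain ⟨x', h3, h4⟩ := left_edge hγ h
  have a := edge_box hX (hs h2)
  have b := edge_box hX (hs h4)
  rw [mem_box]; omega

noncomputable def flip (n : ℕ) (γ : Finset Ed) (X : Finset St) : Finset St :=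
  X ∆ (box n).filter fun i => tau γ i ≠ 0

lemma flip_subset {n : ℕ} {X : Finset St} (hX : X ⊆ box n) (γ : Finset Ed) : flip n γ X ⊆ box n :=
  symmDiff_subset_union.trans (union_subset hX (filter_subset _ _))

lemma flip_inj (n : ℕ) (γ : Finset Ed) : Function.Injective (flip n γ) :=
  symmDiff_left_injective _

lemma DD_flip {n : ℕ} {X : Finset St} (hX : X ⊆ box n) {γ : Finset Ed} (hγ : Closed γ)
    (hs : γ ⊆ DD X) : DD (flip n γ X) = DD X \ γ := by
  have c : ∀ i, ch (i ∈ flip n γ X) = ch (i ∈ X) + tau γ i := by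
    intro i
    have e : i ∈ flip n γ X ↔ ¬ (i ∈ X ↔ tau γ i ≠ 0) := by
      have := @tau_box n X hX γ hγ hs i
      simp only [flip, mem_symmDiff, mem_filter]; tauto
    simp only [ch, e]
    generalize tau γ i = t
    by_cases h : i ∈ X <;> simp only [h] <;> revert t <;> decide
  ext e
  have h1 : ch (e ∈ DD (flip n γ X)) = ch (e ∈ DD X) + ch (e ∈ γ) := by
    rw [ch_DD, ch_DD, c, c, tau_oth hγ e]
    linear_combination two_eq (tau γ (oth e))
  have h2 := @hs e
  rw [mem_sdiff]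
  unfold ch at h1
  split_ifs at h1 <;> tauto

end Pool.Agent.H44.Pei
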