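import Pool.Agent.H44.Pei1

open Finset

namespace Pool.Agent.H44.Pei

def adj (e e' : Ed) : Prop := |e.1.1 - e'.1.1| ≤ 1 ∧ |e.1.2 - e'.1.2| ≤ 1

lemma adj_symm {e e' : Ed} (h : adj e e') : adj e' e := by
  unfold adj at *; rwa [abs_sub_comm, abs_sub_comm e'.1.2]

def reach (D : Finset Ed) : Ed → Ed → Prop := Relation.ReflTransGen fun e e' => e' ∈ D ∧ adj e e'

lemma reach_symm {D : Finset Ed} {a b : Ed} (ha : a ∈ D) (h : reach D a b) :
    b ∈ D ∧ reach D b a := by
  induction h with
  | refl => exact ⟨ha, .refl⟩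
  | tail _ h2 ih => exact ⟨h2.1, .head ⟨ih.1, adj_symm h2.2⟩ ih.2⟩

open Classical in
noncomputable def comp (D : Finset Ed) (a : Ed) : Finset Ed := D.filter (reach D a)

lemma mem_comp {D : Finset Ed} {a b : Ed} : b ∈ comp D a ↔ b ∈ D ∧ reach D a b := by
  simp [comp]

lemma comp_subset (D : Finset Ed) (a : Ed) : comp D a ⊆ D := fun _ h => (mem_comp.1 h).1

lemma comp_eq {D : Finset Ed} {a b : Ed} (ha : a ∈ D) (h : reach D a b) : comp D b = comp D a := by
  ext c
  simp only [mem_comp, and_congr_right_iff]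
  exact fun _ => ⟨fun h2 => h.trans h2, fun h2 => (reach_symm ha h).2.trans h2⟩

lemma closed_comp {D : Finset Ed} (hD : Closed D) (a : Ed) : Closed (comp D a) := by
  intro x y
  have key : ∀ e e', e ∈ comp D a → adj e e' → (e' ∈ comp D a ↔ e' ∈ D) := fun e e' he h =>
    ⟨fun h2 => comp_subset _ _ h2, fun h2 => mem_comp.2 ⟨h2, (mem_comp.1 he).2.tail ⟨h2, h⟩⟩⟩
  have fin : ∀ e, e ∈ comp D a → x ≤ e.1.1 → e.1.1 ≤ x + 1 → y ≤ e.1.2 → e.1.2 ≤ y + 1 →
      ch (((x, y), false) ∈ comp D a) + ch (((x, y + 1), false) ∈ comp D a) =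
      ch (((x, y), true) ∈ comp D a) + ch (((x + 1, y), true) ∈ comp D a) := by
    intro e he h1 h2 h3 h4
    have k : ∀ e' : Ed, x ≤ e'.1.1 → e'.1.1 ≤ x + 1 → y ≤ e'.1.2 → e'.1.2 ≤ y + 1 →
        ch (e' ∈ comp D a) = ch (e' ∈ D) := fun e' a1 a2 a3 a4 => by
      simp only [ch, key e e' he ⟨abs_le.2 (by omega), abs_le.2 (by omega)⟩]
    rw [k _ (by simp) (by simp) (by simp) (by simp), k _ (by simp) (by simp) (by simp) (by simp),
      k _ (by simp) (by simp) (by simp) (by simp), k _ (by simp) (by simp) (by simp) (by simp)]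
    exact hD x y
  by_cases h1 : ((x, y), false) ∈ comp D a
  · exact fin _ h1 (by simp) (by simp) (by simp) (by simp)
  by_cases h2 : ((x, y + 1), false) ∈ comp D a
  · exact fin _ h2 (by simp) (by simp) (by simp) (by simp)
  by_cases h3 : ((x, y), true) ∈ comp D a
  · exact fin _ h3 (by simp) (by simp) (by simp) (by simp)
  by_cases h4 : ((x + 1, y), true) ∈ comp D a
  · exact fin _ h4 (by simp) (by simp) (by simp) (by simp)
  simp [ch, h1, h2, h3, h4]

lemma exists_comp {D : Finset Ed} {i : St} (h : tau D i ≠ 0) : ∃ a ∈ D, tau (comp D a) i ≠ 0 := by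
  by_contra hc
  push Not at hc
  apply h
  rw [tau, ← sum_fiberwise_of_maps_to (t := D.image (comp D)) (g := comp D)
    fun e he => mem_image_of_mem _ he]
  refine sum_eq_zero fun c hc' => ?_
  obtain ⟨a, ha, rfl⟩ := mem_image.1 hc'
  have : D.filter (fun e => comp D e = comp D a) = comp D a := by
    ext e
    rw [mem_filter, mem_comp, and_congr_right_iff]
    intro he
    refine ⟨fun h2 => ?_, fun h2 => comp_eq ha h2⟩
    have : e ∈ comp D a := h2 ▸ mem_comp.2 ⟨he, .refl⟩
    exact (mem_comp.1 this).2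
  rw [this]; exact hc a ha

abbrev Mv : Type := Bool × Fin 3 × Fin 3

def step (e : Ed) (m : Mv) : Ed := ((e.1.1 + m.2.1 - 1, e.1.2 + m.2.2 - 1), m.1)

lemma exists_step {e e' : Ed} (h : adj e e') : ∃ m, step e m = e' := by
  obtain ⟨⟨a, b⟩, d⟩ := e
  obtain ⟨⟨a', b'⟩, d'⟩ := e'
  obtain ⟨h1, h2⟩ := h
  simp only [abs_le] at h1 h2
  refine ⟨(d', ⟨(a' - a + 1).toNat, by omega⟩, ⟨(b' - b + 1).toNat, by omega⟩), ?_⟩
  simp only [step, Prod.mk.injEq, and_true]
  omega

def vis : Ed → List Mv → Finset Ed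
  | a, [] => {a}
  | a, m :: l => insert a (vis (step a m) l)

lemma self_mem_vis (a : Ed) (l : List Mv) : a ∈ vis a l := by cases l <;> simp [vis]

lemma vis_x {a e : Ed} {l : List Mv} (h : e ∈ vis a l) : a.1.1 - l.length ≤ e.1.1 := by
  induction l generalizing a with
  | nil => simp only [vis, mem_singleton] at h; simp [h]
  | cons m l ih =>
    simp only [vis, mem_insert] at h
    rcases h with rfl | h
    · simp only [List.length_cons]; omega
    · have := ih h
      simp only [step, List.length_cons] at this ⊢; omega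

lemma splice {a b c : Ed} {l : List Mv} (hb : b ∈ vis a l) (h : adj b c) :
    ∃ l', vis a l' = insert c (vis a l) ∧ l'.length = l.length + 2 := by
  induction l generalizing a with
  | nil =>
    obtain rfl : b = a := by simpa [vis] using hb
    obtain ⟨m, hm⟩ := exists_step h
    obtain ⟨m', hm'⟩ := exists_step (adj_symm h)
    refine ⟨[m, m'], ?_, rfl⟩
    simp only [vis, hm, hm']
    ext; simp only [mem_insert, mem_singleton]; tauto
  | cons m0 l ih =>
    by_cases e : b = a
    · subst e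
      obtain ⟨m, hm⟩ := exists_step h
      obtain ⟨m', hm'⟩ := exists_step (adj_symm h)
      refine ⟨m :: m' :: m0 :: l, ?_, rfl⟩
      simp only [vis, hm, hm']
      ext; simp only [mem_insert]; tauto
    · have : b ∈ vis (step a m0) l := by simpa [vis, e] using hb
      obtain ⟨l', h1, h2⟩ := ih this
      refine ⟨m0 :: l', ?_, by simp [h2]⟩
      simp only [vis, h1]
      exact Finset.insert_comm _ _ _

lemma walk_exists {D : Finset Ed} {a : Ed} (ha : a ∈ D) :
    ∃ l, vis a l = comp D a ∧ l.length + 2 = 2 * (comp D a).card := by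
  have key : ∀ n : ℕ, ∃ l, vis a l ⊆ comp D a ∧ l.length + 2 = 2 * (vis a l).card ∧
      (n ≤ (vis a l).card ∨ vis a l = comp D a) := by
    intro n
    induction n with
    | zero => exact ⟨[], by simp [vis, mem_comp.2 ⟨ha, .refl⟩], by simp [vis], Or.inl (by simp)⟩
    | succ n ih =>
      obtain ⟨l, h1, h2, h3⟩ := ih
      by_cases e : vis a l = comp D a
      · exact ⟨l, h1, h2, Or.inr e⟩
      have h3 := h3.resolve_right e
      obtain ⟨c, hc, hc'⟩ := exists_of_ssubset (ssubset_of_subset_of_ne h1 e)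
      have : ∃ b ∈ vis a l, ∃ c, c ∉ vis a l ∧ c ∈ D ∧ adj b c := by
        have hr := (mem_comp.1 hc).2
        clear hc
        induction hr with
        | refl => exact absurd (self_mem_vis a l) hc'
        | @tail u v _ h5 ih =>
          by_cases hu : u ∈ vis a l
          · exact ⟨u, hu, v, hc', h5⟩
          · exact ih hu
      obtain ⟨b, hb, c, c1, c2, c3⟩ := this
      obtain ⟨l', e1, e2⟩ := splice hb c3
      refine ⟨l', ?_, ?_, Or.inl ?_⟩
      · rw [e1]
        exact insert_subset (mem_comp.2 ⟨c2, (mem_comp.1 (h1 hb)).2.tail ⟨c2, c3⟩⟩) h1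
      · rw [e1, card_insert_of_notMem c1]; omega
      · rw [e1, card_insert_of_notMem c1]; omega
  obtain ⟨l, h1, h2, h3⟩ := key (comp D a).card
  have : vis a l = comp D a := h3.elim (fun h => eq_of_subset_of_card_le h1 h) id
  exact ⟨l, this, this ▸ h2⟩

def lists : ℕ → Finset (List Mv)
  | 0 => {[]}
  | n + 1 => (univ ×ˢ lists n).image fun p => p.1 :: p.2

lemma mem_lists (l : List Mv) : l ∈ lists l.length := by
  induction l with
  | nil => simp [lists]
  | cons m l ih => exact mem_image.2 ⟨(m, l), by simp [ih], rfl⟩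

lemma card_lists (n : ℕ) : (lists n).card ≤ 18 ^ n := by
  induction n with
  | zero => simp [lists]
  | succ n ih =>
    refine card_image_le.trans ?_
    rw [card_product, card_univ, pow_succ']
    simp only [Fintype.card_prod, Fintype.card_bool, Fintype.card_fin]
    omega

lemma contour {n : ℕ} {X : Finset St} (hX : X ⊆ box n) (h0 : (0, 0) ∈ X) :
    ∃ t : ℕ × ℕ × List Mv, t.2.1 < 2 * t.1 + 1 ∧ t.2.2 ∈ lists (2 * t.1) ∧
      (DD X).card = (DD (flip n (vis (((t.2.1 : ℤ), 0), false) t.2.2) X)).card + (t.1 + 1) := by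
  have h1 : tau (DD X) (0, 0) ≠ 0 := by rw [tau_DD, ch, if_pos h0]; decide
  obtain ⟨a, ha, h2⟩ := exists_comp h1
  obtain ⟨k, hk, h3⟩ := right_edge h2
  have e := comp_eq ha (mem_comp.1 h3).2
  obtain ⟨l, l1, l2⟩ := walk_exists (comp_subset _ _ h3)
  rw [e] at l1 l2
  have hc := closed_comp (closed_DD X) a
  obtain ⟨x, hx, h4⟩ := left_edge hc h2
  rw [← l1] at h4
  have h5 := vis_x h4
  simp only at hk hx h5
  lift k to ℕ using hk
  obtain ⟨m, hm⟩ : ∃ m, (comp (DD X) a).card = m + 1 := ⟨(comp (DD X) a).card - 1, by omega⟩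
  refine ⟨(m, k, l), by simp only; omega, ?_, ?_⟩
  · have := mem_lists l
    rwa [show l.length = 2 * m by omega] at this
  · simp only at l1 ⊢
    rw [l1, DD_flip hX hc (comp_subset _ _), card_sdiff_of_subset (comp_subset _ _), ← hm]
    have := card_le_card (comp_subset (DD X) a)
    omega

theorem peierls (n : ℕ) {q : ℝ} (h0 : 0 ≤ q) (h1 : q ≤ 1 / 2000) :
    ∑ X ∈ (box n).powerset.filter (fun X => (0, 0) ∈ X), q ^ (DD X).card ≤
      1 / 4 * ∑ X ∈ (box n).powerset, q ^ (DD X).card := by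
  classical
  set S := (box n).powerset.filter (fun X => (0, 0) ∈ X) with hS
  have : ∀ X, ∃ t : ℕ × ℕ × List Mv, X ∈ S → t.2.1 < 2 * t.1 + 1 ∧ t.2.2 ∈ lists (2 * t.1) ∧
      (DD X).card = (DD (flip n (vis (((t.2.1 : ℤ), 0), false) t.2.2) X)).card + (t.1 + 1) := by
    intro X
    by_cases h : X ∈ S
    · obtain ⟨t, ht⟩ := contour (mem_powerset.1 (mem_filter.1 h).1) (mem_filter.1 h).2
      exact ⟨t, fun _ => ht⟩
    · exact ⟨(0, 0, []), fun h' => absurd h' h⟩
  choose φ hφ using this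
  set Z := ∑ X ∈ (box n).powerset, q ^ (DD X).card with hZ
  have Z0 : 0 ≤ Z := sum_nonneg fun _ _ => by positivity
  set N := S.sup (fun X => (φ X).1) + 1 with hN
  set T : Finset (ℕ × ℕ × List Mv) :=
    (range N).biUnion fun m => {m} ×ˢ range (2 * m + 1) ×ˢ lists (2 * m) with hT
  have maps : ∀ X ∈ S, φ X ∈ T := by
    intro X hX
    refine mem_biUnion.2 ⟨(φ X).1, mem_range.2 (Nat.lt_succ_of_le (le_sup (f := fun X => (φ X).1) hX)),
      ?_⟩
    simp only [mem_product, mem_singleton, mem_range, true_and]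
    exact ⟨(hφ X hX).1, (hφ X hX).2.1⟩
  rw [← sum_fiberwise_of_maps_to maps]
  have fib : ∀ t ∈ T, ∑ X ∈ S.filter (fun X => φ X = t), q ^ (DD X).card ≤ q ^ (t.1 + 1) * Z := by
    intro t _
    have e : ∑ X ∈ S.filter (fun X => φ X = t), q ^ (DD X).card = q ^ (t.1 + 1) *
        ∑ Y ∈ (S.filter (fun X => φ X = t)).image (flip n (vis (((t.2.1 : ℤ), 0), false) t.2.2)),
          q ^ (DD Y).card := by
      rw [sum_image (fun _ _ _ _ h => flip_inj _ _ h), mul_sum]
      refine sum_congr rfl fun X hX => ?_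
      obtain ⟨a, rfl⟩ := mem_filter.1 hX
      rw [(hφ X a).2.2, pow_add, mul_comm]
    rw [e]
    refine mul_le_mul_of_nonneg_left (sum_le_sum_of_subset_of_nonneg ?_ fun _ _ _ => by positivity)
      (by positivity)
    intro Y hY
    obtain ⟨X, hX, rfl⟩ := mem_image.1 hY
    exact mem_powerset.2 (flip_subset (mem_powerset.1 (mem_filter.1 (mem_filter.1 hX).1).1) _)
  refine (sum_le_sum fib).trans ?_
  rw [← sum_mul]
  refine mul_le_mul_of_nonneg_right ?_ Z0
  rw [hT, sum_biUnion]
  swap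
  · intro a _ b _ hab
    simp only [Function.onFun, disjoint_left, mem_product, mem_singleton]
    intro t h1 h2
    exact hab (h1.1.symm.trans h2.1)
  have b : ∀ m ∈ range N, ∑ t ∈ {m} ×ˢ range (2 * m + 1) ×ˢ lists (2 * m), q ^ (t.1 + 1) ≤
      1 / 8 * (1 / 2 : ℝ) ^ m := by
    intro m _
    rw [sum_product, sum_singleton]
    simp only [sum_const, card_product, card_range, nsmul_eq_mul]
    have c1 : 2 * m + 1 ≤ 3 ^ m := by
      have := one_add_mul_le_pow (a := (2 : ℤ)) (by norm_num) m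
      norm_num at this
      zify; linarith
    have c2 := card_lists (2 * m)
    have c3 : (((2 * m + 1) * (lists (2 * m)).card : ℕ) : ℝ) ≤ 972 ^ m := by
      have : (2 * m + 1) * (lists (2 * m)).card ≤ 972 ^ m := by
        calc _ ≤ 3 ^ m * 18 ^ (2 * m) := Nat.mul_le_mul c1 c2
          _ = _ := by rw [pow_mul, ← mul_pow]; norm_num
      exact_mod_cast this
    have c4 : (972 : ℝ) ^ m * q ^ m ≤ (1 / 2) ^ m := by
      rw [← mul_pow]; exact pow_le_pow_left₀ (by positivity) (by linarith) m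
    have c5 : 0 ≤ q ^ m := by positivity
    calc _ ≤ 972 ^ m * q ^ (m + 1) := mul_le_mul_of_nonneg_right c3 (by positivity)
      _ = q * (972 ^ m * q ^ m) := by ring
      _ ≤ 1 / 8 * (1 / 2 : ℝ) ^ m := mul_le_mul (by linarith) c4 (by positivity) (by norm_num)
  refine (sum_le_sum b).trans ?_
  rw [← mul_sum]
  have := sum_geometric_two_le N
  linarith

end Pool.Agent.H44.Pei
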