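import Pool.Agent.H44.Pei2

open Finset

namespace Pool.Agent.H44.Pei

def jj (A : Finset St) (i : St) : ℕ :=
  ∑ d : Bool, ((if oth (i, d) ∈ A then 1 else 0) + if bk (i, d) ∈ A then 1 else 0)

lemma jj_mono {A B : Finset St} (h : A ⊆ B) (i : St) : jj A i ≤ jj B i := by
  refine sum_le_sum fun d _ => add_le_add ?_ ?_ <;> split_ifs with h1 h2 <;>
    first | exact absurd (h h1) h2 | simp

lemma sum_jj_comm (A B : Finset St) : ∑ i ∈ B, jj A i = ∑ i ∈ A, jj B i := by
  have key : ∀ (A B : Finset St) (d : Bool), (∑ i ∈ B, if oth (i, d) ∈ A then 1 else 0) =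
      ∑ i ∈ A, if bk (i, d) ∈ B then 1 else 0 := by
    intro A B d
    rw [← card_filter, ← card_filter]
    refine card_bij' (fun i _ => oth (i, d)) (fun i _ => bk (i, d)) ?_ ?_ ?_ ?_
    · intro i hi; rw [mem_filter] at hi ⊢; exact ⟨hi.2, by rw [bk_oth]; exact hi.1⟩
    · intro i hi; rw [mem_filter] at hi ⊢; exact ⟨hi.2, by rw [oth_bk]; exact hi.1⟩
    · intro i _; exact bk_oth i d
    · intro i _; exact oth_bk i d
  unfold jj
  rw [sum_comm, sum_comm (s := A)]
  refine sum_congr rfl fun d _ => ?_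
  rw [sum_add_distrib, sum_add_distrib, key A B, key B A, add_comm]

lemma card_DD (X : Finset St) : (DD X).card + ∑ i ∈ X, jj X i = 4 * X.card := by
  have e : DD X = (X ×ˢ univ).filter (fun e => oth e ∉ X) ∪
      ((X ×ˢ univ).filter (fun e => bk e ∉ X)).image fun e => (bk e, e.2) := by
    ext ⟨i, d⟩
    simp only [mem_DD, mem_union, mem_filter, mem_product, mem_univ, and_true, mem_image,
      Prod.mk.injEq, Prod.exists]
    constructor
    · intro h
      by_cases h1 : i ∈ X
      · left; tauto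
      · right; exact ⟨(oth (i, d)).1, (oth (i, d)).2, d, ⟨by tauto, by rw [bk_oth]; exact h1⟩,
          bk_oth i d, rfl⟩
    · rintro (h | ⟨a, b, d', h, rfl, rfl⟩)
      · tauto
      · rw [oth_bk]; tauto
  rw [e, card_union_of_disjoint, card_image_of_injective, card_filter, card_filter, sum_product,
    sum_product, ← sum_add_distrib, ← sum_add_distrib, card_eq_sum_ones, mul_sum]
  · refine sum_congr rfl fun i _ => ?_
    simp only [jj, Fintype.sum_bool]
    split_ifs <;> rfl
  · rintro ⟨i, d⟩ ⟨i', d'⟩ h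
    simp only [Prod.mk.injEq] at h
    obtain ⟨h, rfl⟩ := h
    rw [← oth_bk i d, h, oth_bk]
  · rw [disjoint_left]
    intro e h1 h2
    obtain ⟨e', h3, rfl⟩ := mem_image.1 h2
    exact (mem_filter.1 h3).2 (mem_product.1 (mem_filter.1 h1).1).1

def ev (i : St) : Prop := (i.1 + i.2) % 2 = 0

instance : DecidablePred ev := fun i => inferInstanceAs (Decidable ((i.1 + i.2) % 2 = 0))

def mix (A B : Finset St) : Finset St := A.filter ev ∪ B.filter fun i => ¬ ev i

lemma mem_mix {A B : Finset St} {i : St} : i ∈ mix A B ↔ if ev i then i ∈ A else i ∈ B := by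
  simp only [mix, mem_union, mem_filter]; split_ifs <;> tauto

lemma mix_mix (A B : Finset St) : mix (mix A B) (mix B A) = A := by
  ext i; simp only [mem_mix]; split_ifs <;> rfl

lemma sum_mix (A B : Finset St) (g : St → ℕ) :
    ∑ i ∈ mix A B, g i = ∑ i ∈ A.filter ev, g i + ∑ i ∈ B.filter (fun i => ¬ ev i), g i := by
  refine sum_union (disjoint_left.2 fun i h1 h2 => (mem_filter.1 h2).2 (mem_filter.1 h1).2)

lemma jj_mix (A B : Finset St) (i : St) : jj (mix A B) i = if ev i then jj B i else jj A i := by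
  have a : ∀ d, ev (oth (i, d)) ↔ ¬ ev i := fun d => by cases d <;> simp [ev, oth] <;> omega
  have b : ∀ d, ev (bk (i, d)) ↔ ¬ ev i := fun d => by cases d <;> simp [ev, bk] <;> omega
  by_cases h : ev i <;> simp [jj, mem_mix, a, b, h]

lemma card_DD_mix (A B : Finset St) : (DD (mix A B)).card + (DD (mix B A)).card +
    2 * ∑ i ∈ B, jj A i = 4 * A.card + 4 * B.card := by
  have h1 := card_DD (mix A B)
  have h2 := card_DD (mix B A)
  have c : ∀ A B : Finset St, ∑ i ∈ mix A B, jj (mix A B) i =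
      ∑ i ∈ A.filter ev, jj B i + ∑ i ∈ B.filter (fun i => ¬ ev i), jj A i := by
    intro A B
    rw [sum_mix]
    congr 1
    · exact sum_congr rfl fun i hi => by rw [jj_mix, if_pos (mem_filter.1 hi).2]
    · exact sum_congr rfl fun i hi => by rw [jj_mix, if_neg (mem_filter.1 hi).2]
  rw [c, card_eq_sum_ones (mix _ _), sum_mix, ← card_eq_sum_ones, ← card_eq_sum_ones] at h1 h2
  have h3 := sum_filter_add_sum_filter_not A ev (jj B)
  have h4 := sum_filter_add_sum_filter_not B ev (jj A)
  have h5 := card_filter_add_card_filter_not (s := A) ev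
  have h6 := card_filter_add_card_filter_not (s := B) ev
  have h7 := sum_jj_comm A B
  linarith

noncomputable def EE (r : St → ℝ) (Λ : Finset St) (f : Finset St → ℝ) : ℝ :=
  ∑ B ∈ Λ.powerset, (∏ i ∈ Λ, if i ∈ B then r i else 1 - r i) * f B

lemma EE_insert (r : St → ℝ) {Λ : Finset St} {a : St} (ha : a ∉ Λ) (f : Finset St → ℝ) :
    EE r (insert a Λ) f = (1 - r a) * EE r Λ f + r a * EE r Λ fun B => f (insert a B) := by
  unfold EE
  rw [sum_powerset_insert ha, mul_sum, mul_sum]
  congr 1
  · refine sum_congr rfl fun B hB => ?_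
    rw [prod_insert ha, if_neg fun h => ha (mem_powerset.1 hB h)]; ring
  · refine sum_congr rfl fun B _ => ?_
    rw [prod_insert ha, if_pos (mem_insert_self _ _), mul_assoc]
    congr 2
    refine prod_congr rfl fun i hi => ?_
    have : i ≠ a := fun h => ha (h ▸ hi)
    simp [this]

lemma EE_const (r : St → ℝ) (Λ : Finset St) (c : ℝ) : EE r Λ (fun _ => c) = c := by
  induction Λ using Finset.induction_on with
  | empty => simp [EE]
  | insert a Λ ha ih => rw [EE_insert r ha, ih]; ring

lemma EE_le {r : St → ℝ} (hr : ∀ i, 0 ≤ r i ∧ r i ≤ 1) (Λ : Finset St) {f g : Finset St → ℝ}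
    (h : ∀ B, f B ≤ g B) : EE r Λ f ≤ EE r Λ g := by
  refine sum_le_sum fun B _ => mul_le_mul_of_nonneg_left (h B) (prod_nonneg fun i _ => ?_)
  split_ifs <;> linarith [hr i]

lemma EE_mono {r r' : St → ℝ} (hr : ∀ i, 0 ≤ r i ∧ r i ≤ 1) (hr' : ∀ i, 0 ≤ r' i ∧ r' i ≤ 1)
    (h : ∀ i, r i ≤ r' i) (Λ : Finset St) {f : Finset St → ℝ} (hf : Monotone f) :
    EE r Λ f ≤ EE r' Λ f := by
  induction Λ using Finset.induction_on generalizing f with
  | empty => simp [EE]
  | insert a Λ ha ih =>
    rw [EE_insert r ha, EE_insert r' ha]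
    have h1 := ih hf
    have h2 := ih (f := fun B => f (insert a B)) fun B C hBC => hf (insert_subset_insert a hBC)
    have h3 := EE_le hr' Λ (f := f) (g := fun B => f (insert a B)) fun B => hf (subset_insert a B)
    have := hr a; have := h a
    nlinarith

def Dep (S : Finset St) (f : Finset St → ℝ) : Prop :=
  ∀ A B : Finset St, (∀ i ∈ S, (i ∈ A ↔ i ∈ B)) → f A = f B

lemma EE_dep {r r' : St → ℝ} {S : Finset St} (h : ∀ i ∈ S, r i = r' i) (Λ : Finset St)
    {f : Finset St → ℝ} (hf : Dep S f) : EE r Λ f = EE r' Λ f := by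
  induction Λ using Finset.induction_on generalizing f with
  | empty => simp [EE]
  | insert a Λ ha ih =>
    rw [EE_insert r ha, EE_insert r' ha, ih hf]
    by_cases h1 : a ∈ S
    · rw [h a h1, ih (f := fun B => f (insert a B)) fun A B hAB =>
        hf _ _ fun i hi => by simp [hAB i hi]]
    · have : (fun B => f (insert a B)) = f := funext fun B => hf _ _ fun i hi => by
        have : i ≠ a := fun e => h1 (e ▸ hi)
        simp [this]
      rw [this, ih hf]; ring

lemma EE_compl (r : St → ℝ) (Λ : Finset St) (f : Finset St → ℝ) :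
    EE (fun i => 1 - r i) Λ f = EE r Λ fun B => f (Λ \ B) := by
  unfold EE
  refine sum_nbij' (fun B => Λ \ B) (fun B => Λ \ B) (fun B _ => mem_powerset.2 sdiff_subset)
    (fun B _ => mem_powerset.2 sdiff_subset)
    (fun B hB => Finset.sdiff_sdiff_eq_self (mem_powerset.1 hB))
    (fun B hB => Finset.sdiff_sdiff_eq_self (mem_powerset.1 hB)) fun B hB => ?_
  simp only [Finset.sdiff_sdiff_eq_self (mem_powerset.1 hB)]
  congr 1
  refine prod_congr rfl fun i hi => ?_
  by_cases h : i ∈ B <;> simp [h, hi]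

lemma EE_congr (r : St → ℝ) (Λ : Finset St) {f g : Finset St → ℝ} (h : ∀ B ⊆ Λ, f B = g B) :
    EE r Λ f = EE r Λ g := sum_congr rfl fun B hB => by rw [h B (mem_powerset.1 hB)]

lemma EE_one_sub (r : St → ℝ) (Λ : Finset St) (f : Finset St → ℝ) :
    EE r Λ (fun B => 1 - f B) = 1 - EE r Λ f := by
  have := EE_const r Λ 1
  unfold EE at *
  simp only [mul_sub, sum_sub_distrib, this]

noncomputable def rho (j : ℕ) : ℝ := (1 / 2000) ^ 4 / (1 / 2000) ^ (2 * j)
noncomputable def pr (j : ℕ) : ℝ := rho j / (1 + rho j)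

lemma rho_pos (j : ℕ) : 0 < rho j := by unfold rho; positivity

lemma pr_mem (j : ℕ) : 0 < pr j ∧ pr j < 1 := by
  have := rho_pos j
  exact ⟨by unfold pr; positivity, by rw [pr, div_lt_one (by linarith)]; linarith⟩

lemma pr_mono {j k : ℕ} (h : j ≤ k) : pr j ≤ pr k := by
  have a := rho_pos j
  have b := rho_pos k
  have c : rho j ≤ rho k := div_le_div_of_nonneg_left (by positivity) (by positivity)
    (pow_le_pow_of_le_one (by norm_num) (by norm_num) (by omega))
  rw [pr, pr, div_le_div_iff₀ (by linarith) (by linarith)]; linarith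

lemma pr_compl {j k : ℕ} (h : j + k = 4) : pr j = 1 - pr k := by
  have a := rho_pos j
  have b := rho_pos k
  have c : rho j * rho k = 1 := by
    rw [rho, rho, div_mul_div_comm, ← pow_add, ← pow_add, ← mul_add, h]; norm_num
  rw [pr, pr]; field_simp; linarith

noncomputable def GG (n : ℕ) : ℕ → Finset St → ℝ
  | 0 => fun A => if (0, 0) ∈ A then 1 else 0
  | k + 1 => fun A => EE (fun i => pr (jj A i)) (box n) (GG n k)

lemma GG_mono (n k : ℕ) : Monotone (GG n k) := by
  induction k with
  | zero =>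
    intro A B h
    simp only [GG]
    split_ifs with h1 h2 <;> first | exact absurd (h h1) h2 | simp
  | succ k ih =>
    exact fun A B h => EE_mono (fun _ => ⟨(pr_mem _).1.le, (pr_mem _).2.le⟩)
      (fun _ => ⟨(pr_mem _).1.le, (pr_mem _).2.le⟩) (fun i => pr_mono (jj_mono h i)) _ ih

lemma nb_box {k : ℕ} {i : St} (hi : i ∈ box k) (d : Bool) :
    oth (i, d) ∈ box (k + 1) ∧ bk (i, d) ∈ box (k + 1) := by
  simp only [mem_box] at hi ⊢
  cases d <;> simp [oth, bk] <;> omega

lemma jj_congr {k : ℕ} {A B : Finset St} (h : ∀ i ∈ box (k + 1), (i ∈ A ↔ i ∈ B)) {i : St}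
    (hi : i ∈ box k) : jj A i = jj B i :=
  sum_congr rfl fun d _ => by simp only [h _ (nb_box hi d).1, h _ (nb_box hi d).2]

lemma GG_dep (n k : ℕ) : Dep (box k) (GG n k) := by
  induction k with
  | zero => intro A B h; simp only [GG, h (0, 0) (by simp [mem_box])]
  | succ k ih => exact fun A B h => EE_dep (fun i hi => by rw [jj_congr h hi]) _ ih

lemma box_mono {k n : ℕ} (h : k ≤ n) : box k ⊆ box n := fun i hi => by
  rw [mem_box] at hi ⊢; omega

lemma GG_compl {n k : ℕ} (hk : k ≤ n) (A : Finset St) : GG n k (box n \ A) = 1 - GG n k A := by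
  induction k generalizing A with
  | zero =>
    have : (0, 0) ∈ box n := by simp [mem_box]
    by_cases h : (0, 0) ∈ A <;> simp [GG, h, this]
  | succ k ih =>
    simp only [GG]
    rw [EE_dep (r' := fun i => 1 - pr (jj A i)) (fun i hi => pr_compl ?_) _ (GG_dep n k),
      EE_compl, ← EE_one_sub]
    · exact EE_congr _ _ fun B _ => ih (by omega) B
    · have a := fun d => box_mono hk (nb_box hi d).1
      have b := fun d => box_mono hk (nb_box hi d).2
      simp only [jj, Fintype.sum_bool, mem_sdiff, a, b, true_and]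
      split_ifs <;> rfl

noncomputable def wt (X : Finset St) : ℝ := (1 / 2000) ^ (DD X).card

noncomputable def cw (n : ℕ) (A : Finset St) : ℝ :=
  (1 / 2000) ^ (4 * A.card) * ∏ i ∈ box n, (1 + rho (jj A i))

lemma W_eq {n : ℕ} (A : Finset St) {B : Finset St} (hB : B ⊆ box n) :
    cw n A * ∏ i ∈ box n, (if i ∈ B then pr (jj A i) else 1 - pr (jj A i)) =
      wt (mix A B) * wt (mix B A) := by
  rw [cw, mul_assoc, ← prod_mul_distrib]
  have e : ∏ i ∈ box n, ((1 + rho (jj A i)) * if i ∈ B then pr (jj A i) else 1 - pr (jj A i)) =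
      ∏ i ∈ box n, if i ∈ B then rho (jj A i) else 1 := by
    refine prod_congr rfl fun i _ => ?_
    have := rho_pos (jj A i)
    unfold pr; split_ifs <;> field_simp; ring
  rw [e, prod_ite_mem, inter_eq_right.2 hB]
  simp only [rho, prod_div_distrib, prod_const, prod_pow_eq_pow_sum, ← mul_sum, wt]
  rw [← mul_div_assoc, div_eq_iff (by positivity), ← pow_mul, ← pow_add, ← pow_add, ← pow_add,
    card_DD_mix]

lemma stat_step (n : ℕ) (f : Finset St → ℝ) :
    ∑ A ∈ (box n).powerset, cw n A * EE (fun i => pr (jj A i)) (box n) f =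
      ∑ p ∈ (box n).powerset ×ˢ (box n).powerset, wt (mix p.1 p.2) * wt (mix p.2 p.1) * f p.2 := by
  rw [sum_product]
  refine sum_congr rfl fun A _ => ?_
  rw [EE, mul_sum]
  exact sum_congr rfl fun B hB => by rw [← mul_assoc, W_eq A (mem_powerset.1 hB)]

lemma stat_id (n : ℕ) (f : Finset St → ℝ) :
    ∑ A ∈ (box n).powerset, cw n A * f A =
      ∑ p ∈ (box n).powerset ×ˢ (box n).powerset, wt (mix p.1 p.2) * wt (mix p.2 p.1) * f p.2 := by
  rw [sum_product_right]
  refine sum_congr rfl fun A _ => ?_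
  simp only
  rw [← sum_mul]
  congr 1
  have := EE_const (fun i => pr (jj A i)) (box n) 1
  rw [← mul_one (cw n A), ← this, EE, mul_sum]
  exact sum_congr rfl fun B hB => by rw [mul_one, W_eq A (mem_powerset.1 hB), mul_comm]

lemma sum_mix_pair (n : ℕ) (g : Finset St → ℝ) :
    ∑ p ∈ (box n).powerset ×ˢ (box n).powerset,
      wt (mix p.1 p.2) * wt (mix p.2 p.1) * g (mix p.2 p.1) =
      (∑ X ∈ (box n).powerset, wt X) * ∑ X ∈ (box n).powerset, wt X * g X := by
  rw [sum_mul_sum, ← sum_product']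
  have m : ∀ p ∈ (box n).powerset ×ˢ (box n).powerset,
      (mix p.1 p.2, mix p.2 p.1) ∈ (box n).powerset ×ˢ (box n).powerset := by
    intro p hp
    simp only [mem_product, mem_powerset] at hp ⊢
    exact ⟨union_subset ((filter_subset _ _).trans hp.1) ((filter_subset _ _).trans hp.2),
      union_subset ((filter_subset _ _).trans hp.2) ((filter_subset _ _).trans hp.1)⟩
  refine sum_nbij' (fun p => (mix p.1 p.2, mix p.2 p.1)) (fun p => (mix p.1 p.2, mix p.2 p.1)) m m
    (fun p _ => by simp [mix_mix]) (fun p _ => by simp [mix_mix]) fun p _ => by ring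

theorem GG_empty (n k : ℕ) : GG n k ∅ ≤ 1 / 4 := by
  set Z := ∑ X ∈ (box n).powerset, wt X with hZ
  have Z0 : 0 < Z := sum_pos (fun X _ => by unfold wt; positivity) ⟨∅, by simp⟩
  have a : ∀ k, ∑ A ∈ (box n).powerset, cw n A * GG n k A =
      ∑ A ∈ (box n).powerset, cw n A * GG n 0 A := by
    intro k
    induction k with
    | zero => rfl
    | succ k ih => rw [← ih, stat_id n (GG n k), ← stat_step]; rfl
  have b : ∑ A ∈ (box n).powerset, cw n A * GG n 0 A ≤ Z * (1 / 4 * Z) := by
    rw [stat_id]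
    have e : ∀ A B, GG n 0 A = GG n 0 (mix A B) := fun A B => by
      simp only [GG, mem_mix, if_pos (show ev (0, 0) from rfl)]
    have e2 := sum_mix_pair n (GG n 0)
    simp only [← e] at e2
    rw [e2]
    refine mul_le_mul_of_nonneg_left (le_trans (le_of_eq ?_)
      (peierls n (q := 1 / 2000) (by norm_num) le_rfl)) Z0.le
    rw [sum_filter]
    exact sum_congr rfl fun X _ => by simp [GG, wt]
  have c : ∑ A ∈ (box n).powerset, cw n A * 1 = Z * Z := by
    rw [stat_id n fun _ => 1, sum_mix_pair n fun _ => 1]; simp [hZ]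
  have d : ∑ A ∈ (box n).powerset, cw n A * 1 * GG n k ∅ ≤
      ∑ A ∈ (box n).powerset, cw n A * GG n k A := by
    refine sum_le_sum fun A _ => ?_
    rw [mul_one]
    refine mul_le_mul_of_nonneg_left (GG_mono n k (empty_subset A)) ?_
    exact mul_nonneg (by positivity) (prod_nonneg fun i _ => by linarith [rho_pos (jj A i)])
  rw [← sum_mul, c, a] at d
  have : 0 < Z * Z := by positivity
  nlinarith

theorem GG_full (n : ℕ) : 3 / 4 ≤ GG n n (box n) := by
  have := GG_compl (le_refl n) ∅
  rw [sdiff_empty] at this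
  linarith [GG_empty n n]

end Pool.Agent.H44.Pei
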