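import Pool.Agent.H44.Pei3

open Finset MeasureTheory Filter Topology

namespace Pool.Agent.H44.Pei

abbrev Site : Type := Fin 2 → ℤ
abbrev Cf : Type := Site → Fin 6

def toS (i : St) : Site := ![i.1, i.2]

lemma toS_inj : Function.Injective toS := fun _ _ h =>
  Prod.ext (congrFun h 0) (congrFun h 1)

def NN : Finset Site := {![0, 1], ![0, -1], ![1, 0], ![-1, 0]}

def ff (w : NN → Fin 6) : Fin 6 := ⟨min (∑ v, if w v = 5 then 1 else 0) 4, by omega⟩

def FF (x : Cf) (i : Site) : Fin 6 := ff fun v => x (i + v.1)

lemma FF_ne (x : Cf) (i : Site) : FF x i ≠ 5 := by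
  intro h
  have := congrArg Fin.val h
  simp only [FF, ff] at this
  omega

lemma FF_nil (x : Cf) : FF^[2] x = fun _ => 0 := by
  funext i
  change FF (FF x) i = 0
  apply Fin.ext
  conv_lhs => rw [FF, ff]
  simp [FF_ne]

noncomputable def MM (n : ℕ) (x : Cf) : Finset St := (box n).filter fun i => x (toS i) = 5

lemma FF_val {k n : ℕ} (hk : k + 1 ≤ n) (x : Cf) {i : St} (hi : i ∈ box k) :
    (FF x (toS i) : ℕ) = jj (MM n x) i := by
  have a := fun d => box_mono hk (nb_box hi d).1
  have b := fun d => box_mono hk (nb_box hi d).2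
  simp only [jj, Fintype.sum_bool, MM, mem_filter, a, b, true_and, FF, ff]
  rw [sum_coe_sort NN fun v => if x (toS i + v) = 5 then 1 else 0, NN,
    sum_insert (by decide), sum_insert (by decide), sum_insert (by decide), sum_singleton]
  have e1 : toS i + ![0, 1] = toS (oth (i, true)) := by
    funext j; fin_cases j <;> simp [toS, oth]
  have e2 : toS i + ![0, -1] = toS (bk (i, true)) := by
    funext j; fin_cases j <;> simp [toS, bk, sub_eq_add_neg]
  have e3 : toS i + ![1, 0] = toS (oth (i, false)) := by
    funext j; fin_cases j <;> simp [toS, oth]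
  have e4 : toS i + ![-1, 0] = toS (bk (i, false)) := by
    funext j; fin_cases j <;> simp [toS, bk, sub_eq_add_neg]
  rw [e1, e2, e3, e4]
  split_ifs <;> rfl

noncomputable def th (a : Fin 6) : PMF (Fin 6) :=
  PMF.ofFintype (fun b => ENNReal.ofReal (if b = 5 then pr a else (1 - pr a) / 5)) (by
    have := pr_mem a
    rw [← ENNReal.ofReal_sum_of_nonneg fun b _ => by split_ifs <;> linarith]
    simp only [Fin.sum_univ_six]
    rw [← ENNReal.ofReal_one]; congr 1
    simp; ring)

lemma th_ne (a b : Fin 6) : th a b ≠ 0 := by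
  have := pr_mem a
  simp only [th, PMF.ofFintype_apply, ne_eq, ENNReal.ofReal_eq_zero, not_le]
  split_ifs <;> linarith

lemma th_five (a : Fin 6) : (th a).toMeasure.real {5} = pr a := by
  rw [Measure.real, PMF.toMeasure_apply_singleton _ _ (measurableSet_singleton _)]
  simp [th, (pr_mem a).1.le]

noncomputable def KK (x : Cf) : Measure Cf := Measure.infinitePi fun i => (th (FF x i)).toMeasure

instance (x : Cf) : IsProbabilityMeasure (KK x) := by unfold KK; infer_instance

lemma measurable_FF (i : Site) : Measurable fun x => FF x i :=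
  (measurable_of_finite ff).comp (measurable_pi_lambda _ fun v => measurable_pi_apply (i + v.1))

lemma measurable_KK : Measurable KK := by
  refine Measurable.measure_of_isPiSystem_of_isProbabilityMeasure
    generateFrom_squareCylinders.symm (isPiSystem_squareCylinders
      (fun _ => MeasurableSpace.isPiSystem_measurableSet) fun _ => by simp) ?_
  rintro _ ⟨s, t, -, rfl⟩
  simp only [KK, Measure.infinitePi_pi _ (t := t) fun i _ => MeasurableSet.of_discrete]
  exact Finset.measurable_prod _ fun i _ =>
    (measurable_of_finite fun a => (th a).toMeasure (t i)).comp (measurable_FF i)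

lemma fib_eq {n : ℕ} {B : Finset St} (hB : B ⊆ box n) : {y : Cf | MM n y = B} =
    Set.pi ((box n).image toS) fun s => if (s 0, s 1) ∈ B then {5} else {5}ᶜ := by
  ext y
  simp only [Set.mem_ofPred_eq, coe_image, Set.mem_pi, Set.forall_mem_image, mem_coe]
  constructor
  · rintro rfl i hi
    change y (toS i) ∈ if i ∈ MM n y then ({5} : Set (Fin 6)) else {5}ᶜ
    by_cases h : y (toS i) = 5 <;> simp [MM, h, hi]
  · intro h
    ext i
    rw [MM, mem_filter]
    have h2 : i ∈ box n → y (toS i) ∈ if i ∈ B then ({5} : Set (Fin 6)) else {5}ᶜ := fun hi => h hi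
    by_cases hi : i ∈ B
    · simpa [hi, hB hi] using h2
    · simpa [hi] using h2

lemma meas_fib {n : ℕ} {B : Finset St} (hB : B ⊆ box n) : MeasurableSet {y : Cf | MM n y = B} := by
  rw [fib_eq hB]
  exact MeasurableSet.pi (Finset.countable_toSet _) fun _ _ => MeasurableSet.of_discrete

lemma KK_fib {n : ℕ} {B : Finset St} (hB : B ⊆ box n) (x : Cf) :
    (KK x).real {y | MM n y = B} =
      ∏ i ∈ box n, if i ∈ B then pr (FF x (toS i)) else 1 - pr (FF x (toS i)) := by
  rw [fib_eq hB, Measure.real, KK, Measure.infinitePi_pi _ fun _ _ => MeasurableSet.of_discrete,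
    prod_image fun _ _ _ _ h => toS_inj h, ENNReal.toReal_prod]
  refine prod_congr rfl fun i _ => ?_
  change (th _).toMeasure.real (if i ∈ B then ({5} : Set (Fin 6)) else {5}ᶜ) = _
  split_ifs
  · exact th_five _
  · rw [measureReal_compl MeasurableSet.of_discrete, th_five]; simp

lemma int_MM (n : ℕ) (μ : Measure Cf) [IsProbabilityMeasure μ] (g : Finset St → ℝ) :
    ∫ y, g (MM n y) ∂μ = ∑ B ∈ (box n).powerset, μ.real {y | MM n y = B} * g B := by
  have e : ∀ y, g (MM n y) =
      ∑ B ∈ (box n).powerset, {y | MM n y = B}.indicator (fun _ => g B) y := by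
    intro y
    simp only [Set.indicator_apply, Set.mem_ofPred_eq, sum_ite_eq]
    rw [if_pos (show MM n y ∈ (box n).powerset from mem_powerset.2 (filter_subset _ _))]
  simp only [e]
  rw [integral_finsetSum _ fun B hB =>
    (integrable_const _).indicator (meas_fib (mem_powerset.1 hB))]
  exact sum_congr rfl fun B hB => by
    rw [integral_indicator_const _ (meas_fib (mem_powerset.1 hB))]; rfl

noncomputable def Phi (m : Measure Cf) : Measure Cf := m.bind KK

instance (μ : Measure Cf) [IsProbabilityMeasure μ] : IsProbabilityMeasure (Phi μ) :=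
  ⟨by rw [Phi, Measure.bind_apply MeasurableSet.univ measurable_KK.aemeasurable]; simp⟩

lemma int_Phi (n : ℕ) (μ : Measure Cf) [IsProbabilityMeasure μ] (g : Finset St → ℝ) :
    ∫ y, g (MM n y) ∂Phi μ = ∫ x, EE (fun i => pr (FF x (toS i))) (box n) g ∂μ := by
  have m : ∀ S : Set Cf, MeasurableSet S → Measurable fun x => KK x S := fun S hS =>
    (Measure.measurable_coe hS).comp measurable_KK
  have e : ∀ x, EE (fun i => pr (FF x (toS i))) (box n) g =
      ∑ B ∈ (box n).powerset, (KK x).real {y | MM n y = B} * g B := fun x =>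
    sum_congr rfl fun B hB => by rw [KK_fib (mem_powerset.1 hB)]
  simp only [e]
  rw [int_MM, integral_finsetSum (f := fun B x => (KK x).real {y | MM n y = B} * g B) _
    fun B hB => Integrable.mul_const (Integrable.of_bound
    (m _ (meas_fib (mem_powerset.1 hB))).ennreal_toReal.aestronglyMeasurable 1
    (Eventually.of_forall fun x => by
      rw [Real.norm_eq_abs, abs_of_nonneg ENNReal.toReal_nonneg]; exact measureReal_le_one)) _]
  refine sum_congr rfl fun B hB => ?_
  have hm := meas_fib (mem_powerset.1 hB)
  rw [integral_mul_const, Measure.real, Phi, Measure.bind_apply hm measurable_KK.aemeasurable,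
    ← integral_toReal (m _ hm).aemeasurable (Eventually.of_forall fun x => measure_lt_top _ _)]
  rfl

lemma iter_eq {n k : ℕ} (hk : k ≤ n) (μ : Measure Cf) [IsProbabilityMeasure μ] :
    (Phi^[k] μ).real {y | y 0 = 5} = ∫ x, GG n k (MM n x) ∂μ := by
  induction k generalizing μ with
  | zero =>
    have hm : MeasurableSet {y : Cf | y 0 = 5} :=
      measurable_pi_apply (0 : Site) (measurableSet_singleton 5)
    rw [Function.iterate_zero_apply, ← integral_indicator_one hm]
    refine integral_congr_ae (Eventually.of_forall fun x => ?_)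
    have h0 : toS (0, 0) = 0 := by funext j; fin_cases j <;> rfl
    have : (0, 0) ∈ box n := by simp [mem_box]
    simp [GG, MM, this, h0, Set.indicator_apply]
  | succ k ih =>
    rw [Function.iterate_succ_apply, ih (by omega), int_Phi]
    refine integral_congr_ae (Eventually.of_forall fun x => ?_)
    exact EE_dep (fun i hi => by rw [FF_val hk x hi]) _ (GG_dep n k)

lemma dirac_int (n : ℕ) (x : Cf) (g : Finset St → ℝ) :
    ∫ y, g (MM n y) ∂Measure.dirac x = g (MM n x) := by
  rw [int_MM, sum_eq_single (MM n x)]
  · simp [Measure.real]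
  · intro B hB hne
    rw [Measure.real, Measure.dirac_apply' _ (meas_fib (mem_powerset.1 hB)),
      Set.indicator_of_notMem (s := {y | MM n y = B}) (fun h => hne (Eq.symm h))]; simp
  · exact fun h => absurd (mem_powerset.2 (filter_subset _ _)) h

theorem not_conv (a : ENNReal)
    (h : ∀ μ : Measure Cf, IsProbabilityMeasure μ →
      Tendsto (fun n => (Phi^[n] μ) {y | y 0 = 5}) atTop (𝓝 a)) (ha : a ≠ ⊤) : False := by
  have h1 := (ENNReal.tendsto_toReal ha).comp (h (Measure.dirac fun _ => 0) inferInstance)
  have h2 := (ENNReal.tendsto_toReal ha).comp (h (Measure.dirac fun _ => 5) inferInstance)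
  have a1 : a.toReal ≤ 1 / 4 := le_of_tendsto' h1 fun n => by
    have := iter_eq (le_refl n) (Measure.dirac fun _ => 0)
    rw [dirac_int, show MM n (fun _ => 0) = ∅ by simp [MM]] at this
    exact this.le.trans (GG_empty n n)
  have a2 : 3 / 4 ≤ a.toReal := ge_of_tendsto' h2 fun n => by
    have := iter_eq (le_refl n) (Measure.dirac fun _ => 5)
    rw [dirac_int, show MM n (fun _ => 5) = box n by simp [MM]] at this
    exact (GG_full n).trans this.ge
  linarith

end Pool.Agent.H44.Pei
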