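import Pool.Agent.H44.KWTwo

/-! A stationary ergodic two-server queue driven by an irrational rotation. -/

open MeasureTheory Set Filter Topology
open scoped ENNReal

namespace Pool.Agent.H44.RotQueue

abbrev C : Type := AddCircle (1 : ℝ)
abbrev Om : Type := Bool × C

noncomputable def al : C := ((√2 : ℝ) : C)

theorem ergodic_rot : Ergodic (fun x : C => x + al) volume := by
  rw [AddCircle.ergodic_add_right, addOrderOf_eq_zero_iff, al,
    AddCircle.not_isOfFinAddOrder_iff_forall_rat_ne_div]
  intro q hq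
  rw [div_one] at hq
  exact irrational_sqrt_two ⟨q, hq⟩

noncomputable def g (x : C) : ℝ := (AddCircle.equivIoc 1 0 x : ℝ)

theorem g_pos (x : C) : 0 < g x := (AddCircle.equivIoc 1 0 x).2.1
theorem g_le (x : C) : g x ≤ 1 := (AddCircle.equivIoc 1 0 x).2.2.trans_eq (zero_add 1)
theorem coe_g (x : C) : ((g x : ℝ) : C) = x := AddCircle.coe_equivIoc
theorem measurable_g : Measurable g :=
  measurable_subtype_coe.comp (AddCircle.measurableEquivIoc 1 0).measurable

theorem vol_g {I : Set ℝ} (hI : MeasurableSet I) : volume (g ⁻¹' I) = volume (I ∩ Ioc 0 1) := by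
  rw [← (AddCircle.measurePreserving_mk 1 0).measure_preimage
    (measurable_g hI).nullMeasurableSet, Measure.restrict_apply' measurableSet_Ioc, zero_add]
  congr 1
  ext r
  simp only [mem_inter_iff, mem_preimage, and_congr_left_iff]
  intro hr
  have : g (r : C) = r := by
    unfold g
    rw [AddCircle.equivIoc_coe_eq (by simpa using hr)]
  show g (r : C) ∈ I ↔ r ∈ I
  rw [this]

noncomputable def mu : Measure Om :=
  (2⁻¹ : ℝ≥0∞) • (volume : Measure C).map (Prod.mk true) +
    (2⁻¹ : ℝ≥0∞) • (volume : Measure C).map (Prod.mk false)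

theorem mu_apply {s : Set Om} (hs : MeasurableSet s) :
    mu s = 2⁻¹ * volume (Prod.mk true ⁻¹' s) + 2⁻¹ * volume (Prod.mk false ⁻¹' s) := by
  simp [mu, Measure.map_apply measurable_prodMk_left hs]

instance : IsProbabilityMeasure mu :=
  ⟨by rw [mu_apply MeasurableSet.univ]; simp [ENNReal.inv_two_add_inv_two]⟩

theorem mu_snd {s : Set C} (hs : MeasurableSet s) : mu (Prod.snd ⁻¹' s) = volume s := by
  have : ∀ b : Bool, Prod.mk b ⁻¹' (Prod.snd ⁻¹' s : Set Om) = s := fun _ => rfl
  rw [mu_apply (measurable_snd hs), this, this, ← add_mul, ENNReal.inv_two_add_inv_two, one_mul]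

noncomputable def th (ω : Om) : Om := if ω.1 then (false, ω.2 + al) else (true, ω.2)

theorem measurable_bool {β : Type*} [MeasurableSpace β] {f f' : Om → β} (hf : Measurable f)
    (hf' : Measurable f') : Measurable fun ω : Om => if ω.1 then f ω else f' ω :=
  Measurable.ite (measurable_fst (measurableSet_singleton true)) hf hf'

theorem measurable_th : Measurable th := measurable_bool (by fun_prop) (by fun_prop)

theorem mp_th : MeasurePreserving th mu mu := by
  refine ⟨measurable_th, Measure.ext fun s hs => ?_⟩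
  rw [Measure.map_apply measurable_th hs, mu_apply (measurable_th hs), mu_apply hs, add_comm]
  have e1 : Prod.mk false ⁻¹' (th ⁻¹' s) = Prod.mk true ⁻¹' s := rfl
  have e2 : Prod.mk true ⁻¹' (th ⁻¹' s) = (fun x : C => x + al) ⁻¹' (Prod.mk false ⁻¹' s) := rfl
  rw [e1, e2, ergodic_rot.toMeasurePreserving.measure_preimage
    (measurable_prodMk_left hs).nullMeasurableSet]

theorem ergodic_th : Ergodic th mu := by
  refine ⟨mp_th, ⟨fun s hs h => ?_⟩⟩
  have e1 : Prod.mk false ⁻¹' s = Prod.mk true ⁻¹' s := by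
    conv_lhs => rw [← h]
    rfl
  have e2 : (fun x : C => x + al) ⁻¹' (Prod.mk false ⁻¹' s) = Prod.mk false ⁻¹' s := by
    conv_rhs => rw [e1, ← h]
    rfl
  rw [eventuallyConst_set']
  rcases ergodic_rot.ae_empty_or_univ (measurable_prodMk_left hs) e2 with h0 | h0
  · left
    rw [ae_eq_empty] at h0 ⊢
    rw [mu_apply hs, ← e1, h0]
    simp
  · right
    rw [ae_eq_univ] at h0 ⊢
    rw [mu_apply hs.compl, preimage_compl, preimage_compl, ← e1, h0]
    simp

noncomputable def t (ω : Om) : ℝ := if ω.1 then 3 else 1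
noncomputable def sg (ω : Om) : ℝ := if ω.1 then 4 + g (ω.2 + al) - g ω.2 else 3

theorem measurable_t : Measurable t := measurable_bool (by fun_prop) (by fun_prop)
theorem measurable_sg : Measurable sg :=
  measurable_bool ((measurable_const.add (measurable_g.comp (by fun_prop))).sub
    (measurable_g.comp measurable_snd)) (by fun_prop)

theorem t_nonneg (ω : Om) : 0 ≤ t ω := by unfold t; split_ifs <;> norm_num
theorem sg_nonneg (ω : Om) : 0 ≤ sg ω := by
  unfold sg
  split_ifs
  · linarith [g_pos (ω.2 + al), g_le ω.2]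
  · norm_num

theorem integrable_t : Integrable t mu := by
  refine Integrable.of_bound measurable_t.aestronglyMeasurable 3 (ae_of_all _ fun ω => ?_)
  unfold t
  split_ifs <;> norm_num

theorem integrable_sg : Integrable sg mu := by
  refine Integrable.of_bound measurable_sg.aestronglyMeasurable 5 (ae_of_all _ fun ω => ?_)
  rw [Real.norm_of_nonneg (sg_nonneg ω)]
  unfold sg
  split_ifs
  · linarith [g_le (ω.2 + al), g_pos ω.2]
  · norm_num

theorem integral_mu {f : Om → ℝ} (hf : Measurable f) (hi : Integrable f mu) :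
    ∫ ω, f ω ∂mu = ((∫ x, f (true, x)) + ∫ x, f (false, x)) / 2 := by
  unfold mu at hi ⊢
  rw [integral_add_measure hi.left_of_add_measure hi.right_of_add_measure,
    integral_smul_measure, integral_smul_measure,
    integral_map measurable_prodMk_left.aemeasurable hf.aestronglyMeasurable,
    integral_map measurable_prodMk_left.aemeasurable hf.aestronglyMeasurable]
  simp
  ring

theorem integrable_g : Integrable g volume :=
  Integrable.of_bound measurable_g.aestronglyMeasurable 1 (ae_of_all _ fun x => by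
    rw [Real.norm_of_nonneg (g_pos x).le]; exact g_le x)

theorem stable : ∫ ω, sg ω ∂mu < (((1 : ℕ) : ℝ) + 1) * ∫ ω, t ω ∂mu := by
  rw [integral_mu measurable_sg integrable_sg, integral_mu measurable_t integrable_t]
  simp only [sg, t, if_true, Bool.false_eq_true, if_false]
  have h1 := integrable_g.comp_add_right al
  have h2 : Integrable (fun x : C => 4 + g (x + al)) volume := (integrable_const _).add h1
  rw [integral_sub h2 integrable_g, integral_add (integrable_const _) h1,
    integral_add_right_eq_self]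
  have : (volume : Measure C).real univ = 1 := by simp [Measure.real]
  simp only [integral_const, this]
  norm_num

noncomputable def W : ℕ → Om → Fin 2 → ℝ
  | 0, _ => 0
  | n + 1, ω => fun i =>
      max ((W n ω + (Pi.single 0 (sg (th^[n] ω)) : Fin 2 → ℝ) - (fun _ : Fin 2 => t (th^[n] ω)))
        (Tuple.sort (W n ω + (Pi.single 0 (sg (th^[n] ω)) : Fin 2 → ℝ)
          - (fun _ : Fin 2 => t (th^[n] ω))) i)) 0

theorem W_succ (n : ℕ) (ω : Om) {a b : ℝ} (h : W n ω = ![a, b]) : W (n + 1) ω =
    ![max (min (a + sg (th^[n] ω) - t (th^[n] ω)) (b - t (th^[n] ω))) 0,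
      max (max (a + sg (th^[n] ω) - t (th^[n] ω)) (b - t (th^[n] ω))) 0] := by
  funext i
  have := congrFun (KW.sortVec_two (W n ω + (Pi.single 0 (sg (th^[n] ω)) : Fin 2 → ℝ)
    - (fun _ : Fin 2 => t (th^[n] ω)))) i
  simp only [KW.sortVec, Function.comp] at this
  simp only [W]
  rw [this]
  simp only [Pi.sub_apply, Pi.add_apply, h]
  fin_cases i <;> simp

/-- running minimum -/
noncomputable def M : ℕ → Om → ℝ
  | 0, ω => g ω.2
  | n + 1, ω => min (M n ω) (g (th^[n + 1] ω).2)

theorem M_le (n : ℕ) (ω : Om) {i : ℕ} (hi : i ≤ n) : M n ω ≤ g (th^[i] ω).2 := by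
  induction n with
  | zero =>
    obtain rfl : i = 0 := by omega
    exact le_rfl
  | succ n ih =>
    rcases Nat.lt_or_eq_of_le hi with h | rfl
    · exact (min_le_left _ _).trans (ih (by omega))
    · exact min_le_right _ _

theorem M_eq (n : ℕ) (ω : Om) : ∃ i, M n ω = g (th^[i] ω).2 := by
  induction n with
  | zero => exact ⟨0, rfl⟩
  | succ n ih =>
    rcases min_choice (M n ω) (g (th^[n + 1] ω).2) with h | h
    · obtain ⟨i, hi⟩ := ih
      exact ⟨i, h.trans hi⟩
    · exact ⟨n + 1, h⟩

theorem M_pos (n : ℕ) (ω : Om) : 0 < M n ω := by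
  obtain ⟨i, hi⟩ := M_eq n ω
  rw [hi]
  exact g_pos _

theorem W_formula (n : ℕ) (ω : Om) :
    ((th^[n + 1] ω).1 = true → W (n + 1) ω = ![g (th^[n + 1] ω).2 - M n ω, 2] ∧
      M n ω ≤ g (th^[n + 1] ω).2) ∧
    ((th^[n + 1] ω).1 = false → W (n + 1) ω = ![0, 1 + g (th^[n + 1] ω).2 - M n ω]) := by
  induction n with
  | zero =>
    have h0 : W 0 ω = ![0, 0] := by
      funext i
      fin_cases i <;> rfl
    rw [W_succ 0 ω h0]
    obtain ⟨b, x⟩ := ω
    have := g_pos (x + al)
    have := g_le x
    cases b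
    · simp [th, sg, t, M]
      norm_num
    · simp only [th, sg, t, M, zero_add, Function.iterate_one, if_true, Function.iterate_zero,
        id_eq, Bool.false_eq_true, false_imp_iff, true_and, forall_const]
      rw [min_eq_right (by linarith), max_eq_right (by linarith),
        max_eq_left (show (0 : ℝ) - 3 ≤ 4 + g (x + al) - g x - 3 by linarith),
        max_eq_left (by linarith)]
      congr 2
      ring
  | succ n ih =>
    have hM := M_pos n ω
    have hM1 : M n ω ≤ 1 := (M_le n ω (Nat.zero_le n)).trans (g_le _)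
    rw [Function.iterate_succ_apply' th (n + 1), show M (n + 1) ω =
      min (M n ω) (g (th^[n + 1] ω).2) from rfl]
    cases hb : (th^[n + 1] ω).1
    · rw [W_succ _ _ (ih.2 hb)]
      generalize th^[n + 1] ω = y at hb
      generalize M n ω = m at hM hM1
      have := g_pos y.2
      have := g_le y.2
      simp only [th, sg, t, hb, Bool.false_eq_true, if_false, forall_const, min_le_iff, le_refl,
        or_true, and_true, Bool.true_eq_false, false_imp_iff]
      rw [min_eq_right (by linarith), max_eq_left (show 1 + g y.2 - m - 1 ≤ 0 + 3 - 1 by linarith),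
        max_eq_left (show (0 : ℝ) ≤ 0 + 3 - 1 by linarith)]
      congr 1
      · simp only [max_def, min_def]
        split_ifs <;> linarith
      · norm_num
    · obtain ⟨h1, h2⟩ := ih.1 hb
      rw [W_succ _ _ h1]
      generalize th^[n + 1] ω = y at hb h2
      generalize M n ω = m at hM hM1 h2
      have := g_pos (y.2 + al)
      simp only [th, sg, t, hb, if_true, Bool.false_eq_true, false_imp_iff, true_and, forall_const]
      rw [min_eq_right (by linarith), max_eq_right (by linarith),
        max_eq_left (show (2 : ℝ) - 3 ≤ g y.2 - m + (4 + g (y.2 + al) - g y.2) - 3 by linarith),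
        max_eq_left (by linarith), min_eq_left h2]
      congr 2
      ring

theorem W_sum (n : ℕ) (ω : Om) :
    W (n + 1) ω 0 + W (n + 1) ω 1 = g (th^[n + 1] ω).2 - M n ω + 2 ∨
    W (n + 1) ω 0 + W (n + 1) ω 1 = g (th^[n + 1] ω).2 - M n ω + 1 := by
  cases hb : (th^[n + 1] ω).1
  · right
    rw [(W_formula n ω).2 hb]
    simp
    ring
  · left
    rw [((W_formula n ω).1 hb).1]
    simp

theorem th_orbit (n : ℕ) (ω : Om) : ∃ k : ℤ, (th^[n] ω).2 = ω.2 + k • al := by
  induction n with
  | zero => exact ⟨0, by simp⟩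
  | succ n ih =>
    obtain ⟨k, hk⟩ := ih
    rw [Function.iterate_succ_apply']
    generalize th^[n] ω = y at hk
    unfold th
    split_ifs
    · exact ⟨k + 1, by simp [hk, add_smul, add_assoc]⟩
    · exact ⟨k, hk⟩

def D : Set ℝ := range fun p : ℤ × ℤ => (p.1 : ℝ) * √2 + p.2

theorem countable_D : D.Countable := countable_range _

theorem diff_mem (i j : ℕ) (ω : Om) (c : ℤ) : g (th^[i] ω).2 - g (th^[j] ω).2 + c ∈ D := by
  obtain ⟨a, ha⟩ := th_orbit i ω
  obtain ⟨b, hb⟩ := th_orbit j ω
  have : ((g (th^[i] ω).2 - g (th^[j] ω).2 - (a - b : ℤ) • √2 : ℝ) : C) = 0 := by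
    rw [AddCircle.coe_sub, AddCircle.coe_sub, coe_g, coe_g, ha, hb, AddCircle.coe_zsmul, sub_smul]
    unfold al
    abel
  obtain ⟨n, hn⟩ := (AddCircle.coe_eq_zero_iff 1).1 this
  refine ⟨(a - b, n + c), ?_⟩
  simp only [zsmul_eq_mul, mul_one] at hn
  simp only [Int.cast_add]
  linarith

theorem W_mem (n : ℕ) (ω : Om) : W (n + 1) ω 0 + W (n + 1) ω 1 ∈ D := by
  obtain ⟨j, hj⟩ := M_eq n ω
  rcases W_sum n ω with h | h
  · rw [h, hj]
    exact_mod_cast diff_mem (n + 1) j ω 2
  · rw [h, hj]
    exact_mod_cast diff_mem (n + 1) j ω 1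

theorem big_tendsto {ε : ℝ} (hε : 0 < ε) :
    Tendsto (fun n : ℕ => mu (⋂ i ≤ n, {ω | ε < g (th^[i] ω).2})) atTop (𝓝 0) := by
  have hm : ∀ i : ℕ, MeasurableSet {ω : Om | ε < g (th^[i] ω).2} := fun i =>
    measurableSet_lt measurable_const
      (measurable_g.comp (measurable_snd.comp (measurable_th.iterate i)))
  have h := tendsto_measure_iInter_le (μ := mu) (fun i => (hm i).nullMeasurableSet)
    ⟨0, measure_ne_top _ _⟩
  have h0 : mu (⋂ i : ℕ, {ω : Om | ε < g (th^[i] ω).2}) = 0 := by
    rcases ergodic_th.ae_empty_or_univ_of_ae_le_preimage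
      (MeasurableSet.iInter hm).nullMeasurableSet (LE.le.eventuallyLE (by
        intro ω hω
        simp only [mem_iInter, mem_preimage] at hω ⊢
        intro i
        exact hω (i + 1))) with h1 | h1
    · exact ae_eq_empty.1 h1
    · exfalso
      rw [ae_eq_univ] at h1
      have h2 : mu (Prod.snd ⁻¹' (g ⁻¹' Iic ε)) = 0 := by
        refine measure_mono_null ?_ h1
        intro ω hω hc
        have h3 : ε < g ω.2 := mem_iInter.1 hc 0
        have h4 : g ω.2 ≤ ε := hω
        exact absurd h3 (not_lt.2 h4)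
      rw [mu_snd (measurable_g measurableSet_Iic), vol_g measurableSet_Iic, inter_comm,
        Ioc_inter_Iic, Real.volume_Ioc, ENNReal.ofReal_eq_zero] at h2
      have : 0 < min 1 ε := lt_min one_pos hε
      simp only [sub_zero] at h2
      linarith
  rwa [h0] at h

theorem atom_le (n : ℕ) (c : ℝ) {ε : ℝ} :
    mu {ω | W (n + 1) ω 0 + W (n + 1) ω 1 = c} ≤
      mu (⋂ i ≤ n, {ω | ε < g (th^[i] ω).2}) + (ENNReal.ofReal ε + ENNReal.ofReal ε) := by
  have hI : ∀ a : ℝ, mu (th^[n + 1] ⁻¹' (Prod.snd ⁻¹' (g ⁻¹' Icc a (a + ε)))) ≤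
      ENNReal.ofReal ε := by
    intro a
    rw [(mp_th.iterate (n + 1)).measure_preimage
      (measurable_snd (measurable_g measurableSet_Icc)).nullMeasurableSet,
      mu_snd (measurable_g measurableSet_Icc), vol_g measurableSet_Icc]
    refine (measure_mono inter_subset_left).trans ?_
    simp
  refine le_trans (measure_mono (t := (⋂ i ≤ n, {ω | ε < g (th^[i] ω).2}) ∪
    (th^[n + 1] ⁻¹' (Prod.snd ⁻¹' (g ⁻¹' Icc (c - 2) (c - 2 + ε))) ∪
      th^[n + 1] ⁻¹' (Prod.snd ⁻¹' (g ⁻¹' Icc (c - 1) (c - 1 + ε))))) ?_) ?_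
  · intro ω hω
    by_cases hM : ε < M n ω
    · left
      simp only [mem_iInter]
      exact fun i hi => hM.trans_le (M_le n ω hi)
    · right
      have h0 := M_pos n ω
      have hc : W (n + 1) ω 0 + W (n + 1) ω 1 = c := hω
      rcases W_sum n ω with h | h
      · left
        constructor <;> linarith
      · right
        constructor <;> linarith
  · refine (measure_union_le _ _).trans (add_le_add le_rfl ((measure_union_le _ _).trans ?_))
    exact add_le_add (hI _) (hI _)

theorem no_limit (π : Measure (Fin 2 → ℝ)) [IsProbabilityMeasure π]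
    (h : ∀ ε > (0 : ℝ), ∃ N : ℕ, ∀ n ≥ N, ∀ A : Set (Fin 2 → ℝ), MeasurableSet A →
        |(mu {ω | W n ω ∈ A}).toReal - (π A).toReal| < ε) : False := by
  have hs : Measurable fun w : Fin 2 → ℝ => w 0 + w 1 := by fun_prop
  have h0 : ∀ c : ℝ, π ((fun w : Fin 2 → ℝ => w 0 + w 1) ⁻¹' {c}) = 0 := by
    intro c
    have : ∀ ε > (0 : ℝ), (π ((fun w : Fin 2 → ℝ => w 0 + w 1) ⁻¹' {c})).toReal ≤ 4 * ε := by
      intro ε hε
      obtain ⟨N, hN⟩ := h ε hε
      obtain ⟨n, hn1, hn2⟩ := (((big_tendsto hε).eventually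
        (ge_mem_nhds (ENNReal.ofReal_pos.2 hε))).and (eventually_ge_atTop N)).exists
      have e1 := hN (n + 1) (by omega) _ (hs (measurableSet_singleton c))
      have e2 := (atom_le n c (ε := ε)).trans (add_le_add hn1 le_rfl)
      rw [← ENNReal.ofReal_add hε.le hε.le, ← ENNReal.ofReal_add hε.le (by linarith)] at e2
      have e3 := ENNReal.toReal_le_of_le_ofReal (by linarith) e2
      have e4 := (abs_lt.1 e1).1
      have e5 : {ω | W (n + 1) ω ∈ (fun w : Fin 2 → ℝ => w 0 + w 1) ⁻¹' {c}} =
        {ω | W (n + 1) ω 0 + W (n + 1) ω 1 = c} := rfl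
      rw [e5] at e4
      linarith
    have h1 : (π ((fun w : Fin 2 → ℝ => w 0 + w 1) ⁻¹' {c})).toReal ≤ 0 :=
      le_of_forall_pos_le_add fun ε hε => by linarith [this (ε / 4) (by linarith)]
    rcases (ENNReal.toReal_eq_zero_iff _).1 (le_antisymm h1 ENNReal.toReal_nonneg) with h | h
    · exact h
    · exact absurd h (measure_ne_top _ _)
  have h1 : π ((fun w : Fin 2 → ℝ => w 0 + w 1) ⁻¹' D) = 0 := by
    rw [← biUnion_preimage_singleton]
    exact (measure_biUnion_null_iff countable_D).2 fun c _ => h0 c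
  obtain ⟨N, hN⟩ := h 1 one_pos
  have e := hN (N + 1) (by omega) _ (hs countable_D.measurableSet)
  have e2 : {ω | W (N + 1) ω ∈ (fun w : Fin 2 → ℝ => w 0 + w 1) ⁻¹' D} = univ :=
    eq_univ_of_forall (W_mem N)
  rw [e2, h1] at e
  simp at e

end Pool.Agent.H44.RotQueue
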