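import Mathlib

namespace Pool.Agent.H44.SA
open MeasureTheory Finset

variable {d : ℕ} {S : Type} [MeasurableSpace S]

/-- Determinant of the coordinate matrix. -/
noncomputable def D (φ : S → Fin d → ℝ) (U : Fin d → S) : ℝ := (Matrix.of fun k => φ (U k)).det

theorem D_meas {φ : S → Fin d → ℝ} (hφ : Measurable φ) : Measurable (D φ) := by
  unfold D
  simp only [Matrix.det_apply', Matrix.of_apply]
  refine Finset.measurable_sum _ fun π _ => measurable_const.mul (Finset.measurable_prod _ fun i _ => ?_)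
  exact (measurable_pi_apply i).comp (hφ.comp (measurable_pi_apply _))

theorem li_ae (σ : Measure S) [IsProbabilityMeasure σ] {φ : S → Fin d → ℝ} (hφ : Measurable φ)
    (hW : ∀ W : Submodule ℝ (Fin d → ℝ), W ≠ ⊤ → σ {x | φ x ∈ W} = 0) (n : ℕ) (hn : n ≤ d) :
    ∀ᵐ U ∂(Measure.pi fun _ : Fin n => σ), LinearIndependent ℝ (fun k => φ (U k)) := by
  have hm : ∀ m : ℕ, MeasurableSet {U : Fin m → S | LinearIndependent ℝ (fun k => φ (U k))} := by
    intro m
    have h1 : Measurable fun (U : Fin m → S) (k : Fin m) => φ (U k) :=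
      measurable_pi_lambda _ fun k => hφ.comp (measurable_pi_apply k)
    exact h1 (isOpen_setOfPred_linearIndependent (𝕜 := ℝ)).measurableSet
  induction n with
  | zero => exact Filter.Eventually.of_forall fun U => linearIndependent_empty_type
  | succ n ih =>
    have ih' := ih (by omega)
    have hp := (measurePreserving_piFinSuccAbove (fun _ : Fin (n + 1) => σ) 0)
    have hs : MeasurableSet {z : (Fin n → S) × S |
        LinearIndependent ℝ (fun k => φ ((Fin.cons z.2 z.1 : Fin (n + 1) → S) k))} := by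
      have : Measurable fun z : (Fin n → S) × S => (Fin.cons z.2 z.1 : Fin (n + 1) → S) := by
        refine measurable_pi_lambda _ fun k => ?_
        refine Fin.cases ?_ (fun k => ?_) k
        · simpa using measurable_snd
        · simp only [Fin.cons_succ]; exact (measurable_pi_apply k).comp measurable_fst
      exact this (hm (n + 1))
    have h2 : ∀ᵐ z ∂((Measure.pi fun _ : Fin n => σ).prod σ),
        LinearIndependent ℝ (fun k => φ ((Fin.cons z.2 z.1 : Fin (n + 1) → S) k)) := by
      rw [Measure.ae_prod_iff_ae_ae hs]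
      filter_upwards [ih'] with T hT
      have hne : Submodule.span ℝ (Set.range fun k => φ (T k)) ≠ ⊤ := by
        intro h
        have h1 := finrank_range_le_card (R := ℝ) (fun k => φ (T k))
        rw [Set.finrank, h, finrank_top] at h1
        simp at h1; omega
      have := measure_eq_zero_iff_ae_notMem.1 (hW _ hne)
      filter_upwards [this] with x hx
      rw [linearIndependent_finSucc]
      exact ⟨hT, hx⟩
    have h3 := (hp.quasiMeasurePreserving.ae
      (Measure.measurePreserving_swap.quasiMeasurePreserving.ae h2))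
    filter_upwards [h3] with U hU
    simpa [MeasurableEquiv.piFinSuccAbove] using hU

theorem D_ae (σ : Measure S) [IsProbabilityMeasure σ] {φ : S → Fin d → ℝ} (hφ : Measurable φ)
    (hW : ∀ W : Submodule ℝ (Fin d → ℝ), W ≠ ⊤ → σ {x | φ x ∈ W} = 0) :
    ∀ᵐ U ∂(Measure.pi fun _ : Fin d => σ), D φ U ≠ 0 := by
  filter_upwards [li_ae σ hφ hW d le_rfl] with U hU
  have : IsUnit (Matrix.of fun k => φ (U k)) := Matrix.linearIndependent_rows_iff_isUnit.1 hU
  exact ((Matrix.isUnit_iff_isUnit_det _).1 this).ne_zero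

omit [MeasurableSpace S] in
theorem D_update (φ : S → Fin d → ℝ) (U : Fin d → S) (x : S) (c : Fin d → ℝ)
    (h : φ x = ∑ k, c k • φ (U k)) (i : Fin d) : D φ (Function.update U i x) = c i * D φ U := by
  have := Matrix.det_updateRow_sum (Matrix.of fun k => φ (U k)) i c
  unfold D
  rw [← smul_eq_mul, ← this]
  congr 1
  ext k l
  by_cases hk : k = i
  · subst hk; simp [h]
  · simp [Matrix.updateRow_ne hk, Function.update_of_ne hk]

omit [MeasurableSpace S] in
theorem exists_coef (φ : S → Fin d → ℝ) (U : Fin d → S) (hU : D φ U ≠ 0) (x : S) :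
    ∃ c : Fin d → ℝ, φ x = ∑ k, c k • φ (U k) := by
  have h1 : IsUnit (Matrix.of fun k => φ (U k)) := (Matrix.isUnit_iff_isUnit_det _).2 (Ne.isUnit hU)
  obtain ⟨c, hc⟩ := Matrix.vecMul_surjective_iff_isUnit.2 h1 (φ x)
  refine ⟨c, ?_⟩
  rw [← hc]
  ext l
  simp [Matrix.vecMul, dotProduct]

omit [MeasurableSpace S] in
theorem D_two (φ : S → Fin d → ℝ) (U : Fin d → S) (x x' : S) (c c' : Fin d → ℝ)
    (h : φ x = ∑ k, c k • φ (U k)) (h' : φ x' = ∑ k, c' k • φ (U k)) {i j : Fin d} (hij : i ≠ j)
    (hc : c j ≠ 0) :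
    D φ (Function.update (Function.update U j x) i x') = (c j * c' i - c i * c' j) * D φ U := by
  have key : φ x' = ∑ k, (if k = j then c' j / c j else c' k - c' j / c j * c k)
      • φ (Function.update U j x k) := by
    have e1 : ∀ k, (if k = j then c' j / c j else c' k - c' j / c j * c k) • φ (Function.update U j x k)
        = (c' k - c' j / c j * c k) • φ (U k) + if k = j then (c' j / c j) • φ x else 0 := by
      intro k
      by_cases hk : k = j
      · subst hk
        have : c' k - c' k / c k * c k = 0 := by field_simp; ring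
        simp [this]
      · simp [hk]
    simp only [e1, sum_add_distrib, sum_ite_eq', mem_univ, if_true, sub_smul, sum_sub_distrib, mul_smul]
    rw [← smul_sum, ← h, ← h']; abel
  rw [D_update φ _ x' _ key i, D_update φ U x c h j, if_neg hij]
  field_simp

/-- The sign statistic of four vectors. -/
noncomputable def T (φ : S → Fin d → ℝ) (i j : Fin d) (V : Fin d ⊕ Fin 2 → S) : ℝ :=
  Real.sign (D φ (Function.update (fun k => V (.inl k)) i (V (.inr 0)))
    * D φ (Function.update (fun k => V (.inl k)) j (V (.inr 0)))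
    * D φ (Function.update (fun k => V (.inl k)) i (V (.inr 1)))
    * D φ (Function.update (fun k => V (.inl k)) j (V (.inr 1))))

theorem sign_three {A B b : ℝ} (hA : A ≠ 0) (hB : B ≠ 0) (hb : 0 < b) :
    Real.sign (A * B * b) + Real.sign (A * (A - B) * b) + Real.sign (B * (B - A) * b) = 1 := by
  have pos : ∀ x : ℝ, 0 < x → Real.sign (x * b) = 1 := fun x hx => Real.sign_of_pos (mul_pos hx hb)
  have neg : ∀ x : ℝ, x < 0 → Real.sign (x * b) = -1 := fun x hx =>
    Real.sign_of_neg (mul_neg_of_neg_of_pos hx hb)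
  rcases lt_trichotomy A B with h | h | h
  · rcases lt_or_gt_of_ne hA with a | a <;> rcases lt_or_gt_of_ne hB with c | c
    · rw [pos _ (by nlinarith), pos _ (by nlinarith), neg _ (by nlinarith)]; ring
    · rw [neg _ (by nlinarith), pos _ (by nlinarith), pos _ (by nlinarith)]; ring
    · linarith
    · rw [pos _ (by nlinarith), neg _ (by nlinarith), pos _ (by nlinarith)]; ring
  · subst h
    rw [pos _ (mul_self_pos.2 hA)]; simp
  · rcases lt_or_gt_of_ne hA with a | a <;> rcases lt_or_gt_of_ne hB with c | c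
    · rw [pos _ (by nlinarith), neg _ (by nlinarith), pos _ (by nlinarith)]; ring
    · linarith
    · rw [neg _ (by nlinarith), pos _ (by nlinarith), pos _ (by nlinarith)]; ring
    · rw [pos _ (by nlinarith), pos _ (by nlinarith), neg _ (by nlinarith)]; ring

omit [MeasurableSpace S] in
theorem swap_inl (V : Fin d ⊕ Fin 2 → S) (j : Fin d) (t : Fin 2) :
    (fun k => V (Equiv.swap (Sum.inl j) (Sum.inr t) (Sum.inl k)))
      = Function.update (fun k => V (.inl k)) j (V (.inr t)) := by
  funext k
  by_cases hk : k = j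
  · subst hk; simp
  · rw [Equiv.swap_apply_of_ne_of_ne (by simpa using hk) (by simp), Function.update_of_ne hk]

omit [MeasurableSpace S] in
theorem T_sum (φ : S → Fin d → ℝ) {i j : Fin d} (hij : i ≠ j) (V : Fin d ⊕ Fin 2 → S)
    (h0 : D φ (fun k => V (.inl k)) ≠ 0)
    (h1 : ∀ k t, D φ (Function.update (fun k => V (.inl k)) k (V (.inr t))) ≠ 0) :
    T φ i j V + T φ i j (fun a => V (Equiv.swap (.inl j) (.inr 0) a))
      + T φ i j (fun a => V (Equiv.swap (.inl j) (.inr 1) a)) = 1 := by
  set U : Fin d → S := fun k => V (.inl k) with hU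
  obtain ⟨c, hc⟩ := exists_coef φ U h0 (V (.inr 0))
  obtain ⟨c', hc'⟩ := exists_coef φ U h0 (V (.inr 1))
  have n0 : ∀ k, c k ≠ 0 := fun k hk => h1 k 0 (by rw [D_update φ U _ c hc, hk, zero_mul])
  have n1 : ∀ k, c' k ≠ 0 := fun k hk => h1 k 1 (by rw [D_update φ U _ c' hc', hk, zero_mul])
  have hb : φ (V (.inl j)) = ∑ k, (Pi.single j (1:ℝ) : Fin d → ℝ) k • φ (U k) := by
    simp [Pi.single_apply, hU]
  have s01 : Equiv.swap (Sum.inl j : Fin d ⊕ Fin 2) (.inr 0) (.inr 1) = .inr 1 :=
    Equiv.swap_apply_of_ne_of_ne (by simp) (by simp)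
  have s10 : Equiv.swap (Sum.inl j : Fin d ⊕ Fin 2) (.inr 1) (.inr 0) = .inr 0 :=
    Equiv.swap_apply_of_ne_of_ne (by simp) (by simp)
  have uj : Function.update U j (V (.inl j)) = U := Function.update_eq_self j U
  unfold T
  simp only [swap_inl, Equiv.swap_apply_right, s01, s10, Function.update_idem, ← hU, uj]
  rw [D_two φ U _ _ c _ hc hb hij (n0 j), D_two φ U _ _ c c' hc hc' hij (n0 j),
    D_two φ U _ _ c' _ hc' hb hij (n1 j), D_two φ U _ _ c' c hc' hc hij (n1 j)]
  simp only [D_update φ U _ c hc, D_update φ U _ c' hc', Pi.single_eq_same, Pi.single_eq_of_ne hij]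
  have := sign_three (mul_ne_zero (n0 i) (n1 j)) (mul_ne_zero (n1 i) (n0 j))
    (show 0 < D φ U ^ 4 by positivity)
  refine Eq.trans ?_ this
  refine congrArg₂ (· + ·) (congrArg₂ (· + ·) ?_ ?_) ?_ <;> exact congrArg Real.sign (by ring)

theorem T_meas {φ : S → Fin d → ℝ} (hφ : Measurable φ) (i j : Fin d) : Measurable (T φ i j) := by
  have h : ∀ k t, Measurable fun V : Fin d ⊕ Fin 2 → S =>
      D φ (Function.update (fun k => V (.inl k)) k (V (.inr t))) := by
    intro k t
    apply (D_meas hφ).comp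
    refine measurable_pi_lambda _ fun l => ?_
    by_cases hl : l = k
    · subst hl; simpa using measurable_pi_apply _
    · simpa [Function.update_of_ne hl] using measurable_pi_apply _
  have hs : Measurable Real.sign := by
    unfold Real.sign
    exact Measurable.ite measurableSet_Iio measurable_const
      (Measurable.ite measurableSet_Ioi measurable_const measurable_const)
  exact hs.comp ((((h i 0).mul (h j 0)).mul (h i 1)).mul (h j 1))

theorem reindex (σ : Measure S) [IsProbabilityMeasure σ] {α β : Type} [Fintype α] [Fintype β]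
    (e : α → β) (he : Function.Injective e) :
    MeasurePreserving (fun (V : β → S) a => V (e a)) (Measure.pi fun _ => σ) (Measure.pi fun _ => σ) := by
  refine ⟨measurable_pi_lambda _ fun a => measurable_pi_apply _, ?_⟩
  have := Measure.map_infinitePi_infinitePi_of_inj (P := fun _ : β => σ) he
  rwa [Measure.infinitePi_eq_pi, Measure.infinitePi_eq_pi] at this

theorem good_ae (σ : Measure S) [IsProbabilityMeasure σ] {φ : S → Fin d → ℝ} (hφ : Measurable φ)
    (hW : ∀ W : Submodule ℝ (Fin d → ℝ), W ≠ ⊤ → σ {x | φ x ∈ W} = 0) :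
    ∀ᵐ V ∂(Measure.pi fun _ : Fin d ⊕ Fin 2 => σ), D φ (fun k => V (.inl k)) ≠ 0 ∧
      ∀ k t, D φ (Function.update (fun k => V (.inl k)) k (V (.inr t))) ≠ 0 := by
  have h0 := (reindex σ (Sum.inl : Fin d → Fin d ⊕ Fin 2) Sum.inl_injective).quasiMeasurePreserving.ae
    (D_ae σ hφ hW)
  refine h0.and ?_
  rw [ae_all_iff]; intro k
  rw [ae_all_iff]; intro t
  have := (reindex σ (fun l => Equiv.swap (Sum.inl k : Fin d ⊕ Fin 2) (.inr t) (.inl l))
    ((Equiv.injective _).comp Sum.inl_injective)).quasiMeasurePreserving.ae (D_ae σ hφ hW)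
  filter_upwards [this] with V hV
  rwa [swap_inl] at hV

theorem T_int (σ : Measure S) [IsProbabilityMeasure σ] {φ : S → Fin d → ℝ} (hφ : Measurable φ)
    (hW : ∀ W : Submodule ℝ (Fin d → ℝ), W ≠ ⊤ → σ {x | φ x ∈ W} = 0) {i j : Fin d} (hij : i ≠ j) :
    ∫ V, T φ i j V ∂(Measure.pi fun _ : Fin d ⊕ Fin 2 => σ) = 1 / 3 := by
  set P := Measure.pi fun _ : Fin d ⊕ Fin 2 => σ
  have hi : Integrable (T φ i j) P := by
    refine Integrable.of_bound (T_meas hφ i j).aestronglyMeasurable 1 (Filter.Eventually.of_forall fun V => ?_)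
    unfold T
    rcases Real.sign_apply_eq _ with h | h | h <;> rw [h] <;> simp
  have hs : ∀ t : Fin 2, MeasurePreserving
      (fun (V : Fin d ⊕ Fin 2 → S) a => V (Equiv.swap (.inl j) (.inr t) a)) P P :=
    fun t => reindex σ _ (Equiv.injective _)
  have he : ∀ t : Fin 2, ∫ V, T φ i j (fun a => V (Equiv.swap (.inl j) (.inr t) a)) ∂P
      = ∫ V, T φ i j V ∂P := by
    intro t
    conv_rhs => rw [← (hs t).map_eq]
    rw [integral_map (hs t).measurable.aemeasurable (T_meas hφ i j).aestronglyMeasurable]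
  have i0 : Integrable (fun V : Fin d ⊕ Fin 2 → S =>
    T φ i j (fun a => V (Equiv.swap (.inl j) (.inr 0) a))) P := (hs 0).integrable_comp_of_integrable hi
  have i1 : Integrable (fun V : Fin d ⊕ Fin 2 → S =>
    T φ i j (fun a => V (Equiv.swap (.inl j) (.inr 1) a))) P := (hs 1).integrable_comp_of_integrable hi
  have h1 : ∫ V, (T φ i j V + T φ i j (fun a => V (Equiv.swap (.inl j) (.inr 0) a))
      + T φ i j (fun a => V (Equiv.swap (.inl j) (.inr 1) a))) ∂P = ∫ _V, (1:ℝ) ∂P := by
    apply integral_congr_ae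
    filter_upwards [good_ae σ hφ hW] with V hV
    exact T_sum φ hij V hV.1 hV.2
  have i01 : Integrable (fun V : Fin d ⊕ Fin 2 → S => T φ i j V +
    T φ i j (fun a => V (Equiv.swap (.inl j) (.inr 0) a))) P := hi.add i0
  rw [integral_add i01 i1, integral_add hi i0, he, he] at h1
  simp at h1
  linarith

end Pool.Agent.H44.SA
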