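import Pool.Agent.H44.SA1

namespace Pool.Agent.H44.SA
open MeasureTheory Finset

variable {d : ℕ} {S : Type} [MeasurableSpace S]

/-- Sign value of a bit. -/
noncomputable def val (b : Bool) : ℝ := if b then 1 else -1
/-- Sign pattern of the coordinates of `x` in the basis `U`. -/
noncomputable def pat (φ : S → Fin d → ℝ) (U : Fin d → S) (x : S) : Fin d → Bool :=
  fun i => decide (0 < D φ (Function.update U i x) * D φ U)
/-- Mass of a sign pattern. -/
noncomputable def pr (σ : Measure S) (φ : S → Fin d → ℝ) (U : Fin d → S) (ε : Fin d → Bool) : ℝ :=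
  σ.real {x | pat φ U x = ε}
/-- Mass of the positive hull. -/
noncomputable def al (σ : Measure S) (φ : S → Fin d → ℝ) (U : Fin d → S) : ℝ :=
  σ.real {x | ∃ l : Fin d → ℝ, (∀ i, 0 ≤ l i) ∧ φ x = ∑ i, l i • φ (U i)}

theorem pat_meas {φ : S → Fin d → ℝ} (hφ : Measurable φ) :
    Measurable (fun z : (Fin d → S) × S => pat φ z.1 z.2) := by
  refine measurable_pi_lambda _ fun i => ?_
  have h1 : Measurable fun z : (Fin d → S) × S => D φ (Function.update z.1 i z.2) :=
    (D_meas hφ).comp measurable_update'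
  have h2 : Measurable fun z : (Fin d → S) × S => D φ (Function.update z.1 i z.2) * D φ z.1 :=
    h1.mul ((D_meas hφ).comp measurable_fst)
  apply measurable_to_bool
  have : (fun z : (Fin d → S) × S => pat φ z.1 z.2 i) ⁻¹' {true}
      = {z | 0 < D φ (Function.update z.1 i z.2) * D φ z.1} := by
    ext z; simp [pat]
  rw [this]
  exact measurableSet_lt measurable_const h2

theorem pr_meas (σ : Measure S) [IsProbabilityMeasure σ] {φ : S → Fin d → ℝ} (hφ : Measurable φ)
    (ε : Fin d → Bool) : Measurable fun U => pr σ φ U ε :=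
  (measurable_measure_prodMk_left (ν := σ) (pat_meas hφ (measurableSet_singleton ε))).ennreal_toReal

theorem int_pat (σ : Measure S) [IsProbabilityMeasure σ] {φ : S → Fin d → ℝ} (hφ : Measurable φ)
    (U : Fin d → S) (g : (Fin d → Bool) → ℝ) :
    ∫ x, g (pat φ U x) ∂σ = ∑ ε, pr σ φ U ε * g ε := by
  have hm : ∀ ε, MeasurableSet {x | pat φ U x = ε} := fun ε =>
    ((pat_meas hφ).comp measurable_prodMk_left) (measurableSet_singleton ε)
  have h : ∀ x, g (pat φ U x) = ∑ ε, Set.indicator {x | pat φ U x = ε} (fun _ => g ε) x := by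
    intro x
    simp [Set.indicator_apply]
  simp only [h]
  rw [integral_finsetSum _ fun ε _ => (integrable_const _).indicator (hm ε)]
  refine sum_congr rfl fun ε _ => ?_
  rw [integral_indicator_const _ (hm ε)]; rfl

theorem val_sq (b : Bool) : val b * val b = 1 := by cases b <;> simp [val]

theorem sum_sq (ε : Fin d → Bool) : ∑ η : Fin d → Bool, (∑ i, val (ε i) * val (η i)) ^ 2 = d * 2 ^ d := by
  have h : ∀ i j : Fin d, ∑ η : Fin d → Bool, val (η i) * val (η j) = if i = j then 2 ^ d else 0 := by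
    intro i j
    split_ifs with hij
    · subst hij; simp [val_sq]
    · have hinv : Function.Involutive (fun η : Fin d → Bool => Function.update η i (!η i)) := by
        intro η; simp
      have h1 := Equiv.sum_comp hinv.toPerm (fun η => val (η i) * val (η j))
      have h2 : ∀ η : Fin d → Bool, val (hinv.toPerm _ η i) * val (hinv.toPerm _ η j)
          = -(val (η i) * val (η j)) := by
        intro η
        simp only [Function.Involutive.coe_toPerm, Function.update_self,
          Function.update_of_ne (Ne.symm hij)]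
        cases η i <;> cases η j <;> simp [val]
      simp only [h2, sum_neg_distrib] at h1
      linarith
  have e : ∀ η : Fin d → Bool, (∑ i, val (ε i) * val (η i)) ^ 2
      = ∑ i, ∑ j, val (ε i) * val (ε j) * (val (η i) * val (η j)) := by
    intro η; rw [sq, sum_mul_sum]
    exact sum_congr rfl fun i _ => sum_congr rfl fun j _ => by ring
  simp only [e]
  rw [sum_comm]
  rw [sum_congr rfl fun i _ => sum_comm]
  simp only [← mul_sum, h]
  simp [val_sq]

theorem ov_le (ε η : Fin d → Bool) : (∑ i, val (ε i) * val (η i)) ^ 2 ≤ d ^ 2 := by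
  apply sq_le_sq'
  · calc -(d:ℝ) = ∑ _i : Fin d, (-1:ℝ) := by simp
      _ ≤ _ := sum_le_sum fun i _ => by cases ε i <;> cases η i <;> simp [val]
  · calc _ ≤ ∑ _i : Fin d, (1:ℝ) := sum_le_sum fun i _ => by cases ε i <;> cases η i <;> simp [val]
      _ = d := by simp

theorem comb (p : (Fin d → Bool) → ℝ) (h0 : ∀ ε, 0 ≤ p ε) (h1 : ∑ ε, p ε = 1) (M : ℝ) :
    ∑ ε, p ε * ∑ η, p η * (∑ i, val (ε i) * val (η i)) ^ 2
      ≤ M * d + d ^ 2 * (1 - ∑ η, min (2 ^ d * p η) M / 2 ^ d) := by
  have hp : (0:ℝ) < 2 ^ d := by positivity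
  have h : ∀ ε : Fin d → Bool, ∑ η, p η * (∑ i, val (ε i) * val (η i)) ^ 2
      ≤ M * d + d ^ 2 * (1 - ∑ η, min (2 ^ d * p η) M / 2 ^ d) := by
    intro ε
    have e1 : M * d = ∑ η : Fin d → Bool, M / 2 ^ d * (∑ i, val (ε i) * val (η i)) ^ 2 := by
      rw [← mul_sum, sum_sq]; field_simp
    rw [e1, ← h1, ← sum_sub_distrib, mul_sum, ← sum_add_distrib]
    refine sum_le_sum fun η _ => ?_
    have a1 : min (2 ^ d * p η) M / 2 ^ d ≤ M / 2 ^ d :=
      div_le_div_of_nonneg_right (min_le_right _ _) hp.le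
    have a2 : min (2 ^ d * p η) M / 2 ^ d ≤ p η := by
      rw [div_le_iff₀ hp, mul_comm]; exact min_le_left _ _
    have a3 := ov_le ε η
    have a4 := sq_nonneg (∑ i, val (ε i) * val (η i))
    nlinarith [mul_le_mul_of_nonneg_right a1 a4, mul_le_mul_of_nonneg_left a3 (sub_nonneg.2 a2)]
  calc _ ≤ ∑ ε, p ε * (M * d + d ^ 2 * (1 - ∑ η, min (2 ^ d * p η) M / 2 ^ d)) :=
        sum_le_sum fun ε _ => mul_le_mul_of_nonneg_left (h ε) (h0 ε)
    _ = _ := by rw [← sum_mul, h1, one_mul]

theorem val_eq {a : ℝ} (ha : a ≠ 0) : val (decide (0 < a)) = a / |a| := by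
  rcases lt_or_gt_of_ne ha with h | h
  · simp [val, h.not_gt, abs_of_neg h, div_neg, div_self ha]
  · simp [val, h, abs_of_pos h, div_self ha]

theorem sign_eq {a : ℝ} (ha : a ≠ 0) : Real.sign a = a / |a| := by
  rcases lt_or_gt_of_ne ha with h | h
  · rw [Real.sign_of_neg h, abs_of_neg h, div_neg, div_self ha]
  · rw [Real.sign_of_pos h, abs_of_pos h, div_self ha]

theorem four {a b c e β : ℝ} (ha : a ≠ 0) (hb : b ≠ 0) (hc : c ≠ 0) (he : e ≠ 0) (hβ : β ≠ 0) :
    val (decide (0 < a * β)) * val (decide (0 < c * β)) * (val (decide (0 < b * β))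
      * val (decide (0 < e * β))) = Real.sign (a * b * c * e) := by
  rw [val_eq (mul_ne_zero ha hβ), val_eq (mul_ne_zero hb hβ), val_eq (mul_ne_zero hc hβ),
    val_eq (mul_ne_zero he hβ), sign_eq (by positivity)]
  simp only [abs_mul]
  have h1 : |β| ^ 4 = β ^ 4 := by rw [show (4:ℕ) = 2 * 2 by rfl, pow_mul, sq_abs, ← pow_mul]
  have := abs_pos.2 ha; have := abs_pos.2 hb; have := abs_pos.2 hc; have := abs_pos.2 he
  have := abs_pos.2 hβ
  field_simp
  rw [h1]

theorem second_moment (σ : Measure S) [IsProbabilityMeasure σ] {φ : S → Fin d → ℝ} (hφ : Measurable φ)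
    (hW : ∀ W : Submodule ℝ (Fin d → ℝ), W ≠ ⊤ → σ {x | φ x ∈ W} = 0) :
    (d:ℝ) ^ 2 / 3 ≤ ∫ U, (∑ ε, pr σ φ U ε * ∑ η, pr σ φ U η * (∑ i, val (ε i) * val (η i)) ^ 2)
      ∂(Measure.pi fun _ : Fin d => σ) := by
  set P := Measure.pi fun _ : Fin d => σ
  set P2 := Measure.pi fun _ : Fin d ⊕ Fin 2 => σ
  let F : (Fin d → S) × S × S → ℝ := fun z => (∑ i, val (pat φ z.1 z.2.1 i) * val (pat φ z.1 z.2.2 i)) ^ 2
  have hv : Measurable val := measurable_of_finite _
  have hc : ∀ i, Measurable fun z : (Fin d → S) × S × S =>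
      val (pat φ z.1 z.2.1 i) * val (pat φ z.1 z.2.2 i) := by
    intro i
    have a1 : Measurable fun z : (Fin d → S) × S × S => pat φ z.1 z.2.1 :=
      (pat_meas hφ).comp (measurable_fst.prodMk measurable_snd.fst)
    have a2 : Measurable fun z : (Fin d → S) × S × S => pat φ z.1 z.2.2 :=
      (pat_meas hφ).comp (measurable_fst.prodMk measurable_snd.snd)
    exact (hv.comp ((measurable_pi_apply i).comp a1)).mul (hv.comp ((measurable_pi_apply i).comp a2))
  have hF : Measurable F := (Finset.measurable_sum _ fun i _ => hc i).pow_const 2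
  have hFb : ∀ z, ‖F z‖ ≤ d ^ 2 := fun z => by
    rw [Real.norm_eq_abs, abs_of_nonneg (sq_nonneg _)]; exact ov_le _ _
  have hFi : Integrable F (P.prod (σ.prod σ)) :=
    Integrable.of_bound hF.aestronglyMeasurable _ (Filter.Eventually.of_forall hFb)
  have e1 : ∫ U, (∑ ε, pr σ φ U ε * ∑ η, pr σ φ U η * (∑ i, val (ε i) * val (η i)) ^ 2) ∂P
      = ∫ z, F z ∂(P.prod (σ.prod σ)) := by
    rw [integral_prod _ hFi]
    refine integral_congr_ae (Filter.Eventually.of_forall fun U => ?_)
    have hi : Integrable (fun w : S × S => F (U, w)) (σ.prod σ) :=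
      Integrable.of_bound (hF.comp measurable_prodMk_left).aestronglyMeasurable _
        (Filter.Eventually.of_forall fun w => hFb _)
    beta_reduce
    rw [integral_prod _ hi, ← int_pat σ hφ U
      (fun ε => ∑ η, pr σ φ U η * (∑ i, val (ε i) * val (η i)) ^ 2)]
    refine integral_congr_ae (Filter.Eventually.of_forall fun x => ?_)
    exact (int_pat σ hφ U (fun η => (∑ i, val (pat φ U x i) * val (η i)) ^ 2)).symm
  have hmp : MeasurePreserving (fun V : Fin d ⊕ Fin 2 → S =>
      ((fun k => V (.inl k)), (V (.inr 0), V (.inr 1)))) P2 (P.prod (σ.prod σ)) :=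
    ((MeasurePreserving.id P).prod (measurePreserving_finTwoArrow σ)).comp
      (measurePreserving_sumPiEquivProdPi (fun _ : Fin d ⊕ Fin 2 => σ))
  rw [e1, ← hmp.map_eq, integral_map hmp.measurable.aemeasurable hF.aestronglyMeasurable]
  have hT : ∀ i j, Integrable (T φ i j) P2 := fun i j => by
    refine Integrable.of_bound (T_meas hφ i j).aestronglyMeasurable 1 (Filter.Eventually.of_forall fun V => ?_)
    unfold T
    rcases Real.sign_apply_eq _ with h | h | h <;> rw [h] <;> simp
  have e2 : ∫ V, F ((fun k => V (.inl k)), (V (.inr 0), V (.inr 1))) ∂P2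
      = ∫ V, ∑ i, ∑ j, T φ i j V ∂P2 := by
    apply integral_congr_ae
    filter_upwards [good_ae σ hφ hW] with V hV
    simp only [F]
    rw [sq, sum_mul_sum]
    refine sum_congr rfl fun i _ => sum_congr rfl fun j _ => ?_
    exact four (hV.2 i 0) (hV.2 j 0) (hV.2 i 1) (hV.2 j 1) hV.1
  rw [e2, integral_finsetSum _ fun i _ => integrable_finsetSum _ fun j _ => hT i j]
  have e3 : ∀ i j, 1 / 3 ≤ ∫ V, T φ i j V ∂P2 := by
    intro i j
    by_cases hij : i = j
    · subst hij
      have : ∫ V, T φ i i V ∂P2 = ∫ _V, (1:ℝ) ∂P2 := by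
        apply integral_congr_ae
        filter_upwards [good_ae σ hφ hW] with V hV
        unfold T
        apply Real.sign_of_pos
        have a := mul_self_pos.2 (hV.2 i 0)
        have b := mul_self_pos.2 (hV.2 i 1)
        rw [mul_assoc]; exact mul_pos a b
      rw [this]; simp; norm_num
    · rw [T_int σ hφ hW hij]
  calc (d:ℝ) ^ 2 / 3 = ∑ _i : Fin d, ∑ _j : Fin d, (1 / 3 : ℝ) := by simp; ring
    _ ≤ _ := sum_le_sum fun i _ => by
        rw [integral_finsetSum _ fun j _ => hT i j]
        exact sum_le_sum fun j _ => e3 i j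

/-- Flipping the generators. -/
def fl (ν : S → S) (ε : Fin d → Bool) (U : Fin d → S) : Fin d → S := fun i => if ε i then U i else ν (U i)

theorem al_flip (σ : Measure S) (φ : S → Fin d → ℝ) (ν : S → S) (hν : ∀ s, φ (ν s) = -φ s)
    (U : Fin d → S) (h0 : D φ U ≠ 0) (h1 : ∀ᵐ x ∂σ, ∀ i, D φ (Function.update U i x) ≠ 0)
    (ε : Fin d → Bool) : al σ φ (fl ν ε U) = pr σ φ U ε := by
  unfold al pr Measure.real
  congr 1
  apply measure_congr
  filter_upwards [h1] with x hx
  have hf : ∀ i, φ (fl ν ε U i) = val (ε i) • φ (U i) := by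
    intro i; unfold fl val; cases ε i <;> simp [hν]
  have hD := mul_self_pos.2 h0
  apply propext
  constructor
  · rintro ⟨l, hl, h⟩
    simp only [hf, smul_smul] at h
    funext i
    have e := D_update φ U x _ h i
    have n := hx i
    have l0 : 0 < l i := lt_of_le_of_ne (hl i) (fun h0 => n (by rw [e, ← h0]; ring))
    unfold pat
    rw [e]
    cases ε i
    · simp only [val, decide_eq_false_iff_not, not_lt]; simp; nlinarith
    · simp only [val, decide_eq_true_eq]; simp; nlinarith
  · intro h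
    obtain ⟨c, hc⟩ := exists_coef φ U h0 x
    refine ⟨fun i => c i * val (ε i), fun i => ?_, ?_⟩
    · have h' : pat φ U x i = ε i := congrFun h i
      unfold pat at h'
      rw [D_update φ U x c hc] at h'
      cases hε : ε i
      · rw [hε, decide_eq_false_iff_not, not_lt] at h'
        simp only [val, hε]; simp; nlinarith
      · rw [hε, decide_eq_true_eq] at h'
        simp only [val, hε]; simp; nlinarith
    · simp only [hf, smul_smul, mul_assoc, val_sq, mul_one]; exact hc

theorem good_U (σ : Measure S) [IsProbabilityMeasure σ] {φ : S → Fin d → ℝ} (hφ : Measurable φ)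
    (hW : ∀ W : Submodule ℝ (Fin d → ℝ), W ≠ ⊤ → σ {x | φ x ∈ W} = 0) :
    ∀ᵐ U ∂(Measure.pi fun _ : Fin d => σ), D φ U ≠ 0 ∧
      ∀ᵐ x ∂σ, ∀ i, D φ (Function.update U i x) ≠ 0 := by
  filter_upwards [D_ae σ hφ hW] with U hU
  refine ⟨hU, ?_⟩
  rw [ae_all_iff]
  intro i
  let L : (Fin d → ℝ) →ₗ[ℝ] ℝ :=
    { toFun := fun y => ((Matrix.of fun k => φ (U k)).updateRow i y).det
      map_add' := fun a b => Matrix.det_updateRow_add _ _ _ _
      map_smul' := fun c a => by simpa using Matrix.det_updateRow_smul _ _ _ _ }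
  have hL : ∀ x, L (φ x) = D φ (Function.update U i x) := by
    intro x
    simp only [L, D, LinearMap.coe_mk, AddHom.coe_mk]
    congr 1
    ext k l
    by_cases hk : k = i
    · subst hk; simp
    · simp [Matrix.updateRow_ne hk, Function.update_of_ne hk]
  have hne : LinearMap.ker L ≠ ⊤ := by
    intro h
    have : φ (U i) ∈ LinearMap.ker L := by rw [h]; trivial
    rw [LinearMap.mem_ker, hL, Function.update_eq_self] at this
    exact hU this
  filter_upwards [measure_eq_zero_iff_ae_notMem.1 (hW _ hne)] with x hx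
  rw [← hL]; exact hx

theorem main (σ : Measure S) [IsProbabilityMeasure σ] {φ : S → Fin d → ℝ} (hφ : Measurable φ)
    (hW : ∀ W : Submodule ℝ (Fin d → ℝ), W ≠ ⊤ → σ {x | φ x ∈ W} = 0)
    (ν : S → S) (hν : ∀ s, φ (ν s) = -φ s) (hm : MeasurePreserving ν σ σ) (hd : 0 < d) (M : ℝ)
    (hM : 0 ≤ M) :
    ∫ U, min (2 ^ d * al σ φ U) M ∂(Measure.pi fun _ : Fin d => σ) ≤ 2 / 3 + M / d := by
  set P := Measure.pi fun _ : Fin d => σ
  have hdR : (0:ℝ) < d := Nat.cast_pos.2 hd
  have hp : (0:ℝ) < 2 ^ d := by positivity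
  have hfl : ∀ ε, MeasurePreserving (fl ν ε) P P := fun ε =>
    measurePreserving_pi (fun _ : Fin d => σ) (fun _ => σ)
      (f := fun i s => if ε i then s else ν s) (fun i => by
        cases ε i
        · simpa using hm
        · simp only [if_true]; exact MeasurePreserving.id σ)
  have htt : ∀ U : Fin d → S, fl ν (fun _ => true) U = U := fun U => by funext i; simp [fl]
  have hg := good_U σ hφ hW
  have mm : ∀ ε, Measurable fun U => min (2 ^ d * pr σ φ U ε) M := fun ε =>
    ((pr_meas σ hφ ε).const_mul _).min measurable_const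
  have pr0 : ∀ U ε, 0 ≤ pr σ φ U ε := fun U ε => measureReal_nonneg
  have mi : ∀ ε, Integrable (fun U => min (2 ^ d * pr σ φ U ε) M) P := fun ε =>
    Integrable.of_bound (mm ε).aestronglyMeasurable M (Filter.Eventually.of_forall fun U => by
      rw [Real.norm_eq_abs, abs_of_nonneg (le_min (mul_nonneg hp.le (pr0 U ε)) hM)]
      exact min_le_right _ _)
  have e1 : ∀ ε, ∫ U, min (2 ^ d * al σ φ U) M ∂P = ∫ U, min (2 ^ d * pr σ φ U ε) M ∂P := by
    intro ε
    have a1 : ∫ U, min (2 ^ d * al σ φ U) M ∂P = ∫ U, min (2 ^ d * pr σ φ U (fun _ => true)) M ∂P := by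
      apply integral_congr_ae
      filter_upwards [hg] with U hU
      rw [← al_flip σ φ ν hν U hU.1 hU.2, htt]
    rw [a1]
    conv_lhs => rw [← (hfl ε).map_eq]
    rw [integral_map (hfl ε).measurable.aemeasurable (mm _).aestronglyMeasurable]
    apply integral_congr_ae
    filter_upwards [hg, (hfl ε).quasiMeasurePreserving.ae hg] with U hU hU'
    rw [← al_flip σ φ ν hν _ hU'.1 hU'.2, htt, al_flip σ φ ν hν U hU.1 hU.2]
  set I := ∫ U, min (2 ^ d * al σ φ U) M ∂P
  have si : Integrable (fun U => ∑ η, min (2 ^ d * pr σ φ U η) M / 2 ^ d) P :=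
    integrable_finsetSum _ fun η _ => (mi η).div_const _
  have e2 : ∫ U, ∑ η, min (2 ^ d * pr σ φ U η) M / 2 ^ d ∂P = I := by
    rw [integral_finsetSum _ fun η _ => (mi η).div_const _]
    simp only [integral_div, ← e1]
    simp; field_simp
  have e3 := second_moment σ hφ hW
  have e4 : ∫ U, (∑ ε, pr σ φ U ε * ∑ η, pr σ φ U η * (∑ i, val (ε i) * val (η i)) ^ 2) ∂P
      ≤ ∫ U, (M * d + d ^ 2 * (1 - ∑ η, min (2 ^ d * pr σ φ U η) M / 2 ^ d)) ∂P := by
    apply integral_mono_of_nonneg
    · exact Filter.Eventually.of_forall fun U => sum_nonneg fun ε _ => mul_nonneg (pr0 U ε)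
        (sum_nonneg fun η _ => mul_nonneg (pr0 U η) (sq_nonneg _))
    · exact (integrable_const _).add (((integrable_const _).sub si).const_mul _)
    · refine Filter.Eventually.of_forall fun U => comb _ (pr0 U) ?_ M
      have := int_pat σ hφ U (fun _ => 1)
      simpa using this.symm
  have i2 : Integrable (fun U => 1 - ∑ η, min (2 ^ d * pr σ φ U η) M / 2 ^ d) P :=
    (integrable_const _).sub si
  rw [integral_add (integrable_const _) (i2.const_mul _), integral_const_mul ((d:ℝ) ^ 2),
    integral_sub (integrable_const _) si, e2] at e4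
  simp only [integral_const, probReal_univ, smul_eq_mul, one_mul, mul_one] at e4
  have e5 : (d:ℝ) ^ 2 * I ≤ d ^ 2 * (2 / 3 + M / d) := by
    have : (d:ℝ) ^ 2 * (M / d) = M * d := by field_simp
    nlinarith
  exact le_of_mul_le_mul_left e5 (by positivity)

end Pool.Agent.H44.SA
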