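import Mathlib

namespace Pool.Agent.H44.SA
open MeasureTheory

/-- The unit sphere of `ℝ^d`. -/
abbrev Sph (d : ℕ) := Metric.sphere (0 : EuclideanSpace ℝ (Fin d)) 1

/-- The rotation-invariant probability measure on the unit sphere of `ℝ^d` (normalised cone
measure of Lebesgue measure). -/
noncomputable def sphLaw (d : ℕ) : Measure (Sph d) :=
  ((volume : Measure (EuclideanSpace ℝ (Fin d))).toSphere Set.univ)⁻¹ •
    (volume : Measure (EuclideanSpace ℝ (Fin d))).toSphere

/-- The solid angle of the positive hull of `U 1, …, U d`. -/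
noncomputable def solidAngle (d : ℕ) (U : Fin d → Sph d) : ℝ :=
  (sphLaw d).real {x | ∃ l : Fin d → ℝ, (∀ i, 0 ≤ l i) ∧
    (x : EuclideanSpace ℝ (Fin d)) = ∑ i, l i • (U i : EuclideanSpace ℝ (Fin d))}

end Pool.Agent.H44.SA
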