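import Pool.Agent.H44.SA2
import Pool.Agent.H44.SADefs

namespace Pool.Agent.H44.SA
open MeasureTheory Finset
open scoped Pointwise

theorem sph_prob {d : ℕ} (hd : 0 < d) : IsProbabilityMeasure (sphLaw d) := by
  haveI : Nonempty (Fin d) := ⟨⟨0, hd⟩⟩
  constructor
  unfold sphLaw
  rw [Measure.smul_apply, smul_eq_mul]
  exact ENNReal.inv_mul_cancel (by
    rw [Ne, Measure.measure_univ_eq_zero]; exact Measure.toSphere_ne_zero _) (measure_ne_top _ _)

theorem sph_bound {d : ℕ} (hd : 0 < d) (M : ℝ) (hM : 0 ≤ M) :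
    ∫ U, min (2 ^ d * solidAngle d U) M ∂(Measure.pi fun _ : Fin d => sphLaw d) ≤ 2 / 3 + M / d := by
  haveI := sph_prob hd
  let φ : Sph d → Fin d → ℝ := fun s => WithLp.ofLp (s : EuclideanSpace ℝ (Fin d))
  have hφc : Continuous φ := (PiLp.continuous_ofLp 2 _).comp continuous_subtype_val
  have hW : ∀ W : Submodule ℝ (Fin d → ℝ), W ≠ ⊤ → sphLaw d {x | φ x ∈ W} = 0 := by
    intro W hW
    have hc : MeasurableSet {x | φ x ∈ W} :=
      (W.closed_of_finiteDimensional.preimage hφc).measurableSet
    unfold sphLaw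
    rw [Measure.smul_apply, Measure.toSphere_apply' _ hc]
    let W' : Submodule ℝ (EuclideanSpace ℝ (Fin d)) :=
      W.comap (WithLp.linearEquiv 2 ℝ (Fin d → ℝ)).toLinearMap
    have hW' : W' ≠ ⊤ := by
      intro h
      apply hW
      rw [Submodule.eq_top_iff']
      intro y
      have : WithLp.toLp 2 y ∈ W' := by rw [h]; trivial
      simpa [W'] using this
    have h0 := Measure.addHaar_submodule (volume : Measure (EuclideanSpace ℝ (Fin d))) W' hW'
    rw [measure_mono_null _ h0]
    · simp
    · rintro _ ⟨r, _, _, ⟨x, hx, rfl⟩, rfl⟩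
      exact W'.smul_mem r hx
  have hm : MeasurePreserving (fun s : Sph d => -s) (sphLaw d) (sphLaw d) := by
    have hc : Measurable (fun s : Sph d => -s) := continuous_neg.measurable
    refine ⟨hc, Measure.ext fun s hs => ?_⟩
    rw [Measure.map_apply hc hs]
    unfold sphLaw
    rw [Measure.smul_apply, Measure.smul_apply, Measure.toSphere_apply' _ hs,
      Measure.toSphere_apply' _ (hc hs)]
    congr 2
    rw [← Measure.measure_neg]
    congr 1
    ext y
    simp only [Set.mem_neg]
    constructor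
    · rintro ⟨r, hr, _, ⟨x, hx, rfl⟩, h⟩
      refine ⟨r, hr, _, ⟨-x, hx, rfl⟩, ?_⟩
      simp only at h ⊢
      rw [coe_neg_sphere, smul_neg, h, neg_neg]
    · rintro ⟨r, hr, _, ⟨x, hx, rfl⟩, h⟩
      refine ⟨r, hr, _, ⟨-x, by simpa using hx, rfl⟩, ?_⟩
      simp only at h ⊢
      rw [coe_neg_sphere, smul_neg, h]
  have := main (sphLaw d) hφc.measurable hW (fun s => -s) (fun s => by simp [φ]) hm hd M hM
  refine le_trans (le_of_eq ?_) this
  congr 1; funext U
  congr 2
  unfold solidAngle al
  congr 1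
  ext x
  simp only [Set.mem_ofPred_eq, φ]
  refine exists_congr fun l => and_congr_right fun _ => ?_
  rw [← (WithLp.ofLp_injective 2).eq_iff]
  simp

theorem no_limit : ¬ ∃ μ : Measure ℝ, IsProbabilityMeasure μ ∧ Integrable (fun x => x) μ ∧
    ∫ x, x ∂μ = 1 ∧ ∀ g : BoundedContinuousFunction ℝ ℝ, Filter.Tendsto
      (fun d : ℕ => ∫ U, g (2 ^ d * solidAngle d U) ∂(Measure.pi fun _ : Fin d => sphLaw d))
      Filter.atTop (nhds (∫ x, g x ∂μ)) := by
  rintro ⟨μ, _, hi, h1, hg⟩
  have hb : ∀ M : ℕ, ∫ x, min (max x 0) M ∂μ ≤ 2 / 3 := by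
    intro M
    let g : BoundedContinuousFunction ℝ ℝ := BoundedContinuousFunction.ofNormedAddCommGroup
      (fun x => min (max x 0) M) (by fun_prop) M (fun x => by
        rw [Real.norm_eq_abs, abs_of_nonneg (le_min (le_max_right _ _) (Nat.cast_nonneg _))]
        exact min_le_right _ _)
    have t2 : Filter.Tendsto (fun d : ℕ => 2 / 3 + (M:ℝ) / d) Filter.atTop (nhds (2 / 3 + 0)) :=
      tendsto_const_nhds.add (tendsto_const_div_atTop_nhds_zero_nat _)
    rw [add_zero] at t2
    refine le_of_tendsto_of_tendsto (hg g) t2 ?_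
    filter_upwards [Filter.eventually_gt_atTop 0] with d hd
    refine le_trans (le_of_eq ?_) (sph_bound hd M (Nat.cast_nonneg _))
    congr 1; funext U
    have : 0 ≤ 2 ^ d * solidAngle d U := mul_nonneg (by positivity) measureReal_nonneg
    simp only [g, BoundedContinuousFunction.coe_ofNormedAddCommGroup, max_eq_left this]
  have ht : Filter.Tendsto (fun M : ℕ => ∫ x, min (max x 0) M ∂μ) Filter.atTop
      (nhds (∫ x, max x 0 ∂μ)) := by
    apply tendsto_integral_of_dominated_convergence (fun x => ‖x‖)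
    · intro M
      exact (show Continuous fun x : ℝ => min (max x 0) (M:ℝ) by fun_prop).aestronglyMeasurable
    · exact hi.norm
    · intro M
      refine Filter.Eventually.of_forall fun x => ?_
      rw [Real.norm_eq_abs, abs_of_nonneg (le_min (le_max_right _ _) (Nat.cast_nonneg _))]
      exact (min_le_left _ _).trans (max_le (le_abs_self _) (abs_nonneg _))
    · refine Filter.Eventually.of_forall fun x => ?_
      apply tendsto_const_nhds.congr'
      filter_upwards [tendsto_natCast_atTop_atTop.eventually_ge_atTop (max x 0)] with M hM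
      exact (min_eq_left hM).symm
  have h2 := le_of_tendsto' ht hb
  have h3 : ∫ x, x ∂μ ≤ ∫ x, max x 0 ∂μ :=
    integral_mono hi hi.pos_part fun x => le_max_left _ _
  linarith

end Pool.Agent.H44.SA
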