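import Pool.Agent.H44.SBDefs
import Pool.Agent.H44.Har

open MeasureTheory ProbabilityTheory Set unitInterval
open scoped ENNReal

namespace Pool.Agent.H44.SB

theorem many {Ω : Type} [MeasurableSpace Ω] (μ : Measure Ω) [IsProbabilityMeasure μ]
    (T B : ℕ → Set Ω) (hT : ∀ k, MeasurableSet (T k)) (hB : ∀ k, MeasurableSet (B k))
    {δ ε : ℝ} (hδ : 0 < δ) (h1 : ∀ k, δ ≤ μ.real (T k))
    (h2 : ∀ k l, k ≠ l → μ (T k ∩ T l) = μ (T k) * μ (T l))
    (h3 : ∀ k, μ.real (T k ∩ B k) ≤ ε * μ.real (T k)) :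
    μ.real {ω | ∀ k, ω ∈ T k → ω ∈ B k} ≤ ε := by
  classical
  set E := {ω | ∀ k, ω ∈ T k → ω ∈ B k} with hE
  have hEm : MeasurableSet E := by
    have : E = ⋂ k, (T k)ᶜ ∪ B k := by
      ext ω; simp only [hE, mem_ofPred_eq, mem_iInter, mem_union, mem_compl_iff, imp_iff_not_or]
    rw [this]; exact MeasurableSet.iInter fun k => (hT k).compl.union (hB k)
  refine le_of_forall_pos_le_add fun η hη => ?_
  obtain ⟨M, hM⟩ := exists_nat_gt (1 / (η ^ 2 * δ))
  set m := ∑ k ∈ Finset.range M, μ.real (T k) with hm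
  have hmM : M * δ ≤ m := by
    have := Finset.sum_le_sum (s := Finset.range M) fun k _ => h1 k
    rwa [Finset.sum_const, Finset.card_range, nsmul_eq_mul] at this
  rw [div_lt_iff₀ (by positivity)] at hM
  have hm1 : 1 ≤ η ^ 2 * m := by nlinarith [sq_nonneg η]
  have hm0 : 0 < m := by nlinarith [sq_nonneg η]
  set f : ℕ → Ω → ℝ := fun k ω => (T k).indicator 1 ω - μ.real (T k) with hf
  have ii : ∀ s : Set Ω, MeasurableSet s → Integrable (s.indicator (1 : Ω → ℝ)) μ := fun s hs =>
    (integrable_const (1 : ℝ)).indicator hs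
  have prod : ∀ k l, (fun ω => f k ω * f l ω) = fun ω => (T k ∩ T l).indicator 1 ω -
      μ.real (T l) * (T k).indicator 1 ω - μ.real (T k) * (T l).indicator 1 ω +
        μ.real (T k) * μ.real (T l) := by
    intro k l; funext ω
    rw [inter_indicator_one, Pi.mul_apply]; simp only [hf]; ring
  have i1 : ∀ k l, Integrable (fun ω => (T k ∩ T l).indicator (1 : Ω → ℝ) ω -
      μ.real (T l) * (T k).indicator 1 ω) μ := fun k l =>
    (ii _ ((hT k).inter (hT l))).sub ((ii _ (hT k)).const_mul _)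
  have i2 : ∀ k l, Integrable (fun ω => (T k ∩ T l).indicator (1 : Ω → ℝ) ω -
      μ.real (T l) * (T k).indicator 1 ω - μ.real (T k) * (T l).indicator 1 ω) μ := fun k l =>
    (i1 k l).sub ((ii _ (hT l)).const_mul _)
  have iff : ∀ k l, Integrable (fun ω => f k ω * f l ω) μ := fun k l => by
    rw [prod]; exact (i2 k l).add (integrable_const _)
  have cov : ∀ k l, ∫ ω, f k ω * f l ω ∂μ = μ.real (T k ∩ T l) - μ.real (T k) * μ.real (T l) := by
    intro k l
    rw [prod, integral_add (i2 k l) (integrable_const _),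
      integral_sub (i1 k l) ((ii _ (hT l)).const_mul _),
      integral_sub (ii _ ((hT k).inter (hT l))) ((ii _ (hT k)).const_mul _), integral_const_mul,
      integral_const_mul, integral_indicator_one ((hT k).inter (hT l)),
      integral_indicator_one (hT k), integral_indicator_one (hT l)]
    simp only [integral_const, probReal_univ, smul_eq_mul, one_mul]; ring
  have iv : Integrable (fun ω => ∑ k ∈ Finset.range M, ∑ l ∈ Finset.range M, f k ω * f l ω) μ :=
    integrable_finsetSum _ fun k _ => integrable_finsetSum _ fun l _ => iff k l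
  have var : ∫ ω, ∑ k ∈ Finset.range M, ∑ l ∈ Finset.range M, f k ω * f l ω ∂μ ≤ m := by
    rw [integral_finsetSum _ fun k _ => integrable_finsetSum _ fun l _ => iff k l]
    refine Finset.sum_le_sum fun k hk => ?_
    rw [integral_finsetSum _ fun l _ => iff k l, Finset.sum_eq_single k]
    · rw [cov, inter_self]; nlinarith [measureReal_nonneg (μ := μ) (s := T k)]
    · intro l _ hl
      rw [cov, measureReal_def, h2 k l hl.symm, ENNReal.toReal_mul]; exact sub_self _
    · intro h; exact absurd hk h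
  have ib : Integrable (fun ω => ∑ k ∈ Finset.range M, (T k ∩ B k).indicator (1 : Ω → ℝ) ω) μ :=
    integrable_finsetSum _ fun k _ => ii _ ((hT k).inter (hB k))
  have hb : ∫ ω, ∑ k ∈ Finset.range M, (T k ∩ B k).indicator (1 : Ω → ℝ) ω ∂μ ≤ ε * m := by
    rw [integral_finsetSum _ fun k _ => ii _ ((hT k).inter (hB k)), hm, Finset.mul_sum]
    refine Finset.sum_le_sum fun k _ => ?_
    rw [integral_indicator_one ((hT k).inter (hB k))]; exact h3 k
  have pt : ∀ ω, m * E.indicator 1 ω ≤
      ∑ k ∈ Finset.range M, (T k ∩ B k).indicator (1 : Ω → ℝ) ω +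
        (η / 2 * ∑ k ∈ Finset.range M, ∑ l ∈ Finset.range M, f k ω * f l ω + 1 / (2 * η)) := by
    intro ω
    rw [← Finset.sum_mul_sum]
    set s := ∑ k ∈ Finset.range M, f k ω with hs
    have h4 : -s ≤ η / 2 * (s * s) + 1 / (2 * η) := by
      have : η / 2 * (s * s) + 1 / (2 * η) + s = (η * s + 1) ^ 2 / (2 * η) := by field_simp; ring
      have h5 : 0 ≤ (η * s + 1) ^ 2 / (2 * η) := by positivity
      linarith
    by_cases hω : ω ∈ E
    · rw [indicator_of_mem hω, Pi.one_apply, mul_one]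
      have : ∑ k ∈ Finset.range M, (T k ∩ B k).indicator (1 : Ω → ℝ) ω = s + m := by
        rw [hs, hm, ← Finset.sum_add_distrib]
        refine Finset.sum_congr rfl fun k _ => ?_
        simp only [hf, sub_add_cancel]
        by_cases hk : ω ∈ T k
        · rw [indicator_of_mem hk, indicator_of_mem (show ω ∈ T k ∩ B k from ⟨hk, hω k hk⟩)]
        · rw [indicator_of_notMem hk, indicator_of_notMem fun h => hk h.1]
      linarith
    · rw [indicator_of_notMem hω, mul_zero]
      have h5 : 0 ≤ ∑ k ∈ Finset.range M, (T k ∩ B k).indicator (1 : Ω → ℝ) ω :=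
        Finset.sum_nonneg fun k _ => indicator_nonneg (fun _ _ => zero_le_one) _
      have h6 : 0 ≤ η / 2 * (s * s) := mul_nonneg (by linarith) (mul_self_nonneg s)
      have h7 : 0 ≤ 1 / (2 * η) := by positivity
      linarith
  have ic : Integrable (fun ω => η / 2 * ∑ k ∈ Finset.range M, ∑ l ∈ Finset.range M,
      f k ω * f l ω + 1 / (2 * η)) μ := (iv.const_mul _).add (integrable_const _)
  have id : Integrable (fun ω => ∑ k ∈ Finset.range M, (T k ∩ B k).indicator (1 : Ω → ℝ) ω +
        (η / 2 * ∑ k ∈ Finset.range M, ∑ l ∈ Finset.range M, f k ω * f l ω + 1 / (2 * η))) μ :=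
    ib.add ic
  have h5 := integral_mono ((ii _ hEm).const_mul m) id pt
  rw [integral_const_mul, integral_indicator_one hEm, integral_add ib ic,
    integral_add (iv.const_mul _) (integrable_const _), integral_const_mul] at h5
  simp only [integral_const, probReal_univ, smul_eq_mul, one_mul] at h5
  have h6 := mul_le_mul_of_nonneg_left var (by linarith : 0 ≤ η / 2)
  have h7 : 1 / (2 * η) ≤ η / 2 * m := by
    rw [div_le_iff₀ (by linarith)]; nlinarith
  have h8 : m * μ.real E ≤ m * (ε + η) := by linarith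
  exact le_of_mul_le_mul_left h8 hm0

abbrev V := ℤ × ℤ
abbrev Cf := Sym2 V → Bool

instance (R : Set V) (p q : I) : IsProbabilityMeasure (law R p q) := by
  unfold law; infer_instance

lemma adj_symm {x y : V} (h : adj x y) : adj y x := by
  unfold adj at *; rwa [abs_sub_comm y.1, abs_sub_comm y.2]

lemma adj_ne {x y : V} (h : adj x y) : y ≠ x := by
  rintro rfl; simp [adj] at h

def nb (x : V) : Finset V := {(x.1 + 1, x.2), (x.1 - 1, x.2), (x.1, x.2 + 1), (x.1, x.2 - 1)}

lemma mem_nb {x y : V} (h : adj x y) : y ∈ nb x := by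
  obtain ⟨a, b⟩ := y
  simp only [adj] at h
  simp only [nb, Finset.mem_insert, Finset.mem_singleton, Prod.mk.injEq]
  rcases abs_cases (x.1 - a) with h1 | h1 <;> rcases abs_cases (x.2 - b) with h2 | h2 <;> omega

lemma adj_of_nb {x y : V} (h : y ∈ nb x) : adj x y := by
  simp only [nb, Finset.mem_insert, Finset.mem_singleton] at h
  rcases h with rfl | rfl | rfl | rfl <;> simp [adj]

lemma card_nb (x : V) : (nb x).card ≤ 4 := Finset.card_le_four

def saw (ω : Cf) : ℕ → Set V → V → Prop
  | 0, _, _ => True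
  | D + 1, S, x => ∃ y, adj x y ∧ y ∈ S \ {x} ∧ ω s(x, y) = true ∧ saw ω D (S \ {x}) y

def Ed (S : Set V) : Set (Sym2 V) := {e | ∀ v ∈ e, v ∈ S}

lemma meas_open (e : Sym2 V) (b : Bool) : MeasurableSet {ω : Cf | ω e = b} :=
  measurableSet_eq_fun (measurable_pi_apply e) measurable_const

lemma saw_meas (D : ℕ) : ∀ (S : Set V) (x : V), MeasurableSet {ω | saw ω D S x} := by
  induction D with
  | zero => intro S x; exact MeasurableSet.univ
  | succ D ih =>
    intro S x
    have : {ω | saw ω (D + 1) S x} = ⋃ y, ⋃ (_ : adj x y ∧ y ∈ S \ {x}),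
        {ω : Cf | ω s(x, y) = true} ∩ {ω | saw ω D (S \ {x}) y} := by
      ext ω; simp only [saw, mem_ofPred_eq, mem_iUnion, mem_inter_iff, exists_prop, and_assoc]
    rw [this]
    exact .iUnion fun y => .iUnion fun _ => (meas_open _ _).inter (ih _ _)

lemma saw_dep {ω ω' : Cf} (D : ℕ) : ∀ (S : Set V) (x : V), x ∈ S → (∀ e ∈ Ed S, ω e = ω' e) →
    saw ω D S x → saw ω' D S x := by
  induction D with
  | zero => intro S x _ _ _; trivial
  | succ D ih =>
    rintro S x hx h ⟨y, h1, h2, h3, h4⟩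
    refine ⟨y, h1, h2, ?_, ih _ _ h2 (fun e he => h e fun v hv => (he v hv).1) h4⟩
    rw [← h _ fun v hv => ?_]
    · exact h3
    · rcases Sym2.mem_iff.1 hv with rfl | rfl
      · exact hx
      · exact h2.1

lemma dep_of {A : Set Cf} {S : Set (Sym2 V)}
    (h : ∀ ω ω' : Cf, (∀ e ∈ S, ω e = ω' e) → ω ∈ A → ω' ∈ A) : DependsOn (· ∈ A) S :=
  fun ω ω' e => propext ⟨h ω ω' e, h ω' ω fun i hi => (e i hi).symm⟩

lemma law_open {R : Set V} (p q : I) {x y : V} (hx : x ∉ R) :
    law R p q {ω | ω s(x, y) = true} = ENNReal.ofReal p := by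
  have : {ω : Cf | ω s(x, y) = true} = Set.pi ({s(x, y)} : Finset (Sym2 V)) fun _ => {true} := by
    ext; simp
  rw [this, law, Measure.infinitePi_pi _ fun _ _ => measurableSet_singleton _,
    Finset.prod_singleton, if_neg fun h => hx (h x (Sym2.mem_mk_left _ _)),
    bernoulliMeasure_apply_of_mem_of_notMem _ (by simp) (by simp) (by simp), ENNReal.ofReal]
  congr 1
  ext; simp [p.2.1]

lemma saw_prob {R : Set V} (p q : I) (D : ℕ) : ∀ (S : Set V) (x : V), S ⊆ Rᶜ → x ∈ S →
    law R p q {ω | saw ω D S x} ≤ (4 * ENNReal.ofReal p) ^ D := by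
  classical
  induction D with
  | zero => intro S x _ _; rw [pow_zero]; exact prob_le_one
  | succ D ih =>
    intro S x hS hx
    have : {ω | saw ω (D + 1) S x} ⊆ ⋃ y ∈ (nb x).filter (· ∈ S \ {x}),
        {ω : Cf | ω s(x, y) = true} ∩ {ω | saw ω D (S \ {x}) y} := by
      rintro ω ⟨y, h1, h2, h3, h4⟩
      exact mem_biUnion (Finset.mem_coe.2 (Finset.mem_filter.2 ⟨mem_nb h1, h2⟩)) ⟨h3, h4⟩
    refine (measure_mono this).trans ((measure_biUnion_finset_le _ _).trans ?_)
    have h2 : ∀ y ∈ (nb x).filter (· ∈ S \ {x}),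
        law R p q ({ω : Cf | ω s(x, y) = true} ∩ {ω | saw ω D (S \ {x}) y}) ≤
          ENNReal.ofReal p * (4 * ENNReal.ofReal p) ^ D := by
      intro y hy
      have hy2 := (Finset.mem_filter.1 hy).2
      have h3 : law R p q ({ω : Cf | ω s(x, y) = true} ∩ {ω | saw ω D (S \ {x}) y}) =
          law R p q {ω : Cf | ω s(x, y) = true} * law R p q {ω | saw ω D (S \ {x}) y} := by
        refine Har.indep_of _ (S := {s(x, y)}) (T := Ed (S \ {x})) ?_ (meas_open _ _)
          (saw_meas _ _ _) (dep_of fun ω ω' h h1 => ?_)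
          (dep_of fun ω ω' h h1 => saw_dep D _ _ hy2 h h1)
        · rw [disjoint_singleton_left]
          exact fun h => (h x (Sym2.mem_mk_left _ _)).2 rfl
        · exact (h _ rfl).symm.trans h1
      rw [h3, law_open p q (hS hx)]
      exact mul_le_mul_right (ih _ _ (sdiff_subset.trans hS) hy2) _
    refine (Finset.sum_le_card_nsmul _ _ _ h2).trans ?_
    rw [nsmul_eq_mul, pow_succ', ← mul_assoc]
    refine mul_le_mul_left (mul_le_mul_left ?_ _) _
    exact_mod_cast (Finset.card_filter_le _ _).trans (card_nb x)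

def GG (ω : Cf) (S : Set V) : SimpleGraph V where
  Adj a b := adj a b ∧ ω s(a, b) = true ∧ a ∈ S ∧ b ∈ S
  symm := ⟨fun a b h => ⟨adj_symm h.1, by rw [Sym2.eq_swap]; exact h.2.1, h.2.2.2, h.2.2.1⟩⟩
  loopless := ⟨fun a h => adj_ne h.1 rfl⟩

lemma path_saw {ω : Cf} {S0 : Set V} {x y : V} (w : (GG ω S0).Walk x y) : w.IsPath →
    ∀ (S : Set V) (D : ℕ), (∀ v ∈ w.support, v ∈ S) → D ≤ w.length → saw ω D S x := by
  induction w with
  | nil => intro _ S D _ h; obtain rfl : D = 0 := by simpa using h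
           trivial
  | @cons a b c h w ih =>
    intro hp S D hS hD
    cases D with
    | zero => trivial
    | succ D =>
      rw [SimpleGraph.Walk.cons_isPath_iff] at hp
      have h2 : ∀ v ∈ w.support, v ∈ S \ {a} := fun v hv =>
        ⟨hS v (by simp [hv]), fun e => hp.2 (by rw [← show v = a from e]; exact hv)⟩
      exact ⟨b, h.1, h2 b w.start_mem_support, h.2.1, ih hp.1 _ _ h2 (by simpa using hD)⟩

lemma walk_facts {ω : Cf} {S : Set V} {x y : V} (w : (GG ω S).Walk x y) (hx : x ∈ S) :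
    (∀ v ∈ w.support, v ∈ S) ∧ |x.1 - y.1| + |x.2 - y.2| ≤ w.length := by
  induction w with
  | nil => exact ⟨by simpa using hx, by simp⟩
  | @cons a b c h w ih =>
    obtain ⟨i1, i2⟩ := ih h.2.2.2
    refine ⟨fun v hv => ?_, ?_⟩
    · rcases List.mem_cons.1 (by simpa using hv : v ∈ a :: w.support) with rfl | hv
      · exact hx
      · exact i1 v hv
    · have h1 : |a.1 - b.1| + |a.2 - b.2| = 1 := h.1
      have h2 := abs_sub_le a.1 b.1 c.1
      have h3 := abs_sub_le a.2 b.2 c.2
      rw [SimpleGraph.Walk.length_cons]; push_cast; linarith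

lemma reach_saw {ω : Cf} {S : Set V} {x y : V} (hx : x ∈ S) (h : (GG ω S).Reachable x y) {D : ℕ}
    (hD : (D : ℤ) ≤ |x.1 - y.1| + |x.2 - y.2|) : saw ω D S x := by
  classical
  obtain ⟨w⟩ := h
  have := walk_facts w.toPath.1 hx
  exact path_saw w.toPath.1 w.toPath.2 S D this.1 (by exact_mod_cast hD.trans this.2)

end Pool.Agent.H44.SB
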