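import Pool.Agent.H44.SB1

open MeasureTheory ProbabilityTheory Set unitInterval
open scoped ENNReal

namespace Pool.Agent.H44.SB

lemma Zp_succ (X : ℕ → ℕ) (n : ℕ) : Zp X (n + 1) = Zp X n + X n + X (n + 1) := by
  unfold Zp
  rcases Nat.eq_zero_or_pos n with rfl | h
  · simp
  · rw [if_neg (by omega), if_neg (by omega), Finset.sum_Ico_succ_top h]; ring

lemma Z_zero (Λ : ℤ → ℕ) : Z Λ 0 = 0 := by simp [Z, Zp]

lemma Z_succ (Λ : ℤ → ℕ) (n : ℤ) : Z Λ (n + 1) = Z Λ n + Λ n + Λ (n + 1) := by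
  unfold Z
  rcases le_or_gt 0 n with h | h
  · obtain ⟨k, rfl⟩ := Int.eq_ofNat_of_zero_le h
    rw [if_pos (by omega), if_pos h, show ((k : ℤ) + 1).toNat = k + 1 by omega, Int.toNat_natCast,
      Zp_succ]
    push_cast; ring
  · obtain ⟨k, hk⟩ := Int.eq_ofNat_of_zero_le (show 0 ≤ -(n + 1) by omega)
    obtain rfl : n = -((k : ℤ) + 1) := by omega
    rw [if_neg (show ¬ 0 ≤ -((k : ℤ) + 1) by omega), show (-(-((k : ℤ) + 1))).toNat = k + 1 by omega,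
      Zp_succ]
    have e : -((k : ℤ) + 1) + 1 = -k := by ring
    rw [e]
    have : (if 0 ≤ -(k : ℤ) then Zp (fun i => Λ i) (-(k : ℤ)).toNat else
        -Zp (fun i => Λ (-i)) (-(-(k : ℤ))).toNat) = -Zp (fun i => Λ (-i)) k := by
      split_ifs with h0
      · obtain rfl : k = 0 := by omega
        simp [Zp]
      · rw [neg_neg, Int.toNat_natCast]
    rw [this]; push_cast; ring

def top (Λ : ℤ → ℕ) (i : ℤ) : ℤ := Z Λ i + Λ i

def Bx (Λ : ℤ → ℕ) (i : ℤ) : Set V := box (Z Λ i) (Λ i)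

variable {Λ : ℤ → ℕ}

lemma top_pred (i : ℤ) : top Λ (i - 1) = Z Λ i - Λ i := by
  have := Z_succ Λ (i - 1)
  rw [sub_add_cancel] at this
  unfold top; linarith

lemma top_mono (hΛ : ∀ i, 1 ≤ Λ i) {i j : ℤ} (h : i ≤ j) : top Λ i + 2 * (j - i) ≤ top Λ j := by
  induction j, h using Int.leInduction with
  | base => simp
  | succ j _ ih =>
    have h1 := Z_succ Λ j
    have h2 : (1 : ℤ) ≤ Λ (j + 1) := by exact_mod_cast hΛ (j + 1)
    unfold top at *; linarith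

lemma mem_Bx {i : ℤ} {v : V} : v ∈ Bx Λ i ↔ |v.1| ≤ Λ i ∧ top Λ (i - 1) ≤ v.2 ∧ v.2 ≤ top Λ i := by
  rw [top_pred]; rfl

noncomputable def bx (Λ : ℤ → ℕ) (i : ℤ) : Finset V :=
  Finset.Icc (-(Λ i : ℤ)) (Λ i) ×ˢ Finset.Icc (Z Λ i - Λ i) (Z Λ i + Λ i)

noncomputable def bf (Λ : ℤ → ℕ) (i : ℤ) : Finset V :=
  Finset.Icc (-(Λ i : ℤ) - 1) (Λ i + 1) ×ˢ Finset.Icc (Z Λ i - Λ i - 1) (Z Λ i + Λ i + 1)

lemma mem_bx {i : ℤ} {v : V} : v ∈ bx Λ i ↔ v ∈ Bx Λ i := by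
  simp only [bx, Finset.mem_product, Finset.mem_Icc, Bx, box, mem_ofPred_eq, abs_le]

lemma card_bx (i : ℤ) : (bx Λ i).card = (2 * Λ i + 1) ^ 2 := by
  rw [bx, Finset.card_product, Int.card_Icc, Int.card_Icc, sq]; congr 1 <;> omega

lemma card_bf (i : ℤ) : (bf Λ i).card = (2 * Λ i + 3) ^ 2 := by
  rw [bf, Finset.card_product, Int.card_Icc, Int.card_Icc, sq]; congr 1 <;> omega

lemma adj_le {x y : V} (h : adj x y) :
    (x.1 - 1 ≤ y.1 ∧ y.1 ≤ x.1 + 1) ∧ x.2 - 1 ≤ y.2 ∧ y.2 ≤ x.2 + 1 := by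
  unfold adj at h
  rcases abs_cases (x.1 - y.1) with h1 | h1 <;> rcases abs_cases (x.2 - y.2) with h2 | h2 <;> omega

lemma bf_of_adj {i : ℤ} {x y : V} (hx : x ∈ Bx Λ i) (h : adj x y) : y ∈ bf Λ i := by
  have := adj_le h
  simp only [Bx, box, mem_ofPred_eq, abs_le] at hx
  simp only [bf, Finset.mem_product, Finset.mem_Icc]; omega

lemma bf_of_mem {i : ℤ} {x : V} (hx : x ∈ Bx Λ i) : x ∈ bf Λ i := by
  simp only [Bx, box, mem_ofPred_eq, abs_le] at hx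
  simp only [bf, Finset.mem_product, Finset.mem_Icc]; omega

lemma bf_ht {i : ℤ} {x : V} (hx : x ∈ bf Λ i) : top Λ (i - 1) - 1 ≤ x.2 ∧ x.2 ≤ top Λ i + 1 := by
  rw [top_pred]
  simp only [bf, Finset.mem_product, Finset.mem_Icc] at hx
  unfold top; omega

lemma mem_region {v : V} : v ∈ region Λ ↔ ∃ i, v ∈ Bx Λ i := mem_iUnion

noncomputable def EE (Λ : ℤ → ℕ) (n : ℤ) (K : ℕ) : Finset (Sym2 V) :=
  (Finset.Icc (n - K) (n + K)).biUnion fun i => (bx Λ i).biUnion fun x =>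
    (nb x).image fun y => s(x, y)

lemma mem_EE {n : ℤ} {K : ℕ} {e : Sym2 V} : e ∈ EE Λ n K ↔
    ∃ i, (n - K ≤ i ∧ i ≤ n + K) ∧ ∃ x ∈ Bx Λ i, ∃ y, adj x y ∧ s(x, y) = e := by
  simp only [EE, Finset.mem_biUnion, Finset.mem_Icc, mem_bx, Finset.mem_image]
  exact ⟨fun ⟨i, h1, x, h2, y, h3, h4⟩ => ⟨i, h1, x, h2, y, adj_of_nb h3, h4⟩,
    fun ⟨i, h1, x, h2, y, h3, h4⟩ => ⟨i, h1, x, h2, y, mem_nb h3, h4⟩⟩

def Vn (Λ : ℤ → ℕ) (n : ℤ) (K : ℕ) : Set Cf := {ω | ∀ e ∈ EE Λ n K, ω e = false}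

noncomputable def sel (Λ : ℤ → ℕ) (n : ℤ) (K a b : ℕ) : Finset V :=
  if Λ (n - K - 1 - a) ≤ 2 ^ (a + b + 2 * K + 2) then bf Λ (n - K - 1 - a) else bf Λ (n + K + 1 + b)

open Classical in
def Wn (Λ : ℤ → ℕ) (n : ℤ) (K : ℕ) : Set Cf :=
  ⋃ a : ℕ, ⋃ b : ℕ, ⋃ x ∈ (sel Λ n K a b).filter (· ∉ region Λ),
    {ω | saw ω (a + b + 2 * K + 2) (region Λ)ᶜ x}

def Op (ω : Cf) (a b : V) : Prop := adj a b ∧ ω s(a, b) = true

lemma Op_symm {ω : Cf} {a b : V} (h : Op ω a b) : Op ω b a :=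
  ⟨adj_symm h.1, by rw [Sym2.eq_swap]; exact h.2⟩

lemma conn_symm {ω : Cf} {a b : V} (h : Relation.ReflTransGen (Op ω) a b) :
    Relation.ReflTransGen (Op ω) b a := by
  induction h with
  | refl => exact .refl
  | tail _ h ih => exact .head (Op_symm h) ih

theorem cut (hΛ : ∀ i, 1 ≤ Λ i) {n : ℤ} {K : ℕ} (hK : 1 ≤ K) {ω : Cf} (hV : ω ∈ Vn Λ n K)
    (hW : ω ∉ Wn Λ n K) {y z : V} (hy : ∃ i < n - K, y ∈ Bx Λ i)
    (h : Relation.ReflTransGen (Op ω) y z) (hz : z ∈ region Λ) : ∃ i < n - K, z ∈ Bx Λ i := by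
  classical
  have inv : (∃ i < n - K, z ∈ Bx Λ i) ∨ (z ∉ region Λ ∧ ∃ i < n - K, ∃ x ∈ bf Λ i,
      x ∉ region Λ ∧ (GG ω (region Λ)ᶜ).Reachable x z) := by
    clear hz
    induction h with
    | refl => exact Or.inl hy
    | @tail z z' _ h ih =>
      by_cases hz' : z' ∈ region Λ
      · obtain ⟨j, hj⟩ := mem_region.1 hz'
        by_cases h1 : j < n - K
        · exact Or.inl ⟨j, h1, hj⟩
        exfalso
        by_cases h2 : j ≤ n + K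
        · have := hV _ (mem_EE.2 ⟨j, ⟨not_lt.1 h1, h2⟩, z', hj, z, adj_symm h.1, rfl⟩)
          rw [(Op_symm h).2] at this; exact absurd this (by simp)
        have h3 := (mem_Bx.1 hj).2.1
        have h4 := adj_le h.1
        rcases ih with ⟨i, hi, hzi⟩ | ⟨hzR, i, hi, x, hx, hxR, hr⟩
        · have h5 := (mem_Bx.1 hzi).2.2
          have h6 := top_mono hΛ (show i ≤ j - 1 by omega)
          omega
        · have h5 := (bf_ht hx).2
          have h6 := top_mono hΛ (show i ≤ j - 1 by omega)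
          obtain ⟨a, ha⟩ := Int.eq_ofNat_of_zero_le (show 0 ≤ n - K - 1 - i by omega)
          obtain ⟨b, hb⟩ := Int.eq_ofNat_of_zero_le (show 0 ≤ j - (n + K + 1) by omega)
          have hi' : n - K - 1 - a = i := by omega
          have hj' : n + K + 1 + b = j := by omega
          have a1 := abs_nonneg (x.1 - z.1)
          have a2 := neg_le_abs (x.2 - z.2)
          have a3 := abs_nonneg (z.1 - x.1)
          have a4 := le_abs_self (z.2 - x.2)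
          refine hW (mem_iUnion.2 ⟨a, mem_iUnion.2 ⟨b, ?_⟩⟩)
          by_cases h7 : Λ (n - K - 1 - a) ≤ 2 ^ (a + b + 2 * K + 2)
          · refine mem_biUnion (Finset.mem_coe.2 (Finset.mem_filter.2 ⟨?_, hxR⟩))
              (reach_saw hxR hr (by push_cast; omega))
            rw [sel, if_pos h7, hi']; exact hx
          · refine mem_biUnion (Finset.mem_coe.2 (Finset.mem_filter.2 ⟨?_, hzR⟩))
              (reach_saw hzR hr.symm (by push_cast; omega))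
            rw [sel, if_neg h7, hj']; exact bf_of_adj hj (adj_symm h.1)
      · refine Or.inr ⟨hz', ?_⟩
        rcases ih with ⟨i, hi, hzi⟩ | ⟨hzR, i, hi, x, hx, hxR, hr⟩
        · exact ⟨i, hi, z', bf_of_adj hzi h.1, hz', .refl _⟩
        · exact ⟨i, hi, x, hx, hxR, hr.trans (SimpleGraph.Adj.reachable ⟨h.1, h.2, hzR, hz'⟩)⟩
  exact inv.resolve_right fun h => h.1 hz

theorem finite_cluster (hΛ : ∀ i, 1 ≤ Λ i) {ω : Cf}
    (hu : ∃ (K : ℕ) (n : ℤ), 1 ≤ K ∧ K < n ∧ ω ∈ Vn Λ n K ∧ ω ∉ Wn Λ n K)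
    (hl : ∃ (K : ℕ) (n : ℤ), 1 ≤ K ∧ K < -n ∧ ω ∈ Vn Λ n K ∧ ω ∉ Wn Λ n K)
    (hs : ∀ x, x ∉ region Λ → ∃ D, ¬ saw ω D (region Λ)ᶜ x) : (cluster ω).Finite := by
  obtain ⟨K, n, hK, hn, hV, hW⟩ := hu
  obtain ⟨K', n', hK', hn', hV', hW'⟩ := hl
  have h0 : (0 : V) ∈ Bx Λ 0 := by simp [Bx, box, Z_zero]
  have key : ∀ z, Relation.ReflTransGen (Op ω) 0 z → z ∈ region Λ →
      ∃ i ∈ Finset.Icc (n' - K') (n - K), z ∈ Bx Λ i := by
    intro z hz hR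
    obtain ⟨i, hi, hzi⟩ := cut hΛ hK hV hW ⟨0, by omega, h0⟩ hz hR
    refine ⟨i, Finset.mem_Icc.2 ⟨?_, hi.le⟩, hzi⟩
    by_contra hc
    obtain ⟨j, hj, h0j⟩ := cut hΛ hK' hV' hW' ⟨i, not_le.1 hc, hzi⟩ (conn_symm hz)
      (mem_region.2 ⟨0, h0⟩)
    have h1 : (0 : ℤ) ≤ top Λ j := (mem_Bx.1 h0j).2.2
    have h2 := top_mono hΛ (show j ≤ 0 - 1 by omega)
    have h3 : (1 : ℤ) ≤ Λ 0 := by exact_mod_cast hΛ 0
    rw [top_pred, Z_zero] at h2
    omega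
  set F := (Finset.Icc (n' - K') (n - K)).biUnion (bf Λ) with hF
  have fin : ∀ x, {z | x ∉ region Λ ∧ (GG ω (region Λ)ᶜ).Reachable x z}.Finite := by
    intro x
    by_cases hx : x ∈ region Λ
    · simp [hx]
    obtain ⟨D, hD⟩ := hs x hx
    refine (Finset.Icc (x.1 - D) (x.1 + D) ×ˢ Finset.Icc (x.2 - D) (x.2 + D)).finite_toSet.subset
      fun z hz => ?_
    have : ¬ (D : ℤ) ≤ |x.1 - z.1| + |x.2 - z.2| := fun h => hD (reach_saw hx hz.2 h)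
    simp only [Finset.coe_product, Finset.coe_Icc, mem_prod, mem_Icc]
    rcases abs_cases (x.1 - z.1) with h1 | h1 <;> rcases abs_cases (x.2 - z.2) with h2 | h2 <;> omega
  refine (F.finite_toSet.union (F.finite_toSet.biUnion fun x _ => fin x)).subset fun z hz => ?_
  have inv : ∀ z, Relation.ReflTransGen (Op ω) 0 z → z ∈ region Λ ∨ (z ∉ region Λ ∧ ∃ x ∈ F,
      x ∉ region Λ ∧ (GG ω (region Λ)ᶜ).Reachable x z) := by
    intro z hz
    induction hz with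
    | refl => exact Or.inl (mem_region.2 ⟨0, h0⟩)
    | @tail z z' hz h ih =>
      by_cases hz' : z' ∈ region Λ
      · exact Or.inl hz'
      refine Or.inr ⟨hz', ?_⟩
      rcases ih with hR | ⟨hzR, x, hx, hxR, hr⟩
      · obtain ⟨i, hi, hzi⟩ := key z hz hR
        exact ⟨z', Finset.mem_biUnion.2 ⟨i, hi, bf_of_adj hzi h.1⟩, hz', .refl _⟩
      · exact ⟨x, hx, hxR, hr.trans (SimpleGraph.Adj.reachable ⟨h.1, h.2, hzR, hz'⟩)⟩
  rcases inv z hz with hR | ⟨_, x, hx, hxR, hr⟩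
  · obtain ⟨i, hi, hzi⟩ := key z hz hR
    exact Or.inl (Finset.mem_coe.2 (Finset.mem_biUnion.2 ⟨i, hi, bf_of_mem hzi⟩))
  · exact Or.inr (mem_biUnion (Finset.mem_coe.2 hx) ⟨hxR, hr⟩)

end Pool.Agent.H44.SB
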