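import Pool.Agent.H44.SB2

open MeasureTheory ProbabilityTheory Set unitInterval Filter Topology
open scoped ENNReal

namespace Pool.Agent.H44.SB

variable {Λ : ℤ → ℕ}

def good (Λ : ℤ → ℕ) (n : ℤ) (K : ℕ) : Prop :=
  (∀ i, n - K ≤ i → i ≤ n + K → Λ i = 1) ∧ ∀ a b : ℕ,
    Λ (n - K - 1 - a) ≤ 2 ^ (a + b + 2 * K + 2) ∨ Λ (n + K + 1 + b) ≤ 2 ^ (a + b + 2 * K + 2)

lemma Vn_eq (n : ℤ) (K : ℕ) : Vn Λ n K = Set.pi (EE Λ n K) fun _ => {false} := by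
  ext; simp [Vn]

lemma Vn_meas (n : ℤ) (K : ℕ) : MeasurableSet (Vn Λ n K) := by
  rw [Vn_eq]; exact .pi (Finset.countable_toSet _) fun _ _ => measurableSet_singleton _

lemma Wn_meas (n : ℤ) (K : ℕ) : MeasurableSet (Wn Λ n K) :=
  .iUnion fun _ => .iUnion fun _ => Finset.measurableSet_biUnion _ fun _ _ => saw_meas _ _ _

lemma Vn_dep (n : ℤ) (K : ℕ) : DependsOn (· ∈ Vn Λ n K) (EE Λ n K : Set (Sym2 V)) :=
  dep_of fun _ _ h h1 e he => (h e he).symm.trans (h1 e he)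

lemma Wn_dep (n : ℤ) (K : ℕ) : DependsOn (· ∈ Wn Λ n K) (Ed (region Λ)ᶜ) := by
  classical
  refine dep_of fun ω ω' h h1 => ?_
  simp only [Wn, mem_iUnion, exists_prop] at h1 ⊢
  obtain ⟨a, b, x, hx, h2⟩ := h1
  exact ⟨a, b, x, hx, saw_dep _ _ _ (Finset.mem_filter.1 hx).2 h h2⟩

lemma p16 {p : I} (hp : (p : ℝ) ≤ 1 / 32) : 4 * (4 * ENNReal.ofReal p) ≤ 2⁻¹ := by
  calc 4 * (4 * ENNReal.ofReal p) ≤ 4 * (4 * ENNReal.ofReal (1 / 32)) := by
        gcongr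
    _ = ENNReal.ofReal (4 * (4 * (1 / 32))) := by
        rw [ENNReal.ofReal_mul (by norm_num), ENNReal.ofReal_mul (by norm_num)]; simp
    _ = 2⁻¹ := by
        rw [show (4 * (4 * (1 / 32)) : ℝ) = 2⁻¹ by norm_num, ENNReal.ofReal_inv_of_pos (by norm_num)]
        simp

lemma W_prob {p : I} (q : I) (hp : (p : ℝ) ≤ 1 / 32) {n : ℤ} {K : ℕ} (hg : good Λ n K) :
    law (region Λ) p q (Wn Λ n K) ≤ 25 * 2⁻¹ ^ K := by
  classical
  have h1 : ∀ a b : ℕ, law (region Λ) p q (⋃ x ∈ (sel Λ n K a b).filter (· ∉ region Λ),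
      {ω | saw ω (a + b + 2 * K + 2) (region Λ)ᶜ x}) ≤ 25 * 2⁻¹ ^ (a + b + 2 * K + 2) := by
    intro a b
    set m := a + b + 2 * K + 2 with hm
    refine (measure_biUnion_finset_le _ _).trans ((Finset.sum_le_card_nsmul _ _ _ fun x hx =>
      saw_prob p q m _ x subset_rfl (Finset.mem_filter.1 hx).2).trans ?_)
    have hc : (sel Λ n K a b).card ≤ 25 * 4 ^ m := by
      have h2 : ∀ i, Λ i ≤ 2 ^ m → (bf Λ i).card ≤ 25 * 4 ^ m := fun i hi => by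
        rw [card_bf]
        have h3 : 1 ≤ 2 ^ m := Nat.one_le_two_pow
        calc (2 * Λ i + 3) ^ 2 ≤ (5 * 2 ^ m) ^ 2 := Nat.pow_le_pow_left (by omega) 2
          _ = 25 * 4 ^ m := by rw [mul_pow, ← pow_mul, mul_comm m 2, pow_mul]; norm_num
      unfold sel
      split_ifs with h
      · exact h2 _ h
      · exact h2 _ ((hg.2 a b).resolve_left h)
    have hc2 : (((sel Λ n K a b).filter (· ∉ region Λ)).card : ℝ≥0∞) ≤ 25 * 4 ^ m := by
      exact_mod_cast (Finset.card_filter_le _ _).trans hc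
    rw [nsmul_eq_mul]
    calc _ ≤ (25 * 4 ^ m) * (4 * ENNReal.ofReal p) ^ m := mul_le_mul_left hc2 _
      _ = 25 * (4 * (4 * ENNReal.ofReal p)) ^ m := by rw [mul_pow 4 (4 * _), mul_assoc]
      _ ≤ _ := mul_le_mul_right (pow_le_pow_left' (p16 hp) m) _
  refine (measure_iUnion_le _).trans ((ENNReal.tsum_le_tsum fun a => (measure_iUnion_le _).trans
    (ENNReal.tsum_le_tsum fun b => h1 a b)).trans ?_)
  have e : ∀ a b : ℕ, (25 : ℝ≥0∞) * 2⁻¹ ^ (a + b + 2 * K + 2) =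
      (25 * 2⁻¹ ^ (2 * K + 2) * 2⁻¹ ^ a) * 2⁻¹ ^ b := fun a b => by ring
  simp only [e, ENNReal.tsum_mul_left, ENNReal.tsum_mul_right, ENNReal.tsum_geometric_two]
  have h2 : (2⁻¹ : ℝ≥0∞) * 2 = 1 := ENNReal.inv_mul_cancel (by simp) (by simp)
  have h3 : (2⁻¹ : ℝ≥0∞) ^ K ≤ 1 := pow_le_one' (by simp) _
  calc (25 : ℝ≥0∞) * 2⁻¹ ^ (2 * K + 2) * 2 * 2 =
      25 * 2⁻¹ ^ K * 2⁻¹ ^ K * ((2⁻¹ * 2) * (2⁻¹ * 2)) := by ring
    _ ≤ 25 * 2⁻¹ ^ K * 1 * (1 * 1) := by rw [h2]; gcongr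
    _ = _ := by simp

lemma bern_false (r : I) : (bernoulliMeasure true false r {false}).toReal = 1 - r := by
  rw [bernoulliMeasure_apply_of_notMem_of_mem _ (by simp) (by simp) (by simp)]
  simp [unitInterval.toNNReal, unitInterval.coe_symm_eq]
  rfl

lemma V_prob (p q : I) {κ : ℝ} (h0 : 0 ≤ κ) (h1 : κ ≤ 1 - p) (h2 : κ ≤ 1 - q) {n : ℤ} {K : ℕ}
    (hg : good Λ n K) : κ ^ ((2 * K + 1) * 36) ≤ (law (region Λ) p q).real (Vn Λ n K) := by
  classical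
  have hc : (EE Λ n K).card ≤ (2 * K + 1) * 36 := by
    refine (Finset.card_biUnion_le_card_mul _ _ 36 fun i hi => ?_).trans ?_
    · have hi' := Finset.mem_Icc.1 hi
      refine (Finset.card_biUnion_le_card_mul _ _ 4 fun x _ =>
        Finset.card_image_le.trans (card_nb x)).trans ?_
      rw [card_bx, hg.1 i hi'.1 hi'.2]; norm_num
    · rw [Int.card_Icc]; gcongr; omega
  rw [Vn_eq, measureReal_def, law, Measure.infinitePi_pi _ fun _ _ => measurableSet_singleton _,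
    ENNReal.toReal_prod]
  calc κ ^ ((2 * K + 1) * 36) ≤ κ ^ (EE Λ n K).card :=
        pow_le_pow_of_le_one h0 (by linarith [p.2.1]) hc
    _ = ∏ _e ∈ EE Λ n K, κ := by rw [Finset.prod_const]
    _ ≤ _ := Finset.prod_le_prod (fun _ _ => h0) fun e _ => by
        rw [bern_false]; split_ifs <;> assumption

lemma EE_disj (hΛ : ∀ i, 1 ≤ Λ i) {n n' : ℤ} {K : ℕ} (h : n + (2 * K + 3) ≤ n') :
    Disjoint (EE Λ n K : Set (Sym2 V)) (EE Λ n' K) := by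
  rw [Set.disjoint_left]
  intro e h1 h2
  obtain ⟨i, hi, x, hx, y, hxy, rfl⟩ := mem_EE.1 h1
  obtain ⟨j, hj, x', hx', y', _, he⟩ := mem_EE.1 h2
  have h3 : x' ∈ s(x, y) := he ▸ Sym2.mem_mk_left _ _
  have h4 := (mem_Bx.1 hx).2.2
  have h5 := (mem_Bx.1 hx').2.1
  have h6 := top_mono hΛ (show i ≤ j - 1 by omega)
  have h7 := adj_le hxy
  rcases Sym2.mem_iff.1 h3 with rfl | rfl <;> omega

lemma quenched (hΛ : ∀ i, 1 ≤ Λ i) {p q : I} (hp : (p : ℝ) ≤ 1 / 32) (hq : (q : ℝ) < 1) {K : ℕ}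
    (n : ℕ → ℤ) (hg : ∀ k, good Λ (n k) K)
    (hs : ∀ k l, k ≠ l → n k + (2 * K + 3) ≤ n l ∨ n l + (2 * K + 3) ≤ n k) :
    (law (region Λ) p q).real {ω | ∀ k, ω ∈ Vn Λ (n k) K → ω ∈ Wn Λ (n k) K} ≤ 25 * 2⁻¹ ^ K := by
  have hκ : 0 < min (1 - (p : ℝ)) (1 - q) := lt_min (by linarith) (by linarith)
  refine many _ _ _ (fun k => Vn_meas _ _) (fun k => Wn_meas _ _) (pow_pos hκ _)
    (fun k => V_prob p q hκ.le (min_le_left _ _) (min_le_right _ _) (hg k)) (fun k l h => ?_)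
    fun k => ?_
  · refine Har.indep_of _ ?_ (Vn_meas _ _) (Vn_meas _ _) (Vn_dep _ _) (Vn_dep _ _)
    rcases hs k l h with h | h
    · exact EE_disj hΛ h
    · exact (EE_disj hΛ h).symm
  · have h1 : law (region Λ) p q (Vn Λ (n k) K ∩ Wn Λ (n k) K) =
        law (region Λ) p q (Vn Λ (n k) K) * law (region Λ) p q (Wn Λ (n k) K) := by
      refine Har.indep_of _ ?_ (Vn_meas _ _) (Wn_meas _ _) (Vn_dep _ _) (Wn_dep _ _)
      rw [Set.disjoint_left]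
      intro e h1 h2
      obtain ⟨i, _, x, hx, y, _, rfl⟩ := mem_EE.1 h1
      exact h2 x (Sym2.mem_mk_left _ _) (mem_region.2 ⟨i, hx⟩)
    have h2 : (law (region Λ) p q (Wn Λ (n k) K)).toReal ≤ 25 * 2⁻¹ ^ K := by
      have := ENNReal.toReal_mono (by finiteness) (W_prob q hp (hg k))
      simpa using this
    rw [measureReal_def, h1, ENNReal.toReal_mul, mul_comm]
    exact mul_le_mul_of_nonneg_right h2 ENNReal.toReal_nonneg

lemma spaced {P : ℤ → Prop} {sg : ℤ} (hsg : sg = 1 ∨ sg = -1) (h : ∀ N, ∃ n, N ≤ sg * n ∧ P n)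
    (c : ℕ) (N0 : ℤ) : ∃ n : ℕ → ℤ, (∀ k, P (n k)) ∧ (∀ k, N0 ≤ sg * n k) ∧
      ∀ k l, k ≠ l → n k + c ≤ n l ∨ n l + c ≤ n k := by
  choose g hg using h
  let n : ℕ → ℤ := fun k => Nat.rec (g N0) (fun _ m => g (sg * m + c)) k
  have h1 : ∀ k, sg * n k + c ≤ sg * n (k + 1) := fun k => (hg _).1
  have h2 : ∀ k l, k < l → sg * n k + c ≤ sg * n l := by
    intro k l hkl
    induction l, hkl using Nat.le_induction with
    | base => exact h1 k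
    | succ l _ ih => have := h1 l; omega
  refine ⟨n, fun k => ?_, fun k => ?_, fun k l hkl => ?_⟩
  · cases k with
    | zero => exact (hg _).2
    | succ k => exact (hg _).2
  · have h0 : N0 ≤ sg * n 0 := (hg _).1
    rcases Nat.eq_zero_or_pos k with rfl | hk
    · exact h0
    · have := h2 0 k hk; omega
  · rcases lt_or_gt_of_ne hkl with h3 | h3
    · have := h2 k l h3
      rcases hsg with rfl | rfl <;> omega
    · have := h2 l k h3
      rcases hsg with rfl | rfl <;> omega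

lemma zero_of_le {x c : ℝ} (h : ∀ K : ℕ, 1 ≤ K → x ≤ c * 2⁻¹ ^ K) : x ≤ 0 := by
  have h1 : Tendsto (fun K : ℕ => c * (2⁻¹ : ℝ) ^ K) atTop (𝓝 (c * 0)) :=
    (tendsto_pow_atTop_nhds_zero_of_lt_one (by norm_num) (by norm_num)).const_mul c
  rw [mul_zero] at h1
  exact ge_of_tendsto h1 (eventually_atTop.2 ⟨1, h⟩)

lemma side (hΛ : ∀ i, 1 ≤ Λ i) {p q : I} (hp : (p : ℝ) ≤ 1 / 32) (hq : (q : ℝ) < 1) {sg : ℤ}
    (hsg : sg = 1 ∨ sg = -1) (h : ∀ (K : ℕ) (N : ℤ), ∃ n, N ≤ sg * n ∧ good Λ n K) :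
    ∀ᵐ ω ∂law (region Λ) p q,
      ∃ (K : ℕ) (n : ℤ), 1 ≤ K ∧ K < sg * n ∧ ω ∈ Vn Λ n K ∧ ω ∉ Wn Λ n K := by
  rw [ae_iff, ← measureReal_eq_zero_iff]
  refine le_antisymm (zero_of_le (c := 25) fun K hK => ?_) measureReal_nonneg
  obtain ⟨n, h1, h2, h3⟩ := spaced hsg (h K) (2 * K + 3) (K + 1)
  refine le_trans (measureReal_mono ?_) (quenched hΛ hp hq n h1 (by simpa using h3))
  intro ω hω k hk
  by_contra hc
  exact hω ⟨K, n k, hK, h2 k, hk, hc⟩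

theorem theta_zero (hΛ : ∀ i, 1 ≤ Λ i) {p q : I} (hp : (p : ℝ) ≤ 1 / 32) (hq : (q : ℝ) < 1)
    (h : ∀ sg : ℤ, sg = 1 ∨ sg = -1 → ∀ (K : ℕ) (N : ℤ), ∃ n, N ≤ sg * n ∧ good Λ n K) :
    theta (region Λ) p q = 0 := by
  have h1 := side hΛ hp hq (Or.inl rfl) (h 1 (Or.inl rfl))
  have h2 := side hΛ hp hq (Or.inr rfl) (h (-1) (Or.inr rfl))
  have h3 : ∀ᵐ ω ∂law (region Λ) p q, ∀ x, x ∉ region Λ → ∃ D, ¬ saw ω D (region Λ)ᶜ x := by
    rw [ae_all_iff]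
    intro x
    by_cases hx : x ∈ region Λ
    · exact Eventually.of_forall fun ω h => absurd hx h
    rw [ae_iff, ← measureReal_eq_zero_iff]
    refine le_antisymm (zero_of_le (c := 1) fun D _ => ?_) measureReal_nonneg
    refine le_trans (measureReal_mono (s₂ := {ω | saw ω D (region Λ)ᶜ x}) fun ω hω => ?_) ?_
    · by_contra hc
      exact hω fun _ => ⟨D, hc⟩
    · have h4 : 4 * ENNReal.ofReal p ≤ 2⁻¹ :=
        le_trans (le_mul_of_one_le_left' (by norm_num)) (p16 hp)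
      have := ENNReal.toReal_mono (by finiteness)
        ((saw_prob p q D _ x subset_rfl hx).trans (pow_le_pow_left' h4 D))
      simpa [measureReal_def] using this
  have h4 : ∀ᵐ ω ∂law (region Λ) p q, (cluster ω).Finite := by
    filter_upwards [h1, h2, h3] with ω a1 a2 a3
    exact finite_cluster hΛ (by simpa using a1) (by simpa using a2) a3
  exact ae_iff.1 h4

end Pool.Agent.H44.SB
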