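import Pool.Agent.H44.SB3

open MeasureTheory ProbabilityTheory Set Filter Topology
open scoped ENNReal

namespace Pool.Agent.H44.SB

noncomputable def TT (k : ℕ) : ℝ := 2⁻¹ ^ k / (k + 1)

lemma TT_pos (k : ℕ) : 0 < TT k := by unfold TT; positivity

lemma TT_half (k : ℕ) : TT (k + 1) ≤ TT k / 2 := by
  unfold TT
  rw [pow_succ, div_div, div_le_div_iff₀ (by positivity) (by positivity)]
  have : (0 : ℝ) < 2⁻¹ ^ k := by positivity
  push_cast; nlinarith

lemma TT_lim : Tendsto TT atTop (𝓝 0) := by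
  refine squeeze_zero (fun k => (TT_pos k).le) (fun k => ?_)
    (tendsto_pow_atTop_nhds_zero_of_lt_one (r := (2⁻¹ : ℝ)) (by norm_num) (by norm_num))
  exact div_le_self (by positivity) (by linarith [Nat.cast_nonneg (α := ℝ) k])

noncomputable def pk (k : ℕ) : ℝ := TT k - TT (k + 1)

lemma pk_ge (k : ℕ) : TT k / 2 ≤ pk k := by unfold pk; linarith [TT_half k]

lemma pk_pos (k : ℕ) : 0 < pk k := by linarith [pk_ge k, TT_pos k]

lemma tele (k : ℕ) : ∑' j, ENNReal.ofReal (pk (j + k)) = ENNReal.ofReal (TT k) := by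
  have h : HasSum (fun j => pk (j + k)) (TT k) := by
    rw [hasSum_iff_tendsto_nat_of_nonneg fun j => (pk_pos _).le]
    have : ∀ n, ∑ j ∈ Finset.range n, pk (j + k) = TT k - TT (n + k) := fun n => by
      have := Finset.sum_range_sub' (fun j => TT (j + k)) n
      simp only [zero_add] at this
      rw [← this]
      exact Finset.sum_congr rfl fun j _ => by rw [pk, add_right_comm]
    simp only [this]
    simpa using (TT_lim.comp (tendsto_add_atTop_nat k)).const_sub (TT k)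
  rw [← ENNReal.ofReal_tsum_of_nonneg (fun j => (pk_pos _).le) h.summable, h.tsum_eq]

noncomputable def mu0 : Measure ℕ :=
  Measure.sum fun k => ENNReal.ofReal (pk k) • Measure.dirac (2 ^ (2 ^ k - 1))

lemma mu0_apply (s : Set ℕ) :
    mu0 s = ∑' k, ENNReal.ofReal (pk k) * s.indicator 1 (2 ^ (2 ^ k - 1)) := by
  rw [mu0, Measure.sum_apply _ .of_discrete]
  simp only [Measure.smul_apply, smul_eq_mul, Measure.dirac_apply' _ MeasurableSet.of_discrete]

instance : IsProbabilityMeasure mu0 := ⟨by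
  rw [mu0_apply]; simpa [TT] using tele 0⟩

lemma mu0_zero : mu0 {0} = 0 := by
  rw [mu0_apply]; simp

lemma mu0_one : 0 < mu0 {1} := by
  rw [mu0_apply]
  refine lt_of_lt_of_le ?_ (ENNReal.le_tsum 0)
  simpa using pk_pos 0

lemma mu0_log : ∫⁻ x, ENNReal.ofReal (Real.log x) ∂mu0 = ∞ := by
  rw [mu0, lintegral_sum_measure]
  simp only [lintegral_smul_measure, lintegral_dirac, smul_eq_mul]
  by_contra h
  have h1 := (summable_nat_add_iff 1).2 (ENNReal.summable_toReal h)
  have hl := Real.log_pos (show (1 : ℝ) < 2 by norm_num)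
  have h2 : Summable fun k : ℕ => Real.log 2 / 4 * (1 / ((k + 2 : ℕ) : ℝ)) := by
    refine Summable.of_nonneg_of_le (fun k => by positivity) (fun k => ?_) h1
    have e : Real.log ((2 ^ (2 ^ (k + 1) - 1) : ℕ) : ℝ) = (2 ^ (k + 1) - 1) * Real.log 2 := by
      rw [Nat.cast_pow, Real.log_pow, Nat.cast_sub Nat.one_le_two_pow]; push_cast; ring
    have h3 : (1 : ℝ) ≤ 2 ^ k := one_le_pow₀ (by norm_num)
    have h4 : (2 : ℝ) ^ (k + 1) / 2 ≤ 2 ^ (k + 1) - 1 := by rw [pow_succ]; linarith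
    rw [ENNReal.toReal_mul, ENNReal.toReal_ofReal (pk_pos _).le, e,
      ENNReal.toReal_ofReal (mul_nonneg (by linarith [show (0 : ℝ) < 2 ^ (k + 1) by positivity]) hl.le)]
    calc Real.log 2 / 4 * (1 / ((k + 2 : ℕ) : ℝ)) =
        (TT (k + 1) / 2) * (2 ^ (k + 1) / 2 * Real.log 2) := by
          unfold TT; rw [inv_pow]; push_cast; field_simp; ring
      _ ≤ _ := mul_le_mul (pk_ge _) (mul_le_mul_of_nonneg_right h4 hl.le) (by positivity)
          (pk_pos _).le
  rw [summable_mul_left_iff (by positivity)] at h2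
  exact Real.not_summable_one_div_natCast ((summable_nat_add_iff 2).1 h2)

lemma tail (m : ℕ) : ∃ k, m < 2 ^ k ∧ mu0 {x | 2 ^ m < x} ≤ ENNReal.ofReal (TT k) := by
  refine ⟨Nat.log 2 m + 1, Nat.lt_pow_succ_log_self (by norm_num) m, ?_⟩
  rw [mu0_apply, ← tele, ← ENNReal.summable.sum_add_tsum_nat_add' (k := Nat.log 2 m + 1),
    Finset.sum_eq_zero, zero_add]
  · refine ENNReal.tsum_le_tsum fun j => mul_le_of_le_one_right' ?_
    exact indicator_le_self' (fun _ _ => zero_le_one) _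
  · intro j hj
    rw [indicator_of_notMem, mul_zero]
    rw [mem_ofPred_eq, not_lt]
    refine Nat.pow_le_pow_right (by norm_num) ?_
    have h1 : 2 ^ j ≤ 2 ^ Nat.log 2 m :=
      Nat.pow_le_pow_right (by norm_num) (by have := Finset.mem_range.1 hj; omega)
    rcases Nat.eq_zero_or_pos m with rfl | hm
    · simp at h1 ⊢; omega
    · have := Nat.pow_log_le_self 2 hm.ne'; omega

noncomputable def uu (k a : ℕ) : ℝ≥0∞ := if a < 2 ^ k then 1 else 0

lemma uu_sum (k : ℕ) : ∑' a, uu k a = 2 ^ k := by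
  unfold uu
  rw [tsum_eq_sum (s := Finset.range (2 ^ k)) fun a ha => if_neg (by simpa using ha),
    Finset.sum_congr rfl (g := fun _ => 1) fun a ha => if_pos (Finset.mem_range.1 ha)]
  simp

noncomputable def GA (a : ℕ) : ℝ≥0∞ := ∑' b, ∑' k, ENNReal.ofReal (TT k) ^ 2 * uu k a * uu k b

lemma GA_sum : ∑' a, GA a ≠ ∞ := by
  have h1 : ∀ a, GA a = ∑' k, ENNReal.ofReal (TT k) ^ 2 * 2 ^ k * uu k a := fun a => by
    rw [GA, ENNReal.tsum_comm]
    exact tsum_congr fun k => by rw [ENNReal.tsum_mul_left, uu_sum, mul_right_comm]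
  simp only [h1]
  rw [ENNReal.tsum_comm]
  have h2 : ∀ k : ℕ, ∑' a, ENNReal.ofReal (TT k) ^ 2 * 2 ^ k * uu k a =
      ENNReal.ofReal (1 / ((k + 1 : ℕ) : ℝ) ^ 2) := fun k => by
    have e : (2 : ℝ≥0∞) ^ k = ENNReal.ofReal (2 ^ k) := by
      rw [ENNReal.ofReal_pow (by norm_num)]; simp
    rw [ENNReal.tsum_mul_left, uu_sum, e, ← ENNReal.ofReal_pow (TT_pos k).le,
      ← ENNReal.ofReal_mul (by positivity), ← ENNReal.ofReal_mul (by positivity)]
    congr 1
    unfold TT; rw [inv_pow]; push_cast; field_simp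
  simp only [h2]
  rw [← ENNReal.ofReal_tsum_of_nonneg (fun k => by positivity)
    ((summable_nat_add_iff 1).2 (Real.summable_one_div_nat_pow.2 one_lt_two))]
  exact ENNReal.ofReal_ne_top

noncomputable def nu : Measure (ℤ → ℕ) := Measure.infinitePi fun _ => mu0

instance : IsProbabilityMeasure nu := by unfold nu; infer_instance

def TA (n : ℤ) (K : ℕ) : Set (ℤ → ℕ) := Set.pi (Finset.Icc (n - K) (n + K)) fun _ => {1}

def BA (n : ℤ) (K : ℕ) : Set (ℤ → ℕ) := ⋃ a : ℕ, ⋃ b : ℕ,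
  Set.pi ({n - K - 1 - a, n + K + 1 + b} : Finset ℤ) fun _ => {x | 2 ^ (a + b + 2 * K + 2) < x}

lemma TA_meas (n : ℤ) (K : ℕ) : MeasurableSet (TA n K) :=
  .pi (Finset.countable_toSet _) fun _ _ => .of_discrete

lemma BA_meas (n : ℤ) (K : ℕ) : MeasurableSet (BA n K) :=
  .iUnion fun _ => .iUnion fun _ => .pi (Finset.countable_toSet _) fun _ _ => .of_discrete

lemma dep_of' {A : Set (ℤ → ℕ)} {S : Set ℤ}
    (h : ∀ ω ω' : ℤ → ℕ, (∀ e ∈ S, ω e = ω' e) → ω ∈ A → ω' ∈ A) : DependsOn (· ∈ A) S :=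
  fun ω ω' e => propext ⟨h ω ω' e, h ω' ω fun i hi => (e i hi).symm⟩

lemma TA_dep (n : ℤ) (K : ℕ) : DependsOn (· ∈ TA n K) (Icc (n - K) (n + K)) :=
  dep_of' fun ω ω' h h1 i hi => by
    rw [← h i (by simpa using hi)]; exact h1 i hi

lemma BA_dep (n : ℤ) (K : ℕ) : DependsOn (· ∈ BA n K) (Icc (n - K) (n + K))ᶜ := by
  refine dep_of' fun ω ω' h h1 => ?_
  simp only [BA, mem_iUnion] at h1 ⊢
  obtain ⟨a, b, h2⟩ := h1
  refine ⟨a, b, fun i hi => ?_⟩
  rw [← h i ?_]
  · exact h2 i hi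
  · simp only [Finset.coe_insert, Finset.coe_singleton, mem_insert_iff, mem_singleton_iff] at hi
    simp only [mem_compl_iff, mem_Icc]; omega

lemma BA_prob (n : ℤ) (K : ℕ) : nu (BA n K) ≤ ∑' a, GA (a + K) := by
  refine (measure_iUnion_le _).trans (ENNReal.tsum_le_tsum fun a => (measure_iUnion_le _).trans
    (ENNReal.tsum_le_tsum fun b => ?_))
  rw [nu, Measure.infinitePi_pi _ fun _ _ => .of_discrete, Finset.prod_pair (by omega)]
  obtain ⟨k, h1, h2⟩ := tail (a + b + 2 * K + 2)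
  refine le_trans ?_ (ENNReal.le_tsum k)
  rw [uu, uu, if_pos (by omega), if_pos (by omega), mul_one, mul_one, sq]
  exact mul_le_mul' h2 h2

lemma good_mono {Λ : ℤ → ℕ} {n : ℤ} {K K' : ℕ} (h : K ≤ K') (hg : good Λ n K') : good Λ n K := by
  refine ⟨fun i h1 h2 => hg.1 i (by omega) (by omega), fun a b => ?_⟩
  by_cases ha : K + 1 + a ≤ K'
  · left; rw [hg.1 _ (by omega) (by omega)]; exact Nat.one_le_two_pow
  by_cases hb : K + 1 + b ≤ K'
  · right; rw [hg.1 _ (by omega) (by omega)]; exact Nat.one_le_two_pow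
  have := hg.2 (a + K - K') (b + K - K')
  rwa [show a + K - K' + (b + K - K') + 2 * K' + 2 = a + b + 2 * K + 2 by omega,
    show n - K' - 1 - (a + K - K' : ℕ) = n - K - 1 - a by omega,
    show n + K' + 1 + (b + K - K' : ℕ) = n + K + 1 + b by omega] at this

lemma env {sg : ℤ} (hsg : sg = 1 ∨ sg = -1) (K : ℕ) (N : ℤ) :
    ∀ᵐ Λ ∂nu, ∃ n, N ≤ sg * n ∧ good Λ n K := by
  rw [ae_iff, ← measureReal_eq_zero_iff]
  refine le_antisymm ?_ measureReal_nonneg
  have lim : Tendsto (fun K : ℕ => (∑' a, GA (a + K)).toReal) atTop (𝓝 0) := by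
    exact (ENNReal.tendsto_toReal ENNReal.zero_ne_top).comp
      (ENNReal.tendsto_sum_nat_add GA GA_sum)
  refine ge_of_tendsto lim (eventually_atTop.2 ⟨K, fun K' hK => ?_⟩)
  obtain ⟨n, -, h2, h3⟩ := spaced (P := fun _ => True) hsg
    (fun M => ⟨sg * M, by rcases hsg with rfl | rfl <;> omega, trivial⟩) (2 * K' + 1) N
  have hfin : ∑' a, GA (a + K') ≠ ∞ := ne_top_of_le_ne_top GA_sum
    (ENNReal.tsum_comp_le_tsum_of_injective (add_left_injective K') GA)
  have h4 := many nu (fun k => TA (n k) K') (fun k => BA (n k) K') (fun k => TA_meas _ _)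
    (fun k => BA_meas _ _) (δ := (mu0 {1}).toReal ^ (2 * K' + 1))
    (ε := (∑' a, GA (a + K')).toReal)
    (pow_pos (ENNReal.toReal_pos mu0_one.ne' (measure_ne_top _ _)) _) (fun k => ?_)
    (fun k l hkl => ?_) (fun k => ?_)
  · refine le_trans (measureReal_mono ?_) h4
    intro Λ hΛ k hk
    by_contra hc
    refine hΛ ⟨n k, h2 k, good_mono hK ⟨fun i a1 a2 => hk i (by simp [a1, a2]), fun a b => ?_⟩⟩
    by_contra hd
    rw [not_or, not_le, not_le] at hd
    refine hc (mem_iUnion.2 ⟨a, mem_iUnion.2 ⟨b, fun i hi => ?_⟩⟩)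
    simp only [Finset.coe_insert, Finset.coe_singleton, mem_insert_iff, mem_singleton_iff] at hi
    rcases hi with rfl | rfl
    · exact hd.1
    · exact hd.2
  · rw [measureReal_def, TA, nu, Measure.infinitePi_pi _ fun _ _ => .of_discrete,
      Finset.prod_const, Int.card_Icc, ENNReal.toReal_pow,
      show (n k + K' + 1 - (n k - K')).toNat = 2 * K' + 1 by omega]
  · refine Har.indep_of _ ?_ (TA_meas _ _) (TA_meas _ _) (TA_dep _ _) (TA_dep _ _)
    rw [Set.disjoint_left]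
    intro i a1 a2
    have := h3 k l hkl
    simp only [mem_Icc] at a1 a2
    push_cast at this
    omega
  · have h1 : nu (TA (n k) K' ∩ BA (n k) K') = nu (TA (n k) K') * nu (BA (n k) K') :=
      Har.indep_of _ disjoint_compl_right (TA_meas _ _) (BA_meas _ _) (TA_dep _ _) (BA_dep _ _)
    rw [measureReal_def, h1, ENNReal.toReal_mul, mul_comm]
    exact mul_le_mul_of_nonneg_right (ENNReal.toReal_mono hfin (BA_prob _ _)) ENNReal.toReal_nonneg

theorem main {p q : unitInterval} (hp : (p : ℝ) ≤ 1 / 32) (hq : (q : ℝ) < 1) :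
    ∀ᵐ Λ ∂nu, theta (region Λ) p q = 0 := by
  have h1 : ∀ᵐ Λ ∂nu, ∀ i, 1 ≤ Λ i := by
    rw [ae_all_iff]
    intro i
    refine (measurePreserving_eval_infinitePi (fun _ : ℤ => mu0) i).quasiMeasurePreserving.ae
      (p := fun x => 1 ≤ x) ?_
    rw [ae_iff]
    refine measure_mono_null (fun x hx => ?_) mu0_zero
    simpa using hx
  have h2 : ∀ᵐ Λ ∂nu, ∀ sg : ℤ, sg = 1 ∨ sg = -1 → ∀ (K : ℕ) (N : ℤ),
      ∃ n, N ≤ sg * n ∧ good Λ n K := by
    rw [ae_all_iff]
    intro sg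
    by_cases hsg : sg = 1 ∨ sg = -1
    · filter_upwards [ae_all_iff.2 fun K => ae_all_iff.2 fun N => env hsg K N] with Λ h _ using h
    · exact Eventually.of_forall fun _ h => absurd h hsg
  filter_upwards [h1, h2] with Λ a1 a2 using theta_zero a1 hp hq a2

theorem pc_ge {p : unitInterval} (hp : (p : ℝ) ≤ 1 / 32) : p ≤ pc := by
  obtain ⟨Λ, h⟩ := (main hp (q := p) (by linarith)).exists
  refine le_sSup ?_
  have : law (region Λ) p p = law ∅ p p := by simp only [law, ite_self]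
  rw [theta, this] at h
  exact h

end Pool.Agent.H44.SB
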