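import Mathlib

open MeasureTheory ProbabilityTheory Set unitInterval
open scoped ENNReal

namespace Pool.Agent.H44.SB

/-- `X 0 + 2 (X 1 + ... + X (n-1)) + X n` for `n ≥ 1`, and `0` for `n = 0`. -/
def Zp (X : ℕ → ℕ) (n : ℕ) : ℤ :=
  if n = 0 then 0 else X 0 + 2 * ∑ i ∈ Finset.Ico 1 n, (X i : ℤ) + X n

/-- the centre `Z(n)` of the `n`-th box -/
def Z (Λ : ℤ → ℕ) (n : ℤ) : ℤ :=
  if 0 ≤ n then Zp (fun i => Λ i) n.toNat else -Zp (fun i => Λ (-i)) (-n).toNat

/-- the box `B(a, r)` in dimension two -/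
def box (a : ℤ) (r : ℕ) : Set (ℤ × ℤ) := {v | |v.1| ≤ r ∧ a - r ≤ v.2 ∧ v.2 ≤ a + r}

/-- the reinforced region of the stack model -/
def region (Λ : ℤ → ℕ) : Set (ℤ × ℤ) := ⋃ n, box (Z Λ n) (Λ n)

/-- nearest neighbours of the square lattice -/
def adj (x y : ℤ × ℤ) : Prop := |x.1 - y.1| + |x.2 - y.2| = 1

open Classical in
/-- independent bond variables: parameter `q` if both endpoints are in `R`, else `p` -/
noncomputable def law (R : Set (ℤ × ℤ)) (p q : I) : Measure (Sym2 (ℤ × ℤ) → Bool) :=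
  Measure.infinitePi fun e => bernoulliMeasure true false (if ∀ v ∈ e, v ∈ R then q else p)

/-- the open cluster of the origin -/
def cluster (ω : Sym2 (ℤ × ℤ) → Bool) : Set (ℤ × ℤ) :=
  {y | Relation.ReflTransGen (fun a b => adj a b ∧ ω s(a, b) = true) 0 y}

/-- probability that the origin lies in an infinite open cluster -/
noncomputable def theta (R : Set (ℤ × ℤ)) (p q : I) : ℝ≥0∞ := law R p q {ω | (cluster ω).Infinite}

/-- the homogeneous bond percolation threshold of the square lattice -/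
noncomputable def pc : I := sSup {p : I | theta ∅ p p = 0}

end Pool.Agent.H44.SB
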