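import Mathlib

open Finset

namespace Pool.Agent.H44.SJ

/-- Values `∑ X u v` of the matrices feasible for the Schrijver program of `G`. -/
def feas {V : Type} [Fintype V] (G : SimpleGraph V) : Set ℝ :=
  {s | ∃ X : Matrix V V ℝ, X.PosSemidef ∧ (∀ u v, 0 ≤ X u v) ∧ X.trace = 1 ∧
    (∀ u v, G.Adj u v → X u v = 0) ∧ s = ∑ u, ∑ v, X u v}

/-- The Schrijver number. -/
noncomputable def theta' {V : Type} [Fintype V] (G : SimpleGraph V) : ℝ := sSup (feas G)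

/-- The sign `±1` coded by a Boolean. -/
def sg (b : Bool) : ℝ := if b then 1 else -1

/-- Inner product of two `±1` vectors. -/
def ip {n : ℕ} (x y : Fin n → Bool) : ℝ := ∑ k, sg (x k) * sg (y k)

/-- The graph `G_n` on `{±1}^n`: distinct `x, y` are adjacent iff `⟨x, y⟩ > 0`. -/
def cube (n : ℕ) : SimpleGraph (Fin n → Bool) where
  Adj x y := x ≠ y ∧ 0 < ip x y
  symm := ⟨fun x y h => ⟨h.1.symm, by
    have := h.2
    unfold ip at this ⊢
    simpa [mul_comm] using this⟩⟩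
  loopless := ⟨fun _ h => h.1 rfl⟩

/-- Strong product of two graphs. -/
def sprod {V W : Type} (G : SimpleGraph V) (H : SimpleGraph W) : SimpleGraph (V × W) where
  Adj p q := p ≠ q ∧ (p.1 = q.1 ∨ G.Adj p.1 q.1) ∧ (p.2 = q.2 ∨ H.Adj p.2 q.2)
  symm := ⟨fun _ _ h => ⟨h.1.symm, h.2.1.imp Eq.symm G.adj_symm, h.2.2.imp Eq.symm H.adj_symm⟩⟩
  loopless := ⟨fun _ h => h.1 rfl⟩

/-- Strong product of `r` graphs. -/
def piProd {r : ℕ} {V : Fin r → Type} (G : ∀ i, SimpleGraph (V i)) :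
    SimpleGraph (∀ i, V i) where
  Adj x y := x ≠ y ∧ ∀ i, x i = y i ∨ (G i).Adj (x i) (y i)
  symm := ⟨fun _ _ h => ⟨h.1.symm, fun i => (h.2 i).imp Eq.symm (G i).adj_symm⟩⟩
  loopless := ⟨fun _ h => h.1 rfl⟩

end Pool.Agent.H44.SJ
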