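import Mathlib
import Pool.Agent.H44.SJDefs

open Finset Filter Topology

namespace Pool.Agent.H44.SJ

lemma psd_of {V : Type} [Fintype V] (M : Matrix V V ℝ) (hs : ∀ i j, M i j = M j i)
    (h : ∀ x : V → ℝ, 0 ≤ ∑ i, ∑ j, x i * M i j * x j) : M.PosSemidef := by
  rw [Matrix.posSemidef_iff_dotProduct_mulVec]
  refine ⟨?_, fun x => ?_⟩
  · ext i j; simp [hs i j]
  · have := h x
    simpa [dotProduct, Matrix.mulVec, mul_sum, mul_assoc] using this

lemma of_psd {V : Type} [Fintype V] {M : Matrix V V ℝ} (h : M.PosSemidef) (x : V → ℝ) :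
    0 ≤ ∑ i, ∑ j, x i * M i j * x j := by
  have := h.dotProduct_mulVec_nonneg x
  simpa [dotProduct, Matrix.mulVec, mul_sum, mul_assoc] using this

lemma symm_of_psd {V : Type} [Fintype V] {M : Matrix V V ℝ} (h : M.PosSemidef) (i j : V) :
    M i j = M j i := by
  have := h.isHermitian.apply j i
  simpa using this

lemma entry_le {V : Type} [Fintype V] {X : Matrix V V ℝ} (h : X.PosSemidef) (u v : V) :
    2 * X u v ≤ X u u + X v v := by
  classical
  have h1 := of_psd h (fun w => (if w = u then 1 else 0) - (if w = v then 1 else 0))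
  simp only [sub_mul, mul_sub, sum_sub_distrib, ite_mul, mul_ite, one_mul, zero_mul, mul_one,
    mul_zero, sum_ite_eq', mem_univ, if_true] at h1
  have h2 := symm_of_psd h u v
  linarith

lemma feas_bdd {V : Type} [Fintype V] (G : SimpleGraph V) : BddAbove (feas G) := by
  refine ⟨(Fintype.card V : ℝ), ?_⟩
  rintro s ⟨X, hX, -, htr, -, rfl⟩
  have h1 : ∑ u, ∑ v, 2 * X u v ≤ ∑ u, ∑ v, (X u u + X v v) :=
    sum_le_sum fun u _ => sum_le_sum fun v _ => entry_le hX u v
  have h2 : ∑ u, X u u = 1 := htr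
  simp only [sum_add_distrib, sum_const, card_univ, nsmul_eq_mul, ← mul_sum, h2] at h1
  linarith

lemma le_theta {V : Type} [Fintype V] {G : SimpleGraph V} {s : ℝ} (h : s ∈ feas G) :
    s ≤ theta' G := le_csSup (feas_bdd G) h

lemma feas_sub {V W : Type} [Fintype V] [Fintype W] {G : SimpleGraph V} {H : SimpleGraph W}
    (φ : V → W) (hφ : Function.Injective φ) (hA : ∀ u v, H.Adj (φ u) (φ v) → G.Adj u v) :
    feas G ⊆ feas H := by
  classical
  rintro s ⟨X, hX, h0, htr, hadj, rfl⟩
  let Y : Matrix W W ℝ := Matrix.of fun w w' =>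
    ∑ u, ∑ v, if φ u = w ∧ φ v = w' then X u v else 0
  have key : ∀ g : W → W → ℝ, ∑ w, ∑ w', g w w' * Y w w' = ∑ u, ∑ v, g (φ u) (φ v) * X u v := by
    intro g
    simp only [Y, Matrix.of_apply, mul_sum]
    calc ∑ w, ∑ w', ∑ u, ∑ v, g w w' * (if φ u = w ∧ φ v = w' then X u v else 0)
        = ∑ w, ∑ u, ∑ w', ∑ v, g w w' * (if φ u = w ∧ φ v = w' then X u v else 0) :=
          sum_congr rfl fun w _ => sum_comm
      _ = ∑ u, ∑ w, ∑ w', ∑ v, g w w' * (if φ u = w ∧ φ v = w' then X u v else 0) := sum_comm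
      _ = ∑ u, ∑ w, ∑ v, ∑ w', g w w' * (if φ u = w ∧ φ v = w' then X u v else 0) :=
          sum_congr rfl fun u _ => sum_congr rfl fun w _ => sum_comm
      _ = ∑ u, ∑ v, ∑ w, ∑ w', g w w' * (if φ u = w ∧ φ v = w' then X u v else 0) :=
          sum_congr rfl fun u _ => sum_comm
      _ = _ := by
          refine sum_congr rfl fun u _ => sum_congr rfl fun v _ => ?_
          simp only [ite_and, mul_ite, mul_zero]
          rw [sum_eq_single (φ u)]
          · simp
          · intro w _ hw
            simp [Ne.symm hw]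
          · simp
  refine ⟨Y, psd_of Y (fun w w' => ?_) (fun f => ?_), fun w w' => ?_, ?_, fun w w' h => ?_, ?_⟩
  · simp only [Y, Matrix.of_apply]
    rw [sum_comm]
    refine sum_congr rfl fun u _ => sum_congr rfl fun v _ => ?_
    rw [symm_of_psd hX v u]
    simp only [and_comm]
  · have h1 := key (fun w w' => f w * f w')
    have h2 := of_psd hX (fun u => f (φ u))
    calc (0 : ℝ) ≤ ∑ u, ∑ v, f (φ u) * X u v * f (φ v) := h2
      _ = ∑ u, ∑ v, f (φ u) * f (φ v) * X u v :=
          sum_congr rfl fun u _ => sum_congr rfl fun v _ => by ring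
      _ = ∑ w, ∑ w', f w * f w' * Y w w' := h1.symm
      _ = _ := sum_congr rfl fun u _ => sum_congr rfl fun v _ => by ring
  · simp only [Y, Matrix.of_apply]
    refine sum_nonneg fun u _ => sum_nonneg fun v _ => ?_
    split_ifs
    · exact h0 u v
    · exact le_rfl
  · have h1 := key (fun w w' => if w = w' then 1 else 0)
    simp only [ite_mul, one_mul, zero_mul, sum_ite_eq, mem_univ, if_true, hφ.eq_iff] at h1
    exact h1.trans htr
  · simp only [Y, Matrix.of_apply]
    refine sum_eq_zero fun u _ => sum_eq_zero fun v _ => ?_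
    split_ifs with hh
    · obtain ⟨rfl, rfl⟩ := hh
      exact hadj u v (hA u v h)
    · rfl
  · have h1 := key (fun _ _ => 1)
    simp only [one_mul] at h1
    exact h1.symm

lemma two_mem {V : Type} [Fintype V] {G : SimpleGraph V} {a b : V} (hab : a ≠ b)
    (h : ¬ G.Adj a b) : (2 : ℝ) ∈ feas G := by
  classical
  let g : V → ℝ := fun w => (if w = a then 1 else 0) + (if w = b then 1 else 0)
  have hg : ∀ w, 0 ≤ g w := fun w => by simp only [g]; split_ifs <;> norm_num
  have hs : ∑ w, g w = 2 := by simp only [g, sum_add_distrib, sum_ite_eq', mem_univ, if_true]; norm_num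
  have hgg : ∀ w, g w * g w = g w := fun w => by
    simp only [g]
    split_ifs with h1 h2
    · exact absurd (h1.symm.trans h2) hab
    all_goals norm_num
  refine ⟨Matrix.of fun u v => g u * g v / 2, psd_of _ (fun u v => ?_) (fun f => ?_),
    fun u v => ?_, ?_, fun u v huv => ?_, ?_⟩
  · simp [mul_comm]
  · have : ∑ i, ∑ j, f i * (g i * g j / 2) * f j = (∑ i, f i * g i) * (∑ i, f i * g i) / 2 := by
      rw [sum_mul_sum, sum_div]
      refine sum_congr rfl fun i _ => ?_
      rw [sum_div]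
      exact sum_congr rfl fun j _ => by ring
    simp only [Matrix.of_apply]
    rw [this]
    have := mul_self_nonneg (∑ i, f i * g i)
    positivity
  · have := hg u
    have := hg v
    simp only [Matrix.of_apply]
    positivity
  · simp only [Matrix.trace, Matrix.diag, Matrix.of_apply, hgg, ← sum_div, hs]
    norm_num
  · simp only [Matrix.of_apply, g]
    have hne := huv.ne
    by_cases h1 : u = a
    · subst h1
      have h2 : v ≠ b := fun e => h (e ▸ huv)
      simp [hne.symm, h2]
    · by_cases h2 : u = b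
      · subst h2
        have h3 : v ≠ a := fun e => h (e ▸ huv.symm)
        simp [hne.symm, h3]
      · simp [h1, h2]
  · simp only [Matrix.of_apply, ← sum_div, ← mul_sum, ← sum_mul, hs]
    norm_num

lemma sg_sq (b : Bool) : sg b * sg b = 1 := by cases b <;> simp [sg]

lemma ip_self {n : ℕ} (x : Fin n → Bool) : ip x x = n := by simp [ip, sg_sq]

lemma sg_mul_ge (a b : Bool) : -1 ≤ sg a * sg b := by cases a <;> cases b <;> simp [sg]

lemma ip_ge {n : ℕ} (x y : Fin n → Bool) : -(n : ℝ) ≤ ip x y := by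
  have : ∑ _k : Fin n, (-1 : ℝ) ≤ ip x y := sum_le_sum fun k _ => sg_mul_ge _ _
  simpa using this

lemma two_le_cube {n : ℕ} (hn : 1 ≤ n) : 2 ≤ theta' (cube n) := by
  refine le_theta (two_mem (a := fun _ => true) (b := fun _ => false) ?_ ?_)
  · intro h
    have := congrFun h ⟨0, hn⟩
    simp at this
  · rintro ⟨-, h⟩
    simp [ip, sg] at h
    have : (0 : ℝ) ≤ n := Nat.cast_nonneg n
    linarith

lemma cube_le {n : ℕ} (hn : 1 ≤ n) : theta' (cube n) ≤ 2 * n := by
  classical
  have hn' : (0 : ℝ) < n := by exact_mod_cast hn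
  refine Real.sSup_le ?_ (by positivity)
  rintro s ⟨X, hX, h0, htr, hadj, rfl⟩
  have htr' : ∑ u, X u u = 1 := htr
  have e1 : ∑ u, ∑ v, X u v * ip u v = ∑ k, ∑ u, ∑ v, sg (u k) * X u v * sg (v k) := by
    simp only [ip, mul_sum]
    calc ∑ u, ∑ v, ∑ k, X u v * (sg (u k) * sg (v k))
        = ∑ u, ∑ k, ∑ v, X u v * (sg (u k) * sg (v k)) := sum_congr rfl fun u _ => sum_comm
      _ = ∑ k, ∑ u, ∑ v, X u v * (sg (u k) * sg (v k)) := sum_comm
      _ = _ := sum_congr rfl fun k _ => sum_congr rfl fun u _ => sum_congr rfl fun v _ => by ring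
  have h1 : 0 ≤ ∑ u, ∑ v, X u v * ip u v := by
    rw [e1]
    exact sum_nonneg fun k _ => of_psd hX (fun u => sg (u k))
  have e2 : ∑ u, ∑ v, X u v * (ip u v * ip u v) =
      ∑ k, ∑ l, ∑ u, ∑ v, (sg (u k) * sg (u l)) * X u v * (sg (v k) * sg (v l)) := by
    simp only [ip, sum_mul_sum]
    simp only [mul_sum]
    calc ∑ u, ∑ v, ∑ k, ∑ l, X u v * (sg (u k) * sg (v k) * (sg (u l) * sg (v l)))
        = ∑ u, ∑ k, ∑ v, ∑ l, X u v * (sg (u k) * sg (v k) * (sg (u l) * sg (v l))) :=
          sum_congr rfl fun u _ => sum_comm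
      _ = ∑ k, ∑ u, ∑ v, ∑ l, X u v * (sg (u k) * sg (v k) * (sg (u l) * sg (v l))) := sum_comm
      _ = ∑ k, ∑ u, ∑ l, ∑ v, X u v * (sg (u k) * sg (v k) * (sg (u l) * sg (v l))) :=
          sum_congr rfl fun k _ => sum_congr rfl fun u _ => sum_comm
      _ = ∑ k, ∑ l, ∑ u, ∑ v, X u v * (sg (u k) * sg (v k) * (sg (u l) * sg (v l))) :=
          sum_congr rfl fun k _ => sum_comm
      _ = _ := sum_congr rfl fun k _ => sum_congr rfl fun l _ => sum_congr rfl fun u _ =>
          sum_congr rfl fun v _ => by ring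
  have h2 : n * ∑ u, ∑ v, X u v ≤ ∑ u, ∑ v, X u v * (ip u v * ip u v) := by
    rw [e2]
    have : ∀ k : Fin n, ∑ u, ∑ v, X u v ≤
        ∑ l, ∑ u, ∑ v, (sg (u k) * sg (u l)) * X u v * (sg (v k) * sg (v l)) := by
      intro k
      have h3 := single_le_sum (f := fun l : Fin n =>
        ∑ u, ∑ v, (sg (u k) * sg (u l)) * X u v * (sg (v k) * sg (v l))) (s := univ)
        (fun l _ => of_psd hX (fun u => sg (u k) * sg (u l))) (mem_univ k)
      simpa only [sg_sq, one_mul, mul_one] using h3
    have h4 := sum_le_sum fun k (_ : k ∈ (univ : Finset (Fin n))) => this k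
    simpa using h4
  have h3 : ∑ u, ∑ v, X u v * (ip u v * (ip u v + n)) ≤
      ∑ u, ∑ v, if u = v then X u u * (2 * n * n) else 0 := by
    refine sum_le_sum fun u _ => sum_le_sum fun v _ => ?_
    split_ifs with h
    · subst h
      rw [ip_self]
      exact le_of_eq (by ring)
    · by_cases hp : 0 < ip u v
      · rw [hadj u v ⟨h, hp⟩, zero_mul]
      · have := ip_ge u v
        exact mul_nonpos_of_nonneg_of_nonpos (h0 u v)
          (mul_nonpos_of_nonpos_of_nonneg (not_lt.1 hp) (by linarith))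
  simp only [sum_ite_eq, mem_univ, if_true, ← sum_mul, htr', mul_add, sum_add_distrib] at h3
  have h5 : ∑ u, ∑ v, X u v * (ip u v * n) = n * ∑ u, ∑ v, X u v * ip u v := by
    simp only [mul_sum]
    exact sum_congr rfl fun u _ => sum_congr rfl fun v _ => by ring
  rw [h5] at h3
  have h6 : 0 ≤ (n : ℝ) * ∑ u, ∑ v, X u v * ip u v := by positivity
  have h7 : (n : ℝ) * ∑ u, ∑ v, X u v ≤ n * (2 * n) := by linarith
  exact le_of_mul_le_mul_left h7 hn'

/-! The moment lemma -/

lemma piece (j : ℕ) : ∃ (ι : Type) (_ : Fintype ι) (p u v : ι → ℝ), (∀ i, 0 ≤ p i) ∧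
    (∀ i, u i < 0 ∨ v i < 0) ∧ ∀ a b, a + b = j → ∑ i, p i * (u i ^ a * v i ^ b) = 1 := by
  classical
  rcases Nat.even_or_odd j with hj | hj
  · refine ⟨Unit, inferInstance, fun _ => 1, fun _ => -1, fun _ => -1, fun _ => zero_le_one,
      fun _ => Or.inl (by norm_num), fun a b h => ?_⟩
    simp [← pow_add, h, hj.neg_one_pow]
  · let t : Fin (j + 1) → ℝ := fun i => (i : ℝ) + 1
    have ht : Set.InjOn t (univ : Finset (Fin (j + 1))) := by
      intro i _ k _ h
      simp only [t, add_left_inj, Nat.cast_inj] at h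
      exact Fin.ext h
    let σ : Fin (j + 1) → ℝ := fun i => (Lagrange.basis univ t i).eval (-1)
    have hσ : ∀ a ≤ j, ∑ i, t i ^ a * σ i = (-1) ^ a := by
      intro a ha
      have h1 := Lagrange.eq_interpolate (f := (Polynomial.X : Polynomial ℝ) ^ a) ht (by
        rw [Polynomial.degree_X_pow, card_univ, Fintype.card_fin]
        exact_mod_cast Nat.lt_succ_of_le ha)
      have h2 := congrArg (Polynomial.eval (-1 : ℝ)) h1
      simp only [Lagrange.interpolate_apply, Polynomial.eval_finsetSum, Polynomial.eval_mul,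
        Polynomial.eval_C, Polynomial.eval_pow, Polynomial.eval_X] at h2
      exact h2.symm
    refine ⟨Fin (j + 1), inferInstance, fun i => |σ i|, fun i => if 0 ≤ σ i then -t i else t i,
      fun i => if 0 ≤ σ i then 1 else -1, fun i => abs_nonneg _, fun i => ?_, fun a b h => ?_⟩
    · have : 0 < t i := by simp only [t]; positivity
      beta_reduce
      split_ifs
      · left; linarith
      · right; norm_num
    · have e : ∀ i, |σ i| * ((if 0 ≤ σ i then -t i else t i) ^ a *
          (if 0 ≤ σ i then (1 : ℝ) else -1) ^ b) = (-1) ^ a * (t i ^ a * σ i) := by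
        intro i
        split_ifs with hs
        · rw [abs_of_nonneg hs, neg_pow, one_pow]; ring
        · have h3 : (-1 : ℝ) ^ a * (-1) ^ b = -1 := by rw [← pow_add, h, hj.neg_one_pow]
          have h4 : (-1 : ℝ) ^ a * (-1) ^ a = 1 := by rw [← mul_pow]; simp
          have h5 : (-1 : ℝ) ^ b = -(-1) ^ a := by
            calc (-1 : ℝ) ^ b = ((-1) ^ a * (-1) ^ a) * (-1) ^ b := by rw [h4, one_mul]
              _ = (-1) ^ a * ((-1) ^ a * (-1) ^ b) := by ring
              _ = _ := by rw [h3]; ring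
          rw [abs_of_neg (not_le.1 hs), h5]; ring
      simp only [e, ← mul_sum]
      rw [hσ a (by omega), ← mul_pow]
      simp

lemma moments (D : ℕ) : ∃ (ι : Type) (_ : Fintype ι) (p u v : ι → ℝ), (∀ i, 0 ≤ p i) ∧
    (∀ i, u i < 0 ∨ v i < 0) ∧ ∀ a b, a + b ≤ D → 0 < ∑ i, p i * (u i ^ a * v i ^ b) := by
  induction D with
  | zero =>
    obtain ⟨ι, _, p, u, v, h1, h2, h3⟩ := piece 0
    exact ⟨ι, inferInstance, p, u, v, h1, h2, fun a b h => by
      rw [h3 a b (by omega)]; exact one_pos⟩
  | succ D ih =>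
    obtain ⟨ι, _, p, u, v, h1, h2, h3⟩ := ih
    obtain ⟨κ, _, q, u', v', g1, g2, g3⟩ := piece (D + 1)
    have ev : ∀ᶠ ε : ℝ in 𝓝[>] 0, ∀ a ∈ range (D + 2), ∀ b ∈ range (D + 2),
        (a + b ≤ D → 0 < ∑ i, p i * (u i ^ a * v i ^ b) +
          ε ^ (2 * (D - (a + b)) + 1) * ∑ i, q i * (u' i ^ a * v' i ^ b)) ∧
        0 < ε * ∑ i, p i * (u i ^ a * v i ^ b) + 1 := by
      rw [eventually_all_finset]
      intro a _
      rw [eventually_all_finset]
      intro b _
      refine Eventually.and ?_ ?_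
      · by_cases hab : a + b ≤ D
        · have c : Continuous fun ε : ℝ => ∑ i, p i * (u i ^ a * v i ^ b) +
              ε ^ (2 * (D - (a + b)) + 1) * ∑ i, q i * (u' i ^ a * v' i ^ b) := by fun_prop
          have := (c.tendsto 0).eventually (lt_mem_nhds (a := 0) (by simpa using h3 a b hab))
          exact (this.filter_mono nhdsWithin_le_nhds).mono fun ε h _ => h
        · exact Eventually.of_forall fun ε h => absurd h hab
      · have c : Continuous fun ε : ℝ => ε * ∑ i, p i * (u i ^ a * v i ^ b) + 1 := by fun_prop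
        have := (c.tendsto 0).eventually (lt_mem_nhds (a := 0) (by simp))
        exact this.filter_mono nhdsWithin_le_nhds
    obtain ⟨ε, hε, hε0⟩ := (ev.and self_mem_nhdsWithin).exists
    have hε1 : 0 < ε := hε0
    refine ⟨ι ⊕ κ, inferInstance, Sum.elim p (fun i => ε ^ (2 * D + 1) * q i),
      Sum.elim (fun i => ε ^ 2 * u i) u', Sum.elim (fun i => ε ^ 2 * v i) v', ?_, ?_, ?_⟩
    · rintro (i | i)
      · exact h1 i
      · have := g1 i
        simp only [Sum.elim_inr]
        positivity
    · rintro (i | i)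
      · have : 0 < ε ^ 2 := by positivity
        exact (h2 i).imp (mul_neg_of_pos_of_neg this) (mul_neg_of_pos_of_neg this)
      · exact g2 i
    · intro a b hab
      obtain ⟨k1, k2⟩ := hε a (mem_range.2 (by omega)) b (mem_range.2 (by omega))
      have e1 : ∑ i, p i * ((ε ^ 2 * u i) ^ a * (ε ^ 2 * v i) ^ b) =
          ε ^ (2 * (a + b)) * ∑ i, p i * (u i ^ a * v i ^ b) := by
        rw [mul_sum]
        exact sum_congr rfl fun i _ => by ring
      have e2 : ∑ i, ε ^ (2 * D + 1) * q i * (u' i ^ a * v' i ^ b) =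
          ε ^ (2 * D + 1) * ∑ i, q i * (u' i ^ a * v' i ^ b) := by
        rw [mul_sum]
        exact sum_congr rfl fun i _ => by ring
      simp only [Fintype.sum_sum_type, Sum.elim_inl, Sum.elim_inr]
      rw [e1, e2]
      rcases Nat.lt_or_ge (a + b) (D + 1) with h | h
      · have h' : a + b ≤ D := by omega
        have e3 : 2 * D + 1 = 2 * (a + b) + (2 * (D - (a + b)) + 1) := by omega
        rw [e3, pow_add, mul_assoc, ← mul_add]
        exact mul_pos (by positivity) (k1 h')
      · have h' : a + b = D + 1 := by omega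
        rw [g3 a b h', h', show 2 * (D + 1) = (2 * D + 1) + 1 by ring, pow_succ, mul_assoc,
          ← mul_add]
        exact mul_pos (by positivity) k2

end Pool.Agent.H44.SJ
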