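import Mathlib
import Pool.Agent.H44.SJ1

open Finset Filter Topology

namespace Pool.Agent.H44.SJ

lemma abs_main {V T : Type} [Fintype V] [Fintype T] [DecidableEq V] [Nonempty V]
    (G : SimpleGraph V) (χ : T → V → ℝ) (c : T → ℝ) (N κ δ : ℝ) (hN : 0 < N) (ν : V → V → ℝ)
    (bad : V → V → Prop) [∀ p q, Decidable (bad p q)]
    (hP : ∀ p q, N * ∑ t, χ t p * χ t q = if p = q then 1 else 0)
    (hν : ∀ p q, ν p q = N * ∑ t, c t * (χ t p * χ t q))
    (hc : ∀ t, -κ ≤ c t) (h0 : ∀ p q, 0 ≤ ν p q) (hrow : ∀ p, ∑ q, ν p q = 1)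
    (hbs : ∀ p q, bad p q ↔ bad q p) (hbd : ∀ p, bad p p) (hadj : ∀ p q, G.Adj p q → bad p q)
    (hδ : ∀ p, ∑ q, (if bad p q then ν p q else 0) ≤ δ) (hκδ : 0 < κ + δ) :
    ∃ s ∈ feas G, (1 - δ) / (κ + δ) ≤ s := by
  have hV : (0 : ℝ) < Fintype.card V := by exact_mod_cast Fintype.card_pos
  have hνs : ∀ p q, ν p q = ν q p := fun p q => by
    rw [hν, hν]; simp only [mul_comm (χ _ p)]
  let β : V → V → ℝ := fun p q => if bad p q then ν p q else 0
  have hβs : ∀ p q, β p q = β q p := fun p q => by simp only [β, hbs p q, hνs p q]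
  have hβ0 : ∀ p q, 0 ≤ β p q := fun p q => by
    simp only [β]; split_ifs
    · exact h0 p q
    · exact le_rfl
  have hβν : ∀ p q, β p q ≤ ν p q := fun p q => by
    simp only [β]; split_ifs
    · exact le_rfl
    · exact h0 p q
  let e : V → V → ℝ := fun p q => if p = q then 1 else 0
  have he : ∀ f : V → ℝ, ∑ p, ∑ q, f p * e p q * f q = ∑ p, f p ^ 2 := fun f => by
    simp only [e, mul_ite, ite_mul, mul_one, mul_zero, zero_mul, sum_ite_eq, mem_univ, if_true, sq]
  have q1 : ∀ f : V → ℝ, -κ * ∑ p, f p ^ 2 ≤ ∑ p, ∑ q, f p * ν p q * f q := by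
    intro f
    have h1 : ∑ p, ∑ q, f p * ν p q * f q + κ * ∑ p, f p ^ 2 =
        N * ∑ t, (c t + κ) * ((∑ p, f p * χ t p) * (∑ p, f p * χ t p)) := by
      rw [← he f, mul_sum, ← sum_add_distrib]
      have h2 : ∀ p, ∑ q, f p * ν p q * f q + κ * ∑ q, f p * e p q * f q =
          ∑ q, ∑ t, N * ((c t + κ) * ((f p * χ t p) * (f q * χ t q))) := by
        intro p
        rw [mul_sum, ← sum_add_distrib]
        refine sum_congr rfl fun q _ => ?_
        have h3 : e p q = N * ∑ t, χ t p * χ t q := (hP p q).symm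
        rw [hν, h3]
        simp only [mul_sum, sum_mul, ← sum_add_distrib]
        exact sum_congr rfl fun t _ => by ring
      simp only [h2, sum_mul_sum]
      simp only [mul_sum]
      calc ∑ p, ∑ q, ∑ t, N * ((c t + κ) * ((f p * χ t p) * (f q * χ t q)))
          = ∑ p, ∑ t, ∑ q, N * ((c t + κ) * ((f p * χ t p) * (f q * χ t q))) :=
            sum_congr rfl fun p _ => sum_comm
        _ = _ := sum_comm
    have h4 : 0 ≤ N * ∑ t, (c t + κ) * ((∑ p, f p * χ t p) * (∑ p, f p * χ t p)) :=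
      mul_nonneg hN.le (sum_nonneg fun t _ =>
        mul_nonneg (by linarith [hc t]) (mul_self_nonneg _))
    linarith
  have q2 : ∀ f : V → ℝ, ∑ p, ∑ q, f p * β p q * f q ≤ δ * ∑ p, f p ^ 2 := by
    intro f
    have h1 : ∑ p, ∑ q, f p * β p q * f q ≤
        ∑ p, ∑ q, (f p ^ 2 * β p q / 2 + f q ^ 2 * β q p / 2) := by
      refine sum_le_sum fun p _ => sum_le_sum fun q _ => ?_
      rw [hβs q p]
      nlinarith [mul_nonneg (hβ0 p q) (sq_nonneg (f p - f q))]
    have h2 : ∑ p, ∑ q, f q ^ 2 * β q p / 2 = ∑ p, ∑ q, f p ^ 2 * β p q / 2 := sum_comm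
    simp only [sum_add_distrib] at h1
    rw [h2] at h1
    have h3 : ∑ p, ∑ q, f p ^ 2 * β p q / 2 ≤ ∑ p, δ * f p ^ 2 / 2 := by
      refine sum_le_sum fun p _ => ?_
      rw [← sum_div, ← mul_sum]
      have := mul_le_mul_of_nonneg_left (hδ p) (sq_nonneg (f p))
      linarith
    rw [← sum_div, ← mul_sum] at h3
    linarith
  set M : ℝ := 1 / (κ + δ) with hM
  have hM0 : 0 < M := by positivity
  have hM1 : M * (κ + δ) = 1 := by rw [hM]; field_simp
  set L : ℝ := 1 / (Fintype.card V : ℝ) with hL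
  have hL0 : 0 < L := by positivity
  have hL1 : L * (Fintype.card V : ℝ) = 1 := by rw [hL]; field_simp
  let X : Matrix V V ℝ := Matrix.of fun p q => L * (e p q + M * (ν p q - β p q))
  refine ⟨∑ p, ∑ q, X p q, ⟨X, psd_of X (fun p q => ?_) (fun f => ?_), fun p q => ?_, ?_,
    fun p q h => ?_, rfl⟩, ?_⟩
  · simp only [X, Matrix.of_apply, e, hνs p q, hβs p q, eq_comm]
  · have h1 : ∑ p, ∑ q, f p * X p q * f q = L * (∑ p, ∑ q, f p * e p q * f q +
        M * (∑ p, ∑ q, f p * ν p q * f q - ∑ p, ∑ q, f p * β p q * f q)) := by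
      simp only [X, Matrix.of_apply, mul_sum, ← sum_sub_distrib, ← sum_add_distrib]
      exact sum_congr rfl fun p _ => sum_congr rfl fun q _ => by ring
    rw [h1, he]
    refine mul_nonneg hL0.le ?_
    have h2 : M * (-κ * ∑ p, f p ^ 2 - δ * ∑ p, f p ^ 2) ≤
        M * (∑ p, ∑ q, f p * ν p q * f q - ∑ p, ∑ q, f p * β p q * f q) :=
      mul_le_mul_of_nonneg_left (by linarith [q1 f, q2 f]) hM0.le
    have h3 : M * (-κ * ∑ p, f p ^ 2 - δ * ∑ p, f p ^ 2) = -(M * (κ + δ)) * ∑ p, f p ^ 2 := by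
      ring
    rw [h3, hM1] at h2
    linarith
  · simp only [X, Matrix.of_apply]
    have h1 : 0 ≤ e p q := by simp only [e]; split_ifs <;> norm_num
    have h2 := sub_nonneg.2 (hβν p q)
    positivity
  · simp only [Matrix.trace, Matrix.diag, X, Matrix.of_apply, e, β, hbd, if_true, sub_self,
      mul_zero, add_zero, mul_one, sum_const, card_univ, nsmul_eq_mul]
    rw [mul_comm, hL1]
  · simp only [X, Matrix.of_apply, e, β, hadj p q h, if_true, sub_self, h.ne, if_false]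
    ring
  · have h1 : ∀ p, L * (M * (1 - δ)) ≤ ∑ q, X p q := by
      intro p
      have h2 : ∑ q, X p q = L * (1 + M * (1 - ∑ q, β p q)) := by
        simp only [X, Matrix.of_apply, ← mul_sum, sum_add_distrib, sum_sub_distrib, hrow, e,
          sum_ite_eq, mem_univ, if_true]
      rw [h2]
      refine mul_le_mul_of_nonneg_left ?_ hL0.le
      have := mul_le_mul_of_nonneg_left (sub_le_sub_left (hδ p) 1) hM0.le
      linarith
    have h2 := sum_le_sum fun p (_ : p ∈ (univ : Finset V)) => h1 p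
    rw [sum_const, card_univ, nsmul_eq_mul, ← mul_assoc, mul_comm _ L, hL1, one_mul] at h2
    refine le_trans (le_of_eq ?_) h2
    rw [hM]; ring

/-- character -/
def chi {n : ℕ} (S : Finset (Fin n)) (x : Fin n → Bool) : ℝ := ∏ k ∈ S, sg (x k)

/-- noise kernel -/
noncomputable def K {n : ℕ} (ρ : ℝ) (x y : Fin n → Bool) : ℝ :=
  ∏ k, (1 + ρ * (sg (x k) * sg (y k))) / 2

lemma K_exp {n : ℕ} (ρ : ℝ) (x y : Fin n → Bool) :
    K ρ x y = (1 / 2 ^ n) * ∑ S : Finset (Fin n), ρ ^ S.card * (chi S x * chi S y) := by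
  unfold K chi
  rw [prod_div_distrib, prod_const, card_univ, Fintype.card_fin, Finset.prod_one_add,
    powerset_univ, div_eq_mul_one_div, mul_comm]
  congr 1
  refine sum_congr rfl fun S _ => ?_
  rw [prod_mul_distrib, prod_mul_distrib, prod_const]

lemma K_one {n : ℕ} (x y : Fin n → Bool) : K 1 x y = if x = y then 1 else 0 := by
  unfold K
  split_ifs with h
  · subst h
    simp [sg_sq]
  · obtain ⟨k, hk⟩ := Function.ne_iff.1 h
    refine prod_eq_zero (mem_univ k) ?_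
    cases h1 : x k <;> cases h2 : y k <;> simp_all [sg]

lemma K_nonneg {n : ℕ} {ρ : ℝ} (h : |ρ| ≤ 1) (x y : Fin n → Bool) : 0 ≤ K ρ x y := by
  have := abs_le.1 h
  refine prod_nonneg fun k _ => ?_
  cases x k <;> cases y k <;> simp [sg] <;> linarith [this.1, this.2]

lemma sum_prod {n : ℕ} (h : ℝ → ℝ) (x : Fin n → Bool) :
    ∑ y : Fin n → Bool, ∏ k, h (sg (x k) * sg (y k)) = (h 1 + h (-1)) ^ n := by
  have h1 := Finset.prod_univ_sum (fun _ : Fin n => (univ : Finset Bool))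
    (fun k b => h (sg (x k) * sg b))
  rw [Fintype.piFinset_univ] at h1
  rw [← h1]
  have h2 : ∀ k, ∑ b : Bool, h (sg (x k) * sg b) = h 1 + h (-1) := fun k => by
    cases x k <;> simp [sg, add_comm]
  simp only [h2, prod_const, card_univ, Fintype.card_fin]

lemma K_sum {n : ℕ} (ρ : ℝ) (x : Fin n → Bool) : ∑ y, K ρ x y = 1 := by
  unfold K
  rw [sum_prod (fun z => (1 + ρ * z) / 2) x,
    show (1 + ρ * 1) / 2 + (1 + ρ * -1) / 2 = (1 : ℝ) by ring, one_pow]

lemma K_tail {n : ℕ} {ρ b : ℝ} (hb : 0 ≤ b) (h1 : ρ ≤ -b) (h2 : |ρ| ≤ 1) (x : Fin n → Bool) :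
    ∑ y, (if 0 < ip x y then K ρ x y else 0) ≤ Real.exp (-(b ^ 2 / 2) * n) := by
  have hl : 1 ≤ 1 - ρ := by linarith
  set t := Real.log (1 - ρ) with ht
  have ht0 : 0 ≤ t := Real.log_nonneg hl
  have e1 : Real.exp t = 1 - ρ := Real.exp_log (by linarith)
  have s1 : ∑ y, (if 0 < ip x y then K ρ x y else 0) ≤
      ∑ y : Fin n → Bool, ∏ k, ((1 + ρ * (sg (x k) * sg (y k))) / 2 *
        Real.exp (t * (sg (x k) * sg (y k)))) := by
    refine sum_le_sum fun y _ => ?_
    rw [prod_mul_distrib, ← Real.exp_sum, ← mul_sum]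
    have hK := K_nonneg h2 x y
    change _ ≤ K ρ x y * Real.exp (t * ip x y)
    split_ifs with h
    · exact le_mul_of_one_le_right hK (Real.one_le_exp (mul_nonneg ht0 h.le))
    · positivity
  rw [sum_prod (fun z => (1 + ρ * z) / 2 * Real.exp (t * z)) x] at s1
  refine s1.trans ?_
  have e2 : (1 + ρ * 1) / 2 * Real.exp (t * 1) + (1 + ρ * -1) / 2 * Real.exp (t * -1) =
      1 - ρ ^ 2 / 2 := by
    rw [mul_one t, mul_neg_one t, Real.exp_neg, e1]
    have : 1 - ρ ≠ 0 := by linarith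
    field_simp
    ring
  rw [e2, mul_comm, Real.exp_nat_mul]
  have h3 := abs_le.1 h2
  refine pow_le_pow_left₀ (by nlinarith [h3.1, h3.2]) ?_ n
  have h4 := Real.add_one_le_exp (-(b ^ 2 / 2))
  nlinarith

lemma ip_comm {n : ℕ} (x y : Fin n → Bool) : ip x y = ip y x := by
  simp only [ip, mul_comm]

lemma finite_main {n D : ℕ} (hn : 1 ≤ n) {ι : Type} [Fintype ι] (p u v : ι → ℝ) (B b : ℝ)
    (hB : 0 < B) (hB1 : B ≤ 1) (hb : 0 ≤ b) (hp : ∀ i, 0 ≤ p i) (hp1 : ∑ i, p i = 1)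
    (hu : ∀ i, |u i| ≤ B) (hv : ∀ i, |v i| ≤ B) (hneg : ∀ i, u i ≤ -b ∨ v i ≤ -b)
    (hm : ∀ a c, a + c ≤ D → 0 ≤ ∑ i, p i * (u i ^ a * v i ^ c)) :
    ∃ s ∈ feas (sprod (cube n) (cube n)),
      (1 - Real.exp (-(b ^ 2 / 2) * n)) / (B ^ (D + 1) + Real.exp (-(b ^ 2 / 2) * n)) ≤ s := by
  classical
  have hu1 : ∀ i, |u i| ≤ 1 := fun i => (hu i).trans hB1
  have hv1 : ∀ i, |v i| ≤ 1 := fun i => (hv i).trans hB1
  have hKK : ∀ (ρ ρ' : ℝ) (P Q : (Fin n → Bool) × (Fin n → Bool)),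
      K ρ P.1 Q.1 * K ρ' P.2 Q.2 = (1 / 2 ^ n * (1 / 2 ^ n)) *
        ∑ t : Finset (Fin n) × Finset (Fin n), (ρ ^ t.1.card * ρ' ^ t.2.card) *
          ((chi t.1 P.1 * chi t.2 P.2) * (chi t.1 Q.1 * chi t.2 Q.2)) := by
    intro ρ ρ' P Q
    rw [K_exp, K_exp, mul_mul_mul_comm, sum_mul_sum, Fintype.sum_prod_type]
    congr 1
    exact sum_congr rfl fun S _ => sum_congr rfl fun S' _ => by ring
  refine abs_main (sprod (cube n) (cube n))
    (fun (t : Finset (Fin n) × Finset (Fin n)) P => chi t.1 P.1 * chi t.2 P.2)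
    (fun t => ∑ i, p i * (u i ^ t.1.card * v i ^ t.2.card)) (1 / 2 ^ n * (1 / 2 ^ n)) _ _
    (by positivity) (fun P Q => ∑ i, p i * (K (u i) P.1 Q.1 * K (v i) P.2 Q.2))
    (fun P Q => 0 < ip P.1 Q.1 ∧ 0 < ip P.2 Q.2) (fun P Q => ?_) (fun P Q => ?_) (fun t => ?_)
    (fun P Q => ?_) (fun P => ?_) (fun P Q => ?_) (fun P => ?_) (fun P Q h => ?_) (fun P => ?_)
    (by positivity)
  · have h1 := hKK 1 1 P Q
    simp only [one_pow, one_mul] at h1
    rw [← h1, K_one, K_one]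
    by_cases h2 : P.1 = Q.1 <;> by_cases h3 : P.2 = Q.2 <;> simp [h2, h3, Prod.ext_iff]
  · simp only [hKK, mul_sum, sum_mul]
    rw [sum_comm]
    exact sum_congr rfl fun t _ => sum_congr rfl fun i _ => by ring
  · rcases Nat.lt_or_ge D (t.1.card + t.2.card) with h | h
    · have h1 : ∀ i, -B ^ (D + 1) ≤ u i ^ t.1.card * v i ^ t.2.card := by
        intro i
        refine neg_le_of_abs_le ?_
        rw [abs_mul, abs_pow, abs_pow]
        calc |u i| ^ t.1.card * |v i| ^ t.2.card ≤ B ^ t.1.card * B ^ t.2.card := by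
              have := hu i
              have := hv i
              gcongr
          _ = B ^ (t.1.card + t.2.card) := (pow_add _ _ _).symm
          _ ≤ B ^ (D + 1) := pow_le_pow_of_le_one hB.le hB1 h
      calc -B ^ (D + 1) = ∑ i, p i * (-B ^ (D + 1)) := by rw [← sum_mul, hp1, one_mul]
        _ ≤ _ := sum_le_sum fun i _ => mul_le_mul_of_nonneg_left (h1 i) (hp i)
    · refine le_trans ?_ (hm _ _ h)
      have : 0 ≤ B ^ (D + 1) := by positivity
      linarith
  · exact sum_nonneg fun i _ => mul_nonneg (hp i)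
      (mul_nonneg (K_nonneg (hu1 i) _ _) (K_nonneg (hv1 i) _ _))
  · rw [sum_comm, ← hp1]
    refine sum_congr rfl fun i _ => ?_
    rw [← mul_sum, Fintype.sum_prod_type, ← sum_mul_sum, K_sum, K_sum]
    ring
  · rw [ip_comm P.1, ip_comm P.2]
  · have : (0 : ℝ) < n := by exact_mod_cast hn
    exact ⟨by rwa [ip_self], by rwa [ip_self]⟩
  · have : (0 : ℝ) < n := by exact_mod_cast hn
    obtain ⟨-, h1, h2⟩ := h
    refine ⟨?_, ?_⟩
    · rcases h1 with h1 | h1
      · rwa [h1, ip_self]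
      · exact h1.2
    · rcases h2 with h2 | h2
      · rwa [h2, ip_self]
      · exact h2.2
  · have h1 : ∀ Q : (Fin n → Bool) × (Fin n → Bool),
        (if 0 < ip P.1 Q.1 ∧ 0 < ip P.2 Q.2 then
          ∑ i, p i * (K (u i) P.1 Q.1 * K (v i) P.2 Q.2) else 0) =
        ∑ i, p i * ((if 0 < ip P.1 Q.1 then K (u i) P.1 Q.1 else 0) *
          (if 0 < ip P.2 Q.2 then K (v i) P.2 Q.2 else 0)) := by
      intro Q
      by_cases h2 : 0 < ip P.1 Q.1 <;> by_cases h3 : 0 < ip P.2 Q.2 <;> simp [h2, h3]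
    simp only [h1]
    rw [sum_comm]
    have triv : ∀ (ρ : ℝ), |ρ| ≤ 1 → ∀ x : Fin n → Bool,
        0 ≤ ∑ y, (if 0 < ip x y then K ρ x y else 0) ∧
        ∑ y, (if 0 < ip x y then K ρ x y else 0) ≤ 1 := by
      intro ρ hρ x
      refine ⟨sum_nonneg fun y _ => ?_, ?_⟩
      · split_ifs
        · exact K_nonneg hρ _ _
        · exact le_rfl
      · rw [← K_sum ρ x]
        refine sum_le_sum fun y _ => ?_
        split_ifs
        · exact le_rfl
        · exact K_nonneg hρ _ _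
    calc _ ≤ ∑ i, p i * Real.exp (-(b ^ 2 / 2) * n) := by
          refine sum_le_sum fun i _ => ?_
          rw [← mul_sum, Fintype.sum_prod_type]
          dsimp only
          rw [← sum_mul_sum univ univ (fun x => if 0 < ip P.1 x then K (u i) P.1 x else 0)
            (fun y => if 0 < ip P.2 y then K (v i) P.2 y else 0)]
          refine mul_le_mul_of_nonneg_left ?_ (hp i)
          have t1 := triv (u i) (hu1 i) P.1
          have t2 := triv (v i) (hv1 i) P.2
          rcases hneg i with h | h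
          · exact (mul_le_of_le_one_right t1.1 t2.2).trans (K_tail hb h (hu1 i) _)
          · exact (mul_le_of_le_one_left t2.1 t1.2).trans (K_tail hb h (hv1 i) _)
      _ = _ := by rw [← sum_mul, hp1, one_mul]

theorem main (N : ℕ) : ∃ n : ℕ, 2 ≤ n ∧ ∃ s ∈ feas (sprod (cube n) (cube n)), (n : ℝ) ^ N < s := by
  obtain ⟨ι, _, p, u, v, h1, h2, h3⟩ := moments (3 * N)
  have hP : 0 < ∑ i, p i := by simpa using h3 0 0 (by omega)
  set P := ∑ i, p i with hPd
  set B : ℝ := 1 + ∑ i, (|u i| + |v i|) with hBd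
  have hs : ∀ i, |u i| + |v i| ≤ ∑ i, (|u i| + |v i|) := fun i =>
    single_le_sum (f := fun i => |u i| + |v i|) (fun i _ => by positivity) (mem_univ i)
  have hB : 0 < B := by positivity
  have hu : ∀ i, |u i| ≤ B := fun i => by linarith [hs i, abs_nonneg (v i)]
  have hv : ∀ i, |v i| ≤ B := fun i => by linarith [hs i, abs_nonneg (u i)]
  obtain ⟨b, hb1, hb⟩ : ∃ b : ℝ, (∀ i, u i ≤ -b ∨ v i ≤ -b) ∧ 0 < b := by
    have ev : ∀ᶠ b : ℝ in 𝓝[>] 0, ∀ i, u i ≤ -b ∨ v i ≤ -b := by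
      rw [eventually_all]
      intro i
      have key : ∀ w : ℝ, w < 0 → ∀ᶠ b : ℝ in 𝓝[>] 0, w ≤ -b := fun w hw =>
        ((gt_mem_nhds (neg_pos.2 hw)).filter_mono nhdsWithin_le_nhds).mono fun b h => by linarith
      rcases h2 i with h | h
      · exact (key _ h).mono fun b => Or.inl
      · exact (key _ h).mono fun b => Or.inr
    exact (ev.and self_mem_nhdsWithin).exists
  have hc : 0 < b ^ 2 / 2 := by positivity
  have T1 : Tendsto (fun x : ℝ => B ^ (3 * N + 1) / x) atTop (𝓝 0) :=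
    tendsto_const_nhds.div_atTop tendsto_id
  have T2 : ∀ k : ℕ, Tendsto (fun x : ℝ => x ^ k * Real.exp (-(b ^ 2 / 2) * x)) atTop (𝓝 0) := by
    intro k
    have := tendsto_rpow_mul_exp_neg_mul_atTop_nhds_zero (k : ℝ) _ hc
    simpa only [Real.rpow_natCast] using this
  have T3 := (T1.add (T2 (3 * N))).add (T2 0)
  have ev := (T3.comp tendsto_natCast_atTop_atTop).eventually
    (gt_mem_nhds (show (0 : ℝ) + 0 + 0 < 1 by norm_num))
  have ev2 : ∀ᶠ m : ℕ in atTop, B ≤ (m : ℝ) :=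
    tendsto_natCast_atTop_atTop.eventually_ge_atTop B
  obtain ⟨m, ⟨hm1, hm2⟩, hm3⟩ := ((ev.and ev2).and (eventually_ge_atTop 2)).exists
  simp only [Function.comp, pow_zero, one_mul] at hm1
  have hm0 : (0 : ℝ) < m := hB.trans_le hm2
  have hn : 2 ≤ m ^ 3 := hm3.trans (Nat.le_self_pow (by norm_num) m)
  refine ⟨m ^ 3, hn, ?_⟩
  obtain ⟨s, hs1, hs2⟩ := finite_main (n := m ^ 3) (D := 3 * N) (by omega) (fun i => p i / P)
    (fun i => u i / m) (fun i => v i / m) (B / m) (b / m) (by positivity)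
    ((div_le_one hm0).2 hm2) (by positivity) (fun i => div_nonneg (h1 i) hP.le)
    (by rw [← sum_div, div_self hP.ne'])
    (fun i => by rw [abs_div, abs_of_pos hm0]; exact div_le_div_of_nonneg_right (hu i) hm0.le)
    (fun i => by rw [abs_div, abs_of_pos hm0]; exact div_le_div_of_nonneg_right (hv i) hm0.le)
    (fun i => (hb1 i).imp
      (fun h => by rw [← neg_div]; exact div_le_div_of_nonneg_right h hm0.le)
      (fun h => by rw [← neg_div]; exact div_le_div_of_nonneg_right h hm0.le))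
    (fun a c h => by
      have e : ∑ i, p i / P * ((u i / m) ^ a * (v i / m) ^ c) =
          (∑ i, p i * (u i ^ a * v i ^ c)) / (P * (m ^ a * m ^ c)) := by
        rw [sum_div]
        exact sum_congr rfl fun i _ => by rw [div_pow, div_pow]; field_simp
      rw [e]
      have := h3 a c h
      positivity)
  refine ⟨s, hs1, lt_of_lt_of_le ?_ hs2⟩
  have e1 : -((b / m) ^ 2 / 2) * ((m ^ 3 : ℕ) : ℝ) = -(b ^ 2 / 2) * m := by
    push_cast; field_simp
  rw [e1, lt_div_iff₀ (by positivity)]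
  have e2 : (((m ^ 3 : ℕ) : ℝ)) ^ N * (B / m) ^ (3 * N + 1) = B ^ (3 * N + 1) / m := by
    push_cast
    rw [← pow_mul, div_pow]
    field_simp
    ring
  have e3 : (((m ^ 3 : ℕ) : ℝ)) ^ N = (m : ℝ) ^ (3 * N) := by
    push_cast
    rw [← pow_mul]
  rw [mul_add, e2, e3]
  linarith

end Pool.Agent.H44.SJ
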