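import Pool.Agent.H44.SRGDefs

open Set MeasureTheory Filter Topology
open scoped ENNReal

namespace Pool.Agent.H44.SRG

abbrev V : Type := ℤ × ℕ

noncomputable def cc (j : ℕ) : ℝ := 1 / ((j + 1) * (j + 2))

lemma cc_pos (j : ℕ) : 0 < cc j := by unfold cc; positivity

noncomputable def nu (v w : V) : ℝ :=
  if v.1 = w.1 ∧ w.2 = v.2 + 1 then cc v.2 else if v.1 = w.1 ∧ v.2 = w.2 + 1 then cc w.2
  else if v.2 = 0 ∧ w.2 = 0 ∧ (w.1 = v.1 + 1 ∨ v.1 = w.1 + 1) then 1 else 0

lemma nu_nonneg (v w : V) : 0 ≤ nu v w := by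
  unfold nu; split_ifs <;> first | exact (cc_pos _).le | norm_num

lemma nu_symm (v w : V) : nu v w = nu w v := by
  unfold nu; split_ifs <;> first | rfl | omega

lemma nu_pos {v w : V} : 0 < nu v w ↔ (v.1 = w.1 ∧ (w.2 = v.2 + 1 ∨ v.2 = w.2 + 1)) ∨
    (v.2 = 0 ∧ w.2 = 0 ∧ (w.1 = v.1 + 1 ∨ v.1 = w.1 + 1)) := by
  unfold nu; split_ifs <;> simp only [cc_pos, one_pos, lt_irrefl, true_iff, false_iff] <;> omega

lemma adj_iff {v w : V} : (gr nu).Adj v w ↔ 0 < nu v w := by
  rw [gr, SimpleGraph.fromRel_adj, nu_symm w v, or_self, and_iff_right_iff_imp, nu_pos]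
  rintro h rfl; omega

lemma sum0 {M : Type} [AddCommMonoid M] [TopologicalSpace M] [T2Space M] (x : ℤ)
    (F : ℝ → V → M) (h : ∀ w, F 0 w = 0) :
    ∑' w, F (nu (x, 0) w) w = F 1 (x + 1, 0) + F 1 (x - 1, 0) + F (cc 0) (x, 1) := by
  rw [tsum_eq_sum (s := {(x + 1, 0), (x - 1, 0), (x, 1)}) fun w hw => ?_, Finset.sum_insert,
    Finset.sum_pair, ← add_assoc]
  · simp [nu]
  · simp
  · simp [Prod.ext_iff]; omega
  · rw [le_antisymm (not_lt.1 fun h1 => hw ?_) (nu_nonneg _ _), h]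
    rw [nu_pos] at h1
    simp only [Finset.mem_insert, Finset.mem_singleton, Prod.ext_iff] at *
    omega

lemma sum1 {M : Type} [AddCommMonoid M] [TopologicalSpace M] [T2Space M] (x : ℤ) (j : ℕ)
    (F : ℝ → V → M) (h : ∀ w, F 0 w = 0) :
    ∑' w, F (nu (x, j + 1) w) w = F (cc j) (x, j) + F (cc (j + 1)) (x, j + 2) := by
  rw [tsum_eq_sum (s := {(x, j), (x, j + 2)}) fun w hw => ?_, Finset.sum_pair]
  · simp [nu]; rw [if_neg (by omega)]
  · simp
  · rw [le_antisymm (not_lt.1 fun h1 => hw ?_) (nu_nonneg _ _), h]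
    rw [nu_pos] at h1
    simp only [Finset.mem_insert, Finset.mem_singleton, Prod.ext_iff] at *
    omega

noncomputable def dg : ℕ → ℝ
  | 0 => 1 + 1 + cc 0
  | j + 1 => cc j + cc (j + 1)

lemma dg_pos (j : ℕ) : 0 < dg j := by
  rcases j with _ | j
  · exact add_pos (by norm_num) (cc_pos 0)
  · exact add_pos (cc_pos _) (cc_pos _)

lemma deg_eq (v : V) : ∑' w, nu v w = dg v.2 := by
  obtain ⟨x, _ | j⟩ := v
  · exact sum0 x (fun a _ => a) fun _ => rfl
  · exact sum1 x j (fun a _ => a) fun _ => rfl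

lemma conn : (gr nu).Connected := by
  have a : ∀ x j, (gr nu).Reachable (x, 0) (x, j) := fun x j => by
    induction j with
    | zero => rfl
    | succ j ih => exact ih.trans (adj_iff.2 (nu_pos.2 (by simp))).reachable
  have b : ∀ x : ℤ, (gr nu).Reachable (0, 0) (x, 0) := fun x => by
    induction x using Int.induction_on with
    | zero => rfl
    | succ j ih => exact ih.trans (adj_iff.2 (nu_pos.2 (by simp))).reachable
    | pred j ih => exact ih.trans (adj_iff.2 (nu_pos.2 (by simp))).reachable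
  exact ⟨fun v w => ((b v.1).trans (a v.1 v.2)).symm.trans ((b w.1).trans (a w.1 w.2))⟩

lemma dist_ge (v w : V) : |v.1 - w.1| + |(v.2 : ℤ) - w.2| ≤ (gr nu).dist v w := by
  obtain ⟨p, hp⟩ := conn.exists_walk_length_eq_dist v w
  rw [← hp]
  clear hp
  induction p with
  | nil => simp
  | cons h p ih =>
    rw [adj_iff, nu_pos] at h
    simp only [SimpleGraph.Walk.length_cons, Int.abs_eq_natAbs] at *
    omega

lemma isNet : IsNet nu := by
  refine ⟨nu_nonneg, nu_symm, fun v => le_antisymm (not_lt.1 fun h => ?_) (nu_nonneg _ _), conn,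
    fun v => ((finite_Icc (v.1 - 1) (v.1 + 1)).prod (finite_Iic (v.2 + 1))).subset fun w h => ?_⟩
  · rw [nu_pos] at h; omega
  · rw [mem_ofPred_eq, nu_pos] at h
    simp only [mem_prod, mem_Icc, mem_Iic]; omega

noncomputable def mu : Measure ((V → V → ℝ) × V) :=
  Measure.sum fun j => ENNReal.ofReal (dg j / 4) • Measure.dirac (nu, (0, j))

lemma lint (f : (V → V → ℝ) × V → ℝ≥0∞) :
    ∫⁻ a, f a ∂mu = ∑' j, ENNReal.ofReal (dg j / 4) * f (nu, (0, j)) := by
  simp [mu, lintegral_sum_measure, lintegral_smul_measure, lintegral_dirac]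

lemma sum_dg (a : ℕ → ℝ≥0∞) : ∑' j, ENNReal.ofReal (dg j / 4) * a j =
    ENNReal.ofReal (1 / 4) * a 0 + ENNReal.ofReal (1 / 4) * a 0 +
      (∑' j, ENNReal.ofReal (cc j / 4) * a j + ∑' j, ENNReal.ofReal (cc j / 4) * a (j + 1)) := by
  have p := fun j => (div_pos (cc_pos j) four_pos).le
  rw [tsum_eq_zero_add' ENNReal.summable, tsum_eq_zero_add' (f := fun j =>
    ENNReal.ofReal (cc j / 4) * a j) ENNReal.summable]
  simp only [dg, add_div]
  rw [ENNReal.ofReal_add (by norm_num) (p 0), ENNReal.ofReal_add (by norm_num) (by norm_num)]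
  simp only [ENNReal.ofReal_add (p _) (p _), add_mul, ENNReal.tsum_add]
  ring

lemma sum_cc : HasSum cc 1 := by
  rw [hasSum_iff_tendsto_nat_of_nonneg fun j => (cc_pos j).le]
  have : ∀ n : ℕ, ∑ i ∈ Finset.range n, cc i = 1 - 1 / (n + 1) := fun n => by
    induction n with
    | zero => simp
    | succ n ih => rw [Finset.sum_range_succ, ih, cc]; push_cast; field_simp; ring
  simp only [this]
  simpa using tendsto_one_div_add_atTop_nhds_zero_nat.const_sub (1 : ℝ)

instance : IsProbabilityMeasure mu := by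
  constructor
  have := lint 1
  simp only [Pi.one_apply, lintegral_const, one_mul] at this
  rw [this, sum_dg fun _ => 1]
  simp only [mul_one]
  rw [← ENNReal.ofReal_tsum_of_nonneg (fun j => (div_pos (cc_pos j) four_pos).le)
    (sum_cc.div_const 4).summable, (sum_cc.div_const 4).tsum_eq,
    ← ENNReal.ofReal_add (by norm_num) (by norm_num),
    ← ENNReal.ofReal_add (by norm_num) (by norm_num)]
  norm_num

lemma ae_mu {p : (V → V → ℝ) × V → Prop} (h : ∀ j, p (nu, (0, j))) : ∀ᵐ a ∂mu, p a :=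
  Measure.ae_sum_iff.2 fun j => Measure.ae_smul_measure (by simpa using h j) _

theorem stat : Stationary mu := by
  refine ⟨inferInstance, ae_mu fun _ => isNet, fun A hA hI => ?_⟩
  set a : ℕ → ℝ≥0∞ := fun j => A.indicator 1 (nu, (0, j)) with ha
  have iso : ∀ x y j, Iso (nu, (x, j)) (nu, (y, j)) := fun x y j =>
    ⟨(Equiv.addRight (y - x)).prodCongr (Equiv.refl _), by simp, fun v w => by
      simp only [tr, deg_eq]; simp [nu, add_right_comm _ (y - x)]⟩
  have e : ∀ x j, A.indicator (1 : (V → V → ℝ) × V → ℝ≥0∞) (nu, (x, j)) = a j := fun x j => by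
    by_cases h : (nu, (x, j)) ∈ A
    · simp [ha, h, hI _ _ (iso x 0 j) h]
    · simp [ha, h, mt (hI _ _ (iso 0 x j)) h]
  have m : ∀ j c, 0 ≤ c → ∀ b, ENNReal.ofReal (dg j / 4) * (ENNReal.ofReal (c / dg j) * b) =
      ENNReal.ofReal (c / 4) * b := fun j c hc b => by
    have := dg_pos j
    rw [← mul_assoc, ← ENNReal.ofReal_mul (by positivity)]
    congr 2; field_simp
  rw [← lintegral_indicator_one hA, lint, lint, sum_dg a, tsum_eq_zero_add' ENNReal.summable
    (f := fun j => ENNReal.ofReal (dg j / 4) * _)]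
  simp only [tr, deg_eq]
  rw [sum0 0 (fun c y => ENNReal.ofReal (c / dg 0) * A.indicator 1 (nu, y)) (by simp)]
  simp only [fun j => sum1 0 j
    (fun c y => ENNReal.ofReal (c / dg (j + 1)) * A.indicator 1 (nu, y)) (by simp)]
  simp only [e, mul_add, m _ _ (cc_pos _).le, m _ _ zero_le_one, ENNReal.tsum_add]
  rw [tsum_eq_zero_add' (f := fun j => ENNReal.ofReal (cc j / 4) * a (j + 1)) ENNReal.summable]
  ring

theorem poly : PolyGrowth mu := by
  refine ⟨9, 2, fun n hn => ?_⟩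
  refine (lintegral_mono_ae (g := fun _ => (9 : ℕ) * (n : ℝ≥0∞) ^ 2)
    (ae_mu fun j => ?_)).trans (by simp)
  have : {v | (gr nu).dist (0, j) v ≤ n} ⊆
      (Finset.Icc (-(n : ℤ)) n ×ˢ Finset.Icc (j - n) (j + n) : Finset V) := fun v hv => by
    have := dist_ge (0, j) v
    simp only [mem_ofPred_eq, Finset.coe_product, Finset.coe_Icc, mem_prod, mem_Icc,
      Int.abs_eq_natAbs] at *
    omega
  refine (ENat.toENNReal_mono (encard_le_encard this)).trans ?_
  rw [encard_coe_eq_coe_finsetCard, Finset.card_product, Int.card_Icc, Nat.card_Icc]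
  have : (n + 1 - -(n : ℤ)).toNat * (j + n + 1 - (j - n)) ≤ 9 * n ^ 2 :=
    (Nat.mul_le_mul (show _ ≤ 3 * n by omega) (show _ ≤ 3 * n by omega)).trans (by nlinarith)
  exact_mod_cast this

lemma hh_mem (i j : ℕ) : (fun v : V => |(v.1 : ℝ) - i| -
    if v.1 = i then 2 * (v.2 * (v.2 + 1) * (v.2 + 2) / 3 : ℝ) else 0) ∈ HH nu (0, j) 3 := by
  constructor
  · rintro ⟨x, _ | k⟩ <;> simp only [tr, deg_eq]
    · rw [sum0 x (fun c y => c / dg 0 * (|(y.1 : ℝ) - i| -
        if y.1 = i then 2 * (y.2 * (y.2 + 1) * (y.2 + 2) / 3 : ℝ) else 0)) (by simp)]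
      simp only [dg, cc]
      rcases lt_trichotomy x i with h | rfl | h
      · have h1 : (x : ℝ) + 1 ≤ i := by exact_mod_cast h
        simp only [if_neg h.ne]
        push_cast
        rw [abs_of_nonpos (by linarith), abs_of_nonpos (by linarith), abs_of_nonpos (by linarith)]
        simp; ring
      · simp; norm_num
      · have h1 : (i : ℝ) + 1 ≤ x := by exact_mod_cast h
        simp only [if_neg h.ne']
        push_cast
        rw [abs_of_nonneg (by linarith), abs_of_nonneg (by linarith), abs_of_nonneg (by linarith)]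
        simp; ring
    · rw [sum1 x k (fun c y => c / dg (k + 1) * (|(y.1 : ℝ) - i| -
        if y.1 = i then 2 * (y.2 * (y.2 + 1) * (y.2 + 2) / 3 : ℝ) else 0)) (by simp)]
      simp only [dg, cc]
      split_ifs <;> push_cast <;> field_simp <;> ring
  · refine ⟨(1 + i) + 2 * (2 + j) ^ 3, fun v => ?_⟩
    have h := dist_ge (0, j) v
    set d := (gr nu).dist (0, j) v
    have h1 : |(v.1 : ℝ)| ≤ d := by
      rw [← Int.cast_abs]; exact_mod_cast (by simp only [Int.abs_eq_natAbs] at *; omega : |v.1| ≤ d)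
    have h2 : (v.2 : ℝ) ≤ d + j := by
      exact_mod_cast (by simp only [Int.abs_eq_natAbs] at *; omega : v.2 ≤ d + j)
    have d0 : (0 : ℝ) ≤ d := by positivity
    have j0 : (0 : ℝ) ≤ j := by positivity
    have i0 : (0 : ℝ) ≤ i := by positivity
    have h3 : (1 + d : ℝ) ≤ (1 + d) ^ 3 := le_self_pow₀ (by linarith) (by norm_num)
    have h4 : |(v.1 : ℝ) - i| ≤ (1 + i) * (1 + d) ^ 3 :=
      (abs_sub _ _).trans (by rw [abs_of_nonneg i0]; nlinarith)
    have h5 : (v.2 * (v.2 + 1) * (v.2 + 2) : ℝ) ≤ ((2 + j) * (1 + d)) ^ 3 := by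
      have : (v.2 + 2 : ℝ) ≤ (2 + j) * (1 + d) := by nlinarith
      calc _ ≤ ((v.2 + 2) * (v.2 + 2) * (v.2 + 2) : ℝ) := by gcongr <;> linarith
        _ = (v.2 + 2) ^ 3 := by ring
        _ ≤ _ := by gcongr
    rw [show (3 : ℝ) = (3 : ℕ) by norm_num, Real.rpow_natCast]
    refine (abs_sub _ _).trans ?_
    rw [abs_abs, mul_pow] at *
    have h6 : (0 : ℝ) ≤ v.2 * (v.2 + 1) * (v.2 + 2) := by positivity
    split_ifs
    · rw [abs_of_nonneg (a := 2 * _) (by positivity)]; push_cast; nlinarith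
    · rw [abs_zero]; nlinarith

theorem srg_main : Stationary mu ∧ PolyGrowth mu ∧
    ∀ᵐ a ∂mu, ∃ h : ℕ → V → ℝ, LinearIndependent ℝ h ∧ ∀ i, h i ∈ HH a.1 a.2 3 := by
  refine ⟨stat, poly, ae_mu fun j => ⟨_, ?_, fun i => hh_mem i j⟩⟩
  refine linearIndependent_iff'.2 fun s g h i hi => ?_
  have h0 := congrFun h ((i : ℤ), 0)
  have h1 := congrFun h ((i : ℤ), 1)
  simp only [Finset.sum_apply, Pi.smul_apply, smul_eq_mul, mul_sub, Finset.sum_sub_distrib,
    Nat.cast_inj, mul_ite, Finset.sum_ite_eq, hi, if_true, mul_zero, Pi.zero_apply] at h0 h1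
  norm_num at h0 h1
  linarith

end Pool.Agent.H44.SRG
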