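import Mathlib

/-! Stationary random weighted graphs on a countable vertex set. -/

open Set MeasureTheory
open scoped ENNReal

namespace Pool.Agent.H44.SRG

variable {V : Type}

/-- the graph of the pairs of positive weight -/
def gr (ν : V → V → ℝ) : SimpleGraph V := SimpleGraph.fromRel fun v w => 0 < ν v w

/-- symmetric nonnegative weights, no loops, connected and locally finite -/
def IsNet (ν : V → V → ℝ) : Prop :=
  (∀ v w, 0 ≤ ν v w) ∧ (∀ v w, ν v w = ν w v) ∧ (∀ v, ν v v = 0) ∧ (gr ν).Connected ∧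
    ∀ v, {w | 0 < ν v w}.Finite

/-- the transition kernel -/
noncomputable def tr (ν : V → V → ℝ) (v w : V) : ℝ := ν v w / ∑' x, ν v x

/-- root-preserving isomorphism of rooted Markov chains -/
def Iso (a b : (V → V → ℝ) × V) : Prop :=
  ∃ σ : V ≃ V, σ a.2 = b.2 ∧ ∀ v w, tr b.1 (σ v) (σ w) = tr a.1 v w

/-- the law of `(G, ν, ρ)` equals that of `(G, ν, X₁)` on isomorphism invariant events -/
def Stationary [MeasurableSpace V] (μ : Measure ((V → V → ℝ) × V)) : Prop :=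
  IsProbabilityMeasure μ ∧ (∀ᵐ a ∂μ, IsNet a.1) ∧
    ∀ A, MeasurableSet A → (∀ a b, Iso a b → a ∈ A → b ∈ A) →
      μ A = ∫⁻ a, ∑' y, ENNReal.ofReal (tr a.1 a.2 y) * A.indicator 1 (a.1, y) ∂μ

/-- `E |B_ρ(n)| ≤ C n ^ d` -/
def PolyGrowth [MeasurableSpace V] (μ : Measure ((V → V → ℝ) × V)) : Prop :=
  ∃ C d : ℕ, ∀ n : ℕ, 1 ≤ n → ∫⁻ a, {v | (gr a.1).dist a.2 v ≤ n}.encard ∂μ ≤ C * n ^ d

/-- harmonic functions with `|h x| ≤ c (1 + d(ρ, x)) ^ k` -/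
def HH (ν : V → V → ℝ) (ρ : V) (k : ℝ) : Set (V → ℝ) :=
  {h | (∀ x, h x = ∑' y, tr ν x y * h y) ∧ ∃ c, ∀ x, |h x| ≤ c * (1 + (gr ν).dist ρ x) ^ k}

end Pool.Agent.H44.SRG
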