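import Pool.Agent.H44.SokDefs

/-! Contraction of a weighted norm of higher-order differences. -/

open Finset

namespace Pool.Agent.H44.Sok

variable {V : Type} [Fintype V] [DecidableEq V] (G : SimpleGraph V) [DecidableRel G.Adj]

noncomputable def DD (A : Finset V) (F : Finset V → ℂ) (I : Finset V) : ℂ :=
  ∑ B ∈ A.powerset, (-1) ^ B.card * F (I ∪ B)

noncomputable def PX (p : ℂ) (x : V) (F : Finset V → ℂ) (I : Finset V) : ℂ :=
  if ∀ y ∈ I, ¬ G.Adj x y then p * F (insert x I) + (1 - p) * F (I.erase x) else F (I.erase x)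

def Valid (A I : Finset V) : Prop :=
  A.Nonempty ∧ Disjoint I A ∧ G.IsIndepSet ((I ∪ A : Finset V) : Set V)

open Classical in
noncomputable def MM (F : Finset V → ℂ) (A : Finset V) : ℝ :=
  ‖fun I : Finset V => if Valid G A I then DD A F I else 0‖

omit [Fintype V] in
lemma DD_insert {x : V} {A : Finset V} (hx : x ∉ A) (F : Finset V → ℂ) (I : Finset V) :
    DD (insert x A) F I = DD A F I - DD A F (insert x I) := by
  unfold DD
  rw [sum_powerset_insert hx, sub_eq_add_neg, ← sum_neg_distrib]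
  congr 1
  refine sum_congr rfl fun B hB => ?_
  rw [card_insert_of_notMem fun h => hx (mem_powerset.1 hB h), union_insert, insert_union]
  ring

variable {G}

omit [DecidableRel G.Adj] in
lemma le_MM {F : Finset V → ℂ} {A I : Finset V} (h : Valid G A I) : ‖DD A F I‖ ≤ MM G F A := by
  classical
  have := norm_le_pi_norm (fun I : Finset V => if Valid G A I then DD A F I else 0) I
  rw [if_pos h] at this
  convert this using 0
  rfl

omit [DecidableRel G.Adj] in
lemma MM_nonneg (F : Finset V → ℂ) (A : Finset V) : 0 ≤ MM G F A := norm_nonneg _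

lemma DD_PX_mem (p : ℂ) {x : V} {A : Finset V} (hx : x ∈ A) (F : Finset V → ℂ) (I : Finset V) :
    DD A (PX G p x F) I = 0 := by
  rw [← insert_erase hx, DD_insert (notMem_erase x A), sub_eq_zero]
  refine sum_congr rfl fun B _ => ?_
  congr 1
  unfold PX
  rw [insert_union, insert_idem, erase_insert_eq_erase]
  simp

lemma DD_PX (p : ℂ) {x : V} {A : Finset V} (hx : x ∉ A) (F : Finset V → ℂ) (I : Finset V) :
    DD A (PX G p x F) I = DD A F (I.erase x) - if ∀ y ∈ I, ¬ G.Adj x y then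
      p * DD (insert x (A \ G.neighborFinset x)) F (I.erase x) else 0 := by
  have he (B : Finset V) (hB : B ∈ A.powerset) : (I ∪ B).erase x = I.erase x ∪ B := by
    rw [erase_union_distrib, erase_eq_of_notMem (s := B) fun h => hx (mem_powerset.1 hB h)]
  split_ifs with h
  · rw [DD_insert (by simp [hx]), eq_sub_iff_add_eq]
    have hs : (A \ G.neighborFinset x).powerset =
        A.powerset.filter fun B => ∀ y ∈ B, ¬ G.Adj x y := by
      ext B
      simp only [mem_powerset, mem_filter, subset_sdiff, disjoint_left,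
        SimpleGraph.mem_neighborFinset]
    unfold DD
    rw [hs, ← sum_sub_distrib, sum_filter, mul_sum, ← sum_add_distrib]
    refine sum_congr rfl fun B hB => ?_
    unfold PX
    rw [he B hB, show insert x (I.erase x) ∪ B = insert x (I ∪ B) by
      ext y; by_cases h : y = x <;> simp [h]]
    by_cases h' : ∀ y ∈ B, ¬ G.Adj x y
    · rw [if_pos h', if_pos fun y hy => (mem_union.1 hy).elim (h y) (h' y)]
      ring
    · rw [if_neg h', if_neg fun h2 => h' fun y hy => h2 y (mem_union_right _ hy)]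
      ring
  · rw [sub_zero]
    refine sum_congr rfl fun B hB => ?_
    unfold PX
    rw [he B hB, if_neg fun h2 => h fun y hy => h2 y (mem_union_left _ hy)]

lemma indep_insert {x : V} {S : Finset V} (h : G.IsIndepSet (S : Set V))
    (hx : ∀ y ∈ S, ¬ G.Adj x y) : G.IsIndepSet ((insert x S : Finset V) : Set V) := by
  rw [coe_insert]
  exact Set.Pairwise.insert h fun y hy _ => ⟨hx y hy, fun h' => hx y hy h'.symm⟩

lemma norm_DD_PX {p : ℂ} {p₀ η q : ℝ} (h0 : 0 ≤ p₀) (h1 : p₀ ≤ 1) (hη : ‖p - p₀‖ ≤ η)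
    (hq : ‖p‖ ≤ q) {x : V} {A I : Finset V} (hx : x ∉ A) (F : Finset V → ℂ) (h : Valid G A I) :
    ‖DD A (PX G p x F) I‖ ≤ MM G F A + (if A ∩ G.neighborFinset x = ∅ then η else q) *
      MM G F (insert x (A \ G.neighborFinset x)) := by
  have hv : Valid G A (I.erase x) := ⟨h.1, h.2.1.mono_left (erase_subset _ _),
    h.2.2.mono (coe_subset.2 (union_subset_union_left (erase_subset _ _)))⟩
  have hk : 0 ≤ (if A ∩ G.neighborFinset x = ∅ then η else q) := by
    split_ifs
    · exact (norm_nonneg _).trans hη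
    · exact (norm_nonneg _).trans hq
  rw [DD_PX p hx]
  by_cases hb : ∀ y ∈ I, ¬ G.Adj x y
  · have hv2 : Valid G (insert x (A \ G.neighborFinset x)) (I.erase x) := by
      refine ⟨insert_nonempty _ _, disjoint_insert_right.2 ⟨notMem_erase _ _,
        hv.2.1.mono_right sdiff_subset⟩, ?_⟩
      rw [union_insert]
      refine indep_insert (hv.2.2.mono (coe_subset.2 (union_subset_union_right sdiff_subset)))
        fun y hy => (mem_union.1 hy).elim (fun h => hb y (mem_of_mem_erase h)) fun h => ?_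
      simpa using (mem_sdiff.1 h).2
    rw [if_pos hb]
    split_ifs with hA
    · have e : A \ G.neighborFinset x = A :=
        sdiff_eq_self_of_disjoint (disjoint_iff_inter_eq_empty.2 hA)
      rw [e] at hv2 ⊢
      have hv3 : Valid G A (insert x (I.erase x)) :=
        ⟨h.1, disjoint_insert_left.2 ⟨hx, hv.2.1⟩, by
          rw [insert_union, ← union_insert]; exact hv2.2.2⟩
      have e2 : DD A F (I.erase x) - p * DD (insert x A) F (I.erase x) =
          ((1 - p₀ : ℝ) : ℂ) * DD A F (I.erase x) + (p₀ : ℂ) * DD A F (insert x (I.erase x)) -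
            (p - p₀) * DD (insert x A) F (I.erase x) := by
        rw [DD_insert hx]; push_cast; ring
      rw [e2]
      refine (norm_sub_le _ _).trans (add_le_add ((norm_add_le _ _).trans ?_) ?_)
      · rw [norm_mul, norm_mul, Complex.norm_real, Complex.norm_real, Real.norm_of_nonneg h0,
          Real.norm_of_nonneg (sub_nonneg.2 h1)]
        nlinarith [le_MM (F := F) hv, le_MM (F := F) hv3]
      · rw [norm_mul]
        exact mul_le_mul hη (le_MM hv2) (norm_nonneg _) ((norm_nonneg _).trans hη)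
    · refine (norm_sub_le _ _).trans (add_le_add (le_MM hv) ?_)
      rw [norm_mul]
      exact mul_le_mul hq (le_MM hv2) (norm_nonneg _) ((norm_nonneg _).trans hq)
  · rw [if_neg hb, sub_zero]
    exact (le_MM hv).trans (le_add_of_nonneg_right (mul_nonneg hk (MM_nonneg _ _)))

lemma count {r η q θ : ℝ} {Δ : ℕ} (hr : 0 < r) (hη : 0 ≤ η) (hq : 0 ≤ q)
    (hθ : η + q * ((1 + r) ^ Δ - 1) ≤ θ * r) (x : V) (hd : G.degree x ≤ Δ) (M : Finset V → ℝ)
    (hM : ∀ A, 0 ≤ M A) :
    ∑ A ∈ univ.filter (x ∉ ·), r ^ A.card * ((if A ∩ G.neighborFinset x = ∅ then η else q) *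
      M (insert x (A \ G.neighborFinset x))) ≤ θ * ∑ C ∈ univ.filter (x ∈ ·), r ^ C.card * M C := by
  set N := G.neighborFinset x
  let h : Finset V × Finset V → ℝ := fun z =>
    r ^ z.1.card * M z.1 * (r ^ z.2.card * (if z.2 = ∅ then η else q) / r)
  have h0 (B : Finset V) : 0 ≤ r ^ B.card * (if B = ∅ then η else q) / r := by
    split_ifs <;> positivity
  have h1 : ∑ B ∈ N.powerset, r ^ B.card * (if B = ∅ then η else q) / r ≤ θ := by
    rw [← sum_div, div_le_iff₀ hr]
    refine le_trans ?_ hθ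
    have e : ∑ B ∈ N.powerset, r ^ B.card = (1 + r) ^ N.card := by
      rw [add_comm, ← sum_pow_mul_eq_add_pow]; simp
    have e2 (B : Finset V) : r ^ B.card * (if B = ∅ then η else q) =
        r ^ B.card * q + if B = ∅ then η - q else 0 := by
      split_ifs with hB
      · simp [hB]
      · simp
    simp only [e2]
    rw [sum_add_distrib, sum_ite_eq', if_pos (empty_mem_powerset _), ← sum_mul, e]
    have : (1 + r) ^ N.card ≤ (1 + r) ^ Δ := pow_le_pow_right₀ (by linarith) hd
    nlinarith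
  calc _ = ∑ A ∈ univ.filter (x ∉ ·), h (insert x (A \ N), A ∩ N) := by
        refine sum_congr rfl fun A hA => ?_
        have hx : x ∉ A \ N := fun h => (mem_filter.1 hA).2 (mem_sdiff.1 h).1
        simp only [h]
        rw [card_insert_of_notMem hx, ← card_sdiff_add_card_inter A N]
        field_simp
        ring
    _ = ∑ z ∈ (univ.filter (x ∉ ·)).image fun A => (insert x (A \ N), A ∩ N), h z := by
        rw [sum_image]
        intro A hA B hB hAB
        have hx : x ∉ A \ N := fun h => (mem_filter.1 hA).2 (mem_sdiff.1 h).1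
        have hx' : x ∉ B \ N := fun h => (mem_filter.1 hB).2 (mem_sdiff.1 h).1
        obtain ⟨e1, e2⟩ := Prod.ext_iff.1 hAB
        have e3 := congrArg (·.erase x) e1
        simp only [erase_insert hx, erase_insert hx'] at e2 e3
        rw [← sdiff_union_inter A N, ← sdiff_union_inter B N, e2, e3]
    _ ≤ ∑ z ∈ univ.filter (x ∈ ·) ×ˢ N.powerset, h z := by
        refine sum_le_sum_of_subset_of_nonneg (image_subset_iff.2 fun A _ => by simp) fun z _ _ =>
          mul_nonneg (mul_nonneg (by positivity) (hM _)) (h0 _)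
    _ ≤ _ := by
        rw [sum_product, mul_sum]
        refine sum_le_sum fun C _ => ?_
        simp only [h]
        rw [← mul_sum, mul_comm θ]
        exact mul_le_mul_of_nonneg_left h1 (mul_nonneg (by positivity) (hM _))

lemma core {r η q θ : ℝ} {Δ : ℕ} (hr : 0 < r) (hη : 0 ≤ η) (hq : 0 ≤ q) (hθ1 : θ ≤ 1)
    (hθ : η + q * ((1 + r) ^ Δ - 1) ≤ θ * r) (hd : ∀ x, G.degree x ≤ Δ) {p : V → ℂ}
    (hp : ∀ x, ‖p x‖ ≤ q ∧ ∃ p₀ : ℝ, 0 ≤ p₀ ∧ p₀ ≤ 1 ∧ ‖p x - p₀‖ ≤ η) {F : Finset V → ℂ} {μ c : ℂ}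
    (hF : ∀ I : Finset V, G.IsIndepSet (I : Set V) → ∑ x, PX G (p x) x F I = μ * F I + c)
    {J : Finset V} (hJ : G.IsIndepSet (J : Set V)) (hne : F J ≠ F ∅) :
    ‖μ‖ ≤ Fintype.card V - (1 - θ) := by
  classical
  have h1 (A : Finset V) : ‖μ‖ * MM G F A ≤ ∑ x ∈ univ.filter (· ∉ A), (MM G F A +
      (if A ∩ G.neighborFinset x = ∅ then η else q) * MM G F (insert x (A \ G.neighborFinset x))) := by
    have h0 : 0 ≤ ∑ x ∈ univ.filter (· ∉ A), (MM G F A + (if A ∩ G.neighborFinset x = ∅ then η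
        else q) * MM G F (insert x (A \ G.neighborFinset x))) :=
      sum_nonneg fun x _ => add_nonneg (MM_nonneg _ _)
        (mul_nonneg (by split_ifs <;> assumption) (MM_nonneg _ _))
    conv_lhs => rw [MM, ← norm_smul]
    refine (pi_norm_le_iff_of_nonneg h0).2 fun I => ?_
    rw [Pi.smul_apply, smul_eq_mul]
    split_ifs with hv
    · have e : μ * DD A F I = ∑ x, DD A (PX G (p x) x F) I := by
        unfold DD
        symm
        rw [sum_comm, sum_congr rfl (g := fun B => μ * ((-1) ^ B.card * F (I ∪ B)) +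
          (-1) ^ B.card * c) fun B hB => by
            rw [← mul_sum, hF _ (hv.2.2.mono (coe_subset.2
              (union_subset_union_right (mem_powerset.1 hB))))]; ring,
          sum_add_distrib, ← mul_sum, ← sum_mul]
        have := sum_powerset_neg_one_pow_card_of_nonempty hv.1
        rw [show ∑ B ∈ A.powerset, (-1 : ℂ) ^ B.card = 0 by exact_mod_cast this]
        ring
      rw [e, ← sum_filter_add_sum_filter_not univ (· ∈ A),
        sum_eq_zero fun x hx => DD_PX_mem _ (mem_filter.1 hx).2 _ _, zero_add]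
      refine (norm_sum_le _ _).trans (sum_le_sum fun x hx => ?_)
      obtain ⟨a1, p₀, a2, a3, a4⟩ := hp x
      exact norm_DD_PX a2 a3 a4 a1 (mem_filter.1 hx).2 F hv
    · simpa using h0
  have h2 := sum_le_sum fun A (_ : A ∈ univ) =>
    mul_le_mul_of_nonneg_left (h1 A) (pow_pos hr A.card).le
  have h3 := sum_le_sum fun x (_ : x ∈ univ) => count hr hη hq hθ x (hd x) (MM G F) (MM_nonneg F)
  simp only [sum_add_distrib, mul_add, sum_const, nsmul_eq_mul] at h2
  simp only [mul_sum] at h2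
  rw [sum_comm' (t' := univ) (s' := fun x => univ.filter (x ∉ ·)) (by simp)] at h2
  rw [← mul_sum, sum_comm' (s := univ) (t := fun x => univ.filter (x ∈ ·)) (t' := univ)
    (s' := fun A => A) (by simp)] at h3
  simp only [sum_const, nsmul_eq_mul, mul_left_comm (r ^ _)] at h3
  have h4 (A : Finset V) : ((univ.filter (· ∉ A)).card : ℝ) = Fintype.card V - A.card := by
    rw [eq_sub_iff_add_eq, ← Nat.cast_add, show univ.filter (· ∉ A) = Aᶜ by ext; simp,
      card_compl_add_card]
  simp only [h4, sub_mul, mul_sub, sum_sub_distrib, mul_left_comm (r ^ _)] at h2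
  rw [← mul_sum, ← mul_sum] at h2
  have h5 : ∑ A : Finset V, r ^ A.card * MM G F A ≤
      ∑ A : Finset V, A.card * (r ^ A.card * MM G F A) := by
    refine sum_le_sum fun A _ => ?_
    rcases A.eq_empty_or_nonempty with rfl | hA
    · simp [MM, Valid]
    · exact le_mul_of_one_le_left (mul_nonneg (by positivity) (MM_nonneg _ _))
        (by exact_mod_cast hA.card_pos)
  have h6 : 0 < ∑ A : Finset V, r ^ A.card * MM G F A := by
    refine lt_of_le_of_ne (sum_nonneg fun A _ => mul_nonneg (by positivity) (MM_nonneg _ _))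
      fun h => hne ?_
    have h7 := (sum_eq_zero_iff_of_nonneg fun A _ =>
      mul_nonneg (pow_pos hr A.card).le (MM_nonneg F A)).1 h.symm
    clear hne
    induction J using Finset.induction_on with
    | empty => rfl
    | insert x J hx ih =>
      rw [← ih (hJ.mono (coe_subset.2 (subset_insert _ _)))]
      have h8 := le_MM (F := F) (show Valid G {x} J from ⟨singleton_nonempty _,
        disjoint_singleton_right.2 hx, by rwa [union_singleton]⟩)
      rw [(mul_eq_zero.1 (h7 {x} (mem_univ _))).resolve_left (pow_pos hr _).ne', norm_le_zero_iff,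
        ← insert_empty_eq, DD_insert (notMem_empty x), sub_eq_zero] at h8
      simpa [DD] using h8.symm
  refine le_of_mul_le_mul_right ?_ h6
  nlinarith

lemma glauber_apply {w : V → ℂ} (hw : ∀ x, 1 + w x ≠ 0) (f : Om G → ℂ) (F : Finset V → ℂ)
    (hF : ∀ J : Om G, F J.1 = f J) (I : Om G) : Matrix.toLin' (glauber G w) f I =
      (Fintype.card V : ℂ)⁻¹ * ∑ x, PX G (w x / (1 + w x)) x F I.1 := by
  have key (K : Finset V) (hK : G.IsIndepSet (K : Set V)) :
      ∑ J : Om G, (if J.1 = K then 1 else 0) * f J = F K := by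
    rw [sum_eq_single ⟨K, hK⟩ (fun J _ h => by rw [if_neg fun h' => h (Subtype.ext h'), zero_mul])
      (by simp), if_pos rfl, one_mul, ← hF]
  simp only [Matrix.toLin'_apply, Matrix.mulVec, dotProduct, glauber, mul_assoc, ← mul_sum, sum_mul]
  rw [sum_comm]
  congr 1
  refine sum_congr rfl fun x _ => ?_
  have he := key (I.1.erase x) (I.2.mono (coe_subset.2 (erase_subset _ _)))
  unfold PX
  split_ifs with h
  · simp only [add_mul, mul_assoc, sum_add_distrib, ← mul_sum, he, key _ (indep_insert I.2 h)]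
    congr 2
    field_simp [hw x]
    ring
  · exact he

lemma spr_lt {r η q θ : ℝ} {Δ : ℕ} (hr : 0 < r) (hη : 0 ≤ η) (hq : 0 ≤ q) (hθ1 : θ < 1)
    (hθ : η + q * ((1 + r) ^ Δ - 1) ≤ θ * r) (hd : ∀ x, G.degree x ≤ Δ) {w : V → ℂ}
    (hw : ∀ x, 1 + w x ≠ 0) (hp : ∀ x, ‖w x / (1 + w x)‖ ≤ q ∧
      ∃ p₀ : ℝ, 0 ≤ p₀ ∧ p₀ ≤ 1 ∧ ‖w x / (1 + w x) - p₀‖ ≤ η) : SprLtOne G w := by
  classical
  unfold SprLtOne act
  refine ⟨Submodule.span_le.2 ?_, ?_⟩
  · rintro _ rfl
    refine Submodule.mem_span_singleton.2 ⟨(Fintype.card V : ℂ)⁻¹ * Fintype.card V, ?_⟩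
    funext I
    rw [glauber_apply hw 1 1 fun _ => rfl]
    simp [PX]
  · have h0 : 0 ≤ (1 - θ) / (Fintype.card V + 1) := div_nonneg (by linarith) (by positivity)
    refine lt_of_le_of_lt (iSup₂_le fun μ hμ => ?_) (ENNReal.ofReal_lt_one.2
      (sub_lt_self 1 (div_pos (sub_pos.2 hθ1) (by positivity : (0 : ℝ) < Fintype.card V + 1))))
    obtain ⟨v, hv⟩ := (Module.End.hasEigenvalue_iff_mem_spectrum.2 hμ).exists_hasEigenvector
    obtain ⟨f, rfl⟩ := (consts G).mkQ_surjective v
    have h1 := hv.apply_eq_smul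
    rw [Submodule.mkQ_apply, Submodule.mapQ_apply, ← Submodule.Quotient.mk_smul,
      Submodule.Quotient.eq, consts, Submodule.mem_span_singleton] at h1
    obtain ⟨c, hc⟩ := h1
    let F : Finset V → ℂ := fun J => if h : G.IsIndepSet (J : Set V) then f ⟨J, h⟩ else 0
    have hF (J : Om G) : F J.1 = f J := dif_pos J.2
    obtain ⟨J, hJ⟩ : ∃ J : Om G, F J.1 ≠ F ∅ := by
      by_contra hc
      push Not at hc
      refine hv.2 ((Submodule.Quotient.mk_eq_zero _).2 (Submodule.mem_span_singleton.2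
        ⟨F ∅, funext fun J => ?_⟩))
      simp [← hc J, hF]
    have hn : (0 : ℝ) < Fintype.card V := by
      rcases J.1.eq_empty_or_nonempty with h | ⟨x, -⟩
      · exact absurd (congrArg F h) hJ
      · exact_mod_cast Fintype.card_pos_iff.2 ⟨x⟩
    have hn' : (Fintype.card V : ℂ) ≠ 0 := by exact_mod_cast hn.ne'
    have h2 := core hr hη hq hθ1.le hθ hd hp (F := F) (μ := Fintype.card V * μ)
      (c := Fintype.card V * c) (fun I hI => by
        have := congrFun hc ⟨I, hI⟩
        rw [Pi.sub_apply, glauber_apply hw f F hF, Pi.smul_apply, Pi.smul_apply, ← hF] at this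
        simp only [smul_eq_mul, Pi.one_apply, mul_one] at this
        rw [this]
        field_simp
        ring) J.2 hJ
    rw [norm_mul, Complex.norm_natCast] at h2
    rw [← enorm_eq_nnnorm, ← ofReal_norm]
    refine ENNReal.ofReal_le_ofReal ?_
    have h3 : (1 - θ) / (Fintype.card V + 1) * (Fintype.card V + 1) = 1 - θ :=
      div_mul_cancel₀ _ (by positivity)
    nlinarith

def Dom (a ε : ℝ) : Set ℂ := Metric.thickening ε ((↑) '' Set.Icc (0 : ℝ) a)

lemma exists_eps {Δ : ℕ} (hΔ : 2 ≤ Δ) {a : ℝ} (ha0 : 0 ≤ a) (ha : a < 1 / (Δ - 1)) :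
    ∃ ε > 0, ∀ (V : Type) [Fintype V] [DecidableEq V] (G : SimpleGraph V) [DecidableRel G.Adj],
      G.maxDegree ≤ Δ → ∀ w : V → ℂ, (∀ x, w x ∈ Dom a ε) → SprLtOne G w := by
  have hΔ' : (2 : ℝ) ≤ Δ := by exact_mod_cast hΔ
  have h1 : 0 < 1 - a / (1 + a) * Δ := by
    rw [lt_div_iff₀ (by linarith)] at ha
    rw [sub_pos, div_mul_eq_mul_div, div_lt_one (by linarith)]
    linarith
  have h2 : HasDerivAt (fun r : ℝ => r - a / (1 + a) * ((1 + r) ^ Δ - 1))
      (1 - a / (1 + a) * Δ) 0 := by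
    have := (hasDerivAt_id (0 : ℝ)).sub
      (((((hasDerivAt_id (0 : ℝ)).const_add 1).pow Δ).sub_const 1).const_mul (a / (1 + a)))
    simp only [id, add_zero, one_pow, mul_one] at this
    exact this
  obtain ⟨r, h3, hr⟩ := ((h2.tendsto_slope_zero_right.eventually (lt_mem_nhds h1)).and
    self_mem_nhdsWithin).exists
  have hr : 0 < r := hr
  simp only [zero_add, add_zero, one_pow, sub_self, mul_zero, sub_zero, smul_eq_mul] at h3
  have h4 : 0 < r - a / (1 + a) * ((1 + r) ^ Δ - 1) :=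
    (mul_pos_iff_of_pos_left (inv_pos.2 hr)).1 h3
  set g := r - a / (1 + a) * ((1 + r) ^ Δ - 1)
  have h5 : 0 < (1 + r) ^ Δ := by positivity
  refine ⟨min (1 / 2) (g / (4 * (1 + r) ^ Δ)), lt_min (by norm_num) (by positivity),
    fun V _ _ G _ hG w hw => ?_⟩
  have key (x : V) : 1 + w x ≠ 0 ∧ ∃ t ∈ Set.Icc (0 : ℝ) a,
      ‖w x / (1 + w x) - (t / (1 + t) : ℝ)‖ ≤ g / (2 * (1 + r) ^ Δ) := by
    obtain ⟨_, ⟨t, ht, rfl⟩, h⟩ := Metric.mem_thickening_iff.1 (hw x)
    rw [dist_eq_norm, lt_min_iff] at h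
    have e1 : ‖(1 + t : ℂ)‖ = 1 + t := by
      rw [show (1 + t : ℂ) = (1 + t : ℝ) by push_cast; rfl, Complex.norm_real,
        Real.norm_of_nonneg (by linarith [ht.1])]
    have h6 : 1 / 2 ≤ ‖1 + w x‖ := by
      have := norm_sub_le (1 + w x) (w x - t)
      rw [show 1 + w x - (w x - t) = 1 + t by ring, e1] at this
      linarith [ht.1]
    have h7 : 1 + w x ≠ 0 := norm_pos_iff.1 (by linarith)
    have h8 : (1 + t : ℂ) ≠ 0 := norm_pos_iff.1 (by rw [e1]; linarith [ht.1])
    refine ⟨h7, t, ht, ?_⟩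
    have e2 : w x / (1 + w x) - (t / (1 + t) : ℝ) = (w x - t) / ((1 + w x) * (1 + t)) := by
      push_cast; field_simp; ring
    rw [e2, norm_div, norm_mul, e1, div_le_iff₀ (by nlinarith [ht.1])]
    have e3 : g / (4 * (1 + r) ^ Δ) = g / (2 * (1 + r) ^ Δ) * (1 / 2) := by field_simp; norm_num
    have : 0 < g / (2 * (1 + r) ^ Δ) := by positivity
    refine h.2.le.trans (e3 ▸ mul_le_mul_of_nonneg_left ?_ this.le)
    nlinarith [ht.1]
  refine spr_lt (r := r) (η := g / (2 * (1 + r) ^ Δ)) (q := a / (1 + a) + g / (2 * (1 + r) ^ Δ))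
    (θ := 1 - g / (2 * r)) (Δ := Δ) hr (by positivity) (by positivity)
    (sub_lt_self _ (by positivity)) (le_of_eq ?_) (fun x => (G.degree_le_maxDegree x).trans hG)
    (fun x => (key x).1) fun x => ?_
  · have : a / (1 + a) * ((1 + r) ^ Δ - 1) = r - g := by simp [g]
    rw [add_mul, this]
    field_simp
    ring
  · obtain ⟨-, t, ht, h⟩ := key x
    have h6 : 0 ≤ t / (1 + t) := div_nonneg ht.1 (by linarith [ht.1])
    refine ⟨?_, t / (1 + t), h6, div_le_one_of_le₀ (by linarith) (by linarith [ht.1]), h⟩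
    have h7 := norm_add_le (w x / (1 + w x) - (t / (1 + t) : ℝ)) (t / (1 + t) : ℝ)
    rw [sub_add_cancel, Complex.norm_real, Real.norm_of_nonneg h6] at h7
    have : t / (1 + t) ≤ a / (1 + a) := by
      rw [div_le_div_iff₀ (by linarith [ht.1]) (by linarith)]; linarith [ht.2]
    linarith

lemma Dom_facts {a ε : ℝ} (ha : 0 ≤ a) (hε : 0 < ε) : IsOpen (Dom a ε) ∧ IsConnected (Dom a ε) ∧
    ∀ t ∈ Set.Icc (0 : ℝ) a, (t : ℂ) ∈ Dom a ε := by
  have h (t : ℝ) (ht : t ∈ Set.Icc (0 : ℝ) a) : (t : ℂ) ∈ Dom a ε :=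
    Metric.self_subset_thickening hε _ ⟨t, ht, rfl⟩
  exact ⟨Metric.isOpen_thickening, ⟨⟨_, h 0 ⟨le_rfl, ha⟩⟩,
    (((convex_Icc 0 a).linear_image Complex.ofRealCLM.toLinearMap).thickening ε).isPreconnected⟩, h⟩

end Pool.Agent.H44.Sok
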