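import Mathlib

/-! Heat-bath dynamics of the hard-core model with complex fugacities. -/

namespace Pool.Agent.H44.Sok

variable {V : Type} [Fintype V] [DecidableEq V] (G : SimpleGraph V) [DecidableRel G.Adj]

/-- The independent sets of `G`. -/
abbrev Om : Type := {I : Finset V // G.IsIndepSet (I : Set V)}

/-- The transition matrix of single-site heat-bath dynamics with fugacities `w`. -/
noncomputable def glauber (w : V → ℂ) : Matrix (Om G) (Om G) ℂ := fun I J =>
  (Fintype.card V : ℂ)⁻¹ * ∑ x, if ∀ y ∈ I.1, ¬ G.Adj x y then
      w x / (1 + w x) * (if J.1 = insert x I.1 then 1 else 0) +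
        1 / (1 + w x) * (if J.1 = I.1.erase x then 1 else 0)
    else (if J.1 = I.1.erase x then 1 else 0)

/-- The constant functions. -/
noncomputable def consts : Submodule ℂ (Om G → ℂ) := Submodule.span ℂ {1}

/-- `T` maps `W` into `W` and the map induced on `E ⧸ W` has spectral radius `< 1`. -/
def SprQuot {E : Type} [AddCommGroup E] [Module ℂ E] (W : Submodule ℂ E) (T : E →ₗ[ℂ] E) : Prop :=
  ∃ h : W ≤ W.comap T, spectralRadius ℂ (A := Module.End ℂ (E ⧸ W)) (W.mapQ W T h) < 1

/-- The action `f ↦ P f` of the transition matrix on functions. -/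
noncomputable def act (w : V → ℂ) : (Om G → ℂ) →ₗ[ℂ] (Om G → ℂ) := Matrix.toLin' (glauber G w)

/-- `P` preserves the constants and the map it induces on functions modulo constants has
spectral radius `< 1`. -/
def SprLtOne (w : V → ℂ) : Prop := SprQuot (consts G) (act G w)

end Pool.Agent.H44.Sok
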