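import Pool.Agent.H44.TasepS

open Finset

namespace Pool.Agent.H44.Tasep

variable {N m : ℕ} {r : Fin (N + 2)} {i : Fin r → Fin (N + 2)}

def Ev (hi : ∀ a, (i a : ℕ) + 1 ≤ m) (T : Option (Fin (m + 1)) → St N) : Prop :=
  ∀ a : Fin r, Fin.castLE r.2.le a ∈ T (some ⟨i a + 1, Nat.lt_succ_of_le (hi a)⟩) ∧
    Fin.castLE r.2.le a ∉ T (some ⟨i a, by have := hi a; omega⟩) ∧
    Fin.castLE r.2.le a ∈ T (some (Fin.last m))

theorem Ev_F1 (hi : ∀ a, (i a : ℕ) + 1 ≤ m) (K : ℕ) (τ : Pm N) :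
    Ev hi (F1 m K τ) ↔ ∀ a, τ (Fin.castLE r.2.le a) = i a := by
  refine forall_congr' fun a => ?_
  have := hi a
  simp only [F1, thr, mem_filter, mem_univ, true_and, Fin.val_last, Fin.ext_iff]
  omega

theorem Ev_insert (hi : ∀ a, (i a : ℕ) + 1 ≤ m) (τ : Pm N) {B : St N} (hB : m < #B)
    (hr : r ∉ B) : Ev hi (F2 m τ (insert r B)) ↔ Ev hi (F2 m τ B) := by
  have hn : #B ≤ N + 2 := by simpa using card_le_univ B
  have hc : ∀ c ≤ m, #(thr c τ) < #B := fun c h => by rw [card_thr (by omega)]; omega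
  have hq := isQ_Q (hc m le_rfl)
  obtain ⟨u, hu1, hu2⟩ := hq.unused (hc m le_rfl)
  have hc' : #(thr m τ) < #(insert r B) :=
    (hc m le_rfl).trans_le (card_le_card (subset_insert _ _))
  have hle := hq.le (isQ_Q hc') subset_rfl (subset_insert _ _) hc' u
  by_cases hu : r < u
  · have key : ∀ (c : Fin (m + 1)) (a : Fin r), Fin.castLE r.2.le a ∈ F2 m τ (insert r B) (some c) ↔
        Fin.castLE r.2.le a ∈ F2 m τ B (some c) := by
      intro c a
      have hcm : (c : ℕ) ≤ m := Nat.lt_succ_iff.1 c.2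
      have := hq.le (isQ_Q (hc c hcm)) (thr_mono hcm τ) subset_rfl (hc c hcm) u
      exact D_insert (hc c hcm) hu (by omega) a.2
    simp only [Ev, key]
  · have hur : u < r := lt_of_le_of_ne (not_lt.1 hu) (ne_of_mem_of_not_mem hu1 hr)
    refine iff_of_false (fun h => ?_) fun h => ?_
    · have := (mem_filter.1 (h ⟨u, hur⟩).2.2).2
      change 0 < Q (thr m τ) (insert r B) u + ind (thr m τ) u at this
      omega
    · have := (mem_filter.1 (h ⟨u, hur⟩).2.2).2
      change 0 < Q (thr m τ) B u + ind (thr m τ) u at this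
      omega

open Classical in
theorem recursion {π : Pm N → ℝ} (hπ : Stat π) (hi : ∀ a, (i a : ℕ) + 1 ≤ m) {K : ℕ} (hm : m < K)
    (hK : K + 1 ≤ N + 2) :
    ((N + 2).choose (K + 1) : ℝ) * ∑ τ with ∀ a, τ (Fin.castLE r.2.le a) = i a, π τ =
      (N + 2).choose (K + 1) *
        ∑ τ with (∀ a, τ (Fin.castLE r.2.le a) = i a) ∧ K + 1 ≤ (τ r : ℕ), π τ +
      (N + 2).choose K * ∑ τ with (∀ a, τ (Fin.castLE r.2.le a) = i a) ∧ K ≤ (τ r : ℕ), π τ := by
  have h1 : ∀ K, m < K → K ≤ N + 2 → ((N + 2).choose K : ℝ) *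
      ∑ τ with (∀ a, τ (Fin.castLE r.2.le a) = i a) ∧ K ≤ (τ r : ℕ), π τ =
      ∑ τ, π τ * ∑ B ∈ powersetCard K univ with r ∉ B, if Ev hi (F2 m τ B) then 1 else 0 := by
    intro K hm hK
    have := last_row hπ hm hK fun T => if Ev hi T ∧ r ∉ T none then 1 else 0
    rw [sum_filter]
    refine Eq.trans (congrArg _ (sum_congr rfl fun τ _ => ?_))
      (this.trans (sum_congr rfl fun τ _ => congrArg _ ?_))
    · simp [Ev_F1, F1, thr]
    · rw [sum_filter]
      refine sum_congr rfl fun B _ => ?_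
      by_cases h : r ∈ B <;> simp [F2, h]
  have h2 := last_row hπ (K := K + 1) (by omega) hK fun T => if Ev hi T then 1 else 0
  rw [h1 K hm (by omega), h1 (K + 1) (by omega) hK, ← sum_add_distrib, sum_filter]
  refine Eq.trans (congrArg _ (sum_congr rfl fun τ _ => ?_))
    (h2.trans (sum_congr rfl fun τ _ => ?_))
  · simp [Ev_F1]
  · rw [← mul_add, ← sum_filter_not_add_sum_filter _ (fun B => r ∈ B)]
    congr 2
    symm
    refine sum_bij' (fun B _ => insert r B) (fun (B : St N) _ => B.erase r) ?_ ?_ ?_ ?_ ?_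
    · intro B hB
      simp only [mem_filter, mem_powersetCard, subset_univ, true_and] at hB ⊢
      simp [card_insert_of_notMem hB.2, hB.1]
    · intro B hB
      simp only [mem_filter, mem_powersetCard, subset_univ, true_and] at hB ⊢
      simp [card_erase_of_mem hB.2, hB.1]
    · intro B hB
      exact erase_insert (mem_filter.1 hB).2
    · intro B hB
      exact insert_erase (mem_filter.1 hB).2
    · intro B hB
      simp only [mem_filter, mem_powersetCard, subset_univ, true_and] at hB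
      simp only [Ev_insert hi τ (by omega) hB.2]

theorem tail_eq {π : Pm N → ℝ} (hπ : Stat π) (hi : ∀ a, (i a : ℕ) + 1 ≤ m) {K : ℕ} (hm : m < K)
    (hK : K ≤ N + 2) :
    (N + 2 : ℝ) * ∑ τ with (∀ a, τ (Fin.castLE r.2.le a) = i a) ∧ K ≤ (τ r : ℕ), π τ =
      (N + 2 - K) * ∑ τ with ∀ a, τ (Fin.castLE r.2.le a) = i a, π τ := by
  induction hK using Nat.decreasingInduction with
  | self =>
    rw [filter_false_of_mem fun τ _ h => absurd h.2 (not_le.2 (τ r).2)]
    simp
  | of_succ K hK ih =>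
    have h1 := recursion hπ hi hm hK
    have h2 := ih (by omega)
    have h3 : ((N + 2).choose (K + 1) : ℝ) * (K + 1) = (N + 2).choose K * (N + 2 - K) := by
      have := Nat.choose_succ_right_eq (N + 2) K
      have e := congrArg (Nat.cast : ℕ → ℝ) this
      push_cast [Nat.cast_sub hK.le] at e
      exact e
    have h4 : (0 : ℝ) < (N + 2).choose K := by exact_mod_cast Nat.choose_pos hK.le
    push_cast at h2
    apply mul_left_cancel₀ h4.ne'
    rw [← mul_assoc _ (N + 2 - K : ℝ), ← h3]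
    linear_combination -(N + 2 : ℝ) * h1 - ((N + 2).choose (K + 1) : ℝ) * h2

theorem main_aux {π : Pm N → ℝ} (hπ : Stat π) (k : Fin (N + 2)) (hi : ∀ a, (i a : ℕ) + 1 < k) :
    ∑ τ with (∀ a, τ (Fin.castLE r.2.le a) = i a) ∧ τ r = k, π τ =
      1 / (N + 2 : ℕ) * ∑ τ with ∀ a, τ (Fin.castLE r.2.le a) = i a, π τ := by
  have hi' : ∀ a, (i a : ℕ) + 1 ≤ k - 1 := fun a => by have := hi a; omega
  have h1 := tail_eq hπ hi' (K := k + 1) (by omega) k.2
  have h2 : (N + 2 : ℝ) * ∑ τ with (∀ a, τ (Fin.castLE r.2.le a) = i a) ∧ (k : ℕ) ≤ (τ r : ℕ), π τ =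
      (N + 2 - (k : ℕ)) * ∑ τ with ∀ a, τ (Fin.castLE r.2.le a) = i a, π τ := by
    rcases Nat.eq_zero_or_pos k with h | h
    · simp [h]
    · exact tail_eq hπ hi' (by omega) k.2.le
  have h3 : ∑ τ with (∀ a, τ (Fin.castLE r.2.le a) = i a) ∧ (k : ℕ) ≤ (τ r : ℕ), π τ =
      ∑ τ with (∀ a, τ (Fin.castLE r.2.le a) = i a) ∧ τ r = k, π τ +
      ∑ τ with (∀ a, τ (Fin.castLE r.2.le a) = i a) ∧ (k : ℕ) + 1 ≤ (τ r : ℕ), π τ := by
    simp only [sum_filter, ← sum_add_distrib, Fin.ext_iff]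
    refine sum_congr rfl fun τ _ => ?_
    split_ifs <;> simp_all <;> omega
  rw [h3] at h2
  push_cast at h1 ⊢
  rw [one_div, eq_inv_mul_iff_mul_eq₀ (by positivity)]
  linear_combination h2 - h1

theorem main (n : ℕ) (π : Equiv.Perm (Fin n) → ℝ)
    (hs : ∀ σ : Equiv.Perm (Fin n),
      (∑ k : Fin n, (if σ (finRotate n k) < σ k then π σ else 0)) =
        ∑ k : Fin n, (if σ k < σ (finRotate n k)
          then π (σ * Equiv.swap k (finRotate n k)) else 0))
    (r : ℕ) (h : r < n) (i : Fin r → Fin n) (k : Fin n) (hi : ∀ a, (i a : ℕ) + 1 < k) :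
    ∑ τ with (∀ a, τ (Fin.castLE h.le a) = i a) ∧ τ ⟨r, h⟩ = k, π τ =
      1 / (n : ℝ) * ∑ τ with ∀ a, τ (Fin.castLE h.le a) = i a, π τ := by
  match n, π, hs, h, i, k, hi with
  | 1, π, _, h, i, k, _ => simp [Subsingleton.elim _ k]
  | N + 2, π, hs, h, i, k, hi =>
    exact main_aux (r := ⟨r, h⟩) (stat_of π (by simpa only [finRotate_apply] using hs)) k hi

theorem chain (n : ℕ) (π : Equiv.Perm (Fin n) → ℝ) (h1 : ∑ σ, π σ = 1)
    (hs : ∀ σ : Equiv.Perm (Fin n),
      (∑ k : Fin n, (if σ (finRotate n k) < σ k then π σ else 0)) =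
        ∑ k : Fin n, (if σ k < σ (finRotate n k)
          then π (σ * Equiv.swap k (finRotate n k)) else 0))
    (r : ℕ) (h : r ≤ n) (i : Fin r → Fin n)
    (hi : ∀ a b : Fin r, a.val + 1 = b.val → (i a).val + 1 < (i b).val) :
    ∑ τ with ∀ a, τ (Fin.castLE h a) = i a, π τ = 1 / (n : ℝ) ^ r := by
  induction r with
  | zero => simpa using h1
  | succ r ih =>
    have mono : StrictMono fun a : Fin (r + 1) => ((i a : ℕ) : ℤ) - a := by
      rw [Fin.strictMono_iff_lt_succ]
      intro a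
      have := hi a.castSucc a.succ rfl
      simp only [Fin.val_castSucc, Fin.val_succ]
      omega
    have e := main n π hs r h (fun a => i a.castSucc) (i (Fin.last r)) fun a => by
      have := mono (Fin.castSucc_lt_last a)
      have h2 := a.2
      simp only [Fin.val_castSucc, Fin.val_last] at this
      omega
    rw [ih (by omega) (fun a => i a.castSucc) fun a b hab => hi _ _ hab] at e
    rw [pow_succ', ← one_div_mul_one_div, ← e]
    refine sum_congr (filter_congr fun τ _ => ?_) fun _ _ => rfl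
    rw [Fin.forall_fin_succ']
    rfl

end Pool.Agent.H44.Tasep
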