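import Mathlib

/-! Single-class queues on a ring and their intertwining with TASEP jumps. -/

open Finset

namespace Pool.Agent.H44.Tasep

variable {N : ℕ}

abbrev St (N : ℕ) := Finset (Fin (N + 2))

theorem succ_ne (j : Fin (N + 2)) : j + 1 ≠ j := by simp

def ind (S : St N) (j : Fin (N + 2)) : ℕ := if j ∈ S then 1 else 0

theorem sum_ind (S : St N) : ∑ j, ind S j = #S := by simp [ind]

theorem ind_mono {S S' : St N} (h : S ⊆ S') (j : Fin (N + 2)) : ind S j ≤ ind S' j := by
  unfold ind
  split_ifs with h1 h2
  · exact le_rfl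
  · exact absurd (h h1) h2
  · exact zero_le_one
  · exact le_rfl

/-- a particle at `j + 1` jumps to `j` if `j` is empty -/
def sg (j : Fin (N + 2)) (S : St N) : St N :=
  if j + 1 ∈ S ∧ j ∉ S then S.map (Equiv.swap j (j + 1)).toEmbedding else S

theorem card_sg (j : Fin (N + 2)) (S : St N) : #(sg j S) = #S := by
  unfold sg
  split_ifs <;> simp

theorem mem_sg (j : Fin (N + 2)) (S : St N) (p : Fin (N + 2)) : p ∈ sg j S ↔
    if p = j then j ∈ S ∨ j + 1 ∈ S else if p = j + 1 then j ∈ S ∧ j + 1 ∈ S else p ∈ S := by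
  unfold sg
  by_cases h : j + 1 ∈ S ∧ j ∉ S
  · rw [if_pos h, mem_map_equiv, Equiv.symm_swap]
    split_ifs with h1 h2
    · simp [h1, h.1]
    · simp [h2, h.2]
    · rw [Equiv.swap_apply_of_ne_of_ne h1 h2]
  · rw [if_neg h]
    split_ifs with h1 h2
    · subst h1; tauto
    · subst h2; tauto
    · rfl

def IsQ (S B : St N) (q : Fin (N + 2) → ℕ) : Prop := ∀ j, q (j + 1) = q j + ind S j - ind B j

theorem IsQ.unused {S B : St N} {q : Fin (N + 2) → ℕ} (h : IsQ S B q) (hc : #S < #B) :
    ∃ u, u ∈ B ∧ q u + ind S u = 0 := by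
  by_contra hn
  push Not at hn
  have e : ∀ j, q (j + 1) + ind B j = q j + ind S j := by
    intro j
    rw [h j]
    have := hn j
    unfold ind at *
    split_ifs at * <;> simp_all <;> omega
  have e2 := sum_congr (rfl : (univ : Finset (Fin (N + 2))) = univ) fun j _ => e j
  have e3 : ∑ x, q (x + 1) = ∑ x, q x := Equiv.sum_comp (Equiv.addRight (1 : Fin (N + 2))) q
  rw [sum_add_distrib, sum_add_distrib, sum_ind, sum_ind, e3] at e2
  omega

def cyc (u : Fin (N + 2)) (t : ℕ) : Fin (N + 2) := (fun j => j + 1)^[t] u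

theorem cyc_succ (u : Fin (N + 2)) (t : ℕ) : cyc u (t + 1) = cyc u t + 1 :=
  Function.iterate_succ_apply' _ _ _

theorem cyc_val (u : Fin (N + 2)) (t : ℕ) : (cyc u t : ℕ) = (u + t) % (N + 2) := by
  induction t with
  | zero => simp [cyc, Nat.mod_eq_of_lt u.2]
  | succ t ih => rw [cyc_succ, Fin.val_add, ih]; simp [← add_assoc]

theorem cyc_surj (u p : Fin (N + 2)) : cyc u (p + (N + 2) - u) = p := by
  apply Fin.ext
  rw [cyc_val, show (u : ℕ) + (p + (N + 2) - u) = p + (N + 2) by omega]
  simp [Nat.mod_eq_of_lt p.2]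

theorem IsQ.le {S B S' B' : St N} {q q' : Fin (N + 2) → ℕ} (h : IsQ S B q) (h' : IsQ S' B' q')
    (hS : S' ⊆ S) (hB : B ⊆ B') (hc : #S' < #B') (p : Fin (N + 2)) : q' p ≤ q p := by
  obtain ⟨u, -, hu⟩ := h'.unused hc
  have : ∀ t, q' (cyc u t) ≤ q (cyc u t) := by
    intro t
    induction t with
    | zero => show q' u ≤ _; omega
    | succ t ih =>
      rw [cyc_succ, h, h']
      have := ind_mono hS (cyc u t)
      have := ind_mono hB (cyc u t)
      omega
  simpa only [cyc_surj] using this (p + (N + 2) - u)

def run (S B : St N) (x : ℕ) : ℕ → ℕ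
  | 0 => x
  | t + 1 => run S B x t + ind S (cyc 0 t) - ind B (cyc 0 t)

theorem run_eq (S B : St N) (x t : ℕ) : (run S B x t : ℤ) =
    max (x + ∑ i ∈ range t, ((ind S (cyc 0 i) : ℤ) - ind B (cyc 0 i))) (run S B 0 t) := by
  induction t with
  | zero => simp [run]
  | succ t ih =>
    simp only [run, sum_range_succ]
    omega

theorem cyc_zero (j : Fin (N + 2)) : cyc 0 j = j := by
  apply Fin.ext
  simp [cyc_val, Nat.mod_eq_of_lt j.2]

theorem exists_Q {S B : St N} (hc : #S < #B) : ∃ q, IsQ S B q := by
  have hs : ∑ i ∈ range (N + 2), ((ind S (cyc 0 i) : ℤ) - ind B (cyc 0 i)) = #S - #B := by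
    rw [← Fin.sum_univ_eq_sum_range (fun i => (ind S (cyc 0 i) : ℤ) - ind B (cyc 0 i))]
    simp only [cyc_zero, sum_sub_distrib, ← Nat.cast_sum, sum_ind]
  have hfix : run S B (run S B 0 (N + 2)) (N + 2) = run S B 0 (N + 2) := by
    have := run_eq S B (run S B 0 (N + 2)) (N + 2)
    rw [hs] at this
    omega
  refine ⟨fun j => run S B (run S B 0 (N + 2)) j, fun j => ?_⟩
  have e : run S B (run S B 0 (N + 2)) (j + 1 : Fin (N + 2)) =
      run S B (run S B 0 (N + 2)) (j + 1 : ℕ) := by
    rw [Fin.val_add_one]
    split_ifs with h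
    · rw [h, Fin.val_last, hfix]
      rfl
    · rfl
  beta_reduce
  rw [e]
  generalize run S B 0 (N + 2) = x
  simp only [run, cyc_zero]

open Classical in
/-- the queue lengths -/
noncomputable def Q (S B : St N) : Fin (N + 2) → ℕ := if h : ∃ q, IsQ S B q then h.choose else 0

theorem isQ_Q {S B : St N} (hc : #S < #B) : IsQ S B (Q S B) := by
  unfold Q
  rw [dif_pos (exists_Q hc)]
  exact (exists_Q hc).choose_spec

theorem IsQ.eq {S B : St N} {q : Fin (N + 2) → ℕ} (h : IsQ S B q) (hc : #S < #B) : Q S B = q :=
  funext fun p => le_antisymm (h.le (isQ_Q hc) subset_rfl subset_rfl hc p)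
    ((isQ_Q hc).le h subset_rfl subset_rfl hc p)

/-- the departure set -/
noncomputable def D (S B : St N) : St N := {j ∈ B | 0 < Q S B j + ind S j}

theorem card_D {S B : St N} (hc : #S < #B) : #(D S B) = #S := by
  have h := isQ_Q hc
  have e : ∀ j, Q S B (j + 1) + ind (D S B) j = Q S B j + ind S j := by
    intro j
    rw [h j]
    simp only [ind, D, mem_filter]
    split_ifs at * <;> simp_all <;> omega
  have e2 := sum_congr (rfl : (univ : Finset (Fin (N + 2))) = univ) fun j _ => e j
  have e3 : ∑ x, Q S B (x + 1) = ∑ x, Q S B x :=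
    Equiv.sum_comp (Equiv.addRight (1 : Fin (N + 2))) (Q S B)
  rw [sum_add_distrib, sum_add_distrib, sum_ind, sum_ind, e3] at e2
  omega

def nx (B : St N) (j : Fin (N + 2)) : Fin (N + 2) := if j + 1 ∈ B then j else j + 1

theorem intertwine {S B : St N} (hc : #S < #B) (j : Fin (N + 2)) :
    D (sg (nx B j) S) (sg j B) = sg j (D S B) := by
  have h := isQ_Q hc
  have hc' : #(sg (nx B j) S) < #(sg j B) := by rwa [card_sg, card_sg]
  have hj := succ_ne j
  set q := Q S B with hq
  unfold nx at hc' ⊢
  by_cases hB : j + 1 ∈ B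
  · simp only [hB, if_true] at hc' ⊢
    have hQ : IsQ (sg j S) (sg j B)
        (Function.update q (j + 1) (q j + ind (sg j S) j - ind (sg j B) j)) := by
      intro p
      by_cases h1 : p = j
      · subst h1
        rw [Function.update_self, Function.update_of_ne hj.symm]
      · rw [Function.update_of_ne (by simpa using h1), h p]
        by_cases h2 : p = j + 1
        · subst h2
          rw [Function.update_self, h j]
          simp only [ind, mem_sg, hj, hB, if_true, if_false, or_true, and_true]
          by_cases a : j ∈ S <;> by_cases b : j + 1 ∈ S <;> by_cases c : j ∈ B <;>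
            simp [a, b, c] <;> omega
        · rw [Function.update_of_ne h2]
          simp only [ind, mem_sg, h1, h2, if_false]
    ext p
    rw [D, hQ.eq hc', mem_filter, mem_sg j (D S B)]
    simp only [D, mem_filter, ← hq]
    by_cases h1 : p = j
    · subst h1
      rw [Function.update_of_ne hj.symm, h p]
      simp only [ind, mem_sg, hB, if_true, or_true, true_and]
      by_cases a : p ∈ S <;> by_cases b : p + 1 ∈ S <;> by_cases c : p ∈ B <;>
        simp [a, b, c] <;> omega
    · by_cases h2 : p = j + 1
      · subst h2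
        rw [Function.update_self, h j]
        simp only [ind, mem_sg, hj, hB, if_true, if_false, or_true, and_true, true_and]
        by_cases a : j ∈ S <;> by_cases b : j + 1 ∈ S <;> by_cases c : j ∈ B <;>
          simp [a, b, c] <;> omega
      · rw [Function.update_of_ne h2]
        simp only [ind, mem_sg, h1, h2, if_false]
  · simp only [hB, if_false] at hc' ⊢
    have e1 : sg j B = B := by simp [sg, hB]
    have e2 : sg j (D S B) = D S B := by simp [sg, D, hB]
    have hj' := succ_ne (j + 1)
    rw [e1] at hc' ⊢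
    rw [e2]
    have key : q (j + 1) + ind (sg (j + 1) S) (j + 1) + ind (sg (j + 1) S) (j + 1 + 1) =
        q (j + 1 + 1) + ind S (j + 1 + 1) := by
      rw [h (j + 1)]
      simp only [ind, mem_sg, hj', hB, if_true, if_false]
      by_cases a : j + 1 ∈ S <;> by_cases b : j + 1 + 1 ∈ S <;> simp [a, b]
    have hQ : IsQ (sg (j + 1) S) B
        (Function.update q (j + 1 + 1) (q (j + 1) + ind (sg (j + 1) S) (j + 1))) := by
      intro p
      by_cases h1 : p = j + 1
      · subst h1
        rw [Function.update_self, Function.update_of_ne hj'.symm]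
        simp [ind, hB]
      · rw [Function.update_of_ne (by simpa using h1), h p]
        by_cases h2 : p = j + 1 + 1
        · subst h2
          rw [Function.update_self, key]
        · rw [Function.update_of_ne h2]
          simp only [ind, mem_sg, h1, h2, if_false]
    ext p
    rw [D, hQ.eq hc', mem_filter]
    simp only [D, mem_filter, ← hq]
    by_cases h1 : p = j + 1
    · simp [h1, hB]
    · by_cases h2 : p = j + 1 + 1
      · subst h2
        rw [Function.update_self, key]
      · rw [Function.update_of_ne h2]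
        simp only [ind, mem_sg, h1, h2, if_false]

theorem pair_inj : Function.Injective
    fun x : St N × Fin (N + 2) => ((sg x.2 x.1, nx x.1 x.2) : St N × Fin (N + 2)) := by
  have inv : ∀ (B : St N) (j : Fin (N + 2)), (j + 1 ∈ B → nx B j ∈ sg j B) ∧
      (j + 1 ∉ B → nx B j ∉ sg j B) := by
    intro B j
    constructor <;> intro h <;> simp [nx, h, mem_sg]
  rintro ⟨B, j⟩ ⟨B', j'⟩ h
  simp only [Prod.mk.injEq] at h ⊢
  obtain ⟨h1, h2⟩ := h
  by_cases a : j + 1 ∈ B <;> by_cases b : j' + 1 ∈ B'
  · have : j = j' := by simpa [nx, a, b] using h2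
    subst this
    refine ⟨?_, rfl⟩
    ext p
    have e := fun p => (mem_sg j B p).symm.trans (h1 ▸ mem_sg j B' p)
    by_cases c : p = j
    · have := e (j + 1)
      simpa [a, b, c] using this
    · by_cases d : p = j + 1
      · simp [a, b, d]
      · simpa [c, d] using e p
  · exact absurd (h2 ▸ h1 ▸ (inv B j).1 a) ((inv B' j').2 b)
  · exact absurd (h2 ▸ h1 ▸ (inv B' j').1 b) ((inv B j).2 a)
  · have : j = j' := by simpa [nx, a, b] using h2
    subst this
    exact ⟨by simpa [sg, a, b] using h1, rfl⟩

/-- adding a service at `r` does not change departures before `r` when there is an idle service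
after `r` -/
theorem D_insert {S B : St N} (hc : #S < #B) {r u : Fin (N + 2)} (hu : r < u)
    (h0 : Q S B u = 0) {a : Fin (N + 2)} (ha : a < r) : a ∈ D S (insert r B) ↔ a ∈ D S B := by
  have hc' : #S < #(insert r B) := hc.trans_le (card_le_card (subset_insert _ _))
  have h := isQ_Q hc
  have h' := isQ_Q hc'
  have hle := h.le h' subset_rfl (subset_insert _ _) hc'
  have key : ∀ t, u + t ≤ N + 2 + r → Q S (insert r B) (cyc u t) = Q S B (cyc u t) := by
    intro t
    induction t with
    | zero =>
      intro _
      have := hle u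
      show Q S (insert r B) u = Q S B u
      omega
    | succ t ih =>
      intro ht
      have hne : cyc u t ≠ r := by
        intro he
        have h1 := cyc_val u t
        rw [he] at h1
        have h2 : (r : ℕ) < u := hu
        have h3 := r.2
        by_cases h4 : (u : ℕ) + t < N + 2
        · rw [Nat.mod_eq_of_lt h4] at h1
          omega
        · rw [Nat.mod_eq_sub_mod (by omega), Nat.mod_eq_of_lt (by omega)] at h1
          omega
      rw [cyc_succ, h, h', ih (by omega)]
      simp [ind, hne]
  have h2 : (a : ℕ) < r := ha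
  have := key (a + (N + 2) - u) (by omega)
  rw [cyc_surj] at this
  simp [D, this, ha.ne]

end Pool.Agent.H44.Tasep
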