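import Pool.Agent.H44.TasepQ

open Finset

namespace Pool.Agent.H44.Tasep

theorem unique_zero {X ι : Type*} [Fintype X] [Fintype ι] (σ : ι → X → X) (d : X → ℝ)
    (hd : ∀ f : X → ℝ, ∑ j, ∑ x, d x * f (σ j x) = Fintype.card ι * ∑ x, d x * f x) (z : X)
    (hz : ∀ x, d x ≠ 0 → Relation.ReflTransGen (fun x y => ∃ j, σ j x = y) x z)
    (hs : ∑ x, d x = 0) (x : X) : d x = 0 := by
  classical
  have h1 : ∀ y, Fintype.card ι * d y = ∑ j, ∑ x, d x * if σ j x = y then 1 else 0 := by
    intro y
    rw [hd fun x => if x = y then 1 else 0]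
    simp
  have h2 : ∀ y ∈ (univ : Finset X), Fintype.card ι * |d y| ≤
      ∑ j, ∑ x, |d x| * if σ j x = y then 1 else 0 := by
    intro y _
    rw [← abs_of_nonneg (Nat.cast_nonneg (α := ℝ) (Fintype.card ι)), ← abs_mul, h1]
    refine (abs_sum_le_sum_abs _ _).trans (sum_le_sum fun j _ =>
      (abs_sum_le_sum_abs _ _).trans (sum_le_sum fun x _ => ?_))
    split_ifs <;> simp
  have h3 := (sum_eq_sum_iff_of_le h2).1 (by
    rw [sum_comm]
    simp only [fun j => sum_comm (s := (univ : Finset X)) (t := (univ : Finset X))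
      (f := fun y x => |d x| * if σ j x = y then (1 : ℝ) else 0)]
    simp [mul_sum])
  have pos : ∀ ε : ℝ, |ε| = 1 → ∀ x, 0 < |d x| + ε * d x → 0 < |d z| + ε * d z := by
    intro ε hε x hx
    have nn : ∀ x, 0 ≤ |d x| + ε * d x := fun x => by
      have := neg_abs_le (ε * d x)
      rw [abs_mul, hε, one_mul] at this
      linarith
    have step : ∀ x j, 0 < |d x| + ε * d x → 0 < |d (σ j x)| + ε * d (σ j x) := by
      intro x j hx
      have e : Fintype.card ι * (|d (σ j x)| + ε * d (σ j x)) =
          ∑ i, ∑ w, (|d w| + ε * d w) * if σ i w = σ j x then 1 else 0 := by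
        rw [mul_add, h3 _ (mem_univ _), mul_left_comm, h1]
        simp only [mul_sum, ← sum_add_distrib, add_mul, mul_assoc]
      have nn2 : ∀ i w, 0 ≤ (|d w| + ε * d w) * if σ i w = σ j x then (1 : ℝ) else 0 :=
        fun i w => mul_nonneg (nn w) (by split_ifs <;> norm_num)
      have : 0 < Fintype.card ι * (|d (σ j x)| + ε * d (σ j x)) := by
        rw [e]
        refine sum_pos' (fun i _ => sum_nonneg fun w _ => nn2 i w) ⟨j, mem_univ _, ?_⟩
        exact sum_pos' (fun w _ => nn2 j w) ⟨x, mem_univ _, by simpa using hx⟩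
      exact pos_of_mul_pos_of_nonneg_left' this
    have hr := hz x (by rintro h; simp [h] at hx)
    clear hz
    induction hr with
    | refl => exact hx
    | tail _ h ih =>
      obtain ⟨j, rfl⟩ := h
      exact step _ j ih
  by_contra hx
  obtain ⟨a, ha⟩ : ∃ a, 0 < d a := by
    by_contra hn
    push Not at hn
    exact hx ((sum_eq_zero_iff_of_nonpos fun i _ => hn i).1 hs x (mem_univ _))
  obtain ⟨b, hb⟩ : ∃ b, d b < 0 := by
    by_contra hn
    push Not at hn
    exact hx ((sum_eq_zero_iff_of_nonneg fun i _ => hn i).1 hs x (mem_univ _))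
  have p1 := pos 1 (by simp) a (by linarith [abs_nonneg (d a)])
  have p2 := pos (-1) (by simp) b (by linarith [abs_nonneg (d b)])
  rcases abs_cases (d z) with h | h <;> linarith [h.1]
  where pos_of_mul_pos_of_nonneg_left' {n : ℕ} {a : ℝ} (h : 0 < (n : ℝ) * a) : 0 < a :=
    (pos_iff_pos_of_mul_pos h).1 (by
      rcases Nat.eq_zero_or_pos n with rfl | hn
      · simp at h
      · exact_mod_cast hn)

theorem eq_of_stationary {A A' X ι : Type*} [Fintype A] [Fintype A'] [Fintype X] [Fintype ι]
    (σ : ι → X → X) (w : A → ℝ) (Φ : A → X) (w' : A' → ℝ) (Φ' : A' → X)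
    (h : ∀ f : X → ℝ, ∑ j, ∑ a, w a * f (σ j (Φ a)) = Fintype.card ι * ∑ a, w a * f (Φ a))
    (h' : ∀ f : X → ℝ, ∑ j, ∑ a, w' a * f (σ j (Φ' a)) = Fintype.card ι * ∑ a, w' a * f (Φ' a))
    (z : X) (hz : ∀ a, Relation.ReflTransGen (fun x y => ∃ j, σ j x = y) (Φ a) z)
    (hz' : ∀ a, w' a ≠ 0 → Relation.ReflTransGen (fun x y => ∃ j, σ j x = y) (Φ' a) z)
    (hs : ∑ a, w a = ∑ a, w' a) (f : X → ℝ) : ∑ a, w a * f (Φ a) = ∑ a, w' a * f (Φ' a) := by
  classical
  set d : X → ℝ := fun y => (∑ a, if Φ a = y then w a else 0) - ∑ a, if Φ' a = y then w' a else 0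
    with hd
  have e : ∀ f : X → ℝ, ∑ y, d y * f y = ∑ a, w a * f (Φ a) - ∑ a, w' a * f (Φ' a) := by
    intro f
    simp only [hd, sub_mul, sum_sub_distrib, sum_mul, ite_mul, zero_mul]
    rw [sum_comm, sum_comm (s := (univ : Finset X))]
    simp
  have := unique_zero σ d (fun f => by
    simp only [fun j => e fun y => f (σ j y), e f, sum_sub_distrib, h, h', mul_sub]) z
    (fun y hy => by
      by_cases h1 : ∃ a, Φ a = y
      · obtain ⟨a, rfl⟩ := h1
        exact hz a
      · push Not at h1
        simp only [hd, h1, if_false, sum_const_zero, zero_sub, ne_eq, neg_eq_zero] at hy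
        obtain ⟨a, -, ha⟩ := exists_ne_zero_of_sum_ne_zero hy
        split_ifs at ha with h2
        · exact h2 ▸ hz' a ha
        · exact absurd rfl ha)
    (by simpa [hs] using e fun _ => 1)
  have e2 := e f
  simp only [this, zero_mul, sum_const_zero] at e2
  linarith

variable {N : ℕ}

def init (N k : ℕ) : St N := univ.filter fun p : Fin (N + 2) => (p : ℕ) < k

theorem card_init {k : ℕ} (hk : k ≤ N + 2) : #(init N k) = k := by
  simp [init, Fin.card_filter_val_lt, hk]

def wt (S : St N) : ℕ := ∑ p ∈ S, (p : ℕ)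

theorem wt_sg {j : Fin (N + 2)} (hj : j < j + 1) (S : St N) : wt (sg j S) ≤ wt S ∧
    (j + 1 ∈ S → j ∉ S → wt (sg j S) < wt S) := by
  have : j + 1 ∈ S → j ∉ S → wt (sg j S) < wt S := by
    intro h1 h2
    rw [sg, if_pos ⟨h1, h2⟩, wt, sum_map]
    refine sum_lt_sum (fun p hp => ?_) ⟨j + 1, h1, by simpa using hj⟩
    by_cases h3 : p = j + 1
    · subst h3
      simpa using hj.le
    · simp [Equiv.swap_apply_of_ne_of_ne (ne_of_mem_of_not_mem hp h2) h3]
  refine ⟨?_, this⟩
  by_cases h : j + 1 ∈ S ∧ j ∉ S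
  · exact (this h.1 h.2).le
  · rw [sg, if_neg h]

theorem eq_init {S : St N} (h : ∀ j : Fin (N + 2), j < j + 1 → j + 1 ∈ S → j ∈ S) :
    S = init N #S := by
  have low : ∀ p ∈ S, ∀ a, a ≤ p → a ∈ S := by
    intro p
    induction p using Fin.induction with
    | zero => intro hp a ha; rwa [Fin.le_zero_iff.1 ha]
    | succ p ih =>
      intro hp a ha
      rcases ha.eq_or_lt with rfl | ha
      · exact hp
      · refine ih (h _ ?_ ?_) a (Fin.le_castSucc_iff.2 ha)
        · simp
        · simpa using hp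
  ext p
  simp only [init, mem_filter, mem_univ, true_and]
  constructor
  · intro hp
    have : Iic p ⊆ S := fun a ha => low p hp a (mem_Iic.1 ha)
    have := card_le_card this
    simp at this
    omega
  · intro hp
    by_contra hn
    have : S ⊆ Iio p := fun a ha => mem_Iio.2 (not_le.1 fun h => hn (low a ha p h))
    have := card_le_card this
    simp at this
    omega

theorem reach {κ : Type*} [Fintype κ] (T : κ → St N) :
    Relation.ReflTransGen (fun x y : κ → St N => ∃ j, (fun c => sg j (x c)) = y) T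
      fun c => init N #(T c) := by
  induction h : ∑ c, wt (T c) using Nat.strong_induction_on generalizing T with
  | _ n ih =>
    by_cases hs : ∀ c, ∀ j : Fin (N + 2), j < j + 1 → j + 1 ∈ T c → j ∈ T c
    · have : T = fun c => init N #(T c) := funext fun c => eq_init (hs c)
      rw [← this]
    · push Not at hs
      obtain ⟨c, j, h1, h2, h3⟩ := hs
      refine Relation.ReflTransGen.head ⟨j, rfl⟩ ?_
      have := ih _ (h ▸ sum_lt_sum (fun c _ => (wt_sg h1 (T c)).1)
        ⟨c, mem_univ _, (wt_sg h1 (T c)).2 h2 h3⟩) (fun c => sg j (T c)) rfl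
      simpa only [card_sg] using this

abbrev Pm (N : ℕ) := Equiv.Perm (Fin (N + 2))

def rho (j : Fin (N + 2)) (τ : Pm N) : Pm N :=
  if τ (j + 1) < τ j then τ * Equiv.swap j (j + 1) else τ

def thr (c : ℕ) (τ : Pm N) : St N := univ.filter fun p => (τ p : ℕ) < c

theorem card_thr {c : ℕ} (hc : c ≤ N + 2) (τ : Pm N) : #(thr c τ) = c := by
  exact (card_equiv τ fun p => by simp [thr, init]).trans (card_init hc)

theorem thr_mono {c c' : ℕ} (h : c ≤ c') (τ : Pm N) : thr c τ ⊆ thr c' τ := by
  intro p hp
  simp only [thr, mem_filter, mem_univ, true_and] at hp ⊢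
  omega

theorem thr_rho (c : ℕ) (j : Fin (N + 2)) (τ : Pm N) : thr c (rho j τ) = sg j (thr c τ) := by
  ext p
  rw [mem_sg]
  simp only [thr, rho, mem_filter, mem_univ, true_and]
  by_cases h : τ (j + 1) < τ j
  · have h' : (τ (j + 1) : ℕ) < τ j := h
    rw [if_pos h, Equiv.Perm.mul_apply]
    split_ifs with h1 h2
    · rw [h1, Equiv.swap_apply_left]; omega
    · rw [h2, Equiv.swap_apply_right]; omega
    · rw [Equiv.swap_apply_of_ne_of_ne h1 h2]
  · have h' : ¬ (τ (j + 1) : ℕ) < τ j := h
    rw [if_neg h]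
    split_ifs with h1 h2
    · rw [h1]; omega
    · rw [h2]; omega
    · rfl

/-- stationarity tested against functions -/
def Stat (π : Pm N → ℝ) : Prop :=
  ∀ f : Pm N → ℝ, ∑ j, ∑ τ, π τ * f (rho j τ) = (N + 2 : ℕ) * ∑ τ, π τ * f τ

theorem stat_of (π : Pm N → ℝ) (h : ∀ τ : Pm N,
    (∑ j, if τ (j + 1) < τ j then π τ else 0) =
      ∑ j, if τ j < τ (j + 1) then π (τ * Equiv.swap j (j + 1)) else 0) : Stat π := by
  intro f
  have e : ∀ j, ∑ τ, π τ * f (rho j τ) = ∑ τ, ((if τ j < τ (j + 1) then
      π (τ * Equiv.swap j (j + 1)) else 0) * f τ +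
      (π τ - if τ (j + 1) < τ j then π τ else 0) * f τ) := by
    intro j
    rw [sum_add_distrib, ← Equiv.sum_comp (Equiv.mulRight (Equiv.swap j (j + 1))) fun τ : Pm N =>
      (if τ j < τ (j + 1) then π (τ * Equiv.swap j (j + 1)) else 0) * f τ, ← sum_add_distrib]
    refine sum_congr rfl fun τ _ => ?_
    simp only [rho, Equiv.coe_mulRight, Equiv.Perm.mul_apply, Equiv.swap_apply_left,
      Equiv.swap_apply_right, mul_assoc, Equiv.swap_mul_self, mul_one]
    split_ifs <;> simp
  simp only [e]
  rw [sum_comm, mul_sum]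
  refine sum_congr rfl fun τ _ => ?_
  rw [sum_add_distrib, ← sum_mul, ← sum_mul, sum_sub_distrib, h τ]
  simp
  ring

def F1 (m K : ℕ) (τ : Pm N) : Option (Fin (m + 1)) → St N
  | none => thr K τ
  | some c => thr c τ

noncomputable def F2 (m : ℕ) (τ : Pm N) (B : St N) : Option (Fin (m + 1)) → St N
  | none => B
  | some c => D (thr c τ) B

theorem last_row {π : Pm N → ℝ} (hπ : Stat π) {m K : ℕ} (hm : m < K) (hK : K ≤ N + 2)
    (f : (Option (Fin (m + 1)) → St N) → ℝ) :
    (N + 2).choose K * ∑ τ, π τ * f (F1 m K τ) =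
      ∑ τ, π τ * ∑ B ∈ powersetCard K univ, f (F2 m τ B) := by
  have hc : ∀ (c : Fin (m + 1)) (τ : Pm N), #(thr c τ) = c := fun c τ =>
    card_thr (by omega) τ
  have := eq_of_stationary (fun j (x : Option (Fin (m + 1)) → St N) c => sg j (x c))
    (fun τ => (N + 2).choose K * π τ) (F1 m K)
    (fun a : Pm N × St N => π a.1 * if #a.2 = K then 1 else 0) (fun a => F2 m a.1 a.2) ?_ ?_
    (fun c => init N (c.elim K fun c => c)) ?_ ?_ ?_ f
  · rw [mul_sum]
    simp only [mul_assoc] at this
    rw [this, Fintype.sum_prod_type]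
    refine sum_congr rfl fun τ _ => ?_
    rw [powersetCard_eq_filter, powerset_univ, sum_filter, mul_sum]
    simp
  · intro g
    have := hπ fun τ => g (F1 m K τ)
    simp only [mul_assoc, ← mul_sum, Fintype.card_fin]
    rw [mul_left_comm, ← this]
    congr 1
    refine sum_congr rfl fun j _ => sum_congr rfl fun τ _ => ?_
    congr 2
    funext c
    cases c <;> simp [F1, thr_rho]
  · intro g
    simp only [Fintype.sum_prod_type, Fintype.card_fin]
    have hb := Finite.injective_iff_bijective.1 (pair_inj (N := N))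
    calc ∑ j, ∑ τ, ∑ B : St N, (π τ * if #B = K then 1 else 0) * g (fun c => sg j (F2 m τ B c))
        = ∑ τ, ∑ x : St N × Fin (N + 2), (π τ * if #(sg x.2 x.1) = K then 1 else 0) *
            g (F2 m (rho (nx x.1 x.2) τ) (sg x.2 x.1)) := by
          rw [sum_comm]
          refine sum_congr rfl fun τ _ => ?_
          rw [Fintype.sum_prod_type_right]
          refine sum_congr rfl fun j _ => sum_congr rfl fun B _ => ?_
          rw [card_sg]
          split_ifs with hB
          · congr 2
            funext c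
            cases c with
            | none => rfl
            | some c =>
              simp only [F2, thr_rho]
              exact (intertwine (by rw [hc, hB]; omega) j).symm
          · simp
      _ = ∑ τ, ∑ x : St N × Fin (N + 2), (π τ * if #x.1 = K then 1 else 0) *
            g (F2 m (rho x.2 τ) x.1) := by
          refine sum_congr rfl fun τ _ => ?_
          exact hb.sum_comp fun x : St N × Fin (N + 2) =>
            (π τ * if #x.1 = K then 1 else 0) * g (F2 m (rho x.2 τ) x.1)
      _ = _ := by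
          have := hπ fun τ => ∑ B : St N, (if #B = K then 1 else 0) * g (F2 m τ B)
          simp only [mul_sum, ← mul_assoc] at this
          simp only [Fintype.sum_prod_type_right, mul_sum, ← mul_assoc]
          rw [sum_comm, this]
  · intro τ
    convert reach (F1 m K τ) using 3 with c
    cases c with
    | none => exact (card_thr hK τ).symm
    | some c => exact (hc c τ).symm
  · intro a ha
    have hB : #a.2 = K := by
      by_contra hn
      simp [hn] at ha
    convert reach (F2 m a.1 a.2) using 3 with c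
    cases c with
    | none => exact hB.symm
    | some c =>
      simp only [F2, Option.elim]
      rw [card_D (by rw [hc, hB]; omega), hc]
  · simp only [Fintype.sum_prod_type, ← mul_sum]
    have e : (∑ B : St N, if #B = K then (1 : ℝ) else 0) = (N + 2).choose K := by
      rw [← sum_filter, ← powerset_univ, ← powersetCard_eq_filter]
      simp
    simp only [e, ← sum_mul, mul_comm]

end Pool.Agent.H44.Tasep
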