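import Mathlib

open Finset

namespace Pool.Agent.H44.USF

section abs
variable {R : Type} [DecidableEq R] (V : R → Prop) [Fintype {c // V c}]

abbrev Om := Fin (Nat.card {c // V c}) ≃ {c // V c}

open Classical in
/-- all members of `S` are among the first `m` clauses -/
def pres (m : ℕ) (S : Finset R) (e : Om V) : Prop := ∀ c ∈ S, ∃ h : V c, (e.symm ⟨c, h⟩ : ℕ) < m

open Classical in
noncomputable def PP (E : Om V → Prop) : ℝ := (∑ e, if E e then (1 : ℝ) else 0) / Nat.card (Om V)

lemma Om_pos : (0 : ℝ) < Nat.card (Om V) := by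
  have : Nonempty (Om V) := ⟨(Finite.equivFin _).symm⟩
  exact_mod_cast Nat.card_pos

lemma PP_nonneg (E : Om V → Prop) : 0 ≤ PP V E :=
  div_nonneg (sum_nonneg fun _ _ => by split_ifs <;> norm_num) (Om_pos V).le

lemma PP_eq (E : Om V → Prop) : PP V E = (Nat.card {e // E e} : ℝ) / Nat.card (Om V) := by
  classical
  rw [PP, Nat.card_eq_fintype_card (α := {e // E e}), Fintype.card_subtype, card_filter]
  push_cast; rfl

open Classical in
lemma PP_le {ι : Type} (I : Finset ι) {E : Om V → Prop} (F : ι → Om V → Prop)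
    (h : ∀ e, E e → ∃ i ∈ I, F i e) : PP V E ≤ ∑ i ∈ I, PP V (F i) := by
  simp only [PP]
  rw [← sum_div, sum_comm]
  refine div_le_div_of_nonneg_right (sum_le_sum fun e _ => ?_) (Om_pos V).le
  have h0 : ∀ i ∈ I, (0 : ℝ) ≤ if F i e then 1 else 0 := fun _ _ => by split_ifs <;> norm_num
  split_ifs with he
  · obtain ⟨i, hi, hF⟩ := h e he
    exact le_trans (by rw [if_pos hF]) (single_le_sum h0 hi)
  · exact sum_nonneg h0

lemma PP_mono {E F : Om V → Prop} (h : ∀ e, E e → F e) : PP V E ≤ PP V F := by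
  simpa using PP_le V {()} (fun _ => F) fun e he => ⟨(), by simp, h e he⟩

lemma PP_or {E F G : Om V → Prop} (h : ∀ e, E e → F e ∨ G e) : PP V E ≤ PP V F + PP V G := by
  have := PP_le V (univ : Finset Bool) (fun b => if b then F else G) fun e he => by
    rcases h e he with h | h
    · exact ⟨true, by simp, h⟩
    · exact ⟨false, by simp, h⟩
  simpa using this

lemma PP_not (E : Om V → Prop) : PP V (fun e => ¬ E e) = 1 - PP V E := by
  classical
  rw [eq_sub_iff_add_eq, PP, PP, ← add_div, ← sum_add_distrib, div_eq_one_iff_eq (Om_pos V).ne',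
    sum_congr rfl (g := fun _ => (1 : ℝ)) fun e _ => by by_cases h : E e <;> simp [h]]
  simp

lemma PP_empty (m : ℕ) : PP V (pres V m ∅) = 1 := by
  have := PP_not V (fun _ => False)
  simpa [PP, pres] using this

lemma rec_eq {m : ℕ} (hm : m ≤ Nat.card {c // V c}) {S : Finset R} (hS : ∀ c ∈ S, V c) {c : R}
    (hc : V c) (hcS : c ∉ S) : PP V (pres V m (insert c S)) * (Nat.card {c // V c} - S.card) =
      (m - S.card) * PP V (pres V m S) := by
  classical
  set T : Finset {c // V c} := S.subtype V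
  have hT : T.card = S.card := by rw [card_subtype, filter_true_of_mem hS]
  have hp : ∀ (d : {c // V c}) e, pres V m (insert d.1 S) e ↔ (e.symm d : ℕ) < m ∧ pres V m S e := by
    intro d e
    simp only [pres, mem_insert, forall_eq_or_imp]
    exact and_congr_left fun _ => ⟨fun ⟨_, h⟩ => h, fun h => ⟨d.2, h⟩⟩
  have sw : ∀ d ∈ Tᶜ, PP V (pres V m (insert d.1 S)) = PP V (pres V m (insert c S)) := by
    intro d hd
    simp only [PP]
    congr 1
    refine Fintype.sum_equiv (Equiv.equivCongr (Equiv.refl _) (Equiv.swap d ⟨c, hc⟩)) _ _ fun e => ?_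
    refine if_congr ?_ rfl rfl
    rw [hp, hp ⟨c, hc⟩]
    refine and_congr (by simp) (forall₂_congr fun x hx => exists_congr fun h => ?_)
    have h1 : (⟨x, h⟩ : {c // V c}) ≠ d := fun e => by
      rw [← e] at hd; exact mem_compl.1 hd (mem_subtype.2 hx)
    have h2 : (⟨x, h⟩ : {c // V c}) ≠ ⟨c, hc⟩ := fun e => hcS (by rw [← Subtype.mk.inj e]; exact hx)
    simp [Equiv.swap_apply_of_ne_of_ne h1 h2]
  have h1 : ∑ d ∈ Tᶜ, PP V (pres V m (insert d.1 S)) =
      PP V (pres V m (insert c S)) * (Nat.card {c // V c} - S.card) := by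
    rw [sum_congr rfl sw, sum_const, card_compl, nsmul_eq_mul, Nat.cast_sub (card_le_univ _), hT,
      Nat.card_eq_fintype_card, mul_comm]
  rw [← h1]
  simp only [PP]
  rw [← sum_div, sum_comm, ← mul_div_assoc, mul_sum]
  congr 1
  refine sum_congr rfl fun e _ => ?_
  simp only [hp]
  by_cases he : pres V m S e
  · simp only [he, and_true, if_true, mul_one]
    have h2 : (univ.filter fun d : {c // V c} => (e.symm d : ℕ) < m).card = m := by
      refine Eq.trans ?_ ((Fin.card_filter_val_lt (n := Nat.card {c // V c}) (m := m)).trans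
        (min_eq_right hm))
      exact card_bijective e.symm e.symm.bijective fun d => by simp
    have h3 : ∑ d ∈ T, (if (e.symm d : ℕ) < m then (1 : ℝ) else 0) = S.card := by
      rw [sum_congr rfl (g := fun _ => (1 : ℝ)) fun d hd => if_pos (he _ (mem_subtype.1 hd)).2]
      rw [sum_const, hT]; simp
    rw [← h3, eq_sub_iff_add_eq, sum_compl_add_sum, ← sum_filter, sum_const, h2]
    simp
  · simp [he]

lemma card_lt {S : Finset R} (hS : ∀ c ∈ S, V c) {c : R} (hc : V c) (hcS : c ∉ S) :
    S.card < Nat.card {c // V c} := by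
  classical
  have := card_le_univ ((insert c S).subtype V)
  rw [card_subtype, filter_true_of_mem (by simpa [hc] using hS), card_insert_of_notMem hcS] at this
  rwa [Nat.card_eq_fintype_card]

lemma ins_le {m : ℕ} (hm : m ≤ Nat.card {c // V c}) (S : Finset R) {c : R} (hcS : c ∉ S) :
    PP V (pres V m (insert c S)) ≤ (m / Nat.card {c // V c}) * PP V (pres V m S) := by
  by_cases h : ∀ d ∈ insert c S, V d
  · have hc := h c (mem_insert_self _ _)
    have hS : ∀ d ∈ S, V d := fun d hd => h d (mem_insert_of_mem hd)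
    have h1 := rec_eq V hm hS hc hcS
    have h2 : (S.card : ℝ) < Nat.card {c // V c} := by exact_mod_cast card_lt V hS hc hcS
    have h3 : (m : ℝ) ≤ Nat.card {c // V c} := by exact_mod_cast hm
    have h4 : (0 : ℝ) ≤ S.card := Nat.cast_nonneg _
    refine le_of_mul_le_mul_right ?_ (sub_pos.2 h2)
    rw [h1, mul_right_comm]
    refine mul_le_mul_of_nonneg_right ?_ (PP_nonneg V _)
    rw [div_mul_eq_mul_div, le_div_iff₀ (by linarith)]
    nlinarith
  · refine le_trans (PP_le V (∅ : Finset Unit) (fun _ _ => False) fun e he =>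
      absurd (fun d hd => (he d hd).1) h) ?_
    exact mul_nonneg (by positivity) (PP_nonneg V _)

lemma up {m : ℕ} (hm : m ≤ Nat.card {c // V c}) (S : Finset R) {φ : R → ℝ}
    (h1 : ∀ c ∈ S, 1 ≤ φ c) (h2 : ∀ c, (m : ℝ) / Nat.card {c // V c} ≤ φ c) (cs : List R)
    (hn : cs.Nodup) : PP V (pres V m (cs.toFinset ∪ S)) ≤ (cs.map φ).prod * PP V (pres V m S) := by
  induction cs with
  | nil => simp
  | cons c cs ih =>
    rw [List.nodup_cons] at hn
    rw [List.toFinset_cons, insert_union, List.map_cons, List.prod_cons, mul_assoc]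
    have h0 : 0 ≤ φ c := le_trans (by positivity) (h2 c)
    refine le_trans ?_ (mul_le_mul_of_nonneg_left (ih hn.2) h0)
    by_cases h : c ∈ S
    · rw [insert_eq_of_mem (mem_union_right _ h)]
      exact le_mul_of_one_le_left (PP_nonneg V _) (h1 c h)
    · exact (ins_le V hm _ (by simp [h, hn.1])).trans
        (mul_le_mul_of_nonneg_right (h2 c) (PP_nonneg V _))

lemma up0 {m : ℕ} (hm : m ≤ Nat.card {c // V c}) (cs : List R) :
    PP V (fun e => cs.Nodup ∧ pres V m cs.toFinset e) ≤ (m / Nat.card {c // V c}) ^ cs.length := by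
  by_cases hn : cs.Nodup
  · have := up V hm ∅ (φ := fun _ => m / Nat.card {c // V c}) (by simp) (fun _ => le_rfl) cs hn
    simpa [PP_empty, hn] using this
  · refine le_trans (PP_le V (∅ : Finset Unit) (fun _ _ => False) fun e he => absurd he.1 hn) ?_
    simp only [sum_empty]; positivity

lemma low {m J : ℕ} (hm : m ≤ Nat.card {c // V c}) (hJ : J ≤ m) (S : Finset R) (hS : ∀ c ∈ S, V c)
    (h : S.card ≤ J) : (((m : ℝ) - J) / Nat.card {c // V c}) ^ S.card ≤ PP V (pres V m S) := by
  induction S using Finset.induction_on with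
  | empty => simp [PP_empty]
  | insert c S hcS ih =>
    have hc := hS c (mem_insert_self _ _)
    have hS' : ∀ d ∈ S, V d := fun d hd => hS d (mem_insert_of_mem hd)
    rw [card_insert_of_notMem hcS] at h ⊢
    have h1 := rec_eq V hm hS' hc hcS
    have h2 : (S.card : ℝ) < Nat.card {c // V c} := by exact_mod_cast card_lt V hS' hc hcS
    have h3 : (J : ℝ) ≤ m := by exact_mod_cast hJ
    have h4 : (0 : ℝ) ≤ S.card := Nat.cast_nonneg _
    have h5 : (S.card : ℝ) ≤ J := by exact_mod_cast (by omega : S.card ≤ J)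
    have h6 : 0 ≤ ((m : ℝ) - J) / Nat.card {c // V c} := div_nonneg (by linarith) (by linarith)
    rw [pow_succ]
    refine (mul_le_mul_of_nonneg_right (ih hS' (by omega)) h6).trans ?_
    rw [← mul_div_assoc, div_le_iff₀ (by linarith)]
    nlinarith [PP_nonneg V (pres V m S), PP_nonneg V (pres V m (insert c S))]

lemma second {ι : Type} (m : ℕ) (I : Finset ι) (S : ι → Finset R) {K : ℝ} (hK : 0 < K)
    (h : ∀ i ∈ I, ∑ j ∈ I, PP V (pres V m (S j ∪ S i)) ≤ K * PP V (pres V m (S i))) :
    ∑ i ∈ I, PP V (pres V m (S i)) ≤ K * PP V fun e => ∃ i ∈ I, pres V m (S i) e := by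
  classical
  set X : Om V → ℝ := fun e => ∑ i ∈ I, if pres V m (S i) e then 1 else 0 with hX
  have h1 : ∑ i ∈ I, PP V (pres V m (S i)) = (∑ e, X e) / Nat.card (Om V) := by
    simp only [PP, hX]; rw [← sum_div, sum_comm]
  have h2 : (∑ e, X e * X e) / Nat.card (Om V) ≤ K * ((∑ e, X e) / Nat.card (Om V)) := by
    rw [← h1, mul_sum]
    refine le_trans (le_of_eq ?_) (sum_le_sum h)
    simp only [PP, hX, sum_mul_sum, ← sum_div]
    congr 1
    rw [sum_comm]
    refine sum_congr rfl fun i _ => ?_
    rw [sum_comm]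
    refine sum_congr rfl fun j _ => sum_congr rfl fun e _ => ?_
    have : pres V m (S j ∪ S i) e ↔ pres V m (S i) e ∧ pres V m (S j) e := by
      simp only [pres, mem_union, or_imp, forall_and, and_comm]
    by_cases a : pres V m (S i) e <;> by_cases b : pres V m (S j) e <;> simp [this, a, b]
  have h3 : ∀ e, 2 * K * X e ≤
      K ^ 2 * (if ∃ i ∈ I, pres V m (S i) e then (1 : ℝ) else 0) + X e * X e := by
    intro e
    split_ifs with he
    · nlinarith [sq_nonneg (K - X e)]
    · have : X e = 0 := sum_eq_zero fun i hi => if_neg fun h => he ⟨i, hi, h⟩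
      simp [this]
  have h4 := div_le_div_of_nonneg_right (sum_le_sum fun e (_ : e ∈ univ) => h3 e) (Om_pos V).le
  rw [sum_add_distrib, ← mul_sum, ← mul_sum, add_div, mul_div_assoc, mul_div_assoc] at h4
  rw [h1, PP]
  refine le_of_mul_le_mul_left ?_ hK
  have e : ∀ a b : Prop, ∀ (i : Decidable a) (j : Decidable a), @ite ℝ a i 1 0 = @ite ℝ a j 1 0 :=
    fun a _ i j => by rw [Subsingleton.elim i j]
  simp only [e _ True _ (Classical.propDecidable _)] at h4
  nlinarith

end abs

end Pool.Agent.H44.USF
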