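import Mathlib

open Finset

namespace Pool.Agent.H44.USF

structure Good {X : Type} [Fintype X] [DecidableEq X] (ng : X → X) (A : Matrix X X ℝ) (L : ℕ)
    (B Sp : Finset X) (ψ τ : X → ℕ) (P : ℕ) : Prop where
  inv : ∀ a, ng (ng a) = a
  A01 : ∀ a b, A a b = 0 ∨ A a b = 1
  hB : B.card ≤ 16 * L
  supp : ∀ a b, A a b ≠ 0 → a ∈ B ∧ b ∈ B
  ngB : ∀ a, ng a ∈ B ↔ a ∈ B
  symm : ∀ a b, A a b = A (ng b) (ng a)
  ψ1 : ∀ a, L ≤ ψ a
  ψ2 : ∀ a, ψ a ≤ 2 * L
  ψ3 : ∀ a, ∑ b, A a b * ψ b ≤ ψ a + 1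
  τ1 : ∀ a b, A a b ≠ 0 → τ b ≡ τ a + 1 [MOD P]
  hP : L ≤ P
  hS : Sp.card ≤ 2
  uniq : ∀ u ∉ Sp, ∀ x y, A x u ≠ 0 → A y u ≠ 0 → x = y
  hL : 3 ≤ L

variable {X : Type} [Fintype X] [DecidableEq X] {ng : X → X} {A : Matrix X X ℝ} {L : ℕ}
  {B Sp : Finset X} {ψ τ : X → ℕ} {P : ℕ}

noncomputable def rho (B : Finset X) (L : ℕ) (a : X) : ℝ := if a ∈ B then 108 * L else 1
def Ph (p : ℝ) (A : Matrix X X ℝ) : Matrix X X ℝ := fun a b => p + A a b
def Gh (M : Matrix X X ℝ) (L : ℕ) (a b : X) : ℝ := ∑ k ∈ Ico L (2 * L), (M ^ (k + 1)) a b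
def Lam (ng : X → X) (M : Matrix X X ℝ) (L : ℕ) (u : X) : ℝ :=
  ∑ x, ∑ y, if x ≠ ng y then M (ng u) x * Gh M L x y * M y u else 0

lemma pow_nn {M : Matrix X X ℝ} (h : ∀ a b, 0 ≤ M a b) (k : ℕ) (a b : X) : 0 ≤ (M ^ k) a b := by
  induction k generalizing a with
  | zero => simp only [pow_zero, Matrix.one_apply]; split_ifs <;> norm_num
  | succ k ih => rw [pow_succ', Matrix.mul_apply]; exact sum_nonneg fun c _ => mul_nonneg (h _ _) (ih _)

lemma row_succ (M : Matrix X X ℝ) (k : ℕ) (a : X) :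
    ∑ b, (M ^ (k + 1)) a b = ∑ c, M a c * ∑ b, (M ^ k) c b := by
  simp only [pow_succ', Matrix.mul_apply, mul_sum]; exact sum_comm

lemma g_le {L k : ℕ} (hL : 0 < L) (hk : k ≤ 3 * L) : (1 + 1 / (L : ℝ)) ^ k ≤ 27 := by
  have h0 : (0 : ℝ) < L := by exact_mod_cast hL
  calc _ ≤ Real.exp (1 / L) ^ k :=
        pow_le_pow_left₀ (by positivity) (by linarith [Real.add_one_le_exp (1 / (L : ℝ))]) k
    _ ≤ Real.exp 1 ^ 3 := by
        rw [← Real.exp_nat_mul, ← Real.exp_nat_mul]
        refine Real.exp_le_exp.2 ?_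
        rw [mul_one_div, div_le_iff₀ h0]; exact_mod_cast (by omega : k ≤ 3 * 1 * L)
    _ ≤ 3 ^ 3 := pow_le_pow_left₀ (by positivity) (by linarith [Real.exp_one_lt_d9]) 3
    _ = 27 := by norm_num

namespace Good
variable (H : Good ng A L B Sp ψ τ P)
include H

lemma A0 (a b : X) : 0 ≤ A a b := by rcases H.A01 a b with h | h <;> simp [h]
lemma L3 : (3 : ℝ) ≤ L := by exact_mod_cast H.hL
lemma rho1 (a : X) : 1 ≤ rho B L a ∧ rho B L a ≤ 108 * L := by
  unfold rho; have := H.L3; split_ifs <;> constructor <;> linarith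
lemma rho_ng (a : X) : rho B L (ng a) = rho B L a := by simp only [rho, H.ngB]
lemma sum_ng (f : X → ℝ) : ∑ a, f (ng a) = ∑ a, f a :=
  Equiv.sum_comp (Function.Involutive.toPerm ng H.inv) f

lemma step (a : X) : ∑ b, A a b * ψ b ≤ (1 + 1 / (L : ℝ)) * ψ a - (ψ a / L - 1) := by
  have := H.ψ3 a
  have := H.L3
  have e : (1 + 1 / (L : ℝ)) * ψ a - (ψ a / L - 1) = ψ a + 1 := by ring
  linarith

lemma lin {f : ℕ → X → ℝ} {h : ℝ} (h0 : 0 ≤ h) {N : ℕ} (hN : N ≤ 3 * L) (f0 : ∀ a, f 0 a ≤ h)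
    (fs : ∀ k < N, ∀ a, f (k + 1) a ≤ h + ∑ c, A a c * f k c) :
    ∀ k ≤ N, ∀ a, f k a ≤ h * rho B L a := by
  have hL := H.L3
  have p1 : ∀ a, (L : ℝ) ≤ ψ a := fun a => by exact_mod_cast H.ψ1 a
  have p2 : ∀ a, (ψ a : ℝ) ≤ 2 * L := fun a => by exact_mod_cast H.ψ2 a
  have g1 : ∀ k : ℕ, 1 ≤ (1 + 1 / (L : ℝ)) ^ k := fun k => one_le_pow₀ (by simp)
  have key : ∀ k ≤ N, ∀ a, f k a ≤ h * (2 * (1 + 1 / (L : ℝ)) ^ k - 1) * ψ a := by
    intro k hk
    induction k with
    | zero => intro a; have := f0 a; have := p1 a; simp only [pow_zero]; nlinarith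
    | succ k ih =>
      intro a
      set g := (1 + 1 / (L : ℝ)) ^ k with hg
      have a1 : ∑ c, A a c * f k c ≤ h * (2 * g - 1) * (ψ a + 1) := by
        refine le_trans (sum_le_sum fun c _ => mul_le_mul_of_nonneg_left (ih (by omega) c)
          (H.A0 a c)) (le_trans (le_of_eq ?_) (mul_le_mul_of_nonneg_left (H.ψ3 a)
            (mul_nonneg h0 (by linarith [g1 k]))))
        rw [mul_sum]; exact sum_congr rfl fun c _ => by ring
      have a2 : 1 ≤ (ψ a : ℝ) / L := (one_le_div (by linarith)).2 (p1 a)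
      have a3 : h * g * 1 ≤ h * g * (ψ a / L) :=
        mul_le_mul_of_nonneg_left a2 (mul_nonneg h0 (by linarith [g1 k]))
      have e : h * (2 * (g * (1 + 1 / (L : ℝ))) - 1) * ψ a =
          h * (2 * g - 1) * ψ a + 2 * (h * g * (ψ a / L)) := by ring
      rw [pow_succ, e]
      nlinarith [fs k (by omega) a]
  intro k hk a
  unfold rho
  split_ifs with ha
  · refine (key k hk a).trans ?_
    rw [mul_assoc]
    refine mul_le_mul_of_nonneg_left ?_ h0
    have := g_le (L := L) (k := k) (by have := H.hL; omega) (by omega)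
    nlinarith [p1 a, p2 a, g1 k]
  · rcases k with _ | k
    · simpa using f0 a
    · have := fs k (by omega) a
      rw [sum_eq_zero fun c _ => by
        rw [show A a c = 0 from by_contra fun h => ha (H.supp a c h).1, zero_mul]] at this
      linarith

lemma rowA {k : ℕ} (hk : k ≤ 3 * L) (a : X) : ∑ b, (A ^ k) a b ≤ 54 := by
  have hL := H.L3
  have p1 : ∀ a, (L : ℝ) ≤ ψ a := fun a => by exact_mod_cast H.ψ1 a
  have key : ∀ k : ℕ, ∀ a, L * ∑ b, (A ^ k) a b ≤ (1 + 1 / (L : ℝ)) ^ k * ψ a := by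
    intro k
    induction k with
    | zero => intro a; simpa [Matrix.one_apply] using p1 a
    | succ k ih =>
      intro a
      have a2 : 1 ≤ (ψ a : ℝ) / L := (one_le_div (by linarith)).2 (p1 a)
      rw [row_succ, mul_sum, pow_succ, mul_assoc]
      refine le_trans (sum_le_sum fun c _ => ?_) ((mul_sum _ _ _).symm.le.trans
        (mul_le_mul_of_nonneg_left ((H.step a).trans (by linarith)) (by positivity)))
      have := mul_le_mul_of_nonneg_left (ih c) (H.A0 a c)
      linarith
  have h1 := key k a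
  have h2 := g_le (L := L) (by have := H.hL; omega) hk
  have p2 : (ψ a : ℝ) ≤ 2 * L := by exact_mod_cast H.ψ2 a
  refine le_of_mul_le_mul_left (h1.trans ?_) (show (0 : ℝ) < L by linarith)
  nlinarith [p1 a]

lemma grade (k : ℕ) (a b : X) (h : (A ^ k) a b ≠ 0) :
    τ b ≡ τ a + k [MOD P] ∧ (0 < k → a ∈ B ∧ b ∈ B) := by
  induction k generalizing a with
  | zero =>
    obtain rfl : a = b := by_contra fun e => h (by simp [e])
    exact ⟨rfl, fun h => absurd h (lt_irrefl _)⟩
  | succ k ih =>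
    rw [pow_succ', Matrix.mul_apply] at h
    obtain ⟨c, -, hc⟩ := exists_ne_zero_of_sum_ne_zero h
    have h1 := left_ne_zero_of_mul hc
    have h2 := right_ne_zero_of_mul hc
    refine ⟨(ih c h2).1.trans ?_, fun _ => ⟨(H.supp a c h1).1, ?_⟩⟩
    · rw [add_comm k, ← add_assoc]; exact (H.τ1 a c h1).add_right k
    · rcases k with _ | k
      · obtain rfl : c = b := by_contra fun e => h2 (by simp [e])
        exact (H.supp a c h1).2
      · exact ((ih c h2).2 (by omega)).2

lemma win {j : ℕ} (h1 : 1 ≤ j) (h3 : j ≤ 3) (a b : X) : ∑ k ∈ Ico L (2 * L), (A ^ (k + j)) a b ≤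
    54 * ((if a ∈ B then 1 else 0) * if b ∈ B then 1 else 0) := by
  by_cases h : ∃ k ∈ Ico L (2 * L), (A ^ (k + j)) a b ≠ 0
  · obtain ⟨k, hk, h⟩ := h
    have hg := H.grade _ _ _ h
    have hL := H.hL
    have hP := H.hP
    rw [mem_Ico] at hk
    rw [sum_eq_single k (fun l hl hlk => by_contra fun h' => hlk ?_) (by simp [hk]),
      if_pos (hg.2 (by omega)).1, if_pos (hg.2 (by omega)).2, mul_one, mul_one]
    · exact (single_le_sum (fun c _ => pow_nn H.A0 _ a c) (mem_univ b)).trans (H.rowA (by omega) a)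
    · have := Nat.ModEq.add_right_cancel' j (Nat.ModEq.add_left_cancel' _
        ((H.grade _ _ _ h').1.symm.trans hg.1))
      rw [mem_Ico] at hl
      exact this.eq_of_abs_lt (by rw [abs_lt]; constructor <;> omega)
  · push Not at h
    rw [sum_eq_zero h]
    split_ifs <;> norm_num

variable {p : ℝ} (hp : 0 ≤ p) (hpN : p * Fintype.card X ≤ 1) (hpL : p * L ^ 3 ≤ 1)
  (hN : 600000 * (L : ℝ) ^ 3 ≤ Fintype.card X)
include hp

lemma Ph0 (a b : X) : 0 ≤ Ph p A a b := add_nonneg hp (H.A0 a b)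

omit hp in
lemma Ph_symm (k : ℕ) (a b : X) : (Ph p A ^ k) a b = (Ph p A ^ k) (ng b) (ng a) := by
  induction k generalizing a with
  | zero =>
    simp only [pow_zero, Matrix.one_apply]
    exact if_congr ⟨fun h => by rw [h], fun h => by rw [← H.inv a, ← h, H.inv]⟩ rfl rfl
  | succ k ih =>
    conv_rhs => rw [pow_succ, Matrix.mul_apply, ← H.sum_ng]
    rw [pow_succ', Matrix.mul_apply]
    exact sum_congr rfl fun c _ => by rw [ih c, mul_comm, Ph, Ph, H.symm a c]

include hpN hN

lemma row : ∀ k ≤ 3 * L, ∀ a, ∑ b, (Ph p A ^ k) a b ≤ 2 * rho B L a := by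
  have hL := H.L3
  set T : ℕ → ℝ := fun k => ∑ a, ∑ b, (Ph p A ^ k) a b
  have rs : ∀ k a, ∑ b, (Ph p A ^ (k + 1)) a b = p * T k + ∑ c, A a c * ∑ b, (Ph p A ^ k) c b := by
    intro k a
    simp only [row_succ, Ph, add_mul, sum_add_distrib, T, ← mul_sum]
  have use : ∀ k ≤ 3 * L, (∀ j < k, T j ≤ Fintype.card X + j * (186624 * L ^ 2)) →
      ∀ a, ∑ b, (Ph p A ^ k) a b ≤ 2 * rho B L a := fun k hk h =>
    H.lin (f := fun k a => ∑ b, (Ph p A ^ k) a b) two_pos.le hk
      (fun a => by simp [Matrix.one_apply]) (fun j hj a => by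
        have h1 := h j hj
        have h2 : (j : ℝ) ≤ 3 * L := by exact_mod_cast (by omega : j ≤ 3 * L)
        have h3 : T j ≤ 2 * Fintype.card X := by nlinarith [sq_nonneg (L : ℝ)]
        simp only [rs]
        nlinarith) k le_rfl
  have hT : ∀ k ≤ 3 * L, ∀ j ≤ k, T j ≤ Fintype.card X + j * (186624 * L ^ 2) := by
    intro k
    induction k with
    | zero => intro _ j hj; obtain rfl := Nat.le_zero.1 hj; simp [T, Matrix.one_apply]
    | succ k ih =>
      intro hk j hj
      rcases Nat.lt_or_eq_of_le hj with h | rfl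
      · exact ih (by omega) j (by omega)
      have h1 := use k (by omega) fun j hj => ih (by omega) j hj.le
      have h2 := ih (by omega) k le_rfl
      have h3 : ∀ a, ∑ c, A a c * ∑ b, (Ph p A ^ k) c b ≤ if a ∈ B then 54 * (216 * (L : ℝ)) else 0 := by
        intro a
        split_ifs with ha
        · have := H.rowA (k := 1) (by have := H.hL; omega) a
          rw [pow_one] at this
          refine le_trans (sum_le_sum fun c _ => mul_le_mul_of_nonneg_left ((h1 c).trans
            (show _ ≤ 216 * (L : ℝ) by linarith [(H.rho1 c).2])) (H.A0 a c)) ?_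
          rw [← sum_mul]
          exact mul_le_mul_of_nonneg_right this (by linarith)
        · exact (sum_eq_zero fun c _ => by
            rw [show A a c = 0 from by_contra fun h => ha (H.supp a c h).1, zero_mul]).le
      have h4 := sum_le_sum fun a (_ : a ∈ univ) => h3 a
      rw [← sum_filter, filter_mem_eq_inter, univ_inter, sum_const, nsmul_eq_mul] at h4
      have h5 : (B.card : ℝ) ≤ 16 * L := by exact_mod_cast H.hB
      have h6 : 0 ≤ T k := sum_nonneg fun a _ => sum_nonneg fun b _ => pow_nn (H.Ph0 hp) _ _ _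
      have h7 : T (k + 1) = Fintype.card X * (p * T k) + ∑ a, ∑ c, A a c * ∑ b, (Ph p A ^ k) c b := by
        simp only [T, rs, sum_add_distrib, sum_const, card_univ, nsmul_eq_mul]
      push_cast
      nlinarith
  exact fun k hk => use k hk fun j hj => hT k hk j hj.le

lemma col {k : ℕ} (hk : k ≤ 3 * L) (b : X) : ∑ a, (Ph p A ^ k) a b ≤ 2 * rho B L b := by
  rw [← H.rho_ng, sum_congr rfl fun a _ => H.Ph_symm k a b,
    H.sum_ng fun a => (Ph p A ^ k) (ng b) a]
  exact H.row hp hpN hN k hk _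

lemma ent {k : ℕ} (hk : k ≤ 3 * L) (a b : X) :
    (Ph p A ^ k) a b ≤ (A ^ k) a b + p * (2 * rho B L b) * rho B L a := by
  have h0 : 0 ≤ p * (2 * rho B L b) := mul_nonneg hp (by linarith [(H.rho1 b).1])
  have := H.lin (f := fun k a => (Ph p A ^ k) a b - (A ^ k) a b) h0 hk (fun a => by simpa using h0)
    (fun j hj a => by
      have := mul_le_mul_of_nonneg_left (H.col hp hpN hN (k := j) (by omega) b) hp
      simp only [pow_succ', Matrix.mul_apply, Ph, add_mul, sum_add_distrib, mul_sub,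
        sum_sub_distrib, ← mul_sum] at this ⊢
      linarith) k le_rfl a
  linarith

lemma winP {j : ℕ} (h1 : 1 ≤ j) (h3 : j ≤ 3) (a b : X) :
    ∑ k ∈ Ico L (2 * L), (Ph p A ^ (k + j)) a b ≤
      54 * ((if a ∈ B then 1 else 0) * if b ∈ B then 1 else 0) +
        2 * L * p * (rho B L a * rho B L b) := by
  refine (sum_le_sum fun k hk => H.ent hp hpN hN
    (by have := H.hL; have := mem_Ico.1 hk; omega) a b).trans ?_
  rw [sum_add_distrib, sum_const, Nat.card_Ico, show 2 * L - L = L by omega, nsmul_eq_mul]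
  linarith [H.win h1 h3 a b]

include hpL

lemma lam (u : X) : Lam ng (Ph p A) L u ≤ 4 * p * L * rho B L u + if u ∈ Sp then 30000 else 0 := by
  have h0 := H.Ph0 hp
  have hG : ∀ x y, 0 ≤ Gh (Ph p A) L x y := fun x y => sum_nonneg fun k _ => pow_nn h0 _ _ _
  have hL := H.L3
  have hr := H.rho1 u
  have hq : 0 ≤ 4 * p * L * rho B L u := by have := hr.1; positivity
  split_ifs with hu
  · calc _ ≤ ∑ x, ∑ y, Ph p A (ng u) x * Gh (Ph p A) L x y * Ph p A y u :=
          sum_le_sum fun x _ => sum_le_sum fun y _ => by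
            split_ifs
            · exact le_rfl
            · exact mul_nonneg (mul_nonneg (h0 _ _) (hG _ _)) (h0 _ _)
      _ = ∑ k ∈ Ico L (2 * L), (Ph p A ^ (k + 3)) (ng u) u := by
          simp only [Gh, mul_sum, sum_mul]
          rw [sum_comm]
          simp only [sum_comm (t := Ico L (2 * L))]
          refine sum_congr rfl fun k _ => ?_
          rw [pow_succ (Ph p A) (k + 2), pow_succ' (Ph p A) (k + 1)]
          simp only [Matrix.mul_apply, sum_mul]
      _ ≤ _ := by
          refine (H.winP hp hpN hN (by norm_num) le_rfl _ _).trans ?_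
          rw [H.rho_ng]
          have a1 : rho B L u * rho B L u ≤ 108 * L * (108 * L) :=
            mul_le_mul hr.2 hr.2 (by linarith [hr.1]) (by linarith)
          have a2 := mul_le_mul_of_nonneg_left a1 (show 0 ≤ 2 * L * p by positivity)
          split_ifs <;> nlinarith
  · calc _ ≤ ∑ x, ∑ y, (p * (Gh (Ph p A) L x y * Ph p A y u) +
            p * (Ph p A (ng u) x * Gh (Ph p A) L x y)) :=
          sum_le_sum fun x _ => sum_le_sum fun y _ => by
            have b1 := mul_nonneg hp (mul_nonneg (hG x y) (h0 y u))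
            have b2 := mul_nonneg hp (mul_nonneg (h0 (ng u) x) (hG x y))
            split_ifs with hxy
            · by_cases c1 : A y u = 0
              · rw [show Ph p A y u = p by simp [Ph, c1]] at b1 ⊢; linarith
              · have c2 : A (ng u) x = 0 := by_contra fun c2 => hxy (by
                  rw [H.symm, H.inv] at c2
                  rw [H.uniq u hu _ _ c1 c2, H.inv])
                rw [show Ph p A (ng u) x = p by simp [Ph, c2]] at b2 ⊢; linarith
            · linarith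
      _ = p * ∑ k ∈ Ico L (2 * L), ∑ x, (Ph p A ^ (k + 2)) x u +
            p * ∑ k ∈ Ico L (2 * L), ∑ y, (Ph p A ^ (k + 2)) (ng u) y := by
          simp only [sum_add_distrib, ← mul_sum]
          congr 2
          · simp only [Gh, sum_mul, sum_comm (t := Ico L (2 * L))]
            exact sum_congr rfl fun k _ => sum_congr rfl fun x _ => by
              rw [pow_succ (Ph p A) (k + 1), Matrix.mul_apply]
          · simp only [Gh, ← mul_sum, row_succ (Ph p A) (_ + 1)]
            simp only [mul_sum, sum_comm (t := Ico L (2 * L))]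
      _ ≤ p * (L * (2 * rho B L u)) + p * (L * (2 * rho B L u)) := by
          have hh : ∀ f : ℕ → ℝ, (∀ k, k + 2 ≤ 3 * L → f k ≤ 2 * rho B L u) →
              p * ∑ k ∈ Ico L (2 * L), f k ≤ p * (L * (2 * rho B L u)) := fun f hf => by
            refine mul_le_mul_of_nonneg_left ((sum_le_card_nsmul _ _ _ fun k hk => hf k
              (by have := H.hL; have := mem_Ico.1 hk; omega)).trans (le_of_eq ?_)) hp
            rw [Nat.card_Ico, show 2 * L - L = L by omega, nsmul_eq_mul]
          exact add_le_add (hh _ fun k hk => H.col hp hpN hN hk u)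
            (hh _ fun k hk => by rw [← H.rho_ng]; exact H.row hp hpN hN _ hk _)
      _ ≤ _ := by linarith

theorem total : ∑ u, ∑ v, Lam ng (Ph p A) L u * Gh (Ph p A) L u v * Lam ng (Ph p A) L (ng v) ≤
    10 ^ 15 := by
  have h0 := H.Ph0 hp
  have hG : ∀ x y, 0 ≤ Gh (Ph p A) L x y := fun x y => sum_nonneg fun k _ => pow_nn h0 _ _ _
  have hL := H.L3
  set l : X → ℝ := fun u => 4 * p * L * rho B L u + if u ∈ Sp then 30000 else 0 with hl
  have l0 : ∀ u, 0 ≤ l u := fun u => by
    have := (H.rho1 u).1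
    simp only [hl]; split_ifs <;> positivity
  have hB : (B.card : ℝ) ≤ 16 * L := by exact_mod_cast H.hB
  have hS : (Sp.card : ℝ) ≤ 2 := by exact_mod_cast H.hS
  have ind : ∀ (T : Finset X) (c : ℝ), ∑ u, (if u ∈ T then c else 0) = T.card * c := fun T c => by
    rw [← sum_filter, filter_mem_eq_inter, univ_inter, sum_const, nsmul_eq_mul]
  set S1 := ∑ u, l u * if u ∈ B then 1 else 0
  set S2 := ∑ u, l u * rho B L u
  have s1 : S1 ≤ 70000 := by
    have : S1 ≤ ∑ u, ((if u ∈ B then 432 * p * L ^ 2 else 0) + if u ∈ Sp then 30000 else 0) :=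
      sum_le_sum fun u _ => by simp only [hl, rho]; split_ifs <;> nlinarith
    rw [sum_add_distrib, ind, ind] at this
    nlinarith [mul_le_mul_of_nonneg_right hB (show 0 ≤ 432 * p * L ^ 2 by positivity)]
  have s2 : S2 ≤ 10 ^ 7 * L := by
    have : S2 ≤ ∑ u, (4 * p * L + (if u ∈ B then 46656 * p * L ^ 3 else 0) +
        if u ∈ Sp then 3240000 * (L : ℝ) else 0) := sum_le_sum fun u _ => by
      have : 0 ≤ p * L := by positivity
      simp only [hl, rho]; split_ifs <;> nlinarith
    rw [sum_add_distrib, sum_add_distrib, ind, ind, sum_const, card_univ, nsmul_eq_mul] at this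
    nlinarith [mul_le_mul_of_nonneg_right hB (show 0 ≤ 46656 * p * L ^ 3 by positivity)]
  have s10 : 0 ≤ S1 := sum_nonneg fun u _ => mul_nonneg (l0 u) (by split_ifs <;> norm_num)
  have s20 : 0 ≤ S2 := sum_nonneg fun u _ => mul_nonneg (l0 u) (by linarith [(H.rho1 u).1])
  have lam0 : ∀ u, 0 ≤ Lam ng (Ph p A) L u := fun u => sum_nonneg fun x _ => sum_nonneg fun y _ => by
    split_ifs
    · exact mul_nonneg (mul_nonneg (h0 _ _) (hG _ _)) (h0 _ _)
    · exact le_rfl
  calc _ ≤ ∑ u, ∑ v, (54 * ((l u * if u ∈ B then 1 else 0) * (l (ng v) * if ng v ∈ B then 1 else 0)) +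
        2 * L * p * (l u * rho B L u * (l (ng v) * rho B L (ng v)))) := by
        refine sum_le_sum fun u _ => sum_le_sum fun v _ => ?_
        refine (mul_le_mul (mul_le_mul (H.lam hp hpN hpL hN u) (H.winP hp hpN hN le_rfl
          (by norm_num) u v) (hG u v) (l0 u)) (H.lam hp hpN hpL hN (ng v)) (lam0 _)
          (mul_nonneg (l0 u) ((hG u v).trans (H.winP hp hpN hN le_rfl (by norm_num) u v)))).trans
          (le_of_eq ?_)
        simp only [hl, H.rho_ng, H.ngB]; ring
    _ = 54 * (S1 * S1) + 2 * L * p * (S2 * S2) := by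
        simp only [sum_add_distrib, ← mul_sum, ← sum_mul]
        rw [H.sum_ng fun v => l v * if v ∈ B then 1 else 0, H.sum_ng fun v => l v * rho B L v]
    _ ≤ _ := by
        have a1 := mul_le_mul s1 s1 s10 (by norm_num)
        have a2 := mul_le_mul s2 s2 s20 (by positivity)
        have a3 := mul_le_mul_of_nonneg_left a2 (show 0 ≤ 2 * L * p by positivity)
        nlinarith

end Good

end Pool.Agent.H44.USF
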