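import Pool.Agent.H44.USF1
import Pool.Agent.H44.USF2

open Finset

namespace Pool.Agent.H44.USF

abbrev Lit (n : ℕ) := Fin n × Bool
variable {n : ℕ}

def ng (u : Lit n) : Lit n := (u.1, !u.2)
def im (u v : Lit n) : Finset (Lit n) := {ng u, v}
abbrev Val (c : Finset (Lit n)) : Prop := c.card = 2 ∧ (c.image Prod.fst).card = 2

lemma ng_ng (u : Lit n) : ng (ng u) = u := by simp [ng]
lemma ng_ne (u : Lit n) : ng u ≠ u := fun h => by simpa [ng] using congrArg Prod.snd h
lemma ng_inj {u v : Lit n} (h : ng u = ng v) : u = v := by rw [← ng_ng u, h, ng_ng]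
lemma im_symm (u v : Lit n) : im (ng v) (ng u) = im u v := by rw [im, im, ng_ng, pair_comm]
lemma im_eq {u v x y : Lit n} (h : im u v = im x y) : u = x ∧ v = y ∨ u = ng y ∧ v = ng x := by
  have := congrArg (fun s : Finset (Lit n) => (s : Set (Lit n))) h
  simp only [im, coe_insert, coe_singleton, Set.pair_eq_pair_iff] at this
  rcases this with h | h
  · exact Or.inl ⟨ng_inj h.1, h.2⟩
  · exact Or.inr ⟨by rw [← h.1, ng_ng], h.2⟩
lemma val_pair {u v : Lit n} (h : u.1 ≠ v.1) : Val {u, v} :=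
  ⟨card_pair fun e => h (congrArg _ e), by rw [image_insert, image_singleton, card_pair h]⟩

structure DB (w : ℕ → Lit n) (a b s L : ℕ) : Prop where
  inj : ∀ i j, 1 ≤ i → i ≤ s → 1 ≤ j → j ≤ s → (w i).1 = (w j).1 → i = j
  w0 : w 0 = ng (w a)
  ws : w (s + 1) = ng (w b)
  h1 : L + 1 ≤ a
  h2 : a + L ≤ b
  h3 : b + L ≤ s
  h4 : s ≤ 8 * L
  hL : 3 ≤ L

def CL (w : ℕ → Lit n) (s : ℕ) : List (Finset (Lit n)) :=
  (List.range (s + 1)).map fun i => im (w i) (w (i + 1))

noncomputable def AA (S : Finset (Finset (Lit n))) : Matrix (Lit n) (Lit n) ℝ :=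
  fun u v => if im u v ∈ S then 1 else 0

namespace DB
variable {w : ℕ → Lit n} {a b s L : ℕ} (H : DB w a b s L)
include H

lemma ix {i j : ℕ} (hi : i ≤ s + 1) (hj : j ≤ s + 1) (h : (w i).1 = (w j).1) :
    (if i = 0 then a else if i = s + 1 then b else i) =
      if j = 0 then a else if j = s + 1 then b else j := by
  have e : ∀ i, (w i).1 = (w (if i = 0 then a else if i = s + 1 then b else i)).1 := fun i => by
    split_ifs with h1 h2
    · rw [h1, H.w0]; rfl
    · rw [h2, H.ws]; rfl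
    · rfl
  have := H.h1; have := H.h2; have := H.h3
  refine H.inj _ _ ?_ ?_ ?_ ?_ ((e i).symm.trans (h.trans (e j))) <;> split_ifs <;> omega

lemma nodup : (CL w s).Nodup := by
  refine List.Nodup.map_on (fun i hi j hj h => ?_) List.nodup_range
  rw [List.mem_range] at hi hj
  have := H.h1; have := H.h2; have := H.h3; have := H.hL
  rcases im_eq h with ⟨h1, h2⟩ | ⟨h1, h2⟩
  · have a1 := H.ix (by omega) (by omega) (congrArg Prod.fst h1 :)
    have a2 := H.ix (by omega) (by omega) (congrArg Prod.fst h2 :)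
    split_ifs at a1 a2 <;> first | contradiction | omega
  · have a1 := H.ix (i := i) (j := j + 1) (by omega) (by omega) (congrArg Prod.fst h1 :)
    have a2 := H.ix (i := i + 1) (j := j) (by omega) (by omega) (congrArg Prod.fst h2 :)
    split_ifs at a1 a2 <;> first | contradiction | omega

lemma val : ∀ c ∈ (CL w s).toFinset, Val c := by
  intro c hc
  obtain ⟨i, hi, rfl⟩ := List.mem_map.1 (List.mem_toFinset.1 hc)
  rw [List.mem_range] at hi
  refine val_pair fun h => ?_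
  have := H.h1; have := H.h2; have := H.h3; have := H.hL
  have a1 := H.ix (i := i) (j := i + 1) (by omega) (by omega) h
  split_ifs at a1 <;> first | contradiction | omega

lemma unsat (t : Fin n → Bool) : ¬ ∀ c ∈ (CL w s).toFinset, ∃ l ∈ c, t l.1 = l.2 := by
  intro h
  have ne : ∀ u : Lit n, t (ng u).1 = (ng u).2 ↔ ¬ t u.1 = u.2 := fun u => by
    simp only [ng]; cases t u.1 <;> cases u.2 <;> simp
  have ch : ∀ i j, i ≤ j → j ≤ s + 1 → t (w i).1 = (w i).2 → t (w j).1 = (w j).2 := by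
    intro i j hij hj hi
    induction j, hij using Nat.le_induction with
    | base => exact hi
    | succ j _ ih =>
      obtain ⟨l, hl, ht⟩ := h _ (List.mem_toFinset.2 (List.mem_map.2
        ⟨j, List.mem_range.2 (by omega), rfl⟩))
      rcases mem_insert.1 hl with rfl | hl
      · exact absurd (ih (by omega)) ((ne _).1 ht)
      · rwa [← mem_singleton.1 hl]
  have := H.h2; have := H.h3
  have h1 : t (w a).1 = (w a).2 := by_contra fun h => h (ch 0 a (by omega) (by omega)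
    (by rw [H.w0]; exact (ne _).2 h))
  have h2 := ch a (s + 1) (by omega) le_rfl h1
  rw [H.ws] at h2
  exact (ne _).1 h2 (ch a b (by omega) (by omega) h1)

lemma out {u v : Lit n} (h : AA (CL w s).toFinset u v ≠ 0) : ∃ i, 1 ≤ i ∧ i ≤ s ∧
    (u = w i ∧ (v = w (i + 1) ∨ i = b ∧ v = ng (w s)) ∨
      u = ng (w i) ∧ (v = ng (w (i - 1)) ∨ i = a ∧ v = w 1)) := by
  have h1 : im u v ∈ (CL w s).toFinset := by_contra fun c => h (if_neg c)
  obtain ⟨i, hi, e⟩ := List.mem_map.1 (List.mem_toFinset.1 h1)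
  rw [List.mem_range] at hi
  have := H.h1; have := H.h2; have := H.h3
  rcases im_eq e.symm with ⟨h1, h2⟩ | ⟨h1, h2⟩
  · rcases Nat.eq_zero_or_pos i with rfl | h0
    · exact ⟨a, by omega, by omega, Or.inr ⟨h1.trans H.w0, Or.inr ⟨rfl, h2⟩⟩⟩
    · exact ⟨i, h0, by omega, Or.inl ⟨h1, Or.inl h2⟩⟩
  · rcases Nat.lt_or_eq_of_le (Nat.lt_succ_iff.1 hi) with h0 | h0
    · exact ⟨i + 1, by omega, h0, Or.inr ⟨h1, Or.inl h2⟩⟩
    · rw [h0] at h1 h2
      rw [H.ws, ng_ng] at h1
      exact ⟨b, by omega, by omega, Or.inl ⟨h1, Or.inr ⟨rfl, h2⟩⟩⟩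

lemma outP {i : ℕ} (h1 : 1 ≤ i) (h2 : i ≤ s) {v : Lit n} (h : AA (CL w s).toFinset (w i) v ≠ 0) :
    v = w (i + 1) ∨ i = b ∧ v = ng (w s) := by
  obtain ⟨j, a1, a2, ⟨e, h⟩ | ⟨e, h⟩⟩ := H.out h
  · rwa [H.inj i j h1 h2 a1 a2 (congrArg Prod.fst e :)]
  · rw [H.inj i j h1 h2 a1 a2 (congrArg Prod.fst e :)] at e
    exact absurd e.symm (ng_ne _)

lemma outN {i : ℕ} (h1 : 1 ≤ i) (h2 : i ≤ s) {v : Lit n}
    (h : AA (CL w s).toFinset (ng (w i)) v ≠ 0) : v = ng (w (i - 1)) ∨ i = a ∧ v = w 1 := by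
  obtain ⟨j, a1, a2, ⟨e, h⟩ | ⟨e, h⟩⟩ := H.out h
  · rw [H.inj i j h1 h2 a1 a2 (congrArg Prod.fst e :)] at e
    exact absurd e (ng_ne _)
  · rwa [H.inj i j h1 h2 a1 a2 (congrArg Prod.fst e :)]

lemma lift (f g : ℕ → ℕ) : ∃ G : Lit n → ℕ,
    (∀ i, 1 ≤ i → i ≤ s → G (w i) = f i ∧ G (ng (w i)) = g i) ∧ ∀ u, ∃ i, G u = f i ∨ G u = g i := by
  set pos := Function.invFunOn (fun i => (w i).1) (Set.Icc 1 s)
  have hp : ∀ i, 1 ≤ i → i ≤ s → pos (w i).1 = i := fun i h1 h2 =>
    Set.InjOn.leftInvOn_invFunOn (f := fun i => (w i).1) (s := Set.Icc 1 s)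
      (fun i hi j hj => H.inj i j hi.1 hi.2 hj.1 hj.2) ⟨h1, h2⟩
  refine ⟨fun u => if u = w (pos u.1) then f (pos u.1) else g (pos u.1), fun i h1 h2 => ⟨?_, ?_⟩,
    fun u => ⟨pos u.1, ?_⟩⟩
  · simp only [hp i h1 h2, if_true]
  · have : (ng (w i)).1 = (w i).1 := rfl
    simp only [this, hp i h1 h2, if_neg (ng_ne _)]
  · dsimp only; split_ifs <;> simp

omit H in
lemma two {S : Finset (Finset (Lit n))} (ψ : Lit n → ℕ) {u x y : Lit n} {q : Prop} [Decidable q]
    (h : ∀ v, AA S u v ≠ 0 → v = x ∨ q ∧ v = y) :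
    ∑ v, AA S u v * ψ v ≤ (ψ x + if q then ψ y else 0 : ℕ) := by
  calc _ ≤ ∑ v, ((if v = x then (ψ x : ℝ) else 0) + if v = y then ((if q then ψ y else 0 : ℕ) : ℝ)
        else 0) := sum_le_sum fun v _ => by
        by_cases c : AA S u v = 0
        · rw [c, zero_mul]; positivity
        have e : AA S u v = 1 := if_pos (by_contra fun d => c (if_neg d))
        rw [e, one_mul]
        rcases h v c with rfl | ⟨hq, rfl⟩
        · rw [if_pos rfl]; exact le_add_of_nonneg_right (by positivity)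
        · rw [if_pos rfl, if_pos hq]; exact le_add_of_nonneg_left (by positivity)
    _ = _ := by simp [sum_add_distrib]

lemma good : ∃ B Sp ψ τ P, Good ng (AA (CL w s).toFinset) L B Sp ψ τ P := by
  have := H.h1; have := H.h2; have := H.h3; have := H.hL; have := H.h4
  obtain ⟨ψ, p1, p2⟩ := H.lift (fun i => if i ≤ b then max L (2 * L - (b - i)) else L)
    fun i => if a ≤ i then max L (2 * L - (i - a)) else L
  obtain ⟨τ, t1, -⟩ := H.lift (fun i => i) fun i => if a ≤ i then b + 1 + s - i else a - i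
  set B := (Icc 1 s).image w ∪ (Icc 1 s).image fun i => ng (w i)
  have mB : ∀ u, u ∈ B ↔ ∃ i, 1 ≤ i ∧ i ≤ s ∧ (u = w i ∨ u = ng (w i)) := fun u => by
    simp only [B, mem_union, mem_image, mem_Icc, and_or_left, exists_or, and_assoc, eq_comm]
  have nB : ∀ u, u ∈ B → ng u ∈ B := fun u hu => by
    obtain ⟨i, a1, a2, rfl | rfl⟩ := (mB u).1 hu
    · exact (mB _).2 ⟨i, a1, a2, Or.inr rfl⟩
    · exact (mB _).2 ⟨i, a1, a2, Or.inl (ng_ng _)⟩
  have sy : ∀ u v, AA (CL w s).toFinset u v = AA (CL w s).toFinset (ng v) (ng u) := fun u v => by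
    simp only [AA, im_symm]
  have sB : ∀ u v, AA (CL w s).toFinset u v ≠ 0 → u ∈ B := fun u v h => by
    obtain ⟨i, a1, a2, h⟩ := H.out h
    exact (mB _).2 ⟨i, a1, a2, h.imp And.left And.left⟩
  have nx : ∀ (G : Lit n → ℕ) (f g : ℕ → ℕ),
      (∀ i, 1 ≤ i → i ≤ s → G (w i) = f i ∧ G (ng (w i)) = g i) → ∀ i, 1 ≤ i → i ≤ s →
      G (w (i + 1)) = (if i = s then g b else f (i + 1)) ∧
        G (ng (w (i - 1))) = if i = 1 then f a else g (i - 1) := by
    intro G f g h i h1 h2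
    constructor <;> split_ifs with c
    · rw [c, H.ws, (h b (by omega) (by omega)).2]
    · exact (h _ (by omega) (by omega)).1
    · rw [c, Nat.sub_self, H.w0, ng_ng, (h a (by omega) (by omega)).1]
    · exact (h _ (by omega) (by omega)).2
  refine ⟨B, {w a, ng (w b)}, ψ, τ, b + 1 + s - a, ng_ng, fun u v => ?_, ?_, fun u v h => ⟨sB _ _ h, ?_⟩,
    fun u => ⟨fun h => ng_ng u ▸ nB _ h, nB u⟩, sy, fun u => ?_, fun u => ?_, fun u => ?_,
    fun u v h => ?_, by omega, card_le_two, fun u hu x y hx hy => ?_, H.hL⟩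
  · unfold AA; split_ifs <;> simp
  · refine (card_union_le _ _).trans ((add_le_add card_image_le card_image_le).trans ?_)
    rw [Nat.card_Icc]; omega
  · rw [sy] at h
    exact ng_ng v ▸ nB _ (sB _ _ h)
  · obtain ⟨i, h | h⟩ := p2 u <;> rw [h] <;> split_ifs <;> omega
  · obtain ⟨i, h | h⟩ := p2 u <;> rw [h] <;> split_ifs <;> omega
  · by_cases hu : u ∈ B
    · obtain ⟨i, a1, a2, rfl | rfl⟩ := (mB u).1 hu
      · refine (two ψ fun v => H.outP a1 a2).trans ?_
        rw [(nx _ _ _ p1 i a1 a2).1, (p1 i a1 a2).1, (p1 s (by omega) le_rfl).2]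
        norm_cast
        split_ifs <;> omega
      · refine (two ψ fun v => H.outN a1 a2).trans ?_
        rw [(nx _ _ _ p1 i a1 a2).2, (p1 i a1 a2).2, (p1 1 le_rfl (by omega)).1]
        norm_cast
        split_ifs <;> omega
    · rw [sum_eq_zero fun v _ => by
        rw [show AA (CL w s).toFinset u v = 0 from by_contra fun h => hu (sB _ _ h), zero_mul]]
      positivity
  · have key : τ v = τ u + 1 ∨ τ u + 1 = τ v + (b + 1 + s - a) := by
      obtain ⟨i, a1, a2, ⟨rfl, rfl | ⟨rfl, rfl⟩⟩ | ⟨rfl, rfl | ⟨rfl, rfl⟩⟩⟩ := H.out h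
      · rw [(nx _ _ _ t1 i a1 a2).1, (t1 i a1 a2).1]; split_ifs <;> omega
      · rw [(t1 s (by omega) le_rfl).2, (t1 i a1 a2).1]; split_ifs <;> omega
      · rw [(nx _ _ _ t1 i a1 a2).2, (t1 i a1 a2).2]; split_ifs <;> omega
      · rw [(t1 1 le_rfl (by omega)).1, (t1 i a1 a2).2]; split_ifs <;> omega
    rcases key with e | e <;> rw [e]
    exact Nat.add_modEq_right.symm
  · rw [sy] at hx hy
    rw [mem_insert, mem_singleton, not_or] at hu
    obtain ⟨i, a1, a2, e | e⟩ := (mB _).1 (sB _ _ hx) <;> rw [e] at hx hy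
    · have c : i ≠ b := fun c => hu.2 (by rw [← c, ← e, ng_ng])
      exact ng_inj (((H.outP a1 a2 hx).resolve_right fun h => c h.1).trans
        ((H.outP a1 a2 hy).resolve_right fun h => c h.1).symm)
    · have c : i ≠ a := fun c => hu.1 (by rw [← c, ng_inj e])
      exact ng_inj (((H.outN a1 a2 hx).resolve_right fun h => c h.1).trans
        ((H.outN a1 a2 hy).resolve_right fun h => c h.1).symm)

end DB

end Pool.Agent.H44.USF
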