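import Pool.Agent.H44.USF3

open Finset

namespace Pool.Agent.H44.USF

section lists
variable {X : Type} [Fintype X] [DecidableEq X]

def lists : ℕ → Finset (List X)
  | 0 => {[]}
  | k + 1 => (univ ×ˢ lists k).image fun z => z.1 :: z.2

lemma mem_lists {k : ℕ} {l : List X} : l ∈ lists k ↔ l.length = k := by
  induction k generalizing l with
  | zero => simp [lists]
  | succ k ih => cases l <;> simp [lists, ih]

lemma sum_succ (k : ℕ) (f : List X → ℝ) :
    ∑ l ∈ lists (k + 1), f l = ∑ a, ∑ l ∈ lists k, f (a :: l) := by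
  rw [lists, sum_image fun x _ y _ e => Prod.ext (List.cons.inj e).1 (List.cons.inj e).2,
    sum_product]

lemma card_lists (k : ℕ) : ∑ _l ∈ (lists k : Finset (List X)), (1 : ℝ) = Fintype.card X ^ k := by
  induction k with
  | zero => simp [lists]
  | succ k ih => rw [sum_succ, ih, pow_succ']; simp

def LS (L : ℕ) : Finset (List X) := (Ico L (2 * L)).biUnion lists

lemma sum_LS (L : ℕ) (f : List X → ℝ) :
    ∑ l ∈ LS L, f l = ∑ k ∈ Ico L (2 * L), ∑ l ∈ lists k, f l :=
  sum_biUnion fun _ _ _ _ h => disjoint_left.2 fun _ a b =>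
    h ((mem_lists.1 a).symm.trans (mem_lists.1 b))

lemma mem_LS {L : ℕ} {l : List X} (h : l ∈ LS L) : L ≤ l.length ∧ l.length < 2 * L := by
  obtain ⟨k, hk, h⟩ := mem_biUnion.1 h
  rw [mem_lists.1 h]; exact mem_Ico.1 hk

def wt (M : X → X → ℝ) : List X → ℝ
  | a :: b :: l => M a b * wt M (b :: l)
  | _ => 1

omit [Fintype X] [DecidableEq X] in
lemma wt_app (M : X → X → ℝ) (a : X) (l : List X) (b : X) (r : List X) :
    wt M (a :: (l ++ b :: r)) = wt M (a :: (l ++ [b])) * wt M (b :: r) := by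
  induction l generalizing a with
  | nil => simp [wt]
  | cons c l ih => simp only [List.cons_append, wt, ih, mul_assoc]

omit [Fintype X] [DecidableEq X] in
lemma wt_nn {M : X → X → ℝ} (h : ∀ a b, 0 ≤ M a b) : ∀ l, 0 ≤ wt M l
  | [] => zero_le_one
  | [_] => zero_le_one
  | a :: b :: l => mul_nonneg (h a b) (wt_nn h (b :: l))

lemma sum_wt (M : Matrix X X ℝ) (k : ℕ) (a b : X) :
    ∑ l ∈ lists k, wt M (a :: (l ++ [b])) = (M ^ (k + 1)) a b := by
  induction k generalizing a with
  | zero => simp [lists, wt]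
  | succ k ih =>
    rw [sum_succ, pow_succ', Matrix.mul_apply]
    simp only [List.cons_append, wt, ← mul_sum, ih]

lemma sum_wt' (M : Matrix X X ℝ) (L : ℕ) (a b : X) :
    ∑ l ∈ LS L, wt M (a :: (l ++ [b])) = Gh M L a b := by
  simp only [sum_LS, sum_wt, Gh]

omit [Fintype X] [DecidableEq X] in
lemma wt_eq (M : X → X → ℝ) (d : X) (s : ℕ) (W : List X) (h : W.length = s + 1) :
    ((List.range s).map fun i => M (W.getD i d) (W.getD (i + 1) d)).prod = wt M W := by
  induction s generalizing W with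
  | zero => match W, h with | [_], _ => simp [wt]
  | succ s ih =>
    match W, h with
    | a :: b :: l, h =>
      rw [List.range_succ_eq_map, List.map_cons, List.prod_cons, List.map_map, wt,
        ← ih (b :: l) (by simpa using h)]
      rfl

end lists

variable {n : ℕ}

abbrev Ix (n : ℕ) := Lit n × Lit n × (Lit n × Lit n × List (Lit n)) × List (Lit n) ×
  (Lit n × Lit n × List (Lit n))

def WW : Ix n → List (Lit n)
  | (u, v, (x1, x2, x), y, (z1, z2, z)) =>
    ng u :: x1 :: (x ++ x2 :: u :: (y ++ v :: z1 :: (z ++ [z2, ng v])))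

def bd : Ix n → List (Lit n)
  | (u, v, (x1, x2, x), y, (z1, z2, z)) => z ++ z2 :: z1 :: (y ++ (x ++ [x2, x1, v, u]))

def I0 (L : ℕ) : Finset (Ix n) :=
  univ ×ˢ univ ×ˢ (univ ×ˢ univ ×ˢ LS L) ×ˢ LS L ×ˢ (univ ×ˢ univ ×ˢ LS L)

def II (L : ℕ) : Finset (Ix n) := (I0 L).filter fun i => ((bd i).map Prod.fst).Nodup

def CI (i : Ix n) : List (Finset (Lit n)) := CL (fun k => (WW i).getD k i.1) (bd i).length

lemma len (i : Ix n) : (WW i).length = (bd i).length + 1 + 1 := by
  obtain ⟨u, v, ⟨x1, x2, x⟩, y, ⟨z1, z2, z⟩⟩ := i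
  simp [WW, bd]; omega

lemma db {L : ℕ} (hL : 3 ≤ L) {i : Ix n} (hi : i ∈ II L) :
    (∃ a b, DB (fun k => (WW i).getD k i.1) a b (bd i).length L) ∧ (bd i).length ≤ 6 * L + 3 := by
  obtain ⟨u, v, ⟨x1, x2, x⟩, y, ⟨z1, z2, z⟩⟩ := i
  obtain ⟨h0, hn⟩ := mem_filter.1 hi
  simp only [I0, mem_product, mem_univ, true_and] at h0
  have a1 := mem_LS h0.1
  have a2 := mem_LS h0.2.1
  have a3 := mem_LS h0.2.2
  have hl : (bd (u, v, (x1, x2, x), y, (z1, z2, z))).length = x.length + y.length + z.length + 6 := by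
    simp [bd]; omega
  set bo := x1 :: (x ++ x2 :: u :: (y ++ v :: z1 :: (z ++ [z2]))) with hbo
  have hp : bo.Perm (bd (u, v, (x1, x2, x), y, (z1, z2, z))) := by
    rw [List.perm_iff_count]
    intro a
    simp only [hbo, bd, List.count_cons, List.count_append, List.count_nil]; omega
  have hn' : (bo.map Prod.fst).Nodup := (hp.map _).nodup_iff.2 hn
  have hW : WW (u, v, (x1, x2, x), y, (z1, z2, z)) = ng u :: (bo ++ [ng v]) := by simp [WW, hbo]
  have g : ∀ (l : List (Lit n)) c r k, k = l.length → (l ++ c :: r).getD k u = c := by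
    rintro l c r _ rfl; simp
  have ga : (WW (u, v, (x1, x2, x), y, (z1, z2, z))).getD (x.length + 3) u = u := by
    refine Eq.trans ?_ (g (ng u :: x1 :: (x ++ [x2])) u (y ++ v :: z1 :: (z ++ [z2, ng v]))
      (x.length + 3) (by simp))
    simp [WW]
  have gb : (WW (u, v, (x1, x2, x), y, (z1, z2, z))).getD (x.length + y.length + 4) u = v := by
    refine Eq.trans ?_ (g (ng u :: x1 :: (x ++ x2 :: u :: y)) v (z1 :: (z ++ [z2, ng v]))
      (x.length + y.length + 4) (by simp; omega))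
    simp [WW]
  refine ⟨⟨x.length + 3, x.length + y.length + 4, fun i j i1 i2 j1 j2 e => ?_, ?_, ?_, by omega,
    by omega, by omega, by omega, hL⟩, by omega⟩
  · obtain ⟨i, rfl⟩ := Nat.exists_eq_add_one.2 i1
    obtain ⟨j, rfl⟩ := Nat.exists_eq_add_one.2 j1
    rw [← hp.length_eq] at i2 j2
    simp only [hW, List.getD_cons_succ] at e
    rw [List.getD_append _ _ _ _ i2, List.getD_append _ _ _ _ j2, List.getD_eq_getElem _ _ i2,
      List.getD_eq_getElem _ _ j2] at e
    have := (hn'.getElem_inj_iff (i := i) (j := j) (hi := by simpa using i2)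
      (hj := by simpa using j2)).1 (by simpa using e)
    omega
  · simp only [ga]; rfl
  · simp only [gb]
    rw [hW, ← hp.length_eq]
    exact g (ng u :: bo) _ _ _ rfl

lemma sum_le {L : ℕ} {M : Matrix (Lit n) (Lit n) ℝ} (h0 : ∀ a b, 0 ≤ M a b) :
    ∑ j ∈ II L, wt M (WW j) ≤ ∑ u, ∑ v, Lam ng M L u * Gh M L u v * Lam ng M L (ng v) := by
  set F : Lit n → Lit n × Lit n × List (Lit n) → ℝ := fun u t =>
    if t.1 ≠ ng t.2.1 then M (ng u) t.1 * wt M (t.1 :: (t.2.2 ++ [t.2.1])) * M t.2.1 u else 0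
  have hF : ∀ u, ∑ t ∈ univ ×ˢ univ ×ˢ LS L, F u t = Lam ng M L u := fun u => by
    simp only [sum_product, Lam, F]
    refine sum_congr rfl fun x _ => sum_congr rfl fun y _ => ?_
    split_ifs
    · rw [← sum_mul, ← mul_sum, sum_wt']
    · simp
  have F0 : ∀ u t, 0 ≤ F u t := fun u t => by
    simp only [F]; split_ifs
    · exact mul_nonneg (mul_nonneg (h0 _ _) (wt_nn h0 _)) (h0 _ _)
    · exact le_rfl
  calc _ = ∑ j ∈ II L, F j.1 j.2.2.1 * (wt M (j.1 :: (j.2.2.2.1 ++ [j.2.1])) *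
        F (ng j.2.1) j.2.2.2.2) := by
        refine sum_congr rfl fun j hj => ?_
        obtain ⟨u, v, ⟨x1, x2, x⟩, y, ⟨z1, z2, z⟩⟩ := j
        have hn := (mem_filter.1 hj).2
        have a1 : x1 ≠ ng x2 := by rintro rfl; simp [bd, ng, List.nodup_append] at hn
        have a2 : z1 ≠ ng z2 := by rintro rfl; simp [bd, ng, List.nodup_append] at hn
        simp only [F, if_pos a1, if_pos a2, WW, wt, ng_ng]
        rw [wt_app M x1]
        simp only [wt]
        rw [wt_app M u]
        simp only [wt]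
        rw [wt_app M z1 z z2 [ng v]]
        simp only [wt]; ring
    _ ≤ _ := by
        refine (sum_le_sum_of_subset_of_nonneg (filter_subset _ _) fun j _ _ =>
          mul_nonneg (F0 _ _) (mul_nonneg (wt_nn h0 _) (F0 _ _))).trans (le_of_eq ?_)
        rw [I0, sum_product]
        refine sum_congr rfl fun u _ => ?_
        rw [sum_product]
        refine sum_congr rfl fun v _ => ?_
        rw [sum_product, ← hF, ← hF, ← sum_wt', mul_assoc, sum_mul]
        refine sum_congr rfl fun t _ => ?_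
        rw [sum_product, sum_mul_sum, mul_sum]
        exact sum_congr rfl fun y _ => by rw [mul_sum]

noncomputable def NW (q : ℝ) (l : List (Lit n)) : ℝ :=
  if (l.map Prod.fst).Nodup then q ^ l.length else 0

section first
variable {q θ : ℝ} {J : ℕ} (hq : 0 ≤ q) (h0 : 0 ≤ θ) (h1 : θ ≤ 1) (hθ : θ ≤ 2 * (n - J) * q)
include hq hθ

lemma e1 {l : List (Lit n)} (h : l.length ≤ J) : θ * NW q l ≤ ∑ a, NW q (a :: l) := by
  unfold NW
  split_ifs with hn
  · set T := (l.map Prod.fst).toFinsetᶜ ×ˢ (univ : Finset Bool)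
    have hT : 2 * ((n : ℝ) - J) ≤ T.card := by
      have h2 : (l.map Prod.fst).toFinset.card ≤ J :=
        (List.toFinset_card_le _).trans (by simpa using h)
      have h3 : ((l.map Prod.fst).toFinset.card : ℝ) ≤ J := by exact_mod_cast h2
      rw [card_product, card_compl, Nat.cast_mul, Nat.cast_sub (card_le_univ _)]
      simp only [Fintype.card_fin, card_univ, Fintype.card_bool]
      push_cast; linarith
    refine le_trans ?_ (sum_le_sum_of_subset_of_nonneg (subset_univ T) fun a _ _ => by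
      split_ifs <;> positivity)
    have h4 : ∀ a ∈ T, (if ((a :: l).map Prod.fst).Nodup then q ^ (a :: l).length else 0) =
        q ^ (l.length + 1) := fun a ha => if_pos (List.nodup_cons.2
      ⟨fun c => mem_compl.1 (mem_product.1 ha).1 (List.mem_toFinset.2 c), hn⟩)
    rw [sum_congr rfl h4, sum_const, nsmul_eq_mul, pow_succ', ← mul_assoc]
    exact mul_le_mul_of_nonneg_right (hθ.trans (mul_le_mul_of_nonneg_right hT hq)) (by positivity)
  · rw [mul_zero]
    exact sum_nonneg fun a _ => by split_ifs <;> positivity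

include h0

lemma e2 (k : ℕ) {r : List (Lit n)} (h : r.length + k ≤ J) :
    θ ^ k * NW q r ≤ ∑ l ∈ lists k, NW q (l ++ r) := by
  induction k with
  | zero => simp [lists]
  | succ k ih =>
    rw [sum_succ, sum_comm, pow_succ', mul_assoc]
    refine (mul_le_mul_of_nonneg_left (ih (by omega)) h0).trans ?_
    rw [mul_sum]
    exact sum_le_sum fun l hl => e1 hq hθ (by simp [mem_lists.1 hl]; omega)

include h1

lemma e3 (L : ℕ) {r : List (Lit n)} (h : r.length + 2 * L ≤ J) :
    L * θ ^ (2 * L) * NW q r ≤ ∑ l ∈ LS L, NW q (l ++ r) := by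
  have : 0 ≤ NW q r := by unfold NW; split_ifs <;> positivity
  rw [sum_LS, mul_assoc]
  refine le_trans (le_of_eq ?_) (card_nsmul_le_sum _ _ (θ ^ (2 * L) * NW q r) fun k hk =>
    le_trans (mul_le_mul_of_nonneg_right (pow_le_pow_of_le_one h0 h1 (mem_Ico.1 hk).2.le) this)
      (e2 hq h0 hθ k (by have := mem_Ico.1 hk; omega)))
  rw [Nat.card_Ico, show 2 * L - L = L by omega, nsmul_eq_mul]

lemma first {L : ℕ} (hJ : 6 * L + 6 ≤ J) :
    L ^ 3 * θ ^ (6 * L + 6) ≤ ∑ i ∈ I0 L, NW q (bd (n := n) i) := by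
  set c := L * θ ^ (2 * L) with hc
  have c0 : 0 ≤ c := by positivity
  have st : ∀ {α : Type} (T : Finset α) (f g : α → ℝ) (x y z : ℝ), 0 ≤ x → y ≤ ∑ a ∈ T, f a →
      (∀ a ∈ T, x * f a ≤ g a) → z = x * y → z ≤ ∑ a ∈ T, g a := fun T f g x y z hx a b e => by
    rw [e]
    exact (mul_le_mul_of_nonneg_left a hx).trans ((mul_sum _ _ _).le.trans (sum_le_sum b))
  simp only [I0, sum_product, bd]
  refine st _ _ _ (c ^ 3 * θ ^ 5) _ _ (by positivity) (e1 hq hθ (l := []) (by simp))
    (fun u _ => ?_) (by simp only [NW, hc]; simp; ring)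
  refine st _ _ _ (c ^ 3 * θ ^ 4) _ _ (by positivity) (e1 hq hθ (l := [u]) (by simp; omega))
    (fun v _ => ?_) (by ring)
  refine st _ _ _ (c ^ 3 * θ ^ 3) _ _ (by positivity) (e1 hq hθ (l := [v, u]) (by simp; omega))
    (fun x1 _ => ?_) (by ring)
  refine st _ _ _ (c ^ 3 * θ ^ 2) _ _ (by positivity) (e1 hq hθ (l := [x1, v, u]) (by simp; omega))
    (fun x2 _ => ?_) (by ring)
  refine st _ _ _ (c ^ 2 * θ ^ 2) _ _ (by positivity)
    (e3 hq h0 h1 hθ L (r := [x2, x1, v, u]) (by simp; omega)) (fun x hx => ?_) (by ring)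
  have a1 := mem_LS hx
  refine st _ _ _ (c * θ ^ 2) _ _ (by positivity)
    (e3 hq h0 h1 hθ L (r := x ++ [x2, x1, v, u]) (by simp; omega)) (fun y hy => ?_) (by ring)
  have a2 := mem_LS hy
  refine st _ _ _ (c * θ) _ _ (by positivity)
    (e1 hq hθ (l := y ++ (x ++ [x2, x1, v, u])) (by simp; omega)) (fun z1 _ => ?_) (by ring)
  refine st _ _ _ c _ _ c0
    (e1 hq hθ (l := z1 :: (y ++ (x ++ [x2, x1, v, u]))) (by simp; omega)) (fun z2 _ => ?_) (by ring)
  exact e3 hq h0 h1 hθ L (by simp; omega)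

end first

end Pool.Agent.H44.USF
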