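import Pool.Agent.H44.USF4

open Finset Relation

namespace Pool.Agent.H44.USF

section
variable {X : Type}

def pairs : List X → List (X × X)
  | a :: b :: l => (a, b) :: pairs (b :: l)
  | _ => []

lemma pairs_snd (a : X) (l : List X) : (pairs (a :: l)).map Prod.snd = l := by
  induction l generalizing a with
  | nil => rfl
  | cons b l ih => simp [pairs, ih]

lemma pairs_fst (l : List X) (z : X) : (pairs (l ++ [z])).map Prod.fst = l := by
  induction l with
  | nil => rfl
  | cons a l ih => cases l with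
    | nil => rfl
    | cons b l => simpa [pairs] using ih

lemma pairs_chain {r : X → X → Prop} : ∀ l : List X, l.IsChain r → ∀ p ∈ pairs l, r p.1 p.2
  | [], _, _, h => by simp [pairs] at h
  | [_], _, _, h => by simp [pairs] at h
  | a :: b :: l, hc, p, h => by
    rw [List.isChain_cons_cons] at hc
    rcases List.mem_cons.1 h with rfl | h
    · exact hc.1
    · exact pairs_chain _ hc.2 p h

lemma path {r : X → X → Prop} {x y : X} (h : ReflTransGen r x y) : ∃ l, (x :: l).IsChain r ∧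
    (x :: l).Nodup ∧ (x :: l).getLast? = some y ∧ ∀ u ∈ x :: l, ReflTransGen r u y := by
  induction h using ReflTransGen.head_induction_on with
  | refl => exact ⟨[], by simp, by simp, rfl, by simp [ReflTransGen.refl]⟩
  | @head a c h1 h2 ih =>
    obtain ⟨l, a1, a2, a3, a4⟩ := ih
    by_cases h : a ∈ c :: l
    · obtain ⟨s, t, e⟩ := List.append_of_mem h
      rw [e] at a1 a2 a3 a4
      exact ⟨t, a1.right_of_append, a2.sublist (List.sublist_append_right _ _),
        by simpa [List.getLast?_append] using a3, fun u hu => a4 u (List.mem_append_right _ hu)⟩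
    · refine ⟨c :: l, List.isChain_cons_cons.2 ⟨h1, a1⟩, List.nodup_cons.2 ⟨h, a2⟩,
        by simpa using a3, fun u hu => ?_⟩
      rcases List.mem_cons.1 hu with rfl | hu
      · exact h2.head h1
      · exact a4 u hu

lemma exmax (P : List X → Prop) (N : ℕ) (h : ∃ l, P l) (hb : ∀ l, P l → l.length ≤ N) :
    ∃ l, P l ∧ ∀ l', P l' → l'.length ≤ l.length := by
  by_contra hc
  push Not at hc
  have : ∀ k, ∃ l, P l ∧ k ≤ l.length := fun k => by
    induction k with
    | zero => exact h.imp fun l hl => ⟨hl, Nat.zero_le _⟩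
    | succ k ih =>
      obtain ⟨l, a, b⟩ := ih
      obtain ⟨l', c, d⟩ := hc l a
      exact ⟨l', c, by omega⟩
  obtain ⟨l, a, b⟩ := this (N + 1)
  have := hb l a
  omega

lemma cyc [Fintype X] {r : X → X → Prop} {Q : X → Prop} {x y : X} (hxy : x ≠ y) (hy : Q y)
    (h : ReflTransGen r x y) (cl : ∀ u v, ReflTransGen r u v → Q v → Q u)
    (su : ∀ u, Q u → ∃ v, r u v ∧ Q v) (pre : ∀ u, Q u → ∃ v, r v u) :
    ∃ l z z', (z' :: (l ++ [z])).IsChain r ∧ (pairs (z' :: (l ++ [z]))).Nodup ∧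
      l.length ≤ Fintype.card X ∧ y ∈ l ∧ (z = x ∧ z' = x ∨ x ∈ l ∧ z ∈ l ∧ z' ∈ l) := by
  obtain ⟨l, ⟨a1, a2, a3, a4⟩, hm⟩ := exmax (fun l => (x :: l).IsChain r ∧ (x :: l).Nodup ∧ y ∈ l ∧
      ∀ u ∈ x :: l, Q u) (Fintype.card X) (by
    obtain ⟨l, a1, a2, a3, a4⟩ := path h
    exact ⟨l, a1, a2, (List.mem_cons.1 (List.mem_of_getLast? a3)).resolve_left hxy.symm,
      fun u hu => cl u y (a4 u hu) hy⟩) fun l h => (List.nodup_cons.1 h.2.1).2.length_le_card
  obtain ⟨z, b1, b2⟩ := su _ (a4 _ (List.getLast_mem (List.cons_ne_nil x l)))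
  have c1 : (x :: l ++ [z]).IsChain r := List.isChain_append.2 ⟨a1, by simp, fun u hu v hv => by
    rw [List.getLast?_eq_some_getLast (List.cons_ne_nil x l)] at hu
    simp only [Option.mem_def, Option.some.injEq, List.head?_cons] at hu hv
    rwa [← hu, ← hv]⟩
  have c2 : z ∈ x :: l := by_contra fun c => by
    have := hm (l ++ [z]) ⟨c1, List.nodup_append.2 ⟨a2, by simp, fun u hu v hv e =>
      c (by rwa [← List.mem_singleton.1 hv, ← e])⟩, List.mem_append_left _ a3, fun u hu => by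
        rcases List.mem_append.1 (show u ∈ x :: l ++ [z] from hu) with hu | hu
        · exact a4 u hu
        · rwa [List.mem_singleton.1 hu]⟩
    simp at this
  rcases List.mem_cons.1 c2 with rfl | c2
  · refine ⟨l, z, z, c1, List.Nodup.of_map Prod.snd ?_, (List.nodup_cons.1 a2).2.length_le_card, a3,
      Or.inl ⟨rfl, rfl⟩⟩
    rw [pairs_snd]
    exact List.perm_append_comm.nodup_iff.2 a2
  obtain ⟨l', ⟨⟨l0, e⟩, d1, d2, d3⟩, hm'⟩ := exmax (fun l' => (∃ l0, l' = l0 ++ x :: l) ∧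
      (l' ++ [z]).IsChain r ∧ l'.Nodup ∧ ∀ u ∈ l', Q u) (Fintype.card X)
    ⟨x :: l, ⟨[], rfl⟩, c1, a2, a4⟩ fun l h => h.2.2.1.length_le_card
  obtain ⟨g, l2, rfl, hs⟩ : ∃ g l2, l' = g :: l2 ∧ z ∈ l2 := by
    rw [e]
    cases l0 with
    | nil => exact ⟨x, l, rfl, c2⟩
    | cons g l0 => exact ⟨g, _, rfl, by simp [c2]⟩
  obtain ⟨z', f1⟩ := pre g (d3 g List.mem_cons_self)
  have f2 : (z' :: (g :: l2 ++ [z])).IsChain r := List.isChain_cons_cons.2 ⟨f1, d1⟩
  have f3 : z' ∈ g :: l2 := by_contra fun c => by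
    have := hm' (z' :: g :: l2) ⟨⟨z' :: l0, by rw [e]; rfl⟩, f2, List.nodup_cons.2 ⟨c, d2⟩,
      fun u hu => by
        rcases List.mem_cons.1 hu with rfl | hu
        · exact cl _ g (ReflTransGen.single f1) (d3 g List.mem_cons_self)
        · exact d3 u hu⟩
    simp at this
  refine ⟨g :: l2, z, z', f2, List.nodup_cons.2 ⟨fun c => ?_, List.Nodup.of_map Prod.fst ?_⟩,
    d2.length_le_card, by rw [e]; simp [a3], Or.inr ⟨by rw [e]; simp, List.mem_cons_of_mem _ hs, f3⟩⟩
  · have := List.mem_map_of_mem (f := Prod.snd) c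
    rw [pairs_snd] at this
    rcases List.mem_append.1 this with c | c
    · exact (List.nodup_cons.1 d2).1 c
    · have c' : g = z := List.mem_singleton.1 c
      exact (List.nodup_cons.1 d2).1 (c' ▸ hs)
  · exact (pairs_fst (g :: l2) z).symm ▸ d2

end

variable {n : ℕ}

def cw (x y z z' : Lit n) (l : List (Lit n)) : List (Finset (Lit n)) :=
  {x, y} :: (pairs (z' :: (l ++ [z]))).map fun p => im p.1 p.2

lemma cw_len (x y z z' : Lit n) (l : List (Lit n)) : (cw x y z z' l).length = l.length + 2 := by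
  have := congrArg List.length (pairs_snd z' (l ++ [z]))
  simp only [List.length_map, List.length_append, List.length_singleton] at this
  simp [cw, this]

lemma val_eq {c : Finset (Lit n)} (h : Val c) {u : Lit n} (hu : u ∈ c) :
    ∃ v, u.1 ≠ v.1 ∧ c = {u, v} := by
  obtain ⟨a, b, -, rfl⟩ := card_eq_two.1 h.1
  have : a.1 ≠ b.1 := fun e => by simpa [e] using h.2
  rcases mem_insert.1 hu with rfl | hu
  · exact ⟨b, this, rfl⟩
  · rw [mem_singleton.1 hu]; exact ⟨a, this.symm, pair_comm _ _⟩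

lemma witness {H : Finset (Finset (Lit n))} (hne : H.Nonempty) (hv : ∀ c ∈ H, Val c)
    {a : Fin n → Bool} (ha : ∀ c ∈ H, ∃ l ∈ c, a l.1 = l.2)
    (hu : ∀ b : Fin n → Bool, (∀ c ∈ H, ∃ l ∈ c, b l.1 = l.2) →
      ∀ i, (∃ c ∈ H, ∃ l ∈ c, l.1 = i) → b i = a i) :
    ∃ x y z z' l, (cw x y z z' l).Nodup ∧ (∀ c ∈ cw x y z z' l, c ∈ H) ∧
      l.length ≤ Fintype.card (Lit n) ∧ y ∈ l ∧ (z = x ∧ z' = x ∨ x ∈ l ∧ z ∈ l ∧ z' ∈ l) := by
  classical
  set r : Lit n → Lit n → Prop := fun x z => a x.1 = x.2 ∧ a z.1 = z.2 ∧ im x z ∈ H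
  set U := univ.filter fun l : Lit n => a l.1 = l.2 ∧ ∃ c ∈ H, ∃ l' ∈ c, l'.1 = l.1
  obtain ⟨z0, hz, hmin⟩ := exists_min_image U
    (fun z => (univ.filter (ReflTransGen r · z)).card) (by
      obtain ⟨c, hc⟩ := hne
      obtain ⟨l, h1, h2⟩ := ha c hc
      exact ⟨l, mem_filter.2 ⟨mem_univ _, h2, c, hc, l, h1, rfl⟩⟩)
  have back : ∀ x, ReflTransGen r x z0 → ReflTransGen r z0 x := fun x hx => by
    rcases hx.cases_head with rfl | ⟨v, h1, -⟩
    · exact hx
    have := eq_of_subset_of_card_le (s := univ.filter (ReflTransGen r · x))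
      (t := univ.filter (ReflTransGen r · z0))
      (fun u hu => mem_filter.2 ⟨mem_univ _, (mem_filter.1 hu).2.trans hx⟩)
      (hmin x (mem_filter.2 ⟨mem_univ _, h1.1, _, h1.2.2, ng x, mem_insert_self _ _, rfl⟩))
    exact (mem_filter.1 (this.ge (mem_filter.2 ⟨mem_univ z0, ReflTransGen.refl⟩))).2
  set b : Fin n → Bool := fun i => if ReflTransGen r (i, a i) z0 then !a i else a i with hb
  have fl : ∀ l : Lit n, a l.1 = l.2 → (b l.1 ≠ l.2 ↔ ReflTransGen r l z0) := fun l h => by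
    simp only [hb, h]; split_ifs with c <;> simp [c]
  obtain ⟨c, hc, hv'⟩ : ∃ c ∈ H, ∀ l ∈ c, b l.1 ≠ l.2 := by
    by_contra hc
    push Not at hc
    have h1 := (mem_filter.1 hz).2
    exact (fl z0 h1.1).2 ReflTransGen.refl ((hu b hc _ h1.2).trans h1.1)
  obtain ⟨y, h1, h2⟩ := ha c hc
  obtain ⟨x, h3, rfl⟩ := val_eq (hv c hc) h1
  have qy := (fl y h2).1 (hv' y h1)
  have hx : a x.1 = x.2 := by_contra fun h => by
    have h4 : a (ng x).1 = (ng x).2 := by
      simp only [ng]; revert h; cases a x.1 <;> cases x.2 <;> simp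
    have h5 := (fl _ h4).2 (qy.head ⟨h4, h2, by rwa [im, ng_ng, pair_comm]⟩)
    have h6 := hv' x (by simp)
    revert h5 h6; simp only [ng]; cases b x.1 <;> cases x.2 <;> simp
  have qx := (fl x hx).1 (hv' x (by simp))
  have ne : x ≠ y := fun e => h3 (by rw [e])
  obtain ⟨l, z, z', d1, d2, d3⟩ := cyc (r := r) (Q := (ReflTransGen r · z0)) ne qy
    (qx.trans (back y qy)) (fun u v h h' => h.trans h') (fun u hu => by
      rcases (hu.trans (back x qx)).cases_head with rfl | ⟨v, h1, h2⟩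
      · rcases (hu.trans (back y qy)).cases_head with e | ⟨v, h1, h2⟩
        · exact absurd e ne
        · exact ⟨v, h1, h2.trans qy⟩
      · exact ⟨v, h1, h2.trans qx⟩) fun u hu => by
      rcases (qx.trans (back u hu)).cases_tail with rfl | ⟨v, -, h2⟩
      · rcases (qy.trans (back u hu)).cases_tail with e | ⟨v, -, h2⟩
        · exact absurd e ne
        · exact ⟨v, h2⟩
      · exact ⟨v, h2⟩
  have d4 := pairs_chain _ d1
  have nt : ∀ u : Lit n, a u.1 = u.2 → a (ng u).1 ≠ (ng u).2 := fun u h => by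
    simp only [ng, h]; cases u.2 <;> simp
  refine ⟨x, y, z, z', l, List.nodup_cons.2 ⟨fun h => ?_, d2.map_on fun p hp q hq e => ?_⟩,
    fun c hc' => ?_, d3⟩
  · obtain ⟨p, hp, e⟩ := List.mem_map.1 h
    have : ng p.1 ∈ ({x, y} : Finset (Lit n)) := e ▸ mem_insert_self _ _
    rcases mem_insert.1 this with e | e
    · exact nt _ (d4 p hp).1 (e ▸ hx)
    · exact nt _ (d4 p hp).1 (mem_singleton.1 e ▸ h2)
  · rcases im_eq e with h | h
    · exact Prod.ext h.1 h.2
    · exact absurd (h.1 ▸ (d4 p hp).1) (nt _ (d4 q hq).2.1)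
  · rcases List.mem_cons.1 hc' with rfl | h
    · rwa [pair_comm]
    · obtain ⟨p, hp, rfl⟩ := List.mem_map.1 h
      exact (d4 p hp).2.2

lemma card_val : (Nat.card {c : Finset (Lit n) // Val c} : ℝ) = 2 * n * (n - 1) := by
  set P := univ.filter fun z : Lit n × Lit n => z.1.1 ≠ z.2.1
  have h1 : P.card = (univ.filter (Val (n := n))).card * 2 := by
    rw [card_eq_sum_card_fiberwise (f := fun z : Lit n × Lit n => ({z.1, z.2} : Finset (Lit n)))
      (t := univ.filter Val) fun z hz => mem_filter.2 ⟨mem_univ _, val_pair (mem_filter.1 hz).2⟩,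
      ← smul_eq_mul, ← sum_const]
    refine sum_congr rfl fun c hc => ?_
    have hc := (mem_filter.1 hc).2
    obtain ⟨u, hu⟩ := card_pos.1 (hc.1 ▸ two_pos : 0 < c.card)
    obtain ⟨v, h, rfl⟩ := val_eq hc hu
    rw [← card_pair (a := (u, v)) (b := (v, u)) fun e => h (congrArg (·.1.1) e)]
    congr 1
    ext z
    simp only [P, mem_filter, mem_univ, true_and, mem_insert, mem_singleton, ← coe_inj, coe_insert,
      coe_singleton, Set.pair_eq_pair_iff, Prod.ext_iff (x := z)]
    refine ⟨And.right, fun e => ⟨?_, e⟩⟩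
    rcases e with e | e <;> rw [e.1, e.2]
    exacts [h, h.symm]
  have h2 : (P.card : ℝ) = 2 * n * ((n - 1) * 2) := by
    rw [card_eq_sum_card_fiberwise (f := Prod.fst) (t := univ) fun _ _ => mem_univ _, Nat.cast_sum,
      sum_congr rfl (g := fun _ => ((n : ℝ) - 1) * 2) fun u _ => ?_]
    · simp; left; ring
    have : P.filter (·.1 = u) = {u} ×ˢ ({u.1}ᶜ ×ˢ univ) := by
      ext z
      simp only [P, mem_filter, mem_univ, true_and, mem_product, mem_singleton, mem_compl, and_true]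
      exact ⟨fun h => ⟨h.2, fun e => h.1 (by rw [e, h.2])⟩, fun h => ⟨fun e => h.2 (by rw [← e, h.1]), h.1⟩⟩
    rw [this, card_product, card_product, card_compl, card_singleton, card_singleton, Nat.cast_mul,
      Nat.cast_mul, Nat.cast_sub (Fintype.card_pos_iff.2 ⟨u.1⟩)]
    simp
  rw [Nat.card_eq_fintype_card, Fintype.card_subtype]
  rw [h1] at h2
  push_cast at h2
  linarith

end Pool.Agent.H44.USF
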