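import Pool.Agent.H44.USF5

open Finset

namespace Pool.Agent.H44.USF

variable {n : ℕ}

def WIT (m : ℕ) (e : Om (Val (n := n))) : Prop :=
  ∃ x y z z' l, ((cw x y z z' l).Nodup ∧ pres Val m (cw x y z z' l).toFinset e) ∧
    l.length ≤ Fintype.card (Lit n) ∧ y ∈ l ∧ (z = x ∧ z' = x ∨ x ∈ l ∧ z ∈ l ∧ z' ∈ l)

lemma ex_le {ι : Type} (I : Finset ι) (F : ι → Om (Val (n := n)) → Prop) {c k : ℝ} (hc : 0 ≤ c)
    (hk : I.card ≤ k) (h : ∀ i ∈ I, PP Val (F i) ≤ c) :
    PP Val (fun e => ∃ i ∈ I, F i e) ≤ k * c :=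
  (PP_le Val I F fun _ h => h).trans ((sum_le_card_nsmul _ _ _ h).trans
    (by rw [nsmul_eq_mul]; exact mul_le_mul_of_nonneg_right hk hc))

lemma geo (k N : ℕ) {r t : ℝ} (h0 : 0 ≤ r) (ht : 0 < t) (h : r ≤ 1 - 1 / t) :
    ∑ s ∈ range N, (s : ℝ) ^ k * r ^ s ≤ k.factorial * t ^ (k + 1) := by
  have h1 : 0 < 1 / t := by positivity
  have h2 := hasSum_choose_mul_geometric_of_norm_lt_one k (r := r)
    (by rw [Real.norm_of_nonneg h0]; linarith)
  calc _ ≤ ∑ s ∈ range N, k.factorial * (((s + k).choose k : ℝ) * r ^ s) := by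
        refine sum_le_sum fun s _ => ?_
        rw [← mul_assoc]
        refine mul_le_mul_of_nonneg_right ?_ (by positivity)
        have := (Nat.pow_le_pow_left (Nat.le_succ s) k).trans (Nat.pow_succ_le_ascFactorial _ k)
        rw [Nat.ascFactorial_eq_factorial_mul_choose] at this
        exact_mod_cast this
    _ ≤ _ := by
        rw [← mul_sum]
        refine mul_le_mul_of_nonneg_left ((sum_le_hasSum _ (fun s _ => by positivity) h2).trans ?_)
          (by positivity)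
        rw [← one_div_pow, ← one_div_one_div t]
        exact pow_le_pow_left₀ (one_div_nonneg.2 (by linarith))
          (one_div_le_one_div_of_le h1 (by linarith)) _

lemma wit_le {m : ℕ} (hm : m ≤ Nat.card {c // Val (n := n) c}) {p t : ℝ}
    (hp : p = m / Nat.card {c // Val (n := n) c}) (ht : 0 < t)
    (h : p * Fintype.card (Lit n) ≤ 1 - 1 / t) :
    PP Val (WIT (n := n) m) ≤ p * t ^ 2 + p ^ 2 * (24 * t ^ 5) := by
  set N := Fintype.card (Lit n)
  have p0 : 0 ≤ p := by rw [hp]; positivity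
  have r1 : p * N ≤ 1 := h.trans (by simp [ht.le])
  have u : ∀ x y z z' (l : List (Lit n)) s, l ∈ lists s → PP Val (fun e => (cw x y z z' l).Nodup ∧
      pres Val m (cw x y z z' l).toFinset e) ≤ p ^ (s + 2) := fun x y z z' l s hl => by
    rw [hp, ← mem_lists.1 hl, ← cw_len x y z z']; exact up0 Val hm _
  have cl : ∀ s, ((lists s : Finset (List (Lit n))).card : ℝ) ≤ N ^ s := fun s => by
    have := (card_lists (X := Lit n) s).le
    rwa [sum_const, nsmul_eq_mul, mul_one] at this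
  have ct : ∀ (l : List (Lit n)) s, l ∈ lists s → (l.toFinset.card : ℝ) ≤ s := fun l s hl => by
    exact_mod_cast (List.toFinset_card_le l).trans (mem_lists.1 hl).le
  refine (PP_or Val (F := fun e => ∃ s ∈ range (N + 1), ∃ l ∈ lists s, ∃ x ∈ univ,
      ∃ y ∈ l.toFinset, (cw x y x x l).Nodup ∧ pres Val m (cw x y x x l).toFinset e)
    (G := fun e => ∃ s ∈ range (N + 1), ∃ l ∈ lists s, ∃ x ∈ l.toFinset, ∃ y ∈ l.toFinset,
      ∃ z ∈ l.toFinset, ∃ z' ∈ l.toFinset,
        (cw x y z z' l).Nodup ∧ pres Val m (cw x y z z' l).toFinset e) ?_).trans (add_le_add ?_ ?_)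
  · rintro e ⟨x, y, z, z', l, a1, a2, a3, ⟨rfl, rfl⟩ | a4⟩
    · exact Or.inl ⟨_, mem_range.2 (Nat.lt_succ_of_le a2), l, mem_lists.2 rfl, _, mem_univ _, y,
        List.mem_toFinset.2 a3, a1⟩
    · exact Or.inr ⟨_, mem_range.2 (Nat.lt_succ_of_le a2), l, mem_lists.2 rfl, x,
        List.mem_toFinset.2 a4.1, y, List.mem_toFinset.2 a3, z, List.mem_toFinset.2 a4.2.1, z',
        List.mem_toFinset.2 a4.2.2, a1⟩
  · refine (PP_le Val _ _ fun _ h => h).trans ((sum_le_sum fun s _ => ex_le _ _ (by positivity)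
      (cl s) fun l hl => ex_le _ _ (by positivity) le_rfl fun x _ => ex_le _ _ (by positivity)
        (ct l s hl) fun y _ => u _ _ _ _ l s hl).trans ?_)
    have := mul_le_mul_of_nonneg_left (geo 1 (N + 1) (by positivity) ht h) p0
    refine le_trans ?_ (this.trans (by simp))
    rw [mul_sum]
    refine sum_le_sum fun s _ => ?_
    have := mul_le_mul_of_nonneg_right r1 (show 0 ≤ p * (s * (p * N) ^ s) by positivity)
    refine le_trans (le_of_eq ?_) (this.trans (by simp))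
    rw [card_univ]; ring
  · refine (PP_le Val _ _ fun _ h => h).trans ((sum_le_sum fun s _ => ex_le _ _ (by positivity)
      (cl s) fun l hl => ex_le _ _ (by positivity) (ct l s hl) fun x _ => ex_le _ _ (by positivity)
        (ct l s hl) fun y _ => ex_le _ _ (by positivity) (ct l s hl) fun z _ => ex_le _ _
          (by positivity) (ct l s hl) fun z' _ => u _ _ _ _ l s hl).trans ?_)
    have := mul_le_mul_of_nonneg_left (geo 4 (N + 1) (by positivity) ht h) (sq_nonneg p)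
    refine le_trans (le_of_eq ?_) (this.trans (by norm_num [Nat.factorial]))
    rw [mul_sum]
    exact sum_congr rfl fun s _ => by ring

lemma uns_ge {m L : ℕ} (hL : 3 ≤ L) (hm : m ≤ Nat.card {c // Val (n := n) c}) (hJ : 6 * L + 6 ≤ m)
    {p q θ : ℝ} (hp : p = m / Nat.card {c // Val (n := n) c})
    (hq : q = (m - (6 * L + 6 : ℕ)) / Nat.card {c // Val (n := n) c})
    (h1 : p * Fintype.card (Lit n) ≤ 1) (h2 : p * L ^ 3 ≤ 1)
    (h3 : 600000 * (L : ℝ) ^ 3 ≤ Fintype.card (Lit n)) (h0 : 0 ≤ θ) (h4 : θ ≤ 1)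
    (h5 : θ ≤ 2 * (n - (6 * L + 6 : ℕ)) * q) :
    q * (L ^ 3 * θ ^ (6 * L + 6)) ≤
      10 ^ 15 * PP Val fun e => ∃ i ∈ II (n := n) L, pres Val m (CI i).toFinset e := by
  have p0 : 0 ≤ p := by rw [hp]; positivity
  have q0 : 0 ≤ q := by
    rw [hq]; exact div_nonneg (sub_nonneg.2 (by exact_mod_cast hJ)) (by positivity)
  refine le_trans ?_ (second Val m _ (fun i => (CI i).toFinset) (by norm_num) fun i hi => ?_)
  · refine (mul_le_mul_of_nonneg_left (first q0 h0 h4 h5 le_rfl) q0).trans ?_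
    rw [mul_sum, II, sum_filter]
    refine sum_le_sum fun i hi => ?_
    unfold NW
    split_ifs with hn
    · obtain ⟨⟨a, b, H⟩, hl⟩ := db hL (mem_filter.2 ⟨hi, hn⟩)
      have hc : (CI i).toFinset.card = (bd i).length + 1 := by
        rw [CI, List.toFinset_card_of_nodup H.nodup]; simp [CL]
      have := low Val hm hJ _ H.val (by rw [← CI, hc]; omega)
      rwa [← CI, hc, ← hq, pow_succ'] at this
    · simp
  · obtain ⟨⟨a, b, H⟩, -⟩ := db hL hi
    obtain ⟨B, Sp, ψ, τ, P, G⟩ := H.good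
    refine le_trans ?_ (mul_le_mul_of_nonneg_right ((sum_le (G.Ph0 p0)).trans
      (G.total p0 h1 h2 h3)) (PP_nonneg _ _))
    rw [sum_mul]
    refine sum_le_sum fun j hj => ?_
    obtain ⟨⟨a', b', H'⟩, -⟩ := db hL hj
    refine (up Val hm _ (φ := fun c => p + if c ∈ (CI i).toFinset then 1 else 0)
      (fun c hc => by rw [if_pos hc]; linarith)
      (fun c => by rw [← hp]; split_ifs <;> linarith) _ H'.nodup).trans (le_of_eq ?_)
    rw [← wt_eq _ j.1 _ _ (len j), CL, List.map_map]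
    rfl

theorem main {L : ℕ} (hL : 3 ≤ L) (hn : n = (100 * L) ^ 3) : ∃ m,
    PP Val (WIT (n := n) m) ≤ 25 / (100 * L) ∧
      1 / 10 ^ 22 ≤ PP Val fun e => ∃ i ∈ II (n := n) L, pres Val m (CI i).toFinset e := by
  have hL' : (3 : ℝ) ≤ L := by exact_mod_cast hL
  set t : ℝ := 100 * L with ht
  have t1 : 300 ≤ t := by linarith
  have hn' : (n : ℝ) = t ^ 3 := by rw [hn]; push_cast; rfl
  have hle : 2 * (100 * L) ^ 2 ≤ (100 * L) ^ 3 := by
    rw [pow_succ (100 * L) 2, mul_comm]; exact Nat.mul_le_mul_left _ (by omega)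
  set m := (100 * L) ^ 3 - 2 * (100 * L) ^ 2
  have hm' : (m : ℝ) = t ^ 3 - 2 * t ^ 2 := by rw [Nat.cast_sub hle]; push_cast; rfl
  have hM := card_val (n := n)
  rw [hn'] at hM
  have t2 : 90000 ≤ t ^ 2 := by nlinarith
  have t3 : 300 * t ^ 2 ≤ t ^ 3 := by nlinarith
  have M0 : (0 : ℝ) < Nat.card {c // Val (n := n) c} := by rw [hM]; nlinarith
  have hm : m ≤ Nat.card {c // Val (n := n) c} := by
    rw [← Nat.cast_le (α := ℝ), hM, hm']; nlinarith
  have hN : (Fintype.card (Lit n) : ℝ) = 2 * t ^ 3 := by simp [hn', mul_comm]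
  set p : ℝ := m / Nat.card {c // Val (n := n) c} with hp
  have p0 : 0 ≤ p := by positivity
  have p1 : p * Fintype.card (Lit n) ≤ 1 - 1 / t := by
    rw [hp, hN, div_mul_eq_mul_div, div_le_iff₀ M0, hM, hm', one_sub_div (by linarith),
      div_mul_eq_mul_div, le_div_iff₀ (by linarith)]
    nlinarith [mul_nonneg (by positivity : 0 ≤ t ^ 3) (by nlinarith : 0 ≤ t ^ 3 - t)]
  have p2 : p * (2 * t ^ 3) ≤ 1 := by rw [← hN]; exact p1.trans (by simp; linarith)
  refine ⟨m, (wit_le hm hp (by linarith) p1).trans ?_, ?_⟩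
  · rw [le_div_iff₀ (by linarith)]
    have := mul_le_mul p2 p2 (by positivity) zero_le_one
    nlinarith
  have hJ : ((6 * L + 6 : ℕ) : ℝ) ≤ t / 12 := by push_cast; linarith
  have hJ0 : (0 : ℝ) ≤ (6 * L + 6 : ℕ) := Nat.cast_nonneg _
  set q : ℝ := (m - (6 * L + 6 : ℕ)) / Nat.card {c // Val (n := n) c} with hq
  have d4 : 4 / t ≤ 1 := (div_le_one (by linarith)).2 (by linarith)
  have L3 : t ^ 3 = 10 ^ 6 * L ^ 3 := by rw [ht]; ring
  have L0 : (0 : ℝ) ≤ L ^ 3 := by positivity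
  have key := uns_ge hL hm (by rw [← Nat.cast_le (α := ℝ), hm']; nlinarith) hp hq
    (p1.trans (by simp; linarith)) (by nlinarith) (by rw [hN]; linarith) (θ := 1 - 4 / t)
    (by linarith) (by simp; positivity) (by
      rw [hq, ← mul_div_assoc, le_div_iff₀ M0, hM, hm', hn', one_sub_div (by linarith),
        div_mul_eq_mul_div, div_le_iff₀ (by linarith)]
      have a : (t ^ 3 - t) * (t ^ 3 - 2 * t ^ 2 - t) ≤ (t ^ 3 - (6 * L + 6 : ℕ)) *
          (t ^ 3 - 2 * t ^ 2 - (6 * L + 6 : ℕ)) :=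
        mul_le_mul (by linarith) (by linarith) (by nlinarith) (by nlinarith)
      have b := mul_le_mul_of_nonneg_left a (show 0 ≤ 2 * t by linarith)
      have c : 0 ≤ t ^ 3 * (4 * t ^ 3 - 4 * t ^ 2 + 6 * t - 6) :=
        mul_nonneg (by positivity) (by nlinarith)
      nlinarith)
  have a1 : 1 / 2 ≤ (1 - 4 / t) ^ (6 * L + 6) := by
    have := one_add_mul_le_pow (a := -(4 / t)) (by linarith) (6 * L + 6)
    rw [← sub_eq_add_neg] at this
    refine le_trans ?_ this
    have : ((6 * L + 6 : ℕ) : ℝ) * (4 / t) ≤ 1 / 2 := by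
      rw [← mul_div_assoc, div_le_iff₀ (by linarith)]; linarith
    linarith
  have a2 : 1 ≤ q * (4 * t ^ 3) := by
    rw [hq, div_mul_eq_mul_div, le_div_iff₀ M0, hM, hm']
    nlinarith [mul_nonneg (by positivity : 0 ≤ t ^ 3)
      (by nlinarith : 0 ≤ 2 * t ^ 3 - 8 * t ^ 2 - 4 * (6 * L + 6 : ℕ))]
  have q0 : 0 ≤ q := by by_contra c; push Not at c; nlinarith
  have a3 := mul_le_mul_of_nonneg_left (mul_le_mul_of_nonneg_left a1 L0) q0
  rw [L3] at a2
  linarith

end Pool.Agent.H44.USF
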